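import Pool.Agent.H31.AFDefs

namespace Pool.Agent.H31.AF

open Filter

abbrev R := ℕ → ℤ

noncomputable def rp (M : Type) [AddCommGroup M] [Module R M] : Rp ℤ where
  V := M
  G := Rˣ
  a := ⟨⟨fun g => MulOpposite.op (DistribMulAction.toLinearMap ℤ M (g : R)), by
    apply MulOpposite.unop_injective; ext v; exact one_smul R v⟩, fun g h => by
    apply MulOpposite.unop_injective; ext v
    exact (congrArg (· • v) (mul_comm (g : R) h)).trans (mul_smul (h : R) (g : R) v)⟩

def X (ρ : Rp ℤ) : Prop := ∃ x, ∀ g, ρ.act x g = x → ∀ y, ρ.act y g = y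

abbrev V := ℕ →₀ ℤ

noncomputable abbrev U : Ultrafilter ℕ := hyperfilter ℕ

abbrev W := Germ (U : Filter ℕ) V

theorem val_eq (l : List (ℕ × (FreeGroup ℕ →₀ ℤ))) (α : ℕ → ℕ → V) (β : ℕ → Rˣ) :
    val (rp W) l (fun i => ((α i : ℕ → V) : W)) β =
      Germ.ofFun (l := (U : Filter ℕ)) (β := V) fun n => val (rp V) l (fun i => α i n) β := by
  induction l with
  | nil => rfl
  | cons p l ih =>
    simp only [val, List.map_cons, List.sum_cons] at ih ⊢
    rw [ih]
    refine Eq.trans ?_ (Germ.coe_add _ _).symm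
    congr 1
    simp only [Finsupp.sum]
    induction p.2.support using Finset.induction_on with
    | empty => rfl
    | insert a s ha ih =>
      simp only [Finset.sum_insert ha]
      rw [ih]
      rfl

theorem upd (α : ℕ → ℕ → V) (i : ℕ) (v : ℕ → V) :
    Function.update (fun j => ((α j : ℕ → V) : W)) i (v : W) =
      fun j => ((Function.update α i v j : ℕ → V) : W) := by
  funext j
  by_cases h : j = i
  · subst h; simp
  · simp [h]

theorem upd' (α : ℕ → ℕ → V) (i n : ℕ) (v : ℕ → V) :
    (fun j => Function.update α i v j n) = Function.update (fun j => α j n) i (v n) := by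
  funext j
  by_cases h : j = i
  · subst h; simp
  · simp [h]

theorem los (β : ℕ → Rˣ) (φ : Fm ℤ) (h : IsAction φ) (α : ℕ → ℕ → V) :
    Sat (rp W) φ (fun i => ((α i : ℕ → V) : W)) β ↔
      ∀ᶠ n in (U : Filter ℕ), Sat (rp V) φ (fun i => α i n) β := by
  induction φ generalizing α with
  | act l =>
    show val (rp W) l _ β = ((0 : ℕ → V) : W) ↔ _
    rw [val_eq]
    exact Germ.coe_eq
  | one f => exact h.elim
  | and φ ψ h1 h2 => exact (and_congr (h1 h.1 α) (h2 h.2 α)).trans eventually_and.symm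
  | or φ ψ h1 h2 => exact (or_congr (h1 h.1 α) (h2 h.2 α)).trans Ultrafilter.eventually_or.symm
  | not φ h1 => exact (not_congr (h1 h α)).trans Ultrafilter.eventually_not.symm
  | allX i φ h1 =>
    constructor
    · intro H
      have : ∀ n, ∃ v : V, Sat (rp V) φ (Function.update (fun j => α j n) i v) β →
          ∀ w : V, Sat (rp V) φ (Function.update (fun j => α j n) i w) β := fun n => by
        by_contra! H
        obtain ⟨-, w, hw⟩ := H 0
        exact hw (H w).1
      choose v hv using this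
      have H' := H (v : W)
      erw [upd, h1 h] at H'
      exact H'.mono fun n hn => hv n (upd' α i n v ▸ hn)
    · intro H v
      induction v using Germ.inductionOn with | h v => ?_
      erw [upd, h1 h]
      exact H.mono fun n hn => (upd' α i n v).symm ▸ hn (v n)
  | exX i φ h1 =>
    constructor
    · rintro ⟨v, H⟩
      induction v using Germ.inductionOn with | h v => ?_
      erw [upd, h1 h] at H
      exact H.mono fun n hn => ⟨v n, upd' α i n v ▸ hn⟩
    · intro H
      have : ∀ n, ∃ v : V, (∃ w : V, Sat (rp V) φ (Function.update (fun j => α j n) i w) β) →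
          Sat (rp V) φ (Function.update (fun j => α j n) i v) β := fun n => by
        by_cases H : ∃ w : V, Sat (rp V) φ (Function.update (fun j => α j n) i w) β
        · exact H.imp fun _ h _ => h
        · exact ⟨0, fun h => (H h).elim⟩
      choose v hv using this
      refine ⟨(v : W), ?_⟩
      erw [upd, h1 h]
      exact H.mono fun n hn => (upd' α i n v).symm ▸ hv n hn
  | allY i φ _ => exact h.elim
  | exY i φ _ => exact h.elim

theorem xW : X (rp W) := by
  refine ⟨((fun n => ∑ i ∈ Finset.range n, Finsupp.single i 1 : ℕ → V) : W), fun g hg y => ?_⟩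
  have h1 : ∀ᶠ n in (U : Filter ℕ), (g : Rˣ).1 • (∑ i ∈ Finset.range n, Finsupp.single i 1 : V) =
      ∑ i ∈ Finset.range n, Finsupp.single i 1 := Germ.coe_eq.1 hg
  have h2 : (g : Rˣ).1 = 1 := funext fun i => by
    obtain ⟨n, h3, h4⟩ :=
      (h1.and ((eventually_gt_atTop i).filter_mono Nat.hyperfilter_le_atTop)).exists
    have := DFunLike.congr_fun h3 i
    simpa [Finsupp.finset_sum_apply, Finsupp.single_apply, h4] using this
  exact (congrArg (fun r : R => r • (show W from y)) h2).trans (one_smul R _)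

theorem xV : ¬X (rp V) := by
  rintro ⟨x : V, hx⟩
  obtain ⟨n, hn⟩ := x.support.exists_notMem
  let r : R := fun i => if i = n then -1 else 1
  have hr : r * r = 1 := funext fun i => by by_cases h : i = n <;> simp [r, h]
  have := hx ⟨r, r, hr, hr⟩ (Finsupp.ext fun i => by
    show r i * (x : V) i = (x : V) i
    by_cases h : i = n
    · subst h; simp [Finsupp.notMem_support_iff.1 hn]
    · simp [r, h]) (Finsupp.single n 1 : V)
  have h2 : r n * (Finsupp.single n 1 : V) n = (Finsupp.single n 1 : V) n :=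
    congrArg (fun z : V => z n) this
  simp [r] at h2

noncomputable def fx {K : Type} [Ring K] (i : ℕ) : Fm K :=
  .act [(i, Finsupp.single (FreeGroup.of 0) 1), (i, Finsupp.single 1 (-1))]

theorem fx_iff {K : Type} [Ring K] (ρ : Rp K) (i : ℕ) (α β) :
    Sat ρ (fx i) α β ↔ ρ.act (α i) (β 0) = α i := by
  simp only [fx, Sat, val, List.map_cons, List.map_nil, List.sum_cons, List.sum_nil]
  rw [Finsupp.sum_single_index (by simp), Finsupp.sum_single_index (by simp)]
  simp [Rp.act, add_neg_eq_zero]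

theorem ax : DefinedBy X {.exX 0 (.allY 0 (.or (.not (fx 0)) (.allX 1 (fx 1))))} := by
  intro ρ
  simp only [Set.mem_singleton_iff, forall_eq, Sat, fx_iff, Function.update_self, ← imp_iff_not_or]
  exact ⟨fun h _ _ => h, fun h => h 0 1⟩

theorem main : Abstract X ∧ (∃ T, DefinedBy X T) ∧ (∀ ρ, X ρ ↔ X ρ.bar) ∧
    (∀ ρ H, X ρ → X (ρ.sub H)) ∧ ¬∃ T, (∀ φ ∈ T, IsAction φ) ∧ DefinedBy X T := by
  refine ⟨fun ρ σ e t h ⟨x, hx⟩ => ⟨e x, fun g hg y => ?_⟩, ⟨_, ax⟩, fun ρ =>
    ⟨fun ⟨x, hx⟩ => ⟨x, fun g => QuotientGroup.induction_on g fun g => hx g⟩,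
      fun ⟨x, hx⟩ => ⟨x, fun g => hx (QuotientGroup.mk g)⟩⟩,
    fun ρ H ⟨x, hx⟩ => ⟨x, fun g => hx g.1⟩, fun ⟨T, h1, h2⟩ => xV ((h2 _).2 fun φ hφ α β => ?_)⟩
  · obtain ⟨g, rfl⟩ := t.surjective g
    obtain ⟨y, rfl⟩ := e.surjective y
    rw [← h] at hg ⊢
    rw [hx g (e.injective hg)]
  · exact ((los β φ (h1 φ hφ) fun i _ => α i).1 ((h2 _).1 xW φ hφ _ _)).exists.elim fun _ h => h

end Pool.Agent.H31.AF
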