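import Mathlib

namespace Pool.Agent.H31.AF

/-- a representation `(V, G)` over `K`; the right action is `v ∘ g = (a g).unop v` -/
structure Rp (K : Type) [Ring K] : Type 1 where
  V : Type
  G : Type
  [ab : AddCommGroup V]
  [md : Module K V]
  [gp : Group G]
  a : G →* (Module.End K V)ᵐᵒᵖ

attribute [instance] Rp.ab Rp.md Rp.gp

variable {K : Type} [Ring K]

/-- `v ∘ g` -/
def Rp.act (ρ : Rp K) (v : ρ.V) (g : ρ.G) : ρ.V := (ρ.a g).unop v

/-- the faithful representation `(V, G / N)` -/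
def Rp.bar (ρ : Rp K) : Rp K :=
  ⟨ρ.V, ρ.G ⧸ ρ.a.ker, QuotientGroup.lift ρ.a.ker ρ.a le_rfl⟩

/-- the subrepresentation `(V, H)` -/
def Rp.sub (ρ : Rp K) (H : Subgroup ρ.G) : Rp K := ⟨ρ.V, H, ρ.a.comp H.subtype⟩

/-- first-order formulas; module and group variables are both indexed by `ℕ`, and an element
of the group algebra `KF` is a finitely supported map `F → K` -/
inductive Fm (K : Type) [Ring K] : Type
  | act : List (ℕ × (FreeGroup ℕ →₀ K)) → Fm K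
  | one : FreeGroup ℕ → Fm K
  | and : Fm K → Fm K → Fm K
  | or : Fm K → Fm K → Fm K
  | not : Fm K → Fm K
  | allX : ℕ → Fm K → Fm K
  | exX : ℕ → Fm K → Fm K
  | allY : ℕ → Fm K → Fm K
  | exY : ℕ → Fm K → Fm K

/-- the value of `x₁ ∘ u₁ + ⋯ + xₙ ∘ uₙ` -/
def val (ρ : Rp K) (l : List (ℕ × (FreeGroup ℕ →₀ K))) (α : ℕ → ρ.V) (β : ℕ → ρ.G) : ρ.V :=
  (l.map fun p => p.2.sum fun f c => c • ρ.act (α p.1) (FreeGroup.lift β f)).sum

/-- satisfaction under an assignment -/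
def Sat (ρ : Rp K) : Fm K → (ℕ → ρ.V) → (ℕ → ρ.G) → Prop
  | .act l, α, β => val ρ l α β = 0
  | .one f, _, β => FreeGroup.lift β f = 1
  | .and φ ψ, α, β => Sat ρ φ α β ∧ Sat ρ ψ α β
  | .or φ ψ, α, β => Sat ρ φ α β ∨ Sat ρ ψ α β
  | .not φ, α, β => ¬Sat ρ φ α β
  | .allX i φ, α, β => ∀ v, Sat ρ φ (Function.update α i v) β
  | .exX i φ, α, β => ∃ v, Sat ρ φ (Function.update α i v) β
  | .allY i φ, α, β => ∀ g, Sat ρ φ α (Function.update β i g)
  | .exY i φ, α, β => ∃ g, Sat ρ φ α (Function.update β i g)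

/-- formulas of action -/
def IsAction : Fm K → Prop
  | .act _ => True
  | .one _ => False
  | .and φ ψ => IsAction φ ∧ IsAction ψ
  | .or φ ψ => IsAction φ ∧ IsAction ψ
  | .not φ => IsAction φ
  | .allX _ φ => IsAction φ
  | .exX _ φ => IsAction φ
  | .allY _ _ => False
  | .exY _ _ => False

/-- `X = T'` -/
def DefinedBy (X : Rp K → Prop) (T : Set (Fm K)) : Prop :=
  ∀ ρ, X ρ ↔ ∀ φ ∈ T, ∀ α β, Sat ρ φ α β

/-- closed under isomorphism -/
def Abstract (X : Rp K → Prop) : Prop :=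
  ∀ (ρ σ : Rp K) (e : ρ.V ≃ₗ[K] σ.V) (t : ρ.G ≃* σ.G),
    (∀ v g, e (ρ.act v g) = σ.act (e v) (t g)) → X ρ → X σ

end Pool.Agent.H31.AF
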