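import Pool.Agent.H31.AGDefs

namespace Pool.Agent.H31.AG

open MvPolynomial

instance : Fact (∀ r : ℚ, r ^ 2 ≠ 2 + 0 * r) := ⟨fun r h => irrational_sqrt_two ⟨|r|, by
  rw [Rat.cast_abs, ← Real.sqrt_sq_eq_abs, ← Rat.cast_pow, h]; simp⟩⟩

abbrev K : Type := QuadraticAlgebra ℚ 2 0

variable {X Y : Finset ℕ}

noncomputable def s0 (p : aug K X) : aug K X := ⟨map (starRingEnd K) p.1, by
  show coeff 0 _ = 0
  rw [coeff_map, show coeff 0 p.1 = 0 from p.2, map_zero]⟩

noncomputable def s (p : (Fr K X).A) : (Fr K X).A := s0 p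

theorem ss0 (p : aug K X) : s0 (s0 p) = p := Subtype.ext <| by
  simp [s0, map_map, MvPolynomial.map_id]

theorem sc0 (c : K) (p : aug K X) : s0 (c • p) = star c • s0 p := Subtype.ext <| by
  simp [s0, smul_eq_C_mul, starRingEnd_apply]

theorem ss (p : (Fr K X).A) : s (s p) = p := ss0 p
theorem sa (p q : (Fr K X).A) : s (p + q) = s p + s q := Subtype.ext (map_add _ _ _)
theorem sm (p q : (Fr K X).A) : s (p * q) = s p * s q := Subtype.ext (map_mul _ _ _)
theorem sc (c : K) (p : (Fr K X).A) : s (c • p) = star c • s p := sc0 c p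

noncomputable def tw (μ : Hom (Fr K X) (Fr K Y)) : Hom (Fr K X) (Fr K Y) where
  f p := s (μ.f (s p))
  add p q := by rw [sa, μ.add, sa]
  mul p q := by rw [sm, μ.mul, sm]
  smul c p := by rw [sc, μ.smul, sc, star_star]

noncomputable def Φ : Aut K where
  obj := id
  map _ _ := tw
  obj_bij := Function.bijective_id
  map_bij _ _ := Function.Involutive.bijective fun ⟨f, _, _, _⟩ => by simp only [tw, ss]
  map_id _ i h := funext fun p => by simp only [tw, h, id, ss]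
  map_comp _ _ _ f g i h := funext fun p => by simp only [tw, h, Function.comp, ss]

noncomputable def RR (φ : K →+* ℝ) : Alg K :=
  letI := φ.toAlgebra
  @Alg.mk K _ ℝ _ Algebra.toModule ⟨fun a b c => mul_assoc (φ a) b c⟩
    ⟨fun a b c => mul_left_comm (φ a) b c⟩

noncomputable def tr {φ ψ : K →+* ℝ} (h : ∀ c, ψ c = φ (star c)) (ν : Hom (Fr K X) (RR φ)) :
    Hom (Fr K X) (RR ψ) where
  f p := ν.f (s p)
  add p q := (congrArg ν.f (sa p q)).trans (ν.add _ _)
  mul p q := (congrArg ν.f (sm p q)).trans (ν.mul _ _)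
  smul c p := ((congrArg ν.f (sc c p)).trans (ν.smul _ _)).trans
    (congrArg (· * (show ℝ from ν.f (s p))) (h c).symm)

theorem trCl {φ ψ : K →+* ℝ} (h : ∀ c, ψ c = φ (star c)) (T : Cl (RR ψ) X) :
    Prod.map s s ⁻¹' T.1 ∈ Cl (RR φ) X :=
  Set.Subset.antisymm (fun _ h _ h' => h' _ h) fun _ hp => T.2.ge fun ν h' =>
    hp (tr (φ := ψ) (ψ := φ) (fun c => by rw [h, star_star]) ν) fun _ hq => h' _ hq

theorem autEq {φ ψ : K →+* ℝ} (h : ∀ c, ψ c = φ (star c)) : AutEq (RR φ) (RR ψ) := by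
  have h1 : ∀ X (T : Set ((Fr K X).A × (Fr K X).A)), Prod.map s s ⁻¹' (Prod.map s s ⁻¹' T) = T :=
    fun X T => Set.ext fun p => by simp [Prod.map, ss]
  refine ⟨Φ, fun X T => ⟨_, trCl (fun c => by rw [h, star_star]) T⟩, fun X =>
    Function.bijective_iff_has_inverse.mpr ⟨fun T => ⟨_, trCl h T⟩,
      fun T => Subtype.ext (h1 _ _), fun T => Subtype.ext (h1 _ _)⟩, fun X Y μ ν T => ?_⟩
  show _ ↔ ∀ f, (s (s (μ.f (s f))), s (s (ν.f (s f)))) ∈ T.1
  simp only [ss]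
  exact ⟨fun h f => h _, fun h f => ss f ▸ h (s f)⟩

noncomputable def φ : K →+* ℝ := (QuadraticAlgebra.lift ⟨√2, by simp⟩ : K →ₐ[ℚ] ℝ)

theorem notGeom : ¬ GeomEq (RR φ) (RR (φ.comp (starRingEnd K))) := fun h => by
  let x : (Fr K {0, 1}).A := ⟨MvPolynomial.X ⟨0, by simp⟩, coeff_zero_X _⟩
  let y : (Fr K {0, 1}).A := ⟨MvPolynomial.X ⟨1, by simp⟩, coeff_zero_X _⟩
  have h1 : cl (RR φ) _ {(x * x, (QuadraticAlgebra.omega : K) • (y * y))} ∈ Cl (RR φ) {0, 1} :=
    Set.Subset.antisymm (fun _ h ν h' => h' _ h) fun p hp ν h' => hp ν fun q hq => hq ν h'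
  have h3 : ∀ a b : ℝ, a * a = φ (star QuadraticAlgebra.omega) * (b * b) → b = b * b := fun a b h3 => by
    have h4 : φ (star QuadraticAlgebra.omega) = -√2 := by simp [φ]
    have h5 : (0 : ℝ) < √2 := by positivity
    rw [h4] at h3
    have : b * b = 0 := by nlinarith [mul_self_nonneg a, mul_self_nonneg b]
    rw [this, mul_self_eq_zero.mp this]
  let v : ({0, 1} : Finset ℕ) → ℝ := fun i => if i.1 = 0 then 2 * √√2 else 2
  let e : Hom (Fr K {0, 1}) (RR φ) := ⟨fun p => (eval₂ φ v p.1 : ℝ), fun _ _ => eval₂_add φ v,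
    fun _ _ => eval₂_mul φ v, fun c p => (congrArg (eval₂ φ v) (smul_eq_C_mul p.1 c)).trans
      ((eval₂_mul φ v).trans (congrArg (· * eval₂ φ v p.1) (eval₂_C φ v c)))⟩
  have ex : e.f x = (2 * √√2 : ℝ) := eval₂_X φ v _
  have ey : e.f y = (2 : ℝ) := eval₂_X φ v _
  have h2 := ((h _).le h1).ge (show (y, y * y) ∈ _ from fun ν h' => by
    have h2 := h' (x * x, (QuadraticAlgebra.omega : K) • (y * y)) fun ν h => h _ rfl
    simp only [ν.mul, ν.smul] at h2 ⊢
    exact h3 _ _ h2) e (by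
      rintro _ rfl
      simp only [e.mul, e.smul, ex, ey]
      show (2 * √√2 * (2 * √√2) : ℝ) = φ QuadraticAlgebra.omega * (2 * 2)
      simp [φ]
      nlinarith [Real.mul_self_sqrt (Real.sqrt_nonneg 2)])
  simp only [e.mul, ey] at h2
  exact absurd (show (2 : ℝ) = 2 * 2 from h2) (by norm_num)

end Pool.Agent.H31.AG
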