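import Mathlib

namespace Pool.Agent.H31.AG

variable (k : Type) [Field k]

/-- commutative associative, not necessarily unital, `k`-algebras -/
structure Alg : Type 1 where
  A : Type
  [r : NonUnitalCommRing A]
  [m : Module k A]
  [t : IsScalarTower k A A]
  [s : SMulCommClass k A A]

instance (H : Alg k) : NonUnitalCommRing H.A := H.r
instance (H : Alg k) : Module k H.A := H.m

variable {k} in
structure Hom (H H' : Alg k) : Type where
  f : H.A → H'.A
  add : ∀ a b, f (a + b) = f a + f b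
  mul : ∀ a b, f (a * b) = f a * f b
  smul : ∀ (c : k) a, f (c • a) = c • f a

/-- polynomials without constant term -/
def aug (X : Finset ℕ) : NonUnitalSubalgebra k (MvPolynomial X k) where
  carrier := {p | MvPolynomial.coeff 0 p = 0}
  add_mem' := fun h h' => (MvPolynomial.coeff_add _ _ _).trans (by rw [h, h', add_zero])
  zero_mem' := rfl
  mul_mem' := fun {a b} h _ => (map_mul MvPolynomial.constantCoeff a b).trans
    (mul_eq_zero_of_left h _)
  smul_mem' := fun c p h => (MvPolynomial.coeff_smul _ c p).trans (by rw [h, smul_zero])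

def F (X : Finset ℕ) : Type := aug k X

noncomputable instance (X : Finset ℕ) : NonUnitalCommRing (F k X) := (aug k X).toNonUnitalCommRing
noncomputable instance (X : Finset ℕ) : Module k (F k X) := (aug k X).instModule

/-- the free algebra on `X` -/
noncomputable def Fr (X : Finset ℕ) : Alg k :=
  @Alg.mk k _ (F k X) _ _ ⟨fun a b c => Subtype.ext (smul_mul_assoc a b.1 c.1)⟩
    ⟨fun a b c => Subtype.ext (mul_smul_comm a b.1 c.1).symm⟩

structure Aut : Type where
  obj : Finset ℕ → Finset ℕ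
  map : ∀ X Y, Hom (Fr k X) (Fr k Y) → Hom (Fr k (obj X)) (Fr k (obj Y))
  obj_bij : obj.Bijective
  map_bij : ∀ X Y, (map X Y).Bijective
  map_id : ∀ X (i : Hom (Fr k X) (Fr k X)), i.f = id → (map X X i).f = id
  map_comp : ∀ X Y Z (f : Hom (Fr k X) (Fr k Y)) (g : Hom (Fr k Y) (Fr k Z))
    (h : Hom (Fr k X) (Fr k Z)), h.f = g.f ∘ f.f → (map X Z h).f = (map Y Z g).f ∘ (map X Y f).f

variable {k} (H H' : Alg k)

def cl (X : Finset ℕ) (T : Set ((Fr k X).A × (Fr k X).A)) : Set ((Fr k X).A × (Fr k X).A) :=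
  {p | ∀ ν : Hom (Fr k X) H, (∀ q ∈ T, ν.f q.1 = ν.f q.2) → ν.f p.1 = ν.f p.2}

def Cl (X : Finset ℕ) : Set (Set ((Fr k X).A × (Fr k X).A)) := {T | T = cl H X T}

def GeomEq : Prop := ∀ X, Cl H X = Cl H' X

def AutEq : Prop := ∃ (Φ : Aut k) (α : ∀ X, Cl H X → Cl H' (Φ.obj X)),
  (∀ X, (α X).Bijective) ∧ ∀ X Y (μ ν : Hom (Fr k X) (Fr k Y)) (T : Cl H Y), (∀ a, (μ.f a, ν.f a) ∈ T.1) ↔
    ∀ a, ((Φ.map X Y μ).f a, (Φ.map X Y ν).f a) ∈ (α Y T).1

end Pool.Agent.H31.AG
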