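import Pool.Agent.H31.CKUDefs

namespace Pool.Agent.H31.CKU

open TopologicalSpace Topology Filter Set

universe u v w

theorem conv_iff {X : Type u} {Y : Type v} [TopologicalSpace X] [MetricSpace Y]
    (F : ℕ → C(X, Y)) (f : C(X, Y)) :
    Tendsto F atTop (𝓝 f) ↔
      ∀ K, IsCompact K → ∀ ε > 0, ∀ᶠ n in atTop, ∀ x ∈ K, dist (f x) (F n x) < ε := by
  rw [ContinuousMap.tendsto_iff_forall_isCompact_tendstoUniformlyOn]
  simp only [Metric.tendstoUniformlyOn_iff]

theorem no_inj {S : Type} [Countable S] (h : Set ℝ → (S × ℕ → ℝ)) : ¬ Function.Injective h := by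
  intro hi
  have h1 := Cardinal.mk_le_of_injective hi
  have h2 : Cardinal.mk (S × ℕ → ℝ) ≤ Cardinal.continuum := by
    rw [← Cardinal.power_def, Cardinal.mk_real]
    calc Cardinal.continuum ^ Cardinal.mk (S × ℕ) ≤ Cardinal.continuum ^ Cardinal.aleph0 :=
          Cardinal.power_le_power_left Cardinal.continuum_ne_zero Cardinal.mk_le_aleph0
      _ = Cardinal.continuum := Cardinal.continuum_power_aleph0
  rw [Cardinal.mk_set, Cardinal.mk_real] at h1
  exact absurd (h1.trans h2) (not_le.mpr (Cardinal.cantor _))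

theorem core {X : Type u} {Y : Type v} [TopologicalSpace X] [SeparableSpace X]
    [TopologicalSpace Y] [MetrizableSpace Y] {S : Type} [Countable S]
    (T : Set ℝ → Type w) [∀ Z, TopologicalSpace (T Z)] (o : ∀ Z, T Z) (τ : ∀ Z, S → T Z)
    (hsep : ∀ Z Z', (∀ a : ℕ → S, Tendsto (fun n => τ Z (a n)) atTop (𝓝 (o Z)) ↔
      Tendsto (fun n => τ Z' (a n)) atTop (𝓝 (o Z'))) → Z = Z')
    (e : ∀ Z, T Z → C(X, Y)) (he : ∀ Z, IsInducing (e Z)) : False := by
  letI := metrizableSpaceMetric Y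
  have key : ∀ Z Z', (∀ s x, dist (e Z (o Z) x) (e Z (τ Z s) x) =
      dist (e Z' (o Z') x) (e Z' (τ Z' s) x)) → Z = Z' := by
    intro Z Z' h
    apply hsep
    intro a
    rw [(he Z).tendsto_nhds_iff, (he Z').tendsto_nhds_iff]
    have h1 := conv_iff (fun n => e Z (τ Z (a n))) (e Z (o Z))
    have h2 := conv_iff (fun n => e Z' (τ Z' (a n))) (e Z' (o Z'))
    simp only [h] at h1
    exact h1.trans h2.symm
  rcases isEmpty_or_nonempty X with hX | hX
  · have := key ∅ univ (fun s x => hX.elim x)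
    exact absurd this.symm (Set.univ_nonempty.ne_empty)
  · refine no_inj (S := S) (fun Z p => dist (e Z (o Z) (denseSeq X p.2))
      (e Z (τ Z p.1) (denseSeq X p.2))) ?_
    intro Z Z' h
    apply key
    intro s
    have hc : (fun x => dist (e Z (o Z) x) (e Z (τ Z s) x)) =
        (fun x => dist (e Z' (o Z') x) (e Z' (τ Z' s) x)) := by
      apply (denseRange_denseSeq X).equalizer (by fun_prop) (by fun_prop)
      funext n
      exact congrFun h (s, n)
    exact fun x => congrFun hc x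

/-- bump function -/
noncomputable def bump (Z : Set ℝ) (s : ℚ × ℕ) : C(Z, ℝ) :=
  ⟨fun t => max 0 (1 - (s.2 : ℝ) * |(t : ℝ) - s.1|), by fun_prop⟩

theorem exists_seq (z : ℝ) : ∃ q : ℕ → ℚ, ∀ n : ℕ, |z - q n| < 1 / (2 * ((n : ℝ) + 1)) := by
  have : ∀ n : ℕ, ∃ q : ℚ, |z - q| < 1 / (2 * ((n : ℝ) + 1)) := fun n =>
    exists_rat_near z (by positivity)
  exact ⟨fun n => (this n).choose, fun n => (this n).choose_spec⟩

theorem bump_conv (Z : Set ℝ) (z : ℝ) (q : ℕ → ℚ)
    (hq : ∀ n : ℕ, |z - q n| < 1 / (2 * ((n : ℝ) + 1))) :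
    Tendsto (fun n => bump Z (q n, n)) atTop (𝓝 0) ↔ z ∉ Z := by
  rw [conv_iff]
  constructor
  · intro h hz
    have := (h {⟨z, hz⟩} isCompact_singleton (1/2) (by norm_num)).exists
    obtain ⟨n, hn⟩ := this
    have h1 := hn ⟨z, hz⟩ rfl
    simp only [bump, ContinuousMap.zero_apply, ContinuousMap.coe_mk, dist_zero_left,
      Real.norm_eq_abs] at h1
    have h2 := hq n
    have h3 : (n : ℝ) * |z - q n| ≤ 1 / 2 := by
      have h4 : (n : ℝ) * |z - q n| ≤ n * (1 / (2 * ((n : ℝ) + 1))) :=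
        mul_le_mul_of_nonneg_left h2.le (Nat.cast_nonneg n)
      have h5 : (n : ℝ) * (1 / (2 * ((n : ℝ) + 1))) ≤ 1 / 2 := by
        rw [mul_one_div, div_le_div_iff₀ (by positivity) (by positivity)]
        nlinarith
      linarith
    have h6 := le_max_right 0 (1 - (n : ℝ) * |z - q n|)
    have h7 := le_abs_self (max 0 (1 - (n : ℝ) * |z - q n|))
    linarith
  · intro hz K hK ε hε
    have hK' : IsCompact ((↑) '' K : Set ℝ) := hK.image continuous_subtype_val
    have hzK : z ∈ ((↑) '' K : Set ℝ)ᶜ := by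
      rintro ⟨x, -, rfl⟩
      exact hz x.2
    obtain ⟨δ, hδ, hb⟩ := Metric.isOpen_iff.mp hK'.isClosed.isOpen_compl z hzK
    obtain ⟨N, hN⟩ := exists_nat_gt (2 / δ)
    filter_upwards [eventually_ge_atTop N] with n hn x hx
    have h1 : δ ≤ |(x : ℝ) - z| := by
      by_contra hlt
      push Not at hlt
      exact hb (show (x : ℝ) ∈ Metric.ball z δ by simpa [Real.dist_eq] using hlt) ⟨x, hx, rfl⟩
    have h2 := hq n
    have hn' : (N : ℝ) ≤ n := by exact_mod_cast hn
    have h3 : 2 < (n : ℝ) * δ := by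
      rw [div_lt_iff₀ hδ] at hN
      nlinarith
    have h4 : (n : ℝ) * |z - q n| ≤ 1 / 2 := by
      have h4 : (n : ℝ) * |z - q n| ≤ n * (1 / (2 * ((n : ℝ) + 1))) :=
        mul_le_mul_of_nonneg_left h2.le (Nat.cast_nonneg n)
      have h5 : (n : ℝ) * (1 / (2 * ((n : ℝ) + 1))) ≤ 1 / 2 := by
        rw [mul_one_div, div_le_div_iff₀ (by positivity) (by positivity)]
        nlinarith
      linarith
    have h5 : |(x : ℝ) - z| ≤ |(x : ℝ) - q n| + |z - q n| := by
      have := abs_sub_le (x : ℝ) (q n) z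
      rw [abs_sub_comm (q n : ℝ) z] at this
      exact this
    have h6 : 1 - (n : ℝ) * |(x : ℝ) - q n| ≤ 0 := by
      have := Nat.cast_nonneg (α := ℝ) n
      nlinarith
    simp only [bump, ContinuousMap.zero_apply, ContinuousMap.coe_mk, max_eq_left h6, dist_self]
    exact hε

theorem not_all {X : Type u} {Y : Type v} [TopologicalSpace X] [SeparableSpace X]
    [TopologicalSpace Y] [MetrizableSpace Y]
    (e : ∀ Z : Set ℝ, C(Z, ℝ) → C(X, Y)) (he : ∀ Z, IsInducing (e Z)) : False := by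
  refine core (S := ℚ × ℕ) (fun Z => C(Z, ℝ)) (fun _ => 0) bump ?_ e he
  intro Z Z' h
  ext z
  obtain ⟨q, hq⟩ := exists_seq z
  have := h (fun n => (q n, n))
  rw [bump_conv Z z q hq, bump_conv Z' z q hq] at this
  exact not_iff_not.mp this

theorem no_universal (U : Type u) [TopologicalSpace U] (hU : InCM0.{u, v} U) :
    ∃ (Z : Type) (_ : TopologicalSpace Z), InCM0.{0, 0} Z ∧ ¬ ∃ e : Z → U, IsEmbedding e := by
  obtain ⟨X, Y, _, _, hX, -, -, hY, e, he⟩ := hU
  by_contra hcon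
  push Not at hcon
  have : ∀ Z : Set ℝ, ∃ f : C(Z, ℝ) → U, IsEmbedding f := fun Z =>
    hcon C(Z, ℝ) inferInstance ⟨Z, ℝ, inferInstance, inferInstance, inferInstance, inferInstance,
      inferInstance, inferInstance, id, IsEmbedding.id⟩
  choose f hf using this
  exact not_all (fun Z => e ∘ f Z) (fun Z => (he.comp (hf Z)).isInducing)

theorem no_sum : ∃ (I : Type) (T : I → Type) (_ : ∀ i, TopologicalSpace (T i)),
    (∀ i, InCM0.{0, 0} (T i) ∧ InCM.{0, 0} (T i)) ∧ ¬ InCM.{0, v} (Σ i, T i) := by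
  refine ⟨Set ℝ, fun Z => C(Z, ℝ), inferInstance, fun Z => ⟨?_, ?_⟩, ?_⟩
  · exact ⟨Z, ℝ, inferInstance, inferInstance, inferInstance, inferInstance,
      inferInstance, inferInstance, id, IsEmbedding.id⟩
  · exact ⟨Z, ℝ, inferInstance, inferInstance, inferInstance, inferInstance,
      inferInstance, id, IsEmbedding.id⟩
  · rintro ⟨X, Y, _, _, hX, -, hY, e, he⟩
    exact not_all (fun Z => e ∘ @Sigma.mk (Set ℝ) (fun Z : Set ℝ => C(Z, ℝ)) Z)
      (fun Z => (he.comp (IsEmbedding.sigmaMk (σ := fun Z : Set ℝ => C(Z, ℝ)) (i := Z))).isInducing)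

end Pool.Agent.H31.CKU
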