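import Pool.Agent.H31.AscDefs
import Pool.Agent.H31.CKU

namespace Pool.Agent.H31.Asc

open TopologicalSpace Topology Filter Set

universe u v

theorem ascoli_of_frechet (X : Type u) [TopologicalSpace X] [FrechetUrysohnSpace X] :
    Ascoli X := by
  intro 𝒦 h𝒦
  have eq : ∀ x : X, ∀ ε > (0 : ℝ), ∀ᶠ y in 𝓝 x, ∀ g ∈ 𝒦, dist (g y) (g x) < ε := by
    intro x ε hε
    by_contra hcon
    have h1 : x ∈ closure {y | ¬ ∀ g ∈ 𝒦, dist (g y) (g x) < ε} := by
      rw [mem_closure_iff_frequently]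
      exact hcon ∘ fun h => by
        simpa [Filter.Frequently] using h
    obtain ⟨y, hy, hyx⟩ := mem_closure_iff_seq_limit.mp h1
    let s : C(OnePoint ℕ, X) := OnePoint.continuousMapMkNat y x hyx
    have hc : Continuous (fun p : OnePoint ℕ × C(X, ℝ) => dist (p.2 (s p.1)) (p.2 x)) := by
      apply Continuous.dist
      · have h2 : Continuous (fun p : OnePoint ℕ × C(X, ℝ) => (p.2.comp s, p.1)) :=
          ((ContinuousMap.continuous_precomp s).comp continuous_snd).prodMk continuous_fst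
        exact continuous_eval.comp h2
      · fun_prop
    have h3 := h𝒦.eventually_forall_of_forall_eventually (x₀ := (OnePoint.infty : OnePoint ℕ))
      (P := fun t g => dist (g (s t)) (g x) < ε) (by
        intro g _
        apply (hc.continuousAt (x := (OnePoint.infty, g))).eventually_lt continuousAt_const
        show dist (g x) (g x) < ε
        simpa using hε)
    have h4 : Tendsto (fun n : ℕ => (n : OnePoint ℕ)) atTop (𝓝 OnePoint.infty) := by
      have := OnePoint.tendsto_coe_infty (X := ℕ)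
      rwa [Filter.coclosedCompact_eq_cocompact, Filter.cocompact_eq_cofinite,
        Nat.cofinite_eq_atTop] at this
    obtain ⟨n, hn⟩ := (h4.eventually h3).exists
    exact hy n hn
  rw [continuous_iff_continuousAt]
  rintro ⟨f, x⟩
  rw [ContinuousAt, Metric.tendsto_nhds]
  intro ε hε
  have h1 : ∀ᶠ g : 𝒦 in 𝓝 f, dist ((g : C(X, ℝ)) x) ((f : C(X, ℝ)) x) < ε / 2 := by
    have hc : Continuous (fun g : 𝒦 => (g : C(X, ℝ)) x) := by fun_prop
    exact Metric.tendsto_nhds.mp hc.continuousAt _ (half_pos hε)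
  rw [nhds_prod_eq]
  filter_upwards [Filter.prod_mem_prod h1 (eq x (ε / 2) (half_pos hε))]
  rintro ⟨g, y⟩ ⟨hg, hy⟩
  have h2 := hy g g.2
  have h3 := dist_triangle ((g : C(X, ℝ)) y) ((g : C(X, ℝ)) x) ((f : C(X, ℝ)) x)
  simp only [mem_setOf_eq] at hg
  show dist ((g : C(X, ℝ)) y) ((f : C(X, ℝ)) x) < ε
  linarith

/-- no accumulation point in `Z` -/
def Sm (Z : Set ℝ) (A : Set ℚ) : Prop := ∀ z ∈ Z, ∃ ε > (0 : ℝ), {a ∈ A | |(a : ℝ) - z| < ε}.Finite

/-- the space -/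
@[ext] structure SX : Type where
  fst : Set ℝ
  snd : Option ℚ

instance : TopologicalSpace SX where
  IsOpen U := ∀ Z, (⟨Z, none⟩ : SX) ∈ U → ∀ A, Sm Z A → {a ∈ A | (⟨Z, some a⟩ : SX) ∉ U}.Finite
  isOpen_univ := by intro Z _ A _; simp
  isOpen_inter := by
    intro U V hU hV Z hZ A hA
    refine ((hU Z hZ.1 A hA).union (hV Z hZ.2 A hA)).subset ?_
    intro a ha
    simp only [mem_setOf_eq, mem_inter_iff, mem_union] at ha ⊢
    tauto
  isOpen_sUnion := by
    rintro S hS Z ⟨U, hU, hZ⟩ A hA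
    refine (hS U hU Z hZ A hA).subset ?_
    rintro a ⟨ha, h⟩
    exact ⟨ha, fun h' => h ⟨U, hU, h'⟩⟩

theorem isOpen_iff (U : Set SX) : IsOpen U ↔
    ∀ Z, (⟨Z, none⟩ : SX) ∈ U → ∀ A, Sm Z A → {a ∈ A | (⟨Z, some a⟩ : SX) ∉ U}.Finite := Iff.rfl

theorem open_slice (Z : Set ℝ) : IsOpen {p : SX | p.1 = Z} := by
  rw [isOpen_iff]
  intro Z' h A _
  have h' : Z' = Z := h
  simp [h']

theorem open_iso (Z : Set ℝ) (q : ℚ) : IsOpen ({⟨Z, some q⟩} : Set SX) := by
  rw [isOpen_iff]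
  intro Z' h
  cases h

theorem closed_single (p : SX) : IsClosed ({p} : Set SX) := by
  rw [← isOpen_compl_iff, isOpen_iff]
  intro Z _ A _
  apply Set.Subsingleton.finite
  rintro a ⟨-, ha⟩ b ⟨-, hb⟩
  simp only [mem_compl_iff, mem_singleton_iff, not_not] at ha hb
  have := ha.trans hb.symm
  exact Option.some.inj (congrArg SX.snd this)

instance : T1Space SX := ⟨closed_single⟩

instance : RegularSpace SX := by
  apply RegularSpace.of_exists_mem_nhds_isClosed_subset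
  rintro ⟨Z, y⟩ s hs
  obtain ⟨U, hUs, hU, hp⟩ := mem_nhds_iff.mp hs
  cases y with
  | some q =>
    exact ⟨{⟨Z, some q⟩}, (open_iso Z q).mem_nhds rfl, closed_single _,
      by rintro _ rfl; exact hUs hp⟩
  | none =>
    refine ⟨U ∩ {p | p.1 = Z}, (hU.inter (open_slice Z)).mem_nhds ⟨hp, rfl⟩, ?_,
      fun x hx => hUs hx.1⟩
    rw [← isOpen_compl_iff, isOpen_iff]
    intro Z' h A _
    have hne : Z' ≠ Z := by
      rintro rfl
      exact h ⟨hp, rfl⟩
    convert Set.finite_empty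
    ext a
    simp only [mem_compl_iff, not_not, mem_setOf_eq, mem_empty_iff_false, iff_false, not_and]
    intro _ h2
    exact hne h2.2

theorem conv_of (Z : Set ℝ) (A : Set ℚ) (hA : Sm Z A) (a : ℕ → ℚ) (ha : ∀ n, a n ∈ A)
    (hi : Tendsto a atTop cofinite) :
    Tendsto (fun n => (⟨Z, some (a n)⟩ : SX)) atTop (𝓝 ⟨Z, none⟩) := by
  rw [tendsto_nhds]
  intro U hU hp
  have h1 := (isOpen_iff U).mp hU Z hp A hA
  filter_upwards [hi h1.compl_mem_cofinite] with n hn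
  by_contra h
  exact hn ⟨ha n, h⟩

instance : FrechetUrysohnSpace SX := by
  constructor
  rintro s ⟨Z, y⟩ hp
  by_cases hs : (⟨Z, y⟩ : SX) ∈ s
  · exact subset_seqClosure hs
  cases y with
  | some q =>
    obtain ⟨x, hx, hxs⟩ := mem_closure_iff.mp hp _ (open_iso Z q) rfl
    rw [mem_singleton_iff] at hx
    exact absurd (hx ▸ hxs) hs
  | none =>
    have : ∃ A, Sm Z A ∧ {a ∈ A | (⟨Z, some a⟩ : SX) ∈ s}.Infinite := by
      by_contra hcon
      push Not at hcon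
      have hV : IsOpen ({p : SX | p.1 = Z} ∩ sᶜ) := by
        rw [isOpen_iff]
        intro Z' h A hA
        have h' : Z' = Z := h.1
        subst h'
        refine (hcon A hA).subset ?_
        rintro a ⟨ha, h2⟩
        refine ⟨ha, ?_⟩
        by_contra h3
        exact h2 ⟨rfl, h3⟩
      obtain ⟨x, hx, hxs⟩ := mem_closure_iff.mp hp _ hV ⟨rfl, hs⟩
      exact hx.2 hxs
    obtain ⟨A, hA, hinf⟩ := this
    let a := hinf.natEmbedding
    refine ⟨fun n => ⟨Z, some (a n : ℚ)⟩, fun n => (a n).2.2, ?_⟩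
    apply conv_of Z A hA (fun n => (a n : ℚ)) (fun n => (a n).2.1)
    rw [← Nat.cofinite_eq_atTop]
    exact (Subtype.val_injective.comp a.injective).tendsto_cofinite

theorem fin_of_ev (u : ℕ → ℚ) (P : ℚ → Prop) (h : ∀ᶠ n in atTop, ¬ P (u n)) :
    {a ∈ range u | P a}.Finite := by
  rw [← Nat.cofinite_eq_atTop] at h
  refine ((Filter.eventually_cofinite.mp h).image u).subset ?_
  rintro a ⟨⟨n, rfl⟩, ha⟩
  exact ⟨n, by simpa using ha, rfl⟩

theorem sm_range (Z : Set ℝ) (z : ℝ) (hz : z ∉ Z) (u : ℕ → ℚ)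
    (hu : Tendsto (fun n => (u n : ℝ)) atTop (𝓝 z)) : Sm Z (range u) := by
  intro t ht
  have hne : 0 < |t - z| := abs_pos.mpr (sub_ne_zero.mpr (by rintro rfl; exact hz ht))
  refine ⟨|t - z| / 2, half_pos hne, fin_of_ev u _ ?_⟩
  filter_upwards [Metric.tendsto_nhds.mp hu _ (half_pos hne)] with n hn h
  rw [Real.dist_eq] at hn
  have := abs_sub_le t (u n : ℝ) z
  rw [abs_sub_comm t (u n : ℝ)] at this
  linarith

theorem open_compl (Z : Set ℝ) (z : ℝ) (hz : z ∈ Z) (u : ℕ → ℚ)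
    (hu : Tendsto (fun n => (u n : ℝ)) atTop (𝓝 z)) :
    IsOpen (range (fun n => (⟨Z, some (u n)⟩ : SX)))ᶜ := by
  rw [isOpen_iff]
  intro Z' _ A hA
  by_cases hZ : Z' = Z
  · subst hZ
    obtain ⟨ε, hε, hf⟩ := hA z hz
    have h2 : {a ∈ range u | ¬ |(a : ℝ) - z| < ε}.Finite := by
      apply fin_of_ev
      filter_upwards [Metric.tendsto_nhds.mp hu _ hε] with n hn h
      exact h hn
    refine (hf.union h2).subset ?_
    rintro a ⟨ha, h⟩
    simp only [mem_compl_iff, not_not] at h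
    obtain ⟨n, hn⟩ := h
    have h3 : u n = a := Option.some.inj (congrArg SX.snd hn)
    by_cases h4 : |(a : ℝ) - z| < ε
    · exact Or.inl ⟨ha, h4⟩
    · exact Or.inr ⟨⟨n, h3⟩, h4⟩
  · convert Set.finite_empty
    ext a
    simp only [mem_compl_iff, not_not, mem_setOf_eq, mem_empty_iff_false, iff_false, not_and]
    rintro _ ⟨n, hn⟩
    exact hZ (congrArg SX.fst hn).symm

theorem not_inCM : ¬ CKU.InCM.{0, v} SX := by
  rintro ⟨X, Y, _, _, hX, -, hY, e, he⟩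
  refine CKU.core (S := ℚ) (fun _ => SX) (fun Z => ⟨Z, none⟩) (fun Z q => ⟨Z, some q⟩) ?_
    (fun _ => e) (fun _ => he.isInducing)
  intro Z Z' h
  ext z
  obtain ⟨u, hu, -, hz⟩ := Real.exists_seq_rat_strictAnti_tendsto z
  have key : ∀ W : Set ℝ,
      Tendsto (fun n => (⟨W, some (u n)⟩ : SX)) atTop (𝓝 ⟨W, none⟩) ↔ z ∉ W := by
    intro W
    constructor
    · intro h1 hW
      have := (h1.eventually ((open_compl W z hW u hz).mem_nhds (by
        rintro ⟨n, hn⟩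
        cases hn))).exists
      obtain ⟨n, hn⟩ := this
      exact hn ⟨n, rfl⟩
    · intro hW
      apply conv_of W _ (sm_range W z hW u hz) u (fun n => ⟨n, rfl⟩)
      rw [← Nat.cofinite_eq_atTop]
      exact hu.injective.tendsto_cofinite
  have := h u
  rw [key, key] at this
  exact not_iff_not.mp this

theorem exists_acc (A : Set ℚ) (z : ℝ) (h : ∀ ε > (0 : ℝ), {a ∈ A | |(a : ℝ) - z| < ε}.Infinite) :
    ∃ u : ℕ → ℚ, (∀ n, u n ∈ A) ∧ (range u).Infinite ∧
      Tendsto (fun n => (u n : ℝ)) atTop (𝓝 z) := by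
  have h1 : ∀ n : ℕ, ∃ a ∈ A, |(a : ℝ) - z| < 1 / ((n : ℝ) + 1) ∧ (a : ℝ) ≠ z := by
    intro n
    have hf : {a : ℚ | (a : ℝ) = z}.Finite := by
      apply Set.Subsingleton.finite
      intro a ha b hb
      have : (a : ℝ) = b := ha.trans hb.symm
      exact_mod_cast this
    obtain ⟨a, ha, ha'⟩ := (h _ (Nat.one_div_pos_of_nat (n := n))).exists_notMem_finite hf
    exact ⟨a, ha.1, ha.2, ha'⟩
  choose u hu h2 h3 using h1
  have ht : Tendsto (fun n => (u n : ℝ)) atTop (𝓝 z) := by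
    rw [tendsto_iff_dist_tendsto_zero]
    refine squeeze_zero (fun _ => dist_nonneg) (fun n => ?_) tendsto_one_div_add_atTop_nhds_zero_nat
    exact (h2 n).le
  refine ⟨u, hu, ?_, ht⟩
  intro hf
  have := (hf.image (fun a : ℚ => (a : ℝ))).isClosed.mem_of_tendsto ht
    (Eventually.of_forall fun n => ⟨u n, ⟨n, rfl⟩, rfl⟩)
  obtain ⟨_, ⟨n, rfl⟩, hn⟩ := this
  exact h3 n hn

theorem cpt_fin (K V : Set SX) (hK : IsCompact K) (hV : IsOpen V)
    (h : ∀ Z, (⟨Z, none⟩ : SX) ∈ K → (⟨Z, none⟩ : SX) ∈ V) : (K \ V).Finite := by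
  have h1 : IsCompact (K \ V) := hK.diff hV
  obtain ⟨t, ht, hc⟩ := h1.elim_nhds_subcover (fun p => {p}) (by
    rintro ⟨Z, y⟩ hp
    cases y with
    | none => exact absurd (h Z hp.1) hp.2
    | some q => exact (open_iso Z q).mem_nhds rfl)
  refine t.finite_toSet.subset ?_
  intro p hp
  simpa using hc hp

theorem cpt_sm (K : Set SX) (hK : IsCompact K) (Z : Set ℝ) :
    Sm Z {q | (⟨Z, some q⟩ : SX) ∈ K} := by
  intro z hz
  by_contra hcon
  push Not at hcon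
  obtain ⟨u, hu, hinf, ht⟩ := exists_acc _ z hcon
  have h1 := cpt_fin K _ hK (open_compl Z z hz u ht) (by
    rintro Z' - ⟨n, hn⟩
    cases hn)
  apply hinf
  refine Set.Finite.of_finite_image (f := fun q => (⟨Z, some q⟩ : SX)) (h1.subset ?_) ?_
  · rintro _ ⟨_, ⟨n, rfl⟩, rfl⟩
    exact ⟨hu n, fun h => h ⟨n, rfl⟩⟩
  · intro a _ b _ hab
    exact Option.some.inj (congrArg SX.snd hab)

theorem sep (Z : Set ℝ) (A C : Set ℚ) (hA : Sm Z A) (hC : ∀ B, Sm Z B → (B ∩ C).Finite) :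
    ∃ (B : Finset (ℚ × ℚ)) (F : Finset ℚ),
      (∀ q ∈ C, q ∈ F ∨ ∃ b ∈ B, b.1 < q ∧ q < b.2) ∧
      {q ∈ A | ∃ b ∈ B, b.1 < q ∧ q < b.2}.Finite := by
  classical
  have hb : ∃ M : ℕ, ∀ q ∈ C, |(q : ℝ)| ≤ M := by
    by_contra hcon
    push Not at hcon
    choose u hu h using hcon
    have h1 : Sm Z (range u) := by
      intro z _
      refine ⟨1, one_pos, fin_of_ev u _ ?_⟩
      obtain ⟨N, hN⟩ := exists_nat_gt (|z| + 1)
      filter_upwards [eventually_ge_atTop N] with n hn h2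
      have h3 : (N : ℝ) ≤ n := by exact_mod_cast hn
      have h4 := h n
      have h5 := abs_sub_abs_le_abs_sub (u n : ℝ) z
      linarith
    have h2 : (range u).Finite := (hC _ h1).subset (by
      rintro _ ⟨n, rfl⟩
      exact ⟨⟨n, rfl⟩, hu n⟩)
    obtain ⟨M, hM⟩ := (h2.image (fun a : ℚ => |(a : ℝ)|)).bddAbove
    obtain ⟨N, hN⟩ := exists_nat_gt M
    have := hM ⟨u N, ⟨N, rfl⟩, rfl⟩
    have h4 := h N
    simp only at this
    linarith
  obtain ⟨M, hM⟩ := hb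
  have h1 : ∀ t : ℝ, ∃ b : ℚ × ℚ, ((b.1 : ℝ) < t ∧ t < b.2) ∧
      ({q ∈ A | b.1 < q ∧ q < b.2}.Finite ∨ {q ∈ C | b.1 < q ∧ q < b.2}.Finite) := by
    intro t
    have h2 : ∃ ε > (0 : ℝ), {a ∈ A | |(a : ℝ) - t| < ε}.Finite ∨
        {a ∈ C | |(a : ℝ) - t| < ε}.Finite := by
      by_cases ht : t ∈ Z
      · obtain ⟨ε, hε, hf⟩ := hA t ht
        exact ⟨ε, hε, Or.inl hf⟩
      · by_contra hcon
        push Not at hcon
        obtain ⟨u, hu, hinf, hl⟩ := exists_acc C t (fun ε hε => (hcon ε hε).2)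
        apply hinf
        refine (hC _ (sm_range Z t ht u hl)).subset ?_
        rintro _ ⟨n, rfl⟩
        exact ⟨⟨n, rfl⟩, hu n⟩
    obtain ⟨ε, hε, hf⟩ := h2
    obtain ⟨a, ha1, ha2⟩ := exists_rat_btwn (show t - ε < t by linarith)
    obtain ⟨b, hb1, hb2⟩ := exists_rat_btwn (show t < t + ε by linarith)
    have hq : ∀ q : ℚ, a < q ∧ q < b → |(q : ℝ) - t| < ε := by
      rintro q ⟨h3, h4⟩
      have h3' : (a : ℝ) < q := by exact_mod_cast h3
      have h4' : (q : ℝ) < b := by exact_mod_cast h4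
      rw [abs_lt]
      constructor <;> linarith
    refine ⟨(a, b), ⟨ha2, hb1⟩, hf.imp ?_ ?_⟩
    · exact fun h => h.subset fun q hq' => ⟨hq'.1, hq q hq'.2⟩
    · exact fun h => h.subset fun q hq' => ⟨hq'.1, hq q hq'.2⟩
  choose b hb hf using h1
  obtain ⟨T, -, hT⟩ := (isCompact_Icc (a := -(M : ℝ)) (b := M)).elim_nhds_subcover
    (fun t => Ioo ((b t).1 : ℝ) (b t).2) (fun t _ => Ioo_mem_nhds (hb t).1 (hb t).2)
  let T1 := T.filter (fun t => {q ∈ A | (b t).1 < q ∧ q < (b t).2}.Finite)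
  let T2 := T.filter (fun t => ¬ {q ∈ A | (b t).1 < q ∧ q < (b t).2}.Finite)
  have hF : (⋃ t ∈ (T2 : Set ℝ), {q ∈ C | (b t).1 < q ∧ q < (b t).2}).Finite := by
    refine T2.finite_toSet.biUnion fun t ht => ?_
    exact (hf t).resolve_left (Finset.mem_filter.mp ht).2
  refine ⟨T1.image b, hF.toFinset, ?_, ?_⟩
  · intro q hq
    have h3 := hT (show (q : ℝ) ∈ Icc (-(M : ℝ)) M from abs_le.mp (hM q hq))
    simp only [mem_iUnion] at h3
    obtain ⟨t, ht, h4, h5⟩ := h3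
    have h4' : (b t).1 < q := by exact_mod_cast h4
    have h5' : q < (b t).2 := by exact_mod_cast h5
    by_cases h6 : {q ∈ A | (b t).1 < q ∧ q < (b t).2}.Finite
    · exact Or.inr ⟨b t, Finset.mem_image_of_mem _ (Finset.mem_filter.mpr ⟨ht, h6⟩), h4', h5'⟩
    · left
      rw [Set.Finite.mem_toFinset]
      simp only [mem_iUnion]
      exact ⟨t, Finset.mem_filter.mpr ⟨ht, h6⟩, hq, h4', h5'⟩
  · have hG : (⋃ t ∈ (T1 : Set ℝ), {q ∈ A | (b t).1 < q ∧ q < (b t).2}).Finite :=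
      T1.finite_toSet.biUnion fun t ht => (Finset.mem_filter.mp ht).2
    refine hG.subset ?_
    rintro q ⟨hq, c, hc, h3⟩
    obtain ⟨t, ht, rfl⟩ := Finset.mem_image.mp hc
    simp only [mem_iUnion]
    exact ⟨t, ht, hq, h3⟩

/-- the countable network of one summand -/
def NN : ℚ ⊕ (Finset (ℚ × ℚ) × Finset ℚ) → Set (Option ℚ)
  | Sum.inl q => {some q}
  | Sum.inr j => {y | ∀ q, y = some q → ¬ (q ∈ j.2 ∨ ∃ b ∈ j.1, b.1 < q ∧ q < b.2)}

theorem aleph : AlephSpace SX := by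
  refine ⟨inferInstance, ?_⟩
  obtain ⟨σ, hσ⟩ := exists_surjective_nat (ℚ ⊕ (Finset (ℚ × ℚ) × Finset ℚ))
  let M : Set ℝ → (ℚ ⊕ (Finset (ℚ × ℚ) × Finset ℚ)) → Set SX :=
    fun Z j => {p | p.1 = Z ∧ p.2 ∈ NN j}
  refine ⟨fun n => range (fun Z => M Z (σ n)), ?_, ?_⟩
  · intro n p
    refine ⟨_, (open_slice p.1).mem_nhds rfl, Set.Subsingleton.finite ?_⟩
    rintro ⟨_, Z, rfl⟩ ⟨x, hx, hx'⟩ ⟨_, Z', rfl⟩ ⟨y, hy, hy'⟩
    have h1 : Z = Z' := hx.1.symm.trans (hx'.trans (hy'.symm.trans hy.1))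
    subst h1
    rfl
  · intro K U hK hU hKU
    have hM : ∀ Z j, M Z j ∈ ⋃ n, range (fun Z => M Z (σ n)) := by
      intro Z j
      obtain ⟨n, rfl⟩ := hσ j
      exact mem_iUnion.mpr ⟨n, Z, rfl⟩
    have h0 : ∀ S : Set SX, S.Finite → S ⊆ U → (∀ p ∈ S, p.2 ≠ none) →
        ∃ ℱ ⊆ ⋃ n, range (fun Z => M Z (σ n)), ℱ.Finite ∧ S ⊆ ⋃₀ ℱ ∧ ⋃₀ ℱ ⊆ U := by
      intro S hS hSU hn
      refine ⟨(fun p => {p}) '' S, ?_, hS.image _, ?_, ?_⟩
      · rintro _ ⟨⟨Z, y⟩, hp, rfl⟩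
        cases y with
        | none => exact absurd rfl (hn _ hp)
        | some q =>
          convert hM Z (Sum.inl q)
          ext ⟨Z', y'⟩
          simp only [M, NN, mem_singleton_iff, mem_setOf_eq]
          exact SX.ext_iff
      · exact fun p hp => ⟨{p}, ⟨p, hp, rfl⟩, rfl⟩
      · rintro x ⟨_, ⟨p, hp, rfl⟩, hx⟩
        rw [mem_singleton_iff] at hx
        exact hx ▸ hSU hp
    have h1 : ∀ Z, ∃ ℱ ⊆ ⋃ n, range (fun Z => M Z (σ n)), ℱ.Finite ∧
        K ∩ {p | p.1 = Z} ⊆ ⋃₀ ℱ ∧ ⋃₀ ℱ ⊆ U := by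
      intro Z
      by_cases hZ : (⟨Z, none⟩ : SX) ∈ K
      · obtain ⟨B, F, h2, h3⟩ := sep Z _ {q | (⟨Z, some q⟩ : SX) ∉ U} (cpt_sm K hK Z)
          (fun B hB => (isOpen_iff U).mp hU Z (hKU hZ) B hB)
        have h4 : ((K ∩ {p | p.1 = Z}) \ M Z (Sum.inr (B, F))).Finite := by
          refine ((h3.union F.finite_toSet).image (fun q => (⟨Z, some q⟩ : SX))).subset ?_
          rintro ⟨Z', y⟩ ⟨⟨hp, hZ'⟩, hn⟩
          have hZ'' : Z' = Z := hZ'
          subst hZ''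
          simp only [M, NN, mem_setOf_eq, true_and, not_forall, not_not] at hn
          obtain ⟨q, rfl, h5⟩ := hn
          refine ⟨q, ?_, rfl⟩
          rcases h5 with h5 | h5
          · exact Or.inr h5
          · exact Or.inl ⟨hp, h5⟩
        obtain ⟨ℱ, h5, h6, h7, h8⟩ := h0 _ h4 (fun p hp => hKU hp.1.1) (by
          rintro ⟨Z', y⟩ ⟨⟨-, hZ'⟩, hn⟩ rfl
          exact hn ⟨hZ', fun q hq => by cases hq⟩)
        refine ⟨insert (M Z (Sum.inr (B, F))) ℱ, insert_subset (hM _ _) h5, h6.insert _, ?_, ?_⟩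
        · intro p hp
          rw [sUnion_insert]
          by_cases h9 : p ∈ M Z (Sum.inr (B, F))
          · exact Or.inl h9
          · exact Or.inr (h7 ⟨hp, h9⟩)
        · rw [sUnion_insert]
          refine union_subset ?_ h8
          rintro ⟨Z', y⟩ ⟨hZ', hy⟩
          have hZ'' : Z' = Z := hZ'
          subst hZ''
          cases y with
          | none => exact hKU hZ
          | some q =>
            by_contra h9
            exact hy q rfl (h2 q h9)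
      · have hV : IsOpen {p : SX | p.1 ≠ Z} := by
          rw [isOpen_iff]
          intro Z' h A _
          have h' : Z' ≠ Z := h
          simp [h']
        have h2 := cpt_fin K _ hK hV (by
          intro Z' h h'
          have h'' : Z' = Z := h'
          exact hZ (h'' ▸ h))
        refine h0 _ (h2.subset fun p hp => ⟨hp.1, fun h => h hp.2⟩) (fun p hp => hKU hp.1) ?_
        rintro ⟨Z', y⟩ ⟨hp, hZ'⟩ rfl
        have h'' : Z' = Z := hZ'
        exact hZ (h'' ▸ hp)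
    choose ℱ h2 h3 h4 h5 using h1
    obtain ⟨t, -, ht⟩ := hK.elim_nhds_subcover (fun p => {x : SX | x.1 = p.1})
      (fun p _ => (open_slice p.1).mem_nhds rfl)
    refine ⟨⋃ p ∈ (t : Set SX), ℱ p.1, iUnion₂_subset fun p _ => h2 _,
      t.finite_toSet.biUnion fun p _ => h3 _, ?_, ?_⟩
    · intro x hx
      have h6 := ht hx
      simp only [mem_iUnion] at h6
      obtain ⟨p, hp, h7⟩ := h6
      obtain ⟨N, hN, hxN⟩ := h4 p.1 ⟨hx, h7⟩
      exact ⟨N, mem_biUnion hp hN, hxN⟩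
    · rintro x ⟨N, hN, hxN⟩
      simp only [mem_iUnion] at hN
      obtain ⟨p, -, hN⟩ := hN
      exact h5 _ ⟨N, hN, hxN⟩

theorem main : ∃ (X : Type) (_ : TopologicalSpace X),
    FrechetUrysohnSpace X ∧ Ascoli X ∧ AlephSpace X ∧ ¬ CKU.InCM.{0, v} X :=
  ⟨SX, inferInstance, inferInstance, ascoli_of_frechet SX, aleph, not_inCM⟩

end Pool.Agent.H31.Asc
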