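import Mathlib

namespace Pool.Agent.H31.Asc

universe u

/-- `𝒩` is a k-network of `X`. -/
def IsKNetwork {X : Type u} [TopologicalSpace X] (𝒩 : Set (Set X)) : Prop :=
  ∀ K U : Set X, IsCompact K → IsOpen U → K ⊆ U →
    ∃ ℱ ⊆ 𝒩, ℱ.Finite ∧ K ⊆ ⋃₀ ℱ ∧ ⋃₀ ℱ ⊆ U

/-- regular `T1` space with a sigma-locally finite k-network -/
def AlephSpace (X : Type u) [TopologicalSpace X] : Prop :=
  T3Space X ∧ ∃ 𝒩 : ℕ → Set (Set X),
    (∀ n, LocallyFinite (fun N : 𝒩 n => (N : Set X))) ∧ IsKNetwork (⋃ n, 𝒩 n)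

/-- every compact subset of `C_k(X)` is evenly continuous -/
def Ascoli (X : Type u) [TopologicalSpace X] : Prop :=
  ∀ 𝒦 : Set C(X, ℝ), IsCompact 𝒦 → Continuous (fun p : 𝒦 × X => (p.1 : C(X, ℝ)) p.2)

end Pool.Agent.H31.Asc
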