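import Pool.Agent.H31.Suit

set_option autoImplicit false

open Set Topology Filter

namespace Pool.Agent.H31.BJ

open Omega1 Suit

def Stat (S : Set W) : Prop := ∀ h : W → W, ∃ d ∈ S, ⊥ < d ∧ ∀ b < d, h b < d

theorem exists_S : ∃ S : Set W, Stat S ∧ Stat Sᶜ := by
  obtain ⟨r, hr⟩ := exists_r
  by_contra h
  push Not at h
  have h1 : ∀ q : ℚ, ∃ k : W → W, ∀ d e, (⊥ < d ∧ ∀ b < d, k b < d) →
      (⊥ < e ∧ ∀ b < e, k b < e) → r d < q → r e < q := fun q => by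
    by_cases h2 : Stat {d | r d < q}
    · have := h _ h2
      simp only [Stat] at this
      push Not at this
      obtain ⟨k, hk⟩ := this
      refine ⟨k, fun d e _ he _ => ?_⟩
      by_contra h3
      obtain ⟨b, b1, b2⟩ := hk e h3 he.1
      exact (he.2 b b1).not_ge b2
    · simp only [Stat] at h2
      push Not at h2
      obtain ⟨k, hk⟩ := h2
      refine ⟨k, fun d e hd _ h3 => ?_⟩
      obtain ⟨b, b1, b2⟩ := hk d h3 hd.1
      exact ((hd.2 b b1).not_ge b2).elim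
  choose k hk using h1
  choose m hm using fun b => exists_bound (countable_range fun q => k q b)
  have h2 : ∀ a, ∃ d, a < d ∧ ∀ q, ⊥ < d ∧ ∀ b < d, k q b < d := fun a => by
    have : ∀ b, ∃ c, ∀ x ≤ b, m x < c := fun b => by
      obtain ⟨c, hc⟩ := exists_bound ((countable_Iic b).image m)
      exact ⟨c, fun x hx => hc _ ⟨x, hx, rfl⟩⟩
    choose n hn using this
    obtain ⟨d, d1, -, d2⟩ := close n a
    refine ⟨d, d1, fun q => ⟨bot_le.trans_lt d1, fun b hb => ?_⟩⟩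
    obtain ⟨c, c1, -, c3⟩ := d2 b hb
    exact ((hm b _ ⟨q, rfl⟩).trans (hn c b c1.le)).trans c3
  obtain ⟨d, -, d2⟩ := h2 ⊥
  obtain ⟨e, e1, e2⟩ := h2 d
  rcases lt_trichotomy (r d) (r e) with h3 | h3 | h3
  · obtain ⟨q, q1, q2⟩ := exists_rat_btwn h3
    exact q2.not_gt (hk q d e (d2 q) (e2 q) q1)
  · exact e1.ne (hr d e 0 (by simp [h3]))
  · obtain ⟨q, q1, q2⟩ := exists_rat_btwn h3
    exact q2.not_gt (hk q e d (e2 q) (d2 q) q1)

noncomputable def S : Set W := exists_S.choose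

def Lim (d : W) : Prop := ⊥ < d ∧ ∀ b < d, ∃ c, b < c ∧ c < d

theorem Lim.lad {d : W} (h : Lim d) : ∃ c, Lad d c := by
  obtain ⟨e, he⟩ := (countable_Iio d).exists_eq_range ⟨⊥, h.1⟩
  have e1 : ∀ n, e n < d := fun n => he.superset ⟨n, rfl⟩
  choose! s s1 s2 using h.2
  obtain ⟨u, u0, u1⟩ : ∃ u : ℕ → W, u 0 = ⊥ ∧ ∀ n, u (n + 1) = s (max (u n) (e n)) :=
    ⟨fun n => Nat.rec (motive := fun _ => W) ⊥ (fun n b => s (max b (e n))) n, rfl, fun _ => rfl⟩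
  have h1 : ∀ n, u n < d := fun n => by
    induction n with
    | zero => rw [u0]; exact h.1
    | succ n ih => rw [u1]; exact s2 _ (max_lt ih (e1 n))
  have h2 : ∀ n, max (u n) (e n) < u (n + 1) := fun n => by
    rw [u1]; exact s1 _ (max_lt (h1 n) (e1 n))
  refine ⟨u, h1, fun g hg => ?_, strictMono_nat_of_lt_succ fun n => (le_max_left _ _).trans_lt (h2 n)⟩
  obtain ⟨n, rfl⟩ := he.subset hg
  exact ⟨n + 1, (le_max_right _ _).trans_lt (h2 n)⟩

def Rk {α : Type} (ρ : α → W) : Prop := ∀ b, {a | ρ a < b}.Countable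

theorem clos {α : Type} {ρ : α → W} (hρ : Rk ρ) (β : α → W) {T : Set W} (hT : Stat T) :
    ∃ d ∈ T, Lim d ∧ ∀ a, ρ a < d → β a < d := by
  have : ∀ b, ∃ c, b < c ∧ ∀ a, ρ a ≤ b → β a < c := fun b => by
    obtain ⟨b', hb⟩ := exists_gt b
    obtain ⟨c, hc⟩ := exists_bound (((hρ b').image β).insert b)
    exact ⟨c, hc _ (mem_insert _ _), fun a ha => hc _ (Or.inr ⟨a, ha.trans_lt hb, rfl⟩)⟩
  choose h h1 h2 using this
  obtain ⟨d, d1, d2, d3⟩ := hT h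
  exact ⟨d, d1, ⟨d2, fun b hb => ⟨h b, h1 b, d3 b hb⟩⟩, fun a ha => (h2 _ a le_rfl).trans (d3 _ ha)⟩

noncomputable def rl {α : Type} (ρ : α → W) (l : List α) : W := (l.map ρ).foldr max ⊥

theorem rl_lt {α : Type} {ρ : α → W} {b : W} {l : List α} :
    rl ρ l < b ↔ ⊥ < b ∧ ∀ a ∈ l, ρ a < b := by
  induction l with
  | nil => simp [rl]
  | cons a l ih =>
    have : rl ρ (a :: l) = max (ρ a) (rl ρ l) := rfl
    rw [this, max_lt_iff, ih]
    simp only [List.mem_cons, forall_eq_or_imp]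
    tauto

theorem Rk.list {α : Type} {ρ : α → W} (h : Rk ρ) : Rk (rl ρ) := fun b => by
  have := (h b).to_subtype
  refine (countable_range fun l : List {a | ρ a < b} => l.map Subtype.val).mono fun l hl => ?_
  exact ⟨l.attach.map fun x => ⟨x.1, (rl_lt.1 hl).2 _ x.2⟩, by simp⟩

theorem Rk.prod {α β : Type} {ρ : α → W} {ρ' : β → W} (h : Rk ρ) (h' : Rk ρ') :
    Rk fun p : α × β => max (ρ p.1) (ρ' p.2) := fun b =>
  Set.Countable.mono (fun p (hp : max (ρ p.1) (ρ' p.2) < b) => mem_prod.2 (max_lt_iff.1 hp))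
    ((h b).prod (h' b))

theorem rk_id : Rk (id : W → W) := countable_Iio

theorem rk_count {α : Type} [Countable α] : Rk fun _ : α => (⊥ : W) := fun _ => to_countable _

abbrev I : Type := W ⊕ W × W

def Z : I → Set W
  | .inl i => {i}
  | .inr p => {i | p.1 ∈ S ∧ i ∈ C p.1 ∧ p.2 < i}

noncomputable def rI : I → W
  | .inl i => i
  | .inr p => max p.1 p.2

theorem rk_I : Rk rI := fun b => by
  refine (((rk_id b).image Sum.inl).union ((rk_id.prod rk_id b).image Sum.inr)).mono ?_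
  rintro (i | p) h
  · exact Or.inl ⟨i, h, rfl⟩
  · exact Or.inr ⟨p, h, rfl⟩

theorem Z_le {ι : I} {i : W} (h : i ∈ Z ι) : i ≤ rI ι := by
  rcases ι with j | p
  · exact le_of_eq h
  · exact (C_lt h.2.1).le.trans (le_max_left _ _)

theorem Z_fin {d : W} (hd : d ∉ S) (ι : I) : rI ι < d ∨ (Z ι ∩ Iio d).Finite := by
  rcases ι with j | ⟨l, g⟩
  · exact Or.inr ((finite_singleton j).inter_of_left _)
  rcases lt_trichotomy l d with h | rfl | h
  · rcases lt_or_ge g d with h1 | h1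
    · exact Or.inl (max_lt h h1)
    · exact Or.inr (finite_empty.subset fun i hi => (h1.trans_lt hi.1.2.2).not_gt hi.2)
  · exact Or.inr (finite_empty.subset fun i hi => hd hi.1.1)
  · exact Or.inr ((C_fin h).subset fun i hi => ⟨hi.1.2.1, hi.2⟩)

abbrev Q : Type := List W × List I

noncomputable def rQ (q : Q) : W := max (rl id q.1) (rl rI q.2)

theorem rk_Q : Rk rQ := rk_id.list.prod rk_I.list

theorem rQ_lt {q : Q} {b : W} : rQ q < b ↔ ⊥ < b ∧ (∀ a ∈ q.1, a < b) ∧ ∀ ι ∈ q.2, rI ι < b := by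
  simp only [rQ, max_lt_iff, rl_lt, id]
  tauto

def B (q : Q) : Set (Set W) := {x | (∀ i ∈ q.1, i ∈ x) ∧ ∀ ι ∈ q.2, ∀ i ∈ Z ι, i ∉ x}

theorem B_dep {q : Q} {b : W} (h : rQ q < b) {x y : Set W} (hx : x ∈ B q)
    (hy : ∀ i < b, i ∈ y ↔ i ∈ x) : y ∈ B q :=
  ⟨fun i hi => (hy i ((rQ_lt.1 h).2.1 i hi)).2 (hx.1 i hi), fun ι hι i hi h1 =>
    hx.2 ι hι i hi ((hy i ((Z_le hi).trans_lt ((rQ_lt.1 h).2.2 ι hι))).1 h1)⟩

theorem red {d : W} (hd : d ∉ S) (h0 : ⊥ < d) {p : Q} (hp : (B p).Nonempty) :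
    ∃ r : Q, rQ r < d ∧ (B r).Nonempty ∧ ∀ c : Q, rQ c < d → (B c ∩ B r).Nonempty →
      (B c ∩ B p).Nonempty := by
  classical
  obtain ⟨x, hx⟩ := hp
  have : (⋃ ι ∈ {ι | ι ∈ p.2 ∧ ¬ rI ι < d}, Z ι ∩ Iio d).Finite :=
    ((List.finite_toSet p.2).subset fun _ h => h.1).biUnion fun ι h => (Z_fin hd ι).resolve_left h.2
  obtain ⟨F, hF⟩ := this.exists_finset_coe
  have hF' : ∀ i, i ∈ F.toList ↔ ∃ ι ∈ p.2, ¬ rI ι < d ∧ i ∈ Z ι ∧ i < d := fun i => by
    rw [Finset.mem_toList, ← Finset.mem_coe, hF]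
    simp only [mem_iUnion, mem_setOf_eq, mem_inter_iff, mem_Iio]
    tauto
  refine ⟨(p.1.filter (· < d), p.2.filter (rI · < d) ++ F.toList.map .inl), rQ_lt.2 ⟨h0, ?_, ?_⟩,
    ⟨x, ?_, ?_⟩, ?_⟩
  · intro a ha
    simpa using (List.mem_filter.1 ha).2
  · intro ι hι
    rcases List.mem_append.1 hι with h | h
    · simpa using (List.mem_filter.1 h).2
    · obtain ⟨i, i1, rfl⟩ := List.mem_map.1 h
      obtain ⟨_, -, -, -, h⟩ := (hF' i).1 i1
      exact h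
  · exact fun i hi => hx.1 i (List.mem_filter.1 hi).1
  · intro ι hι i hi
    rcases List.mem_append.1 hι with h | h
    · exact hx.2 ι (List.mem_filter.1 h).1 i hi
    · obtain ⟨j, j1, rfl⟩ := List.mem_map.1 h
      obtain ⟨κ, k1, -, k2, -⟩ := (hF' j).1 j1
      rw [show i = j from hi]
      exact hx.2 κ k1 j k2
  · rintro c hc ⟨y, y1, y2⟩
    refine ⟨{i | if i < d then i ∈ y else i ∈ x}, B_dep hc y1 fun i hi => by simp [hi],
      fun i hi => ?_, fun ι hι i hi => ?_⟩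
    · by_cases h : i < d
      · simpa [h] using y2.1 i (List.mem_filter.2 ⟨hi, by simpa using h⟩)
      · simpa [h] using hx.1 i hi
    · by_cases h : i < d
      · simp only [mem_setOf_eq, if_pos h]
        by_cases h1 : rI ι < d
        · exact y2.2 ι (List.mem_append_left _ (List.mem_filter.2 ⟨hι, by simpa using h1⟩)) i hi
        · exact y2.2 (.inl i) (List.mem_append_right _
            (List.mem_map.2 ⟨i, (hF' i).2 ⟨ι, hι, h1, hi, h⟩, rfl⟩)) i rfl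
      · simpa [h] using hx.2 ι hι i hi

def ad (i : W) (q : Q) : Q := (i :: q.1, q.2)

theorem ad_sub {i : W} {q : Q} : B (ad i q) ⊆ B q := fun _ h =>
  ⟨fun j hj => h.1 j (List.mem_cons_of_mem _ hj), h.2⟩

theorem ad_ne {i : W} {q : Q} (h : rQ q < i) (hq : (B q).Nonempty) : (B (ad i q)).Nonempty := by
  obtain ⟨x, hx⟩ := hq
  have := B_dep h hx (y := insert i x) fun j hj => by simp [hj.ne]
  refine ⟨insert i x, fun j hj => ?_, this.2⟩
  rcases List.mem_cons.1 hj with rfl | hj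
  · exact mem_insert _ _
  · exact this.1 j hj

noncomputable def Od (d : W) : Q := ([], [.inr (d, ⊥)])

theorem Od_ne (d : W) : (B (Od d)).Nonempty :=
  ⟨∅, fun _ h => by simp [Od] at h, fun _ _ _ _ h => h⟩

theorem ad_disj {d i : W} (hd : d ∈ S) (hi : i ∈ C d) (h0 : ⊥ < i) (q : Q) :
    ¬ (B (ad i q) ∩ B (Od d)).Nonempty := fun ⟨_, h1, h2⟩ =>
  h2.2 (.inr (d, ⊥)) (by simp [Od]) i ⟨hd, hi, h0⟩ (h1.1 i (by simp [ad]))

theorem walk (β : List W → W) : ∃ d ∈ S, ∃ (ξ : ℕ → W) (pos : ℕ → List W), pos 0 = [] ∧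
    (∀ n, pos (n + 1) = ξ n :: pos n) ∧ ∀ n, ξ n ∈ C d ∧ β (pos n) < ξ n := by
  obtain ⟨d, d1, d2, d3⟩ := clos rk_id.list β exists_S.choose_spec.1
  have : ∀ l : {l : List W // rl id l < d}, ∃ i, (i ∈ C d ∧ β l < i) ∧ rl id (i :: l.1) < d :=
    fun l => by
    obtain ⟨i, i1, i2⟩ := C_cof d2.lad (d3 _ l.2)
    refine ⟨i, ⟨i1, i2⟩, rl_lt.2 ⟨d2.1, fun a ha => ?_⟩⟩
    rcases List.mem_cons.1 ha with rfl | ha
    · exact C_lt i1
    · exact (rl_lt.1 l.2).2 a ha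
  choose f f1 f2 using this
  obtain ⟨u, u0, u1⟩ : ∃ u : ℕ → {l : List W // rl id l < d}, (u 0).1 = [] ∧
      ∀ n, (u (n + 1)).1 = f (u n) :: (u n).1 :=
    ⟨fun n => Nat.rec (motive := fun _ => {l : List W // rl id l < d}) ⟨[], d2.1⟩
      (fun _ l => ⟨_, f2 l⟩) n, rfl, fun _ => rfl⟩
  exact ⟨d, d1, fun n => f (u n), fun n => (u n).1, u0, u1, fun n => f1 _⟩

theorem walk2 {α : Type} {ρ : α → W} (hρ : Rk ρ) (a0 : α) (h0 : ρ a0 = ⊥) (β : List α → W) :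
    ∃ d ∉ S, ⊥ < d ∧ ∃ e : ℕ → α, (∀ a, ρ a < d → ∃ n, e n = a) ∧
      ∀ l : List α, (∀ a ∈ l, ∃ n, e n = a) → β l < d := by
  obtain ⟨d, d1, d2, d3⟩ := clos hρ.list β exists_S.choose_spec.2
  obtain ⟨e, he⟩ := (hρ d).exists_eq_range ⟨a0, show ρ a0 < d from h0 ▸ d2.1⟩
  exact ⟨d, d1, d2.1, e, fun a ha => he.subset ha, fun l hl => d3 l
    (rl_lt.2 ⟨d2.1, fun a ha => he.superset (hl a ha)⟩)⟩

end Pool.Agent.H31.BJ
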