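import Pool.Agent.H31.BJ

set_option autoImplicit false

open Set Topology Filter

namespace Pool.Agent.H31.BJ

open Omega1 Suit

def X : Type := Set W

open Classical in
noncomputable def Φ (x : X) (ι : I) : Bool := decide (∀ i ∈ Z ι, i ∉ (show Set W from x))

noncomputable instance : TopologicalSpace X := TopologicalSpace.induced Φ inferInstance

theorem Φ_emb : IsEmbedding Φ := ⟨⟨rfl⟩, fun x y h => Set.ext fun i => by
  have := congrFun h (.inl i)
  simp only [Φ, Z, mem_singleton_iff, forall_eq, decide_eq_decide] at this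
  exact not_iff_not.1 this⟩

instance : T35Space X := Φ_emb.t35Space

def BX (q : Q) : Set X := B q

theorem BX_open (q : Q) : IsOpen (BX q) := by
  have h : ∀ ι b, IsOpen {x : X | Φ x ι = b} := fun ι b =>
    (isOpen_discrete {b}).preimage ((continuous_apply ι).comp Φ_emb.continuous)
  have : BX q = (⋂ i ∈ {i | i ∈ q.1}, {x : X | Φ x (.inl i) = false}) ∩
      ⋂ ι ∈ {ι | ι ∈ q.2}, {x : X | Φ x ι = true} := by
    ext x
    simp [BX, B, Φ, Z]
    rfl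
  rw [this]
  exact ((List.finite_toSet _).isOpen_biInter fun _ _ => h _ _).inter
    ((List.finite_toSet _).isOpen_biInter fun _ _ => h _ _)

theorem pibase {O : Set X} (h : IsOpen O) (h1 : O.Nonempty) :
    ∃ q, (B q).Nonempty ∧ BX q ⊆ O := by
  classical
  obtain ⟨x, hx⟩ := h1
  have := h.mem_nhds hx
  rw [Φ_emb.nhds_eq_comap, mem_comap] at this
  obtain ⟨t, t1, t2⟩ := this
  rw [nhds_pi, mem_pi'] at t1
  obtain ⟨J, u, u1, u2⟩ := t1
  have : ∀ ι, Φ x ι = false → ∃ i, i ∈ Z ι ∧ i ∈ (show Set W from x) := fun ι h => by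
    simpa [Φ] using h
  choose! f f1 f2 using this
  refine ⟨((J.toList.filter (Φ x · = false)).map f, J.toList.filter (Φ x · = true)),
    ⟨x, fun i hi => ?_, fun ι hι => ?_⟩, fun y hy => t2 (u2 fun ι hι => ?_)⟩
  · obtain ⟨ι, h1, rfl⟩ := List.mem_map.1 hi
    exact f2 ι (by simpa using (List.mem_filter.1 h1).2)
  · simpa [Φ] using (List.mem_filter.1 hι).2
  · have h2 : Φ y ι = Φ x ι := by
      rcases h3 : Φ x ι with _ | _
      · have := hy.1 (f ι) (List.mem_map.2 ⟨ι, List.mem_filter.2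
          ⟨Finset.mem_toList.2 hι, by simp [h3]⟩, rfl⟩)
        simp only [Φ, decide_eq_false_iff_not]
        exact fun h => h _ (f1 ι h3) this
      · simp only [Φ, decide_eq_true_eq]
        exact hy.2 ι (List.mem_filter.2 ⟨Finset.mem_toList.2 hι, by simp [h3]⟩)
    rw [h2]
    exact mem_of_mem_nhds (u1 ι)

def D (𝒰 : Set (Set X)) : Prop := (∀ U ∈ 𝒰, IsOpen U) ∧ Dense (⋃₀ 𝒰)

theorem one_total (σ : List (Set X) → Set (Set X)) (hσ : ∀ l, D (σ l)) :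
    ∃ U : ℕ → Set X, (∀ n, U n ∈ σ ((List.range n).map U)) ∧ Dense (⋃ n, U n) := by
  have : ∀ (l : List (Set X)) (q : Q), ∃ U ∈ σ l, ∃ c : Q, (B q).Nonempty →
      (B c).Nonempty ∧ BX c ⊆ U ∩ BX q := fun l q => by
    by_cases hq : (B q).Nonempty
    · obtain ⟨x, x1, U, u1, u2⟩ := (hσ l).2.inter_open_nonempty _ (BX_open q) hq
      obtain ⟨c, hc⟩ := pibase (((hσ l).1 U u1).inter (BX_open q)) ⟨x, u2, x1⟩
      exact ⟨U, u1, c, fun _ => hc⟩
    · obtain ⟨x, -, U, u1, -⟩ := (hσ l).2.inter_open_nonempty _ isOpen_univ ⟨(∅ : Set W), trivial⟩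
      exact ⟨U, u1, q, fun h => (hq h).elim⟩
  choose U u1 c u2 using this
  obtain ⟨H, h0, h1⟩ : ∃ H : List Q → List (Set X), H [] = [] ∧
      ∀ a s, H (a :: s) = H s ++ [U (H s) a] :=
    ⟨fun s => List.rec (motive := fun _ => List (Set X)) [] (fun a _ b => b ++ [U b a]) s,
      rfl, fun _ _ => rfl⟩
  obtain ⟨d, d1, d2, e, e1, e2⟩ := walk2 rk_Q ([], []) (max_self _)
    (fun l => rQ (c (H l.tail) (l.headD ([], []))))
  obtain ⟨pos, p0, p1⟩ : ∃ pos : ℕ → List Q, pos 0 = [] ∧ ∀ k, pos (k + 1) = e k :: pos k :=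
    ⟨fun n => Nat.rec (motive := fun _ => List Q) [] (fun k s => e k :: s) n, rfl, fun _ => rfl⟩
  have p2 : ∀ n, ∀ a ∈ pos n, ∃ k, e k = a := fun n => by
    induction n with
    | zero => rw [p0]; exact fun _ h => by simp at h
    | succ n ih =>
      rw [p1]
      intro a ha
      rcases List.mem_cons.1 ha with rfl | ha
      exacts [⟨n, rfl⟩, ih a ha]
  have h2 : ∀ n, (List.range n).map (fun k => U (H (pos k)) (e k)) = H (pos n) := fun n => by
    induction n with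
    | zero => rw [p0, h0]; rfl
    | succ n ih => rw [List.range_succ, List.map_append, ih, p1, h1]; rfl
  refine ⟨fun k => U (H (pos k)) (e k), fun n => by rw [h2]; exact u1 _ _,
    dense_iff_inter_open.2 fun O o1 o2 => ?_⟩
  obtain ⟨p, q1, q2⟩ := pibase o1 o2
  obtain ⟨r, r1, r2, r3⟩ := red d1 d2 q1
  obtain ⟨n, rfl⟩ := e1 r r1
  have h3 := e2 _ (p2 (n + 1))
  rw [p1] at h3
  obtain ⟨⟨x, hx⟩, b2⟩ := u2 (H (pos n)) (e n) r2
  obtain ⟨y, y1, y2⟩ := r3 _ h3 ⟨x, hx, (b2 hx).2⟩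
  exact ⟨y, q2 y2, mem_iUnion.2 ⟨n, (b2 y1).1⟩⟩

theorem one (σ : List (Set X) → Set (Set X))
    (hσ : ∀ (U : ℕ → Set X) (n : ℕ), (∀ k < n, U k ∈ σ ((List.range k).map U)) →
      D (σ ((List.range n).map U))) :
    ∃ U : ℕ → Set X, (∀ n, U n ∈ σ ((List.range n).map U)) ∧ Dense (⋃ n, U n) := by
  classical
  have h0 : D (σ []) := hσ (fun _ => ∅) 0 fun _ h => by omega
  obtain ⟨U, u1, u2⟩ := one_total (fun l => if D (σ l) then σ l else σ []) fun l => by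
    split_ifs with h1
    exacts [h1, h0]
  refine ⟨U, fun n => ?_, u2⟩
  induction n using Nat.strong_induction_on with
  | _ n ih =>
    have := u1 n
    rwa [if_pos (hσ U n ih)] at this

theorem two (τ : List (Set (Set X)) → Set X)
    (hτ : ∀ (l : List (Set (Set X))) (𝒰 : Set (Set X)), (∀ 𝒱 ∈ l, D 𝒱) → D 𝒰 →
      τ (l ++ [𝒰]) ∈ 𝒰) :
    ∃ 𝒰 : ℕ → Set (Set X), (∀ n, D (𝒰 n)) ∧
      ¬ Dense (⋃ n, τ ((List.range (n + 1)).map 𝒰)) := by
  have : ∀ l : List (Set (Set X)), ∃ q : Q, ∀ i : W, ∃ 𝒰, D 𝒰 ∧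
      ((∀ 𝒱 ∈ l, D 𝒱) → rQ q < i → τ (l ++ [𝒰]) = BX (ad i q)) := fun l => by
    have h0 : D {univ} := ⟨by rintro _ rfl; exact isOpen_univ, by simp⟩
    by_cases hl : ∀ 𝒱 ∈ l, D 𝒱
    swap
    · exact ⟨([], []), fun _ => ⟨_, h0, fun h => (hl h).elim⟩⟩
    have h1 : ¬ D {U | IsOpen U ∧ ∀ 𝒰, D 𝒰 → τ (l ++ [𝒰]) ≠ U} := fun h =>
      (hτ l _ hl h).2 _ h rfl
    have h2 : ¬ Dense (⋃₀ {U | IsOpen U ∧ ∀ 𝒰, D 𝒰 → τ (l ++ [𝒰]) ≠ U}) := fun h =>
      h1 ⟨fun _ h => h.1, h⟩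
    rw [dense_iff_inter_open] at h2
    push Not at h2
    obtain ⟨O, o1, o2, o3⟩ := h2
    obtain ⟨q, q1, q2⟩ := pibase o1 o2
    refine ⟨q, fun i => ?_⟩
    by_cases hi : rQ q < i
    swap
    · exact ⟨_, h0, fun _ h => (hi h).elim⟩
    by_contra h3
    push Not at h3
    obtain ⟨x, hx⟩ := ad_ne hi q1
    exact o3.subset ⟨q2 (ad_sub hx), BX (ad i q), ⟨BX_open _, fun 𝒰 h => (h3 𝒰 h).2.2⟩, hx⟩
  choose q 𝒰 u1 u2 using this
  obtain ⟨H, h0, h1⟩ : ∃ H : List W → List (Set (Set X)), H [] = [] ∧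
      ∀ a s, H (a :: s) = H s ++ [𝒰 (H s) a] :=
    ⟨fun s => List.rec (motive := fun _ => List (Set (Set X))) [] (fun a _ b => b ++ [𝒰 b a]) s,
      rfl, fun _ _ => rfl⟩
  have h3 : ∀ s, ∀ 𝒱 ∈ H s, D 𝒱 := fun s => by
    induction s with
    | nil => rw [h0]; exact fun _ h => by simp at h
    | cons a s ih =>
      rw [h1]
      intro 𝒱 h
      rcases List.mem_append.1 h with h | h
      · exact ih 𝒱 h
      · rw [List.mem_singleton.1 h]; exact u1 _ _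
  obtain ⟨d, d1, ξ, pos, p0, p1, p2⟩ := walk fun l => rQ (q (H l))
  have h2 : ∀ n, (List.range n).map (fun k => 𝒰 (H (pos k)) (ξ k)) = H (pos n) := fun n => by
    induction n with
    | zero => rw [p0, h0]; rfl
    | succ n ih => rw [List.range_succ, List.map_append, ih, p1, h1]; rfl
  refine ⟨fun k => 𝒰 (H (pos k)) (ξ k), fun n => u1 _ _, fun h => ?_⟩
  obtain ⟨x, x1, x2⟩ := h.inter_open_nonempty _ (BX_open (Od d)) (Od_ne d)
  obtain ⟨n, hn⟩ := mem_iUnion.1 x2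
  rw [h2, p1, h1, u2 _ _ (h3 _) (p2 n).2] at hn
  exact ad_disj d1 (p2 n).1 (bot_le.trans_lt (p2 n).2) _ ⟨x, hn, x1⟩

end Pool.Agent.H31.BJ
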