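import Pool.Agent.H31.BJ

set_option autoImplicit false

open Set Topology Filter TopologicalSpace

namespace Pool.Agent.H31.BJ

open Omega1 Suit

def Y : Type := List Q × ℚ

theorem exists_f : ∃ g : List Q → ℝ, ∀ a b, ∀ q : ℚ, g a - g b = q → a = b := by
  obtain ⟨r, hr⟩ := exists_r
  have : Cardinal.mk (List Q) ≤ Cardinal.mk W := by
    simp [Cardinal.mk_list_eq_mk]
  obtain ⟨e⟩ := this
  exact ⟨fun a => r (e a), fun a b q h => e.injective (hr _ _ q h)⟩

noncomputable def f (y : Y) : ℝ := exists_f.choose y.1 + y.2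

theorem f_inj : Function.Injective f := fun x y h => by
  have h1 : x.1 = y.1 := exists_f.choose_spec _ _ (y.2 - x.2) (by
    simp only [f] at h; push_cast; linarith)
  refine Prod.ext h1 ?_
  simp only [f, h1] at h
  exact_mod_cast add_left_cancel h

theorem f_ex (l : List Q) {a b : ℚ} (h : a < b) : ∃ t : ℚ, f (l, t) ∈ Ioo (a : ℝ) b := by
  obtain ⟨t, t1, t2⟩ := exists_rat_btwn (show (a : ℝ) - exists_f.choose l < b - exists_f.choose l by
    have : (a : ℝ) < b := by exact_mod_cast h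
    linarith)
  exact ⟨t, by simp only [f]; linarith, by simp only [f]; linarith⟩

abbrev A : Type := List Q × ℚ × ℚ

def N (a : A) : Set Y :=
  {y | (∀ p ∈ a.1, ∃ c ∈ y.1, (B c ∩ B p).Nonempty) ∧ f y ∈ Ioo (a.2.1 : ℝ) a.2.2}

instance : TopologicalSpace Y := generateFrom (range N)

theorem N_basis : IsTopologicalBasis (range N) := by
  refine ⟨?_, eq_univ_of_forall fun y => ?_, rfl⟩
  · rintro _ ⟨a, rfl⟩ _ ⟨b, rfl⟩ y ⟨h1, h2⟩
    refine ⟨_, ⟨(a.1 ++ b.1, max a.2.1 b.2.1, min a.2.2 b.2.2), rfl⟩, ⟨fun p hp => ?_, ?_, ?_⟩,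
      fun z hz => ⟨⟨fun p hp => hz.1 p (List.mem_append_left _ hp), ?_, ?_⟩,
        fun p hp => hz.1 p (List.mem_append_right _ hp), ?_, ?_⟩⟩
    · exact (List.mem_append.1 hp).elim (h1.1 p) (h2.1 p)
    · push_cast; exact max_lt h1.2.1 h2.2.1
    · push_cast; exact lt_min h1.2.2 h2.2.2
    · exact lt_of_le_of_lt (by push_cast; exact le_max_left _ _) hz.2.1
    · exact lt_of_lt_of_le hz.2.2 (by push_cast; exact min_le_left _ _)
    · exact lt_of_le_of_lt (by push_cast; exact le_max_right _ _) hz.2.1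
    · exact lt_of_lt_of_le hz.2.2 (by push_cast; exact min_le_right _ _)
  · obtain ⟨a, ha⟩ := exists_rat_lt (f y)
    obtain ⟨b, hb⟩ := exists_rat_gt (f y)
    exact ⟨_, ⟨([], a, b), rfl⟩, fun _ h => by simp at h, ha, hb⟩

theorem N_open (a : A) : IsOpen (N a) := N_basis.isOpen ⟨a, rfl⟩

theorem f_cont : Continuous f := by
  refine Real.isTopologicalBasis_Ioo_rat.continuous_iff.2 fun s hs => ?_
  simp only [mem_iUnion, mem_singleton_iff] at hs
  obtain ⟨a, b, -, rfl⟩ := hs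
  convert N_open ([], a, b) using 1
  ext y
  simp [N]

instance : T2Space Y := T2Space.of_injective_continuous f_inj f_cont

def Val (a : A) : Prop := (∀ p ∈ a.1, (B p).Nonempty) ∧ a.2.1 < a.2.2

theorem N_ne {a : A} (h : Val a) : (N a).Nonempty := by
  obtain ⟨t, ht⟩ := f_ex a.1 h.2
  exact ⟨(a.1, t), fun p hp => ⟨p, hp, by simpa using h.1 p hp⟩, ht⟩

theorem pib {O : Set Y} (h : IsOpen O) (h1 : O.Nonempty) : ∃ a, Val a ∧ N a ⊆ O := by
  obtain ⟨y, hy⟩ := h1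
  obtain ⟨_, ⟨a, rfl⟩, h2, h3⟩ := N_basis.exists_subset_of_mem_open hy h
  refine ⟨a, ⟨fun p hp => ?_, ?_⟩, h3⟩
  · obtain ⟨c, -, hc⟩ := h2.1 p hp
    exact hc.right
  · exact_mod_cast h2.2.1.trans h2.2.2

theorem op_one_total (σ : List Y → Set Y) (hσ : ∀ l, IsOpen (σ l) ∧ (σ l).Nonempty) :
    ∃ x : ℕ → Y, (∀ n, x n ∈ σ ((List.range n).map x)) ∧ ¬ Dense (range x) := by
  choose a a1 a2 using fun l => pib (hσ l).1 (hσ l).2
  have : ∀ (l : List Y) (i : W), ∃ y ∈ σ l, rl rQ (a l).1 < i → y.1 = (a l).1.map (ad i) :=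
    fun l i => by
    by_cases hi : rl rQ (a l).1 < i
    · obtain ⟨t, ht⟩ := f_ex ((a l).1.map (ad i)) (a1 l).2
      refine ⟨((a l).1.map (ad i), t), a2 l ⟨fun p hp => ⟨ad i p, List.mem_map.2 ⟨p, hp, rfl⟩, ?_⟩,
        ht⟩, fun _ => rfl⟩
      rw [inter_eq_left.2 ad_sub]
      exact ad_ne ((rl_lt.1 hi).2 p hp) ((a1 l).1 p hp)
    · obtain ⟨y, hy⟩ := (hσ l).2
      exact ⟨y, hy, fun h => (hi h).elim⟩
  choose y y1 y2 using this
  obtain ⟨H, h0, h1⟩ : ∃ H : List W → List Y, H [] = [] ∧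
      ∀ a s, H (a :: s) = H s ++ [y (H s) a] :=
    ⟨fun s => List.rec (motive := fun _ => List Y) [] (fun a _ b => b ++ [y b a]) s,
      rfl, fun _ _ => rfl⟩
  obtain ⟨d, d1, ξ, pos, p0, p1, p2⟩ := walk fun l => rl rQ (a (H l)).1
  have h2 : ∀ n, (List.range n).map (fun k => y (H (pos k)) (ξ k)) = H (pos n) := fun n => by
    induction n with
    | zero => rw [p0, h0]; rfl
    | succ n ih => rw [List.range_succ, List.map_append, ih, p1, h1]; rfl
  refine ⟨fun k => y (H (pos k)) (ξ k), fun n => by rw [h2]; exact y1 _ _, fun h => ?_⟩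
  obtain ⟨_, x1, n, rfl⟩ := h.inter_open_nonempty _ (N_open ([Od d], 0, 1))
    (N_ne ⟨fun p hp => by rw [List.mem_singleton.1 hp]; exact Od_ne d, zero_lt_one⟩)
  obtain ⟨c, c1, c2⟩ := x1.1 (Od d) (by simp)
  rw [y2 _ _ (p2 n).2] at c1
  obtain ⟨p, -, rfl⟩ := List.mem_map.1 c1
  exact ad_disj d1 (p2 n).1 (bot_le.trans_lt (p2 n).2) _ c2

theorem op_one (σ : List Y → Set Y)
    (hσ : ∀ (x : ℕ → Y) (n : ℕ), (∀ k < n, x k ∈ σ ((List.range k).map x)) →
      IsOpen (σ ((List.range n).map x)) ∧ (σ ((List.range n).map x)).Nonempty) :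
    ∃ x : ℕ → Y, (∀ n, x n ∈ σ ((List.range n).map x)) ∧ ¬ Dense (range x) := by
  classical
  obtain ⟨U, u1, u2⟩ := op_one_total
    (fun l => if IsOpen (σ l) ∧ (σ l).Nonempty then σ l else univ) fun l => by
    split_ifs with h1
    exacts [h1, ⟨isOpen_univ, ([], 0), trivial⟩]
  refine ⟨U, fun n => ?_, u2⟩
  induction n using Nat.strong_induction_on with
  | _ n ih =>
    have := u1 n
    rwa [if_pos (hσ U n ih)] at this

theorem op_two (τ : List (Set Y) → Y)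
    (hτ : ∀ (l : List (Set Y)) (U : Set Y), (∀ V ∈ l, IsOpen V ∧ V.Nonempty) →
      IsOpen U → U.Nonempty → τ (l ++ [U]) ∈ U) :
    ∃ U : ℕ → Set Y, (∀ n, IsOpen (U n) ∧ (U n).Nonempty) ∧
      Dense (range fun n => τ ((List.range (n + 1)).map U)) := by
  classical
  let N' : A → Set Y := fun a => if Val a then N a else univ
  have hN : ∀ a, IsOpen (N' a) ∧ (N' a).Nonempty := fun a => by
    simp only [N']
    split_ifs with h
    exacts [⟨N_open a, N_ne h⟩, ⟨isOpen_univ, ([], 0), trivial⟩]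
  obtain ⟨d, d1, d2, e, e1, e2⟩ := walk2 (rk_Q.list.prod (rk_count (α := ℚ × ℚ))) ([], 0, 0)
    (max_self _) (fun l => rl rQ (τ (l.map N')).1)
  refine ⟨fun n => N' (e n), fun n => hN _, dense_iff_inter_open.2 fun O o1 o2 => ?_⟩
  obtain ⟨a, a1, a2⟩ := pib o1 o2
  choose! r r1 r2 r3 using fun p (hp : p ∈ a.1) => red d1 d2 (a1.1 p hp)
  obtain ⟨n, hn⟩ := e1 (a.1.map r, a.2) (max_lt (rl_lt.2 ⟨d2, fun c hc => by
    obtain ⟨p, hp, rfl⟩ := List.mem_map.1 hc
    exact r1 p hp⟩) d2)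
  have h1 := e2 ((List.range (n + 1)).map e) fun b hb => by
    obtain ⟨k, -, rfl⟩ := List.mem_map.1 hb
    exact ⟨k, rfl⟩
  have h2 := hτ ((List.range n).map fun n => N' (e n)) (N' (e n)) (fun V hV => by
    obtain ⟨k, -, rfl⟩ := List.mem_map.1 hV
    exact hN _) (hN _).1 (hN _).2
  rw [← List.map_singleton (f := fun n => N' (e n)), ← List.map_append, ← List.range_succ] at h2
  rw [List.map_map] at h1
  have h3 : Val (e n) := hn ▸ ⟨fun c hc => by
    obtain ⟨p, hp, rfl⟩ := List.mem_map.1 hc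
    exact r2 p hp, a1.2⟩
  have h4 : N' (e n) = N (a.1.map r, a.2) := by simp only [N']; rw [if_pos h3, hn]
  rw [h4] at h2
  refine ⟨_, a2 ⟨fun p hp => ?_, h2.2⟩, n, rfl⟩
  obtain ⟨c, c1, c2⟩ := h2.1 (r p) (List.mem_map.2 ⟨p, hp, rfl⟩)
  exact ⟨c, c1, r3 p hp c ((rl_lt.1 h1).2 c c1) c2⟩

end Pool.Agent.H31.BJ
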