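import Pool.Agent.H31.Vd

set_option autoImplicit false

open Set Topology Filter TopologicalSpace Cardinal

namespace Pool.Agent.H31.BP

/-- cylinders in the Cantor set -/
abbrev Cy : Type := ℕ × (ℕ → Bool)

/-- strict refinement of cylinders -/
def Lt (a b : Cy) : Prop := a.1 < b.1 ∧ ∀ i < a.1, b.2 i = a.2 i

/-- a real lies in a cylinder -/
def On (r : ℕ → Bool) (a : Cy) : Prop := ∀ i < a.1, r i = a.2 i

theorem Lt.trans {a b c : Cy} (h : Lt a b) (h' : Lt b c) : Lt a c :=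
  ⟨h.1.trans h'.1, fun i hi => (h'.2 i (hi.trans h.1)).trans (h.2 i hi)⟩

theorem On.mono {r : ℕ → Bool} {a b : Cy} (h : On r b) (h' : Lt a b) : On r a :=
  fun i hi => (h i (hi.trans h'.1)).trans (h'.2 i hi)

/-- raw terms -/
inductive T : Type
  | root : T
  | nd (κ : Cy) (dm : Bool) (f : ℕ → Bool) (n : ℕ) (c t l : ℕ → T) : T

open T

/-- elements above a term -/
def up : T → Set T
  | root => {root}
  | nd κ dm f n c t l => insert (nd κ dm f n c t l) (⋃ i < n, up (c i))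

/-- elements strictly above a term -/
def us : T → Set T
  | root => ∅
  | nd _ _ _ n c _ _ => ⋃ i < n, up (c i)

/-- the root part -/
def R : T → Set T
  | root => ∅
  | nd _ _ f n c _ _ => ⋃ i < n, ⋃ (_ : f i = true), up (c i)

/-- the cylinder of a term -/
def cyl : T → Cy
  | root => (0, fun _ => false)
  | nd κ _ _ _ _ _ _ => κ

/-- rank -/
noncomputable def rk : T → Ordinal.{0}
  | root => 0
  | nd _ _ _ _ c _ l => (⨆ i, max (rk (c i)) (rk (l i))) + 1

/-- `q` prolongs the stair with top `t` and last step `a` -/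
def Ext (t a q : T) : Prop := a ∈ us q ∧ (∀ b ∈ us q, t ∈ up b → b ∈ up a) ∧ t ∉ R q

/-- stairs -/
inductive GS (t : T) : T → Prop
  | refl : GS t t
  | step {a q : T} : GS t a → Ext t a q → GS t q

/-- `v` carries the demand `t`, `l` -/
def Dm (v : T) (t l : ℕ → T) : Prop := ∃ κ f n c, v = nd κ true f n c t l

/-- valid terms -/
def Val : T → Prop
  | root => True
  | nd κ dm f n c t l => (∀ i < n, Val (c i) ∧ Lt (cyl (c i)) κ) ∧
      (dm = true → (∀ k, Val (l k) ∧ GS (t k) (l k) ∧ Lt (cyl (l k)) κ) ∧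
        ∀ F : Set T, F.Finite → ∃ k, up (l k) ∩ F ⊆ R (nd κ dm f n c t l) ∧ t k ∉ F) ∧
      ∀ v ∈ us (nd κ dm f n c t l), ∀ t' l', Dm v t' l' →
        ∃ k, Ext (t' k) (l' k) (nd κ dm f n c t l)

theorem up_eq (a : T) : up a = insert a (us a) := by cases a <;> simp [up, us]

theorem self_up (a : T) : a ∈ up a := up_eq a ▸ mem_insert _ _

theorem us_sub (a : T) : us a ⊆ up a := up_eq a ▸ subset_insert _ _

theorem R_sub (a : T) : R a ⊆ us a := by
  cases a with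
  | root => exact subset_rfl
  | nd κ dm f n c t l => exact iUnion₂_mono fun i _ => iUnion_subset fun _ => subset_rfl

theorem trans {z : T} : ∀ b ∈ up z, up b ⊆ up z := by
  induction z with
  | root => rintro a rfl; exact subset_rfl
  | nd κ dm f n c t l ih _ _ =>
    rintro a (rfl | ha)
    · exact subset_rfl
    · obtain ⟨i, hi, ha⟩ := mem_iUnion₂.1 ha
      exact fun b hb => Or.inr (mem_iUnion₂.2 ⟨i, hi, ih i a ha hb⟩)

theorem trans' {z b : T} (h : b ∈ us z) : up b ⊆ us z := by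
  cases z with
  | root => exact h.elim
  | nd κ dm f n c t l =>
    obtain ⟨i, hi, ha⟩ := mem_iUnion₂.1 h
    exact fun a hb => mem_iUnion₂.2 ⟨i, hi, trans _ ha hb⟩

theorem rk_c (κ dm f n c t l i) : rk (c i) < rk (nd κ dm f n c t l) :=
  ((le_max_left _ _).trans
    (Ordinal.le_iSup (fun i => max (rk (c i)) (rk (l i))) i)).trans_lt (lt_add_one _)

theorem rk_l (κ dm f n c t l i) : rk (l i) < rk (nd κ dm f n c t l) :=
  ((le_max_right _ _).trans
    (Ordinal.le_iSup (fun i => max (rk (c i)) (rk (l i))) i)).trans_lt (lt_add_one _)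

theorem rk_up {z : T} : ∀ a ∈ up z, rk a ≤ rk z := by
  induction z with
  | root => rintro a rfl; exact le_rfl
  | nd κ dm f n c t l ih _ _ =>
    rintro a (rfl | ha)
    · exact le_rfl
    · obtain ⟨i, -, ha⟩ := mem_iUnion₂.1 ha
      exact (ih i a ha).trans (rk_c ..).le

theorem rk_us {z a : T} (h : a ∈ us z) : rk a < rk z := by
  cases z with
  | root => exact h.elim
  | nd κ dm f n c t l =>
    obtain ⟨i, -, ha⟩ := mem_iUnion₂.1 h
    exact (rk_up a ha).trans_lt (rk_c ..)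

theorem fin_up (z : T) : (up z).Finite := by
  induction z with
  | root => exact finite_singleton _
  | nd κ dm f n c t l ih _ _ => exact ((finite_lt_nat n).biUnion fun i _ => ih i).insert _

theorem val_up {z : T} : Val z → ∀ a ∈ up z, Val a ∧ (a = z ∨ Lt (cyl a) (cyl z)) := by
  induction z with
  | root => rintro h a rfl; exact ⟨h, Or.inl rfl⟩
  | nd κ dm f n c t l ih _ _ =>
    rintro h a (rfl | ha)
    · exact ⟨h, Or.inl rfl⟩
    · obtain ⟨i, hi, ha⟩ := mem_iUnion₂.1 ha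
      obtain ⟨h1, rfl | h2⟩ := ih i (h.1 i hi).1 a ha
      · exact ⟨h1, Or.inr (h.1 i hi).2⟩
      · exact ⟨h1, Or.inr (h2.trans (h.1 i hi).2)⟩

theorem lt_up {z a : T} {κ : Cy} (h : Val z) (ha : a ∈ up z) (h' : Lt (cyl z) κ) : Lt (cyl a) κ := by
  rcases (val_up h a ha).2 with rfl | h2
  exacts [h', h2.trans h']

theorem lt_us {z a : T} (h : Val z) (ha : a ∈ us z) : Lt (cyl a) (cyl z) :=
  (val_up h a (us_sub _ ha)).2.resolve_left fun e => (rk_us ha).ne (congrArg rk e)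

theorem val_dem {q v : T} {t l : ℕ → T} (h : Val q) (hv : v ∈ us q) (hd : Dm v t l) :
    ∃ k, Ext (t k) (l k) q := by
  cases q with
  | root => exact hv.elim
  | nd κ dm f n c t l => exact h.2.2 v hv _ _ hd

theorem GS.up {t a : T} (h : GS t a) : t ∈ up a := by
  induction h with
  | refl => exact self_up _
  | step _ h ih => exact us_sub _ (trans' h.1 ih)

theorem GS.clean {t a : T} (h : GS t a) : ∀ v ∈ BP.up a, t ∉ R v := by
  induction h with
  | refl => exact fun v hv h => (rk_us (R_sub _ h)).not_ge (rk_up _ hv)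
  | step _ h ih =>
    intro v hv h'
    rw [up_eq] at hv
    rcases hv with rfl | hv
    · exact h.2.2 h'
    · exact ih v (h.2.1 v hv (us_sub _ (R_sub _ h'))) h'

/-- finite up-closed sets of valid terms refined by `κ` and missing `z` -/
structure Ok (κ : Cy) (z : T) (S : Set T) : Prop where
  fin : S.Finite
  val : ∀ a ∈ S, Val a
  cl : ∀ a ∈ S, up a ⊆ S
  lt : ∀ a ∈ S, Lt (cyl a) κ
  nz : z ∉ S

theorem close {κ : Cy} {z : T} {S0 : Set T} (M : Multiset T) : ∀ (S : Set T) (Pr : Set (T × T)),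
    Ok κ z S → S0 ⊆ S → (∀ p ∈ Pr, p.1 ∈ S ∧ p.1 ∉ S0 ∧ p.2 ∈ S ∧ ∀ b ∈ S, p.1 ∈ up b → b ∈ up p.2) →
    (∀ v ∈ M, v ∈ S ∧ ∀ p ∈ Pr, p.1 ∉ R v) →
    (∀ v ∈ S, ∀ t l, Dm v t l → v ∈ M ∨ ∃ k, (t k, l k) ∈ Pr) →
    ∃ S', Ok κ z S' ∧ S0 ⊆ S' ∧ ∀ v ∈ S', ∀ t l, Dm v t l →
      ∃ k, t k ∉ S0 ∧ l k ∈ S' ∧ ∀ b ∈ S', t k ∈ up b → b ∈ up (l k) := by
  classical
  have wf : WellFounded (Relation.CutExpand fun a b : T => rk a < rk b) :=
    (InvImage.wf rk wellFounded_lt).cutExpand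
  induction M using wf.induction with
  | _ M ih =>
  intro S Pr ok h0 h1 h2 h3
  by_cases hM : ∃ v ∈ M, ∃ t l, Dm v t l
  swap
  · refine ⟨S, ok, h0, fun v hv t l hd => ?_⟩
    obtain ⟨k, hk⟩ := (h3 v hv t l hd).resolve_left fun h => hM ⟨v, h, t, l, hd⟩
    exact ⟨k, (h1 _ hk).2⟩
  obtain ⟨v, hv, t, l, κ', f, n, c, e⟩ := hM
  have hvS := (h2 v hv).1
  have hval := ok.val v hvS
  have hlt := ok.lt v hvS
  have hRS : R v ⊆ S := (R_sub v).trans ((us_sub v).trans (ok.cl v hvS))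
  have hd := (e ▸ hval : Val (nd κ' true f n c t l)).2.1 rfl
  obtain ⟨k, k1, k2⟩ := hd.2 _ (ok.fin.insert z)
  rw [← e] at k1
  have k3 : ∀ p ∈ Pr, p.1 ∉ up (l k) := fun p hp h =>
    (h2 v hv).2 p hp (k1 ⟨h, Or.inr (h1 p hp).1⟩)
  refine ih (M.erase v + (fin_up (l k)).toFinset.val) ⟨(fin_up (l k)).toFinset.val, v, ?_, ?_⟩
    (S ∪ up (l k)) (insert (t k, l k) Pr) ⟨ok.fin.union (fin_up _), ?_, ?_, ?_, ?_⟩
    (h0.trans subset_union_left) ?_ ?_ ?_
  · intro a ha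
    exact (rk_up a (by simpa using ha)).trans_lt (e ▸ rk_l ..)
  · rw [add_right_comm, add_comm (M.erase v), Multiset.singleton_add, Multiset.cons_erase hv]
  · rintro a (ha | ha)
    exacts [ok.val a ha, (val_up (hd.1 k).1 a ha).1]
  · rintro a (ha | ha)
    exacts [(ok.cl a ha).trans subset_union_left, (trans a ha).trans subset_union_right]
  · rintro a (ha | ha)
    · exact ok.lt a ha
    · exact lt_up (hd.1 k).1 ha ((hd.1 k).2.2.trans (by rw [e] at hlt; exact hlt))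
  · rintro (h | h)
    exacts [ok.nz h, ok.nz (hRS (k1 ⟨h, Or.inl rfl⟩))]
  · rintro p (rfl | hp)
    · refine ⟨Or.inr (hd.1 k).2.1.up, fun h => k2 (Or.inr (h0 h)), Or.inr (self_up _), ?_⟩
      rintro b (hb | hb) h
      exacts [(k2 (Or.inr (ok.cl b hb h))).elim, hb]
    · refine ⟨Or.inl (h1 p hp).1, (h1 p hp).2.1, Or.inl (h1 p hp).2.2.1, ?_⟩
      rintro b (hb | hb) h
      exacts [(h1 p hp).2.2.2 b hb h, (k3 p hp (trans b hb h)).elim]
  · intro w hw
    rcases Multiset.mem_add.1 hw with hw | hw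
    · have := h2 w (Multiset.mem_of_mem_erase hw)
      refine ⟨Or.inl this.1, ?_⟩
      rintro p (rfl | hp)
      · exact fun h => k2 (Or.inr (ok.cl w this.1 (us_sub _ (R_sub _ h))))
      · exact this.2 p hp
    · have hw' : w ∈ up (l k) := by simpa using hw
      refine ⟨Or.inr hw', ?_⟩
      rintro p (rfl | hp)
      · exact (hd.1 k).2.1.clean w hw'
      · exact fun h => k3 p hp (trans w hw' (us_sub _ (R_sub _ h)))
  · rintro w (hw | hw) t' l' hd'
    · by_cases hwv : w = v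
      · obtain ⟨_, _, _, _, e'⟩ := hd'
        rw [hwv, e] at e'
        cases e'
        exact Or.inr ⟨k, Or.inl rfl⟩
      rcases h3 w hw t' l' hd' with h | ⟨j, h⟩
      · exact Or.inl (Multiset.mem_add.2 (Or.inl ((Multiset.mem_erase_of_ne hwv).2 h)))
      · exact Or.inr ⟨j, Or.inr h⟩
    · exact Or.inl (Multiset.mem_add.2 (Or.inr (by simpa using hw)))

theorem enum {S : Set T} (h : S.Finite) : ∃ (n : ℕ) (c : ℕ → T), ∀ a, a ∈ S ↔ ∃ i < n, c i = a := by
  refine ⟨h.toFinset.toList.length, fun i => h.toFinset.toList.getD i root, fun a => ?_⟩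
  rw [← h.mem_toFinset, ← Finset.mem_toList, List.mem_iff_getElem]
  refine ⟨fun ⟨i, hi, e⟩ => ⟨i, hi, by rw [← e]; exact List.getD_eq_getElem _ _ hi⟩,
    fun ⟨i, hi, e⟩ => ⟨i, hi, by rw [← e]; exact (List.getD_eq_getElem _ _ hi).symm⟩⟩

theorem mk {κ : Cy} {z : T} {S0 : Set T} (ok : Ok κ z S0) (dm : Bool) (t l : ℕ → T)
    (hd : dm = true → (∀ k, Val (l k) ∧ GS (t k) (l k) ∧ Lt (cyl (l k)) κ) ∧
      ∀ F : Set T, F.Finite → ∃ k, up (l k) ∩ F ⊆ S0 ∧ t k ∉ F) :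
    ∃ f n c, Val (nd κ dm f n c t l) ∧ S0 ⊆ us (nd κ dm f n c t l) ∧
      z ∉ us (nd κ dm f n c t l) := by
  classical
  obtain ⟨S, ok', h1, h2⟩ := close (S0 := S0) ok.fin.toFinset.val S0 ∅ ok subset_rfl
    (fun _ h => h.elim) (fun v hv => ⟨by simpa using hv, fun _ h => h.elim⟩)
    fun v hv _ _ _ => Or.inl (by simpa using hv)
  obtain ⟨n, c, hc⟩ := enum ok'.fin
  have e1 : us (nd κ dm (fun i => decide (c i ∈ S0)) n c t l) = S := Subset.antisymm
    (iUnion₂_subset fun i hi => ok'.cl _ ((hc _).2 ⟨i, hi, rfl⟩)) fun a ha => by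
      obtain ⟨i, hi, rfl⟩ := (hc a).1 ha
      exact mem_iUnion₂.2 ⟨i, hi, self_up _⟩
  have e2 : R (nd κ dm (fun i => decide (c i ∈ S0)) n c t l) = S0 := Subset.antisymm
    (iUnion₂_subset fun i _ => iUnion_subset fun h => ok.cl _ (of_decide_eq_true h)) fun a ha => by
      obtain ⟨i, hi, rfl⟩ := (hc a).1 (h1 ha)
      exact mem_iUnion₂.2 ⟨i, hi, mem_iUnion.2 ⟨decide_eq_true ha, self_up _⟩⟩
  refine ⟨fun i => decide (c i ∈ S0), n, c, ⟨fun i hi => ?_, ?_, ?_⟩, e1.symm ▸ h1, e1.symm ▸ ok'.nz⟩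
  · exact ⟨ok'.val _ ((hc _).2 ⟨i, hi, rfl⟩), ok'.lt _ ((hc _).2 ⟨i, hi, rfl⟩)⟩
  · rw [e2]; exact hd
  · intro v hv t' l' h
    simp only [Ext]
    rw [e1] at hv ⊢
    rw [e2]
    obtain ⟨k, k1, k2, k3⟩ := h2 v hv t' l' h
    exact ⟨k, k2, k3, k1⟩

theorem child {p z : T} (hp : Val p) (hz : z ∉ up p) (t : ℕ → T) :
    ∃ κ f n c, Val (nd κ false f n c t fun _ => z) ∧ p ∈ us (nd κ false f n c t fun _ => z) ∧
      z ∉ up (nd κ false f n c t fun _ => z) := by
  obtain ⟨f, n, c, h1, h2, h3⟩ := mk (κ := ((cyl p).1 + 1, (cyl p).2)) (z := z) (S0 := up p)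
    ⟨fin_up p, fun a ha => (val_up hp a ha).1, trans, fun a ha =>
      lt_up hp ha ⟨Nat.lt_succ_self _, fun _ _ => rfl⟩, hz⟩ false t (fun _ => z) (by simp)
  refine ⟨_, f, n, c, h1, h2 (self_up p), ?_⟩
  rw [up_eq]
  rintro (h | h)
  · exact (rk_l _ _ f n c t (fun _ => z) 0).ne (congrArg rk h)
  · exact h3 h

end Pool.Agent.H31.BP
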