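import Pool.Agent.H31.BP

set_option autoImplicit false

open Set Topology Filter TopologicalSpace Cardinal

namespace Pool.Agent.H31.BP

open T

/-- branching for the coding of terms -/
def Br : Option (Cy × Bool × (ℕ → Bool) × ℕ) → Type
  | none => Empty
  | some _ => ℕ ⊕ ℕ ⊕ ℕ

/-- decoding of terms -/
def dec : WType Br → T
  | ⟨none, _⟩ => root
  | ⟨some (κ, dm, f, n), g⟩ => nd κ dm f n (fun i => dec (g (Sum.inl i)))
      (fun i => dec (g (Sum.inr (Sum.inl i)))) fun i => dec (g (Sum.inr (Sum.inr i)))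

theorem mk_T : #T ≤ 𝔠 := by
  have h : Function.Surjective dec := by
    intro a
    induction a with
    | root => exact ⟨⟨none, Empty.elim⟩, by simp [dec]⟩
    | nd κ dm f n c t l h1 h2 h3 =>
      choose c' hc using h1
      choose t' ht using h2
      choose l' hl using h3
      exact ⟨⟨some (κ, dm, f, n), Sum.elim c' (Sum.elim t' l')⟩, by simp [dec, hc, ht, hl]⟩
  refine (mk_le_of_surjective h).trans (WType.cardinalMk_le_of_le ?_)
  refine (sum_le_sum _ (fun _ => 𝔠) fun a => ?_).trans ?_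
  · rw [← continuum_power_aleph0]
    nth_rewrite 1 [continuum_power_aleph0]
    refine power_le_power_left continuum_ne_zero ?_
    cases a with
    | none => exact (mk_le_aleph0 (α := Empty))
    | some a => exact (mk_le_aleph0 (α := ℕ ⊕ ℕ ⊕ ℕ))
  · have : (𝔠 : Cardinal.{0}) + 1 = 𝔠 := add_one_eq aleph0_le_continuum
    simp [Cy, this]

theorem transversal {I α : Type} (hI : #I ≤ 𝔠) (K : I → Set α) (hK : ∀ i, 𝔠 ≤ #(K i)) :
    ∃ f : I → α, Function.Injective f ∧ ∀ i, f i ∈ K i := by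
  rw [← Vd.mk_W] at hI
  obtain ⟨j⟩ := (Cardinal.le_def _ _).1 hI
  have wf : WellFounded fun a b : I => j a < j b := InvImage.wf j wellFounded_lt
  have step : ∀ (i : I) (ih : ∀ v, j v < j i → α), ∃ x ∈ K i, ∀ v h, ih v h ≠ x := by
    intro i ih
    by_contra hc
    push Not at hc
    choose v h e using hc
    have : Function.Injective fun x : K i => (⟨j (v x x.2), h x x.2⟩ : Iio (j i)) := by
      intro x y hxy
      have h1 : v x x.2 = v y y.2 := j.injective (congrArg Subtype.val hxy)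
      apply Subtype.ext
      rw [← e x x.2, ← e y y.2]
      congr 1
    exact absurd ((hK i).trans (mk_le_of_injective this)) (not_le.2 (Vd.mk_Iio _))
  choose s h1 h2 using step
  have hf : ∀ i, wf.fix s i = s i fun v _ => wf.fix s v := wf.fix_eq s
  refine ⟨wf.fix s, fun a b e => ?_, fun i => hf i ▸ h1 _ _⟩
  rcases lt_trichotomy (j a) (j b) with h | h | h
  · exact (h2 b (fun v _ => wf.fix s v) a h (e.trans (hf b))).elim
  · exact j.injective h
  · exact (h2 a (fun v _ => wf.fix s v) b h (e.symm.trans (hf a))).elim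

/-- branches of a scheme of cylinders -/
def K (G : List Bool → Cy) : Set (ℕ → Bool) := {r | ∃ β, ∀ n, On r (G (PiNat.res β n))}

theorem exZ : ∃ Z : (ℕ → Bool) → T, ∀ t G, 𝔠 ≤ #(K G) → ∃ r ∈ K G, Z r = t := by
  have hI : #(T × {G // 𝔠 ≤ #(K G)}) ≤ 𝔠 := by
    rw [mk_prod, lift_id, lift_id]
    refine (mul_le_mul' mk_T ((mk_subtype_le _).trans ?_)).trans continuum_mul_self.le
    simp [Cy]
  obtain ⟨f, h1, h2⟩ := transversal hI (fun i => K i.2) fun i => i.2.2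
  exact ⟨Function.extend f Prod.fst fun _ => root, fun t G h =>
    ⟨_, h2 (t, ⟨G, h⟩), h1.extend_apply _ _ _⟩⟩

theorem lim (κ : ℕ → Cy) (h : ∀ n, Lt (κ n) (κ (n + 1))) : ∃ r, ∀ n, On r (κ n) := by
  have h1 : ∀ n m, n < m → Lt (κ n) (κ m) := fun n m hm => by
    induction hm with
    | refl => exact h n
    | step _ ih => exact ih.trans (h _)
  have h2 : ∀ n, n ≤ (κ n).1 := fun n => by
    induction n with
    | zero => exact Nat.zero_le _
    | succ n ih => exact ih.trans_lt (h n).1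
  refine ⟨fun i => (κ (i + 1)).2 i, fun n i hi => ?_⟩
  rcases lt_trichotomy n (i + 1) with hn | rfl | hn
  exacts [(h1 _ _ hn).2 i hi, rfl, ((h1 _ _ hn).2 i (h2 (i + 1))).symm]

/-- infinite stairs whose branch is assigned to the top -/
def Pt (Z : (ℕ → Bool) → T) (q : ℕ → T) : Prop := (∀ m, Val (q m)) ∧
  (∀ m, Ext (q 0) (q m) (q (m + 1))) ∧ ∃ r, (∀ m, On r (cyl (q m))) ∧ Z r = q 0

theorem caseA {Z : (ℕ → Bool) → T} (hZ : ∀ t G, 𝔠 ≤ #(K G) → ∃ r ∈ K G, Z r = t) {D : Set T}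
    (hD : ∀ a ∈ D, Val a) {t : T} (ht : t ∈ D)
    (h : ∀ l ∈ D, GS t l → ∀ e, ∃ a ∈ D, Ext t l a ∧ (cyl a).2 (cyl l).1 = e) :
    ∃ q, Pt Z q ∧ ∀ m, q m ∈ D := by
  obtain ⟨E, h1, h2⟩ : ∃ E : {l // l ∈ D ∧ GS t l} → Bool → {l // l ∈ D ∧ GS t l},
      (∀ l e, Ext t l.1 (E l e)) ∧ ∀ l e, (cyl (E l e)).2 (cyl l.1).1 = e := by
    choose E h0 h1 h2 using h
    exact ⟨fun l e => ⟨E l l.2.1 l.2.2 e, h0 .., l.2.2.step (h1 ..)⟩, fun l e => h1 .., fun l e => h2 ..⟩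
  let Q : List Bool → {l // l ∈ D ∧ GS t l} :=
    fun s => List.rec ⟨t, ht, GS.refl⟩ (fun e _ l => E l e) s
  have hQ : ∀ β n, Q (PiNat.res β (n + 1)) = E (Q (PiNat.res β n)) (β n) := fun _ _ => rfl
  have hL : ∀ (β : ℕ → Bool) n, Lt (cyl (Q (PiNat.res β n)).1) (cyl (Q (PiNat.res β (n + 1))).1) :=
    fun β n => lt_us (hD _ (Q (PiNat.res β (n + 1))).2.1) (h1 (Q (PiNat.res β n)) (β n)).1
  choose r hr using fun β : ℕ → Bool => lim (fun n => cyl (Q (PiNat.res β n)).1) (hL β)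
  have inj : Function.Injective fun β => (⟨r β, β, hr β⟩ : K fun s => cyl (Q s).1) := by
    intro β β' e
    have e' : r β = r β' := congrArg Subtype.val e
    have : ∀ n, PiNat.res β n = PiNat.res β' n := fun n => by
      induction n with
      | zero => rfl
      | succ n ih =>
        have a1 := (hr β (n + 1) _ (hL β n).1).trans (h2 _ _)
        have a2 := (hr β' (n + 1) _ (hL β' n).1).trans (h2 _ _)
        rw [PiNat.res_succ, PiNat.res_succ, ← a1, ← a2, ih, e']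
    exact funext fun n => PiNat.res_eq_res.1 (this (n + 1)) (Nat.lt_succ_self n)
  obtain ⟨x, ⟨β, hβ⟩, e⟩ := hZ t (fun s => cyl (Q s).1) (by simpa using mk_le_of_injective inj)
  exact ⟨fun n => (Q (PiNat.res β n)).1, ⟨fun m => hD _ (Q (PiNat.res β m)).2.1,
    fun m => h1 (Q (PiNat.res β m)) (β m), x, hβ, e⟩, fun m => (Q (PiNat.res β m)).2.1⟩

theorem uncount {p z : T} (hp : Val p) (hz : z ∉ up p) {D : Set T}
    (hd : ∀ v, Val v → p ∈ up v → z ∉ up v → ∃ a ∈ D, v ∈ us a) :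
    ¬ {t | t ∈ D ∧ rk z < rk t}.Countable := by
  intro h
  choose κ f n c h1 h2 h3 using child hp hz
  have hc : (⋃ t ∈ {t | t ∈ D ∧ rk z < rk t}, up t).Countable :=
    h.biUnion fun t _ => (fin_up t).countable
  have inj : Function.Injective fun t => nd (κ t) false (f t) (n t) (c t) t fun _ => z :=
    fun t t' e => by simpa using (nd.inj e).2.2.2.2.2.1
  have : (univ : Set (ℕ → T)).Countable := by
    refine (hc.preimage_of_injOn inj.injOn).mono fun t _ => ?_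
    obtain ⟨a, ha, h⟩ := hd _ (h1 t) (us_sub _ (h2 t)) (h3 t)
    exact mem_biUnion (s := {t | t ∈ D ∧ rk z < rk t})
      ⟨ha, (rk_l _ _ _ _ _ t (fun _ => z) 0).trans (rk_us h)⟩ (us_sub _ h)
  have : Countable (ℕ → T) := countable_univ_iff.1 this
  have inj2 : Function.Injective fun (β : ℕ → Bool) (i : ℕ) =>
      nd (0, β) (β i) β 0 (fun _ => root) (fun _ => root) fun _ => root :=
    fun β β' e => (nd.inj (congrFun e 0)).2.2.1
  have h5 := (mk_le_of_injective inj2).trans mk_le_aleph0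
  simp only [mk_pi, prod_const, mk_bool, lift_id, mk_nat, lift_ofNat, two_power_aleph0] at h5
  exact h5.not_gt aleph0_lt_continuum

theorem main {Z : (ℕ → Bool) → T} (hZ : ∀ t G, 𝔠 ≤ #(K G) → ∃ r ∈ K G, Z r = t) {p z : T}
    (hp : Val p) (hz : z ∉ up p) {D : Set T} (hD : ∀ a ∈ D, Val a ∧ p ∈ up a ∧ z ∉ up a)
    (hd : ∀ v, Val v → p ∈ up v → z ∉ up v → ∃ a ∈ D, v ∈ us a) :
    ∃ q, Pt Z q ∧ ∀ m, q m ∈ D := by
  by_contra hc
  have hB : ∀ t ∈ D, ∃ l ∈ D, GS t l ∧ ∃ e, ∀ a ∈ D, Ext t l a → (cyl a).2 (cyl l).1 ≠ e := by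
    intro t ht
    by_contra h
    push Not at h
    exact hc (caseA hZ (fun a ha => (hD a ha).1) ht h)
  choose! L h1 h2 e h3 using hB
  obtain ⟨⟨N, s, b⟩, hJ⟩ : ∃ y, ({t | t ∈ D ∧ rk z < rk t} ∩ (fun t =>
      ((up (L t)).ncard, PiNat.res (cyl (L t)).2 (cyl (L t)).1, e t)) ⁻¹' {y}).Infinite := by
    by_contra h
    push Not at h
    refine uncount hp hz hd ((countable_iUnion fun y => (h y).countable).mono fun t ht => ?_)
    exact mem_iUnion.2 ⟨_, ht, rfl⟩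
  let t : ℕ ↪ T := (hJ.natEmbedding _).trans (Function.Embedding.subtype _)
  have ht : ∀ k, (t k ∈ D ∧ rk z < rk (t k)) ∧ (up (L (t k))).ncard = N ∧
      PiNat.res (cyl (L (t k))).2 (cyl (L (t k))).1 = s ∧ e (t k) = b := fun k => by
    have := (hJ.natEmbedding _ k).2
    simp only [mem_inter_iff, mem_preimage, mem_singleton_iff, Prod.mk.injEq] at this
    exact this
  have hm : ∀ k, (cyl (L (t k))).1 = s.length := fun k => by
    rw [← (ht k).2.2.1, PiNat.res_length]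
  have hv := fun k => hD _ (h1 _ (ht k).1.1)
  have hlt : ∀ k, Lt (cyl (L (t k)))
      (s.length + 1, Function.update (cyl (L (t 0))).2 s.length b) := fun k => by
    refine ⟨(hm k).le.trans_lt (Nat.lt_succ_self _), fun i hi => ?_⟩
    rw [hm] at hi
    have := (ht 0).2.2.1.trans (ht k).2.2.1.symm
    rw [hm, hm, PiNat.res_eq_res] at this
    exact (Function.update_of_ne hi.ne _ _).trans (this hi)
  set S := {a | ∀ᶠ k in hyperfilter ℕ, a ∈ up (L (t k))} with hS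
  have ex : ∀ a ∈ S, ∃ k, a ∈ up (L (t k)) := fun a ha => Eventually.exists ha
  have ok : Ok (s.length + 1, Function.update (cyl (L (t 0))).2 s.length b) z S := by
    refine ⟨?_, fun a ha => ?_, fun a ha b hb => ?_, fun a ha => ?_, fun ha => ?_⟩
    · by_contra h
      obtain ⟨F, F1, F2, F3⟩ := Set.Infinite.exists_subset_ncard_eq h (N + 1)
      obtain ⟨k, hk⟩ := ((eventually_all_finite F2).2 F1).exists
      have := ncard_le_ncard (s := F) hk (fin_up _)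
      rw [(ht k).2.1] at this
      omega
    · obtain ⟨k, hk⟩ := ex a ha
      exact (val_up (hv k).1 a hk).1
    · exact Eventually.mono ha fun k hk => trans a hk hb
    · obtain ⟨k, hk⟩ := ex a ha
      exact lt_up (hv k).1 hk (hlt k)
    · obtain ⟨k, hk⟩ := ex z ha
      exact (hv k).2.2 hk
  obtain ⟨f, n, c, v1, v2, v3⟩ := mk ok true t (fun k => L (t k)) fun _ =>
    ⟨fun k => ⟨(hv k).1, h2 _ (ht k).1.1, hlt k⟩, fun F hF => by
      have a1 : ∀ᶠ k in hyperfilter ℕ, ∀ a ∈ F, a ∈ up (L (t k)) → a ∈ S :=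
        (eventually_all_finite hF).2 fun a _ => by
          by_cases h : a ∈ S
          · exact Eventually.of_forall fun _ _ => h
          · exact (Ultrafilter.eventually_not.2 h).mono fun k hk h => (hk h).elim
      have a2 : ∀ᶠ k in hyperfilter ℕ, t k ∉ F :=
        (hF.preimage t.injective.injOn).compl_mem_hyperfilter
      obtain ⟨k, k1, k2⟩ := (a1.and a2).exists
      exact ⟨k, fun a ha => k1 a ha.2 ha.1, k2⟩⟩
  obtain ⟨a, ha, hva⟩ := hd _ v1 (us_sub _ (v2 (Eventually.of_forall fun k => (hv k).2.1))) (by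
    rw [up_eq]
    rintro (h | h)
    · exact (((ht 0).1.2.trans_le (rk_up _ (h2 _ (ht 0).1.1).up)).trans
        (rk_l _ _ f n c t (fun k => L (t k)) 0)).ne (congrArg rk h)
    · exact v3 h)
  obtain ⟨k, hk⟩ := val_dem (hD a ha).1 hva ⟨_, _, _, _, rfl⟩
  refine h3 _ (ht k).1.1 a ha hk ?_
  rw [hm, (ht k).2.2.2]
  exact ((lt_us (hD a ha).1 hva).2 _ (Nat.lt_succ_self _)).trans (Function.update_self ..)

section Sp
variable {Z : (ℕ → Bool) → T} {q : ℕ → T}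

theorem Pt.mono (h : Pt Z q) {m n : ℕ} (hm : m ≤ n) : up (q m) ⊆ up (q n) := by
  induction hm with
  | refl => exact subset_rfl
  | step _ ih => exact ih.trans (trans _ (us_sub _ (h.2.1 _).1))

theorem Pt.len (h : Pt Z q) (m : ℕ) : m ≤ (cyl (q m)).1 := by
  induction m with
  | zero => exact Nat.zero_le _
  | succ m ih => exact ih.trans_lt (lt_us (h.1 _) (h.2.1 m).1).1

theorem Pt.inter (h : Pt Z q) {p : T} (h0 : q 0 ∈ up p) (m : ℕ) : p ∈ up (q m) → ∃ i, p = q i := by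
  induction m with
  | zero =>
    intro hp
    rw [up_eq] at hp
    exact ⟨0, hp.resolve_right fun hp => (rk_us hp).not_ge (rk_up _ h0)⟩
  | succ m ih =>
    intro hp
    rw [up_eq] at hp
    rcases hp with rfl | hp
    exacts [⟨_, rfl⟩, ih ((h.2.1 m).2.1 p hp h0)]

theorem len_up {a b : T} (h : Val b) (ha : a ∈ up b) : (cyl a).1 ≤ (cyl b).1 := by
  rcases (val_up h a ha).2 with rfl | h
  exacts [le_rfl, h.1.le]

theorem Pt.sub (h : Pt Z q) {q' : ℕ → T} (h' : Pt Z q') (hs : ⋃ m, up (q m) ⊆ ⋃ m, up (q' m)) :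
    ⋃ m, up (q' m) ⊆ ⋃ m, up (q m) := by
  have h1 : ∀ m, ∃ k, q m ∈ up (q' k) := fun m => mem_iUnion.1 (hs (mem_iUnion.2 ⟨m, self_up _⟩))
  have h0 : q 0 = q' 0 := by
    obtain ⟨r, r1, r2⟩ := h.2.2
    obtain ⟨r', r1', r2'⟩ := h'.2.2
    rw [← r2, ← r2']
    congr 1
    funext i
    obtain ⟨k, hk⟩ := h1 (i + 1)
    refine (r1 (i + 1) i (h.len _)).trans (Eq.symm ?_)
    rcases (val_up (h'.1 k) _ hk).2 with e | e
    · exact (e ▸ r1' k : On r' (cyl (q (i + 1)))) i (h.len _)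
    · exact (r1' k).mono e i (h.len _)
  refine iUnion_subset fun j => ?_
  obtain ⟨k, hk⟩ := h1 ((cyl (q' j)).1 + 1)
  obtain ⟨i, hi⟩ := h'.inter (h0 ▸ h.mono (Nat.zero_le _) (self_up _)) k hk
  refine (h'.mono (n := i) (not_lt.1 fun hlt => ?_)).trans (hi ▸ subset_iUnion (fun m => up (q m)) _)
  have := (h.len _).trans (hi ▸ len_up (h'.1 j) (h'.mono hlt.le (self_up _)))
  omega

/-- the points -/
def X (Z : (ℕ → Bool) → T) : Type := {x : Set T // ∃ q, Pt Z q ∧ x = ⋃ m, up (q m)}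

/-- the basic open sets -/
def U (Z : (ℕ → Bool) → T) (a : T) : Set (X Z) := {x | a ∈ x.1}

instance : TopologicalSpace (X Z) := generateFrom (U Z '' {a | Val a})

theorem val_mem {x : X Z} {a : T} (h : x ∈ U Z a) : Val a := by
  obtain ⟨x, q, hq, rfl⟩ := x
  obtain ⟨m, hm⟩ := mem_iUnion.1 h
  exact (val_up (hq.1 m) a hm).1

theorem U_anti {a b : T} (h : a ∈ up b) : U Z b ⊆ U Z a := by
  rintro ⟨x, q, hq, rfl⟩ hx
  obtain ⟨m, hm⟩ := mem_iUnion.1 hx
  exact mem_iUnion.2 ⟨m, trans b hm h⟩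

theorem basis : IsTopologicalBasis (U Z '' {a | Val a}) := by
  refine ⟨?_, ?_, rfl⟩
  · rintro _ ⟨a, -, rfl⟩ _ ⟨b, -, rfl⟩ ⟨x, q, hq, rfl⟩ ⟨ha, hb⟩
    obtain ⟨m, hm⟩ := mem_iUnion.1 ha
    obtain ⟨n, hn⟩ := mem_iUnion.1 hb
    exact ⟨_, ⟨q (max m n), hq.1 _, rfl⟩, mem_iUnion.2 ⟨_, self_up _⟩, subset_inter
      (U_anti (hq.mono (le_max_left _ _) hm)) (U_anti (hq.mono (le_max_right _ _) hn))⟩
  · refine eq_univ_of_forall ?_
    rintro ⟨x, q, hq, rfl⟩
    exact ⟨_, ⟨q 0, hq.1 _, rfl⟩, mem_iUnion.2 ⟨_, self_up _⟩⟩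

instance : T1Space (X Z) := by
  refine t1Space_iff_exists_open.2 ?_
  rintro ⟨x, q, hq, rfl⟩ ⟨y, q', hq', rfl⟩ hne
  obtain ⟨a, h1, h2⟩ : ∃ a ∈ ⋃ m, up (q m), a ∉ ⋃ m, up (q' m) := not_subset.1 fun h =>
    hne (Subtype.ext (h.antisymm (hq.sub hq' h)))
  exact ⟨U Z a, basis.isOpen ⟨a, val_mem (x := ⟨_, q, hq, rfl⟩) h1, rfl⟩, h1, h2⟩

variable (hZ : ∀ t G, 𝔠 ≤ #(K G) → ∃ r ∈ K G, Z r = t)
include hZ

theorem refl {p z : T} (hp : Val p) (hz : z ∉ up p) : ∃ x ∈ U Z p, x ∉ U Z z := by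
  obtain ⟨q, h1, h2⟩ := main hZ hp hz (D := {a | Val a ∧ p ∈ up a ∧ z ∉ up a}) (fun _ h => h)
    fun v v1 v2 v3 => by
      obtain ⟨κ, f, n, c, c1, c2, c3⟩ := child v1 v3 fun _ => root
      exact ⟨_, ⟨c1, us_sub _ (trans' c2 v2), c3⟩, c2⟩
  exact ⟨⟨_, q, h1, rfl⟩, mem_iUnion.2 ⟨0, (h2 0).2.1⟩, fun h =>
    let ⟨m, hm⟩ := mem_iUnion.1 h; (h2 m).2.2 hm⟩

theorem refl' {p z : T} (hp : Val p) (h : U Z p ⊆ U Z z) : z ∈ up p := by
  by_contra hz
  obtain ⟨x, h1, h2⟩ := refl hZ hp hz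
  exact h2 (h h1)

theorem dense (x : X Z) : ¬ IsOpen ({x} : Set (X Z)) := by
  intro h
  obtain ⟨_, ⟨a, ha, rfl⟩, h1, h2⟩ := basis.exists_subset_of_mem_open (mem_singleton x) h
  obtain ⟨x, q, hq, rfl⟩ := x
  have := len_up ha (refl' hZ (z := q ((cyl a).1 + 1)) ha
    (h2.trans (singleton_subset_iff.2 (mem_iUnion.2 ⟨(cyl a).1 + 1, self_up _⟩))))
  have := hq.len ((cyl a).1 + 1)
  omega

end Sp

theorem final : ¬ (∀ (X : Type) [TopologicalSpace X] [T1Space X],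
      (∀ x : X, ¬ IsOpen ({x} : Set X)) →
      ∀ B : Set (Set X), TopologicalSpace.IsTopologicalBasis B →
        ∃ B0 B1 : Set (Set X),
          B0 ⊆ B ∧ B1 ⊆ B ∧ Disjoint B0 B1 ∧
          TopologicalSpace.IsTopologicalBasis B0 ∧
          (∀ V ∈ B1, V.Nonempty) ∧
          (∀ U : Set X, IsOpen U → U.Nonempty → ∃ V ∈ B1, V ⊆ U)) := by
  intro h
  obtain ⟨Z, hZ⟩ := exZ
  obtain ⟨B0, B1, h0, h1, h2, h3, -, h5⟩ := h (X Z) (dense hZ) _ basis
  have bad : ∀ v, Val v → ∃ z, ¬ Val z ∧ z ∉ up v := fun v hv => by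
    have : ¬ Val (nd (0, fun _ => true) false (fun _ => true) 1 (fun _ => root) (fun _ => root)
      fun _ => root) := fun h => (h.1 0 one_pos).2.1.false
    exact ⟨_, this, fun h => this (val_up hv _ h).1⟩
  obtain ⟨z, z1, z2⟩ := bad root trivial
  have hz : ∀ v, Val v → z ∉ up v := fun v hv h => z1 (val_up hv _ h).1
  obtain ⟨q, hq, hD⟩ := main hZ (p := root) trivial z2
    (D := {a | (Val a ∧ root ∈ up a ∧ z ∉ up a) ∧ U Z a ∈ B1}) (fun _ h => h.1) fun v v1 v2 v3 => by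
      obtain ⟨κ, f, n, c, c1, c2, c3⟩ := child v1 v3 fun _ => root
      obtain ⟨x, hx, -⟩ := refl hZ c1 c3
      obtain ⟨V, hV, hV'⟩ := h5 _ (basis.isOpen ⟨_, c1, rfl⟩) ⟨x, hx⟩
      obtain ⟨a, ha, rfl⟩ := h1 hV
      have := refl' hZ ha hV'
      have h' : v ∈ up a := trans _ this (us_sub _ c2)
      refine ⟨a, ⟨⟨ha, trans _ h' v2, hz a ha⟩, hV⟩, ?_⟩
      rw [up_eq] at h'
      exact h'.resolve_left fun e => (rk_us c2).not_ge (e ▸ rk_up _ this)
  obtain ⟨V, hV, h6, h7⟩ := h3.exists_subset_of_mem_open (a := ⟨_, q, hq, rfl⟩)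
    (u := U Z (q 0)) (mem_iUnion.2 ⟨0, self_up _⟩) (basis.isOpen ⟨q 0, hq.1 0, rfl⟩)
  obtain ⟨a, ha, rfl⟩ := h0 hV
  obtain ⟨m, hm⟩ := mem_iUnion.1 h6
  obtain ⟨i, rfl⟩ := hq.inter (refl' hZ ha h7) m hm
  exact disjoint_left.1 h2 hV (hD i).2

end Pool.Agent.H31.BP
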