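import Pool.Agent.H31.BQDefs

namespace Pool.Agent.H31.BQ

open MvPowerSeries

theorem gen (A K : Type) [CommRing A] [IsDomain A] [Field K] [Algebra A K] (h2 : (2 : K) = 0)
    (u : ℕ → K) (hu : ∀ i, u i * u i ∈ (algebraMap A K).range)
    (hn : ∀ a : A, a ≠ 0 → ∃ i, algebraMap A K a * u i ∉ (algebraMap A K).range)
    (R : Subring (MvPowerSeries ℕ K)) (hR : ∀ f, f ∈ R ↔ Bdd f) (T : Subring R)
    (hT : ∀ f, f ∈ T ↔ BD A f.1) : ¬IsPoly T := fun ⟨I, ⟨e⟩⟩ => by
  classical
  let g0 : MvPowerSeries ℕ K := fun m => if h : ∃ i, m = Finsupp.single i 1 then u h.choose else 0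
  have c0 : ∀ m, coeff m g0 = if h : ∃ i, m = Finsupp.single i 1 then u h.choose else 0 :=
    fun _ => rfl
  let g : R := ⟨g0, (hR _).2 <| (bdd_iff _).2 ⟨1, fun m hm => by
    rw [c0] at hm
    split_ifs at hm with h
    · obtain ⟨i, rfl⟩ := h
      simp
    · exact (hm rfl).elim⟩⟩
  have h1 : g * g ∈ T := (hT _).2 <| (bd_iff _).2 ⟨1, one_ne_zero, fun m => by
    rw [map_one, one_mul, Subring.coe_mul, coeff_mul,
      ← Finset.sum_filter_add_sum_filter_not _ fun p => p.1 = p.2]
    refine add_mem (sum_mem fun p hp => ?_) ?_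
    · rw [← (Finset.mem_filter.1 hp).2]
      show coeff p.1 g0 * coeff p.1 g0 ∈ _
      rw [c0]
      split_ifs
      · exact hu _
      · simp
    · rw [Finset.sum_involution (fun p _ => p.swap)]
      · exact zero_mem _
      · intro p _
        simp only [Prod.fst_swap, Prod.snd_swap]
        rw [mul_comm, ← two_mul, h2, zero_mul]
      · intro p hp _ h
        exact (Finset.mem_filter.1 hp).2 (congrArg Prod.snd h)
      · intro p hp
        simp only [Finset.mem_filter, Finset.HasAntidiagonal.mem_antidiagonal, Prod.fst_swap, Prod.snd_swap] at hp ⊢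
        exact ⟨(add_comm _ _).trans hp.1, fun h => hp.2 h.symm⟩
      · intro p _
        rfl⟩
  have h3 : e.symm g * e.symm g = MvPolynomial.C ⟨g * g, h1⟩ := by
    rw [← map_mul]
    exact e.symm.commutes ⟨g * g, h1⟩
  have h4 : (e.symm g).totalDegree = 0 := by
    by_cases h : e.symm g = 0
    · simp [h]
    · have := MvPolynomial.totalDegree_mul_of_isDomain h h
      rw [h3, MvPolynomial.totalDegree_C] at this
      omega
  have h5 : g = (MvPolynomial.coeff 0 (e.symm g)).1 := by
    have := congrArg e (MvPolynomial.totalDegree_eq_zero_iff_eq_C.1 h4)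
    rw [e.apply_symm_apply] at this
    exact this.trans (e.commutes _)
  obtain ⟨a, ha, h6⟩ := (bd_iff _).1 ((hT g).1 (h5 ▸ (MvPolynomial.coeff 0 (e.symm g)).2))
  obtain ⟨i, hi⟩ := hn a ha
  have h7 := h6 (Finsupp.single i 1)
  have h8 : ∃ j, Finsupp.single i 1 = Finsupp.single j 1 := ⟨i, rfl⟩
  rw [show coeff (Finsupp.single i 1) g.1 = u h8.choose from (c0 _).trans (dif_pos h8),
    ← Finsupp.single_left_injective one_ne_zero h8.choose_spec] at h7
  exact hi h7

abbrev C := AddMonoidAlgebra (ZMod 2) (ℕ →₀ ℚ)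

abbrev K := FractionRing C

open Pointwise in
def A : Subring C where
  carrier := {f | ∀ q ∈ f.coeff.support, ∀ i, q i = 0 ∨ 1 ≤ q i}
  zero_mem' := by simp
  one_mem' := fun q hq i => by
    have : q = 0 := by
      by_contra h
      simp [AddMonoidAlgebra.one_def, Finsupp.single_apply, Ne.symm h, h] at hq
    simp [this]
  add_mem' := fun {f g} h h' q hq => by
    classical
    rw [AddMonoidAlgebra.coeff_add] at hq
    exact (Finset.mem_union.1 (Finsupp.support_add hq)).elim (h q) (h' q)
  neg_mem' := fun {f} h q hq => h q (by simpa using hq)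
  mul_mem' := fun {f g} h h' q hq i => by
    classical
    obtain ⟨a, ha, b, hb, rfl⟩ := Finset.mem_add.1 (AddMonoidAlgebra.support_coeff_mul_subset f g hq)
    rw [Finsupp.add_apply]
    rcases h a ha i with h1 | h1 <;> rcases h' b hb i with h2 | h2
    · left; linarith
    all_goals right; linarith

theorem sA (q : ℕ →₀ ℚ) (c : ZMod 2) (h : ∀ i, q i = 0 ∨ 1 ≤ q i) :
    (AddMonoidAlgebra.single q c : C) ∈ A := fun p hp => by
  have : p = q := by
    by_contra e
    simp [Finsupp.single_apply, Ne.symm e] at hp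
  exact this ▸ h

theorem clr (f : C) : ∃ a ∈ A, a ≠ 0 ∧ a * f ∈ A := by
  induction f using AddMonoidAlgebra.induction_linear with
  | zero => exact ⟨1, one_mem _, one_ne_zero, by simp⟩
  | add f g h1 h2 =>
    obtain ⟨a, a1, a2, a3⟩ := h1
    obtain ⟨b, b1, b2, b3⟩ := h2
    refine ⟨a * b, mul_mem a1 b1, mul_ne_zero a2 b2, ?_⟩
    convert add_mem (mul_mem b1 a3) (mul_mem a1 b3) using 1
    ring
  | single q c =>
    refine ⟨.single (q.mapRange (fun x => if x = 0 then 0 else |x| + 1) (by simp)) 1,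
      sA _ _ fun i => ?_, by simp, ?_⟩
    · rw [Finsupp.mapRange_apply]
      split_ifs
      · exact .inl rfl
      · exact .inr (by linarith [abs_nonneg (q i)])
    · rw [AddMonoidAlgebra.single_mul_single]
      refine sA _ _ fun i => ?_
      rw [Finsupp.add_apply, Finsupp.mapRange_apply]
      split_ifs with h
      · exact .inl (by simp [h])
      · exact .inr (by linarith [neg_abs_le (q i)])

theorem two : (2 : C) = 0 := by
  have := congrArg (algebraMap (ZMod 2) C) (show (2 : ZMod 2) = 0 from rfl)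
  rwa [map_ofNat, map_zero] at this

theorem twoK : (2 : K) = 0 := by
  have := congrArg (algebraMap C K) two
  rwa [map_ofNat, map_zero] at this

theorem sq (f : C) : ∃ g, g * g = f := by
  induction f using AddMonoidAlgebra.induction_linear with
  | zero => exact ⟨0, by simp⟩
  | add f g h1 h2 =>
    obtain ⟨a, rfl⟩ := h1
    obtain ⟨b, rfl⟩ := h2
    exact ⟨a + b, by linear_combination a * b * two⟩
  | single q c =>
    refine ⟨.single ((1 / 2 : ℚ) • q) c, ?_⟩
    rw [AddMonoidAlgebra.single_mul_single, ← add_smul, add_halves, one_smul]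
    congr 1
    revert c
    decide

instance : FaithfulSMul A K :=
  (faithfulSMul_iff_algebraMap_injective _ _).2 fun _ _ h =>
    Subtype.ext (IsFractionRing.injective C K h)

instance : IsFractionRing A K := IsFractionRing.of_field _ _ fun z => by
  obtain ⟨x, y, -, rfl⟩ := IsFractionRing.div_surjective (A := C) z
  obtain ⟨a, a1, a2, a3⟩ := clr x
  obtain ⟨b, b1, b2, b3⟩ := clr y
  refine ⟨⟨b * (a * x), mul_mem b1 a3⟩, ⟨a * (b * y), mul_mem a1 b3⟩, ?_⟩
  show _ = algebraMap C K (b * (a * x)) / algebraMap C K (a * (b * y))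
  have a4 : algebraMap C K a ≠ 0 := by simpa using a2
  have b4 : algebraMap C K b ≠ 0 := by simpa using b2
  simp only [map_mul]
  rw [mul_left_comm, mul_div_mul_left _ _ a4, mul_div_mul_left _ _ b4]

theorem perf : PerfectField K := by
  have : CharP K 2 := (CharP.charP_iff_prime_eq_zero Nat.prime_two).2 (by exact_mod_cast twoK)
  have : PerfectRing K 2 := PerfectRing.ofSurjective _ _ fun z => by
    obtain ⟨x, y, -, rfl⟩ := IsFractionRing.div_surjective (A := C) z
    obtain ⟨a, rfl⟩ := sq x
    obtain ⟨b, rfl⟩ := sq y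
    exact ⟨algebraMap C K a / algebraMap C K b, by simp [frobenius_def, div_pow, pow_two]⟩
  exact PerfectRing.toPerfectField K 2

theorem main (R : Subring (MvPowerSeries ℕ K)) (hR : ∀ f, f ∈ R ↔ Bdd f) (T : Subring R)
    (hT : ∀ f, f ∈ T ↔ BD A f.1) : ¬IsPoly T := by
  refine gen A K twoK (fun i => algebraMap C K (.single (.single i (1 / 2)) 1))
    (fun i => ⟨⟨.single (.single i 1) 1, sA _ _ fun j => ?_⟩, ?_⟩) (fun a ha => ?_) R hR T hT
  · by_cases h : i = j <;> simp [Finsupp.single_apply, h]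
  · show algebraMap C K _ = _
    rw [← map_mul, AddMonoidAlgebra.single_mul_single, ← Finsupp.single_add, add_halves, mul_one]
    rfl
  · have h0 : a.1.coeff ≠ 0 := fun h => ha (Subtype.ext (AddMonoidAlgebra.ext h))
    obtain ⟨q, hq⟩ := Finsupp.support_nonempty_iff.2 h0
    obtain ⟨i, hi⟩ := q.support.exists_notMem
    refine ⟨i, fun ⟨b, hb⟩ => ?_⟩
    have e : b.1 = a.1 * .single (.single i (1 / 2)) 1 :=
      IsFractionRing.injective C K (hb.trans (map_mul (algebraMap C K) a.1 _).symm)
    have := b.2 (q + .single i (1 / 2)) (by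
      rw [e, Finsupp.mem_support_iff, AddMonoidAlgebra.coeff_mul_single_eq_coeff_mul q
        (fun _ _ => add_left_inj _), mul_one]
      exact Finsupp.mem_support_iff.1 hq) i
    rw [Finsupp.add_apply, Finsupp.notMem_support_iff.1 hi, Finsupp.single_eq_same] at this
    norm_num at this

theorem fin : ∃ (R : Subring (MvPowerSeries ℕ K)) (T : Subring R),
    (∀ f, f ∈ R ↔ Bdd f) ∧ (∀ f, f ∈ T ↔ BD A f.1) ∧ ¬IsPoly T := by
  obtain ⟨R, hR⟩ := exB K
  obtain ⟨T, hT⟩ := exF A K R
  exact ⟨R, T, hR, hT, main R hR T hT⟩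

end Pool.Agent.H31.BQ
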