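import Mathlib

namespace Pool.Agent.H31.BQ

open MvPowerSeries

/-- the series `f` has bounded degree -/
def Bdd {K : Type} [Field K] (f : MvPowerSeries ℕ K) : Prop :=
  ∃ d : ℕ, ∀ m : ℕ →₀ ℕ, f m ≠ 0 → (m.sum fun _ e => e) ≤ d

/-- the series `f` has bounded denominators -/
def BD (A : Type) {K : Type} [CommRing A] [Field K] [Algebra A K] (f : MvPowerSeries ℕ K) : Prop :=
  ∃ a : A, a ≠ 0 ∧ ∀ m, ∃ b : A, algebraMap A K b = algebraMap A K a * f m

theorem bdd_iff {K : Type} [Field K] (f : MvPowerSeries ℕ K) :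
    Bdd f ↔ ∃ d : ℕ, ∀ m : ℕ →₀ ℕ, coeff m f ≠ 0 → m.degree ≤ d := Iff.rfl

theorem bd_iff {A K : Type} [CommRing A] [Field K] [Algebra A K] (f : MvPowerSeries ℕ K) :
    BD A f ↔ ∃ a : A, a ≠ 0 ∧ ∀ m, algebraMap A K a * coeff m f ∈ (algebraMap A K).range :=
  Iff.rfl

theorem exB (K : Type) [Field K] : ∃ S : Subring (MvPowerSeries ℕ K), ∀ f, f ∈ S ↔ Bdd f :=
  ⟨{carrier := {f | ∃ d : ℕ, ∀ m : ℕ →₀ ℕ, coeff m f ≠ 0 → m.degree ≤ d}
    zero_mem' := ⟨0, fun m h => (h (by simp)).elim⟩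
    one_mem' := ⟨0, fun m h => by
      classical
      by_cases e : m = 0
      · simp [e]
      · simp [coeff_one, e] at h⟩
    add_mem' := fun {f g} ⟨d, h⟩ ⟨d', h'⟩ => ⟨d + d', fun m hm => by
      by_cases e : coeff m f = 0
      · exact (h' m (by simpa [e] using hm)).trans (Nat.le_add_left _ _)
      · exact (h m e).trans (Nat.le_add_right _ _)⟩
    neg_mem' := fun ⟨d, h⟩ => ⟨d, fun m hm => h m (by simpa using hm)⟩
    mul_mem' := fun {f g} ⟨d, h⟩ ⟨d', h'⟩ => ⟨d + d', fun m hm => by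
      classical
      rw [coeff_mul] at hm
      obtain ⟨p, hp, h1⟩ := Finset.exists_ne_zero_of_sum_ne_zero hm
      rw [← Finset.HasAntidiagonal.mem_antidiagonal.1 hp, map_add]
      exact Nat.add_le_add (h _ (left_ne_zero_of_mul h1)) (h' _ (right_ne_zero_of_mul h1))⟩ },
    fun _ => Iff.rfl⟩

theorem exF (A K : Type) [CommRing A] [IsDomain A] [Field K] [Algebra A K]
    (R : Subring (MvPowerSeries ℕ K)) : ∃ S : Subring R, ∀ f, f ∈ S ↔ BD A f.1 :=
  ⟨{carrier := {f | ∃ a : A, a ≠ 0 ∧ ∀ m, algebraMap A K a * coeff m f.1 ∈ (algebraMap A K).range}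
    zero_mem' := ⟨1, one_ne_zero, fun m => by simp⟩
    one_mem' := ⟨1, one_ne_zero, fun m => by
      classical
      by_cases e : m = 0 <;> simp [coeff_one, e]⟩
    add_mem' := fun {f g} ⟨a, ha, h⟩ ⟨b, hb, h'⟩ => ⟨a * b, mul_ne_zero ha hb, fun m => by
      have := add_mem (mul_mem (RingHom.mem_range_self _ b) (h m))
        (mul_mem (RingHom.mem_range_self _ a) (h' m))
      convert this using 1
      simp only [Subring.coe_add, map_add, map_mul]
      ring⟩
    neg_mem' := fun ⟨a, ha, h⟩ => ⟨a, ha, fun m => by simpa using neg_mem (h m)⟩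
    mul_mem' := fun {f g} ⟨a, ha, h⟩ ⟨b, hb, h'⟩ => ⟨a * b, mul_ne_zero ha hb, fun m => by
      classical
      rw [Subring.coe_mul, coeff_mul, Finset.mul_sum]
      refine sum_mem fun p _ => ?_
      convert mul_mem (h p.1) (h' p.2) using 1
      rw [map_mul]
      ring⟩ }, fun _ => Iff.rfl⟩

/-- `R` is the ring of series of bounded degree -/
def IsBig {K : Type} [Field K] (R : Subring (MvPowerSeries ℕ K)) : Prop := ∀ f, f ∈ R ↔ Bdd f

/-- `T` is the subring of `R` of series with bounded denominators -/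
def IsFlat (A : Type) {K : Type} [CommRing A] [Field K] [Algebra A K]
    {R : Subring (MvPowerSeries ℕ K)} (T : Subring R) : Prop := ∀ f, f ∈ T ↔ BD A f.1

/-- `R` is a polynomial algebra over its subring `T` -/
def IsPoly {R : Type} [CommRing R] (T : Subring R) : Prop :=
  ∃ I : Type, Nonempty (MvPolynomial I T ≃ₐ[T] R)

end Pool.Agent.H31.BQ
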