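import Mathlib

set_option autoImplicit false

open Set Topology Filter TopologicalSpace

namespace Pool.Agent.H31.BR

/-- raw terms -/
inductive T : Type
  | root : T
  | ch (p r : T) : T
  | Y (t l : ℕ → T) (k : ℕ) : T

open T

/-- the elements above a term -/
def up : T → Set T
  | root => {root}
  | ch p r => insert (ch p r) (up p)
  | Y t l k => {a | ∃ i ≤ k, a = Y t l i} ∪ up (l k)

/-- rank -/
noncomputable def rk : T → Ordinal.{0}
  | root => 0
  | ch p r => max (rk p) (rk r) + 1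
  | Y _ l _ => (⨆ i, rk (l i)) + 1

/-- `l` is the last step of a stair with top `t` -/
def St (t : T) : T → Prop
  | root => root = t
  | ch p r => ch p r = t
  | Y t' l k => Y t' l k = t ∨ (t' k = t ∧ St t (l k))

/-- valid terms -/
def Val : T → Prop
  | root => True
  | ch p _ => Val p
  | Y t l _ => ∀ i, Val (l i) ∧ St (t i) (l i) ∧ ch (l i) root ∈ up (t (i + 1))

/-- the older elements compatible with a term -/
def Ph : T → Set T
  | root => ∅
  | ch p _ => up p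
  | Y _ l _ => ⋃ i, up (l i)

theorem self_up (a : T) : a ∈ up a := by
  cases a with
  | root => rfl
  | ch p r => exact Or.inl rfl
  | Y t l k => exact Or.inl ⟨k, le_rfl, rfl⟩

theorem St_refl (a : T) : St a a := by
  cases a with
  | root => rfl
  | ch p r => rfl
  | Y t l k => exact Or.inl rfl

theorem val_up {z : T} : Val z → ∀ a ∈ up z, Val a := by
  induction z with
  | root => rintro h a rfl; exact h
  | ch p r ih _ =>
    rintro h a (rfl | ha)
    · exact h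
    · exact ih h a ha
  | Y t l k _ ih =>
    rintro h a (⟨i, -, rfl⟩ | ha)
    · exact h
    · exact ih k (h k).1 a ha

theorem St_up {t l : T} : St t l → t ∈ up l := by
  induction l with
  | root => rintro rfl; rfl
  | ch p r _ _ => rintro rfl; exact self_up _
  | Y t' l k _ ih =>
    rintro (rfl | h)
    · exact self_up _
    · exact Or.inr (ih k h.2)

theorem trans {c : T} : Val c → ∀ b ∈ up c, up b ⊆ up c := by
  induction c with
  | root => rintro h a rfl; exact subset_rfl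
  | ch p r ih _ =>
    rintro h a (rfl | ha)
    · exact subset_rfl
    · exact (ih h a ha).trans (subset_insert _ _)
  | Y t l k _ ih =>
    rintro h a (⟨i, hi, rfl⟩ | ha)
    · have : Monotone fun i => up (l i) := monotone_nat_of_le_succ fun i =>
        (subset_insert _ _).trans
          (ih _ (h _).1 (ch (l i) root) (ih _ (h _).1 _ (St_up (h _).2.1) (h i).2.2))
      rintro b (⟨j, hj, rfl⟩ | hb)
      · exact Or.inl ⟨j, hj.trans hi, rfl⟩
      · exact Or.inr (this hi hb)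
    · exact (ih k (h k).1 a ha).trans subset_union_right

theorem rk_ch (p r : T) : rk p < rk (ch p r) := (le_max_left _ _).trans_lt (lt_add_one _)
theorem rk_ch' (p r : T) : rk r < rk (ch p r) := (le_max_right _ _).trans_lt (lt_add_one _)
theorem rk_Y (t l : ℕ → T) (k i : ℕ) : rk (l i) < rk (Y t l k) :=
  (Ordinal.le_iSup (fun i => rk (l i)) i).trans_lt (lt_add_one _)

theorem rk_up {z : T} : ∀ a ∈ up z, rk a ≤ rk z := by
  induction z with
  | root => rintro a rfl; exact le_rfl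
  | ch p r ih _ =>
    rintro a (rfl | ha)
    · exact le_rfl
    · exact (ih a ha).trans (rk_ch p r).le
  | Y t l k _ ih =>
    rintro a (⟨i, -, rfl⟩ | ha)
    · exact le_rfl
    · exact (ih k a ha).trans (rk_Y t l k k).le

theorem rk_Ph {a b : T} (h : b ∈ Ph a) : rk b < rk a := by
  cases a with
  | root => exact h.elim
  | ch p r => exact (rk_up b h).trans_lt (rk_ch p r)
  | Y t l k =>
    obtain ⟨i, hi⟩ := mem_iUnion.1 h
    exact (rk_up b hi).trans_lt (rk_Y t l k i)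

theorem antisymm {a p : T} (h1 : p ∈ up a) (h2 : a ∈ up p) : p = a := by
  cases a with
  | root => exact h1
  | ch p' r =>
    rcases h1 with h1 | h1
    · exact h1
    · exact absurd ((rk_up _ h2).trans (rk_up _ h1)) (rk_ch p' r).not_ge
  | Y t l k =>
    rcases h1 with ⟨i, hi, rfl⟩ | h1
    · rcases h2 with ⟨j, hj, e⟩ | h2
      · cases e
        rw [le_antisymm hi hj]
      · exact absurd (rk_up _ h2) (rk_Y t l k i).not_ge
    · exact absurd ((rk_up _ h2).trans (rk_up _ h1)) (rk_Y t l k k).not_ge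

theorem fin_up (z : T) : (up z).Finite := by
  induction z with
  | root => exact finite_singleton _
  | ch p r ih _ => exact ih.insert _
  | Y t l k _ ih =>
    refine Finite.union (((finite_Iic k).image (Y t l)).subset ?_) (ih k)
    rintro a ⟨i, hi, rfl⟩
    exact ⟨i, hi, rfl⟩

theorem w_up {t l : ℕ → T} {k : ℕ} (h : Val (Y t l k)) (i : ℕ) : ch (l i) root ∈ up (l (i + 1)) :=
  trans (h _).1 _ (St_up (h _).2.1) (h i).2.2

theorem l_mono {t l : ℕ → T} {k : ℕ} (h : Val (Y t l k)) : Monotone fun i => up (l i) :=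
  monotone_nat_of_le_succ fun i => (subset_insert _ _).trans (trans (h _).1 _ (w_up h i))

/-- same stage -/
def Sib (a b : T) : Prop := a = b ∨ ∃ t l i j, a = Y t l i ∧ b = Y t l j

/-- compatibility -/
def Cp (a b : T) : Prop := ∃ z, Val z ∧ a ∈ up z ∧ b ∈ up z

theorem Cp.symm {a b : T} (h : Cp a b) : Cp b a := let ⟨z, h1, h2, h3⟩ := h; ⟨z, h1, h3, h2⟩

theorem lemC {a b : T} (h : Cp a b) : b ∈ Ph a ∨ a ∈ Ph b ∨ Sib a b := by
  obtain ⟨z, h1, h2, h3⟩ := h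
  induction z with
  | root => exact Or.inr (Or.inr (Or.inl (h2.trans h3.symm)))
  | ch p r ih _ =>
    rcases h2 with rfl | h2 <;> rcases h3 with rfl | h3
    · exact Or.inr (Or.inr (Or.inl rfl))
    · exact Or.inl h3
    · exact Or.inr (Or.inl h2)
    · exact ih h1 h2 h3
  | Y t l k _ ih =>
    rcases h2 with ⟨i, -, rfl⟩ | h2 <;> rcases h3 with ⟨j, -, rfl⟩ | h3
    · exact Or.inr (Or.inr (Or.inr ⟨t, l, i, j, rfl, rfl⟩))
    · exact Or.inl (mem_iUnion.2 ⟨k, h3⟩)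
    · exact Or.inr (Or.inl (mem_iUnion.2 ⟨k, h2⟩))
    · exact ih k (h1 k).1 h2 h3

theorem Sib.rk_eq {a b : T} (h : Sib a b) : rk a = rk b := by
  rcases h with rfl | ⟨t, l, i, j, rfl, rfl⟩ <;> rfl

theorem lemC' {a b : T} (h : Cp a b) (hr : rk b < rk a) : b ∈ Ph a := by
  rcases lemC h with h | h | h
  · exact h
  · exact absurd (rk_Ph h) hr.not_gt
  · exact absurd h.rk_eq hr.ne'

/-- `m` is the meet of `a` and `b` -/
def Mt (a b m : T) : Prop :=
  Val m ∧ a ∈ up m ∧ b ∈ up m ∧ ∀ z, Val z → a ∈ up z → b ∈ up z → m ∈ up z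

theorem meet_Ph {a b : T} (ha : Val a) (h : b ∈ Ph a) : ∃ m, Mt a b m := by
  classical
  cases a with
  | root => exact h.elim
  | ch p r => exact ⟨_, ha, self_up _, Or.inr h, fun z _ h _ => h⟩
  | Y t l i =>
    have hex : ∃ j, b ∈ up (l j) := mem_iUnion.1 h
    refine ⟨Y t l (max i (Nat.find hex)), ha, Or.inl ⟨i, le_max_left _ _, rfl⟩,
      Or.inr (l_mono ha (le_max_right _ _) (Nat.find_spec hex)), fun z => ?_⟩
    have hr := rk_Ph h
    induction z with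
    | root => intro _ h; cases h
    | ch p r ih _ =>
      rintro hz (h1 | h1) h2
      · cases h1
      rcases h2 with rfl | h2
      · exact absurd (hr.trans_le (rk_up _ h1)) (rk_ch p r).not_gt
      · exact Or.inr (ih hz h1 h2)
    | Y t' l' k _ ih =>
      rintro hz (⟨j, hj, h1⟩ | h1) h2
      · cases h1
        rcases h2 with ⟨j', -, rfl⟩ | h2
        · exact absurd hr (lt_irrefl _)
        · exact Or.inl ⟨_, max_le hj (Nat.find_min' hex h2), rfl⟩
      rcases h2 with ⟨j', -, rfl⟩ | h2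
      · exact absurd (hr.trans_le (rk_up _ h1)) (rk_Y t' l' j' k).not_gt
      · exact Or.inr (ih k (hz k).1 h1 h2)

theorem meet {a b : T} (h : Cp a b) : ∃ m, Mt a b m := by
  have ha : Val a := h.elim fun z hz => val_up hz.1 _ hz.2.1
  have hb : Val b := h.elim fun z hz => val_up hz.1 _ hz.2.2
  rcases lemC h with h | h | rfl | ⟨t, l, i, j, rfl, rfl⟩
  · exact meet_Ph ha h
  · obtain ⟨m, h1, h2, h3, h4⟩ := meet_Ph hb h
    exact ⟨m, h1, h3, h2, fun z a b c => h4 z a c b⟩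
  · exact ⟨a, ha, self_up _, self_up _, fun z _ h _ => h⟩
  · rcases le_total i j with h | h
    · exact ⟨_, hb, Or.inl ⟨i, h, rfl⟩, self_up _, fun z _ _ h => h⟩
    · exact ⟨_, ha, self_up _, Or.inl ⟨j, h, rfl⟩, fun z _ h _ => h⟩

/-- sequences that define points -/
structure Pt (q : ℕ → T) : Prop where
  val : ∀ m, Val (q m)
  dec : ∀ m, q m ∈ up (q (m + 1))
  inj : Function.Injective q
  int : ∀ m, ∀ p ∈ up (q m), q 0 ∈ up p → ∃ i, p = q i
  notch : ∀ m p r, q (m + 1) ≠ ch p r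
  star : ∀ m, ∃ m', ∀ c, rk c ≤ rk (q m) → Cp c (q m') → ∃ i, c ∈ up (q i)

theorem Pt.mono {q : ℕ → T} (h : Pt q) : Monotone fun m => up (q m) :=
  monotone_nat_of_le_succ fun m => trans (h.val _) _ (h.dec m)

theorem pt_Y {t l : ℕ → T} (h : Val (Y t l 0)) : Pt (Y t l) where
  val _ := h
  dec m := Or.inl ⟨m, Nat.le_succ m, rfl⟩
  inj i j e := by cases e; rfl
  int m p hp h0 := by
    rcases hp with ⟨i, -, rfl⟩ | hp
    · exact ⟨i, rfl⟩
    · exact absurd ((rk_up _ h0).trans (rk_up _ hp)) (rk_Y t l 0 m).not_ge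
  notch m p r e := by cases e
  star m := ⟨0, fun c hc hp => by
    rcases lemC hp with h | h | rfl | ⟨t', l', i, j, rfl, e⟩
    · exact absurd (rk_Ph h) (not_lt.2 hc)
    · obtain ⟨i, hi⟩ := mem_iUnion.1 h
      exact ⟨i, Or.inr hi⟩
    · exact ⟨0, self_up _⟩
    · cases e
      exact ⟨i, self_up _⟩⟩

/-- `b` prolongs the stair with top `t` and last step `a` -/
def Ext (t a b : T) : Prop := Val b ∧ ∃ t' l' k, b = Y t' l' k ∧ t' k = t ∧ l' k = a

theorem pt_stair {q : ℕ → T} (h0 : Val (q 0)) (h : ∀ m, Ext (q 0) (q m) (q (m + 1))) : Pt q := by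
  have hv : ∀ m, Val (q m) := fun m => by cases m; exacts [h0, (h _).1]
  have hr : StrictMono fun m => rk (q m) := strictMono_nat_of_lt_succ fun m => by
    obtain ⟨-, t, l, k, e1, -, e2⟩ := h m
    simp only [e1, ← e2]
    exact rk_Y _ _ _ _
  refine ⟨hv, fun m => ?_, fun i j e => hr.injective (by simp only [e]), fun m => ?_,
    fun m p r e => ?_, fun m => ⟨m + 1, fun c hc hp => ⟨m, ?_⟩⟩⟩
  · obtain ⟨-, t, l, k, e1, -, e2⟩ := h m
    rw [e1, ← e2]
    exact Or.inr (self_up _)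
  · induction m with
    | zero =>
      exact fun p h1 h2 => ⟨0, antisymm h1 h2⟩
    | succ m ih =>
      obtain ⟨hv', t, l, k, e1, e2, e3⟩ := h m
      rw [e1] at hv' ⊢
      rintro p (⟨i, hi, rfl⟩ | hp) h2
      · rcases hi.eq_or_lt with rfl | hi
        · exact ⟨m + 1, e1.symm⟩
        exfalso
        rw [← e2] at h2
        have h3 : rk (t k) < rk (Y t l i) :=
          (rk_up _ (St_up (hv' k).2.1)).trans_lt (rk_Y t l i k)
        rcases h2 with ⟨j, -, e⟩ | h2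
        · rw [e] at h3; exact lt_irrefl _ h3
        · obtain ⟨k, rfl⟩ := Nat.exists_eq_add_of_lt hi
          have h4 := rk_up _ (l_mono hv' (Nat.le_add_right i k) (self_up _))
          exact absurd ((rk_up _ (hv' (i + k)).2.2).trans ((rk_up _ h2).trans h4))
            (rk_ch _ _).not_ge
      · exact ih p (e3 ▸ hp) h2
  · obtain ⟨-, t, l, k, e1, -, -⟩ := h m
    rw [e1] at e; cases e
  · have h1 := lemC' hp.symm (hc.trans_lt (hr (Nat.lt_succ_self m)))
    obtain ⟨hv', t, l, k, e1, -, e3⟩ := h m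
    rw [e1] at hv' h1
    obtain ⟨j, hj⟩ := mem_iUnion.1 h1
    have h2 : Cp (ch (l k) root) c := ⟨l (max j (k + 1)), (hv' _).1,
      l_mono hv' (le_max_right _ _) (w_up hv' k), l_mono hv' (le_max_left _ _) hj⟩
    rw [← e3] at hc ⊢
    exact lemC' h2 (hc.trans_lt (rk_ch _ _))

/-- the points -/
def X : Type := {x : Set T // ∃ q, Pt q ∧ x = ⋃ m, up (q m)}

/-- the basic open sets -/
def U (a : T) : Set X := {x | a ∈ x.1}

instance : TopologicalSpace X := generateFrom (range U)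

theorem X.val (x : X) {a : T} (h : a ∈ x.1) : Val a := by
  obtain ⟨q, h1, h2⟩ := x.2
  obtain ⟨m, hm⟩ := mem_iUnion.1 (h2 ▸ h)
  exact val_up (h1.val m) _ hm

theorem X.up_sub (x : X) {a : T} (h : a ∈ x.1) : up a ⊆ x.1 := by
  obtain ⟨q, h1, h2⟩ := x.2
  rw [h2] at h ⊢
  obtain ⟨m, hm⟩ := mem_iUnion.1 h
  exact (trans (h1.val m) _ hm).trans (subset_iUnion (fun m => up (q m)) m)

theorem X.dir (x : X) {a b : T} (ha : a ∈ x.1) (hb : b ∈ x.1) : ∃ z ∈ x.1, a ∈ up z ∧ b ∈ up z := by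
  obtain ⟨q, h1, h2⟩ := x.2
  rw [h2] at ha hb ⊢
  obtain ⟨m, hm⟩ := mem_iUnion.1 ha
  obtain ⟨n, hn⟩ := mem_iUnion.1 hb
  exact ⟨q (max m n), mem_iUnion.2 ⟨_, self_up _⟩, h1.mono (le_max_left _ _) hm,
    h1.mono (le_max_right _ _) hn⟩

theorem X.cp (x : X) {a b : T} (ha : a ∈ x.1) (hb : b ∈ x.1) : Cp a b :=
  let ⟨z, h1, h2⟩ := x.dir ha hb
  ⟨z, x.val h1, h2⟩

theorem X.star (x : X) {a : T} (ha : a ∈ x.1) :
    ∃ z ∈ x.1, a ∈ up z ∧ ∀ c, rk c ≤ rk a → Cp c z → c ∈ x.1 := by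
  obtain ⟨q, h1, h2⟩ := x.2
  obtain ⟨m, hm⟩ := mem_iUnion.1 (h2 ▸ ha)
  obtain ⟨m', hm'⟩ := h1.star m
  refine ⟨q (max m m'), h2 ▸ mem_iUnion.2 ⟨_, self_up _⟩, h1.mono (le_max_left _ _) hm,
    fun c hc ⟨z, z1, z2, z3⟩ => h2 ▸ mem_iUnion.2 (hm' c (hc.trans (rk_up _ hm)) ⟨z, z1, z2, ?_⟩)⟩
  exact trans z1 _ z3 (h1.mono (le_max_right _ _) (self_up _))

theorem basis : IsTopologicalBasis (range U) := by
  refine ⟨?_, eq_univ_of_forall fun x => ?_, rfl⟩
  · rintro _ ⟨a, rfl⟩ _ ⟨b, rfl⟩ x ⟨ha, hb⟩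
    obtain ⟨z, h1, h2, h3⟩ := x.dir ha hb
    exact ⟨_, ⟨z, rfl⟩, h1, fun y hy => ⟨y.up_sub hy h2, y.up_sub hy h3⟩⟩
  · obtain ⟨q, -, h2⟩ := x.2
    exact ⟨_, ⟨q 0, rfl⟩, show q 0 ∈ x.1 from h2 ▸ mem_iUnion.2 ⟨0, self_up _⟩⟩

theorem U_open (a : T) : IsOpen (U a) := basis.isOpen ⟨a, rfl⟩

theorem inter_mem (a b : T) : U a ∩ U b ∈ range U := by
  by_cases h : Cp a b
  · obtain ⟨m, h1, h2, h3, h4⟩ := meet h
    refine ⟨m, Subset.antisymm (fun y hy => ⟨y.up_sub hy h2, y.up_sub hy h3⟩) fun y hy => ?_⟩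
    obtain ⟨z, z1, z2, z3⟩ := y.dir hy.1 hy.2
    exact y.up_sub z1 (h4 z (y.val z1) z2 z3)
  · refine ⟨Y (fun _ => root) (fun _ => root) 0, Subset.antisymm (fun y hy => ?_)
      fun y hy => (h (y.cp hy.1 hy.2)).elim⟩
    cases (y.val hy 0).2.2

theorem U_ne {a : T} (h : Val a) : (U a).Nonempty := by
  let l : ℕ → T := fun n => Nat.rec (motive := fun _ => T) a (fun _ b => ch b root) n
  have hl : ∀ n, Val (l n) := fun n => by
    induction n with
    | zero => exact h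
    | succ n ih => exact ih
  have hv : Val (Y l l 0) := fun i => ⟨hl i, St_refl _, self_up _⟩
  exact ⟨⟨_, _, pt_Y hv, rfl⟩, mem_iUnion.2 ⟨0, Or.inr (self_up a)⟩⟩

theorem reflect {a b : T} (h : Val a) (hs : U a ⊆ U b) : b ∈ up a := by
  obtain ⟨x, hx⟩ := U_ne (a := ch a b) h
  exact lemC' (x.cp hx (hs (x.up_sub hx (Or.inr (self_up a))))) (rk_ch' a b)

theorem no_isolated (x : X) : ¬ IsOpen ({x} : Set X) := by
  intro h
  obtain ⟨_, ⟨a, rfl⟩, h1, h2⟩ := basis.exists_subset_of_mem_open (mem_singleton x) h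
  obtain ⟨y, hy⟩ := U_ne (a := ch a root) (x.val (a := a) h1)
  obtain ⟨z, hz⟩ := U_ne (a := ch a (ch a root)) (x.val (a := a) h1)
  have e : y = z := (h2 (y.up_sub hy (Or.inr (self_up a)))).trans
    (h2 (z.up_sub hz (Or.inr (self_up a)))).symm
  subst e
  exact absurd (rk_up _ (lemC' (y.cp hz hy) (rk_ch' _ _))) (rk_ch _ _).not_ge

theorem not_sub {x y : X} {c : T} (h : x.1 ⊆ y.1) (hc : c ∈ y.1) : c ∈ x.1 := by
  by_contra hn
  have h1 : ∀ a ∈ x.1, a ∈ Ph c := fun a ha => by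
    refine lemC' (y.cp hc (h ha)) (not_le.1 fun hr => ?_)
    obtain ⟨z, z1, -, z3⟩ := x.star ha
    exact hn (z3 c hr (y.cp hc (h z1)))
  obtain ⟨q, h2, h3⟩ := x.2
  have qx : ∀ m, q m ∈ x.1 := fun m => h3 ▸ mem_iUnion.2 ⟨m, self_up _⟩
  have inf : ∀ p, ∃ m, q m ∉ up p := fun p => by
    by_contra h4
    push Not at h4
    exact (infinite_range_of_injective h2.inj) ((fin_up p).subset (range_subset_iff.2 h4))
  have hv := y.val hc
  cases c with
  | root => exact h1 _ (qx 0)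
  | ch p r => exact (inf p).elim fun m hm => hm (h1 _ (qx m))
  | Y t l k =>
    have h4 : ∀ j, ∀ a ∈ x.1, Cp (ch (l j) root) a := fun j a ha => by
      obtain ⟨i, hi⟩ := mem_iUnion.1 (h1 a ha)
      exact ⟨l (max i (j + 1)), (hv _).1, l_mono hv (le_max_right _ _) (w_up hv j),
        l_mono hv (le_max_left _ _) hi⟩
    obtain ⟨j, hj⟩ := mem_iUnion.1 (h1 _ (qx 0))
    obtain ⟨m, hm⟩ := inf (l j)
    obtain ⟨z, z1, -, z3⟩ := x.star (qx m)
    have h5 := z3 _ (not_lt.1 fun hr => hm (lemC' (h4 j _ (qx m)) hr)) (h4 j z z1)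
    obtain ⟨n, hn'⟩ := mem_iUnion.1 (h3 ▸ h5)
    obtain ⟨i, hi⟩ := h2.int n _ hn' (Or.inr hj)
    cases i with
    | zero => exact absurd (rk_up _ (hi ▸ hj)) (rk_ch _ _).not_ge
    | succ i => exact h2.notch i _ _ hi.symm

instance : T2Space X := ⟨fun x y hne => by
  have key : ∀ x y : X, ∀ a ∈ x.1, ∀ c ∈ y.1, c ∉ x.1 → rk c ≤ rk a →
      ∃ u v : Set X, IsOpen u ∧ IsOpen v ∧ x ∈ u ∧ y ∈ v ∧ Disjoint u v := by
    intro x y a ha c hc hn hr
    obtain ⟨z, z1, -, z3⟩ := x.star ha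
    exact ⟨U z, U c, U_open z, U_open c, z1, hc,
      disjoint_left.2 fun w h1 h2 => hn (z3 c hr (w.cp h2 h1))⟩
  obtain ⟨a, ha, ha'⟩ : ∃ a ∈ x.1, a ∉ y.1 := not_subset.1 fun h =>
    hne (Subtype.ext (Subset.antisymm h fun c hc => not_sub h hc))
  obtain ⟨c, hc, hc'⟩ : ∃ a ∈ y.1, a ∉ x.1 := not_subset.1 fun h =>
    hne (Subtype.ext (Subset.antisymm (fun c hc => not_sub h hc) h))
  rcases le_total (rk c) (rk a) with h | h
  · exact key x y a ha c hc hc' h
  · obtain ⟨u, v, h1, h2, h3, h4, h5⟩ := key y x c hc a ha ha' h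
    exact ⟨v, u, h2, h1, h4, h3, h5.symm⟩⟩

theorem ultra {ι : Type} (s : ι → Set X) (hs : ∀ i, IsOpen (s i)) (hc : ⋃ i, s i = univ) :
    ∃ f : X → T, IsLocallyConstant f ∧ ∀ x, x ∈ U (f x) ∧ ∃ i, U (f x) ⊆ s i := by
  let r : T → T → Prop := InvImage (Prod.Lex (· < ·) WellOrderingRel) fun a => (rk a, a)
  have wf : WellFounded r := InvImage.wf _ (WellFounded.prod_lex wellFounded_lt IsWellFounded.wf)
  have h1 : ∀ x : X, {a | x ∈ U a ∧ ∃ i, U a ⊆ s i}.Nonempty := fun x => by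
    obtain ⟨i, hi⟩ := mem_iUnion.1 (hc ▸ mem_univ x)
    obtain ⟨_, ⟨a, rfl⟩, h2, h3⟩ := basis.exists_subset_of_mem_open hi (hs i)
    exact ⟨a, h2, i, h3⟩
  choose f f1 f2 using fun x => wf.has_min _ (h1 x)
  refine ⟨f, (IsLocallyConstant.iff_exists_open f).2 fun x => ?_, f1⟩
  obtain ⟨z, z1, z2, z3⟩ := x.star (f1 x).1
  refine ⟨U z, U_open z, z1, fun y hy => ?_⟩
  have h2 := f2 y (f x) ⟨y.up_sub hy z2, (f1 x).2⟩
  have h3 : rk (f y) ≤ rk (f x) := not_lt.1 fun h => h2 (Prod.Lex.left _ _ h)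
  have h4 := f2 x (f y) ⟨z3 _ h3 (y.cp (f1 y).1 hy), (f1 y).2⟩
  have h5 : rk (f y) = rk (f x) := h3.eq_or_lt.resolve_right fun h => h4 (Prod.Lex.left _ _ h)
  rcases trichotomous_of WellOrderingRel (f y) (f x) with h | h | h
  · exact (h4 (Prod.lex_def.2 (Or.inr ⟨h5, h⟩))).elim
  · exact h
  · exact (h2 (Prod.lex_def.2 (Or.inr ⟨h5.symm, h⟩))).elim

instance : ParacompactSpace X := ⟨fun ι s hs hc => by
  obtain ⟨f, f1, f2⟩ := ultra s hs hc
  refine ⟨range f, fun a => f ⁻¹' {a.1}, fun a => f1 _,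
    eq_univ_of_forall fun x => mem_iUnion.2 ⟨⟨_, x, rfl⟩, rfl⟩, fun x => ?_, ?_⟩
  · refine ⟨f ⁻¹' {f x}, (f1 _).mem_nhds rfl, (finite_singleton ⟨_, x, rfl⟩).subset ?_⟩
    rintro a ⟨y, h1, h2⟩
    exact Subtype.ext (h1.symm.trans h2)
  · rintro ⟨_, x, rfl⟩
    obtain ⟨i, hi⟩ := (f2 x).2
    exact ⟨i, fun y hy => hi ((show f y = f x from hy) ▸ (f2 y).1)⟩⟩

theorem tail {q : ℕ → T} (hq : Pt q) {B : Set (Set X)} (hB : B ⊆ range U)
    (hb : IsTopologicalBasis B) : ∃ i, U (q i) ∈ B := by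
  obtain ⟨V, h1, h2, h3⟩ := hb.exists_subset_of_mem_open (a := (⟨_, q, hq, rfl⟩ : X))
    (u := U (q 0)) (show q 0 ∈ ⋃ m, up (q m) from mem_iUnion.2 ⟨0, self_up _⟩) (U_open (q 0))
  obtain ⟨p, rfl⟩ := hB h1
  obtain ⟨m, hm⟩ := mem_iUnion.1 h2
  obtain ⟨i, rfl⟩ := hq.int m p hm (reflect (val_up (hq.val m) _ hm) h3)
  exact ⟨i, h1⟩

theorem not_res (B0 B1 : Set (Set X)) (h0 : B0 ⊆ range U) (h1 : B1 ⊆ range U)
    (hd : Disjoint B0 B1) (b0 : IsTopologicalBasis B0) (b1 : IsTopologicalBasis B1) : False := by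
  by_cases hA : ∃ t, Val t ∧ U t ∈ B0 ∧ ∀ l, Val l → St t l → ∃ l', U l' ∈ B0 ∧ Ext t l l'
  · obtain ⟨t, t1, t2, t3⟩ := hA
    have st : ∀ l l', St t l → Ext t l l' → St t l' := by
      rintro l _ h ⟨-, t', l', k, rfl, e1, e2⟩
      exact Or.inr ⟨e1, e2 ▸ h⟩
    choose! F F1 F2 using t3
    let q : ℕ → T := fun n => F^[n] t
    have qs : ∀ n, q (n + 1) = F (q n) := fun n => Function.iterate_succ_apply' F n t
    have h2 : ∀ n, Val (q n) ∧ St t (q n) ∧ U (q n) ∈ B0 := fun n => by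
      induction n with
      | zero => exact ⟨t1, St_refl _, t2⟩
      | succ n ih =>
        rw [qs]
        exact ⟨(F2 _ ih.1 ih.2.1).1, st _ _ ih.2.1 (F2 _ ih.1 ih.2.1), F1 _ ih.1 ih.2.1⟩
    obtain ⟨i, hi⟩ := tail (pt_stair (q := q) t1 fun m => qs m ▸ F2 _ (h2 m).1 (h2 m).2.1) h1 b1
    exact disjoint_left.1 hd (h2 i).2.2 hi
  · push Not at hA
    have h2 : ∀ v, Val v → ∃ p : T × T, v ∈ up p.1 ∧ Val p.2 ∧ St p.1 p.2 ∧
        ∀ l', U l' ∈ B0 → ¬ Ext p.1 p.2 l' := fun v hv => by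
      obtain ⟨x, hx⟩ := U_ne hv
      obtain ⟨V, v1, v2, v3⟩ := b0.exists_subset_of_mem_open hx (U_open v)
      obtain ⟨t, rfl⟩ := h0 v1
      obtain ⟨l, hl⟩ := hA t (x.val v2) v1
      exact ⟨(t, l), reflect (x.val v2) v3, hl⟩
    choose! F F1 F2 F3 F4 using h2
    let v : ℕ → T := fun n => (fun a => ch (F a).2 root)^[n] root
    have vs : ∀ n, v (n + 1) = ch (F (v n)).2 root := fun n => Function.iterate_succ_apply' _ n _
    have hv : ∀ n, Val (v n) := fun n => by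
      induction n with
      | zero => trivial
      | succ n ih => rw [vs]; exact F2 _ ih
    have hY : Val (Y (fun n => (F (v n)).1) (fun n => (F (v n)).2) 0) := fun i =>
      ⟨F2 _ (hv i), F3 _ (hv i), vs i ▸ F1 _ (hv _)⟩
    obtain ⟨i, hi⟩ := tail (pt_Y hY) h0 b0
    exact F4 _ (hv i) _ hi ⟨hY, _, _, i, rfl, rfl, rfl⟩

end Pool.Agent.H31.BR
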