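import Pool.Agent.H31.WFDefs

namespace Pool.Agent.H31.WF

open Set Filter Topology

universe u v

theorem cl_iff {P : Type u} [Preorder P] {C : Set P} : IsClosed[scott P] C ↔ IsLowerSet C ∧
    ∀ D s, D.Nonempty → DirectedOn (· ≤ ·) D → IsLUB D s → D ⊆ C → s ∈ C := by
  letI := scott P
  rw [← isOpen_compl_iff]
  refine and_congr isUpperSet_compl (forall₅_congr fun D s _ _ _ => ?_)
  rw [inter_compl_nonempty_iff]
  exact not_imp_not

theorem cl_Iic {P : Type u} [Preorder P] (a : P) : IsClosed[scott P] (Iic a) :=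
  cl_iff.mpr ⟨isLowerSet_Iic a, fun _ _ _ _ h h' => h.2 h'⟩

theorem t0 (P : Type u) [PartialOrder P] : @T0Space P (scott P) := by
  letI := scott P
  exact ⟨fun x y h => le_antisymm ((h.mem_closed_iff (cl_Iic y)).mpr le_rfl)
    ((h.mem_closed_iff (cl_Iic x)).mp le_rfl)⟩

theorem cont {P : Type u} {Q : Type v} [Preorder P] [Preorder Q] {f : P → Q} (hm : Monotone f)
    (hl : ∀ D s, D.Nonempty → IsLUB D s → IsLUB (f '' D) (f s)) :
    Continuous[scott P, scott Q] f := by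
  letI := scott P
  letI := scott Q
  exact continuous_iff_isClosed.mpr fun C hC => cl_iff.mpr ⟨(cl_iff.mp hC).1.preimage hm,
    fun D s h1 h2 h3 h4 => (cl_iff.mp hC).2 _ _ (h1.image f) (h2.mono_comp hm) (hl D s h1 h3)
      (image_subset_iff.mpr h4)⟩

theorem top {X : Type u} {P : Type v} [TopologicalSpace X] [Preorder P] {f : X → P}
    (hf : Continuous[_, scott P] f) (hP : WellFiltered P (scott P)) {F : Set (Set X)}
    (h1 : F.Nonempty) (h2 : DirectedOn (· ⊇ ·) F) (h3 : ∀ K ∈ F, IsCompact K) {A : Set X}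
    (h4 : IsClosed A) (h5 : ∀ K ∈ F, (A ∩ K).Nonempty)
    (h6 : ∀ B ⊆ A, IsClosed B → (∀ K ∈ F, (B ∩ K).Nonempty) → A ⊆ B)
    (h7 : IsClosed[scott P] (f '' A)) : ∃ p ∈ A, ∀ q ∈ A, f q ≤ f p := by
  letI := scott P
  by_contra h8
  obtain ⟨_, ⟨K, h9, rfl⟩, h10⟩ := hP.2 ((fun K => nhdsKer (f '' (A ∩ K))) '' F) (h1.image _)
    (h2.mono_comp fun K L h => nhdsKer_mono (image_mono (inter_subset_inter_right _ h)))
    (forall_mem_image.mpr fun K hK => ⟨(((h3 K hK).inter_left h4).image hf).nhdsKer, fun x hx =>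
      mem_nhdsKer.mpr fun U hU h => hx U hU (nhdsKer_minimal h hU)⟩) _ h7.isOpen_compl (by
        rintro _ ha ⟨p, hp, rfl⟩
        refine h8 ⟨p, hp, fun q hq => (h6 (A ∩ f ⁻¹' Iic (f p)) inter_subset_left
          (h4.inter ((cl_Iic _).preimage hf)) (fun K hK => ?_) hq).2⟩
        by_contra! h9
        exact mem_nhdsKer.mp (ha _ ⟨K, hK, rfl⟩) _ (cl_Iic (f p)).isOpen_compl
          (image_subset_iff.mpr fun q hq h => h9.subset ⟨⟨hq.1, h⟩, hq.2⟩) le_rfl)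
  obtain ⟨p, hp⟩ := h5 K h9
  exact h10 (subset_nhdsKer ⟨p, hp, rfl⟩) ⟨p, hp.1, rfl⟩

theorem prod {P : Type u} {Q : Type v} [PartialOrder P] [PartialOrder Q]
    (hP : WellFiltered P (scott P)) (hQ : WellFiltered Q (scott Q)) :
    WellFiltered (P × Q) (scott (P × Q)) := by
  letI := scott (P × Q)
  refine ⟨t0 _, fun F h1 h2 h3 U hU h4 => ?_⟩
  by_contra! h5
  obtain ⟨A, h6, ⟨h7, h8⟩, h9⟩ := zorn_superset_nonempty
    {A : Set (P × Q) | IsClosed A ∧ ∀ K ∈ F, (A ∩ K).Nonempty} (fun c h6 h7 h8 => ⟨⋂₀ c,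
      ⟨isClosed_sInter fun A hA => (h6 hA).1, fun K hK => by
        have := h8.to_subtype
        by_contra! h9
        obtain ⟨A, hA⟩ := (h3 K hK).1.elim_directed_family_closed (fun A : c => A.1)
          (fun A => (h6 A.2).1) (by rwa [inter_comm, ← sInter_eq_iInter]) fun A B =>
            (h7.total A.2 B.2).elim (fun h => ⟨A, subset_rfl, h⟩) fun h => ⟨B, h, subset_rfl⟩
        exact ((h6 A.2).2 K hK).ne_empty (inter_comm _ _ ▸ hA)⟩, fun _ => sInter_subset_of_mem⟩) Uᶜ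
    ⟨hU.isClosed_compl, fun K hK => (not_subset.mp (h5 K hK)).imp fun _ h => ⟨h.2, h.1⟩⟩
  have h10 : ∀ B ⊆ A, IsClosed B → (∀ K ∈ F, (B ∩ K).Nonempty) → A ⊆ B := fun B h h' h'' =>
    h9 ⟨h', h''⟩ h
  have c1 : Continuous[_, scott P] (Prod.fst : P × Q → P) :=
    cont monotone_fst fun D s _ h => (isLUB_prod.mp h).1
  have c2 : Continuous[_, scott Q] (Prod.snd : P × Q → Q) :=
    cont monotone_snd fun D s _ h => (isLUB_prod.mp h).2
  have c3 : ∀ y, Continuous[scott P, _] fun x : P => (x, y) := fun y : Q =>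
    cont (monotone_id.prodMk monotone_const) fun D s h h' => isLUB_prod.mpr (by
      simpa [image_image, h.image_const] using h')
  have c4 : ∀ x, Continuous[scott Q, _] fun y : Q => (x, y) := fun x : P =>
    cont (monotone_const.prodMk monotone_id) fun D s h h' => isLUB_prod.mpr (by
      simpa [image_image, h.image_const] using h')
  letI := scott P
  letI := scott Q
  have h11 : ∀ p : P × Q, IsClosed {q ∈ A | (p.1, q.2) ∈ A} := fun p =>
    h7.inter (h7.preimage ((c4 p.1).comp c2))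
  have h12 : ∀ p ∈ A, ∀ q ∈ A, (p.1, q.2) ∈ A := fun p hp q hq => by
    refine (h10 _ (sep_subset _ _) (h11 p) (fun K hK => ?_) hq).2
    refine (h10 {p ∈ A | ({q ∈ A | (p.1, q.2) ∈ A} ∩ K).Nonempty} (sep_subset _ _) (cl_iff.mpr
      ⟨fun p p' h ⟨h12, q, h13, h14⟩ => ⟨(cl_iff.mp h7).1 h h12, q, ⟨h13.1, (cl_iff.mp h7).1
        (show (p'.1, q.2) ≤ (p.1, q.2) from ⟨h.1, le_rfl⟩) h13.2⟩, h14⟩, fun D s h12 h13 h14 h15 =>
          ⟨(cl_iff.mp h7).2 D s h12 h13 h14 fun d hd => (h15 hd).1, ?_⟩⟩) (fun L hL => ?_) hp).2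
    · have := h12.to_subtype
      by_contra! h16
      obtain ⟨d, hd⟩ := (h3 K hK).1.elim_directed_family_closed _ (fun d : D => h11 d)
        (eq_empty_of_forall_notMem fun q hq => h16.subset (show q ∈ _ from
          ⟨⟨(mem_iInter.mp hq.2 this.some).1, (cl_iff.mp (h7.preimage ((c3 q.2).comp c1))).2 D s h12
            h13 h14 fun d hd => (mem_iInter.mp hq.2 ⟨d, hd⟩).2⟩, hq.1⟩)) fun d e => by
          obtain ⟨g, h17, h18, h19⟩ := h13 d d.2 e e.2
          exact ⟨⟨g, h17⟩, fun q hq => ⟨hq.1, (cl_iff.mp h7).1 (show (d.1.1, q.2) ≤ (g.1, q.2) from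
            ⟨h18.1, le_rfl⟩) hq.2⟩, fun q hq => ⟨hq.1, (cl_iff.mp h7).1
              (show (e.1.1, q.2) ≤ (g.1, q.2) from ⟨h19.1, le_rfl⟩) hq.2⟩⟩
      exact (h15 d.2).2.ne_empty (inter_comm _ _ ▸ hd)
    · obtain ⟨M, h12, h13, h14⟩ := h2 K hK L hL
      obtain ⟨r, h15, h16⟩ := h8 M h12
      exact ⟨r, ⟨h15, r, ⟨h15, h15⟩, h13 h16⟩, h14 h16⟩
  obtain ⟨r, hr, -⟩ := h8 _ h1.some_mem
  obtain ⟨a, h13, h14⟩ := top c1 hP h1 h2 (fun K hK => (h3 K hK).1) h7 h8 h10 (by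
    convert h7.preimage (c3 r.2) using 1
    exact Subset.antisymm (image_subset_iff.mpr fun p hp => h12 p hp r hr) fun x hx => ⟨_, hx, rfl⟩)
  obtain ⟨b, h15, h16⟩ := top c2 hQ h1 h2 (fun K hK => (h3 K hK).1) h7 h8 h10 (by
    convert h7.preimage (c4 r.1) using 1
    exact Subset.antisymm (image_subset_iff.mpr fun p hp => h12 r hr p hp) fun x hx => ⟨_, hx, rfl⟩)
  refine h6 (h12 a h13 b h15) (h4 fun K hK => (h3 K hK).2 _ fun V hV h => ?_)
  obtain ⟨p, h17, h18⟩ := h8 K hK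
  exact hV.1 (show p ≤ (a.1, b.2) from ⟨h14 p h17, h16 p h17⟩) (h h18)

end Pool.Agent.H31.WF
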