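import Pool.Agent.H31.CCDefs
import Pool.Agent.H31.WF1

namespace Pool.Agent.H31.CC

open Set Filter Topology TopologicalSpace Pool.Agent.H31.WF

universe u

section
variable {Y : Type u} {t : TopologicalSpace Y} {U V : Set Y}

theorem WayBelow.dir (h : WayBelow t V U) {ι : Type*} [Nonempty ι] (W : ι → Set Y)
    (h1 : Directed (· ⊆ ·) W) (h2 : ∀ i, IsOpen (W i)) (h3 : U ⊆ ⋃ i, W i) : ∃ i, V ⊆ W i := by
  obtain ⟨F, h4, h5, h6⟩ := h (range W) (forall_mem_range.mpr h2) h3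
  suffices ∃ i, ⋃₀ F ⊆ W i from this.imp fun _ => h6.trans
  clear h6
  induction F, h5 using Set.Finite.induction_on with
  | empty => simp
  | insert _ _ ih =>
    obtain ⟨⟨i, rfl⟩, h7⟩ := insert_subset_iff.mp h4
    obtain ⟨j, hj⟩ := ih h7
    obtain ⟨k, h8, h9⟩ := h1 i j
    exact ⟨k, by rw [sUnion_insert]; exact union_subset h8 (hj.trans h9)⟩

theorem WayBelow.mono (h : WayBelow t V U) {U' V' : Set Y} (h1 : V' ⊆ V) (h2 : U ⊆ U') :
    WayBelow t V' U' := fun G h3 h4 =>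
  (h G h3 (h2.trans h4)).imp fun _ h => ⟨h.1, h.2.1, h1.trans h.2.2⟩

theorem WayBelow.union (h : WayBelow t V U) {V' : Set Y} (h' : WayBelow t V' U) :
    WayBelow t (V ∪ V') U := fun G h3 h4 => by
  obtain ⟨F, h5, h6, h7⟩ := h G h3 h4
  obtain ⟨F', h8, h9, h10⟩ := h' G h3 h4
  exact ⟨F ∪ F', union_subset h5 h8, h6.union h9, by
    rw [sUnion_union]; exact union_subset_union h7 h10⟩

theorem WayBelow.subset (h : WayBelow t V U) (hU : IsOpen U) : V ⊆ U :=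
  (h.dir (fun _ : Unit => U) (fun _ _ => ⟨(), subset_rfl, subset_rfl⟩) (fun _ => hU)
    (subset_iUnion (fun _ : Unit => U) ())).elim fun _ h => h

end

variable {X : Type u} [TopologicalSpace X]

theorem fin {O : Set (Closeds X)} (hO : IsOpen[WF.scott _] O) {S : Set X}
    (h : Closeds.closure S ∈ O) : ∃ E ⊆ S, E.Finite ∧ Closeds.closure E ∈ O := by
  obtain ⟨_, ⟨E, hE, rfl⟩, h1⟩ := hO.2 (Closeds.closure '' {E | E ⊆ S ∧ E.Finite}) _
    ⟨_, ∅, ⟨empty_subset _, finite_empty⟩, rfl⟩ (by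
      rintro _ ⟨E, hE, rfl⟩ _ ⟨E', hE', rfl⟩
      exact ⟨_, ⟨E ∪ E', ⟨union_subset hE.1 hE'.1, hE.2.union hE'.2⟩, rfl⟩,
        closure_mono subset_union_left, closure_mono subset_union_right⟩)
    ⟨forall_mem_image.mpr fun E hE => closure_mono hE.1, fun T hT => closure_minimal (fun x hx =>
      hT ⟨{x}, ⟨singleton_subset_iff.mpr hx, finite_singleton x⟩, rfl⟩ (subset_closure rfl))
        T.isClosed⟩ h
  exact ⟨E, hE.1, hE.2, h1⟩

theorem half {O : Set (Closeds X)} (hO : IsOpen[WF.scott _] O) :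
    IsClosed[WF.scott _] {D : Closeds X | ∃ B ∉ O, ∃ B' ∉ O, D ≤ B ⊔ B'} := cl_iff.mpr
  ⟨fun _ _ h ⟨B, h1, B', h2, h3⟩ => ⟨B, h1, B', h2, h.trans h3⟩, fun D s h1 h2 h3 h4 => by
    have := h1.to_subtype
    have := h2.isDirectedOrder
    choose B h5 B' h6 h7 using fun d : D => h4 d.2
    let f := Ultrafilter.of (atTop : Filter D)
    have h8 : ∀ B : D → Closeds X, (∀ d, B d ∉ O) →
        Closeds.closure {y | ∀ᶠ d in (f : Filter D), y ∈ B d} ∉ O := fun B hB h => by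
      obtain ⟨E, h8, h9, h10⟩ := fin hO h
      obtain ⟨d, hd⟩ := ((eventually_all_finite h9).mpr h8).exists
      exact hB d (hO.1 (show _ ≤ B d from closure_minimal hd (B d).isClosed) h10)
    refine ⟨_, h8 B h5, _, h8 B' h6, h3.2 fun d hd y hy => ?_⟩
    exact (Ultrafilter.eventually_or.mp (((eventually_ge_atTop (⟨d, hd⟩ : D)).filter_mono
      (Ultrafilter.of_le _)).mono fun e he => h7 e (he hy))).imp
        (subset_closure ·) (subset_closure ·)⟩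

theorem main (h : CoreCompact (Closeds X) (WF.scott _)) : CoreCompact X inferInstance := by
  letI := WF.scott (Closeds X)
  intro U hU x hx
  let c : X → Closeds X := fun y => Closeds.closure {y}
  have h0 : ∀ y (D : Closeds X), y ∈ D → c y ≤ D := fun y D h =>
    closure_minimal (singleton_subset_iff.mpr h) D.isClosed
  let dia : Set X → Set (Closeds X) := fun W => {D | ¬ (D : Set X) ⊆ Wᶜ}
  have h1 : ∀ W, IsOpen W → IsOpen (dia W) := fun W hW =>
    (cl_Iic (⟨Wᶜ, hW.isClosed_compl⟩ : Closeds X)).isOpen_compl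
  have h2 : ∀ W y, IsOpen W → (c y ∈ dia W ↔ y ∈ W) := fun W y hW =>
    (hW.isClosed_compl.closure_subset_iff.trans singleton_subset_iff).not.trans not_not
  have h3 : ∀ W : {W // IsOpen W ∧ WayBelow this W (dia U)}, ∃ W' : {W // IsOpen W ∧
      WayBelow this W (dia U)}, WayBelow this W.1 W'.1 ∧ ∀ B B', B ⊔ B' ∈ W.1 →
        B ∈ W'.1 ∨ B' ∈ W'.1 := fun W => by
    have h3 : ∀ z ∈ U, ∃ p : {p : Set (Closeds X) × Set (Closeds X) // IsOpen p.1 ∧ IsOpen p.2 ∧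
        WayBelow this p.1 p.2 ∧ WayBelow this p.2 (dia U)}, c z ∈ p.1.1 := fun z hz => by
      obtain ⟨O', a1, a2, a3⟩ := h _ (h1 U hU) _ ((h2 U z hU).mpr hz)
      obtain ⟨O, a4, a5, a6⟩ := h _ a1 _ a2
      exact ⟨⟨(O, O'), a4, a1, a6, a3⟩, a5⟩
    have := (h3 x hx).nonempty
    obtain ⟨p, hp⟩ := W.2.2.dir (fun p : {p : Set (Closeds X) × Set (Closeds X) // IsOpen p.1 ∧
      IsOpen p.2 ∧ WayBelow _ p.1 p.2 ∧ WayBelow _ p.2 (dia U)} =>
        p.1.1 ∩ {D | ∃ B ∉ p.1.2, ∃ B' ∉ p.1.2, D ≤ B ⊔ B'}ᶜ) (fun p q =>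
      ⟨⟨(p.1.1 ∪ q.1.1, p.1.2 ∪ q.1.2), p.2.1.union q.2.1, p.2.2.1.union q.2.2.1,
        (p.2.2.2.1.mono subset_rfl subset_union_left).union
          (q.2.2.2.1.mono subset_rfl subset_union_right), p.2.2.2.2.union q.2.2.2.2⟩,
        fun D hD => ⟨.inl hD.1, fun a => a.elim fun B a => a.2.elim fun B' a' =>
          hD.2 ⟨B, fun h => a.1 (.inl h), B', fun h => a'.1 (.inl h), a'.2⟩⟩,
        fun D hD => ⟨.inr hD.1, fun a => a.elim fun B a => a.2.elim fun B' a' =>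
          hD.2 ⟨B, fun h => a.1 (.inr h), B', fun h => a'.1 (.inr h), a'.2⟩⟩⟩)
      (fun p => p.2.1.inter (half p.2.2.1).isOpen_compl) fun D hD => by
        obtain ⟨z, a1, a2⟩ := not_subset.mp hD
        obtain ⟨p, hp⟩ := h3 z (not_not.mp a2)
        have a3 := p.2.2.2.1.subset p.2.2.1 hp
        exact mem_iUnion.mpr ⟨p, p.2.1.1 (h0 z D a1) hp, fun ⟨B, a4, B', a5, a6⟩ =>
          (a6 a1).elim (fun h => a4 (p.2.2.1.1 (h0 z B h) a3)) fun h => a5 (p.2.2.1.1 (h0 z B' h) a3)⟩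
    exact ⟨⟨p.1.2, p.2.2.1, p.2.2.2.2⟩, p.2.2.2.1.mono (hp.trans inter_subset_left) subset_rfl,
      fun B B' h4 => by_contra fun h5 => (hp h4).2 ⟨B, fun h => h5 (.inl h), B',
        fun h => h5 (.inr h), le_rfl⟩⟩
  choose G h4 h5 using h3
  obtain ⟨W₀, h6, h7, h8⟩ := h _ (h1 U hU) _ ((h2 U x hU).mpr hx)
  let W : ℕ → _ := fun k => G^[k] ⟨W₀, h6, h8⟩
  have h9 : ∀ k, W (k + 1) = G (W k) := fun k => Function.iterate_succ_apply' G k _
  have h10 : Monotone fun k => (W k).1 := monotone_nat_of_le_succ fun k =>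
    h9 k ▸ (h4 _).subset (G _).2.1
  have h11 : IsOpen (⋃ k, (W k).1) := isOpen_iUnion fun k => (W k).2.1
  have h12 : ∀ D ∈ ⋃ k, (W k).1, ∃ a ∈ D, c a ∈ ⋃ k, (W k).1 := fun D hD => by
    obtain ⟨E, a1, a2, a3⟩ := fin h11 (S := D) (h11.1 (show D ≤ _ from subset_closure) hD)
    clear hD
    induction E, a2 using Set.Finite.induction_on with
    | empty =>
      obtain ⟨k, hk⟩ := mem_iUnion.mp a3
      exact absurd (by simp) ((W k).2.2.subset (h1 U hU) hk)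
    | @insert e E _ _ ih =>
      obtain ⟨k, hk⟩ := mem_iUnion.mp a3
      rcases h5 (W k) (c e) (Closeds.closure E) ((W k).2.1.1 (show Closeds.closure _ ≤ _ from
        (closure_union (s := {e})).subset) hk) with a4 | a4 <;> rw [← h9] at a4
      exacts [⟨e, a1 (.inl rfl), mem_iUnion.mpr ⟨_, a4⟩⟩,
        ih ((subset_insert _ _).trans a1) (mem_iUnion.mpr ⟨_, a4⟩)]
  obtain ⟨k, hk⟩ : ∃ k, x ∉ closure {y | c y ∉ (W k).1} := by
    by_contra! h13
    choose E a1 a2 a3 using fun k => fin h6 (h6.1 (h0 x (Closeds.closure _) (h13 k)) h7)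
    let C : Set X := {y | c y ∉ ⋃ k, (W k).1}
    have a4 : ∀ a ∉ C, {j | a ∈ closure (E j)}.Finite := fun a ha => by
      obtain ⟨k, hk⟩ := mem_iUnion.mp (not_not.mp ha)
      refine (finite_Iio k).subset fun j hj => show j < k from lt_of_not_ge fun h14 => ?_
      rw [mem_setOf_eq, ← biUnion_of_singleton (E j), (a2 j).closure_biUnion] at hj
      obtain ⟨e, a5, a6⟩ := mem_iUnion₂.mp hj
      exact a1 j a5 ((W j).2.1.1 (h0 a (c e) a6) (h10 h14 hk))
    have a5 : IsClosed C := closure_subset_iff_isClosed.mp fun y hy h14 => by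
      obtain ⟨E, b1, b2, b3⟩ := fin h11 (h11.1 (h0 y (Closeds.closure C) hy) h14)
      obtain ⟨a, b4, b5⟩ := h12 _ b3
      rw [← SetLike.mem_coe, Closeds.coe_closure, ← biUnion_of_singleton E, b2.closure_biUnion] at b4
      obtain ⟨e, b6, b7⟩ := mem_iUnion₂.mp b4
      exact b1 b6 (h11.1 (h0 a (c e) b7) b5)
    let T : ℕ → Closeds X := fun j => Closeds.closure (E j) ⊔ ⟨C, a5⟩
    obtain ⟨k, hk⟩ := (h4 (W 0)).dir (fun k => {D | ∃ j ≥ k, D ≤ T j}ᶜ)
      (Monotone.directed_le fun _ _ h D hD ⟨j, b1, b2⟩ => hD ⟨j, h.trans b1, b2⟩)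
      (fun k => IsClosed.isOpen_compl (self := cl_iff.mpr ⟨fun _ _ h ⟨j, b1, b2⟩ =>
        ⟨j, b1, h.trans b2⟩, fun D s b1 b2 b3 b4 => by
          by_cases b5 : ∀ d ∈ D, d ≤ ⟨C, a5⟩
          · exact ⟨k, le_rfl, (b3.2 b5).trans le_sup_right⟩
          push Not at b5
          obtain ⟨d, b5, b6⟩ := b5
          obtain ⟨a, b6, b7⟩ := not_subset.mp b6
          obtain ⟨j, b8, b9⟩ := mem_iUnion₂.mp ((cl_iff.mp (((a4 a b7).inter_of_left
            (Ici k)).isClosed_biUnion fun j _ => cl_Iic (T j))).2 D s b1 b2 b3 fun d' b8 => by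
              obtain ⟨d'', b9, b10, b11⟩ := b2 d b5 d' b8
              obtain ⟨j, b12, b13⟩ := b4 b9
              exact mem_biUnion ⟨(b13 (b10 b6)).resolve_right b7, b12⟩ (b11.trans b13))
          exact ⟨j, b8.2, b9⟩⟩)) fun D hD => by
        obtain ⟨a, b1, b2⟩ := h12 D (mem_iUnion.mpr ⟨1, h9 0 ▸ hD⟩)
        obtain ⟨N, hN⟩ := (a4 a (not_not.mpr b2)).bddAbove
        exact mem_iUnion.mpr ⟨N + 1, fun ⟨j, b3, b4⟩ =>
          absurd (hN ((b4 b1).resolve_right (not_not.mpr b2))) (by omega)⟩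
    exact hk (a3 k) ⟨k, le_rfl, le_sup_left⟩
  refine ⟨_, isClosed_closure.isOpen_compl, hk, fun Γ a1 a2 => ?_⟩
  obtain ⟨F, a3, a4, a5⟩ := (W k).2.2 (dia '' Γ) (forall_mem_image.mpr fun V hV => h1 V (a1 V hV))
    fun D hD => by
      obtain ⟨z, b1, b2⟩ := not_subset.mp hD
      obtain ⟨V, b3, b4⟩ := a2 (not_not.mp b2)
      exact ⟨_, ⟨V, b3, rfl⟩, fun h => h b1 b4⟩
  obtain ⟨F, a6, a7, rfl⟩ := Finite.exists_subset_finite_image_eq a4 a3
  refine ⟨F, a6, a7, fun y hy => ?_⟩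
  obtain ⟨_, ⟨V, b1, rfl⟩, b2⟩ := a5 (not_not.mp fun h => hy (subset_closure h))
  exact ⟨V, b1, (h2 V y (a1 V (a6 b1))).mp b2⟩

end Pool.Agent.H31.CC
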