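import Pool.Agent.H31.WFDefs

namespace Pool.Agent.H31.CC

universe u

/-- `V ≪ U` -/
def WayBelow {Y : Type u} (t : TopologicalSpace Y) (V U : Set Y) : Prop :=
  ∀ G : Set (Set Y), (∀ W ∈ G, IsOpen W) → U ⊆ ⋃₀ G → ∃ F ⊆ G, F.Finite ∧ V ⊆ ⋃₀ F

def CoreCompact (Y : Type u) (t : TopologicalSpace Y) : Prop :=
  ∀ U : Set Y, IsOpen U → ∀ y ∈ U, ∃ V, IsOpen V ∧ y ∈ V ∧ WayBelow t V U

end Pool.Agent.H31.CC
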