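import Mathlib

set_option autoImplicit false

open Set Topology Filter

namespace Pool.Agent.H31.CK

/-- compact subgroup of countable index on which conjugation is equicontinuous at 1 -/
def P (H : Type) [Group H] [TopologicalSpace H] : Prop :=
  ∃ N : Subgroup H, IsCompact (N : Set H) ∧
    (∃ C : Set H, C.Countable ∧ ∀ h, ∃ c ∈ C, c⁻¹ * h ∈ N) ∧
    ∀ U ∈ 𝓝 (1 : H), ∃ V ∈ 𝓝 (1 : H), ∀ n ∈ N, n ∈ V → ∀ h : H, h * n * h⁻¹ ∈ U

theorem P_compact (H : Type) [Group H] [TopologicalSpace H] [IsTopologicalGroup H]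
    [CompactSpace H] : P H := by
  refine ⟨⊤, by simpa using isCompact_univ, ⟨{1}, countable_singleton _, fun h => ⟨1, rfl, trivial⟩⟩,
    fun U hU => ?_⟩
  have hc : Continuous fun p : H × H => p.2 * p.1 * p.2⁻¹ := by fun_prop
  have h1 : ∀ h ∈ (univ : Set H), ∀ᶠ p : H × H in 𝓝 ((1 : H), h), p.2 * p.1 * p.2⁻¹ ∈ U := by
    intro h _
    apply hc.continuousAt.preimage_mem_nhds
    simpa using hU
  have h2 := isCompact_univ.eventually_forall_of_forall_eventually
    (P := fun (n : H) (h : H) => h * n * h⁻¹ ∈ U) h1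
  exact ⟨_, h2, fun n _ hn h => hn h trivial⟩

theorem P_countable (H : Type) [Group H] [TopologicalSpace H] [Countable H] : P H := by
  refine ⟨⊥, by simp, ⟨univ, countable_univ, fun h => ⟨h, trivial, by simp⟩⟩,
    fun U hU => ⟨univ, univ_mem, fun n hn _ h => ?_⟩⟩
  rw [Subgroup.mem_bot] at hn
  subst hn
  simpa using mem_of_mem_nhds hU

theorem P_prod (H₁ : Type) [Group H₁] [TopologicalSpace H₁] (H₂ : Type) [Group H₂]
    [TopologicalSpace H₂] (h₁ : P H₁) (h₂ : P H₂) : P (H₁ × H₂) := by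
  obtain ⟨N₁, k₁, ⟨C₁, c₁, d₁⟩, e₁⟩ := h₁
  obtain ⟨N₂, k₂, ⟨C₂, c₂, d₂⟩, e₂⟩ := h₂
  refine ⟨N₁.prod N₂, by rw [Subgroup.coe_prod]; exact k₁.prod k₂,
    ⟨C₁ ×ˢ C₂, c₁.prod c₂, fun h => ?_⟩, fun U hU => ?_⟩
  · obtain ⟨a, ha, ha'⟩ := d₁ h.1
    obtain ⟨b, hb, hb'⟩ := d₂ h.2
    exact ⟨(a, b), ⟨ha, hb⟩, ⟨ha', hb'⟩⟩
  · obtain ⟨U₁, hU₁, U₂, hU₂, hU'⟩ := mem_nhds_prod_iff.1 hU
    obtain ⟨V₁, hV₁, f₁⟩ := e₁ U₁ hU₁
    obtain ⟨V₂, hV₂, f₂⟩ := e₂ U₂ hU₂
    exact ⟨V₁ ×ˢ V₂, prod_mem_nhds hV₁ hV₂, fun n hn hnV h =>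
      hU' ⟨f₁ n.1 hn.1 hnV.1 h.1, f₂ n.2 hn.2 hnV.2 h.2⟩⟩

theorem P_sub (H : Type) [Group H] [TopologicalSpace H] (L : Subgroup H)
    (hL : IsClosed (L : Set H)) (h : P H) : P L := by
  classical
  obtain ⟨N, k, ⟨C, c, d⟩, e⟩ := h
  refine ⟨N.subgroupOf L, hL.isClosedEmbedding_subtypeVal.isCompact_preimage k, ?_,
    fun U hU => ?_⟩
  · let g : H → L := fun c => if h : ∃ l : L, c⁻¹ * (l : H) ∈ N then h.choose else 1
    refine ⟨g '' C, c.image g, fun l => ?_⟩
    obtain ⟨a, ha, ha'⟩ := d l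
    refine ⟨g a, mem_image_of_mem g ha, ?_⟩
    have hex : ∃ l : L, a⁻¹ * (l : H) ∈ N := ⟨l, ha'⟩
    have h1 : a⁻¹ * (g a : H) ∈ N := by
      simp only [g, dif_pos hex]; exact hex.choose_spec
    have h2 := N.mul_mem (N.inv_mem h1) ha'
    rw [Subgroup.mem_subgroupOf]
    simpa [mul_assoc] using h2
  · obtain ⟨U', hU', hsub⟩ := (mem_nhds_subtype _ _ _).1 hU
    obtain ⟨V, hV, f⟩ := e U' hU'
    refine ⟨Subtype.val ⁻¹' V, continuous_subtype_val.continuousAt.preimage_mem_nhds hV,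
      fun n hn hnV h => hsub ?_⟩
    exact f n hn hnV h

theorem P_image (H₁ : Type) [Group H₁] [TopologicalSpace H₁] [IsTopologicalGroup H₁]
    (H₂ : Type) [Group H₂] [TopologicalSpace H₂] [T2Space H₂] (f : H₁ →* H₂) (hf : Continuous f)
    (hs : Function.Surjective f) (h : P H₁) : P H₂ := by
  obtain ⟨N, k, ⟨C, c, d⟩, e⟩ := h
  refine ⟨N.map f, by rw [Subgroup.coe_map]; exact k.image hf, ⟨f '' C, c.image f, fun y => ?_⟩,
    fun U hU => ?_⟩
  · obtain ⟨x, rfl⟩ := hs y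
    obtain ⟨a, ha, ha'⟩ := d x
    exact ⟨f a, mem_image_of_mem f ha, ⟨_, ha', by simp⟩⟩
  · obtain ⟨V, hV, g⟩ := e (f ⁻¹' U) (hf.continuousAt.preimage_mem_nhds (by simpa using hU))
    obtain ⟨W, hWV, hW, hW1⟩ := mem_nhds_iff.1 hV
    let D : Set H₁ := (N : Set H₁) ∩ ⋂ k ∈ {k | k ∈ N ∧ f k = 1}, (fun n => n * k) ⁻¹' Wᶜ
    have hD : IsCompact D := k.inter_right (isClosed_biInter fun k _ =>
      hW.isClosed_compl.preimage (continuous_mul_const k))
    have h1 : (1 : H₂) ∉ f '' D := by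
      rintro ⟨n, ⟨hn, hn'⟩, hn1⟩
      have := mem_iInter₂.1 hn' n⁻¹ ⟨N.inv_mem hn, by simp [hn1]⟩
      exact this (by simpa using hW1)
    refine ⟨(f '' D)ᶜ, (hD.image hf).isClosed.isOpen_compl.mem_nhds h1, ?_⟩
    rintro _ ⟨n, hn, rfl⟩ hnV y
    obtain ⟨x, rfl⟩ := hs y
    have h2 : n ∉ D := fun h => hnV (mem_image_of_mem f h)
    have h3 : ∃ k, (k ∈ N ∧ f k = 1) ∧ n * k ∈ W := by
      by_contra hc
      push Not at hc
      exact h2 ⟨hn, mem_iInter₂.2 fun k hk => hc k hk⟩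
    obtain ⟨k', ⟨hk, hk1⟩, hk'⟩ := h3
    have := g (n * k') (N.mul_mem hn hk) (hWV hk') x
    simpa [hk1] using this

/-- the semidirect product of the compact group of binary bi-infinite sequences with the shift -/
def G : Type := (ℤ → ZMod 2) × ℤ

instance : TopologicalSpace G := instTopologicalSpaceProd

instance : Mul G := ⟨fun x y => (fun i => x.1 i + y.1 (i - x.2), x.2 + y.2)⟩
instance : One G := ⟨(fun _ => 0, 0)⟩
instance : Inv G := ⟨fun x => (fun i => -x.1 (i + x.2), -x.2)⟩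

@[simp] theorem mul_1 (x y : G) (i : ℤ) : (x * y).1 i = x.1 i + y.1 (i - x.2) := rfl
@[simp] theorem mul_2 (x y : G) : (x * y).2 = x.2 + y.2 := rfl
@[simp] theorem one_1 (i : ℤ) : (1 : G).1 i = 0 := rfl
@[simp] theorem one_2 : (1 : G).2 = 0 := rfl
@[simp] theorem inv_1 (x : G) (i : ℤ) : (x⁻¹).1 i = -x.1 (i + x.2) := rfl
@[simp] theorem inv_2 (x : G) : (x⁻¹).2 = -x.2 := rfl

def mk (a : ℤ → ZMod 2) (n : ℤ) : G := (a, n)
@[simp] theorem mk_1 (a : ℤ → ZMod 2) (n : ℤ) : (mk a n).1 = a := rfl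
@[simp] theorem mk_2 (a : ℤ → ZMod 2) (n : ℤ) : (mk a n).2 = n := rfl

theorem G_ext {x y : G} (h1 : ∀ i, x.1 i = y.1 i) (h2 : x.2 = y.2) : x = y :=
  Prod.ext (funext h1) h2

instance : Group G := Group.ofLeftAxioms
  (fun a b c => G_ext (fun i => by simp [add_assoc, sub_sub]) (by simp [add_assoc]))
  (fun a => G_ext (fun i => by simp) (by simp))
  (fun a => G_ext (fun i => by
    rw [mul_1, inv_1, inv_2, sub_neg_eq_add, neg_add_cancel, one_1]) (by simp))

theorem cont_eval : Continuous fun p : (ℤ → ZMod 2) × ℤ => p.1 p.2 :=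
  continuous_prod_of_discrete_right.2 fun b => continuous_apply b

theorem cont1 : Continuous fun x : G => x.1 := continuous_fst
theorem cont2 : Continuous fun x : G => x.2 := continuous_snd

instance : IsTopologicalGroup G where
  continuous_mul := by
    refine Continuous.prodMk (continuous_pi fun i => ?_)
      ((cont2.comp continuous_fst).add (cont2.comp continuous_snd))
    refine ((continuous_apply i).comp (cont1.comp continuous_fst)).add ?_
    exact cont_eval.comp ((cont1.comp continuous_snd).prodMk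
      (continuous_const.sub (cont2.comp continuous_fst)))
  continuous_inv := by
    refine Continuous.prodMk (continuous_pi fun i => ?_) cont2.neg
    exact (cont_eval.comp (cont1.prodMk (continuous_const.add cont2))).neg

instance : T2Space G := inferInstanceAs (T2Space ((ℤ → ZMod 2) × ℤ))
instance : SecondCountableTopology G :=
  inferInstanceAs (SecondCountableTopology ((ℤ → ZMod 2) × ℤ))

def K : Subgroup G where
  carrier := {x | x.2 = 0}
  mul_mem' := by
    intro a b ha hb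
    simp only [mem_setOf_eq, mul_2] at *
    rw [ha, hb]; rfl
  one_mem' := rfl
  inv_mem' := by
    intro a ha
    simp only [mem_setOf_eq, inv_2] at *
    rw [ha]; rfl

theorem CK_G : ∃ K : Subgroup G, CompactSpace K ∧ TopologicalSpace.SeparableSpace K ∧
    Countable (G ⧸ K) := by
  have : SecondCountableTopology K := TopologicalSpace.Subtype.secondCountableTopology _
  refine ⟨K, ?_, inferInstance, ?_⟩
  · have : IsCompact ((univ : Set (ℤ → ZMod 2)) ×ˢ ({0} : Set ℤ)) :=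
      isCompact_univ.prod isCompact_singleton
    have e : (K : Set G) = (univ : Set (ℤ → ZMod 2)) ×ˢ ({0} : Set ℤ) := by
      ext x; exact ⟨fun h => ⟨trivial, h⟩, fun h => h.2⟩
    exact isCompact_iff_compactSpace.1 (show IsCompact (K : Set G) from e ▸ this)
  · have : Function.Surjective fun n : ℤ => (QuotientGroup.mk ((fun _ => 0, n) : G) : G ⧸ K) := by
      intro q
      obtain ⟨x, rfl⟩ := QuotientGroup.mk_surjective q
      refine ⟨x.2, QuotientGroup.eq.2 ?_⟩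
      show -x.2 + x.2 = 0
      simp
    exact this.countable

theorem not_P_G : ¬ P G := by
  rintro ⟨N, -, ⟨C, c, d⟩, e⟩
  have hU : {x : G | x.1 0 = 0} ∈ 𝓝 (1 : G) :=
    ((isOpen_discrete ({0} : Set (ZMod 2))).preimage
      ((continuous_apply 0).comp cont1)).mem_nhds rfl
  obtain ⟨V, hV, f⟩ := e _ hU
  have hc : Continuous fun a : ℤ → ZMod 2 => mk a 0 := continuous_id.prodMk continuous_const
  have hV' : (fun a : ℤ → ZMod 2 => mk a 0) ⁻¹' V ∈ 𝓝 (fun _ => 0) :=
    hc.continuousAt.preimage_mem_nhds hV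
  rw [nhds_pi, Filter.mem_pi'] at hV'
  obtain ⟨I, t, ht, hI⟩ := hV'
  choose g hg hg' using d
  have := c.to_subtype
  have hinj : Function.Injective fun a : ℤ → ZMod 2 =>
      ((⟨g (mk a 0), hg _⟩, fun i : I => a i) : C × (I → ZMod 2)) := by
    intro a b hab
    have h1 : g (mk a 0) = g (mk b 0) := congrArg (fun p => (p.1 : G)) hab
    have h2 : ∀ i ∈ I, a i = b i := fun i hi => congrFun (congrArg Prod.snd hab) ⟨i, hi⟩
    have h3 := N.mul_mem (N.inv_mem (hg' (mk a 0))) (h1 ▸ hg' (mk b 0))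
    have h4 : ((g (mk a 0))⁻¹ * mk a 0)⁻¹ * ((g (mk a 0))⁻¹ * mk b 0)
        = mk (fun i => b i - a i) 0 := by
      rw [mul_inv_rev, inv_inv, mul_assoc, mul_inv_cancel_left]
      refine G_ext (fun i => ?_) (by simp)
      simp only [mul_1, inv_1, inv_2]
      simp [sub_eq_neg_add]
    rw [h4] at h3
    have h5 : mk (fun i => b i - a i) 0 ∈ V := by
      apply hI
      intro i hi
      have : b i - a i = 0 := by rw [h2 i hi]; simp
      show b i - a i ∈ t i
      rw [this]; exact mem_of_mem_nhds (ht i)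
    funext i
    have h6 := f _ h3 h5 (mk (fun _ => 0) (-i))
    simp only [mem_setOf_eq, mul_1, inv_1, mk_1, mk_2] at h6
    simp only [zero_add, neg_zero, add_zero, zero_sub, neg_neg] at h6
    exact (sub_eq_zero.1 h6).symm
  have hcount : Countable (ℤ → ZMod 2) := hinj.countable
  have h7 : Cardinal.mk (ℤ → ZMod 2) ≤ Cardinal.aleph0 := Cardinal.mk_le_aleph0
  have h8 : Cardinal.mk (ℤ → ZMod 2) = 2 ^ Cardinal.aleph0 := by
    rw [← Cardinal.power_def, Cardinal.mk_int, Cardinal.mk_fintype, ZMod.card]; simp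
  rw [h8] at h7
  exact absurd h7 (not_le.2 (Cardinal.cantor _))

end Pool.Agent.H31.CK
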