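import Mathlib

namespace Pool.Agent.H31.CKU

open TopologicalSpace

universe u v

/-- `U` is homeomorphic to a subspace of `C_k(X,Y)` for some separable metrizable `X`, `Y`.
`C(X, Y)` carries the compact-open topology. -/
def InCM0 (U : Type u) [TopologicalSpace U] : Prop :=
  ∃ (X Y : Type v) (_ : TopologicalSpace X) (_ : TopologicalSpace Y),
    SeparableSpace X ∧ MetrizableSpace X ∧ SeparableSpace Y ∧ MetrizableSpace Y ∧
      ∃ e : U → C(X, Y), Topology.IsEmbedding e

/-- `U` is homeomorphic to a subspace of `C_k(X,Y)` for some separable metrizable `X` and some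
metrizable `Y`. -/
def InCM (U : Type u) [TopologicalSpace U] : Prop :=
  ∃ (X Y : Type v) (_ : TopologicalSpace X) (_ : TopologicalSpace Y),
    SeparableSpace X ∧ MetrizableSpace X ∧ MetrizableSpace Y ∧
      ∃ e : U → C(X, Y), Topology.IsEmbedding e

end Pool.Agent.H31.CKU
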