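import Pool.Agent.H31.Omega1

namespace Pool.Agent.H31.CL

open Set Filter Topology Omega1

theorem pseudo {𝓑 : Set (Set ℕ)} (hc : 𝓑.Countable) (hi : ∀ B ∈ 𝓑, B.Infinite)
    (hl : ∀ B ∈ 𝓑, ∀ B' ∈ 𝓑, (B \ B').Finite ∨ (B' \ B).Finite) :
    ∃ c : Set ℕ, c.Infinite ∧ ∀ B ∈ 𝓑, (c \ B).Finite := by
  obtain ⟨B, hB⟩ := (hc.insert univ).exists_eq_range (insert_nonempty _ _)
  have h1 : ∀ n, ∃ D ∈ insert univ 𝓑, ∀ k < n, (D \ B k).Finite := by
    intro n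
    induction n with
    | zero => exact ⟨univ, Or.inl rfl, fun k hk => absurd hk (Nat.not_lt_zero k)⟩
    | succ n ih =>
      obtain ⟨D, hD, h⟩ := ih
      have hn : B n ∈ insert univ 𝓑 := hB ▸ mem_range_self n
      have h2 : (D \ B n).Finite ∨ (B n \ D).Finite := by
        rcases hD with rfl | hD
        · exact Or.inr (by simp)
        · rcases hn with hn | hn
          · exact Or.inl (by simp [hn])
          · exact hl _ hD _ hn
      rcases h2 with h2 | h2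
      · refine ⟨D, hD, fun k hk => ?_⟩
        rcases Nat.lt_succ_iff_lt_or_eq.mp hk with h3 | rfl
        · exact h k h3
        · exact h2
      · refine ⟨B n, hn, fun k hk => ?_⟩
        rcases Nat.lt_succ_iff_lt_or_eq.mp hk with h3 | rfl
        · exact (h2.union (h k h3)).subset fun x hx => by
            by_cases hxD : x ∈ D
            · exact Or.inr ⟨hxD, hx.2⟩
            · exact Or.inl ⟨hx.1, hxD⟩
        · simp
  have h2 : ∀ n, ∃ m, n < m ∧ ∀ k < n, m ∈ B k := by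
    intro n
    obtain ⟨D, hD, h⟩ := h1 n
    have h3 : D.Infinite := by
      rcases hD with rfl | hD
      · exact infinite_univ
      · exact hi _ hD
    obtain ⟨m, hm, hm'⟩ := h3.exists_notMem_finite
      (((finite_Iio n).biUnion h).union (finite_Iic n))
    refine ⟨m, not_le.mp fun h4 => hm' (Or.inr h4), fun k hk => ?_⟩
    by_contra h4
    exact hm' (Or.inl (mem_biUnion hk ⟨hm, h4⟩))
  choose f hf hf' using h2
  refine ⟨range f, infinite_of_forall_exists_gt fun n => ⟨f n, ⟨n, rfl⟩, hf n⟩, fun D hD => ?_⟩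
  obtain ⟨k, rfl⟩ : D ∈ range B := hB ▸ Or.inr hD
  refine ((finite_Iic k).image f).subset ?_
  rintro _ ⟨⟨n, rfl⟩, hn⟩
  exact ⟨n, not_lt.mp fun h => hn (hf' n k h), rfl⟩

theorem half {c : Set ℕ} (hc : c.Infinite) : ∃ b ⊆ c, b.Infinite ∧ (c \ b).Infinite := by
  let e := hc.natEmbedding
  have he : Function.Injective fun n => (e n : ℕ) := Subtype.val_injective.comp e.injective
  refine ⟨range fun n => (e (2 * n) : ℕ), by rintro _ ⟨n, rfl⟩; exact (e _).2,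
    infinite_range_of_injective fun m n h => by have := he h; omega,
    infinite_of_injective_forall_mem (f := fun n => (e (2 * n + 1) : ℕ))
      (fun m n h => by have := he h; omega) fun n => ⟨(e _).2, ?_⟩⟩
  rintro ⟨m, hm⟩
  have := he hm
  omega

/-- a strictly increasing maximal tower of length omega one -/
structure Tw where
  a : W → Set ℕ
  bot : a ⊥ = ∅
  mono : ∀ γ α, γ ≤ α → (a γ \ a α).Finite
  strict : ∀ γ α, γ < α → (a α \ a γ).Infinite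
  coinf : ∀ α, (a α)ᶜ.Infinite
  maxl : ∀ A : Set ℕ, A.Infinite → ∃ α, (A ∩ a α).Infinite

theorem exists_tw (A : W → Set ℕ) (hA : Function.Surjective A) : Nonempty Tw := by
  classical
  have step : ∀ (𝓑 : Set (Set ℕ)) (A : Set ℕ), ∃ b : Set ℕ, 𝓑.Countable →
      (∀ B ∈ 𝓑, B.Infinite) → (∀ B ∈ 𝓑, ∀ B' ∈ 𝓑, (B \ B').Finite ∨ (B' \ B).Finite) →
      b.Infinite ∧ (∀ B ∈ 𝓑, (b \ B).Finite ∧ (B \ b).Infinite) ∧
        (A.Infinite → (A \ b).Infinite) := by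
    intro 𝓑 A
    by_cases h : 𝓑.Countable ∧ (∀ B ∈ 𝓑, B.Infinite) ∧
      (∀ B ∈ 𝓑, ∀ B' ∈ 𝓑, (B \ B').Finite ∨ (B' \ B).Finite)
    swap
    · exact ⟨∅, fun h1 h2 h3 => absurd ⟨h1, h2, h3⟩ h⟩
    obtain ⟨c, hc, hc'⟩ := pseudo h.1 h.2.1 h.2.2
    have h1 : ∀ b ⊆ c, (c \ b).Infinite → ∀ B ∈ 𝓑, (b \ B).Finite ∧ (B \ b).Infinite := by
      intro b hb h2 B hB
      refine ⟨(hc' B hB).subset (diff_subset_diff_left hb), (h2.diff (hc' B hB)).mono ?_⟩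
      exact fun x hx => ⟨not_not.mp fun h3 => hx.2 ⟨hx.1.1, h3⟩, hx.1.2⟩
    by_cases h2 : (A ∩ c).Infinite
    · obtain ⟨b, h3, h4, h5⟩ := half h2
      exact ⟨b, fun _ _ _ => ⟨h4, h1 b (h3.trans inter_subset_right)
        (h5.mono (diff_subset_diff_left inter_subset_right)),
        fun _ => h5.mono (diff_subset_diff_left inter_subset_left)⟩⟩
    · obtain ⟨b, h3, h4, h5⟩ := half hc
      exact ⟨b, fun _ _ _ => ⟨h4, h1 b h3 h5, fun h6 => (h6.diff (not_infinite.mp h2)).mono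
        fun x hx => ⟨hx.1, fun h7 => hx.2 ⟨hx.1, h3 h7⟩⟩⟩⟩
  choose s hs using step
  let b : W → Set ℕ := (wellFounded_lt (α := W)).fix fun α ih =>
    s (range fun β : Iio α => ih β β.2) (A α)
  have hb : ∀ α, b α = s (range fun β : Iio α => b β) (A α) := fun α =>
    (wellFounded_lt (α := W)).fix_eq _ α
  have key : ∀ α, (b α).Infinite ∧ (∀ β < α, (b α \ b β).Finite ∧ (b β \ b α).Infinite) ∧
      ((A α).Infinite → (A α \ b α).Infinite) := by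
    intro α
    induction α using WellFoundedLT.induction with
    | _ α ih =>
    haveI := (countable_Iio α).to_subtype
    have := hs (range fun β : Iio α => b β) (A α) (countable_range _)
      (by rintro _ ⟨β, rfl⟩; exact (ih β β.2).1) (by
        rintro _ ⟨β, rfl⟩ _ ⟨β', rfl⟩
        rcases lt_trichotomy (β : W) β' with h | h | h
        · exact Or.inr ((ih β' β'.2).2.1 β h).1
        · simp [h]
        · exact Or.inl ((ih β β.2).2.1 β' h).1)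
    rw [← hb] at this
    exact ⟨this.1, fun β hβ => this.2.1 _ ⟨⟨β, hβ⟩, rfl⟩, this.2.2⟩
  refine ⟨⟨fun α => if α = ⊥ then ∅ else (b α)ᶜ, if_pos rfl, ?_, ?_, ?_, ?_⟩⟩
  · intro γ α h
    rcases h.eq_or_lt with rfl | h
    · simp
    · rw [if_neg h.ne_bot]
      split_ifs
      · simp
      · rw [compl_sdiff_compl]
        exact ((key α).2.1 γ h).1
  · intro γ α h
    rw [if_neg h.ne_bot]
    split_ifs
    · exact ((key α).2.1 γ h).2.mono fun x hx => ⟨hx.2, id⟩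
    · rw [compl_sdiff_compl]
      exact ((key α).2.1 γ h).2
  · intro α
    split_ifs
    · simpa using infinite_univ
    · rw [compl_compl]
      exact (key α).1
  · intro B hB
    obtain ⟨ξ, rfl⟩ := hA B
    obtain ⟨α, hα⟩ := exists_gt ξ
    refine ⟨α, ?_⟩
    rw [if_neg hα.ne_bot]
    exact (((key ξ).2.2 hB).diff ((key α).2.1 ξ hα).1).mono fun x hx =>
      ⟨hx.1.1, fun h => hx.2 ⟨h, hx.1.2⟩⟩

/-- the Franklin-Rajagopalan space of a tower -/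
inductive K (T : Tw) : Type
  | n : ℕ → K T
  | o : W → K T

variable {T : Tw}

instance : TopologicalSpace (K T) where
  IsOpen U := ∀ α, K.o α ∈ U → α ≠ ⊥ → ∃ γ < α, (∀ β, γ < β → β ≤ α → K.o β ∈ U) ∧
    {i | i ∈ T.a α ∧ i ∉ T.a γ ∧ K.n i ∉ U}.Finite
  isOpen_univ := fun α _ h => ⟨⊥, bot_lt_iff_ne_bot.mpr h, fun _ _ _ => trivial, by simp⟩
  isOpen_inter := fun U V hU hV α h h0 => by
    obtain ⟨γ, h1, h2, h3⟩ := hU α h.1 h0
    obtain ⟨δ, h4, h5, h6⟩ := hV α h.2 h0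
    refine ⟨max γ δ, max_lt h1 h4, fun β h7 h8 => ⟨h2 β (max_lt_iff.mp h7).1 h8,
      h5 β (max_lt_iff.mp h7).2 h8⟩, ((h3.union h6).union ((T.mono _ _ (le_max_left γ δ)).union
        (T.mono _ _ (le_max_right γ δ)))).subset fun i hi => ?_⟩
    simp only [mem_setOf_eq, mem_inter_iff, mem_union, mem_diff] at hi ⊢
    tauto
  isOpen_sUnion := fun S hS α ⟨U, hU, h⟩ h0 => by
    obtain ⟨γ, h1, h2, h3⟩ := hS U hU α h h0
    exact ⟨γ, h1, fun β h4 h5 => ⟨U, hU, h2 β h4 h5⟩,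
      h3.subset fun i hi => ⟨hi.1, hi.2.1, fun h6 => hi.2.2 ⟨U, hU, h6⟩⟩⟩

theorem K.open_of {O O' : Set (K T)} (hO : IsOpen O) (h : O ⊆ O')
    (h' : ∀ α, K.o α ∈ O' → K.o α ∈ O) : IsOpen O' := fun α hα h0 => by
  obtain ⟨γ, h1, h2, h3⟩ := hO α (h' α hα) h0
  exact ⟨γ, h1, fun β h4 h5 => h (h2 β h4 h5),
    h3.subset fun i hi => ⟨hi.1, hi.2.1, fun h6 => hi.2.2 (h h6)⟩⟩

theorem K.open_nat {O : Set (K T)} (h : ∀ α, K.o α ∉ O) : IsOpen O := fun α hα => absurd hα (h α)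

theorem K.open_bot : IsOpen ({K.o ⊥} : Set (K T)) := fun α hα h0 => by
  cases hα; exact absurd rfl h0

/-- basic neighbourhoods -/
def Nb (γ α : W) (F : Set ℕ) : Set (K T) := fun k => match k with
  | K.n i => i ∈ T.a α ∧ i ∉ T.a γ ∧ i ∉ F
  | K.o β => γ < β ∧ β ≤ α

theorem Nb_clopen (γ α : W) {F : Set ℕ} (hF : F.Finite) : IsClopen (Nb γ α F : Set (K T)) := by
  refine ⟨⟨fun β hβ h0 => ?_⟩, fun β hβ _ => ⟨γ, hβ.1, fun δ h1 h2 => ⟨h1, h2.trans hβ.2⟩,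
    ((T.mono _ _ hβ.2).union hF).subset fun i hi => ?_⟩⟩
  · by_cases h : β ≤ γ
    · refine ⟨⊥, bot_lt_iff_ne_bot.mpr h0, fun δ _ h2 h3 => absurd (h2.trans h) (not_le.mpr h3.1),
        (T.mono _ _ h).subset fun i hi => ⟨hi.1, (not_not.mp hi.2.2 :).2.1⟩⟩
    · have h1 : α < β := not_le.mp fun h2 => hβ ⟨not_le.mp h, h2⟩
      exact ⟨α, h1, fun δ h2 _ h3 => absurd h3.2 (not_le.mpr h2),
        finite_empty.subset fun i hi => hi.2.1 (not_not.mp hi.2.2 :).1⟩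
  · by_cases h : i ∈ F
    · exact Or.inr h
    · exact Or.inl ⟨hi.1, fun h1 => hi.2.2 ⟨h1, hi.2.1, h⟩⟩

theorem exists_Nb {U : Set (K T)} (hU : IsOpen U) {α : W} (h : K.o α ∈ U) (h0 : α ≠ ⊥) :
    ∃ γ < α, ∃ F : Finset ℕ, Nb γ α F ⊆ U := by
  obtain ⟨γ, h1, h2, h3⟩ := hU α h h0
  refine ⟨γ, h1, h3.toFinset, ?_⟩
  rintro (i | β) hk
  · by_contra h4
    exact hk.2.2 (h3.mem_toFinset.mpr ⟨hk.1, hk.2.1, h4⟩)
  · exact h2 β hk.1 hk.2

instance : T1Space (K T) := ⟨fun k => ⟨fun α hα h0 => by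
  rcases k with i | β
  · exact ⟨⊥, bot_lt_iff_ne_bot.mpr h0, fun _ _ _ h => (by cases h),
      (finite_singleton i).subset fun j hj => K.n.inj (not_not.mp hj.2.2)⟩
  · by_cases h : β < α
    · exact ⟨β, h, fun δ h1 _ h2 => h1.ne' (K.o.inj h2),
        finite_empty.subset fun j hj => hj.2.2 fun h => by cases h⟩
    · exact ⟨⊥, bot_lt_iff_ne_bot.mpr h0, fun δ _ h1 h2 => hα (congrArg K.o
        (le_antisymm (not_lt.mp h) (K.o.inj h2 ▸ h1))),
        finite_empty.subset fun j hj => hj.2.2 fun h => by cases h⟩⟩⟩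

theorem K.basis (α : W) : ∃ 𝓝' : Set (Set (K T)), 𝓝'.Countable ∧
    (∀ N ∈ 𝓝', IsOpen N ∧ K.o α ∈ N) ∧ ∀ U, IsOpen U → K.o α ∈ U → ∃ N ∈ 𝓝', N ⊆ U := by
  by_cases h0 : α = ⊥
  · subst h0
    exact ⟨{{K.o ⊥}}, countable_singleton _, by rintro _ rfl; exact ⟨K.open_bot, rfl⟩,
      fun U _ h => ⟨_, rfl, singleton_subset_iff.mpr h⟩⟩
  · refine ⟨(fun p : W × Finset ℕ => Nb p.1 α p.2) '' (Iio α ×ˢ univ),
      ((countable_Iio α).prod countable_univ).image _, ?_, fun U hU h => ?_⟩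
    · rintro _ ⟨p, hp, rfl⟩
      exact ⟨(Nb_clopen _ _ p.2.finite_toSet).isOpen, hp.1, le_rfl⟩
    · obtain ⟨γ, h1, F, h2⟩ := exists_Nb hU h h0
      exact ⟨_, ⟨(γ, F), ⟨h1, trivial⟩, rfl⟩, h2⟩

theorem K.fin {U : Set (K T)} (hU : IsOpen U) (h : ∀ α, K.o α ∈ U) : {i | K.n i ∉ U}.Finite := by
  by_contra hA
  obtain ⟨α, hα, hm⟩ := WellFounded.has_min (wellFounded_lt (α := W))
    {α | ({i | K.n i ∉ U} ∩ T.a α).Infinite} (T.maxl _ hA)
  have h0 : α ≠ ⊥ := by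
    rintro rfl
    simp [T.bot] at hα
  obtain ⟨γ, h1, -, h3⟩ := hU α (h α) h0
  refine hα ((h3.union (not_infinite.mp fun h4 => hm γ h4 h1)).subset fun i hi => ?_)
  by_cases h5 : i ∈ T.a γ
  · exact Or.inr ⟨hi.1, h5⟩
  · exact Or.inl ⟨hi.2, h5, hi.1⟩

theorem K.inf {U : Set (K T)} (hU : IsOpen U) {α : W} (h : K.o α ∈ U) (h0 : α ≠ ⊥) :
    {i | K.n i ∈ U}.Infinite := by
  obtain ⟨γ, h1, -, h3⟩ := hU α h h0
  exact ((T.strict γ α h1).diff h3).mono fun i hi =>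
    not_not.mp fun h4 => hi.2 ⟨hi.1.1, hi.1.2, h4⟩

/-- initial segments -/
def V (α : W) : Set (K T) := fun k => match k with
  | K.n i => i ∈ T.a α
  | K.o β => β ≤ α

theorem V_open (α : W) : IsOpen (V α : Set (K T)) := fun β hβ h0 =>
  ⟨⊥, bot_lt_iff_ne_bot.mpr h0, fun _ _ h => h.trans hβ,
    (T.mono _ _ hβ).subset fun _ hi => ⟨hi.1, hi.2.2⟩⟩

theorem K.bdd {A B : Set (K T)} (hA : IsClosed A) (hB : IsClosed B) (h : Disjoint A B) :
    (∃ α, ∀ β, K.o β ∈ A → β ≤ α) ∨ ∃ α, ∀ β, K.o β ∈ B → β ≤ α := by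
  by_contra hcon
  push Not at hcon
  choose f hf hf' using hcon.1
  choose g hg hg' using hcon.2
  let u : ℕ → W := fun n => (fun x => g (f x))^[n] ⊥
  have hu : ∀ n, u (n + 1) = g (f (u n)) := fun n => Function.iterate_succ_apply' _ _ _
  obtain ⟨l, hl, hm⟩ := WellFounded.has_min (wellFounded_lt (α := W))
    {l | ∀ n, u n < l} (exists_bound_seq u)
  have h0 : l ≠ ⊥ := (hl 0).ne_bot
  have key : ∀ C : Set (K T), IsClosed C → (∀ n, ∃ β, K.o β ∈ C ∧ u n < β ∧ β ≤ u (n + 1)) →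
      K.o l ∈ C := by
    intro C hC h1
    by_contra h2
    obtain ⟨γ, h3, h4, -⟩ := hC.isOpen_compl l h2 h0
    have h5 : ∃ n, γ ≤ u n := by
      by_contra h5
      push Not at h5
      exact hm γ h5 h3
    obtain ⟨n, hn⟩ := h5
    obtain ⟨β, h6, h7, h8⟩ := h1 n
    exact h4 β (hn.trans_lt h7) (h8.trans (hl _).le) h6
  exact Set.disjoint_left.mp h
    (key A hA fun n => ⟨f (u n), hf _, hf' _, hu n ▸ (hg' _).le⟩)
    (key B hB fun n => ⟨g (f (u n)), hg _, (hf' _).trans (hg' _), (hu n).ge⟩)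

theorem K.sep1 {A B : Set (K T)} (hA : IsClosed A) (hB : IsClosed B) (h : Disjoint A B) (α : W) :
    ∃ C, IsClopen C ∧ (∀ β ≤ α, K.o β ∈ A → K.o β ∈ C) ∧ Disjoint C B := by
  induction α using WellFoundedLT.induction with
  | _ α ih =>
  by_cases h0 : α = ⊥
  · subst h0
    by_cases h1 : K.o ⊥ ∈ A
    · exact ⟨{K.o ⊥}, ⟨isClosed_singleton, K.open_bot⟩, fun β hβ _ => by
        rw [le_bot_iff.mp hβ]; rfl, disjoint_singleton_left.mpr (Set.disjoint_left.mp h h1)⟩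
    · exact ⟨∅, isClopen_empty, fun β hβ h2 => absurd (le_bot_iff.mp hβ ▸ h2) h1,
        empty_disjoint _⟩
  by_cases h1 : K.o α ∈ A
  · obtain ⟨γ, h2, F, h3⟩ := exists_Nb hB.isOpen_compl (Set.disjoint_left.mp h h1) h0
    obtain ⟨C, h4, h5, h6⟩ := ih γ h2
    refine ⟨C ∪ Nb γ α F, h4.union (Nb_clopen _ _ F.finite_toSet), fun β hβ h7 => ?_,
      disjoint_union_left.mpr ⟨h6, Set.disjoint_left.mpr h3⟩⟩
    by_cases h8 : β ≤ γ
    · exact Or.inl (h5 β h8 h7)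
    · exact Or.inr ⟨not_le.mp h8, hβ⟩
  · obtain ⟨γ, h2, h3, -⟩ := hA.isOpen_compl α h1 h0
    obtain ⟨C, h4, h5, h6⟩ := ih γ h2
    exact ⟨C, h4, fun β hβ h7 => h5 β (not_lt.mp fun h8 => h3 β h8 hβ h7) h7, h6⟩

theorem K.sep2 {A B : Set (K T)} (hA : IsClosed A) (hB : IsClosed B) (h : Disjoint A B) {α : W}
    (hα : ∀ β, K.o β ∈ A → β ≤ α) : ∃ C, IsClopen C ∧ A ⊆ C ∧ Disjoint C B := by
  obtain ⟨C, h1, h2, h3⟩ := K.sep1 hA hB h α
  have h4 := K.fin (hA.isOpen_compl.union h1.isOpen) fun β => by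
    by_cases h5 : K.o β ∈ A
    · exact Or.inr (h2 β (hα β h5) h5)
    · exact Or.inl h5
  refine ⟨C ∪ K.n '' {i | K.n i ∉ Aᶜ ∪ C}, h1.union ⟨(h4.image _).isClosed,
    K.open_nat (by rintro _ ⟨_, _, h⟩; cases h)⟩, ?_, disjoint_union_left.mpr ⟨h3, ?_⟩⟩
  · rintro (i | β) hk
    · by_cases h5 : K.n i ∈ C
      · exact Or.inl h5
      · exact Or.inr ⟨i, fun h6 => h6.elim (fun h7 => h7 hk) h5, rfl⟩
    · exact Or.inl (h2 β (hα β hk) hk)
  · refine h.mono_left ?_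
    rintro _ ⟨i, hi, rfl⟩
    exact not_not.mp fun h5 => hi (Or.inl h5)

theorem K.sep {A B : Set (K T)} (hA : IsClosed A) (hB : IsClosed B) (h : Disjoint A B) :
    ∃ C, IsClopen C ∧ A ⊆ C ∧ Disjoint C B := by
  rcases K.bdd hA hB h with ⟨α, hα⟩ | ⟨α, hα⟩
  · exact K.sep2 hA hB h hα
  · obtain ⟨C, h1, h2, h3⟩ := K.sep2 hB hA h.symm hα
    exact ⟨Cᶜ, h1.compl, h3.subset_compl_left, disjoint_compl_left_iff_subset.mpr h2⟩

end Pool.Agent.H31.CL
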