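import Pool.Agent.H31.CLDefs
import Pool.Agent.H31.CLK

namespace Pool.Agent.H31.CL

open Set Filter Topology Omega1 PiNat

/-- points of the tree space -/
inductive X (T : Tw) {J : Type} (x : J → ℕ → ℕ) : Type
  | p : J → X T x
  | q : List ℕ → W → X T x

variable {T : Tw} {J : Type} {x : J → ℕ → ℕ}

/-- the point lies in the cone of the node -/
def nd : X T x → List ℕ → Prop
  | X.p j, t => res (x j) t.length = t
  | X.q s _, t => t <:+ s

/-- position of a point at a node -/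
def At (z : X T x) (s : List ℕ) : K T → Prop
  | K.n i => nd z (i :: s)
  | K.o α => z = X.q s α

/-- trace at a node -/
def tr (s : List ℕ) (U : Set (X T x)) : Set (K T) := {k | ∀ z, At z s k → z ∈ U}

/-- lift from a node -/
def lift (s : List ℕ) (N : Set (K T)) : Set (X T x) := {z | ∃ k ∈ N, At z s k}

instance : TopologicalSpace (X T x) where
  IsOpen U := ∀ s, IsOpen (tr s U)
  isOpen_univ := fun s => by
    convert isOpen_univ
    exact eq_univ_of_forall fun _ _ _ => trivial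
  isOpen_inter := fun U V hU hV s => by
    convert (hU s).inter (hV s)
    exact Subset.antisymm (fun k hk => ⟨fun z hz => (hk z hz).1, fun z hz => (hk z hz).2⟩)
      fun k hk z hz => ⟨hk.1 z hz, hk.2 z hz⟩
  isOpen_sUnion := fun S hS s => by
    refine K.open_of (isOpen_biUnion (s := S) fun U hU => hS U hU s)
      (iUnion₂_subset fun U hU k hk z hz => ⟨U, hU, hk z hz⟩) fun α h => ?_
    obtain ⟨U, hU, h1⟩ := h (X.q s α) rfl
    exact mem_biUnion hU fun z hz => hz ▸ h1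

theorem res_suffix (y : ℕ → ℕ) {m n : ℕ} (h : m ≤ n) : res y m <:+ res y n := by
  induction h with
  | refl => exact List.suffix_refl _
  | step _ ih => exact ih.trans (List.suffix_cons _ _)

theorem nd_le {z : X T x} {t t' : List ℕ} (h : nd z t) (h' : nd z t')
    (hl : t.length ≤ t'.length) : t <:+ t' := by
  rcases z with j | ⟨s, α⟩
  · rw [← show res (x j) t.length = t from h, ← show res (x j) t'.length = t' from h']
    exact res_suffix _ hl
  · exact List.suffix_of_suffix_length_le h h' hl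

theorem nd_mono {z : X T x} {t t' : List ℕ} (h' : nd z t') (h : t <:+ t') : nd z t := by
  rcases z with j | ⟨s, α⟩
  · have h1 := res_suffix (x j) h.length_le
    rw [show res (x j) t'.length = t' from h'] at h1
    exact (List.suffix_of_suffix_length_le h1 h (by simp)).eq_of_length (by simp)
  · exact h.trans h'

theorem At.nd {z : X T x} {s : List ℕ} {k : K T} (h : At z s k) : nd z s := by
  rcases k with i | α
  · exact nd_mono h (List.suffix_cons _ _)
  · rw [show z = X.q s α from h]; exact List.suffix_refl _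

theorem At.uniq {z : X T x} {s : List ℕ} {k k' : K T} (h : At z s k) (h' : At z s k') :
    k = k' := by
  have key : ∀ i α, At z s (K.n i) → ¬ At z s (K.o α) := by
    intro i α h h'
    rw [show z = X.q s α from h'] at h
    have := List.IsSuffix.length_le h
    simp at this
  rcases k with i | α <;> rcases k' with j | β
  · rw [(List.cons.inj ((nd_le h h' le_rfl).eq_of_length rfl)).1]
  · exact absurd h' (key _ _ h)
  · exact absurd h (key _ _ h')
  · rw [(X.q.inj (Eq.trans (Eq.symm h) h')).2]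

theorem lift_open (s : List ℕ) {N : Set (K T)} (hN : IsOpen N) :
    IsOpen (lift s N : Set (X T x)) := by
  intro t
  by_cases h : t = s
  · subst h
    refine K.open_of hN (fun k hk z hz => ⟨k, hk, hz⟩) fun α hα => ?_
    obtain ⟨k, hk, h1⟩ := hα (X.q t α) rfl
    exact h1.uniq (k' := K.o α) rfl ▸ hk
  · by_cases h1 : ∃ α, K.o α ∈ tr t (lift s N : Set (X T x))
    · obtain ⟨α, hα⟩ := h1
      obtain ⟨i | β, hk, h2⟩ := hα (X.q t α) rfl
      · convert isOpen_univ
        exact eq_univ_of_forall fun k z hz => ⟨_, hk, nd_mono hz.nd h2⟩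
      · exact absurd (X.q.inj h2).1 h
    · exact K.open_nat fun α hα => h1 ⟨α, hα⟩

theorem open_p {U : Set (X T x)} (h : ∀ s α, X.q s α ∉ U) : IsOpen U := fun s =>
  K.open_nat fun α hα => h s α (hα _ rfl)

theorem tr_compl (s : List ℕ) (C : Set (X T x)) : tr s Cᶜ = {k | ∃ z ∈ C, At z s k}ᶜ := by
  ext k
  exact ⟨fun h ⟨z, hz, h1⟩ => h z h1 hz, fun h z h1 hz => h ⟨z, hz, h1⟩⟩

instance : T1Space (X T x) := ⟨fun z => ⟨fun s => by
  rw [tr_compl]
  refine (Set.Subsingleton.isClosed ?_).isOpen_compl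
  rintro k ⟨_, rfl, h⟩ k' ⟨_, rfl, h'⟩
  exact h.uniq h'⟩⟩

theorem copy_closed (s : List ℕ) : IsClosed (range (X.q s) : Set (X T x)) := ⟨fun t => by
  by_cases h : t = s
  · subst h
    exact K.open_nat fun α hα => hα _ rfl ⟨α, rfl⟩
  · rw [tr_compl]
    refine (Set.Subsingleton.isClosed ?_).isOpen_compl
    rintro (i | α) ⟨_, ⟨β, rfl⟩, h1⟩ k' ⟨_, ⟨γ, rfl⟩, h2⟩
    · rcases k' with j | δ
      · exact At.uniq (z := X.q s β) h1 h2
      · exact absurd (X.q.inj h2).1.symm h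
    · exact absurd (X.q.inj h1).1.symm h⟩

instance : FirstCountableTopology (X T x) := ⟨fun z => by
  rcases z with j | ⟨s, α⟩
  · rw [(isOpen_singleton_iff_nhds_eq_pure _).mp (open_p fun _ _ h => by cases h)]
    infer_instance
  · obtain ⟨B, h1, h2, h3⟩ := K.basis (T := T) α
    refine HasCountableBasis.isCountablyGenerated (p := (· ∈ B)) (s := lift s) ⟨⟨fun U => ?_⟩, h1⟩
    constructor
    · intro hU
      obtain ⟨O, h4, h5, h6⟩ := mem_nhds_iff.mp hU
      obtain ⟨N, h7, h8⟩ := h3 _ (h5 s) fun z hz => hz ▸ h6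
      exact ⟨N, h7, fun z ⟨k, hk, hz⟩ => h4 (h8 hk z hz)⟩
    · rintro ⟨N, h4, h5⟩
      exact mem_of_superset ((lift_open s (h2 N h4).1).mem_nhds ⟨_, (h2 N h4).2, rfl⟩) h5⟩

/-- nodes all of whose steps are exceptional -/
def live (E : List ℕ → Set ℕ) : List ℕ → Prop
  | [] => True
  | i :: s => live E s ∧ i ∈ E s

theorem live_suffix {E : List ℕ → Set ℕ} {s t : List ℕ} (h : live E s) (ht : t <:+ s) :
    live E t := by
  induction s with
  | nil => rwa [List.suffix_nil.mp ht]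
  | cons i s ih =>
    rcases List.suffix_cons_iff.mp ht with rfl | h1
    · exact h
    · exact ih h.1 h1

theorem live_or (E : List ℕ → Set ℕ) (s : List ℕ) :
    live E s ∨ ∃ t i, live E t ∧ i :: t <:+ s ∧ i ∉ E t := by
  induction s with
  | nil => exact Or.inl trivial
  | cons i s ih =>
    rcases ih with h | ⟨t, j, h1, h2, h3⟩
    · by_cases h1 : i ∈ E s
      · exact Or.inl ⟨h, h1⟩
      · exact Or.inr ⟨s, i, h, List.suffix_refl _, h1⟩
    · exact Or.inr ⟨t, j, h1, h2.trans (List.suffix_cons _ _), h3⟩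

theorem step_of {z : X T x} {s t : List ℕ} {k : K T} (h : At z s k) (ht : nd z t)
    (hl : s.length < t.length) : ∃ i, k = K.n i ∧ i :: s <:+ t := by
  rcases k with i | α
  · exact ⟨i, rfl, nd_le h ht hl⟩
  · rw [show z = X.q s α from h] at ht
    exact absurd (List.IsSuffix.length_le ht) (not_le.mpr hl)

instance : NormalSpace (X T x) := ⟨fun A B hA hB hAB => by
  let a : List ℕ → Set (K T) := fun s => {k | ∃ z ∈ A, At z s k}
  let b : List ℕ → Set (K T) := fun s => {k | ∃ z ∈ B, At z s k}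
  have ha : ∀ s, IsClosed (a s) := fun s => ⟨tr_compl s A ▸ hA.isOpen_compl s⟩
  have hb : ∀ s, IsClosed (b s) := fun s => ⟨tr_compl s B ▸ hB.isOpen_compl s⟩
  have h0 : ∀ s α, K.o α ∉ a s ∩ b s := by
    rintro s α ⟨⟨z, h1, h2⟩, z', h3, h4⟩
    exact Set.disjoint_left.mp hAB h1 ((Eq.trans h4 (Eq.symm h2) : z' = z) ▸ h3)
  have h1 : ∀ s, IsClopen (a s ∩ b s) := fun s => ⟨(ha s).inter (hb s), K.open_nat (h0 s)⟩
  choose C hC hC1 hC2 using fun s => K.sep ((ha s).sdiff (h1 s).isOpen)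
    ((hb s).sdiff (h1 s).isOpen) (Set.disjoint_left.mpr fun k h2 h3 => h2.2 ⟨h2.1, h3.1⟩)
  let E : List ℕ → Set ℕ := fun s => {i | K.n i ∈ a s ∩ b s}
  have dec : ∀ s α, ∃ t k, live E t ∧ At (X.q s α : X T x) t k ∧ k ∉ a t ∩ b t := by
    intro s α
    rcases live_or E s with h | ⟨t, i, h2, h3, h4⟩
    · exact ⟨s, K.o α, h, rfl, h0 s α⟩
    · exact ⟨t, K.n i, h2, h3, h4⟩
  have uniq : ∀ (z : X T x) s t k l, live E s → live E t → At z s k → At z t l → k ∉ a s ∩ b s →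
      l ∉ a t ∩ b t → s = t := by
    intro z s t k l h2 h3 h4 h5 h6 h7
    rcases lt_trichotomy s.length t.length with h | h | h
    · obtain ⟨i, rfl, h8⟩ := step_of h4 h5.nd h
      exact absurd (live_suffix h3 h8).2 h6
    · exact (nd_le h4.nd h5.nd h.le).eq_of_length h
    · obtain ⟨i, rfl, h8⟩ := step_of h5 h4.nd h
      exact absurd (live_suffix h2 h8).2 h7
  refine ⟨(⋃ s ∈ {s | live E s}, lift s (C s \ (a s ∩ b s))) ∪ A ∩ range X.p,
    (⋃ s ∈ {s | live E s}, lift s ((C s)ᶜ \ (a s ∩ b s))) ∪ B ∩ range X.p,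
    (isOpen_biUnion fun s _ => lift_open s ((hC s).isOpen.sdiff (h1 s).isClosed)).union
      (open_p (by rintro _ _ ⟨-, _, h⟩; cases h)),
    (isOpen_biUnion fun s _ => lift_open s ((hC s).compl.isOpen.sdiff (h1 s).isClosed)).union
      (open_p (by rintro _ _ ⟨-, _, h⟩; cases h)), ?_, ?_, ?_⟩
  · rintro (j | ⟨s, α⟩) hz
    · exact Or.inr ⟨hz, j, rfl⟩
    · obtain ⟨t, k, h2, h3, h4⟩ := dec s α
      exact Or.inl (mem_biUnion h2 ⟨k, ⟨hC1 t ⟨⟨_, hz, h3⟩, h4⟩, h4⟩, h3⟩)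
  · rintro (j | ⟨s, α⟩) hz
    · exact Or.inr ⟨hz, j, rfl⟩
    · obtain ⟨t, k, h2, h3, h4⟩ := dec s α
      exact Or.inl (mem_biUnion h2 ⟨k, ⟨fun h5 => Set.disjoint_left.mp (hC2 t) h5
        ⟨⟨_, hz, h3⟩, h4⟩, h4⟩, h3⟩)
  · rw [Set.disjoint_left]
    rintro z (h2 | h2) (h3 | h3)
    · obtain ⟨s, hs, k, hk, h4⟩ := mem_iUnion₂.mp h2
      obtain ⟨t, ht, l, hl, h5⟩ := mem_iUnion₂.mp h3
      obtain rfl := uniq z s t k l hs ht h4 h5 hk.2 hl.2
      exact hl.1 (h4.uniq h5 ▸ hk.1)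
    · obtain ⟨s, hs, k, hk, h4⟩ := mem_iUnion₂.mp h2
      exact Set.disjoint_left.mp (hC2 s) hk.1 ⟨⟨z, h3.1, h4⟩, hk.2⟩
    · obtain ⟨s, hs, k, hk, h4⟩ := mem_iUnion₂.mp h3
      exact hk.1 (hC1 s ⟨⟨z, h2.1, h4⟩, hk.2⟩)
    · exact Set.disjoint_left.mp hAB h2.1 h3.1⟩

theorem live_fin {E : List ℕ → Set ℕ} (hE : ∀ s, (E s).Finite) (n : ℕ) :
    {s | live E s ∧ s.length = n}.Finite := by
  induction n with
  | zero => exact (finite_singleton []).subset fun s hs => List.length_eq_zero_iff.mp hs.2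
  | succ n ih =>
    refine (ih.biUnion fun s _ => (hE s).image (· :: s)).subset ?_
    rintro (_ | ⟨i, s⟩) ⟨h1, h2⟩
    · cases h2
    · exact mem_biUnion (show s ∈ {s | live E s ∧ s.length = n} from ⟨h1.1, Nat.succ.inj h2⟩)
        ⟨i, h1.2, rfl⟩

theorem wl (hx : ∀ g : ℕ → ℕ, {j | ∀ n, x j n ≤ g n}.Countable) : WeaklyLindelof (X T x) := by
  intro 𝒰 h1 h2
  choose u hu hu' using fun z : X T x => (show z ∈ ⋃₀ 𝒰 from h2 ▸ mem_univ z)
  let E : List ℕ → Set ℕ := fun s => {i | K.n i ∉ ⋃ U ∈ 𝒰, tr s U}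
  have hE : ∀ s, (E s).Finite := fun s => K.fin (isOpen_biUnion fun U hU => h1 U hU s)
    fun α => mem_biUnion (hu (X.q s α)) fun z hz => hz ▸ hu' _
  have h3 : ∀ (s : List ℕ) (i : ℕ), ∃ U ∈ 𝒰, i ∉ E s → K.n i ∈ tr s U := by
    intro s i
    by_cases h : i ∈ E s
    · exact ⟨_, hu (X.q [] ⊥), fun h' => absurd h h'⟩
    · obtain ⟨U, hU, h4⟩ := mem_iUnion₂.mp (not_not.mp h)
      exact ⟨U, hU, fun _ => h4⟩
  choose v hv hv' using h3
  have h4 : ∀ n, ∃ m, ∀ s i, live E s → s.length = n → i ∈ E s → i ≤ m := by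
    intro n
    obtain ⟨m, hm⟩ := ((live_fin hE n).biUnion fun s _ => hE s).bddAbove
    exact ⟨m, fun s i h5 h6 h7 => hm (mem_biUnion
      (show s ∈ {s | live E s ∧ s.length = n} from ⟨h5, h6⟩) h7)⟩
  choose g hg using h4
  refine ⟨(range fun p : List ℕ × ℕ => v p.1 p.2) ∪ (range fun s => u (X.q s ⊥)) ∪
    (fun j => u (X.p j)) '' {j | ∀ n, x j n ≤ g n}, ?_,
    ((countable_range _).union (countable_range _)).union ((hx g).image _), ?_⟩
  · rintro _ ((⟨p, rfl⟩ | ⟨s, rfl⟩) | ⟨j, -, rfl⟩)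
    exacts [hv _ _, hu _, hu _]
  · rintro (j | ⟨s, α⟩)
    · refine subset_closure ?_
      by_cases h5 : ∀ n, live E (res (x j) n)
      · exact ⟨_, Or.inr ⟨j, fun n => hg n _ _ (h5 n) (by simp) (h5 (n + 1)).2, rfl⟩, hu' _⟩
      · push Not at h5
        obtain ⟨n, hn⟩ := h5
        obtain ⟨t, i, -, h6, h7⟩ := (live_or E _).resolve_left hn
        exact ⟨_, Or.inl (Or.inl ⟨(t, i), rfl⟩), hv' t i h7 _
          (nd_mono (T := T) (z := X.p j) (t' := res (x j) n)
            (show res (x j) (res (x j) n).length = res (x j) n by simp) h6)⟩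
    · by_cases h0 : α = ⊥
      · exact subset_closure ⟨_, Or.inl (Or.inr ⟨s, rfl⟩), h0 ▸ hu' _⟩
      · rw [mem_closure_iff]
        intro O hO hz
        obtain ⟨i, h5, h6⟩ := (K.inf (hO s) (fun z hz' => hz' ▸ hz) h0).exists_notMem_finite (hE s)
        exact ⟨X.q (i :: s) ⊥, h5 _ (List.suffix_refl _), _, Or.inl (Or.inl ⟨(s, i), rfl⟩),
          hv' s i h6 _ (List.suffix_refl _)⟩

theorem not_cl (hx : ∀ α, ¬ {j | ∀ n, x j n ∉ T.a α}.Countable) :
    ¬ CellularLindelof (X T x) := by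
  intro h
  obtain ⟨L, hL, h1⟩ := h (range fun j => {X.p j}) (by
    rintro _ ⟨j, rfl⟩
    exact ⟨open_p fun _ _ h => (by cases h), singleton_nonempty _⟩) (by
    rintro _ ⟨j, rfl⟩ _ ⟨k, rfl⟩ h
    exact disjoint_singleton.mpr fun h' => h (congrArg singleton h'))
  have h2 : ∀ j, X.p j ∈ L := fun j => by
    obtain ⟨_, hz, rfl⟩ := h1 _ ⟨j, rfl⟩
    exact hz
  have h3 : ∀ s, {β | X.q s β ∈ L}.Countable := by
    intro s
    obtain ⟨r, hr, h4⟩ := (hL.inter_right (copy_closed s)).elim_countable_subcover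
      (fun β => lift s (V β)) (fun β => lift_open s (V_open β)) (by
        rintro _ ⟨-, β, rfl⟩
        exact mem_iUnion.mpr ⟨β, K.o β, (le_rfl : β ≤ β), rfl⟩)
    refine (hr.biUnion fun β _ => countable_Iic β).mono fun β hβ => ?_
    obtain ⟨γ, h5, k, h6, h7⟩ := mem_iUnion₂.mp (h4 ⟨hβ, β, rfl⟩)
    rw [h7.uniq (k' := K.o β) rfl] at h6
    exact mem_biUnion h5 h6
  obtain ⟨α, hα⟩ := exists_bound (countable_iUnion h3)
  obtain ⟨r, hr, h4⟩ := hL.elim_countable_subcover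
    (fun j => (⋃ s, lift s (V α)) ∪ {X.p j})
    (fun j => (isOpen_iUnion fun s => lift_open s (V_open α)).union
      (open_p fun _ _ h => by cases h)) (by
      rintro (j | ⟨s, β⟩) hz
      · exact mem_iUnion.mpr ⟨j, Or.inr rfl⟩
      · obtain ⟨j, -⟩ : {j | ∀ n, x j n ∉ T.a α}.Nonempty :=
          nonempty_iff_ne_empty.mpr fun h => hx α (h ▸ countable_empty)
        exact mem_iUnion.mpr ⟨j, Or.inl (mem_iUnion.mpr ⟨s, K.o β,
          (hα β (mem_iUnion.mpr ⟨s, hz⟩)).le, rfl⟩)⟩)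
  refine hx α (hr.mono fun j hj => ?_)
  obtain ⟨k, hk, h5 | h5⟩ := mem_iUnion₂.mp (h4 (h2 j))
  · obtain ⟨s, i | β, h6, h7⟩ := mem_iUnion.mp h5
    · exact absurd h6 ((List.cons.inj h7).1 ▸ hj s.length)
    · cases h7
  · exact X.p.inj h5 ▸ hk

theorem main (CH : Cardinal.continuum.{0} = Cardinal.aleph 1) :
    ∃ (Y : Type) (_ : TopologicalSpace Y), T4Space Y ∧ FirstCountableTopology Y ∧
      WeaklyLindelof Y ∧ ¬ CellularLindelof Y := by
  obtain ⟨A⟩ : Nonempty (W ≃ Set ℕ) := by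
    rw [← Cardinal.eq, mk_W, ← CH]; simp
  obtain ⟨G⟩ : Nonempty (W ≃ (ℕ → ℕ)) := by
    rw [← Cardinal.eq, mk_W, ← CH]; simp
  obtain ⟨T⟩ := exists_tw A A.surjective
  have h1 : ∀ j : W × W, ∃ y : ℕ → ℕ, (∀ n, y n ∉ T.a j.1) ∧
      ∀ η ≤ max j.1 j.2, ∃ n, G η n < y n := by
    intro j
    obtain ⟨e, he⟩ := (countable_Iic (max j.1 j.2)).exists_eq_range nonempty_Iic
    choose y hy hy' using fun n => (T.coinf j.1).exists_gt (G (e n) n)
    refine ⟨y, hy, fun η hη => ?_⟩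
    obtain ⟨n, rfl⟩ : η ∈ range e := he ▸ hη
    exact ⟨n, hy' n⟩
  choose x hx hx' using h1
  refine ⟨X T x, inferInstance, {}, inferInstance, wl fun g => ?_, not_cl fun α h => ?_⟩
  · refine ((countable_Iic (G.symm g)).prod (countable_Iic (G.symm g))).mono fun j hj => ?_
    by_contra h
    obtain ⟨n, hn⟩ := hx' j (G.symm g) (by
      by_contra h2
      exact h ⟨(le_max_left _ _).trans (not_le.mp h2).le,
        (le_max_right _ _).trans (not_le.mp h2).le⟩)
    rw [G.apply_symm_apply] at hn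
    exact absurd (hj n) (not_le.mpr hn)
  · exact not_countable_univ ((h.preimage (f := fun ξ => (α, ξ))
      (Prod.mk_right_injective α)).mono fun ξ _ => hx (α, ξ))

end Pool.Agent.H31.CL
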