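import Pool.Agent.H31.CPDefs

namespace Pool.Agent.H31.CP

variable {M : Type} [Monoid M] {C : CP M}

theorem S.inv {P : Str M} (h : S C P) :
    (∀ m i, P.τ i * P.Φ m = m i) ∧ ∀ x, P.Φ (fun i => P.τ i * x) = x := by
  induction h with
  | one => exact ⟨fun m i => by rw [one_mul, Subsingleton.elim i 0], one_mul⟩
  | two =>
    refine ⟨fun m i => by fin_cases i; exacts [C.h1 _ _, C.h2 _ _], fun x => ?_⟩
    obtain ⟨a, rfl⟩ := C.bij.2 x
    exact congrArg₂ _ (C.h1 _ _) (C.h2 _ _)
  | @comb P Q _ _ h1 h2 =>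
    refine ⟨fun m k => ?_, fun x => ?_⟩
    · simp only [CP.comb, mul_assoc, h1.1, (h2 _).1, Sigma.eta, Equiv.apply_symm_apply]
    · refine Eq.trans (congrArg P.Φ (funext fun i => ?_)) (h1.2 x)
      refine Eq.trans (congrArg (Q i).Φ (funext fun j => ?_)) ((h2 i).2 _)
      simp only [CP.comb, mul_assoc]
      rw [Equiv.symm_apply_apply]

theorem ne_top [Nontrivial M] : G C ≠ ⊤ := fun h => by
  classical
  obtain ⟨a, b, hab⟩ := exists_pair_ne M
  have h1 : ∀ x ∈ G C, ∀ y, x * y = 1 → y * x = 1 := fun x hx => by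
    induction hx using Submonoid.closure_induction with
    | one => simp
    | mul a b _ _ h1 h2 =>
      intro y h
      rw [← mul_assoc]
      exact h2 _ (by rw [← mul_assoc]; exact h1 _ (by rw [← mul_assoc]; exact h))
    | mem x hx =>
      obtain ⟨P, hP, -, f, rfl⟩ := hx
      obtain ⟨h1, h2⟩ := hP.inv
      intro y hy
      have h3 : ∀ i, P.τ (f i) * y = P.τ i := fun i => by
        rw [← h1 (fun i => P.τ (f i)) i, mul_assoc, hy, mul_one]
      have h4 : f.Surjective := Finite.surjective_of_injective fun i j h => by_contra fun h5 => by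
        have := h1 (fun k => if k = i then a else b) i
        rw [← h3, h, h3, h1, if_pos rfl, if_neg (Ne.symm h5)] at this
        exact hab this.symm
      refine (h2 _).symm.trans ((congrArg P.Φ (funext fun i => ?_)).trans (h2 1))
      obtain ⟨j, rfl⟩ := h4 i
      rw [← mul_assoc, h3, h1, mul_one]
  have h2 := congrArg (C.p2 * ·) (h1 C.p1 (h ▸ trivial) _ (C.h1 1 1))
  simp only [← mul_assoc, C.h2, one_mul, mul_one] at h2
  exact hab ((C.h1 a b).symm.trans (h2 ▸ C.h2 a b))

def CN : CP (Function.End ℕ) where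
  sig a b n := Nat.pair (a n) (b n)
  p1 n := n.unpair.1
  p2 n := n.unpair.2
  bij := ⟨fun x y h => Prod.ext (funext fun n => (Nat.pair_eq_pair.mp (congrFun h n)).1)
    (funext fun n => (Nat.pair_eq_pair.mp (congrFun h n)).2), fun x =>
      ⟨(fun n => (x n).unpair.1, fun n => (x n).unpair.2), funext fun n => Nat.pair_unpair _⟩⟩
  h1 a b := funext fun n => congrArg Prod.fst (Nat.unpair_pair _ _)
  h2 a b := funext fun n => congrArg Prod.snd (Nat.unpair_pair _ _)

theorem init (h : IsInitial C) : G C ≠ ⊤ := by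
  obtain ⟨f, ⟨h1, h2, -⟩, -⟩ := h _ CN
  have : Nontrivial M := ⟨_, _, fun h => absurd (congrFun (h1.symm.trans ((congrArg f h).trans h2)) 1)
    (by decide)⟩
  exact ne_top

end Pool.Agent.H31.CP
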