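import Mathlib

namespace Pool.Agent.H31.CP

/-- a CP monoid structure on `M` -/
structure CP (M : Type) [Monoid M] where
  sig : M → M → M
  p1 : M
  p2 : M
  bij : Function.Bijective fun x : M × M => sig x.1 x.2
  h1 : ∀ a b, p1 * sig a b = a
  h2 : ∀ a b, p2 * sig a b = b

/-- the data `(Φ; τ₁, …, τ_d)` -/
structure Str (M : Type) where
  d : ℕ
  Φ : (Fin d → M) → M
  τ : Fin d → M

variable {M : Type} [Monoid M]

def comb (P : Str M) (Q : Fin P.d → Str M) : Str M where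
  d := ∑ i, (Q i).d
  Φ m := P.Φ fun i => (Q i).Φ fun j => m (finSigmaFinEquiv (n := fun i => (Q i).d) ⟨i, j⟩)
  τ k := (Q (finSigmaFinEquiv.symm k).1).τ (finSigmaFinEquiv.symm k).2 *
    P.τ (finSigmaFinEquiv.symm k).1

/-- the set `𝕊(M)` -/
inductive S (C : CP M) : Str M → Prop
  | one : S C ⟨1, fun m => m 0, fun _ => 1⟩
  | two : S C ⟨2, fun m => C.sig (m 0) (m 1), ![C.p1, C.p2]⟩
  | comb {P : Str M} {Q : Fin P.d → Str M} : S C P → (∀ i, S C (Q i)) → S C (comb P Q)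

def G (C : CP M) : Submonoid M := Submonoid.closure
  {x | ∃ P, S C P ∧ 2 ≤ P.d ∧ ∃ f : Fin P.d → Fin P.d, x = P.Φ fun i => P.τ (f i)}

def IsInitial (C : CP M) : Prop := ∀ (N : Type) [Monoid N] (D : CP N), ∃! f : M →* N,
  f C.p1 = D.p1 ∧ f C.p2 = D.p2 ∧ ∀ a b, f (C.sig a b) = D.sig (f a) (f b)

end Pool.Agent.H31.CP
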