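import Pool.Agent.H31.CRDefs

namespace Pool.Agent.H31.CR

open Set

def Ru (a b r : ℕ) : Prop := r % 5 = 0 ∧ (a = r + 1 ∧ b = r + 3 ∨ a = r + 2 ∧ b = r + 4) ∨
  r % 5 = 1 ∧ a = r + 3 ∧ (b = r + 5 ∨ b = r + 7) ∨ r % 5 = 2 ∧ a = r + 1 ∧ (b = r + 5 ∨ b = r + 7)

inductive Cl (A : Set ℕ) : ℕ → Prop
  | base {r : ℕ} : r ∈ A → Cl A r
  | rule {a b r : ℕ} : Ru a b r → Cl A a → Cl A b → Cl A r

def Clo (B : Set ℕ) : Prop := ∀ a b r, Ru a b r → a ∈ B → b ∈ B → r ∈ B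

theorem Cl.sub {A B : Set ℕ} (h : A ⊆ B) (hB : Clo B) {r : ℕ} (hr : Cl A r) : r ∈ B := by
  induction hr with
  | base h1 => exact h h1
  | rule h1 _ _ h2 h3 => exact hB _ _ _ h1 h2 h3

theorem clo (A : Set ℕ) : Clo {r | Cl A r} := fun _ _ _ => .rule

def φ : ClosureOperator (Set ℕ) := .mk' (fun A => {r | Cl A r})
  (fun _ B h _ => Cl.sub (B := {r | Cl B r}) (fun _ h' => .base (h h')) (clo B)) (fun _ _ => .base)
  fun A _ => Cl.sub subset_rfl (clo A)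

theorem φ_iff {A : Set ℕ} : φ A = A ↔ Clo A :=
  ⟨fun h => h ▸ clo A, fun h => (φ.le_closure A).antisymm' fun _ => Cl.sub subset_rfl h⟩

theorem φ_empty : φ ∅ = ∅ := φ_iff.mpr fun _ _ _ _ h => h.elim

def le (a b : ℕ) : Prop := b / 5 < a / 5 ∧ b % 5 ≤ 2 ∨ b / 5 = a / 5 ∧
  (a % 5 = b % 5 ∨ b % 5 = 0 ∨ a % 5 = 3 ∧ b % 5 = 2 ∨ a % 5 = 4 ∧ b % 5 = 1)

def po : PartialOrder ℕ where
  le := le
  lt a b := le a b ∧ ¬ le b a
  le_refl a := by unfold le; omega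
  le_trans a b c := by unfold le; omega
  le_antisymm a b := by unfold le; omega

theorem sl : SemilatticeType φ := by
  refine ⟨fun x => Subset.antisymm (fun r => Cl.sub (fun r h => mem_iUnion₂.mpr ⟨{r},
    ⟨singleton_subset_iff.mpr h, finite_singleton r⟩, φ.le_closure {r} rfl⟩) fun a b r h h1 h2 => ?_)
      (iUnion₂_subset fun y hy => φ.monotone hy.1), po, fun p x h => ⟨fun a ha => ?_, fun b hb => ?_⟩⟩
  · obtain ⟨y, h3, h4⟩ := mem_iUnion₂.mp h1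
    obtain ⟨z, h5, h6⟩ := mem_iUnion₂.mp h2
    exact mem_biUnion (x := y ∪ z) ⟨union_subset h3.1 h5.1, h3.2.union h5.2⟩
      (Cl.rule h (φ.monotone subset_union_left h4) (φ.monotone subset_union_right h6))
  · refine (h.2 (y := x ∩ {q | le q p}) (Cl.sub (B := {r | r ∈ φ (x ∩ {q | le q r})})
      (fun r h => .base ⟨h, po.le_refl r⟩) (fun a b r h h1 h2 => .rule h (φ.monotone
        (inter_subset_inter_right _ fun q hq => po.le_trans q a r hq ?_) h1) (φ.monotone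
          (inter_subset_inter_right _ fun q hq => po.le_trans q b r hq ?_) h2)) h.1)
            inter_subset_left ha).2 <;>
      change le _ _ <;> unfold Ru at h <;> unfold le <;> omega
  · refine Cl.sub (B := {q | le q b}) hb (fun c d r h h1 h2 => ?_) h.1
    simp only [mem_ofPred, Ru, le] at h h1 h2 ⊢
    omega

theorem join {c d : Set ℕ} (hc : c ∈ Clop φ) (hd : d ∈ Clop φ) : φ (c ∪ d) ∈ Clop φ := by
  have h0 : ∀ r ∈ c ∪ d, ∃ e, e ⊆ φ (c ∪ d) ∧ r ∈ e ∧ Clo e ∧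
      ∀ a b r, Ru a b r → r ∈ e → a ∈ e ∨ b ∈ e := by
    have : ∀ e ∈ Clop φ, Clo e ∧ ∀ a b r, Ru a b r → r ∈ e → a ∈ e ∨ b ∈ e := fun e he =>
      ⟨φ_iff.mp he.1, fun a b r h h1 => by_contra fun h2 =>
        φ_iff.mp he.2 a b r h (not_or.mp h2).1 (not_or.mp h2).2 h1⟩
    rintro r (h | h)
    exacts [⟨c, fun _ h => .base (.inl h), h, this c hc⟩, ⟨d, fun _ h => .base (.inr h), h, this d hd⟩]
  refine ⟨φ.idempotent _, φ_iff.mpr fun a b r h h1 h2 h3 => ?_⟩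
  have key : ∀ y t s x y' s' p x' t', y ∈ φ (c ∪ d) → t ∉ φ (c ∪ d) → s ∈ φ (c ∪ d) →
      (∀ a b, Ru a b y → a = t) → Ru t y' y → Ru t s' y → Ru y' s' p → Ru x' t' p → Ru s x' x →
        Ru s t' x → x ∈ φ (c ∪ d) := fun y t s x y' s' p x' t' a1 a2 a3 a4 a5 a6 a7 a8 a9 a10 => by
    cases a1 with
    | rule b1 b2 _ => exact absurd (a4 _ _ b1 ▸ b2) a2
    | base b1 =>
      obtain ⟨e, b2, b3, b4, b5⟩ := h0 y b1
      exact (b5 _ _ _ a8 (b4 _ _ _ a7 ((b5 _ _ _ a5 b3).resolve_left fun h => a2 (b2 h))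
        ((b5 _ _ _ a6 b3).resolve_left fun h => a2 (b2 h)))).elim
          (fun h => .rule a9 a3 (b2 h)) fun h => .rule a10 a3 (b2 h)
  cases h3 with
  | base h3 =>
    obtain ⟨e, b2, b3, -, b5⟩ := h0 r h3
    exact (b5 _ _ _ h b3).elim (fun h => h1 (b2 h)) fun h => h2 (b2 h)
  | @rule a' b' _ h3 h4 h5 =>
    have h6 : a' ≠ a := fun h => h1 (h ▸ h4)
    have h7 : r % 5 = 0 ∧ (a' = r + 1 ∧ b' = r + 3 ∧ a = r + 2 ∧ b = r + 4 ∨
        a' = r + 2 ∧ b' = r + 4 ∧ a = r + 1 ∧ b = r + 3) := by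
      unfold Ru at h h3
      omega
    clear h h3 h0
    refine h1 (key a' b b' a (a' + 5) (b' + 5) (r + 5) (a + 5) (b + 5) h4 h2 h5
      (fun _ _ => ?_) ?_ ?_ ?_ ?_ ?_ ?_) <;> clear key <;> unfold Ru <;> omega

theorem lat : IsLat (Clop φ) := by
  have h1 : ∀ c ∈ Clop φ, cᶜ ∈ Clop φ := fun c h => ⟨h.2, by rw [compl_compl]; exact h.1⟩
  refine fun a b => ⟨⟨⟨_, join a.2 b.2⟩, ?_, fun u hu => ?_⟩, ⟨_, h1 _ (join (h1 _ a.2) (h1 _ b.2))⟩,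
    ?_, fun u hu => ?_⟩
  · rintro _ (rfl | rfl) <;> exact fun _ h => .base (by simp [h])
  · exact (φ.monotone (union_subset (hu (.inl rfl)) (hu (.inr rfl)))).trans u.2.1.le
  · rintro _ (rfl | rfl) <;> exact fun _ h => by_contra fun h' => h (.base (by simp [h']))
  · exact subset_compl_comm.mp ((φ.monotone (union_subset (compl_subset_compl.mpr (hu (.inl rfl)))
      (compl_subset_compl.mpr (hu (.inr rfl))))).trans u.2.2.le)

theorem φ_eq {A B : Set ℕ} (i : ℕ) (h1 : A ⊆ B) (h2 : Clo B)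
    (h3 : ∀ r ∈ B, r ∈ A ∨ r + i ∈ A ∧ r + i + 2 ∈ A ∧ Ru (r + i) (r + i + 2) r) : φ A = B :=
  Subset.antisymm (fun _ => Cl.sub h1 h2) fun r h => (h3 r h).elim .base fun h =>
    .rule h.2.2 (.base h.1) (.base h.2.1)

theorem ne : Clop φ ≠ Reg φ := fun h => by
  have h1 : {k | k % 5 ≠ 2 ∧ k % 5 ≠ 4} ∈ Reg φ := by
    refine Eq.symm ((congrArg (fun x => φ xᶜ) (φ_eq (B := {k | k % 5 ≠ 1 ∧ k % 5 ≠ 3}) 2 ?_ ?_ ?_)).trans
      (φ_eq 1 ?_ ?_ ?_)) <;>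
    simp only [Clo, Ru, subset_def, mem_compl_iff, mem_ofPred, true_and, and_true, or_true,
      true_or] <;> intros <;> omega
  exact φ_iff.mp (h.ge h1).2 2 4 0 (by unfold Ru; omega) (by simp) (by simp) (by simp)

end Pool.Agent.H31.CR
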