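import Mathlib

namespace Pool.Agent.H31.CR

variable {P : Type*} (φ : ClosureOperator (Set P))

def Clop : Set (Set P) := {a | φ a = a ∧ φ aᶜ = aᶜ}

def Reg : Set (Set P) := {a | a = φ (φ aᶜ)ᶜ}

def Algebraic : Prop := ∀ x, φ x = ⋃ y ∈ {y : Set P | y ⊆ x ∧ y.Finite}, φ y

def SemilatticeType : Prop := Algebraic φ ∧ ∃ o : PartialOrder P, ∀ (p : P) (x : Set P),
  Minimal (fun x => p ∈ φ x) x → @IsLUB P o.toLE x p

/-- a family of sets, ordered by inclusion, is a lattice -/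
def IsLat (C : Set (Set P)) : Prop := ∀ a b : C, (∃ j, IsLUB {a, b} j) ∧ ∃ m, IsGLB {a, b} m

end Pool.Agent.H31.CR
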