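import Pool.Agent.H31.CSDefs

namespace Pool.Agent.H31.CS

open CategoryTheory

@[ext] structure T : Type where
  n : ℕ

instance : SmallCategory T where
  Hom a b := {j : ℕ // j ≤ b.n ∧ b.n ≤ a.n}
  id a := ⟨0, by omega⟩
  comp {a b c} f g := ⟨min (f.1 + g.1) c.n, by have := f.2; have := g.2; omega⟩
  id_comp f := Subtype.ext (by have := f.2; simp only; omega)
  comp_id f := Subtype.ext (by have := f.2; simp only; omega)
  assoc f g h := Subtype.ext (by have := f.2; have := g.2; have := h.2; simp only; omega)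

def hm (a b : T) (j : ℕ) (h : j ≤ b.n ∧ b.n ≤ a.n) : a ⟶ b := ⟨j, h⟩

theorem cv {a b c : T} (f : a ⟶ b) (g : b ⟶ c) : (f ≫ g).1 = min (f.1 + g.1) c.n := rfl

theorem hv {a b : T} {j h} : (hm a b j h).1 = j := rfl

theorem hx {a b : T} {f g : a ⟶ b} (h : f.1 = g.1) : f = g := Subtype.ext h

def J : GrothendieckTopology T where
  sieves U := {S | ∃ V, ∃ p : V ⟶ U, p.1 = 0 ∧ S p}
  top_mem' U := ⟨U, 𝟙 U, rfl, trivial⟩
  pullback_stable' := by
    rintro U W S g ⟨V, p, h1, h2⟩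
    have := g.2
    have := p.2
    refine ⟨⟨V.n + W.n⟩, hm _ _ 0 (by simp), rfl, ?_⟩
    have e : hm ⟨V.n + W.n⟩ W 0 (by simp) ≫ g =
        hm ⟨V.n + W.n⟩ V g.1 (by simp only; omega) ≫ p := hx (by rw [cv, cv, hv, hv, h1]; omega)
    show S (_ ≫ g)
    rw [e]
    exact S.downward_closed h2 _
  transitive' := by
    rintro U S ⟨V, p, h1, h2⟩ R h
    obtain ⟨W, q, h3, h4⟩ := h h2
    exact ⟨W, q ≫ p, by simp [cv, h1, h3], h4⟩

def G (n : ℕ) : AddSubgroup (ℕ → ℕ → ℤ) where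
  carrier := {a | ∃ N, ∀ i k, N ≤ i ∨ n ≤ k → a i k = 0}
  zero_mem' := ⟨0, fun _ _ _ => rfl⟩
  add_mem' := fun ⟨N, h⟩ ⟨M, h'⟩ => ⟨N + M, fun i k hk => by
    simp [h i k (by omega), h' i k (by omega)]⟩
  neg_mem' := fun ⟨N, h⟩ => ⟨N, fun i k hk => by simp [h i k hk]⟩

def tf (n : ℕ) (s r : ℕ → ℕ) (a : ℕ → ℕ → ℤ) (i k : ℕ) : ℤ :=
  if s i ≤ k ∧ k < n then a (r i) (k - s i) else 0

def tm0 (m n : ℕ) (s r : ℕ → ℕ) (h : r = id ∨ s = id) : G m →+ G n :=
  AddMonoidHom.mk' (fun a => ⟨tf n s r a.1, by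
      obtain ⟨N, h1⟩ := a.2
      refine ⟨N + n, fun i k hk => ?_⟩
      unfold tf
      split_ifs with h2
      · rcases h with rfl | rfl
        · exact h1 _ _ (.inl (by simp only [id]; omega))
        · simp only [id] at h2; omega
      · rfl⟩) fun a b => Subtype.ext (funext₂ fun i k => by
        simp only [AddSubgroup.coe_add, Pi.add_apply, tf]
        split_ifs <;> simp)

def tm (m n : ℕ) (s r : ℕ → ℕ) (h : r = id ∨ s = id) : AddCommGrpCat.of (G m) ⟶ .of (G n) :=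
  AddCommGrpCat.ofHom (tm0 m n s r h)

theorem gz {n : ℕ} (a : G n) (i k : ℕ) (hk : n ≤ k) : a.1 i k = 0 :=
  a.2.elim fun _ h => h i k (.inr hk)

theorem gext {E : Ab.{0}} {n : ℕ} {f g : E ⟶ .of (G n)}
    (h : ∀ a i k, k < n → (f.hom a).1 i k = (g.hom a).1 i k) : f = g :=
  AddCommGrpCat.ext fun a => Subtype.ext (funext₂ fun i k => (lt_or_ge k n).elim (h a i k) fun hk =>
    (gz _ i k hk).trans (gz _ i k hk).symm)

def A : T ⥤ Ab.{0} where
  obj U := .of (G U.n)
  map f := tm _ _ (fun _ => f.1) id (.inl rfl)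
  map_id U := gext fun a i k hk => by
    show tf _ (fun _ => 0) id a.1 i k = a.1 i k
    simp [tf, hk]
  map_comp {a b c} f g := gext fun y i k hk => by
    have := f.2
    have := g.2
    show tf _ (fun _ => min (f.1 + g.1) c.n) id y.1 i k =
      tf _ (fun _ => g.1) id (tf _ (fun _ => f.1) id y.1) i k
    simp only [tf, id]
    split_ifs <;> first | omega | rfl | exact congrArg _ (by omega)

def io (V U : T) : A.obj U ⟶ A.obj V := tm U.n V.n (fun _ => 0) id (.inl rfl)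

theorem io_p {U V : T} (p : V ⟶ U) (h : p.1 = 0) : io V U ≫ A.map p = 𝟙 _ :=
  gext fun a i k hk => by
    have := p.2
    show tf _ (fun _ => p.1) id (tf _ (fun _ => 0) id a.1) i k = a.1 i k
    simp [tf, h, hk, show k < V.n by omega]

def sh (V : T) (n : ℕ) : A.obj V ⟶ A.obj V :=
  AddCommGrpCat.ofHom <| AddMonoidHom.mk' (fun y : G V.n => (⟨fun i k => y.1 i (k + n),
    y.2.elim fun N h => ⟨N, fun i k hk => h _ _ (by omega)⟩⟩ : G V.n)) fun _ _ => rfl

theorem cosh : IsCosheaf J A := by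
  rintro U S ⟨V, p, h1, h2⟩ E x hx'
  have := p.2
  refine ⟨io V U ≫ x p h2, fun W f hf => ?_, fun t ht => by
    rw [← ht p h2, ← Category.assoc, io_p p h1, Category.id_comp]⟩
  have := f.2
  have h3 : A.map (hm V V U.n (by omega)) ≫ x p h2 = A.map (hm V V V.n (by omega)) ≫ x p h2 := by
    rw [hx', hx']
    congr 1
    exact hx (by rw [cv, cv, hv, hv]; omega)
  have h4 : A.map (hm V V V.n (by omega)) = 0 := gext fun a i k hk => by
    show tf _ (fun _ => V.n) id a.1 i k = 0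
    simp [tf, hk.not_ge]
  have h6 : A.map p ≫ io V U + sh V U.n ≫ A.map (hm V V U.n (by omega)) = 𝟙 _ :=
    gext fun a i k hk => by
      show tf _ (fun _ => 0) id (tf _ (fun _ => p.1) id a.1) i k +
        tf _ (fun _ => U.n) id (fun i k => a.1 i (k + U.n)) i k = a.1 i k
      simp only [tf, id, h1]
      split_ifs <;> first | omega | (simp; done) | (rw [zero_add]; exact congrArg _ (by omega))
  have h5 : A.map p ≫ io V U ≫ x p h2 = x p h2 := by
    conv_rhs => rw [← Category.id_comp (x p h2), ← h6]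
    rw [Preadditive.add_comp, Category.assoc, Category.assoc, h3, h4]
    simp
  have e : hm ⟨W.n + V.n⟩ W 0 (by simp) ≫ f =
      hm ⟨W.n + V.n⟩ V f.1 (by simp only; omega) ≫ p := hx (by rw [cv, cv, hv, hv, h1]; omega)
  have h7 : A.map (hm ⟨W.n + V.n⟩ W 0 (by simp)) ≫ A.map f ≫ io V U ≫ x p h2 =
      A.map (hm ⟨W.n + V.n⟩ W 0 (by simp)) ≫ x f hf := by
    rw [← A.map_comp_assoc, e, A.map_comp_assoc, h5, hx', hx']
    congr 1
    exact e.symm
  have h8 := congrArg (io ⟨W.n + V.n⟩ W ≫ ·) h7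
  simpa only [← Category.assoc, io_p _ hv, Category.id_comp] using h8

def nt (r : ℕ → ℕ) : A ⟶ A where
  app U := tm _ _ id r (.inr rfl)
  naturality {V U} f := gext fun a i k hk => by
    have := f.2
    show tf _ id r (tf _ (fun _ => f.1) id a.1) i k = tf _ (fun _ => f.1) id (tf _ id r a.1) i k
    simp only [tf, id]
    split_ifs <;> first | omega | rfl | exact congrArg _ (by omega)

theorem surj {F : T ⥤ Ab.{0}} (hF : IsCosheaf J F) {V U : T} (p : V ⟶ U) (h : p.1 = 0) :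
    Function.Surjective (F.map p).hom := by
  rw [← AddCommGrpCat.epi_iff_surjective]
  refine ⟨fun {E} u v huv => ?_⟩
  let S : Sieve U := ⟨fun W f => F.map f ≫ u = F.map f ≫ v, fun h g => by
    rw [F.map_comp_assoc, F.map_comp_assoc, h]⟩
  exact (hF U S ⟨V, p, h, huv⟩ E (fun W f _ => F.map f ≫ u) fun _ _ g f _ =>
    (F.map_comp_assoc _ _ _).symm).unique (fun _ _ _ => rfl) fun _ _ h => h.symm

abbrev D := (IsCosheaf J).FullSubcategory

def X : D := ⟨A, cosh⟩

def ph (r : ℕ → ℕ) : X ⟶ X := ObjectProperty.homMk (nt r)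

theorem key {F : T ⥤ Ab.{0}} (f : F ⟶ A) (n i k : ℕ) (hk : k < n) (c : F.obj ⟨n + i⟩) :
    ((f.app ⟨n⟩).hom ((F.map (hm ⟨n + i⟩ ⟨n⟩ 0 (by simp))).hom c)).1 i k =
      (((f ≫ nt id).app ⟨n + i⟩).hom c).1 i (k + i) := by
  have h := congrArg (fun u => (u.hom c).1 i k) (f.naturality (hm ⟨n + i⟩ ⟨n⟩ 0 (by simp)))
  refine h.trans ?_
  show tf n (fun _ => 0) id _ i k = tf (n + i) id id ((f.app ⟨n + i⟩).hom c).1 i (k + i)
  simp [tf, hk]
  rfl

instance : Mono (ph id) := ⟨fun {Z} f g h => ObjectProperty.hom_ext _ <| NatTrans.ext <|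
  funext fun U => gext fun a i k hk => by
    obtain ⟨c, rfl⟩ := surj Z.2 (hm ⟨U.n + i⟩ U 0 (by simp)) rfl a
    have h' : f.hom ≫ nt id = g.hom ≫ nt id := congrArg (·.hom) h
    exact (key f.hom U.n i k hk c).trans (h' ▸ (key g.hom U.n i k hk c).symm)⟩

theorem eqz {Z : D} {f g : X ⟶ Z} (h : ph id ≫ f = ph id ≫ g) :
    ph (fun _ => 0) ≫ f = ph (fun _ => 0) ≫ g :=
  ObjectProperty.hom_ext _ <| NatTrans.ext <| funext fun U => AddCommGrpCat.ext fun a => by
    let b : G U.n := ⟨fun i k => if i < U.n then (a : G U.n).1 0 k else 0, U.n, fun i k hk => by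
      beta_reduce
      split_ifs with h
      · exact gz _ _ _ (by omega)
      · rfl⟩
    have e : ((nt fun _ => 0).app U).hom a = ((nt id).app U).hom b :=
      Subtype.ext (funext₂ fun i k => by
        show tf U.n id (fun _ => 0) (a : G U.n).1 i k = tf U.n id id b.1 i k
        simp only [tf, id, b]
        split_ifs <;> first | omega | rfl)
    have h' := congrArg (fun u => (u.hom.app U).hom b) h
    exact (congrArg (f.hom.app U).hom e).trans (h'.trans (congrArg (g.hom.app U).hom e).symm)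

theorem main : IsEmpty (Abelian D) := ⟨fun i => by
  have := @regularMonoCategoryOfNormalMonoCategory D _ (_) i.toIsNormalMonoCategory
  have hr := regularMonoOfMono (ph id)
  obtain ⟨l, hl⟩ : ∃ l : X ⟶ X, l ≫ ph id = ph fun _ => 0 :=
    ⟨_, (Limits.Fork.IsLimit.lift' hr.isLimit _ (eqz hr.w)).2⟩
  have h' : l.hom ≫ nt id = nt fun _ => 0 := congrArg (·.hom) hl
  let e (n : ℕ) : G n := ⟨fun i k => if i = 0 ∧ k = 0 ∧ 0 < n then 1 else 0, 1, fun i k h =>
    if_neg (by omega)⟩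
  obtain ⟨N, hN⟩ := ((l.hom.app ⟨1⟩).hom (e 1)).2
  have h1 := key l.hom 1 N 0 one_pos (e (1 + N))
  have h2 : (A.map (hm ⟨1 + N⟩ ⟨1⟩ 0 (by simp))).hom (e (1 + N)) = e 1 :=
    Subtype.ext (funext₂ fun i k => by
      show tf 1 (fun _ => 0) id (e (1 + N)).1 i k = (e 1).1 i k
      simp only [tf, id, e]
      split_ifs <;> first | omega | rfl)
  have h3 := ((hN N 0 (.inl le_rfl)).symm.trans
    (congrArg (fun u => ((l.hom.app ⟨1⟩).hom u).1 N 0) h2.symm)).trans (h1.trans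
      (congrArg (fun u : A ⟶ A => ((u.app ⟨1 + N⟩).hom (e (1 + N))).1 N (0 + N)) h'))
  change 0 = tf (1 + N) id (fun _ => 0) (e (1 + N)).1 N (0 + N) at h3
  simp [tf, e] at h3⟩

end Pool.Agent.H31.CS
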