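import Mathlib

namespace Pool.Agent.H31.CS

open CategoryTheory

variable {C : Type} [SmallCategory C]

/-- `x` is a cocone with vertex `E` on `A` over the sieve `S` -/
def Compat (A : C ⥤ Ab.{0}) {U : C} (S : Sieve U) {E : Ab.{0}}
    (x : ∀ ⦃V : C⦄ (f : V ⟶ U), S f → (A.obj V ⟶ E)) : Prop :=
  ∀ ⦃V W : C⦄ (g : W ⟶ V) (f : V ⟶ U) (hf : S f),
    A.map g ≫ x f hf = x (g ≫ f) (S.downward_closed hf g)

/-- `A U` is the colimit of `A` over every covering sieve of `U` -/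
def IsCosheaf (J : GrothendieckTopology C) : ObjectProperty (C ⥤ Ab.{0}) := fun A =>
  ∀ (U : C), ∀ S ∈ J U, ∀ (E : Ab.{0}) (x : ∀ ⦃V : C⦄ (f : V ⟶ U), S f → (A.obj V ⟶ E)),
    Compat A S x → ∃! t : A.obj U ⟶ E, ∀ ⦃V : C⦄ (f : V ⟶ U) (hf : S f), A.map f ≫ t = x f hf

end Pool.Agent.H31.CS
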