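import Mathlib

namespace Pool.Agent.H31.Chq

open Set Metric Topology Filter TopologicalSpace

lemma cm_of_gdelta {X Z : Type*} [TopologicalSpace X] [MetricSpace Z] [CompleteSpace Z]
    {i : X → Z} (hi : IsEmbedding i) (hG : IsGδ (range i)) : IsCompletelyMetrizableSpace X := by
  obtain ⟨G, hGo, hGe⟩ := hG.eq_iInter_nat
  let G' : ℕ → Opens Z := fun n => ⟨G n, hGo n⟩
  have : ∀ n, IsCompletelyMetrizableSpace (G' n) := fun n =>
    inferInstanceAs (IsCompletelyMetrizableSpace (G' n).CompleteCopy)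
  have hm : ∀ x n, i x ∈ G' n := fun x n => by
    have : i x ∈ ⋂ n, G n := hGe ▸ mem_range_self x
    exact mem_iInter.1 this n
  let f : X → ∀ n, G' n := fun x n => ⟨i x, hm x n⟩
  have hf : Continuous f := continuous_pi fun n => hi.continuous.subtype_mk _
  have he : IsEmbedding f :=
    IsEmbedding.of_comp (g := fun g : ∀ n, G' n => (g 0).1) hf (by fun_prop) hi
  have hr : range f = ⋂ n, {g : ∀ n, G' n | (g n).1 = (g 0).1} := by
    ext g
    simp only [mem_range, mem_iInter, mem_setOf_eq]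
    constructor
    · rintro ⟨x, rfl⟩ n; rfl
    · intro h
      have : (g 0).1 ∈ range i := by
        rw [hGe]; exact mem_iInter.2 fun n => by rw [← h n]; exact (g n).2
      obtain ⟨x, hx⟩ := this
      exact ⟨x, funext fun n => Subtype.ext (hx.trans (h n).symm)⟩
  have hc : IsClosedEmbedding f := ⟨he, by
    rw [hr]; exact isClosed_iInter fun n => isClosed_eq (by fun_prop) (by fun_prop)⟩
  exact hc.IsCompletelyMetrizableSpace

lemma pf {Z ι : Type*} [MetricSpace Z] (u : ι → Set Z) (hu : ∀ i, IsOpen (u i)) :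
    ∃ v : ι → Set Z, (∀ i, IsOpen (v i)) ∧ (∀ i, v i ⊆ u i) ∧ (⋃ i, u i) ⊆ ⋃ i, v i ∧
      ∀ p, {i | p ∈ v i}.Finite := by
  set O := ⋃ i, u i with hO
  have hOo : IsOpen O := isOpen_iUnion hu
  obtain ⟨v, h1, h2, h3, h4⟩ := precise_refinement (X := O) (fun i => Subtype.val ⁻¹' u i)
    (fun i => (hu i).preimage continuous_subtype_val) (by
      ext x; simpa using mem_iUnion.1 x.2)
  refine ⟨fun i => Subtype.val '' v i, fun i => hOo.isOpenMap_subtype_val _ (h1 i), ?_, ?_, ?_⟩
  · rintro i _ ⟨x, hx, rfl⟩; exact h4 i hx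
  · intro p hp
    obtain ⟨i, hi⟩ := mem_iUnion.1 (h2.symm ▸ mem_univ (⟨p, hp⟩ : O))
    exact mem_iUnion.2 ⟨i, _, hi, rfl⟩
  · intro p
    by_cases hp : p ∈ O
    · refine (h3.point_finite ⟨p, hp⟩).subset ?_
      rintro i ⟨x, hx, rfl⟩; exact hx
    · refine finite_empty.subset ?_
      rintro i ⟨x, hx, rfl⟩; exact hp x.2

lemma local_gdelta {X Z : Type*} [MetricSpace Z] (i : X → Z)
    (hN : {x | ¬ ∃ O, IsOpen O ∧ i x ∈ O ∧ IsGδ (O ∩ range i)}.Finite) : IsGδ (range i) := by
  set N := {x | ¬ ∃ O, IsOpen O ∧ i x ∈ O ∧ IsGδ (O ∩ range i)} with hNd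
  have : ∀ x, ∃ O, IsOpen O ∧ (x ∉ N → i x ∈ O) ∧ ∃ G : ℕ → Set Z, (∀ n, IsOpen (G n)) ∧
      O ∩ range i = ⋂ n, G n := by
    intro x
    by_cases hx : x ∈ N
    · exact ⟨∅, isOpen_empty, fun h => absurd hx h, fun _ => ∅, fun _ => isOpen_empty, by
        simp [iInter_const]⟩
    · obtain ⟨O, h1, h2, h3⟩ := not_not.1 hx
      exact ⟨O, h1, fun _ => h2, h3.eq_iInter_nat⟩
  choose u hu hxu G hG hGe using this
  obtain ⟨v, h1, h2, h3, h4⟩ := pf u hu
  have e : range i = i '' N ∪ ⋂ n, ⋃ x, (v x ∩ ⋂ k ∈ Finset.range (n + 1), G x k) := by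
    apply Subset.antisymm
    · rintro _ ⟨x, rfl⟩
      by_cases hx : x ∈ N
      · exact Or.inl ⟨x, hx, rfl⟩
      · right
        obtain ⟨y, hy⟩ := mem_iUnion.1 (h3 (mem_iUnion.2 ⟨x, hxu x hx⟩))
        have : i x ∈ ⋂ n, G y n := hGe y ▸ ⟨h2 y hy, mem_range_self x⟩
        exact mem_iInter.2 fun n => mem_iUnion.2 ⟨y, hy, mem_iInter₂.2 fun k _ => mem_iInter.1 this k⟩
    · rintro p (⟨x, -, rfl⟩ | hp)
      · exact mem_range_self x
      · by_contra hcon
        have : ∀ x ∈ {x | p ∈ v x}, ∀ᶠ n in atTop, p ∉ ⋂ k ∈ Finset.range (n + 1), G x k := by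
          intro x hx
          have : p ∉ ⋂ n, G x n := fun h => hcon (hGe x ▸ h : p ∈ u x ∩ range i).2
          obtain ⟨k, hk⟩ : ∃ k, p ∉ G x k := by simpa using this
          exact eventually_atTop.2 ⟨k, fun n hn h =>
            hk (mem_iInter₂.1 h k (Finset.mem_range.2 (Nat.lt_succ_of_le hn)))⟩
        obtain ⟨n, hn⟩ := ((eventually_all_finite (h4 p)).2 this).exists
        obtain ⟨x, hx1, hx2⟩ := mem_iUnion.1 (mem_iInter.1 hp n)
        exact hn x hx1 hx2
  rw [e]
  refine (hN.image i).isClosed.isGδ.union (IsGδ.iInter_of_isOpen fun n => isOpen_iUnion fun x =>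
    (h1 x).inter (isOpen_biInter_finset fun k _ => hG x k))

lemma konig {X : Type*} (T : Set (List X)) (htail : ∀ x l, x :: l ∈ T → l ∈ T)
    (hfin : ∀ l, {x | x :: l ∈ T}.Finite) (hlen : ∀ n, ∃ l ∈ T, l.length = n) :
    ∃ (l : ℕ → List X) (x : ℕ → X), l 0 = [] ∧ (∀ n, l (n + 1) = x n :: l n) ∧ ∀ n, l n ∈ T := by
  have hsuf : ∀ (t l : List X), t ++ l ∈ T → l ∈ T := by
    intro t l
    induction t with
    | nil => exact id
    | cons a t ih => exact fun h => ih (htail _ _ h)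
  let Good : List X → Prop := fun l => ∀ n, ∃ t : List X, t.length = n ∧ t ++ l ∈ T
  have g0 : Good [] := fun n => by
    obtain ⟨l, h1, h2⟩ := hlen n
    exact ⟨l, h2, by simpa using h1⟩
  have st : ∀ l : {l // Good l}, ∃ x, Good (x :: l.1) := by
    rintro ⟨l, hl⟩
    by_contra hcon
    push Not at hcon
    have : ∀ x ∈ {x | x :: l ∈ T}, ∀ᶠ n in atTop, ∀ t : List X, t.length = n → t ++ x :: l ∉ T := by
      intro x _
      have := hcon x
      simp only [Good, not_forall, not_exists, not_and] at this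
      obtain ⟨k, hk⟩ := this
      refine eventually_atTop.2 ⟨k, fun n hn t ht h => ?_⟩
      apply hk (t.drop (n - k)) (by simp; omega)
      apply hsuf (t.take (n - k))
      rwa [← List.append_assoc, List.take_append_drop]
    obtain ⟨n, hn⟩ := ((eventually_all_finite (hfin l)).2 this).exists
    obtain ⟨t, ht, h⟩ := hl (n + 1)
    rcases List.eq_nil_or_concat t with rfl | ⟨t', x, rfl⟩
    · simp at ht
    · rw [List.concat_eq_append, List.append_assoc, List.singleton_append] at h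
      exact hn x (hsuf _ _ h) t' (by simpa using ht) h
  choose g hg using st
  let s : ℕ → {l // Good l} := fun n =>
    Nat.rec (motive := fun _ => {l // Good l}) ⟨[], g0⟩ (fun _ a => ⟨g a :: a.1, hg a⟩) n
  refine ⟨fun n => (s n).1, fun n => g (s n), rfl, fun n => rfl, fun n => ?_⟩
  obtain ⟨t, ht, h⟩ := (s n).2 0
  exact hsuf _ _ h

lemma choquet {X Z P : Type*} [MetricSpace X] [MetricSpace Z] {i : X → Z} (hi : Isometry i)
    (V : P → Set X) (hV : ∀ p, IsOpen (V p)) (R : P → X → ℝ → P → Prop) (p0 : P)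
    {O : Set Z} (hO : IsOpen O) (h0 : i ⁻¹' O ⊆ V p0)
    (step : ∀ p, ∀ x ∈ V p, ∀ ε > 0, ∃ q, R p x ε q ∧ x ∈ V q)
    (win : ∀ (s : ℕ → P) (x : ℕ → X) (ε : ℕ → ℝ), s 0 = p0 →
      (∀ n, R (s n) (x n) (ε n) (s (n + 1))) → ∃ z, ∀ n, dist z (x n) ≤ ε n) :
    IsGδ (O ∩ range i) := by
  classical
  have : ∀ p, ∃ W : Set Z, IsOpen W ∧ i ⁻¹' W = V p := fun p =>
    hi.isEmbedding.isInducing.isOpen_iff.1 (hV p)
  choose Ve hVe hVe2 using this
  have : ∀ p x (n : ℕ), ∃ q, x ∈ V p → R p x (1 / ((n : ℝ) + 1)) q ∧ x ∈ V q := by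
    intro p x n
    by_cases h : x ∈ V p
    · obtain ⟨q, hq⟩ := step p x h _ (Nat.one_div_pos_of_nat (n := n))
      exact ⟨q, fun _ => hq⟩
    · exact ⟨p, fun h' => absurd h' h⟩
  choose nx hnx using this
  let u : P → Set Z → ℕ → X → Set Z := fun p W n x =>
    if x ∈ V p then interior W ∩ Ve (nx p x n) ∩ ball (i x) (1 / ((n : ℝ) + 1)) else ∅
  have hu : ∀ p W n x, IsOpen (u p W n x) := by
    intro p W n x
    simp only [u]
    split_ifs
    · exact (isOpen_interior.inter (hVe _)).inter isOpen_ball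
    · exact isOpen_empty
  choose v hv1 hv2 hv3 hv4 using fun p W n => pf (u p W n) (hu p W n)
  let F : List X → P × Set Z := fun l => List.rec (motive := fun _ => P × Set Z) (p0, O)
    (fun x l a => (nx a.1 x l.length, v a.1 a.2 l.length x)) l
  let pos : List X → P := fun l => (F l).1
  let W : List X → Set Z := fun l => (F l).2
  have pos0 : pos [] = p0 := rfl
  have W0 : W [] = O := rfl
  have poss : ∀ x l, pos (x :: l) = nx (pos l) x l.length := fun _ _ => rfl
  have Ws : ∀ x l, W (x :: l) = v (pos l) (W l) l.length x := fun _ _ => rfl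
  clear_value pos W
  have Wo : ∀ l, IsOpen (W l) := by
    intro l
    cases l with
    | nil => rw [W0]; exact hO
    | cons x l => rw [Ws]; exact hv1 _ _ _ _
  have Wp : ∀ x l p, p ∈ W (x :: l) → x ∈ V (pos l) ∧ p ∈ W l ∧ p ∈ Ve (pos (x :: l)) ∧
      dist p (i x) < 1 / ((l.length : ℝ) + 1) := by
    intro x l p hp
    rw [Ws] at hp
    have := hv2 _ _ _ _ hp
    simp only [u] at this
    split_ifs at this with h
    · exact ⟨h, interior_subset this.1.1, by rw [poss]; exact this.1.2, this.2⟩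
    · exact absurd this (notMem_empty _)
  have inv : ∀ l y, i y ∈ W l → y ∈ V (pos l) := by
    intro l y hy
    cases l with
    | nil => rw [pos0]; rw [W0] at hy; exact h0 hy
    | cons x l => rw [← hVe2]; exact (Wp x l _ hy).2.2.1
  have cov : ∀ l y, i y ∈ W l → ∃ x, i y ∈ W (x :: l) := by
    intro l y hy
    have h1 := inv l y hy
    have : i y ∈ u (pos l) (W l) l.length y := by
      simp only [u, if_pos h1]
      refine ⟨⟨by rwa [(Wo l).interior_eq], ?_⟩, mem_ball_self Nat.one_div_pos_of_nat⟩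
      have := (hnx _ _ l.length h1).2
      rwa [← hVe2] at this
    obtain ⟨x, hx⟩ := mem_iUnion.1 (hv3 _ _ _ (mem_iUnion.2 ⟨y, this⟩))
    exact ⟨x, by rwa [Ws]⟩
  have e : O ∩ range i = ⋂ n, ⋃ l ∈ {l : List X | l.length = n}, W l := by
    apply Subset.antisymm
    · rintro _ ⟨hy, y, rfl⟩
      refine mem_iInter.2 fun n => ?_
      induction n with
      | zero => exact mem_iUnion₂.2 ⟨[], rfl, by rwa [W0]⟩
      | succ n ih =>
        obtain ⟨l, hl, h⟩ := mem_iUnion₂.1 ih
        obtain ⟨x, hx⟩ := cov l y h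
        exact mem_iUnion₂.2 ⟨x :: l, by simpa using hl, hx⟩
    · intro p hp
      obtain ⟨l, x, l0, ls, hl⟩ := konig {l | p ∈ W l} (fun x l h => (Wp x l p h).2.1)
        (fun l => by simp only [mem_setOf_eq, Ws]; exact hv4 _ _ _ _)
        (fun n => by
          obtain ⟨l, h1, h2⟩ := mem_iUnion₂.1 (mem_iInter.1 hp n)
          exact ⟨l, h2, h1⟩)
      have hlen : ∀ n, (l n).length = n := by
        intro n
        induction n with
        | zero => rw [l0]; rfl
        | succ n ih => rw [ls, List.length_cons, ih]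
      have hW : ∀ n, p ∈ W (x n :: l n) := fun n => by rw [← ls]; exact hl (n + 1)
      obtain ⟨z, hz⟩ := win (fun n => pos (l n)) x (fun n => 1 / ((n : ℝ) + 1))
        (by simp only [l0, pos0]) (fun n => by
          simp only [ls, poss, hlen]
          exact (hnx _ _ _ (Wp _ _ _ (hW n)).1).1)
      refine ⟨by have := hl 0; rwa [mem_setOf_eq, l0, W0] at this, z, ?_⟩
      apply eq_of_forall_dist_le
      intro ε hε
      obtain ⟨n, hn⟩ := exists_nat_one_div_lt (half_pos hε)
      have a1 := (Wp _ _ _ (hW n)).2.2.2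
      rw [hlen] at a1
      have a2 := hz n
      rw [← hi.dist_eq] at a2
      have a3 := dist_triangle_right (i z) p (i (x n))
      linarith
  rw [e]
  exact IsGδ.iInter_of_isOpen fun n => isOpen_biUnion fun l _ => Wo l

end Pool.Agent.H31.Chq
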