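import Pool.Agent.H31.WijDefs

namespace Pool.Agent.H31.Wij

open Set Metric Topology Filter TopologicalSpace

variable {X : Type*} [MetricSpace X]

noncomputable def emb (A : CL X) : X → ℝ := fun x => infDist x A.1

lemma isInducing_emb : IsInducing (emb : CL X → X → ℝ) := ⟨by rw [induced_to_pi]; rfl⟩

lemma emb_inj : Function.Injective (emb : CL X → X → ℝ) := by
  intro A B h
  apply Subtype.ext
  ext x
  rw [A.2.1.mem_iff_infDist_zero A.2.2, B.2.1.mem_iff_infDist_zero B.2.2]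
  have := congrFun h x
  simp only [emb] at this
  rw [this]

instance t3 : T3Space (CL X) := (⟨isInducing_emb, emb_inj⟩ : IsEmbedding emb).t3Space

lemma cont (x : X) : Continuous (fun A : CL X => infDist x A.1) :=
  (continuous_apply x).comp isInducing_emb.continuous

lemma fin_pos {ι : Type*} {I : Set ι} (hI : I.Finite) (e : ι → ℝ) (he : ∀ x, 0 < e x) :
    ∃ ε > 0, ∀ x ∈ I, ε ≤ e x := by
  induction I, hI using Set.Finite.induction_on with
  | empty => exact ⟨1, one_pos, by simp⟩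
  | @insert a s _ _ ih =>
    obtain ⟨ε, hε, h⟩ := ih
    refine ⟨min ε (e a), lt_min hε (he a), ?_⟩
    rintro x (rfl | hx)
    · exact min_le_right _ _
    · exact (min_le_left _ _).trans (h x hx)

lemma nhds_fin {A : CL X} {U : Set (CL X)} (hU : U ∈ 𝓝 A) :
    ∃ T : Set X, T.Finite ∧ ∃ ε > 0,
      ∀ B : CL X, (∀ x ∈ T, |infDist x B.1 - infDist x A.1| < ε) → B ∈ U := by
  rw [isInducing_emb.nhds_eq_comap, mem_comap] at hU
  obtain ⟨S, hS, hSU⟩ := hU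
  rw [nhds_pi, Filter.mem_pi] at hS
  obtain ⟨I, hI, t, ht, hIt⟩ := hS
  have : ∀ x, ∃ ε > 0, ball (emb A x) ε ⊆ t x := fun x => Metric.mem_nhds_iff.1 (ht x)
  choose e he het using this
  obtain ⟨ε, hε, hεe⟩ := fin_pos hI e he
  refine ⟨I, hI, ε, hε, fun B hB => hSU (hIt fun x hx => het x ?_)⟩
  rw [mem_ball, Real.dist_eq]
  exact (hB x hx).trans_le (hεe x hx)

def Z (Y : Set (X × ℝ)) : Set X := {z | ∀ q ∈ Y, q.2 < dist q.1 z}

def V (H : Set (Set X)) (Y : Set (X × ℝ)) : Set (CL X) :=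
  {A | (∀ W ∈ H, (A.1 ∩ W).Nonempty) ∧ ∀ q ∈ Y, q.2 < infDist q.1 A.1}

structure Ok (B : Set (Set X)) (H : Set (Set X)) (Y : Set (X × ℝ)) : Prop where
  hf : H.Finite
  hn : H.Nonempty
  yf : Y.Finite
  sub : H ⊆ B
  ne : ∀ W ∈ H, W.Nonempty
  op : ∀ W ∈ H, IsOpen W
  zs : ∀ W ∈ H, W ⊆ Z Y

lemma isOpen_Z {Y : Set (X × ℝ)} (hY : Y.Finite) : IsOpen (Z Y) := by
  have : Z Y = ⋂ q ∈ Y, {z | q.2 < dist q.1 z} := by ext z; simp [Z]
  rw [this]
  exact hY.isOpen_biInter fun q _ => isOpen_lt continuous_const (by fun_prop)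

lemma isOpen_hit {W : Set X} (hW : IsOpen W) : IsOpen {A : CL X | (A.1 ∩ W).Nonempty} := by
  rw [isOpen_iff_forall_mem_open]
  rintro A ⟨a, haA, haW⟩
  obtain ⟨r, hr, hrW⟩ := Metric.isOpen_iff.1 hW a haW
  refine ⟨{B : CL X | infDist a B.1 < r}, ?_, isOpen_lt (cont a) continuous_const, ?_⟩
  · intro B hB
    obtain ⟨b, hb, hd⟩ := (infDist_lt_iff B.2.2).1 hB
    exact ⟨b, hb, hrW (by rw [mem_ball, dist_comm]; exact hd)⟩
  · show infDist a A.1 < r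
    rw [infDist_zero_of_mem haA]; exact hr

lemma Ok.isOpen {B H : Set (Set X)} {Y : Set (X × ℝ)} (h : Ok B H Y) : IsOpen (V H Y) := by
  have : V H Y = (⋂ W ∈ H, {A : CL X | (A.1 ∩ W).Nonempty}) ∩
      ⋂ q ∈ Y, {A : CL X | q.2 < infDist q.1 A.1} := by
    ext A; simp [V]
  rw [this]
  exact (h.hf.isOpen_biInter fun W hW => isOpen_hit (h.op W hW)).inter
    (h.yf.isOpen_biInter fun q _ => isOpen_lt continuous_const (cont q.1))

lemma fin_mem {H : Set (Set X)} {Y : Set (X × ℝ)} {F : Set X} (hF : F.Finite) (hn : F.Nonempty)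
    (hz : F ⊆ Z Y) (hh : ∀ W ∈ H, (F ∩ W).Nonempty) :
    (⟨F, hF.isClosed, hn⟩ : CL X) ∈ V H Y := by
  refine ⟨hh, fun q hq => ?_⟩
  obtain ⟨y, hy, e⟩ := hF.isCompact.exists_infDist_eq_dist hn q.1
  show q.2 < infDist q.1 F
  rw [e]; exact hz hy q hq

lemma infDist_le_add {A B : Set X} {ε : ℝ} (hA : A.Nonempty)
    (h : ∀ a ∈ A, ∃ b ∈ B, dist a b ≤ ε) (x : X) : infDist x B ≤ infDist x A + ε := by
  apply le_of_forall_pos_le_add
  intro δ hδ
  obtain ⟨a, ha, hd⟩ := (infDist_lt_iff hA).1 (lt_add_of_pos_right (infDist x A) hδ)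
  obtain ⟨b, hb, hab⟩ := h a ha
  have h1 := infDist_le_dist_of_mem (x := x) hb
  have h2 := dist_triangle x a b
  linarith

lemma Ok.clos {B H : Set (Set X)} {Y : Set (X × ℝ)} (h : Ok B H Y) (A : CL X)
    (hz : A.1 ⊆ closure (Z Y)) (hh : ∀ W ∈ H, (A.1 ∩ closure W).Nonempty) :
    A ∈ closure (V H Y) := by
  rw [mem_closure_iff_nhds]
  intro U hU
  obtain ⟨T, hT, ε, hε, hTU⟩ := nhds_fin hU
  have h1 : ∀ x : X, ∃ z ∈ Z Y, dist x z < infDist x A.1 + ε ∧ ∃ a ∈ A.1, dist z a ≤ ε / 2 := by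
    intro x
    obtain ⟨a, ha, hd⟩ := (infDist_lt_iff A.2.2).1
      (lt_add_of_pos_right (infDist x A.1) (half_pos hε))
    obtain ⟨z, hzz, hd2⟩ := Metric.mem_closure_iff.1 (hz ha) _ (half_pos hε)
    refine ⟨z, hzz, ?_, a, ha, by rw [dist_comm]; exact hd2.le⟩
    have := dist_triangle x a z
    linarith
  choose z hzZ hzd hza using h1
  have h2 : ∀ W : H, ∃ w ∈ W.1, ∃ a ∈ A.1, dist w a ≤ ε / 2 := by
    intro W
    obtain ⟨a, ha, haW⟩ := hh W.1 W.2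
    obtain ⟨w, hw, hd⟩ := Metric.mem_closure_iff.1 haW _ (half_pos hε)
    exact ⟨w, hw, a, ha, by rw [dist_comm]; exact hd.le⟩
  choose w hwW hwa using h2
  have := h.hf.to_subtype
  have hF : (z '' T ∪ range w).Finite := (hT.image z).union (finite_range w)
  obtain ⟨W0, hW0⟩ := h.hn
  have hn : (z '' T ∪ range w).Nonempty := ⟨w ⟨W0, hW0⟩, Or.inr ⟨_, rfl⟩⟩
  refine ⟨⟨_, hF.isClosed, hn⟩, hTU _ fun x hx => ?_, fin_mem hF hn ?_ ?_⟩
  · show |infDist x (z '' T ∪ range w) - infDist x A.1| < ε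
    have a1 : infDist x (z '' T ∪ range w) ≤ dist x (z x) :=
      infDist_le_dist_of_mem (Or.inl ⟨x, hx, rfl⟩)
    have a2 : infDist x A.1 ≤ infDist x (z '' T ∪ range w) + ε / 2 := by
      apply infDist_le_add hn
      rintro _ (⟨y, -, rfl⟩ | ⟨W, rfl⟩)
      · exact hza y
      · exact hwa W
    have := hzd x
    rw [abs_lt]; constructor <;> linarith
  · rintro _ (⟨y, -, rfl⟩ | ⟨W, rfl⟩)
    · exact hzZ y
    · exact h.zs W.1 W.2 (hwW W)
  · intro W hW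
    exact ⟨w ⟨W, hW⟩, Or.inr ⟨_, rfl⟩, hwW ⟨W, hW⟩⟩

lemma Ok.hit {B H H' : Set (Set X)} {Y Y' : Set (X × ℝ)} (h : Ok B H' Y')
    (hc : closure (V H' Y') ⊆ V H Y) {W : Set X} (hW : W ∈ H) : ∃ W' ∈ H', closure W' ⊆ W := by
  by_contra hcon
  push Not at hcon
  have : ∀ W' : H', ∃ z ∈ closure W'.1, z ∉ W := fun W' => not_subset.1 (hcon W'.1 W'.2)
  choose z hz hzW using this
  have := h.hf.to_subtype
  obtain ⟨W0, hW0⟩ := h.hn
  have hm := hc (h.clos ⟨range z, (finite_range z).isClosed, ⟨z ⟨W0, hW0⟩, _, rfl⟩⟩ ?_ ?_)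
  · obtain ⟨_, ⟨W', rfl⟩, h2⟩ := hm.1 W hW
    exact hzW W' h2
  · rintro _ ⟨W', rfl⟩
    exact closure_mono (h.zs _ W'.2) (hz W')
  · intro W' hW'
    exact ⟨z ⟨W', hW'⟩, ⟨_, rfl⟩, hz ⟨W', hW'⟩⟩

lemma Ok.zone {B H H' : Set (Set X)} {Y Y' : Set (X × ℝ)} (h : Ok B H' Y')
    (hc : closure (V H' Y') ⊆ V H Y) : Z Y' ⊆ Z Y := by
  intro z hz q hq
  have hm := hc (h.clos ⟨closure (Z Y'), isClosed_closure, ⟨z, subset_closure hz⟩⟩ subset_rfl ?_)
  · exact (hm.2 q hq).trans_le (infDist_le_dist_of_mem (subset_closure hz))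
  · intro W hW
    obtain ⟨w, hw⟩ := h.ne W hW
    exact ⟨w, subset_closure (h.zs W hW hw), subset_closure hw⟩

lemma Ok.nonempty {B H : Set (Set X)} {Y : Set (X × ℝ)} (h : Ok B H Y) : (V H Y).Nonempty := by
  obtain ⟨W0, hW0⟩ := h.hn
  obtain ⟨w0, hw0⟩ := h.ne W0 hW0
  have hm := h.clos ⟨closure (Z Y), isClosed_closure, ⟨w0, subset_closure (h.zs _ hW0 hw0)⟩⟩
    subset_rfl ?_
  · exact closure_nonempty_iff.1 ⟨_, hm⟩
  · intro W hW
    obtain ⟨w, hw⟩ := h.ne W hW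
    exact ⟨w, subset_closure (h.zs W hW hw), subset_closure hw⟩

lemma exists_ok {B : Set (Set X)} (hB : IsTopologicalBasis B) {A : CL X} {U : Set (CL X)}
    (hU : U ∈ 𝓝 A) : ∃ H Y, Ok B H Y ∧ A ∈ V H Y ∧ V H Y ⊆ U := by
  obtain ⟨T0, hT0, ε, hε, hTU⟩ := nhds_fin hU
  obtain ⟨a0, ha0⟩ := A.2.2
  set T := insert a0 T0 with hTd
  have hT : T.Finite := hT0.insert a0
  set Y : Set (X × ℝ) := (fun x => (x, infDist x A.1 - ε)) '' T with hY
  have hYf : Y.Finite := hT.image _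
  have hAZ : A.1 ⊆ Z Y := by
    rintro a ha _ ⟨x, -, rfl⟩
    have := infDist_le_dist_of_mem (x := x) ha
    show infDist x A.1 - ε < dist x a
    linarith
  have h1 : ∀ x : X, ∃ W ∈ B, (A.1 ∩ W).Nonempty ∧ W ⊆ Z Y ∩ ball x (infDist x A.1 + ε) := by
    intro x
    obtain ⟨a, ha, hd⟩ := (infDist_lt_iff A.2.2).1 (lt_add_of_pos_right (infDist x A.1) hε)
    obtain ⟨W, hW, haW, hs⟩ := hB.exists_subset_of_mem_open
      (show a ∈ Z Y ∩ ball x (infDist x A.1 + ε) from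
        ⟨hAZ ha, by rw [mem_ball, dist_comm]; exact hd⟩) ((isOpen_Z hYf).inter isOpen_ball)
    exact ⟨W, hW, ⟨a, ha, haW⟩, hs⟩
  choose W hWB hWA hWs using h1
  refine ⟨W '' T, Y, ⟨hT.image _, ⟨_, a0, mem_insert _ _, rfl⟩, hYf, ?_, ?_, ?_, ?_⟩,
    ⟨?_, ?_⟩, ?_⟩
  · rintro _ ⟨x, -, rfl⟩; exact hWB x
  · rintro _ ⟨x, -, rfl⟩; exact (hWA x).right
  · rintro _ ⟨x, -, rfl⟩; exact hB.isOpen (hWB x)
  · rintro _ ⟨x, -, rfl⟩; exact (hWs x).trans inter_subset_left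
  · rintro _ ⟨x, -, rfl⟩; exact hWA x
  · rintro _ ⟨x, -, rfl⟩
    show infDist x A.1 - ε < infDist x A.1
    linarith
  · intro C hC
    apply hTU
    intro x hx
    have hxT : x ∈ T := mem_insert_of_mem _ hx
    have a1 : infDist x A.1 - ε < infDist x C.1 := hC.2 _ ⟨x, hxT, rfl⟩
    obtain ⟨c, hc, hcW⟩ := hC.1 _ ⟨x, hxT, rfl⟩
    have a2 := (hWs x hcW).2
    rw [mem_ball, dist_comm] at a2
    have a3 := infDist_le_dist_of_mem (x := x) hc
    rw [abs_lt]; constructor <;> linarith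

/-- property (C) of a base. -/
def PropC {Y : Type*} [TopologicalSpace Y] (B : Set (Set Y)) : Prop :=
  ∀ W : ℕ → Set Y, (∀ n, W n ∈ B) → (∀ n, (W n).Nonempty) → (∀ n, closure (W (n + 1)) ⊆ W n) →
    (∀ n, W (n + 1) ≠ W n) → ∃ p, (∀ n, p ∈ W n) ∧ ∀ U ∈ 𝓝 p, ∃ n, W n ⊆ U

theorem subcompact_of_propC {B : Set (Set X)} (hB : IsTopologicalBasis B) (hC : PropC B) :
    Subcompact (CL X) := by
  refine ⟨inferInstance, {S | ∃ H Y, Ok B H Y ∧ S = V H Y}, ?_, ?_⟩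
  · apply isTopologicalBasis_of_isOpen_of_nhds
    · rintro _ ⟨H, Y, h, rfl⟩; exact h.isOpen
    · intro A U hA hU
      obtain ⟨H, Y, h, h1, h2⟩ := exists_ok hB (hU.mem_nhds hA)
      exact ⟨_, ⟨H, Y, h, rfl⟩, h1, h2⟩
  rintro F hF ⟨⟨S0, hS0⟩, -, hdir, hreg⟩
  have : ∀ S : F, ∃ H Y, Ok B H Y ∧ S.1 = V H Y := fun S => hF S.2
  choose H Y hok heq using this
  have meet : ∀ (S : F), ∀ W ∈ H S, ∀ S' : F, ∃ S'' : F, ∃ W' ∈ H S'',
      closure W' ⊆ W ∧ W' ⊆ Z (Y S') := by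
    intro S W hW S'
    obtain ⟨K, hK, hKs⟩ := hdir S.1 S.2 S'.1 S'.2
    obtain ⟨L, hL, hLs⟩ := hreg K hK
    have e : L = V (H ⟨L, hL⟩) (Y ⟨L, hL⟩) := heq ⟨L, hL⟩
    have c1 : closure (V (H ⟨L, hL⟩) (Y ⟨L, hL⟩)) ⊆ V (H S) (Y S) := by
      rw [← e, ← heq S]; exact hLs.trans (hKs.trans inter_subset_left)
    have c2 : closure (V (H ⟨L, hL⟩) (Y ⟨L, hL⟩)) ⊆ V (H S') (Y S') := by
      rw [← e, ← heq S']; exact hLs.trans (hKs.trans inter_subset_right)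
    obtain ⟨W', hW', hs⟩ := (hok ⟨L, hL⟩).hit c1 hW
    exact ⟨⟨L, hL⟩, W', hW', hs, ((hok ⟨L, hL⟩).zs W' hW').trans ((hok ⟨L, hL⟩).zone c2)⟩
  have key : ∀ (S : F), ∀ W ∈ H S, ∃ p ∈ W, ∀ S' : F, p ∈ closure (Z (Y S')) := by
    intro S W hW
    by_cases hmin : ∃ S1 : F, ∃ W1 ∈ H S1, W1 ⊆ W ∧
        ∀ S2 : F, ∀ W2 ∈ H S2, closure W2 ⊆ W1 → W2 = W1
    · obtain ⟨S1, W1, hW1, hs, hm⟩ := hmin
      obtain ⟨p, hp⟩ := (hok S1).ne W1 hW1
      refine ⟨p, hs hp, fun S' => ?_⟩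
      obtain ⟨S2, W2, hW2, h1, h2⟩ := meet S1 W1 hW1 S'
      rw [hm S2 W2 hW2 h1] at h2
      exact subset_closure (h2 hp)
    · push Not at hmin
      let T := {W1 : Set X // (∃ S1 : F, W1 ∈ H S1) ∧ W1 ⊆ W}
      have st : ∀ a : T, ∃ b : T, closure b.1 ⊆ a.1 ∧ b.1 ≠ a.1 := by
        rintro ⟨W1, ⟨S1, hW1⟩, hs⟩
        obtain ⟨S2, W2, hW2, h1, h2⟩ := hmin S1 W1 hW1 hs
        exact ⟨⟨W2, ⟨S2, hW2⟩, (subset_closure.trans h1).trans hs⟩, h1, h2⟩
      choose g hg1 hg2 using st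
      let s : ℕ → T := fun n => g^[n] ⟨W, ⟨S, hW⟩, subset_rfl⟩
      have hs : ∀ n, s (n + 1) = g (s n) := fun n => Function.iterate_succ_apply' g n _
      obtain ⟨p, hp, hpU⟩ := hC (fun n => (s n).1)
        (fun n => by obtain ⟨S1, h1⟩ := (s n).2.1; exact (hok S1).sub h1)
        (fun n => by obtain ⟨S1, h1⟩ := (s n).2.1; exact (hok S1).ne _ h1)
        (fun n => by simp only [hs]; exact hg1 _) (fun n => by simp only [hs]; exact hg2 _)
      refine ⟨p, (s 0).2.2 (hp 0), fun S' => ?_⟩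
      rw [mem_closure_iff_nhds]
      intro U hU
      obtain ⟨n, hn⟩ := hpU U hU
      obtain ⟨S1, h1⟩ := (s n).2.1
      obtain ⟨S2, W2, hW2, h3, h4⟩ := meet S1 _ h1 S'
      obtain ⟨w, hw⟩ := (hok S2).ne _ hW2
      exact ⟨w, hn (h3 (subset_closure hw)), h4 hw⟩
  obtain ⟨W0, hW0⟩ := (hok ⟨S0, hS0⟩).hn
  obtain ⟨p0, -, hp0⟩ := key _ W0 hW0
  let A : CL X := ⟨⋂ S' : F, closure (Z (Y S')), isClosed_iInter fun _ => isClosed_closure,
    ⟨p0, mem_iInter.2 hp0⟩⟩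
  have hA : ∀ S : F, A ∈ closure S.1 := by
    intro S
    rw [heq S]
    apply (hok S).clos
    · exact iInter_subset _ S
    · intro W hW
      obtain ⟨p, hp, h2⟩ := key S W hW
      exact ⟨p, mem_iInter.2 h2, subset_closure hp⟩
  refine ⟨A, fun S hS => ?_⟩
  obtain ⟨T, hT, hTs⟩ := hreg S hS
  exact hTs (hA ⟨T, hT⟩)

/-- thinning a base of a metric space so that strictly decreasing chains shrink. -/
lemma thin {B : Set (Set X)} (hB : IsTopologicalBasis B) :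
    ∃ B' ⊆ B, IsTopologicalBasis B' ∧ ∀ W : ℕ → Set X, (∀ n, W n ∈ B') →
      (∀ n, W (n + 1) ⊆ W n) → (∀ n, W (n + 1) ≠ W n) →
      ∀ ε > 0, ∃ n, ∀ a ∈ W n, ∀ b ∈ W n, dist a b < ε := by
  classical
  let r : Set X → Set X → Prop := WellOrderingRel
  have hr : IsWellOrder (Set X) r := WellOrderingRel.isWellOrder
  let sm : ℕ → Set X → Prop := fun n S => S ∈ B ∧ ∀ a ∈ S, ∀ b ∈ S, dist a b < 1 / ((n : ℝ) + 1)
  let L : ℕ → Set (Set X) := fun n => {S | sm n S ∧ ∀ S', sm n S' → r S' S → ¬ S ⊆ S'}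
  refine ⟨⋃ n, L n, ?_, ?_, ?_⟩
  · intro S hS
    obtain ⟨n, hn⟩ := mem_iUnion.1 hS
    exact hn.1.1
  · apply isTopologicalBasis_of_isOpen_of_nhds
    · intro S hS
      obtain ⟨n, hn⟩ := mem_iUnion.1 hS
      exact hB.isOpen hn.1.1
    · intro x U hx hU
      obtain ⟨ε, hε, hεU⟩ := Metric.isOpen_iff.1 hU x hx
      obtain ⟨n, hn⟩ := exists_nat_one_div_lt hε
      have hpos : (0 : ℝ) < 1 / ((n : ℝ) + 1) := Nat.one_div_pos_of_nat
      have hne : {S | sm n S ∧ x ∈ S}.Nonempty := by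
        obtain ⟨S, hS, hxS, hs⟩ := hB.exists_subset_of_mem_open
          (mem_ball_self (x := x) (half_pos hpos)) isOpen_ball
        refine ⟨S, ⟨hS, fun a ha b hb => ?_⟩, hxS⟩
        have h1 := mem_ball.1 (hs ha)
        have h2 := mem_ball.1 (hs hb)
        have h3 := dist_triangle_right a b x
        linarith
      obtain ⟨S, ⟨hS, hxS⟩, hm⟩ := hr.wf.has_min _ hne
      refine ⟨S, mem_iUnion.2 ⟨n, hS, fun S' h1 h2 h3 => hm S' ⟨h1, h3 hxS⟩ h2⟩, hxS, ?_⟩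
      intro a ha
      exact hεU (mem_ball.2 ((hS.2 a ha x hxS).trans hn))
  · intro W hW hdec hne ε hε
    have : ∀ k, ∃ n, W k ∈ L n := fun k => mem_iUnion.1 (hW k)
    choose lv hlv using this
    obtain ⟨N, hN⟩ := exists_nat_one_div_lt hε
    have hanti : StrictAnti W := strictAnti_nat_of_succ_lt fun n => lt_of_le_of_ne (hdec n) (hne n)
    by_cases hex : ∃ k, N ≤ lv k
    · obtain ⟨k, hk⟩ := hex
      refine ⟨k, fun a ha b hb => ((hlv k).1.2 a ha b hb).trans_le (le_trans ?_ hN.le)⟩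
      exact Nat.one_div_le_one_div hk
    · exfalso
      push Not at hex
      obtain ⟨y, hy⟩ := Finite.exists_infinite_fiber (fun k => (⟨lv k, hex k⟩ : Fin N))
      have hinf : {k | lv k = y.1}.Infinite := by
        have : ((fun k => (⟨lv k, hex k⟩ : Fin N)) ⁻¹' {y}).Infinite := Set.infinite_coe_iff.1 hy
        refine this.mono fun k hk => ?_
        exact congrArg Fin.val (mem_singleton_iff.1 hk)
      obtain ⟨_, ⟨k, hk, rfl⟩, hm⟩ := hr.wf.has_min (W '' {k | lv k = y.1})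
        (hinf.nonempty.image _)
      obtain ⟨j, hj, hkj⟩ := hinf.exists_gt k
      have hlt := hanti hkj
      have a1 := hm (W j) ⟨j, hj, rfl⟩
      have hk' : lv k = y.1 := hk
      have hj' : lv j = y.1 := hj
      have a2 := (hlv j).2 (W k) (by rw [hj', ← hk']; exact (hlv k).1)
      rcases trichotomous_of r (W j) (W k) with h | h | h
      · exact a1 h
      · exact hlt.ne h
      · exact a2 h hlt.le

lemma propC_of_subcompact (h : Subcompact X) :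
    ∃ B : Set (Set X), IsTopologicalBasis B ∧ PropC B := by
  obtain ⟨-, B, hB, hF⟩ := h
  obtain ⟨B', hs, hB', hth⟩ := thin hB
  refine ⟨B', hB', fun W h1 h2 h3 h4 => ?_⟩
  have hdec : ∀ n, W (n + 1) ⊆ W n := fun n => subset_closure.trans (h3 n)
  have hanti : Antitone W := antitone_nat_of_succ_le hdec
  obtain ⟨p, hp⟩ := hF (range W) (by rintro _ ⟨n, rfl⟩; exact hs (h1 n))
    ⟨range_nonempty _, by rintro _ ⟨n, rfl⟩; exact h2 n, by
      rintro _ ⟨n, rfl⟩ _ ⟨m, rfl⟩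
      exact ⟨_, ⟨max n m, rfl⟩, subset_inter (hanti (le_max_left _ _)) (hanti (le_max_right _ _))⟩,
      by rintro _ ⟨n, rfl⟩; exact ⟨_, ⟨n + 1, rfl⟩, h3 n⟩⟩
  have hp' : ∀ n, p ∈ W n := fun n => hp _ ⟨n, rfl⟩
  refine ⟨p, hp', fun U hU => ?_⟩
  obtain ⟨ε, hε, hεU⟩ := Metric.mem_nhds_iff.1 hU
  obtain ⟨n, hn⟩ := hth W h1 hdec h4 ε hε
  exact ⟨n, fun a ha => hεU (hn a ha p (hp' n))⟩

lemma propC_of_complete [CompleteSpace X] :
    ∃ B : Set (Set X), IsTopologicalBasis B ∧ PropC B := by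
  obtain ⟨B', -, hB', hth⟩ := thin (X := X) isTopologicalBasis_opens
  refine ⟨B', hB', fun W h1 h2 h3 h4 => ?_⟩
  have hdec : ∀ n, W (n + 1) ⊆ W n := fun n => subset_closure.trans (h3 n)
  have hanti : Antitone W := antitone_nat_of_succ_le hdec
  choose x hx using h2
  have hc : CauchySeq x := by
    rw [Metric.cauchySeq_iff]
    intro ε hε
    obtain ⟨n, hn⟩ := hth W h1 hdec h4 ε hε
    exact ⟨n, fun a ha b hb => hn _ (hanti ha (hx a)) _ (hanti hb (hx b))⟩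
  obtain ⟨p, hp⟩ := cauchySeq_tendsto_of_complete hc
  have hp' : ∀ n, p ∈ W n := fun n => h3 n (mem_closure_of_tendsto hp
    (eventually_atTop.2 ⟨n + 1, fun m hm => hanti hm (hx m)⟩))
  refine ⟨p, hp', fun U hU => ?_⟩
  obtain ⟨ε, hε, hεU⟩ := Metric.mem_nhds_iff.1 hU
  obtain ⟨n, hn⟩ := hth W h1 hdec h4 ε hε
  exact ⟨n, fun a ha => hεU (hn a ha p (hp' n))⟩

lemma propC_of_cm {Y : Type*} [TopologicalSpace Y] [IsCompletelyMetrizableSpace Y] :
    ∃ B : Set (Set Y), IsTopologicalBasis B ∧ PropC B := by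
  letI := upgradeIsCompletelyMetrizable Y
  exact propC_of_complete

theorem partB (h : Subcompact X) : Subcompact (CL X) := by
  obtain ⟨B, hB, hC⟩ := propC_of_subcompact h
  exact subcompact_of_propC hB hC

lemma saf_of_subcompact {Y : Type*} [TopologicalSpace Y] (h : Subcompact Y) :
    StronglyAlphaFavorable Y := by
  obtain ⟨h3, B, hB, hF⟩ := h
  have : ∀ (y : Y) (U : Set Y), ∃ S, IsOpen U → y ∈ U → S ∈ B ∧ y ∈ S ∧ closure S ⊆ U := by
    intro y U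
    by_cases h : IsOpen U ∧ y ∈ U
    · obtain ⟨C, hC, hcl, hs⟩ := exists_mem_nhds_isClosed_subset (h.1.mem_nhds h.2)
      obtain ⟨S, hS, hy, hSC⟩ := hB.mem_nhds_iff.1 hC
      exact ⟨S, fun _ _ => ⟨hS, hy, (closure_minimal hSC hcl).trans hs⟩⟩
    · exact ⟨∅, fun a b => absurd ⟨a, b⟩ h⟩
  choose σ hσ using this
  refine ⟨σ, fun y U hU hy => ⟨hB.isOpen (hσ y U hU hy).1, (hσ y U hU hy).2.1,
    subset_closure.trans (hσ y U hU hy).2.2⟩, fun y U h1 h2 => ?_⟩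
  set W : ℕ → Set Y := fun n => σ (y n) (U n) with hW
  have h3 : ∀ n, closure (W (n + 1)) ⊆ W n := fun n =>
    (hσ _ _ (h1 _).1 (h1 _).2).2.2.trans (h2 n)
  have hanti : Antitone W := antitone_nat_of_succ_le fun n => subset_closure.trans (h3 n)
  obtain ⟨p, hp⟩ := hF (range W) (by rintro _ ⟨n, rfl⟩; exact (hσ _ _ (h1 _).1 (h1 _).2).1)
    ⟨range_nonempty _, by rintro _ ⟨n, rfl⟩; exact ⟨_, (hσ _ _ (h1 _).1 (h1 _).2).2.1⟩, by
      rintro _ ⟨n, rfl⟩ _ ⟨m, rfl⟩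
      exact ⟨_, ⟨max n m, rfl⟩, subset_inter (hanti (le_max_left _ _)) (hanti (le_max_right _ _))⟩,
      by rintro _ ⟨n, rfl⟩; exact ⟨_, ⟨n + 1, rfl⟩, h3 n⟩⟩
  exact ⟨p, mem_iInter.2 fun n => hp _ ⟨n, rfl⟩⟩

theorem saf [IsCompletelyMetrizableSpace X] : StronglyAlphaFavorable (CL X) := by
  obtain ⟨B, hB, hC⟩ := propC_of_cm (Y := X)
  exact saf_of_subcompact (subcompact_of_propC hB hC)

/-- members extendable backwards to a chain from level zero. -/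
def back (P : ℕ → Set (Set X)) : ℕ → Set (Set X)
  | 0 => P 0
  | n + 1 => {W | W ∈ P (n + 1) ∧ ∃ W' ∈ back P n, closure W ⊆ W'}

lemma back_sub (P : ℕ → Set (Set X)) : ∀ n, back P n ⊆ P n
  | 0 => subset_rfl
  | _ + 1 => fun _ h => h.1

lemma back_pi {P : ℕ → Set (Set X)} (hq : QuasiRegular X) (hP : ∀ n, IsPiBase (P n)) :
    ∀ n, IsPiBase (back P n)
  | 0 => hP 0
  | n + 1 => by
    refine ⟨fun W hW => (hP _).1 W hW.1, fun U hU hne => ?_⟩
    obtain ⟨W', hW', hs⟩ := (back_pi hq hP n).2 U hU hne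
    obtain ⟨G, hG, hGn, hGs⟩ := hq W' ((back_pi hq hP n).1 W' hW').1 ((back_pi hq hP n).1 W' hW').2
    obtain ⟨W, hW, hWs⟩ := (hP (n + 1)).2 G hG hGn
    have := (closure_mono hWs).trans hGs
    exact ⟨W, ⟨hW, W', hW', this⟩, (subset_closure.trans this).trans hs⟩

lemma back_chain {P : ℕ → Set (Set X)}
    (hc : ∀ V : ℕ → Set X, (∀ n, V n ∈ P n) → (∀ n, closure (V (n + 1)) ⊆ V n) →
      (⋂ n, V n).Nonempty) :
    ∀ n, ∀ W : ℕ → Set X, W 0 ∈ back P n → (∀ k, W k ∈ P (n + k)) →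
      (∀ k, closure (W (k + 1)) ⊆ W k) → (⋂ k, W k).Nonempty
  | 0 => fun W _ h1 h2 => hc W (by simpa using h1) h2
  | n + 1 => fun W h0 h1 h2 => by
    obtain ⟨-, W', hW', hs⟩ := h0
    obtain ⟨p, hp⟩ := back_chain hc n (fun k => Nat.casesOn k W' W) hW'
      (fun k => by
        cases k with
        | zero => exact back_sub P n hW'
        | succ k => have := h1 k; rwa [show n + 1 + k = n + (k + 1) by ring] at this)
      (fun k => by
        cases k with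
        | zero => exact hs
        | succ k => exact h2 k)
    exact ⟨p, mem_iInter.2 fun k => mem_iInter.1 hp (k + 1)⟩

theorem partA (h : Pseudocomplete X) : Pseudocomplete (CL X) := by
  obtain ⟨hq, P, hP, hc⟩ := h
  refine ⟨?_, fun n => {S | ∃ H Y, Ok (back P n) H Y ∧ S = V H Y}, fun n => ⟨?_, ?_⟩, ?_⟩
  · rintro U hU ⟨A, hA⟩
    obtain ⟨C, hC, hcl, hs⟩ := exists_mem_nhds_isClosed_subset (hU.mem_nhds hA)
    exact ⟨interior C, isOpen_interior, ⟨A, mem_interior_iff_mem_nhds.2 hC⟩,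
      (closure_minimal interior_subset hcl).trans hs⟩
  · rintro _ ⟨H, Y, h, rfl⟩; exact ⟨h.isOpen, h.nonempty⟩
  · rintro U hU ⟨A, hA⟩
    obtain ⟨H, Y, h, -, h2⟩ := exists_ok isTopologicalBasis_opens (hU.mem_nhds hA)
    have : ∀ W : H, ∃ W' ∈ back P n, W' ⊆ W.1 := fun W =>
      (back_pi hq hP n).2 W.1 (h.op _ W.2) (h.ne _ W.2)
    choose g hg1 hg2 using this
    have := h.hf.to_subtype
    obtain ⟨W0, hW0⟩ := h.hn
    refine ⟨_, ⟨range g, Y, ⟨finite_range g, ⟨_, ⟨W0, hW0⟩, rfl⟩, h.yf, ?_, ?_, ?_, ?_⟩, rfl⟩, ?_⟩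
    · rintro _ ⟨W, rfl⟩; exact hg1 W
    · rintro _ ⟨W, rfl⟩; exact ((back_pi hq hP n).1 _ (hg1 W)).2
    · rintro _ ⟨W, rfl⟩; exact ((back_pi hq hP n).1 _ (hg1 W)).1
    · rintro _ ⟨W, rfl⟩; exact (hg2 W).trans (h.zs _ W.2)
    · refine subset_trans ?_ h2
      intro C hC
      exact ⟨fun W hW => (hC.1 _ ⟨⟨W, hW⟩, rfl⟩).mono (inter_subset_inter_right _ (hg2 _)), hC.2⟩
  · intro S hS hcl
    choose H Y hok heq using hS
    have hcl' : ∀ n, closure (V (H (n + 1)) (Y (n + 1))) ⊆ V (H n) (Y n) := fun n => by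
      rw [← heq, ← heq]; exact hcl n
    have hZ : Antitone fun n => Z (Y n) :=
      antitone_nat_of_succ_le fun n => (hok (n + 1)).zone (hcl' n)
    have st : ∀ n, ∀ W : H n, ∃ W' : H (n + 1), closure W'.1 ⊆ W.1 := fun n W => by
      obtain ⟨W', h1, h2⟩ := (hok (n + 1)).hit (hcl' n) W.2
      exact ⟨⟨W', h1⟩, h2⟩
    choose g hg using st
    have key : ∀ n, ∀ W ∈ H n, ∃ p ∈ W, ∀ k, p ∈ Z (Y k) := by
      intro n W hW
      let s : ∀ k, H (n + k) := fun k =>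
        Nat.rec (motive := fun k => H (n + k)) ⟨W, hW⟩ (fun k a => g (n + k) a) k
      obtain ⟨p, hp⟩ := back_chain hc n (fun k => (s k).1) ((hok n).sub hW)
        (fun k => back_sub P _ ((hok _).sub (s k).2)) (fun k => hg (n + k) (s k))
      refine ⟨p, mem_iInter.1 hp 0, fun k => hZ (Nat.le_add_left k n) ?_⟩
      exact (hok _).zs _ (s k).2 (mem_iInter.1 hp k)
    obtain ⟨W0, hW0⟩ := (hok 0).hn
    obtain ⟨p0, -, hp0⟩ := key 0 W0 hW0
    let A : CL X := ⟨⋂ k, closure (Z (Y k)), isClosed_iInter fun _ => isClosed_closure,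
      ⟨p0, mem_iInter.2 fun k => subset_closure (hp0 k)⟩⟩
    refine ⟨A, mem_iInter.2 fun n => hcl n ?_⟩
    rw [heq]
    apply (hok _).clos
    · exact iInter_subset (fun k => closure (Z (Y k))) _
    · intro W hW
      obtain ⟨p, hp, h2⟩ := key _ W hW
      exact ⟨p, mem_iInter.2 fun k => subset_closure (h2 k), subset_closure hp⟩

end Pool.Agent.H31.Wij
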