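import Pool.Agent.H31.Chq
import Pool.Agent.H31.Wij

namespace Pool.Agent.H31.Chq

open Set Metric Topology Filter TopologicalSpace BoundedContinuousFunction

def Compat {X : Type*} (t : TopologicalSpace X) (d : X → X → ℝ) : Prop :=
  ∃ m : MetricSpace X, m.toUniformSpace.toTopologicalSpace = t ∧ ∀ p q, m.dist p q = d p q

lemma supMetric {X J : Type*} [t : MetricSpace X] (h : J → X → ℝ) (C r : ℝ) (hr : 0 < r)
    (hb : ∀ j p, |h j p| ≤ C)
    (hc : ∀ ε > 0, ∃ θ > 0, ∀ j p q, dist p q < θ → |h j p - h j q| ≤ ε)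
    (hs : ∀ p, ∃ j, ∀ q, min (dist p q) r ≤ |h j p - h j q|) :
    ∃ d : X → X → ℝ, Compat t.toUniformSpace.toTopologicalSpace d ∧
      ∀ p q, (∀ j, |h j p - h j q| ≤ d p q) ∧
        ∀ c, (∀ j, |h j p - h j q| ≤ c) → d p q ≤ c := by
  letI : TopologicalSpace J := ⊥
  haveI : DiscreteTopology J := ⟨rfl⟩
  let H : X → (J →ᵇ ℝ) := fun p => ofNormedAddCommGroupDiscrete (fun j => h j p) C (fun j => hb j p)
  have H1 : ∀ p q j, |h j p - h j q| ≤ dist (H p) (H q) := fun p q j =>
    dist_coe_le_dist (f := H p) (g := H q) j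
  have H2 : ∀ p q c, (∀ j, |h j p - h j q| ≤ c) → dist (H p) (H q) ≤ c := by
    intro p q c hc
    obtain ⟨j, -⟩ := hs p
    exact (dist_le ((abs_nonneg _).trans (hc j))).2 hc
  have hcont : Continuous H := by
    rw [Metric.continuous_iff]
    intro p ε hε
    obtain ⟨θ, hθ, h1⟩ := hc (ε / 2) (half_pos hε)
    exact ⟨θ, hθ, fun q hq => (H2 q p _ fun j => h1 j q p hq).trans_lt (half_lt_self hε)⟩
  have hmin : ∀ p q, min (dist p q) r ≤ dist (H p) (H q) := fun p q => by
    obtain ⟨j, hj⟩ := hs p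
    exact (hj q).trans (H1 p q j)
  have he : IsEmbedding H := by
    refine ⟨isInducing_iff_nhds.2 fun p => le_antisymm (hcont.tendsto p).le_comap ?_, ?_⟩
    · intro U hU
      obtain ⟨ε, hε, hεU⟩ := Metric.mem_nhds_iff.1 hU
      refine mem_comap.2 ⟨ball (H p) (min ε r), ball_mem_nhds _ (lt_min hε hr), fun q hq => hεU ?_⟩
      have h1 : dist (H q) (H p) < min ε r := hq
      have h2 := (hmin q p).trans_lt h1
      rw [mem_ball]
      by_contra hcon
      exact absurd h2 (not_lt.2 (min_le_min_right r (not_lt.1 hcon)))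
    · intro p q hpq
      have := hmin p q
      rw [hpq, dist_self] at this
      rcases min_le_iff.1 this with h1 | h1
      · exact dist_le_zero.1 h1
      · linarith
  exact ⟨fun p q => dist (H p) (H q), ⟨he.comapMetricSpace H, rfl, fun _ _ => rfl⟩,
    fun p q => ⟨H1 p q, H2 p q⟩⟩

lemma antip {X ι : Type*} [t : MetricSpace X] (x0 : X) (r : ℝ) (hr : 0 < r) (y e : ι → X)
    (δ η : ι → ℝ) (hδ : ∀ a, 0 < δ a) (hδr : ∀ a, δ a ≤ r) (hη : ∀ a, 0 < η a)
    (hfar : ∀ a, 2 * r + η a ≤ dist x0 (e a)) (hsep : ∀ a b, a ≠ b → η b ≤ dist (e b) (e a))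
    (heq : ∀ ε > 0, ∃ θ > 0, ∀ a, δ a ≤ ε ∨ θ ≤ η a)
    (hnet : ∀ x ∈ ball x0 r, ∀ ε > 0, ∃ a, dist (y a) x < δ a ∧ δ a ≤ ε) :
    ∃ d : X → X → ℝ, Compat t.toUniformSpace.toTopologicalSpace d ∧
      ∀ x ∈ ball x0 r, ∀ ε > 0, ∃ c, r < d c x ∧
        ∀ z ∈ ball x0 r, r < d c z → dist z x ≤ ε := by
  let χ : X → ℝ := fun p => min r (max 0 (dist x0 p - r))
  let ζ : X → ℝ := fun p => max 0 (2 * r - dist x0 p)
  let bp : ι → X → ℝ := fun a p => δ a * max 0 (1 - dist (e a) p / η a)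
  let mu : ι → X → ℝ := fun a p => min (min (dist (y a) p) (δ a)) (ζ p)
  let h : X ⊕ ι → X → ℝ := fun j p =>
    Sum.elim (fun x => min (dist x p) r) (fun a => χ p + bp a p + mu a p) j
  have χ0 : ∀ p, 0 ≤ χ p := fun p => le_min hr.le (le_max_left _ _)
  have χ1 : ∀ p, χ p ≤ r := fun p => min_le_left _ _
  have bp0 : ∀ a p, 0 ≤ bp a p := fun a p => mul_nonneg (hδ a).le (le_max_left _ _)
  have bp1 : ∀ a p, bp a p ≤ δ a := fun a p => mul_le_of_le_one_right (hδ a).le
    (max_le zero_le_one (by have := div_nonneg (dist_nonneg (x := e a) (y := p)) (hη a).le; linarith))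
  have mu0 : ∀ a p, 0 ≤ mu a p := fun a p =>
    le_min (le_min dist_nonneg (hδ a).le) (le_max_left _ _)
  have mu1 : ∀ a p, mu a p ≤ δ a := fun a p => (min_le_left _ _).trans (min_le_right _ _)
  have dl : ∀ x p q : X, |dist x p - dist x q| ≤ dist p q := fun x p q => by
    rw [dist_comm x p, dist_comm x q]; exact abs_dist_sub_le p q x
  have χl : ∀ p q, |χ p - χ q| ≤ dist p q := fun p q => by
    refine (abs_min_sub_min_le_max _ _ _ _).trans (max_le (by simp) ?_)
    refine (abs_max_sub_max_le_max _ _ _ _).trans (max_le (by simp) ?_)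
    have := dl x0 p q
    rwa [show dist x0 p - r - (dist x0 q - r) = dist x0 p - dist x0 q by ring]
  have mul : ∀ a p q, |mu a p - mu a q| ≤ dist p q := fun a p q => by
    refine (abs_min_sub_min_le_max _ _ _ _).trans (max_le ?_ ?_)
    · exact (abs_min_sub_min_le_max _ _ _ _).trans (max_le (dl _ _ _) (by simp))
    · refine (abs_max_sub_max_le_max _ _ _ _).trans (max_le (by simp) ?_)
      have := dl x0 q p
      rwa [show 2 * r - dist x0 p - (2 * r - dist x0 q) = dist x0 q - dist x0 p by ring,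
        dist_comm p q]
  have bpl : ∀ a p q, |bp a p - bp a q| ≤ r * (dist p q / η a) := fun a p q => by
    simp only [bp]
    rw [← mul_sub, abs_mul, abs_of_pos (hδ a)]
    refine mul_le_mul (hδr a) ?_ (abs_nonneg _) hr.le
    refine (abs_max_sub_max_le_max _ _ _ _).trans
      (max_le (by simpa using div_nonneg dist_nonneg (hη a).le) ?_)
    rw [show 1 - dist (e a) p / η a - (1 - dist (e a) q / η a) =
      (dist (e a) q - dist (e a) p) / η a by ring, abs_div, abs_of_pos (hη a), dist_comm p q]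
    exact div_le_div_of_nonneg_right (dl _ _ _) (hη a).le
  have bpz : ∀ a p, η a ≤ dist (e a) p → bp a p = 0 := fun a p hp => by
    have : 1 ≤ dist (e a) p / η a := (one_le_div (hη a)).2 hp
    simp only [bp]
    rw [max_eq_left (by linarith), mul_zero]
  have hsup := supMetric h (3 * r) r hr ?_ ?_ ?_
  · obtain ⟨m, hm, hd⟩ := hsup
    refine ⟨m, hm, fun x hx ε hε => ?_⟩
    obtain ⟨a, ha1, ha2⟩ := hnet x hx (ε / 2) (half_pos hε)
    have e1 : χ (e a) = r := min_eq_left (le_max_of_le_right (by have := hfar a; have := hη a; linarith))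
    have e2 : ∀ b, mu b (e a) = 0 := fun b => le_antisymm ((min_le_right _ _).trans
      (max_le le_rfl (by have := hfar a; have := hη a; linarith))) (mu0 _ _)
    have e3 : bp a (e a) = δ a := by simp [bp]
    have e4 : ∀ z ∈ ball x0 r, χ z = 0 := fun z hz => le_antisymm ((min_le_right _ _).trans
      (max_le le_rfl (by rw [mem_ball, dist_comm] at hz; linarith))) (χ0 _)
    have e5 : ∀ z ∈ ball x0 r, ∀ b, bp b z = 0 := fun z hz b => bpz b z (by
      rw [mem_ball] at hz
      have := dist_triangle_right x0 (e b) z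
      have := hfar b
      rw [dist_comm z x0] at hz
      linarith)
    have e6 : ∀ z ∈ ball x0 r, mu a z = min (dist (y a) z) (δ a) := fun z hz =>
      min_eq_left ((min_le_right _ _).trans (le_max_of_le_right (by
        rw [mem_ball, dist_comm] at hz; have := hδr a; linarith)))
    refine ⟨e a, lt_of_lt_of_le ?_ ((hd (e a) x).1 (Sum.inr a)), fun z hz hlt => ?_⟩
    · simp only [h, Sum.elim_inr, e1, e2, e3, e4 x hx, e5 x hx, e6 x hx]
      rw [min_eq_left ha1.le]
      exact lt_of_lt_of_le (by linarith) (le_abs_self _)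
    · by_contra hcon
      have h1 : δ a ≤ dist (y a) z := by
        have := dist_triangle_left z x (y a)
        linarith
      refine absurd hlt (not_lt.2 ((hd (e a) z).2 r ?_))
      rintro (w | b)
      · simp only [h, Sum.elim_inl]
        have a1 := min_le_right (dist w (e a)) r
        have a2 := min_le_right (dist w z) r
        have a3 : 0 ≤ min (dist w (e a)) r := le_min dist_nonneg hr.le
        have a4 : 0 ≤ min (dist w z) r := le_min dist_nonneg hr.le
        rw [abs_le]; constructor <;> linarith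
      · simp only [h, Sum.elim_inr, e1, e2, e4 z hz, e5 z hz]
        by_cases hab : a = b
        · subst hab
          rw [e3, e6 z hz, min_eq_right h1]
          simp [abs_of_pos hr]
        · rw [bpz b _ (hsep a b hab)]
          have := mu0 b z
          have := mu1 b z
          have := hδr b
          rw [abs_le]; constructor <;> linarith
  · rintro (w | a) p
    · simp only [h, Sum.elim_inl]
      have a1 := min_le_right (dist w p) r
      have a3 : 0 ≤ min (dist w p) r := le_min dist_nonneg hr.le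
      rw [abs_le]; constructor <;> linarith
    · simp only [h, Sum.elim_inr]
      have := χ0 p; have := χ1 p; have := bp0 a p; have := bp1 a p
      have := mu0 a p; have := mu1 a p; have := hδr a
      rw [abs_le]; constructor <;> linarith
  · intro ε hε
    obtain ⟨θ, hθ, h1⟩ := heq (ε / 3) (by positivity)
    refine ⟨min (ε / 3) (θ * (ε / 3) / r), by positivity, ?_⟩
    rintro (w | a) p q hpq
    · simp only [h, Sum.elim_inl]
      refine (abs_min_sub_min_le_max _ _ _ _).trans (max_le ((dl _ _ _).trans ?_) (by simpa using hε.le))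
      have := (lt_min_iff.1 hpq).1
      linarith
    · simp only [h, Sum.elim_inr]
      obtain ⟨b1, b2⟩ := lt_min_iff.1 hpq
      have c1 := χl p q
      have c2 := mul a p q
      have c3 : |bp a p - bp a q| ≤ ε / 3 := by
        rcases h1 a with h2 | h2
        · have := bp0 a p; have := bp1 a p; have := bp0 a q; have := bp1 a q
          rw [abs_le]; constructor <;> linarith
        · refine (bpl a p q).trans ?_
          rw [lt_div_iff₀ hr] at b2
          rw [← mul_div_assoc, div_le_iff₀ (hη a)]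
          nlinarith
      rw [abs_le] at c1 c2 c3 ⊢
      constructor <;> linarith [c1.1, c1.2, c2.1, c2.2, c3.1, c3.2]
  · intro p
    refine ⟨Sum.inl p, fun q => ?_⟩
    simp only [h, Sum.elim_inl, dist_self]
    rw [min_eq_left hr.le, zero_sub, abs_neg]
    exact le_abs_self _

lemma net {X : Type*} [MetricSpace X] (Y : Set X) (δ : ℝ) (hδ : 0 < δ) :
    ∃ D ⊆ Y, D.Pairwise (fun a b => δ ≤ dist a b) ∧ ∀ x ∈ Y, ∃ y ∈ D, dist y x < δ := by
  obtain ⟨D, hD⟩ := zorn_subset {D | D ⊆ Y ∧ D.Pairwise (fun a b => δ ≤ dist a b)} (by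
    intro c hc hch
    refine ⟨⋃₀ c, ⟨sUnion_subset fun D hD => (hc hD).1, ?_⟩, fun D hD => subset_sUnion_of_mem hD⟩
    rw [pairwise_sUnion hch.directedOn]
    exact fun D hD => (hc hD).2)
  refine ⟨D, hD.prop.1, hD.prop.2, fun x hx => ?_⟩
  by_contra hcon
  push Not at hcon
  have : x ∈ D := hD.mem_of_prop_insert ⟨insert_subset hx hD.prop.1,
    hD.prop.2.insert fun b hb _ => ⟨by rw [dist_comm]; exact hcon b hb, hcon b hb⟩⟩
  have := hcon x this
  rw [dist_self] at this
  linarith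

lemma balls {X : Type*} [MetricSpace X] {N : Set X} (hN : N.Infinite) :
    ∃ (x : ℕ → X) (r : ℕ → ℝ), (∀ k, x k ∈ N) ∧ (∀ k, 0 < r k) ∧
      ∀ j k, j ≠ k → 4 * (r j + r k) ≤ dist (x j) (x k) := by
  haveI := hN.to_subtype
  obtain ⟨U, h1, h2, h3⟩ := exists_seq_infinite_isOpen_pairwise_disjoint N
  choose x hx using fun n => (h1 n).nonempty
  choose s hs hsU using fun n => Metric.isOpen_iff.1 (h2 n) (x n) (hx n)
  have key : ∀ j k, j ≠ k → s j ≤ dist (x j).1 (x k).1 := by
    intro j k hjk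
    by_contra hcon
    have : x k ∈ U j := hsU j (by rw [mem_ball, dist_comm]; exact not_le.1 hcon)
    exact Set.disjoint_left.1 (h3 hjk) this (hx k)
  refine ⟨fun k => x k, fun k => s k / 8, fun k => (x k).2, fun k => by have := hs k; positivity,
    fun j k hjk => ?_⟩
  have a1 := key j k hjk
  have a2 := key k j hjk.symm
  rw [dist_comm] at a2
  linarith

lemma goodMetric {X : Type*} [t : MetricSpace X] {N : Set X} (hN : N.Infinite) :
    ∃ x0 ∈ N, ∃ r > 0,
    ∃ d : X → X → ℝ, Compat t.toUniformSpace.toTopologicalSpace d ∧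
      ∀ x ∈ ball x0 r, ∀ ε > 0, ∃ c, r < d c x ∧
        ∀ z ∈ ball x0 r, r < d c z → dist z x ≤ ε := by
  obtain ⟨x, r, hx, hr, hd⟩ := balls hN
  have hpos : ∀ k (n : ℕ), 0 < r k / ((n : ℝ) + 1) := fun k n => by have := hr k; positivity
  have hle : ∀ k (n : ℕ), r k / ((n : ℝ) + 1) ≤ r k := fun k n =>
    div_le_self (hr k).le (by have : (0 : ℝ) ≤ n := n.cast_nonneg; linarith)
  choose D hD1 hD2 hD3 using fun k (n : ℕ) => net (ball (x k) (r k)) _ (hpos k n)
  obtain ⟨k0, hk0⟩ : ∃ k0, ∀ n, {k | ∃ m, Cardinal.mk (D k0 n) ≤ Cardinal.mk (D k m)}.Infinite := by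
    by_contra hcon
    push Not at hcon
    choose n hn using hcon
    obtain ⟨k, -, hk⟩ := (wellFounded_lt.onFun (f := fun k => Cardinal.mk (D k (n k)))).has_min
      univ univ_nonempty
    apply infinite_univ (α := ℕ)
    refine (hn k).subset fun j _ => ⟨n j, not_lt.1 (hk j (mem_univ _))⟩
  obtain ⟨f, hf, hf2⟩ := extraction_forall_of_frequently
    (P := fun n k => k0 < k ∧ ∃ m, Cardinal.mk (D k0 n) ≤ Cardinal.mk (D k m)) (fun n =>
      ((Nat.frequently_atTop_iff_infinite.2 (hk0 n)).and_eventually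
        (eventually_gt_atTop k0)).mono fun k hk => ⟨hk.2, hk.1⟩)
  choose mm hmm using fun n => (hf2 n).2
  have g : ∀ n, D k0 n ↪ D (f n) (mm n) := fun n => (Cardinal.le_def _ _).1 (hmm n) |>.some
  have hg : ∀ n a, dist (g n a).1 (x (f n)) < r (f n) := fun n a => hD1 _ _ (g n a).2
  refine ⟨x k0, hx k0, r k0, hr k0, antip (ι := Σ n, D k0 n) (x k0) (r k0) (hr k0)
    (fun a => a.2.1) (fun a => (g a.1 a.2).1) (fun a => r k0 / ((a.1 : ℝ) + 1))
    (fun a => r (f a.1) / ((mm a.1 : ℝ) + 1)) (fun a => hpos _ _) (fun a => hle _ _)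
    (fun a => hpos _ _) ?_ ?_ ?_ ?_⟩
  · rintro ⟨n, a⟩
    have a1 := hd k0 (f n) (hf2 n).1.ne
    have a2 := hg n a
    have a3 := dist_triangle (x k0) (g n a).1 (x (f n))
    have a4 := hle (f n) (mm n)
    have := hr k0
    have := hr (f n)
    simp only
    linarith
  · rintro ⟨n, a⟩ ⟨n', b⟩ hab
    by_cases h : n = n'
    · subst h
      have : b ≠ a := fun h => hab (by rw [h])
      exact hD2 _ _ (g n b).2 (g n a).2 fun h => this ((g n).injective (Subtype.ext h))
    · have a1 := hd (f n) (f n') (hf.injective.ne h)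
      have a2 := hg n a
      have a3 := hg n' b
      have a4 := dist_triangle4 (x (f n)) (g n a).1 (g n' b).1 (x (f n'))
      have a5 := hle (f n') (mm n')
      have := hr (f n)
      have := hr (f n')
      rw [dist_comm (x (f n)) (g n a).1, dist_comm (g n a).1 (g n' b).1] at a4
      simp only
      linarith
  · intro ε hε
    obtain ⟨K, hK⟩ := exists_nat_gt (r k0 / ε)
    obtain ⟨θ, hθ, h⟩ := Wij.fin_pos (finite_Iio K) (fun n => r (f n) / ((mm n : ℝ) + 1))
      (fun n => hpos _ _)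
    refine ⟨θ, hθ, fun a => ?_⟩
    rcases lt_or_ge a.1 K with h1 | h1
    · exact Or.inr (h _ h1)
    · left
      have : (K : ℝ) ≤ a.1 := by exact_mod_cast h1
      rw [div_lt_iff₀ hε] at hK
      rw [div_le_iff₀ (by positivity)]
      nlinarith
  · intro z hz ε hε
    obtain ⟨K, hK⟩ := exists_nat_gt (r k0 / ε)
    obtain ⟨w, hw, h⟩ := hD3 k0 K z hz
    refine ⟨⟨K, w, hw⟩, h, ?_⟩
    rw [div_lt_iff₀ hε] at hK
    rw [div_le_iff₀ (by positivity)]
    simp only
    nlinarith

lemma hyp {X : Type} [t : TopologicalSpace X] (m : MetricSpace X)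
    (hm : m.toUniformSpace.toTopologicalSpace = t) (G : Set X) (hG : IsOpen G) (r : ℝ)
    (hr : 0 < r) (Sm : X → X → ℝ → Prop)
    (hb : ∀ x ∈ G, ∀ ε > 0, ∃ c, r < m.dist c x ∧ ∀ z ∈ G, r < m.dist c z → Sm z x ε)
    (τ : TopologicalSpace {A : Set X // IsClosed A ∧ A.Nonempty})
    (hτ : τ = ⨅ x : X, TopologicalSpace.induced
      (fun A : {A : Set X // IsClosed A ∧ A.Nonempty} =>
        @Metric.infEDist X m.toPseudoEMetricSpace x A.1) (inferInstance : TopologicalSpace ENNReal))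
    (σ : List ({A : Set X // IsClosed A ∧ A.Nonempty} ×
      Set {A : Set X // IsClosed A ∧ A.Nonempty}) → Set {A : Set X // IsClosed A ∧ A.Nonempty})
    (h1 : ∀ h y U, y ∈ U → @IsOpen _ τ U →
      @IsOpen _ τ (σ (h ++ [(y, U)])) ∧ y ∈ σ (h ++ [(y, U)]) ∧ σ (h ++ [(y, U)]) ⊆ U)
    (h2 : ∀ p : ℕ → ({A : Set X // IsClosed A ∧ A.Nonempty} ×
        Set {A : Set X // IsClosed A ∧ A.Nonempty}),
      (∀ n, (p n).1 ∈ (p n).2 ∧ @IsOpen _ τ (p n).2) →
      (∀ n, (p (n + 1)).2 ⊆ σ (List.ofFn (fun i : Fin (n + 1) => p i.val))) →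
      (⋂ n, σ (List.ofFn (fun i : Fin (n + 1) => p i.val))).Nonempty) :
    ∃ (P : Type) (V : P → Set X) (R : P → X → ℝ → P → Prop) (p0 : P), (∀ p, IsOpen (V p)) ∧
      G ⊆ V p0 ∧ (∀ p, ∀ x ∈ V p, ∀ ε > 0, ∃ q, R p x ε q ∧ x ∈ V q) ∧
      ∀ (s : ℕ → P) (x : ℕ → X) (ε : ℕ → ℝ), s 0 = p0 →
        (∀ n, R (s n) (x n) (ε n) (s (n + 1))) → ∃ z, ∀ n, Sm z (x n) (ε n) := by
  classical
  subst hm
  have hc : ∀ x, Continuous (fun A : {A : Set X // IsClosed A ∧ A.Nonempty} => infEDist x A.1) :=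
    fun x => by
      rw [hτ]; exact continuous_iInf_dom (i := x) continuous_induced_dom
  let sg : X → {A : Set X // IsClosed A ∧ A.Nonempty} := fun x =>
    ⟨{x}, isClosed_singleton, singleton_nonempty x⟩
  have hsg : Continuous sg := by
    rw [hτ]
    refine continuous_iInf_rng.2 fun x => continuous_induced_rng.2 ?_
    have : ((fun A : {A : Set X // IsClosed A ∧ A.Nonempty} => infEDist x A.1) ∘ sg) =
        fun z => edist x z := funext fun z => infEDist_singleton
    rw [this]; fun_prop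
  have hit : IsOpen {A : {A : Set X // IsClosed A ∧ A.Nonempty} | (A.1 ∩ G).Nonempty} := by
    rw [isOpen_iff_forall_mem_open]
    rintro A ⟨a, haA, haW⟩
    obtain ⟨ε, hε, hs⟩ := EMetric.isOpen_iff.1 hG a haW
    refine ⟨{B | infEDist a B.1 < ε}, ?_, isOpen_lt (hc a) continuous_const, ?_⟩
    · intro B hB
      obtain ⟨b, hb, hd⟩ := infEDist_lt_iff.1 hB
      exact ⟨b, hb, hs (by rw [Metric.mem_eball, edist_comm]; exact hd)⟩
    · show infEDist a A.1 < ε
      rw [infEDist_zero_of_mem haA]; exact hε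
  let T := fun h => if h = [] then univ else interior (σ h)
  have hT : ∀ h, IsOpen (T h) := fun h => by
    simp only [T]; split_ifs
    · exact isOpen_univ
    · exact isOpen_interior
  refine ⟨_, fun h => G ∩ sg ⁻¹' T h, fun h x ε q => ∃ U, q = h ++ [(sg x, U)] ∧ sg x ∈ U ∧
    IsOpen U ∧ U ⊆ T h ∧ ∀ A ∈ U, (A.1 ∩ G).Nonempty ∧ ∀ z ∈ A.1 ∩ G, Sm z x ε, [],
    fun h => hG.inter ((hT h).preimage hsg), fun x hx => ⟨hx, by simp [T]⟩, ?_, ?_⟩
  · rintro h x ⟨hx, hx2⟩ ε hε
    obtain ⟨c, c1, c2⟩ := hb x hx ε hε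
    set U := T h ∩ {A | (A.1 ∩ G).Nonempty} ∩ {A | ENNReal.ofReal r < infEDist c A.1} with hU
    have hUo : IsOpen U := ((hT h).inter hit).inter (isOpen_lt continuous_const (hc c))
    have hxU : sg x ∈ U := ⟨⟨hx2, x, rfl, hx⟩, by
      show ENNReal.ofReal r < infEDist c {x}
      rw [infEDist_singleton, edist_dist]
      exact (ENNReal.ofReal_lt_ofReal_iff (hr.trans c1)).2 c1⟩
    obtain ⟨a1, a2, -⟩ := h1 h _ U hxU hUo
    refine ⟨_, ⟨U, rfl, hxU, hUo, fun A hA => hA.1.1, fun A hA => ⟨hA.1.2, fun z hz => ?_⟩⟩,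
      hx, ?_⟩
    · apply c2 z hz.2
      have := lt_of_lt_of_le hA.2 (infEDist_le_edist_of_mem hz.1)
      rw [edist_dist] at this
      exact (ENNReal.ofReal_lt_ofReal_iff_of_nonneg hr.le).1 this
    · show sg x ∈ T _
      simp only [T]
      rw [if_neg (by simp), a1.interior_eq]
      exact a2
  · intro s x ε s0 hR
    choose U e1 e2 e3 e4 e5 using hR
    have hs : ∀ n, s (n + 1) = List.ofFn (fun i : Fin (n + 1) => (sg (x i.val), U i.val)) := by
      intro n
      induction n with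
      | zero => rw [e1, s0]; simp
      | succ n ih => rw [e1, ih, List.ofFn_succ_last (n := n + 1)]; simp
    obtain ⟨A, hA⟩ := h2 (fun n => (sg (x n), U n)) (fun n => ⟨e2 n, e3 n⟩) (fun n => by
      rw [← hs]
      refine (e4 (n + 1)).trans ?_
      simp only [T]
      rw [if_neg (by rw [e1]; simp)]
      exact interior_subset)
    have hAU : ∀ n, A ∈ U n := fun n => by
      have := mem_iInter.1 hA n
      rw [← hs, e1] at this
      exact (h1 _ _ _ (e2 n) (e3 n)).2.2 this
    obtain ⟨z, hz⟩ := (e5 0 A (hAU 0)).1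
    exact ⟨z, fun n => (e5 n A (hAU n)).2 z hz⟩

lemma final {X : Type} [t : MetricSpace X]
    (H : ∀ (G : Set X) (r : ℝ) (d : X → X → ℝ), Compat t.toUniformSpace.toTopologicalSpace d →
      IsOpen G → 0 < r →
      (∀ x ∈ G, ∀ ε > 0, ∃ c, r < d c x ∧ ∀ z ∈ G, r < d c z → dist z x ≤ ε) →
      ∃ (P : Type) (V : P → Set X) (R : P → X → ℝ → P → Prop) (p0 : P), (∀ p, IsOpen (V p)) ∧
      G ⊆ V p0 ∧ (∀ p, ∀ x ∈ V p, ∀ ε > 0, ∃ q, R p x ε q ∧ x ∈ V q) ∧
      ∀ (s : ℕ → P) (x : ℕ → X) (ε : ℕ → ℝ), s 0 = p0 →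
        (∀ n, R (s n) (x n) (ε n) (s (n + 1))) → ∃ z, ∀ n, dist z (x n) ≤ ε n) :
    IsCompletelyMetrizableSpace X := by
  have hi : Isometry ((↑) : X → UniformSpace.Completion X) := UniformSpace.Completion.coe_isometry
  apply cm_of_gdelta hi.isEmbedding
  apply local_gdelta
  by_contra hN
  obtain ⟨x0, hx0, r, hr, d, hd, hb⟩ := goodMetric hN
  obtain ⟨P, V, R, p0, a1, a2, a3, a4⟩ := H _ r d hd isOpen_ball hr hb
  apply hx0
  refine ⟨ball (x0 : UniformSpace.Completion X) r, isOpen_ball, mem_ball_self hr,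
    choquet hi V a1 R p0 isOpen_ball (fun x hx => a2 ?_) a3 a4⟩
  rwa [mem_preimage, mem_ball, hi.dist_eq] at hx

end Pool.Agent.H31.Chq
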