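import Pool.Agent.H31.CoDefs

namespace Pool.Agent.H31.Co

open Set Filter Topology

universe u

def Cons (Y : Type u) [TopologicalSpace Y] : Prop :=
  ∀ F : Set (Set Y), ScottOpen F → ∀ U ∈ F, ∃ K, IsCompact K ∧ K ⊆ U ∧
    ∀ V, IsOpen V → K ⊆ V → V ∈ F

def FinCons (Y : Type u) [TopologicalSpace Y] : Prop :=
  ∀ F : Set (Set Y), ScottOpen F → ∀ U ∈ F, ∃ K : Set Y, K.Finite ∧ K ⊆ U ∧
    ∀ V, IsOpen V → K ⊆ V → V ∈ F

section
variable {Y : Type u} [TopologicalSpace Y]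

theorem FinCons.cons (h : FinCons Y) : Cons Y := fun F hF U hU =>
  (h F hF U hU).imp fun _ h => ⟨h.1.isCompact, h.2⟩

theorem FinCons.coCons (h : FinCons Y) : CoCons Y := fun F hF U hU => by
  obtain ⟨K, h1, h2, h3⟩ := h F hF U hU
  refine ⟨(fun x => closure {x}) '' K, h1.image _, forall_mem_image.mpr fun x hx =>
    ⟨isClosed_closure, x, h2 hx, subset_closure rfl⟩, fun V hV h4 => h3 V hV fun x hx => ?_⟩
  obtain ⟨y, h5, h6⟩ := h4 _ (mem_image_of_mem _ hx)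
  obtain ⟨_, h7, rfl⟩ := mem_closure_iff.mp h6 V hV h5
  exact h7

theorem CoCons.cons (h : CoCons Y) : Cons Y := fun F hF U hU => by
  obtain ⟨E, h1, h2, h3⟩ := h F hF U hU
  choose x hx using fun A hA => (h2 A hA).2
  have : Finite E := h1
  exact ⟨range fun A : E => x A.1 A.2, (finite_range _).isCompact, range_subset_iff.mpr fun A =>
    (hx _ A.2).1, fun V hV h4 => h3 V hV fun A hA => ⟨_, h4 ⟨⟨A, hA⟩, rfl⟩, (hx _ hA).2⟩⟩

theorem ScottOpen.dir {F : Set (Set Y)} (hF : ScottOpen F) {ι : Type*} [Nonempty ι]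
    (V : ι → Set Y) (h1 : Directed (· ⊆ ·) V) (h2 : ∀ i, IsOpen (V i)) {U : Set Y} (hU : U ∈ F)
    (h3 : U ⊆ ⋃ i, V i) : ∃ i, V i ∈ F := by
  obtain ⟨_, ⟨i, rfl⟩, h⟩ := hF.2.2 (range V) (range_nonempty _) (directedOn_range.mpr h1)
    (forall_mem_range.mpr h2) (hF.2.1 U hU _ (isOpen_iUnion h2) h3)
  exact ⟨i, h⟩

end

inductive X | s | p | a (j k : ℕ) | b (g : ℕ → ℕ)

open X

instance : TopologicalSpace X where
  IsOpen U := (∀ j k k', k ≤ k' → a j k ∈ U → a j k' ∈ U) ∧ (p ∈ U → ∀ j, ∃ k, a j k ∈ U) ∧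
    ∀ g, b g ∈ U → p ∈ U ∧ (∀ j k, a j k ∈ U) ∧ ∃ n, ∀ g', (∀ j < n, g' j ≤ g j) → b g' ∈ U
  isOpen_univ := ⟨fun _ _ _ _ _ => trivial, fun _ _ => ⟨0, trivial⟩, fun _ _ =>
    ⟨trivial, fun _ _ => trivial, 0, fun _ _ => trivial⟩⟩
  isOpen_inter U V hU hV := ⟨fun j k k' h h1 => ⟨hU.1 j k k' h h1.1, hV.1 j k k' h h1.2⟩,
    fun h j => by
      obtain ⟨k, h1⟩ := hU.2.1 h.1 j
      obtain ⟨k', h2⟩ := hV.2.1 h.2 j
      exact ⟨max k k', hU.1 _ _ _ (le_max_left _ _) h1, hV.1 _ _ _ (le_max_right _ _) h2⟩,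
    fun g h => by
      obtain ⟨h1, h2, n, h3⟩ := hU.2.2 g h.1
      obtain ⟨h4, h5, n', h6⟩ := hV.2.2 g h.2
      exact ⟨⟨h1, h4⟩, fun j k => ⟨h2 j k, h5 j k⟩, max n n', fun g' h7 =>
        ⟨h3 g' fun j hj => h7 j (lt_max_of_lt_left hj), h6 g' fun j hj =>
          h7 j (lt_max_of_lt_right hj)⟩⟩⟩
  isOpen_sUnion S hS := ⟨fun j k k' h ⟨U, h1, h2⟩ => ⟨U, h1, (hS U h1).1 j k k' h h2⟩,
    fun ⟨U, h1, h2⟩ j => ((hS U h1).2.1 h2 j).imp fun _ h => ⟨U, h1, h⟩, fun g ⟨U, h1, h2⟩ => by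
      obtain ⟨h3, h4, n, h5⟩ := (hS U h1).2.2 g h2
      exact ⟨⟨U, h1, h3⟩, fun j k => ⟨U, h1, h4 j k⟩, n, fun g' h => ⟨U, h1, h5 g' h⟩⟩⟩

theorem op {U : Set X} : IsOpen U ↔ (∀ j k k', k ≤ k' → a j k ∈ U → a j k' ∈ U) ∧
    (p ∈ U → ∀ j, ∃ k, a j k ∈ U) ∧ ∀ g, b g ∈ U → p ∈ U ∧ (∀ j k, a j k ∈ U) ∧
      ∃ n, ∀ g', (∀ j < n, g' j ≤ g j) → b g' ∈ U := Iff.rfl

/-- the points `b g` with `g j > m` removed -/
def Q (j m : ℕ) : Set X := {x | ∀ g, x = b g → g j ≤ m}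

/-- the open set of the fan given by `f` -/
def O (f : ℕ → ℕ) : Set X := {x | x = p ∨ ∃ j k, x = a j k ∧ f j ≤ k}

theorem oQ (j m : ℕ) : IsOpen (Q j m) := op.mpr ⟨by simp [Q], by simp [Q], fun g hg =>
  ⟨by simp [Q], by simp [Q], j + 1, fun g' h => by
    simpa [Q] using (h j j.lt_succ_self).trans (hg g rfl)⟩⟩

theorem oO (f : ℕ → ℕ) : IsOpen (O f) := op.mpr ⟨fun j k k' h h1 => by
  simpa [O] using (show f j ≤ k by simpa [O] using h1).trans h,
    fun _ j => ⟨f j, by simp [O]⟩, by simp [O]⟩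

theorem os : IsOpen ({s} : Set X) := op.mpr (by simp)

theorem cs : IsOpen ({s}ᶜ : Set X) := op.mpr (by simp)

instance : T0Space X := ⟨fun x y h => by
  have h1 := h.mem_open_iff os
  have h2 := h.mem_open_iff (oO 0)
  have h3 := h.mem_open_iff (show IsOpen {x | ∃ j k, x = a j k} from op.mpr (by simp))
  have h4 := fun f => h.mem_open_iff (oO f)
  have h5 := fun j m => h.mem_open_iff (oQ j m)
  cases x <;> cases y <;> simp [O] at h1 h2 h3 ⊢
  · rename_i j k j' k'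
    have h6 := h4 fun i => if i = j then k else k' + 1
    have h7 := h4 fun i => if i = j' then k' else k + 1
    simp only [O, mem_setOf_eq, reduceCtorEq, a.injEq, false_or] at h6 h7
    grind
  · rename_i g g'
    ext j
    have h6 := h5 j (g j)
    have h7 := h5 j (g' j)
    simp [Q] at h6 h7
    omega⟩

theorem finCons : FinCons X := fun F hF U hU => by
  have hUo := op.mp (hF.1 U hU)
  by_cases hb : ∃ g, b g ∈ U
  · obtain ⟨g₀, hb⟩ := hb
    obtain ⟨h1, h2, -⟩ := hUo.2.2 g₀ hb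
    choose! N hN using fun g hg => (hUo.2.2 g hg).2.2
    let W : Finset {g // b g ∈ U} → Set X := fun S =>
      {x ∈ U | ∀ g', x = b g' → ∃ g ∈ S, ∀ j < N g, g' j ≤ g.1 j}
    obtain ⟨S, hS⟩ := hF.dir W (Monotone.directed_le fun S T h x hx => ⟨hx.1, fun g' h3 =>
      (hx.2 g' h3).imp fun _ h4 => ⟨Finset.mem_of_subset h h4.1, h4.2⟩⟩) (fun S => op.mpr ⟨by simp [W, h2],
        by simp [W, h2], fun g' hg' => ⟨by simp [W, h1], by simp [W, h2], by
          obtain ⟨g, h3, h4⟩ := hg'.2 g' rfl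
          refine ⟨N g, fun g'' h5 => ⟨hN _ g.2 _ fun j hj => (h5 j hj).trans (h4 j hj), ?_⟩⟩
          rintro _ ⟨⟩
          exact ⟨g, h3, fun j hj => (h5 j hj).trans (h4 j hj)⟩⟩⟩) hU fun x hx => by
            cases x with
            | b g => exact mem_iUnion.mpr ⟨{⟨g, hx⟩}, hx, by simp⟩
            | _ => exact mem_iUnion.mpr ⟨∅, hx, by simp⟩
    have h3 : ∀ (T : F) k, ∃ m, T.1 ∩ Q k m ∈ F := fun T k => hF.dir (fun m => T.1 ∩ Q k m)
      (Monotone.directed_le fun m m' h x hx => ⟨hx.1, fun g h3 => (hx.2 g h3).trans h⟩)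
      (fun m => (hF.1 _ T.2).inter (oQ k m)) T.2 fun x hx => by
        cases x with
        | b g => exact mem_iUnion.mpr ⟨g k, hx, by simp [Q]⟩
        | _ => exact mem_iUnion.mpr ⟨0, hx, by simp [Q]⟩
    choose M hM using h3
    let T : ℕ → F := fun k => Nat.rec ⟨_, hS⟩ (fun k T => ⟨_, hM T k⟩) k
    have h4 : ∀ k, ∀ x ∈ (T k).1, x ∈ W S ∧ ∀ j < k, x ∈ Q j (M (T j) j) := fun k => by
      induction k with
      | zero => exact fun x hx => ⟨hx, by simp⟩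
      | succ k ih => exact fun x hx => ⟨(ih x hx.1).1, fun j hj =>
          (Nat.lt_succ_iff_lt_or_eq.mp hj).elim ((ih x hx.1).2 j) fun h => h ▸ hx.2⟩
    let G : {g // b g ∈ U} → ℕ → ℕ := fun g j => if j < N g then g.1 j else M (T j) j
    refine ⟨insert (b g₀) (({s} ∩ U) ∪ (fun g => b (G g)) '' S), (((finite_singleton _).inter_of_left
      _).union (S.finite_toSet.image _)).insert _, insert_subset hb (union_subset inter_subset_right
        (image_subset_iff.mpr fun g _ => hN _ g.2 _ fun j hj => by simp [G, hj])),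
          fun V hV h5 => ?_⟩
    obtain ⟨h6, h7, -⟩ := (op.mp hV).2.2 g₀ (h5 (.inl rfl))
    choose! n hn using fun g (hg : g ∈ S) =>
      ((op.mp hV).2.2 (G g) (h5 (.inr (.inr ⟨g, hg, rfl⟩)))).2.2
    refine hF.2.1 _ (T (S.sup n)).2 V hV fun x hx => ?_
    obtain ⟨h8, h9⟩ := h4 _ x hx
    cases x with
    | s => exact h5 (.inr (.inl ⟨rfl, h8.1⟩))
    | p => exact h6
    | a j k => exact h7 j k
    | b g' =>
      obtain ⟨g, h10, h11⟩ := h8.2 g' rfl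
      refine hn g h10 g' fun j hj => ?_
      by_cases h12 : j < N g
      · simpa [G, h12] using h11 j h12
      · simpa [G, h12] using h9 j (hj.trans_le (Finset.le_sup h10)) g' rfl
  · by_contra! hc
    classical
    let K : ℕ → Set X := fun n => ({s, p} ∪ (fun j => a j (sInf {k | a j k ∈ U})) '' Iio n) ∩ U
    choose V h1 h2 h3 using fun n => hc (K n) (((toFinite _).union
      ((finite_Iio n).image _)).inter_of_left _) inter_subset_right
    have h4 : ∀ j k n, j < n → a j k ∈ U → a j k ∈ V n := fun j k n h4 h5 =>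
      (op.mp (h1 n)).1 j _ k (Nat.sInf_le h5) (h2 n ⟨.inr ⟨j, h4, rfl⟩, 
        Nat.sInf_mem (s := {k | a j k ∈ U}) ⟨k, h5⟩⟩)
    obtain ⟨n, hn⟩ := hF.dir (fun n => {x ∈ U | ∀ m ≥ n, x ∈ V m})
      (Monotone.directed_le fun n n' h x hx => ⟨hx.1, fun m hm => hx.2 m (h.trans hm)⟩)
      (fun n => op.mpr ⟨fun j k k' h h5 => ⟨hUo.1 j k k' h h5.1, fun m hm =>
        (op.mp (h1 m)).1 j k k' h (h5.2 m hm)⟩, fun h j => by
          obtain ⟨k, h5⟩ := (op.mp ((hF.1 U hU).inter ((finite_Icc n j).isOpen_biInter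
            fun m _ => h1 m))).2.1 ⟨h.1, mem_iInter₂.mpr fun m hm => h.2 m hm.1⟩ j
          exact ⟨k, h5.1, fun m hm => (lt_or_ge j m).elim (fun h6 => h4 j k m h6 h5.1) fun h6 =>
            mem_iInter₂.mp h5.2 m ⟨hm, h6⟩⟩, fun g hg => absurd ⟨g, hg.1⟩ hb⟩) hU fun x hx => by
        cases x with
        | a j k => exact mem_iUnion.mpr ⟨j + 1, hx, fun m hm => h4 j k m hm hx⟩
        | b g => exact absurd ⟨g, hx⟩ hb
        | _ => exact mem_iUnion.mpr ⟨0, hx, fun m _ => h2 m ⟨.inl (by simp), hx⟩⟩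
    exact h3 n (hF.2.1 _ hn _ (h1 n) fun x hx => hx.2 n le_rfl)

end Pool.Agent.H31.Co
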