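import Pool.Agent.H31.Co1

namespace Pool.Agent.H31.Co

open Set Filter Topology X

theorem O_anti {f f' : ℕ → ℕ} (h : ∀ j, f' j ≤ f j) : O f ⊆ O f' := fun _ hx =>
  hx.imp_right fun ⟨j, k, h1, h2⟩ => ⟨j, k, h1, (h j).trans h2⟩

theorem not_cons {Z : Type} [TopologicalSpace Z] (α β : X → Z) (hα : Continuous α)
    (hβ : Continuous β) (Φ : Set X → Set X → Set Z)
    (ho : ∀ U V, IsOpen U → IsOpen V → IsOpen (Φ U V))
    (hm : ∀ U U' V V', U ⊆ U' → V ⊆ V' → Φ U V ⊆ Φ U' V')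
    (hd : ∀ U V : ℕ → Set X, (∀ n, IsOpen (U n)) → (∀ n, IsOpen (V n)) → Monotone U → Monotone V →
      Φ (⋃ n, U n) (⋃ n, V n) ⊆ ⋃ n, Φ (U n) (V n))
    (ha : ∀ f V, IsOpen V → s ∉ V → ∀ x ∈ O 0, α x ∈ Φ (O f) V ↔ x ∈ O f)
    (hb : ∀ f V, IsOpen V → s ∉ V → ∀ g, β (b g) ∈ Φ (O f) V ↔ b g ∈ V)
    (hi : ∀ f V, O 0 ⊆ V → Φ (O f) {s}ᶜ ∩ Φ (O 0) V ⊆ Φ (O f) V) : ¬ Cons Z := fun h => by
  have h1 : ∀ (U V : ℕ → Set X) (K : Set Z), IsCompact K → (∀ n, IsOpen (U n)) →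
      (∀ n, IsOpen (V n)) → Monotone U → Monotone V → O 0 ⊆ ⋃ n, U n → {s}ᶜ ⊆ ⋃ n, V n →
        K ⊆ Φ (O 0) {s}ᶜ → ∃ n, K ⊆ Φ (U n) (V n) := fun U V K h1 h2 h3 h4 h5 h6 h7 h8 =>
    h1.elim_directed_cover _ (fun n => ho _ _ (h2 n) (h3 n))
      (h8.trans ((hm _ _ _ _ h6 h7).trans (hd U V h2 h3 h4 h5)))
      (Monotone.directed_le fun _ _ h => hm _ _ _ _ (h4 h) (h5 h))
  obtain ⟨K, hK, h2, h3⟩ := h {W | IsOpen W ∧ α p ∈ W ∧ ∃ g, β (b g) ∈ W ∧ ∀ j, α (a j (g j)) ∈ W}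
    ⟨fun _ h => h.1, fun U ⟨_, h1, g, h2, h3⟩ V hV h => ⟨hV, h h1, g, h h2, fun j => h (h3 j)⟩, by
      rintro D - h1 h2 ⟨-, ⟨U, h3, h4⟩, g, ⟨V, h5, h6⟩, h7⟩
      obtain ⟨-, -, n, h8⟩ := (op.mp ((h2 V h5).preimage hβ)).2.2 g h6
      choose k hk using (op.mp ((h2 U h3).preimage hα)).2.1 h4
      have h9 : ∀ n, ∃ W ∈ D, U ⊆ W ∧ V ⊆ W ∧ ∀ j < n, α (a j (g j)) ∈ W := fun n => by
        induction n with
        | zero => simpa using h1 U h3 V h5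
        | succ n ih =>
          obtain ⟨W, h9, h10, h11, h12⟩ := ih
          obtain ⟨W', h13, h14⟩ := h7 n
          obtain ⟨W'', h15, h16, h17⟩ := h1 W h9 W' h13
          exact ⟨W'', h15, h10.trans h16, h11.trans h16, fun j hj =>
            (Nat.lt_succ_iff_lt_or_eq.mp hj).elim (fun h => h16 (h12 j h)) fun h => h ▸ h17 h14⟩
      obtain ⟨W, h9, h10, h11, h12⟩ := h9 n
      refine ⟨W, h9, h2 W h9, h10 h4, fun j => if j < n then g j else k j,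
        h11 (h8 _ fun j hj => by simp [hj]), fun j => ?_⟩
      dsimp only
      split_ifs with hj
      exacts [h12 j hj, h10 (hk j)]⟩ (Φ (O 0) {s}ᶜ) ⟨ho _ _ (oO 0) cs,
        (ha _ _ cs (by simp) _ (.inl rfl)).mpr (.inl rfl), 0, (hb _ _ cs (by simp) _).mpr (by simp),
          fun j => (ha _ _ cs (by simp) _ (by simp [O])).mpr (by simp [O])⟩
  obtain ⟨j, hj⟩ : ∃ j, ∀ m, K ⊆ Φ (O fun i => if i = j then m else 0) {s}ᶜ := by
    by_contra! hc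
    choose m hc using hc
    obtain ⟨n, hn⟩ := h1 (fun n => O fun i => if i < n then 0 else m i) (fun _ => {s}ᶜ) K hK
      (fun _ => oO _) (fun _ => cs) (fun _ _ _ => O_anti fun i => by grind) monotone_const (by
        rintro _ (rfl | ⟨j, k, rfl, -⟩)
        · exact mem_iUnion.mpr ⟨0, .inl rfl⟩
        · exact mem_iUnion.mpr ⟨j + 1, .inr ⟨j, k, rfl, by simp⟩⟩)
          (subset_iUnion (fun _ => ({s}ᶜ : Set X)) 0) h2
    exact hc n (hn.trans (hm _ _ _ _ (O_anti fun i => by grind) subset_rfl))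
  obtain ⟨m, h4⟩ := h1 (fun _ => O 0) (fun m => {s}ᶜ ∩ Q j m) K hK (fun _ => oO _)
    (fun m => cs.inter (oQ j m)) monotone_const (fun m m' h x hx => ⟨hx.1, fun g h3 =>
      (hx.2 g h3).trans h⟩) (subset_iUnion (fun _ => O 0) 0) (fun x hx => by
        cases x with
        | b g => exact mem_iUnion.mpr ⟨g j, hx, by simp [Q]⟩
        | _ => exact mem_iUnion.mpr ⟨0, hx, by simp [Q]⟩) h2
  have h5 := cs.inter (oQ j m)
  obtain ⟨-, -, g, h6, h7⟩ := h3 _ (ho _ _ (oO _) h5) fun z hz => hi _ _ (by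
    rintro _ (rfl | ⟨j, k, rfl, -⟩) <;> simp [Q]) ⟨hj (m + 1) hz, h4 hz⟩
  have h8 := ((hb _ _ h5 (by simp) _).mp h6).2 g rfl
  have h9 := (ha _ _ h5 (by simp) _ (by simp [O])).mp (h7 j)
  simp [O] at h9
  omega

theorem smyth : ¬ Cons (Smyth X) := by
  let η : X → X → Smyth X := fun x y => ⟨nhdsKer {x, y}, ⟨x, subset_nhdsKer (.inl rfl)⟩,
    (toFinite _).isCompact.nhdsKer, fun z hz => mem_nhdsKer.mpr fun U hU h =>
      hz U hU (nhdsKer_minimal h hU)⟩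
  have h1 : ∀ x y U, IsOpen U → ((η x y).1 ⊆ U ↔ x ∈ U ∧ y ∈ U) := fun x y U hU =>
    hU.nhdsKer_subset.trans pair_subset_iff
  have h2 : ∀ U : Set X, IsOpen U → IsOpen {K : Smyth X | K.1 ⊆ U} := fun U hU =>
    TopologicalSpace.isOpen_generateFrom_of_mem ⟨U, hU, rfl⟩
  have h3 : ∀ c : X → X, Continuous c → Continuous fun x => η x (c x) := fun c hc =>
    continuous_generateFrom_iff.mpr <| by
      rintro _ ⟨U, hU, rfl⟩
      simp only [preimage_setOf_eq, h1 _ _ U hU]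
      exact hU.inter (hU.preimage hc)
  refine not_cons _ _ (h3 (fun _ => s) continuous_const) (h3 id continuous_id)
    (fun U V => {K | K.1 ⊆ U ∪ {s}} ∪ {K | K.1 ⊆ V}) (fun U V hU hV => (h2 _ (hU.union os)).union
      (h2 _ hV)) (fun U U' V V' h h' K => Or.imp (fun h4 => Subset.trans h4
        (union_subset_union_left _ h)) fun h4 => Subset.trans h4 h') (fun U V h4 h5 h6 h7 K => ?_)
          (fun f V h4 h5 x hx => ?_) (fun f V h4 h5 g => ?_) fun f V h4 K => ?_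
  · rintro (h | h)
    · obtain ⟨n, hn⟩ := K.2.2.1.elim_directed_cover (fun n => U n ∪ {s}) (fun n => (h4 n).union os)
        (by rwa [← iUnion_union]) (Monotone.directed_le fun _ _ h => union_subset_union_left _ (h6 h))
      exact mem_iUnion.mpr ⟨n, .inl hn⟩
    · obtain ⟨n, hn⟩ := K.2.2.1.elim_directed_cover V h5 h h7.directed_le
      exact mem_iUnion.mpr ⟨n, .inr hn⟩
  · simp only [mem_union, mem_setOf_eq, h1 _ _ _ h4, h1 _ _ _ ((oO f).union os)]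
    rcases hx with rfl | ⟨j, k, rfl, -⟩ <;> simp [h5]
  · simp only [mem_union, mem_setOf_eq, h1 _ _ _ h4, h1 _ _ _ ((oO f).union os)]
    simp [O]
  · rintro ⟨h5 | h5, h6 | h6⟩
    exacts [.inl h5, .inl h5, .inr fun x hx => h4 ((h6 hx).resolve_right (h5 hx)), .inr h6]

theorem lower (R : Set X → Prop) (hR : ∀ C, IsClosed C → C.Nonempty → R C) :
    ¬ @Cons {C // R C} (.generateFrom {S | ∃ U : Set X, IsOpen U ∧ S = {C | (C.1 ∩ U).Nonempty}}) := by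
  letI : TopologicalSpace {C // R C} :=
    .generateFrom {S | ∃ U : Set X, IsOpen U ∧ S = {C | (C.1 ∩ U).Nonempty}}
  let η : X → X → {C // R C} := fun x y => ⟨closure {x, y}, hR _ isClosed_closure
    ⟨x, subset_closure (.inl rfl)⟩⟩
  have h1 : ∀ x y U, IsOpen U → (((η x y).1 ∩ U).Nonempty ↔ x ∈ U ∨ y ∈ U) := fun x y U hU =>
    (closure_inter_open_nonempty_iff hU).trans (by simp [Set.Nonempty])
  have h2 : ∀ U : Set X, IsOpen U → IsOpen {C : {C // R C} | (C.1 ∩ U).Nonempty} := fun U hU =>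
    TopologicalSpace.isOpen_generateFrom_of_mem ⟨U, hU, rfl⟩
  have h3 : ∀ c : X → X, Continuous c → Continuous fun x => η x (c x) := fun c hc =>
    continuous_generateFrom_iff.mpr <| by
      rintro _ ⟨U, hU, rfl⟩
      simp only [preimage_setOf_eq, h1 _ _ U hU]
      exact hU.union (hU.preimage hc)
  refine not_cons _ _ (h3 id continuous_id) (h3 (fun _ => s) continuous_const)
    (fun U V => {C | (C.1 ∩ U).Nonempty} ∪ ({C | (C.1 ∩ {s}).Nonempty} ∩ {C | (C.1 ∩ V).Nonempty}))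
    (fun U V hU hV => (h2 _ hU).union ((h2 _ os).inter (h2 _ hV)))
    (fun U U' V V' h h' K => Or.imp (fun h4 => Nonempty.mono (inter_subset_inter_right _ h) h4)
      (And.imp_right fun h4 => Nonempty.mono (inter_subset_inter_right _ h') h4))
    (fun U V h4 h5 h6 h7 K => ?_) (fun f V h4 h5 x hx => ?_) (fun f V h4 h5 g => ?_)
    fun f V h4 K => ?_
  · rintro (⟨x, h, _, ⟨n, rfl⟩, h'⟩ | ⟨h8, x, h, _, ⟨n, rfl⟩, h'⟩)
    exacts [mem_iUnion.mpr ⟨n, .inl ⟨x, h, h'⟩⟩, mem_iUnion.mpr ⟨n, .inr ⟨h8, x, h, h'⟩⟩]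
  · simp only [mem_union, mem_inter_iff, mem_setOf_eq, h1 _ _ _ h4, h1 _ _ _ (oO f), h1 _ _ _ os]
    rcases hx with rfl | ⟨j, k, rfl, -⟩ <;> simp
  · simp only [mem_union, mem_inter_iff, mem_setOf_eq, h1 _ _ _ h4, h1 _ _ _ (oO f), h1 _ _ _ os]
    simp [O, h5]
  · rintro ⟨h5 | h5, h6 | h6⟩
    exacts [.inl h5, .inl h5, .inr ⟨h5.1, Nonempty.mono (inter_subset_inter_right _ h4) h6⟩, .inr h6]

end Pool.Agent.H31.Co
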