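import Mathlib

namespace Pool.Agent.H31.Co

universe u

/-- `F` is a Scott open subset of the lattice of open sets of `Y` -/
def ScottOpen {Y : Type u} [TopologicalSpace Y] (F : Set (Set Y)) : Prop :=
  (∀ U ∈ F, IsOpen U) ∧ (∀ U ∈ F, ∀ V, IsOpen V → U ⊆ V → V ∈ F) ∧
    ∀ D : Set (Set Y), D.Nonempty → DirectedOn (· ⊆ ·) D → (∀ U ∈ D, IsOpen U) →
      ⋃₀ D ∈ F → ∃ U ∈ D, U ∈ F

/-- co-consonance: `U ∈ ⋂_{A ∈ E} ◇A ⊆ F` for a finite family `E` of closed sets -/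
def CoCons (Y : Type u) [TopologicalSpace Y] : Prop :=
  ∀ F : Set (Set Y), ScottOpen F → ∀ U ∈ F, ∃ E : Set (Set Y), E.Finite ∧
    (∀ A ∈ E, IsClosed A ∧ (U ∩ A).Nonempty) ∧
      ∀ V, IsOpen V → (∀ A ∈ E, (V ∩ A).Nonempty) → V ∈ F

/-- Smyth powerspace: nonempty compact saturated sets -/
def Smyth (X : Type u) [TopologicalSpace X] : Type u :=
  {K : Set X // K.Nonempty ∧ IsCompact K ∧ ∀ x, (∀ U, IsOpen U → K ⊆ U → x ∈ U) → x ∈ K}

/-- upper Vietoris topology -/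
instance (X : Type u) [TopologicalSpace X] : TopologicalSpace (Smyth X) :=
  .generateFrom {S | ∃ U : Set X, IsOpen U ∧ S = {K | K.1 ⊆ U}}

/-- lower powerspace: all closed sets -/
def Lower (X : Type u) [TopologicalSpace X] : Type u := {C : Set X // IsClosed C}

/-- lower Vietoris topology -/
instance (X : Type u) [TopologicalSpace X] : TopologicalSpace (Lower X) :=
  .generateFrom {S | ∃ U : Set X, IsOpen U ∧ S = {C | (C.1 ∩ U).Nonempty}}

end Pool.Agent.H31.Co
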