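import Mathlib

set_option autoImplicit false

open Set Topology Filter

namespace Pool.Agent.H31.Omega1

/-- the first uncountable ordinal as a type -/
def W : Type := (Cardinal.aleph 1).ord.ToType

noncomputable instance : LinearOrder W :=
  inferInstanceAs (LinearOrder (Cardinal.aleph 1).ord.ToType)
instance : WellFoundedLT W := inferInstanceAs (WellFoundedLT (Cardinal.aleph 1).ord.ToType)
instance : NoMaxOrder W := Cardinal.noMaxOrder (Cardinal.aleph0_le_aleph 1)

theorem mk_W : Cardinal.mk W = Cardinal.aleph 1 := Cardinal.mk_ord_toType _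

instance : Uncountable W := by
  rw [← Cardinal.aleph0_lt_mk_iff, mk_W]; exact Cardinal.aleph0_lt_aleph_one

theorem countable_Iio (a : W) : (Iio a).Countable :=
  (Cardinal.countable_iff_lt_aleph_one _).2 (Cardinal.mk_Iio_toType_ord_lt a)

theorem countable_Iic (a : W) : (Iic a).Countable := by
  rw [← Iio_insert]; exact (countable_Iio a).insert a

theorem exists_bound {s : Set W} (hs : s.Countable) : ∃ b, ∀ a ∈ s, a < b := by
  have : (⋃ a ∈ s, Iic a).Countable := hs.biUnion fun a _ => countable_Iic a
  by_contra h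
  push Not at h
  exact not_countable_univ (this.mono fun b _ => by
    obtain ⟨a, ha, hab⟩ := h b
    exact mem_biUnion ha hab)

theorem exists_bound_seq (f : ℕ → W) : ∃ b, ∀ n, f n < b := by
  obtain ⟨b, hb⟩ := exists_bound (countable_range f)
  exact ⟨b, fun n => hb _ (mem_range_self n)⟩

noncomputable instance : OrderBot W := WellFoundedLT.toOrderBot W

noncomputable instance : ConditionallyCompleteLinearOrderBot W :=
  WellFoundedLT.conditionallyCompleteLinearOrderBot W

noncomputable instance : TopologicalSpace W := Preorder.topology W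
instance : OrderTopology W := ⟨rfl⟩

theorem isCompact_Iic (a : W) : IsCompact (Iic a) := by
  rw [← Icc_bot]; exact isCompact_Icc

instance : WeaklyLocallyCompactSpace W := ⟨fun x => by
  obtain ⟨y, hy⟩ := exists_gt x
  exact ⟨Iic y, isCompact_Iic y, Iic_mem_nhds hy⟩⟩

theorem isClosed_Ioi (a : W) : IsClosed (Ioi a) := by
  obtain ⟨b, hb, hb'⟩ := WellFounded.has_min (wellFounded_lt (α := W)) (Ioi a) (exists_gt a)
  have : Ioi a = Ici b := by
    ext x
    exact ⟨fun hx => not_lt.1 (hb' x hx), fun hx => show a < x from lt_of_lt_of_le (show a < b from hb) (show b ≤ x from hx)⟩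
  rw [this]; exact isClosed_Ici

theorem isOpen_Iic (a : W) : IsOpen (Iic a) := by
  rw [← compl_Ioi]; exact (isClosed_Ioi a).isOpen_compl

theorem exists_r : ∃ r : W → ℝ, ∀ a b : W, ∀ q : ℚ, r a - r b = q → a = b := by
  let S : AddSubgroup ℝ := (Rat.castHom ℝ).toAddMonoidHom.range
  have hS : Countable S := (countable_range (fun q : ℚ => (q : ℝ))).to_subtype
  have hQ : Uncountable (ℝ ⧸ S) := by
    rw [← not_countable_iff]
    intro h
    have : Countable ℝ := (AddSubgroup.addGroupEquivQuotientProdAddSubgroup (s := S)).injective.countable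
    exact not_countable this
  have : Cardinal.mk W ≤ Cardinal.mk (ℝ ⧸ S) := by
    rw [mk_W, Cardinal.aleph_one_le_iff, Cardinal.aleph0_lt_mk_iff]; exact hQ
  obtain ⟨e⟩ := this
  refine ⟨fun a => (e a).out, fun a b q h => e.injective ?_⟩
  rw [← QuotientAddGroup.out_eq' (e a), ← QuotientAddGroup.out_eq' (e b), eq_comm,
    QuotientAddGroup.eq]
  exact ⟨q, by simp [← h, sub_eq_neg_add]⟩

end Pool.Agent.H31.Omega1
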