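import Pool.Agent.H31.CohDefs
import Pool.Agent.H31.Omega1

namespace Pool.Agent.H31.Coh

open Set Tuk Omega1

universe u v

def II : Set (Set (ℕ × W)) := {A | ∃ (n : ℕ) (α : W), ∀ x ∈ A, x.1 ≤ n ∨ x.2 ≤ α}

theorem ideal_II : IsIdeal II := by
  refine ⟨⟨0, ⊥, fun _ h => h.elim⟩, fun A ⟨n, α, h⟩ B hB => ⟨n, α, fun x hx => h x (hB hx)⟩, ?_⟩
  rintro A ⟨n, α, h⟩ B ⟨m, β, h'⟩
  refine ⟨max n m, max α β, fun x hx => ?_⟩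
  rcases hx with hx | hx
  · exact (h x hx).imp (fun h1 => h1.trans (le_max_left _ _)) fun h1 => h1.trans (le_max_left _ _)
  · exact (h' x hx).imp (fun h1 => h1.trans (le_max_right _ _))
      fun h1 => h1.trans (le_max_right _ _)

theorem space_II : ⋃₀ II = univ :=
  eq_univ_of_forall fun x => ⟨{x}, ⟨x.1, x.2, by rintro _ rfl; exact Or.inl le_rfl⟩, rfl⟩

theorem univ_II : univ ∉ II := by
  rintro ⟨n, α, h⟩
  obtain ⟨β, hβ⟩ := exists_gt α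
  rcases h (n + 1, β) trivial with h1 | h1
  · exact absurd h1 (by simp)
  · exact absurd h1 (not_le.mpr hβ)

theorem ev_of_cof {P Q : Type*} [Preorder P] [Preorder Q] {φ : Q → P}
    (h : ∀ A : Set Q, IsCofinal A → IsCofinal (φ '' A)) (p : P) : ∃ q₀, ∀ q ≥ q₀, p ≤ φ q := by
  by_contra hcon
  push Not at hcon
  obtain ⟨_, ⟨q, hq, rfl⟩, h1⟩ := h {q | ¬ p ≤ φ q} (fun y => by
    obtain ⟨q, h2, h3⟩ := hcon y
    exact ⟨q, h3, h2⟩) p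
  exact hq h1

theorem main (P : Type u) [PartialOrder P] :
    ¬ ∀ (Q : Type v) [PartialOrder Q] [Nonempty Q] [IsDirected Q (· ≤ ·)],
      TukeyLE P Q ↔ Cohesive II Q := by
  intro h
  obtain ⟨f, hf⟩ := (h (ULift.{v} ℕ)).mpr ⟨fun i => ⟨i.1.1⟩, fun A hA hA' ⟨n, hn⟩ =>
    hA' ⟨n.down, ⊥, fun x hx => Or.inl (hn ⟨⟨x, hA hx⟩, hx, rfl⟩)⟩⟩
  haveI : IsDirected (ULift.{v} W) (· ≤ ·) :=
    ⟨fun a b => ⟨⟨max a.down b.down⟩, le_max_left a.down b.down, le_max_right a.down b.down⟩⟩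
  obtain ⟨g, hg⟩ := (h (ULift.{v} W)).mpr ⟨fun i => ⟨i.1.2⟩, fun A hA hA' ⟨α, hα⟩ =>
    hA' ⟨0, α.down, fun x hx => Or.inr (hα ⟨⟨x, hA hx⟩, hx, rfl⟩)⟩⟩
  choose a ha using fun n : ℕ => ev_of_cof hg (f ⟨n⟩)
  obtain ⟨b, hb⟩ := exists_bound_seq fun n => (a n).down
  obtain ⟨q, hq⟩ := (h PUnit.{v + 1}).mp ⟨fun _ => g ⟨b⟩, fun A hA p => by
    obtain ⟨x, hx, -⟩ := hA PUnit.unit
    obtain ⟨_, ⟨n, -, rfl⟩, h1⟩ := hf univ (fun y => ⟨y, trivial, le_rfl⟩) p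
    exact ⟨_, ⟨x, hx, rfl⟩, h1.trans (ha n.down ⟨b⟩ (hb n.down).le)⟩⟩
  exact hq univ space_II.ge univ_II ⟨PUnit.unit, fun _ _ => le_rfl⟩

end Pool.Agent.H31.Coh
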