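import Pool.Agent.H31.TukDefs

namespace Pool.Agent.H31.Coh

universe u v

/-- ideals of sets: nonempty, closed under subsets and finite unions -/
def IsIdeal {S : Type u} (I : Set (Set S)) : Prop :=
  ∅ ∈ I ∧ (∀ A ∈ I, ∀ B ⊆ A, B ∈ I) ∧ ∀ A ∈ I, ∀ B ∈ I, A ∪ B ∈ I

/-- `Q` is `I`-cohesive -/
def Cohesive {S : Type u} (I : Set (Set S)) (Q : Type v) [PartialOrder Q] : Prop :=
  ∃ q : (⋃₀ I : Set S) → Q, ∀ A : Set S, A ⊆ ⋃₀ I → A ∉ I →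
    ¬ BddAbove (q '' {i | (i : S) ∈ A})

end Pool.Agent.H31.Coh
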