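import Mathlib

set_option autoImplicit false

open Set Function Filter Topology

namespace Pool.Agent.H31.Cone

theorem cone {A ι : Type} [AddCommGroup A] [Nonempty ι] (N : ι → Set A) (h0 : ∀ i, 0 ∈ N i)
    (hN : ∀ i j, ∃ k, ∀ x ∈ N k, ∀ y ∈ N k, x + y ∈ N i ∩ N j) :
    ∃ t : TopologicalSpace A, @ContinuousAdd A t _ ∧
      ∀ x, (@nhds A t x).HasBasis (fun _ => True) fun i => {y | y - x ∈ N i} := by
  have hd : Directed (· ≥ ·) N := fun i j => (hN i j).imp fun k hk =>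
    ⟨fun x hx => add_zero x ▸ (hk x hx 0 (h0 k)).1, fun x hx => add_zero x ▸ (hk x hx 0 (h0 k)).2⟩
  have hb := fun x : A => (hasBasis_iInf_principal hd).comap (· - x)
  letI t := TopologicalSpace.mkOfNhds fun x : A => comap (· - x) (⨅ i, 𝓟 (N i))
  have h1 : ∀ x : A, (𝓝 x).HasBasis (fun _ => True) fun i => {y | y - x ∈ N i} := fun x => by
    rw [TopologicalSpace.nhds_mkOfNhds]
    · exact hb x
    · exact fun a => (hb a).ge_iff.2 fun i _ => by simpa using h0 i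
    · intro a s hs
      obtain ⟨i, -, hi⟩ := (hb a).mem_iff.1 hs
      obtain ⟨k, hk⟩ := hN i i
      refine (hb a).eventually_iff.2 ⟨k, trivial, fun y hy => (hb y).mem_iff.2
        ⟨k, trivial, fun z hz => hi ?_⟩⟩
      simpa using (hk _ hz _ hy).1
  refine ⟨t, ⟨continuous_iff_continuousAt.2 fun p => ?_⟩, h1⟩
  rw [ContinuousAt, nhds_prod_eq, ((h1 _).prod (h1 _)).tendsto_iff (h1 _)]
  intro i _
  obtain ⟨k, hk⟩ := hN i i
  refine ⟨(k, k), ⟨trivial, trivial⟩, fun z hz => ?_⟩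
  simpa only [mem_setOf_eq, add_sub_add_comm] using (hk _ hz.1 _ hz.2).1

theorem cc {X : Type} [TopologicalSpace X] (h : ∀ x : ℕ → X, ∃ y, MapClusterPt y atTop x)
    (B : Set X) (hB : B.Infinite) : ∃ y, ∀ V ∈ 𝓝 y, (V ∩ B).Infinite := by
  obtain ⟨y, hy⟩ := h fun n => hB.natEmbedding B n
  refine ⟨y, fun V hV => ?_⟩
  have := Nat.frequently_atTop_iff_infinite.1 (mapClusterPt_iff_frequently.1 hy V hV)
  refine (this.image (Subtype.val_injective.comp (hB.natEmbedding B).injective).injOn).mono ?_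
  rintro _ ⟨n, hn, rfl⟩
  exact ⟨hn, (hB.natEmbedding B n).2⟩

theorem pc2 {X : Type} [TopologicalSpace X] [AddCommGroup X]
    (h : ∀ x : ℕ → X, ∃ y, MapClusterPt y atTop x) (U : ℕ → Set X) (hU : Antitone U)
    (hn : ∀ n, (U n).Nonempty) : (⋂ n, closure (-U n)).Nonempty := by
  choose u hu using hn
  obtain ⟨y, hy⟩ := h fun n => -u n
  refine ⟨y, mem_iInter.2 fun n => mem_closure_iff_nhds.2 fun V hV => ?_⟩
  obtain ⟨m, h1, h2⟩ := frequently_atTop.1 (mapClusterPt_iff_frequently.1 hy V hV) n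
  exact ⟨_, h2, neg_mem_neg.2 (hU h1 (hu m))⟩

end Pool.Agent.H31.Cone
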