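import Pool.Agent.H31.Snf2

namespace Pool.Agent.H31.Snf

open Set Filter Topology FreeGroup MeasureTheory

universe u

theorem ext_of_locfin {X : Type u} [TopologicalSpace X] [T4Space X] {S : Set X}
    (h : ∀ x, ∃ U ∈ 𝓝 x, (U ∩ S).Finite) (φ : X → ℝ) :
    ∃ f : X → ℝ, Continuous f ∧ ∀ s ∈ S, f s = φ s := by
  have h1 : ∀ x, ∀ᶠ y in 𝓝 x, y ∈ S → y = x := by
    intro x
    obtain ⟨U, hU, hf⟩ := h x
    filter_upwards [hU, (hf.diff (t := {x})).isClosed.isOpen_compl.mem_nhds fun h => h.2 rfl]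
      with y h2 h3 hy
    by_contra h4
    exact h3 ⟨⟨h2, hy⟩, h4⟩
  have h2 : IsClosed S := by
    rw [← isOpen_compl_iff, isOpen_iff_mem_nhds]
    exact fun x hx => (h1 x).mono fun y hy h3 => hx (hy h3 ▸ h3)
  have h3 : Continuous fun s : S => φ s := by
    refine continuous_iff_continuousAt.mpr fun s => (continuousAt_const (y := φ s)).congr ?_
    exact (continuous_subtype_val.continuousAt.eventually (h1 s)).mono fun y hy => by
      simp only [hy y.2]
  obtain ⟨g, hg⟩ := ContinuousMap.exists_restrict_eq h2 (⟨_, h3⟩ : C(S, ℝ))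
  exact ⟨g, g.continuous, fun s hs => congrArg (fun k : C(S, ℝ) => k ⟨s, hs⟩) hg⟩

def HG (Γ : Type u) : Type u := ℝ → Γ

instance {Γ : Type u} [Group Γ] : Group (HG Γ) := inferInstanceAs (Group (ℝ → Γ))

noncomputable instance {Γ : Type u} : PseudoEMetricSpace (HG Γ) where
  edist s s' := volume {t | t ∈ Ico (0 : ℝ) 1 ∧ s t ≠ s' t}
  edist_self s := by simp
  edist_comm s s' := by simp only [ne_comm]
  edist_triangle a b c := le_trans (measure_mono fun t ht => by
    by_contra h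
    simp only [mem_union, mem_setOf_eq, not_or, not_and, not_not] at h
    exact ht.2 ((h.1 ht.1).trans (h.2 ht.1))) (measure_union_le _ _)

instance {Γ : Type u} [Group Γ] : IsTopologicalGroup (HG Γ) where
  continuous_mul := by
    refine LipschitzWith.continuous (K := 2) fun a b => ?_
    have h1 : edist (a.1 * a.2) (b.1 * b.2) ≤ edist a.1 b.1 + edist a.2 b.2 :=
      le_trans (measure_mono fun t ht => by
        by_contra h
        simp only [mem_union, mem_setOf_eq, not_or, not_and, not_not] at h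
        exact ht.2 (show a.1 t * a.2 t = b.1 t * b.2 t by rw [h.1 ht.1, h.2 ht.1]))
        (measure_union_le _ _)
    refine h1.trans ?_
    rw [Prod.edist_eq, ENNReal.coe_ofNat, two_mul]
    exact add_le_add (le_max_left _ _) (le_max_right _ _)
  continuous_inv := by
    refine LipschitzWith.continuous (K := 1) fun a b => ?_
    rw [ENNReal.coe_one, one_mul]
    exact measure_mono fun t ht => And.intro ht.1 fun h =>
      ht.2 (show (a t)⁻¹ = (b t)⁻¹ by rw [h])

section Basic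

variable {X : Type u} [τ : TopologicalSpace X]

theorem grpF : @IsTopologicalGroup _ (topF X) _ := GroupTopology.toIsTopologicalGroup _

theorem contF : Continuous[_, topF X] (of : X → FreeGroup X) := by
  rw [topF, GroupTopology.toTopologicalSpace_sInf, continuous_sInf_rng]
  rintro _ ⟨t, ht, rfl⟩
  exact ht

theorem liftF {H : Type*} [Group H] [TopologicalSpace H] [IsTopologicalGroup H]
    (φ : FreeGroup X →* H) (hf : Continuous fun x => φ (of x)) : Continuous[topF X, _] φ := by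
  rw [continuous_iff_le_induced]
  refine GroupTopology.toTopologicalSpace_le.mpr (sInf_le (a := ⟨TopologicalSpace.induced
    φ inferInstance, topologicalGroup_induced φ⟩) ?_)
  exact continuous_induced_rng.mpr hf

theorem t2F [T35Space X] : @T2Space _ (topF X) := by
  classical
  letI := topF X
  haveI := grpF (X := X)
  refine IsTopologicalGroup.t2Space_of_one_sep fun w hw => ?_
  let S : Finset X := (w.toWord.map Prod.fst).toFinset
  have h1 : ∀ x, ∃ φ : X → ℝ, Continuous φ ∧ φ x = 1 ∧ ∀ y ∈ S, y ≠ x → φ y = 0 := by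
    intro x
    obtain ⟨f, hf, h1, -, -, h0⟩ := KSp.exists_bump (x := x)
      ((S.erase x).finite_toSet.isClosed.isOpen_compl.mem_nhds (by simp))
    exact ⟨f, hf, h1, fun y hy hyx => h0 y fun h => h (by simp [hy, hyx])⟩
  choose φ φ1 φ2 φ3 using h1
  let c : (X → Prop) → FreeGroup X := fun p => if h : ∃ x, p x then of h.choose else 1
  let f : X → HG (FreeGroup X) := fun y t => c fun x => x ∈ S ∧ t < φ x y
  have hf : Continuous f := by
    refine continuous_iff_continuousAt.mpr fun y₀ => EMetric.tendsto_nhds.mpr fun ε hε => ?_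
    have h1 : Tendsto (fun y => ∑ k ∈ S, ENNReal.ofReal |φ k y - φ k y₀|) (𝓝 y₀) (𝓝 0) := by
      have h2 : Continuous fun y => ∑ k ∈ S, ENNReal.ofReal |φ k y - φ k y₀| :=
        continuous_finset_sum _ fun k _ => ENNReal.continuous_ofReal.comp (by fun_prop)
      simpa using h2.tendsto y₀
    filter_upwards [h1.eventually (gt_mem_nhds hε)] with y hy
    refine lt_of_le_of_lt ?_ hy
    have h3 : {t | t ∈ Ico (0 : ℝ) 1 ∧ f y t ≠ f y₀ t} ⊆ ⋃ k ∈ S, uIcc (φ k y₀) (φ k y) := by
      intro t ht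
      by_contra hcon
      simp only [mem_iUnion, not_exists] at hcon
      refine ht.2 (congrArg c (funext fun k => propext (and_congr_right fun hk => ?_)))
      have h5 := hcon k hk
      rw [mem_uIcc, not_or, not_and_or, not_and_or] at h5
      constructor
      · intro h6
        by_contra h7
        rcases h5.1 with h8 | h8
        · exact h8 (not_lt.mp h7)
        · exact h8 h6.le
      · intro h6
        by_contra h7
        rcases h5.2 with h8 | h8
        · exact h8 (not_lt.mp h7)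
        · exact h8 h6.le
    refine (measure_mono h3).trans ((measure_biUnion_finset_le _ _).trans (le_of_eq ?_))
    exact Finset.sum_congr rfl fun k _ => Real.volume_interval
  have h2 : ∀ t ∈ Ico (0 : ℝ) 1, ∀ x ∈ S, f x t = of x := by
    intro t ht x hx
    have h3 : ∃ z, z ∈ S ∧ t < φ z x := ⟨x, hx, by rw [φ2]; exact ht.2⟩
    simp only [f, c, dif_pos h3]
    congr 1
    by_contra h4
    have h5 := h3.choose_spec.2
    rw [φ3 _ x hx (Ne.symm h4)] at h5
    exact absurd ht.1 (not_le.mpr h5)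
  have h3 : ∀ t ∈ Ico (0 : ℝ) 1, ∀ L : List (X × Bool), (∀ p ∈ L, p.1 ∈ S) →
      lift f (mk L) t = mk L := by
    intro t ht L
    induction L with
    | nil => intro _; rw [← one_eq_mk, _root_.map_one]; rfl
    | cons p L ih =>
      intro hL
      have h4 : mk (p :: L) = mk [p] * mk L := rfl
      rw [h4, _root_.map_mul]
      show lift f (mk [p]) t * lift f (mk L) t = _
      rw [ih fun q hq => hL q (List.mem_cons_of_mem _ hq)]
      congr 1
      have h5 := h2 t ht _ (hL p List.mem_cons_self)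
      rcases p with ⟨x, _ | _⟩
      · have h6 : mk [(x, false)] = (of x)⁻¹ := rfl
        rw [h6, _root_.map_inv, lift_apply_of]
        exact congrArg (·⁻¹) h5
      · have h6 : mk [(x, true)] = of x := rfl
        rw [h6, lift_apply_of]
        exact h5
  refine ⟨{v | edist (lift f v) 1 < 1}, (isOpen_lt ((liftF (lift f) (by simpa using hf)).edist
    continuous_const) continuous_const).mem_nhds (by simp), fun h => ?_⟩
  have h4 : {t | t ∈ Ico (0 : ℝ) 1 ∧ lift f w t ≠ (1 : HG (FreeGroup X)) t} = Ico 0 1 := by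
    refine Set.ext fun t => ⟨fun ht => ht.1, fun ht => ⟨ht, ?_⟩⟩
    have h5 := h3 t ht w.toWord fun p hp => List.mem_toFinset.mpr (List.mem_map_of_mem hp)
    rw [mk_toWord] at h5
    rw [h5]
    exact hw
  have h5 : volume {t | t ∈ Ico (0 : ℝ) 1 ∧ lift f w t ≠ (1 : HG (FreeGroup X)) t} < 1 := h
  rw [h4] at h5
  simp at h5

end Basic

section Metric

variable {X : Type u} [MetricSpace X]

def DD (X : Type u) [MetricSpace X] (c : ℝ) : Set X := {x | ∀ y, dist y x < c → y = x}

theorem atsuji (h : ∀ f : X → ℝ, Continuous f → ∃ δ > (0 : ℝ), ∀ x y, dist x y < δ →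
    |f x - f y| < 1) (a : ℕ → X) (ha : ∀ k : ℕ, a k ∉ DD X (1 / ((k : ℝ) + 1))) :
    ∃ x, MapClusterPt x atTop a := by
  by_contra hcon
  push Not at hcon
  simp only [DD, mem_setOf_eq, not_forall] at ha
  choose b hb hba using ha
  have h0 : Tendsto (fun k => dist (b k) (a k)) atTop (𝓝 0) :=
    squeeze_zero (fun _ => dist_nonneg) (fun k => (hb k).le)
      tendsto_one_div_add_atTop_nhds_zero_nat
  have h1 : ∀ x, ∃ U ∈ 𝓝 x, (U ∩ (range a ∪ range b)).Finite := by
    intro x
    have h2 := hcon x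
    rw [mapClusterPt_iff_frequently] at h2
    push Not at h2
    obtain ⟨U, hU, h3⟩ := h2
    obtain ⟨ε, hε, h4⟩ := Metric.mem_nhds_iff.mp hU
    obtain ⟨N, hN⟩ := eventually_atTop.mp (h3.and (h0.eventually (gt_mem_nhds (half_pos hε))))
    refine ⟨Metric.ball x (ε / 2), Metric.ball_mem_nhds _ (half_pos hε),
      (((finite_lt_nat N).image a).union ((finite_lt_nat N).image b)).subset ?_⟩
    rintro y ⟨hy, ⟨k, rfl⟩ | ⟨k, rfl⟩⟩
    · refine Or.inl ⟨k, ?_, rfl⟩
      by_contra h5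
      exact (hN k (not_lt.mp h5)).1 (h4 (Metric.ball_subset_ball (half_le_self hε.le) hy))
    · refine Or.inr ⟨k, ?_, rfl⟩
      by_contra h5
      refine (hN k (not_lt.mp h5)).1 (h4 ?_)
      have h6 := dist_triangle_left (a k) x (b k)
      have h7 := (hN k (not_lt.mp h5)).2
      have h8 : dist (b k) x < ε / 2 := hy
      show dist (a k) x < ε
      linarith
  obtain ⟨e, he⟩ := countable_iff_exists_injOn.mp ((countable_range a).union (countable_range b))
  obtain ⟨f, hf, hfe⟩ := ext_of_locfin h1 fun x => e x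
  obtain ⟨δ, hδ, h2⟩ := h f hf
  obtain ⟨k, hk⟩ := (h0.eventually (gt_mem_nhds hδ)).exists
  have h3 := h2 _ _ hk
  rw [hfe _ (Or.inr ⟨k, rfl⟩), hfe _ (Or.inl ⟨k, rfl⟩), abs_lt] at h3
  have h4 : e (a k) < e (b k) + 1 := by exact_mod_cast (by linarith [h3.1] : (e (a k) : ℝ) < e (b k) + 1)
  have h5 : e (b k) < e (a k) + 1 := by exact_mod_cast (by linarith [h3.2] : (e (b k) : ℝ) < e (a k) + 1)
  exact hba k (he (Or.inr ⟨k, rfl⟩) (Or.inl ⟨k, rfl⟩) (by omega))

theorem uf_dich (h : ∀ f : X → ℝ, Continuous f → ∃ δ > (0 : ℝ), ∀ x y, dist x y < δ →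
    |f x - f y| < 1) (𝒰 : Ultrafilter ℕ) (a : ℕ → X) : (∃ x, Tendsto a 𝒰 (𝓝 x)) ∨
      ∃ c > (0 : ℝ), (∀ᶠ k in 𝒰, a k ∈ DD X c) ∧ ∀ x, ∀ᶠ k in 𝒰, a k ≠ x := by
  by_cases h1 : ∃ c > (0 : ℝ), ∀ᶠ k in 𝒰, a k ∈ DD X c
  · obtain ⟨c, hc, h1⟩ := h1
    by_cases h2 : ∀ x, ∀ᶠ k in 𝒰, a k ≠ x
    · exact Or.inr ⟨c, hc, h1, h2⟩
    · obtain ⟨x, hx⟩ := not_forall.mp h2
      exact Or.inl ⟨x, tendsto_const_nhds.congr' ((Ultrafilter.eventually_not.mpr hx).mono
        fun k hk => (not_not.mp hk).symm)⟩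
  · left
    let K : Set X := {x | ∀ c > (0 : ℝ), x ∉ DD X c}
    have h2 : ∀ s : ℕ → X, (∀ k : ℕ, s k ∉ DD X (1 / ((k : ℝ) + 1))) →
        ∃ x ∈ K, MapClusterPt x atTop s := by
      intro s hs
      obtain ⟨x, hx⟩ := atsuji h s hs
      refine ⟨x, fun c hc h3 => ?_, hx⟩
      obtain ⟨k, h4, h5⟩ := ((mapClusterPt_iff_frequently.mp hx _ (Metric.ball_mem_nhds x hc)).and_eventually
        (tendsto_one_div_add_atTop_nhds_zero_nat.eventually (gt_mem_nhds hc))).exists
      refine hs k fun y hy => ?_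
      rw [h3 _ h4] at hy ⊢
      exact h3 y (hy.trans h5)
    have hK : IsCompact K := by
      refine IsSeqCompact.isCompact fun s hs => ?_
      obtain ⟨x, hx, h3⟩ := h2 s fun k => hs k _ Nat.one_div_pos_of_nat
      obtain ⟨ψ, h4, h5⟩ := h3.tendsto_subseq
      exact ⟨x, hx, ψ, h4, h5⟩
    have h3 : map a 𝒰 ≤ 𝓝ˢ K := by
      intro O hO
      obtain ⟨O', hO', hKO, hOO⟩ := mem_nhdsSet_iff_exists.mp hO
      have h4 : ∃ c > (0 : ℝ), ∀ y, y ∉ DD X c → y ∈ O' := by
        by_contra hcon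
        push Not at hcon
        choose s hs hs' using fun k : ℕ => hcon _ (Nat.one_div_pos_of_nat (α := ℝ) (n := k))
        obtain ⟨x, hx, h5⟩ := h2 s hs
        obtain ⟨k, hk⟩ := (mapClusterPt_iff_frequently.mp h5 _ (hO'.mem_nhds (hKO hx))).exists
        exact hs' k hk
      obtain ⟨c, hc, h5⟩ := h4
      exact (Ultrafilter.eventually_not.mpr fun h6 => h1 ⟨c, hc, h6⟩).mono fun k hk =>
        hOO (h5 _ hk)
    by_contra hcon
    push Not at hcon
    have h4 : Disjoint (𝓝ˢ K) (𝒰.map a : Filter X) := hK.disjoint_nhdsSet_left.mpr fun x _ =>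
      (Ultrafilter.disjoint_iff_not_le.mpr (hcon x)).symm
    exact (𝒰.map a).neBot.ne (disjoint_self.mp (h4.mono_left h3))

def Close (m : ℕ) (L L' : List (X × Bool)) : Prop :=
  List.Forall₂ (fun p q => p.2 = q.2 ∧ dist p.1 q.1 < 1 / ((m : ℝ) + 1)) L L'

theorem Close.mono {a b : ℕ} (h : a ≤ b) {L L' : List (X × Bool)} (hc : Close b L L') :
    Close a L L' :=
  List.Forall₂.imp (fun _ _ h1 => ⟨h1.1, h1.2.trans_le (Nat.one_div_le_one_div h)⟩) hc

theorem list_dich (h : ∀ f : X → ℝ, Continuous f → ∃ δ > (0 : ℝ), ∀ x y, dist x y < δ →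
    |f x - f y| < 1) (𝒰 : Ultrafilter ℕ) (n : ℕ) : ∀ L : ℕ → List (X × Bool),
    (∀ k, (L k).length ≤ n) → (∃ L₀, L₀.length ≤ n ∧ ∀ m, ∀ᶠ k in 𝒰, Close m (L k) L₀) ∨
      ∃ c > (0 : ℝ), ∃ a : ℕ → X, (∀ᶠ k in 𝒰, a k ∈ DD X c ∧ ∃ b, (a k, b) ∈ L k) ∧
        ∀ x, ∀ᶠ k in 𝒰, a k ≠ x := by
  induction n with
  | zero =>
    intro L hL
    refine Or.inl ⟨[], le_rfl, fun m => Eventually.of_forall fun k => ?_⟩
    rw [List.length_eq_zero_iff.mp (Nat.le_zero.mp (hL k))]
    exact List.Forall₂.nil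
  | succ n ih =>
    intro L hL
    by_cases h1 : ∀ᶠ k in 𝒰, L k = []
    · exact Or.inl ⟨[], Nat.zero_le _, fun m => h1.mono fun k hk => hk ▸ List.Forall₂.nil⟩
    have h2 := Ultrafilter.eventually_not.mpr h1
    obtain ⟨k₀, hk₀⟩ := h2.exists
    obtain ⟨p₀, -⟩ := List.exists_mem_of_ne_nil _ hk₀
    have h3 : ∀ᶠ k in 𝒰, L k = (L k).headD p₀ :: (L k).tail := h2.mono fun k hk => by
      cases h4 : L k with
      | nil => exact absurd h4 hk
      | cons p l => rfl
    obtain ⟨s, hs⟩ : ∃ s, ∀ᶠ k in 𝒰, ((L k).headD p₀).2 = s := by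
      rcases 𝒰.em fun k => ((L k).headD p₀).2 = true with h4 | h4
      · exact ⟨true, h4⟩
      · exact ⟨false, h4.mono fun k hk => by simpa using hk⟩
    rcases uf_dich h 𝒰 fun k => ((L k).headD p₀).1 with ⟨x, hx⟩ | ⟨c, hc, h4, h5⟩
    · rcases ih (fun k => (L k).tail) (fun k => by have := hL k; rw [List.length_tail]; omega) with
        ⟨L₀, h4, h5⟩ | ⟨c, hc, a, h4, h5⟩
      · refine Or.inl ⟨(x, s) :: L₀, by simpa using h4, fun m => ?_⟩
        filter_upwards [h3, hs, h5 m, Metric.tendsto_nhds.mp hx _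
          (Nat.one_div_pos_of_nat (α := ℝ) (n := m))] with k h6 h7 h8 h9
        rw [h6]
        exact List.Forall₂.cons ⟨h7, h9⟩ h8
      · exact Or.inr ⟨c, hc, a, h4.mono fun k ⟨h6, b, hb⟩ =>
          ⟨h6, b, List.mem_of_mem_tail hb⟩, h5⟩
    · refine Or.inr ⟨c, hc, _, ?_, h5⟩
      filter_upwards [h3, h4] with k h6 h7
      refine ⟨h7, ((L k).headD p₀).2, ?_⟩
      rw [h6]
      exact List.mem_cons_self

theorem contL (L : List (X × Bool)) : ∀ U ∈ @nhds _ (topF X) (mk L),
    ∀ᶠ m in atTop, ∀ L', Close m L' L → mk L' ∈ U := by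
  letI := topF X
  haveI := grpF (X := X)
  induction L with
  | nil =>
    intro U hU
    refine Eventually.of_forall fun m L' h => ?_
    rw [List.forall₂_nil_right_iff.mp h]
    exact mem_of_mem_nhds hU
  | cons p L ih =>
    intro U hU
    have h1 : (fun z : FreeGroup X × FreeGroup X => z.1 * z.2) ⁻¹' U ∈ 𝓝 (mk [p], mk L) :=
      continuous_mul.continuousAt.preimage_mem_nhds hU
    obtain ⟨A, hA, B, hB, hAB⟩ := mem_nhds_prod_iff.mp h1
    have h2 : Continuous fun x : X => mk [(x, p.2)] := by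
      cases p.2
      · exact (contF (X := X)).inv
      · exact contF (X := X)
    obtain ⟨ε, hε, h3⟩ := Metric.mem_nhds_iff.mp (h2.continuousAt (x := p.1) hA)
    filter_upwards [ih B hB, tendsto_one_div_add_atTop_nhds_zero_nat.eventually (gt_mem_nhds hε)]
      with m h4 h5 L' hL'
    obtain ⟨⟨y, s⟩, l, ⟨h6, h7⟩, h8, rfl⟩ := List.forall₂_cons_right_iff.mp hL'
    obtain rfl : s = p.2 := h6
    exact hAB (mk_mem_prod (h3 (h7.trans h5)) (h4 l h8))

theorem close_append {m : ℕ} : ∀ (P R L : List (X × Bool)), Close m L (P ++ R) →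
    ∃ P' R', Close m P' P ∧ Close m R' R ∧ L = P' ++ R'
  | [], _, L, h => ⟨[], L, List.Forall₂.nil, h, rfl⟩
  | p :: P, R, L, h => by
    obtain ⟨q, l, h1, h2, rfl⟩ := List.forall₂_cons_right_iff.mp h
    obtain ⟨P', R', h3, h4, rfl⟩ := close_append P R l h2
    exact ⟨q :: P', R', List.Forall₂.cons h1 h3, h4, rfl⟩

end Metric

theorem short {α : Type u} [DecidableEq α] {M : List (α × Bool)} (h : M.length ≤ 3) :
    reduce M = M ∨ ∃ P R y s, M = P ++ (y, s) :: (y, !s) :: R ∧ reduce M = P ++ R := by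
  by_cases h1 : IsReduced M
  · exact Or.inl h1.reduce_eq
  · rw [isReduced_iff_not_step] at h1
    push Not at h1
    obtain ⟨M', h2⟩ := h1
    have h3 := h2.length
    have h4 : reduce M' = M' := by
      rcases M' with _ | ⟨p, _ | ⟨q, l⟩⟩
      · rfl
      · rfl
      · simp only [List.length_cons] at h3; omega
    rw [reduce.Step.eq h2, h4]
    cases h2 with
    | @not P R y s => exact Or.inr ⟨P, R, y, s, rfl, rfl⟩

end Pool.Agent.H31.Snf
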