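import Pool.Agent.H31.CsfDefs
import Pool.Agent.H31.Snf3

namespace Pool.Agent.H31.Snf

open Set Filter Topology FreeAbelianGroup Pointwise

universe u v

theorem csf_of_star {G : Type u} [TopologicalSpace G] {S : Set G}
    (h : ∀ g ∈ S, ∃ 𝒞 : Set (Set G), 𝒞.Countable ∧ ∀ s : ℕ → G, (∀ k, s k ∈ S) →
      Tendsto s atTop (𝓝 g) → ∀ U ∈ 𝓝 g, ∃ P ∈ 𝒞, P ⊆ U ∧ ∃ᶠ k in atTop, s k ∈ P) :
    CsfCountable S inferInstance := by
  intro y
  obtain ⟨𝒞, hc, h1⟩ := h y y.2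
  refine ⟨(fun F => insert y (Subtype.val ⁻¹' ⋃₀ F)) '' {F | F.Finite ∧ F ⊆ 𝒞},
    (countable_setOf_finite_subset hc).image _, ?_, fun s hs U hU hy => ?_⟩
  · rintro _ ⟨F, -, rfl⟩
    exact mem_insert _ _
  obtain ⟨V, hV, hVU⟩ := (mem_nhds_subtype _ _ _).mp (hU.mem_nhds hy)
  have h2 := tendsto_subtype_rng.mp hs
  obtain ⟨P₀, h3, h4, -⟩ := h1 _ (fun k => (s k).2) h2 V hV
  obtain ⟨P, hP⟩ := (hc.mono (sep_subset 𝒞 fun P => P ⊆ V)).exists_eq_range ⟨P₀, h3, h4⟩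
  have h5 : ∀ j, P j ∈ 𝒞 ∧ P j ⊆ V := fun j => (hP ▸ mem_range_self j : P j ∈ {P ∈ 𝒞 | P ⊆ V})
  by_contra hcon
  have h6 : ∀ j, ∃ᶠ k in atTop, ∀ i ≤ j, (s k : G) ∉ P i := by
    intro j
    by_contra h7
    refine hcon ⟨_, ⟨P '' Iic j, ⟨(finite_Iic j).image _, ?_⟩, rfl⟩, ?_, ?_⟩
    · rintro _ ⟨i, -, rfl⟩
      exact (h5 i).1
    · rintro z (rfl | ⟨_, ⟨i, -, rfl⟩, h8⟩)
      · exact hy
      · exact hVU ((h5 i).2 h8)
    · refine (not_frequently.mp h7).mono fun k hk => Or.inr ?_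
      push Not at hk
      obtain ⟨i, h8, h9⟩ := hk
      exact ⟨_, ⟨i, h8, rfl⟩, h9⟩
  obtain ⟨ψ, h7, h8⟩ := extraction_forall_of_frequently h6
  obtain ⟨Q, h9, h10, h11⟩ := h1 _ (fun k => (s (ψ k)).2) (h2.comp h7.tendsto_atTop) V hV
  obtain ⟨i, rfl⟩ : Q ∈ range P := hP ▸ ⟨h9, h10⟩
  obtain ⟨k, h12, h13⟩ := (h11.and_eventually (eventually_ge_atTop i)).exists
  exact h8 k i h13 h12

theorem csf_sub {G : Type u} [TopologicalSpace G] {S : Set G} (h : CsfCountable S inferInstance)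
    {g : G} (hg : g ∈ S) : ∃ 𝒞 : Set (Set G), 𝒞.Countable ∧ ∀ s : ℕ → G, (∀ k, s k ∈ S) →
      Tendsto s atTop (𝓝 g) → ∀ U ∈ 𝓝 g, ∃ P ∈ 𝒞, P ⊆ U ∧ ∀ᶠ k in atTop, s k ∈ P := by
  obtain ⟨𝒞, hc, -, h1⟩ := h ⟨g, hg⟩
  refine ⟨image Subtype.val '' 𝒞, hc.image _, fun s hs hsg U hU => ?_⟩
  obtain ⟨P, h2, h3, h4⟩ := h1 (fun k => ⟨s k, hs k⟩) (tendsto_subtype_rng.mpr hsg) _
    (isOpen_interior.preimage continuous_subtype_val) (mem_interior_iff_mem_nhds.mpr hU)
  exact ⟨_, ⟨P, h2, rfl⟩, image_subset_iff.mpr fun z hz =>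
    (interior_subset (s := U) (h3 hz) : (z : G) ∈ U),
    h4.mono fun k hk => ⟨_, hk, rfl⟩⟩

theorem rec_choice {I : Type v} (A : ℕ → Set I) (r : I → I → Prop)
    (h : ∀ n (s : Finset I), ∃ x ∈ A n, ∀ y ∈ s, r y x) :
    ∃ α : ℕ → I, (∀ n, α n ∈ A n) ∧ ∀ j n, j < n → r (α j) (α n) := by
  classical
  choose F hF hr using h
  let S : ℕ → Finset I := fun n => Nat.rec ∅ (fun n s => insert (F n s) s) n
  have h1 : Monotone S := monotone_nat_of_le_succ fun n => Finset.subset_insert _ _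
  exact ⟨fun n => F n (S n), fun n => hF _ _, fun j n hj =>
    hr _ _ _ (h1 hj (Finset.mem_insert_self _ _))⟩

section Disc

variable {X : Type u} [TopologicalSpace X]

def LF (S : Set X) : Prop := S.Countable ∧ ∀ x, ∃ U ∈ 𝓝 x, (U ∩ S).Finite

theorem LF.union {S T : Set X} (h : LF S) (h' : LF T) : LF (S ∪ T) :=
  ⟨h.1.union h'.1, fun x => by
    obtain ⟨U, hU, h1⟩ := h.2 x
    obtain ⟨V, hV, h2⟩ := h'.2 x
    exact ⟨U ∩ V, inter_mem hU hV, (h1.union h2).subset fun y hy =>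
      hy.2.imp (fun h3 => ⟨hy.1.1, h3⟩) fun h3 => ⟨hy.1.2, h3⟩⟩⟩

theorem LF.of_finite {S : Set X} (h : S.Finite) : LF S :=
  ⟨h.countable, fun _ => ⟨univ, univ_mem, h.subset inter_subset_right⟩⟩

theorem disc [T4Space X] {S : Set X} (h : LF S) :
    ∃ U ∈ @nhds _ (topA X) 0, ∀ w ∈ U, ↑(support w) ⊆ S → w = 0 := by
  letI := topA X
  letI := topA ℝ
  haveI := grpA (X := ℝ)
  obtain ⟨e, he⟩ := countable_iff_exists_injOn.mp h.1
  obtain ⟨φ, hφ, h1⟩ := ext_of_locfin h.2 fun x => e x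
  have h2 : Continuous (lift fun x => of (φ x) : FreeAbelianGroup X → FreeAbelianGroup ℝ) :=
    liftA ((contA (X := ℝ)).comp hφ)
  refine ⟨_, h2.continuousAt.preimage_mem_nhds (by rw [map_zero]; exact lp_nhds one_pos),
    fun w hw hS => support_eq_empty.mp (Finset.eq_empty_of_forall_notMem fun s hs => ?_)⟩
  have h3 := hw (fun t => max 0 (1 - |t - e s|)) ⟨fun t => ⟨le_max_left _ _,
    max_le zero_le_one (by linarith [abs_nonneg (t - e s)])⟩, fun t t' =>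
      (abs_max_sub_max_le_max _ _ _ _).trans (max_le (by simp) (by
        rw [sub_sub_sub_cancel_left, abs_sub_comm]
        exact (abs_abs_sub_abs_le_abs_sub _ _).trans (by rw [sub_sub_sub_cancel_right]; rfl)))⟩
  rw [eq_sum_support_coeff_smul_of w, map_sum, map_sum, Finset.sum_eq_single_of_mem s hs] at h3
  · simp only [map_zsmul, lift_apply_of, h1 s (hS hs), sub_self, abs_zero, sub_zero,
      max_eq_right zero_le_one, zsmul_one] at h3
    have h4 : |coeff s w| < 1 := by exact_mod_cast h3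
    exact (mem_support_iff _ _).mp hs (Int.abs_lt_one_iff.mp h4)
  · intro x hx hxs
    have h4 : (1 : ℝ) ≤ |(e x : ℝ) - e s| := by
      have h5 : (e x : ℤ) - e s ≠ 0 := fun h6 => hxs (he (hS hx) (hS hs) (by omega))
      exact_mod_cast Int.one_le_abs h5
    simp only [map_zsmul, lift_apply_of, h1 x (hS hx)]
    rw [max_eq_left (by linarith), smul_zero]

theorem t2A [T4Space X] : @T2Space _ (topA X) := by
  letI := topA X
  haveI := grpA (X := X)
  refine IsTopologicalAddGroup.t2Space_of_zero_sep fun w hw => ?_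
  obtain ⟨U, hU, h⟩ := disc (LF.of_finite (support w).finite_toSet)
  exact ⟨U, hU, fun h1 => hw (h w h1 subset_rfl)⟩

def Good (π : FreeAbelianGroup X →+ FreeAbelianGroup X) (𝒯 : Set (Set (FreeAbelianGroup X)))
    (w : ℕ → FreeAbelianGroup X) : Prop :=
  ∃ (p e : ℕ → FreeAbelianGroup X) (q a : FreeAbelianGroup X) (S : Set X),
    (∀ᶠ k in atTop, w k = q + p k + e k) ∧ Tendsto p atTop (@nhds _ (topA X) a) ∧ π a = 0 ∧
    π q = q ∧ (∀ V ∈ @nhds _ (topA X) a, ∃ B ∈ 𝒯, B ⊆ V ∧ ∀ᶠ k in atTop, p k ∈ B) ∧ LF S ∧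
    (∀ k, ↑(support (e k)) ⊆ S) ∧ ∀ x, ∀ᶠ k in atTop, coeff x (e k) = 0

variable {π : FreeAbelianGroup X →+ FreeAbelianGroup X} {𝒯 𝒯' : Set (Set (FreeAbelianGroup X))}

theorem Good.comp {w : ℕ → FreeAbelianGroup X} (h : Good π 𝒯 w) {ψ : ℕ → ℕ}
    (hψ : StrictMono ψ) : Good π 𝒯 fun k => w (ψ k) := by
  obtain ⟨p, e, q, a, S, h1, h2, h3, h4, h5, h6, h7, h8⟩ := h
  have h9 := hψ.tendsto_atTop
  exact ⟨p ∘ ψ, e ∘ ψ, q, a, S, h9.eventually h1, h2.comp h9, h3, h4, fun V hV =>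
    (h5 V hV).imp fun B hB => ⟨hB.1, hB.2.1, h9.eventually hB.2.2⟩, h6, fun k => h7 _,
    fun x => h9.eventually (h8 x)⟩

theorem supp_add {S T : Set X} {a b : FreeAbelianGroup X} (ha : ↑(support a) ⊆ S)
    (hb : ↑(support b) ⊆ T) : ↑(support (a + b)) ⊆ S ∪ T := by
  classical
  intro x hx
  by_contra h
  rw [mem_union, not_or] at h
  have h1 : coeff x a = 0 := (notMem_support_iff _ _).mp fun h2 => h.1 (ha h2)
  have h2 : coeff x b = 0 := (notMem_support_iff _ _).mp fun h2 => h.2 (hb h2)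
  exact (mem_support_iff _ _).mp hx (by rw [map_add, h1, h2, add_zero])

theorem Good.add {w w' : ℕ → FreeAbelianGroup X} (h : Good π 𝒯 w) (h' : Good π 𝒯' w') :
    Good π (image2 (· + ·) 𝒯 𝒯') fun k => w k + w' k := by
  letI := topA X
  haveI := grpA (X := X)
  obtain ⟨p, e, q, a, S, h1, h2, h3, h4, h5, h6, h7, h8⟩ := h
  obtain ⟨p', e', q', a', S', g1, g2, g3, g4, g5, g6, g7, g8⟩ := h'
  refine ⟨p + p', e + e', q + q', a + a', S ∪ S', ?_, h2.add g2, by rw [map_add, h3, g3, add_zero],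
    by rw [map_add, h4, g4], fun V hV => ?_, h6.union g6, fun k => supp_add (h7 k) (g7 k),
    fun x => ?_⟩
  · filter_upwards [h1, g1] with k hk gk
    rw [hk, gk, Pi.add_apply, Pi.add_apply]
    abel
  · obtain ⟨A, hA, A', hA', hAA⟩ := mem_nhds_prod_iff.mp
      (continuous_add.continuousAt (x := (a, a')).preimage_mem_nhds hV)
    obtain ⟨B, h9, h10, h11⟩ := h5 A hA
    obtain ⟨B', g9, g10, g11⟩ := g5 A' hA'
    refine ⟨B + B', mem_image2_of_mem h9 g9, ?_, (h11.and g11).mono fun k hk =>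
      add_mem_add hk.1 hk.2⟩
    rintro _ ⟨b, hb, b', hb', rfl⟩
    exact hAA (mk_mem_prod (h10 hb) (g10 hb'))
  · filter_upwards [h8 x, g8 x] with k hk gk
    rw [Pi.add_apply, map_add, hk, gk, add_zero]

theorem Good.const (h0 : {0} ∈ 𝒯) {w : ℕ → FreeAbelianGroup X} {q : FreeAbelianGroup X}
    (hq : π q = q) (h : ∀ᶠ k in atTop, w k = q) : Good π 𝒯 w :=
  ⟨0, 0, q, 0, ∅, by simpa using h, @tendsto_const_nhds _ (topA X) _ _ _, map_zero _, hq,
    fun V hV => ⟨_, h0, singleton_subset_iff.mpr (@mem_of_mem_nhds _ (topA X) _ _ hV),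
      Eventually.of_forall fun _ => rfl⟩, LF.of_finite finite_empty, by simp, by simp⟩

theorem Good.fin [T4Space X] {w : ℕ → FreeAbelianGroup X} (h : Good π 𝒯 w)
    {g : FreeAbelianGroup X} (hg : Tendsto w atTop (@nhds _ (topA X) g)) :
    ∀ U ∈ @nhds _ (topA X) g, ∃ B ∈ 𝒯, {π g} + B ⊆ U ∧ ∀ᶠ k in atTop, w k ∈ {π g} + B := by
  letI := topA X
  haveI := grpA (X := X)
  haveI := t2A (X := X)
  obtain ⟨p, e, q, a, S, h1, h2, h3, h4, h5, h6, h7, h8⟩ := h
  have h9 : Tendsto e atTop (𝓝 (g - (q + a))) :=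
    (hg.sub (h2.const_add q)).congr' (h1.mono fun k hk => by simp only [hk]; abel)
  obtain ⟨W, hW, h10⟩ := disc h6
  have h11 : ∀ᶠ k in atTop ×ˢ atTop, e k.1 + -e k.2 ∈ W := by
    have := (h9.comp (tendsto_fst (g := atTop (α := ℕ)))).add
      (h9.comp (tendsto_snd (f := atTop (α := ℕ)))).neg
    rw [add_neg_cancel] at this
    exact this.eventually hW
  have h12 : ∀ᶠ k in atTop, e k = 0 := by
    filter_upwards [h11.curry] with k hk
    refine support_eq_empty.mp (Finset.eq_empty_of_forall_notMem fun x hx => ?_)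
    obtain ⟨j, h13, h14⟩ := (hk.and (h8 x)).exists
    have h15 := h10 _ h13 ((supp_add (h7 k) (by rw [support_neg]; exact h7 j)).trans
      (union_self S).subset)
    rw [add_neg_eq_zero] at h15
    exact (mem_support_iff _ _).mp hx (h15 ▸ h14)
  have h13 : g = q + a := sub_eq_zero.mp (tendsto_nhds_unique h9
    (tendsto_const_nhds.congr' (h12.mono fun k hk => hk.symm)))
  intro U hU
  have h14 : π g = q := by rw [h13, map_add, h3, h4, add_zero]
  obtain ⟨B, h15, h16, h17⟩ := h5 _ ((continuous_add_left q).continuousAt.preimage_mem_nhds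
    (h13 ▸ hU))
  refine ⟨B, h15, ?_, ?_⟩
  · rintro _ ⟨_, rfl, b, hb, rfl⟩
    rw [h14]
    exact h16 hb
  · filter_upwards [h1, h12, h17] with k h18 h19 h20
    rw [h18, h19, add_zero, h14]
    exact add_mem_add rfl h20

theorem good_list (hc : 𝒯.Countable) (h0 : {0} ∈ 𝒯)
    (h : ∀ y : ℕ → X × Bool, ∃ ψ : ℕ → ℕ, StrictMono ψ ∧ Good π 𝒯 fun k => val [y (ψ k)]) (n : ℕ) :
    ∃ 𝒮 : Set (Set (FreeAbelianGroup X)), 𝒮.Countable ∧ ∀ L : ℕ → List (X × Bool),
      (∀ k, (L k).length ≤ n) → ∃ ψ : ℕ → ℕ, StrictMono ψ ∧ Good π 𝒮 fun k => val (L (ψ k)) := by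
  have h1 : ∀ L : ℕ → List (X × Bool), ∃ ψ : ℕ → ℕ, StrictMono ψ ∧
      Good π 𝒯 fun k => val ((L (ψ k)).take 1) := by
    intro L
    by_cases h2 : ∃ᶠ k in atTop, L k = []
    · obtain ⟨ψ, h3, h4⟩ := extraction_of_frequently_atTop h2
      exact ⟨ψ, h3, Good.const h0 (map_zero _) (Eventually.of_forall fun k => by rw [h4]; rfl)⟩
    · obtain ⟨ψ, h3, h4⟩ := extraction_of_eventually_atTop (not_frequently.mp h2)
      obtain ⟨χ, h5, h6⟩ := h fun k => (L (ψ k)).head (h4 k)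
      refine ⟨ψ ∘ χ, h3.comp h5, ?_⟩
      convert h6 using 3 with k
      rw [List.take_one, Function.comp_apply, List.head?_eq_some_head (h4 _)]
      rfl
  induction n with
  | zero =>
    exact ⟨𝒯, hc, fun L hL => ⟨id, strictMono_id, Good.const h0 (map_zero _)
      (Eventually.of_forall fun k => by
        rw [List.length_eq_zero_iff.mp (Nat.le_zero.mp (hL _))]; rfl)⟩⟩
  | succ n ih =>
    obtain ⟨𝒮, h2, h3⟩ := ih
    refine ⟨_, hc.image2 h2 (· + ·), fun L hL => ?_⟩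
    obtain ⟨ψ, h4, h5⟩ := h1 L
    obtain ⟨χ, h6, h7⟩ := h3 (fun k => (L (ψ k)).drop 1) fun k => by
      have := hL (ψ k); rw [List.length_drop]; omega
    refine ⟨ψ ∘ χ, h4.comp h6, ?_⟩
    convert (h5.comp h6).add h7 using 2 with k
    rw [← val_append, List.take_append_drop]
    rfl

end Disc

section Las

variable {M : Type v} [MetricSpace M] {X : Type u} [TopologicalSpace X] {f : M → X}

theorem lf_image [T1Space X] (hcl : IsClosedMap f) {m : ℕ → M}
    (h : ∀ z, ¬MapClusterPt z atTop m) : LF (range (f ∘ m)) := by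
  refine ⟨countable_range _, fun x => ?_⟩
  have h1 : LocallyFinite fun k => {m k} ∩ f ⁻¹' {x}ᶜ := by
    intro z
    have h2 := h z
    rw [mapClusterPt_iff_frequently] at h2
    push Not at h2
    obtain ⟨U, hU, h3⟩ := h2
    obtain ⟨N, hN⟩ := eventually_atTop.mp h3
    refine ⟨U, hU, (finite_lt_nat N).subset ?_⟩
    rintro k ⟨_, ⟨rfl, -⟩, h4⟩
    by_contra h5
    exact hN k (not_lt.mp h5) h4
  have h2 := hcl _ (h1.isClosed_iUnion fun k => ((finite_singleton _).inter_of_left _).isClosed)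
  refine ⟨_, h2.isOpen_compl.mem_nhds ?_, (finite_singleton x).subset ?_⟩
  · rintro ⟨z, hz, rfl⟩
    obtain ⟨k, -, h3⟩ := mem_iUnion.mp hz
    exact h3 rfl
  · rintro _ ⟨h3, k, rfl⟩
    by_contra h4
    exact h3 ⟨_, mem_iUnion.mpr ⟨k, rfl, h4⟩, rfl⟩

theorem no_cluster {m : ℕ → M} {δ : ℝ} (hδ : 0 < δ) (h : ∀ j n, j < n → δ ≤ dist (m j) (m n))
    (z : M) : ¬MapClusterPt z atTop m := fun hz => by
  have h1 := mapClusterPt_iff_frequently.mp hz _ (Metric.ball_mem_nhds z (half_pos hδ))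
  obtain ⟨j, hj⟩ := h1.exists
  obtain ⟨n, hn, h2⟩ := (h1.and_eventually (eventually_gt_atTop j)).exists
  have h3 : dist (m j) z < δ / 2 := hj
  have h4 : dist (m n) z < δ / 2 := hn
  linarith [h j n h2, dist_triangle_right (m j) (m n) z]

theorem sep_bdry [T4Space X] (hc : Continuous f) (hcl : IsClosedMap f)
    (h : CsfCountable (An X 4) (TopologicalSpace.induced Subtype.val (topA X))) :
    ∃ D : Set M, D.Countable ∧ {m | ∃ᶠ z in 𝓝 m, f z ≠ f m} ⊆ closure D := by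
  letI := topA X
  haveI := grpA (X := X)
  obtain ⟨𝒞, h1, h2⟩ := csf_sub (S := An X 4) h (g := 0) ⟨[], by simp, rfl⟩
  have h3 : ∀ m : {m | ∃ᶠ z in 𝓝 m, f z ≠ f m}, ∃ s : ℕ → M, (∀ k, f (s k) ≠ f m) ∧
      Tendsto s atTop (𝓝 m) := fun m => by
    obtain ⟨s, h4, h5⟩ := exists_seq_forall_of_frequently m.2
    exact ⟨s, h5, h4⟩
  choose s hs hsm using h3
  have h4 : ∀ m, ∀ U ∈ 𝓝 (0 : FreeAbelianGroup X), ∃ P ∈ 𝒞, P ⊆ U ∧
      ∀ᶠ k in atTop, of (f (s m k)) - of (f m) ∈ P := fun m => h2 _ (fun k => by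
    obtain ⟨L, h5, h6⟩ := sub_mem_An (f (s m k)) (f m)
    exact ⟨L, h5.trans (by norm_num), h6⟩) (tendsto_sub_nhds_zero_iff.mpr
      (((contA.comp hc).tendsto _).comp (hsm m)))
  suffices h5 : ∀ ε > (0 : ℝ), ∃ t : Set M, t.Countable ∧
      {m | ∃ᶠ z in 𝓝 m, f z ≠ f m} ⊆ ⋃ x ∈ t, Metric.ball x ε by
    obtain ⟨t, -, h6, h7⟩ := UniformSpace.subset_countable_closure_of_almost_dense_set
      {m | ∃ᶠ z in 𝓝 m, f z ≠ f m} fun U hU => by
        obtain ⟨ε, hε, h8⟩ := Metric.mem_uniformity_dist.mp hU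
        obtain ⟨t, h9, h10⟩ := h5 ε hε
        exact ⟨t, h9, h10.trans (iUnion₂_mono fun x _ y hy => h8 (Metric.mem_ball'.mp hy))⟩
    exact ⟨t, h6, h7⟩
  intro ε hε
  by_contra hcon
  let A : Set (FreeAbelianGroup X) → Set {m | ∃ᶠ z in 𝓝 m, f z ≠ f m} := fun P =>
    {m | ∀ᶠ k in atTop, of (f (s m k)) - of (f m) ∈ P}
  let R : Set (FreeAbelianGroup X) → Prop := fun P =>
    ∀ t : Finset {m | ∃ᶠ z in 𝓝 m, f z ≠ f m}, ∃ x ∈ A P, ∀ y ∈ t, ε ≤ dist (y : M) x
  have h5 : ∃ m, ∀ P ∈ 𝒞, m ∈ A P → R P := by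
    by_contra h6
    push Not at h6
    have h7 : ∀ P, ∃ t : Finset {m | ∃ᶠ z in 𝓝 m, f z ≠ f m}, ¬R P →
        ∀ x ∈ A P, ∃ y ∈ t, dist (y : M) x < ε := fun P => by
      by_cases h8 : R P
      · exact ⟨∅, fun h9 => absurd h8 h9⟩
      · simp only [R] at h8
        push Not at h8
        exact h8.imp fun t ht _ => ht
    choose t ht using h7
    refine hcon ⟨⋃ P ∈ 𝒞, Subtype.val '' (t P : Set {m | ∃ᶠ z in 𝓝 m, f z ≠ f m}), h1.biUnion fun P _ =>
      (t P).countable_toSet.image _, fun m hm => ?_⟩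
    obtain ⟨P, h8, h9, h10⟩ := h6 ⟨m, hm⟩
    obtain ⟨y, h11, h12⟩ := ht P h10 _ h9
    exact mem_iUnion₂.mpr ⟨y, mem_iUnion₂.mpr ⟨P, h8, y, h11, rfl⟩, Metric.mem_ball'.mpr h12⟩
  obtain ⟨m₀, hm₀⟩ := h5
  obtain ⟨P₀, h6, -, h7⟩ := h4 m₀ _ univ_mem
  obtain ⟨P, hP⟩ := (h1.mono (sep_subset 𝒞 R)).exists_eq_range ⟨P₀, h6, hm₀ _ h6 h7⟩
  obtain ⟨α, h8, h9⟩ := rec_choice (fun n => A (P n)) (fun y x => ε ≤ dist (y : M) x) fun n =>
    (hP ▸ mem_range_self n : P n ∈ {P ∈ 𝒞 | R P}).2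
  have h10 : ∀ n, ∃ i, of (f (s (α n) i)) - of (f (α n)) ∈ P n ∧ dist (s (α n) i) (α n) < ε / 3 :=
    fun n => ((h8 n).and (Metric.tendsto_nhds.mp (hsm _) _ (by positivity))).exists
  choose i h11 h12 using h10
  obtain ⟨U, hU, h13⟩ := disc ((lf_image hcl (m := fun n => s (α n) (i n)) (no_cluster
    (δ := ε / 3) (by positivity) fun j n hj => by
      linarith [h9 j n hj, h12 j, h12 n, dist_triangle4 (α j : M) (s (α j) (i j)) (s (α n) (i n))
        (α n), dist_comm (α j : M) (s (α j) (i j))])).union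
    (lf_image hcl (m := fun n => α n) (no_cluster hε h9)))
  obtain ⟨Q, h14, h15, h16⟩ := h4 m₀ U hU
  obtain ⟨n, rfl⟩ : Q ∈ range P := hP ▸ ⟨h14, hm₀ _ h14 h16⟩
  have h17 := h13 _ (h15 (h11 n)) (by
    rw [sub_eq_add_neg]
    exact supp_add (by simp) (by simp))
  exact hs _ _ (of_injective (sub_eq_zero.mp h17))

theorem csfA [T35Space X] (hc : Continuous f) (hcl : IsClosedMap f) (hs : Function.Surjective f)
    (h : CsfCountable (An X 4) (TopologicalSpace.induced Subtype.val (topA X))) (n : ℕ) :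
    CsfCountable (An X n) (TopologicalSpace.induced Subtype.val (topA X)) := by
  classical
  haveI : NormalSpace X := ⟨fun s t h1 h2 h3 => by
    obtain ⟨U, V, hU, hV, h4, h5, h6⟩ := normal_separation (h1.preimage hc) (h2.preimage hc)
      (h3.preimage f)
    refine ⟨(f '' Uᶜ)ᶜ, (f '' Vᶜ)ᶜ, (hcl _ hU.isClosed_compl).isOpen_compl,
      (hcl _ hV.isClosed_compl).isOpen_compl, ?_, ?_, disjoint_left.mpr fun x h7 h8 => ?_⟩
    · rintro _ h7 ⟨z, h8, rfl⟩
      exact h8 (h4 h7)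
    · rintro _ h7 ⟨z, h8, rfl⟩
      exact h8 (h5 h7)
    · obtain ⟨z, rfl⟩ := hs x
      exact disjoint_left.mp h6 (not_not.mp fun h9 => h7 ⟨z, h9, rfl⟩)
        (not_not.mp fun h9 => h8 ⟨z, h9, rfl⟩)⟩
  haveI : T4Space X := ⟨⟩
  obtain ⟨D, hD, hD'⟩ := sep_bdry hc hcl h
  letI := topA X
  haveI := grpA (X := X)
  let N : X → Prop := fun x => ∃ m, (∃ᶠ z in 𝓝 m, f z ≠ f m) ∧ f m = x
  have h1 : ∀ x, ∃ m, f m = x ∧ (N x → ∃ᶠ z in 𝓝 m, f z ≠ f m) := fun x => by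
    by_cases h2 : N x
    · obtain ⟨m, h3, h4⟩ := h2
      exact ⟨m, h4, fun _ => h3⟩
    · exact (hs x).imp fun m hm => ⟨hm, fun h3 => absurd h3 h2⟩
  choose σ hσ hσ' using h1
  let π : FreeAbelianGroup X →+ FreeAbelianGroup X := lift fun x => if N x then 0 else of x
  have h1 : ∀ b, Continuous fun m => val [(f m, b)] := fun b => by
    cases b
    · exact ((contA (X := X)).comp hc).neg.congr fun m => by simp [val]
    · exact ((contA (X := X)).comp hc).congr fun m => by simp [val]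
  obtain ⟨𝒮, h2, h3⟩ := good_list (π := π) (𝒯 := insert {0} ((fun z : M × ℕ × Bool =>
      (fun m => val [(f m, z.2.2)]) '' Metric.ball z.1 (1 / ((z.2.1 : ℝ) + 1))) '' D ×ˢ univ))
      (((hD.prod countable_univ).image _).insert _) (mem_insert _ _) (fun y => by
    obtain ⟨b, hb⟩ : ∃ b, ∃ᶠ k in atTop, (y k).2 = b := by
      by_cases h2 : ∃ᶠ k in atTop, (y k).2 = true
      · exact ⟨_, h2⟩
      · exact ⟨false, ((not_frequently.mp h2).mono fun k hk => by simpa using hk).frequently⟩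
    obtain ⟨ψ, h2, h3⟩ := extraction_of_frequently_atTop hb
    have h4 : ∀ k, y (ψ k) = (f (σ (y (ψ k)).1), b) := fun k => Prod.ext (hσ _).symm (h3 k)
    by_cases h5 : ∃ z, MapClusterPt z atTop fun k => σ (y (ψ k)).1
    · obtain ⟨z, hz⟩ := h5
      obtain ⟨χ, h5, h6⟩ := hz.tendsto_subseq
      refine ⟨ψ ∘ χ, h2.comp h5, ?_⟩
      by_cases h7 : ∃ᶠ z' in 𝓝 z, f z' ≠ f z
      · refine ⟨_, 0, 0, val [(f z, b)], ∅, Eventually.of_forall fun k => ?_,
          ((h1 b).tendsto z).comp h6, ?_, map_zero _, fun V hV => ?_, LF.of_finite finite_empty,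
          by simp, by simp⟩
        · simp only [Function.comp_apply, Pi.zero_apply, zero_add, add_zero]
          rw [← h4]
        · have h8 : N (f z) := ⟨z, h7, rfl⟩
          cases b <;> simp [val, π, h8]
        · obtain ⟨ε, hε, h8⟩ := Metric.mem_nhds_iff.mp ((h1 b).continuousAt (x := z) hV)
          obtain ⟨r, hr⟩ := exists_nat_one_div_lt (half_pos hε)
          obtain ⟨d, hd, h9⟩ := Metric.mem_closure_iff.mp (hD' h7) _
            (Nat.one_div_pos_of_nat (α := ℝ) (n := r))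
          refine ⟨_, Or.inr ⟨(d, r, b), ⟨hd, trivial⟩, rfl⟩, ?_,
            (h6.eventually (Metric.isOpen_ball.mem_nhds h9)).mono fun k hk => ⟨_, hk, rfl⟩⟩
          rintro _ ⟨m, hm, rfl⟩
          refine h8 ?_
          have h10 : dist m d < 1 / ((r : ℝ) + 1) := hm
          show dist m z < ε
          linarith [dist_triangle_right m z d]
      · have h8 : ∀ᶠ k in atTop, (y (ψ (χ k))).1 = f z :=
          (h6.eventually (not_frequently.mp h7)).mono fun k hk => (hσ _).symm.trans (not_not.mp hk)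
        have h9 : σ (f z) = z := tendsto_nhds_unique (tendsto_const_nhds.congr'
          (h8.mono fun k hk => by simp only [Function.comp_apply, hk])) h6
        have h10 : ¬N (f z) := fun h11 => h7 (by simpa only [h9] using hσ' _ h11)
        refine Good.const (mem_insert _ _) (q := val [(f z, b)]) ?_ (h8.mono fun k hk => ?_)
        · cases b <;> simp [val, π, h10]
        · rw [← hk, ← h3 (χ k)]
          rfl
    · push Not at h5
      refine ⟨ψ, h2, 0, _, 0, 0, _, Eventually.of_forall fun k => (zero_add _).symm.trans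
        (congrArg (· + _) (add_zero _).symm), tendsto_const_nhds, map_zero _, map_zero _,
        fun V hV => ⟨_, mem_insert _ _, singleton_subset_iff.mpr (mem_of_mem_nhds hV),
          Eventually.of_forall fun _ => rfl⟩, lf_image hcl h5, fun k => ?_, fun x => ?_⟩
      · rw [h4]
        cases b <;> simp [val]
      · have h6 : ∀ᶠ k in atTop, (y (ψ k)).1 ≠ x := by
          by_contra h7
          refine h5 (σ x) (mapClusterPt_iff_frequently.mpr fun U hU =>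
            (not_eventually.mp h7).mono fun k hk => ?_)
          rw [not_not.mp hk]
          exact mem_of_mem_nhds hU
        refine h6.mono fun k hk => (notMem_support_iff _ _).mp ?_
        rcases h7 : (y (ψ k)).2 <;> simp [val, h7, hk.symm]) n
  refine csf_of_star fun g _ => ⟨(fun B => {π g} + B) '' 𝒮, h2.image _, fun s h4 h5 U hU => ?_⟩
  choose L hL hLs using h4
  obtain ⟨ψ, h6, h7⟩ := h3 L hL
  have h8 : ∀ k, val (L k) = s k := hLs
  simp only [h8] at h7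
  obtain ⟨B, h9, h10, h11⟩ := h7.fin (h5.comp h6.tendsto_atTop) U hU
  exact ⟨_, ⟨B, h9, rfl⟩, h10, h6.tendsto_atTop.frequently h11.frequently⟩

end Las

end Pool.Agent.H31.Snf
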