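import Pool.Agent.H31.SnfDefs

namespace Pool.Agent.H31.Snf

open Filter Topology

universe u

/-- every point has a countable cs-network at it -/
def CsfCountable (Y : Type u) (τ : TopologicalSpace Y) : Prop :=
  ∀ y : Y, ∃ 𝒞 : Set (Set Y), 𝒞.Countable ∧ (∀ P ∈ 𝒞, y ∈ P) ∧
    ∀ s : ℕ → Y, Tendsto s atTop (𝓝 y) → ∀ U : Set Y, IsOpen U → y ∈ U →
      ∃ P ∈ 𝒞, P ⊆ U ∧ ∀ᶠ k in atTop, s k ∈ P

end Pool.Agent.H31.Snf
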