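import Pool.Agent.H31.DOmDefs

set_option autoImplicit false

open Set

namespace Pool.Agent.H31.DOm

variable {X : Type*} [TopologicalSpace X]

def P (ℱ : Set (Set X)) : Prop := ℱ.Finite ∧ ∀ F ∈ ℱ, IsOpen F ∧ F.Nonempty
def Mt (W : Set X) (ℱ : Set (Set X)) : Prop := ∀ F ∈ ℱ, (W ∩ F).Nonempty
def G (W : Set X) : Prop := IsOpen W ∧ ¬ univ ⊆ closure W

omit [TopologicalSpace X] in
theorem Mt.mono {W V : Set X} {ℱ : Set (Set X)} (h : Mt W ℱ) (h' : W ⊆ V) : Mt V ℱ :=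
  fun F hF => (h F hF).mono (inter_subset_inter_left _ h')

theorem D_iff {𝒰 : Set (Set X)} :
    D 𝒰 ↔ (∀ U ∈ 𝒰, G U) ∧ ∀ ℱ, P ℱ → ∃ U ∈ 𝒰, Mt U ℱ := by
  refine ⟨fun h => ⟨fun U hU => ⟨h.1 U hU, h.2.2.1 U hU⟩, fun ℱ hF => h.2.2.2 ℱ hF.1 hF.2⟩,
    fun h => ⟨fun U hU => (h.1 U hU).1, dense_iff_inter_open.2 fun F h1 h2 => ?_,
      fun U hU => (h.1 U hU).2, fun ℱ h1 h2 => h.2 ℱ ⟨h1, h2⟩⟩⟩
  obtain ⟨U, hU, h3⟩ := h.2 {F} ⟨finite_singleton _, by rintro _ rfl; exact ⟨h1, h2⟩⟩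
  obtain ⟨x, x1, x2⟩ := h3 F rfl
  exact ⟨x, x2, U, hU, x1⟩

theorem P.shrink {W : Set X} {ℱ : Set (Set X)} (h : P ℱ) (hW : G W) (hm : Mt W ℱ) :
    P ((fun F => W ∩ F) '' ℱ) :=
  ⟨h.1.image _, by rintro _ ⟨F, hF, rfl⟩; exact ⟨hW.1.inter (h.2 F hF).1, hm F hF⟩⟩

theorem G.inter {W U : Set X} (hW : G W) (hU : G U) : G (U ∩ W) :=
  ⟨hU.1.inter hW.1, fun h => hW.2 (h.trans (closure_mono inter_subset_right))⟩

omit [TopologicalSpace X] in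
theorem Mt.inter {W U : Set X} {ℱ : Set (Set X)} (h : Mt U ((fun F => W ∩ F) '' ℱ)) :
    Mt (U ∩ W) ℱ := fun F hF => by
  rw [inter_assoc]; exact h _ ⟨F, hF, rfl⟩

theorem shrink {ι : Type*} {I : Set ι} (hI : I.Finite) {T : ι → ℕ → Set X}
    (hT : ∀ i, D (range (T i))) {ℱ : Set (Set X)} (hF : P ℱ) {W : Set X} (hW : G W)
    (hm : Mt W ℱ) : ∃ V, G V ∧ Mt V ℱ ∧ V ⊆ W ∧ ∀ i ∈ I, ∃ n, V ⊆ T i n := by
  induction I, hI using Set.Finite.induction_on with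
  | empty => exact ⟨W, hW, hm, le_rfl, fun _ h => h.elim⟩
  | @insert a s _ _ ih =>
    obtain ⟨V, v1, v2, v3, v4⟩ := ih
    obtain ⟨_, ⟨n, rfl⟩, hn⟩ := (D_iff.1 (hT a)).2 _ (hF.shrink v1 v2)
    refine ⟨T a n ∩ V, v1.inter ((D_iff.1 (hT a)).1 _ ⟨n, rfl⟩), hn.inter,
      inter_subset_right.trans v3, ?_⟩
    rintro i (rfl | hi)
    · exact ⟨n, inter_subset_left⟩
    · obtain ⟨k, hk⟩ := v4 i hi
      exact ⟨k, inter_subset_right.trans hk⟩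

def Sfin (X : Type*) [TopologicalSpace X] : Prop :=
  ∀ 𝒰 : ℕ → Set (Set X), (∀ n, D (𝒰 n)) →
    ∃ ℱ : ℕ → Set (Set X), (∀ n, (ℱ n).Finite ∧ ℱ n ⊆ 𝒰 n) ∧ D (⋃ n, ℱ n)

def S1 (X : Type*) [TopologicalSpace X] : Prop :=
  ∀ 𝒰 : ℕ → Set (Set X), (∀ n, D (𝒰 n)) → ∃ U : ℕ → Set X, (∀ n, U n ∈ 𝒰 n) ∧ D (range U)

theorem S1.sfin (h : S1 X) : Sfin X := fun 𝒰 h1 => by
  obtain ⟨U, u1, u2⟩ := h 𝒰 h1
  exact ⟨fun n => {U n}, fun n => ⟨finite_singleton _, singleton_subset_iff.2 (u1 n)⟩, by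
    rwa [iUnion_singleton_eq_range]⟩

theorem Sfin.enum (h : Sfin X) {𝒰 : Set (Set X)} (h1 : D 𝒰) :
    ∃ e : ℕ → Set X, (∀ n, e n ∈ 𝒰) ∧ D (range e) := by
  obtain ⟨ℱ, f1, f2⟩ := h (fun _ => 𝒰) fun _ => h1
  obtain ⟨U, hU, -⟩ := (D_iff.1 f2).2 ∅ ⟨finite_empty, fun _ h => h.elim⟩
  obtain ⟨e, he⟩ := (countable_iUnion fun n => (f1 n).1.countable).exists_eq_range ⟨U, hU⟩
  refine ⟨e, fun n => ?_, he ▸ f2⟩
  obtain ⟨k, hk⟩ := mem_iUnion.1 (he.superset ⟨n, rfl⟩)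
  exact (f1 k).2 hk

def cov (T : List ℕ → ℕ → Set X) (p : List ℕ) (W : Set X) : List ℕ → Prop
  | [] => False
  | n :: t => cov T p W t ∨ ∃ i < n, W ⊆ T (t ++ p) i

omit [TopologicalSpace X] in
theorem cov.mono {T : List ℕ → ℕ → Set X} {p : List ℕ} {W V : Set X} (h : V ⊆ W) :
    ∀ {t : List ℕ}, cov T p W t → cov T p V t
  | [], h' => h'
  | _ :: _, h' => h'.imp (cov.mono h) fun ⟨i, h1, h2⟩ => ⟨i, h1, h.trans h2⟩

theorem tail {T : List ℕ → ℕ → Set X} (hT : ∀ s, D (range (T s))) (p : List ℕ) (k : ℕ) :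
    D {W | G W ∧ {t : List ℕ | t.length = k ∧ ¬ cov T p W t}.Finite} := by
  refine D_iff.2 ⟨fun _ h => h.1, fun ℱ hF => ?_⟩
  induction k with
  | zero =>
    obtain ⟨U, u1, u2⟩ := (D_iff.1 (hT p)).2 ℱ hF
    exact ⟨U, ⟨(D_iff.1 (hT p)).1 U u1, (finite_singleton []).subset fun t ht =>
      List.length_eq_zero_iff.1 ht.1⟩, u2⟩
  | succ k ih =>
    obtain ⟨W, ⟨w1, w2⟩, w3⟩ := ih
    obtain ⟨V, v1, v2, v3, v4⟩ := shrink w2 (fun t => hT (t ++ p)) hF w1 w3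
    choose! n hn using v4
    refine ⟨V, ⟨v1, (w2.biUnion fun t _ => (finite_Iic (n t)).image (· :: t)).subset ?_⟩, v2⟩
    rintro (_ | ⟨a, t⟩) ⟨h1, h2⟩
    · simp at h1
    · have h3 : t.length = k ∧ ¬ cov T p W t :=
        ⟨by simpa using h1, fun h => h2 (Or.inl (h.mono v3))⟩
      exact mem_biUnion h3 ⟨a, not_lt.1 fun h => h2 (Or.inr ⟨_, h, hn t h3⟩), rfl⟩

theorem core (h : Sfin X) {T : List ℕ → ℕ → Set X} (hT : ∀ s, D (range (T s))) :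
    ∃ (m : ℕ → ℕ) (pos : ℕ → List ℕ), pos 0 = [] ∧ (∀ k, pos (k + 1) = m k :: pos k) ∧
      (∀ k, 0 < m k) ∧ ∀ ℱ, P ℱ → ∀ N, ∃ k, N ≤ k ∧ ∃ i < m k, Mt (T (pos k) i) ℱ := by
  have h1 : ∀ p : List ℕ, ∃ J : ℕ → Set (List ℕ), (∀ k, (J k).Finite) ∧ ∀ ℱ, P ℱ →
      ∃ k W, Mt W ℱ ∧ ∀ t : List ℕ, t.length = k + 1 → t ∉ J k → cov T p W t := fun p => by
    obtain ⟨𝒲, w1, w2⟩ := h _ fun k => tail hT p (k + 1)
    refine ⟨fun k => ⋃ W ∈ 𝒲 k, {t : List ℕ | t.length = k + 1 ∧ ¬ cov T p W t},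
      fun k => (w1 k).1.biUnion fun W hW => ((w1 k).2 hW).2, fun ℱ hF => ?_⟩
    obtain ⟨W, a1, a2⟩ := (D_iff.1 w2).2 ℱ hF
    obtain ⟨k, hk⟩ := mem_iUnion.1 a1
    exact ⟨k, W, a2, fun t t1 t2 => by
      by_contra t3
      exact t2 (mem_biUnion hk ⟨t1, t3⟩)⟩
  choose J j1 j2 using h1
  have h2 : ∀ s : List ℕ, ∃ a, 0 < a ∧ ∀ t p : List ℕ, t ++ p = s → a :: t ∉ J p t.length :=
    fun s => by
    have : (insert 0 (⋃ j ∈ Iic s.length, (· :: s.take j) ⁻¹' J (s.drop j) j)).Finite :=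
      ((finite_Iic _).biUnion fun j _ => (j1 _ _).preimage fun _ _ _ _ h =>
        (List.cons.inj h).1).insert 0
    obtain ⟨a, ha⟩ := this.exists_notMem
    refine ⟨a, Nat.pos_of_ne_zero fun h => ha (Or.inl h), ?_⟩
    rintro t p rfl h
    exact ha (Or.inr (mem_biUnion (show t.length ∈ Iic (t ++ p).length by simp) (by simpa using h)))
  choose a a1 a2 using h2
  obtain ⟨pos, p0, p1⟩ : ∃ pos : ℕ → List ℕ, pos 0 = [] ∧ ∀ k, pos (k + 1) = a (pos k) :: pos k :=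
    ⟨fun n => Nat.rec (motive := fun _ => List ℕ) [] (fun _ s => a s :: s) n, rfl, fun _ => rfl⟩
  refine ⟨fun k => a (pos k), pos, p0, p1, fun k => a1 _, fun ℱ hF N => ?_⟩
  obtain ⟨k, W, w1, w2⟩ := j2 (pos N) ℱ hF
  have h3 : ∀ k : ℕ, ∃ t : List ℕ, t.length = k ∧ t ++ pos N = pos (N + k) ∧
      (cov T (pos N) W t → ∃ j, N ≤ j ∧ ∃ i < a (pos j), W ⊆ T (pos j) i) := fun k => by
    induction k with
    | zero => exact ⟨[], rfl, rfl, fun h => h.elim⟩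
    | succ k ih =>
      obtain ⟨t, t1, t2, t3⟩ := ih
      refine ⟨a (pos (N + k)) :: t, by simp [t1], by rw [← add_assoc, p1, List.cons_append, t2], ?_⟩
      rintro (h | h)
      · exact t3 h
      · exact ⟨N + k, Nat.le_add_right _ _, t2 ▸ h⟩
  obtain ⟨t, t1, t2, t3⟩ := h3 k
  rcases w2 (a (pos (N + k)) :: t) (by simp [t1]) (by have := a2 _ t _ t2; rwa [t1] at this) with h | ⟨i, i1, i2⟩
  · obtain ⟨j, b1, i, b2, b3⟩ := t3 h
    exact ⟨j, b1, i, b2, w1.mono b3⟩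
  · exact ⟨N + k, Nat.le_add_right _ _, i, i1, w1.mono (t2 ▸ i2)⟩

theorem slalom (h : S1 X) {V : ℕ → ℕ → Set X} (hV : ∀ k i, G (V k i)) {m : ℕ → ℕ}
    (hm : ∀ k, 0 < m k) (h1 : ∀ ℱ, P ℱ → ∀ N, ∃ k, N ≤ k ∧ ∃ i < m k, Mt (V k i) ℱ) :
    ∃ c : ℕ → ℕ, (∀ k, c k < m k) ∧ ∀ ℱ, P ℱ → ∃ k, Mt (V k (c k)) ℱ := by
  have h2 : ∀ n, D {W | G W ∧ ∃ K : Finset ℕ, K.card = n + 1 ∧ ∀ k ∈ K, ∃ i < m k, W ⊆ V k i} :=
    fun n => by
    refine D_iff.2 ⟨fun _ h => h.1, fun ℱ hF => ?_⟩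
    induction n with
    | zero =>
      obtain ⟨k, -, i, i1, i2⟩ := h1 ℱ hF 0
      exact ⟨_, ⟨hV k i, {k}, rfl, fun j hj => by
        rw [Finset.mem_singleton.1 hj]; exact ⟨i, i1, le_rfl⟩⟩, i2⟩
    | succ n ih =>
      obtain ⟨W, ⟨w1, K, k1, k2⟩, w2⟩ := ih
      obtain ⟨k, k3, i, i1, i2⟩ := h1 _ (hF.shrink w1 w2) (K.sup id + 1)
      have : k ∉ K := fun h => by
        have : k ≤ K.sup id := Finset.le_sup (f := id) h
        omega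
      refine ⟨_, ⟨w1.inter (hV k i), insert k K, by rw [Finset.card_insert_of_notMem this, k1],
        fun j hj => ?_⟩, i2.inter⟩
      rcases Finset.mem_insert.1 hj with rfl | hj
      · exact ⟨i, i1, inter_subset_left⟩
      · obtain ⟨l, l1, l2⟩ := k2 j hj
        exact ⟨l, l1, inter_subset_right.trans l2⟩
  obtain ⟨W, w1, w2⟩ := h _ h2
  choose K k1 k2 using fun n => (w1 n).2
  obtain ⟨φ, f1, f2⟩ := (Finset.all_card_le_biUnion_card_iff_exists_injective K).1 fun s => by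
    rcases s.eq_empty_or_nonempty with rfl | hs
    · simp
    calc s.card ≤ (Finset.range (s.max' hs + 1)).card := Finset.card_le_card fun x hx =>
          Finset.mem_range.2 (Nat.lt_succ_of_le (s.le_max' x hx))
      _ = (K (s.max' hs)).card := by rw [Finset.card_range, k1]
      _ ≤ _ := Finset.card_le_card (Finset.subset_biUnion_of_mem K (s.max'_mem hs))
  choose i i1 i2 using fun n => k2 n _ (f2 n)
  refine ⟨Function.extend φ i 0, fun k => ?_, fun ℱ hF => ?_⟩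
  · by_cases hk : ∃ n, φ n = k
    · obtain ⟨n, rfl⟩ := hk
      rw [f1.extend_apply]
      exact i1 n
    · rw [Function.extend_apply' _ _ _ hk]
      exact hm k
  · obtain ⟨_, ⟨n, rfl⟩, hn⟩ := (D_iff.1 w2).2 ℱ hF
    exact ⟨φ n, by rw [f1.extend_apply]; exact hn.mono (i2 n)⟩

theorem branch (h : S1 X) {U : List ℕ → ℕ → Set X} (hU : ∀ s, D (range (U s))) :
    ∃ (m : ℕ → ℕ) (pos : ℕ → List ℕ), pos 0 = [] ∧ (∀ k, pos (k + 1) = m k :: pos k) ∧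
      ∀ ℱ, P ℱ → ∃ k, Mt (U (pos k) (m k)) ℱ := by
  have h1 : ∀ B : Set (List ℕ), B.Finite → ∃ (E : ℕ → Set X) (f : ℕ → List ℕ → ℕ),
      D (range E) ∧ ∀ i, ∀ r ∈ B, E i ⊆ U r (f i r) := fun B hB => by
    obtain ⟨E, e1, e2⟩ := h.sfin.enum (𝒰 := {W | G W ∧ ∀ r ∈ B, ∃ n, W ⊆ U r n})
      (D_iff.2 ⟨fun _ h => h.1, fun ℱ hF => by
        obtain ⟨W, w1, w2⟩ := (D_iff.1 (hU [])).2 ℱ hF
        obtain ⟨V, v1, v2, -, v4⟩ := shrink hB hU hF ((D_iff.1 (hU [])).1 W w1) w2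
        exact ⟨V, ⟨v1, v4⟩, v2⟩⟩)
    choose! f hf using fun i => (e1 i).2
    exact ⟨E, f, e2, hf⟩
  choose! E f e1 e2 using h1
  obtain ⟨B, b0, b1⟩ : ∃ B : List ℕ → Set (List ℕ), B [] = {[]} ∧ ∀ a s, B (a :: s) =
      image2 (fun i r => f (B s) i r :: r) (Iio a) (B s) :=
    ⟨fun s => List.rec (motive := fun _ => Set (List ℕ)) {[]}
      (fun a _ b => image2 (fun i r => f b i r :: r) (Iio a) b) s, rfl, fun _ _ => rfl⟩
  have b2 : ∀ s, (B s).Finite := fun s => by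
    induction s with
    | nil => rw [b0]; exact finite_singleton _
    | cons a s ih => rw [b1]; exact (finite_Iio a).image2 _ ih
  obtain ⟨m, pos, p0, p1, p2, p3⟩ := core h.sfin (T := fun s => E (B s)) fun s => e1 _ (b2 s)
  obtain ⟨c, c1, c2⟩ := slalom h (V := fun k => E (B (pos k)))
    (fun k i => (D_iff.1 (e1 _ (b2 _))).1 _ ⟨i, rfl⟩) p2 p3
  obtain ⟨r, r0, r1⟩ : ∃ r : ℕ → List ℕ, r 0 = [] ∧
      ∀ k, r (k + 1) = f (B (pos k)) (c k) (r k) :: r k :=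
    ⟨fun n => Nat.rec (motive := fun _ => List ℕ) [] (fun k s => f (B (pos k)) (c k) s :: s) n,
      rfl, fun _ => rfl⟩
  have r2 : ∀ k, r k ∈ B (pos k) := fun k => by
    induction k with
    | zero => rw [r0, p0, b0]; rfl
    | succ k ih => rw [r1, p1, b1]; exact ⟨c k, c1 k, r k, ih, rfl⟩
  refine ⟨fun k => f (B (pos k)) (c k) (r k), r, r0, r1, fun ℱ hF => ?_⟩
  obtain ⟨k, hk⟩ := c2 ℱ hF
  exact ⟨k, hk.mono (e2 _ (b2 _) _ _ (r2 k))⟩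

theorem game1_total (h : S1 X) (σ : List (Set X) → Set (Set X)) (hσ : ∀ l, D (σ l)) :
    ∃ U : ℕ → Set X, (∀ n, U n ∈ σ ((List.range n).map U)) ∧ D (range U) := by
  choose e e1 e2 using fun l => h.sfin.enum (hσ l)
  obtain ⟨H, h0, h1⟩ : ∃ H : List ℕ → List (Set X), H [] = [] ∧
      ∀ a s, H (a :: s) = H s ++ [e (H s) a] :=
    ⟨fun s => List.rec (motive := fun _ => List (Set X)) [] (fun a _ b => b ++ [e b a]) s,
      rfl, fun _ _ => rfl⟩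
  obtain ⟨m, pos, p0, p1, p2⟩ := branch h (U := fun s => e (H s)) fun s => e2 _
  have h2 : ∀ n, (List.range n).map (fun k => e (H (pos k)) (m k)) = H (pos n) := fun n => by
    induction n with
    | zero => rw [p0, h0]; rfl
    | succ n ih => rw [List.range_succ, List.map_append, ih, p1, h1]; rfl
  refine ⟨fun k => e (H (pos k)) (m k), fun n => by rw [h2]; exact e1 _ _, D_iff.2 ⟨?_, ?_⟩⟩
  · rintro _ ⟨k, rfl⟩
    exact (D_iff.1 (e2 _)).1 _ ⟨_, rfl⟩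
  · intro ℱ hF
    obtain ⟨k, hk⟩ := p2 ℱ hF
    exact ⟨_, ⟨k, rfl⟩, hk⟩

theorem gamefin_total (h : Sfin X) (σ : List (Set (Set X)) → Set (Set X)) (hσ : ∀ l, D (σ l)) :
    ∃ ℱ : ℕ → Set (Set X), (∀ n, (ℱ n).Finite ∧ ℱ n ⊆ σ ((List.range n).map ℱ)) ∧
      D (⋃ n, ℱ n) := by
  choose e e1 e2 using fun l => h.enum (hσ l)
  obtain ⟨H, h0, h1⟩ : ∃ H : List ℕ → List (Set (Set X)), H [] = [] ∧
      ∀ a s, H (a :: s) = H s ++ [e (H s) '' Iio a] :=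
    ⟨fun s => List.rec (motive := fun _ => List (Set (Set X))) []
      (fun a _ b => b ++ [e b '' Iio a]) s, rfl, fun _ _ => rfl⟩
  obtain ⟨m, pos, p0, p1, -, p2⟩ := core h (T := fun s => e (H s)) fun s => e2 _
  have h2 : ∀ n, (List.range n).map (fun k => e (H (pos k)) '' Iio (m k)) = H (pos n) :=
    fun n => by
    induction n with
    | zero => rw [p0, h0]; rfl
    | succ n ih => rw [List.range_succ, List.map_append, ih, p1, h1]; rfl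
  refine ⟨fun k => e (H (pos k)) '' Iio (m k), fun n => ⟨(finite_Iio _).image _, ?_⟩,
    D_iff.2 ⟨fun U hU => ?_, fun ℱ hF => ?_⟩⟩
  · rw [h2]
    rintro _ ⟨i, -, rfl⟩
    exact e1 _ _
  · obtain ⟨k, i, -, rfl⟩ := mem_iUnion.1 hU
    exact (D_iff.1 (e2 _)).1 _ ⟨_, rfl⟩
  · obtain ⟨k, -, i, i1, i2⟩ := p2 ℱ hF 0
    exact ⟨_, mem_iUnion.2 ⟨k, i, i1, rfl⟩, i2⟩

theorem reach {α : Type*} {R : α → Set (Set X) → Prop} {Win : (ℕ → α) → Prop} [Nonempty α]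
    (h : ∀ σ : List α → Set (Set X), (∀ l, D (σ l)) →
      ∃ U : ℕ → α, (∀ n, R (U n) (σ ((List.range n).map U))) ∧ Win U)
    (σ : List α → Set (Set X))
    (hσ : ∀ (U : ℕ → α) (n : ℕ), (∀ k < n, R (U k) (σ ((List.range k).map U))) →
      D (σ ((List.range n).map U))) :
    ∃ U : ℕ → α, (∀ n, R (U n) (σ ((List.range n).map U))) ∧ Win U := by
  classical
  have h0 : D (σ []) := hσ (fun _ => Classical.arbitrary α) 0 fun _ h => by omega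
  obtain ⟨U, u1, u2⟩ := h (fun l => if D (σ l) then σ l else σ []) fun l => by
    split_ifs with h1
    exacts [h1, h0]
  refine ⟨U, fun n => ?_, u2⟩
  induction n using Nat.strong_induction_on with
  | _ n ih =>
    have := u1 n
    rwa [if_pos (hσ U n ih)] at this

end Pool.Agent.H31.DOm
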