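import Mathlib

set_option autoImplicit false

namespace Pool.Agent.H31.DOm

/-- The class D_Omega of families of open sets. -/
def D {X : Type*} [TopologicalSpace X] (𝒰 : Set (Set X)) : Prop :=
  (∀ U ∈ 𝒰, IsOpen U) ∧ Dense (⋃₀ 𝒰) ∧ (∀ U ∈ 𝒰, ¬ Set.univ ⊆ closure U) ∧
    ∀ ℱ : Set (Set X), ℱ.Finite → (∀ F ∈ ℱ, IsOpen F ∧ F.Nonempty) →
      ∃ U ∈ 𝒰, ∀ F ∈ ℱ, (U ∩ F).Nonempty

end Pool.Agent.H31.DOm
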