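import Pool.Agent.H31.Slender

set_option autoImplicit false

open Set Topology Filter

namespace Pool.Agent.H31.Erdos

abbrev L1 : Type := lp (fun _ : ℕ => ℝ) 1

theorem hasSum_L1 (x : L1) : HasSum (fun i => |x i|) ‖x‖ := by
  have := lp.hasSum_norm (p := 1) (by simp) x
  simpa using this

theorem cont_eval (i : ℕ) : Continuous fun x : L1 => x i :=
  (lp.evalCLM ℝ (fun _ : ℕ => ℝ) 1 i).continuous

/-- the complete Erdos group -/
def ES : AddSubgroup L1 where
  carrier := {x | ∀ i : ℕ, ∃ k : ℤ, ((i : ℝ) + 1) * x i = k}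
  add_mem' := by
    intro a b ha hb i
    obtain ⟨k, hk⟩ := ha i
    obtain ⟨l, hl⟩ := hb i
    exact ⟨k + l, by simp [mul_add, hk, hl]⟩
  zero_mem' := fun i => ⟨0, by simp⟩
  neg_mem' := by
    intro a ha i
    obtain ⟨k, hk⟩ := ha i
    exact ⟨-k, by simp [← hk]⟩

theorem ES_closed : IsClosed (ES : Set L1) := by
  have : (ES : Set L1) = ⋂ i : ℕ, (fun x : L1 => ((i : ℝ) + 1) * x i) ⁻¹' range ((↑) : ℤ → ℝ) := by
    ext x
    simp only [mem_iInter, mem_preimage, mem_range]
    exact forall_congr' fun i => exists_congr fun k => eq_comm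
  rw [this]
  exact isClosed_iInter fun i => Int.isClosedEmbedding_coe_real.isClosed_range.preimage
    (continuous_const.mul (cont_eval i))

abbrev E : Type := ES

instance : CompleteSpace E := ES_closed.completeSpace_coe

noncomputable def coord (i : ℕ) : E →+ ℤ :=
  AddMonoidHom.mk' (fun x => (x.2 i).choose) (by
    intro a b
    have h1 := (a.2 i).choose_spec
    have h2 := (b.2 i).choose_spec
    have h3 := ((a + b).2 i).choose_spec
    have : (((a + b).2 i).choose : ℝ) = (a.2 i).choose + (b.2 i).choose := by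
      rw [← h1, ← h2, ← h3]; simp [mul_add]
    exact_mod_cast this)

theorem coord_spec (i : ℕ) (x : E) : x.1 i = (coord i x : ℝ) / ((i : ℝ) + 1) := by
  have h1 : ((i : ℝ) + 1) * x.1 i = (coord i x : ℝ) := (x.2 i).choose_spec
  rw [← h1]; field_simp

theorem endo_cont (f : E →+ E) : Continuous f := by
  have h1 : ∀ i, Continuous fun x => (f x).1 i := by
    intro i
    have : (fun x => (f x).1 i) = fun x => (((coord i).comp f x : ℤ) : ℝ) / ((i : ℝ) + 1) :=
      funext fun x => coord_spec i (f x)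
    rw [this]
    exact (continuous_of_discreteTopology.comp
      (Slender.dudley_cont ((coord i).comp f))).div_const _
  have h2 : ∀ k : ℕ, IsClosed {x | ‖f x‖ ≤ k} := by
    intro k
    have : {x | ‖f x‖ ≤ k} = ⋂ s : Finset ℕ, {x | ∑ i ∈ s, |(f x).1 i| ≤ k} := by
      ext x
      simp only [mem_setOf_eq, mem_iInter]
      constructor
      · intro h s
        exact (sum_le_hasSum s (fun i _ => abs_nonneg _) (hasSum_L1 (f x).1)).trans h
      · intro h
        exact hasSum_le_of_sum_le (hasSum_L1 (f x).1) h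
    rw [this]
    exact isClosed_iInter fun s => isClosed_le
      (continuous_finset_sum s fun i _ => (h1 i).abs) continuous_const
  obtain ⟨k, x₀, hx₀⟩ := nonempty_interior_of_iUnion_of_closed h2 (by
    refine eq_univ_of_forall fun x => mem_iUnion.2 ?_
    exact exists_nat_ge ‖f x‖)
  obtain ⟨δ, hδ, hb⟩ := Metric.mem_nhds_iff.1 (mem_interior_iff_mem_nhds.1 hx₀)
  have h3 : ∀ x, ‖x‖ < δ → ‖f x‖ ≤ 2 * k := by
    intro x hx
    have a1 : ‖f (x₀ + x)‖ ≤ k := hb (by simpa using hx)
    have a2 : ‖f x₀‖ ≤ k := hb (Metric.mem_ball_self hδ)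
    have : f x = f (x₀ + x) - f x₀ := by simp
    rw [this]
    linarith [norm_sub_le (f (x₀ + x)) (f x₀)]
  have h4 : ∀ (m : ℕ) (y : E), ‖m • y‖ = m * ‖y‖ := by
    intro m y
    show ‖m • y.1‖ = m * ‖y.1‖
    rw [← Nat.cast_smul_eq_nsmul ℝ, norm_smul]; simp
  apply continuous_of_continuousAt_zero
  rw [Metric.continuousAt_iff]
  intro ε hε
  obtain ⟨m, hm⟩ := exists_nat_gt (2 * k / ε)
  have hm0 : (0 : ℝ) < m := lt_of_le_of_lt (by positivity) hm
  refine ⟨δ / m, by positivity, fun x hx => ?_⟩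
  simp only [dist_zero_right, map_zero] at hx ⊢
  have a1 := h3 (m • x) (by rw [h4]; rwa [lt_div_iff₀' hm0] at hx)
  rw [map_nsmul, h4] at a1
  rw [div_lt_iff₀ hε] at hm
  nlinarith

theorem init_E : Slender.init E E = (inferInstance : TopologicalSpace E) := by
  apply le_antisymm
  · exact iInf_le_of_le (AddMonoidHom.id E) (le_of_eq induced_id)
  · exact le_iInf fun h => (endo_cont h).le_induced

noncomputable def e (j : ℕ) : E :=
  ⟨lp.single 1 j (1 / ((j : ℝ) + 1)), fun i => by
    by_cases h : i = j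
    · subst h
      refine ⟨1, ?_⟩
      rw [lp.single_apply_self]; field_simp; simp
    · exact ⟨0, by rw [lp.single_apply_ne _ _ _ h]; simp⟩⟩

theorem norm_e (j : ℕ) : ‖e j‖ = 1 / ((j : ℝ) + 1) := by
  show ‖(lp.single 1 j (1 / ((j : ℝ) + 1)) : L1)‖ = _
  rw [lp.norm_single (by simp), Real.norm_of_nonneg (by positivity)]

theorem e_ne {j i : ℕ} (h : i ≠ j) : (e j).1 i = 0 := lp.single_apply_ne _ _ _ h

theorem norm_add_disj (x y : E) (h : ∀ i, x.1 i = 0 ∨ y.1 i = 0) : ‖x + y‖ = ‖x‖ + ‖y‖ := by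
  have h1 := (hasSum_L1 x.1).add (hasSum_L1 y.1)
  have h2 := hasSum_L1 (x.1 + y.1)
  have : (fun i => |(x.1 + y.1) i|) = fun i => |x.1 i| + |y.1 i| := by
    funext i
    rcases h i with h | h <;> simp [h]
  rw [this] at h2
  exact h2.unique h1

theorem norm_nsmul' (m : ℕ) (y : E) : ‖m • y‖ = m * ‖y‖ := by
  show ‖m • y.1‖ = m * ‖y.1‖
  rw [← Nat.cast_smul_eq_nsmul ℝ, norm_smul]; simp

theorem not_clopen (U : Set E) (hU : IsClopen U) (h0 : (0 : E) ∈ U) (hb : ∀ x ∈ U, ‖x‖ < 1) :
    False := by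
  classical
  have step : ∀ (j : ℕ) (x : E), x ∈ U → (∀ i, j ≤ i → x.1 i = 0) →
      ∃ y : E, y ∈ U ∧ (∀ i, j + 1 ≤ i → y.1 i = 0) ∧ ‖y‖ = ‖x‖ + dist x y ∧ y + e j ∉ U := by
    intro j x hx hx'
    have hn : ∀ k : ℕ, ‖x + k • e j‖ = ‖x‖ + ‖k • e j‖ := by
      intro k
      apply norm_add_disj
      intro i
      by_cases h : i = j
      · exact Or.inl (hx' i h.ge)
      · right
        show (k • (e j).1) i = 0
        simp [e_ne h]
    have hex : ∃ k : ℕ, x + (k + 1) • e j ∉ U := by
      refine ⟨j, fun h => ?_⟩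
      have := hb _ h
      rw [hn, norm_nsmul', norm_e] at this
      push_cast at this
      rw [mul_one_div_cancel (by positivity)] at this
      linarith [norm_nonneg x]
    refine ⟨x + Nat.find hex • e j, ?_, ?_, ?_, ?_⟩
    · rcases h : Nat.find hex with _ | k
      · simpa using hx
      · have := Nat.find_min hex (m := k) (by omega)
        simpa using this
    · intro i hi
      show (x.1 + Nat.find hex • (e j).1) i = 0
      have a1 := hx' i (by omega)
      have a2 := e_ne (show i ≠ j by omega)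
      generalize Nat.find hex = k
      show x.1 i + k • (e j).1 i = 0
      rw [a1, a2]; simp
    · rw [hn]; simp
    · have := Nat.find_spec hex
      rwa [add_smul, one_smul, ← add_assoc] at this
  choose! F hF1 hF2 hF3 hF4 using step
  obtain ⟨x, hx0, hxs⟩ : ∃ x : ℕ → E, x 0 = 0 ∧ ∀ n, x (n + 1) = F n (x n) :=
    ⟨fun n => Nat.rec (motive := fun _ => E) 0 (fun n y => F n y) n, rfl, fun _ => rfl⟩
  have inv : ∀ n, x n ∈ U ∧ ∀ i, n ≤ i → (x n).1 i = 0 := by
    intro n
    induction n with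
    | zero => rw [hx0]; exact ⟨h0, fun _ _ => rfl⟩
    | succ n ih => rw [hxs]; exact ⟨hF1 n _ ih.1 ih.2, hF2 n _ ih.1 ih.2⟩
  have hsum : ∀ n, ∑ i ∈ Finset.range n, dist (x i) (x (i + 1)) = ‖x n‖ := by
    intro n
    induction n with
    | zero => simp [hx0]
    | succ n ih =>
      rw [Finset.sum_range_succ, ih, hxs, hF3 n _ (inv n).1 (inv n).2]
  have hc : CauchySeq x := cauchySeq_of_summable_dist
    (summable_of_sum_range_le (c := 1) (fun _ => dist_nonneg) fun n => by
      rw [hsum]; exact (hb _ (inv n).1).le)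
  obtain ⟨z, hz⟩ := cauchySeq_tendsto_of_complete hc
  have hzU : z ∈ U := hU.isClosed.mem_of_tendsto hz (Eventually.of_forall fun n => (inv n).1)
  have he : Tendsto e atTop (𝓝 0) := by
    rw [tendsto_zero_iff_norm_tendsto_zero]
    simp only [norm_e]
    exact tendsto_one_div_add_atTop_nhds_zero_nat
  have h2 : Tendsto (fun n => x (n + 1) + e n) atTop (𝓝 z) := by
    simpa using (hz.comp (tendsto_add_atTop_nat 1)).add he
  have h3 : z ∈ Uᶜ := hU.isOpen.isClosed_compl.mem_of_tendsto h2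
    (Eventually.of_forall fun n => by rw [hxs]; exact hF4 n _ (inv n).1 (inv n).2)
  exact h3 hzU

theorem not_zero_dim : ¬ ∃ B : Set (Set E), TopologicalSpace.IsTopologicalBasis B ∧
    ∀ s ∈ B, IsClopen s := by
  rintro ⟨B, hB, hc⟩
  obtain ⟨U, hUB, h0, hU⟩ := hB.mem_nhds_iff.1 (Metric.ball_mem_nhds (0 : E) one_pos)
  exact not_clopen U (hc U hUB) h0 fun x hx => by simpa using hU hx

instance : Infinite E := by
  refine Infinite.of_injective e fun i j h => ?_
  have := congrArg norm h
  rw [norm_e, norm_e, div_eq_div_iff (by positivity) (by positivity)] at this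
  have h2 : (j : ℝ) = i := by linarith
  exact_mod_cast h2.symm

end Pool.Agent.H31.Erdos
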