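import Mathlib

namespace Pool.Agent.H31.FB

open List

theorem len_ge {X A : Type} (α : X → List A) (h : ∀ x, α x ≠ []) (W : List X) :
    W.length ≤ (W.flatMap α).length := by
  induction W with
  | nil => simp
  | cons x W ih =>
    have := length_pos_iff.2 (h x)
    rw [flatMap_cons, length_append, length_cons]; omega

theorem len_le {X A : Type} (α : X → List A) {L : ℕ} (h : ∀ x, (α x).length ≤ L) (W : List X) :
    (W.flatMap α).length ≤ L * W.length := by
  induction W with
  | nil => simp
  | cons x W ih =>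
    have := h x
    rw [flatMap_cons, length_append, length_cons, mul_add]; omega

theorem split {X A : Type} (α : X → List A) (h : ∀ x, α x ≠ []) (W : List X) (m z : List A)
    (K : ℕ) (e : W.flatMap α = m ++ z) (hK : m.length ≤ K) :
    ∃ w, (W.take K).flatMap α = m ++ w ∧ z = w ++ (W.drop K).flatMap α := by
  have e' : (W.take K).flatMap α ++ (W.drop K).flatMap α = m ++ z := by
    rw [← flatMap_append, take_append_drop, e]
  rcases append_eq_append_iff.1 e' with ⟨w, h1, h2⟩ | ⟨w, h1, h2⟩
  · rcases le_total K W.length with h3 | h3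
    · have := len_ge α h (W.take K)
      have h4 := congrArg length h1
      rw [length_take] at this
      rw [length_append] at h4
      have : w = [] := length_eq_zero_iff.1 (by omega)
      subst this
      exact ⟨[], by simpa using h1.symm, by simpa using h2.symm⟩
    · rw [drop_eq_nil_of_le h3] at h2 ⊢
      rw [take_of_length_le h3, e]
      exact ⟨z, rfl, by simp⟩
  · exact ⟨w, h1, h2⟩

theorem core {X A B M N : Type} [Mul N] [Semigroup M] (α : X → List A) (β : X → List B)
    (hα : ∀ x, α x ≠ []) (hβ : ∀ x, β x ≠ []) (L : ℕ) (lα : ∀ x, (α x).length ≤ L)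
    (lβ : ∀ x, (β x).length ≤ L) (F : List A → M) (G : List B → M)
    (hF : ∀ u v, F (u ++ v) = F u * F v) (hG : ∀ u v, G (u ++ v) = G u * G v)
    (good : ∀ W : List X, F (W.flatMap α) = G (W.flatMap β))
    (gen : ∀ u v, F u = G v → ∃ W : List X, W.flatMap α = u ∧ W.flatMap β = v)
    (s : A → List B) (hs : ∀ u : List A, G (u.flatMap s) = F u)
    (q : List X → N) (hq : ∀ u v, q (u ++ v) = q u * q v)
    (hb : ∀ W W' : List X, W.flatMap α = W'.flatMap α → W.flatMap β = W'.flatMap β →
      (W.flatMap α).length ≤ L * (L + L * (L * L)) → q W = q W') (n : ℕ) :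
    ∀ W W' : List X, (W.flatMap α).length = n → W.flatMap α = W'.flatMap α →
      W.flatMap β = W'.flatMap β → q W = q W' := by
  have T : ∀ u v v', F u = G v → F u = G (v' ++ v) → v' = [] := fun u v v' h1 h2 => by
    by_contra h3
    have := length_pos_iff.2 h3
    have h4 : ∀ n, ∃ y, n ≤ y.length ∧ F u = G y := fun n => by
      induction n with
      | zero => exact ⟨v, by simp, h1⟩
      | succ n ih =>
        obtain ⟨y, h5, h6⟩ := ih
        exact ⟨v' ++ y, by rw [length_append]; omega, by rw [hG, ← h6, h1, ← hG, ← h2, h1]⟩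
    obtain ⟨y, h5, h6⟩ := h4 (L * u.length + 1)
    obtain ⟨W, rfl, rfl⟩ := gen _ _ h6
    have := len_le β lβ W
    have := Nat.mul_le_mul_left L (len_ge α hα W)
    omega
  induction n using Nat.strong_induction_on with | _ n ih => ?_
  intro W W' hn e1 e2
  rcases W' with _ | ⟨x, W2⟩
  · exact hb _ _ e1 e2 (by simp [e1])
  rw [flatMap_cons] at e1 e2
  obtain ⟨m, a1, a2⟩ := split α hα W _ _ L e1 (lα x)
  obtain ⟨m', b1, b2⟩ := split β hβ W _ _ L e2 (lβ x)
  have tk : ∀ (V : List X) K, L * (V.take K).length ≤ L * K := fun V K =>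
    Nat.mul_le_mul_left L (length_take_le _ _)
  have lm : m.length ≤ L * L := by
    have := (len_le α lα (W.take L)).trans (tk _ _)
    rw [a1, length_append] at this; omega
  have lm' : m'.length ≤ L * L := by
    have := (len_le β lβ (W.take L)).trans (tk _ _)
    rw [b1, length_append] at this; omega
  obtain ⟨W3, c1, c2⟩ := gen (m ++ (W.drop L).flatMap α) (m' ++ ((W.drop L).flatMap α).flatMap s)
    (by rw [← a2, good, b2, hG, hG, hs, good])
  obtain ⟨w, d1, d2⟩ := split α hα W3 _ _ _ c1 lm
  obtain ⟨v, f1, f2⟩ := split β hβ W3 _ _ _ c2 lm'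
  have lw : w.length ≤ L * (L * L) := by
    have := (len_le α lα (W3.take (L * L))).trans (tk _ _)
    rw [d1, length_append] at this; omega
  have hv : v = w.flatMap s := by
    rw [d2, flatMap_append] at f2
    rcases append_eq_append_iff.1 f2 with ⟨y, h1, h2⟩ | ⟨y, h1, h2⟩
    · rw [h1, T _ _ y (good _) (by rw [← h2, hs]), append_nil]
    · rw [h1, T _ _ y (hs _).symm (by rw [← h2, good]), append_nil]
  have k1 : F m * F w = G m' * F w := by rw [← hF, ← d1, good, f1, hG, hv, hs]
  obtain ⟨w', g1, g2⟩ := split α hα (W.drop L) _ _ _ d2 lw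
  obtain ⟨Sg, s1, s2⟩ := gen (m ++ ((W.drop L).take (L * (L * L))).flatMap α)
    (m' ++ ((W.drop L).take (L * (L * L))).flatMap β)
    (by rw [hG, ← good, g1, hF, hF, ← mul_assoc, ← mul_assoc, k1])
  have r1 : q (W.take L ++ (W.drop L).take (L * (L * L))) = q (x :: Sg) :=
    hb _ _ (by rw [flatMap_append, flatMap_cons, a1, s1, append_assoc])
      (by rw [flatMap_append, flatMap_cons, b1, s2, append_assoc])
      ((len_le α lα _).trans (Nat.mul_le_mul_left L (by
        rw [length_append]; exact Nat.add_le_add (length_take_le _ _) (length_take_le _ _))))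
  have r2 : q W2 = q (Sg ++ (W.drop L).drop (L * (L * L))) :=
    ih _ (by
      have := length_pos_iff.2 (hα x)
      rw [← hn, e1, length_append]; omega) _ _ rfl
      (by rw [flatMap_append, s1, a2, append_assoc, ← flatMap_append, take_append_drop])
      (by rw [flatMap_append, s2, b2, append_assoc, ← flatMap_append, take_append_drop])
  calc q W = q ((W.take L ++ (W.drop L).take (L * (L * L))) ++ (W.drop L).drop (L * (L * L))) := by
        rw [append_assoc, take_append_drop, take_append_drop]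
    _ = q ([x] ++ (Sg ++ (W.drop L).drop (L * (L * L)))) := by
        rw [hq, r1, ← hq]; rfl
    _ = q ([x] ++ W2) := by rw [hq, hq [x], r2]

def tl {A : Type} (w : FreeSemigroup A) : List A := w.head :: w.tail

theorem tl_inj {A : Type} : Function.Injective (tl (A := A)) := fun ⟨_, _⟩ ⟨_, _⟩ h => by
  simpa [tl] using h

theorem tl_mul {A : Type} (u v : FreeSemigroup A) : tl (u * v) = tl u ++ tl v := rfl

def ex {A Q : Type} [Semigroup Q] (f : FreeSemigroup A →ₙ* Q) : List A → WithOne Q
  | [] => 1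
  | a :: l => (f ⟨a, l⟩ : Q)

theorem ex_app {A Q : Type} [Semigroup Q] (f : FreeSemigroup A →ₙ* Q) :
    ∀ u v, ex f (u ++ v) = ex f u * ex f v
  | [], v => (one_mul _).symm
  | a :: l, [] => by rw [append_nil]; exact (mul_one _).symm
  | a :: l, b :: l' => congrArg (fun z : Q => (z : WithOne Q)) (map_mul f ⟨a, l⟩ ⟨b, l'⟩)

theorem main (A B Q : Type) [Semigroup Q] (f : FreeSemigroup A →ₙ* Q) (g : FreeSemigroup B →ₙ* Q)
    (hg : Function.Surjective g) (S : Subsemigroup (FreeSemigroup A × FreeSemigroup B))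
    (hS : ∀ p, p ∈ S ↔ f p.1 = g p.2) (T : Set (FreeSemigroup A × FreeSemigroup B))
    (hT : T.Finite) (fg : Subsemigroup.closure T = S) :
    ∃ (X : Type) (_ : Finite X) (R : Set (FreeSemigroup X × FreeSemigroup X)), R.Finite ∧
      Nonempty ((conGen fun a b => (a, b) ∈ R).Quotient ≃* S) := by
  have : Finite T := hT
  let α : T → List A := fun x => tl x.1.1
  let β : T → List B := fun x => tl x.1.2
  have hα : ∀ x, α x ≠ [] := fun x => cons_ne_nil _ _
  have hβ : ∀ x, β x ≠ [] := fun x => cons_ne_nil _ _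
  obtain ⟨L, hL⟩ := Finite.exists_le fun x : T => (α x).length + (β x).length
  let π : FreeSemigroup T →ₙ* FreeSemigroup A × FreeSemigroup B := FreeSemigroup.lift fun x => x.1
  have hπ : ∀ W, (tl W).flatMap α = tl (π W).1 ∧ (tl W).flatMap β = tl (π W).2 ∧ π W ∈ S :=
    fun W => by
      induction W using FreeSemigroup.recOnMul with
      | ih1 x => exact ⟨append_nil _, append_nil _, fg ▸ Subsemigroup.subset_closure x.2⟩
      | ih2 x y h1 h2 =>
        rw [tl_mul, flatMap_append, flatMap_append, map_mul, h1.1, h1.2.1, h2.1, h2.2.1]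
        exact ⟨rfl, rfl, S.mul_mem h1.2.2 h2.2.2⟩
  have sj : ∀ p ∈ S, ∃ W, π W = p := fun p hp => by
    rw [← fg] at hp
    induction hp using Subsemigroup.closure_induction with
    | mem x hx => exact ⟨.of ⟨x, hx⟩, rfl⟩
    | mul x y _ _ h1 h2 =>
      obtain ⟨a, rfl⟩ := h1
      obtain ⟨b, rfl⟩ := h2
      exact ⟨a * b, map_mul _ _ _⟩
  let D := L * (L + L * (L * L))
  let R : Set (FreeSemigroup T × FreeSemigroup T) :=
    {p | π p.1 = π p.2 ∧ (tl (π p.1).1).length ≤ D}
  have hP : (tl ⁻¹' {l : List T | l.length ≤ D}).Finite :=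
    (List.finite_length_le T D).preimage tl_inj.injOn
  refine ⟨T, this, R, (hP.prod hP).subset fun p hp => ⟨?_, ?_⟩, ?_⟩
  · exact (len_ge α hα _).trans ((hπ _).1 ▸ hp.2)
  · exact (len_ge α hα _).trans ((hπ _).1 ▸ hp.1 ▸ hp.2)
  let c : Con (FreeSemigroup T) := conGen fun a b => (a, b) ∈ R
  let mk : FreeSemigroup T →ₙ* c.Quotient := ⟨fun a => (a : c.Quotient), fun _ _ => rfl⟩
  choose s hs using fun a : A => hg (f (.of a))
  have key := core α β hα hβ L (fun x => (Nat.le_add_right _ _).trans (hL x))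
    (fun x => (Nat.le_add_left _ _).trans (hL x)) (ex f) (ex g) (ex_app f) (ex_app g)
    (fun W => by
      rcases W with _ | ⟨x, W⟩
      · rfl
      · obtain ⟨h1, h2, h3⟩ := hπ ⟨x, W⟩
        exact (congrArg (ex f) h1).trans ((congrArg (fun z : Q => (z : WithOne Q))
          ((hS _).1 h3)).trans (congrArg (ex g) h2).symm))
    (fun u v h => by
      rcases u with _ | ⟨a, u⟩ <;> rcases v with _ | ⟨b, v⟩
      · exact ⟨[], rfl, rfl⟩
      · exact absurd h WithOne.one_ne_coe
      · exact absurd h WithOne.coe_ne_one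
      · obtain ⟨W, hW⟩ := sj (⟨a, u⟩, ⟨b, v⟩) ((hS _).2 (WithOne.coe_inj.1 h))
        exact ⟨tl W, (hπ W).1.trans (by rw [hW]; rfl), (hπ W).2.1.trans (by rw [hW]; rfl)⟩)
    (fun a => tl (s a))
    (fun u => by
      induction u with
      | nil => rfl
      | cons a u ih =>
        rw [flatMap_cons, ex_app, ih]
        exact (congrArg (fun z : Q => (z : WithOne Q) * ex f u) (hs a)).trans
          (ex_app f [a] u).symm)
    (ex mk) (ex_app mk)
    (fun W W' h1 h2 h3 => by
      rcases W with _ | ⟨x, W⟩ <;> rcases W' with _ | ⟨y, W'⟩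
      · rfl
      · have := len_ge α hα (y :: W')
        rw [← h1] at this
        simp at this
      · have := len_ge α hα (x :: W)
        rw [h1] at this
        simp at this
      · refine WithOne.coe_inj.2 (c.eq.2 (ConGen.Rel.of _ _ ⟨Prod.ext (tl_inj ?_) (tl_inj ?_), ?_⟩))
        · exact (hπ ⟨x, W⟩).1.symm.trans (h1.trans (hπ ⟨y, W'⟩).1)
        · exact (hπ ⟨x, W⟩).2.1.symm.trans (h2.trans (hπ ⟨y, W'⟩).2.1)
        · exact (hπ ⟨x, W⟩).1 ▸ h3)
  have hc : ∀ a b, c a b → π a = π b := fun a b h => by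
    induction h with
    | of _ _ h => exact h.1
    | refl => rfl
    | symm _ h => exact h.symm
    | trans _ _ h h' => exact h.trans h'
    | mul _ _ h h' => rw [map_mul, map_mul, h, h']
  let φ : c.Quotient →ₙ* S :=
    ⟨fun x => Con.liftOn x (fun a => (⟨π a, (hπ a).2.2⟩ : S)) fun a b h => Subtype.ext (hc a b h),
      fun x y => Con.induction_on₂ x y fun a b => Subtype.ext (map_mul π a b)⟩
  have i1 : ∀ x y, φ x = φ y → x = y := fun x y => Con.induction_on₂ x y fun a b h => by
    have h' : π a = π b := congrArg Subtype.val h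
    exact WithOne.coe_inj.1 (key _ (tl a) (tl b) rfl (by rw [(hπ a).1, (hπ b).1, h'])
      (by rw [(hπ a).2.1, (hπ b).2.1, h']))
  have i2 : ∀ p, ∃ x, φ x = p := fun p => by
    obtain ⟨W, hW⟩ := sj p.1 p.2
    exact ⟨(W : c.Quotient), Subtype.ext hW⟩
  exact ⟨MulEquiv.ofBijective φ ⟨i1, i2⟩⟩

end Pool.Agent.H31.FB
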