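import Pool.Agent.H31.SemiDefs

namespace Pool.Agent.H31.Semi

open Set Function Filter Topology Cardinal TopologicalSpace MeasureTheory

theorem build {T K : Type} (hK : #K ≤ 𝔠) (R : T → T → Prop) (P : K → Set T → Prop)
    (hP : ∀ k S S', S ⊆ S' → P k S → P k S')
    (step : ∀ k (S : Set T), #S < 𝔠 → (∀ p ∈ S, ∀ q ∈ S, R p q) →
      ∃ S' : Set T, S'.Finite ∧ (∀ p ∈ S ∪ S', ∀ q ∈ S ∪ S', R p q) ∧ P k (S ∪ S')) :
    ∃ S : Set T, (∀ p ∈ S, ∀ q ∈ S, R p q) ∧ ∀ k, P k S := by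
  classical
  rw [← mk_ord_toType 𝔠] at hK
  obtain ⟨j⟩ := (Cardinal.le_def _ _).1 hK
  have wf : WellFounded fun a b : K => j a < j b := InvImage.wf j wellFounded_lt
  have h0 : ∀ k (S : Set T), ∃ S' : Set T, #S < 𝔠 → (∀ p ∈ S, ∀ q ∈ S, R p q) →
      S'.Finite ∧ (∀ p ∈ S ∪ S', ∀ q ∈ S ∪ S', R p q) ∧ P k (S ∪ S') := by
    intro k S
    by_cases h : #S < 𝔠 ∧ ∀ p ∈ S, ∀ q ∈ S, R p q
    · obtain ⟨S', h'⟩ := step k S h.1 h.2
      exact ⟨S', fun _ _ => h'⟩
    · exact ⟨∅, fun h1 h2 => absurd ⟨h1, h2⟩ h⟩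
  choose s hs using h0
  let A : K → Set T := wf.fix fun i ih => s i (⋃ a : {a // j a < j i}, ih a a.2)
  have hA : ∀ i, A i = s i (⋃ a : {a // j a < j i}, A a) := fun i => wf.fix_eq _ i
  have key : ∀ i, (A i).Finite ∧ (∀ p ∈ (⋃ a : {a // j a < j i}, A a) ∪ A i,
      ∀ q ∈ (⋃ a : {a // j a < j i}, A a) ∪ A i, R p q) ∧
      P i ((⋃ a : {a // j a < j i}, A a) ∪ A i) := by
    intro i
    induction i using wf.induction with
    | _ i ih =>
    rw [hA i]
    apply hs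
    · refine (mk_iUnion_le_sum_mk.trans (sum_le_sum _ (fun _ => ℵ₀) fun a : {a // j a < j i} =>
        (ih a a.2).1.lt_aleph0.le)).trans_lt ?_
      rw [sum_const']
      refine mul_lt_of_lt aleph0_le_continuum ?_ aleph0_lt_continuum
      exact (mk_le_of_injective (f := fun a : {a // j a < j i} => (⟨j a, a.2⟩ : Iio (j i)))
        fun a b e => Subtype.ext (j.injective (congrArg Subtype.val e))).trans_lt
          (mk_Iio_toType_ord_lt _)
    · intro p hp q hq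
      obtain ⟨a, ha⟩ := mem_iUnion.mp hp
      obtain ⟨b, hb⟩ := mem_iUnion.mp hq
      rcases lt_trichotomy (j a) (j b) with h | h | h
      · exact (ih b b.2).2.1 p (Or.inl (mem_iUnion.mpr ⟨⟨a, h⟩, ha⟩)) q (Or.inr hb)
      · exact (ih b b.2).2.1 p (Or.inr (j.injective h ▸ ha)) q (Or.inr hb)
      · exact (ih a a.2).2.1 p (Or.inr ha) q (Or.inl (mem_iUnion.mpr ⟨⟨b, h⟩, hb⟩))
  refine ⟨⋃ i, A i, ?_, fun k => hP k _ _ ?_ (key k).2.2⟩
  · intro p hp q hq
    obtain ⟨a, ha⟩ := mem_iUnion.mp hp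
    obtain ⟨b, hb⟩ := mem_iUnion.mp hq
    rcases lt_trichotomy (j a) (j b) with h | h | h
    · exact (key b).2.1 p (Or.inl (mem_iUnion.mpr ⟨⟨a, h⟩, ha⟩)) q (Or.inr hb)
    · exact (key b).2.1 p (Or.inr (j.injective h ▸ ha)) q (Or.inr hb)
    · exact (key a).2.1 p (Or.inr ha) q (Or.inl (mem_iUnion.mpr ⟨⟨b, h⟩, hb⟩))
  · exact union_subset (iUnion_subset fun a => subset_iUnion A a) (subset_iUnion A k)

theorem exists_t : ∃ t : ℝ → C, Measurable t ∧
    ∀ (s : Finset ℝ) (f : ℝ → ZMod 2), {k | ∀ r ∈ s, t r k = f r}.Infinite := by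
  classical
  obtain ⟨p, hp⟩ := exists_dense_seq C(ℝ, ℝ)
  refine ⟨fun r k => if 0 < p k.unpair.1 r then 1 else 0, measurable_pi_lambda _ fun k =>
    Measurable.ite (isOpen_lt continuous_const (by fun_prop)).measurableSet measurable_const
      measurable_const, fun s f => ?_⟩
  let c : ℝ → ℝ := fun i => if f i = 0 then -1 else 1
  obtain ⟨n, hn⟩ := hp.exists_mem_open (s := ⋂ i ∈ s, {h : C(ℝ, ℝ) | 0 < c i * h i})
    (isOpen_biInter_finset fun i _ => isOpen_lt continuous_const (by fun_prop))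
    ⟨⟨fun r => (Lagrange.interpolate s id c).eval r, by fun_prop⟩, mem_iInter₂.2 fun i hi => by
      have := Lagrange.eval_interpolate_at_node (s := s) (v := id) c injective_id.injOn hi
      simp only [id] at this
      simp only [mem_setOf_eq, ContinuousMap.coe_mk, this, c]
      split_ifs <;> norm_num⟩
  refine infinite_of_injective_forall_mem (f := fun m => Nat.pair n m)
    (fun a b h => (Nat.pair_eq_pair.mp h).2) fun m i hi => ?_
  have h1 : 0 < c i * p n i := mem_iInter₂.1 hn i hi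
  have h2 : ∀ x : ZMod 2, x ≠ 0 → 1 = x := by decide
  simp only [Nat.unpair_pair]
  by_cases h : f i = 0
  · simp only [c, if_pos h] at h1
    rw [if_neg (by linarith), h]
  · simp only [c, if_neg h] at h1
    rw [if_pos (by linarith), h2 _ h]

theorem many {t : ℝ → C} (ht : Measurable t) {E : Set C} (hE : MeasurableSet E)
    (h : (Measure.addHaar : Measure C) E ≠ 0) : ∃ x, 𝔠 ≤ #{r | x + t r ∈ E} := by
  have hm : MeasurableSet {p : C × ℝ | p.1 + t p.2 ∉ E} :=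
    (measurable_fst.add (ht.comp measurable_snd)) hE.compl
  by_contra hcon
  push Not at hcon
  have h1 : ∀ x, ∀ᵐ r ∂(volume : Measure ℝ), x + t r ∉ E := by
    intro x
    have h2 : MeasurableSet {r | x + t r ∈ E} := (measurable_const.add ht) hE
    have h3 : {r | x + t r ∈ E}.Countable := by
      by_contra h3
      haveI := h2.standardBorel
      have e := PolishSpace.measurableEquivOfNotCountable (α := {r | x + t r ∈ E}) (β := ℝ)
        (fun h4 => h3 (countable_coe_iff.mp h4)) not_countable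
      exact absurd (mk_real ▸ (mk_congr e.toEquiv)).ge (not_le.mpr (hcon x))
    exact h3.ae_notMem volume
  obtain ⟨r, hr⟩ := ((Measure.ae_ae_comm (μ := (Measure.addHaar : Measure C)) (ν := volume)
    (p := fun x r => x + t r ∉ E) hm).mp (Eventually.of_forall h1)).exists
  apply h
  rw [← measure_preimage_add_right _ (t r) E]
  exact measure_eq_zero_iff_ae_notMem.mpr hr

theorem pos {f g : C → C} (hf : Measurable f) (hg : Measurable g) :
    (Measure.addHaar : Measure C)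
      {x | ¬ (g (f x) = x ∧ f x 0 = 0 ∧ Le x (f x) ∧ Le (f x) x)} ≠ 0 := by
  classical
  intro h0
  set μ : Measure C := Measure.addHaar
  let c : Finset ℕ → C := fun s n => if n ∈ s then 1 else 0
  have hc : Injective c := by
    intro s s' h
    ext n
    have := congrFun h n
    simp only [c] at this
    by_cases h1 : n ∈ s <;> by_cases h2 : n ∈ s' <;> simp_all
  let P : Finset ℕ → Set C := fun s => {x | g (f x) = x ∧ f x 0 = 0 ∧ f x = x + c s}
  have hP : ∀ s, MeasurableSet (P s) := fun s =>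
    (measurableSet_eq_fun (hg.comp hf) measurable_id).inter
      ((measurableSet_eq_fun ((measurable_pi_apply 0).comp hf) measurable_const).inter
        (measurableSet_eq_fun hf (measurable_id.add measurable_const)))
  have hcc : ∀ s (x : C), x + c s + c s = x := fun s x => by
    funext n
    have : ∀ a b : ZMod 2, a + b + b = a := by decide
    exact this _ _
  let Q : Finset ℕ → Set C := fun s => (fun y => y + c s) ⁻¹' P s
  have hQ : ∀ s, MeasurableSet (Q s) := fun s => (measurable_id.add measurable_const) (hP s)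
  have hQd : Pairwise (Disjoint on Q) := by
    intro s s' hne
    refine Set.disjoint_left.mpr fun y h1 h2 => hne (hc (add_left_cancel (a := y) ?_))
    have h3 := h1.1
    have h4 := h2.1
    rw [h1.2.2, hcc] at h3
    rw [h2.2.2, hcc] at h4
    exact h3.symm.trans h4
  have h1 : μ univ ≤ μ (⋃ s, Q s) := by
    rw [measure_iUnion hQd hQ]
    simp only [Q, measure_preimage_add_right]
    refine le_trans ?_ (measure_iUnion_le P)
    refine measure_mono_ae ?_
    filter_upwards [measure_eq_zero_iff_ae_notMem.mp h0] with x hx _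
    obtain ⟨h2, h3, h4, h5⟩ := not_not.mp hx
    refine mem_iUnion.mpr ⟨(h4.union h5).toFinset, h2, h3, funext fun n => ?_⟩
    simp only [c, Pi.add_apply, Finite.mem_toFinset, mem_union, mem_setOf_eq]
    generalize x n = a
    generalize f x n = b
    revert a b
    decide
  have h2 : (⋃ s, Q s) ⊆ {y : C | y 0 = 0} := by
    refine iUnion_subset fun s y hy => ?_
    have h3 := hy.2.1
    rwa [hy.2.2, hcc] at h3
  have h3 : MeasurableSet {y : C | y 0 = 0} :=
    measurableSet_eq_fun (measurable_pi_apply 0) measurable_const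
  have h4 : μ {y : C | y 0 = 0}ᶜ = 0 := by
    rw [measure_compl h3 (measure_ne_top _ _)]
    exact tsub_eq_zero_of_le (h1.trans (measure_mono h2))
  refine (IsOpen.measure_ne_zero μ ?_ ⟨1, ?_⟩) h4
  · exact (isClosed_eq (continuous_apply 0) continuous_const).isOpen_compl
  · show ¬ (1 : ZMod 2) = 0
    decide

theorem Le.refl (x : C) : Le x x := by simp [Le]

theorem Le.trans {x y z : C} (h1 : Le x y) (h2 : Le y z) : Le x z :=
  (Set.Finite.union h1 h2).subset fun n hn => by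
    by_cases h : y n = 1
    · exact Or.inr ⟨h, hn.2⟩
    · exact Or.inl ⟨hn.1, h⟩

theorem Le.compl {x y : C} (h : Le x y) : Le (y + 1) (x + 1) :=
  Set.Finite.subset h fun n hn => by
    have : ∀ a b : ZMod 2, b + 1 = 1 ∧ a + 1 ≠ 1 → a = 1 ∧ b ≠ 1 := by decide
    exact this _ _ hn

theorem cc (x : C) : x + 1 + 1 = x := by
  funext n
  have : ∀ a : ZMod 2, a + 1 + 1 = a := by decide
  exact this _

section
variable (t : ℝ → C)

/-- small sets -/
def Small (D : C) : Prop :=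
  ∃ R : Set ℝ, R.Infinite ∧ ∀ u ∈ R, ∀ v ∈ R, {k | D k = 1 ∧ t u k ≠ t v k}.Finite

/-- compatibility -/
def Rel (p q : C × Bool) : Prop :=
  (p.2 = true → ¬ Small t p.1) ∧ (p.2 = false → ¬ Small t (p.1 + 1)) ∧
    (p.2 = true → q.2 = false → ¬ Le p.1 q.1)

/-- decided in -/
def In (S : Set (C × Bool)) (x : C) : Prop := Small t (x + 1) ∨ ∃ A, (A, true) ∈ S ∧ Le A x

/-- decided out -/
def Out (S : Set (C × Bool)) (x : C) : Prop := Small t x ∨ ∃ B, (B, false) ∈ S ∧ Le x B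

variable {t}

theorem Small.mono {x y : C} (h : Small t y) (hxy : Le x y) : Small t x := by
  obtain ⟨R, hR, h⟩ := h
  refine ⟨R, hR, fun u hu v hv => (Set.Finite.union hxy (h u hu v hv)).subset fun n hn => ?_⟩
  by_cases h1 : y n = 1
  · exact Or.inr ⟨h1, hn.2⟩
  · exact Or.inl ⟨hn.1, h1⟩

theorem In.mono {S S' : Set (C × Bool)} (h : S ⊆ S') {x : C} (hx : In t S x) : In t S' x :=
  hx.imp_right fun ⟨A, h1, h2⟩ => ⟨A, h h1, h2⟩

theorem Out.mono {S S' : Set (C × Bool)} (h : S ⊆ S') {x : C} (hx : Out t S x) : Out t S' x :=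
  hx.imp_right fun ⟨A, h1, h2⟩ => ⟨A, h h1, h2⟩

theorem two (ht : ∀ (s : Finset ℝ) (f : ℝ → ZMod 2), {k | ∀ r ∈ s, t r k = f r}.Infinite)
    {D D' : C} (h : Small t D) (h' : Small t D') {r r' : ℝ} (hr : r ≠ r') :
    ∃ k, t r k ≠ t r' k ∧ D k ≠ 1 ∧ D' k ≠ 1 := by
  classical
  obtain ⟨R, hR, h⟩ := h
  obtain ⟨R', hR', h'⟩ := h'
  obtain ⟨u, hu, hu'⟩ := hR.exists_notMem_finset {r, r'}
  obtain ⟨u', hv, hv'⟩ := hR.exists_notMem_finset {r, r', u}
  obtain ⟨v, hw, hw'⟩ := hR'.exists_notMem_finset {r, r', u, u'}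
  obtain ⟨v', hz, hz'⟩ := hR'.exists_notMem_finset {r, r', u, u', v}
  simp only [Finset.mem_insert, Finset.mem_singleton, not_or] at hu' hv' hw' hz'
  obtain ⟨k, hk, hk'⟩ := (ht {r, r', u, u', v, v'}
    (fun s => if s = r ∨ s = u ∨ s = v then 0 else 1)).exists_notMem_finite
    ((h u hu u' hv).union (h' v hw v' hz))
  have e1 : t r k = 0 := by rw [hk r (by simp), if_pos (by simp)]
  have e2 : t u k = 0 := by rw [hk u (by simp), if_pos (by simp)]
  have e3 : t v k = 0 := by rw [hk v (by simp), if_pos (by simp)]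
  have e4 : t r' k = 1 := by
    rw [hk r' (by simp), if_neg (not_or.mpr ⟨hr.symm, not_or.mpr ⟨Ne.symm hu'.2, Ne.symm hw'.2.1⟩⟩)]
  have e5 : t u' k = 1 := by
    rw [hk u' (by simp), if_neg (not_or.mpr ⟨hv'.1, not_or.mpr ⟨hv'.2.2, Ne.symm hw'.2.2.2⟩⟩)]
  have e6 : t v' k = 1 := by
    rw [hk v' (by simp), if_neg (not_or.mpr ⟨hz'.1, not_or.mpr ⟨hz'.2.2.1, hz'.2.2.2.2⟩⟩)]
  refine ⟨k, by rw [e1, e4]; decide, fun h1 => hk' (Or.inl ⟨h1, by rw [e2, e5]; decide⟩),
    fun h1 => hk' (Or.inr ⟨h1, by rw [e3, e6]; decide⟩)⟩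

theorem not_both (ht : ∀ (s : Finset ℝ) (f : ℝ → ZMod 2), {k | ∀ r ∈ s, t r k = f r}.Infinite)
    {S : Set (C × Bool)} (hS : ∀ p ∈ S, ∀ q ∈ S, Rel t p q) {x : C} (h1 : In t S x)
    (h2 : Out t S x) : False := by
  rcases h1 with h1 | ⟨A, hA, h1⟩ <;> rcases h2 with h2 | ⟨B, hB, h2⟩
  · obtain ⟨k, -, h3, h4⟩ := two ht h1 h2 (zero_ne_one (α := ℝ))
    have : ∀ a : ZMod 2, a + 1 ≠ 1 → a ≠ 1 → False := by decide
    exact this _ h3 h4
  · exact (hS _ hB _ hB).2.1 rfl (h1.mono h2.compl)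
  · exact (hS _ hA _ hA).1 rfl (h2.mono h1)
  · exact (hS _ hA _ hB).2.2 rfl rfl (h1.trans h2)

theorem few_small (ht : ∀ (s : Finset ℝ) (f : ℝ → ZMod 2), {k | ∀ r ∈ s, t r k = f r}.Infinite)
    (x : C) : {r | Small t (x + t r)}.Finite := by
  refine Set.Subsingleton.finite fun r h r' h' => ?_
  by_contra hr
  obtain ⟨k, h1, h2, h3⟩ := two ht h h' hr
  have : ∀ a b c : ZMod 2, b ≠ c → a + b ≠ 1 → a + c ≠ 1 → False := by decide
  exact this _ _ _ h1 h2 h3

theorem few_le {A : C} (hA : ¬ Small t A) (x : C) : {r | Le A (x + t r)}.Finite := by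
  by_contra h
  refine hA ⟨_, h, fun u hu v hv => (Set.Finite.union hu hv).subset fun k hk => ?_⟩
  have : ∀ a b c : ZMod 2, b ≠ c → a + b ≠ 1 ∨ a + c ≠ 1 := by decide
  exact (this (x k) _ _ hk.2).imp (fun h => ⟨hk.1, h⟩) fun h => ⟨hk.1, h⟩

theorem undec (ht : ∀ (s : Finset ℝ) (f : ℝ → ZMod 2), {k | ∀ r ∈ s, t r k = f r}.Infinite)
    {S : Set (C × Bool)} (hc : #S < 𝔠) (hS : ∀ p ∈ S, ∀ q ∈ S, Rel t p q) (x : C) :
    #{r | In t S (x + t r) ∨ Out t S (x + t r)} < 𝔠 := by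
  have hx : ∀ r, x + t r + 1 = x + 1 + t r := fun r => add_right_comm _ _ _
  let G : S → Set ℝ := fun p => {r | (p.1.2 = true ∧ Le p.1.1 (x + t r)) ∨
    (p.1.2 = false ∧ Le (p.1.1 + 1) (x + 1 + t r))}
  have hG : ∀ p, (G p).Finite := by
    rintro ⟨⟨A, b⟩, hp⟩
    cases b
    · refine (few_le ((hS _ hp _ hp).2.1 rfl) (x + 1)).subset ?_
      rintro r (h | h)
      · cases h.1
      · exact h.2
    · refine (few_le ((hS _ hp _ hp).1 rfl) x).subset ?_
      rintro r (h | h)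
      · exact h.2
      · cases h.1
  have h1 : #(⋃ p, G p) < 𝔠 := by
    refine (mk_iUnion_le_sum_mk.trans (sum_le_sum _ (fun _ => ℵ₀) fun a =>
      (hG a).lt_aleph0.le)).trans_lt ?_
    rw [sum_const']
    exact mul_lt_of_lt aleph0_le_continuum hc aleph0_lt_continuum
  have h2 := ((few_small ht x).union (few_small ht (x + 1))).lt_aleph0.trans aleph0_lt_continuum
  refine lt_of_le_of_lt (mk_le_mk_of_subset ?_) ((mk_union_le _ _).trans_lt
    (add_lt_of_lt aleph0_le_continuum h1 h2))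
  rintro r ((h | ⟨A, hA, h⟩) | h | ⟨B, hB, h⟩)
  · exact Or.inr (Or.inr (show Small t (x + 1 + t r) from hx r ▸ h))
  · exact Or.inl (mem_iUnion.mpr ⟨⟨_, hA⟩, Or.inl ⟨rfl, h⟩⟩)
  · exact Or.inr (Or.inl h)
  · exact Or.inl (mem_iUnion.mpr ⟨⟨_, hB⟩, Or.inr ⟨rfl, hx r ▸ h.compl⟩⟩)

theorem add_in {S : Set (C × Bool)} (hS : ∀ p ∈ S, ∀ q ∈ S, Rel t p q) {x : C}
    (h : ¬ Out t S x) : ∀ p ∈ S ∪ {(x, true)}, ∀ q ∈ S ∪ {(x, true)}, Rel t p q := by
  rintro p (hp | rfl) q (hq | rfl)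
  · exact hS p hp q hq
  · exact ⟨(hS p hp p hp).1, (hS p hp p hp).2.1, fun _ h => (by cases h)⟩
  · exact ⟨fun _ h1 => h (Or.inl h1), fun h => (by cases h),
      fun _ h1 h2 => h (Or.inr ⟨q.1, h1 ▸ hq, h2⟩)⟩
  · exact ⟨fun _ h1 => h (Or.inl h1), fun h => (by cases h), fun _ h => (by cases h)⟩

theorem add_out {S : Set (C × Bool)} (hS : ∀ p ∈ S, ∀ q ∈ S, Rel t p q) {x : C}
    (h : ¬ In t S x) : ∀ p ∈ S ∪ {(x, false)}, ∀ q ∈ S ∪ {(x, false)}, Rel t p q := by
  rintro p (hp | rfl) q (hq | rfl)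
  · exact hS p hp q hq
  · exact ⟨(hS p hp p hp).1, (hS p hp p hp).2.1,
      fun h1 _ h2 => h (Or.inr ⟨p.1, h1 ▸ hp, h2⟩)⟩
  · exact ⟨fun h => (by cases h), fun _ h1 => h (Or.inl h1), fun h => (by cases h)⟩
  · exact ⟨fun h => (by cases h), fun _ h1 => h (Or.inl h1), fun h => (by cases h)⟩

theorem add_two {S : Set (C × Bool)} (hS : ∀ p ∈ S, ∀ q ∈ S, Rel t p q) {x y : C}
    (hx : ¬ Out t S x) (hy : ¬ In t S y) (hxy : ¬ Le x y) :
    ∀ p ∈ S ∪ {(x, true), (y, false)}, ∀ q ∈ S ∪ {(x, true), (y, false)}, Rel t p q := by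
  have := add_out (add_in hS hx) (x := y) (by
    rintro (h | ⟨A, hA | hA, h⟩)
    · exact hy (Or.inl h)
    · exact hy (Or.inr ⟨A, hA, h⟩)
    · cases hA
      exact hxy h)
  rwa [union_assoc, singleton_union] at this

/-- the pair of maps is defeated -/
def Kill (t : ℝ → C) (f g : C → C) (S : Set (C × Bool)) : Prop :=
  ∃ x, (In t S x ∧ (¬ (g (f x) = x ∧ f x 0 = 0) ∨ Out t S (f x))) ∨
    (g (f x) = x ∧ f x 0 = 0 ∧ Out t S x ∧ In t S (f x))

theorem step (hm : Measurable t)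
    (ht : ∀ (s : Finset ℝ) (f : ℝ → ZMod 2), {k | ∀ r ∈ s, t r k = f r}.Infinite)
    {f g : C → C} (hf : Measurable f) (hg : Measurable g)
    {S : Set (C × Bool)} (hc : #S < 𝔠) (hS : ∀ p ∈ S, ∀ q ∈ S, Rel t p q) :
    ∃ S' : Set (C × Bool), S'.Finite ∧ (∀ p ∈ S ∪ S', ∀ q ∈ S ∪ S', Rel t p q) ∧
      Kill t f g (S ∪ S') := by
  have hL : ∀ a b : C → C, Measurable a → Measurable b → MeasurableSet {x | Le (a x) (b x)} := by
    intro a b ha hb
    have : {x | Le (a x) (b x)} = ⋃ s : Finset ℕ, ⋂ n, {x | a x n = 1 ∧ b x n ≠ 1 → n ∈ s} := by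
      ext x
      simp only [mem_setOf_eq, mem_iUnion, mem_iInter]
      exact ⟨fun h => ⟨h.toFinset, fun n hn => h.mem_toFinset.mpr hn⟩,
        fun ⟨s, hs⟩ => s.finite_toSet.subset hs⟩
    rw [this]
    refine MeasurableSet.iUnion fun s => MeasurableSet.iInter fun n => ?_
    have h1 : Measurable fun x => (a x n, b x n) :=
      ((measurable_pi_apply n).comp ha).prodMk ((measurable_pi_apply n).comp hb)
    exact h1 (t := {p | p.1 = 1 ∧ p.2 ≠ 1 → n ∈ s}) (Set.toFinite _).measurableSet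
  have hE : MeasurableSet {x | ¬ (g (f x) = x ∧ f x 0 = 0 ∧ Le x (f x) ∧ Le (f x) x)} :=
    ((measurableSet_eq_fun (hg.comp hf) measurable_id).inter
      ((measurableSet_eq_fun ((measurable_pi_apply 0).comp hf) measurable_const).inter
        ((hL _ _ measurable_id hf).inter (hL _ _ hf measurable_id)))).compl
  obtain ⟨x0, h0⟩ := many hm hE (pos hf hg)
  obtain ⟨r, hr, hr'⟩ := not_subset.mp fun h =>
    (undec ht hc hS x0).not_ge (h0.trans (mk_le_mk_of_subset h))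
  simp only [mem_setOf_eq] at hr hr'
  generalize x0 + t r = x at hr hr'
  have hr2 : ¬ (g (f x) = x ∧ f x 0 = 0 ∧ Le x (f x) ∧ Le (f x) x) := hr
  obtain ⟨h1, h2⟩ := not_or.mp hr'
  have hin : ∀ (S' : Set (C × Bool)) y, (y, true) ∈ S' → In t (S ∪ S') y := fun S' y h =>
    Or.inr ⟨y, Or.inr h, Le.refl y⟩
  have hout : ∀ (S' : Set (C × Bool)) y, (y, false) ∈ S' → Out t (S ∪ S') y := fun S' y h =>
    Or.inr ⟨y, Or.inr h, Le.refl y⟩
  by_cases h3 : ¬ (g (f x) = x ∧ f x 0 = 0) ∨ Out t S (f x)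
  · exact ⟨_, finite_singleton _, add_in hS h2, x, Or.inl ⟨hin _ _ rfl,
      h3.imp_right (Out.mono subset_union_left)⟩⟩
  obtain ⟨h4, h5⟩ := not_or.mp h3
  have h4' := not_not.mp h4
  by_cases h6 : In t S (f x)
  · exact ⟨_, finite_singleton _, add_out hS h1, x, Or.inr ⟨h4'.1, h4'.2, hout _ _ rfl,
      h6.mono subset_union_left⟩⟩
  by_cases h7 : Le x (f x)
  · exact ⟨_, Set.toFinite _, add_two hS h5 h1 fun h => hr2 ⟨h4'.1, h4'.2, h7, h⟩, x,
      Or.inr ⟨h4'.1, h4'.2, hout _ _ (by simp), hin _ _ (by simp)⟩⟩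
  · exact ⟨_, Set.toFinite _, add_two hS h2 h6 h7, x,
      Or.inl ⟨hin _ _ (by simp), Or.inr (hout _ _ (by simp))⟩⟩

end

theorem exists_code : ∃ F : (ℕ → Set ℕ) → C → C, (∀ c, Measurable (F c)) ∧
    ∀ (S : Set C) (h : S → C), Continuous h → ∃ c, ∀ x : S, F c x = h x := by
  classical
  have hB := isBasis_countableBasis C
  obtain ⟨b, hb⟩ : ∃ b : ℕ → Set C, countableBasis C = range b :=
    (countable_countableBasis C).exists_eq_range (by
      obtain ⟨v, hv, -⟩ := hB.exists_subset_of_mem_open (mem_univ (0 : C)) isOpen_univ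
      exact ⟨v, hv⟩)
  have hbo : ∀ m, IsOpen (b m) := fun m => hB.isOpen (hb ▸ mem_range_self m)
  refine ⟨fun c x k => if x ∈ ⋃ m ∈ c k, b m then 1 else 0, fun c =>
    measurable_pi_lambda _ fun k => Measurable.ite
      (isOpen_biUnion fun m _ => hbo m).measurableSet measurable_const measurable_const, ?_⟩
  intro S h hh
  have h1 : ∀ k, ∃ O : Set C, IsOpen O ∧ Subtype.val ⁻¹' O = {x : S | h x k = 1} := fun k =>
    isOpen_induced_iff.mp ((isOpen_discrete {1}).preimage (f := fun x : S => h x k)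
      ((continuous_apply k).comp hh))
  choose O hO hO' using h1
  refine ⟨fun k => {m | b m ⊆ O k}, fun x => funext fun k => ?_⟩
  have h2 : (x : C) ∈ (⋃ m ∈ {m | b m ⊆ O k}, b m) ↔ h x k = 1 := by
    have h3 : (x : C) ∈ O k ↔ h x k = 1 := Set.ext_iff.mp (hO' k) x
    rw [← h3]
    constructor
    · intro h4
      obtain ⟨m, hm, h5⟩ := mem_iUnion₂.mp h4
      exact hm h5
    · intro h4
      obtain ⟨v, hv, h5, h6⟩ := hB.exists_subset_of_mem_open h4 (hO k)
      rw [hb] at hv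
      obtain ⟨m, rfl⟩ := hv
      exact mem_biUnion (show m ∈ {m | b m ⊆ O k} from h6) h5
  simp only [h2]
  generalize h x k = a
  revert a
  decide

theorem main : ∃ S : Set C, Semifilter S ∧
    ∃ U : Set S, IsClopen U ∧ U.Nonempty ∧ IsEmpty (U ≃ₜ S) := by
  obtain ⟨t, hm, ht⟩ := exists_t
  obtain ⟨F, hF, hF'⟩ := exists_code
  obtain ⟨S, hS, hK⟩ := build (K := (ℕ → Set ℕ) × (ℕ → Set ℕ)) (by simp) (Rel t)
    (fun k => Kill t (F k.1) (F k.2)) (by
      rintro k S S' h ⟨x, ⟨h1, h2⟩ | ⟨h1, h2, h3, h4⟩⟩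
      · exact ⟨x, Or.inl ⟨h1.mono h, h2.imp_right (Out.mono h)⟩⟩
      · exact ⟨x, Or.inr ⟨h1, h2, h3.mono h, h4.mono h⟩⟩)
    (fun k S hc hS => step hm ht (hF _) (hF _) hc hS)
  have hfin : ∀ x : C, {n | x n = 1}.Finite → Small t x := fun x hx =>
    ⟨univ, infinite_univ, fun _ _ _ _ => hx.subset fun _ hn => hn.1⟩
  have h1 : In t S (fun n => if n = 0 then 0 else 1) := by
    refine Or.inl (hfin _ ((finite_singleton 0).subset fun n hn => ?_))
    by_contra h
    have h2 : (if n = 0 then 0 else 1 : ZMod 2) + 1 = 1 := hn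
    rw [if_neg (show ¬ n = 0 from h)] at h2
    exact absurd h2 (by decide)
  refine ⟨{x | In t S x}, ⟨⟨_, h1⟩, fun x hx h => not_both ht hS hx (Or.inl (hfin x h)), ?_⟩,
    {x | x.1 0 = 0}, (isClopen_discrete {0}).preimage (f := fun x : {x | In t S x} => x.1 0)
      ((continuous_apply 0).comp continuous_subtype_val), ⟨⟨_, h1⟩, rfl⟩, ⟨fun e => ?_⟩⟩
  · rintro x (hx | ⟨A, hA, hx⟩) y hxy
    · exact Or.inl (hx.mono hxy.compl)
    · exact Or.inr ⟨A, hA, hx.trans hxy⟩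
  obtain ⟨c, hc⟩ := hF' {x | In t S x} (fun x => (e.symm x).1.1) (by fun_prop)
  obtain ⟨d, hd⟩ := hF' {x | In t S x ∧ x 0 = 0} (fun y => (e ⟨⟨y.1, y.2.1⟩, y.2.2⟩).1) (by
    refine continuous_subtype_val.comp (e.continuous.comp ?_)
    exact (continuous_subtype_val.subtype_mk _).subtype_mk _)
  obtain ⟨x, ⟨h2, h3⟩ | ⟨h2, h3, h4, h5⟩⟩ := hK (c, d)
  · have h4 : F c x = (e.symm ⟨x, h2⟩).1.1 := hc ⟨x, h2⟩
    simp only [h4] at h3
    rcases h3 with h3 | h3
    · refine h3 ⟨?_, (e.symm ⟨x, h2⟩).2⟩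
      have := hd ⟨(e.symm ⟨x, h2⟩).1.1, (e.symm ⟨x, h2⟩).1.2, (e.symm ⟨x, h2⟩).2⟩
      simpa using this
    · exact not_both ht hS (e.symm ⟨x, h2⟩).1.2 h3
  · have := hd ⟨F c x, h5, h3⟩
    refine not_both ht hS ?_ h4
    rw [← h2, this]
    exact (e _).2

end Pool.Agent.H31.Semi
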