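import Pool.Agent.H31.KR1
import Pool.Agent.H31.Omega1

namespace Pool.Agent.H31.Snf

open Set Filter Topology FreeGroup TopologicalSpace Omega1 Cardinal

theorem fin_approx {J : Type} [DecidableEq J] (b : Bool) (z : J → Bool) :
    Tendsto (fun F : Finset J => fun j => if j ∈ F then z j else b) atTop (𝓝 z) :=
  tendsto_pi_nhds.mpr fun j => tendsto_const_nhds.congr' ((eventually_ge_atTop {j}).mono
    fun F hF => (if_pos (hF (Finset.mem_singleton_self j))).symm)

def top : W → Bool := fun _ => true

def cs (u : W → Bool) : Prop := {a | u a = true}.Countable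

def sm (b : Bool) (y : Set W → Bool) : Prop := Cardinal.mk {k | y k = b} ≤ Cardinal.mk W

theorem not_cs : ¬cs top := fun h => not_countable_univ (h.mono fun _ _ => rfl)

theorem sm_disj {y : Set W → Bool} (h : sm true y) (h' : sm false y) : False := by
  have h1 : Cardinal.mk (Set.univ : Set (Set W)) ≤ Cardinal.mk W := by
    refine le_trans (mk_le_mk_of_subset fun k _ => ?_) ((mk_union_le _ _).trans
      (add_le_of_le (aleph0_le_mk W) h h'))
    cases h2 : y k
    · exact Or.inr h2
    · exact Or.inl h2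
  rw [mk_univ, mk_set] at h1
  exact absurd h1 (not_le.mpr (cantor _))

theorem sm_count {b : Bool} {y : Set W → Bool} (h : {k | y k = b}.Countable) : sm b y :=
  h.le_aleph0.trans (aleph0_le_mk W)

theorem sm_dense (b : Bool) : Dense {y | sm b y} := fun y => by
  classical
  refine mem_closure_of_tendsto (fin_approx (!b) y) (Eventually.of_forall fun F =>
    sm_count (F.countable_toSet.mono fun k hk => ?_))
  by_contra h
  simp [show k ∉ F from h] at hk

theorem sm_lim {b : Bool} {𝒰 : Ultrafilter (Finset W)} {y : Finset W → Set W → Bool}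
    {y₀ : Set W → Bool} (h : ∀ᶠ k in 𝒰, sm b (y k)) (h' : Tendsto y 𝒰 (𝓝 y₀)) : sm b y₀ := by
  have h1 : {j | y₀ j = b} ⊆ ⋃ k : {k | sm b (y k)}, {j | y k j = b} := fun j hj => by
    have h2 := tendsto_pi_nhds.mp h' j
    rw [nhds_discrete, tendsto_pure] at h2
    obtain ⟨k, h3, h4⟩ := (h.and h2).exists
    exact mem_iUnion.mpr ⟨⟨k, h3⟩, h4.trans hj⟩
  refine (mk_le_mk_of_subset h1).trans ((mk_iUnion_le _).trans (le_trans (mul_le_mul'
    ((mk_set_le _).trans (mk_finset_of_infinite W).le) (ciSup_le' (a := Cardinal.mk W) fun k => k.2)) ?_))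
  exact (mul_eq_self (aleph0_le_mk W)).le

def Ch : Set (W → Bool) := {u | ∀ a b, a ≤ b → u b = true → u a = true}

theorem Ch_cpt : IsCompact Ch := by
  refine IsClosed.isCompact ?_
  simp only [Ch, setOf_forall]
  refine isClosed_iInter fun a => isClosed_iInter fun b => isClosed_iInter fun _ => ?_
  exact (isClosed_discrete {p : Bool × Bool | p.1 = true → p.2 = true}).preimage
    (by fun_prop : Continuous fun u : W → Bool => (u b, u a))

theorem Ch_cs {u : W → Bool} (h : u ∈ Ch) (h' : u ≠ top) : cs u := by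
  obtain ⟨b, hb⟩ := Function.ne_iff.mp h'
  exact (countable_Iio b).mono fun a ha => lt_of_not_ge fun h1 => hb (h b a h1 ha)

theorem Ch_cl : Ch ⊆ closure (Ch ∩ {top}ᶜ) := fun u hu => by
  by_cases h : u = top
  · refine mem_closure_of_tendsto (f := fun a : W => fun b => decide (b ≤ a)) (b := atTop)
      (tendsto_pi_nhds.mpr fun b => tendsto_const_nhds.congr' ((eventually_ge_atTop b).mono
        fun a ha => by simp [h, top, ha])) (Eventually.of_forall fun a => ⟨fun b c h1 h2 => ?_,
          fun h1 => ?_⟩)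
    · simpa using h1.trans (by simpa using h2)
    · obtain ⟨b, hb⟩ := exists_gt a
      exact absurd (by simpa [top] using congrFun h1 b) (not_le.mpr hb)
  · exact subset_closure ⟨hu, h⟩

abbrev KK : Type := {p : (W → Bool) × (W → Bool) × (Set W → Bool) // p.1 = top ∨ p.2.1 = top}

instance : CompactSpace KK := isCompact_iff_compactSpace.mp
  ((isClosed_eq continuous_fst continuous_const).union
    (isClosed_eq continuous_snd.fst continuous_const)).isCompact

def inW (p : KK) : Prop :=
  p.1.1 = top ∧ (cs p.1.2.1 ∧ sm true p.1.2.2 ∨ p.1.2.1 = top ∧ sm false p.1.2.2)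

def inX (p : KK) : Prop := inW p ∨ cs p.1.1 ∧ p.1.2.1 = top

abbrev XX : Type := {p : KK // inX p}

abbrev ZZ : Type := Bool ⊕ W ⊕ Set W → Bool

def lt (s τ : Bool) (u : W → Bool) (y : Set W → Bool) : ZZ :=
  Sum.elim (fun b => bif b then s else τ) (Sum.elim u y)

theorem lt_surj (z : ZZ) : ∃ s τ u y, z = lt s τ u y :=
  ⟨z (.inl true), z (.inl false), fun a => z (.inr (.inl a)), fun k => z (.inr (.inr k)), by
    funext j
    rcases j with (_ | _) | j | j <;> rfl⟩

theorem cont_lt {T : Type} [TopologicalSpace T] {s τ : T → Bool} {u : T → W → Bool}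
    {y : T → Set W → Bool} (h1 : Continuous s) (h2 : Continuous τ) (h3 : Continuous u)
    (h4 : Continuous y) : Continuous fun x => lt (s x) (τ x) (u x) (y x) := by
  refine continuous_pi fun j => ?_
  rcases j with (_ | _) | j | j
  · exact h2
  · exact h1
  · exact (continuous_apply j).comp h3
  · exact (continuous_apply j).comp h4

def ee (z : ZZ) : KK × Bool :=
  (⟨(fun a => z (.inl false) || z (.inr (.inl a)), fun a => !z (.inl false) || z (.inr (.inl a)),
    fun k => z (.inr (.inr k))), by cases z (.inl false); exacts [Or.inr rfl, Or.inl rfl]⟩,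
    z (.inl true))

theorem ee_t (s u y) : ee (lt s true u y) = (⟨(top, u, y), Or.inl rfl⟩, s) := rfl

theorem ee_f (s u y) : ee (lt s false u y) = (⟨(u, top, y), Or.inr rfl⟩, s) := rfl

theorem cont_ee : Continuous ee := by
  refine (Continuous.subtype_mk (Continuous.prodMk (continuous_pi fun a => ?_) (Continuous.prodMk
    (continuous_pi fun a => ?_) (by fun_prop))) _).prodMk (continuous_apply _)
  · exact (continuous_of_discreteTopology (f := fun p : Bool × Bool => p.1 || p.2)).comp
      (by fun_prop : Continuous fun z : ZZ => (z (.inl false), z (.inr (.inl a))))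
  · exact (continuous_of_discreteTopology (f := fun p : Bool × Bool => !p.1 || p.2)).comp
      (by fun_prop : Continuous fun z : ZZ => (z (.inl false), z (.inr (.inl a))))

theorem ee_surj : Function.Surjective ee := by
  rintro ⟨⟨⟨u, v, y⟩, h | h⟩, s⟩
  · obtain rfl : u = top := h
    exact ⟨_, ee_t s v y⟩
  · obtain rfl : v = top := h
    exact ⟨_, ee_f s u y⟩

def D0 : Set ZZ := {z | cs (fun a => z (.inr (.inl a))) ∧
  (z (.inl false) = true → sm true fun k => z (.inr (.inr k)))}

def D1 : Set ZZ := D0 ∪ {z | ∃ s y, sm false y ∧ z = lt s false top y}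

theorem sig_D0 : {z : ZZ | {j | z j = true}.Countable} ⊆ D0 := fun _ hz =>
  ⟨hz.preimage (Sum.inr_injective.comp Sum.inl_injective), fun _ =>
    sm_count (hz.preimage (Sum.inr_injective.comp Sum.inr_injective))⟩

theorem sig_cl (z z' : ZZ) (h : ∀ j, z' j = true → z j = true) :
    z' ∈ closure ({x : ZZ | ∀ j, x j = true → z j = true} ∩ {x | {j | x j = true}.Countable}) := by
  classical
  refine mem_closure_of_tendsto (fin_approx false z') (Eventually.of_forall fun F =>
    ⟨fun j hj => h j ?_, F.countable_toSet.mono fun j hj => ?_⟩)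
  · by_cases h1 : j ∈ F
    · simpa [h1] using hj
    · simp [h1] at hj
  · by_contra h1
    simp [show j ∉ F from h1] at hj

theorem D0_dense : Dense D0 := fun z =>
  closure_mono (inter_subset_right.trans sig_D0) (sig_cl z z fun _ h => h)

theorem lk0 : Lk {z : ZZ | {j | z j = true}.Countable} D0 := fun z hz => by
  refine ⟨{x | ∀ j, x j = true → z j = true}, fun x hx => ⟨hz.1.mono fun a ha => hx _ ha,
    fun h => (mk_le_mk_of_subset fun k hk => hx _ hk).trans (hz.2 (hx _ h))⟩,
    IsClosed.isCompact ?_, fun _ h => h, fun x hx => sig_cl z x hx⟩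
  rw [setOf_forall]
  exact isClosed_iInter fun j => (isClosed_discrete {b : Bool | b = true → z j = true}).preimage
    (by fun_prop : Continuous fun x : ZZ => x j)

theorem lt_D0 {s τ u y} (h : cs u) (h' : τ = true → sm true y) : lt s τ u y ∈ D0 := ⟨h, h'⟩

theorem lk1 : Lk D0 D1 := by
  rintro z (hz | ⟨s, y, hy, rfl⟩)
  · exact ⟨{z}, singleton_subset_iff.mpr (Or.inl hz), isCompact_singleton, rfl,
      singleton_subset_iff.mpr (subset_closure ⟨rfl, hz⟩)⟩
  · have h1 : Continuous fun u => lt s false u y :=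
      cont_lt continuous_const continuous_const continuous_id continuous_const
    refine ⟨_, ?_, Ch_cpt.image h1, ⟨top, fun _ _ _ _ => rfl, rfl⟩, (image_mono Ch_cl).trans
      ((image_closure_subset_closure_image h1).trans (closure_mono ?_))⟩
    · rintro _ ⟨u, hu, rfl⟩
      by_cases h : u = top
      · exact Or.inr ⟨s, y, hy, by rw [h]⟩
      · exact Or.inl (lt_D0 (Ch_cs hu h) (by simp))
    · rintro _ ⟨u, hu, rfl⟩
      exact ⟨⟨u, hu.1, rfl⟩, lt_D0 (Ch_cs hu.1 hu.2) (by simp)⟩

theorem D1_E : D1 ⊆ {z | inX (ee z).1} := by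
  rintro z (hz | ⟨s, y, hy, rfl⟩)
  · obtain ⟨s, _ | _, u, y, rfl⟩ := lt_surj z
    · exact Or.inr ⟨hz.1, rfl⟩
    · exact Or.inl ⟨rfl, Or.inl ⟨hz.1, hz.2 rfl⟩⟩
  · exact Or.inl ⟨rfl, Or.inr ⟨rfl, hy⟩⟩

def q0 : XX := ⟨⟨(top, top, fun _ => true), Or.inl rfl⟩,
  Or.inl ⟨rfl, Or.inr ⟨rfl, sm_count (by simp)⟩⟩⟩

open Classical in
noncomputable def e1 (z : ZZ) : XX × Bool :=
  if h : inX (ee z).1 then (⟨(ee z).1, h⟩, (ee z).2) else (q0, true)

theorem e1_of {z : ZZ} (h : inX (ee z).1) : e1 z = (⟨(ee z).1, h⟩, (ee z).2) := dif_pos h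

theorem e1_surj (p : XX × Bool) : ∃ z ∈ D1, e1 z = p ∧ ee z = (p.1.1, p.2) := by
  have h1 : ∃ z ∈ D1, ee z = (p.1.1, p.2) := by
    obtain ⟨⟨⟨⟨u, v, y⟩, h1⟩, ⟨h2, ⟨h3, h4⟩ | ⟨h3, h4⟩⟩ | ⟨h2, h3⟩⟩, s⟩ := p
    · obtain rfl : u = top := h2
      exact ⟨_, Or.inl (lt_D0 h3 fun _ => h4), ee_t s v y⟩
    · obtain rfl : u = top := h2
      obtain rfl : v = top := h3
      exact ⟨_, Or.inr ⟨s, y, h4, rfl⟩, ee_f s top y⟩
    · obtain rfl : v = top := h3
      exact ⟨_, Or.inl (lt_D0 h2 (by simp)), ee_f s u y⟩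
  obtain ⟨z, h2, h3⟩ := h1
  refine ⟨z, h2, ?_, h3⟩
  rw [e1_of (D1_E h2)]
  exact Prod.ext (Subtype.ext (congrArg Prod.fst h3)) (congrArg Prod.snd h3 :)

theorem contOn {T : Type} [TopologicalSpace T] {l : T → List ZZ} (hl : CF l) {S : Set T}
    (hS : ∀ x ∈ S, ∀ z ∈ l x, inX (ee z).1) :
    @ContinuousOn _ _ _ (topF XX) (fun x => mk ((l x).map e1)) S := by
  letI := topF XX
  have h1 : ContinuousOn e1 {z | inX (ee z).1} := by
    rw [continuousOn_iff_continuous_restrict]
    exact (((cont_ee.comp continuous_subtype_val).fst.subtype_mk fun z => z.2).prodMk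
      (cont_ee.comp continuous_subtype_val).snd).congr fun z => (e1_of z.2).symm
  rw [continuousOn_iff_continuous_restrict]
  exact ((hl.comp continuous_subtype_val).map h1 fun x => hS x x.2).mk

theorem cancel {z z' : ZZ} (h : inX (ee z).1) (h1 : (ee z').1 = (ee z).1)
    (h2 : (ee z').2 = !(ee z).2) (L₁ L₂ : List ZZ) :
    mk ((L₁ ++ z :: z' :: L₂).map e1) = mk ((L₁ ++ L₂).map e1) := by
  have h3 : e1 z' = (⟨(ee z).1, h⟩, !(ee z).2) := by
    rw [e1_of (h1 ▸ h)]
    exact Prod.ext (Subtype.ext h1) h2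
  simp only [List.map_append, List.map_cons, e1_of h, h3]
  exact Quot.sound Red.Step.not

theorem extF {g : FreeGroup XX → ℝ}
    (hg : ∀ C, @IsCompact _ (topF XX) C → @ContinuousOn _ _ (topF XX) _ g C) :
    ∃ G : List ZZ → ℝ, (∀ (T : Type) [TopologicalSpace T] (l : T → List ZZ),
      CF l → Continuous fun x => G (l x)) ∧ ∀ L, (∀ z ∈ L, z ∈ D1) → G L = g (mk (L.map e1)) := by
  letI := topF XX
  refine extL sig_D0 subset_union_left lk0 lk1 fun m C h1 h2 => ?_
  have h3 := contOn (CF.ofFn continuous_id) (S := C) fun t ht z hz => by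
    obtain ⟨i, rfl⟩ := (List.mem_ofFn' _ _).mp hz
    exact D1_E (h1 ht i trivial)
  exact (hg _ (h2.image_of_continuousOn h3)).comp h3 (mapsTo_image _ _)

open Classical in
noncomputable def cc (s τ : Bool) (y : Set W → Bool) (u : W → Bool) : FreeGroup XX :=
  if u = top then 1 else mk ([lt s τ u y, lt (!s) (!τ) u y].map e1)

theorem cf2 {T : Type} [TopologicalSpace T] {a b : T → ZZ} (ha : Continuous a)
    (hb : Continuous b) : CF fun x => [a x, b x] := CF.cons ha (CF.cons hb CF.nil)

theorem ee_top (s τ s' τ' y) : (ee (lt s τ top y)).1 = (ee (lt s' τ' top y)).1 := by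
  cases τ <;> cases τ' <;> rfl

theorem cont_cc (s τ : Bool) {y : Set W → Bool} (hy : sm true y) :
    @ContinuousOn _ _ _ (topF XX) (cc s τ y) Ch := by
  letI := topF XX
  haveI := grpF (X := XX)
  have h0 : CF fun u => [lt s τ u y, lt (!s) (!τ) u y] :=
    cf2 (cont_lt continuous_const continuous_const continuous_id continuous_const)
      (cont_lt continuous_const continuous_const continuous_id continuous_const)
  have h1 : ∀ u ∈ Ch ∩ {top}ᶜ, ∀ z ∈ [lt s τ u y, lt (!s) (!τ) u y], z ∈ D1 := by
    intro u hu z hz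
    simp only [List.mem_cons, List.not_mem_nil, or_false] at hz
    rcases hz with rfl | rfl <;> exact Or.inl (lt_D0 (Ch_cs hu.1 hu.2) fun _ => hy)
  intro u hu
  by_cases h : u = top
  · subst h
    intro U hU
    rw [cc, if_pos rfl] at hU
    letI := IsTopologicalGroup.rightUniformSpace (FreeGroup XX)
    obtain ⟨ψ, h2, h3, -, -, h4⟩ := KSp.exists_bump hU
    obtain ⟨G, h5, h6⟩ := extF (g := ψ) fun _ _ => h2.continuousOn
    have h7 : EqOn (fun p : ZZ × ZZ => G [p.1, p.2]) (fun p => ψ (mk ([p.1, p.2].map e1)))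
        ({z | inX (ee z).1} ×ˢ {z | inX (ee z).1}) := by
      refine EqOn.of_subset_closure (s := D0 ×ˢ D0) (fun p hp => h6 _ ?_)
        (h5 _ _ (cf2 continuous_fst continuous_snd)).continuousOn (h2.comp_continuousOn
          (contOn (cf2 continuous_fst continuous_snd) ?_)) (prod_mono (subset_union_left.trans D1_E)
          (subset_union_left.trans D1_E)) fun p _ => D0_dense.prod D0_dense p
      · simp only [List.mem_cons, List.not_mem_nil, or_false]
        rintro _ (rfl | rfl)
        exacts [Or.inl hp.1, Or.inl hp.2]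
      · simp only [List.mem_cons, List.not_mem_nil, or_false]
        rintro p hp _ (rfl | rfl)
        exacts [hp.1, hp.2]
    have h8 : (fun y => G [lt s τ top y, lt (!s) (!τ) top y]) = fun _ => 1 := by
      refine Continuous.ext_on (sm_dense false) (h5 _ _ (cf2
        (cont_lt continuous_const continuous_const continuous_const continuous_id)
        (cont_lt continuous_const continuous_const continuous_const continuous_id)))
        continuous_const fun y hy => ?_
      have h8 : ∀ s τ, inX (ee (lt s τ top y)).1 := fun s τ => by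
        rw [ee_top s τ s false]
        exact D1_E (Or.inr ⟨s, y, hy, rfl⟩)
      exact (h7 (mk_mem_prod (h8 _ _) (h8 _ _))).trans ((congrArg ψ
        (cancel (h8 s τ) (ee_top _ _ _ _ _) rfl [] [])).trans h3)
    have h9 := ((h5 _ _ h0).tendsto top).eventually (lt_mem_nhds
      (show 0 < G [lt s τ top y, lt (!s) (!τ) top y] by rw [congrFun h8 y]; exact one_pos))
    rw [mem_map]
    filter_upwards [nhdsWithin_le_nhds h9, self_mem_nhdsWithin] with v h10 h11
    show cc s τ y v ∈ U
    by_cases h12 : v = top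
    · rw [cc, if_pos h12]
      exact mem_of_mem_nhds hU
    · rw [cc, if_neg h12]
      by_contra h13
      rw [h6 _ (h1 v ⟨h11, h12⟩), h4 _ h13] at h10
      exact lt_irrefl _ h10
  · refine (continuousWithinAt_inter (isOpen_compl_singleton.mem_nhds h)).mp
      ((contOn h0 fun u hu z hz => D1_E (h1 u hu z hz)).congr (fun v hv => ?_) u ⟨hu, h⟩)
    rw [cc, if_neg (show v ≠ top from hv.2)]

theorem krF : KR (FreeGroup XX) (topF XX) := by
  intro g hg
  letI := topF XX
  haveI := grpF (X := XX)
  obtain ⟨G, h1, h2⟩ := extF hg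
  have h3 : ∀ {T : Type} [TopologicalSpace T] {S : Set T} {a b : T → ZZ}, Dense S → Continuous a →
      Continuous b → (∀ x ∈ S, ∀ L₁ L₂ : List ZZ, (∀ z ∈ L₁, z ∈ D0) → (∀ z ∈ L₂, z ∈ D0) →
        G (L₁ ++ a x :: b x :: L₂) = G (L₁ ++ L₂)) →
      ∀ x L₁ L₂, G (L₁ ++ a x :: b x :: L₂) = G (L₁ ++ L₂) := by
    intro T _ S a b hS ha hb h x L₁ L₂
    have h3 := Continuous.ext_on ((dense_pi (s := fun _ : Fin L₁.length => D0) univ fun _ _ =>
      D0_dense).prod (hS.prod (dense_pi (s := fun _ : Fin L₂.length => D0) univ fun _ _ =>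
        D0_dense))) (h1 _ _ ((CF.ofFn continuous_fst).append (CF.cons (ha.comp continuous_snd.fst)
          (CF.cons (hb.comp continuous_snd.fst) (CF.ofFn continuous_snd.snd)))))
      (h1 _ _ ((CF.ofFn continuous_fst).append (CF.ofFn continuous_snd.snd))) fun p hp =>
        h _ hp.2.1 _ _ (List.forall_mem_ofFn_iff.mpr fun i => hp.1 i trivial)
          (List.forall_mem_ofFn_iff.mpr fun i => hp.2.2 i trivial)
    simpa only [List.ofFn_get, Function.comp_apply] using congrFun h3 (L₁.get, x, L₂.get)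
  have h4 : ∀ {L₁ L₂ : List ZZ} {L : List ZZ}, (∀ z ∈ L₁, z ∈ D0) → (∀ z ∈ L₂, z ∈ D0) →
      (∀ z ∈ L, z ∈ D1) → G (L₁ ++ (L ++ L₂)) = g (mk (L₁.map e1) * mk (L.map e1) *
        mk (L₂.map e1)) := by
    intro L₁ L₂ L h4 h5 h6
    rw [h2, mul_mk, mul_mk, List.map_append, List.map_append, List.append_assoc]
    simp only [List.mem_append]
    rintro z (h | h | h)
    exacts [Or.inl (h4 z h), h6 z h, Or.inl (h5 z h)]
  let fl : ZZ → ZZ := fun z => lt (!z (.inl true)) (z (.inl false)) (fun a => z (.inr (.inl a)))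
    fun k => z (.inr (.inr k))
  have h5 : ∀ z L₁ L₂, G (L₁ ++ z :: fl z :: L₂) = G (L₁ ++ L₂) := by
    refine h3 (a := id) D0_dense continuous_id (cont_lt ((continuous_of_discreteTopology
      (f := fun b : Bool => !b)).comp (continuous_apply _)) (by fun_prop) (by fun_prop) (by fun_prop)) fun z hz L₁ L₂ h5 h6 => ?_
    rw [h2, h2, id, cancel (z' := fl z) (D1_E (Or.inl hz)) rfl rfl]
    · simp only [List.mem_append]
      rintro z (h | h)
      exacts [Or.inl (h5 z h), Or.inl (h6 z h)]
    · simp only [List.mem_append, List.mem_cons]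
      rintro x (h | rfl | rfl | h)
      exacts [Or.inl (h5 x h), Or.inl hz, Or.inl hz, Or.inl (h6 x h)]
  have h6 : ∀ s τ y L₁ L₂, G (L₁ ++ lt s τ top y :: lt (!s) (!τ) top y :: L₂) = G (L₁ ++ L₂) := by
    refine fun s τ => h3 (sm_dense true)
      (cont_lt continuous_const continuous_const continuous_const continuous_id)
      (cont_lt continuous_const continuous_const continuous_const continuous_id)
      fun y hy L₁ L₂ h6 h7 => ?_
    have h8 : ContinuousOn (fun u => mk (L₁.map e1) * cc s τ y u * mk (L₂.map e1)) Ch :=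
      (continuousOn_const.mul (cont_cc s τ hy)).mul continuousOn_const
    have h9 := EqOn.of_subset_closure (s := Ch ∩ {top}ᶜ) (fun u hu => ?_) (h1 _ _ ((CF.const L₁).append
      ((cf2 (cont_lt (s := fun _ => s) (τ := fun _ => τ) (y := fun _ => y) continuous_const
        continuous_const continuous_id continuous_const) (cont_lt (s := fun _ => !s)
        (τ := fun _ => !τ) (y := fun _ => y) continuous_const continuous_const continuous_id
        continuous_const)).append (CF.const L₂)))).continuousOn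
      ((hg _ (Ch_cpt.image_of_continuousOn h8)).comp h8 (mapsTo_image _ _)) inter_subset_left Ch_cl
      (fun _ _ _ _ => rfl : top ∈ Ch)
    · refine h9.trans (Eq.trans ?_ (h4 (L := []) h6 h7 (by simp)).symm)
      simp only [Function.comp_apply, cc, if_pos, List.map_nil, one_eq_mk]
    · simp only [Function.comp_apply, cc, if_neg (show u ≠ top from hu.2)]
      refine h4 h6 h7 fun z hz => ?_
      simp only [List.mem_cons, List.not_mem_nil, or_false] at hz
      rcases hz with rfl | rfl <;> exact Or.inl (lt_D0 (Ch_cs hu.1 hu.2) fun _ => hy)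
  have h7 : ∀ z z', (ee z').1 = (ee z).1 → (ee z').2 = !(ee z).2 → ∀ L₁ L₂,
      G (L₁ ++ z :: z' :: L₂) = G (L₁ ++ L₂) := by
    intro z z' h7 h8
    obtain ⟨s, τ, u, y, rfl⟩ := lt_surj z
    obtain ⟨s', τ', u', y', rfl⟩ := lt_surj z'
    obtain rfl : s' = !s := h8
    obtain rfl : y' = y := congrArg (·.1.2.2) h7
    have h9 := congrArg (·.1.1) h7
    have h10 := congrArg (·.1.2.1) h7
    cases τ <;> cases τ'
    · obtain rfl : u' = u := h9
      exact h5 (lt s false u' y')
    · obtain rfl : top = u := h9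
      obtain rfl : u' = top := h10
      exact h6 s false y'
    · obtain rfl : u' = top := h9
      obtain rfl : top = u := h10
      exact h6 s true y'
    · obtain rfl : u' = u := h10
      exact h5 (lt s true u' y')
  choose σ hσ using ee_surj
  have h8 : ∀ L L₁ : List ZZ, G (L₁ ++ (L.map ee).map σ) = G (L₁ ++ L) := by
    intro L
    induction L with
    | nil => exact fun _ => rfl
    | cons z L ih =>
      intro L₁
      have h8 := h7 (fl z) z rfl (Bool.not_not _).symm (L₁ ++ [σ (ee z)]) ((L.map ee).map σ)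
      have h9 := h7 (σ (ee z)) (fl z) (by rw [hσ]; rfl) (by rw [hσ]; rfl) L₁
        (z :: (L.map ee).map σ)
      have h10 := ih (L₁ ++ [z])
      simp only [List.append_assoc, List.singleton_append] at h8 h10
      exact h8.symm.trans (h9.trans h10)
  let g' : FreeGroup KK → ℝ := Quot.lift (fun L => G (L.map σ)) (by
    rintro _ _ ⟨⟩
    simp only [List.map_append, List.map_cons]
    exact h7 _ _ (by rw [hσ, hσ]) (by rw [hσ, hσ]) _ _)
  have h9 : ∀ L : List ZZ, g' (mk (L.map ee)) = G L := fun L => h8 L []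
  letI := topF KK
  refine ((contK (g := g') (fun p => ⟨_, hσ p⟩) cont_ee fun m => ?_).comp
    (contMap (continuous_subtype_val : Continuous fun x : XX => x.1))).congr ?_
  · simp only [h9]
    exact h1 _ _ (CF.ofFn continuous_id)
  · rintro ⟨L⟩
    choose ζ h10 h11 h12 using e1_surj
    have h13 := h2 (L.map ζ) (List.forall_mem_map.mpr fun p _ => h10 p)
    rw [← h9, List.map_map, List.map_map, show e1 ∘ ζ = id from funext h11, List.map_id,
      show ee ∘ ζ = fun p => (p.1.1, p.2) from funext h12] at h13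
    exact h13

end Pool.Agent.H31.Snf
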