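import Pool.Agent.H31.FanDefs
import Pool.Agent.H31.KR2

namespace Pool.Agent.H31.Fan

open Set Filter Topology Omega1 Snf Cardinal

universe v

theorem bl : ∀ x y b c : Bool, x + y = !(b + c) → x = !b ∨ y = !c := by decide

def SG : AddSubgroup ((W → Bool) × (Set W → Bool)) where
  carrier := {p | ∃ b, {a | p.1 a = !b}.Countable ∧ sm (!b) p.2}
  zero_mem' := ⟨false, countable_empty.mono fun _ h => Bool.false_ne_true h,
    sm_count (countable_empty.mono fun _ h => Bool.false_ne_true h)⟩
  add_mem' := fun ⟨b, h1, h2⟩ ⟨c, h3, h4⟩ => ⟨b + c, (h1.union h3).mono fun _ h => bl _ _ _ _ h,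
    (mk_le_mk_of_subset fun _ h => bl _ _ _ _ h).trans ((mk_union_le _ _).trans
      (add_le_of_le (aleph0_le_mk W) h2 h4))⟩
  neg_mem' := fun h => h

theorem noFan : NoCldFan.{0, v} SG := by
  intro ι F _ h
  suffices h1 : {i | (F i).Nonempty}.Finite from fun x =>
    ⟨univ, univ_mem, by simpa using h1⟩
  by_contra h1
  let e := Set.Infinite.natEmbedding _ h1
  choose x hx using fun n => (e n).2
  choose β h2 h3 using fun n => (x n).2
  let K : Set ((W → Bool) × (Set W → Bool)) := ⋃ b : Bool,
    {p | (∀ a, p.1 a = !b → a ∈ ⋃ n : {n | β n = b}, {a | (x n).1.1 a = !b}) ∧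
      ∀ k, p.2 k = !b → k ∈ ⋃ n : {n | β n = b}, {k | (x n).1.2 k = !b}}
  have h4 : IsClosed K := by
    refine isClosed_iUnion_of_finite fun b => IsClosed.inter ?_ ?_
    · show IsClosed {p : (W → Bool) × (Set W → Bool) | ∀ a, _}
      rw [setOf_forall]
      exact isClosed_iInter fun a => (isClosed_discrete {c : Bool | c = !b → _}).preimage
        (by fun_prop : Continuous fun p : (W → Bool) × (Set W → Bool) => p.1 a)
    · show IsClosed {p : (W → Bool) × (Set W → Bool) | ∀ a, _}
      rw [setOf_forall]
      exact isClosed_iInter fun a => (isClosed_discrete {c : Bool | c = !b → _}).preimage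
        (by fun_prop : Continuous fun p : (W → Bool) × (Set W → Bool) => p.2 a)
  have h5 : K ⊆ SG := by
    intro p hp
    obtain ⟨b, h5, h6⟩ := mem_iUnion.mp hp
    refine ⟨b, (countable_iUnion fun n => ?_).mono h5, (mk_le_mk_of_subset h6).trans
      ((mk_iUnion_le _).trans (le_trans (mul_le_mul' (mk_le_aleph0.trans (aleph0_le_mk W))
        (ciSup_le' (a := Cardinal.mk W) fun n => ?_)) (mul_eq_self (aleph0_le_mk W)).le))⟩
    · have := h2 n
      rwa [show β n = b from n.2] at this
    · have := h3 n
      rwa [show β n = b from n.2] at this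
  have h6 := h (Subtype.val ⁻¹' K) (IsInducing.subtypeVal.isCompact_preimage'
    h4.isCompact (by rwa [Subtype.range_coe_subtype]))
  refine infinite_range_of_injective (Subtype.val_injective.comp e.injective) (h6.subset ?_)
  rintro _ ⟨n, rfl⟩
  exact ⟨x n, hx n, mem_iUnion.mpr ⟨β n, fun a ha => mem_iUnion.mpr ⟨⟨n, rfl⟩, ha⟩,
    fun a ha => mem_iUnion.mpr ⟨⟨n, rfl⟩, ha⟩⟩⟩

theorem notK : ¬CompactlyCoherentSpace SG := by
  classical
  intro h
  have h1 : IsClosed {p : SG | cs p.1.1} := by
    refine (CompactlyCoherentSpace.isClosed_iff _).mpr fun K hK => isClosed_of_closure_subset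
      fun c hc => ?_
    have h1 : ∀ F : Finset W, ∃ s : K, cs s.1.1.1 ∧ ∀ a ∈ F, s.1.1.1 a = c.1.1.1 a := fun F => by
      have h1 : ∀ᶠ s : K in 𝓝 c, ∀ a ∈ F, s.1.1.1 a = c.1.1.1 a :=
        (eventually_all_finset F).mpr fun a _ => by
          have := (by fun_prop : Continuous fun s : K => s.1.1.1 a).tendsto c
          rwa [nhds_discrete Bool, tendsto_pure] at this
      exact ((mem_closure_iff_frequently.mp hc).and_eventually h1).exists
    choose s h2 h3 using h1
    haveI := isCompact_iff_compactSpace.mp hK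
    obtain ⟨𝒰, hU⟩ := Ultrafilter.exists_le (atTop : Filter (Finset W))
    obtain ⟨w, -, h4⟩ := isCompact_univ.ultrafilter_le_nhds (𝒰.map s) (by simp)
    have h5 : ∀ p : SG, cs p.1.1 ↔ sm true p.1.2 := by
      rintro ⟨p, _ | _, h5, h6⟩
      · exact iff_of_true h5 h6
      · exact iff_of_false (fun h7 => not_countable_univ ((h5.union h7).mono fun a _ => by
          cases h8 : p.1 a; exacts [Or.inl h8, Or.inr h8])) fun h7 => sm_disj h7 h6
    have h6 : w.1.1.1 = c.1.1.1 := funext fun a => by
      have h6 := ((by fun_prop : Continuous fun s : K => s.1.1.1 a).tendsto w).comp h4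
      rw [nhds_discrete Bool, tendsto_pure] at h6
      obtain ⟨F, h7, h8⟩ := (Eventually.and h6 (hU (eventually_ge_atTop {a}))).exists
      exact h7.symm.trans (h3 F a (h8 (Finset.mem_singleton_self a)))
    show cs c.1.1.1
    rw [← h6]
    exact (h5 w).mpr (sm_lim (Eventually.of_forall fun F => (h5 _).mp (h2 F))
      (((by fun_prop : Continuous fun s : K => s.1.1.2).tendsto w).comp h4))
  refine not_cs (h1.mem_of_tendsto (f := fun F : Finset W × Finset (Set W) =>
    (⟨(fun a => if a ∈ F.1 then true else false, fun k => if k ∈ F.2 then true else false),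
      false, F.1.countable_toSet.mono fun a ha => by simpa using ha,
      sm_count (F.2.countable_toSet.mono fun a ha => by simpa using ha)⟩ : SG))
    (x := ⟨(top, fun _ => true), true, by simp [top], sm_count (by simp)⟩) (b := atTop ×ˢ atTop)
    (tendsto_subtype_rng.mpr (((fin_approx false top).comp tendsto_fst).prodMk_nhds
      ((fin_approx false fun _ => true).comp tendsto_snd))) (Eventually.of_forall fun F =>
        F.1.countable_toSet.mono fun a ha => by simpa using ha))

end Pool.Agent.H31.Fan
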