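import Mathlib

namespace Pool.Agent.H31.Fan

universe u v

/-- every compact-finite family of closed sets (indexed by a type in universe `v`) is locally
finite -/
def NoCldFan (X : Type u) [TopologicalSpace X] : Prop :=
  ∀ (ι : Type v) (F : ι → Set X), (∀ i, IsClosed (F i)) →
    (∀ K : Set X, IsCompact K → {i | (F i ∩ K).Nonempty}.Finite) → LocallyFinite F

end Pool.Agent.H31.Fan
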