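import Pool.Agent.H31.FanODefs

namespace Pool.Agent.H31.Fan

open Set Filter Topology

theorem gen {Y : Type} [TopologicalSpace Y] (a : ℕ → ℕ → Y) (p : Y)
    (h1 : ∀ n m, IsClopen ({a n m} : Set Y)) (h2 : ∀ n m, a n m ≠ p)
    (h3 : ∀ K, IsCompact K → {n | ∃ m, a n m ∈ K}.Finite)
    (h4 : ∀ U, IsOpen U → p ∈ U → ∀ N, ∃ n ≥ N, ∃ m, a n m ∈ U) :
    ∃ f : (ℕ → Y) → ℝ, ¬ Continuous f ∧ ∀ K, IsCompact K → ContinuousOn f K := by
  classical
  let P : ℕ × ℕ → Set (ℕ → Y) := fun i => {x | x 0 = a i.1 i.2 ∧ x (i.1 + 1) = a i.2 0}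
  have hP : ∀ i, IsClopen (P i) := fun i =>
    ((h1 _ _).preimage (continuous_apply 0)).inter ((h1 _ _).preimage (continuous_apply _))
  refine ⟨indicator (⋃ i, P i) 1, fun hc => ?_, fun K hK => ?_⟩
  · have h5 : {x | indicator (⋃ i, P i) (1 : (ℕ → Y) → ℝ) x < 1} ∈ 𝓝 (fun _ => p) :=
      (isOpen_lt hc continuous_const).mem_nhds (by
        have : (fun _ => p) ∉ ⋃ i, P i := fun h => by
          obtain ⟨i, hi⟩ := mem_iUnion.mp h
          exact h2 _ _ hi.1.symm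
        simp [indicator_of_notMem this])
    rw [nhds_pi, mem_pi'] at h5
    obtain ⟨I, U, hU, hI⟩ := h5
    obtain ⟨V, hV1, hV2, hV3⟩ := mem_nhds_iff.mp (hU 0)
    obtain ⟨n, hn, m, hm⟩ := h4 V hV2 hV3 (I.sup id)
    let x : ℕ → Y := fun i => if i = 0 then a n m else if i = n + 1 then a m 0 else p
    have h6 : x ∈ ⋃ i, P i := mem_iUnion.mpr ⟨(n, m), by simp [P, x]⟩
    have h7 := hI (show x ∈ Set.pi I U from fun i hi => by
      have : i ≤ n := (Finset.le_sup (f := id) hi).trans hn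
      simp only [x]
      split_ifs with h8 h9
      · exact h8 ▸ hV1 hm
      · omega
      · exact mem_of_mem_nhds (hU i))
    simp [indicator_of_mem h6] at h7
  · have h5 : {i | (P i ∩ K).Nonempty}.Finite := by
      refine ((h3 _ (hK.image (continuous_apply 0))).biUnion fun n _ =>
        (h3 _ (hK.image (continuous_apply (n + 1)))).image (fun m => (n, m))).subset ?_
      rintro ⟨n, m⟩ ⟨x, hx, hxK⟩
      exact mem_biUnion (show n ∈ _ from ⟨m, x, hxK, hx.1⟩) ⟨m, ⟨0, x, hxK, hx.2⟩, rfl⟩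
    have h6 : IsClopen (⋃ i ∈ {i | (P i ∩ K).Nonempty}, P i) := h5.isClopen_biUnion fun i _ => hP i
    have h7 : Continuous (indicator (⋃ i ∈ {i | (P i ∩ K).Nonempty}, P i) (1 : (ℕ → Y) → ℝ)) :=
      continuous_indicator (fun a ha => by rw [h6.frontier_eq] at ha; exact ha.elim) continuousOn_const
    refine h7.continuousOn.congr fun x hx => ?_
    by_cases h8 : x ∈ ⋃ i, P i
    · obtain ⟨i, hi⟩ := mem_iUnion.mp h8
      rw [indicator_of_mem h8, indicator_of_mem (mem_biUnion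
        (show i ∈ {i | (P i ∩ K).Nonempty} from ⟨x, hi, hx⟩) hi)]
    · rw [indicator_of_notMem h8, indicator_of_notMem fun h =>
        h8 (iUnion₂_subset (fun i _ => subset_iUnion P i) h)]

theorem fin_cols {Y : Type} [TopologicalSpace Y] (a : ℕ → ℕ → Y)
    (h1 : ∀ n m, IsOpen ({a n m} : Set Y)) (hi : ∀ n m n' m', a n m = a n' m' → n = n')
    (h2 : ∀ (S : Set ℕ) (g : ℕ → ℕ), IsClosed ((fun n => a n (g n)) '' S))
    (K : Set Y) (hK : IsCompact K) : {n | ∃ m, a n m ∈ K}.Finite := by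
  choose! g hg using fun n (h : n ∈ {n | ∃ m, a n m ∈ K}) => h
  have h3 := hK.of_isClosed_subset (h2 {n | ∃ m, a n m ∈ K} g) (by
    rintro _ ⟨n, hn, rfl⟩; exact hg n hn)
  obtain ⟨t, -, ht⟩ := h3.elim_nhds_subcover (fun y => {y}) (by
    rintro _ ⟨n, -, rfl⟩; exact (h1 _ _).mem_nhds rfl)
  refine Set.Finite.of_finite_image (f := fun n => a n (g n)) (t.finite_toSet.subset fun y hy => ?_)
    fun n _ n' _ h => hi _ _ _ _ h
  simpa using ht hy

theorem sw : ∃ f : (ℕ → Sw) → ℝ, ¬ Continuous f ∧ ∀ K, IsCompact K → ContinuousOn f K := by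
  let a : ℕ → ℕ → Sw := fun n m => some (n, m)
  have ho : ∀ n m, IsOpen ({a n m} : Set Sw) := fun n m h => by cases h
  have hc : ∀ (S : Set ℕ) (g : ℕ → ℕ), IsClosed ((fun n => a n (g n)) '' S) := by
    intro S g
    refine ⟨fun _ => ⟨fun n => g n + 1, ?_⟩⟩
    rintro n m hm ⟨k, -, hk⟩
    cases hk
    simp at hm
  refine gen a none (fun n m => ⟨by simpa using hc {n} fun _ => m, ho n m⟩)
    (fun _ _ h => by cases h) (fin_cols a ho (fun _ _ _ _ h => by cases h; rfl) hc) ?_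
  intro U hU hp N
  obtain ⟨f, hf⟩ := hU hp
  exact ⟨N, le_rfl, f N, hf _ _ le_rfl⟩

theorem s2 : ∃ f : (ℕ → S2) → ℝ, ¬ Continuous f ∧ ∀ K, IsCompact K → ContinuousOn f K := by
  have ho : ∀ n m, IsOpen ({S2.low n m} : Set S2) := fun n m =>
    ⟨fun h => (by cases h), fun _ h => by cases h⟩
  have hc : ∀ (S : Set ℕ) (g : ℕ → ℕ), IsClosed ((fun n => S2.low n (g n)) '' S) := by
    intro S g
    refine ⟨⟨fun _ => ⟨0, ?_⟩, fun n _ => ⟨g n + 1, ?_⟩⟩⟩
    · rintro n - ⟨k, -, hk⟩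
      cases hk
    · rintro m hm ⟨k, -, hk⟩
      cases hk
      simp at hm
  refine gen S2.low S2.top (fun n m => ⟨by simpa using hc {n} fun _ => m, ho n m⟩)
    (fun _ _ h => by cases h) (fin_cols _ ho (fun _ _ _ _ h => by cases h; rfl) hc) ?_
  intro U hU hp N
  obtain ⟨k, hk⟩ := hU.1 hp
  obtain ⟨l, hl⟩ := hU.2 _ (hk (max k N) (le_max_left _ _))
  exact ⟨max k N, le_max_right _ _, l, hl l le_rfl⟩

end Pool.Agent.H31.Fan
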