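import Mathlib

namespace Pool.Agent.H31.Fan

/-- the sequential fan; `none` is the apex -/
def Sw : Type := Option (ℕ × ℕ)

instance : TopologicalSpace Sw where
  IsOpen U := (none : Option (ℕ × ℕ)) ∈ U → ∃ f : ℕ → ℕ, ∀ n m, f n ≤ m → some (n, m) ∈ U
  isOpen_univ := fun _ => ⟨fun _ => 0, fun _ _ _ => trivial⟩
  isOpen_inter := fun _ _ hU hV h => by
    obtain ⟨f, hf⟩ := hU h.1
    obtain ⟨g, hg⟩ := hV h.2
    exact ⟨fun n => max (f n) (g n), fun n m hm =>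
      ⟨hf n m (le_of_max_le_left hm), hg n m (le_of_max_le_right hm)⟩⟩
  isOpen_sUnion := fun _ hS ⟨U, hU, h⟩ => by
    obtain ⟨f, hf⟩ := hS U hU h
    exact ⟨f, fun n m hm => ⟨U, hU, hf n m hm⟩⟩

/-- the Arens space -/
inductive S2 : Type
  | top : S2
  | mid : ℕ → S2
  | low : ℕ → ℕ → S2

instance : TopologicalSpace S2 where
  IsOpen U := (S2.top ∈ U → ∃ k, ∀ n, k ≤ n → S2.mid n ∈ U) ∧
    ∀ n, S2.mid n ∈ U → ∃ k, ∀ m, k ≤ m → S2.low n m ∈ U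
  isOpen_univ := ⟨fun _ => ⟨0, fun _ _ => trivial⟩, fun _ _ => ⟨0, fun _ _ => trivial⟩⟩
  isOpen_inter := fun _ _ hU hV => ⟨fun h => by
      obtain ⟨f, hf⟩ := hU.1 h.1
      obtain ⟨g, hg⟩ := hV.1 h.2
      exact ⟨max f g, fun n hn => ⟨hf n (le_of_max_le_left hn), hg n (le_of_max_le_right hn)⟩⟩,
    fun n h => by
      obtain ⟨f, hf⟩ := hU.2 n h.1
      obtain ⟨g, hg⟩ := hV.2 n h.2
      exact ⟨max f g, fun m hm => ⟨hf m (le_of_max_le_left hm), hg m (le_of_max_le_right hm)⟩⟩⟩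
  isOpen_sUnion := fun _ hS => ⟨fun ⟨U, hU, h⟩ => by
      obtain ⟨f, hf⟩ := (hS U hU).1 h
      exact ⟨f, fun n hn => ⟨U, hU, hf n hn⟩⟩,
    fun n ⟨U, hU, h⟩ => by
      obtain ⟨f, hf⟩ := (hS U hU).2 n h
      exact ⟨f, fun m hm => ⟨U, hU, hf m hm⟩⟩⟩

end Pool.Agent.H31.Fan
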