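import Mathlib

set_option autoImplicit false

open Set Function Filter Topology

namespace Pool.Agent.H31.Fill

variable {I : Type*} {X : I → Type*} [∀ i, TopologicalSpace (X i)] {D : Set (∀ i, X i)}

theorem step {κ : Type*} {W : κ → Set D} (h1 : ∀ k, IsOpen (W k)) (h2 : ⋃ k, W k = univ) (y : D) :
    ∃ (k : κ) (s : Finset I), ∀ z : D, (∀ i ∈ s, z.1 i = y.1 i) → z ∈ W k := by
  obtain ⟨k, hk⟩ := mem_iUnion.1 (h2 ▸ mem_univ y : y ∈ ⋃ k, W k)
  obtain ⟨O, h3, h4⟩ := h1 k
  obtain ⟨s, u, h5, h6⟩ := isOpen_pi_iff.1 h3 y.1 (by rwa [← h4] at hk)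
  exact ⟨k, s, fun z hz => h4 ▸ h6 fun i hi => hz i hi ▸ (h5 i hi).2⟩

theorem core (hD : ∀ M : Set I, M.Countable → ∀ p : ∀ i, X i, ∃ y : D, ∀ i ∈ M, y.1 i = p i)
    {κ : Type*} {W : κ → Set D} (hW : LocallyFinite W) {g : ℕ → κ} (hg : Injective g) (y : ℕ → D)
    (s M : ℕ → Finset I) (h1 : ∀ n, ∀ z : D, (∀ i ∈ s n, z.1 i = (y n).1 i) → z ∈ W (g n))
    (h2 : Monotone M) (h3 : ∀ n, s n ⊆ M (n + 1)) (p : ∀ i, X i)
    (h4 : ∀ u : ∀ i, Set (X i), (∀ i, u i ∈ 𝓝 (p i)) → ∃ᶠ n in atTop, ∀ i ∈ M n, (y n).1 i ∈ u i) :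
    False := by
  classical
  obtain ⟨z, hz⟩ := hD (⋃ n, ↑(M n)) (countable_iUnion fun n => (M n).countable_toSet) p
  obtain ⟨U, h5, h6⟩ := hW z
  obtain ⟨_, h7, ⟨O, h8, rfl⟩, h9⟩ := mem_nhds_iff.1 h5
  obtain ⟨t, u, u1, u2⟩ := isOpen_pi_iff.1 h8 z.1 h9
  obtain ⟨k, hk⟩ := (show Monotone fun n => (M n : Set I) from fun _ _ h => h2 h).directed_le
    |>.exists_mem_subset_of_finset_subset_biUnion (s := t.filter (· ∈ ⋃ n, (M n : Set I)))
    fun x hx => (Finset.mem_filter.1 hx).2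
  have := (h4 (fun i => if i ∈ t.filter (· ∈ ⋃ n, (M n : Set I)) then u i else univ) fun i => by
    split_ifs with h
    · obtain ⟨h10, h11⟩ := Finset.mem_filter.1 h
      exact (u1 i h10).1.mem_nhds (hz i h11 ▸ (u1 i h10).2)
    · exact univ_mem).and_eventually (eventually_ge_atTop k)
  refine Nat.frequently_atTop_iff_infinite.1 this ((h6.preimage hg.injOn).subset fun n hn => ?_)
  obtain ⟨w, hw⟩ := hD (↑t ∪ ↑(s n)) (t.countable_toSet.union (s n).countable_toSet)
    fun i => if i ∈ s n then (y n).1 i else z.1 i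
  refine ⟨w, h1 n w fun i hi => (hw i (Or.inr hi)).trans (if_pos hi), h7 (u2 fun i hi => ?_)⟩
  rw [hw i (Or.inl hi)]
  split_ifs with h
  · have h10 := Finset.mem_filter.2 ⟨hi, (mem_iUnion.2 ⟨n + 1, h3 n h⟩ : i ∈ ⋃ n, (M n : Set I))⟩
    simpa only [if_pos h10] using hn.1 i (h2 hn.2 (hk h10))
  · exact (u1 i hi).2

theorem caseB (hD : ∀ M : Set I, M.Countable → ∀ p : ∀ i, X i, ∃ y : D, ∀ i ∈ M, y.1 i = p i)
    (p : ∀ i, X i) {j : I} (h1 : ¬ CompactSpace (X j))
    (h2 : ∀ x : ℕ → X j, ∃ a, MapClusterPt a atTop x) : ¬ ParacompactSpace D := fun _ => by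
  classical
  obtain ⟨κ, U, u1, u2, u3⟩ : ∃ (κ : Type _) (U : κ → Set (X j)), (∀ k, IsOpen (U k)) ∧
      univ ⊆ ⋃ k, U k ∧ ∀ t : Finset κ, ∃ x, x ∉ ⋃ k ∈ t, U k := by
    by_contra h
    push Not at h
    exact h1 ⟨isCompact_of_finite_subcover fun U a b => (h _ U a b).imp fun _ h x _ => h x⟩
  obtain ⟨W, w1, w2, w3, w4⟩ := precise_refinement (fun k => {y : D | y.1 j ∈ U k})
    (fun k => (u1 k).preimage ((continuous_apply j).comp continuous_subtype_val))
    (eq_univ_of_forall fun y => (mem_iUnion.1 (u2 (mem_univ (y.1 j)))).elim fun k h =>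
      mem_iUnion.2 ⟨k, h⟩)
  choose x hx using u3
  choose g s hs using step w1 w2
  choose y hy using fun S : Finset I × Finset κ =>
    hD _ (insert j S.1).countable_toSet (update p j (x S.2))
  let S : ℕ → Finset I × Finset κ := fun n => Nat.rec (motive := fun _ => Finset I × Finset κ)
    (∅, ∅) (fun _ S => (S.1 ∪ s (y S), insert (g (y S)) S.2)) n
  have h3 : Monotone S := monotone_nat_of_le_succ fun n =>
    ⟨Finset.subset_union_left, Finset.subset_insert _ _⟩
  have h4 : ∀ S, (y S).1 j = x S.2 := fun S => by simp [hy S j]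
  obtain ⟨a, ha⟩ := h2 fun n => x (S n).2
  refine core hD w3 (g := fun n => g (y (S n))) (Injective.of_lt_imp_ne fun m n h e => ?_)
    (fun n => y (S n)) (fun n => s (y (S n))) (fun n => (S n).1) (fun n => hs _)
    (fun m n h => (h3 h).1) (fun n => Finset.subset_union_right) (update p j a) fun u hu => ?_
  · exact hx _ (mem_biUnion ((h3 h).2 (Finset.mem_insert_self _ _))
      (h4 (S n) ▸ e ▸ w4 _ (hs _ _ fun _ _ => rfl)))
  refine (mapClusterPt_iff_frequently.1 ha (u j) (by simpa using hu j)).mono fun n hn i hi => ?_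
  by_cases h : i = j
  · rwa [h, h4]
  · simpa [hy _ i (Finset.mem_insert_of_mem hi), h] using mem_of_mem_nhds (hu i)

theorem caseA [Uncountable I]
    (hD : ∀ M : Set I, M.Countable → ∀ p : ∀ i, X i, ∃ y : D, ∀ i ∈ M, y.1 i = p i)
    (a : ∀ i, ℕ → X i) (h : ∀ i b, ¬ MapClusterPt b atTop (a i)) : ¬ ParacompactSpace D := fun _ => by
  classical
  obtain ⟨W, w1, w2, w3, w4⟩ := precise_refinement
    (fun F : Finset I => {y : D | 0 < F.card ∧
      ∀ i ∈ F, y.1 i ∉ closure (a i '' {m | F.card ≤ m + 1})})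
    (fun F => by
      simp only [setOf_and, setOf_forall]
      exact isOpen_const.inter <| isOpen_biInter_finset fun i _ => isClosed_closure.isOpen_compl.preimage
        ((continuous_apply i).comp continuous_subtype_val))
    (eq_univ_of_forall fun y => by
      have h1 : ∀ i, ∃ n, y.1 i ∉ closure (a i '' {m | n ≤ m}) := fun i => by
        by_contra h1
        push Not at h1
        refine h i (y.1 i) (mapClusterPt_iff_frequently.2 fun V hV => frequently_atTop.2 fun n => ?_)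
        obtain ⟨_, h2, m, h3, rfl⟩ := mem_closure_iff_nhds.1 (h1 n) V hV
        exact ⟨m, h3, h2⟩
      choose c hc using h1
      obtain ⟨n, hn⟩ : ∃ n, (c ⁻¹' {n}).Infinite := by
        by_contra h2
        push Not at h2
        exact not_countable_univ ((countable_iUnion fun n => (h2 n).countable).mono
          fun i _ => mem_iUnion.2 ⟨c i, rfl⟩)
      obtain ⟨F, h2, h3⟩ := hn.exists_subset_card_eq (n + 1)
      refine mem_iUnion.2 ⟨F, by omega, fun i hi => ?_⟩
      simpa only [h3, add_le_add_iff_right, ← show c i = n from h2 hi] using hc i)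
  choose g s hs using step w1 w2
  choose y hy using fun S : Finset I × (I → ℕ) => hD _ S.1.countable_toSet fun i => a i (S.2 i)
  have h1 : ∀ (S : Finset I × (I → ℕ)) (t : Finset I), ∃ c : I → ℕ, (∀ i ∈ S.1, c i = S.2 i) ∧
      (InjOn S.2 S.1 → InjOn c ↑(S.1 ∪ t)) := fun S t => by
    obtain ⟨e, he⟩ := countable_iff_exists_injOn.1 t.countable_toSet
    refine ⟨fun i => if i ∈ S.1 then S.2 i else S.1.sup S.2 + 1 + e i, fun i h => if_pos h,
      fun h i hi i' hi' e' => ?_⟩
    beta_reduce at e'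
    split_ifs at e' with h2 h3 h3
    · exact h h2 h3 e'
    · have := Finset.le_sup (f := S.2) h2; omega
    · have := Finset.le_sup (f := S.2) h3; omega
    · exact he ((Finset.mem_union.1 hi).resolve_left h2) ((Finset.mem_union.1 hi').resolve_left h3)
        (by omega)
  choose c c1 c2 using h1
  let S : ℕ → Finset I × (I → ℕ) := fun n => Nat.rec (motive := fun _ => Finset I × (I → ℕ))
    (∅, 0) (fun _ S => (S.1 ∪ (s (y S) ∪ g (y S)), c S (s (y S) ∪ g (y S)))) n
  have h3 : Monotone fun n => (S n).1 := monotone_nat_of_le_succ fun n => Finset.subset_union_left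
  have h4 : ∀ n, InjOn (S n).2 (S n).1 := fun n => by
    induction n with
    | zero => simp [S]
    | succ n ih => exact c2 _ _ ih
  have h5 : ∀ m, ∀ i ∈ (S m).1, ∀ n ≥ m, (S n).2 i = (S m).2 i := fun m i hi n hn => by
    induction hn with
    | refl => rfl
    | step h ih => exact (c1 _ _ i (h3 h hi)).trans ih
  refine core hD w3 (g := fun n => g (y (S n))) (Injective.of_lt_imp_ne fun m n h e => ?_)
    (fun n => y (S n)) (fun n => s (y (S n))) (fun n => (S n).1) (fun n => hs _) h3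
    (fun n => Finset.subset_union_left.trans Finset.subset_union_right)
    (fun i => a i (if h : ∃ n, i ∈ (S n).1 then (S (Nat.find h)).2 i else 0)) fun u hu =>
    Eventually.frequently (.of_forall fun n i hi => ?_)
  · obtain ⟨h6, h7⟩ := w4 _ (hs (y (S n)) _ fun _ _ => rfl)
    have h8 : g (y (S n)) ⊆ (S n).1 := e ▸ (Finset.subset_union_right.trans
      Finset.subset_union_right).trans (h3 h)
    have := Finset.card_le_card_of_injOn (t := Finset.range ((g (y (S n))).card - 1)) (S n).2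
      (fun i hi => Finset.mem_range.2 (Nat.lt_sub_of_add_lt (not_le.1 fun h9 => h7 i hi
        (subset_closure ⟨_, h9, (hy _ i (h8 hi)).symm⟩)))) ((h4 n).mono h8)
    rw [Finset.card_range] at this
    omega
  · have h7 : ∃ n, i ∈ (S n).1 := ⟨n, hi⟩
    rw [hy _ i hi, h5 _ i (Nat.find_spec h7) n (Nat.find_min' h7 hi)]
    simpa only [dif_pos h7] using mem_of_mem_nhds (hu i)

theorem main [Uncountable I] (h : ∀ i, ¬ CompactSpace (X i))
    (hD : ∀ J : Set I, J.Nonempty → J.Countable → ∀ p : ∀ i : J, X i, ∃ y ∈ D, ∀ i : J, y i = p i) :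
    ¬ ParacompactSpace D := by
  obtain ⟨j⟩ : Nonempty I := inferInstance
  have h1 : ∀ M : Set I, M.Countable → ∀ p : ∀ i, X i, ∃ y : D, ∀ i ∈ M, y.1 i = p i :=
    fun M hM p => (hD _ (insert_nonempty j M) (hM.insert j) fun i => p i).elim fun y hy =>
      ⟨⟨y, hy.1⟩, fun i hi => hy.2 ⟨i, Or.inr hi⟩⟩
  by_cases h2 : ∃ j, ∀ x : ℕ → X j, ∃ a, MapClusterPt a atTop x
  · obtain ⟨j, h2⟩ := h2
    have h3 : ∀ i, Nonempty (X i) := fun i => not_isEmpty_iff.1 fun _ => h i inferInstance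
    exact caseB h1 (Classical.arbitrary _) (h j) h2
  · push Not at h2
    choose a ha using h2
    exact caseA h1 a ha

end Pool.Agent.H31.Fill
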