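import Pool.Agent.H31.FreeLDefs
import Pool.Agent.H31.Wij

namespace Pool.Agent.H31.FreeL

open Set Metric Topology Filter TopologicalSpace BoundedContinuousFunction

universe u

lemma slf {Y ι : Type*} [TopologicalSpace Y] (V : ℕ → ι → Set Y) (C : ℕ → ι → ℕ → Set Y)
    (hVo : ∀ t i, IsOpen (V t i)) (hVl : ∀ t, LocallyFinite (V t)) (hcov : ∀ z, ∃ t i, z ∈ V t i)
    (hCc : ∀ t i m, IsClosed (C t i m)) (hCs : ∀ t i m, C t i m ⊆ V t i)
    (hCn : ∀ t i, ∀ z ∈ V t i, ∃ M, ∃ O ∈ 𝓝 z, ∀ m ≥ M, O ⊆ C t i m) :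
    ∃ W : ℕ × ι → Set Y, (∀ b, IsOpen (W b)) ∧ (⋃ b, W b = univ) ∧ LocallyFinite W ∧
      ∀ b, W b ⊆ V b.1 b.2 := by
  classical
  let W : ℕ × ι → Set Y := fun b => V b.1 b.2 \ ⋃ t ∈ Finset.range b.1, ⋃ i, C t i b.1
  refine ⟨W, fun b => (hVo _ _).sdiff (isClosed_biUnion_finset fun t _ =>
    ((hVl t).subset fun i => hCs t i _).isClosed_iUnion fun i => hCc t i _), ?_, ?_,
    fun b => diff_subset⟩
  · refine eq_univ_of_forall fun z => ?_
    obtain ⟨i, hi⟩ := Nat.find_spec (hcov z)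
    refine mem_iUnion.2 ⟨(Nat.find (hcov z), i), hi, fun h => ?_⟩
    obtain ⟨t, ht, h⟩ := mem_iUnion₂.1 h
    obtain ⟨j, hj⟩ := mem_iUnion.1 h
    exact Nat.find_min (hcov z) (Finset.mem_range.1 ht) ⟨j, hCs _ _ _ hj⟩
  · intro z
    obtain ⟨t0, i0, h0⟩ := hcov z
    obtain ⟨M, O, hO, hM⟩ := hCn t0 i0 z h0
    choose O' hO' hf using fun t => hVl t z
    refine ⟨O ∩ ⋂ t ∈ Finset.range (max t0 M + 1), O' t,
      inter_mem hO ((biInter_finset_mem _).2 fun t _ => hO' t), ?_⟩
    refine ((Finset.range (max t0 M + 1)).finite_toSet.biUnion fun t _ =>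
      (hf t).image (fun i => (t, i))).subset ?_
    rintro ⟨t, i⟩ ⟨w, hw1, hw2, hw3⟩
    have ht : t ∈ Finset.range (max t0 M + 1) := by
      by_contra hcon
      rw [Finset.mem_range] at hcon
      exact hw1.2 (mem_iUnion₂.2 ⟨t0, Finset.mem_range.2 (by omega),
        mem_iUnion.2 ⟨i0, hM t (by omega) hw2⟩⟩)
    exact mem_iUnion₂.2 ⟨t, ht, i, ⟨w, hw1.1, mem_iInter₂.1 hw3 t ht⟩, rfl⟩

lemma pc {Y N : Type*} [TopologicalSpace Y] [CompletelyRegularSpace Y] [MetricSpace N]
    (G : Y → N) (hG : Continuous G) (P : ℕ → Set Y) (hP : ∀ z, ∃ k, z ∈ P k)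
    (hl : ∀ k, ∀ y ∈ P k, ∀ U ∈ 𝓝 y, ∃ ε > 0, ∀ z ∈ P k, dist (G z) (G y) < ε → z ∈ U) :
    ParacompactSpace Y := by
  classical
  refine ⟨fun α s hs hc => ?_⟩
  choose a ha using fun y => mem_iUnion.1 (hc.symm ▸ mem_univ y : y ∈ ⋃ a, s a)
  choose f hf hf0 hf1 using fun y =>
    CompletelyRegularSpace.completely_regular_isOpen y (s (a y)) (hs _) (ha y)
  let g : Y → Y → ℝ := fun y z => f y z
  have hg : ∀ y, Continuous (g y) := fun y => continuous_subtype_val.comp (hf y)
  have : ∀ k y, ∃ ε, y ∈ P k → 0 < ε ∧ ∀ z ∈ P k, dist (G z) (G y) < ε → g y z < 1 := by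
    intro k y
    by_cases h : y ∈ P k
    · obtain ⟨ε, h1, h2⟩ := hl k y h {z | g y z < 1}
        ((isOpen_lt (hg y) continuous_const).mem_nhds (by simp [g, hf0]))
      exact ⟨ε, fun _ => ⟨h1, h2⟩⟩
    · exact ⟨0, fun h' => absurd h' h⟩
  choose ε hε using this
  let u : ℕ → Y → Set N := fun k y => if y ∈ P k then ball (G y) (ε k y) else ∅
  have hu : ∀ k y, IsOpen (u k y) := fun k y => by
    simp only [u]; split_ifs
    · exact isOpen_ball
    · exact isOpen_empty
  choose F hFc hFs hFu _ using fun k => (isOpen_iUnion (hu k)).exists_iUnion_isClosed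
  choose v hv1 hv2 hv3 hv4 using fun k j => precise_refinement_set (hFc k j) (u k) (hu k) (hFs k j)
  have hslf := slf
    (fun t y => G ⁻¹' v t.unpair.1 t.unpair.2 y ∩ {z | g y z < 1})
    (fun t y m => G ⁻¹' {p | ball p (1 / ((m : ℝ) + 1)) ⊆ v t.unpair.1 t.unpair.2 y} ∩
      {z | g y z ≤ 1 - 1 / ((m : ℝ) + 1)})
    (fun t y => ((hv1 _ _ _).preimage hG).inter (isOpen_lt (hg y) continuous_const))
    (fun t => ((hv3 _ _).preimage_continuous hG).subset fun y => inter_subset_left) ?_ ?_ ?_ ?_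
  · obtain ⟨W, h1, h2, h3, h4⟩ := hslf
    refine ⟨ℕ × Y, W, h1, h2, h3, fun b => ⟨a b.2, fun z hz => ?_⟩⟩
    by_contra hcon
    have := (h4 b hz).2
    simp [g, hf1 b.2 hcon] at this
  · intro z
    obtain ⟨k, hk⟩ := hP z
    have : G z ∈ ⋃ j, F k j := by
      rw [hFu]; exact mem_iUnion.2 ⟨z, by simp only [u, if_pos hk]; exact mem_ball_self (hε k z hk).1⟩
    obtain ⟨j, hj⟩ := mem_iUnion.1 this
    obtain ⟨y, hy⟩ := mem_iUnion.1 (hv2 k j hj)
    refine ⟨Nat.pair k j, y, by simpa using hy, ?_⟩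
    have := hv4 k j y hy
    simp only [u] at this
    split_ifs at this with h
    · exact (hε k y h).2 z hk this
    · exact absurd this (notMem_empty _)
  · intro t y m
    refine IsClosed.inter (IsClosed.preimage hG ?_) (isClosed_le (hg y) continuous_const)
    rw [← isOpen_compl_iff, isOpen_iff_forall_mem_open]
    intro p hp
    obtain ⟨q, hq1, hq2⟩ := not_subset.1 hp
    exact ⟨ball q (1 / ((m : ℝ) + 1)), fun p' hp' h => hq2 (h (mem_ball_comm.1 hp')), isOpen_ball,
      mem_ball_comm.1 hq1⟩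
  · rintro t y m z ⟨h1, h2⟩
    have : (0 : ℝ) < 1 / ((m : ℝ) + 1) := Nat.one_div_pos_of_nat
    have h2' : g y z ≤ 1 - 1 / ((m : ℝ) + 1) := h2
    exact ⟨h1 (mem_ball_self this), show g y z < 1 by linarith⟩
  · rintro t y z ⟨h1, h2⟩
    obtain ⟨r, hr, hrs⟩ := Metric.isOpen_iff.1 (hv1 _ _ _) _ h1
    have h2' : g y z < 1 := h2
    obtain ⟨M, hM⟩ := exists_nat_one_div_lt (lt_min (half_pos hr) (show 0 < (1 - g y z) / 2 by linarith))
    obtain ⟨b1, b2⟩ := lt_min_iff.1 hM
    refine ⟨M, G ⁻¹' ball (G z) (r / 2) ∩ {w | g y w < g y z + (1 - g y z) / 2},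
      ((isOpen_ball.preimage hG).inter (isOpen_lt (hg y) continuous_const)).mem_nhds
        ⟨mem_ball_self (half_pos hr), show g y z < _ by linarith⟩, ?_⟩
    rintro m hm w ⟨c1, c2⟩
    have hle : 1 / ((m : ℝ) + 1) ≤ 1 / ((M : ℝ) + 1) := Nat.one_div_le_one_div hm
    refine ⟨fun q hq => hrs ?_, ?_⟩
    · have := dist_triangle q (G w) (G z)
      have := mem_ball.1 hq
      have := mem_ball.1 c1
      rw [mem_ball]; linarith
    · have : g y w < g y z + (1 - g y z) / 2 := c2
      show g y w ≤ _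
      linarith

def Co (N : Type u) [AddCommGroup N] : Type u := ℝ →+ N

section
variable {N : Type u} [AddCommGroup N]

instance : AddCommGroup (Co N) := inferInstanceAs (AddCommGroup (ℝ →+ N))

def Co.ap (a : Co N) : ℝ →+ N := a

noncomputable instance : Module ℝ (Co N) where
  smul r a := a.ap.comp (AddMonoidHom.mulRight r)
  one_smul a := AddMonoidHom.ext fun s => congrArg a.ap (mul_one s)
  mul_smul r r' a := AddMonoidHom.ext fun s => congrArg a.ap (mul_assoc s r r').symm
  smul_zero r := rfl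
  smul_add r a b := rfl
  add_smul r r' a := AddMonoidHom.ext fun s =>
    (congrArg a.ap (mul_add s r r')).trans (map_add a.ap _ _)
  zero_smul a := AddMonoidHom.ext fun s => (congrArg a.ap (mul_zero s)).trans (map_zero a.ap)

variable [TopologicalSpace N]

instance : TopologicalSpace (Co N) := induced (fun a s => a.ap s) inferInstance

lemma Co.cont (s : ℝ) : Continuous fun a : Co N => a.ap s :=
  (continuous_apply s).comp continuous_induced_dom

lemma Co.cont_iff {Z : Type*} [TopologicalSpace Z] {f : Z → Co N}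
    (h : ∀ s, Continuous fun z => (f z).ap s) : Continuous f :=
  continuous_induced_rng.2 (continuous_pi h)

instance [T2Space N] : T2Space (Co N) :=
  T2Space.of_injective_continuous (f := fun (a : Co N) s => a.ap s)
    (fun _ _ h => AddMonoidHom.ext fun s => congrFun h s) continuous_induced_dom

instance [ContinuousAdd N] : ContinuousAdd (Co N) :=
  ⟨Co.cont_iff fun s => ((Co.cont s).comp continuous_fst).add ((Co.cont s).comp continuous_snd)⟩

instance : ContinuousConstSMul ℝ (Co N) := ⟨fun r => Co.cont_iff fun s => Co.cont (s * r)⟩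

end

noncomputable def co (r : ℝ) (i : Module.Basis.ofVectorSpaceIndex ℚ ℝ) : ℝ :=
  ((Module.Basis.ofVectorSpace ℚ ℝ).repr r i : ℚ)

lemma co_add (r s : ℝ) (i) : co (r + s) i = co r i + co s i := by simp [co]
lemma co_zero (i) : co 0 i = 0 := by simp [co]
lemma co_inj {r s : ℝ} (h : ∀ i, co r i = co s i) : r = s := by
  apply (Module.Basis.ofVectorSpace ℚ ℝ).repr.injective
  ext i
  have := h i
  unfold co at this
  exact_mod_cast this
lemma co_fin (r : ℝ) : {i | co r i ≠ 0}.Finite :=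
  ((Module.Basis.ofVectorSpace ℚ ℝ).repr r).support.finite_toSet.subset fun i hi => by
    simpa [co] using hi
lemma co_bdd (r : ℝ) : ∃ K, ∀ i, |co r i| ≤ K := by
  obtain ⟨K, hK⟩ := ((co_fin r).image fun i => |co r i|).bddAbove
  refine ⟨max K 0, fun i => ?_⟩
  by_cases h : co r i = 0
  · simp [h]
  · exact le_max_of_le_left (hK ⟨i, h, rfl⟩)
lemma co_den (T : Finset ℝ) : ∃ M : ℕ, ∀ r ∈ T, ∀ i, ∃ z : ℤ, ((M : ℝ) + 1) * co r i = z := by
  classical
  let S : Finset ℚ := T.biUnion fun r => ((Module.Basis.ofVectorSpace ℚ ℝ).repr r).support.image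
    ((Module.Basis.ofVectorSpace ℚ ℝ).repr r)
  have hpos : 0 < ∏ q ∈ S, q.den := Finset.prod_pos fun q _ => q.den_pos
  refine ⟨(∏ q ∈ S, q.den) - 1, fun r hr i => ?_⟩
  by_cases h : (Module.Basis.ofVectorSpace ℚ ℝ).repr r i = 0
  · exact ⟨0, by simp [co, h]⟩
  · have hm : (Module.Basis.ofVectorSpace ℚ ℝ).repr r i ∈ S :=
      Finset.mem_biUnion.2 ⟨r, hr, Finset.mem_image.2 ⟨i, Finsupp.mem_support_iff.2 h, rfl⟩⟩
    obtain ⟨k, hk⟩ := Finset.dvd_prod_of_mem (fun q : ℚ => q.den) hm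
    refine ⟨k * ((Module.Basis.ofVectorSpace ℚ ℝ).repr r i).num, ?_⟩
    have e1 : (((∏ q ∈ S, q.den) - 1 : ℕ) : ℝ) + 1 = ((∏ q ∈ S, q.den : ℕ) : ℝ) := by
      rw [← Nat.cast_succ, Nat.succ_eq_add_one, Nat.sub_add_cancel hpos]
    rw [e1, hk, co]
    set q := (Module.Basis.ofVectorSpace ℚ ℝ).repr r i
    have := Rat.den_mul_eq_num q
    have h2 : (q.den : ℝ) * (q : ℝ) = q.num := by exact_mod_cast this
    push_cast
    rw [← h2]; ring

lemma exG {X L : Type u} [MetricSpace X] [AddCommGroup L] [Module ℝ L] [TopologicalSpace L]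
    {e : X → L} (he : IsFree e) :
    ∃ (N : Type u) (_ : MetricSpace N) (G : L → N), Continuous G ∧
      ∀ (S T : Finset X) (c d : X → ℝ) (p : X → ℝ), (∀ x y, |p x - p y| ≤ dist x y) →
        (∀ x, |p x| ≤ 1) → ∀ i, |∑ x ∈ S, p x * co (c x) i - ∑ x ∈ T, p x * co (d x) i| ≤
          dist (G (∑ x ∈ S, c x • e x)) (G (∑ x ∈ T, d x • e x)) := by
  let J := {p : X → ℝ // (∀ x y, |p x - p y| ≤ dist x y) ∧ ∀ x, |p x| ≤ 1} ×
    Module.Basis.ofVectorSpaceIndex ℚ ℝ
  letI : TopologicalSpace J := ⊥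
  haveI : DiscreteTopology J := ⟨rfl⟩
  choose K hK using co_bdd
  let g : X → ℝ → (J →ᵇ ℝ) := fun x r => ofNormedAddCommGroupDiscrete
    (fun j => j.1.1 x * co r j.2) (K r) (fun j => by
      rw [Real.norm_eq_abs, abs_mul]
      exact (mul_le_of_le_one_left (abs_nonneg _) (j.1.2.2 x)).trans (hK r _))
  have hg : ∀ x r j, g x r j = j.1.1 x * co r j.2 := fun _ _ _ => rfl
  let f : X → Co (J →ᵇ ℝ) := fun x => AddMonoidHom.mk' (g x) (fun r s => by
    ext j; simp [hg, co_add, mul_add])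
  have hf : Continuous f := Co.cont_iff fun s => by
    show Continuous fun x => g x s
    refine (LipschitzWith.of_dist_le_mul (K := ⟨|K s|, abs_nonneg _⟩) fun x y => ?_).continuous
    refine (dist_le (by positivity)).2 fun j => ?_
    rw [hg, hg, Real.dist_eq, ← sub_mul, abs_mul, mul_comm]
    exact mul_le_mul ((hK s _).trans (le_abs_self _)) (j.1.2.1 x y) (abs_nonneg _) (abs_nonneg _)
  obtain ⟨F, ⟨hF, hFe⟩, -⟩ := he.2.2.2 (Co (J →ᵇ ℝ)) f hf
  have key : ∀ (S : Finset X) (c : X → ℝ) (j : J),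
      (F (∑ x ∈ S, c x • e x)).ap 1 j = ∑ x ∈ S, j.1.1 x * co (c x) j.2 := by
    intro S c j
    classical
    induction S using Finset.induction_on with
    | empty => simp only [Finset.sum_empty, map_zero]; rfl
    | insert a s ha ih =>
      rw [Finset.sum_insert ha, Finset.sum_insert ha, map_add, ← ih, map_smul, hFe]
      show g a (1 * c a) j + _ = _
      rw [one_mul, hg]; rfl
  refine ⟨J →ᵇ ℝ, inferInstance, fun v => (F v).ap 1, (Co.cont 1).comp hF,
    fun S T c d p h1 h2 i => ?_⟩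
  rw [← key S c (⟨p, h1, h2⟩, i), ← key T d (⟨p, h1, h2⟩, i)]
  exact dist_coe_le_dist (f := (F (∑ x ∈ S, c x • e x)).ap 1) (g := (F (∑ x ∈ T, d x • e x)).ap 1) _

theorem main {X L : Type u} [MetricSpace X] [AddCommGroup L] [Module ℝ L] [TopologicalSpace L]
    [ContinuousAdd L] [ContinuousConstSMul ℝ L] {e : X → L} (he : IsFree e) :
    ParacompactSpace L := by
  classical
  haveI : ContinuousNeg L := ⟨by simpa using continuous_const_smul (T := L) (-1 : ℝ)⟩
  haveI : IsTopologicalAddGroup L := {}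
  haveI : CompletelyRegularSpace L :=
    @UniformSpace.toCompletelyRegularSpace L (IsTopologicalAddGroup.rightUniformSpace L)
  obtain ⟨N, _, G, hG, hd⟩ := exG he
  let Q : ℕ → ℕ → ℕ → Finset X → (X → ℝ) → Prop := fun n m M S c => S.card = n ∧
    (∀ x ∈ S, c x ≠ 0) ∧ (∀ x ∈ S, ∀ y ∈ S, x ≠ y → 1 / ((m : ℝ) + 1) ≤ dist x y) ∧
    ∀ x ∈ S, ∀ i, ∃ z : ℤ, ((M : ℝ) + 1) * co (c x) i = z
  refine pc G hG (fun k => {v | ∃ S c, Q k.unpair.1 k.unpair.2.unpair.1 k.unpair.2.unpair.2 S c ∧
    v = ∑ x ∈ S, c x • e x}) ?_ ?_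
  · intro v
    have : v ∈ Submodule.span ℝ (range e) := by rw [he.2.2.1]; trivial
    obtain ⟨c, hc⟩ := Finsupp.mem_span_range_iff_exists_finsupp.1 this
    obtain ⟨M, hM⟩ := co_den (c.support.image c)
    obtain ⟨ε, hε, h⟩ := Wij.fin_pos (c.support ×ˢ c.support).finite_toSet
      (fun p => if p.1 = p.2 then 1 else dist p.1 p.2) (fun p => by
        split_ifs with h
        · exact one_pos
        · exact dist_pos.2 h)
    obtain ⟨m, hm⟩ := exists_nat_one_div_lt hε
    refine ⟨Nat.pair c.support.card (Nat.pair m M), c.support, c, ?_, hc.symm⟩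
    simp only [Nat.unpair_pair]
    refine ⟨rfl, fun x hx => Finsupp.mem_support_iff.1 hx, fun x hx y hy hxy => ?_,
      fun x hx i => hM _ (Finset.mem_image_of_mem _ hx) i⟩
    have := h (x, y) (Finset.mem_coe.2 (Finset.mem_product.2 ⟨hx, hy⟩))
    simp only [if_neg hxy] at this
    linarith
  · rintro k _ ⟨S, c, hQ, rfl⟩ U hU
    generalize k.unpair.1 = n at *
    generalize k.unpair.2.unpair.1 = m at *
    generalize k.unpair.2.unpair.2 = M at *
    obtain ⟨q1, q2, q3, q4⟩ := hQ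
    have hc : Continuous fun y : S → X => ∑ x : S, c x • e (y x) :=
      continuous_finset_sum _ fun x _ =>
        (he.1.continuous.comp (continuous_apply x)).const_smul (c x)
    have hU' : (fun y : S → X => ∑ x : S, c x • e (y x)) ⁻¹' U ∈ 𝓝 (fun x : S => x.1) := by
      apply hc.continuousAt.preimage_mem_nhds
      rwa [Finset.sum_coe_sort S (fun x => c x • e x)]
    obtain ⟨δ0, hδ0, hδU⟩ := Metric.mem_nhds_iff.1 hU'
    have hm : (0 : ℝ) < 1 / ((m : ℝ) + 1) := Nat.one_div_pos_of_nat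
    have hm1 : 1 / ((m : ℝ) + 1) ≤ 1 := by
      have : (0 : ℝ) ≤ m := m.cast_nonneg
      rw [div_le_one (by linarith)]; linarith
    set δ := min δ0 (1 / ((m : ℝ) + 1) / 4) with hδd
    have hδ : 0 < δ := lt_min hδ0 (by positivity)
    have hδ1 : δ ≤ δ0 := min_le_left _ _
    have hδ2 : 4 * δ ≤ 1 / ((m : ℝ) + 1) := by
      have := min_le_right δ0 (1 / ((m : ℝ) + 1) / 4); linarith
    have hM : (0 : ℝ) < (M : ℝ) + 1 := by positivity
    refine ⟨δ / ((M : ℝ) + 1), by positivity, ?_⟩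
    rintro _ ⟨T, d, ⟨r1, r2, r3, r4⟩, rfl⟩ hlt
    rw [dist_comm] at hlt
    have int : ∀ (a b : ℝ) (z w : ℤ), ((M : ℝ) + 1) * a = z → ((M : ℝ) + 1) * b = w →
        |δ * a - δ * b| < δ / ((M : ℝ) + 1) → a = b := by
      intro a b z w h1 h2 h3
      rw [← mul_sub, abs_mul, abs_of_pos hδ, lt_div_iff₀ hM] at h3
      have h4 : |((z - w : ℤ) : ℝ)| < 1 := by
        push_cast
        rw [← h1, ← h2, ← mul_sub, abs_mul, abs_of_pos hM]
        nlinarith
      have h5 : z - w = 0 := by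
        have : |z - w| < 1 := by exact_mod_cast h4
        exact Int.abs_lt_one_iff.1 this
      have : (z : ℝ) = w := by exact_mod_cast sub_eq_zero.1 h5
      exact mul_left_cancel₀ hM.ne' (by rw [h1, h2, this])
    have dl : ∀ x p q : X, |dist p x - dist q x| ≤ dist p q := fun x p q => abs_dist_sub_le p q x
    have A : ∀ x : S, ∃ y ∈ T, dist y x < δ := by
      rintro ⟨x, hx⟩
      by_contra hcon
      push Not at hcon
      apply q2 x hx
      apply co_inj
      intro i
      obtain ⟨z, hz⟩ := q4 x hx i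
      have h := (hd S T c d (fun w => max 0 (δ - dist w x)) (fun p q => by
        refine (abs_max_sub_max_le_max _ _ _ _).trans (max_le (by simp) ?_)
        rw [show δ - dist p x - (δ - dist q x) = dist q x - dist p x by ring, dist_comm p q]
        exact dl _ _ _) (fun w => by
        rw [abs_of_nonneg (le_max_left _ _)]
        exact max_le zero_le_one (by linarith [dist_nonneg (x := w) (y := x)])) i).trans_lt hlt
      rw [Finset.sum_eq_single_of_mem x hx (fun w hw hwx => by
        rw [max_eq_left (by linarith [q3 w hw x hx hwx]), zero_mul]),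
        Finset.sum_eq_zero (fun w hw => by
          rw [max_eq_left (by linarith [hcon w hw]), zero_mul])] at h
      apply int _ _ z 0 hz (by simp [co_zero])
      simpa [hδ.le, co_zero] using h
    choose y hy1 hy2 using A
    have B : ∀ x : S, c x = d (y x) := by
      rintro ⟨x, hx⟩
      apply co_inj
      intro i
      obtain ⟨z, hz⟩ := q4 x hx i
      obtain ⟨w, hw⟩ := r4 _ (hy1 ⟨x, hx⟩) i
      have h := (hd S T c d (fun w => min δ (max 0 (2 * δ - dist w x))) (fun p q => by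
        refine (abs_min_sub_min_le_max _ _ _ _).trans (max_le (by simp) ?_)
        refine (abs_max_sub_max_le_max _ _ _ _).trans (max_le (by simp) ?_)
        rw [show 2 * δ - dist p x - (2 * δ - dist q x) = dist q x - dist p x by ring, dist_comm p q]
        exact dl _ _ _) (fun w => by
        rw [abs_of_nonneg (le_min hδ.le (le_max_left _ _))]
        exact (min_le_left _ _).trans (by linarith)) i).trans_lt hlt
      have hyx : dist (y ⟨x, hx⟩) x < δ := hy2 ⟨x, hx⟩
      rw [Finset.sum_eq_single_of_mem x hx (fun w hw hwx => by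
        rw [max_eq_left (by linarith [q3 w hw x hx hwx]), min_eq_right hδ.le, zero_mul]),
        Finset.sum_eq_single_of_mem _ (hy1 ⟨x, hx⟩) (fun w hw hwx => by
          have a1 := r3 w hw _ (hy1 ⟨x, hx⟩) hwx
          have a2 := dist_triangle_right w (y ⟨x, hx⟩) x
          rw [max_eq_left (by linarith), min_eq_right hδ.le, zero_mul]),
        min_eq_left (le_max_of_le_right (by rw [dist_self]; linarith)),
        min_eq_left (le_max_of_le_right (by linarith))] at h
      exact int _ _ z w hz hw h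
    have hinj : Function.Injective y := by
      intro a b hab
      by_contra hne
      have a1 := q3 a a.2 b b.2 (fun h => hne (Subtype.ext h))
      have a2 := hy2 a
      have a3 := hy2 b
      rw [hab] at a2
      have := dist_triangle_left a.1 b.1 (y b)
      linarith
    have him : Finset.univ.image y = T := by
      apply Finset.eq_of_subset_of_card_le
      · intro w hw
        obtain ⟨x, -, rfl⟩ := Finset.mem_image.1 hw
        exact hy1 x
      · rw [Finset.card_image_of_injective _ hinj]; simp [r1, q1]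
    have := hδU (show y ∈ ball (fun x : S => x.1) δ0 from
      (dist_pi_lt_iff hδ0).2 fun x => (hy2 x).trans_le hδ1)
    rw [← him, Finset.sum_image (fun a _ b _ h => hinj h)]
    simpa only [mem_preimage, B] using this

end Pool.Agent.H31.FreeL
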