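import Mathlib

namespace Pool.Agent.H31.FreeL

universe u

/-- `e : X → L` presents `L` as the free topological linear space over the discrete field of
reals: `e` is an embedding onto a Hamel basis, and every continuous map into a Hausdorff real
vector space with continuous addition and continuous homotheties extends uniquely to a
continuous linear map. -/
def IsFree {X L : Type u} [TopologicalSpace X] [AddCommGroup L] [Module ℝ L] [TopologicalSpace L]
    (e : X → L) : Prop :=
  Topology.IsEmbedding e ∧ LinearIndependent ℝ e ∧ Submodule.span ℝ (Set.range e) = ⊤ ∧
    ∀ (E : Type u) [AddCommGroup E] [Module ℝ E] [TopologicalSpace E] [T2Space E]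
      [ContinuousAdd E] [ContinuousConstSMul ℝ E] (f : X → E), Continuous f →
      ∃! F : L →ₗ[ℝ] E, Continuous F ∧ ∀ x, F (e x) = f x

end Pool.Agent.H31.FreeL
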