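import Mathlib

set_option autoImplicit false

open Set Function Filter Topology

namespace Pool.Agent.H31.GRev

/-- functions with countable support -/
def G : AddSubgroup (ℝ → ZMod 2) where
  carrier := {x | (support x).Countable}
  zero_mem' := by simp
  add_mem' := fun h h' => (h.union h').mono (support_add _ _)
  neg_mem' := fun h => by simpa using h

theorem bounded {A : Set G} (hA : A.Countable) : IsCompact (closure A) := by
  have h0 : IsClosed {x : ℝ → ZMod 2 | ∀ r ∉ ⋃ g ∈ A, support g.1, x r = 0} := by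
    simp only [setOf_forall]
    exact isClosed_iInter fun r => isClosed_iInter fun _ =>
      isClosed_eq (continuous_apply r) continuous_const
  have h1 := (IsInducing.subtypeVal (t := (G : Set (ℝ → ZMod 2)))).isCompact_preimage'
    h0.isCompact fun g hg => ⟨⟨g, (hA.biUnion fun g _ => g.2).mono fun r hr =>
      by_contra fun h => hr (hg r h)⟩, rfl⟩
  exact h1.of_isClosed_subset isClosed_closure (closure_minimal
    (fun g hg r hr => by_contra fun h => hr (mem_biUnion hg h)) h1.isClosed)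

theorem mem_cl {A : Set G} {y : G} :
    y ∈ closure A ↔ ∀ s : Finset ℝ, ∃ a ∈ A, ∀ r ∈ s, a.1 r = y.1 r := by
  refine ⟨fun h s => ?_, fun h => mem_closure_iff.2 ?_⟩
  · obtain ⟨a, h1, h2⟩ := mem_closure_iff.1 h (⋂ r ∈ s, {a | a.1 r = y.1 r})
      (isOpen_biInter_finset fun r _ => (isOpen_discrete {y.1 r}).preimage (f := fun a : G => a.1 r)
        ((continuous_apply r).comp continuous_subtype_val)) (by simp)
    exact ⟨a, h2, mem_iInter₂.1 h1⟩
  · rintro _ ⟨O, h1, rfl⟩ hy
    obtain ⟨s, u, h3, h4⟩ := isOpen_pi_iff.1 h1 y.1 hy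
    obtain ⟨a, h5, h6⟩ := h s
    exact ⟨a, h4 fun r hr => h6 r hr ▸ (h3 r hr).2, h5⟩

theorem cfin {T : Set ℝ} (h : T.Countable) : {s : Finset ℝ | ↑s ⊆ T}.Countable :=
  ((countable_setOf_finite_subset h).preimage_of_injOn Finset.coe_injective.injOn).mono
    fun s hs => And.intro s.finite_toSet hs

theorem tight {A : Set G} {y : G} (h : y ∈ closure A) :
    ∃ B ⊆ A, B.Countable ∧ y ∈ closure B := by
  classical
  choose a a1 a2 using mem_cl.1 h
  let S : ℕ → Set ℝ := fun n => Nat.rec (motive := fun _ => _) (support y.1)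
    (fun _ T => T ∪ ⋃ s ∈ {s : Finset ℝ | ↑s ⊆ T}, support (a s).1) n
  have h1 : ∀ n, (S n).Countable := fun n => by
    induction n with
    | zero => exact y.2
    | succ n ih => exact ih.union ((cfin ih).biUnion fun s _ => (a s).2)
  have h2 : Monotone S := monotone_nat_of_le_succ fun n => subset_union_left
  refine ⟨a '' {s | ↑s ⊆ ⋃ n, S n}, by rintro _ ⟨s, -, rfl⟩; exact a1 s,
    (cfin (countable_iUnion h1)).image _, mem_cl.2 fun t => ?_⟩
  have h3 : ((t.filter (· ∈ ⋃ n, S n) : Finset ℝ) : Set ℝ) ⊆ ⋃ n, S n := fun r hr =>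
    (Finset.mem_filter.1 hr).2
  refine ⟨_, ⟨_, h3, rfl⟩, fun r hr => ?_⟩
  by_cases h4 : r ∈ ⋃ n, S n
  · exact a2 _ r (Finset.mem_filter.2 ⟨hr, h4⟩)
  obtain ⟨n, hn⟩ := h2.directed_le.exists_mem_subset_of_finset_subset_biUnion h3
  rw [notMem_support.1 fun h5 => h4 (mem_iUnion.2 ⟨n + 1, Or.inr (mem_biUnion hn h5)⟩),
    notMem_support.1 fun h5 => h4 (mem_iUnion.2 ⟨0, h5⟩)]

theorem rev (f : G ≃ G) (hf : Continuous f) : IsOpenMap f := by
  refine (f.toHomeomorphOfContinuousClosed hf fun C hC => closure_subset_iff_isClosed.1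
    fun y hy => ?_).isOpenMap
  obtain ⟨B, h1, h2, h3⟩ := tight hy
  have h4 := bounded (h2.preimage_of_injOn f.injective.injOn)
  refine image_mono (closure_minimal (fun x hx => ?_) hC)
    (closure_minimal (fun b hb => ?_) (h4.image hf).isClosed h3)
  · obtain ⟨z, h5, h6⟩ := h1 hx
    exact f.injective h6 ▸ h5
  · exact ⟨f.symm b, subset_closure (by simpa), by simp⟩

theorem cc (U : ℕ → Set G) (hU : ∀ n, IsOpen (U n)) (h : ⋃ n, U n = univ) :
    ∃ t : Finset ℕ, ⋃ n ∈ t, U n = univ := by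
  by_contra h1
  push Not at h1
  choose x hx using fun t => (ne_univ_iff_exists_notMem _).1 (h1 t)
  obtain ⟨t, ht⟩ := (bounded (countable_range x)).elim_finite_subcover U hU (h ▸ subset_univ _)
  exact hx t (ht (subset_closure (mem_range_self t)))

theorem pc (f : G → ℝ) (hf : Continuous f) : ∃ C : ℝ, ∀ x, |f x| ≤ C := by
  obtain ⟨t, ht⟩ := cc (fun n => {x | |f x| < n}) (fun n => isOpen_lt hf.abs continuous_const)
    (eq_univ_of_forall fun x => mem_iUnion.2 (exists_nat_gt |f x|))
  refine ⟨(t.sup id : ℕ), fun x => ?_⟩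
  obtain ⟨n, h1, h2⟩ := mem_iUnion₂.1 (ht ▸ mem_univ x : x ∈ ⋃ n ∈ t, {x | |f x| < n})
  exact (le_of_lt h2).trans (Nat.cast_le.2 (Finset.le_sup (f := id) h1))

/-- differences of coordinates -/
def d : G →+ ℝ → ZMod 2 where
  toFun x r := x.1 r - x.1 0
  map_zero' := by ext; simp
  map_add' x y := by ext; simp; ring

theorem coarse : ∃ t : TopologicalSpace G, @IsTopologicalAddGroup G t _ ∧ @T2Space G t ∧
    instTopologicalSpaceSubtype < t := by
  classical
  have hc : ∀ r, Continuous fun x : G => x.1 r := fun r =>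
    (continuous_apply r).comp continuous_subtype_val
  refine ⟨.induced d inferInstance, topologicalAddGroup_induced d, ?_, lt_of_le_of_ne
    (continuous_iff_le_induced.1 (continuous_pi fun r => (hc r).sub (hc 0))) fun e => ?_⟩
  · refine @IsEmbedding.t2Space _ _ (_) _ _ d (@IsEmbedding.mk _ _ (_) _ _
      (@IsInducing.mk _ _ (_) _ _ rfl) ((injective_iff_map_eq_zero d).2 fun x hx => ?_))
    refine Subtype.ext (funext fun r => by_contra fun h => Cardinal.not_countable_real
      (Set.Countable.mono (s₂ := support x.1) (fun s _ h' => h ?_) x.2))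
    exact (sub_eq_zero.1 (congrFun hx r)).trans ((sub_eq_zero.1 (congrFun hx s)).symm.trans h')
  · have h1 : IsOpen {x : G | x.1 0 = 0} := (isOpen_discrete {0}).preimage (hc 0)
    obtain ⟨O, h2, h3⟩ := e.ge _ h1
    obtain ⟨s, u, h4, h5⟩ := isOpen_pi_iff.1 h2 (d 0) ((Set.ext_iff.1 h3 0).2 rfl)
    have := (Set.ext_iff.1 h3 ⟨fun r => if r ∈ insert 0 s then 1 else 0,
      (insert 0 s).countable_toSet.mono fun r hr => by_contra fun h => hr (if_neg h)⟩).1
      (h5 fun r hr => by simpa [d, show r ∈ s from hr] using (h4 r hr).2)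
    simp at this

end Pool.Agent.H31.GRev
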