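import Pool.Agent.H31.Omega1

set_option autoImplicit false

open Set Function Filter Topology Cardinal TopologicalSpace

namespace Pool.Agent.H31.NS

open Omega1

/-- the field with two elements -/
abbrev F : Type := ZMod 2

theorem span_lt {V : Type} [AddCommGroup V] [Module F V] {l : Cardinal.{0}} (hl : ℵ₀ < l)
    {S : Set V} (hS : #S < l) : #(Submodule.span F S) < l := by
  have : (Submodule.span F S : Set V) = range (Finsupp.linearCombination F (Subtype.val : S → V)) := by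
    rw [← LinearMap.coe_range, Finsupp.range_linearCombination, Subtype.range_coe]
  change #(Submodule.span F S : Set V) < l
  rw [this]
  refine mk_range_le.trans_lt ?_
  cases fintypeOrInfinite S
  · exact (mk_le_of_injective DFunLike.coe_injective).trans_lt ((lt_aleph0_of_finite _).trans hl)
  · rw [mk_finsupp_of_infinite]
    exact max_lt hS ((lt_aleph0_of_finite _).trans hl)

theorem indep {V : Type} [AddCommGroup V] [Module F V] (σ : Submodule F V) {l : Cardinal.{0}}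
    (hl : ℵ₀ < l) (hσ : #σ < l) {J : Type} (hJ : #J ≤ l) (A : J → Set V) (hA : ∀ j, l ≤ #(A j)) :
    ∃ v : J → V, (∀ j, v j ∈ A j) ∧ LinearIndependent F (σ.mkQ ∘ v) := by
  classical
  rw [← mk_ord_toType l] at hJ
  obtain ⟨j⟩ := (Cardinal.le_def _ _).1 hJ
  have wf : WellFounded fun a b : J => j a < j b := InvImage.wf j wellFounded_lt
  have step : ∀ (i : J) (ih : ∀ v, j v < j i → V), ∃ x ∈ A i,
      x ∉ Submodule.span F (↑σ ∪ range fun a : {a // j a < j i} => ih a a.2) := by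
    intro i ih
    refine not_subset.1 fun h => (span_lt hl ?_).not_ge ((hA i).trans (mk_le_mk_of_subset h))
    refine (mk_union_le _ _).trans_lt (add_lt_of_lt hl.le hσ (mk_range_le.trans_lt ?_))
    exact (mk_le_of_injective (f := fun a : {a // j a < j i} => (⟨j a, a.2⟩ : Iio (j i)))
      fun a b e => Subtype.ext (j.injective (congrArg Subtype.val e))).trans_lt
        (mk_Iio_toType_ord_lt _)
  choose s h1 h2 using step
  have hf : ∀ i, wf.fix s i = s i fun v _ => wf.fix s v := wf.fix_eq s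
  refine ⟨wf.fix s, fun i => hf i ▸ h1 _ _, linearIndependent_iff_finset_linearIndependent.2
    fun t => ?_⟩
  change LinearIndepOn F _ (t : Set J)
  induction t using Finset.induction_on_max_value j with
  | empty => simp
  | insert a t ha h ih =>
    rw [Finset.coe_insert]
    refine ih.insert fun h3 => h2 a (fun v _ => wf.fix s v) ?_
    rw [image_comp, ← Submodule.map_span] at h3
    obtain ⟨y, h4, h5⟩ := h3
    rw [← hf, ← sub_add_cancel (wf.fix s a) y]
    refine add_mem (Submodule.subset_span (Or.inl ((Submodule.Quotient.eq σ).1 h5.symm)))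
      (Submodule.span_mono ?_ h4)
    rintro _ ⟨b, hb, rfl⟩
    exact Or.inr ⟨⟨b, (h b hb).lt_of_ne fun e => ha (j.injective e ▸ hb)⟩, rfl⟩

theorem sepF {I : Type} (j : I → ℝ) (hj : Injective j) : ∃ d : ℕ → I → F,
    ∀ (s : Finset I) (f : I → F), ∃ n, ∀ i ∈ s, d n i = f i := by
  classical
  obtain ⟨p, hp⟩ := exists_dense_seq C(ℝ, ℝ)
  refine ⟨fun n i => if 0 < p n (j i) then 1 else 0, fun s f => ?_⟩
  let c : I → ℝ := fun i => if f i = 0 then -1 else 1
  obtain ⟨n, hn⟩ := hp.exists_mem_open (s := ⋂ i ∈ s, {h : C(ℝ, ℝ) | 0 < c i * h (j i)})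
    (isOpen_biInter_finset fun i _ => isOpen_lt continuous_const (by fun_prop))
    ⟨⟨fun r => (Lagrange.interpolate s j c).eval r, by fun_prop⟩, mem_iInter₂.2 fun i hi => by
      have := Lagrange.eval_interpolate_at_node (s := s) (v := j) c hj.injOn hi
      simp only [mem_setOf_eq, ContinuousMap.coe_mk, this, c]
      split_ifs <;> norm_num⟩
  refine ⟨n, fun i hi => ?_⟩
  have h1 : 0 < c i * p n (j i) := mem_iInter₂.1 hn i hi
  have h2 : ∀ x : F, x ≠ 0 → 1 = x := by decide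
  beta_reduce
  by_cases h : f i = 0
  · simp only [c, if_pos h] at h1
    rw [if_neg (by linarith), h]
  · simp only [c, if_neg h] at h1
    rw [if_pos (by linarith), h2 _ h]

theorem big {I : Type} (j : W → I) (hj : Injective j) (d : I → F) :
    #(W → F) ≤ #{y : I → F | ∀ i ∉ range j, y i = d i} :=
  mk_le_of_injective (f := fun x => ⟨extend j x d, fun _ hi => extend_apply' _ _ _ hi⟩)
    fun _ _ e => extend_injective hj d (congrArg Subtype.val e)

/-- pairing -/
noncomputable def pr (x : W → F) : (W →₀ F) →ₗ[F] F := Finsupp.linearCombination F x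

theorem pr_cont (a : W →₀ F) : Continuous fun x => pr x a := by
  simp only [pr, Finsupp.linearCombination_apply, Finsupp.sum]
  fun_prop

/-- annihilator -/
noncomputable def ann (S : Set (W → F)) : Submodule F (W →₀ F) := ⨅ x ∈ S, LinearMap.ker (pr x)

theorem mem_ann {S : Set (W → F)} {a : W →₀ F} : a ∈ ann S ↔ ∀ x ∈ S, pr x a = 0 := by
  simp [ann]

theorem bipolar (S : Submodule F (W → F)) {x : W → F} (hx : ∀ a ∈ ann S, pr x a = 0) :
    x ∈ closure (S : Set (W → F)) := by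
  classical
  refine mem_closure_iff.2 fun O hO hxO => ?_
  obtain ⟨s, u, h1, h2⟩ := isOpen_pi_iff.1 hO _ hxO
  let ρ : (W → F) →ₗ[F] (s → F) := LinearMap.funLeft F F Subtype.val
  by_cases h : ρ x ∈ S.map ρ
  · obtain ⟨y, h3, h4⟩ := h
    exact ⟨y, h2 fun a ha => (show x a = y a from (congrFun h4 ⟨a, ha⟩).symm) ▸ (h1 a ha).2, h3⟩
  obtain ⟨φ, h3, h4⟩ := Submodule.exists_le_ker_of_notMem h
  have h5 : ∀ y, pr y (∑ a : s, Finsupp.single a.1 (φ fun b => if a = b then 1 else 0)) = φ (ρ y) := fun y => by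
    rw [LinearMap.pi_apply_eq_sum_univ φ]
    simp [pr, ρ, mul_comm]
  exact (h3 (h5 x ▸ hx _ (mem_ann.2 fun y hy => (h5 y).trans (h4 ⟨y, hy, rfl⟩)))).elim

theorem mk_D : #(W →₀ F) = ℵ₁ := by
  rw [mk_finsupp_of_infinite, mk_W]
  exact max_eq_left ((lt_aleph0_of_finite _).le.trans (aleph0_le_aleph 1))

theorem struct (N : Submodule F (W →₀ F)) : ∃ (I : Type) (ψ : (I → F) → W → F), #I ≤ ℵ₁ ∧
    Continuous ψ ∧ Injective ψ ∧ range ψ = {x | ∀ a ∈ N, pr x a = 0} := by
  let b := Module.Basis.ofVectorSpace F ((W →₀ F) ⧸ N)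
  have h1 : ∀ y a, pr (fun α => b.constr F y (N.mkQ (Finsupp.single α 1))) a =
      b.constr F y (N.mkQ a) := fun y a =>
    LinearMap.congr_fun (f := pr _) (g := b.constr F y ∘ₗ N.mkQ) (by ext α; simp [pr]) a
  refine ⟨_, fun y α => b.constr F y (N.mkQ (Finsupp.single α 1)), ?_, continuous_pi fun α => ?_,
    fun y y' e => funext fun i => ?_, Subset.antisymm ?_ fun x hx => ?_⟩
  · exact (mk_set_le _).trans ((mk_le_of_surjective N.mkQ_surjective).trans mk_D.le)
  · simp only [Module.Basis.constr_apply, Finsupp.sum]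
    fun_prop
  · obtain ⟨a, ha⟩ := N.mkQ_surjective (b i)
    have := (h1 y a).symm.trans ((congrArg (pr · a) e).trans (h1 y' a))
    simpa only [ha, Module.Basis.constr_basis] using this
  · rintro _ ⟨y, rfl⟩ a ha
    rw [h1, N.mkQ_apply, (Submodule.Quotient.mk_eq_zero N).2 ha, map_zero]
  · refine ⟨fun i => N.liftQ (pr x) hx (b i), funext fun α => ?_⟩
    beta_reduce
    rw [b.constr_self F]
    simp [pr]

theorem fam (N : Submodule F (W →₀ F)) : ∃ A : ℕ × ℕ → Set (W → F), (∀ z, #(W → F) ≤ #(A z)) ∧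
    ∀ (G : Set (W → F)) (v : ℕ × ℕ → W → F), (∀ z, v z ∈ A z ∧ v z ∈ G) →
      SeparableSpace ↥(G ∩ {x | ∀ a ∈ N, pr x a = 0}) := by
  obtain ⟨I, ψ, h1, h2, h3, h4⟩ := struct N
  rw [← h4]
  by_cases hI : Countable I
  · refine ⟨fun _ => univ, fun _ => mk_univ.ge, fun G _ _ => ?_⟩
    refine DenseRange.separableSpace (f := fun y : ψ ⁻¹' G => ⟨ψ y, y.2, y, rfl⟩)
      (Surjective.denseRange ?_) (by fun_prop)
    rintro ⟨_, h, y, rfl⟩
    exact ⟨⟨y, h⟩, rfl⟩
  obtain ⟨e⟩ : Nonempty (ℕ × W ≃ I) := by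
    rw [← Cardinal.eq, mk_prod, mk_W]
    simpa [max_eq_right (aleph0_le_aleph 1)] using
      (aleph_one_le_iff.2 (aleph0_lt_mk_iff.2 ⟨hI⟩)).antisymm h1
  obtain ⟨r⟩ : Nonempty (I ↪ ℝ) := by
    rw [← Cardinal.le_def, mk_real]
    exact h1.trans aleph_one_le_continuum
  obtain ⟨d, hd⟩ := sepF r r.injective
  refine ⟨fun z => ψ '' {y | ∀ i ∉ range fun α => e (z.2, α), y i = d z.1 i}, fun z => ?_,
    fun G v hv => ?_⟩
  · rw [mk_image_eq h3]
    exact big _ (fun a b h => congrArg Prod.snd (e.injective h)) _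
  choose y y1 y2 using fun z => (hv z).1
  have h5 : DenseRange y := dense_iff_inter_open.2 fun O hO ⟨x, hx⟩ => by
    obtain ⟨s, u, h6, h7⟩ := isOpen_pi_iff.1 hO _ hx
    obtain ⟨n, hn⟩ := hd s x
    obtain ⟨k, hk⟩ := (s.finite_toSet.image fun i => (e.symm i).1).exists_notMem
    refine ⟨_, h7 fun i hi => ?_, (n, k), rfl⟩
    rw [y1 _ i, hn i hi]
    · exact (h6 i hi).2
    · rintro ⟨α, rfl⟩
      exact hk ⟨_, hi, by simp⟩
  refine ⟨⟨range fun z => ⟨v z, (hv z).2, y z, y2 z⟩, countable_range _, Subtype.dense_iff.2 ?_⟩⟩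
  rintro _ ⟨-, x, rfl⟩
  refine closure_mono ?_ (image_closure_subset_closure_image h2 ⟨x, h5 x, rfl⟩)
  rintro _ ⟨_, ⟨z, rfl⟩, rfl⟩
  exact ⟨_, ⟨z, rfl⟩, (y2 z).symm⟩

theorem nb {G : Submodule F (W → F)} {U : Set G} (hU : IsOpen U) {g : G} (hg : g ∈ U) :
    ∃ s : Finset W, ∀ h : G, (∀ α ∈ s, h.1 α = g.1 α) → h ∈ U := by
  obtain ⟨O, h1, rfl⟩ := hU
  obtain ⟨s, u, h3, h4⟩ := isOpen_pi_iff.1 h1 g.1 hg
  exact ⟨s, fun z hz => h4 fun α h => hz α h ▸ (h3 α h).2⟩

theorem pc (G : Submodule F (W → F)) (h1 : ∀ x, (support x).Finite → x ∈ G)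
    (h2 : ∀ (x : W → F) (β : W), ∃ g ∈ G, ∀ α < β, g α = x α) (f : G → ℝ) (hf : Continuous f) :
    ∃ C : ℝ, ∀ x, |f x| ≤ C := by
  classical
  by_contra h
  push Not at h
  choose g hg using fun n : ℕ => h n
  choose s hs using fun n : ℕ => nb (isOpen_lt continuous_const hf.abs) (hg n)
  have hx := tendsto_pi_nhds.1 ((hyperfilter ℕ).map fun n => (g n).1).le_nhds_lim
  simp only [nhds_discrete, tendsto_pure] at hx
  obtain ⟨β, hβ⟩ := exists_bound (countable_iUnion fun n => (s n).countable_toSet)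
  obtain ⟨g0, h3, h4⟩ := h2 ((hyperfilter ℕ).map fun n => (g n).1).lim β
  obtain ⟨t, ht⟩ := nb (isOpen_lt hf.abs continuous_const) (lt_add_one |f ⟨g0, h3⟩|)
  obtain ⟨n, h5, h6⟩ := (((eventually_all_finset t).2 fun α _ => hx α).and
    (Nat.hyperfilter_le_atTop (tendsto_natCast_atTop_atTop.eventually_ge_atTop
      (|f ⟨g0, h3⟩| + 1)))).exists
  let y : G := g n + ⟨fun α => if α ∈ t \ s n then g0 α - (g n).1 α else 0, h1 _
    ((t \ s n).finite_toSet.subset fun α hα => by_contra fun h => hα (if_neg h))⟩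
  have h7 : (n : ℝ) < |f y| := hs n y fun α hα => by simp [y, hα]
  have h8 : |f y| < |f ⟨g0, h3⟩| + 1 := ht y fun α hα => by
    by_cases h : α ∈ s n
    · simpa [y, h] using (h5 α hα).trans (h4 α (hβ α (mem_iUnion.2 ⟨n, h⟩))).symm
    · simp [y, h, hα]
  exact (h7.trans h8).not_ge h6

/-- finitely supported functions -/
def σ : Submodule F (W → F) where
  carrier := {x | (support x).Finite}
  zero_mem' := by simp
  add_mem' := fun h h' => (h.union h').subset (support_add _ _)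
  smul_mem' := fun c x h => h.subset (support_const_smul_subset c x)

theorem mk_K : #(W → F) = 2 ^ ℵ₁ := by simp [mk_W]

theorem mk_σ : #σ < #(W → F) := by
  rw [mk_K]
  exact ((mk_le_of_surjective (f := fun a : W →₀ F => (⟨a, a.finite_support⟩ : σ)) fun x =>
    ⟨Finsupp.ofSupportFinite x.1 x.2, rfl⟩).trans mk_D.le).trans_lt (cantor _)

theorem sig : IsSigmaCompact (σ : Set (W → F)) := by
  refine ⟨fun n => {x | ∀ s : Finset W, n < s.card → ∃ α ∈ s, x α = 0}, fun n =>
    IsClosed.isCompact ?_, Subset.antisymm (iUnion_subset fun n x hx => ?_) fun x hx => ?_⟩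
  · simp only [setOf_forall]
    refine isClosed_iInter fun s => isClosed_iInter fun _ => ?_
    have := isClosed_biUnion_finset (s := s) fun α _ =>
      isClosed_eq (continuous_apply (A := fun _ => F) α) (continuous_const (y := 0))
    convert this using 1
    ext; simp
  · by_contra h
    obtain ⟨s, h1, h2⟩ := Set.Infinite.exists_subset_card_eq h (n + 1)
    obtain ⟨α, h3, h4⟩ := hx s (by omega)
    exact h1 h3 h4
  · refine mem_iUnion.2 ⟨(Finite.toFinset hx).card, fun s hs => by_contra fun h => ?_⟩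
    push Not at h
    exact hs.not_ge (Finset.card_le_card fun α hα => (Finite.mem_toFinset hx).2 (h α hα))

theorem sep (G : Submodule F (W → F))
    (h : ∀ N : Submodule F (W →₀ F), SeparableSpace ↥(↑G ∩ {x | ∀ a ∈ N, pr x a = 0}))
    (S : Subgroup (Multiplicative G)) (hS : IsClosed (S : Set (Multiplicative G))) :
    SeparableSpace S := by
  let T : Submodule F (W → F) :=
    { carrier := {x | ∃ h : x ∈ G, Multiplicative.ofAdd (⟨x, h⟩ : G) ∈ S}
      zero_mem' := ⟨G.zero_mem, S.one_mem⟩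
      add_mem' := fun ⟨h1, h2⟩ ⟨h3, h4⟩ => ⟨G.add_mem h1 h3, S.mul_mem h2 h4⟩
      smul_mem' := fun c x h => by
        rcases (by decide : ∀ c : F, c = 0 ∨ c = 1) c with rfl | rfl
        · rw [zero_smul]; exact ⟨G.zero_mem, S.one_mem⟩
        · rwa [one_smul] }
  have := h (ann T)
  have h1 : ∀ x : ↥(↑G ∩ {x | ∀ a ∈ ann T, pr x a = 0}),
      Multiplicative.ofAdd (⟨x.1, x.2.1⟩ : G) ∈ S := fun x => by
    obtain ⟨C, h2, h3⟩ := isClosed_induced_iff.1 hS
    have h4 : (T : Set (W → F)) ⊆ C := fun y ⟨h5, h6⟩ => (Set.ext_iff.1 h3 ⟨y, h5⟩).2 h6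
    exact (Set.ext_iff.1 h3 ⟨x.1, x.2.1⟩).1 (closure_minimal h4 h2 (bipolar T x.2.2))
  refine DenseRange.separableSpace (f := fun x => (⟨_, h1 x⟩ : S)) (Surjective.denseRange ?_)
    (Continuous.subtype_mk (continuous_ofAdd.comp (continuous_subtype_val.subtype_mk _)) _)
  exact fun g => ⟨⟨g.1.toAdd.1, g.1.toAdd.2, fun a ha => mem_ann.1 ha _ ⟨_, g.2⟩⟩, rfl⟩

theorem exG : ∃ G : Bool → Submodule F (W → F), (∀ b, σ ≤ G b) ∧ G false ⊓ G true ≤ σ ∧
    (∀ b (x : W → F) (β : W), ∃ g ∈ G b, ∀ α < β, g α = x α) ∧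
    ∀ b (N : Submodule F (W →₀ F)), SeparableSpace ↥(↑(G b) ∩ {x | ∀ a ∈ N, pr x a = 0}) := by
  choose A A1 A2 using fam
  have h0 : ℵ₀ < #(W → F) := mk_K ▸ aleph0_lt_aleph_one.trans (cantor _)
  have h1 : #(Submodule F (W →₀ F)) ≤ #(W → F) :=
    (mk_le_of_injective SetLike.coe_injective).trans (by rw [mk_set, mk_D, mk_K])
  have h2 : #W ≤ #(W → F) := by rw [mk_K, mk_W]; exact (cantor _).le
  obtain ⟨v, v1, v2⟩ := indep σ h0 mk_σ
    (J := ((Submodule F (W →₀ F) × ℕ × ℕ) ⊕ ((W → F) × W)) × Bool) (by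
      simp only [mk_prod, mk_sum, lift_id]
      exact mul_le_of_le h0.le (add_le_of_le h0.le (mul_le_of_le h0.le h1 (by simpa using h0.le))
        (mul_le_of_le h0.le le_rfl h2)) ((lt_aleph0_of_finite _).trans h0).le)
    (fun j => j.1.elim (fun z => A z.1 z.2) fun z => {g | ∀ α < z.2, g α = z.1 α}) (by
      rintro ⟨z | z, b⟩
      · exact A1 _ _
      obtain ⟨j⟩ : Nonempty (W ↪ ((Iio z.2)ᶜ : Set W)) := by
        rw [← Cardinal.le_def, mk_W, aleph_one_le_iff, ← not_le, le_aleph0_iff_set_countable]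
        exact fun h => not_countable_univ (union_compl_self (Iio z.2) ▸ (countable_Iio _).union h)
      refine (big _ (Subtype.val_injective.comp j.injective) z.1).trans (mk_le_mk_of_subset ?_)
      rintro y hy α hα
      refine hy α ?_
      rintro ⟨a, rfl⟩
      exact (j a).2 hα)
  have h3 : ∀ b z, v (z, b) ∈ (Submodule.span F ((σ.mkQ ∘ v) '' {j | j.2 = b})).comap σ.mkQ :=
    fun b z => Submodule.subset_span ⟨_, rfl, rfl⟩
  refine ⟨fun b => (Submodule.span F ((σ.mkQ ∘ v) '' {j | j.2 = b})).comap σ.mkQ,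
    fun b => Submodule.le_comap_mkQ _ _, fun x hx => (Submodule.Quotient.mk_eq_zero σ).1 ?_,
    fun b x β => ⟨_, h3 b (.inr (x, β)), v1 (.inr (x, β), b)⟩, fun b N =>
      A2 N _ (fun z => v (.inl (N, z), b)) fun z => ⟨v1 (.inl (N, z), b), h3 b _⟩⟩
  exact Submodule.disjoint_def.1 (v2.disjoint_span_image (disjoint_left.2 fun j h h' =>
    Bool.false_ne_true (h.symm.trans h'))) _ hx.1 hx.2

theorem main : ∃ (G H : Type) (_ : TopologicalSpace G) (_ : CommGroup G) (_ : IsTopologicalGroup G)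
      (_ : T2Space G) (_ : TopologicalSpace H) (_ : CommGroup H) (_ : IsTopologicalGroup H)
      (_ : T2Space H),
      (∀ f : G → ℝ, Continuous f → ∃ C : ℝ, ∀ x, |f x| ≤ C) ∧
      (∀ f : H → ℝ, Continuous f → ∃ C : ℝ, ∀ x, |f x| ≤ C) ∧
      (∀ S : Subgroup G, IsClosed (S : Set G) → SeparableSpace ↥S) ∧
      (∀ S : Subgroup H, IsClosed (S : Set H) → SeparableSpace ↥S) ∧
      ∃ S : Subgroup (G × H), IsClosed (S : Set (G × H)) ∧
        IsSigmaCompact (S : Set (G × H)) ∧ ¬ SeparableSpace ↥S := by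
  classical
  obtain ⟨G, h1, h2, h3, h4⟩ := exG
  let S : Subgroup (Multiplicative (G false) × Multiplicative (G true)) :=
    { carrier := {p | p.1.toAdd.1 = p.2.toAdd.1}
      one_mem' := rfl
      mul_mem' := fun h h' => congrArg₂ (· + ·) h h'
      inv_mem' := fun h => congrArg (- ·) h }
  have hσ : ∀ p ∈ S, p.1.toAdd.1 ∈ σ := fun p hp => h2 ⟨p.1.toAdd.2, hp ▸ p.2.toAdd.2⟩
  refine ⟨Multiplicative (G false), Multiplicative (G true), inferInstance, inferInstance,
    inferInstance, inferInstanceAs (T2Space (G false)), inferInstance, inferInstance, inferInstance,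
    inferInstanceAs (T2Space (G true)), pc _ (h1 _) (h3 _), pc _ (h1 _) (h3 _), sep _ (h4 _),
    sep _ (h4 _), S, isClosed_eq (continuous_subtype_val.comp continuous_fst)
      (continuous_subtype_val.comp continuous_snd), ?_, fun ⟨D, h5, h6⟩ => ?_⟩
  · refine (IsInducing.isSigmaCompact_iff (f := Prod.map (Subtype.val : G false → _)
      (Subtype.val : G true → _)) (IsInducing.subtypeVal.prodMap IsInducing.subtypeVal)).2 ?_
    convert sig.image (f := fun x => (x, x)) (by fun_prop) using 1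
    refine Subset.antisymm ?_ ?_
    · rintro _ ⟨p, hp, rfl⟩
      exact ⟨_, hσ p hp, Prod.ext rfl hp⟩
    · rintro _ ⟨x, hx, rfl⟩
      exact ⟨(⟨x, h1 _ hx⟩, ⟨x, h1 _ hx⟩), rfl, rfl⟩
  obtain ⟨α, hα⟩ := exists_bound (h5.biUnion fun p _ => Finite.countable (hσ p.1 p.2))
  have h7 : Pi.single α 1 ∈ σ := (finite_singleton α).subset Pi.support_single_subset
  obtain ⟨p, h8, h9⟩ := h6.inter_open_nonempty {p : S | p.1.1.toAdd.1 α ≠ 0}
    (isOpen_ne_fun ((continuous_apply α).comp (continuous_subtype_val.comp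
      (continuous_fst.comp continuous_subtype_val))) continuous_const)
    ⟨⟨(⟨_, h1 _ h7⟩, ⟨_, h1 _ h7⟩), rfl⟩, (Pi.single_eq_same (M := fun _ => F) α 1).trans_ne one_ne_zero⟩
  exact (hα α (mem_biUnion h9 h8)).false

end Pool.Agent.H31.NS
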