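import Pool.Agent.H31.HCDefs
import Pool.Agent.H31.NS

namespace Pool.Agent.H31.HC

open Set Filter Topology Cardinal TopologicalSpace Omega1

universe u

lemma free {K : Type u} [TopologicalSpace K] [CompactSpace K] [T2Space K] (p : K)
    (hp : ∀ O : Set (Set K), O.Countable → (∀ V ∈ O, IsOpen V ∧ V.Nonempty) →
      ∃ U ∈ 𝓝 p, ∀ V ∈ O, ¬ V ⊆ U) : ¬ HCLe K ℵ₀ := by
  classical
  have : ∀ O : Set (Set K), ∃ a : Set K × Set K, IsOpen a.1 ∧ IsOpen a.2 ∧ p ∈ a.1 ∧
      Disjoint (closure a.1) (closure a.2) ∧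
      (O.Countable → (∀ V ∈ O, IsOpen V ∧ V.Nonempty) → ∀ V ∈ O, (V ∩ a.2).Nonempty) := by
    intro O
    by_cases h : O.Countable ∧ ∀ V ∈ O, IsOpen V ∧ V.Nonempty
    · obtain ⟨U, hU, h2⟩ := hp O h.1 h.2
      obtain ⟨C, hC, hCc, hCU⟩ := exists_mem_nhds_isClosed_subset hU
      obtain ⟨D, hD, hDc, hDC⟩ := exists_mem_nhds_isClosed_subset (interior_mem_nhds.2 hC)
      refine ⟨(interior D, Cᶜ), isOpen_interior, hCc.isOpen_compl, mem_interior_iff_mem_nhds.2 hD,
        ?_, fun _ _ V hV => ?_⟩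
      · rw [closure_compl]
        exact Disjoint.mono_left ((closure_minimal interior_subset hDc).trans hDC)
          disjoint_compl_right
      · obtain ⟨z, h3, h4⟩ := not_subset.1 (h2 V hV)
        exact ⟨z, h3, fun h => h4 (hCU h)⟩
    · exact ⟨(univ, ∅), isOpen_univ, isOpen_empty, trivial, by simp, fun a b => absurd ⟨a, b⟩ h⟩
  choose ch h1 h2 h3 h4 h5 using this
  let F : W → Set K × Set K := (wellFounded_lt (α := W)).fix fun b r =>
    ch {V | V.Nonempty ∧ ∃ s t : Finset (Iio b), V = (⋂ a ∈ s, (r a.1 a.2).1) ∩ ⋂ a ∈ t, (r a.1 a.2).2}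
  have hF : ∀ b, F b = ch {V | V.Nonempty ∧ ∃ s t : Finset (Iio b),
      V = (⋂ a ∈ s, (F a.1).1) ∩ ⋂ a ∈ t, (F a.1).2} := fun b => WellFounded.fix_eq _ _ b
  clear_value F
  have o1 : ∀ b, IsOpen (F b).1 := fun b => by rw [hF]; exact h1 _
  have o2 : ∀ b, IsOpen (F b).2 := fun b => by rw [hF]; exact h2 _
  have o3 : ∀ b, p ∈ (F b).1 := fun b => by rw [hF]; exact h3 _
  have o4 : ∀ b, Disjoint (closure (F b).1) (closure (F b).2) := fun b => by rw [hF]; exact h4 _
  have o5 : ∀ b, ∀ s t : Finset W, (∀ a ∈ s, a < b) → (∀ a ∈ t, a < b) →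
      ((⋂ a ∈ s, (F a).1) ∩ ⋂ a ∈ t, (F a).2).Nonempty →
      (((⋂ a ∈ s, (F a).1) ∩ ⋂ a ∈ t, (F a).2) ∩ (F b).2).Nonempty := by
    intro b s t hs ht hne
    rw [hF b]
    haveI := (countable_Iio b).to_subtype
    apply h5
    · exact (countable_range fun q : Finset (Iio b) × Finset (Iio b) =>
        (⋂ a ∈ q.1, (F a.1).1) ∩ ⋂ a ∈ q.2, (F a.1).2).mono
        (by rintro V ⟨_, s, t, h⟩; exact ⟨(s, t), h.symm⟩)
    · rintro V ⟨h, s, t, rfl⟩
      exact ⟨(isOpen_biInter_finset fun a _ => o1 _).inter (isOpen_biInter_finset fun a _ => o2 _), h⟩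
    · refine ⟨hne, s.subtype _, t.subtype _, ?_⟩
      ext z
      simp only [mem_inter_iff, mem_iInter, Finset.mem_subtype, Subtype.forall]
      exact ⟨fun h => ⟨fun a _ ha => h.1 a ha, fun a _ ha => h.2 a ha⟩,
        fun h => ⟨fun a ha => h.1 a (hs a ha) ha, fun a ha => h.2 a (ht a ha) ha⟩⟩
  have o6 : ∀ s t : Finset W, (∀ a ∈ s, ∀ b ∈ t, a < b) →
      ((⋂ a ∈ s, (F a).1) ∩ ⋂ a ∈ t, (F a).2).Nonempty := by
    intro s t
    induction t using Finset.induction_on_max with
    | empty => exact fun _ => ⟨p, mem_iInter₂.2 fun a _ => o3 a, by simp⟩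
    | insert b t hb ih =>
      intro h
      obtain ⟨z, ⟨z1, z2⟩, z3⟩ := o5 b s t (fun a ha => h a ha b (Finset.mem_insert_self _ _)) hb
        (ih fun a ha c hc => h a ha c (Finset.mem_insert_of_mem hc))
      refine ⟨z, z1, mem_iInter₂.2 fun a ha => ?_⟩
      rcases Finset.mem_insert.1 ha with rfl | ha
      · exact z3
      · exact mem_iInter₂.1 z2 a ha
  have o7 : ∀ c : W, ∃ z, ∀ b, (b ≤ c → z ∈ closure (F b).1) ∧ (c < b → z ∈ closure (F b).2) := by
    intro c
    have := isCompact_univ.inter_iInter_nonempty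
      (fun b => if b ≤ c then closure (F b).1 else closure (F b).2)
      (fun b => by split_ifs <;> exact isClosed_closure) (fun u => by
        obtain ⟨z, z1, z2⟩ := o6 (u.filter (· ≤ c)) (u.filter (c < ·)) fun a ha b hb =>
          (Finset.mem_filter.1 ha).2.trans_lt (Finset.mem_filter.1 hb).2
        refine ⟨z, trivial, mem_iInter₂.2 fun b hb => ?_⟩
        split_ifs with h
        · exact subset_closure (mem_iInter₂.1 z1 b (Finset.mem_filter.2 ⟨hb, h⟩))
        · exact subset_closure (mem_iInter₂.1 z2 b (Finset.mem_filter.2 ⟨hb, not_le.1 h⟩)))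
    obtain ⟨z, -, hz⟩ := this
    refine ⟨z, fun b => ⟨fun h => ?_, fun h => ?_⟩⟩
    · simpa [h] using mem_iInter.1 hz b
    · simpa [not_le.2 h] using mem_iInter.1 hz b
  choose x hx using o7
  have nx : ∀ c : W, ∃ d, c < d ∧ ∀ e, c < e → d ≤ e := fun c => by
    obtain ⟨b, hb⟩ := exists_bound (countable_singleton c)
    obtain ⟨d, hd, hm⟩ := (wellFounded_lt (α := W)).has_min (Ioi c) ⟨b, hb c rfl⟩
    exact ⟨d, hd, fun e he => not_lt.1 (hm e he)⟩
  choose sc hs1 hs2 using nx
  let U : W → Set K := fun c => (closure (F c).2)ᶜ ∩ (closure (F (sc c)).1)ᶜ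
  have hU : ∀ c d, x d ∈ U c ↔ d = c := by
    intro c d
    constructor
    · rintro ⟨a1, a2⟩
      rcases lt_trichotomy d c with h | h | h
      · exact absurd ((hx d c).2 h) a1
      · exact h
      · exact absurd ((hx d _).1 (hs2 c d h)) a2
    · rintro rfl
      exact ⟨Set.disjoint_left.1 (o4 d) ((hx d d).1 le_rfl),
        Set.disjoint_right.1 (o4 _) ((hx d _).2 (hs1 d))⟩
  intro h
  let V : W → Set (range x) := fun c => Subtype.val ⁻¹' U c
  have hV : Function.Injective V := fun c d e => by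
    have : (⟨x c, c, rfl⟩ : range x) ∈ V c := (hU c c).2 rfl
    rw [e] at this
    exact (hU d c).1 this
  have := h (range x) (range V) (by
    rintro _ ⟨c, rfl⟩
    exact ⟨(isClosed_closure.isOpen_compl.inter isClosed_closure.isOpen_compl).preimage
      continuous_subtype_val, ⟨x c, c, rfl⟩, (hU c c).2 rfl⟩) (by
    rintro _ ⟨c, rfl⟩ _ ⟨d, rfl⟩ hne
    refine Set.disjoint_left.2 ?_
    rintro ⟨_, e, rfl⟩ a1 a2
    exact hne (by rw [← (hU c e).1 a1, ← (hU d e).1 a2]))
  have hc : Countable W := by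
    have h3 : (range V).Countable := le_aleph0_iff_set_countable.1 this
    have := h3.to_subtype
    exact (show Function.Injective (rangeFactorization V) from
      fun a b e => hV (congrArg Subtype.val e)).countable
  obtain ⟨b, hb⟩ := exists_bound (countable_univ (α := W))
  exact lt_irrefl b (hb b trivial)

theorem main : ∃ (X : Type) (_ : TopologicalSpace X), T35Space X ∧ Countable X ∧ HCLe X ℵ₀ ∧
    ∀ (K : Type u) [TopologicalSpace K] [CompactSpace K] [T2Space K] (e : X → K),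
      IsEmbedding e → DenseRange e → ¬ HCLe K ℵ₀ := by
  classical
  obtain ⟨d, hd⟩ := NS.sepF (I := ℝ) id Function.injective_id
  haveI : Countable (range d) := (countable_range d).to_subtype
  refine ⟨range d, inferInstance, inferInstance, inferInstance, fun Y U h1 h2 => ?_,
    fun K _ _ _ e he hde => ?_⟩
  · exact le_aleph0_iff_set_countable.2 (h2.countable_of_isOpen (fun V hV => (h1 V hV).1)
      fun V hV => (h1 V hV).2)
  apply free (e ⟨d 0, 0, rfl⟩)
  intro O hO h
  have : ∀ V ∈ O, ∃ (s : Finset ℝ) (f : ℝ → NS.F), ∀ y : range d, (∀ i ∈ s, y.1 i = f i) →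
      e y ∈ V := by
    intro V hV
    obtain ⟨y, hy⟩ := hde.exists_mem_open (h V hV).1 (h V hV).2
    obtain ⟨G, hG, e1⟩ := isOpen_induced_iff.1 ((h V hV).1.preimage he.continuous)
    obtain ⟨s, u, h1, h2⟩ := isOpen_pi_iff.1 hG y.1 (by rw [← mem_preimage, ← e1] at hy; exact hy)
    refine ⟨s, y.1, fun z hz => ?_⟩
    rw [← mem_preimage, ← e1]
    exact h2 fun i hi => by rw [hz i hi]; exact (h1 i hi).2
  choose! s f hsf using this
  obtain ⟨a, ha⟩ : ∃ a : ℝ, a ∉ ⋃ V ∈ O, (s V : Set ℝ) := by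
    by_contra hcon
    push Not at hcon
    exact not_countable_real ((hO.biUnion fun V _ => (s V).countable_toSet).mono fun a _ => hcon a)
  obtain ⟨U, hU, e1⟩ := he.isInducing.isOpen_iff.1
    (show IsOpen {y : range d | y.1 a = d 0 a} from
      IsOpen.preimage (f := fun y : range d => y.1 a)
        ((continuous_apply a).comp continuous_subtype_val) (isOpen_discrete {d 0 a}))
  refine ⟨U, hU.mem_nhds (by rw [← mem_preimage, e1]; rfl), fun V hV hs => ?_⟩
  obtain ⟨n, hn⟩ := hd (insert a (s V)) (Function.update (f V) a (d 0 a + 1))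
  have h1 := hs (hsf V hV ⟨d n, n, rfl⟩ fun i hi => by
    have : i ≠ a := fun h => ha (mem_iUnion₂.2 ⟨V, hV, h ▸ hi⟩)
    simp only
    rw [hn i (Finset.mem_insert_of_mem hi), Function.update_of_ne this])
  rw [← mem_preimage, e1] at h1
  have h2 : d n a = d 0 a := h1
  rw [hn a (Finset.mem_insert_self _ _), Function.update_self] at h2
  simp at h2

end Pool.Agent.H31.HC
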