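import Mathlib

namespace Pool.Agent.H31.HC

universe u

/-- `cc(X) ≤ τ`: in every subspace, every family of pairwise disjoint nonempty open sets has
cardinality at most `τ`. -/
def HCLe (X : Type u) [TopologicalSpace X] (τ : Cardinal.{u}) : Prop :=
  ∀ (Y : Set X) (U : Set (Set Y)), (∀ V ∈ U, IsOpen V ∧ V.Nonempty) → U.PairwiseDisjoint id →
    Cardinal.mk U ≤ τ

end Pool.Agent.H31.HC
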