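import Pool.Agent.H31.KSp2

namespace Pool.Agent.H31.HMV

open Set Filter Topology Pointwise TSp MeasureTheory TopologicalSpace

universe u v

def fr (E : Type v) [AddCommGroup E] [Module ℝ E] : Submodule ℝ (ℝ → E) where
  carrier := {s | (range s).Finite}
  add_mem' := by
    intro a b ha hb
    refine (Set.Finite.image2 (· + ·) ha hb).subset ?_
    rintro _ ⟨t, rfl⟩
    exact ⟨a t, ⟨t, rfl⟩, b t, ⟨t, rfl⟩, rfl⟩
  zero_mem' := (finite_singleton 0).subset (by rintro _ ⟨t, rfl⟩; rfl)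
  smul_mem' := by
    intro c a ha
    refine (Set.Finite.image (c • ·) ha).subset ?_
    rintro _ ⟨t, rfl⟩
    exact ⟨a t, ⟨t, rfl⟩, rfl⟩

def HM (E : Type v) [AddCommGroup E] [Module ℝ E] : Type v := fr E

variable {E : Type v} [AddCommGroup E] [Module ℝ E]

instance : AddCommGroup (HM E) := inferInstanceAs (AddCommGroup (fr E))
instance : Module ℝ (HM E) := inferInstanceAs (Module ℝ (fr E))

def HM.val (s : HM E) : ℝ → E := Subtype.val s

def bad (U : Set E) (s : HM E) : Set ℝ := {t | t ∈ Ico (0 : ℝ) 1 ∧ s.val t ∉ U}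

def NN (U : Set E) (ε : ENNReal) : Set (HM E) := {s | volume (bad U s) < ε}

theorem NN_of {U : Set E} {ε : ENNReal} (hε : 0 < ε) {s : HM E}
    (h : ∀ t ∈ Ico (0 : ℝ) 1, s.val t ∈ U) : s ∈ NN U ε := by
  have : bad U s = ∅ := eq_empty_of_forall_notMem fun t ht => ht.2 (h t ht.1)
  show volume (bad U s) < ε
  rw [this, measure_empty]
  exact hε

theorem NN_mono {U U' : Set E} {ε ε' : ENNReal} {s s' : HM E} (hε : ε ≤ ε')
    (h : ∀ t, s.val t ∈ U → s'.val t ∈ U') (hs : s ∈ NN U ε) : s' ∈ NN U' ε' :=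
  lt_of_le_of_lt (measure_mono fun t ht => And.intro ht.1 fun h1 => ht.2 (h t h1))
    (lt_of_lt_of_le hs hε)

variable [TopologicalSpace E] [IsTopologicalAddGroup E] [ContinuousSMul ℝ E]

def basis (E : Type v) [AddCommGroup E] [Module ℝ E] [TopologicalSpace E]
    [IsTopologicalAddGroup E] [ContinuousSMul ℝ E] : ModuleFilterBasis ℝ (HM E) where
  sets := {S | ∃ U ∈ 𝓝 (0 : E), ∃ ε > (0 : ENNReal), S = NN U ε}
  nonempty := ⟨_, univ, univ_mem, 1, one_pos, rfl⟩
  inter_sets := by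
    rintro _ _ ⟨U, hU, ε, hε, rfl⟩ ⟨U', hU', ε', hε', rfl⟩
    exact ⟨_, ⟨U ∩ U', inter_mem hU hU', min ε ε', lt_min hε hε', rfl⟩, fun s hs =>
      ⟨NN_mono (min_le_left _ _) (fun t h => h.1) hs,
        NN_mono (min_le_right _ _) (fun t h => h.2) hs⟩⟩
  zero' := by
    rintro _ ⟨U, hU, ε, hε, rfl⟩
    exact NN_of hε fun t _ => mem_of_mem_nhds hU
  add' := by
    rintro _ ⟨U, hU, ε, hε, rfl⟩
    obtain ⟨W, hW, hWU⟩ := exists_nhds_zero_half hU
    refine ⟨_, ⟨W, hW, ε / 2, ENNReal.half_pos hε.ne', rfl⟩, ?_⟩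
    rintro _ ⟨a, ha, b, hb, rfl⟩
    have h1 : bad U (a + b) ⊆ bad W a ∪ bad W b := by
      intro t ht
      by_contra h
      rw [mem_union, not_or] at h
      refine ht.2 (hWU _ ?_ _ ?_)
      · by_contra h2; exact h.1 ⟨ht.1, h2⟩
      · by_contra h2; exact h.2 ⟨ht.1, h2⟩
    show volume (bad U (a + b)) < ε
    calc volume (bad U (a + b)) ≤ volume (bad W a) + volume (bad W b) :=
          (measure_mono h1).trans (measure_union_le _ _)
      _ < ε / 2 + ε / 2 := ENNReal.add_lt_add ha hb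
      _ = ε := ENNReal.add_halves ε
  neg' := by
    rintro _ ⟨U, hU, ε, hε, rfl⟩
    refine ⟨_, ⟨-U, neg_mem_nhds_zero E hU, ε, hε, rfl⟩, fun s hs =>
      NN_mono le_rfl (fun t h => h) hs⟩
  conj' := by
    rintro x₀ _ ⟨U, hU, ε, hε, rfl⟩
    exact ⟨_, ⟨U, hU, ε, hε, rfl⟩, fun v hv => by simpa using hv⟩
  smul' := by
    rintro _ ⟨U, hU, ε, hε, rfl⟩
    obtain ⟨W, ⟨hW, hWb⟩, hWU⟩ := (nhds_basis_balanced ℝ E).mem_iff.mp hU
    refine ⟨Metric.closedBall 0 1, Metric.closedBall_mem_nhds _ one_pos, _,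
      ⟨W, hW, ε, hε, rfl⟩, ?_⟩
    rintro _ ⟨c, hc, s, hs, rfl⟩
    exact NN_mono le_rfl (fun t h => hWU (hWb.smul_mem (by simpa using hc) h)) hs
  smul_left' := by
    rintro c _ ⟨U, hU, ε, hε, rfl⟩
    exact ⟨_, ⟨(fun v : E => c • v) ⁻¹' U,
      (continuous_const_smul c).continuousAt.preimage_mem_nhds (by simpa using hU), ε, hε, rfl⟩,
      fun s hs => NN_mono le_rfl (fun t h => h) hs⟩
  smul_right' := by
    rintro s _ ⟨U, hU, ε, hε, rfl⟩
    have h1 : ∀ᶠ c : ℝ in 𝓝 0, ∀ v ∈ range s.val, c • v ∈ U := by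
      rw [Set.Finite.eventually_all (show (range s.val).Finite from s.2)]
      intro v _
      have h2 : Tendsto (fun t : ℝ => t • v) (𝓝 0) (𝓝 0) := by
        simpa using (tendsto_id (x := 𝓝 (0 : ℝ))).smul_const v
      exact h2.eventually hU
    exact h1.mono fun c hc => NN_of hε fun t _ => hc _ ⟨t, rfl⟩

instance : TopologicalSpace (HM E) := (basis E).topology
instance : IsTopologicalAddGroup (HM E) := (basis E).toAddGroupFilterBasis.isTopologicalAddGroup
instance : ContinuousSMul ℝ (HM E) := (basis E).continuousSMul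

theorem tendsto_HM {α : Type*} {l : Filter α} {g : α → HM E} {s : HM E}
    (h : ∀ U ∈ 𝓝 (0 : E), ∀ ε > (0 : ENNReal), ∀ᶠ a in l, g a - s ∈ NN U ε) :
    Tendsto g l (𝓝 s) := by
  rw [← tendsto_sub_nhds_zero_iff]
  refine (basis E).toAddGroupFilterBasis.nhds_zero_hasBasis.tendsto_right_iff.mpr ?_
  rintro _ ⟨U, hU, ε, hε, rfl⟩
  exact h U hU ε hε

def cst : E →ₗ[ℝ] HM E where
  toFun v := ⟨fun _ => v, (finite_singleton v).subset (by rintro _ ⟨t, rfl⟩; rfl)⟩
  map_add' _ _ := rfl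
  map_smul' _ _ := rfl

theorem cst_ind : IsInducing (cst : E → HM E) := by
  rw [IsTopologicalAddGroup.isInducing_iff_nhds_zero]
  apply le_antisymm
  · rw [← map_le_iff_le_comap]
    refine tendsto_HM fun U hU ε hε => ?_
    filter_upwards [hU] with v hv
    exact NN_of hε fun t _ => by rw [sub_zero]; exact hv
  · intro U hU
    refine mem_comap.mpr ⟨NN U 1, (basis E).toAddGroupFilterBasis.mem_nhds_zero
      ⟨U, hU, 1, one_pos, rfl⟩, fun v hv => ?_⟩
    by_contra h
    have h1 : bad U (cst v) = Ico 0 1 := Set.ext fun t => ⟨fun ht => ht.1, fun ht => ⟨ht, h⟩⟩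
    have h2 : volume (bad U (cst v)) < 1 := hv
    rw [h1] at h2
    simp at h2

theorem extend {X : Type u} [MetricSpace X] {Y : Set X} (hY : IsClosed Y) (hne : Y.Nonempty)
    (j : Y → E) (hj : Continuous j) :
    ∃ G : X → HM E, Continuous G ∧ ∀ y : Y, G y = cst (j y) := by
  classical
  have hpos : ∀ z : ↥Yᶜ, 0 < Metric.infDist (z : X) Y := fun z =>
    (hY.notMem_iff_infDist_pos hne).mp z.2
  obtain ⟨b, hb⟩ := BumpCovering.exists_isSubordinate (X := ↥Yᶜ) isClosed_univ
    (fun k : ↥Yᶜ => Metric.ball k (Metric.infDist (k : X) Y / 2)) (fun _ => Metric.isOpen_ball)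
    (fun z _ => mem_iUnion.mpr ⟨z, Metric.mem_ball_self (half_pos (hpos z))⟩)
  have hy : ∀ k : ↥Yᶜ, ∃ y : Y, dist (k : X) y < 2 * Metric.infDist (k : X) Y := by
    intro k
    obtain ⟨y, hy, h⟩ := (Metric.infDist_lt_iff hne).mp
      (show Metric.infDist (k : X) Y < 2 * Metric.infDist (k : X) Y by have := hpos k; linarith)
    exact ⟨⟨y, hy⟩, h⟩
  choose y hy using hy
  let κ : ↥Yᶜ → ℝ → ↥Yᶜ := fun x t => @Classical.epsilon _ ⟨x⟩ (fun k => t < b k x)
  have hκ : ∀ x, ∀ t ∈ Ico (0 : ℝ) 1, t < b (κ x t) x := fun x t ht =>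
    Classical.epsilon_spec (p := fun k => t < b k x)
      ⟨b.ind x trivial, by rw [b.ind_apply]; exact ht.2⟩
  let g : ↥Yᶜ → HM E := fun x => ⟨fun t => if t ∈ Ico (0 : ℝ) 1 then j (y (κ x t)) else 0, by
    refine (((b.point_finite x).image fun k => j (y k)).insert 0).subset ?_
    rintro _ ⟨t, rfl⟩
    by_cases ht : t ∈ Ico (0 : ℝ) 1
    · exact Or.inr ⟨κ x t, (lt_of_le_of_lt ht.1 (hκ x t ht)).ne', by simp only [ht, if_true]⟩
    · exact Or.inl (by simp only [ht, if_false])⟩
  have hgv : ∀ x, ∀ t ∈ Ico (0 : ℝ) 1, (g x).val t = j (y (κ x t)) := fun x t ht => if_pos ht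
  have hg : Continuous g := by
    refine continuous_iff_continuousAt.mpr fun x₀ => tendsto_HM fun U hU ε hε => ?_
    obtain ⟨W, hW, hfin⟩ := b.locallyFinite x₀
    have h1 : Tendsto (fun x => ∑ k ∈ hfin.toFinset, ENNReal.ofReal |b k x - b k x₀|) (𝓝 x₀)
        (𝓝 0) := by
      have h2 : Continuous fun x => ∑ k ∈ hfin.toFinset, ENNReal.ofReal |b k x - b k x₀| :=
        continuous_finset_sum _ fun k _ => ENNReal.continuous_ofReal.comp (by fun_prop)
      simpa using h2.tendsto x₀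
    filter_upwards [h1.eventually (gt_mem_nhds hε), hW] with x hx hxW
    refine lt_of_le_of_lt ?_ hx
    have h3 : bad U (g x - g x₀) ⊆ ⋃ k ∈ hfin.toFinset, uIcc (b k x₀) (b k x) := by
      intro t ht
      by_contra hcon
      simp only [mem_iUnion, not_exists] at hcon
      have h4 : (fun k => t < b k x) = fun k => t < b k x₀ := by
        funext k
        apply propext
        by_cases hk : k ∈ hfin.toFinset
        · have h5 := hcon k hk
          rw [mem_uIcc, not_or, not_and_or, not_and_or] at h5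
          constructor
          · intro h6
            by_contra h7
            rcases h5.1 with h8 | h8
            · exact h8 (not_lt.mp h7)
            · exact h8 h6.le
          · intro h6
            by_contra h7
            rcases h5.2 with h8 | h8
            · exact h8 (not_lt.mp h7)
            · exact h8 h6.le
        · have h5 : b k x = 0 := by
            by_contra h6
            exact hk (hfin.mem_toFinset.mpr ⟨x, h6, hxW⟩)
          have h6 : b k x₀ = 0 := by
            by_contra h6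
            exact hk (hfin.mem_toFinset.mpr ⟨x₀, h6, mem_of_mem_nhds hW⟩)
          rw [h5, h6]
      have h5 : κ x t = κ x₀ t := by simp only [κ, h4]
      apply ht.2
      show (g x).val t - (g x₀).val t ∈ U
      rw [hgv x t ht.1, hgv x₀ t ht.1, h5, sub_self]
      exact mem_of_mem_nhds hU
    refine (measure_mono h3).trans ((measure_biUnion_finset_le _ _).trans (le_of_eq ?_))
    exact Finset.sum_congr rfl fun k _ => Real.volume_interval
  let G : X → HM E := fun x => if h : x ∈ Y then cst (j ⟨x, h⟩) else g ⟨x, h⟩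
  refine ⟨G, continuous_iff_continuousAt.mpr fun x₀ => ?_, fun y => dif_pos y.2⟩
  by_cases h0 : x₀ ∈ Y
  · refine tendsto_HM fun U hU ε hε => ?_
    have h1 : (fun y : Y => j y - j ⟨x₀, h0⟩) ⁻¹' U ∈ 𝓝 (⟨x₀, h0⟩ : Y) :=
      (hj.sub continuous_const).continuousAt.preimage_mem_nhds (by simpa using hU)
    obtain ⟨δ, hδ, h2⟩ := Metric.mem_nhds_iff.mp h1
    filter_upwards [Metric.ball_mem_nhds x₀ (show 0 < δ / 6 by positivity)] with x hx
    refine NN_of hε fun t ht => ?_
    show (G x).val t - (G x₀).val t ∈ U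
    have hx' : dist x x₀ < δ / 6 := hx
    have h3 : (G x₀).val t = j ⟨x₀, h0⟩ := by simp only [G, dif_pos h0]; rfl
    rw [h3]
    by_cases h4 : x ∈ Y
    · have h5 : (G x).val t = j ⟨x, h4⟩ := by simp only [G, dif_pos h4]; rfl
      rw [h5]
      exact h2 (show dist x x₀ < δ by linarith)
    · have h5 : (G x).val t = j (y (κ ⟨x, h4⟩ t)) := by
        simp only [G, dif_neg h4]; exact hgv _ t ht
      rw [h5]
      set k := κ ⟨x, h4⟩ t
      have h6 : dist x (k : X) < Metric.infDist (k : X) Y / 2 :=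
        hb k (subset_tsupport _ (lt_of_le_of_lt ht.1 (hκ ⟨x, h4⟩ t ht)).ne')
      have h7 : Metric.infDist (k : X) Y ≤ dist (k : X) x₀ := Metric.infDist_le_dist_of_mem h0
      have h8 := dist_triangle_left (k : X) x₀ x
      have h9 := dist_triangle_left (y k : X) x₀ k
      have h10 := hy k
      exact h2 (show dist (y k : X) x₀ < δ by linarith)
  · have h1 : Continuous (G ∘ (Subtype.val : ↥Yᶜ → X)) := by
      convert hg using 1
      funext x
      exact dif_neg x.2
    exact (hY.isOpen_compl.isOpenEmbedding_subtypeVal.continuousAt_iff (x := ⟨x₀, h0⟩)).mp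
      h1.continuousAt

theorem main {X : Type u} [TopologicalSpace X] [MetrizableSpace X] {Y : Set X} (hY : IsClosed Y)
    {V : Type v} [AddCommGroup V] [Module ℝ V] [TopologicalSpace V] [IsTopologicalAddGroup V]
    [ContinuousSMul ℝ V] [T2Space V] [T2Space E] (i : X → V) (hi : IsFreeTVS.{u, v, v} i)
    (j : Y → E) (hj : IsFreeTVS.{u, v, v} j) :
    ∃ T : E →L[ℝ] V, IsEmbedding T ∧ ∀ y : Y, T (j y) = i y := by
  letI := metrizableSpaceMetric X
  obtain ⟨T, hT, -⟩ := hj.2 V (fun y => i y) (hi.1.comp continuous_subtype_val)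
  refine ⟨T, IsInducing.isEmbedding ?_, hT⟩
  have hG : ∃ G : X → HM E, Continuous G ∧ ∀ y : Y, G y = cst (j y) := by
    rcases Y.eq_empty_or_nonempty with h | h
    · exact ⟨fun _ => 0, continuous_const, fun y => absurd y.2 (by simp [h])⟩
    · exact extend hY h j hj.1
  obtain ⟨G, hG, hGj⟩ := hG
  obtain ⟨Φ, hΦ, -⟩ := hi.2 (SeparationQuotient (HM E)) (fun x => SeparationQuotient.mk (G x))
    (SeparationQuotient.continuous_mk.comp hG)
  let Ψ : E →L[ℝ] SeparationQuotient (HM E) :=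
    (SeparationQuotient.mkCLM ℝ (HM E)).comp ⟨cst, cst_ind.continuous⟩
  obtain ⟨F, -, hF⟩ := hj.2 (SeparationQuotient (HM E)) (fun y => Ψ (j y))
    (Ψ.continuous.comp hj.1)
  have h1 : Φ.comp T = Ψ := (hF _ fun y => by
    simp only [ContinuousLinearMap.comp_apply, hT, hΦ, hGj]; rfl).trans (hF Ψ fun _ => rfl).symm
  have h2 : IsInducing (Φ ∘ T) := by
    rw [← ContinuousLinearMap.coe_comp', h1]
    exact SeparationQuotient.isInducing_mk.comp cst_ind
  exact IsInducing.of_comp T.continuous Φ.continuous h2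

end Pool.Agent.H31.HMV
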