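import Pool.Agent.H31.HilbDefs

set_option autoImplicit false

open Set Filter Topology

namespace Pool.Agent.H31.Hilb

abbrev E : Type := ℝ × ℝ

def Aff (f : E → ℝ) : Prop := ∃ a b c : ℝ, ∀ X, f X = a + b * X.1 + c * X.2

theorem Aff.comb {f g h : E → ℝ} (hf : Aff f) (hg : Aff g) (hh : Aff h) (x y z : ℝ) :
    Aff fun X => x * f X + y * g X + z * h X := by
  obtain ⟨a, b, c, h1⟩ := hf
  obtain ⟨a', b', c', h2⟩ := hg
  obtain ⟨a'', b'', c'', h3⟩ := hh
  exact ⟨x * a + y * a' + z * a'', x * b + y * b' + z * b'', x * c + y * c' + z * c'',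
    fun X => by simp only [h1, h2, h3]; ring⟩

theorem Aff.three {f : E → ℝ} (hf : Aff f) {x y z : ℝ} (h : x + y + z = 1) (P Q R : E) :
    f (x • P + y • Q + z • R) = x * f P + y * f Q + z * f R := by
  obtain ⟨a, b, c, h1⟩ := hf
  simp only [h1, Prod.fst_add, Prod.snd_add, Prod.smul_fst, Prod.smul_snd, smul_eq_mul]
  linear_combination (-a) * h

theorem Aff.ray {f : E → ℝ} (hf : Aff f) (O X : E) (t : ℝ) :
    f (O + t • (X - O)) = f O + t * (f X - f O) := by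
  obtain ⟨a, b, c, h1⟩ := hf
  simp only [h1, Prod.fst_add, Prod.snd_add, Prod.smul_fst, Prod.smul_snd, smul_eq_mul,
    Prod.fst_sub, Prod.snd_sub]
  ring

theorem Aff.line {f : E → ℝ} (hf : Aff f) {B C X : E} (hB : f B = 0) (hC : f C = 0)
    (hX : X ∈ affineSpan ℝ {B, C}) : f X = 0 := by
  obtain ⟨t, rfl⟩ := mem_affineSpan_pair_iff_exists_lineMap_eq.1 hX
  rw [AffineMap.lineMap_apply, vsub_eq_sub, vadd_eq_add, add_comm, hf.ray, hB, hC]
  ring

section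
variable {M : Set E} (hO : IsOpen M) (hc : Convex ℝ M) (hb : Bornology.IsBounded M)
  {d : E → E → ℝ} (hd : IsHilbertMetric M d) {O : E} (hOM : O ∈ M)
include hO hc hb hd hOM

theorem gauge_data : ∃ g : E → ℝ, Continuous g ∧ (∀ v, 0 ≤ g v) ∧
    (∀ X, X ∈ M ↔ g (X - O) < 1) ∧ (∀ v, v ≠ 0 → 0 < g v ∧ O + (g v)⁻¹ • v ∈ closure M) ∧
    ∀ X ∈ M, d O X = Real.log ((1 + g (O - X)) / (1 - g (X - O))) / 2 := by
  let s : Set E := (Homeomorph.addLeft O) ⁻¹' M
  have s1 : IsOpen s := hO.preimage (Homeomorph.addLeft O).continuous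
  have s2 : Convex ℝ s := hc.translate_preimage_right O
  have s3 : (0 : E) ∈ s := by simpa [s] using hOM
  have s4 : s ∈ 𝓝 (0 : E) := s1.mem_nhds s3
  have s5 : Bornology.IsVonNBounded ℝ s := by
    rw [NormedSpace.isVonNBounded_iff]
    exact (isometry_add_left O).antilipschitz.isBounded_preimage hb
  have hm : ∀ X, X ∈ M ↔ gauge s (X - O) < 1 := fun X => by
    rw [gauge_lt_one_iff_mem_interior s2 s4, s1.interior_eq]
    simp [s]
  have hf : ∀ v, v ≠ 0 → 0 < gauge s v ∧ O + (gauge s v)⁻¹ • v ∈ frontier M := fun v hv => by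
    have h1 := (gauge_pos (absorbent_nhds_zero s4) s5).2 hv
    refine ⟨h1, ?_⟩
    have h2 : (gauge s v)⁻¹ • v ∈ frontier s := by
      rw [← gauge_eq_one_iff_mem_frontier s2 s4, gauge_smul_of_nonneg (inv_nonneg.2 h1.le),
        smul_eq_mul, inv_mul_cancel₀ h1.ne']
    rw [← Homeomorph.preimage_frontier] at h2
    exact h2
  refine ⟨gauge s, continuous_gauge s2 s4, gauge_nonneg, hm,
    fun v hv => ⟨(hf v hv).1, frontier_subset_closure (hf v hv).2⟩, fun X hX => ?_⟩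
  by_cases h : X = O
  · simp [h, hd.1 O hOM]
  obtain ⟨u0, u1⟩ := hf (X - O) (sub_ne_zero.2 h)
  obtain ⟨w0, w1⟩ := hf (O - X) (sub_ne_zero.2 (Ne.symm h))
  have u2 := (hm X).1 hX
  generalize gauge s (X - O) = u at *
  generalize gauge s (O - X) = w at *
  obtain ⟨v, rfl⟩ : ∃ v, X = O + v := ⟨X - O, by abel⟩
  have hv : v ≠ 0 := fun h' => h (by simp [h'])
  rw [add_sub_cancel_left] at u1
  rw [sub_add_cancel_left] at w1
  have u3 : 1 - u ≠ 0 := by linarith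
  have w3 : 1 + w ≠ 0 := by linarith
  refine (hd.2 O hOM _ hX (Ne.symm h) _ w1 _ u1 (fun h' => ?_) (1 / (1 + w)) (1 / (1 - u))
    ?_ ?_).trans ?_
  · have h1 : (u⁻¹ + w⁻¹) • v = 0 := by
      rw [add_smul, ← add_left_cancel h', smul_neg, neg_add_cancel]
    exact hv ((smul_eq_zero.1 h1).resolve_left (by positivity))
  · rw [show O + w⁻¹ • -v - (O + v) = (-(w⁻¹ + 1)) • v by module, add_sub_cancel_left, smul_smul,
      smul_neg, ← neg_smul]
    congr 1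
    field_simp
  · rw [show O + u⁻¹ • v - (O + v) = (u⁻¹ - 1) • v by module, add_sub_cancel_left, smul_smul]
    congr 1
    field_simp
  · rw [show 1 / (1 + w) / (1 / (1 - u)) = ((1 + w) / (1 - u))⁻¹ by field_simp, Real.log_inv,
      abs_neg, abs_of_nonneg (Real.log_nonneg ((one_le_div (by linarith)).2 (by linarith)))]

theorem foot {B : E} (hB : B ∈ M) (C : E) : ∃ F, IsFoot M d O B C F := by
  obtain ⟨g, g1, g2, g3, -, g5⟩ := gauge_data hO hc hb hd hOM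
  obtain ⟨c, hc'⟩ : ∃ c : E → ℝ, ∀ X, c X = (1 + g (O - X)) / (1 - g (X - O)) := ⟨_, fun _ => rfl⟩
  have c1 : ∀ X ∈ M, 1 ≤ c X * (1 - g (X - O)) := fun X hX => by
    rw [hc', div_mul_cancel₀ _ (by linarith [(g3 X).1 hX])]
    linarith [g2 (O - X)]
  have c2 : ∀ X ∈ M, 0 < c X := fun X hX => by
    rw [hc']
    exact div_pos (by linarith [g2 (O - X)]) (by linarith [(g3 X).1 hX])
  have cB := c2 B hB
  let K : Set E := (affineSpan ℝ {B, C} : Set E) ∩ {X | g (X - O) ≤ 1 - 1 / c B}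
  have K1 : K ⊆ M := fun X hX => (g3 X).2 (lt_of_le_of_lt hX.2 (by
    have : 0 < 1 / c B := by positivity
    linarith))
  have K2 : IsCompact K := Metric.isCompact_of_isClosed_isBounded
    ((AffineSubspace.closed_of_finiteDimensional _).inter
      (isClosed_le (by fun_prop) continuous_const)) (hb.subset K1)
  have K3 : B ∈ K := ⟨left_mem_affineSpan_pair _ _ _, by
    have := (div_le_iff₀' cB).2 (c1 B hB)
    show g (B - O) ≤ _
    linarith⟩
  have K4 : ContinuousOn c K := by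
    rw [show c = _ from funext hc']
    exact ContinuousOn.div (by fun_prop) (by fun_prop) fun X hX => by
      linarith [(g3 X).1 (K1 hX)]
  obtain ⟨F, hF, hF'⟩ := K2.exists_isMinOn ⟨B, K3⟩ K4
  refine ⟨F, K1 hF, hF.1, fun X hX hX' => ?_⟩
  rw [g5 F (K1 hF), g5 X hX, ← hc', ← hc']
  refine div_le_div_of_nonneg_right (Real.log_le_log (c2 F (K1 hF)) ?_) two_pos.le
  by_cases h : g (X - O) ≤ 1 - 1 / c B
  · exact hF' ⟨hX', h⟩
  · refine le_trans (hF' K3) ?_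
    have h1 : c X * (1 - g (X - O)) ≤ c X * (1 / c B) :=
      mul_le_mul_of_nonneg_left (by linarith) (c2 X hX).le
    have h2 := (c1 X hX).trans h1
    rwa [mul_one_div, one_le_div cB] at h2

theorem lower {φ ψ : E → ℝ} (hφ : Aff φ) (hψ : Aff ψ) (h1 : ∀ X ∈ closure M, 0 ≤ φ X)
    (h2 : ∀ X ∈ closure M, 0 ≤ ψ X) (h3 : φ O = ψ O) (h4 : 0 < φ O) {r : ℝ} (r0 : 0 < r)
    (r1 : r < 1) {X : E} (hX : X ∈ M) (h5 : (1 + r) * φ X = (1 - r) * ψ X) :
    r ≤ Real.tanh (d O X) := by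
  obtain ⟨g, -, g2, g3, g4, g5⟩ := gauge_data hO hc hb hd hOM
  have hne : X ≠ O := by
    rintro rfl
    rw [← h3] at h5
    nlinarith
  obtain ⟨u0, u1⟩ := g4 (X - O) (sub_ne_zero.2 hne)
  obtain ⟨w0, w1⟩ := g4 (O - X) (sub_ne_zero.2 hne.symm)
  have a1 := h1 _ u1
  have a2 := h2 _ w1
  rw [hφ.ray] at a1
  rw [← neg_sub X O, smul_neg, ← neg_smul, hψ.ray, neg_sub X O] at a2
  have u2 := (g3 X).1 hX
  rw [← Real.artanh_le_artanh_iff ⟨by linarith, r1⟩ ⟨Real.neg_one_lt_tanh _, Real.tanh_lt_one _⟩,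
    Real.artanh_tanh, Real.artanh_eq_half_log ⟨by linarith, r1.le⟩, g5 X hX]
  generalize g (X - O) = u at *
  generalize g (O - X) = w at *
  have b1 : (1 - u) * φ O ≤ φ X := by
    have := mul_nonneg u0.le a1
    rw [mul_add, ← mul_assoc, mul_inv_cancel₀ u0.ne'] at this
    linarith
  have b2 : ψ X ≤ (1 + w) * φ O := by
    have := mul_nonneg w0.le a2
    rw [mul_add, ← mul_assoc, mul_neg, mul_inv_cancel₀ w0.ne'] at this
    rw [h3]
    linarith
  have b3 : (1 + r) / (1 - r) ≤ (1 + w) / (1 - u) := by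
    rw [div_le_div_iff₀ (by linarith) (by linarith)]
    refine le_of_mul_le_mul_right ?_ h4
    nlinarith [mul_le_mul_of_nonneg_left b1 (show 0 ≤ 1 + r by linarith),
      mul_le_mul_of_nonneg_left b2 (show 0 ≤ 1 - r by linarith)]
  have := Real.log_le_log (div_pos (by linarith) (by linarith)) b3
  linarith

end

theorem coords {M : Set E} (hO : IsOpen M) (hb : Bornology.IsBounded M) (hne : M.Nonempty) :
    ∃ (ξ ζ : E → ℝ) (P Q : E), Aff ξ ∧ Aff ζ ∧ P ∈ closure M ∧ Q ∈ closure M ∧ ξ P = 0 ∧ ζ P = 0 ∧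
      ξ Q = 1 ∧ ζ Q = 0 ∧ (∀ X ∈ closure M, 0 ≤ ξ X ∧ ξ X ≤ 1 ∧ ζ X ^ 2 ≤ 3 * (ξ X * (1 - ξ X))) ∧
      ∃ X ∈ M, ζ X ≠ 0 := by
  have hK : IsCompact (closure M) := hb.isCompact_closure
  obtain ⟨X0, hX0⟩ := hne
  have hn : ∀ v : E, {t : ℝ | X0 + t • v ∈ M}.Infinite := fun v => by
    have : Continuous fun t : ℝ => X0 + t • v := by fun_prop
    exact infinite_of_mem_nhds (0 : ℝ) ((hO.preimage this).mem_nhds (by simpa using hX0))
  obtain ⟨⟨P, Q⟩, ⟨hP, hQ⟩, hm⟩ := (hK.prod hK).exists_isMaxOn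
    (f := fun z : E × E => (z.2.1 - z.1.1) ^ 2 + (z.2.2 - z.1.2) ^ 2)
    ⟨(X0, X0), subset_closure hX0, subset_closure hX0⟩ (by fun_prop)
  obtain ⟨N, hN⟩ : ∃ N, N = (Q.1 - P.1) ^ 2 + (Q.2 - P.2) ^ 2 := ⟨_, rfl⟩
  have hm' : ∀ X ∈ closure M, ∀ Y ∈ closure M, (Y.1 - X.1) ^ 2 + (Y.2 - X.2) ^ 2 ≤ N :=
    fun X hX Y hY => hN ▸ hm (a := (X, Y)) ⟨hX, hY⟩
  have N0 : 0 < N := by
    obtain ⟨t, h1, h2⟩ := (hn (1, 0)).exists_notMem_finite (finite_singleton 0)
    have := hm' _ (subset_closure hX0) _ (subset_closure h1)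
    simp only [Prod.fst_add, Prod.snd_add, Prod.smul_fst, Prod.smul_snd, smul_eq_mul] at this
    have h3 : 0 < t ^ 2 := sq_pos_of_ne_zero h2
    nlinarith
  refine ⟨fun X => ((X.1 - P.1) * (Q.1 - P.1) + (X.2 - P.2) * (Q.2 - P.2)) / N,
    fun X => ((Q.1 - P.1) * (X.2 - P.2) - (Q.2 - P.2) * (X.1 - P.1)) / N, P, Q,
    ⟨-(P.1 * (Q.1 - P.1) + P.2 * (Q.2 - P.2)) / N, (Q.1 - P.1) / N, (Q.2 - P.2) / N,
      fun X => by ring⟩,
    ⟨((Q.2 - P.2) * P.1 - (Q.1 - P.1) * P.2) / N, -(Q.2 - P.2) / N, (Q.1 - P.1) / N,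
      fun X => by ring⟩, hP, hQ, by simp, by simp, ?_, by ring, fun X hX => ?_, ?_⟩
  · rw [div_eq_one_iff_eq N0.ne', hN]
    ring
  · have a1 := hm' P hP X hX
    have a2 := hm' Q hQ X hX
    obtain ⟨x, hx⟩ : ∃ x, x = ((X.1 - P.1) * (Q.1 - P.1) + (X.2 - P.2) * (Q.2 - P.2)) / N :=
      ⟨_, rfl⟩
    obtain ⟨z, hz⟩ : ∃ z, z = ((Q.1 - P.1) * (X.2 - P.2) - (Q.2 - P.2) * (X.1 - P.1)) / N :=
      ⟨_, rfl⟩
    simp only [← hx, ← hz]
    rw [eq_div_iff N0.ne'] at hx hz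
    have b1 : (x ^ 2 + z ^ 2) * N ^ 2 = ((X.1 - P.1) ^ 2 + (X.2 - P.2) ^ 2) * N := by
      rw [show (x ^ 2 + z ^ 2) * N ^ 2 = (x * N) ^ 2 + (z * N) ^ 2 by ring, hx, hz, hN]
      ring
    have b2 : ((1 - x) ^ 2 + z ^ 2) * N ^ 2 = ((X.1 - Q.1) ^ 2 + (X.2 - Q.2) ^ 2) * N := by
      rw [show ((1 - x) ^ 2 + z ^ 2) * N ^ 2 = (N - x * N) ^ 2 + (z * N) ^ 2 by ring, hx, hz, hN]
      ring
    have c1 : x ^ 2 + z ^ 2 ≤ 1 := le_of_mul_le_mul_right (by
      rw [b1]; nlinarith) (show 0 < N ^ 2 by positivity)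
    have c2 : (1 - x) ^ 2 + z ^ 2 ≤ 1 := le_of_mul_le_mul_right (by
      rw [b2]; nlinarith) (show 0 < N ^ 2 by positivity)
    have d1 : 0 ≤ x := by nlinarith
    have d2 : x ≤ 1 := by nlinarith
    refine ⟨d1, d2, ?_⟩
    rcases le_total x (1 / 2) with h | h <;> nlinarith
  · obtain ⟨t, h1, h2⟩ := (hn (-(Q.2 - P.2), Q.1 - P.1)).exists_notMem_finite (finite_singleton
      (-(((Q.1 - P.1) * (X0.2 - P.2) - (Q.2 - P.2) * (X0.1 - P.1)) / N)))
    refine ⟨_, h1, fun h => h2 ?_⟩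
    simp only [Prod.fst_add, Prod.snd_add, Prod.smul_fst, Prod.smul_snd, smul_eq_mul] at h
    rw [div_eq_zero_iff, or_iff_left N0.ne'] at h
    rw [mem_singleton_iff, eq_neg_iff_add_eq_zero, add_div' _ _ _ N0.ne', div_eq_zero_iff]
    left
    rw [hN]
    linear_combination h

theorem lam {M : Set E} (hO : IsOpen M) (hc : Convex ℝ M) (hb : Bornology.IsBounded M)
    (hne : M.Nonempty) {θ : ℝ} (t0 : 0 < θ) (t1 : θ < 1) :
    ∃ l1 l2 l3 : E → ℝ, Aff l1 ∧ Aff l2 ∧ Aff l3 ∧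
      (∀ X ∈ closure M, 0 ≤ l1 X + l3 X ∧ 0 ≤ l2 X + l3 X ∧
        l3 X ^ 2 ≤ (l1 X + l3 X) * (l2 X + l3 X)) ∧
      ∀ a b c : ℝ, 0 < a → 0 < b → 0 < c → (1 - θ) * c ≤ θ * a → (1 - θ) * c ≤ θ * b →
        ∃ X ∈ M, ∃ N, 0 < N ∧ l1 X * N = a ∧ l2 X * N = b ∧ l3 X * N = c := by
  obtain ⟨ξ, ζ, P, Q, hξ, hζ, hP, hQ, p1, p2, q1, q2, h1, X0, hX0, h2⟩ := coords hO hb hne
  let S : Set ℝ := (fun X => ζ X ^ 2 / (ξ X * (1 - ξ X))) '' M
  have hn : ∀ X ∈ M, 0 ≤ ξ X * (1 - ξ X) := fun X hX =>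
    mul_nonneg (h1 X (subset_closure hX)).1 (sub_nonneg.2 (h1 X (subset_closure hX)).2.1)
  have S1 : BddAbove S := ⟨3, by
    rintro _ ⟨X, hX, rfl⟩
    exact div_le_of_le_mul₀ (hn X hX) (by norm_num) (h1 X (subset_closure hX)).2.2⟩
  have hp : ∀ X ∈ M, ζ X ≠ 0 → 0 < ξ X * (1 - ξ X) := fun X hX h => by
    have := (h1 X (subset_closure hX)).2.2
    have := sq_pos_of_ne_zero h
    linarith
  have B0 : 0 < sSup S := lt_of_lt_of_le (div_pos (sq_pos_of_ne_zero h2) (hp X0 hX0 h2))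
    (le_csSup S1 ⟨X0, hX0, rfl⟩)
  have B1 : ∀ X ∈ closure M, ζ X ^ 2 ≤ sSup S * (ξ X * (1 - ξ X)) := by
    have c1 : Continuous ξ := by
      obtain ⟨a, b, c, h⟩ := hξ
      rw [show ξ = _ from funext h]
      fun_prop
    have c2 : Continuous ζ := by
      obtain ⟨a, b, c, h⟩ := hζ
      rw [show ζ = _ from funext h]
      fun_prop
    refine closure_minimal (t := {X | ζ X ^ 2 ≤ sSup S * (ξ X * (1 - ξ X))}) (fun X hX => ?_)
      (isClosed_le (by fun_prop) (by fun_prop))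
    by_cases h : ζ X = 0
    · show ζ X ^ 2 ≤ _
      rw [h, zero_pow two_ne_zero]
      exact mul_nonneg B0.le (hn X hX)
    · exact (div_le_iff₀ (hp X hX h)).1 (le_csSup S1 ⟨X, hX, rfl⟩)
  obtain ⟨_, ⟨R, hR, rfl⟩, hR'⟩ := exists_lt_of_lt_csSup (hne.image _)
    (show θ ^ 2 * sSup S < sSup S by
      have : θ ^ 2 < 1 := by nlinarith
      nlinarith)
  generalize sSup S = B at *
  have r0 : ζ R ≠ 0 := by
    intro h
    simp only [h] at hR'
    have : 0 < θ ^ 2 * B := by positivity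
    simp at hR'
    linarith
  have r1 := hp R hR r0
  have r2 : 0 < ξ R := by
    by_contra h
    rw [le_antisymm (not_lt.1 h) (h1 R (subset_closure hR)).1] at r1
    simp at r1
  have r3 : 0 < 1 - ξ R := (pos_iff_pos_of_mul_pos r1).1 r2
  rw [lt_div_iff₀ r1] at hR'
  obtain ⟨τ, τ1, τ2⟩ : ∃ τ : ℝ, τ ^ 2 * (B * (ξ R * (1 - ξ R))) = 1 ∧ 0 < τ * ζ R := by
    have h := Real.sq_sqrt (mul_pos B0 r1).le
    have h' := Real.sqrt_pos.2 (mul_pos B0 r1)
    generalize √(B * (ξ R * (1 - ξ R))) = s at h h'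
    rcases lt_or_gt_of_ne r0 with h3 | h3
    · refine ⟨-s⁻¹, by rw [← h]; field_simp, ?_⟩
      have := mul_pos (inv_pos.2 h') (neg_pos.2 h3)
      linarith
    · exact ⟨s⁻¹, by rw [← h]; field_simp, mul_pos (inv_pos.2 h') h3⟩
  have τ3 : θ < τ * ζ R := by
    refine lt_of_pow_lt_pow_left₀ 2 τ2.le ?_
    have τ0 : 0 < τ ^ 2 := by
      by_contra h
      rw [le_antisymm (not_lt.1 h) (sq_nonneg _)] at τ1
      simp at τ1
    nlinarith [mul_lt_mul_of_pos_left hR' τ0]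
  have h1' : Aff fun _ => (1 : ℝ) := ⟨1, 0, 0, fun _ => by ring⟩
  refine ⟨fun X => (1 - ξ R)⁻¹ * 1 + (-(1 - ξ R)⁻¹) * ξ X + (-τ) * ζ X,
    fun X => 0 * 1 + (ξ R)⁻¹ * ξ X + (-τ) * ζ X, fun X => 0 * 1 + 0 * ξ X + τ * ζ X,
    h1'.comb hξ hζ _ _ _, h1'.comb hξ hζ _ _ _, h1'.comb hξ hζ _ _ _, fun X hX => ?_,
    fun a b c ha hb hc' hab hbc => ?_⟩
  · obtain ⟨a1, a2, -⟩ := h1 X hX
    have a3 := mul_nonneg (inv_pos.2 r3).le (sub_nonneg.2 a2)
    have a4 := mul_nonneg (inv_pos.2 r2).le a1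
    refine ⟨by linarith, by linarith, ?_⟩
    have a5 : (τ * ζ X) ^ 2 ≤ ((1 - ξ R)⁻¹ * (1 - ξ X)) * ((ξ R)⁻¹ * ξ X) := by
      refine le_of_mul_le_mul_right ?_ r1
      rw [show (1 - ξ R)⁻¹ * (1 - ξ X) * ((ξ R)⁻¹ * ξ X) * (ξ R * (1 - ξ R)) =
        ξ X * (1 - ξ X) by field_simp]
      have := mul_le_mul_of_nonneg_left (B1 X hX) (mul_nonneg (sq_nonneg τ) r1.le)
      calc (τ * ζ X) ^ 2 * (ξ R * (1 - ξ R)) = τ ^ 2 * (ξ R * (1 - ξ R)) * ζ X ^ 2 := by ring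
        _ ≤ _ := this
        _ = (τ ^ 2 * (B * (ξ R * (1 - ξ R)))) * (ξ X * (1 - ξ X)) := by ring
        _ = _ := by rw [τ1, one_mul]
    convert a5 using 1 <;> ring
  · obtain ⟨η, hη⟩ : ∃ η, η = τ * ζ R := ⟨_, rfl⟩
    rw [← hη] at τ2 τ3
    obtain ⟨N, hN⟩ : ∃ N, N = (1 - ξ R) * a + ξ R * b + c := ⟨_, rfl⟩
    have N0 : 0 < N := by rw [hN]; positivity
    have x0 : 0 ≤ (1 - ξ R) * (η * a - (1 - η) * c) / (η * N) :=
      div_nonneg (mul_nonneg r3.le (by nlinarith)) (by positivity)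
    have y0 : 0 ≤ ξ R * (η * b - (1 - η) * c) / (η * N) :=
      div_nonneg (mul_nonneg r2.le (by nlinarith)) (by positivity)
    have z0 : 0 < c / (η * N) := by positivity
    have hs : (1 - ξ R) * (η * a - (1 - η) * c) / (η * N) + ξ R * (η * b - (1 - η) * c) / (η * N) +
        c / (η * N) = 1 := by
      field_simp
      rw [hN]
      ring
    refine ⟨((1 - ξ R) * (η * a - (1 - η) * c) / (η * N)) • P +
      (ξ R * (η * b - (1 - η) * c) / (η * N)) • Q + (c / (η * N)) • R, ?_, N, N0, ?_, ?_, ?_⟩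
    · generalize (1 - ξ R) * (η * a - (1 - η) * c) / (η * N) = x at *
      generalize ξ R * (η * b - (1 - η) * c) / (η * N) = y at *
      generalize c / (η * N) = z at *
      have e1 := hc.combo_interior_closure_mem_interior (hO.interior_eq.symm ▸ hR) hQ
        (a := z / (y + z)) (b := y / (y + z)) (by positivity) (by positivity) (by field_simp; ring)
      have e2 := hc.combo_interior_closure_mem_interior e1 hP (a := y + z) (b := x)
        (by positivity) x0 (by linarith)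
      rw [hO.interior_eq, smul_add, smul_smul, smul_smul, mul_div_cancel₀ _ (by positivity),
        mul_div_cancel₀ _ (by positivity)] at e2
      convert e2 using 1
      abel
    · simp only [hξ.three hs, hζ.three hs, p1, p2, q1, q2]
      have : τ * (c / (η * N) * ζ R) = c / N := by
        rw [← mul_assoc, mul_right_comm, ← hη]
        field_simp
      rw [mul_zero, mul_zero, zero_add, zero_add, zero_add, neg_mul τ, this]
      field_simp
      rw [hN]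
      ring
    · simp only [hξ.three hs, hζ.three hs, p1, p2, q1, q2]
      have : τ * (c / (η * N) * ζ R) = c / N := by
        rw [← mul_assoc, mul_right_comm, ← hη]
        field_simp
      rw [mul_zero, mul_zero, zero_add, zero_add, zero_add, neg_mul τ, this]
      field_simp
      ring
    · simp only [hξ.three hs, hζ.three hs, p1, p2, q1, q2]
      have : τ * (c / (η * N) * ζ R) = c / N := by
        rw [← mul_assoc, mul_right_comm, ← hη]
        field_simp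
      rw [mul_zero, mul_zero, zero_add, zero_add, zero_add, this]
      field_simp
      ring

theorem am {u v w : ℝ} (hu : 0 ≤ u) (hv : 0 ≤ v) (h : w ^ 2 ≤ u * v) : 2 * w ≤ u + v :=
  abs_le_of_sq_le_sq' (by nlinarith [sq_nonneg (u - v)]) (by positivity) |>.2

theorem side {M : Set E} (hO : IsOpen M) (hc : Convex ℝ M) (hb : Bornology.IsBounded M)
    {d : E → E → ℝ} (hd : IsHilbertMetric M d) {O : E} (hOM : O ∈ M) {x y z : E → ℝ}
    (hx : Aff x) (hy : Aff y) (hz : Aff z) (h1 : ∀ X ∈ closure M, 0 ≤ 4 * x X + y X + z X)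
    (h2 : ∀ X ∈ closure M, 0 ≤ y X + z X) (h3 : 0 < x O) (h4 : y O = x O) (h5 : z O = x O)
    {r : ℝ} (r0 : 0 < r) (r1 : r < 1) {B C F : E} (hB : (2 + r) * x B = (1 - r) * (y B + z B))
    (hC : (2 + r) * x C = (1 - r) * (y C + z C)) (hF : IsFoot M d O B C F) :
    r / 2 ≤ Real.tanh (d O F) := by
  have := (hx.comb hy hz (2 + r) (-(1 - r)) (-(1 - r))).line (by linarith) (by linarith) hF.2.1
  refine lower hO hc hb hd hOM (hx.comb hy hz 4 1 1) (hx.comb hy hz 0 3 3)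
    (fun X hX => by linarith [h1 X hX]) (fun X hX => by linarith [h2 X hX])
    (by simp only [h4, h5]; ring) (by simp only [h4, h5]; linarith) (by linarith) (by linarith)
    hF.1 (by linarith)

theorem main {M : Set E} (hO : IsOpen M) (hc : Convex ℝ M) (hb : Bornology.IsBounded M)
    (hne : M.Nonempty) {d : E → E → ℝ} (hd : IsHilbertMetric M d) {ε : ℝ} (hε : 0 < ε) :
    ∃ A B C O P Q R : E, A ∈ M ∧ B ∈ M ∧ C ∈ M ∧ ¬ Collinear ℝ {A, B, C} ∧
      (∃ a b c : ℝ, 0 < a ∧ 0 < b ∧ 0 < c ∧ a + b + c = 1 ∧ O = a • A + b • B + c • C) ∧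
      IsFoot M d O B C P ∧ IsFoot M d O C A Q ∧ IsFoot M d O A B R ∧
      0 < Real.tanh (d O P) + Real.tanh (d O Q) + Real.tanh (d O R) ∧
      (Real.tanh (d O A) + Real.tanh (d O B) + Real.tanh (d O C)) /
        (Real.tanh (d O P) + Real.tanh (d O Q) + Real.tanh (d O R)) < 2 + ε := by
  obtain ⟨r, r0, r1, r2⟩ : ∃ r : ℝ, 0 < r ∧ r < 1 ∧ (2 + ε) * r = 2 :=
    ⟨2 / (2 + ε), by positivity, (div_lt_one (by positivity)).2 (by linarith), by field_simp⟩
  obtain ⟨θ, t0, t1, t2⟩ : ∃ θ : ℝ, 0 < θ ∧ θ < 1 ∧ θ * (2 + r) = 1 + 2 * r :=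
    ⟨(1 + 2 * r) / (2 + r), by positivity, (div_lt_one (by positivity)).2 (by linarith),
      by field_simp⟩
  have t3 : 1 - θ ≤ θ := by nlinarith
  obtain ⟨x, y, z, hx, hy, hz, h1, h2⟩ := lam hO hc hb hne t0 t1
  have r3 : 0 < 1 - r := by linarith
  have r4 : 0 < 1 + 2 * r := by linarith
  obtain ⟨A, hA, a, a0, a1, a2, a3⟩ := h2 _ _ _ r4 r3 r3 (by nlinarith) (by nlinarith)
  obtain ⟨B, hB, b, b0, b1, b2, b3⟩ := h2 _ _ _ r3 r4 r3 (by nlinarith) (by nlinarith)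
  obtain ⟨C, hC, c, c0, c1, c2, c3⟩ := h2 _ _ _ r3 r3 r4 (by nlinarith) (by nlinarith)
  have hs : a / (a + b + c) + b / (a + b + c) + c / (a + b + c) = 1 := by field_simp
  obtain ⟨O, hOe⟩ : ∃ O, O = (a / (a + b + c)) • A + (b / (a + b + c)) • B +
    (c / (a + b + c)) • C := ⟨_, rfl⟩
  have hOM : O ∈ M := by
    have := hc.sum_mem (t := Finset.univ) (w := ![a / (a + b + c), b / (a + b + c), c / (a + b + c)])
      (z := ![A, B, C]) (fun i _ => by fin_cases i <;> simp <;> positivity)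
      (by simpa [Fin.sum_univ_three] using hs) (fun i _ => by fin_cases i <;> simpa)
    rw [hOe]
    simpa [Fin.sum_univ_three] using this
  have o1 : x O = 3 / (a + b + c) := by
    rw [hOe, hx.three hs]
    field_simp
    linarith
  have o2 : y O = 3 / (a + b + c) := by
    rw [hOe, hy.three hs]
    field_simp
    linarith
  have o3 : z O = 3 / (a + b + c) := by
    rw [hOe, hz.three hs]
    field_simp
    linarith
  have o4 : 0 < 3 / (a + b + c) := by positivity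
  have e : ∀ {u v w N : ℝ}, 0 < N → u * N = 1 - r → (v * N = 1 - r ∧ w * N = 1 + 2 * r ∨
      w * N = 1 - r ∧ v * N = 1 + 2 * r) → (2 + r) * u = (1 - r) * (v + w) := by
    intro u v w N hN h h'
    refine mul_right_cancel₀ hN.ne' ?_
    rcases h' with h' | h' <;> linear_combination (2 + r) * h - (1 - r) * (h'.1 + h'.2)
  obtain ⟨P, hP⟩ := foot hO hc hb hd hOM hB C
  obtain ⟨Q, hQ⟩ := foot hO hc hb hd hOM hC A
  obtain ⟨R, hR⟩ := foot hO hc hb hd hOM hA B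
  have f1 := side hO hc hb hd hOM hx hy hz (fun X hX => by
      obtain ⟨u, v, w⟩ := h1 X hX
      have := am (u := 4 * (x X + z X)) (w := 2 * z X) (by positivity) v (by nlinarith)
      linarith) (fun X hX => (h1 X hX).2.1) (o1 ▸ o4) (o2.trans o1.symm) (o3.trans o1.symm) r0 r1
    (e b0 b1 (Or.inr ⟨b3, b2⟩)) (e c0 c1 (Or.inl ⟨c2, c3⟩)) hP
  have f2 := side hO hc hb hd hOM hy hx hz (fun X hX => by
      obtain ⟨u, v, w⟩ := h1 X hX
      have := am (u := 4 * (y X + z X)) (w := 2 * z X) (by positivity) u (by nlinarith)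
      linarith) (fun X hX => (h1 X hX).1) (o2 ▸ o4) (o1.trans o2.symm) (o3.trans o2.symm) r0 r1
    (e c0 c2 (Or.inl ⟨c1, c3⟩)) (e a0 a2 (Or.inr ⟨a3, a1⟩)) hQ
  have f3 := side hO hc hb hd hOM hz hx hy (fun X hX => by
      obtain ⟨u, v, w⟩ := h1 X hX
      have := am (w := - z X) u v (by nlinarith)
      linarith) (fun X hX => by
      obtain ⟨u, v, w⟩ := h1 X hX
      have := am u v w
      linarith) (o3 ▸ o4) (o1.trans o3.symm) (o2.trans o3.symm) r0 r1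
    (e a0 a3 (Or.inr ⟨a2, a1⟩)) (e b0 b3 (Or.inl ⟨b1, b2⟩)) hR
  have hp : 0 < Real.tanh (d O P) + Real.tanh (d O Q) + Real.tanh (d O R) := by linarith
  refine ⟨A, B, C, O, P, Q, R, hA, hB, hC, fun h => ?_, ⟨_, _, _, by positivity, by positivity,
    by positivity, hs, hOe⟩, hP, hQ, hR, hp, ?_⟩
  · have hBC : B ≠ C := by
      rintro rfl
      have g1 : x B * (b - c) = 0 := by linarith
      have g2 : y B * (b - c) = 3 * r := by linarith
      rcases mul_eq_zero.1 g1 with g | g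
      · rw [g] at b1
        linarith
      · rw [g] at g2
        linarith
    have g1 := (hx.comb hy hz (2 + r) (-(1 - r)) (-(1 - r))).line
      (by linarith [e b0 b1 (Or.inr ⟨b3, b2⟩)]) (by linarith [e c0 c1 (Or.inl ⟨c2, c3⟩)])
      (h.mem_affineSpan_of_mem_of_ne (p₃ := A) (by simp) (by simp) (by simp) hBC)
    have g2 : 9 * r = 0 := by
      linear_combination a * g1 - (2 + r) * a1 + (1 - r) * (a2 + a3)
    linarith
  · rw [div_lt_iff₀ hp]
    nlinarith [Real.tanh_lt_one (d O A), Real.tanh_lt_one (d O B), Real.tanh_lt_one (d O C)]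

end Pool.Agent.H31.Hilb
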