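import Mathlib

set_option autoImplicit false

namespace Pool.Agent.H31.Hilb

def IsHilbertMetric (M : Set (ℝ × ℝ)) (d : ℝ × ℝ → ℝ × ℝ → ℝ) : Prop :=
  (∀ X ∈ M, d X X = 0) ∧
  ∀ X ∈ M, ∀ Y ∈ M, X ≠ Y → ∀ A ∈ frontier M, ∀ B ∈ frontier M, A ≠ B → ∀ α β : ℝ,
    α • (A - Y) = A - X → β • (B - Y) = B - X → d X Y = |Real.log (α / β)| / 2

def IsFoot (M : Set (ℝ × ℝ)) (d : ℝ × ℝ → ℝ × ℝ → ℝ) (O B C F : ℝ × ℝ) : Prop :=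
  F ∈ M ∧ F ∈ affineSpan ℝ {B, C} ∧ ∀ X ∈ M, X ∈ affineSpan ℝ {B, C} → d O F ≤ d O X

end Pool.Agent.H31.Hilb
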