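import Pool.Agent.H31.ICDefs

namespace Pool.Agent.H31.IC

open Set Filter Topology

universe u

abbrev G : Type u := ULift.{u} ℕ → ZMod 2

@[ext] structure X : Type u where
  i : G.{u}
  g : G.{u}
  l : ZMod 2

instance : Semigroup X.{u} where
  mul a b := ⟨a.i, a.g + a.l • b.i + b.g, b.l⟩
  mul_assoc a b c := X.ext rfl (by
    show a.g + a.l • b.i + b.g + b.l • c.i + c.g = a.g + a.l • b.i + (b.g + b.l • c.i + c.g)
    abel) rfl

theorem mul_def (a b : X.{u}) : a * b = ⟨a.i, a.g + a.l • b.i + b.g, b.l⟩ := rfl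

theorem gg (g : G.{u}) : g + g = 0 := funext fun n => CharTwo.add_self_eq_zero (g n)

theorem closed {Y : Type u} [Semigroup Y] [TopologicalSpace Y] [ContinuousMul Y] [T1Space Y]
    (h : X.{u} → Y) (hm : ∀ a b, h (a * b) = h a * h b)
    (he : ∀ x, ∃ O, IsOpen O ∧ h ⁻¹' O = {x}) : IsClosed (range h) := by
  refine isClosed_of_closure_subset fun y hy => ?_
  have : (comap h (𝓝 y)).NeBot := mem_closure_iff_comap_neBot.mp hy |> fun _ =>
    comap_neBot_iff.mpr fun t ht => by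
      obtain ⟨_, h1, x, rfl⟩ := mem_closure_iff_nhds.mp hy t ht
      exact ⟨x, h1⟩
  have h0 : ∀ {x : X} {z : Y}, Tendsto (fun _ => h x) (comap h (𝓝 y)) (𝓝 z) → h x = z :=
    fun h1 => tendsto_const_nhds_iff.mp h1
  have h1 : ∀ (m : ZMod 2) (k : G), ∀ᶠ p : X × X in comap h (𝓝 y) ×ˢ comap h (𝓝 y),
      m • p.1.i + p.1.g + p.1.l • k = m • p.2.i + p.2.g + p.2.l • k := fun m k => by
    have h2 : Tendsto (fun x => h (⟨0, 0, m⟩ * x * ⟨k, 0, 0⟩)) (comap h (𝓝 y))
        (𝓝 (h ⟨0, 0, m⟩ * y * h ⟨k, 0, 0⟩)) := by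
      simp only [hm]
      exact (tendsto_comap.const_mul _).mul_const _
    have h3 := h0 (x := ⟨0, 0, 0⟩) ((h2.mul h2).congr fun x => by
      rw [← hm]; simp [mul_def, gg])
    obtain ⟨O, h4, h5⟩ := he ⟨0, 0, 0⟩
    filter_upwards [((h2.comp tendsto_fst).mul (h2.comp tendsto_snd)).eventually
      (h4.mem_nhds (h3 ▸ h5.ge rfl))] with p hp
    have h6 := congrArg X.g (h5.le (show _ * _ ∈ h ⁻¹' O from (hm _ _).symm ▸ hp))
    simp only [mul_def, zero_add, add_zero, zero_smul] at h6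
    rw [eq_neg_of_add_eq_zero_left h6, neg_eq_of_add_eq_zero_left (gg _)]
  obtain ⟨s, hs, t, ht, h2⟩ := mem_prod_iff.mp ((h1 0 0).and ((h1 1 0).and (h1 0 1)))
  obtain ⟨x, hx⟩ := Filter.nonempty_of_mem ht
  refine ⟨x, h0 (tendsto_comap.congr' ?_)⟩
  filter_upwards [hs] with a ha
  obtain ⟨h3, h4, h5⟩ := h2 (mk_mem_prod ha hx)
  simp only [zero_smul, smul_zero, one_smul, zero_add, add_zero] at h3 h4 h5
  rw [h3] at h4 h5
  rw [X.ext (add_right_cancel h4) h3 (by simpa using congrFun (add_left_cancel h5) ⟨0⟩)]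

theorem ideal {C : Cls.{u}} (hC : Sub C T1S) : IdealClosed C X.{u} := fun I hI c hc Y _ _ hY h hm he => by
  obtain ⟨_, _⟩ := hC Y hY
  rcases I.eq_empty_or_nonempty with rfl | ⟨a, ha⟩
  · have h1 : Function.Surjective ((↑) : X → c.Quotient) := Quotient.mk''_surjective
    rw [← h1.range_comp]
    refine closed _ (fun a b => hm (a : c.Quotient) b) fun x => ?_
    letI : TopologicalSpace c.Quotient := ⊥
    obtain ⟨O, h2, h3⟩ := (he.isInducing.isOpen_iff (s := {(x : c.Quotient)})).mp trivial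
    exact ⟨O, h2, Set.ext fun a => (Set.ext_iff.mp h3 a).trans (c.eq.trans (by simp [hc]))⟩
  · have h1 : ∀ x, x ∈ I := fun x => by
      have := (hI _ (hI a ha ⟨x.i, x.g + a.g, 0⟩).1 ⟨0, 0, x.l⟩).2
      simpa [mul_def, add_assoc, gg] using this
    have : Subsingleton c.Quotient := ⟨fun a b => Con.induction_on₂ a b fun a b =>
      c.eq.mpr ((hc a b).mpr (.inl ⟨h1 a, h1 b⟩))⟩
    exact (toFinite _).isClosed

def cI : Con X.{u} where
  r a b := a.i = b.i
  iseqv := ⟨fun _ => rfl, Eq.symm, Eq.trans⟩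
  mul' h _ := h

theorem notProj {C : Cls.{u}} (hC : Sub TzS C) : ¬ ProjClosed C X.{u} := fun h => by
  letI : TopologicalSpace cI.{u}.Quotient := ⊥
  haveI : DiscreteTopology cI.{u}.Quotient := ⟨rfl⟩
  haveI : Infinite cI.{u}.Quotient := .of_injective (fun n : ℕ => ((⟨Pi.single ⟨n⟩ 1, 0, 0⟩ : X) :
    cI.{u}.Quotient)) fun a b h => by
      simpa [Pi.single_apply] using congrFun (cI.eq.mp h) ⟨a⟩
  haveI : NoncompactSpace cI.{u}.Quotient :=
    ⟨fun h => infinite_univ (isCompact_iff_finite.mp h)⟩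
  letI : Semigroup (OnePoint cI.{u}.Quotient) := { mul a _ := a, mul_assoc _ _ _ := rfl }
  have := (h cI (OnePoint cI.Quotient) (hC _ ⟨⟨continuous_fst⟩, inferInstance,
    isTopologicalBasis_isClopen⟩) OnePoint.some (fun a b => congrArg _ (Con.induction_on₂ a b
      fun a b => cI.eq.mpr rfl)) OnePoint.isOpenEmbedding_coe.isEmbedding).closure_eq
  exact OnePoint.infty_notMem_range_coe (this ▸ OnePoint.denseRange_coe _)

end Pool.Agent.H31.IC
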