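import Pool.Agent.H31.ICDefs

namespace Pool.Agent.H31.IC

open Set Filter Topology OnePoint

universe u

theorem tinf {X ι : Type*} [TopologicalSpace X] [DiscreteTopology X] {f : ι → OnePoint X}
    {l : Filter ι} (h : ∀ z : X, ∀ᶠ i in l, f i ≠ z) : Tendsto f l (𝓝 ∞) :=
  hasBasis_nhds_infty.tendsto_right_iff.mpr fun s hs => by
    filter_upwards [(eventually_all_finite (isCompact_iff_finite.mp hs.2)).mpr fun z _ => h z]
      with i hi
    cases h1 : f i with
    | infty => exact .inr rfl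
    | coe x => exact .inl ⟨x, fun h2 => hi x h2 h1, rfl⟩

theorem pull {X Z Y : Type u} [Semigroup X] [Semigroup Z] [Semigroup Y] [TopologicalSpace Y]
    [ContinuousMul Y] [T1Space Y] (π : X → Z) (hπ : ∀ a b, π (a * b) = π a * π b)
    (hs : π.Surjective) (hw : ∀ b z : Z, {a | a * b = z}.Finite ∧ {a | b * a = z}.Finite)
    (h : Z → Y) (hm : ∀ a b, h (a * b) = h a * h b) (he : @IsEmbedding Z Y ⊥ _ h)
    (H : ∀ (Y' : Type u) [Semigroup Y'] [TopologicalSpace Y'] [ContinuousMul Y'],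
      ∀ (K : Type u) [TopologicalSpace K] [CompactSpace K] [T2Space K] [TotallySeparatedSpace K]
        (e : Y' → Y × K), IsEmbedding e → ∀ j : X → Y', (∀ a b, j (a * b) = j a * j b) →
          @IsEmbedding X Y' ⊥ _ j → IsClosed (range j)) : IsClosed (range h) := by
  let _ : TopologicalSpace X := ⊥
  have : DiscreteTopology X := ⟨rfl⟩
  let _ : TopologicalSpace Z := ⊥
  have h0 : ∀ y ∈ closure (range h), (comap h (𝓝 y)).NeBot := fun y hy =>
    comap_neBot_iff.mpr fun t ht => by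
      obtain ⟨_, h1, x, rfl⟩ := mem_closure_iff_nhds.mp hy t ht
      exact ⟨x, h1⟩
  have h1 : ∀ y ∈ closure (range h), ∀ y' ∈ closure (range h), y * y' ∈ range h →
      y ∈ range h ∧ y' ∈ range h := by
    rintro y hy y' hy' ⟨z, hz⟩
    have := h0 y hy
    have := h0 y' hy'
    obtain ⟨O, h2, h3⟩ := (he.isInducing.isOpen_iff (s := {z})).mp trivial
    obtain ⟨s, hs, t, ht, h4⟩ := mem_prod_iff.mp ((((tendsto_comap (f := h) (x := 𝓝 y)).comp
      tendsto_fst).mul ((tendsto_comap (f := h) (x := 𝓝 y')).comp tendsto_snd)).eventually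
        (h2.mem_nhds (hz ▸ h3.ge rfl)))
    have h5 : ∀ a ∈ s, ∀ b ∈ t, a * b = z := fun a ha b hb =>
      h3.le (show h _ ∈ O from hm a b ▸ h4 (mk_mem_prod ha hb))
    obtain ⟨a, ha⟩ := Filter.nonempty_of_mem hs
    obtain ⟨b, hb⟩ := Filter.nonempty_of_mem ht
    exact ⟨image_subset_range _ _ (((hw b z).1.image h).isClosed.mem_of_tendsto tendsto_comap
      (mem_of_superset hs fun x hx => ⟨x, h5 x hx b hb, rfl⟩)), image_subset_range _ _
        (((hw a z).2.image h).isClosed.mem_of_tendsto tendsto_comap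
          (mem_of_superset ht fun x hx => ⟨x, h5 a ha x hx, rfl⟩))⟩
  have h2 : ∀ y ∈ closure (range h), ∀ y' ∈ closure (range h), y * y' ∈ closure (range h) :=
    fun y hy y' hy' => map_mem_closure₂ continuous_mul hy hy' (by
      rintro _ ⟨a, rfl⟩ _ ⟨b, rfl⟩
      exact ⟨_, hm a b⟩)
  let Y' := {p : Y × OnePoint X // p.1 ∈ closure (range h) ∧ (∀ x : X, p.2 = x → p.1 = h (π x)) ∧
    (p.2 = ∞ → p.1 ∉ range h)}
  let _ : Semigroup Y' := {
    mul a b := ⟨(a.1.1 * b.1.1, Option.map₂ (· * ·) a.1.2 b.1.2), h2 _ a.2.1 _ b.2.1,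
      fun x hx => by
        obtain ⟨c, d, h3, h4, rfl⟩ := Option.map₂_eq_some_iff.mp hx
        rw [hπ, hm, ← a.2.2.1 c h3, ← b.2.2.1 d h4], fun hx h3 =>
          (Option.map₂_eq_none_iff.mp hx).elim (a.2.2.2 · (h1 _ a.2.1 _ b.2.1 h3).1)
            (b.2.2.2 · (h1 _ a.2.1 _ b.2.1 h3).2)⟩
    mul_assoc a b c := Subtype.ext (Prod.ext (mul_assoc _ _ _) (Option.map₂_assoc mul_assoc)) }
  have c1 : Continuous fun p : Y' => p.1.1 := continuous_fst.comp continuous_subtype_val
  have c2 : Continuous fun p : Y' => p.1.2 := continuous_snd.comp continuous_subtype_val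
  have h3 : Continuous fun p : Y' × Y' => p.1.1.1 * p.2.1.1 :=
    (c1.comp continuous_fst).mul (c1.comp continuous_snd)
  have : ContinuousMul Y' := ⟨continuous_induced_rng.mpr (h3.prodMk
    (continuous_iff_continuousAt.mpr fun p => by
      by_cases h4 : (p.1 * p.2).1.2 = ∞
      · show Tendsto (fun q : Y' × Y' => (q.1 * q.2).1.2) (𝓝 p) (𝓝 (p.1 * p.2).1.2)
        rw [h4]
        exact tinf fun z => (h3.continuousAt.eventually_ne (y := h (π z)) fun h5 =>
          (p.1 * p.2).2.2.2 h4 ⟨_, h5.symm⟩).mono fun q h5 h6 => h5 ((q.1 * q.2).2.2.1 z h6)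
      · obtain ⟨x, hx⟩ := ne_infty_iff_exists.mp h4
        obtain ⟨c, d, h5, h6, -⟩ := Option.map₂_eq_some_iff.mp hx.symm
        have h7 : ∀ x : X, IsOpen ({↑x} : Set (OnePoint X)) := fun x => by
          simpa using isOpenMap_coe {x} trivial
        refine tendsto_const_nhds.congr' ?_
        filter_upwards [(c2.comp continuous_fst).continuousAt.eventually ((h7 c).mem_nhds h5),
          (c2.comp continuous_snd).continuousAt.eventually ((h7 d).mem_nhds h6)] with q h8 h9
        exact congrArg₂ _ (h5.trans h8.symm) (h6.trans h9.symm)))⟩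
  let j : X → Y' := fun x => ⟨(h (π x), x), subset_closure ⟨_, rfl⟩,
    fun _ h => coe_injective h ▸ rfl, fun h => absurd h (coe_ne_infty x)⟩
  have h4 := H Y' (OnePoint X) _ .subtypeVal j (fun a b => Subtype.ext (Prod.ext
    ((congrArg h (hπ a b)).trans (hm _ _)) rfl)) (.of_comp continuous_of_discreteTopology
      c2 isOpenEmbedding_coe.isEmbedding)
  refine isClosed_of_closure_subset fun y hy => by_contra fun h5 => ?_
  have := (h0 y hy).comap_of_surj hs
  obtain ⟨x, hx⟩ := h4.mem_of_tendsto (b := comap π (comap h (𝓝 y))) (f := j)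
    (x := ⟨(y, ∞), hy, fun x h => absurd h (infty_ne_coe x), fun _ => h5⟩)
    (tendsto_subtype_rng.mpr ((tendsto_comap.comp tendsto_comap).prodMk_nhds (tinf fun z =>
      ((tendsto_comap.comp tendsto_comap).eventually_ne (b₂ := h (π z)) fun h6 =>
        h5 ⟨_, h6.symm⟩).mono fun x h6 h7 => h6 (coe_injective h7 ▸ rfl))))
    (.of_forall fun x => ⟨x, rfl⟩)
  exact coe_ne_infty x (congrArg (·.1.2) hx)

theorem quot {C : Cls.{u}} (hC : C ∈ ({T1S, T2S, TzS} : Set Cls.{u})) {X Z : Type u} [Semigroup X]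
    [Semigroup Z] (π : X → Z) (hπ : ∀ a b, π (a * b) = π a * π b) (hs : π.Surjective)
    (hw : ∀ b z : Z, {a | a * b = z}.Finite ∧ {a | b * a = z}.Finite) (H : CClosed C X) :
    CClosed C Z := fun Y _ _ hY h hm he => by
  rcases hC with rfl | rfl | rfl
  · obtain ⟨_, _⟩ := hY
    exact pull π hπ hs hw h hm he fun Y' _ _ _ K _ _ _ _ e he => H Y' ⟨‹_›, he.t1Space⟩
  · obtain ⟨_, _⟩ := hY
    exact pull π hπ hs hw h hm he fun Y' _ _ _ K _ _ _ _ e he => H Y' ⟨‹_›, he.t2Space⟩
  · obtain ⟨_, _, hz⟩ := hY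
    refine pull π hπ hs hw h hm he fun Y' _ _ _ K _ _ _ _ e he => H Y' ⟨‹_›, he.t2Space,
      .of_isOpen_of_subset (fun _ h => h.isOpen) ((hz.prod isTopologicalBasis_isClopen).isInducing
        he.isInducing) ?_⟩
    rintro _ ⟨_, ⟨u, hu, v, hv, rfl⟩, rfl⟩
    exact (hu.prod hv).preimage he.continuous

theorem grp {C : Cls.{u}} (hC : C ∈ ({T1S, T2S, TzS} : Set Cls.{u})) {X : Type u} [Group X]
    (H : IdealClosed C X) : ProjClosed C X := fun c =>
  quot hC (Con.map ⊥ c bot_le) (map_mul _) (fun a => Con.induction_on a fun a => ⟨a, rfl⟩)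
    (fun b z => ⟨(finite_singleton z).preimage (mul_left_injective b).injOn,
      (finite_singleton z).preimage (mul_right_injective b).injOn⟩)
    (H ∅ (fun _ h => h.elim) ⊥ fun _ _ => ⟨.inr, fun h => h.resolve_left fun h => h.1⟩)

end Pool.Agent.H31.IC
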