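import Mathlib

namespace Pool.Agent.H31.IC

universe u

/-- a class of topological semigroups -/
abbrev Cls : Type (u + 1) := ∀ (Y : Type u) [Semigroup Y] [TopologicalSpace Y], Prop

def T1S : Cls.{u} := fun Y _ _ => ContinuousMul Y ∧ T1Space Y

def T2S : Cls.{u} := fun Y _ _ => ContinuousMul Y ∧ T2Space Y

def TzS : Cls.{u} := fun Y _ _ => ContinuousMul Y ∧ T2Space Y ∧
  TopologicalSpace.IsTopologicalBasis {s : Set Y | IsClopen s}

def Sub (C D : Cls.{u}) : Prop := ∀ (Y : Type u) [Semigroup Y] [TopologicalSpace Y], C Y → D Y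

def CClosed (C : Cls.{u}) (X : Type u) [Semigroup X] : Prop :=
  ∀ (Y : Type u) [Semigroup Y] [TopologicalSpace Y], C Y → ∀ h : X → Y,
    (∀ a b, h (a * b) = h a * h b) → @Topology.IsEmbedding X Y ⊥ _ h → IsClosed (Set.range h)

def IsIdeal {X : Type u} [Semigroup X] (I : Set X) : Prop := ∀ a ∈ I, ∀ x, x * a ∈ I ∧ a * x ∈ I

def ProjClosed (C : Cls.{u}) (X : Type u) [Semigroup X] : Prop := ∀ c : Con X, CClosed C c.Quotient

def IdealClosed (C : Cls.{u}) (X : Type u) [Semigroup X] : Prop :=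
  ∀ I : Set X, IsIdeal I → ∀ c : Con X, (∀ a b, c a b ↔ a ∈ I ∧ b ∈ I ∨ a = b) →
    CClosed C c.Quotient

end Pool.Agent.H31.IC
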