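import Mathlib

set_option autoImplicit false

namespace Pool.Agent.H31.KCov

/-- k-covers (the whole space may be a member) -/
def K {X : Type*} [TopologicalSpace X] (𝒰 : Set (Set X)) : Prop :=
  (∀ U ∈ 𝒰, IsOpen U) ∧ ⋃₀ 𝒰 = Set.univ ∧ ∀ C : Set X, IsCompact C → ∃ U ∈ 𝒰, C ⊆ U

end Pool.Agent.H31.KCov
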