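import Pool.Agent.H31.KCovDefs

set_option autoImplicit false

open Set Filter Topology MeasureTheory unitInterval

namespace Pool.Agent.H31.KCov

theorem fin_of_closed {X : Type*} [TopologicalSpace X] {C T : Set X} (hC : IsCompact C)
    (h : T ⊆ C) (hT : ∀ S ⊆ T, IsClosed S) : T.Finite :=
  (hC.of_isClosed_subset (hT T le_rfl) h).finite (isDiscrete_iff_forall_exists_isOpen.2
    fun x hx => ⟨(T \ {x})ᶜ, (hT _ diff_subset).isOpen_compl, by
      ext y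
      simp only [mem_inter_iff, mem_compl_iff, mem_diff, mem_singleton_iff]
      exact ⟨fun h => by tauto, by rintro rfl; tauto⟩⟩)

theorem K_of_fin {X : Type*} [TopologicalSpace X] (hX : ∀ C : Set X, IsCompact C → C.Finite)
    {𝒰 : Set (Set X)} (h1 : ∀ U ∈ 𝒰, IsOpen U) (h2 : ∀ C : Set X, C.Finite → ∃ U ∈ 𝒰, C ⊆ U) :
    K 𝒰 :=
  ⟨h1, eq_univ_of_forall fun x => by
    obtain ⟨U, u1, u2⟩ := h2 {x} (finite_singleton x)
    exact ⟨U, u1, u2 rfl⟩, fun C hC => h2 C (hX C hC)⟩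

theorem small (F : Set I) (hF : F.Finite) (n : ℕ) :
    ∃ U : Set I, IsOpen U ∧ F ⊆ U ∧ volume U ≤ 2⁻¹ ^ n / 4 := by
  obtain ⟨U, u1, u2, u3⟩ := F.exists_isOpen_lt_of_lt (μ := volume) (2⁻¹ ^ n / 4) (by
    rw [hF.measure_zero]
    exact ENNReal.div_pos (pow_ne_zero _ (by simp)) (by simp))
  exact ⟨U, u2, u1, u3.le⟩

theorem not_cover {U : ℕ → Set I} (h : ∀ n, volume (U n) ≤ 2⁻¹ ^ n / 4) : ⋃ n, U n ≠ univ := by
  intro h1
  have h2 := (measure_iUnion_le (μ := volume) U).trans (ENNReal.tsum_le_tsum h)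
  simp only [div_eq_mul_inv] at h2
  rw [h1, measure_univ, ENNReal.tsum_mul_right, ENNReal.tsum_geometric, ENNReal.one_sub_inv_two,
    inv_inv] at h2
  have : (2 : ENNReal) * 4⁻¹ < 1 := by
    rw [← div_eq_mul_inv, ENNReal.div_lt_iff (by simp) (by simp)]
    norm_num
  exact this.not_ge h2

def X : Type := I

def Op (O : Set I) : Prop :=
  ∀ x ∈ O, ∃ U C : Set I, IsOpen U ∧ C.Countable ∧ x ∈ U ∧ x ∉ C ∧ U \ C ⊆ O

instance : TopologicalSpace X where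
  IsOpen O := Op O
  isOpen_univ := fun _ _ => ⟨univ, ∅, isOpen_univ, countable_empty, trivial, id, subset_univ _⟩
  isOpen_inter := fun _ _ h h' x hx => by
    obtain ⟨U, C, a1, a2, a3, a4, a5⟩ := h x hx.1
    obtain ⟨V, D, b1, b2, b3, b4, b5⟩ := h' x hx.2
    exact ⟨U ∩ V, C ∪ D, a1.inter b1, a2.union b2, ⟨a3, b3⟩, fun h => h.elim a4 b4,
      fun y hy => ⟨a5 ⟨hy.1.1, fun h => hy.2 (Or.inl h)⟩, b5 ⟨hy.1.2, fun h => hy.2 (Or.inr h)⟩⟩⟩
  isOpen_sUnion := fun _ h x ⟨O, h1, h2⟩ => by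
    obtain ⟨U, C, a1, a2, a3, a4, a5⟩ := h O h1 x h2
    exact ⟨U, C, a1, a2, a3, a4, fun y hy => ⟨O, h1, a5 hy⟩⟩

theorem op_of {U : Set I} (h : IsOpen U) : IsOpen (X := X) U :=
  fun _ hx => ⟨U, ∅, h, countable_empty, hx, id, diff_subset⟩

instance : T2Space X :=
  T2Space.of_injective_continuous (f := fun x : X => (show I from x)) (fun _ _ h => h)
    ⟨fun _ h => op_of h⟩

theorem cpt_fin (C : Set X) (hC : IsCompact C) : C.Finite := by
  by_contra h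
  obtain ⟨T, t1, t3, t2⟩ := Set.Infinite.exists_subset_countable_infinite h
  exact t2 (fin_of_closed hC t1 fun S hS => ⟨fun x hx =>
    ⟨univ, S, isOpen_univ, t3.mono hS, trivial, hx, fun _ h => h.2⟩⟩)

theorem nb {O F : Set X} (h : IsOpen O) (hF : F.Finite) (h1 : F ⊆ O) :
    ∃ U C : Set I, IsOpen U ∧ C.Countable ∧ F ⊆ U ∧ U \ C ⊆ O := by
  choose! U C a1 a2 a3 a4 a5 using h
  refine ⟨⋃ x ∈ F, U x, ⋃ x ∈ F, C x, isOpen_biUnion fun x hx => a1 x (h1 hx),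
    hF.countable.biUnion fun x hx => a2 x (h1 hx), fun x hx => mem_biUnion hx (a3 x (h1 hx)), ?_⟩
  rintro y ⟨y1, y2⟩
  obtain ⟨x, x1, x2⟩ := mem_iUnion₂.1 y1
  exact a5 x (h1 x1) ⟨x2, fun h => y2 (mem_biUnion x1 h)⟩

theorem step (G : Set X) (𝒰 : Set (Set X)) (n : ℕ) : ∃ (ℱ : Set (Set X)) (c : ℕ → X),
    G.Finite → K 𝒰 → (ℱ.Finite ∧ ℱ ⊆ 𝒰) ∧ ∀ w : Fin n → X, ∃ O ∈ ℱ, G ⊆ O ∧
      ∀ i, w i ∉ range c → w i ∈ O := by
  by_cases h : G.Finite ∧ K 𝒰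
  swap
  · exact ⟨∅, fun _ => (0 : I), fun h1 h2 => (h ⟨h1, h2⟩).elim⟩
  obtain ⟨hG, hU⟩ := h
  have : ∀ v : Fin n → I, ∃ O ∈ 𝒰, G ⊆ O ∧ ∃ U C : Set I, IsOpen U ∧ C.Countable ∧
      range v ⊆ U ∧ U \ C ⊆ O := fun v => by
    obtain ⟨O, o1, o2⟩ := hU.2.2 _ (hG.union (finite_range (α := X) v)).isCompact
    exact ⟨O, o1, subset_union_left.trans o2,
      nb (hU.1 O o1) (finite_range (α := X) v) (subset_union_right.trans o2)⟩
  choose O o1 o2 U C a1 a2 a3 a4 using this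
  obtain ⟨t, ht⟩ := isCompact_univ.elim_finite_subcover (fun v : Fin n → I => pi univ fun _ => U v)
    (fun v => isOpen_set_pi finite_univ fun _ _ => a1 v)
    fun v _ => mem_iUnion.2 ⟨v, fun i _ => a3 v ⟨i, rfl⟩⟩
  obtain ⟨c, hc⟩ := ((t.countable_toSet.biUnion fun v _ => a2 v).insert 0).exists_eq_range
    (insert_nonempty _ _)
  refine ⟨O '' t, c, fun _ _ => ⟨⟨t.finite_toSet.image _, by rintro _ ⟨v, -, rfl⟩; exact o1 v⟩,
    fun w => ?_⟩⟩
  obtain ⟨v, v1, v2⟩ := mem_iUnion₂.1 (ht (mem_univ w))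
  exact ⟨O v, ⟨v, v1, rfl⟩, o2 v, fun i hi => a4 v ⟨v2 i trivial, fun h =>
    hi (hc.subset (Or.inr (mem_biUnion v1 h)))⟩⟩

theorem strat : ∃ τ : List (Set (Set X)) → Set (Set X),
    (∀ (l : List (Set (Set X))) (𝒰 : Set (Set X)), K 𝒰 →
      (τ (l ++ [𝒰])).Finite ∧ τ (l ++ [𝒰]) ⊆ 𝒰) ∧
    ∀ 𝒰 : ℕ → Set (Set X), (∀ n, K (𝒰 n)) → K (⋃ n, τ ((List.range (n + 1)).map 𝒰)) := by
  choose ℱ c h using step
  let G : List (ℕ → X) → Set X := fun L => image2 (fun f i => f i) {f | f ∈ L} (Iio L.length)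
  have hG : ∀ L, (G L).Finite := fun L => (List.finite_toSet L).image2 _ (finite_Iio _)
  obtain ⟨E, e0, e1⟩ : ∃ E : List (Set (Set X)) → List (ℕ → X), E [] = [] ∧
      ∀ 𝒰 l, E (𝒰 :: l) = c (G (E l)) 𝒰 l.length :: E l :=
    ⟨fun s => List.rec (motive := fun _ => List (ℕ → X)) []
      (fun 𝒰 l b => c (G b) 𝒰 l.length :: b) s, rfl, fun _ _ => rfl⟩
  refine ⟨fun l => ℱ (G (E l.reverse.tail)) (l.reverse.headD ∅) l.reverse.tail.length,
    fun l 𝒰 hU => by simpa using (h _ _ _ (hG _) hU).1, fun 𝒰 hU => ?_⟩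
  let R : ℕ → List (Set (Set X)) := fun n => ((List.range n).map 𝒰).reverse
  have r1 : ∀ n, R (n + 1) = 𝒰 n :: R n := fun n => by simp [R, List.range_succ]
  have r2 : ∀ n, (R n).length = n := fun n => by simp [R]
  have r3 : ∀ n, (E (R n)).length = n := fun n => by
    induction n with
    | zero => exact congrArg List.length e0
    | succ n ih => rw [r1, e1, List.length_cons, ih]
  let d : ℕ → ℕ → X := fun n => c (G (E (R n))) (𝒰 n) n
  have r4 : ∀ m n, m < n → d m ∈ E (R n) := fun m n hn => by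
    induction n with
    | zero => omega
    | succ n ih =>
      rw [r1, e1, r2]
      rcases Nat.lt_succ_iff_lt_or_eq.1 hn with h1 | rfl
      · exact List.mem_cons_of_mem _ (ih h1)
      · exact List.mem_cons_self
  have r5 : ∀ n, ℱ (G (E ((List.range (n + 1)).map 𝒰).reverse.tail))
      (((List.range (n + 1)).map 𝒰).reverse.headD ∅)
      ((List.range (n + 1)).map 𝒰).reverse.tail.length = ℱ (G (E (R n))) (𝒰 n) n := fun n => by
    rw [show ((List.range (n + 1)).map 𝒰).reverse = 𝒰 n :: R n from r1 n]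
    simp [r2]
  simp only [r5]
  refine K_of_fin cpt_fin (fun U hU' => ?_) fun F hF => ?_
  · obtain ⟨n, hn⟩ := mem_iUnion.1 hU'
    exact (hU n).1 U ((h _ _ _ (hG _) (hU n)).1.2 hn)
  have h1 : ∀ x ∈ F, ∀ᶠ n in atTop, (∃ m i, d m i = x) → x ∈ G (E (R n)) := fun x _ => by
    by_cases hx : ∃ m i, d m i = x
    · obtain ⟨m, i, rfl⟩ := hx
      filter_upwards [eventually_gt_atTop m, eventually_gt_atTop i] with n h1 h2 _
      exact ⟨d m, r4 m n h1, i, by rw [r3]; exact h2, rfl⟩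
    · exact Eventually.of_forall fun _ h => (hx h).elim
  obtain ⟨v, hv⟩ := (hF.countable.insert (0 : I)).exists_eq_range (insert_nonempty _ _)
  have h2 : ∀ x ∈ F, ∀ᶠ n in atTop, ∃ i < n, v i = x := fun x hx => by
    obtain ⟨i, hi⟩ := hv.subset (Or.inr hx)
    filter_upwards [eventually_gt_atTop i] with n hn using ⟨i, hn, hi⟩
  obtain ⟨n, n1, n2⟩ := (((eventually_all_finite hF).2 h1).and
    ((eventually_all_finite hF).2 h2)).exists
  obtain ⟨O, o1, o2, o3⟩ := (h _ _ n (hG (E (R n))) (hU n)).2 fun i => v i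
  refine ⟨O, mem_iUnion.2 ⟨n, o1⟩, fun x hx => ?_⟩
  by_cases h3 : ∃ m i, d m i = x
  · exact o2 (n1 x hx h3)
  · obtain ⟨i, i1, rfl⟩ := n2 x hx
    exact o3 ⟨i, i1⟩ fun ⟨j, hj⟩ => h3 ⟨n, j, hj⟩

theorem not_roth : ¬ ∀ 𝒰 : ℕ → Set (Set X), (∀ n, K (𝒰 n)) →
    ∃ U : ℕ → Set X, (∀ n, U n ∈ 𝒰 n) ∧ K (range U) := by
  intro h
  obtain ⟨U, u1, u2⟩ := h (fun n => {U : Set I | IsOpen U ∧ volume U ≤ 2⁻¹ ^ n / 4}) fun n =>
    K_of_fin cpt_fin (fun U hU => op_of hU.1) fun F hF => by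
      obtain ⟨U, a1, a2, a3⟩ := small F hF n
      exact ⟨U, ⟨a1, a3⟩, a2⟩
  exact not_cover (U := U) (fun n => (u1 n).2) (by rw [← sUnion_range]; exact u2.2.1)

end Pool.Agent.H31.KCov
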