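import Pool.Agent.H31.BJ
import Pool.Agent.H31.KMen

set_option autoImplicit false

open Set Filter Topology

namespace Pool.Agent.H31.KDet

open Omega1 Suit BJ KCov

theorem sep {S : Set G} (hS : S.Countable) (x : G) : ∃ b, ∀ y ∈ S, y ∈ U x b → y = x := by
  have : ∀ y : G, ∃ i, y.1 i = x.1 i → y = x := fun y => by
    by_contra h
    push Not at h
    exact (h ⊥).2 (Subtype.ext (funext fun i => (h i).1))
  choose i hi using this
  obtain ⟨b, hb⟩ := exists_bound (hS.image i)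
  exact ⟨b, fun y hy h => hi y (h _ (hb _ ⟨y, hy, rfl⟩))⟩

theorem cfin (C : Set G) (hC : IsCompact C) : C.Finite := by
  by_contra h
  obtain ⟨T, t1, t3, t2⟩ := Set.Infinite.exists_subset_countable_infinite h
  refine t2 (fin_of_closed hC t1 fun S hS => isOpen_compl_iff.1 (isOpen_iff_mem_nhds.2 fun x hx => ?_))
  obtain ⟨b, hb⟩ := sep (t3.mono hS) x
  exact mem_of_superset (U_nhds x b) fun y hy h => hx (hb y h hy ▸ h)

theorem exists_ρ : ∃ ρ : G → W, (∀ x i, ρ x ≤ i → x.1 i = 0) ∧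
    ∀ x b, (∀ i, b ≤ i → x.1 i = 0) → ρ x ≤ b := by
  choose ρ h1 h2 using fun x : G =>
    WellFounded.has_min (wellFounded_lt (α := W)) {b | ∀ i, b ≤ i → x.1 i = 0} (bdd x.2)
  exact ⟨ρ, h1, fun x b h => not_lt.1 (h2 x b h)⟩

noncomputable def ρ : G → W := exists_ρ.choose

theorem rk_ρ : Rk ρ := fun b => by
  refine ((N_countable b).preimage (f := fun x : G => x.1) Subtype.val_injective).mono fun x hx => ?_
  have : tr b x.1 = x.1 := funext fun i => by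
    rcases lt_or_ge i b with h | h
    · exact tr_lt _ h
    · rw [tr_ge _ h, exists_ρ.choose_spec.1 x i ((le_of_lt hx).trans h)]
  show x.1 ∈ N b
  exact this ▸ tr_mem b x.2

noncomputable def trG (b : W) (x : G) : G := ⟨tr b x.1, N_le b (tr_mem b x.2)⟩

theorem ρ_tr (b : W) (x : G) : ρ (trG b x) ≤ b :=
  exists_ρ.choose_spec.2 _ _ fun _ hi => tr_ge _ hi

theorem stat_univ : Stat univ := fun h => by
  obtain ⟨d, -, h⟩ := exists_S.choose_spec.1 h
  exact ⟨d, trivial, h⟩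

theorem lemA {𝒰 : Set (Set G)} (h : K 𝒰) : ∃ (a : W) (e : ℕ → Set G), (∀ n, e n ∈ 𝒰) ∧
    ∀ l : List G, ∃ n, ∀ x ∈ l, U x a ⊆ e n := by
  have : ∀ l : List G, ∃ O ∈ 𝒰, ∃ b, ∀ x ∈ l, U x b ⊆ O := fun l => by
    obtain ⟨O, o1, o2⟩ := h.2.2 _ (List.finite_toSet l).isCompact
    have : ∀ x ∈ l, ∃ b, U x b ⊆ O := fun x hx => by
      obtain ⟨b, -, hb⟩ := (basis x).mem_iff.1 ((h.1 O o1).mem_nhds (o2 hx))
      exact ⟨b, hb⟩
    choose! b hb using this
    obtain ⟨c, hc⟩ := exists_bound ((List.finite_toSet l).countable.image b)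
    exact ⟨O, o1, c, fun x hx y hy => hb x hx fun i hi => hy i (hi.trans (hc _ ⟨x, hx, rfl⟩))⟩
  choose O o1 β o2 using this
  have : ∀ a, ∃ d, a < d ∧ Lim d ∧ ∀ l, rl ρ l < d → β l < d := fun a => by
    obtain ⟨d, -, d1, d2⟩ := clos rk_ρ.list (fun l => max a (β l)) stat_univ
    exact ⟨d, (le_max_left _ _).trans_lt (d2 [] d1.1), d1,
      fun l hl => (le_max_right _ _).trans_lt (d2 l hl)⟩
  choose d d1 d2 d3 using this
  obtain ⟨u, h1⟩ : ∃ u : ℕ → W, ∀ n, u (n + 1) = d (u n) :=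
    ⟨fun n => Nat.rec (motive := fun _ => W) ⊥ (fun _ b => d b) n, fun _ => rfl⟩
  have hu : StrictMono fun n => d (u n) := strictMono_nat_of_lt_succ fun n => by
    rw [h1 n]; exact d1 _
  obtain ⟨a, ha⟩ := exists_bound_seq fun n => d (u n)
  obtain ⟨e, he⟩ := (rk_ρ.list a).exists_eq_range ⟨[], bot_le.trans_lt (ha 0)⟩
  refine ⟨a, fun n => O (e n), fun n => o1 _, fun l => ?_⟩
  obtain ⟨_, ⟨n, rfl⟩, hn⟩ := (infinite_range_of_injective hu.injective).exists_notMem_finite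
    ((List.finite_toSet l).biUnion fun x _ => L_fin x.2)
  have : ∀ x ∈ l, ∃ g < d (u n), ∀ i, g < i → i < d (u n) → x.1 i = 0 := fun x hx => by
    by_contra h2
    push Not at h2
    exact hn (mem_biUnion hx h2)
  choose! g g1 g2 using this
  obtain ⟨b, b1, b2⟩ := (d2 (u n)).2 _ (rl_lt.2 ⟨(d2 _).1, g1⟩)
  have b3 : rl ρ (l.map (trG b)) < d (u n) := rl_lt.2 ⟨(d2 _).1, fun y hy => by
    obtain ⟨x, -, rfl⟩ := List.mem_map.1 hy
    exact (ρ_tr b x).trans_lt b2⟩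
  obtain ⟨m, hm⟩ := he.subset (b3.trans (ha n))
  refine ⟨m, fun x hx y hy => ?_⟩
  simp only [hm]
  refine o2 _ (trG b x) (List.mem_map.2 ⟨x, hx, rfl⟩) fun i hi => ?_
  have h3 := hi.trans (d3 _ _ b3)
  rw [hy i (h3.trans (ha n))]
  rcases lt_or_ge i b with h4 | h4
  · exact (tr_lt _ h4).symm
  · rw [g2 x hx i (((rl_lt.1 b1).2 x hx).trans_le h4) h3]
    exact (tr_ge _ h4).symm

theorem one_total (σ : List (Set G) → Set (Set G)) (hσ : ∀ l, K (σ l)) :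
    ∃ V : ℕ → Set G, (∀ n, V n ∈ σ ((List.range n).map V)) ∧ K (range V) := by
  choose a e e1 k e2 using fun l => lemA (hσ l)
  obtain ⟨H, h0, h1⟩ : ∃ H : List ℕ → List (Set G), H [] = [] ∧
      ∀ a s, H (a :: s) = H s ++ [e (H s) a] :=
    ⟨fun s => List.rec (motive := fun _ => List (Set G)) [] (fun a _ b => b ++ [e b a]) s,
      rfl, fun _ _ => rfl⟩
  obtain ⟨b, hb⟩ := exists_bound (countable_range fun s => a (H s))
  obtain ⟨c, hc⟩ := exists_gt b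
  obtain ⟨F, hF⟩ := (rk_ρ.list c).exists_eq_range ⟨[], bot_le.trans_lt hc⟩
  obtain ⟨pos, p0, p1⟩ : ∃ pos : ℕ → List ℕ, pos 0 = [] ∧
      ∀ n, pos (n + 1) = k (H (pos n)) (F n) :: pos n :=
    ⟨fun n => Nat.rec (motive := fun _ => List ℕ) [] (fun n s => k (H s) (F n) :: s) n,
      rfl, fun _ => rfl⟩
  have h2 : ∀ n, (List.range n).map (fun n => e (H (pos n)) (k (H (pos n)) (F n))) = H (pos n) :=
    fun n => by
    induction n with
    | zero => rw [p0, h0]; rfl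
    | succ n ih => rw [List.range_succ, List.map_append, ih, p1, h1]; rfl
  refine ⟨fun n => e (H (pos n)) (k (H (pos n)) (F n)), fun n => by rw [h2]; exact e1 _ _,
    K_of_fin cfin ?_ fun C hC => ?_⟩
  · rintro _ ⟨n, rfl⟩
    exact (hσ _).1 _ (e1 _ _)
  · obtain ⟨n, hn⟩ := hF.subset (show rl ρ (hC.toFinset.toList.map (trG b)) < c from
      rl_lt.2 ⟨bot_le.trans_lt hc, fun y hy => by
        obtain ⟨x, -, rfl⟩ := List.mem_map.1 hy
        exact (ρ_tr b x).trans_lt hc⟩)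
    refine ⟨_, ⟨n, rfl⟩, fun x hx => e2 _ _ (trG b x) ?_ fun i hi =>
      (tr_lt _ (hi.trans (hb _ ⟨_, rfl⟩))).symm⟩
    rw [hn]
    exact List.mem_map.2 ⟨x, by simpa using hx, rfl⟩

theorem reach {α : Type*} {R : α → Set (Set G) → Prop} {Win : (ℕ → α) → Prop} [Nonempty α]
    (h : ∀ σ : List α → Set (Set G), (∀ l, K (σ l)) →
      ∃ V : ℕ → α, (∀ n, R (V n) (σ ((List.range n).map V))) ∧ Win V)
    (σ : List α → Set (Set G))
    (hσ : ∀ (V : ℕ → α) (n : ℕ), (∀ k < n, R (V k) (σ ((List.range k).map V))) →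
      K (σ ((List.range n).map V))) :
    ∃ V : ℕ → α, (∀ n, R (V n) (σ ((List.range n).map V))) ∧ Win V := by
  classical
  have h0 : K (σ []) := hσ (fun _ => Classical.arbitrary α) 0 fun _ h => by omega
  obtain ⟨U, u1, u2⟩ := h (fun l => if K (σ l) then σ l else σ []) fun l => by
    split_ifs with h1
    exacts [h1, h0]
  refine ⟨U, fun n => ?_, u2⟩
  induction n using Nat.strong_induction_on with
  | _ n ih =>
    have := u1 n
    rwa [if_pos (hσ U n ih)] at this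

theorem onefin_total (σ : List (Set (Set G)) → Set (Set G)) (hσ : ∀ l, K (σ l)) :
    ∃ V : ℕ → Set (Set G), (∀ n, (V n).Finite ∧ V n ⊆ σ ((List.range n).map V)) ∧
      K (⋃ n, V n) := by
  obtain ⟨V, v1, v2⟩ := one_total (fun l => σ (l.map fun O => {O})) fun l => hσ _
  refine ⟨fun n => {V n}, fun n => ⟨finite_singleton _, singleton_subset_iff.2 ?_⟩,
    by rwa [iUnion_singleton_eq_range]⟩
  have := v1 n
  rwa [List.map_map] at this

def cv (a : W) : Set (Set G) := {O | ∃ F : Set G, F.Finite ∧ O = ⋃ x ∈ F, U x a}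

theorem cv_K (a : W) : K (cv a) := K_of_fin cfin
  (by rintro _ ⟨F, -, rfl⟩; exact isOpen_biUnion fun x _ => (U_clopen x a).2)
  fun C hC => ⟨_, ⟨C, hC, rfl⟩, fun x hx => mem_biUnion hx fun _ _ => rfl⟩

theorem key {T : W → Set (Set G)} (hT : ∀ a, (T a).Finite ∧ T a ⊆ cv a) :
    ∃ k, ∀ b, ∃ c, ∀ x : G, (∀ y : G, ρ y < k → x ∉ U y b) → ∃ a < c, x ∉ ⋃₀ T a := by
  have h1 : (⋂ a, ⋃₀ T a).Finite := by
    by_contra h
    obtain ⟨S, s1, s3, s2⟩ := Set.Infinite.exists_subset_countable_infinite h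
    choose g hg using sep s3
    obtain ⟨a, ha⟩ := exists_bound (s3.image g)
    choose! F f1 f2 using fun O (hO : O ∈ T a) => (hT a).2 hO
    have : ∀ x ∈ S, ∃ z, z ∈ (⋃ O ∈ T a, F O) ∧ x ∈ U z a := fun x hx => by
      obtain ⟨O, o1, o2⟩ := mem_iInter.1 (s1 hx) a
      rw [f2 O o1] at o2
      obtain ⟨z, z1, z2⟩ := mem_iUnion₂.1 o2
      exact ⟨z, mem_biUnion o1 z1, z2⟩
    choose! z z1 z2 using this
    refine s2 (Set.Finite.of_injOn (f := z) z1 (fun x hx y hy h => ?_)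
      ((hT a).1.biUnion f1))
    refine (hg x y hy fun i hi => ?_).symm
    have := hi.trans (ha _ ⟨x, hx, rfl⟩)
    rw [z2 x hx i this, z2 y hy i this, h]
  have h2 : ∀ a, IsClosed (⋃₀ T a) := fun a => by
    rw [sUnion_eq_biUnion]
    refine (hT a).1.isClosed_biUnion fun O hO => ?_
    obtain ⟨F, f1, rfl⟩ := (hT a).2 hO
    exact f1.isClosed_biUnion fun x _ => (U_clopen x a).1
  obtain ⟨k, hk⟩ := exists_bound (h1.countable.image ρ)
  refine ⟨k, fun b => ?_⟩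
  obtain ⟨a0, e, e1, e2⟩ := lemA (𝒰 := {O | ∃ A : Set W, A.Finite ∧
      O = (⋃ y ∈ ⋂ a, ⋃₀ T a, U y b) ∪ ⋃ a ∈ A, (⋃₀ T a)ᶜ}) (K_of_fin cfin (by
      rintro _ ⟨A, -, rfl⟩
      exact (isOpen_biUnion fun y _ => (U_clopen y b).2).union
        (isOpen_biUnion fun a _ => (h2 a).isOpen_compl)) fun C hC => by
      have : ∀ x : G, ∃ a, x ∈ ⋃₀ T a → x ∈ ⋂ a, ⋃₀ T a := fun x => by
        by_contra h
        push Not at h
        exact (h ⊥).2 (mem_iInter.2 fun a => (h a).1)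
      choose a ha using this
      refine ⟨_, ⟨a '' C, hC.image a, rfl⟩, fun x hx => ?_⟩
      by_cases h : x ∈ ⋃₀ T (a x)
      · exact Or.inl (mem_biUnion (ha x h) fun _ _ => rfl)
      · exact Or.inr (mem_biUnion ⟨x, hx, rfl⟩ h))
  choose A a1 a2 using e1
  obtain ⟨c, hc⟩ := exists_bound (countable_iUnion fun n => (a1 n).countable)
  refine ⟨c, fun x hx => ?_⟩
  obtain ⟨n, hn⟩ := e2 [x]
  have := hn x (by simp) fun _ _ => rfl
  rw [a2] at this
  rcases this with h | h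
  · obtain ⟨y, y1, y2⟩ := mem_iUnion₂.1 h
    exact (hx y (hk _ ⟨y, y1, rfl⟩) y2).elim
  · obtain ⟨a, b1, b2⟩ := mem_iUnion₂.1 h
    exact ⟨a, hc _ (mem_iUnion.2 ⟨n, b1⟩), b2⟩

theorem twofin (τ : List (Set (Set G)) → Set (Set G))
    (hτ : ∀ (l : List (Set (Set G))) (𝒰 : Set (Set G)), (∀ 𝒱 ∈ l, K 𝒱) → K 𝒰 →
      (τ (l ++ [𝒰])).Finite ∧ τ (l ++ [𝒰]) ⊆ 𝒰) :
    ∃ 𝒰 : ℕ → Set (Set G), (∀ n, K (𝒰 n)) ∧ ¬ K (⋃ n, τ ((List.range (n + 1)).map 𝒰)) := by
  choose k c hc using fun s : List W => key (T := fun a => τ (s.map cv ++ [cv a])) fun a =>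
    hτ _ _ (fun 𝒱 h => by
      obtain ⟨b, -, rfl⟩ := List.mem_map.1 h
      exact cv_K b) (cv_K a)
  obtain ⟨d, -, d1, d2⟩ := clos (rk_id.list.prod rk_id) (fun p => max (k p.1) (c p.1 p.2)) stat_univ
  let x : G := ⟨gen (.inr d), Submodule.subset_span ⟨_, rfl⟩⟩
  have : ∀ s : {s : List W // rl id s < d}, ∃ a, x ∉ ⋃₀ τ (s.1.map cv ++ [cv a]) ∧
      rl id (s.1 ++ [a]) < d := fun s => by
    obtain ⟨i, i1, i2⟩ := C_cof d1.lad ((le_max_left _ _).trans_lt (d2 (s, ⊥) (max_lt s.2 d1.1)))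
    obtain ⟨b, b1, b2⟩ := d1.2 i (C_lt i1)
    obtain ⟨a, a1, a2⟩ := hc s b x fun y hy h => by
      have := h i b1
      rw [exists_ρ.choose_spec.1 y i (hy.trans i2).le] at this
      exact one_ne_zero ((indicator_of_mem i1 (1 : W → ℤ)).symm.trans this)
    refine ⟨a, a2, rl_lt.2 ⟨d1.1, fun j hj => ?_⟩⟩
    rcases List.mem_append.1 hj with h | h
    · exact (rl_lt.1 s.2).2 j h
    · rw [List.mem_singleton.1 h]
      exact a1.trans ((le_max_right _ _).trans_lt (d2 (s, b) (max_lt s.2 b2)))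
  choose f f1 f2 using this
  obtain ⟨u, u0, u1⟩ : ∃ u : ℕ → {l : List W // rl id l < d}, (u 0).1 = [] ∧
      ∀ n, (u (n + 1)).1 = (u n).1 ++ [f (u n)] :=
    ⟨fun n => Nat.rec (motive := fun _ => {l : List W // rl id l < d}) ⟨[], d1.1⟩
      (fun _ l => ⟨_, f2 l⟩) n, rfl, fun _ => rfl⟩
  have h2 : ∀ n, (List.range n).map (fun n => cv (f (u n))) = (u n).1.map cv := fun n => by
    induction n with
    | zero => rw [u0]; rfl
    | succ n ih => rw [List.range_succ, List.map_append, ih, u1, List.map_append]; rfl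
  refine ⟨fun n => cv (f (u n)), fun n => cv_K _, fun h => ?_⟩
  obtain ⟨O, o1, o2⟩ := h.2.1.superset (mem_univ x)
  obtain ⟨n, hn⟩ := mem_iUnion.1 o1
  rw [List.range_succ, List.map_append, h2] at hn
  exact f1 (u n) ⟨O, hn, o2⟩

theorem two (τ : List (Set (Set G)) → Set G)
    (hτ : ∀ (l : List (Set (Set G))) (𝒰 : Set (Set G)), (∀ 𝒱 ∈ l, K 𝒱) → K 𝒰 →
      τ (l ++ [𝒰]) ∈ 𝒰) :
    ∃ 𝒰 : ℕ → Set (Set G), (∀ n, K (𝒰 n)) ∧
      ¬ K (range fun n => τ ((List.range (n + 1)).map 𝒰)) := by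
  obtain ⟨𝒰, h1, h2⟩ := twofin (fun l => {τ l}) fun l 𝒰 h h' =>
    ⟨finite_singleton _, singleton_subset_iff.2 (hτ l 𝒰 h h')⟩
  exact ⟨𝒰, h1, by rwa [iUnion_singleton_eq_range] at h2⟩

end Pool.Agent.H31.KDet
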