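import Mathlib

set_option autoImplicit false

open Set Cardinal Topology

namespace Pool.Agent.H31.KDet

/-- iterated power sets of the naturals -/
def B : ℕ → Type
  | 0 => ℕ
  | (n + 1) => Set (B n)

theorem B_lt (n : ℕ) : #(B n) < #(B (n + 1)) := by
  show #(B n) < #(Set (B n))
  rw [Cardinal.mk_set]; exact Cardinal.cantor _

theorem B_mono {i j : ℕ} (h : i ≤ j) : #(B i) ≤ #(B j) := by
  induction h with
  | refl => exact le_rfl
  | step _ ih => exact ih.trans (B_lt _).le

theorem B_inf (n : ℕ) : ℵ₀ ≤ #(B n) := by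
  have h0 : #(B 0) = ℵ₀ := Cardinal.mk_nat
  exact h0 ▸ B_mono (Nat.zero_le n)

/-- the underlying set of the n-th factor -/
def X (n : ℕ) : Type := B (n + 1)

/-- small subsets -/
def Sm {n : ℕ} (s : Set (X n)) : Prop := #s ≤ #(B n)

theorem Sm.mono {n : ℕ} {s t : Set (X n)} (h : Sm t) (hs : s ⊆ t) : Sm s :=
  (Cardinal.mk_le_mk_of_subset hs).trans h

theorem Sm.union {n : ℕ} {s t : Set (X n)} (hs : Sm s) (ht : Sm t) : Sm (s ∪ t) :=
  (Cardinal.mk_union_le s t).trans (Cardinal.add_le_of_le (B_inf n) hs ht)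

theorem Sm.iUnion {n : ℕ} {s : ℕ → Set (X n)} (hs : ∀ i, Sm (s i)) : Sm (⋃ i, s i) := by
  refine (Cardinal.mk_iUnion_le s).trans ?_
  rw [Cardinal.mk_nat]
  exact Cardinal.mul_le_of_le (B_inf n) (B_inf n) (ciSup_le' hs)

theorem not_sm_univ (n : ℕ) : ¬ Sm (univ : Set (X n)) := by
  unfold Sm
  rw [Cardinal.mk_univ, not_le]
  exact B_lt n

theorem sm_singleton {n : ℕ} (a : X n) : Sm ({a} : Set (X n)) := by
  unfold Sm
  rw [Cardinal.mk_singleton]
  exact Cardinal.one_le_aleph0.trans (B_inf n)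

theorem sm_empty {n : ℕ} : Sm (∅ : Set (X n)) := by
  unfold Sm; simp

theorem exists_not_mem {n : ℕ} {s : Set (X n)} (hs : Sm s) : ∃ x, x ∉ s := by
  by_contra h
  push Not at h
  exact not_sm_univ n (hs.mono fun x _ => h x)

instance topX (n : ℕ) : TopologicalSpace (X n) where
  IsOpen U := U.Nonempty → Sm Uᶜ
  isOpen_univ := fun _ => by rw [compl_univ]; exact sm_empty
  isOpen_inter := fun s t hs ht h => by
    rw [compl_inter]
    exact (hs (h.mono inter_subset_left)).union (ht (h.mono inter_subset_right))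
  isOpen_sUnion := fun S hS h => by
    obtain ⟨x, t, ht, hx⟩ := h
    exact (hS t ht ⟨x, hx⟩).mono (compl_subset_compl.2 (subset_sUnion_of_mem ht))

theorem isOpenX {n : ℕ} {U : Set (X n)} : IsOpen U ↔ (U.Nonempty → Sm Uᶜ) := Iff.rfl

theorem isClosedX {n : ℕ} {s : Set (X n)} (hs : Sm s) : IsClosed s := by
  rw [← isOpen_compl_iff, isOpenX, compl_compl]; exact fun _ => hs

instance (n : ℕ) : T1Space (X n) := ⟨fun a => isClosedX (sm_singleton a)⟩

instance (n : ℕ) : Nonempty (X n) := by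
  obtain ⟨x, -⟩ := exists_not_mem (sm_empty (n := n)); exact ⟨x⟩

instance (n : ℕ) : IrreducibleSpace (X n) where
  isPreirreducible_univ := by
    intro U V hU hV hU' hV'
    rw [univ_inter] at hU' hV'
    obtain ⟨x, hx⟩ := exists_not_mem ((hU hU').union (hV hV'))
    simp only [mem_union, mem_compl_iff, not_or, not_not] at hx
    exact ⟨x, trivial, hx⟩
  toNonempty := inferInstance

/-- the sobrification of the n-th factor -/
def R (n : ℕ) : Type := Option (X n)

def eta (n : ℕ) : X n → R n := fun x => some x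
def top (n : ℕ) : R n := none

theorem eta_inj {n : ℕ} {a b : X n} (h : eta n a = eta n b) : a = b := Option.some_injective _ h
theorem eta_ne_top {n : ℕ} (a : X n) : eta n a ≠ top n := Option.some_ne_none a
theorem R_cases {n : ℕ} (r : R n) : r = top n ∨ ∃ a, r = eta n a := by
  rcases r with _ | a
  · exact Or.inl rfl
  · exact Or.inr ⟨a, rfl⟩

instance topR (n : ℕ) : TopologicalSpace (R n) where
  IsOpen U := U.Nonempty → (top n ∈ U ∧ Sm (eta n ⁻¹' U)ᶜ)
  isOpen_univ := fun _ => ⟨trivial, by rw [preimage_univ, compl_univ]; exact sm_empty⟩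
  isOpen_inter := fun s t hs ht h => by
    have h1 := hs (h.mono inter_subset_left)
    have h2 := ht (h.mono inter_subset_right)
    refine ⟨⟨h1.1, h2.1⟩, ?_⟩
    rw [preimage_inter, compl_inter]
    exact h1.2.union h2.2
  isOpen_sUnion := fun S hS h => by
    obtain ⟨x, t, ht, hx⟩ := h
    have h1 := hS t ht ⟨x, hx⟩
    exact ⟨⟨t, ht, h1.1⟩,
      h1.2.mono (compl_subset_compl.2 (preimage_mono (subset_sUnion_of_mem ht)))⟩

theorem isOpenR {n : ℕ} {U : Set (R n)} :
    IsOpen U ↔ (U.Nonempty → (top n ∈ U ∧ Sm (eta n ⁻¹' U)ᶜ)) := Iff.rfl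

theorem cont_eta (n : ℕ) : Continuous (eta n) := by
  rw [continuous_def]
  intro U hU h
  obtain ⟨x, hx⟩ := h
  exact (hU ⟨_, hx⟩).2

theorem isOpen_compl_image {n : ℕ} {s : Set (X n)} (hs : Sm s) : IsOpen (eta n '' s)ᶜ := by
  intro _
  refine ⟨?_, hs.mono ?_⟩
  · rintro ⟨a, -, ha⟩; exact eta_ne_top a ha
  · intro x hx
    simp only [mem_compl_iff, mem_preimage, not_not] at hx
    obtain ⟨a, ha, hax⟩ := hx
    rwa [← eta_inj hax]

theorem top_spec {n : ℕ} (r : R n) : top n ⤳ r := by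
  rw [specializes_iff_forall_open]
  intro U hU hr
  exact (hU ⟨r, hr⟩).1

theorem eta_spec {n : ℕ} {a : X n} {r : R n} (h : eta n a ⤳ r) : r = eta n a := by
  by_contra hne
  have h1 : IsOpen (eta n '' {a})ᶜ := isOpen_compl_image (sm_singleton a)
  have := h.mem_open h1 (by simpa using hne)
  simp at this

instance (n : ℕ) : T0Space (R n) := by
  refine ⟨fun a b h => ?_⟩
  rcases R_cases a with rfl | ⟨a, rfl⟩
  · rcases R_cases b with rfl | ⟨b, rfl⟩
    · rfl
    · exact eta_spec h.specializes'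
  · exact (eta_spec h.specializes).symm

/-- y is the generic point of the closure of the range of f -/
def Gen {α Y : Type} [TopologicalSpace Y] (f : α → Y) (y : Y) : Prop :=
  ∀ U, IsOpen U → (y ∈ U ↔ ∃ x, f x ∈ U)

theorem closure_eq_iff {Y : Type} [TopologicalSpace Y] (S : Set Y) (y : Y) :
    closure S = closure {y} ↔ ∀ U, IsOpen U → (y ∈ U ↔ (S ∩ U).Nonempty) := by
  constructor
  · intro h U hU
    constructor
    · intro hy
      have : y ∈ closure S := h ▸ subset_closure (mem_singleton y)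
      rw [inter_comm]; exact mem_closure_iff.1 this U hU hy
    · rintro ⟨x, hx, hxU⟩
      have : x ∈ closure ({y} : Set Y) := h ▸ subset_closure hx
      obtain ⟨z, hz, rfl⟩ := mem_closure_iff.1 this U hU hxU
      exact hz
  · intro h
    apply Subset.antisymm
    · refine closure_minimal (fun x hx => ?_) isClosed_closure
      rw [mem_closure_iff]
      intro U hU hxU
      exact ⟨y, (h U hU).2 ⟨x, hx, hxU⟩, rfl⟩
    · refine closure_minimal ?_ isClosed_closure
      rintro x rfl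
      rw [mem_closure_iff]
      intro U hU hxU
      rw [inter_comm]; exact (h U hU).1 hxU

theorem gen_iff {α Y : Type} [TopologicalSpace Y] (f : α → Y) (y : Y) :
    closure (range f) = closure {y} ↔ Gen f y := by
  rw [closure_eq_iff]
  refine forall_congr' fun U => forall_congr' fun _ => iff_congr Iff.rfl ?_
  constructor
  · rintro ⟨_, ⟨x, rfl⟩, hx⟩; exact ⟨x, hx⟩
  · rintro ⟨x, hx⟩; exact ⟨_, ⟨x, rfl⟩, hx⟩

theorem closure_unique {Y : Type} [TopologicalSpace Y] [T0Space Y] {S : Set Y} {y : Y}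
    (h : closure S = closure {y}) : ∃! y, closure S = closure {y} :=
  ⟨y, h, fun z hz => (inseparable_iff_closure_eq.2 (hz.symm.trans h)).eq⟩

theorem Gen.unique {α Y : Type} [TopologicalSpace Y] [T0Space Y] {f : α → Y} {y z : Y}
    (hy : Gen f y) (hz : Gen f z) : y = z :=
  (inseparable_iff_closure_eq.2 (((gen_iff f y).2 hy).symm.trans ((gen_iff f z).2 hz))).eq

theorem Gen.comp {α Y Z : Type} [TopologicalSpace Y] [TopologicalSpace Z] {f : α → Y} {y : Y}
    (hy : Gen f y) {g : Y → Z} (hg : Continuous g) : Gen (g ∘ f) (g y) :=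
  fun U hU => hy (g ⁻¹' U) (hU.preimage hg)

theorem Gen.of_comp {α Y Z : Type} [TopologicalSpace Y] [TopologicalSpace Z] {f : α → Y} {y : Y}
    {g : Y → Z} (hg : IsInducing g) (hy : Gen (g ∘ f) (g y)) : Gen f y := by
  intro U hU
  obtain ⟨V, hV, rfl⟩ := hg.isOpen_iff.1 hU
  exact hy V hV

/-- the class K -/
def K (Y : Type) [TopologicalSpace Y] : Prop :=
  T0Space Y ∧ ∀ (n : ℕ) (f : X n → Y), Continuous f → ∃ y, Gen f y

theorem sober_gen {Z Y : Type} [TopologicalSpace Z] [IrreducibleSpace Z] [TopologicalSpace Y]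
    [QuasiSober Y] (f : Z → Y) (hf : Continuous f) : ∃ y, Gen f y := by
  have h1 : IsIrreducible (range f) := by
    rw [← image_univ]
    exact (IrreducibleSpace.isIrreducible_univ Z).image f hf.continuousOn
  obtain ⟨y, hy⟩ := QuasiSober.sober h1.closure isClosed_closure
  exact ⟨y, (gen_iff f y).1 hy.def.symm⟩

theorem K_of_sober (Y : Type) [TopologicalSpace Y] (h0 : T0Space Y) (h : QuasiSober Y) : K Y :=
  ⟨h0, fun _ f hf => sober_gen f hf⟩

theorem gen_R {Z : Type} [TopologicalSpace Z] [IrreducibleSpace Z] {n : ℕ} (f : Z → R n)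
    (hf : Continuous f) : ∃ y, Gen f y := by
  by_cases h : Gen f (top n)
  · exact ⟨_, h⟩
  unfold Gen at h
  push Not at h
  obtain ⟨U, hU, h⟩ := h
  rcases h with ⟨h1, h2⟩ | ⟨h1, x, hx⟩
  swap
  · exact absurd (hU ⟨_, hx⟩).1 h1
  obtain ⟨x₀⟩ : Nonempty Z := inferInstance
  have hc : ∀ x, f x = f x₀ := by
    intro x
    by_contra hne
    have hs := (hU ⟨_, h1⟩).2
    rcases R_cases (f x₀) with h0 | ⟨a, ha⟩
    · exact h2 x₀ (h0 ▸ h1)
    have o1 : IsOpen (f ⁻¹' (eta n '' {a})ᶜ) := (isOpen_compl_image (sm_singleton a)).preimage hf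
    have o2 : IsOpen (f ⁻¹' (eta n '' ((eta n ⁻¹' U)ᶜ \ {a}))ᶜ) :=
      (isOpen_compl_image (hs.mono diff_subset)).preimage hf
    obtain ⟨z, -, hz1, hz2⟩ := (IrreducibleSpace.isIrreducible_univ Z).2 _ _ o1 o2
      ⟨x, trivial, by simpa [← ha] using hne⟩
      ⟨x₀, trivial, by
        rintro ⟨b, hb, hb'⟩
        exact hb.2 (eta_inj (hb'.trans ha))⟩
    rcases R_cases (f z) with h0 | ⟨b, hb⟩
    · exact h2 z (h0 ▸ h1)
    apply hz2
    refine ⟨b, ⟨fun hbU => h2 z (hb ▸ hbU), ?_⟩, hb.symm⟩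
    rintro rfl
    exact hz1 ⟨_, rfl, hb.symm⟩
  refine ⟨f x₀, fun V _ => ⟨fun h => ⟨x₀, h⟩, ?_⟩⟩
  rintro ⟨x, hx⟩
  rwa [← hc x]

theorem K_R (n : ℕ) : K (R n) := ⟨inferInstance, fun _ f hf => gen_R f hf⟩

theorem gen_eta (n : ℕ) : Gen (eta n) (top n) := by
  intro U hU
  constructor
  · intro h
    obtain ⟨x, hx⟩ := exists_not_mem (hU ⟨_, h⟩).2
    exact ⟨x, by simpa using hx⟩
  · rintro ⟨x, hx⟩
    exact (hU ⟨_, hx⟩).1

theorem reflection (n : ℕ) (Z : Type) [TopologicalSpace Z] (hZ : K Z) (g : X n → Z)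
    (hg : Continuous g) : ∃! h : R n → Z, Continuous h ∧ h ∘ eta n = g := by
  haveI := hZ.1
  obtain ⟨z, hz⟩ := hZ.2 n g hg
  refine ⟨fun r => Option.elim r z g, ⟨?_, rfl⟩, ?_⟩
  · rw [continuous_def]
    intro V hV hne
    have hzV : z ∈ V := by
      obtain ⟨r, hr⟩ := hne
      rcases R_cases r with rfl | ⟨a, rfl⟩
      · exact hr
      · exact (hz V hV).2 ⟨a, hr⟩
    exact ⟨hzV, (hV.preimage hg) ((hz V hV).1 hzV)⟩
  · rintro h ⟨hc, rfl⟩
    funext r
    rcases R_cases r with rfl | ⟨a, rfl⟩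
    · exact ((gen_eta n).comp hc).unique hz
    · rfl

/-- points of the product of the sobrifications with finitely many top coordinates -/
def Y : Type := {y : ∀ n, R n // {n | y n = top n}.Finite}

instance : TopologicalSpace Y := instTopologicalSpaceSubtype

theorem gen_pi {Z : Type} [TopologicalSpace Z] [IrreducibleSpace Z] (f : Z → ∀ n, R n)
    (hf : Continuous f) (y : ∀ n, R n) (hy : ∀ n, Gen (fun x => f x n) (y n)) : Gen f y := by
  intro U hU
  constructor
  · intro hyU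
    obtain ⟨I, u, hu, hI⟩ := isOpen_pi_iff.1 hU y hyU
    have h1 := isIrreducible_iff_sInter.1 (IrreducibleSpace.isIrreducible_univ Z)
      (I.image fun n => (fun x => f x n) ⁻¹' u n) ?_ ?_
    · obtain ⟨x, -, hx⟩ := h1
      refine ⟨x, hI fun n hn => ?_⟩
      exact hx ((fun x => f x n) ⁻¹' u n) (by
        simp only [Finset.coe_image, mem_image]; exact ⟨n, hn, rfl⟩)
    · intro t ht
      obtain ⟨n, hn, rfl⟩ := Finset.mem_image.1 ht
      exact (hu n hn).1.preimage ((continuous_apply n).comp hf)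
    · intro t ht
      obtain ⟨n, hn, rfl⟩ := Finset.mem_image.1 ht
      obtain ⟨x, hx⟩ := (hy n _ (hu n hn).1).1 (hu n hn).2
      exact ⟨x, trivial, hx⟩
  · rintro ⟨x, hx⟩
    have : y ⤳ f x := by
      rw [specializes_pi]
      intro n
      rw [specializes_iff_forall_open]
      intro V hV hxV
      exact (hy n V hV).2 ⟨x, hxV⟩
    exact this.mem_open hU hx

theorem sm_of_gen_top {j i : ℕ} (hji : j < i) (f : X j → R i) (hf : Continuous f)
    (h : Gen f (top i)) : Sm {x | f x ≠ top i} := by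
  have hs : Sm (eta i ⁻¹' range f) := by
    have h1 : #(eta i ⁻¹' range f) ≤ #(range f) :=
      Cardinal.mk_preimage_of_injective _ _ (fun _ _ h => eta_inj h)
    exact h1.trans (Cardinal.mk_range_le.trans (B_mono (Nat.succ_le_of_lt hji)))
  have ho := isOpen_compl_image hs
  obtain ⟨x, hx⟩ := (h _ ho).1 (by rintro ⟨a, -, ha⟩; exact eta_ne_top a ha)
  refine ((ho.preimage hf) ⟨x, hx⟩).mono ?_
  intro z hz
  simp only [mem_compl_iff, mem_preimage, not_not]
  rcases R_cases (f z) with h0 | ⟨b, hb⟩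
  · exact absurd h0 hz
  · exact ⟨b, ⟨z, hb⟩, hb.symm⟩

theorem K_Y : K Y := by
  refine ⟨inferInstanceAs (T0Space {y : ∀ n, R n // {n | y n = top n}.Finite}), ?_⟩
  intro j f hf
  have hf' : Continuous fun x => (f x).1 := continuous_subtype_val.comp hf
  choose y hy using fun n => gen_R (fun x => (f x).1 n) ((continuous_apply n).comp hf')
  have hfin : {n | y n = top n}.Finite := by
    have hs : Sm (⋃ i, {x | (j < i ∧ y i = top i) ∧ (f x).1 i ≠ top i}) := by
      refine Sm.iUnion fun i => ?_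
      by_cases hi : j < i ∧ y i = top i
      · exact (sm_of_gen_top hi.1 _ ((continuous_apply i).comp hf') (hi.2 ▸ hy i)).mono
          fun x hx => hx.2
      · exact sm_empty.mono fun x hx => hi hx.1
    obtain ⟨x, hx⟩ := exists_not_mem hs
    refine ((finite_le_nat j).union (f x).2).subset fun i hi => ?_
    by_contra hc
    simp only [mem_union, mem_setOf_eq, not_or, not_le] at hc
    exact hx (mem_iUnion.2 ⟨i, ⟨hc.1, hi⟩, hc.2⟩)
  refine ⟨⟨y, hfin⟩, Gen.of_comp (g := fun z : Y => z.1) IsInducing.subtypeVal ?_⟩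
  exact gen_pi _ hf' y hy

/-- the inclusion of the product into Y -/
def iota (x : ∀ n, X n) : Y :=
  ⟨fun n => eta n (x n), finite_empty.subset fun n hn => eta_ne_top _ hn⟩

theorem cont_iota : Continuous iota :=
  Continuous.subtype_mk (continuous_pi fun n => (cont_eta n).comp (continuous_apply n)) _

theorem no_top (y : Y) : ¬ ∀ x, y ⤳ iota x := by
  intro h
  obtain ⟨n, hn⟩ := y.2.infinite_compl.nonempty
  rcases R_cases (y.1 n) with h0 | ⟨a, ha⟩
  · exact hn h0
  obtain ⟨b, hb⟩ := exists_not_mem (sm_singleton a)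
  classical
  let x : ∀ n, X n := Function.update (fun m => Classical.arbitrary (X m)) n b
  have h1 := (h x).map ((continuous_apply n).comp continuous_subtype_val)
  have h2 : eta n a ⤳ eta n b := by
    have e : (iota x).1 n = eta n b := by simp [iota, x]
    rw [← ha, ← e]; exact h1
  exact hb (eta_inj (eta_spec h2))

theorem not_gen_iota (y : Y) : ¬ Gen iota y := by
  intro h
  apply no_top y
  intro x
  rw [specializes_iff_forall_open]
  intro V hV hx
  exact (h V hV).2 ⟨x, hx⟩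

theorem no_ext (h : (∀ n, R n) → Y) (hc : Continuous h)
    (he : (h ∘ fun (x : ∀ n, X n) (n : ℕ) => eta n (x n)) = iota) : False := by
  apply no_top (h fun n => top n)
  intro x
  rw [← he]
  exact (specializes_pi.2 fun n => top_spec _).map hc

theorem K_homeo (A C : Type) [TopologicalSpace A] [TopologicalSpace C] (e : A ≃ₜ C)
    (h : K A) : K C := by
  haveI := h.1
  refine ⟨e.symm.isEmbedding.t0Space, fun n f hf => ?_⟩
  obtain ⟨y, hy⟩ := h.2 n (e.symm ∘ f) (e.symm.continuous.comp hf)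
  refine ⟨e y, ?_⟩
  have := hy.comp e.continuous
  have e1 : e ∘ e.symm ∘ f = f := by funext x; simp
  rwa [e1] at this

theorem gen_mem {S : Type} [TopologicalSpace S] [T0Space S] {A : Set S} (hA : K A) {n : ℕ}
    {f : X n → S} (hf : Continuous f) (hfA : ∀ x, f x ∈ A) {s : S} (hs : Gen f s) : s ∈ A := by
  obtain ⟨a, ha⟩ := hA.2 n (fun x => ⟨f x, hfA x⟩) (hf.subtype_mk _)
  have := ha.comp continuous_subtype_val
  rw [hs.unique this]
  exact a.2

theorem K_sInter (S : Type) [TopologicalSpace S] [T0Space S] [QuasiSober S] (T : Set (Set S))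
    (hT : ∀ A ∈ T, K A) : K (⋂₀ T : Set S) := by
  refine ⟨inferInstance, fun n f hf => ?_⟩
  have hf' : Continuous fun x => (f x).1 := continuous_subtype_val.comp hf
  obtain ⟨s, hs⟩ := sober_gen _ hf'
  refine ⟨⟨s, fun A hA => gen_mem (hT A hA) hf' (fun x => (f x).2 A hA) hs⟩, ?_⟩
  exact Gen.of_comp IsInducing.subtypeVal hs

theorem K_preimage (S T : Type) [TopologicalSpace S] [TopologicalSpace T] [T0Space S]
    [QuasiSober S] [T0Space T] (g : S → T) (hg : Continuous g) (A : Set T) (hA : K A) :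
    K (g ⁻¹' A : Set S) := by
  refine ⟨inferInstance, fun n f hf => ?_⟩
  have hf' : Continuous fun x => (f x).1 := continuous_subtype_val.comp hf
  obtain ⟨s, hs⟩ := sober_gen _ hf'
  refine ⟨⟨s, gen_mem hA (hg.comp hf') (fun x => (f x).2) (hs.comp hg)⟩, ?_⟩
  exact Gen.of_comp IsInducing.subtypeVal hs

theorem irred_closed_X {n : ℕ} {A : Set (X n)} (hA : IsIrreducible A) (hc : IsClosed A) :
    A = Set.univ ∨ ∃ a, A = {a} := by
  by_cases hu : A = Set.univ
  · exact Or.inl hu
  right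
  have hs : Sm A := by
    have := hc.isOpen_compl (nonempty_compl.2 hu)
    rwa [compl_compl] at this
  obtain ⟨a, ha⟩ := hA.1
  refine ⟨a, ?_⟩
  have := isPreirreducible_iff_isClosed_union_isClosed.1 hA.2 {a} (A \ {a}) isClosed_singleton
    (isClosedX (hs.mono diff_subset)) (by intro x hx; by_cases h : x = a <;> simp [h, hx])
  rcases this with h | h
  · exact Subset.antisymm h (by simpa using ha)
  · exact absurd rfl (h ha).2

theorem det_univ (n : ℕ) (Z : Type) [TopologicalSpace Z] (hZ : K Z) (f : X n → Z)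
    (hf : Continuous f) : ∃! y : Z, closure (f '' univ) = closure {y} := by
  haveI := hZ.1
  obtain ⟨y, hy⟩ := hZ.2 n f hf
  rw [image_univ]
  exact closure_unique ((gen_iff f y).2 hy)

/-- the closed K-determined sets -/
abbrev KC (W : Type) [TopologicalSpace W] : Type :=
  {A : Set W // IsClosed A ∧ ∀ (Y : Type) [TopologicalSpace Y], K Y →
    ∀ f : W → Y, Continuous f → ∃! y : Y, closure (f '' A) = closure {y}}

/-- the lower Vietoris topology -/
abbrev tKC (W : Type) [TopologicalSpace W] : TopologicalSpace (KC W) :=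
  TopologicalSpace.generateFrom {S | ∃ U : Set W, IsOpen U ∧ S = {A | (A.1 ∩ U).Nonempty}}

theorem adequate (W : Type) [TopologicalSpace W] : @K (KC W) (tKC W) := by
  letI := tKC W
  have hopen : ∀ U : Set W, IsOpen U → IsOpen {A : KC W | (A.1 ∩ U).Nonempty} :=
    fun U hU => TopologicalSpace.isOpen_generateFrom_of_mem ⟨U, hU, rfl⟩
  have hsub : ∀ A C : KC W, C ⤳ A → A.1 ⊆ C.1 := by
    intro A C h x hx
    by_contra hc
    obtain ⟨z, hz, hz'⟩ := h.mem_open (hopen _ C.2.1.isOpen_compl) ⟨x, hx, hc⟩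
    exact hz' hz
  refine ⟨⟨fun A C h => Subtype.ext (Subset.antisymm (hsub _ _ h.specializes')
    (hsub _ _ h.specializes))⟩, fun n f hf => ?_⟩
  refine ⟨⟨closure (⋃ x, (f x).1), isClosed_closure, ?_⟩, ?_⟩
  · intro Z _ hZ g hg
    haveI := hZ.1
    choose z hz using fun x => ((f x).2.2 Z hZ g hg).exists
    have hz' : ∀ x V, IsOpen V → (z x ∈ V ↔ ((f x).1 ∩ g ⁻¹' V).Nonempty) := by
      intro x V hV
      rw [(closure_eq_iff _ _).1 (hz x) V hV, image_inter_nonempty_iff]
    have hzc : Continuous z := by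
      rw [continuous_def]
      intro V hV
      have : z ⁻¹' V = f ⁻¹' {A : KC W | (A.1 ∩ g ⁻¹' V).Nonempty} := by
        ext x; exact hz' x V hV
      rw [this]
      exact (hopen _ (hV.preimage hg)).preimage hf
    obtain ⟨z₀, hz₀⟩ := hZ.2 n z hzc
    apply closure_unique (y := z₀)
    rw [closure_eq_iff]
    intro V hV
    rw [hz₀ V hV, image_inter_nonempty_iff,
      closure_inter_open_nonempty_iff (hV.preimage hg), iUnion_inter, nonempty_iUnion]
    exact exists_congr fun x => hz' x V hV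
  · intro U hU
    induction hU with
    | basic S hS =>
      obtain ⟨V, hV, rfl⟩ := hS
      show (closure (⋃ x, (f x).1) ∩ V).Nonempty ↔ ∃ x, ((f x).1 ∩ V).Nonempty
      rw [closure_inter_open_nonempty_iff hV, iUnion_inter, nonempty_iUnion]
    | univ => simp
    | inter S T hS hT ihS ihT =>
      rw [mem_inter_iff, ihS, ihT]
      constructor
      · rintro ⟨⟨x, hx⟩, ⟨y, hy⟩⟩
        obtain ⟨z, -, hz⟩ := (IrreducibleSpace.isIrreducible_univ (X n)).2 (f ⁻¹' S) (f ⁻¹' T)
          (IsOpen.preimage hf hS) (IsOpen.preimage hf hT) ⟨x, trivial, hx⟩ ⟨y, trivial, hy⟩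
        exact ⟨z, hz⟩
      · rintro ⟨x, hx⟩
        exact ⟨⟨x, hx.1⟩, ⟨x, hx.2⟩⟩
    | sUnion S hS ih =>
      constructor
      · rintro ⟨t, ht, h⟩
        obtain ⟨x, hx⟩ := (ih t ht).1 h
        exact ⟨x, t, ht, hx⟩
      · rintro ⟨x, t, ht, hx⟩
        exact ⟨t, ht, (ih t ht).2 ⟨x, hx⟩⟩

theorem irred_pi : IsIrreducible (Set.univ : Set (∀ n, X n)) := by
  classical
  refine ⟨⟨fun n => Classical.arbitrary _, trivial⟩, ?_⟩
  rintro U V hU hV ⟨x, -, hx⟩ ⟨y, -, hy⟩
  obtain ⟨I, u, hu, hI⟩ := isOpen_pi_iff.1 hU x hx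
  obtain ⟨J, v, hv, hJ⟩ := isOpen_pi_iff.1 hV y hy
  have : ∀ n, ∃ z : X n, (n ∈ I → z ∈ u n) ∧ (n ∈ J → z ∈ v n) := by
    intro n
    by_cases h1 : n ∈ I
    · by_cases h2 : n ∈ J
      · obtain ⟨z, -, hz⟩ := (IrreducibleSpace.isIrreducible_univ (X n)).2 _ _ (hu n h1).1
          (hv n h2).1 ⟨_, trivial, (hu n h1).2⟩ ⟨_, trivial, (hv n h2).2⟩
        exact ⟨z, fun _ => hz.1, fun _ => hz.2⟩
      · exact ⟨x n, fun _ => (hu n h1).2, fun h => absurd h h2⟩
    · exact ⟨y n, fun h => absurd h h1, fun h => (hv n h).2⟩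
  choose z hz using this
  exact ⟨z, trivial, hI fun n hn => (hz n).1 hn, hJ fun n hn => (hz n).2 hn⟩

end Pool.Agent.H31.KDet
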