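import Pool.Agent.H31.KMen

set_option autoImplicit false

open Set Filter Topology MeasureTheory unitInterval

namespace Pool.Agent.H31.KCov

def L : Type := Option ℝ

instance : TopologicalSpace L where
  IsOpen O := (none : Option ℝ) ∈ O → Oᶜ.Countable
  isOpen_univ := fun _ => by simp
  isOpen_inter := fun _ _ h h' hx => by
    rw [compl_inter]; exact (h hx.1).union (h' hx.2)
  isOpen_sUnion := fun _ h ⟨O, h1, h2⟩ =>
    (h O h1 h2).mono (compl_subset_compl.2 (subset_sUnion_of_mem h1))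

theorem L_clopen {x : L} (h : x ≠ none) : IsClopen ({x} : Set L) :=
  ⟨⟨fun _ => by rw [compl_compl]; exact countable_singleton x⟩, fun h' => (h h'.symm).elim⟩

instance : T2Space L := ⟨fun x y h => by
  by_cases hx : x = none
  · have := L_clopen (x := y) fun h' => h (hx.trans h'.symm)
    exact ⟨{y}ᶜ, {y}, this.compl.2, this.2, h, rfl, disjoint_compl_left⟩
  · have := L_clopen hx
    exact ⟨{x}, {x}ᶜ, this.2, this.compl.2, rfl, h.symm, disjoint_compl_right⟩⟩

abbrev Y : Type := L ⊕ I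

def core : Set Y := insert (.inl none) (range .inr)

theorem core_cpt : IsCompact core := (isCompact_range continuous_inr).insert _

theorem closed_of {T : Set Y} (h : T.Countable) (h1 : Disjoint T core) : IsClosed T := by
  refine isClosed_sum_iff.2 ⟨⟨fun _ => ?_⟩, ?_⟩
  · rw [compl_compl]; exact h.preimage Sum.inl_injective
  · convert isClosed_empty
    exact eq_empty_of_forall_notMem fun x hx => disjoint_left.1 h1 hx (Or.inr ⟨x, rfl⟩)

theorem cocount {U : Set Y} (h : IsOpen U) (h1 : core ⊆ U) : Uᶜ.Countable := by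
  have h2 : (Sum.inl ⁻¹' U : Set L)ᶜ.Countable := (isOpen_sum_iff.1 h).1 (h1 (Or.inl rfl))
  refine (h2.image Sum.inl).mono ?_
  rintro (x | x) hx
  · exact ⟨x, hx, rfl⟩
  · exact (hx (h1 (Or.inr ⟨x, rfl⟩))).elim

theorem one_wins : ∃ s : List (Set Y) → Set Y, (∀ l, IsCompact (s l) ∧ (s l).Nonempty) ∧
    ∀ U : ℕ → Set Y, (∀ n, IsOpen (U n) ∧ s ((List.range n).map U) ⊆ U n) →
      ∀ C : Set Y, IsCompact C → ∃ n, C ⊆ U n := by
  have : ∀ U : Set Y, ∃ e : ℕ → Y, Uᶜ.Countable → Uᶜ ⊆ range e := fun U => by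
    by_cases h : Uᶜ.Countable
    · obtain ⟨e, he⟩ := (h.insert (.inl none)).exists_eq_range (insert_nonempty _ _)
      exact ⟨e, fun _ => (subset_insert _ _).trans he.subset⟩
    · exact ⟨fun _ => .inl none, fun h' => (h h').elim⟩
  choose e he using this
  refine ⟨fun l => core ∪ image2 e {U | U ∈ l} (Iio l.length), fun l =>
    ⟨core_cpt.union ((List.finite_toSet l).image2 _ (finite_Iio _)).isCompact,
      _, Or.inl (Or.inl rfl)⟩, fun U hU C hC => ?_⟩
  have h1 : ∀ n, core ⊆ U n := fun n => subset_union_left.trans (hU n).2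
  have h2 : ∀ n, (U n)ᶜ.Countable := fun n => cocount (hU n).1 (h1 n)
  have h3 : (C ∩ ⋃ n, (U n)ᶜ).Finite := fin_of_closed hC inter_subset_left fun S hS =>
    closed_of ((countable_iUnion h2).mono (hS.trans inter_subset_right))
      (disjoint_left.2 fun x hx hx' => by
        obtain ⟨n, hn⟩ := mem_iUnion.1 (hS hx).2
        exact hn (h1 n hx'))
  have h4 : ∀ x ∈ C ∩ ⋃ n, (U n)ᶜ, ∀ᶠ n in atTop, x ∈ U n := fun x hx => by
    obtain ⟨m, hm⟩ := mem_iUnion.1 hx.2
    obtain ⟨i, rfl⟩ := he _ (h2 m) hm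
    filter_upwards [eventually_gt_atTop m, eventually_gt_atTop i] with n a1 a2
    exact (hU n).2 (Or.inr ⟨U m, List.mem_map.2 ⟨m, List.mem_range.2 a1, rfl⟩, i,
      by simpa using a2, rfl⟩)
  obtain ⟨n, hn⟩ := ((eventually_all_finite h3).2 h4).exists
  refine ⟨n, fun x hx => ?_⟩
  by_contra h
  exact h (hn x ⟨hx, mem_iUnion.2 ⟨n, h⟩⟩)

theorem no_fin (s : List (Set Y) → Set Y)
    (hs : ∀ (U : ℕ → Set Y) (n : ℕ), (∀ k < n, IsOpen (U k) ∧ s ((List.range k).map U) ⊆ U k) →
      (s ((List.range n).map U)).Finite) :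
    ∃ U : ℕ → Set Y, (∀ n, IsOpen (U n) ∧ s ((List.range n).map U) ⊆ U n) ∧ ⋃ n, U n ≠ univ := by
  have : ∀ (F : Set Y) (n : ℕ), ∃ V : Set Y, IsOpen V ∧ (F.Finite → F ⊆ V) ∧
      volume (Sum.inr ⁻¹' V : Set I) ≤ 2⁻¹ ^ n / 4 := fun F n => by
    by_cases h : F.Finite
    · obtain ⟨V, v1, v2, v3⟩ := small _ (h.preimage Sum.inr_injective.injOn) n
      refine ⟨range .inl ∪ .inr '' V, isOpen_range_inl.union (isOpenMap_inr _ v1), fun _ => ?_, ?_⟩
      · rintro (x | x) hx
        exacts [Or.inl ⟨x, rfl⟩, Or.inr ⟨x, v2 hx, rfl⟩]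
      · simpa [preimage_image_eq _ Sum.inr_injective] using v3
    · exact ⟨∅, isOpen_empty, fun h' => (h h').elim, by simp⟩
  choose V v1 v2 v3 using this
  obtain ⟨l, l0, l1⟩ : ∃ l : ℕ → List (Set Y), l 0 = [] ∧ ∀ n, l (n + 1) = l n ++ [V (s (l n)) n] :=
    ⟨fun n => Nat.rec (motive := fun _ => List (Set Y)) []
      (fun n b => b ++ [V (s b) n]) n, rfl, fun _ => rfl⟩
  have h2 : ∀ n, (List.range n).map (fun k => V (s (l k)) k) = l n := fun n => by
    induction n with
    | zero => rw [l0]; rfl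
    | succ n ih => rw [List.range_succ, List.map_append, ih, l1]; rfl
  refine ⟨fun k => V (s (l k)) k, fun n => ?_, fun h => not_cover (fun n => v3 (s (l n)) n) ?_⟩
  · induction n using Nat.strong_induction_on with
    | _ n ih =>
      have := hs _ n ih
      rw [h2] at this ⊢
      exact ⟨v1 _ _, v2 _ _ this⟩
  · rw [← preimage_iUnion, h, preimage_univ]

theorem no_pre (C : ℕ → Set Y) (hC : ∀ n, IsCompact (C n)) :
    ∃ U : ℕ → Set Y, (∀ n, IsOpen (U n) ∧ C n ⊆ U n) ∧
      ¬ ∀ D : Set Y, IsCompact D → ∃ n, D ⊆ U n := by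
  have h1 : ∀ n, (C n \ core).Finite := fun n => by
    by_contra h
    obtain ⟨T, t1, t3, t2⟩ := Set.Infinite.exists_subset_countable_infinite h
    exact t2 (fin_of_closed (hC n) (t1.trans diff_subset) fun S hS => closed_of (t3.mono hS)
      (disjoint_left.2 fun x hx => (t1 (hS hx)).2))
  have h2 : Function.Injective fun r : ℝ => (Sum.inl (some r) : Y) := fun _ _ h =>
    Option.some.inj (Sum.inl.inj h)
  obtain ⟨r, hr⟩ : ∃ r : ℝ, (Sum.inl (some r) : Y) ∉ ⋃ n, C n \ core := by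
    by_contra h
    push Not at h
    exact not_countable_univ (((countable_iUnion fun n => (h1 n).countable).preimage h2).mono
      fun r _ => h r)
  have h3 : (Sum.inl (some r) : Y) ∉ core := by
    rintro (h | ⟨x, h⟩)
    · cases h
    · cases h
  refine ⟨fun _ => {Sum.inl (some r)}ᶜ, fun n => ⟨isOpen_compl_singleton, ?_⟩, fun h => ?_⟩
  · rintro x hx rfl
    exact hr (mem_iUnion.2 ⟨n, hx, h3⟩)
  · obtain ⟨n, hn⟩ := h _ isCompact_singleton
    exact hn rfl rfl

end Pool.Agent.H31.KCov
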