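import Pool.Agent.H31.KRDefs
import Pool.Agent.H31.Snf3

namespace Pool.Agent.H31.Snf

open Set Filter Topology FreeGroup TopologicalSpace

universe u

def kt {G : Type u} [TopologicalSpace G] (C : ℕ → Set G) : TopologicalSpace G :=
  ⨆ n, coinduced (Subtype.val : C n → G) inferInstance

theorem komega {G : Type u} [Group G] [TopologicalSpace G] [IsTopologicalGroup G] (C : ℕ → Set G)
    (hK : ∀ n, IsCompact (C n)) (hm : Monotone C) (hU : ∀ g, ∃ n, g ∈ C n)
    (hmul : ∀ n, ∃ m, ∀ a ∈ C n, ∀ b ∈ C n, a * b ∈ C m) (hinv : ∀ n, ∀ a ∈ C n, a⁻¹ ∈ C n) :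
    @IsTopologicalGroup G (kt C) _ := by
  have ho : ∀ O, IsOpen[kt C] O ↔
      ∀ n, ∃ O', IsOpen O' ∧ ∀ x ∈ C n, x ∈ O' ↔ x ∈ O := fun O => by
    refine isOpen_iSup_iff.trans (forall_congr' fun n => isOpen_coinduced.trans
      (isOpen_induced_iff.trans ?_))
    simp only [Set.ext_iff, mem_preimage, Subtype.forall]
  have h1 : ∀ (U W : ℕ → Set G) (N : ℕ), (∀ k, IsOpen (W k)) → (∀ k, U k ⊆ W k) →
      (∀ k, W k ∩ C (N + k + 1) ⊆ U (k + 1)) → Monotone U → IsOpen[kt C] (⋃ k, U k) := by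
    intro U W N h1 h2 h3 h4
    refine (ho _).mpr fun n => ⟨⋃ k ≥ n, W k, isOpen_biUnion fun k _ => h1 k, fun x hx => ?_⟩
    simp only [mem_iUnion]
    exact ⟨fun ⟨k, h5, h6⟩ => ⟨k + 1, h3 k ⟨h6, hm (by omega) hx⟩⟩, fun ⟨k, h5⟩ =>
      ⟨max k n, le_max_right _ _, h2 _ (h4 (le_max_left _ _) h5)⟩⟩
  refine @IsTopologicalGroup.mk G (kt C) _ (@ContinuousMul.mk G (kt C) _ (continuous_def.mpr
    fun O hO => (@isOpen_prod_iff G G (kt C) (kt C) _).mpr fun a b hab => ?_))
    (@ContinuousInv.mk G (kt C) _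
      (continuous_def.mpr fun O hO => (ho _).mpr fun n => ?_))
  · let Iv : ℕ → Set G × Set G → Prop := fun n p => IsCompact p.1 ∧ IsCompact p.2 ∧ p.1 ⊆ C n ∧
      p.2 ⊆ C n ∧ ∀ a ∈ p.1, ∀ b ∈ p.2, a * b ∈ O
    have h2 : ∀ n p, ∃ W : Set G × Set G, IsOpen W.1 ∧ IsOpen W.2 ∧ (Iv n p → p.1 ⊆ W.1 ∧
        p.2 ⊆ W.2 ∧ Iv n (closure W.1 ∩ C n, closure W.2 ∩ C n)) := by
      intro n p
      by_cases h : Iv n p
      · obtain ⟨h2, h3, h4, h5, h6⟩ := h
        obtain ⟨m, h7⟩ := hmul n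
        obtain ⟨O', h8, h9⟩ := (ho O).mp hO m
        obtain ⟨A, B, hA, hB, h10, h11, h12⟩ := generalized_tube_lemma h2 h3
          (h8.preimage continuous_mul) fun z hz =>
            (h9 _ (h7 _ (h4 hz.1) _ (h5 hz.2))).mpr (h6 _ hz.1 _ hz.2)
        obtain ⟨A', hA', h13, h14⟩ := h2.exists_isOpen_closure_subset (hA.mem_nhdsSet.mpr h10)
        obtain ⟨B', hB', h15, h16⟩ := h3.exists_isOpen_closure_subset (hB.mem_nhdsSet.mpr h11)
        exact ⟨(A', B'), hA', hB', fun _ => ⟨h13, h15, (hK n).inter_left isClosed_closure,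
          (hK n).inter_left isClosed_closure, inter_subset_right, inter_subset_right,
          fun x hx y hy => (h9 _ (h7 _ hx.2 _ hy.2)).mp (h12 (mk_mem_prod (h14 hx.1) (h16 hy.1)))⟩⟩
      · exact ⟨(∅, ∅), isOpen_empty, isOpen_empty, fun h2 => absurd h2 h⟩
    choose W hW1 hW2 hW using h2
    obtain ⟨N, hN⟩ : ∃ N, a ∈ C N ∧ b ∈ C N := by
      obtain ⟨i, hi⟩ := hU a
      obtain ⟨j, hj⟩ := hU b
      exact ⟨max i j, hm (le_max_left _ _) hi, hm (le_max_right _ _) hj⟩
    let p : ℕ → Set G × Set G := fun k => Nat.rec ({a}, {b}) (fun k q =>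
      (closure (W (N + k + 1) q).1 ∩ C (N + k + 1), closure (W (N + k + 1) q).2 ∩ C (N + k + 1))) k
    have h3 : ∀ k, Iv (N + k + 1) (p k) := by
      refine Nat.rec ?_ fun k ih => ?_
      · refine ⟨isCompact_singleton, isCompact_singleton, singleton_subset_iff.mpr
          (hm (by omega) hN.1), singleton_subset_iff.mpr (hm (by omega) hN.2), ?_⟩
        intro x hx y hy
        rw [show x = a from hx, show y = b from hy]
        exact hab
      · obtain ⟨h3, h4, h5, h6, h7⟩ := (hW _ _ ih).2.2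
        exact ⟨h3, h4, h5.trans (hm (by omega)), h6.trans (hm (by omega)), h7⟩
    have h4 : Monotone fun k => (p k).1 := monotone_nat_of_le_succ fun k x hx =>
      ⟨subset_closure ((hW _ _ (h3 k)).1 hx), (h3 k).2.2.1 hx⟩
    have h5 : Monotone fun k => (p k).2 := monotone_nat_of_le_succ fun k x hx =>
      ⟨subset_closure ((hW _ _ (h3 k)).2.1 hx), (h3 k).2.2.2.1 hx⟩
    refine ⟨_, _, h1 _ _ N (fun k => hW1 _ _) (fun k => (hW _ _ (h3 k)).1) (fun k =>
      inter_subset_inter_left _ subset_closure) h4, h1 _ _ N (fun k => hW2 _ _)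
      (fun k => (hW _ _ (h3 k)).2.1) (fun k => inter_subset_inter_left _ subset_closure) h5,
      mem_iUnion.mpr ⟨0, rfl⟩, mem_iUnion.mpr ⟨0, rfl⟩, fun z hz => ?_⟩
    obtain ⟨i, hi⟩ := mem_iUnion.mp hz.1
    obtain ⟨j, hj⟩ := mem_iUnion.mp hz.2
    exact (h3 (max i j)).2.2.2.2 _ (h4 (le_max_left _ _) hi) _ (h5 (le_max_right _ _) hj)
  · obtain ⟨O', h2, h3⟩ := (ho O).mp hO n
    exact ⟨_, h2.preimage continuous_inv, fun x hx => h3 _ (hinv n x hx)⟩

inductive CF {T Z : Type} [TopologicalSpace T] [TopologicalSpace Z] : (T → List Z) → Prop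
  | nil : CF fun _ => []
  | cons {a : T → Z} {l : T → List Z} : Continuous a → CF l → CF fun x => a x :: l x

section CF

variable {T Z : Type} [TopologicalSpace T] [TopologicalSpace Z]

theorem CF.ofFn : ∀ {m : ℕ} {t : T → Fin m → Z}, Continuous t → CF fun x => List.ofFn (t x)
  | 0, _, _ => by simpa using CF.nil
  | m + 1, t, h => by
    simp only [List.ofFn_succ]
    exact CF.cons ((continuous_apply 0).comp h)
      (CF.ofFn (continuous_pi fun i => (continuous_apply _).comp h))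

theorem CF.const : ∀ L : List Z, CF fun _ : T => L
  | [] => CF.nil
  | _ :: L => CF.cons continuous_const (CF.const L)

theorem CF.append {l l' : T → List Z} (h : CF l) (h' : CF l') : CF fun x => l x ++ l' x := by
  induction h with
  | nil => exact h'
  | cons h1 _ ih => exact CF.cons h1 ih

theorem CF.comp {T' : Type} [TopologicalSpace T'] {l : T → List Z} (h : CF l) {f : T' → T}
    (hf : Continuous f) : CF fun x => l (f x) := by
  induction h with
  | nil => exact CF.nil
  | cons h1 _ ih => exact CF.cons (h1.comp hf) ih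

theorem CF.ex {l : T → List Z} (h : CF l) :
    ∃ m, ∃ t : T → Fin m → Z, Continuous t ∧ ∀ x, l x = List.ofFn (t x) := by
  induction h with
  | nil => exact ⟨0, fun _ => Fin.elim0, continuous_const, by simp⟩
  | cons h1 _ ih =>
    obtain ⟨m, t, h2, h3⟩ := ih
    exact ⟨m + 1, _, h1.finCons (A := fun _ => Z) h2, fun x => by simp [h3]⟩

theorem CF.map {Z' : Type} [TopologicalSpace Z'] {l : T → List Z} (h : CF l) {f : Z → Z'}
    {E : Set Z} (hf : ContinuousOn f E) (hE : ∀ x, ∀ z ∈ l x, z ∈ E) : CF fun x => (l x).map f := by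
  induction h with
  | nil => exact CF.nil
  | cons h1 _ ih =>
    exact CF.cons (hf.comp_continuous h1 fun x => hE x _ List.mem_cons_self)
      (ih fun x z hz => hE x z (List.mem_cons_of_mem _ hz))

theorem cont1 : Continuous[_, topF Z] fun p : Z × Bool => mk [p] := by
  letI := topF Z
  haveI := grpF (X := Z)
  refine continuous_prod_of_discrete_right.mpr fun b => ?_
  cases b
  · exact (contF (X := Z)).inv
  · exact contF (X := Z)

theorem CF.mk {l : T → List (Z × Bool)} (h : CF l) : Continuous[_, topF Z] fun x => mk (l x) := by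
  letI := topF Z
  haveI := grpF (X := Z)
  induction h with
  | nil => exact continuous_const
  | cons h1 _ ih => exact (cont1.comp h1).mul ih

theorem contMap {f : T → Z} (hf : Continuous f) :
    Continuous[topF T, topF Z] (FreeGroup.map f) := by
  letI := topF Z
  haveI := grpF (X := Z)
  exact liftF _ (((contF (X := Z)).comp hf).congr fun x => by simp)

theorem Fn_eq {e : T → Z × Bool} (he : Function.Surjective e) (n : ℕ) :
    Fn Z n = ⋃ m ∈ Iic n, range fun t : Fin m → T => mk ((List.ofFn t).map e) := by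
  refine Set.ext fun w => ⟨?_, fun hw => ?_⟩
  · rintro ⟨L, h1, rfl⟩
    obtain ⟨L', rfl⟩ := he.list_map L
    exact mem_iUnion₂.mpr ⟨L'.length, by simpa using h1, L'.get, by simp⟩
  · obtain ⟨m, h1, t, rfl⟩ := mem_iUnion₂.mp hw
    exact ⟨_, by simpa using h1, rfl⟩

variable [CompactSpace Z] [T2Space Z]

theorem cohF : @IsCoherentWith _ (topF Z) (range (Fn Z)) := by
  classical
  letI := topF Z
  haveI := grpF (X := Z)
  have h1 := komega (Fn Z) (fun n => by
      rw [Fn_eq Function.surjective_id]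
      exact (finite_Iic n).isCompact_biUnion fun m _ => isCompact_range
        ((CF.ofFn continuous_id).map continuousOn_id fun _ _ _ => mem_univ _).mk)
    (fun a b h w ⟨L, h1, h2⟩ => ⟨L, h1.trans h, h2⟩) (fun w => ⟨_, w.toWord, le_rfl, mk_toWord⟩)
    (fun n => ⟨n + n, by
      rintro _ ⟨L, h1, rfl⟩ _ ⟨L', h2, rfl⟩
      exact ⟨L ++ L', by simpa using add_le_add h1 h2, rfl⟩⟩) (by
      rintro n _ ⟨L, h1, rfl⟩
      exact ⟨invRev L, by simpa using h1, rfl⟩)
  have h2 : topF Z ≤ kt (Fn Z) := by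
    refine GroupTopology.toTopologicalSpace_le.mpr (sInf_le (a := ⟨_, h1⟩) ?_)
    have h2 : Continuous fun x => (⟨of x, [(x, true)], le_rfl, rfl⟩ : Fn Z 1) :=
      (contF (X := Z)).subtype_mk _
    exact continuous_iSup_rng (i := 1) (@Continuous.comp Z (Fn Z 1) _ _ _ (_) _ Subtype.val
      continuous_coinduced_rng h2)
  exact ⟨fun O hO => h2 O (isOpen_iSup_iff.mpr fun n => hO _ ⟨n, rfl⟩)⟩

theorem contK [CompactSpace T] {e : T → Z × Bool} (he : Function.Surjective e) (hc : Continuous e)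
    {g : FreeGroup Z → ℝ}
    (h : ∀ m, Continuous fun t : Fin m → T => g (mk ((List.ofFn t).map e))) :
    Continuous[topF Z, _] g := by
  letI := topF Z
  haveI := t2F (X := Z)
  refine continuous_iff_isClosed.mpr fun A hA => cohF.isClosed_iff.mpr ?_
  rintro _ ⟨n, rfl⟩
  have h1 : (Subtype.val ⁻¹' (g ⁻¹' A) : Set (Fn Z n)) = Subtype.val ⁻¹' ⋃ m ∈ Iic n,
      (fun t : Fin m → T => mk ((List.ofFn t).map e)) ''
        ((fun t : Fin m → T => g (mk ((List.ofFn t).map e))) ⁻¹' A) := by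
    refine Set.ext fun w => ⟨fun hw => ?_, fun hw => ?_⟩
    · obtain ⟨m, h1, t, ht⟩ := mem_iUnion₂.mp ((Fn_eq he n).subset w.2)
      exact mem_iUnion₂.mpr ⟨m, h1, t, by simpa only [mem_preimage, ht] using hw, ht⟩
    · obtain ⟨m, -, t, h1, ht⟩ := mem_iUnion₂.mp hw
      simpa only [mem_preimage, ← ht] using h1
  rw [h1]
  exact ((finite_Iic n).isCompact_biUnion fun m _ => (hA.preimage (h m)).isCompact.image
    ((CF.ofFn continuous_id).map hc.continuousOn fun _ _ _ => mem_univ _).mk).isClosed.preimage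
    continuous_subtype_val

theorem bddF {C : Set (FreeGroup Z)} (hC : @IsCompact _ (topF Z) C) : ∃ n, C ⊆ Fn Z n := by
  classical
  letI := topF Z
  haveI := t2F (X := Z)
  by_contra hcon
  simp only [not_exists, not_subset] at hcon
  choose c h1 h2 using hcon
  have h0 : ∀ {a b}, a ≤ b → Fn Z a ⊆ Fn Z b := fun h w ⟨L, h1, h2⟩ => ⟨L, h1.trans h, h2⟩
  obtain ⟨x, -, h3⟩ := hC.exists_mapClusterPt (f := atTop) (u := c) (tendsto_principal.mpr
    (Eventually.of_forall h1))
  have h4 : IsClosed (range c \ {x}) := cohF.isClosed_iff.mpr (by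
    rintro _ ⟨n, rfl⟩
    refine (((finite_lt_nat n).image c).preimage Subtype.val_injective.injOn).subset ?_ |>.isClosed
    rintro w ⟨⟨k, hk⟩, -⟩
    exact ⟨k, lt_of_not_ge fun h5 => h2 k (hk ▸ h0 h5 w.2), hk⟩)
  obtain ⟨k, h5, h6⟩ := ((mapClusterPt_iff_frequently.mp h3 _ (h4.isOpen_compl.mem_nhds
    fun h => h.2 rfl)).and_eventually (eventually_ge_atTop x.toWord.length)).exists
  have h7 : c k = x := by_contra fun h7 => h5 ⟨⟨k, rfl⟩, h7⟩
  exact h2 k ⟨x.toWord, h6, by rw [mk_toWord, h7]⟩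

theorem list_lim {α H : Type} [Group H] (ψ : FreeGroup Z →* H) (𝒰 : Ultrafilter α)
    {W : Set (Z × Bool)} (hW : ∀ (x : α → Z × Bool) (x₀ : Z × Bool), (∀ᶠ k in 𝒰, x k ∈ W) →
      Tendsto x 𝒰 (𝓝 x₀) → ∀ᶠ k in 𝒰, ψ (mk [x k]) = ψ (mk [x₀])) (n : ℕ) :
    ∀ L : α → List (Z × Bool), (∀ k, (L k).length ≤ n) → (∀ k, ∀ p ∈ L k, p ∈ W) →
      ∃ w, Tendsto (fun k => mk (L k)) 𝒰 (@nhds _ (topF Z) w) ∧ ∀ᶠ k in 𝒰, ψ (mk (L k)) = ψ w := by
  letI := topF Z
  haveI := grpF (X := Z)
  have h0 : ∀ L : α → List (Z × Bool), (∀ᶠ k in 𝒰, L k = []) →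
      ∃ w, Tendsto (fun k => mk (L k)) 𝒰 (𝓝 w) ∧ ∀ᶠ k in 𝒰, ψ (mk (L k)) = ψ w := fun L h =>
    ⟨mk [], tendsto_const_nhds.congr' (h.mono fun k hk => by simp only [hk]),
      h.mono fun k hk => by rw [hk]⟩
  induction n with
  | zero =>
    exact fun L hL _ => h0 L (Eventually.of_forall fun k =>
      List.length_eq_zero_iff.mp (Nat.le_zero.mp (hL k)))
  | succ n ih =>
    intro L hL hL'
    by_cases h1 : ∀ᶠ k in 𝒰, L k = []
    · exact h0 L h1
    have h2 := Ultrafilter.eventually_not.mpr h1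
    obtain ⟨k₀, hk₀⟩ := h2.exists
    obtain ⟨p₀, -⟩ := List.exists_mem_of_ne_nil _ hk₀
    have h3 : ∀ᶠ k in 𝒰, L k = (L k).headD p₀ :: (L k).tail := h2.mono fun k hk => by
      cases h4 : L k with
      | nil => exact absurd h4 hk
      | cons p l => rfl
    obtain ⟨x₀, -, h4⟩ := isCompact_univ.ultrafilter_le_nhds (𝒰.map fun k => (L k).headD p₀)
      (by simp)
    obtain ⟨w, h5, h6⟩ := ih (fun k => (L k).tail) (fun k => by
      have := hL k; rw [List.length_tail]; omega) fun k p hp => hL' k p (List.mem_of_mem_tail hp)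
    have h7 : ∀ᶠ k in 𝒰, mk [(L k).headD p₀] * mk (L k).tail = mk (L k) := h3.mono fun k hk => by
      rw [mul_mk, List.singleton_append, ← hk]
    refine ⟨mk [x₀] * w, (((cont1.tendsto x₀).comp h4).mul h5).congr' h7, ?_⟩
    filter_upwards [h6, h7, hW _ x₀ (h3.mono fun k hk => hL' k _ (by
      rw [hk]; exact List.mem_cons_self)) h4] with k h8 h9 h10
    rw [← h9, _root_.map_mul, _root_.map_mul, h8, h10]

end CF

def Lk {Z : Type} [TopologicalSpace Z] (D E : Set Z) : Prop :=
  ∀ z ∈ E, ∃ C ⊆ E, IsCompact C ∧ z ∈ C ∧ C ⊆ closure (C ∩ D)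

theorem Lk.link {Z ι : Type} [TopologicalSpace Z] {D E : Set Z} (h : Lk D E) {g G : (ι → Z) → ℝ}
    (hG : Continuous G) (hg : ∀ C ⊆ univ.pi fun _ => E, IsCompact C → ContinuousOn g C)
    (h1 : EqOn G g (univ.pi fun _ => D)) : EqOn G g (univ.pi fun _ => E) := by
  intro t ht
  choose C h2 h3 h4 h5 using fun i => h (t i) (ht i trivial)
  refine (h1.mono (pi_mono fun i _ => inter_subset_right (s := C i))).of_subset_closure
    hG.continuousOn (hg _ (pi_mono fun i _ => h2 i) (isCompact_univ_pi h3))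
    (pi_mono fun i _ => inter_subset_left) ?_ fun i _ => h4 i
  rw [closure_pi_set]
  exact pi_mono fun i _ => h5 i

open Classical in
noncomputable def res {ι J : Type} (S : Set J) (t : ι → J → Bool) : ι → J → Bool :=
  fun i j => if j ∈ S then t i j else false

theorem ext0 {ι J : Type} [Countable ι] {g : (ι → J → Bool) → ℝ}
    (hg : ∀ C ⊆ univ.pi fun _ => {z : J → Bool | {j | z j = true}.Countable}, IsCompact C →
      ContinuousOn g C) : ∃ G, Continuous G ∧
      EqOn G g (univ.pi fun _ => {z : J → Bool | {j | z j = true}.Countable}) := by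
  classical
  have h1 : ∀ S : Set J, S.Countable → ContinuousOn g {t | ∀ i j, t i j = true → j ∈ S} := by
    refine fun S hS => hg _ (fun t ht i _ => hS.mono (ht i)) (IsClosed.isCompact ?_)
    rw [setOf_forall]
    refine isClosed_iInter fun i => ?_
    rw [setOf_forall]
    refine isClosed_iInter fun j => ?_
    exact (isClosed_discrete {b : Bool | b = true → j ∈ S}).preimage
      (by fun_prop : Continuous fun t : ι → J → Bool => t i j)
  have h2 : ∀ (S S' : Set J) (t : ι → J → Bool), (∀ i j, t i j = true → j ∈ S → j ∈ S') →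
      ∀ i j, res S t i j = true → j ∈ S' := fun S S' t h i j hj => by
    by_cases h3 : j ∈ S
    · exact h i j (by simpa [res, h3] using hj) h3
    · simp [res, h3] at hj
  have h3 : ∀ ε > (0 : ℝ), ∃ S : Set J, S.Countable ∧ ∀ t ∈ univ.pi fun _ : ι =>
      {z : J → Bool | {j | z j = true}.Countable}, dist (g t) (g (res S t)) < ε := by
    intro ε hε
    by_contra hcon
    push Not at hcon
    choose! x hx hx' using hcon
    let S : ℕ → Set J := fun k => Nat.rec ∅ (fun _ s => s ∪ ⋃ i, {j | x s i j = true}) k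
    have h4 : ∀ k, (S k).Countable := fun k => by
      induction k with
      | zero => exact countable_empty
      | succ k ih => exact ih.union (countable_iUnion fun i => hx _ ih i trivial)
    have h5 : Monotone S := monotone_nat_of_le_succ fun k => subset_union_left
    have h6 : ∀ k i j, x (S k) i j = true → j ∈ ⋃ k, S k := fun k i j h =>
      mem_iUnion.mpr ⟨k + 1, Or.inr (mem_iUnion.mpr ⟨i, h⟩)⟩
    obtain ⟨𝒰, hU⟩ := Ultrafilter.exists_le (atTop : Filter ℕ)
    obtain ⟨t, -, h7⟩ := isCompact_univ.ultrafilter_le_nhds (𝒰.map fun k => x (S k)) (by simp)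
    have h8 : ∀ i j, ∀ᶠ k in 𝒰, x (S k) i j = t i j := fun i j => by
      have := tendsto_pi_nhds.mp (tendsto_pi_nhds.mp (show Tendsto (fun k => x (S k)) 𝒰 _ from h7) i) j
      rwa [nhds_discrete, tendsto_pure] at this
    have h9 : ∀ i j, t i j = true → j ∈ ⋃ k, S k := fun i j h => by
      obtain ⟨k, hk⟩ := (h8 i j).exists
      exact h6 k i j (hk.trans h)
    have h10 := h1 _ (countable_iUnion h4) t h9
    have h11 : Tendsto (fun k => res (S k) (x (S k))) 𝒰 (𝓝 t) := by
      refine tendsto_pi_nhds.mpr fun i => tendsto_pi_nhds.mpr fun j => tendsto_const_nhds.congr' ?_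
      by_cases h : j ∈ ⋃ k, S k
      · obtain ⟨k, hk⟩ := mem_iUnion.mp h
        filter_upwards [h8 i j, hU (eventually_ge_atTop k)] with m h12 h13
        simp only [res, if_pos (h5 h13 hk), h12]
      · refine Eventually.of_forall fun k => ?_
        simp only [res, if_neg fun h12 => h (mem_iUnion.mpr ⟨k, h12⟩)]
        exact Bool.eq_false_iff.mpr fun h12 => h (h9 i j h12)
    have h12 := (h10.tendsto.comp (tendsto_nhdsWithin_iff.mpr ⟨h7, Eventually.of_forall h6⟩)).dist
      (h10.tendsto.comp (tendsto_nhdsWithin_iff.mpr ⟨h11, Eventually.of_forall fun k =>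
        h2 _ _ _ fun i j h _ => h6 k i j h⟩))
    rw [dist_self] at h12
    obtain ⟨k, hk⟩ := (h12.eventually (gt_mem_nhds hε)).exists
    exact absurd (hx' _ (h4 k)) (not_le.mpr hk)
  choose S hS hS' using fun n : ℕ => h3 _ (Nat.one_div_pos_of_nat (α := ℝ) (n := n))
  refine ⟨fun t => g (res (⋃ n, S n) t), (h1 _ (countable_iUnion hS)).comp_continuous
    (continuous_pi fun i => continuous_pi fun j => ?_) fun t => h2 _ _ _ fun _ _ _ h => h,
    fun t ht => eq_of_forall_dist_le fun ε hε => ?_⟩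
  · unfold res
    split_ifs <;> fun_prop
  · obtain ⟨n, hn⟩ := exists_nat_one_div_lt (half_pos hε)
    have h4 := hS' n (res (⋃ n, S n) t) fun i _ =>
      (countable_iUnion hS).mono (h2 _ _ _ (fun _ _ _ h => h) i)
    have h5 : res (S n) (res (⋃ n, S n) t) = res (S n) t := by
      funext i j
      by_cases h : j ∈ S n
      · simp only [res, if_pos h, if_pos (mem_iUnion.mpr ⟨n, h⟩)]
      · simp only [res, if_neg h]
    rw [h5] at h4
    linarith [hS' n t ht, dist_triangle_right (g (res (⋃ n, S n) t)) (g t) (g (res (S n) t))]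

theorem extL {J : Type} {D E : Set (J → Bool)} (h0 : {z | {j | z j = true}.Countable} ⊆ D)
    (hDE : D ⊆ E) (h1 : Lk {z | {j | z j = true}.Countable} D) (h2 : Lk D E)
    {Γ : List (J → Bool) → ℝ} (h : ∀ m, ∀ C ⊆ univ.pi fun _ : Fin m => E, IsCompact C →
      ContinuousOn (fun t => Γ (List.ofFn t)) C) :
    ∃ G : List (J → Bool) → ℝ, (∀ (T : Type) [TopologicalSpace T] (l : T → List (J → Bool)),
      CF l → Continuous fun x => G (l x)) ∧ ∀ L, (∀ z ∈ L, z ∈ E) → G L = Γ L := by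
  have h3 : ∀ m, ∃ G : (Fin m → J → Bool) → ℝ, Continuous G ∧
      EqOn G (fun t => Γ (List.ofFn t)) (univ.pi fun _ => E) := fun m => by
    obtain ⟨G, h3, h4⟩ := ext0 fun C hC => h m C (hC.trans (pi_mono fun _ _ => h0.trans hDE))
    exact ⟨G, h3, h2.link h3 (h m) (h1.link h3 (fun C hC => h m C
      (hC.trans (pi_mono fun _ _ => hDE))) h4)⟩
  choose G h3 h4 using h3
  refine ⟨fun L => G _ (List.equivSigmaTuple L).2, fun T _ l hl => ?_, fun L hL => ?_⟩
  · obtain ⟨m, t, h5, h6⟩ := hl.ex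
    refine ((h3 m).comp h5).congr fun x => ?_
    have h7 : List.equivSigmaTuple (l x) = ⟨m, t x⟩ := by
      rw [h6]; exact List.equivSigmaTuple.apply_symm_apply ⟨m, t x⟩
    simp only [Function.comp_apply]
    rw [h7]
  · exact (h4 _ fun i _ => hL _ (List.get_mem _ _)).trans (congrArg Γ (List.ofFn_get L))

end Pool.Agent.H31.Snf
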