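import Pool.Agent.H31.KR2

namespace Pool.Agent.H31.Snf

open Set Filter Topology FreeGroup TopologicalSpace Omega1 Multiplicative

open Classical in
noncomputable def psi : FreeGroup KK →* Multiplicative ℤ :=
  lift fun p => ofAdd (if sm true p.1.2.2 then 1 else 0)

def phi (a : W) : FreeGroup KK →* Multiplicative ℤ :=
  lift fun p => ofAdd (bif p.1.2.1 a then 0 else 1)

theorem cont_phi (a : W) : Continuous[topF KK, _] (phi a) := by
  refine liftF _ ?_
  simp only [phi, lift_apply_of]
  exact (continuous_of_discreteTopology (f := fun b : Bool => ofAdd (bif b then (0 : ℤ) else 1))).comp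
    (by fun_prop : Continuous fun p : KK => p.1.2.1 a)

theorem hom1 {H : Type} [Group H] {χ χ' : FreeGroup KK →* H} {p p' : KK} (s : Bool)
    (h : χ (of p) = χ' (of p')) : χ (mk [(p, s)]) = χ' (mk [(p', s)]) := by
  cases s
  · exact (_root_.map_inv χ (of p)).trans (h ▸ (_root_.map_inv χ' (of p')).symm)
  · exact h

theorem cnt : ∀ L : List (KK × Bool), (∀ p ∈ L, inW p.1) →
    {a | phi a (mk L) ≠ psi (mk L)}.Countable
  | [], _ => by simp [← one_eq_mk]
  | (p, s) :: L, h => by
    have h1 : {a | phi a (of p) ≠ psi (of p)}.Countable := by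
      rcases (h _ List.mem_cons_self).2 with ⟨h1, h2⟩ | ⟨h1, h2⟩
      · refine Countable.mono (fun a ha => ?_) h1
        by_contra h3
        exact ha (by simp [phi, psi, h2, show p.1.2.1 a = false from Bool.eq_false_iff.mpr h3])
      · refine countable_empty.mono fun a ha => ha ?_
        simp [phi, psi, show p.1.2.1 = top from h1, top, show ¬sm true p.1.2.2 from
          fun h3 => sm_disj h3 h2]
    refine (h1.union (cnt L fun q hq => h q (List.mem_cons_of_mem _ hq))).mono fun a ha => ?_
    by_contra h2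
    simp only [mem_union, mem_setOf_eq, not_or, not_not] at h2
    refine ha ?_
    rw [show mk ((p, s) :: L) = mk [(p, s)] * mk L from rfl, _root_.map_mul, _root_.map_mul,
      hom1 s h2.1, h2.2]

theorem psi_loc {C : Set (FreeGroup KK)} (hC : @IsCompact _ (topF KK) C)
    (h : ∀ w ∈ C, {a | phi a w ≠ psi w}.Countable ∧ ∀ n, w ∈ Fn KK n →
      ∃ L : List (KK × Bool), L.length ≤ n ∧ mk L = w ∧ ∀ p ∈ L, inW p.1) :
    @ContinuousOn _ _ (topF KK) _ psi C := by
  letI := topF KK
  haveI := t2F (X := KK)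
  intro c hc
  rw [ContinuousWithinAt, nhds_discrete, tendsto_pure]
  by_contra hcon
  have h1 : ∀ F : Finset W, ∃ w, psi w ≠ psi c ∧ w ∈ C ∧ ∀ a ∈ F, phi a w = phi a c := fun F => by
    have h1 : ∀ᶠ w in 𝓝 c, ∀ a ∈ F, phi a w = phi a c := (eventually_all_finset F).mpr fun a _ => by
      have := (cont_phi a).tendsto c
      rwa [nhds_discrete (Multiplicative ℤ), tendsto_pure] at this
    exact ((not_eventually.mp hcon).and_eventually (Eventually.and self_mem_nhdsWithin
      (nhdsWithin_le_nhds h1))).exists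
  choose s h2 h3 h4 using h1
  obtain ⟨n, hn⟩ := bddF hC
  choose L h5 h6 h7 using fun F => (h _ (h3 F)).2 n (hn (h3 F))
  obtain ⟨𝒰, hU⟩ := Ultrafilter.exists_le (atTop : Filter (Finset W))
  obtain ⟨w, h8, h9⟩ := list_lim psi 𝒰 (W := {p | inW p.1}) (fun x x₀ hx h8 => by
    have h9 : ∀ᶠ k in 𝒰, (x k).2 = x₀.2 := by
      have := (continuous_snd.tendsto x₀).comp h8
      rwa [nhds_discrete, tendsto_pure] at this
    have h10 : Tendsto (fun k => (x k).1.1.2.2) 𝒰 (𝓝 x₀.1.1.2.2) :=
      ((by fun_prop : Continuous fun p : KK × Bool => p.1.1.2.2).tendsto x₀).comp h8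
    have h11 : ∀ᶠ k in 𝒰, (sm true (x k).1.1.2.2 ↔ sm true x₀.1.1.2.2) := by
      rcases 𝒰.em fun k => sm true (x k).1.1.2.2 with h11 | h11
      · exact h11.mono fun k hk => iff_of_true hk (sm_lim h11 h10)
      · refine Eventually.mono h11 fun k hk => iff_of_false hk fun h12 => sm_disj h12 (sm_lim ?_ h10)
        filter_upwards [hx, h11] with j h13 h14
        exact (h13.2.resolve_left fun h15 => h14 h15.2).2
    filter_upwards [h9, h11] with k h12 h13
    have h14 := hom1 (χ := psi) (χ' := psi) (p := (x k).1) (p' := x₀.1) (x k).2 (by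
      simp only [psi, lift_apply_of]
      rw [propext h13])
    exact h14.trans (by rw [h12])) n L h5 h7
  simp only [h6] at h8 h9
  have h10 : w ∈ C := hC.isClosed.mem_of_tendsto h8 (Eventually.of_forall h3)
  obtain ⟨a, ha⟩ := not_forall.mp fun h11 : ∀ a, a ∈ {a | phi a w ≠ psi w} ∪
    {a | phi a c ≠ psi c} => not_countable_univ (((h w h10).1.union (h c hc).1).mono
      fun a _ => h11 a)
  simp only [mem_union, mem_setOf_eq, not_or, not_not] at ha
  have h11 := ((cont_phi a).tendsto w).comp h8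
  rw [nhds_discrete, tendsto_pure] at h11
  obtain ⟨F, h12, h13, h14⟩ := (h9.and (h11.and (hU (eventually_ge_atTop {a})))).exists
  exact h2 F (by rw [h12, ← ha.1, ← ha.2, ← h4 F a (h14 (Finset.mem_singleton_self a))]; exact h13.symm)

def r1 (x : XX) : KK := ⟨(top, x.1.1.2), Or.inl rfl⟩

def r2 (x : XX) : KK := ⟨(x.1.1.1, top, x.1.1.2.2), Or.inr rfl⟩

def HH (r : XX → KK) : Subgroup (FreeGroup XX) :=
  (FreeGroup.map r).eqLocus (FreeGroup.map Subtype.val)

theorem HH_closed {r : XX → KK} (hr : Continuous r) : IsClosed[topF XX] (HH r) := by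
  letI := topF XX
  letI := topF KK
  haveI := t2F (X := KK)
  exact isClosed_eq (contMap hr) (contMap continuous_subtype_val)

theorem cont_r1 : Continuous r1 := Continuous.subtype_mk (by fun_prop) _

theorem cont_r2 : Continuous r2 := Continuous.subtype_mk (by fun_prop) _

theorem letters {w : FreeGroup XX} (hw : w ∈ HH r1) :
    ∃ L : List (KK × Bool), (∀ n, FreeGroup.map Subtype.val w ∈ Fn KK n → L.length ≤ n) ∧
      mk L = FreeGroup.map Subtype.val w ∧ ∀ p ∈ L, inW p.1 := by
  classical
  refine ⟨(FreeGroup.map Subtype.val w).toWord, ?_, mk_toWord, fun p hp => ?_⟩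
  · rintro n ⟨L, h1, h2⟩
    exact h2 ▸ (norm_mk_le (L₁ := L)).trans h1
  · have h1 := hp
    rw [← show FreeGroup.map r1 w = _ from hw] at h1
    obtain ⟨L⟩ := w
    obtain ⟨x, -, rfl⟩ := List.mem_map.mp ((reduce.red (L := L.map fun x => (x.1.1, x.2))).sublist.subset hp)
    obtain ⟨y, -, h2⟩ := List.mem_map.mp ((reduce.red (L := L.map fun x => (r1 x.1, x.2))).sublist.subset h1)
    have h3 : top = x.1.1.1.1 := congrArg (·.1.1.1) h2
    exact x.1.2.resolve_right fun h => not_cs (h3 ▸ h.1)

noncomputable def f0 (w : FreeGroup XX) : ℝ := (psi (FreeGroup.map Subtype.val w)).toAdd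

theorem f0_on {C : Set (FreeGroup XX)} (hC : @IsCompact _ (topF XX) C) (h : C ⊆ HH r1) :
    @ContinuousOn _ _ (topF XX) _ f0 C := by
  letI := topF XX
  letI := topF KK
  have h1 := contMap (continuous_subtype_val : Continuous fun x : XX => x.1)
  refine (continuous_of_discreteTopology (f := fun m : Multiplicative ℤ =>
    (m.toAdd : ℝ))).comp_continuousOn ((psi_loc (hC.image h1) ?_).comp h1.continuousOn
      (mapsTo_image _ _))
  rintro _ ⟨w, hw, rfl⟩
  obtain ⟨L, h2, h3, h4⟩ := letters (h hw)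
  exact ⟨h3 ▸ cnt L h4, fun n hn => ⟨L, h2 n hn, h3, h4⟩⟩

theorem not_kr {S : Set (FreeGroup XX)} (h1 : S ⊆ (HH r1 : Set _) ∪ HH r2)
    (h2 : ∀ x : XX, x.1.1.1 = top → of x ∈ S) : ¬KR S (induced Subtype.val (topF XX)) := by
  classical
  intro h
  letI := topF XX
  have h3 : ∀ w ∈ HH r1, w ∈ HH r2 → f0 w = 0 := fun w h3 h4 => by
    obtain ⟨L, -, h5, h6⟩ := letters h3
    obtain ⟨a, ha⟩ := not_forall.mp fun h7 : ∀ a, phi a (mk L) ≠ psi (mk L) =>
      not_countable_univ ((cnt L h6).mono fun a _ => h7 a)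
    have h7 : (phi a).comp (FreeGroup.map r2) = 1 := ext_hom _ _ fun x => by simp [phi, r2, top]
    rw [f0, ← h5, ← not_not.mp ha, h5, ← show FreeGroup.map r2 w = _ from h4,
      ← MonoidHom.comp_apply, h7]
    simp
  have h4 := h (fun w => if w.1 ∈ HH r1 then f0 w else 0) fun C hC => by
    have h4 : IsClosed (Subtype.val ⁻¹' (HH r1 : Set _) : Set S) :=
      (HH_closed cont_r1).preimage continuous_subtype_val
    have h5 : IsClosed (Subtype.val ⁻¹' (HH r2 : Set _) : Set S) :=
      (HH_closed cont_r2).preimage continuous_subtype_val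
    haveI := t2F (X := XX)
    refine (ContinuousOn.union_of_isClosed ?_ ?_ (hC.inter_right h4).isClosed
      (hC.inter_right h5).isClosed).mono fun w hw => (h1 w.2).imp (And.intro hw) (And.intro hw)
    · refine ((f0_on ((hC.inter_right h4).image continuous_subtype_val) ?_).comp
        continuous_subtype_val.continuousOn (mapsTo_image _ _)).congr fun w hw => if_pos hw.2
      rintro _ ⟨w, hw, rfl⟩
      exact hw.2
    · refine (continuousOn_const (c := (0 : ℝ))).congr fun w hw => ?_
      by_cases h6 : w.1 ∈ HH r1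
      · exact (if_pos h6).trans (h3 _ h6 hw.2)
      · exact if_neg h6
  have h5 : ∀ x : XX, x.1.1.1 = top → of x ∈ HH r1 := fun x hx =>
    show FreeGroup.map r1 (of x) = FreeGroup.map Subtype.val (of x) by
      rw [map.of, map.of]
      exact congrArg of (Subtype.ext (Prod.ext hx.symm rfl))
  let x : Finset W × Finset (Set W) → {x : XX // x.1.1.1 = top} := fun F =>
    ⟨⟨⟨(top, fun a => if a ∈ F.1 then true else false, fun k => if k ∈ F.2 then true else false),
      Or.inl rfl⟩, Or.inl ⟨rfl, Or.inl ⟨F.1.countable_toSet.mono fun a ha => by simpa using ha,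
        sm_count (F.2.countable_toSet.mono fun a ha => by simpa using ha)⟩⟩⟩, rfl⟩
  have h6 : Tendsto x (atTop ×ˢ atTop) (𝓝 ⟨q0, rfl⟩) :=
    tendsto_subtype_rng.mpr (tendsto_subtype_rng.mpr (tendsto_subtype_rng.mpr
      (tendsto_const_nhds.prodMk_nhds (((fin_approx false top).comp tendsto_fst).prodMk_nhds
        ((fin_approx false fun _ => true).comp tendsto_snd)))))
  have h7 := ((h4.comp (((contF (X := XX)).comp continuous_subtype_val).subtype_mk
    fun x : {x : XX // x.1.1.1 = top} => h2 x x.2)).tendsto _).comp h6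
  have h8 : ∀ F, sm true (x F).1.1.1.2.2 := fun F =>
    sm_count (F.2.countable_toSet.mono fun a ha => by simpa [x] using ha)
  have h9 : ¬sm true q0.1.1.2.2 := fun h9 => sm_disj h9 (sm_count (by simp [q0]))
  have h10 := tendsto_nhds_unique h7 ((tendsto_const_nhds (x := (1 : ℝ))).congr fun F => by
    simp only [Function.comp_apply, if_pos (h5 _ (x F).2), f0, psi, map.of, lift_apply_of,
      if_pos (h8 F), toAdd_ofAdd, Int.cast_one])
  simp only [Function.comp_apply, if_pos (h5 q0 rfl), f0, psi, map.of, lift_apply_of,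
    if_neg h9, toAdd_ofAdd, Int.cast_zero] at h10
  exact zero_ne_one h10

theorem not_kr_H : ¬KR (HH r1) (induced Subtype.val (topF XX)) :=
  not_kr (S := HH r1) subset_union_left fun x hx =>
    show FreeGroup.map r1 (of x) = FreeGroup.map Subtype.val (of x) by
      rw [map.of, map.of]
      exact congrArg of (Subtype.ext (Prod.ext hx.symm rfl))

theorem not_kr_F1 : ¬KR (Fn XX 1) (induced Subtype.val (topF XX)) := by
  refine not_kr ?_ fun x _ => ⟨[(x, true)], le_rfl, rfl⟩
  have h1 : ∀ x : XX, of x ∈ HH r1 ∨ of x ∈ HH r2 := fun x => x.1.2.imp (fun hx =>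
    show FreeGroup.map r1 (of x) = FreeGroup.map Subtype.val (of x) by
      rw [map.of, map.of]
      exact congrArg of (Subtype.ext (Prod.ext hx.symm rfl))) fun hx =>
    show FreeGroup.map r2 (of x) = FreeGroup.map Subtype.val (of x) by
      rw [map.of, map.of]
      exact congrArg of (Subtype.ext (Prod.ext rfl (Prod.ext hx.symm rfl)))
  rintro _ ⟨_ | ⟨⟨x, _ | _⟩, _ | _⟩, h2, rfl⟩
  · exact Or.inl (one_mem _)
  · exact (h1 x).imp inv_mem inv_mem
  · simp at h2
  · exact h1 x
  · simp at h2

end Pool.Agent.H31.Snf
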