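import Pool.Agent.H31.SnfDefs

namespace Pool.Agent.H31.Snf

universe u

/-- every real function that is continuous on each compact set is continuous -/
def KR (Y : Type u) (τ : TopologicalSpace Y) : Prop :=
  ∀ f : Y → ℝ, (∀ C : Set Y, IsCompact C → ContinuousOn f C) → Continuous f

end Pool.Agent.H31.Snf
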