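import Mathlib

set_option autoImplicit false

namespace Pool.Agent.H31.KS

def Det (K : (Y : Type) → TopologicalSpace Y → Prop) {X : Type} [TopologicalSpace X]
    (A : Set X) : Prop :=
  ∀ (Y : Type) [s : TopologicalSpace Y] (f : X → Y), K Y s → Continuous f →
    ∃! y : Y, closure (f '' A) = closure {y}

def PH (K : (Y : Type) → TopologicalSpace Y → Prop) (X : Type) [TopologicalSpace X] : Type :=
  {A : Set X // IsClosed A ∧ Det K A}

def topPH (K : (Y : Type) → TopologicalSpace Y → Prop) (X : Type) [TopologicalSpace X] :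
    TopologicalSpace (PH K X) :=
  TopologicalSpace.generateFrom {S | ∃ U : Set X, IsOpen U ∧ S = {A | (A.1 ∩ U).Nonempty}}

def PS (X : Type) [TopologicalSpace X] : Type :=
  {C : Set X // C.Nonempty ∧ IsCompact C ∧
    ∀ x : X, (∀ V : Set X, IsOpen V → C ⊆ V → x ∈ V) → x ∈ C}

def topPS (X : Type) [TopologicalSpace X] : TopologicalSpace (PS X) :=
  TopologicalSpace.generateFrom {S | ∃ U : Set X, IsOpen U ∧ S = {C | C.1 ⊆ U}}

end Pool.Agent.H31.KS
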