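import Pool.Agent.H31.Smyth
import Pool.Agent.H31.KSmythDefs

set_option autoImplicit false

open Filter Topology Set

namespace Pool.Agent.H31.KS

open Smyth (WF sat sat_compact)

theorem rudin {Y : Type} [TopologicalSpace Y] (𝒦 : Set (Set Y)) (hc : ∀ K ∈ 𝒦, IsCompact K)
    {C : Set Y} (hC : IsClosed C) (hm : ∀ K ∈ 𝒦, (K ∩ C).Nonempty) :
    ∃ A, IsClosed A ∧ A ⊆ C ∧ (∀ K ∈ 𝒦, (K ∩ A).Nonempty) ∧
      ∀ B, IsClosed B → (∀ K ∈ 𝒦, (K ∩ A ∩ B).Nonempty) → A ⊆ B := by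
  obtain ⟨A, h1, h2⟩ := zorn_superset_nonempty
    {A : Set Y | IsClosed A ∧ ∀ K ∈ 𝒦, (K ∩ A).Nonempty} (fun c hc1 hc2 hc3 => by
      refine ⟨⋂₀ c, ⟨isClosed_sInter fun s hs => (hc1 hs).1, fun K hK => ?_⟩,
        fun s hs => sInter_subset_of_mem hs⟩
      by_contra h
      haveI : Nonempty c := hc3.to_subtype
      rw [not_nonempty_iff_eq_empty, sInter_eq_iInter] at h
      obtain ⟨i, hi⟩ := (hc K hK).elim_directed_family_closed (fun i : c => i.1)
        (fun i => (hc1 i.2).1) h (fun i j => by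
          rcases hc2.total i.2 j.2 with h | h
          · exact ⟨i, subset_rfl, h⟩
          · exact ⟨j, h, subset_rfl⟩)
      exact ((hc1 i.2).2 K hK).ne_empty hi) C ⟨hC, hm⟩
  refine ⟨A, h2.1.1, h1, h2.1.2, fun B hB hB' => ?_⟩
  have := h2.2 (y := A ∩ B) ⟨h2.1.1.inter hB, fun K hK => by
    rw [← inter_assoc]; exact hB' K hK⟩ inter_subset_left
  exact fun a ha => (this ha).2

theorem wf_meet {Y : Type} [s : TopologicalSpace Y] (hY : WF Y s) {ι : Type} (I : Set ι)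
    (hI : I.Nonempty) (K : ι → Set Y) (hK : ∀ i ∈ I, IsCompact (K i))
    (hd : ∀ i ∈ I, ∀ j ∈ I, ∃ k ∈ I, K k ⊆ K i ∩ K j) {C : Set Y} (hC : IsClosed C)
    (hm : ∀ i ∈ I, (K i ∩ C).Nonempty) : ∃ y ∈ C, ∀ i ∈ I, y ∈ sat (K i) := by
  by_contra h
  push Not at h
  obtain ⟨_, ⟨i, hi, rfl⟩, h1⟩ := hY.2 ((fun i => sat (K i)) '' I) Cᶜ (by
      rintro _ ⟨i, hi, rfl⟩
      exact ⟨sat_compact (hK i hi), fun y hy V hV hV' => hy V hV fun y' hy' => hy' V hV hV'⟩)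
    (hI.image _) (by
      rintro _ ⟨i, hi, rfl⟩ _ ⟨j, hj, rfl⟩
      obtain ⟨k, hk, h⟩ := hd i hi j hj
      exact ⟨_, ⟨k, hk, rfl⟩, fun y hy =>
        ⟨fun V hV hV' => hy V hV ((h.trans inter_subset_left).trans hV'),
          fun V hV hV' => hy V hV ((h.trans inter_subset_right).trans hV')⟩⟩)
    hC.isOpen_compl (fun y hy hyC => by
      obtain ⟨i, hi, h'⟩ := h y hyC
      exact h' (hy _ ⟨i, hi, rfl⟩))
  obtain ⟨y, hy, hy'⟩ := hm i hi
  exact h1 (fun V _ hV => hV hy) hy'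

theorem wf_of {Y : Type} [s : TopologicalSpace Y] (h0 : T0Space Y)
    (h : ∀ (𝒦 : Set (Set Y)) (A : Set Y), (∀ K ∈ 𝒦, IsCompact K) → 𝒦.Nonempty →
      (∀ K₁ ∈ 𝒦, ∀ K₂ ∈ 𝒦, ∃ K₃ ∈ 𝒦, K₃ ⊆ K₁ ∩ K₂) → IsClosed A →
      (∀ K ∈ 𝒦, (K ∩ A).Nonempty) →
      (∀ B, IsClosed B → (∀ K ∈ 𝒦, (K ∩ A ∩ B).Nonempty) → A ⊆ B) →
      ∃ a ∈ A, A ⊆ closure {a}) : WF Y s := by
  refine ⟨h0, fun 𝒦 U h1 h2 h3 hU h4 => ?_⟩
  by_contra hc
  push Not at hc
  obtain ⟨A, a1, a2, a3, a4⟩ := rudin 𝒦 (fun K hK => (h1 K hK).1) hU.isClosed_compl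
    fun K hK => not_subset.1 (hc K hK)
  obtain ⟨a, ha, ha'⟩ := h 𝒦 A (fun K hK => (h1 K hK).1) h2 h3 a1 a3 a4
  refine a2 ha (h4 fun K hK => (h1 K hK).2 a fun V hV hV' => ?_)
  obtain ⟨b, hb, hb'⟩ := a3 K hK
  obtain ⟨_, c1, rfl⟩ := mem_closure_iff.1 (ha' hb') V hV (hV' hb)
  exact c1

theorem wf_sober (Y : Type) [s : TopologicalSpace Y] (h0 : T0Space Y) (h : QuasiSober Y) :
    WF Y s := by
  refine wf_of h0 fun 𝒦 A _ h2 h3 hA h4 h5 => ?_
  have hi : IsIrreducible A := by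
    obtain ⟨K, hK⟩ := h2
    refine ⟨(h4 K hK).mono inter_subset_right,
      isPreirreducible_iff_isClosed_union_isClosed.2 fun B C hB hC h => ?_⟩
    by_contra hc
    have b1 := mt (h5 B hB) fun h => hc (Or.inl h)
    have b2 := mt (h5 C hC) fun h => hc (Or.inr h)
    push Not at b1 b2
    obtain ⟨K1, c1, c2⟩ := b1
    obtain ⟨K2, d1, d2⟩ := b2
    obtain ⟨K3, e1, e2⟩ := h3 K1 c1 K2 d1
    obtain ⟨x, f1, f2⟩ := h4 K3 e1
    rcases h f2 with h | h
    · exact c2.subset ⟨⟨(e2 f1).1, f2⟩, h⟩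
    · exact d2.subset ⟨⟨(e2 f1).2, f2⟩, h⟩
  obtain ⟨a, ha⟩ := QuasiSober.sober hi hA
  exact ⟨a, ha.mem, ha.symm.subset⟩

theorem wf_homeo (Y Z : Type) [s : TopologicalSpace Y] [t : TopologicalSpace Z] (e : Y ≃ₜ Z)
    (hY : WF Y s) : WF Z t := by
  haveI := hY.1
  refine wf_of e.t0Space fun 𝒦 A h1 h2 h3 hA h4 h5 => ?_
  obtain ⟨y, hy, hy'⟩ := wf_meet hY 𝒦 h2 (fun K => e ⁻¹' (K ∩ A))
    (fun K hK => e.isCompact_preimage.2 ((h1 K hK).inter_right hA)) (fun K hK L hL => by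
      obtain ⟨M, hM, h⟩ := h3 K hK L hL
      exact ⟨M, hM, fun x hx => ⟨⟨(h hx.1).1, hx.2⟩, ⟨(h hx.1).2, hx.2⟩⟩⟩)
    (hA.preimage e.continuous) fun K hK => by
      obtain ⟨z, hz⟩ := h4 K hK
      exact ⟨e.symm z, by simpa using hz, by simpa using hz.2⟩
  refine ⟨e y, hy, h5 _ isClosed_closure fun K hK => ?_⟩
  by_contra hc
  exact hy' K hK (e ⁻¹' (closure {e y})ᶜ) (isClosed_closure.isOpen_compl.preimage e.continuous)
    (fun x hx h => hc ⟨_, hx, h⟩) (subset_closure (mem_singleton _))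

theorem wf_finite (Y : Type) [s : TopologicalSpace Y] [Finite Y] (h0 : T0Space Y) : WF Y s := by
  refine ⟨h0, fun 𝒦 U _ h2 h3 _ h4 => ?_⟩
  obtain ⟨K, hK⟩ := (toFinite 𝒦).exists_minimal h2
  refine ⟨K, hK.1, fun x hx => h4 fun L hL => ?_⟩
  obtain ⟨M, hM, h⟩ := h3 K hK.1 L hL
  exact (h (hK.2 hM (h.trans inter_subset_left) hx)).2

theorem det_irred {X : Type} [TopologicalSpace X] {A : Set X} (h : Det WF A) :
    IsIrreducible A := by
  have key : ∀ U V : Set X, IsOpen U → IsOpen V → ∃ y : Prop × Prop,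
      closure ((fun x => (x ∈ U, x ∈ V)) '' A) = closure {y} := fun U V hU hV =>
    (h (Prop × Prop) _ (wf_finite _ inferInstance)
      ((isOpen_iff_continuous_mem.1 hU).prodMk (isOpen_iff_continuous_mem.1 hV))).exists
  have o1 : IsOpen {p : Prop × Prop | p.1} := continuous_Prop.1 continuous_fst
  have o2 : IsOpen {p : Prop × Prop | p.2} := continuous_Prop.1 continuous_snd
  refine ⟨?_, fun U V hU hV ⟨a, ha, ha'⟩ ⟨b, hb, hb'⟩ => ?_⟩
  · obtain ⟨y, hy⟩ := key univ univ isOpen_univ isOpen_univ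
    have : (closure ((fun x : X => (x ∈ univ, x ∈ univ)) '' A)).Nonempty :=
      hy ▸ (singleton_nonempty y).closure
    exact (closure_nonempty_iff.1 this).of_image
  · obtain ⟨y, hy⟩ := key U V hU hV
    have hx : ∀ a ∈ A, (a ∈ U, a ∈ V) ∈ closure {y} := fun a ha => by
      rw [← hy]
      exact subset_closure ⟨a, ha, rfl⟩
    obtain ⟨_, c1, rfl⟩ := mem_closure_iff.1 (hx a ha) _ o1 ha'
    obtain ⟨_, c2, rfl⟩ := mem_closure_iff.1 (hx b hb) _ o2 hb'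
    obtain ⟨_, c3, x, hx, rfl⟩ := mem_closure_iff.1 (hy ▸ subset_closure (mem_singleton _)) _
      (o1.inter o2) ⟨c1, c2⟩
    exact ⟨x, hx, c3⟩

theorem uniq {Y : Type} [TopologicalSpace Y] [T0Space Y] {S : Set Y}
    (h : ∃ y, S = closure {y}) : ∃! y, S = closure {y} := by
  obtain ⟨y, hy⟩ := h
  exact ⟨y, hy, fun z hz => (inseparable_iff_closure_eq.2 (hz.symm.trans hy)).eq⟩

theorem det_pt {X : Type} [TopologicalSpace X] (x : X) : Det WF (closure {x}) := by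
  intro Y _ f hY hf
  haveI := hY.1
  refine uniq ⟨f x, ?_⟩
  rw [closure_image_closure hf, image_singleton]

theorem PH_open {X : Type} [TopologicalSpace X] {V : Set (PH WF X)}
    (hV : IsOpen[topPH WF X] V) : ∃ U, IsOpen U ∧ V = {A | (A.1 ∩ U).Nonempty} := by
  induction hV with
  | basic s hs => exact hs
  | univ =>
    refine ⟨univ, isOpen_univ, (eq_univ_of_forall fun A => ?_).symm⟩
    simpa using (det_irred A.2.2).1
  | inter s t _ _ h1 h2 =>
    obtain ⟨U, hU, rfl⟩ := h1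
    obtain ⟨V, hV, rfl⟩ := h2
    refine ⟨U ∩ V, hU.inter hV, Set.ext fun A => ⟨fun h => (det_irred A.2.2).2 U V hU hV h.1 h.2,
      fun h => ⟨h.mono (inter_subset_inter_right _ inter_subset_left),
        h.mono (inter_subset_inter_right _ inter_subset_right)⟩⟩⟩
  | sUnion S _ h =>
    choose! U hU hU' using h
    refine ⟨⋃ s ∈ S, U s, isOpen_biUnion hU, Set.ext fun A => ⟨?_, ?_⟩⟩
    · rintro ⟨s, hs, hA⟩
      rw [hU' s hs] at hA
      exact hA.mono (inter_subset_inter_right _ (subset_biUnion_of_mem hs))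
    · rintro ⟨x, hx, hx'⟩
      obtain ⟨s, hs, h⟩ := mem_iUnion₂.1 hx'
      refine ⟨s, hs, ?_⟩
      rw [hU' s hs]
      exact ⟨x, hx, h⟩

theorem adequate (X : Type) [TopologicalSpace X] : WF (PH WF X) (topPH WF X) := by
  letI := topPH WF X
  have hd : ∀ U : Set X, IsOpen U → IsOpen {A : PH WF X | (A.1 ∩ U).Nonempty} := fun U hU =>
    TopologicalSpace.isOpen_generateFrom_of_mem ⟨U, hU, rfl⟩
  have hcl : ∀ A B : PH WF X, A ∈ closure {B} ↔ A.1 ⊆ B.1 := by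
    intro A B
    constructor
    · intro h x hx
      by_contra hc
      obtain ⟨_, ⟨y, h1, h2⟩, rfl⟩ := mem_closure_iff.1 h _ (hd _ B.2.1.isOpen_compl) ⟨x, hx, hc⟩
      exact h2 h1
    · intro h
      refine mem_closure_iff.2 fun V hV hA => ?_
      obtain ⟨U, hU, rfl⟩ := PH_open hV
      exact ⟨B, Nonempty.mono (inter_subset_inter_left _ h) hA, rfl⟩
  refine wf_of ⟨fun A B h => Subtype.ext (subset_antisymm ((hcl _ _).1 h.specializes'.mem_closure)
    ((hcl _ _).1 h.specializes.mem_closure))⟩ fun 𝒦 𝒜 h1 h2 h3 hA h4 h5 => ?_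
  obtain ⟨U, hU, hU'⟩ := PH_open hA.isOpen_compl
  have hm : ∀ B : PH WF X, B ∈ 𝒜 ↔ B.1 ⊆ Uᶜ := by
    intro B
    have : B ∉ 𝒜 ↔ (B.1 ∩ U).Nonempty := Set.ext_iff.1 hU' B
    constructor
    · exact fun h x hx hx' => this.2 ⟨x, hx, hx'⟩ h
    · intro h
      by_contra hc
      obtain ⟨x, hx, hx'⟩ := this.1 hc
      exact h hx hx'
  have hdet : Det WF Uᶜ := by
    intro Y _ f hY hf
    haveI := hY.1
    choose g hg using fun B : PH WF X => (B.2.2 Y f hY hf).exists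
    have hg' : ∀ (B : PH WF X) (V : Set Y), IsOpen V → (g B ∈ V ↔ (B.1 ∩ f ⁻¹' V).Nonempty) := by
      intro B V hV
      constructor
      · intro h
        obtain ⟨_, c1, x, hx, rfl⟩ := mem_closure_iff.1
          (hg B ▸ subset_closure (mem_singleton _)) V hV h
        exact ⟨x, hx, c1⟩
      · rintro ⟨x, hx, h⟩
        have : f x ∈ closure {g B} := by
          rw [← hg]
          exact subset_closure ⟨x, hx, rfl⟩
        obtain ⟨_, c1, rfl⟩ := mem_closure_iff.1 this V hV h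
        exact c1
    have hgc : Continuous g := ⟨fun V hV => by
      have : g ⁻¹' V = {B | (B.1 ∩ f ⁻¹' V).Nonempty} := Set.ext fun B => hg' B V hV
      rw [this]
      exact hd _ (hV.preimage hf)⟩
    obtain ⟨y, hy, hy'⟩ := wf_meet hY 𝒦 h2 (fun K => g '' (K ∩ 𝒜))
      (fun K hK => ((h1 K hK).inter_right hA).image hgc) (fun K hK L hL => by
        obtain ⟨M, hM, h⟩ := h3 K hK L hL
        exact ⟨M, hM, subset_inter (image_mono fun x hx => ⟨(h hx.1).1, hx.2⟩)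
          (image_mono fun x hx => ⟨(h hx.1).2, hx.2⟩)⟩)
      (isClosed_closure (s := f '' Uᶜ)) fun K hK => by
        obtain ⟨B, hB⟩ := h4 K hK
        refine ⟨g B, ⟨B, hB, rfl⟩, closure_mono (image_mono ((hm B).1 hB.2)) ?_⟩
        rw [hg]
        exact subset_closure (mem_singleton _)
    have h6 : 𝒜 ⊆ g ⁻¹' closure {y} := h5 _ (isClosed_closure.preimage hgc) fun K hK => by
      by_contra hc
      refine hy' K hK (closure {y})ᶜ isClosed_closure.isOpen_compl ?_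
        (subset_closure (mem_singleton _))
      rintro _ ⟨B, hB, rfl⟩ h
      exact hc ⟨B, hB, h⟩
    refine uniq ⟨y, subset_antisymm (closure_minimal ?_ isClosed_closure)
      (closure_minimal (singleton_subset_iff.2 hy) isClosed_closure)⟩
    rintro _ ⟨x, hx, rfl⟩
    have h7 : g ⟨closure {x}, isClosed_closure, det_pt x⟩ ∈ closure {y} :=
      h6 ((hm ⟨closure {x}, isClosed_closure, det_pt x⟩).2
      (closure_minimal (singleton_subset_iff.2 hx) hU.isClosed_compl))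
    refine closure_minimal (singleton_subset_iff.2 h7) isClosed_closure ?_
    rw [← hg]
    exact subset_closure ⟨x, subset_closure (mem_singleton _), rfl⟩
  exact ⟨⟨Uᶜ, hU.isClosed_compl, hdet⟩, (hm _).2 subset_rfl, fun B hB => (hcl _ _).2 ((hm B).1 hB)⟩

theorem PS_basis {X : Type} [TopologicalSpace X] {V : Set (PS X)} (hV : IsOpen[topPS X] V) :
    ∀ K ∈ V, ∃ U, IsOpen U ∧ K.1 ⊆ U ∧ ∀ L : PS X, L.1 ⊆ U → L ∈ V := by
  induction hV with
  | basic s hs =>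
    obtain ⟨U, hU, rfl⟩ := hs
    exact fun K hK => ⟨U, hU, hK, fun _ h => h⟩
  | univ => exact fun K _ => ⟨univ, isOpen_univ, subset_univ _, fun _ _ => trivial⟩
  | inter s t _ _ h1 h2 =>
    intro K hK
    obtain ⟨U, a1, a2, a3⟩ := h1 K hK.1
    obtain ⟨V, b1, b2, b3⟩ := h2 K hK.2
    exact ⟨U ∩ V, a1.inter b1, subset_inter a2 b2, fun L hL =>
      ⟨a3 L (hL.trans inter_subset_left), b3 L (hL.trans inter_subset_right)⟩⟩
  | sUnion S _ h =>
    rintro K ⟨s, hs, hK⟩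
    obtain ⟨U, a1, a2, a3⟩ := h s hs K hK
    exact ⟨U, a1, a2, fun L hL => ⟨s, hs, a3 L hL⟩⟩

theorem smyth (X : Type) [t : TopologicalSpace X] (hX : WF X t) : WF (PS X) (topPS X) := by
  letI := topPS X
  have hb : ∀ U : Set X, IsOpen U → IsOpen {K : PS X | K.1 ⊆ U} := fun U hU =>
    TopologicalSpace.isOpen_generateFrom_of_mem ⟨U, hU, rfl⟩
  have hcl : ∀ A B : PS X, A ∈ closure {B} ↔ B.1 ⊆ A.1 := by
    intro A B
    constructor
    · intro h x hx
      refine A.2.2.2 x fun V hV hA => ?_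
      obtain ⟨_, h1, rfl⟩ := mem_closure_iff.1 h _ (hb V hV) hA
      exact h1 hx
    · intro h
      refine mem_closure_iff.2 fun V hV hA => ?_
      obtain ⟨U, -, a2, a3⟩ := PS_basis hV A hA
      exact ⟨B, a3 B (h.trans a2), rfl⟩
  refine wf_of ⟨fun A B h => Subtype.ext (subset_antisymm ((hcl _ _).1 h.specializes.mem_closure)
    ((hcl _ _).1 h.specializes'.mem_closure))⟩ fun 𝒦 𝒜 h1 h2 h3 hA h4 h5 => ?_
  let M : Set (PS X) → Set X := fun K => ⋃ B ∈ K ∩ 𝒜, B.1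
  have hM : ∀ K ∈ 𝒦, IsCompact (M K) := by
    intro K hK
    refine isCompact_of_finite_subcover fun {ι} U hU h => ?_
    obtain ⟨F, hF⟩ := ((h1 K hK).inter_right hA).elim_directed_cover
      (fun F : Finset ι => {B : PS X | B.1 ⊆ ⋃ i ∈ F, U i})
      (fun F => hb _ (isOpen_biUnion fun i _ => hU i))
      (fun B hB => mem_iUnion.2 (B.2.2.1.elim_finite_subcover U hU
        ((subset_biUnion_of_mem (u := fun B : PS X => B.1) hB).trans h)))
      (directed_of_isDirected_le fun F G hFG B hB =>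
        Subset.trans hB (biUnion_subset_biUnion_left hFG))
    exact ⟨F, iUnion₂_subset fun B hB => hF hB⟩
  have hMd : ∀ K ∈ 𝒦, ∀ L ∈ 𝒦, ∃ N ∈ 𝒦, M N ⊆ M K ∩ M L := by
    intro K hK L hL
    obtain ⟨N, hN, h⟩ := h3 K hK L hL
    exact ⟨N, hN, subset_inter (biUnion_subset_biUnion_left fun x hx => ⟨(h hx.1).1, hx.2⟩)
      (biUnion_subset_biUnion_left fun x hx => ⟨(h hx.1).2, hx.2⟩)⟩
  have hU : ∀ U, IsOpen U → {x | ∀ K ∈ 𝒦, x ∈ sat (M K)} ⊆ U → ∃ K ∈ 𝒦, M K ⊆ U := by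
    intro U hU h
    by_contra hc
    push Not at hc
    obtain ⟨y, hy, hy'⟩ := wf_meet hX 𝒦 h2 M hM hMd hU.isClosed_compl
      fun K hK => not_subset.1 (hc K hK)
    exact hy (h hy')
  let L : PS X := ⟨{x | ∀ K ∈ 𝒦, x ∈ sat (M K)}, by
      by_contra hc
      obtain ⟨K, hK, h⟩ := hU ∅ isOpen_empty (not_nonempty_iff_eq_empty.1 hc).subset
      obtain ⟨B, hB⟩ := h4 K hK
      obtain ⟨x, hx⟩ := B.2.1
      exact h (mem_biUnion hB hx),
    isCompact_of_finite_subcover fun U hU' h => by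
      obtain ⟨K, hK, h⟩ := hU _ (isOpen_iUnion hU') h
      obtain ⟨F, hF⟩ := (hM K hK).elim_finite_subcover U hU' h
      exact ⟨F, fun x hx => hx K hK _ (isOpen_biUnion fun i _ => hU' i) hF⟩,
    fun x hx K hK V hV hV' => hx V hV fun y hy => hy K hK V hV hV'⟩
  refine ⟨L, hA.closure_subset (mem_closure_iff.2 fun V hV hL => ?_), fun B hB =>
    (hcl _ _).2 fun x hx => ?_⟩
  · obtain ⟨U, a1, a2, a3⟩ := PS_basis hV L hL
    obtain ⟨K, hK, h⟩ := hU U a1 a2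
    obtain ⟨B, hB⟩ := h4 K hK
    exact ⟨B, a3 B ((subset_biUnion_of_mem (u := fun B : PS X => B.1) hB).trans h), hB.2⟩
  · have := h5 {B : PS X | B.1 ⊆ (closure {x})ᶜ}ᶜ
      (hb _ isClosed_closure.isOpen_compl).isClosed_compl (fun K hK => by
        by_contra hc
        refine hx K hK (closure {x})ᶜ isClosed_closure.isOpen_compl
          (iUnion₂_subset fun B hB => ?_) (subset_closure (mem_singleton _))
        by_contra h
        exact hc ⟨B, hB, h⟩) hB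
    obtain ⟨y, hy, hy'⟩ := not_subset.1 this
    refine B.2.2.2 x fun V hV hV' => ?_
    obtain ⟨_, c1, rfl⟩ := mem_closure_iff.1 (not_not.1 hy') V hV (hV' hy)
    exact c1

theorem X_det (A : Set Smyth.X) : (IsClosed A ∧ IsIrreducible A) ↔ (IsClosed A ∧ Det WF A) :=
  ⟨fun h => ⟨h.1, fun Y s f hY hf => by
    haveI := hY.1
    exact uniq (Smyth.wfd A h.1 h.2 Y s f hY hf)⟩, fun h => ⟨h.1, det_irred h.2⟩⟩

theorem PS_not : ∃ A : Set (PS Smyth.X), @IsClosed _ (topPS _) A ∧ @IsIrreducible _ (topPS _) A ∧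
    ¬ @Det WF _ (topPS _) A := by
  by_contra hc
  push Not at hc
  exact Smyth.not_wfd fun A h1 h2 Y s f hY hf => (hc A h1 h2 Y f hY hf).exists

end Pool.Agent.H31.KS
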