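import Pool.Agent.H31.KSpDefs

namespace Pool.Agent.H31.KSp

open Set Filter Topology Pointwise TSp

universe u v

section Alg

variable {V : Type v} [AddCommGroup V]

def PS (C U : ℕ → Set V) : ℕ → Set V
  | 0 => {0}
  | N + 1 => PS C U N + (U N ∩ C N)

def SS (C U : ℕ → Set V) : Set V := ⋃ N, PS C U N

theorem PS_zero {C U : ℕ → Set V} (h : ∀ n, (0 : V) ∈ U n ∩ C n) : ∀ N, (0 : V) ∈ PS C U N
  | 0 => rfl
  | N + 1 => ⟨0, PS_zero h N, 0, h N, add_zero _⟩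

theorem PS_mono {C U : ℕ → Set V} (h : ∀ n, (0 : V) ∈ U n ∩ C n) : Monotone (PS C U) :=
  monotone_nat_of_le_succ fun N v hv => ⟨v, hv, 0, h N, add_zero _⟩

theorem PS_map {C U U' : ℕ → Set V} (h : ∀ n, (0 : V) ∈ U n ∩ C n) (φ : V →+ V) (k : ℕ)
    (hφ : ∀ n, ∀ v ∈ U' n ∩ C n, φ v ∈ U (n + k) ∩ C (n + k)) :
    ∀ N, ∀ v ∈ PS C U' N, φ v ∈ PS C U (N + k)
  | 0, v, hv => by
    rw [show v = 0 from hv, map_zero]
    exact PS_zero h _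
  | N + 1, v, hv => by
    obtain ⟨a, ha, b, hb, rfl⟩ := hv
    rw [show N + 1 + k = (N + k) + 1 by ring]
    exact ⟨φ a, PS_map h φ k hφ N a ha, φ b, hφ N b hb, (map_add φ a b).symm⟩

theorem SS_map {C U U' : ℕ → Set V} (h : ∀ n, (0 : V) ∈ U n ∩ C n) (φ : V →+ V) (k : ℕ)
    (hφ : ∀ n, ∀ v ∈ U' n ∩ C n, φ v ∈ U (n + k) ∩ C (n + k)) :
    ∀ v ∈ SS C U', φ v ∈ SS C U := by
  intro v hv
  obtain ⟨N, hN⟩ := mem_iUnion.mp hv
  exact mem_iUnion.mpr ⟨N + k, PS_map h φ k hφ N v hN⟩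

theorem PS_add {C U U' : ℕ → Set V} (h : ∀ n, (0 : V) ∈ U n ∩ C n)
    (ha : ∀ n, ∀ a ∈ U' n ∩ C n, ∀ b ∈ U' n ∩ C n, a + b ∈ U (n + 1) ∩ C (n + 1)) :
    ∀ N, ∀ a ∈ PS C U' N, ∀ b ∈ PS C U' N, a + b ∈ PS C U (N + 1)
  | 0, a, h1, b, h2 => by
    rw [show a = 0 from h1, show b = 0 from h2, add_zero]
    exact PS_zero h _
  | N + 1, a, h1, b, h2 => by
    obtain ⟨a1, ha1, a2, ha2, rfl⟩ := h1
    obtain ⟨b1, hb1, b2, hb2, rfl⟩ := h2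
    refine ⟨a1 + b1, PS_add h ha N a1 ha1 b1 hb1, a2 + b2, ha N a2 ha2 b2 hb2, ?_⟩
    show a1 + b1 + (a2 + b2) = a1 + a2 + (b1 + b2)
    abel

theorem mem_SS {C U : ℕ → Set V} (h : ∀ n, (0 : V) ∈ U n ∩ C n) {n : ℕ} {v : V}
    (hv : v ∈ U n ∩ C n) : v ∈ SS C U :=
  mem_iUnion.mpr ⟨n + 1, 0, PS_zero h n, v, hv, zero_add _⟩

end Alg

variable {V : Type v} [AddCommGroup V] [Module ℝ V] [TopologicalSpace V]

structure Tower (C : ℕ → Set V) : Prop where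
  cpt : ∀ n, IsCompact (C n)
  zero : ∀ n, (0 : V) ∈ C n
  add : ∀ n, ∀ a ∈ C n, ∀ b ∈ C n, a + b ∈ C (n + 1)
  bal : ∀ n, Balanced ℝ (C n)
  cov : ∀ v, ∃ n, v ∈ C n

theorem Tower.mono {C : ℕ → Set V} (hC : Tower C) : Monotone C :=
  monotone_nat_of_le_succ fun n v hv => by simpa using hC.add n v hv 0 (hC.zero n)

theorem Tower.smul {C : ℕ → Set V} (hC : Tower C) (t : ℝ) :
    ∃ k, ∀ n, ∀ v ∈ C n, t • v ∈ C (n + k) := by
  have h1 : ∀ k : ℕ, ∀ n, ∀ v ∈ C n, ((2 : ℝ) ^ k) • v ∈ C (n + k) := by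
    intro k
    induction k with
    | zero => intro n v hv; simpa using hv
    | succ k ih =>
      intro n v hv
      have := hC.add _ _ (ih n v hv) _ (ih n v hv)
      rw [← add_smul] at this
      rw [pow_succ, mul_two]
      exact this
  obtain ⟨k, hk⟩ := pow_unbounded_of_one_lt |t| (one_lt_two (α := ℝ))
  refine ⟨k, fun n v hv => ?_⟩
  have hp : (0 : ℝ) < 2 ^ k := by positivity
  have h2 := (hC.bal (n + k)).smul_mem (a := t / 2 ^ k) (by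
    rw [Real.norm_eq_abs, abs_div, abs_of_pos hp, div_le_one hp]; exact hk.le) (h1 k n v hv)
  rwa [smul_smul, div_mul_cancel₀ _ hp.ne'] at h2

def Good (U : ℕ → Set V) : Prop := ∀ n, U n ∈ 𝓝 (0 : V) ∧ Balanced ℝ (U n)

theorem Good.zero {C U : ℕ → Set V} (hC : Tower C) (hU : Good U) (n : ℕ) :
    (0 : V) ∈ U n ∩ C n := ⟨mem_of_mem_nhds (hU n).1, hC.zero n⟩

variable [IsTopologicalAddGroup V] [ContinuousSMul ℝ V]

theorem exists_good (W : ℕ → Set V) (hW : ∀ n, W n ∈ 𝓝 (0 : V)) :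
    ∃ U, Good U ∧ ∀ n, U n ⊆ W n := by
  have h : ∀ n, ∃ U, (U ∈ 𝓝 (0 : V) ∧ Balanced ℝ U) ∧ U ⊆ W n := fun n =>
    (nhds_basis_balanced ℝ V).mem_iff.mp (hW n)
  choose U hU hUW using h
  exact ⟨U, hU, hUW⟩

theorem SS_smul {C U : ℕ → Set V} (hC : Tower C) (hU : Good U) {t : ℝ} (ht : ‖t‖ ≤ 1) :
    ∀ v ∈ SS C U, t • v ∈ SS C U :=
  SS_map (hU.zero hC) (DistribSMul.toAddMonoidHom V t) 0 fun n _ hv =>
    ⟨(hU n).2.smul_mem ht hv.1, (hC.bal n).smul_mem ht hv.2⟩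

def basis {C : ℕ → Set V} (hC : Tower C) : ModuleFilterBasis ℝ V where
  sets := {S | ∃ U, Good U ∧ S = SS C U}
  nonempty := ⟨_, fun _ => univ, fun _ => ⟨univ_mem, balanced_univ⟩, rfl⟩
  inter_sets := by
    rintro _ _ ⟨U, hU, rfl⟩ ⟨U', hU', rfl⟩
    refine ⟨_, ⟨fun n => U n ∩ U' n, fun n => ⟨inter_mem (hU n).1 (hU' n).1,
      (hU n).2.inter (hU' n).2⟩, rfl⟩, fun v hv => ⟨?_, ?_⟩⟩
    · exact SS_map (hU.zero hC) (AddMonoidHom.id V) 0 (fun n v hv => ⟨hv.1.1, hv.2⟩) v hv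
    · exact SS_map (hU'.zero hC) (AddMonoidHom.id V) 0 (fun n v hv => ⟨hv.1.2, hv.2⟩) v hv
  zero' := by
    rintro _ ⟨U, hU, rfl⟩
    exact mem_iUnion.mpr ⟨0, rfl⟩
  add' := by
    rintro _ ⟨U, hU, rfl⟩
    have h : ∀ n, ∃ W ∈ 𝓝 (0 : V), ∀ a ∈ W, ∀ b ∈ W, a + b ∈ U (n + 1) := fun n =>
      exists_nhds_zero_half (hU (n + 1)).1
    choose W hW hWU using h
    obtain ⟨U', hU', hUW⟩ := exists_good W hW
    refine ⟨_, ⟨U', hU', rfl⟩, ?_⟩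
    rintro _ ⟨a, ha, b, hb, rfl⟩
    obtain ⟨N, hN⟩ := mem_iUnion.mp ha
    obtain ⟨N', hN'⟩ := mem_iUnion.mp hb
    refine mem_iUnion.mpr ⟨max N N' + 1, PS_add (hU.zero hC) (fun n a ha b hb =>
      ⟨hWU n a (hUW n ha.1) b (hUW n hb.1), hC.add n a ha.2 b hb.2⟩) _ a
      (PS_mono (hU'.zero hC) (le_max_left _ _) hN) b
      (PS_mono (hU'.zero hC) (le_max_right _ _) hN')⟩
  neg' := by
    rintro _ ⟨U, hU, rfl⟩
    refine ⟨_, ⟨U, hU, rfl⟩, fun v hv => ?_⟩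
    have := SS_smul hC hU (t := -1) (by simp) v hv
    simpa using this
  conj' := by
    rintro x₀ _ ⟨U, hU, rfl⟩
    exact ⟨_, ⟨U, hU, rfl⟩, fun v hv => by simpa using hv⟩
  smul' := by
    rintro _ ⟨U, hU, rfl⟩
    refine ⟨Metric.closedBall 0 1, Metric.closedBall_mem_nhds _ one_pos, _, ⟨U, hU, rfl⟩, ?_⟩
    rintro _ ⟨t, ht, v, hv, rfl⟩
    exact SS_smul hC hU (by simpa using ht) v hv
  smul_left' := by
    rintro t _ ⟨U, hU, rfl⟩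
    obtain ⟨k, hk⟩ := hC.smul t
    obtain ⟨U', hU', hUW⟩ := exists_good (fun n => (fun v : V => t • v) ⁻¹' U (n + k)) (fun n =>
      (continuous_const_smul t).continuousAt.preimage_mem_nhds (by simpa using (hU (n + k)).1))
    exact ⟨_, ⟨U', hU', rfl⟩, fun v hv => SS_map (hU.zero hC) (DistribSMul.toAddMonoidHom V t) k
      (fun n v hv => ⟨hUW n hv.1, hk n v hv.2⟩) v hv⟩
  smul_right' := by
    rintro v _ ⟨U, hU, rfl⟩
    obtain ⟨n, hn⟩ := hC.cov v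
    have h1 : Tendsto (fun t : ℝ => t • v) (𝓝 0) (𝓝 0) := by
      simpa using (tendsto_id (x := 𝓝 (0 : ℝ))).smul_const v
    filter_upwards [h1.eventually (hU n).1, Metric.closedBall_mem_nhds (0 : ℝ) one_pos]
      with t ht1 ht2
    exact mem_SS (hU.zero hC) ⟨ht1, (hC.bal n).smul_mem (by simpa using ht2) hn⟩

theorem key [T2Space V] {C : ℕ → Set V} (hC : Tower C) {O : Set V}
    (hO : ∀ n, IsOpen ((↑) ⁻¹' O : Set (C n))) {v : V} (hv : v ∈ O) :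
    ∃ U, Good U ∧ ∀ w ∈ SS C U, v + w ∈ O := by
  have step : ∀ (N : ℕ) (L : Set V), (IsCompact L ∧ L ⊆ O ∧ ∃ m, L ⊆ C m) →
      ∃ U : Set V, (U ∈ 𝓝 (0 : V) ∧ Balanced ℝ U) ∧
        (IsCompact (L + (U ∩ C N)) ∧ L + (U ∩ C N) ⊆ O ∧ ∃ m, L + (U ∩ C N) ⊆ C m) := by
    rintro N L ⟨hL, hLO, m, hm⟩
    obtain ⟨O', hO', hOO⟩ := isOpen_induced_iff.mp (hO (max m N + 1))
    have h1 : ∀ a ∈ C (max m N + 1), a ∈ O' ↔ a ∈ O := fun a ha =>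
      Set.ext_iff.mp hOO ⟨a, ha⟩
    have h2 : L ⊆ O' := fun a ha =>
      (h1 a (hC.mono (by omega) (hm ha))).mpr (hLO ha)
    obtain ⟨W, hW, hWO⟩ := compact_open_separated_add_right hL hO' h2
    obtain ⟨U, ⟨hU1, hU2, hU3⟩, hUW⟩ := (nhds_basis_closed_balanced ℝ V).mem_iff.mp hW
    have h3 : L + (U ∩ C N) ⊆ C (max m N + 1) := by
      rintro _ ⟨a, ha, b, hb, rfl⟩
      exact hC.add _ a (hC.mono (le_max_left _ _) (hm ha)) b (hC.mono (le_max_right _ _) hb.2)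
    refine ⟨U, ⟨hU1, hU3⟩, hL.add ((hC.cpt N).inter_left hU2), ?_, _, h3⟩
    rintro _ ⟨a, ha, b, hb, rfl⟩
    exact (h1 _ (h3 ⟨a, ha, b, hb, rfl⟩)).mp (hWO ⟨a, ha, b, hUW hb.1, rfl⟩)
  choose! u hu1 hu2 using step
  let L : ℕ → Set V := fun N => Nat.rec {v} (fun N L => L + (u N L ∩ C N)) N
  have hL : ∀ N, IsCompact (L N) ∧ L N ⊆ O ∧ ∃ m, L N ⊆ C m := by
    intro N
    induction N with
    | zero =>
      obtain ⟨m, hm⟩ := hC.cov v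
      exact ⟨isCompact_singleton, singleton_subset_iff.mpr hv, m, singleton_subset_iff.mpr hm⟩
    | succ N ih => exact hu2 N (L N) ih
  refine ⟨fun N => u N (L N), fun N => hu1 N (L N) (hL N), fun w hw => ?_⟩
  obtain ⟨N, hN⟩ := mem_iUnion.mp hw
  have h : ∀ N, ∀ w ∈ PS C (fun N => u N (L N)) N, v + w ∈ L N := by
    intro N
    induction N with
    | zero => intro w hw; rw [show w = 0 from hw, add_zero]; rfl
    | succ N ih =>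
      rintro _ ⟨a, ha, b, hb, rfl⟩
      exact ⟨v + a, ih a ha, b, hb, add_assoc _ _ _⟩
  exact (hL N).2.1 (h N w hN)

end Pool.Agent.H31.KSp
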