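import Pool.Agent.H31.KSp1

namespace Pool.Agent.H31.KSp

open Set Filter Topology Pointwise TSp

universe u v

variable {X : Type u} {V : Type v} [TopologicalSpace X] [AddCommGroup V] [Module ℝ V]
  [TopologicalSpace V] {i : X → V}

theorem exists_fun (hi : IsFreeTVS.{u, v, v} i) (f : X → ℝ) (hf : Continuous f) :
    ∃ F : V →L[ℝ] ℝ, ∀ x, F (i x) = f x := by
  obtain ⟨F, hF, -⟩ := hi.2 (ULift.{v} ℝ) (fun x => ULift.up (f x)) (continuous_uliftUp.comp hf)
  refine ⟨(ContinuousLinearEquiv.ulift : ULift.{v} ℝ ≃L[ℝ] ℝ).toContinuousLinearMap.comp F,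
    fun x => ?_⟩
  simp only [ContinuousLinearMap.comp_apply, hF]
  rfl

theorem exists_bump [CompletelyRegularSpace X] {x : X} {U : Set X} (hU : U ∈ 𝓝 x) :
    ∃ f : X → ℝ, Continuous f ∧ f x = 1 ∧ (∀ y, 0 ≤ f y) ∧ (∀ y, f y ≤ 1) ∧
      ∀ y, y ∉ U → f y = 0 := by
  obtain ⟨f, hf, h0, h1⟩ := CompletelyRegularSpace.completely_regular x (interior U)ᶜ
    isOpen_interior.isClosed_compl (fun h => h (mem_interior_iff_mem_nhds.mpr hU))
  refine ⟨fun y => 1 - (f y : ℝ), by fun_prop, by simp [h0], fun y => ?_, fun y => ?_,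
    fun y hy => ?_⟩
  · have := (f y).2.2; linarith
  · have := (f y).2.1; linarith
  · have : f y = 1 := h1 (fun h => hy (interior_subset h))
    simp [this]

theorem lin_indep [T35Space X] (hi : IsFreeTVS.{u, v, v} i) : LinearIndependent ℝ i := by
  classical
  rw [linearIndependent_iff']
  intro s g hg x hx
  have hU : ((s.erase x : Finset X) : Set X)ᶜ ∈ 𝓝 x :=
    (s.erase x).finite_toSet.isClosed.isOpen_compl.mem_nhds (by simp)
  obtain ⟨f, hf, h1, -, -, h0⟩ := exists_bump hU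
  obtain ⟨F, hF⟩ := exists_fun hi f hf
  have h := congrArg F hg
  rw [map_sum, map_zero, ← Finset.add_sum_erase s _ hx, Finset.sum_eq_zero] at h
  · simpa [hF, h1] using h
  · intro y hy
    simp [hF, h0 y (fun h => h (Finset.mem_coe.mpr hy))]

variable [IsTopologicalAddGroup V] [ContinuousSMul ℝ V] [T2Space V]

theorem span_top (hi : IsFreeTVS.{u, v, v} i) (v : V) : v ∈ Submodule.span ℝ (range i) := by
  obtain ⟨F, hF, -⟩ := hi.2 (Submodule.span ℝ (range i))
    (fun x => ⟨i x, Submodule.subset_span (mem_range_self x)⟩) (hi.1.subtype_mk _)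
  obtain ⟨G, -, hG⟩ := hi.2 V i hi.1
  have h1 := hG ((Submodule.span ℝ (range i)).subtypeL.comp F) (fun x => by simp [hF])
  have h2 := hG (ContinuousLinearMap.id ℝ V) (fun x => rfl)
  have h3 : v = (F v : V) := congrArg (fun H : V →L[ℝ] V => H v) (h2.trans h1.symm)
  rw [h3]
  exact (F v).2

theorem closedEmb [T35Space X] (hi : IsFreeTVS.{u, v, v} i) : IsClosedEmbedding i := by
  classical
  refine ⟨⟨?_, (lin_indep hi).injective⟩, ?_⟩
  · rw [isInducing_iff_nhds]
    intro x
    refine le_antisymm (map_le_iff_le_comap.mp hi.1.continuousAt) fun U hU => ?_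
    obtain ⟨f, hf, h1, -, -, h0⟩ := exists_bump hU
    obtain ⟨F, hF⟩ := exists_fun hi f hf
    refine mem_comap.mpr ⟨{v | F v ≠ 0}, (isOpen_ne_fun F.continuous continuous_const).mem_nhds
      (by simp [hF, h1]), fun y hy => ?_⟩
    by_contra h
    exact hy (by rw [hF, h0 y h])
  · rw [← isOpen_compl_iff, isOpen_iff_mem_nhds]
    intro v hv
    obtain ⟨c, hc⟩ := (Finsupp.mem_span_range_iff_exists_finsupp).mp (span_top hi v)
    have hFv : ∀ (F : V →L[ℝ] ℝ) (f : X → ℝ), (∀ x, F (i x) = f x) →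
        F v = ∑ y ∈ c.support, c y * f y := by
      intro F f hF
      rw [← hc, Finsupp.sum, map_sum]
      simp [hF]
    obtain ⟨F1, hF1⟩ := exists_fun hi (fun _ => 1) continuous_const
    by_cases h1 : F1 v = 1
    · have h2 : ∃ y ∈ c.support, ∃ z ∈ c.support, y ≠ z := by
        by_contra hcon
        push Not at hcon
        rcases c.support.eq_empty_or_nonempty with h | ⟨y, hy⟩
        · rw [hFv F1 _ hF1, h] at h1
          simp at h1
        · have h3 : c.support = {y} :=
            Finset.eq_singleton_iff_unique_mem.mpr ⟨hy, fun z hz => hcon z hz y hy⟩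
          rw [hFv F1 _ hF1, h3] at h1
          apply hv
          refine ⟨y, ?_⟩
          rw [← hc, Finsupp.sum, h3]
          simp only [Finset.sum_singleton, mul_one] at h1 ⊢
          rw [h1, one_smul]
      obtain ⟨y, hy, z, hz, hyz⟩ := h2
      obtain ⟨A, B, hA, hB, hAB⟩ := t2_separation_nhds hyz
      have hb : ∀ y ∈ c.support, ∀ A ∈ 𝓝 y, ∃ F : V →L[ℝ] ℝ, F v ≠ 0 ∧
          ∀ x, x ∉ A → F (i x) = 0 := by
        intro y hy A hA
        have hU : ((c.support.erase y : Finset X) : Set X)ᶜ ∈ 𝓝 y :=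
          (c.support.erase y).finite_toSet.isClosed.isOpen_compl.mem_nhds (by simp)
        obtain ⟨f, hf, h1, -, -, h0⟩ := exists_bump (inter_mem hA hU)
        obtain ⟨F, hF⟩ := exists_fun hi f hf
        refine ⟨F, ?_, fun x hx => by rw [hF, h0 x fun h => hx h.1]⟩
        rw [hFv F f hF, ← Finset.add_sum_erase _ _ hy, Finset.sum_eq_zero]
        · simpa [h1] using hy
        · intro x hx
          rw [h0 x fun h => h.2 (Finset.mem_coe.mpr hx), mul_zero]
      obtain ⟨F, hF, hFA⟩ := hb y hy A hA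
      obtain ⟨G, hG, hGB⟩ := hb z hz B hB
      filter_upwards [(isOpen_ne_fun F.continuous continuous_const).mem_nhds hF,
        (isOpen_ne_fun G.continuous continuous_const).mem_nhds hG] with w h3 h4
      rintro ⟨x, rfl⟩
      by_cases h5 : x ∈ A
      · exact h4 (hGB x fun h => Set.disjoint_left.mp hAB h5 h)
      · exact h3 (hFA x h5)
    · filter_upwards [(isOpen_ne_fun F1.continuous continuous_const).mem_nhds h1] with w hw
      rintro ⟨x, rfl⟩
      exact hw (hF1 x)

theorem k_of_closedEmb {Y : Type*} {Z : Type*} [TopologicalSpace Y] [TopologicalSpace Z]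
    [T2Space Z] [CompactlyCoherentSpace Z] {j : Y → Z} (hj : IsClosedEmbedding j) :
    CompactlyCoherentSpace Y := by
  haveI := hj.isEmbedding.t2Space
  refine CompactlyCoherentSpace.of_isClosed fun A hA => ?_
  rw [hj.isClosed_iff_image_isClosed, CompactlyCoherentSpace.isClosed_iff]
  intro K hK
  have h1 := hj.isCompact_preimage hK
  have h2 : IsClosed (j ⁻¹' K ∩ A) := by
    have := h1.isClosed.isClosedEmbedding_subtypeVal.isClosedMap _ (hA _ h1)
    rwa [Subtype.image_preimage_coe] at this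
  have h3 := (hj.isClosedMap _ h2).preimage (continuous_subtype_val (p := (· ∈ K)))
  convert h3 using 1
  ext ⟨z, hz⟩
  constructor
  · rintro ⟨y, hy, rfl⟩
    exact ⟨y, ⟨hz, hy⟩, rfl⟩
  · rintro ⟨y, hy, rfl⟩
    exact ⟨y, hy.2, rfl⟩

theorem coherent (hi : IsFreeTVS.{u, v, v} i) {C : ℕ → Set V} (hC : Tower C) {K : ℕ → Set X}
    (hK : IsCoherentWith (range K)) (hKC : ∀ n, ∀ x ∈ K n, i x ∈ C n) {O : Set V}
    (hO : ∀ n, IsOpen ((↑) ⁻¹' O : Set (C n))) : IsOpen O := by
  let B := basis hC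
  have hnb : ∀ x : V, HasBasis (@nhds V B.topology x) (fun S => S ∈ B.toAddGroupFilterBasis)
      fun S => (fun y => x + y) '' S := B.toAddGroupFilterBasis.nhds_hasBasis
  have hle : B.topology ≤ ‹TopologicalSpace V› := by
    apply le_of_nhds_le_nhds
    intro x W hW
    obtain ⟨U, hU, hUW⟩ := key hC (O := interior W)
      (fun n => isOpen_interior.preimage continuous_subtype_val) (mem_interior_iff_mem_nhds.mpr hW)
    refine (hnb x).mem_iff.mpr ⟨_, ⟨U, hU, rfl⟩, ?_⟩
    rintro _ ⟨w, hw, rfl⟩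
    exact interior_subset (hUW w hw)
  have hT2 : @T2Space V B.topology :=
    @T2Space.of_injective_continuous V V B.topology _ _ id Function.injective_id
      (continuous_id_of_le hle)
  have hcont : Continuous[_, B.topology] i := by
    rw [@IsCoherentWith.continuous_iff X _ _ V B.topology i hK]
    rintro _ ⟨n, rfl⟩ x hx
    refine (hnb (i x)).tendsto_right_iff.mpr ?_
    rintro _ ⟨U, hU, rfl⟩
    have h1 : Tendsto (fun y => -i x + i y) (𝓝 x) (𝓝 0) := by
      have := (hi.1.tendsto x).const_add (-i x)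
      simpa using this
    filter_upwards [mem_nhdsWithin_of_mem_nhds (h1.eventually (hU (n + 1)).1),
      self_mem_nhdsWithin] with y h2 h3
    refine ⟨-i x + i y, mem_SS (hU.zero hC) ⟨h2, hC.add n _ ?_ _ (hKC n y h3)⟩, by simp⟩
    simpa using (hC.bal n).smul_mem (a := (-1 : ℝ)) (by simp) (hKC n x hx)
  obtain ⟨F, hF, -⟩ := @hi.2 V _ _ B.topology B.toAddGroupFilterBasis.isTopologicalAddGroup
    B.continuousSMul hT2 i hcont
  have hid : ∀ v, F v = v := by
    intro v
    refine Submodule.span_induction (p := fun v _ => F v = v) ?_ (map_zero F) ?_ ?_ (span_top hi v)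
    · rintro _ ⟨x, rfl⟩; exact hF x
    · intro a b _ _ ha hb; rw [map_add, ha, hb]
    · intro t a _ ha; rw [map_smul, ha]
  rw [isOpen_iff_mem_nhds]
  intro v hv
  obtain ⟨U, hU, hUO⟩ := key hC hO hv
  have h1 : O ∈ @nhds V B.topology (F v) := by
    rw [hid]
    refine (hnb v).mem_iff.mpr ⟨_, ⟨U, hU, rfl⟩, ?_⟩
    rintro _ ⟨w, hw, rfl⟩
    exact hUO w hw
  have h2 : Continuous[_, B.topology] F := @ContinuousLinearMap.cont _ _ _ _ _ _ _ _ _ B.topology _ _ _ F
  have h3 := @ContinuousAt.preimage_mem_nhds V V _ B.topology F v O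
    (@Continuous.continuousAt V V _ B.topology F v h2) h1
  exact mem_of_superset h3 fun w hw => by rw [← hid w]; exact hw

def tw (i : X → V) (K : ℕ → Set X) : ℕ → Set V
  | 0 => insert 0 ((fun p : ℝ × X => p.1 • i p.2) '' (Icc (-1) 1 ×ˢ K 0))
  | n + 1 => tw i K n + tw i K n +
      insert 0 ((fun p : ℝ × X => p.1 • i p.2) '' (Icc (-1) 1 ×ˢ K (n + 1)))

theorem exists_tower (hi : IsFreeTVS.{u, v, v} i) {K : ℕ → Set X} (hK : ∀ n, IsCompact (K n))
    (hm : Monotone K) (hc : ∀ x, ∃ n, x ∈ K n) :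
    ∃ C : ℕ → Set V, Tower C ∧ (∀ n, ∀ x ∈ K n, i x ∈ C n) ∧
      ∀ n, ∀ v ∈ C n, v ∈ Submodule.span ℝ (i '' K n) := by
  let b : ℕ → Set V := fun n => insert 0 ((fun p : ℝ × X => p.1 • i p.2) '' (Icc (-1) 1 ×ˢ K n))
  have b1 : ∀ n, IsCompact (b n) := fun n =>
    ((isCompact_Icc.prod (hK n)).image
      (continuous_fst.smul (hi.1.comp continuous_snd))).insert 0
  have b2 : ∀ n, Balanced ℝ (b n) := by
    intro n
    rw [balanced_iff_smul_mem]
    rintro t ht _ (rfl | ⟨⟨a, x⟩, ⟨ha, hx⟩, rfl⟩)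
    · exact Or.inl (smul_zero t)
    · refine Or.inr ⟨(t * a, x), ⟨?_, hx⟩, (smul_smul t a (i x)).symm⟩
      rw [mem_Icc, ← abs_le] at ha ⊢
      rw [abs_mul]
      exact mul_le_one₀ ht (abs_nonneg _) ha
  have b3 : ∀ n, ∀ v ∈ b n, v ∈ Submodule.span ℝ (i '' K n) := by
    rintro n _ (rfl | ⟨⟨a, x⟩, ⟨-, hx⟩, rfl⟩)
    · exact Submodule.zero_mem _
    · exact Submodule.smul_mem _ _ (Submodule.subset_span ⟨x, hx, rfl⟩)
  have h0 : ∀ n, (0 : V) ∈ tw i K n := by
    intro n
    induction n with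
    | zero => exact Or.inl rfl
    | succ n ih => exact ⟨0 + 0, ⟨0, ih, 0, ih, rfl⟩, 0, Or.inl rfl, by simp⟩
  have h1 : ∀ n, ∀ x ∈ K n, i x ∈ tw i K n := by
    intro n x hx
    have : i x ∈ b n := Or.inr ⟨(1, x), ⟨by simp, hx⟩, one_smul _ _⟩
    cases n with
    | zero => exact this
    | succ n => exact ⟨0 + 0, ⟨0, h0 n, 0, h0 n, rfl⟩, i x, this, by simp⟩
  have hadd : ∀ n, ∀ a ∈ tw i K n, ∀ b ∈ tw i K n, a + b ∈ tw i K (n + 1) :=
    fun n a ha b hb => ⟨a + b, ⟨a, ha, b, hb, rfl⟩, 0, Or.inl rfl, add_zero _⟩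
  have hbal : ∀ n, Balanced ℝ (tw i K n) := by
    intro n
    induction n with
    | zero => exact b2 0
    | succ n ih => exact (ih.add ih).add (b2 (n + 1))
  have hmono : Monotone (tw i K) :=
    monotone_nat_of_le_succ fun n v hv => by simpa using hadd n v hv 0 (h0 n)
  have hsm : ∀ k : ℕ, ∀ n, ∀ v ∈ tw i K n, ((2 : ℝ) ^ k) • v ∈ tw i K (n + k) := by
    intro k
    induction k with
    | zero => intro n v hv; simpa using hv
    | succ k ih =>
      intro n v hv
      have := hadd _ _ (ih n v hv) _ (ih n v hv)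
      rw [← add_smul] at this
      rw [pow_succ, mul_two]
      exact this
  refine ⟨tw i K, ⟨fun n => ?_, h0, hadd, hbal, fun v => ?_⟩, h1, fun n => ?_⟩
  · induction n with
    | zero => exact b1 0
    | succ n ih => exact (ih.add ih).add (b1 (n + 1))
  · refine Submodule.span_induction (p := fun v _ => ∃ n, v ∈ tw i K n) ?_ ⟨0, h0 0⟩ ?_ ?_
      (span_top hi v)
    · rintro _ ⟨x, rfl⟩
      obtain ⟨n, hn⟩ := hc x
      exact ⟨n, h1 n x hn⟩
    · rintro a b - - ⟨n, hn⟩ ⟨m, hm⟩
      exact ⟨max n m + 1, hadd _ a (hmono (le_max_left _ _) hn) b (hmono (le_max_right _ _) hm)⟩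
    · rintro t a - ⟨n, hn⟩
      obtain ⟨k, hk⟩ := pow_unbounded_of_one_lt |t| (one_lt_two (α := ℝ))
      have hp : (0 : ℝ) < 2 ^ k := by positivity
      have h2 := (hbal (n + k)).smul_mem (a := t / 2 ^ k) (by
        rw [Real.norm_eq_abs, abs_div, abs_of_pos hp, div_le_one hp]; exact hk.le) (hsm k n a hn)
      rw [smul_smul, div_mul_cancel₀ _ hp.ne'] at h2
      exact ⟨_, h2⟩
  · induction n with
    | zero => exact b3 0
    | succ n ih =>
      have h2 : ∀ v ∈ tw i K n, v ∈ Submodule.span ℝ (i '' K (n + 1)) := fun v hv =>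
        Submodule.span_mono (image_mono (hm (Nat.le_succ n))) (ih v hv)
      rintro _ ⟨_, ⟨a, ha, b, hb, rfl⟩, c, hc, rfl⟩
      exact Submodule.add_mem _ (Submodule.add_mem _ (h2 a ha) (h2 b hb)) (b3 _ c hc)

theorem sp_inter [T35Space X] (hi : IsFreeTVS.{u, v, v} i) {K : Set X} (hK : IsCompact K)
    (n : ℕ) : ∃ L : Set V, IsClosed L ∧ L ⊆ sp i n ∧
      ∀ v ∈ sp i n, v ∈ Submodule.span ℝ (i '' K) → v ∈ L := by
  classical
  rcases isEmpty_or_nonempty X with hX | ⟨⟨x₀⟩⟩
  · refine ⟨sp i n, Set.Finite.isClosed (Set.Subsingleton.finite ?_), Subset.rfl,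
      fun v hv _ => hv⟩
    have h : ∀ v ∈ sp i n, v = 0 := by
      rintro _ ⟨c, x, -, rfl⟩
      exact Finset.sum_eq_zero fun j _ => hX.elim (x j)
    exact fun a ha b hb => (h a ha).trans (h b hb).symm
  · refine ⟨(fun p : (Fin n → ℝ) × (Fin n → X) => ∑ j, p.1 j • i (p.2 j)) ''
      ((Set.pi univ fun _ => Icc (-(n : ℝ)) n) ×ˢ (Set.pi univ fun _ => insert x₀ K)), ?_, ?_, ?_⟩
    · have := hi.1
      exact (((isCompact_univ_pi fun _ => isCompact_Icc).prod
        (isCompact_univ_pi fun _ => hK.insert x₀)).image (by fun_prop)).isClosed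
    · rintro _ ⟨⟨c, x⟩, ⟨hc, -⟩, rfl⟩
      exact ⟨c, x, fun j => hc j trivial, rfl⟩
    · rintro _ ⟨c, x, hc, rfl⟩ hv
      refine ⟨(fun j => if x j ∈ K then c j else 0, fun j => if x j ∈ K then x j else x₀),
        ⟨fun j _ => ?_, fun j _ => ?_⟩, ?_⟩
      · by_cases h : x j ∈ K
        · simpa [h] using hc j
        · simp [h]
      · by_cases h : x j ∈ K
        · simp [h]
        · simp [h]
      · have h1 : ∑ j, c j • i (x j) = ∑ j, (if x j ∈ K then c j else 0) • i (x j) +
            ∑ j, (if x j ∈ K then 0 else c j) • i (x j) := by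
          rw [← Finset.sum_add_distrib]
          refine Finset.sum_congr rfl fun j _ => ?_
          by_cases h : x j ∈ K <;> simp [h]
        have h2 : ∑ j, (if x j ∈ K then c j else 0) • i (x j) ∈ Submodule.span ℝ (i '' K) := by
          refine Submodule.sum_mem _ fun j _ => ?_
          by_cases h : x j ∈ K
          · exact Submodule.smul_mem _ _ (Submodule.subset_span ⟨_, h, rfl⟩)
          · simp [h]
        have h3 : ∑ j, (if x j ∈ K then 0 else c j) • i (x j) ∈ Submodule.span ℝ (i '' Kᶜ) := by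
          refine Submodule.sum_mem _ fun j _ => ?_
          by_cases h : x j ∈ K
          · simp [h]
          · exact Submodule.smul_mem _ _ (Submodule.subset_span ⟨_, h, rfl⟩)
        have h4 : ∑ j, (if x j ∈ K then 0 else c j) • i (x j) ∈ Submodule.span ℝ (i '' K) := by
          have := Submodule.sub_mem _ hv h2
          rwa [h1, add_sub_cancel_left] at this
        have h5 := Submodule.disjoint_def.mp
          ((lin_indep hi).disjoint_span_image (disjoint_compl_right (a := K))) _ h4 h3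
        rw [h1, h5, add_zero]
        refine Finset.sum_congr rfl fun j _ => ?_
        by_cases h : x j ∈ K <;> simp [h]

theorem of_komega [T35Space X] (hi : IsFreeTVS.{u, v, v} i) {K : ℕ → Set X}
    (hK : ∀ n, IsCompact (K n)) (hm : Monotone K) (hc : ∀ x, ∃ n, x ∈ K n)
    (hcoh : IsCoherentWith (range K)) :
    IsKOmega V ∧ CompactlyCoherentSpace V ∧ ∀ n, CompactlyCoherentSpace (sp i n) := by
  obtain ⟨C, hC, h1, h2⟩ := exists_tower hi hK hm hc
  have h3 : ∀ F : Set V, (∀ n, IsClosed ((↑) ⁻¹' F : Set (C n))) → IsClosed F := by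
    intro F hF
    rw [← isOpen_compl_iff]
    exact coherent hi hC hcoh h1 fun n => (hF n).isOpen_compl
  haveI h4 : CompactlyCoherentSpace V :=
    CompactlyCoherentSpace.of_isClosed fun A hA => h3 A fun n => hA _ (hC.cpt n)
  refine ⟨⟨C, hC.cpt, h3⟩, h4, fun n => ?_⟩
  have h5 : IsClosed (sp i n) := by
    refine h3 _ fun m => ?_
    obtain ⟨L, hL, hL1, hL2⟩ := sp_inter hi (hK m) n
    convert hL.preimage (continuous_subtype_val (p := (· ∈ C m))) using 1
    ext ⟨v, hv⟩
    exact ⟨fun h => hL2 v h (h2 m v hv), fun h => hL1 h⟩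
  exact k_of_closedEmb h5.isClosedEmbedding_subtypeVal

end Pool.Agent.H31.KSp
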