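import Pool.Agent.H31.TSpDefs
import Pool.Agent.H31.Omega1

namespace Pool.Agent.H31.TSp

open Set Metric Topology Filter TopologicalSpace Omega1

universe u v w

theorem ct_of_image {P : Type u} {Z : Type v} [TopologicalSpace P] [SecondCountableTopology P]
    [PseudoMetrizableSpace P]
    [TopologicalSpace Z] (g : P → Z) (hg : Continuous g) (hs : Function.Surjective g) :
    CountablyTight Z := by
  intro A
  apply Subset.antisymm
  · obtain ⟨D, hD, hc, hd⟩ :=
      (IsSeparable.of_separableSpace (g ⁻¹' A)).exists_countable_dense_subset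
    have h1 : A ⊆ closure (g '' D) := by
      intro a ha
      obtain ⟨p, rfl⟩ := hs a
      exact image_closure_subset_closure_image hg ⟨p, hd ha, rfl⟩
    intro z hz
    refine mem_iUnion₂.mpr ⟨g '' D, ⟨image_subset_iff.mpr hD, hc.image g⟩, ?_⟩
    exact closure_minimal h1 isClosed_closure hz
  · exact iUnion₂_subset fun B hB => closure_mono hB.1

theorem ct_sp {X : Type u} {V : Type v} [TopologicalSpace X] [SecondCountableTopology X]
    [MetrizableSpace X]
    [AddCommGroup V] [Module ℝ V] [TopologicalSpace V] [IsTopologicalAddGroup V]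
    [ContinuousSMul ℝ V] (i : X → V) (hi : Continuous i) (n : ℕ) : CountablyTight (sp i n) := by
  refine ct_of_image (P := (Fin n → Icc (-(n : ℝ)) n) × (Fin n → X))
    (fun p => ⟨∑ j, (p.1 j : ℝ) • i (p.2 j), fun j => p.1 j, p.2, fun j => (p.1 j).2, rfl⟩) ?_ ?_
  · apply Continuous.subtype_mk
    fun_prop
  · rintro ⟨v, c, x, hc, rfl⟩
    exact ⟨(fun j => ⟨c j, hc j⟩, x), rfl⟩

theorem exists_sep {X : Type u} [MetricSpace X] (h : ¬ SeparableSpace X) :
    ∃ ε > (0 : ℝ), ∃ d : W → X, ∀ a b, a ≠ b → ε ≤ dist (d a) (d b) := by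
  have h1 : ∃ ε > (0 : ℝ), ∀ s : Set X, s.Countable → ∃ x, ∀ y ∈ s, ε < dist x y := by
    by_contra hcon
    push Not at hcon
    haveI := Metric.secondCountable_of_almost_dense_set hcon
    exact h inferInstance
  obtain ⟨ε, hε, h2⟩ := h1
  obtain ⟨D, hD⟩ := zorn_subset {s : Set X | s.Pairwise fun x y => ε ≤ dist x y} (by
    intro c hc hch
    refine ⟨⋃₀ c, ?_, fun s hs => subset_sUnion_of_mem hs⟩
    rintro x ⟨s, hs, hx⟩ y ⟨t, ht, hy⟩ hxy
    rcases hch.total hs ht with h3 | h3
    · exact hc ht (h3 hx) hy hxy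
    · exact hc hs hx (h3 hy) hxy)
  have hDu : ¬ D.Countable := by
    intro hc
    obtain ⟨x, hx⟩ := h2 D hc
    have h3 : insert x D ∈ {s : Set X | s.Pairwise fun x y => ε ≤ dist x y} := by
      apply Set.Pairwise.insert hD.prop
      intro y hy _
      exact ⟨(hx y hy).le, by rw [dist_comm]; exact (hx y hy).le⟩
    have h4 := hD.eq_of_subset h3 (subset_insert x D)
    have h5 : x ∈ D := h4 ▸ mem_insert x D
    have := hx x h5
    rw [dist_self] at this
    linarith
  have h6 : Nonempty (W ↪ D) := by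
    rw [← Cardinal.lift_mk_le', mk_W]
    simp only [Cardinal.lift_aleph, Ordinal.lift_one, Cardinal.lift_uzero]
    rw [Cardinal.aleph_one_le_iff, Cardinal.aleph0_lt_mk_iff]
    exact not_countable_iff.mp (fun hc => hDu (Set.countable_coe_iff.mp hc))
  obtain ⟨e⟩ := h6
  refine ⟨ε, hε, fun a => e a, fun a b hab => hD.prop (e a).2 (e b).2 ?_⟩
  exact fun h7 => hab (e.injective (Subtype.ext h7))

theorem exists_ext {X : Type u} [MetricSpace X] {ε : ℝ} (hε : 0 < ε) (d : W → X)
    (hd : ∀ a b, a ≠ b → ε ≤ dist (d a) (d b)) (w : W → ℝ) :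
    ∃ f : X → ℝ, Continuous f ∧ ∀ a, f (d a) = w a := by
  have hinj : Function.Injective d := by
    intro a b hab
    by_contra h
    have := hd a b h
    rw [hab, dist_self] at this
    linarith
  have hp : (range d).Pairwise fun x y => ε ≤ dist x y := by
    rintro _ ⟨a, rfl⟩ _ ⟨b, rfl⟩ hab
    exact hd a b fun h => hab (h ▸ rfl)
  have hcl : IsClosed (range d) := Metric.isClosed_of_pairwise_le_dist hε hp
  haveI : DiscreteTopology (range d) := by
    apply discreteTopology_iff_isOpen_singleton.mpr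
    intro x
    rw [Metric.isOpen_iff]
    rintro y rfl
    refine ⟨ε, hε, fun z hz => ?_⟩
    by_contra h
    have := hp z.2 y.2 (fun h' => h (Subtype.ext h'))
    exact absurd hz (not_lt.mpr this)
  obtain ⟨g, -, hg⟩ := ContinuousMap.exists_restrict_eq_forall_mem_of_closed
    (⟨fun x : range d => w x.2.choose, continuous_of_discreteTopology⟩ : C(range d, ℝ))
    (t := univ) (fun _ => mem_univ _) univ_nonempty hcl
  refine ⟨g, g.continuous, fun a => ?_⟩
  have h1 := congrArg (fun h : C(range d, ℝ) => h ⟨d a, a, rfl⟩) hg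
  simp only [ContinuousMap.restrict_apply, ContinuousMap.coe_mk] at h1
  rw [h1]
  congr 1
  exact hinj (Exists.choose_spec (⟨a, rfl⟩ : d a ∈ range d))

theorem sep_of_ct {X : Type u} {V : Type v} [TopologicalSpace X] [MetrizableSpace X]
    [AddCommGroup V] [Module ℝ V] [TopologicalSpace V] [IsTopologicalAddGroup V]
    [ContinuousSMul ℝ V] (i : X → V) (hi : IsFreeTVS.{u, v, w} i)
    (hct : CountablyTight (sp i 2)) : SeparableSpace X := by
  classical
  letI := metrizableSpaceMetric X
  by_contra hns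
  obtain ⟨ε, hε, d, hd⟩ := exists_sep hns
  have henc : ∀ b : W, ∃ r : W → ℕ, InjOn r (Iio b) := fun b =>
    (countable_iff_exists_injOn.mp (countable_Iio b))
  choose r hr using henc
  let ρ : W → W → ℝ := fun a b => (r b a : ℝ) + 1
  have hρ : ∀ a b, 1 ≤ ρ a b := fun a b => by
    have := Nat.cast_nonneg (α := ℝ) (r b a)
    simp only [ρ]; linarith
  let g : W → W → V := fun a b => (ρ a b)⁻¹ • (i (d a) + i (d b))
  have hg : ∀ a b, g a b ∈ sp i 2 := by
    intro a b
    refine ⟨fun _ => (ρ a b)⁻¹, ![d a, d b], fun _ => ⟨?_, ?_⟩, ?_⟩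
    · have := inv_pos.mpr (lt_of_lt_of_le one_pos (hρ a b))
      push_cast; linarith
    · have := inv_le_one_of_one_le₀ (hρ a b)
      push_cast; linarith
    · simp [g, Fin.sum_univ_two]
  have h0 : (0 : V) ∈ sp i 2 := by
    obtain ⟨a⟩ : Nonempty W := inferInstance
    exact ⟨fun _ => 0, fun _ => d a, fun _ => by norm_num, by simp⟩
  let A : Set (sp i 2) := {v | ∃ a b, a < b ∧ (v : V) = g a b}
  have hA : (⟨0, h0⟩ : sp i 2) ∈ closure A := by
    rw [mem_closure_iff_nhds]
    intro t ht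
    obtain ⟨U, hU, hUt⟩ := (mem_nhds_subtype _ _ _).mp ht
    obtain ⟨U', hU', hUU⟩ := exists_nhds_zero_half hU
    have h1 : ∀ a : W, ∃ n : ℕ, ∀ c : ℝ, (n : ℝ) ≤ c → c⁻¹ • i (d a) ∈ U' := by
      intro a
      have h2 : Tendsto (fun c : ℝ => c⁻¹ • i (d a)) atTop (𝓝 0) := by
        simpa using (tendsto_inv_atTop_zero (𝕜 := ℝ)).smul_const (i (d a))
      obtain ⟨c0, hc0⟩ := eventually_atTop.mp (h2.eventually hU')
      obtain ⟨n, hn⟩ := exists_nat_ge c0
      exact ⟨n, fun c hc => hc0 c (hn.trans hc)⟩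
    choose n hn using h1
    have h2 : ∃ m, ¬ {a | n a = m}.Countable := by
      by_contra hcon
      push Not at hcon
      refine not_countable_univ ((countable_iUnion hcon).mono fun a _ => ?_)
      exact mem_iUnion.mpr ⟨n a, rfl⟩
    obtain ⟨m, hm⟩ := h2
    have hinf : {a | n a = m}.Infinite := fun h => hm h.countable
    obtain ⟨b0, hb0⟩ := exists_bound_seq (fun k => (hinf.natEmbedding _ k : W))
    have h3 : ∃ b, n b = m ∧ b0 < b := by
      by_contra hcon
      push Not at hcon
      exact hm ((countable_Iic b0).mono fun a ha => hcon a ha)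
    obtain ⟨b, hb, hbb⟩ := h3
    have h4 : Function.Injective (fun k => r b (hinf.natEmbedding _ k : W)) := by
      intro k l hkl
      have := hr b ((hb0 k).trans hbb) ((hb0 l).trans hbb) hkl
      exact (hinf.natEmbedding _).injective (Subtype.ext this)
    obtain ⟨k, hk⟩ := (h4.nat_tendsto_atTop.eventually (eventually_ge_atTop m)).exists
    set a : W := (hinf.natEmbedding _ k : W) with ha
    have hna : n a = m := (hinf.natEmbedding _ k).2
    have h5 : (m : ℝ) ≤ ρ a b := by
      have : (m : ℝ) ≤ r b a := by exact_mod_cast hk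
      simp only [ρ]; linarith
    refine ⟨⟨g a b, hg a b⟩, hUt ?_, a, b, (hb0 k).trans hbb, rfl⟩
    show g a b ∈ U
    simp only [g, smul_add]
    exact hUU _ (hn a _ (hna ▸ h5)) _ (hn b _ (hb ▸ h5))
  rw [hct A] at hA
  obtain ⟨B, ⟨hBA, hBc⟩, hB⟩ := mem_iUnion₂.mp hA
  have hBA' : ∀ v ∈ B, ∃ a b, a < b ∧ (v : V) = g a b := hBA
  choose! a b hab hv using hBA'
  obtain ⟨e, he⟩ := countable_iff_exists_injOn.mp ((hBc.image a).union (hBc.image b))
  set C := a '' B ∪ b '' B
  have hfin : ∀ x, {y ∈ C | e y ≤ e x}.Finite := fun x =>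
    Set.Finite.of_finite_image ((finite_Iic (e x)).subset (by
      rintro _ ⟨y, hy, rfl⟩; exact hy.2)) (he.mono fun y hy => hy.1)
  have hw : ∀ x, ∃ c : ℝ, 0 ≤ c ∧ ∀ y ∈ C, e y ≤ e x → ρ x y ≤ c ∧ ρ y x ≤ c := by
    intro x
    obtain ⟨M, hM⟩ := ((hfin x).image (fun y => max (ρ x y) (ρ y x))).bddAbove
    refine ⟨max 0 M, le_max_left _ _, fun y hy h => ?_⟩
    have := hM ⟨y, ⟨hy, h⟩, rfl⟩
    exact ⟨((le_max_left _ _).trans this).trans (le_max_right _ _),
      ((le_max_right _ _).trans this).trans (le_max_right _ _)⟩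
  choose w hw0 hw using hw
  obtain ⟨f, hf, hfd⟩ := exists_ext hε d hd w
  obtain ⟨F, hF, -⟩ := hi.2 (ULift.{w} ℝ) (fun x => ULift.up (f x)) (continuous_uliftUp.comp hf)
  have hcl : IsClosed {v : sp i 2 | 1 ≤ (F (v : V)).down} :=
    isClosed_le continuous_const (continuous_uliftDown.comp
      (F.continuous.comp continuous_subtype_val))
  have h6 : B ⊆ {v : sp i 2 | 1 ≤ (F (v : V)).down} := by
    intro v hvB
    show 1 ≤ (F (v : V)).down
    rw [hv v hvB]
    simp only [g, map_smul, map_add, hF, hfd]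
    show 1 ≤ (ρ (a v) (b v))⁻¹ * (w (a v) + w (b v))
    have hp : 0 < ρ (a v) (b v) := lt_of_lt_of_le one_pos (hρ _ _)
    rw [le_inv_mul_iff₀ hp, mul_one]
    have ha : a v ∈ C := Or.inl ⟨v, hvB, rfl⟩
    have hb : b v ∈ C := Or.inr ⟨v, hvB, rfl⟩
    rcases le_total (e (a v)) (e (b v)) with h | h
    · have := (hw (b v) (a v) ha h).2
      have := hw0 (a v)
      linarith
    · have := (hw (a v) (b v) hb h).1
      have := hw0 (b v)
      linarith
  have h7 := closure_minimal h6 hcl hB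
  simp only [mem_setOf_eq, map_zero] at h7
  exact absurd h7 (by show ¬ (1 : ℝ) ≤ 0; norm_num)

theorem main {X : Type u} {V : Type v} [TopologicalSpace X] [MetrizableSpace X]
    [AddCommGroup V] [Module ℝ V] [TopologicalSpace V] [IsTopologicalAddGroup V]
    [ContinuousSMul ℝ V] (i : X → V) (hi : IsFreeTVS.{u, v, w} i)
    (hct : CountablyTight (sp i 2)) :
    CountablyTight (sp i 4) ∧ SeparableSpace X ∧ ∀ n, CountablyTight (sp i n) := by
  haveI := sep_of_ct i hi hct
  letI := metrizableSpaceMetric X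
  haveI : SecondCountableTopology X := UniformSpace.secondCountable_of_separable X
  exact ⟨ct_sp i hi.1 4, inferInstance, ct_sp i hi.1⟩

end Pool.Agent.H31.TSp
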