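import Pool.Agent.H31.KSp2
import Pool.Agent.H31.TSp

namespace Pool.Agent.H31.KSp

open Set Filter Topology Pointwise TSp

universe u v w

def CD {ι : Type*} {X : Type u} [TopologicalSpace X] (x : ι → X) : Prop :=
  ∀ K, IsCompact K → {a | x a ∈ K}.Finite

theorem lf_sum {Y : Type*} [TopologicalSpace Y] (φ : ℕ → Y → ℝ) (hc : ∀ k, Continuous (φ k))
    (h0 : ∀ k y, 0 ≤ φ k y) (hl : LocallyFinite fun k => Function.support (φ k)) :
    ∃ g : Y → ℝ, Continuous g ∧ (∀ y, 0 ≤ g y) ∧ ∀ k y, φ k y ≤ g y :=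
  ⟨fun y => ∑ᶠ k, φ k y, continuous_finsum hc hl, fun y => finsum_nonneg fun k => h0 k y,
    fun k y => single_le_finsum k (hl.point_finite y) fun j => h0 j y⟩

structure KS {X : Type u} {M : Type w} [TopologicalSpace X] [MetricSpace M] (f : M → X)
    (s : X → M) : Prop where
  cont : Continuous f
  sec : ∀ x, f (s x) = x
  cpt : ∀ K : Set X, IsCompact K → IsCompact (closure (s '' K))

section KStar

variable {X : Type u} {M : Type w} [TopologicalSpace X] [T2Space X] [MetricSpace M] {f : M → X}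
  {s : X → M}

theorem KS.closed (h : KS f s) [CompactlyCoherentSpace X] {A : Set X} (hA : IsSeqClosed A) :
    IsClosed A := by
  rw [CompactlyCoherentSpace.isClosed_iff]
  intro K hK
  have h1 : IsClosed (f ⁻¹' A) := (hA.preimage h.cont.seqContinuous).isClosed
  have h2 := (((h.cpt K hK).inter_right h1).image h.cont).isClosed.preimage
    (continuous_subtype_val (p := (· ∈ K)))
  convert h2 using 1
  ext ⟨y, hy⟩
  constructor
  · intro hyA
    exact ⟨s y, ⟨subset_closure ⟨y, hy, rfl⟩, by simpa [h.sec] using hyA⟩, h.sec y⟩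
  · rintro ⟨m, hm, hmy⟩
    have h3 : f m ∈ A := hm.2
    rw [hmy] at h3
    exact h3

omit [T2Space X] in
theorem KS.approx (h : KS f s) {K : Set X} (hK : IsCompact K) (y : ℕ → X) (mm : ℕ → M)
    (hy : ∃ᶠ n in atTop, y n ∈ K) (hd : Tendsto (fun n => dist (s (y n)) (mm n)) atTop (𝓝 0)) :
    ∃ ψ : ℕ → ℕ, StrictMono ψ ∧ ∃ m, Tendsto (fun n => s (y (ψ n))) atTop (𝓝 m) ∧
      Tendsto (fun n => y (ψ n)) atTop (𝓝 (f m)) ∧
      Tendsto (fun n => f (mm (ψ n))) atTop (𝓝 (f m)) := by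
  obtain ⟨m, -, ψ, hψ, hm⟩ := (h.cpt K hK).tendsto_subseq' (x := fun n => s (y n))
    (hy.mono fun n hn => subset_closure ⟨y n, hn, rfl⟩)
  refine ⟨ψ, hψ, m, hm, ?_, ?_⟩
  · have := (h.cont.tendsto m).comp hm
    simpa [Function.comp_def, h.sec] using this
  · exact (h.cont.tendsto m).comp (hm.congr_dist (hd.comp hψ.tendsto_atTop))

theorem KS.sub_lim (h : KS f s) {y : ℕ → X} {z : X} (hy : Tendsto y atTop (𝓝 z)) {ε : ℝ}
    (hε : 0 < ε) : ∃ ψ : ℕ → ℕ, Tendsto ψ atTop atTop ∧ ∃ m, f m = z ∧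
      ∀ k, dist (s (y (ψ k))) m < ε := by
  obtain ⟨ψ, hψ, m, h1, h2, -⟩ := h.approx hy.isCompact_insert_range y (fun n => s (y n))
    (Frequently.of_forall fun n => Or.inr ⟨n, rfl⟩) (by simp)
  obtain ⟨N, hN⟩ := Metric.tendsto_atTop.mp h1 ε hε
  refine ⟨fun k => ψ (k + N), hψ.tendsto_atTop.comp (tendsto_add_atTop_nat N), m,
    tendsto_nhds_unique h2 (hy.comp hψ.tendsto_atTop), fun k => hN _ (by omega)⟩

def PP (X : Type u) [TopologicalSpace X] : Prop :=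
  ∀ (a : ℕ → ℕ → X) (z : X), (∀ U ∈ 𝓝 z, ∃ᶠ n in atTop, ∃ k, a n k ∈ U) →
    ∃ K, IsCompact K ∧ ∃ᶠ n in atTop, ∃ k, a n k ∈ K

theorem KS.frechet (h : KS f s) [CompactlyCoherentSpace X] (hP : PP X) (A : Set X) :
    closure A ⊆ seqClosure A := by
  refine closure_minimal subset_seqClosure (h.closed ?_)
  intro a p ha hp
  have h1 : ∀ j : ℕ, ∃ (b : ℕ → X) (m : M), (∀ k, b k ∈ A) ∧ f m = a j ∧
      (∀ k, dist (s (b k)) m < 1 / ((j : ℝ) + 1)) ∧ Tendsto b atTop (𝓝 (a j)) := by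
    intro j
    obtain ⟨b, hb, hba⟩ := ha j
    obtain ⟨ψ, hψ, m, hm, hd⟩ := h.sub_lim hba (Nat.one_div_pos_of_nat (α := ℝ) (n := j))
    exact ⟨fun k => b (ψ k), m, fun k => hb _, hm, hd, hba.comp hψ⟩
  choose b m hbA hm hd hb using h1
  obtain ⟨K, hK, hfr⟩ := hP b p (fun U hU => by
    have h2 : ∀ᶠ j in atTop, a j ∈ interior U :=
      hp.eventually (isOpen_interior.mem_nhds (mem_interior_iff_mem_nhds.mpr hU))
    refine (h2.mono fun j hj => ?_).frequently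
    exact ((hb j).eventually (mem_interior_iff_mem_nhds.mp hj)).exists)
  have h3 : ∀ j, ∃ k, (∃ k, b j k ∈ K) → b j k ∈ K := fun j => by
    by_cases h4 : ∃ k, b j k ∈ K
    · obtain ⟨k, hk⟩ := h4
      exact ⟨k, fun _ => hk⟩
    · exact ⟨0, fun h5 => absurd h5 h4⟩
  choose k hk using h3
  obtain ⟨ψ, hψ, q, -, h5, h6⟩ := h.approx hK (fun j => b j (k j)) m (hfr.mono fun j => hk j)
    (squeeze_zero (fun _ => dist_nonneg) (fun j => (hd j (k j)).le)
      tendsto_one_div_add_atTop_nhds_zero_nat)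
  simp only [hm] at h6
  have h7 : f q = p := tendsto_nhds_unique h6 (hp.comp hψ.tendsto_atTop)
  exact ⟨fun n => b (ψ n) (k (ψ n)), fun n => hbA _ _, h7 ▸ h5⟩

theorem KS.strong (h : KS f s) [CompactlyCoherentSpace X] (hP : PP X) {x : ℕ → X} (hx : CD x) :
    ∃ G : ℕ → Set X, (∀ k, G k ∈ 𝓝 (x k)) ∧ LocallyFinite G := by
  let G : ℕ → Set X := fun k => {y | ∃ m, f m = x k ∧ dist (s y) m < 1 / ((k : ℝ) + 1)}
  refine ⟨G, fun k => ?_, fun z => ?_⟩
  · by_contra hcon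
    have h1 : x k ∈ closure (G k)ᶜ := by
      rw [closure_compl]
      exact fun h2 => hcon (mem_interior_iff_mem_nhds.mp h2)
    obtain ⟨y, hy, hyx⟩ := h.frechet hP _ h1
    obtain ⟨ψ, -, m, hm, hd⟩ := h.sub_lim hyx (Nat.one_div_pos_of_nat (α := ℝ) (n := k))
    exact hy (ψ 0) ⟨m, hm, hd 0⟩
  · by_contra hcon
    push Not at hcon
    have h1 : ∀ n : ℕ, z ∈ closure (⋃ k ≥ n, G k) := by
      intro n
      rw [mem_closure_iff_nhds]
      intro U hU
      obtain ⟨k, ⟨y, hy⟩, hk⟩ := (hcon U hU).exists_gt n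
      exact ⟨y, hy.2, mem_iUnion₂.mpr ⟨k, hk.le, hy.1⟩⟩
    choose a ha haz using fun n => h.frechet hP _ (h1 n)
    obtain ⟨K, hK, hfr⟩ := hP a z (fun U hU =>
      Frequently.of_forall fun n => ((haz n).eventually hU).exists)
    have h3 : ∀ j, ∃ k, (∃ k, a j k ∈ K) → a j k ∈ K := fun j => by
      by_cases h4 : ∃ k, a j k ∈ K
      · obtain ⟨k, hk⟩ := h4
        exact ⟨k, fun _ => hk⟩
      · exact ⟨0, fun h5 => absurd h5 h4⟩
    choose l hl using h3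
    have h4 : ∀ n, ∃ k m, n ≤ k ∧ f m = x k ∧ dist (s (a n (l n))) m < 1 / ((k : ℝ) + 1) := by
      intro n
      obtain ⟨k, hk, m, hm⟩ := mem_iUnion₂.mp (ha n (l n))
      exact ⟨k, m, hk, hm⟩
    choose κ mm hκ hm hd using h4
    have hκt : Tendsto κ atTop atTop := tendsto_atTop_mono hκ tendsto_id
    obtain ⟨ψ, hψ, q, -, -, h6⟩ := h.approx hK (fun j => a j (l j)) mm (hfr.mono fun j => hl j)
      (squeeze_zero (fun _ => dist_nonneg) (fun j => (hd j).le)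
        (tendsto_one_div_add_atTop_nhds_zero_nat.comp hκt))
    simp only [hm] at h6
    obtain ⟨B, hB⟩ := (hx _ h6.isCompact_insert_range).bddAbove
    obtain ⟨n, hn⟩ := ((hκt.comp hψ.tendsto_atTop).eventually (eventually_gt_atTop B)).exists
    exact absurd (hB (Or.inr ⟨n, rfl⟩)) (not_le.mpr hn)

omit [T2Space X] in
theorem KS.dichot (h : KS f s) (P : Set X) :
    (∃ K, IsCompact K ∧ P ⊆ K) ∨ ∃ y : ℕ → X, (∀ k, y k ∈ P) ∧ CD y := by
  by_contra hcon
  push Not at hcon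
  refine hcon.1 (f '' closure (s '' P)) (IsCompact.image (IsSeqCompact.isCompact ?_) h.cont)
    fun y hy => ⟨s y, subset_closure ⟨y, hy, rfl⟩, h.sec y⟩
  intro mm hmm
  have h1 : ∀ n : ℕ, ∃ y ∈ P, dist (s y) (mm n) < 1 / ((n : ℝ) + 1) := by
    intro n
    obtain ⟨_, ⟨y, hy, rfl⟩, hd⟩ := Metric.mem_closure_iff.mp (hmm n) _
      (Nat.one_div_pos_of_nat (α := ℝ) (n := n))
    exact ⟨y, hy, by rwa [dist_comm]⟩
  choose y hy hd using h1
  have h2 := hcon.2 y hy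
  simp only [CD, not_forall] at h2
  obtain ⟨K, hK, hinf⟩ := h2
  have hd0 : Tendsto (fun n => dist (s (y n)) (mm n)) atTop (𝓝 0) :=
    squeeze_zero (fun _ => dist_nonneg) (fun j => (hd j).le)
      tendsto_one_div_add_atTop_nhds_zero_nat
  obtain ⟨ψ, hψ, q, h3, -, -⟩ := h.approx hK y mm (Nat.frequently_atTop_iff_infinite.mpr hinf) hd0
  have h4 : Tendsto (mm ∘ ψ) atTop (𝓝 q) := h3.congr_dist (hd0.comp hψ.tendsto_atTop)
  exact ⟨q, isClosed_closure.mem_of_tendsto h4 (Eventually.of_forall fun n => hmm _), ψ, hψ, h4⟩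

end KStar

section TVS

variable {V : Type v} [AddCommGroup V] [Module ℝ V] [TopologicalSpace V]
  [IsTopologicalAddGroup V] [ContinuousSMul ℝ V]

theorem bdd_or (v : ℕ → V) (w : ℕ → ℝ) :
    (∀ U ∈ 𝓝 (0 : V), ∃ N : ℕ, ∀ n ≥ N, ∀ k, ((n : ℝ) + 1)⁻¹ • v k ∈ U) ∨
      ∃ g : V → ℝ, Continuous g ∧ (∀ y, 0 ≤ g y) ∧ ∃ᶠ k in atTop, w k ≤ g (v k) := by
  letI : UniformSpace V := IsTopologicalAddGroup.rightUniformSpace V
  haveI : CompletelyRegularSpace V := UniformSpace.toCompletelyRegularSpace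
  by_contra hcon
  rw [not_or] at hcon
  obtain ⟨h1, h2⟩ := hcon
  push Not at h1
  obtain ⟨U, hU, h1⟩ := h1
  have hinv : Tendsto (fun n : ℕ => ((n : ℝ) + 1)⁻¹) atTop (𝓝 0) := by
    simpa using tendsto_one_div_add_atTop_nhds_zero_nat (𝕜 := ℝ)
  have h3 : ∀ j : ℕ, ∃ n k : ℕ, j ≤ n ∧ j ≤ k ∧ ((n : ℝ) + 1)⁻¹ • v k ∉ U := by
    intro j
    have h4 : ∀ᶠ n : ℕ in atTop, ∀ k ∈ Finset.range j, ((n : ℝ) + 1)⁻¹ • v k ∈ U := by
      rw [eventually_all_finset]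
      intro k _
      have := hinv.smul_const (v k)
      rw [zero_smul] at this
      exact this.eventually hU
    obtain ⟨N, hN⟩ := eventually_atTop.mp h4
    obtain ⟨n, hn, k, hk⟩ := h1 (max N j)
    refine ⟨n, k, (le_max_right _ _).trans hn, ?_, hk⟩
    by_contra h5
    exact hk (hN n ((le_max_left _ _).trans hn) k (Finset.mem_range.mpr (not_le.mp h5)))
  choose n k hn hk hnk using h3
  obtain ⟨φ, hφ, hφ1, -, -, hφ0⟩ := exists_bump hU
  let ψ : V → ℝ := fun y => max 0 (1 - 2 * φ y)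
  have hψ : Continuous ψ := by fun_prop
  obtain ⟨g, hg, hg0, hgk⟩ := lf_sum (fun j y => |w (k j)| * ψ (((n j : ℝ) + 1)⁻¹ • y))
    (fun j => by fun_prop) (fun j y => mul_nonneg (abs_nonneg _) (le_max_left _ _)) (by
      intro y
      have h4 : {p : ℝ × V | 1 / 2 < φ (p.1 • p.2)} ∈ 𝓝 ((0 : ℝ), y) :=
        (isOpen_lt continuous_const (by fun_prop)).mem_nhds (by simp [hφ1]; norm_num)
      obtain ⟨A, hA, B, hB, hAB⟩ := mem_nhds_prod_iff.mp h4
      obtain ⟨N, hN⟩ := eventually_atTop.mp (hinv.eventually hA)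
      refine ⟨B, hB, (finite_lt_nat N).subset ?_⟩
      rintro j ⟨z, hz, hzB⟩
      by_contra h5
      have h6 : 1 / 2 < φ (((n j : ℝ) + 1)⁻¹ • z) :=
        hAB (mk_mem_prod (hN (n j) ((not_lt.mp h5).trans (hn j))) hzB)
      apply hz
      have h7 : ψ (((n j : ℝ) + 1)⁻¹ • z) = 0 := max_eq_left (by linarith)
      simp [h7])
  refine h2 ⟨g, hg, hg0, frequently_atTop.mpr fun j => ⟨k j, hk j, ?_⟩⟩
  have h4 := hgk j (v (k j))
  have h5 : ψ (((n j : ℝ) + 1)⁻¹ • v (k j)) = 1 := by simp [ψ, hφ0 _ (hnk j)]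
  simp only [h5, mul_one] at h4
  exact (le_abs_self _).trans h4

omit [Module ℝ V] [ContinuousSMul ℝ V] in
theorem half {v : V} {t : Set V} (ht : t ∈ 𝓝 v) :
    ∃ W ∈ 𝓝 v, ∃ U ∈ 𝓝 (0 : V), ∀ a ∈ W, ∀ b ∈ U, a + b ∈ t := by
  have h : (fun p : V × V => p.1 + p.2) ⁻¹' t ∈ 𝓝 (v, (0 : V)) :=
    continuous_add.continuousAt.preimage_mem_nhds (by simpa using ht)
  obtain ⟨A, hA, B, hB, hAB⟩ := mem_nhds_prod_iff.mp h
  exact ⟨A, hA, B, hB, fun a ha b hb => hAB (mk_mem_prod ha hb)⟩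

omit [IsTopologicalAddGroup V] [ContinuousSMul ℝ V] [Module ℝ V] [AddCommGroup V] in
theorem kclosed [T2Space V] {S B : Set V} [CompactlyCoherentSpace S] (hB : B ⊆ S)
    (hf : ∀ K, IsCompact K → (B ∩ K).Finite) {v : V} (hv : v ∈ S) (hc : v ∈ closure B) :
    v ∈ B := by
  have h1 : IsClosed ((↑) ⁻¹' B : Set S) := by
    rw [CompactlyCoherentSpace.isClosed_iff]
    intro K hK
    refine Set.Finite.isClosed (((hf _ (hK.image continuous_subtype_val)).preimage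
      (f := fun y : K => ((y : S) : V))
      (Subtype.val_injective.comp Subtype.val_injective).injOn).subset ?_)
    exact fun y hy => ⟨hy, y, y.2, rfl⟩
  have h2 : (⟨v, hv⟩ : S) ∈ closure ((↑) ⁻¹' B : Set S) := by
    rw [IsInducing.subtypeVal.closure_eq_preimage_closure_image, Subtype.image_preimage_coe,
      inter_eq_right.mpr hB]
    exact hc
  rwa [h1.closure_eq] at h2

omit [IsTopologicalAddGroup V] [ContinuousSMul ℝ V] [TopologicalSpace V] in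
theorem mem_sp {X : Type u} (i : X → V) {m : ℕ} (hm : 2 ≤ m) {c c' : ℝ} (hc : |c| ≤ 1)
    (hc' : |c'| ≤ 1) (a b : X) : c • i a + c' • i b ∈ sp i m := by
  obtain ⟨k, rfl⟩ : ∃ k, m = k + 2 := ⟨m - 2, by omega⟩
  have h1 : (1 : ℝ) ≤ ((k + 2 : ℕ) : ℝ) := by exact_mod_cast (by omega : 1 ≤ k + 2)
  refine ⟨Fin.cons c (Fin.cons c' 0), Fin.cons a (Fin.cons b fun _ => a), fun j => ?_, ?_⟩
  · rw [mem_Icc, ← abs_le]
    refine Fin.cases ?_ (fun j => Fin.cases ?_ (fun j => ?_) j) j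
    · simpa using hc.trans h1
    · simpa using hc'.trans h1
    · simp only [Fin.cons_succ, Pi.zero_apply, abs_zero]
      positivity
  · simp [Fin.sum_univ_succ]

end TVS

end Pool.Agent.H31.KSp
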