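import Pool.Agent.H31.KSp3

namespace Pool.Agent.H31.KSp

open Set Filter Topology Pointwise TSp TopologicalSpace Omega1

universe u v w

variable {X : Type u} {V : Type v} [TopologicalSpace X] [T35Space X] [AddCommGroup V] [Module ℝ V]
  [TopologicalSpace V] [IsTopologicalAddGroup V] [ContinuousSMul ℝ V] [T2Space V] {i : X → V}
  {m : ℕ}

theorem k_X (hi : IsFreeTVS.{u, v, v} i) (hm : 2 ≤ m) [CompactlyCoherentSpace (sp i m)] :
    CompactlyCoherentSpace X := by
  have h1 : ∀ x, i x ∈ sp i m := fun x => by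
    simpa using mem_sp i hm (c := 1) (c' := 0) (by simp) (by simp) x x
  exact k_of_closedEmb (j := fun x => (⟨i x, h1 x⟩ : sp i m))
    (IsClosedEmbedding.of_comp IsEmbedding.subtypeVal (closedEmb hi))

theorem inv_abs_le (n : ℕ) : |((n : ℝ) + 1)⁻¹| ≤ 1 := by
  rw [abs_of_pos (by positivity)]
  exact inv_le_one_of_one_le₀ (by have := Nat.cast_nonneg (α := ℝ) n; linarith)

theorem lemP (hi : IsFreeTVS.{u, v, v} i) (hm : 2 ≤ m) [CompactlyCoherentSpace (sp i m)]
    {x : ℕ → X} (hx : CD x)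
    (hb : ∀ U ∈ 𝓝 (0 : V), ∃ N : ℕ, ∀ n ≥ N, ∀ k, ((n : ℝ) + 1)⁻¹ • i (x k) ∈ U) : PP X := by
  classical
  haveI := k_X hi hm
  intro a z hz
  by_contra hcon
  push Not at hcon
  let b : ℕ → ℕ → V := fun n k => (1 : ℝ) • i (a n k) + ((n : ℝ) + 1)⁻¹ • i (x k)
  have hrow : ∀ n, ∀ v : V, ∃ W ∈ 𝓝 v, {k | b n k ∈ W}.Finite := by
    intro n v
    obtain ⟨c, hc⟩ := (Finsupp.mem_span_range_iff_exists_finsupp).mp (span_top hi v)
    have h1 : IsClosed (range x \ (c.support : Set X)) := by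
      rw [CompactlyCoherentSpace.isClosed_iff]
      intro K hK
      refine Set.Finite.isClosed ((((hx K hK).image x).preimage
        Subtype.val_injective.injOn).subset ?_)
      rintro ⟨y, hy⟩ ⟨⟨k, rfl⟩, -⟩
      exact ⟨k, hy, rfl⟩
    have h2 : ∀ y : X, ∃ g : X → ℝ, Continuous g ∧ (y ∈ c.support → g y = 1) ∧ (∀ y, 0 ≤ g y) ∧
        (∀ y, g y ≤ 1) ∧ ∀ y, y ∈ range x \ (c.support : Set X) → g y = 0 := by
      intro y
      by_cases hy : y ∈ c.support
      · obtain ⟨g, h3, h4, h5, h6, h7⟩ := exists_bump (x := y)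
          (h1.isOpen_compl.mem_nhds fun h => h.2 hy)
        exact ⟨g, h3, fun _ => h4, h5, h6, fun y hy => h7 y fun h => h hy⟩
      · exact ⟨0, continuous_const, fun h => absurd h hy, fun _ => le_rfl, fun _ => zero_le_one,
          fun _ _ => rfl⟩
    choose g g1 g2 g3 g4 g5 using h2
    obtain ⟨F, hF⟩ := exists_fun hi (fun y => ∏ t ∈ c.support, (1 - g t y))
      (continuous_finset_prod _ fun t _ => continuous_const.sub (g1 t))
    have h3 : F v = 0 := by
      rw [← hc, Finsupp.sum, map_sum]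
      refine Finset.sum_eq_zero fun y hy => ?_
      rw [map_smul, hF, Finset.prod_eq_zero hy (by rw [g2 y hy, sub_self]), smul_zero]
    have hp : (0 : ℝ) < ((n : ℝ) + 1)⁻¹ := by positivity
    refine ⟨{w | F w < ((n : ℝ) + 1)⁻¹}, (isOpen_lt F.continuous continuous_const).mem_nhds
      (by simpa [h3] using hp), (hx _ c.support.finite_toSet.isCompact).subset fun k hk => ?_⟩
    by_contra h4
    have h5 : F (i (x k)) = 1 := by
      rw [hF]
      exact Finset.prod_eq_one fun t _ => by rw [g5 t _ ⟨⟨k, rfl⟩, h4⟩, sub_zero]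
    have h6 : 0 ≤ F (i (a n k)) := by
      rw [hF]
      exact Finset.prod_nonneg fun t _ => sub_nonneg.mpr (g4 t _)
    have h7 : F (b n k) < ((n : ℝ) + 1)⁻¹ := hk
    simp only [b, map_add, map_smul, h5, smul_eq_mul] at h7
    linarith
  have hfin : ∀ K, IsCompact K → ({v | ∃ n k, v = b n k} ∩ K).Finite := by
    intro K hK
    have h1 : ∀ n, {k | b n k ∈ K}.Finite := by
      intro n
      refine hK.induction_on (p := fun S => {k | b n k ∈ S}.Finite) (by simp)
        (fun S T hST hT => hT.subset fun k hk => hST hk)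
        (fun S T hS hT => (hS.union hT).subset fun k hk => hk) fun v _ => ?_
      obtain ⟨W, hW, h⟩ := hrow n v
      exact ⟨W, mem_nhdsWithin_of_mem_nhds hW, h⟩
    have h2 : {n | ∃ k, b n k ∈ K}.Finite := by
      by_contra hinf
      have h3 : ∀ n, ∃ k, (∃ k, b n k ∈ K) → b n k ∈ K := fun j => by
        by_cases h4 : ∃ k, b j k ∈ K
        · obtain ⟨k, hk⟩ := h4
          exact ⟨k, fun _ => hk⟩
        · exact ⟨0, fun h5 => absurd h5 h4⟩
      choose k hk using h3
      have h4 : Tendsto (fun n : ℕ => ((n : ℝ) + 1)⁻¹ • i (x (k n))) atTop (𝓝 0) := by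
        intro U hU
        obtain ⟨N, hN⟩ := hb U hU
        exact eventually_atTop.mpr ⟨N, fun n hn => hN n hn _⟩
      have h5 := hcon _ ((closedEmb hi).isCompact_preimage
        (hK.add h4.isCompact_insert_range.neg))
      obtain ⟨n, hn1, hn2⟩ :=
        ((Nat.frequently_atTop_iff_infinite.mpr hinf).and_eventually h5).exists
      refine hn2 (k n) ⟨b n (k n), hk n hn1, -(((n : ℝ) + 1)⁻¹ • i (x (k n))), ?_, by simp [b]⟩
      rw [Set.neg_mem_neg]
      exact Or.inr ⟨n, rfl⟩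
    refine (h2.biUnion fun n _ => (h1 n).image (b n)).subset ?_
    rintro _ ⟨⟨n, k, rfl⟩, hK⟩
    exact mem_iUnion₂.mpr ⟨n, ⟨k, hK⟩, k, hK, rfl⟩
  have h1 : i z ∈ {v | ∃ n k, v = b n k} := by
    refine kclosed (S := sp i m) ?_ hfin ?_ ?_
    · rintro _ ⟨n, k, rfl⟩
      exact mem_sp i hm (by simp) (inv_abs_le n) _ _
    · simpa using mem_sp i hm (c := 1) (c' := 0) (by simp) (by simp) z z
    · rw [mem_closure_iff_nhds]
      intro t ht
      obtain ⟨W, hW, U, hU, hWU⟩ := half ht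
      obtain ⟨N, hN⟩ := hb U hU
      obtain ⟨n, ⟨k, hk⟩, hn⟩ := ((hz _ (hi.1.continuousAt.preimage_mem_nhds hW)).and_eventually
        (eventually_ge_atTop N)).exists
      exact ⟨b n k, hWU _ (by simpa using hk) _ (hN n hn k), n, k, rfl⟩
  obtain ⟨n, k, h2⟩ := h1
  obtain ⟨F1, hF1⟩ := exists_fun hi (fun _ => 1) continuous_const
  have h3 := congrArg F1 h2
  simp only [b, map_add, map_smul, hF1, smul_eq_mul] at h3
  have hp : (0 : ℝ) < ((n : ℝ) + 1)⁻¹ := by positivity
  linarith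

variable {M : Type w} [MetricSpace M] {f : M → X} {s : X → M}

theorem lemB (hi : IsFreeTVS.{u, v, v} i) (hm : 2 ≤ m) [CompactlyCoherentSpace (sp i m)]
    (h : KS f s) {x : ℕ → X} (hx : CD x) (w : ℕ → ℝ) :
    ∃ g : X → ℝ, Continuous g ∧ (∀ y, 0 ≤ g y) ∧ ∃ᶠ k in atTop, w k ≤ g (x k) := by
  haveI := k_X hi hm
  rcases bdd_or (fun k => i (x k)) w with hb | ⟨g, hg, hg0, hfr⟩
  · obtain ⟨G, hG, hlf⟩ := h.strong (lemP hi hm hx hb) hx
    choose φ h1 h2 h3 h4 h5 using fun k => exists_bump (hG k)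
    obtain ⟨g, hg, hg0, hgk⟩ := lf_sum (fun k y => |w k| * φ k y) (fun k => by fun_prop)
      (fun k y => mul_nonneg (abs_nonneg _) (h3 k y)) (hlf.subset fun k y hy => by
        by_contra h6
        exact hy (by simp [h5 k y h6]))
    refine ⟨g, hg, hg0, Frequently.of_forall fun k => ?_⟩
    have := hgk k (x k)
    simp only [h2, mul_one] at this
    exact (le_abs_self _).trans this
  · exact ⟨fun y => g (i y), hg.comp hi.1, fun y => hg0 _, hfr⟩

theorem lemC (hi : IsFreeTVS.{u, v, v} i) (hm : 2 ≤ m) [CompactlyCoherentSpace (sp i m)]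
    (h : KS f s) {ι : Type*} {x : ι → X} (hx : CD x) {J : Set ι} (hJ : J.Infinite) {K : Set V}
    (hK : IsCompact K)
    (hJK : ∀ a ∈ J, ∃ (c c' : ℝ) (y : X), 0 < c ∧ 0 ≤ c' ∧ c • i (x a) + c' • i y ∈ K) : False := by
  let e : ℕ → ι := fun k => hJ.natEmbedding J k
  have he : Function.Injective e :=
    Subtype.val_injective.comp (hJ.natEmbedding J).injective
  choose c c' y hc hc' hK' using fun k => hJK (e k) (hJ.natEmbedding J k).2
  obtain ⟨g, hg, hg0, hfr⟩ := lemB hi hm h (x := fun k => x (e k))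
    (fun K hK => (hx K hK).preimage (f := e) he.injOn) (fun k => k / c k)
  obtain ⟨F, hF⟩ := exists_fun hi g hg
  obtain ⟨R, hR⟩ := (hK.image F.continuous).bddAbove
  obtain ⟨N, hN⟩ := exists_nat_gt R
  obtain ⟨k, hk1, hk2⟩ := (hfr.and_eventually (eventually_ge_atTop N)).exists
  have h1 := hR ⟨_, hK' k, rfl⟩
  simp only [map_add, map_smul, hF, smul_eq_mul] at h1
  rw [div_le_iff₀ (hc k)] at hk1
  have h2 := mul_nonneg (hc' k) (hg0 (y k))
  have h3 : (N : ℝ) ≤ k := by exact_mod_cast hk2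
  nlinarith

theorem lemA (hi : IsFreeTVS.{u, v, v} i) (hm : 2 ≤ m) [CompactlyCoherentSpace (sp i m)]
    (h : KS f s) : SeparableSpace (range s) := by
  classical
  by_contra hns
  obtain ⟨ε, hε, d', hd'⟩ := exists_sep hns
  let d : W → X := fun a => f (d' a)
  have hsd : ∀ a, s (d a) = d' a := by
    intro a
    obtain ⟨y, hy⟩ := (d' a).2
    simp only [d, ← hy, h.sec]
  have hcd : CD d := by
    intro K hK
    have h1 := (h.cpt K hK).finite_cover_balls (half_pos hε)
    obtain ⟨t, -, ht, hcov⟩ := h1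
    refine (ht.biUnion (t := fun c => {a | (d' a : M) ∈ Metric.ball c (ε / 2)}) fun c _ =>
      Set.Subsingleton.finite fun a ha b hb => ?_).subset fun a ha => ?_
    · by_contra hab
      have h2 : ε ≤ dist (d' a : M) (d' b) := hd' a b hab
      have h3 := dist_triangle_right (d' a : M) (d' b) c
      have h4 : dist (d' a : M) c < ε / 2 := ha
      have h5 : dist (d' b : M) c < ε / 2 := hb
      linarith
    · obtain ⟨c, hc, h2⟩ := mem_iUnion₂.mp (hcov (subset_closure ⟨d a, ha, hsd a⟩))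
      exact mem_iUnion₂.mpr ⟨c, hc, h2⟩
  have henc : ∀ b : W, ∃ r : W → ℕ, InjOn r (Iio b) := fun b =>
    (countable_iff_exists_injOn.mp (countable_Iio b))
  choose r hr using henc
  let g : W → W → V := fun a b => ((r b a : ℝ) + 1)⁻¹ • i (d a) + ((r b a : ℝ) + 1)⁻¹ • i (d b)
  have h0 : (0 : V) ∈ {v | ∃ a b, a < b ∧ v = g a b} := by
    refine kclosed (S := sp i m) ?_ ?_ ?_ ?_
    · rintro _ ⟨a, b, -, rfl⟩
      exact mem_sp i hm (inv_abs_le _) (inv_abs_le _) _ _
    · intro K hK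
      have h1 : {a | ∃ b, g a b ∈ K}.Finite := by
        by_contra hinf
        refine lemC hi hm h hcd hinf hK ?_
        rintro a ⟨b, hb⟩
        exact ⟨((r b a : ℝ) + 1)⁻¹, ((r b a : ℝ) + 1)⁻¹, d b, by positivity, by positivity, hb⟩
      have h2 : {b | ∃ a, g a b ∈ K}.Finite := by
        by_contra hinf
        refine lemC hi hm h hcd hinf hK ?_
        rintro b ⟨a, ha⟩
        exact ⟨((r b a : ℝ) + 1)⁻¹, ((r b a : ℝ) + 1)⁻¹, d a, by positivity, by positivity,
          by rw [add_comm]; exact ha⟩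
      refine (h1.image2 g h2).subset ?_
      rintro _ ⟨⟨a, b, -, rfl⟩, hK⟩
      exact ⟨a, ⟨b, hK⟩, b, ⟨a, hK⟩, rfl⟩
    · obtain ⟨a⟩ : Nonempty W := inferInstance
      simpa using mem_sp i hm (c := 0) (c' := 0) (by simp) (by simp) (d a) (d a)
    · rw [mem_closure_iff_nhds]
      intro U hU
      obtain ⟨U', hU', hUU⟩ := exists_nhds_zero_half hU
      have h1 : ∀ a : W, ∃ n : ℕ, ∀ c : ℝ, (n : ℝ) ≤ c → c⁻¹ • i (d a) ∈ U' := by
        intro a
        have h2 : Tendsto (fun c : ℝ => c⁻¹ • i (d a)) atTop (𝓝 0) := by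
          simpa using (tendsto_inv_atTop_zero (𝕜 := ℝ)).smul_const (i (d a))
        obtain ⟨c0, hc0⟩ := eventually_atTop.mp (h2.eventually hU')
        obtain ⟨n, hn⟩ := exists_nat_ge c0
        exact ⟨n, fun c hc => hc0 c (hn.trans hc)⟩
      choose n hn using h1
      have h2 : ∃ m, ¬ {a | n a = m}.Countable := by
        by_contra hcon
        push Not at hcon
        refine not_countable_univ ((countable_iUnion hcon).mono fun a _ => ?_)
        exact mem_iUnion.mpr ⟨n a, rfl⟩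
      obtain ⟨m, hm⟩ := h2
      have hinf : {a | n a = m}.Infinite := fun h => hm h.countable
      obtain ⟨b0, hb0⟩ := exists_bound_seq (fun k => (hinf.natEmbedding _ k : W))
      have h3 : ∃ b, n b = m ∧ b0 < b := by
        by_contra hcon
        push Not at hcon
        exact hm ((countable_Iic b0).mono fun a ha => hcon a ha)
      obtain ⟨b, hb, hbb⟩ := h3
      have h4 : Function.Injective (fun k => r b (hinf.natEmbedding _ k : W)) := by
        intro k l hkl
        have := hr b ((hb0 k).trans hbb) ((hb0 l).trans hbb) hkl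
        exact (hinf.natEmbedding _).injective (Subtype.ext this)
      obtain ⟨k, hk⟩ := (h4.nat_tendsto_atTop.eventually (eventually_ge_atTop m)).exists
      set a : W := (hinf.natEmbedding _ k : W) with ha
      have hna : n a = m := (hinf.natEmbedding _ k).2
      have h5 : (m : ℝ) ≤ (r b a : ℝ) + 1 := by
        have : (m : ℝ) ≤ r b a := by exact_mod_cast hk
        linarith
      exact ⟨g a b, hUU _ (hn a _ (hna ▸ h5)) _ (hn b _ (hb ▸ h5)), a, b, (hb0 k).trans hbb, rfl⟩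
  obtain ⟨a, b, -, h2⟩ := h0
  obtain ⟨F1, hF1⟩ := exists_fun hi (fun _ => 1) continuous_const
  have h3 := congrArg F1 h2
  simp only [g, map_add, map_smul, hF1, smul_eq_mul, map_zero] at h3
  have hp : (0 : ℝ) < ((r b a : ℝ) + 1)⁻¹ := by positivity
  linarith

theorem lemL (hi : IsFreeTVS.{u, v, v} i) (hm : 2 ≤ m) [CompactlyCoherentSpace (sp i m)]
    (h : KS f s) (p : M) : ∃ r > (0 : ℝ), ∃ K, IsCompact K ∧ s ⁻¹' Metric.ball p r ⊆ K := by
  by_contra hcon
  push Not at hcon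
  have h1 : ∀ n : ℕ, ∃ y : ℕ → X, (∀ k, s (y k) ∈ Metric.ball p (1 / ((n : ℝ) + 1))) ∧ CD y := by
    intro n
    rcases h.dichot (s ⁻¹' Metric.ball p (1 / ((n : ℝ) + 1))) with ⟨K, hK, hs⟩ | h2
    · exact absurd hs (hcon _ Nat.one_div_pos_of_nat K hK)
    · exact h2
  choose x hx hcd using h1
  let b : ℕ → ℕ → V := fun n k => (1 : ℝ) • i (x n k) + ((k : ℝ) + 1)⁻¹ • i (x 0 n)
  have h1 : i (f p) ∈ {v | ∃ n k, v = b n k} := by
    refine kclosed (S := sp i m) ?_ ?_ ?_ ?_
    · rintro _ ⟨n, k, rfl⟩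
      exact mem_sp i hm (by simp) (inv_abs_le k) _ _
    · intro K hK
      have h1 : ∀ n, {k | b n k ∈ K}.Finite := by
        intro n
        by_contra hinf
        exact lemC hi hm h (hcd n) hinf hK fun k hk => ⟨_, _, _, one_pos, by positivity, hk⟩
      have h2 : {n | ∃ k, b n k ∈ K}.Finite := by
        by_contra hinf
        refine lemC hi hm h (hcd 0) hinf hK ?_
        rintro n ⟨k, hk⟩
        exact ⟨((k : ℝ) + 1)⁻¹, 1, x n k, by positivity, zero_le_one, by rw [add_comm]; exact hk⟩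
      refine (h2.biUnion fun n _ => (h1 n).image (b n)).subset ?_
      rintro _ ⟨⟨n, k, rfl⟩, hK⟩
      exact mem_iUnion₂.mpr ⟨n, ⟨k, hK⟩, k, hK, rfl⟩
    · simpa using mem_sp i hm (c := 1) (c' := 0) (by simp) (by simp) (f p) (f p)
    · rw [mem_closure_iff_nhds]
      intro t ht
      obtain ⟨W, hW, U, hU, hWU⟩ := half ht
      obtain ⟨ε, hε, hεW⟩ := Metric.mem_nhds_iff.mp
        ((hi.1.comp h.cont).continuousAt.preimage_mem_nhds hW)
      obtain ⟨n, hn⟩ := exists_nat_one_div_lt hε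
      have hinv : Tendsto (fun n : ℕ => ((n : ℝ) + 1)⁻¹) atTop (𝓝 0) := by
        simpa using tendsto_one_div_add_atTop_nhds_zero_nat (𝕜 := ℝ)
      have h2 := hinv.smul_const (i (x 0 n))
      rw [zero_smul] at h2
      obtain ⟨k, hk⟩ := (h2.eventually hU).exists
      refine ⟨b n k, hWU _ ?_ _ hk, n, k, rfl⟩
      have := hεW (Metric.ball_subset_ball hn.le (hx n k))
      simpa [h.sec] using this
  obtain ⟨n, k, h2⟩ := h1
  obtain ⟨F1, hF1⟩ := exists_fun hi (fun _ => 1) continuous_const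
  have h3 := congrArg F1 h2
  simp only [b, map_add, map_smul, hF1, smul_eq_mul] at h3
  have hp : (0 : ℝ) < ((k : ℝ) + 1)⁻¹ := by positivity
  linarith

theorem hemi (hi : IsFreeTVS.{u, v, v} i) (hm : 2 ≤ m) [CompactlyCoherentSpace (sp i m)]
    (h : KS f s) : ∃ K : ℕ → Set X, (∀ n, IsCompact (K n)) ∧ Monotone K ∧
      ∀ L, IsCompact L → ∃ n, L ⊆ K n := by
  haveI := lemA hi hm h
  have h1 : IsSeparable (closure (range s)) := (IsSeparable.of_subtype (range s)).closure
  haveI := h1.separableSpace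
  haveI : SecondCountableTopology (closure (range s)) :=
    UniformSpace.secondCountable_of_separable _
  choose r hr K hK hrK using lemL hi hm h
  obtain ⟨t, htc, ht⟩ := TopologicalSpace.countable_cover_nhds
    (f := fun p : closure (range s) => (↑) ⁻¹' Metric.ball (p : M) (r p))
    (fun p => continuous_subtype_val.continuousAt.preimage_mem_nhds (Metric.ball_mem_nhds _ (hr p)))
  obtain ⟨e, he⟩ := countable_iff_exists_injOn.mp htc
  have hfin : ∀ n, {p ∈ t | e p ≤ n}.Finite := fun n =>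
    Set.Finite.of_finite_image ((finite_Iic n).subset (by
      rintro _ ⟨y, hy, rfl⟩; exact hy.2)) (he.mono fun y hy => hy.1)
  refine ⟨fun n => ⋃ p ∈ {p ∈ t | e p ≤ n}, K p, fun n => (hfin n).isCompact_biUnion fun p _ =>
    hK p, fun a b hab => biUnion_subset_biUnion_left fun p hp => ⟨hp.1, hp.2.trans hab⟩,
    fun L hL => ?_⟩
  obtain ⟨t', ht't, ht'f, hcov⟩ := (h.cpt L hL).elim_finite_subcover_image (b := t)
    (c := fun p : closure (range s) => Metric.ball (p : M) (r p)) (fun _ _ => Metric.isOpen_ball)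
    (fun q hq => by
      have h2 : (⟨q, closure_mono (image_subset_range _ _) hq⟩ : closure (range s)) ∈
        ⋃ p ∈ t, (↑) ⁻¹' Metric.ball (p : M) (r p) := ht ▸ mem_univ _
      obtain ⟨p, hp, h3⟩ := mem_iUnion₂.mp h2
      exact mem_iUnion₂.mpr ⟨p, hp, h3⟩)
  obtain ⟨n, hn⟩ := (ht'f.image e).bddAbove
  refine ⟨n, fun y hy => ?_⟩
  obtain ⟨p, hp, h3⟩ := mem_iUnion₂.mp (hcov (subset_closure ⟨y, hy, rfl⟩))
  exact mem_iUnion₂.mpr ⟨p, ⟨ht't hp, hn ⟨p, hp, rfl⟩⟩, hrK p h3⟩

theorem main (hi : IsFreeTVS.{u, v, v} i) (hm : 2 ≤ m) (hk : CompactlyCoherentSpace (sp i m))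
    (hX : KStarMetrizable.{u, w} X) :
    IsKOmega X ∧ IsKOmega V ∧ CompactlyCoherentSpace V ∧ ∀ n, CompactlyCoherentSpace (sp i n) := by
  obtain ⟨-, M, _, _, f, s, hf, -, hfs, hs⟩ := hX
  letI := metrizableSpaceMetric M
  obtain ⟨K, hK, hmono, hL⟩ := hemi hi hm (f := f) (s := s) ⟨hf, hfs, hs⟩
  haveI := k_X hi hm
  have hcoh : IsCoherentWith (range K) :=
    (CompactlyCoherentSpace.isCoherentWith (X := X)).enlarge fun L hL' => by
      obtain ⟨n, hn⟩ := hL L hL'
      exact ⟨K n, ⟨n, rfl⟩, hn⟩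
  refine ⟨⟨K, hK, fun F hF => hcoh.isClosed_iff.mpr ?_⟩, of_komega hi hK hmono (fun x => ?_) hcoh⟩
  · rintro _ ⟨n, rfl⟩
    exact hF n
  · obtain ⟨n, hn⟩ := hL {x} isCompact_singleton
    exact ⟨n, hn rfl⟩

theorem kstar_of_metrizable (X : Type u) [TopologicalSpace X] [MetrizableSpace X] :
    KStarMetrizable.{u, u} X :=
  ⟨inferInstance, X, inferInstance, inferInstance, id, id, continuous_id, Function.surjective_id,
    fun _ => rfl, fun K hK => by rw [image_id, hK.isClosed.closure_eq]; exact hK⟩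

end Pool.Agent.H31.KSp
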