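import Pool.Agent.H31.TSpDefs

namespace Pool.Agent.H31.KSp

universe u w

/-- `k_ω`-spaces -/
def IsKOmega (Z : Type u) [TopologicalSpace Z] : Prop :=
  ∃ K : ℕ → Set Z, (∀ n, IsCompact (K n)) ∧
    ∀ F : Set Z, (∀ n, IsClosed ((↑) ⁻¹' F : Set (K n))) → IsClosed F

/-- `k*`-metrizable spaces -/
def KStarMetrizable (X : Type u) [TopologicalSpace X] : Prop :=
  T2Space X ∧ ∃ (M : Type w) (_ : TopologicalSpace M) (_ : TopologicalSpace.MetrizableSpace M)
    (f : M → X) (s : X → M), Continuous f ∧ Function.Surjective f ∧ (∀ x, f (s x) = x) ∧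
      ∀ K : Set X, IsCompact K → IsCompact (closure (s '' K))

end Pool.Agent.H31.KSp
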