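import Mathlib

set_option autoImplicit false

open Set Function Filter Topology

namespace Pool.Agent.H31.Kor

theorem nb {X G : Type*} [TopologicalSpace X] {Y : Set (G → X)} {U : Set Y} {y : Y} (h : U ∈ 𝓝 y) :
    ∃ s : Finset G, ∀ z : Y, (∀ g ∈ s, z.1 g = y.1 g) → z ∈ U := by
  obtain ⟨_, h1, ⟨O, h2, rfl⟩, h3⟩ := mem_nhds_iff.1 h
  obtain ⟨s, u, h4, h5⟩ := isOpen_pi_iff.1 h2 y.1 h3
  exact ⟨s, fun z hz => h1 (h5 fun g hg => hz g hg ▸ (h4 g hg).2)⟩

theorem main {X G : Type*} [TopologicalSpace X] {Y : Set (G → X)} {V : Set X} {a : X}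
    (hV : IsOpen V) (ha : a ∉ V) (h1 : ∀ y ∈ Y, ∃ g, y g ∈ V)
    (h2 : ∀ M : Set G, M.Countable → ∀ p : G → X, ∃ y ∈ Y, ∀ g ∈ M, y g = p g) :
    ¬ ParacompactSpace Y := fun _ => by
  classical
  obtain ⟨W, w1, w2, w3, w4⟩ := precise_refinement (fun g => {y : Y | y.1 g ∈ V})
    (fun g => hV.preimage ((continuous_apply g).comp continuous_subtype_val))
    (eq_univ_of_forall fun y => mem_iUnion.2 (h1 y.1 y.2))
  have h3 : ∀ M : Finset G, ∃ (y : Y) (g : G) (s : Finset G), (∀ x ∈ M, y.1 x = a) ∧ g ∉ M ∧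
      ∀ z : Y, (∀ x ∈ s, z.1 x = y.1 x) → z ∈ W g := fun M => by
    obtain ⟨y, h3, h4⟩ := h2 M M.countable_toSet fun _ => a
    obtain ⟨g, hg⟩ := mem_iUnion.1 (w2 ▸ mem_univ (⟨y, h3⟩ : Y) : _ ∈ ⋃ g, W g)
    obtain ⟨s, hs⟩ := nb ((w1 g).mem_nhds hg)
    exact ⟨⟨y, h3⟩, g, s, h4, fun h => ha (h4 g h ▸ w4 g hg), hs⟩
  choose y g s y1 y2 y3 using h3
  let M : ℕ → Finset G := fun n => Nat.rec (motive := fun _ => Finset G) ∅
    (fun _ M => M ∪ insert (g M) (s M)) n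
  have h4 : Monotone M := monotone_nat_of_le_succ fun n => Finset.subset_union_left
  have h5 : Injective fun n => g (M n) := Injective.of_lt_imp_ne fun m n h e =>
    y2 (M n) (e ▸ h4 h (Finset.mem_union_right _ (Finset.mem_insert_self _ _)))
  have h0 : (⋃ n, (M n : Set G)).Countable := by
    refine countable_iUnion fun n => ?_
    exact Finset.countable_toSet _
  obtain ⟨z, h6, h7⟩ := h2 _ h0 fun _ => a
  obtain ⟨U, h8, h9⟩ := w3 ⟨z, h6⟩
  obtain ⟨t, ht⟩ := nb h8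
  obtain ⟨k, hk⟩ := (show Monotone fun n => (M n : Set G) from fun _ _ h => h4 h).directed_le
    |>.exists_mem_subset_of_finset_subset_biUnion (s := t.filter (· ∈ ⋃ n, (M n : Set G)))
    fun x hx => (Finset.mem_filter.1 hx).2
  refine (Ici_infinite k) ((h9.preimage h5.injOn).subset fun n hn => ?_)
  obtain ⟨w, h10, h11⟩ := h2 (↑t ∪ ↑(s (M n))) (t.countable_toSet.union (s _).countable_toSet)
    fun x => if x ∈ t then z x else (y (M n)).1 x
  refine ⟨⟨w, h10⟩, y3 _ _ fun x hx => (h11 x (Or.inr hx)).trans ?_,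
    ht _ fun x hx => (h11 x (Or.inl hx)).trans (if_pos hx)⟩
  split_ifs with h
  · have : x ∈ ⋃ n, (M n : Set G) := mem_iUnion.2 ⟨n + 1, Finset.mem_union_right _
      (Finset.mem_insert_of_mem hx)⟩
    exact (h7 x this).trans (y1 _ x (h4 hn (hk (Finset.mem_filter.2 ⟨h, this⟩)))).symm
  · rfl

end Pool.Agent.H31.Kor
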