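import Mathlib

set_option autoImplicit false

open Set Function TopologicalSpace

namespace Pool.Agent.H31.LB

/-- real sequences, those with infinitely many zeros being doubled -/
def L : Type := {z : (ℕ → ℝ) × Bool // z.2 = true → ∀ n, ∃ k ≥ n, z.1 k = 0}

noncomputable instance : LinearOrder L :=
  LinearOrder.lift' (fun z : L => toLex (toLex z.1.1, z.1.2)) fun _ _ h =>
    Subtype.ext (Prod.ext (congrArg (fun p => (ofLex p).1) h) (congrArg (fun p => (ofLex p).2) h))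

noncomputable instance : TopologicalSpace L := Preorder.topology L
instance : OrderTopology L := ⟨rfl⟩

theorem lt_iff {z w : L} : z < w ↔ (∃ i, (∀ j < i, z.1.1 j = w.1.1 j) ∧ z.1.1 i < w.1.1 i) ∨
    (z.1.1 = w.1.1 ∧ z.1.2 < w.1.2) := Prod.Lex.toLex_lt_toLex

theorem lt_of {z w : L} (i : ℕ) (h : ∀ j < i, z.1.1 j = w.1.1 j) (h' : z.1.1 i < w.1.1 i) : z < w :=
  lt_iff.2 (Or.inl ⟨i, h, h'⟩)

/-- cylinders -/
def J (k : ℕ) (β : ℕ → ℝ) : Set L := {z | ∀ i < k, z.1.1 i = β i}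

/-- change one coordinate -/
def mv (β : ℕ → ℝ) (k : ℕ) (r : ℝ) : L := ⟨(update β k r, false), fun h => by cases h⟩

theorem mv_mem {β γ : ℕ → ℝ} {k m : ℕ} (r : ℝ) (h : ∀ i < k, β i = γ i) (hm : k ≤ m) :
    mv β m r ∈ J k γ := fun i hi => (update_of_ne (hi.trans_le hm).ne _ _).trans (h i hi)

theorem lt_mv (z : L) (k : ℕ) : z < mv z.1.1 k (z.1.1 k + 1) :=
  lt_of k (fun _ hj => (update_of_ne hj.ne _ _).symm) (by simp [mv])

theorem mv_lt (z : L) (k : ℕ) : mv z.1.1 k (z.1.1 k - 1) < z :=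
  lt_of k (fun _ hj => update_of_ne hj.ne _ _) (by simp [mv])

theorem J_open (k : ℕ) (β : ℕ → ℝ) : IsOpen (J k β) := by
  refine isOpen_iff_forall_mem_open.2 fun z hz => ⟨_, fun w hw i => ?_, isOpen_Ioo,
    mv_lt z k, lt_mv z k⟩
  induction i using Nat.strong_induction_on with
  | h i ih =>
    intro hi
    have h1 := mv_mem (z.1.1 k - 1) hz le_rfl
    have h2 := mv_mem (z.1.1 k + 1) hz le_rfl
    refine le_antisymm (not_lt.1 fun h => hw.2.not_gt (lt_of i (fun j hj => ?_) (h2 i hi ▸ h)))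
      (not_lt.1 fun h => hw.1.not_gt (lt_of i (fun j hj => ?_) (h1 i hi ▸ h)))
    · exact (h2 j (hj.trans hi)).trans (ih j hj (hj.trans hi)).symm
    · exact (ih j hj (hj.trans hi)).trans (h1 j (hj.trans hi)).symm

theorem J_anti {k m : ℕ} {β γ : ℕ → ℝ} (hm : k ≤ m) (h : ∀ i < k, γ i = β i) : J m γ ⊆ J k β :=
  fun _ hz i hi => (hz i (hi.trans_le hm)).trans (h i hi)

theorem J_le {k m : ℕ} {β γ : ℕ → ℝ} (h : J m γ ⊆ J (k + 1) β) : k < m := by
  by_contra hm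
  have := h (mv_mem (β := γ) (β k + 1) (fun _ _ => rfl) (not_lt.1 hm)) k (Nat.lt_succ_self k)
  simp [mv] at this

variable (e : ℝ → L)

/-- the sets of the first kind -/
def U (k : ℕ) (β : ℕ → ℝ) : Set L := J (k + 1) β ∪ J (k + 1) (update β k 0) ∩ Iio (e (β k))

theorem U_congr {k : ℕ} {β γ : ℕ → ℝ} (h : ∀ i < k + 1, β i = γ i) : U e k β = U e k γ := by
  have h' : ∀ i < k + 1, update β k 0 i = update γ k 0 i := fun i hi => by
    by_cases e : i = k <;> simp [e, h i hi]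
  rw [U, U, h k (Nat.lt_succ_self k), (J_anti le_rfl h).antisymm (J_anti le_rfl fun i hi => (h i hi).symm),
    (J_anti le_rfl h').antisymm (J_anti le_rfl fun i hi => (h' i hi).symm)]

theorem U_sub (k : ℕ) (β : ℕ → ℝ) : U e k β ⊆ J k β :=
  union_subset (J_anti k.le_succ fun _ _ => rfl)
    (inter_subset_left.trans (J_anti k.le_succ fun _ hi => update_of_ne hi.ne _ _))

/-- the base -/
def B : Set (Set L) := {V | ∃ k β, V = U e k β} ∪ {V | ∃ k β a, β k = 0 ∧ V = J (k + 1) β ∩ Ioi a}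

theorem basis (he : ∀ b, ∃ r < 0, e r = b) : IsTopologicalBasis (B e) := by
  refine isTopologicalBasis_of_isOpen_of_nhds ?_ fun z O hz hO => ?_
  · rintro _ (⟨k, β, rfl⟩ | ⟨k, β, a, -, rfl⟩)
    exacts [(J_open _ _).union ((J_open _ _).inter isOpen_Iio), (J_open _ _).inter isOpen_Ioi]
  obtain ⟨a, b, ⟨ha, hb⟩, h⟩ := (mem_nhds_iff_exists_Ioo_subset' ⟨_, mv_lt z 0⟩ ⟨_, lt_mv z 0⟩).1
    (hO.mem_nhds hz)
  have l : z.1.2 = false → ∃ k, J k z.1.1 ⊆ Ioi a := fun h => by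
    obtain ⟨i, h1, h2⟩ := (lt_iff.1 ha).resolve_right fun h' => by
      simpa [h] using (Bool.lt_iff.1 h'.2).2
    exact ⟨i + 1, fun w hw => lt_of i (fun j hj => (h1 j hj).trans (hw j (by omega)).symm)
      ((hw i (by omega)).symm ▸ h2)⟩
  rcases lt_iff.1 hb with ⟨i, h1, h2⟩ | ⟨h1, h2⟩
  · have r : J (i + 1) z.1.1 ⊆ Iio b := fun w hw =>
      lt_of i (fun j hj => (hw j (by omega)).trans (h1 j hj)) ((hw i (by omega)).symm ▸ h2)
    cases e' : z.1.2
    · obtain ⟨k, hk⟩ := l e'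
      refine ⟨_, Or.inl ⟨max k (i + 1), z.1.1, rfl⟩, Or.inl fun _ _ => rfl, fun w hw => h ⟨?_, ?_⟩⟩
      · exact hk (J_anti (le_max_left _ _) (fun _ _ => rfl) (U_sub e _ _ hw))
      · exact r (J_anti (le_max_right _ _) (fun _ _ => rfl) (U_sub e _ _ hw))
    · obtain ⟨m, m1, m2⟩ := z.2 e' i
      exact ⟨_, Or.inr ⟨m, z.1.1, a, m2, rfl⟩, ⟨fun _ _ => rfl, ha⟩, fun w hw =>
        h ⟨hw.2, r (J_anti (Nat.succ_le_succ m1) (fun _ _ => rfl) hw.1)⟩⟩
  · obtain ⟨h3, h4⟩ := Bool.lt_iff.1 h2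
    obtain ⟨k, hk⟩ := l h3
    obtain ⟨m, m1, m2⟩ := b.2 h4 k
    obtain ⟨r, r1, r2⟩ := he b
    rw [← h1] at m2
    refine ⟨_, Or.inl ⟨m, update z.1.1 m r, rfl⟩, Or.inr ⟨fun i _ => ?_, by simpa [r2] using hb⟩,
      fun w hw => h ⟨hk (J_anti m1 (fun i hi => update_of_ne (hi.trans_le m1).ne _ _)
        (U_sub e _ _ hw)), ?_⟩⟩
    · rw [update_idem, update_eq_self_iff.2 m2.symm]
    rcases hw with hw | hw
    · refine lt_of m (fun j hj => ?_) ?_
      · rw [hw j (by omega), update_of_ne hj.ne, h1]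
      · rw [hw m (by omega), update_self, ← h1, m2]; exact r1
    · simpa [r2] using hw.2

theorem seq (ρ : ℕ → (ℕ → ℝ) → ℝ) : ∃ x : ℕ → ℝ, ∀ j, x j = ρ j fun i => if i < j then x i else 0 := by
  refine ⟨Nat.lt_wfRel.wf.fix fun j ih => ρ j fun i => if h : i < j then ih i h else 0, fun j => ?_⟩
  rw [WellFounded.fix_eq]
  rfl

theorem not_res (B0 B1 : Set (Set L)) (h0 : B0 ⊆ B e) (h1 : B1 ⊆ B e) (hd : Disjoint B0 B1)
    (b0 : IsTopologicalBasis B0) (b1 : IsTopologicalBasis B1) : False := by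
  have : ∀ j (γ : ℕ → ℝ), ∃ r, (r = 0 ∧ ∀ s < 0, U e j (update γ j s) ∉ B0) ∨
      (r < 0 ∧ U e j (update γ j r) ∈ B0) := fun j γ => by
    by_cases h : ∃ s < 0, U e j (update γ j s) ∈ B0
    · exact h.imp fun _ => Or.inr
    · exact ⟨0, Or.inl ⟨rfl, fun s hs h' => h ⟨s, hs, h'⟩⟩⟩
  choose ρ hρ using this
  obtain ⟨x, hx⟩ := seq ρ
  have key : ∀ j, (x j = 0 ∧ ∀ β, (∀ i < j, β i = x i) → β j < 0 → U e j β ∉ B0) ∨
      (x j < 0 ∧ U e j x ∈ B0) := fun j => by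
    have c : ∀ β : ℕ → ℝ, (∀ i < j, β i = x i) →
        U e j (update (fun i => if i < j then x i else 0) j (β j)) = U e j β := fun β h =>
      U_congr e fun i hi => by
        rcases (Nat.lt_succ_iff.1 hi).eq_or_lt with rfl | hi
        · simp
        · simp [hi, hi.ne, h i hi]
    refine (hρ j _).imp (fun h => ⟨(hx j).trans h.1, fun β h1 h2 => c β h1 ▸ h.2 _ h2⟩) fun h => ?_
    rw [← hx j] at h
    exact ⟨h.1, c x (fun _ _ => rfl) ▸ h.2⟩
  by_cases hz : ∀ n, ∃ k ≥ n, x k = 0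
  · let y0 : L := ⟨(x, false), fun h => by cases h⟩
    let y1 : L := ⟨(x, true), fun _ => hz⟩
    have hy : y0 < y1 := lt_iff.2 (Or.inr ⟨rfl, Bool.false_lt_true⟩)
    obtain ⟨V, v1, v2, v3⟩ := b0.exists_subset_of_mem_open (u := Iio _) hy isOpen_Iio
    rcases h0 v1 with ⟨k, β, rfl⟩ | ⟨k, β, a, -, rfl⟩
    · have n1 : ¬ ∀ i < k + 1, x i = β i := fun h => lt_irrefl y1 (v3 (a := y1) (Or.inl h))
      have a1 := (v2.resolve_left n1).1
      have a2 : x k = 0 := (a1 k (Nat.lt_succ_self k)).trans (update_self ..)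
      have a3 : ∀ i < k, β i = x i := fun i hi =>
        ((a1 i (by omega)).trans (update_of_ne hi.ne _ _)).symm
      refine ((key k).resolve_right fun h => h.1.ne a2).2 β a3 (not_le.1 fun h => ?_) v1
      rcases h.eq_or_lt with h | h
      · refine n1 fun i hi => ?_
        rcases (Nat.lt_succ_iff.1 hi).eq_or_lt with rfl | hi
        exacts [a2.trans h, (a3 i hi).symm]
      · let w : L := ⟨(β, false), fun h => by cases h⟩
        have : w < y1 := v3 (Or.inl fun _ _ => rfl)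
        exact this.not_gt (lt_of k (fun j hj => (a3 j hj).symm) (a2.trans_lt h))
    · exact lt_irrefl y1 (v3 (a := y1) ⟨v2.1, v2.2.trans hy⟩)
  · push Not at hz
    obtain ⟨N, hN⟩ := hz
    obtain ⟨V, v1, v2, v3⟩ := b1.exists_subset_of_mem_open (a := ⟨(x, false), fun h => by cases h⟩)
      (u := J (N + 1) x) (fun _ _ => rfl) (J_open _ _)
    rcases h1 v1 with ⟨k, β, rfl⟩ | ⟨k, β, a, hk, rfl⟩
    · have a1 : N ≤ k := Nat.lt_succ_iff.1 (J_le (subset_union_left.trans v3))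
      rcases v2 with v2 | v2
      · refine disjoint_left.1 hd ?_ v1
        exact U_congr e v2 ▸ ((key k).resolve_left fun h => hN k a1 h.1).2
      · exact hN k a1 ((v2.1 k (Nat.lt_succ_self k)).trans (update_self ..))
    · have a1 : k < N := not_le.1 fun h => hN k h ((v2.1 k (Nat.lt_succ_self k)).trans hk)
      have := v3 ⟨mv_mem (x N + 1) v2.1 a1, v2.2.trans (lt_mv _ N)⟩ N (Nat.lt_succ_self N)
      simp [mv] at this

theorem exe : ∃ e : ℝ → L, ∀ b, ∃ r < 0, e r = b := by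
  have : Cardinal.mk L ≤ Cardinal.mk (Iio (0 : ℝ)) := by
    refine (Cardinal.mk_subtype_le _).trans ?_
    simp [Cardinal.mk_Iio_real, Cardinal.mk_real]
  obtain ⟨j⟩ := this
  have hj : Injective fun b => (j b).1 := Subtype.val_injective.comp j.injective
  haveI : Nonempty L := ⟨mv 0 0 0⟩
  exact ⟨invFun fun b => (j b).1, fun b => ⟨_, (j b).2, leftInverse_invFun hj b⟩⟩

theorem dense (z : L) : ¬ IsOpen ({z} : Set L) := by
  intro h
  obtain ⟨e, he⟩ := exe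
  obtain ⟨V, v1, v2, v3⟩ := (basis e he).exists_subset_of_mem_open (mem_singleton z) h
  rcases v1 with ⟨k, β, rfl⟩ | ⟨k, β, a, -, rfl⟩
  · have := (v3 (Or.inl (mv_mem (β := β) 0 (fun _ _ => rfl) le_rfl))).trans
      (v3 (Or.inl (mv_mem (β := β) 1 (fun _ _ => rfl) le_rfl))).symm
    simpa [mv] using congrArg (fun w : L => w.1.1 (k + 1)) this
  · exact (lt_mv z (k + 1)).ne' (v3 ⟨mv_mem _ v2.1 le_rfl, v2.2.trans (lt_mv z _)⟩)

theorem final : ¬ (∀ (L : Type) [LinearOrder L] [TopologicalSpace L] [OrderTopology L],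
      (∀ x : L, ¬ IsOpen ({x} : Set L)) →
      ∀ B : Set (Set L), TopologicalSpace.IsTopologicalBasis B →
        ∃ B₀ : Set (Set L), B₀ ⊆ B ∧ TopologicalSpace.IsTopologicalBasis B₀ ∧
          TopologicalSpace.IsTopologicalBasis (B \ B₀)) := by
  intro h
  obtain ⟨e, he⟩ := exe
  obtain ⟨B0, h0, h1, h2⟩ := h L dense _ (basis e he)
  exact not_res e B0 _ h0 sdiff_subset disjoint_sdiff_right h1 h2

end Pool.Agent.H31.LB
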