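import Pool.Agent.H31.LGDefs

namespace Pool.Agent.H31.LG

open Set

def fx (t : Tm (fun _ : Fin 1 => 1) 2) : Tm (fun _ : Fin 1 => 1) 2 := .app 0 fun _ => t

def S1 : Cond := ⟨1, fun _ => 1, 2, [(fx (.var 0), fx (.var 1))]⟩

def S2 : Cond := ⟨1, fun _ => 1, 2, [(fx (.var 0), fx (.var 1)), (fx (fx (.var 0)), fx (.var 0))]⟩

variable {A : Type} {B : ∀ m : ℕ, Set ((Fin m → A) → A)}

theorem s1 {F : Set (Fin 2 → A)} : SatOn S1 B F ↔
    ∃ f, Clo B 1 f ∧ ∀ x ∈ F, f (fun _ => x 0) = f fun _ => x 1 :=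
  ⟨fun ⟨I, h1, h2⟩ => ⟨I (0 : Fin 1), h1 _, h2 _ (.head _)⟩, fun ⟨f, h1, h2⟩ =>
    ⟨fun _ => f, fun _ => h1, fun e he => List.mem_singleton.mp he ▸ h2⟩⟩

theorem s2 {F : Set (Fin 2 → A)} : SatOn S2 B F ↔
    ∃ f, Clo B 1 f ∧ ∀ x ∈ F, (f (fun _ => x 0) = f fun _ => x 1) ∧
      f (fun _ => f fun _ => x 0) = f fun _ => x 0 :=
  ⟨fun ⟨I, h1, h2⟩ => ⟨I (0 : Fin 1), h1 _, fun x hx => ⟨h2 _ (.head _) x hx,
    h2 _ (.tail _ (.head _)) x hx⟩⟩, fun ⟨f, h1, h2⟩ => ⟨fun _ => f, fun _ => h1, fun e he x hx =>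
      (List.mem_pair.mp he).elim (· ▸ (h2 x hx).1) (· ▸ (h2 x hx).2)⟩⟩

theorem equiv : Equiv S1 S2 := fun _ _ _ => s1.trans (Iff.trans (exists_congr fun f =>
  and_congr_right fun _ => ⟨fun h x _ => ⟨h x trivial, h ![f fun _ => x 0, x 0] trivial⟩,
    fun h x _ => (h x trivial).1⟩) s2.symm)

theorem Clo.cmp {f u : (Fin 1 → A) → A} (hf : Clo B 1 f) (hu : Clo B 1 u) :
    Clo B 1 fun x => f fun _ => u x := by
  induction hf with
  | proj i => exact hu
  | comp h _ ih => exact .comp h ih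

theorem lg1 : LG S1 := ⟨1, le_rfl, fun A _ B _ h F => s1.mpr <| by
  classical
  induction F using Finset.induction_on with
  | empty => exact ⟨_, .proj 0, fun _ h => absurd h (Finset.notMem_empty _)⟩
  | insert a F _ ih =>
    obtain ⟨u, h1, h2⟩ := ih
    obtain ⟨f, h3, h4⟩ := s1.mp (h {![u fun _ => a (0 : Fin 2), u fun _ => a (1 : Fin 2)]} rfl)
    refine ⟨_, h3.cmp h1, fun x hx => ?_⟩
    rcases Finset.mem_insert.mp hx with rfl | hx
    · exact h4 _ (Finset.mem_singleton_self _)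
    · simp only [h2 x hx]⟩

inductive W : Type
  | b : ℕ → W
  | c : W → W
  | n : W → W → W
  | cons : W → W → W

def toL : W → List W
  | .cons a l => a :: toL l
  | _ => []

def ofL : List W → W
  | [] => .b 0
  | a :: l => .cons a (ofL l)

theorem toL_ofL (l : List W) : toL (ofL l) = l := by
  induction l <;> simp_all [toL, ofL]

theorem mem_size {x T : W} (h : x ∈ toL T) : sizeOf x < sizeOf T := by
  induction T with
  | cons a l _ ih =>
    rcases List.mem_cons.mp h with rfl | h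
    · simp only [W.cons.sizeOf_spec]; omega
    · have := ih h
      simp only [W.cons.sizeOf_spec]; omega
  | _ => cases h

open Classical in
noncomputable def op (T : W) (x : W) : W := if x ∈ toL T ∨ x = .c T then .c T else .n T x

def BW (k : ℕ) (m : ℕ) : Set ((Fin m → W) → W) :=
  {f | ∃ T : W, (toL T).length ≤ k ∧ ∃ i, f = fun x => op T (x i)}

theorem op_size (T : W) (x : W) : sizeOf x < sizeOf (op T x) ∨ x = .c T ∧ op T x = x := by
  unfold op
  split_ifs with h
  · rcases h with h | rfl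
    · have := mem_size h
      exact .inl (by simp only [W.c.sizeOf_spec]; omega)
    · exact .inr ⟨rfl, rfl⟩
  · exact .inl (by simp only [W.n.sizeOf_spec]; omega)

theorem key {k : ℕ} {f : (Fin 1 → W) → W} (hf : Clo (BW k) 1 f) (z : W) :
    sizeOf z < sizeOf (f fun _ => z) ∨ (f fun _ => z) = z ∧ ((∀ x, (f fun _ => x) = x) ∨
      ∃ T : W, (toL T).length ≤ k ∧ z = .c T ∧ ∀ x, (x ∈ toL T ∨ x = .c T) ∨ ∃ y, (f fun _ => x) = .n T y) := by
  induction hf with
  | proj i => exact .inr ⟨rfl, .inl fun _ => rfl⟩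
  | @comp m _ g h _ ih =>
    obtain ⟨T, h1, i, rfl⟩ := h
    rcases ih i with h2 | ⟨h2, h3⟩
    · exact .inl ((op_size T (g i fun _ => z)).elim h2.trans fun h => by simpa only [h.2] using h2)
    · simp only [h2]
      refine (op_size T z).imp_right fun h => ⟨h.2, .inr ⟨T, h1, h.1, fun x => ?_⟩⟩
      rcases h3 with h3 | ⟨T', -, h3, h4⟩
      · exact (em _).imp_right fun h => ⟨x, by rw [h3, op, if_neg h]⟩
      · obtain rfl : T = T' := W.c.inj (h.1.symm.trans h3)
        refine (h4 x).imp_right fun ⟨y, hy⟩ => ⟨.n T y, hy ▸ if_neg ?_⟩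
        rw [hy]
        rintro (h5 | h5)
        · have := mem_size h5
          simp only [W.n.sizeOf_spec] at this
          omega
        · cases h5

theorem loc {k : ℕ} (F : Finset (Fin S2.n → W)) (hF : F.card = k) :
    SatOn S2 (BW (k + k)) F := by
  refine s2.mpr ?_
  let L := F.toList.map (· (0 : Fin 2)) ++ F.toList.map (· (1 : Fin 2))
  let T := ofL L
  have h1 : ∀ x ∈ L, op T x = .c T := fun x hx => if_pos (.inl ((toL_ofL L).symm ▸ hx))
  refine ⟨fun x => op T (x 0), .comp (m := 1) (f := fun x => op T (x 0)) (g := fun _ x => x 0)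
    ⟨T, by simp [T, L, toL_ofL, hF], 0, rfl⟩ fun _ => .proj 0, fun x hx => ?_⟩
  have h2 := h1 _ (List.mem_append_left _ (List.mem_map_of_mem (Finset.mem_toList.mpr hx)))
  have h3 := h1 _ (List.mem_append_right _ (List.mem_map_of_mem (Finset.mem_toList.mpr hx)))
  exact ⟨h2.trans h3.symm, (congrArg (op T) h2).trans ((if_pos (.inr rfl)).trans h2.symm)⟩

theorem nlg2 : ¬ LG S2 := fun ⟨k, _, h⟩ => by
  classical
  have : Infinite W := .of_injective W.b fun _ _ => W.b.inj
  obtain ⟨f, h1, h2⟩ := s2.mp (h W (BW (k + k)) ((Cardinal.nat_lt_aleph0 k).le.trans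
    ((Cardinal.aleph0_le_mk W).trans (le_self_pow₀ (Cardinal.one_le_aleph0.trans
      (Cardinal.aleph0_le_mk W)) two_ne_zero))) loc
        ((Finset.range (k + k + 1)).image fun i => ![W.b (k + k + 1), W.b i]))
  · have h3 : ∀ i < k + k + 1, (f (fun _ => .b (k + k + 1)) = f fun _ => .b i) ∧
        f (fun _ => f fun _ => .b (k + k + 1)) = f fun _ => .b (k + k + 1) := fun i hi =>
      h2 _ (Finset.mem_image_of_mem _ (Finset.mem_range.mpr hi))
    rcases key h1 (f fun _ => .b (k + k + 1)) with h4 | ⟨-, h4 | ⟨T, h4, h5, h6⟩⟩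
    · exact h4.ne' (by rw [(h3 0 (by omega)).2])
    · simpa [h4] using (h3 0 (by omega)).1
    · have := Finset.card_le_card_of_injOn (s := Finset.range (k + k + 1)) (t := (toL T).toFinset) W.b
        (fun i hi => by
          rcases h6 (.b i) with (h7 | h7) | ⟨y, h7⟩
          · simpa using h7
          · cases h7
          · cases h5.symm.trans ((h3 i (Finset.mem_range.mp hi)).1.trans h7)) fun _ _ _ _ => W.b.inj
      have := (toL T).toFinset_card_le
      simp only [Finset.card_range] at *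
      omega

theorem cons : SatOn S2 (fun _ => (univ : Set (_ → Bool))) univ := s2.mpr ⟨fun _ => true,
  .comp (m := 0) (f := fun _ => true) (g := fun _ _ => true) trivial fun i => i.elim0,
    fun _ _ => ⟨rfl, rfl⟩⟩

end Pool.Agent.H31.LG
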