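import Mathlib

namespace Pool.Agent.H31.LG

/-- term operations of the algebra on `A` whose basic operations are those in `B` -/
inductive Clo {A : Type} (B : ∀ m : ℕ, Set ((Fin m → A) → A)) (n : ℕ) : ((Fin n → A) → A) → Prop
  | proj (i : Fin n) : Clo B n fun x => x i
  | comp {m : ℕ} {f : (Fin m → A) → A} {g : Fin m → (Fin n → A) → A} :
      f ∈ B m → (∀ i, Clo B n (g i)) → Clo B n fun x => f fun i => g i x

inductive Tm {m : ℕ} (ar : Fin m → ℕ) (n : ℕ) : Type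
  | var : Fin n → Tm ar n
  | app (j : Fin m) : (Fin (ar j) → Tm ar n) → Tm ar n

def Tm.ev {m n : ℕ} {ar : Fin m → ℕ} {A : Type} (I : ∀ j, (Fin (ar j) → A) → A) (x : Fin n → A) :
    Tm ar n → A
  | .var i => x i
  | .app j t => I j fun i => (t i).ev I x

/-- a strong Maltsev condition: `m` symbols, `n` variables, finitely many identities -/
structure Cond : Type where
  m : ℕ
  ar : Fin m → ℕ
  n : ℕ
  ids : List (Tm ar n × Tm ar n)

def SatOn (S : Cond) {A : Type} (B : ∀ m : ℕ, Set ((Fin m → A) → A)) (F : Set (Fin S.n → A)) :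
    Prop :=
  ∃ I : ∀ j, (Fin (S.ar j) → A) → A, (∀ j, Clo B (S.ar j) (I j)) ∧
    ∀ e ∈ S.ids, ∀ x ∈ F, e.1.ev I x = e.2.ev I x

def KLG (S : Cond) (k : ℕ) : Prop :=
  ∀ (A : Type) [Nonempty A] (B : ∀ m : ℕ, Set ((Fin m → A) → A)),
    (k : Cardinal) ≤ Cardinal.mk A ^ S.n →
    (∀ F : Finset (Fin S.n → A), F.card = k → SatOn S B F) → ∀ F : Finset (Fin S.n → A), SatOn S B F

def LG (S : Cond) : Prop := ∃ k, 1 ≤ k ∧ KLG S k

def Equiv (S T : Cond) : Prop :=
  ∀ (A : Type) [Nonempty A] (B : ∀ m : ℕ, Set ((Fin m → A) → A)),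
    SatOn S B Set.univ ↔ SatOn T B Set.univ

end Pool.Agent.H31.LG
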