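import Pool.Agent.H31.LHDefs

namespace Pool.Agent.H31.LG

open Set

def mn (j : Fin 2) (σ : Fin 3 → Fin 2) : Tm (fun _ : Fin 2 => 3) 2 := .app j fun i => .var (σ i)

def HM : Cond := ⟨2, fun _ => 3, 2, [(mn 0 ![0, 1, 1], mn 0 ![0, 0, 0]),
  (mn 0 ![0, 0, 1], mn 1 ![0, 1, 1]), (mn 1 ![0, 0, 1], mn 1 ![1, 1, 1])]⟩

theorem hm1 : Height1 HM := by
  rintro e (_ | ⟨_, _ | ⟨_, _ | ⟨_, ⟨⟩⟩⟩⟩) <;> exact ⟨⟨_, _, rfl⟩, _, _, rfl⟩

variable {A : Type} {B : ∀ m : ℕ, Set ((Fin m → A) → A)}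

def C3 (B : ∀ m : ℕ, Set ((Fin m → A) → A)) (p : A → A → A → A) : Prop :=
  Clo B 3 fun x => p (x 0) (x 1) (x 2)

theorem ev_mn (I : ∀ j : Fin 2, (Fin 3 → A) → A) (x : Fin 2 → A) (j : Fin 2) (a b c : Fin 2) :
    (mn j ![a, b, c]).ev I x = I j ![x a, x b, x c] :=
  congrArg (I j) (funext fun i => by fin_cases i <;> rfl)

theorem sat {F : Set (Fin 2 → A)} : SatOn HM B F ↔ ∃ p q, C3 B p ∧ C3 B q ∧ ∀ x ∈ F,
    p (x 0) (x 1) (x 1) = p (x 0) (x 0) (x 0) ∧ p (x 0) (x 0) (x 1) = q (x 0) (x 1) (x 1) ∧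
      q (x 0) (x 0) (x 1) = q (x 1) (x 1) (x 1) := by
  have h0 : ∀ x : Fin 3 → A, ![x 0, x 1, x 2] = x := fun x => funext fun i => by fin_cases i <;> rfl
  refine ⟨fun ⟨I, h1, h2⟩ => ⟨fun a b c => I (0 : Fin 2) ![a, b, c], fun a b c => I (1 : Fin 2) ![a, b, c],
    by simp only [C3, h0]; exact h1 _, by simp only [C3, h0]; exact h1 _, fun x hx => ?_⟩,
      fun ⟨p, q, h1, h2, h3⟩ => ⟨![fun x : Fin 3 → A => p (x 0) (x 1) (x 2),
        fun x : Fin 3 → A => q (x 0) (x 1) (x 2)],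
        fun j => by fin_cases j; exacts [h1, h2], ?_⟩⟩
  · simp only [← ev_mn]
    exact ⟨h2 _ (.head _) x hx, h2 _ (.tail _ (.head _)) x hx, h2 _ (.tail _ (.tail _ (.head _))) x hx⟩
  · rintro e (_ | ⟨_, _ | ⟨_, _ | ⟨_, ⟨⟩⟩⟩⟩) x hx
    exacts [(h3 x hx).1, (h3 x hx).2.1, (h3 x hx).2.2]

theorem Clo.sub {n l : ℕ} {f : (Fin n → A) → A} {g : Fin n → (Fin l → A) → A} (hf : Clo B n f)
    (hg : ∀ i, Clo B l (g i)) : Clo B l fun x => f fun i => g i x := by
  induction hf with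
  | proj i => exact hg i
  | comp h _ ih => exact .comp h ih

theorem C3.c {p r s t : A → A → A → A} (hp : C3 B p) (hr : C3 B r) (hs : C3 B s) (ht : C3 B t) :
    C3 B fun x y z => p (r x y z) (s x y z) (t x y z) :=
  Clo.sub (g := ![fun x => r (x 0) (x 1) (x 2), fun x => s (x 0) (x 1) (x 2),
    fun x => t (x 0) (x 1) (x 2)]) hp fun i => by fin_cases i; exacts [hr, hs, ht]

theorem cx : C3 B fun x _ _ => x := .proj 0
theorem cy : C3 B fun _ y _ => y := .proj 1
theorem cz : C3 B fun _ _ z => z := .proj 2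

theorem C3.i (hB : Idem B) {p : A → A → A → A} (hp : C3 B p) (x : A) : p x x x = x := by
  suffices ∀ f, Clo B 3 f → f (fun _ => x) = x from this _ hp
  intro f hf
  induction hf with
  | proj i => rfl
  | comp h _ ih => simp only [ih, hB _ _ h x]

def P (B : ∀ m : ℕ, Set ((Fin m → A) → A)) (E F G : List (A × A)) : Prop :=
  ∃ p q, C3 B p ∧ C3 B q ∧ (∀ e ∈ E, p e.1 e.2 e.2 = e.1) ∧ (∀ e ∈ F, p e.1 e.1 e.2 = q e.1 e.2 e.2) ∧
    ∀ e ∈ G, q e.1 e.1 e.2 = e.2

theorem P3 (hB : Idem B) (h : ∀ a b c, P B [a] [b] [c]) (E F G : List (A × A)) : P B E F G := by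
  have h1 : ∀ E b c, P B E [b] [c] := fun E b c => by
    induction E with
    | nil => exact ⟨_, _, cz, cz, by simp⟩
    | cons a E ih =>
      obtain ⟨p, q, a1, a2, a3, a4, a5⟩ := ih
      obtain ⟨r, s, b1, b2, b3, b4, b5⟩ := h (a.1, p a.1 a.2 a.2) (b.1, p b.1 b.1 b.2) c
      refine ⟨_, _, b1.c cx (a1.c cx cy cy) a1, b2.c cx (a2.c cx cy cy) a2, ?_⟩
      simp_all [a1.i hB, a2.i hB, b1.i hB]
  have h2 : ∀ G b, P B E [b] G := fun G b => by
    induction G with
    | nil => exact ⟨_, _, cx, cx, by simp⟩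
    | cons a G ih =>
      obtain ⟨p, q, a1, a2, a3, a4, a5⟩ := ih
      obtain ⟨r, s, b1, b2, b3, b4, b5⟩ := h1 E (p b.1 b.1 b.2, b.2) (q a.1 a.1 a.2, a.2)
      refine ⟨_, _, b1.c a1 (a1.c cy cy cz) cz, b2.c a2 (a2.c cy cy cz) cz, fun e he => ?_, ?_⟩
      · simp only [a3 e he, a1.i hB, b3 e he]
      · simp_all [a1.i hB, a2.i hB, b2.i hB]
  induction F with
  | nil => exact ⟨_, _, cx, cz, by simp⟩
  | cons a F ih =>
    obtain ⟨p, q, a1, a2, a3, a4, a5⟩ := ih
    obtain ⟨r, s, b1, b2, b3, b4, b5⟩ := h2 G (p a.1 a.1 a.2, q a.1 a.2 a.2)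
    refine ⟨_, _, b1.c a1 (a1.c cy cy cz) (a2.c cy cz cz), b2.c (a1.c cx cx cy) (a2.c cx cy cy) a2,
      fun e he => ?_, fun e he => ?_, fun e he => ?_⟩
    · simp only [a3 e he, a1.i hB, a2.i hB, b3 e he]
    · rcases List.mem_cons.mp he with rfl | he
      · exact b4 _ (.head _)
      · simp only [a4 e he, b1.i hB, b2.i hB]
    · simp only [a5 e he, a1.i hB, a2.i hB, b5 e he]

theorem lgi : LGI HM := ⟨3, by omega, fun A _ B hB hk h F => by
  classical
  obtain ⟨p, q, h1, h2, h3, h4, h5⟩ := P3 hB (fun a b c => by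
    obtain ⟨t, ht⟩ := Cardinal.exists_finset_le_card (Fin 2 → A) 3 (by
      simpa [HM, ← Cardinal.power_natCast] using hk)
    obtain ⟨u, h1, -, h2⟩ := Finset.exists_subsuperset_card_eq (Finset.subset_union_left
      (s₁ := {![a.1, a.2], ![b.1, b.2], ![c.1, c.2]}) (s₂ := t)) Finset.card_le_three
        (ht.trans (Finset.card_le_card Finset.subset_union_right))
    obtain ⟨p, q, h3, h4, h5⟩ := sat.mp (h u h2)
    refine ⟨p, q, h3, h4, ?_⟩
    simp only [List.mem_singleton, forall_eq]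
    exact ⟨(h5 ![a.1, a.2] (h1 (by simp))).1.trans (h3.i hB _), (h5 ![b.1, b.2] (h1 (by simp))).2.1,
      (h5 ![c.1, c.2] (h1 (by simp))).2.2.trans (h4.i hB _)⟩)
    (F.toList.map fun x => (x (0 : Fin 2), x (1 : Fin 2))) (F.toList.map fun x => (x (0 : Fin 2), x (1 : Fin 2)))
    (F.toList.map fun x => (x (0 : Fin 2), x (1 : Fin 2)))
  refine sat.mpr ⟨p, q, h1, h2, fun x hx => ?_⟩
  have := List.mem_map_of_mem (f := fun x => (x (0 : Fin 2), x (1 : Fin 2))) (Finset.mem_toList.mpr hx)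
  exact ⟨(h3 _ this).trans (h1.i hB _).symm, h4 _ this, (h5 _ this).trans (h2.i hB _).symm⟩⟩

inductive V : Type
  | b : ℕ → V
  | n : V → Option Bool → V → V → V
  | cons : V → V → V

def tL : V → List V
  | .cons a l => a :: tL l
  | _ => []

def oL : List V → V
  | [] => .b 0
  | a :: l => .cons a (oL l)

theorem tL_oL (l : List V) : tL (oL l) = l := by
  induction l <;> simp_all [tL, oL]

open Classical in
noncomputable def oq (S : V) (t : Bool) (x y z : V) : V :=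
  if x ∈ tL S ∧ z ∈ tL S ∧ (x = y ∨ y = z) then
    .n S none (if t ∧ x = y then z else x) (if ¬ t ∧ y = z then x else z)
  else .n S (some t) (if t then z else x) (if t then z else x)

def pr (t : Bool) : V → V
  | .n _ _ l r => if t then r else l
  | x => x

def rt : V → ℕ
  | .b i => i
  | .n _ _ l _ => rt l
  | _ => 0

def BV (k : ℕ) (m : ℕ) : Set ((Fin m → V) → V) :=
  {f | ∃ S : V, (tL S).length ≤ k ∧ ∃ t i j l, f = fun x => oq S t (x i) (x j) (x l)}

theorem pr_oq (S : V) (t : Bool) (x y z : V) : pr t (oq S t x y z) = if t then z else x := by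
  unfold oq
  split_ifs <;> simp_all [pr]

theorem oq_ne (S : V) (t : Bool) (x y z : V) (i : ℕ) : oq S t x y z ≠ .b i := by
  unfold oq
  split_ifs <;> simp

theorem oq_eq {S S' : V} {t t' : Bool} {x y z x' y' z' : V}
    (h : oq S t x y z = oq S' t' x' y' z') : t = t' ∨ x ∈ tL S := by
  unfold oq at h
  by_cases h1 : x ∈ tL S ∧ z ∈ tL S ∧ (x = y ∨ y = z)
  · exact .inr h1.1
  · rw [if_neg h1] at h
    split_ifs at h <;> simp_all

theorem rt_clo {k : ℕ} {f : (Fin 3 → V) → V} (hf : Clo (BV k) 3 f) (a : V) :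
    rt (f fun _ => a) = rt a := by
  induction hf with
  | proj i => rfl
  | comp h _ ih =>
    obtain ⟨S, -, t, i, j, l, rfl⟩ := h
    simp only [oq]
    split_ifs <;> simp only [rt, ih]

theorem fail {k : ℕ} {f : (Fin 3 → V) → V} (hf : Clo (BV k) 3 f) : ∀ g, Clo (BV k) 3 g →
    ¬ ∀ a ≤ k + 1, ∀ c ≤ k + 1, f ![.b a, .b c, .b c] = f ![.b a, .b a, .b a] ∧
      f ![.b a, .b a, .b c] = g ![.b a, .b c, .b c] ∧ g ![.b a, .b a, .b c] = g ![.b c, .b c, .b c] := by
  induction hf with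
  | proj i =>
    intro g hg h
    have := h 0 (by omega) 1 (by omega)
    cases hg with
    | proj j => fin_cases i <;> fin_cases j <;> simp at this
    | comp h1 _ =>
      obtain ⟨S, -, t, _, _, _, rfl⟩ := h1
      fin_cases i <;> exact oq_ne _ _ _ _ _ _ this.2.1.symm
  | @comp m _ u h1 h2 ih =>
    intro g hg h
    obtain ⟨S, h3, t, i, j, l, rfl⟩ := h1
    cases hg with
    | proj j => fin_cases j <;> exact oq_ne _ _ _ _ _ _ (h 0 (by omega) 0 (by omega)).2.1
    | @comp _ _ v h4 h5 =>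
      obtain ⟨S', -, t', i', j', l', rfl⟩ := h4
      by_cases h6 : t = t'
      · subst h6
        refine ih (if t then l else i) _ (h5 (if t then l' else i')) fun a ha c hc => ?_
        have := (h a ha c hc).imp (congrArg (pr t)) (And.imp (congrArg (pr t)) (congrArg (pr t)))
        simp only [pr_oq] at this
        cases t <;> exact this
      classical
      have h7 : ∀ a : V, ![a, a, a] = fun _ => a := fun a => funext fun i => by fin_cases i <;> rfl
      have := Finset.card_le_card_of_injOn (s := Finset.range (k + 1)) (t := (tL S).toFinset)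
        (fun a => u i ![.b a, .b a, .b a]) (fun a ha => by
          have := Finset.mem_range.mp ha
          simpa using (oq_eq (h a (by omega) a (by omega)).2.1).resolve_left h6) fun a _ c _ h => by
            simpa only [h7, rt_clo (h2 i), rt] using congrArg rt h
      have := (tL S).toFinset_card_le
      simp only [Finset.card_range] at *
      omega

theorem locV {k : ℕ} (F : Finset (Fin HM.n → V)) (hF : F.card = k) : SatOn HM (BV (k + k)) F := by
  let T := F.toList.map (· (0 : Fin 2)) ++ F.toList.map (· (1 : Fin 2))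
  have h0 : ∀ t, C3 (BV (k + k)) (oq (oL T) t) := fun t => .comp (m := 3)
    (f := fun x => oq (oL T) t (x 0) (x 1) (x 2)) (g := fun i x => x i)
      ⟨oL T, by simp [T, tL_oL, hF], t, 0, 1, 2, rfl⟩ fun i => .proj i
  refine sat.mpr ⟨_, _, h0 false, h0 true, fun x hx => ?_⟩
  have h2 : x 0 ∈ T := List.mem_append_left _ (List.mem_map_of_mem (Finset.mem_toList.mpr hx))
  have h3 : x 1 ∈ T := List.mem_append_right _ (List.mem_map_of_mem (Finset.mem_toList.mpr hx))
  by_cases h : x 0 = x 1 <;> simp [oq, tL_oL, h, h2, h3]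

theorem nlg : ¬ LG HM := fun ⟨k, _, h⟩ => by
  classical
  have : Infinite V := .of_injective V.b fun _ _ => V.b.inj
  have : Nonempty V := ⟨.b 0⟩
  obtain ⟨p, q, h1, h2, h3⟩ := sat.mp (h V (BV (k + k)) ((Cardinal.nat_lt_aleph0 k).le.trans
    ((Cardinal.aleph0_le_mk V).trans (le_self_pow₀ (Cardinal.one_le_aleph0.trans
      (Cardinal.aleph0_le_mk V)) two_ne_zero))) locV
        ((Finset.range (k + k + 2) ×ˢ Finset.range (k + k + 2)).image fun i => ![V.b i.1, V.b i.2]))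
  exact fail h1 _ h2 fun a ha c hc => h3 ![.b a, .b c] (Finset.mem_image.mpr ⟨(a, c), by
    simp only [Finset.mem_product, Finset.mem_range]; omega, rfl⟩)

end Pool.Agent.H31.LG
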