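import Pool.Agent.H31.LGDefs

namespace Pool.Agent.H31.LG

/-- every side of every identity is a minor of one symbol -/
def Height1 (S : Cond) : Prop := ∀ e ∈ S.ids,
  (∃ j, ∃ σ : Fin (S.ar j) → Fin S.n, e.1 = .app j fun i => .var (σ i)) ∧
    ∃ j, ∃ σ : Fin (S.ar j) → Fin S.n, e.2 = .app j fun i => .var (σ i)

def Idem {A : Type} (B : ∀ m : ℕ, Set ((Fin m → A) → A)) : Prop :=
  ∀ m, ∀ f ∈ B m, ∀ x, f (fun _ => x) = x

def KLGI (S : Cond) (k : ℕ) : Prop :=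
  ∀ (A : Type) [Nonempty A] (B : ∀ m : ℕ, Set ((Fin m → A) → A)), Idem B →
    (k : Cardinal) ≤ Cardinal.mk A ^ S.n →
    (∀ F : Finset (Fin S.n → A), F.card = k → SatOn S B F) → ∀ F : Finset (Fin S.n → A), SatOn S B F

def LGI (S : Cond) : Prop := ∃ k, 1 ≤ k ∧ KLGI S k

end Pool.Agent.H31.LG
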