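import Pool.Agent.H31.LPDefs

namespace Pool.Agent.H31.LP

theorem main {K : Type} [Field K] (h2 : (2 : K) = 0) (t : K) (h0 : t ≠ 0) (h1 : t ≠ 1) :
    ∃ A B : Matrix (Fin 2) (Fin 2) K, Leonard A B ∧ Beta2 A B ∧
      ∀ x y z : Matrix (Fin 2) (Fin 2) K, x * y - y * x = 2 • x + 2 • y →
        y * z - z * y = 2 • y + 2 • z → z * x - x * z = 2 • z + 2 • x →
        A ∉ Submodule.span K {1, x, y, x * y} ∨ B ∉ Submodule.span K {1, y, z, y * z} := by
  have h3 : t + 1 ≠ 0 := fun h => h1 (by linear_combination h - h2)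
  have hm : ∀ x : Matrix (Fin 2) (Fin 2) K, 2 • x = 0 := fun x => by
    rw [← Nat.cast_smul_eq_nsmul K, Nat.cast_ofNat, h2, zero_smul]
  let P : (Matrix (Fin 2) (Fin 2) K)ˣ := ⟨!![t + 1, t; 1, 1], !![1, -t; -1, t + 1],
    by ext i j; fin_cases i <;> fin_cases j <;> simp [Matrix.mul_apply, Fin.sum_univ_two] <;> ring,
    by ext i j; fin_cases i <;> fin_cases j <;> simp [Matrix.mul_apply, Fin.sum_univ_two] <;> ring⟩
  refine ⟨!![t, t * (t + 1); 1, t + 1], !![0, 0; 0, 1], ⟨⟨1, ⟨fun i j h => by omega, fun i j h => ?_⟩,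
    fun i j h => ?_⟩, P, ⟨fun i j h => by omega, fun i j h => ?_⟩, fun i j h => ?_⟩,
    fun _ _ _ _ i j k l _ _ _ => by omega, fun x y z hxy hyz hzx => ?_⟩
  · fin_cases i <;> fin_cases j <;> simp_all
  · fin_cases i <;> fin_cases j <;> simp_all
  · show (!![1, -t; -1, t + 1] * !![0, 0; 0, 1] * !![t + 1, t; 1, 1] : Matrix _ _ K) i j ≠ 0
    fin_cases i <;> fin_cases j <;> simp_all
  · show (!![1, -t; -1, t + 1] * !![t, t * (t + 1); 1, t + 1] * !![t + 1, t; 1, 1] :
      Matrix _ _ K) i j = 0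
    fin_cases i <;> fin_cases j
    · exact (h rfl).elim
    · simp [Matrix.mul_apply, Fin.sum_univ_two]
    · simp [Matrix.mul_apply, Fin.sum_univ_two]
      linear_combination (t + 1) * h2
    · exact (h rfl).elim
  · by_contra! H
    rw [hm, hm, add_zero, sub_eq_zero] at hxy hyz hzx
    have c1 : Commute x y := hxy
    have c2 : Commute y z := hyz
    have c3 : Commute x z := hzx.symm
    have sp : ∀ (u v w : Matrix (Fin 2) (Fin 2) K), Commute w u → Commute w v →
        ∀ a ∈ Submodule.span K {1, u, v, u * v}, Commute w a := fun u v w a1 a2 a ha => by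
      induction ha using Submodule.span_induction with
      | mem a ha =>
        rcases ha with rfl | rfl | rfl | rfl
        exacts [.one_right _, a1, a2, a1.mul_right a2]
      | zero => exact .zero_right _
      | add _ _ _ _ p q => exact p.add_right q
      | smul c _ _ p => exact p.smul_right c
    have := sp x y _ (sp y z x c1 c3 _ H.2).symm (sp y z y (.refl _) c2 _ H.2).symm _ H.1
    have := congrFun (congrFun this.eq 1) 0
    simp [Matrix.mul_apply, Fin.sum_univ_two] at this

end Pool.Agent.H31.LP
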