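import Mathlib

namespace Pool.Agent.H31.LP

variable {K : Type} [Field K] {n : ℕ}

/-- irreducible tridiagonal matrices -/
def IrrTri (M : Matrix (Fin n) (Fin n) K) : Prop :=
  (∀ i j : Fin n, i.1 + 1 < j.1 ∨ j.1 + 1 < i.1 → M i j = 0) ∧
    ∀ i j : Fin n, i.1 + 1 = j.1 ∨ j.1 + 1 = i.1 → M i j ≠ 0

/-- in the basis of `Kⁿ` formed by the columns of `P`, `A` is irreducible tridiagonal and `B`
is diagonal -/
def Good (A B : Matrix (Fin n) (Fin n) K) (P : (Matrix (Fin n) (Fin n) K)ˣ) : Prop :=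
  IrrTri (P⁻¹.1 * A * P.1) ∧ (P⁻¹.1 * B * P.1).IsDiag

/-- Leonard pairs on `Kⁿ` -/
def Leonard (A B : Matrix (Fin n) (Fin n) K) : Prop := (∃ P, Good A B P) ∧ ∃ P, Good B A P

/-- the hypothesis `β = 2` on the eigenvalue sequence of `A` -/
def Beta2 (A B : Matrix (Fin n) (Fin n) K) : Prop :=
  ∀ P, Good B A P → ∀ D : Matrix (Fin n) (Fin n) K, D = P⁻¹.1 * A * P.1 →
    ∀ i j k l : Fin n, j.1 = i.1 + 1 → k.1 = i.1 + 2 → l.1 = i.1 + 3 →
      D i i - D l l = 3 * (D j j - D k k)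

/-- the Lie bracket relation `[x, y] = 2x + 2y` -/
def Eqt (x y : Matrix (Fin n) (Fin n) K) : Prop := x * y - y * x = 2 • x + 2 • y

/-- `A` is a linear combination of `I, x, y, xy` -/
def InSp (A x y : Matrix (Fin n) (Fin n) K) : Prop := A ∈ Submodule.span K {1, x, y, x * y}

end Pool.Agent.H31.LP
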