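import Pool.Agent.H31.LQDefs

namespace Pool.Agent.H31.LP

abbrev M2 := Matrix (Fin 2) (Fin 2) ℚ

theorem gd (A B P Q : M2) (h : P * Q = 1) (h' : Q * P = 1) (a : (Q * A * P) 0 1 ≠ 0)
    (b : (Q * A * P) 1 0 ≠ 0) (c : (Q * B * P) 0 1 = 0) (d : (Q * B * P) 1 0 = 0) :
    Good A B ⟨P, Q, h, h'⟩ := by
  refine ⟨⟨fun i j h => by omega, fun i j h => ?_⟩, fun i j h => ?_⟩
  · fin_cases i <;> fin_cases j
    exacts [by simp at h, a, b, by simp at h]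
  · fin_cases i <;> fin_cases j
    exacts [(h rfl).elim, c, d, (h rfl).elim]

theorem tri (A B C P Q : M2) (h : P * Q = 1 ∧ Q * P = 1 ∧ (Q * B * P) 0 1 ≠ 0 ∧
    (Q * B * P) 1 0 ≠ 0 ∧ (Q * C * P) 0 1 ≠ 0 ∧ (Q * C * P) 1 0 ≠ 0 ∧ (Q * A * P) 0 1 = 0 ∧
    (Q * A * P) 1 0 = 0) : Tri A B C :=
  ⟨_, gd _ _ P Q h.1 h.2.1 h.2.2.1 h.2.2.2.1 h.2.2.2.2.2.2.1 h.2.2.2.2.2.2.2,
    gd _ _ P Q h.1 h.2.1 h.2.2.2.2.1 h.2.2.2.2.2.1 h.2.2.2.2.2.2.1 h.2.2.2.2.2.2.2⟩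

def mA : M2 := !![0, 1; 0, 1]
def mB : M2 := !![1, 1; 2, 2]
def mC : M2 := !![1, -9; 2, -8]
def mX : M2 := !![1 / 2, 0; 0, 2]
def mY : M2 := !![2, 3 / 2; 0, 1 / 2]
def mZ : M2 := !![2, 0; -3 / 2, 1 / 2]

theorem trip : Triple mA mB mC :=
  ⟨tri _ _ _ !![1, 1; 0, 1] !![1, -1; 0, 1] (by decide +kernel),
    tri _ _ _ !![1, 1; -1, 2] !![2 / 3, -1 / 3; 1 / 3, 1 / 3] (by decide +kernel),
    tri _ _ _ !![3, 3; 1, 2] !![2 / 3, -1; -1 / 3, 1] (by decide +kernel)⟩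

theorem insp (A x y : M2) (a b c : ℚ) (h : A = a • 1 + b • x + c • y) : InSp A x y :=
  h ▸ add_mem (add_mem (Submodule.smul_mem _ _ (Submodule.subset_span (by simp)))
    (Submodule.smul_mem _ _ (Submodule.subset_span (by simp))))
    (Submodule.smul_mem _ _ (Submodule.subset_span (by simp)))

theorem nin : ¬InSp mC mZ mX := fun h => by
  have : ∀ a ∈ Submodule.span ℚ {1, mZ, mX, mZ * mX}, a 0 1 = 0 := fun a ha => by
    induction ha using Submodule.span_induction with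
    | mem a ha => rcases ha with rfl | rfl | rfl | rfl <;> decide +kernel
    | zero => rfl
    | add _ _ _ _ p q => simp [p, q]
    | smul c _ _ p => simp [p]
  exact absurd (this _ h) (by decide +kernel)

theorem irr3 : Irr3 mX mY mZ := fun W h => by
  have k : ∀ (M : M2) (a b c : ℚ), (∀ v ∈ W, (a • mX + b • mY + c • mZ + M).mulVec v ∈ W) ↔
      ∀ v ∈ W, M.mulVec v ∈ W := fun M a b c => forall₂_congr fun v hv => by
    rw [Matrix.add_mulVec, Matrix.add_mulVec, Matrix.add_mulVec, Matrix.smul_mulVec,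
      Matrix.smul_mulVec, Matrix.smul_mulVec]
    exact W.add_mem_iff_right (add_mem (add_mem (W.smul_mem _ (h v hv).1)
      (W.smul_mem _ (h v hv).2.1)) (W.smul_mem _ (h v hv).2.2))
  have all : ∀ M : M2, ∀ v ∈ W, M.mulVec v ∈ W := fun M => by
    have := (k ((M 0 0 - (2 / 3 * (M 1 1 - M 0 0) + M 0 1 * 2 / 3 - M 1 0 * 2 / 3) / 2 -
      M 0 1 * 4 / 3 + M 1 0 * 4 / 3) • 1) (2 / 3 * (M 1 1 - M 0 0) + M 0 1 * 2 / 3 - M 1 0 * 2 / 3)
      (M 0 1 * 2 / 3) (-M 1 0 * 2 / 3)).2 fun v hv => by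
        rw [Matrix.smul_mulVec, Matrix.one_mulVec]; exact W.smul_mem _ hv
    convert this using 4
    ext i j
    fin_cases i <;> fin_cases j <;> simp [mX, mY, mZ] <;> ring
  rw [or_iff_not_imp_left]
  intro h0
  obtain ⟨v, hv, h1⟩ := (Submodule.ne_bot_iff W).1 h0
  obtain ⟨i, hi⟩ := Function.ne_iff.1 h1
  refine eq_top_iff.2 fun w _ => ?_
  convert all (Matrix.of fun a b => if b = i then w a / v i else 0) v hv using 1
  ext a
  simp [Matrix.mulVec, dotProduct, div_mul_cancel₀ _ hi]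

theorem main2 : (∀ k : ℕ, 0 < k → (2 : ℚ) ^ k ≠ 1) ∧ IsUnit mX ∧ QRel 2 mX mY ∧ QRel 2 mY mZ ∧
    QRel 2 mZ mX ∧ Irr3 mX mY mZ ∧ InSp mA mX mY ∧ InSp mB mY mZ ∧ Triple mA mB mC ∧
    ¬InSp mC mZ mX ∧ ∀ D, Dag mA mB D → ¬InSp (D mC) mZ mX := by
  refine ⟨fun k hk => (one_lt_pow₀ (by norm_num) hk.ne').ne',
    ⟨⟨mX, !![2, 0; 0, 1 / 2], by decide +kernel, by decide +kernel⟩, rfl⟩,
    by unfold QRel; decide +kernel, by unfold QRel; decide +kernel, by unfold QRel; decide +kernel,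
    irr3, insp _ _ _ (-2) (4 / 3) (2 / 3) (by decide +kernel),
    insp _ _ _ (7 / 3) (2 / 3) (-4 / 3) (by decide +kernel), trip, nin, fun D h => ?_⟩
  have e : mC = (-10 : ℚ) • mA + mB := by decide +kernel
  rw [e, h.1.map_add, h.1.map_smul, h.2.2.1, h.2.2.2, ← e]
  exact nin

end Pool.Agent.H31.LP
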