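import Pool.Agent.H31.LPDefs

namespace Pool.Agent.H31.LP

variable {K : Type} [Field K] {n : ℕ}

/-- some basis makes `A` diagonal and `B`, `C` irreducible tridiagonal -/
def Tri (A B C : Matrix (Fin n) (Fin n) K) : Prop := ∃ P, Good B A P ∧ Good C A P

/-- Leonard triples on `Kⁿ` -/
def Triple (A B C : Matrix (Fin n) (Fin n) K) : Prop := Tri A B C ∧ Tri B C A ∧ Tri C A B

/-- the relation `(qXY - q⁻¹YX) / (q - q⁻¹) = 1` -/
def QRel (q : K) (X Y : Matrix (Fin n) (Fin n) K) : Prop :=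
  (q - q⁻¹)⁻¹ • (q • (X * Y) - q⁻¹ • (Y * X)) = 1

/-- only `0` and `Kⁿ` are invariant under `X`, `Y`, `Z` -/
def Irr3 (X Y Z : Matrix (Fin n) (Fin n) K) : Prop :=
  ∀ W : Submodule K (Fin n → K),
    (∀ v ∈ W, X.mulVec v ∈ W ∧ Y.mulVec v ∈ W ∧ Z.mulVec v ∈ W) → W = ⊥ ∨ W = ⊤

/-- `D` is a linear antihomomorphism fixing `A` and `B` -/
def Dag (A B : Matrix (Fin n) (Fin n) K) (D : Matrix (Fin n) (Fin n) K → Matrix (Fin n) (Fin n) K) :
    Prop := IsLinearMap K D ∧ (∀ M N, D (M * N) = D N * D M) ∧ D A = A ∧ D B = B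

end Pool.Agent.H31.LP
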