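import Pool.Agent.H31.MADefs

namespace Pool.Agent.H31.MA

open Set Filter Topology

universe u v

variable {X : Type u} [TopologicalSpace X]

def Val (x : X) (φ : X → ℝ) : Prop :=
  (∀ y, 0 ≤ φ y ∧ φ y ≤ 1) ∧ (∀ ε > 0, ∀ᶠ y in 𝓝 x, φ y < ε) ∧
    ∀ W ∈ 𝓝 x, ∃ ε > 0, ∀ y, φ y < ε → y ∈ W

structure MM (X : Type u) [TopologicalSpace X] where
  pt : X
  fn : X → ℝ
  val : Val pt fn

theorem Val.zero {x : X} {φ : X → ℝ} (h : Val x φ) {ε : ℝ} (hε : 0 < ε) : φ x < ε :=
  (h.2.1 ε hε).self_of_nhds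

noncomputable def MM.toLp (m : MM X) : lp (fun _ : X => ℝ) ⊤ := ⟨m.fn, memℓp_infty ⟨1, by
  rintro _ ⟨y, rfl⟩
  exact abs_le.mpr ⟨by linarith [(m.val.1 y).1], (m.val.1 y).2⟩⟩⟩

theorem MM.ext' [T0Space X] {m m' : MM X} (h : m.fn = m'.fn) : m = m' := by
  obtain ⟨x, φ, h1⟩ := m
  obtain ⟨x', φ', h2⟩ := m'
  obtain rfl : φ = φ' := h
  have h3 : ∀ {a b : X}, Val a φ → Val b φ → a ⤳ b := fun h1 h2 =>
    specializes_iff_pure.mpr fun W hW => by
      obtain ⟨ε, hε, h3⟩ := h2.2.2 W hW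
      exact h3 _ (h1.zero hε)
  obtain rfl : x = x' := ((h3 h1 h2).antisymm (h3 h2 h1)).eq
  rfl

variable [T0Space X]

noncomputable instance : MetricSpace (MM X) := MetricSpace.induced MM.toLp
  (fun _ _ h => MM.ext' (congrArg (fun l : lp (fun _ : X => ℝ) ⊤ => (l : X → ℝ)) h)) inferInstance

theorem le_dist (m m' : MM X) (y : X) : |m.fn y - m'.fn y| ≤ dist m m' :=
  (lp.norm_apply_le_norm ENNReal.top_ne_zero (m.toLp - m'.toLp) y).trans (dist_eq_norm _ _).ge

theorem dist_le {m m' : MM X} {c : ℝ} (h : ∀ y, |m.fn y - m'.fn y| ≤ c) : dist m m' ≤ c :=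
  (dist_eq_norm m.toLp m'.toLp).le.trans
    (lp.norm_le_of_forall_le ((abs_nonneg _).trans (h m.pt)) h)

theorem analog (e : X → X → ℝ) (h0 : ∀ x y, 0 ≤ e x y ∧ e x y ≤ 1) (h1 : ∀ x, e x x = 0)
    (h2 : ∀ x ε, IsOpen {y | e x y < ε})
    (h3 : ∀ x, ∀ W ∈ 𝓝 x, ∃ δ > 0, ∀ x' y, e x x' < δ → e x' y < δ → y ∈ W) (x₀ : X) :
    HasMetricAnalog.{u, v} X x₀ := by
  classical
  have h4 : ∀ x, ∀ ε > 0, ∀ᶠ y in 𝓝 x, e x y < ε := fun x ε hε =>
    (h2 x ε).mem_nhds (show e x x < ε by rwa [h1])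
  have h5 : ∀ x, ∀ W ∈ 𝓝 x, ∃ ε > 0, ∀ y, e x y < ε → y ∈ W := fun x W hW =>
    (h3 x W hW).imp fun δ h => ⟨h.1, fun y => h.2 x y (by rw [h1]; exact h.1)⟩
  refine ⟨MM X, inferInstance, ⟨x₀, e x₀, h0 x₀, h4 x₀, h5 x₀⟩, MM.pt, rfl,
    ⟨fun x => ⟨⟨x, e x, h0 x, h4 x, h5 x⟩, rfl⟩, continuous_iff_continuousAt.mpr fun m W hW => ?_,
      isOpenMap_iff_nhds_le.mpr fun m S hS => ?_⟩, fun A _ a₀ => ⟨fun f hf hf0 => ?_,
        fun f g hf hg hf0 hg0 hq => ?_⟩⟩
  · obtain ⟨ε, hε, h⟩ := m.val.2.2 W hW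
    rw [mem_map]
    filter_upwards [Metric.ball_mem_nhds m (half_pos hε)] with m' hm
    exact h _ (by linarith [m'.val.zero (half_pos hε), abs_le.mp (le_dist m' m m'.pt),
      Metric.mem_ball.mp hm])
  · obtain ⟨ε, hε, h⟩ := Metric.nhds_basis_closedBall.mem_iff.mp (mem_map.mp hS)
    filter_upwards [(m.val.2.1 ε hε).eventually_nhds] with x hx
    refine h (a := ⟨x, fun y => if m.fn y < ε then min ε (e x y) else m.fn y, fun y => ?_,
      fun δ hδ => ?_, fun W hW => ?_⟩) (dist_le fun y => ?_)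
    · dsimp only
      split_ifs
      · exact ⟨le_min hε.le (h0 x y).1, (min_le_right _ _).trans (h0 x y).2⟩
      · exact m.val.1 y
    · filter_upwards [hx, h4 x δ hδ] with y h6 h7
      rw [if_pos h6]
      exact (min_le_right _ _).trans_lt h7
    · obtain ⟨δ, hδ, h6⟩ := h5 x W hW
      refine ⟨min ε δ, lt_min hε hδ, fun y hy => h6 y ?_⟩
      dsimp only at hy
      split_ifs at hy with h7
      · rcases min_lt_iff.mp hy with h8 | h8
        · exact absurd (lt_min_iff.mp h8).1 (lt_irrefl _)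
        · exact (lt_min_iff.mp h8).2
      · exact absurd (lt_min_iff.mp hy).1 h7
    · dsimp only
      split_ifs with h6
      · exact abs_le.mpr ⟨by linarith [le_min hε.le (h0 x y).1], by
          linarith [min_le_left ε (e x y), (m.val.1 y).1]⟩
      · simpa using hε.le
  · have h6 : ∀ n : ℕ, ∃ δ > 0, ∀ a, dist a a₀ < δ → e x₀ (f a) < (1 / 2) ^ (n + 1) := fun n =>
      Metric.eventually_nhds_iff.mp (hf.continuousAt.eventually (p := fun y => e x₀ y < _)
        (by rw [hf0]; exact h4 x₀ _ (pow_pos one_half_pos _)))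
    choose δ hδ h6 using h6
    let k : A → ℝ := fun a => ∑' n, (1 / 2) ^ n * min 1 (dist a a₀ / δ n)
    have h7 : ∀ n a, 0 ≤ (1 / 2 : ℝ) ^ n * min 1 (dist a a₀ / δ n) := fun n a =>
      mul_nonneg (by positivity) (le_min zero_le_one (div_nonneg dist_nonneg (hδ n).le))
    have h8 : ∀ n a, ‖(1 / 2 : ℝ) ^ n * min 1 (dist a a₀ / δ n)‖ ≤ (1 / 2) ^ n := fun n a =>
      (Real.norm_of_nonneg (h7 n a)).le.trans (mul_le_of_le_one_right (by positivity)
        (min_le_left _ _))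
    have h9 : Continuous k := continuous_tsum (fun n => by fun_prop) summable_geometric_two h8
    have h10 : ∀ a, e x₀ (f a) ≤ k a := fun a => by
      rcases (h0 x₀ (f a)).1.eq_or_lt with h10 | h10
      · exact h10 ▸ tsum_nonneg fun n => h7 n a
      · obtain ⟨n, h11, h12⟩ := exists_nat_pow_near_of_lt_one h10 (h0 x₀ (f a)).2 one_half_pos
          one_half_lt_one
        refine h12.trans (le_trans ?_ ((Summable.of_norm_bounded summable_geometric_two
          fun n => h8 n a).le_tsum n fun m _ => h7 m a))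
        rw [min_eq_left ((one_le_div (hδ n)).mpr (not_lt.mp fun h13 => lt_asymm h11 (h6 n a h13))),
          mul_one]
    haveI : Nonempty A := ⟨a₀⟩
    let φ : A → X → ℝ := fun a y => ⨅ a', dist a a' + e (f a') y
    have h11 : ∀ a y a', φ a y ≤ dist a a' + e (f a') y := fun a y a' => ciInf_le ⟨0, by
      rintro _ ⟨b, rfl⟩; exact add_nonneg dist_nonneg (h0 _ _).1⟩ a'
    have h12 : ∀ a y, φ a y ≤ e (f a) y := fun a y => by simpa using h11 a y a
    have h13 : ∀ a b y, φ a y - φ b y ≤ dist a b := fun a b y => by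
      rw [sub_le_comm]
      exact le_ciInf fun c => by linarith [h11 a y c, dist_triangle a b c]
    let g : A → MM X := fun a => ⟨f a, fun y => max (φ a y) (e x₀ y - k a), fun y =>
      ⟨le_max_of_le_left (le_ciInf fun b => add_nonneg dist_nonneg (h0 _ _).1),
        max_le ((h12 a y).trans (h0 _ _).2) (by linarith [(h0 x₀ y).2, h10 a, (h0 x₀ (f a)).1])⟩,
      fun ε hε => by
        filter_upwards [h4 (f a) ε hε, (h2 x₀ (k a + ε)).mem_nhds
          (show e x₀ (f a) < k a + ε by linarith [h10 a])] with y h14 h15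
        exact max_lt ((h12 a y).trans_lt h14) (by linarith [show e x₀ y < k a + ε from h15]),
      fun W hW => by
        obtain ⟨η, hη, h14⟩ := h3 _ W hW
        obtain ⟨θ, hθ, h15⟩ := Metric.eventually_nhds_iff.mp
          (hf.continuousAt.eventually (h4 (f a) η hη))
        refine ⟨min η θ, lt_min hη hθ, fun y hy => ?_⟩
        obtain ⟨b, hb⟩ := exists_lt_of_ciInf_lt ((le_max_left _ _).trans_lt hy)
        exact h14 (f b) y (h15 (by linarith [min_le_right η θ, (h0 (f b) y).1, dist_comm a b]))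
          (by linarith [min_le_left η θ, dist_nonneg (x := a) (y := b)])⟩
    refine ⟨g, continuous_iff_continuousAt.mpr fun a => tendsto_iff_dist_tendsto_zero.mpr
      (squeeze_zero (g := fun b => max (dist b a) |k b - k a|) (fun _ => dist_nonneg) (fun b =>
        dist_le fun y => (abs_max_sub_max_le_max _ _ _ _).trans (max_le_max (abs_le.mpr
          ⟨by linarith [h13 a b y, dist_comm a b], h13 b a y⟩) ?_)) ?_), MM.ext' (funext fun y => ?_),
          rfl⟩
    · rw [sub_sub_sub_cancel_left, abs_sub_comm]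
    · simpa using (by fun_prop : Continuous fun b => max (dist b a) |k b - k a|).tendsto a
    · have h14 : k a₀ = 0 := by simp [k]
      show max (φ a₀ y) (e x₀ y - k a₀) = e x₀ y
      rw [h14, sub_zero, max_eq_right (hf0 ▸ h12 a₀ y)]
  · have h6 : ∀ a, (g a).pt = (f a).pt := fun a => (congrFun hq a).symm
    let F : A × unitInterval → MM X := fun z => ⟨(f z.1).pt,
      fun y => (1 - z.2) * (f z.1).fn y + z.2 * (g z.1).fn y, fun y => by
        have := z.2.2
        constructor <;> nlinarith [this.1, this.2, (f z.1).val.1 y, (g z.1).val.1 y],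
      fun ε hε => by
        filter_upwards [(f z.1).val.2.1 _ (half_pos hε), h6 z.1 ▸ (g z.1).val.2.1 _ (half_pos hε)]
          with y h7 h8
        nlinarith [z.2.2.1, z.2.2.2, (f z.1).val.1 y, (g z.1).val.1 y],
      fun W hW => by
        obtain ⟨η, hη, h7⟩ := (f z.1).val.2.2 W hW
        obtain ⟨θ, hθ, h8⟩ := (g z.1).val.2.2 W (h6 z.1 ▸ hW)
        refine ⟨min η θ, lt_min hη hθ, fun y hy => ?_⟩
        by_contra h9
        nlinarith [z.2.2.1, z.2.2.2, not_lt.mp fun h => h9 (h7 y h), not_lt.mp fun h => h9 (h8 y h),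
          min_le_left η θ, min_le_right η θ]⟩
    refine ⟨F, continuous_induced_rng.mpr ?_, fun a => MM.ext' (funext fun y => by simp [F]),
      fun a => MM.ext' (funext fun y => by simp [F]), fun s => MM.ext' (funext fun y => ?_),
      fun _ _ _ => rfl⟩
    · have h7 : Continuous fun a => (f a).toLp := continuous_induced_dom.comp hf
      have h8 : Continuous fun a => (g a).toLp := continuous_induced_dom.comp hg
      exact (by fun_prop : Continuous fun z : A × unitInterval =>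
        (1 - z.2 : ℝ) • (f z.1).toLp + (z.2 : ℝ) • (g z.1).toLp)
    · simp only [F, hf0, hg0]
      ring

theorem analog_g (g : ℕ → X → Set X) (h1 : ∀ n x, IsOpen (g n x)) (h2 : ∀ n x, x ∈ g n x)
    (h3 : ∀ x, Antitone fun n => g n x)
    (h4 : ∀ x, ∀ W ∈ 𝓝 x, ∃ n, ∀ x' ∈ g n x, g n x' ⊆ W) (x₀ : X) :
    HasMetricAnalog.{u, v} X x₀ := by
  classical
  let c : X → X → ℕ → ℝ := fun x y n => if y ∈ g n x then 1 / ((n : ℝ) + 1) else 1
  have h5 : ∀ x y n, 0 ≤ c x y n := fun x y n => by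
    simp only [c]; split_ifs <;> positivity
  have h6 : ∀ x y n, ⨅ n, c x y n ≤ c x y n := fun x y n =>
    ciInf_le ⟨0, by rintro _ ⟨m, rfl⟩; exact h5 x y m⟩ n
  have h7 : ∀ x y ε, ⨅ n, c x y n < ε ↔ ∃ n, c x y n < ε := fun x y ε =>
    ⟨exists_lt_of_ciInf_lt, fun ⟨n, hn⟩ => (h6 x y n).trans_lt hn⟩
  have h8 : ∀ x y (n : ℕ), ⨅ n, c x y n < 1 / ((n : ℝ) + 1) → y ∈ g n x := fun x y n h => by
    obtain ⟨m, hm⟩ := (h7 _ _ _).mp h
    simp only [c] at hm
    split_ifs at hm with h8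
    · exact h3 x (not_lt.mp fun h9 => hm.not_ge (Nat.one_div_le_one_div h9.le)) h8
    · exact absurd hm (not_lt.mpr (by simpa using Nat.one_div_le_one_div (α := ℝ) (Nat.zero_le n)))
  refine analog (fun x y => ⨅ n, c x y n) (fun x y => ⟨le_ciInf (h5 x y), (h6 x y 0).trans ?_⟩)
    (fun x => le_antisymm (le_of_forall_pos_le_add fun ε hε => ?_) (le_ciInf (h5 x x)))
    (fun x ε => ?_) (fun x W hW => ?_) x₀
  · simp [c]
  · obtain ⟨n, hn⟩ := exists_nat_one_div_lt hε
    exact (h6 x x n).trans (by simp only [c, if_pos (h2 n x)]; linarith)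
  · refine isOpen_iff_mem_nhds.mpr fun y hy => ?_
    obtain ⟨n, hn⟩ := (h7 _ _ _).mp hy
    by_cases h9 : y ∈ g n x
    · filter_upwards [(h1 n x).mem_nhds h9] with z hz
      exact (h7 _ _ _).mpr ⟨n, by simpa only [c, if_pos h9, if_pos hz] using hn⟩
    · refine Eventually.of_forall fun z => (h7 _ _ _).mpr ⟨0, ?_⟩
      simpa [c, h9] using hn
  · obtain ⟨n, hn⟩ := h4 x W hW
    exact ⟨_, Nat.one_div_pos_of_nat, fun x' y h9 h10 => hn x' (h8 _ _ n h9) (h8 _ _ n h10)⟩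

theorem ball_nhds {d : X → X → ℝ} (h2 : ∀ x y z, d x z ≤ d x y + d y z)
    (h3 : TopologicalSpace.IsTopologicalBasis {B : Set X | ∃ x, ∃ r > 0, B = {y | d x y < r}})
    {x : X} {W : Set X} (hW : W ∈ 𝓝 x) : ∃ ε > 0, ∀ y, d x y < ε → y ∈ W := by
  obtain ⟨_, ⟨z, r, -, rfl⟩, h4, h5⟩ := h3.mem_nhds_iff.mp hW
  exact ⟨r - d z x, sub_pos.mpr h4, fun y hy => h5 (show d z y < r by linarith [h2 z x y])⟩

theorem analog_q (h : Quasimetrizable X) (x₀ : X) : HasMetricAnalog.{u, v} X x₀ := by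
  obtain ⟨d, -, h1, h2, h3⟩ := h
  refine analog_g (fun n x => {y | d x y < 1 / ((n : ℝ) + 1)}) (fun n x =>
    h3.isOpen ⟨x, _, Nat.one_div_pos_of_nat, rfl⟩) (fun n x => by
      show d x x < _
      rw [h1]; exact Nat.one_div_pos_of_nat) (fun x a b hab y hy =>
    (lt_of_lt_of_le hy (Nat.one_div_le_one_div hab) : d x y < _)) (fun x W hW => ?_) x₀
  obtain ⟨ε, hε, h4⟩ := ball_nhds h2 h3 hW
  obtain ⟨n, hn⟩ := exists_nat_one_div_lt (half_pos hε)
  exact ⟨n, fun x' h5 y h6 => h4 y (by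
    linarith [h2 x x' y, show d x x' < _ from h5, show d x' y < _ from h6])⟩

end Pool.Agent.H31.MA
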