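import Pool.Agent.H31.MA1

namespace Pool.Agent.H31.MA

open Set Filter Topology Function

universe v

def lg (A : Set (ℕ → ℕ)) : Prop := ∀ f : ℕ → ℕ, ∃ p ∈ A, ∃ᶠ q in atTop, f q < p q

theorem lg_union {A : Set (ℕ → ℕ)} {S : ℕ → Set (ℕ → ℕ)} (h : lg A) (hS : A ⊆ ⋃ n, S n) :
    ∃ n, lg (S n) := by
  by_contra hcon
  simp only [lg, not_exists, not_forall, not_and, not_frequently, not_lt] at hcon
  choose f hf using hcon
  obtain ⟨p, hp, h1⟩ := h fun q => (Finset.range (q + 1)).sup fun n => f n q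
  obtain ⟨n, hn⟩ := mem_iUnion.mp (hS hp)
  obtain ⟨q, h2, h3, h4⟩ := (h1.and_eventually ((hf n p hn).and (eventually_ge_atTop n))).exists
  exact absurd (h3.trans (Finset.le_sup (f := fun n => f n q)
    (Finset.mem_range.mpr (Nat.lt_succ_of_le h4)))) (not_le.mpr h2)

theorem lg_unb {A : Set (ℕ → ℕ)} (h : lg A) (b : ℕ) : ∃ c, b < c ∧ ∀ m, ∃ p ∈ A, m ≤ p c := by
  by_contra hcon
  push Not at hcon
  choose! f hf using hcon
  obtain ⟨p, hp, h1⟩ := h f
  obtain ⟨q, h2, h3⟩ := (h1.and_eventually (eventually_gt_atTop b)).exists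
  exact lt_asymm h2 (hf q h3 p hp)

def Lg : ℕ → Set (ℕ → ℕ → ℕ) → Prop
  | 0, T => 0 ∈ T
  | k + 1, T => Lg k {t | lg {p | update t k p ∈ T}}

theorem Lg_union : ∀ (k : ℕ) {T : Set (ℕ → ℕ → ℕ)} {S : ℕ → Set (ℕ → ℕ → ℕ)}, Lg k T →
    T ⊆ ⋃ n, S n → ∃ n, Lg k (S n)
  | 0, _, _, h, hS => mem_iUnion.mp (hS h)
  | k + 1, _, S, h, hS => Lg_union k (S := fun n => {t | lg {p | update t k p ∈ S n}}) h
      fun _ ht => mem_iUnion.mpr (lg_union ht fun _ hp => mem_iUnion.mpr (mem_iUnion.mp (hS hp) :))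

theorem Lg_univ : ∀ k, Lg k univ
  | 0 => trivial
  | k + 1 => by
    have h : {t : ℕ → ℕ → ℕ | lg {p | update t k p ∈ univ}} = univ := eq_univ_of_forall fun _ f =>
      ⟨fun q => f q + 1, trivial, Frequently.of_forall fun _ => Nat.lt_succ_self _⟩
    rw [Lg, h]
    exact Lg_univ k

abbrev YY : Type := ℕ → ℕ ⊕ (ℕ → ℕ)

def ch (i : ℕ) (p : ℕ → ℕ → ℕ) (q : ℕ → ℕ) : YY := fun l => if l < i then .inr (p l) else .inl (q l)

theorem chain (s : YY → ℕ) : ∀ (k : ℕ) (q₀ : ℕ → ℕ) (T : Set (ℕ → ℕ → ℕ)), Lg k T → ∀ b : ℕ,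
    ∃ (q : ℕ → ℕ) (p : ℕ → ℕ → ℕ), (∀ l, k ≤ l → q l = q₀ l) ∧ p ∈ T ∧ ∀ i < k,
      s (ch i p q) ≤ p i (q i) ∧ b < q i ∧ ∀ l, i < l → l < k → p l (q l) < q i
  | 0, q₀, _, h, _ => ⟨q₀, 0, fun _ _ => rfl, h, fun _ h => absurd h (Nat.not_lt_zero _)⟩
  | k + 1, q₀, T, h, b => by
    obtain ⟨n, hn⟩ := Lg_union k (S := fun n => {t | b < n.unpair.1 ∧ ∃ π, update t k π ∈ T ∧
      s (ch k t (update q₀ k n.unpair.1)) ≤ π n.unpair.1 ∧ π n.unpair.1 = n.unpair.2}) h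
      fun t ht => by
        obtain ⟨c, h1, h2⟩ := lg_unb ht b
        obtain ⟨π, h3, h4⟩ := h2 (s (ch k t (update q₀ k c)))
        exact mem_iUnion.mpr ⟨c.pair (π c), by simpa using ⟨h1, π, h3, h4, rfl⟩⟩
    obtain ⟨q, t, h1, ⟨h2, π, h3, h4, h5⟩, h6⟩ := chain s k (update q₀ k n.unpair.1) _ hn
      (max b n.unpair.2)
    have h7 : q k = n.unpair.1 := by rw [h1 k le_rfl, update_self]
    have h8 : ∀ i ≤ k, ch i (update t k π) q = ch i t q := fun i hi => funext fun l => by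
      simp only [ch]
      split_ifs with h8
      · rw [update_of_ne (by omega)]
      · rfl
    refine ⟨q, update t k π, fun l hl => by rw [h1 l (by omega), update_of_ne (by omega)], h3,
      fun i hi => ?_⟩
    rcases (Nat.lt_succ_iff.mp hi).eq_or_lt with rfl | h9
    · refine ⟨?_, h7 ▸ h2, fun l h9 h10 => by omega⟩
      rw [h8 i le_rfl, update_self, h7]
      convert h4 using 2
      funext l
      simp only [ch]
      split_ifs with h9
      · rfl
      · rw [h1 l (not_lt.mp h9)]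
    · obtain ⟨h10, h11, h12⟩ := h6 i h9
      refine ⟨by rwa [h8 i h9.le, update_of_ne h9.ne], (le_max_left _ _).trans_lt h11,
        fun l h13 h14 => ?_⟩
      rcases (Nat.lt_succ_iff.mp h14).eq_or_lt with rfl | h15
      · rw [update_self, h7, h5]
        exact (le_max_right _ _).trans_lt h11
      · rw [update_of_ne h15.ne]
        exact h12 l h13 h15

def Bm (j m : ℕ) (x y : YY) : Prop :=
  ∀ i, y i = x i ∨ i ≤ j ∧ ∃ q p, x i = .inl q ∧ y i = .inr p ∧ m ≤ p q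

theorem Bm.mono {j m m' : ℕ} {x y : YY} (h : Bm j m x y) (hm : m' ≤ m) : Bm j m' x y := fun i =>
  (h i).imp_right fun ⟨h1, q, p, h2, h3, h4⟩ => ⟨h1, q, p, h2, h3, hm.trans h4⟩

theorem Bm.trans {j m : ℕ} {x y z : YY} (h : Bm j m x y) (h' : Bm j m y z) : Bm j m x z := by
  intro i
  rcases h' i with h1 | ⟨h1, q, p, h2, h3, h4⟩
  · rw [h1]; exact h i
  · rcases h i with h5 | ⟨-, q', p', -, h5, -⟩
    · exact Or.inr ⟨h1, q, p, h5 ▸ h2, h3, h4⟩
    · rw [h5] at h2; cases h2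

def Ht (j : ℕ) (x : YY) : ℕ := (Finset.range (j + 1)).sup fun i => (x i).elim id 0

inductive Pw (j : ℕ) (x : YY) : ℕ → YY → Prop
  | zero : Pw j x 0 x
  | succ {k y z} : Pw j x k y → Bm j (Ht j y) y z → Pw j x (k + 1) z

theorem Pw.bm {j k : ℕ} {x y : YY} (h : Pw j x k y) : Bm j 0 x y := by
  induction h with
  | zero => exact fun _ => Or.inl rfl
  | succ _ h ih => exact ih.trans (h.mono (Nat.zero_le _))

theorem key (j : ℕ) (s : YY → ℕ) : ∃ x : ℕ → YY, (∀ i ≤ j, Bm j (s (x i)) (x i) (x (i + 1))) ∧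
    ∀ k ≤ j, ¬Pw j (x 0) k (x (j + 1)) := by
  obtain ⟨q, p, -, -, h⟩ := chain s (j + 1) 0 _ (Lg_univ _) 0
  refine ⟨fun i => ch i p q, fun i hi l => ?_, fun k hk h1 => ?_⟩
  · rcases lt_trichotomy l i with h1 | rfl | h1
    · exact Or.inl (by simp only [ch, if_pos h1, if_pos (Nat.lt_succ_of_lt h1)])
    · exact Or.inr ⟨hi, q l, p l, by simp [ch], by simp [ch], (h l (by omega)).1⟩
    · exact Or.inl (by simp only [ch, if_neg h1.not_gt, if_neg (show ¬l < i + 1 by omega)])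
  have h2 : ∀ k w, Pw j (ch 0 p q) k w → Bm j 0 w (ch (j + 1) p q) →
      ((Finset.range (j + 1)).filter fun l => (w l).isRight).card ≤ k := by
    intro k w h2
    induction h2 with
    | zero => intro _; simp [ch]
    | @succ k y z h3 h4 ih =>
      intro h5
      refine Finset.card_le_card_sdiff_add_card.trans (le_trans (add_le_add
        (Finset.card_le_one.mpr fun a ha b hb => ?_) (ih ((h4.mono (Nat.zero_le _)).trans h5)))
        (by omega))
      have h6 : ∀ a ∈ ((Finset.range (j + 1)).filter fun l => (z l).isRight) \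
          ((Finset.range (j + 1)).filter fun l => (y l).isRight),
          a < j + 1 ∧ q a ≤ Ht j y ∧ Ht j y ≤ p a (q a) := by
        intro a ha
        simp only [Finset.mem_sdiff, Finset.mem_filter, Finset.mem_range, not_and] at ha
        obtain ⟨⟨h6, h7⟩, h8⟩ := ha
        rcases h4 a with h9 | ⟨-, q', p', h9, h10, h11⟩
        · exact absurd (h9 ▸ h7) (h8 h6)
        · obtain rfl : q' = q a := by
            rcases h3.bm a with h12 | ⟨-, _, _, -, h12, -⟩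
            · simpa [ch, h9] using h12
            · rw [h9] at h12; cases h12
          obtain rfl : p a = p' := by
            rcases h5 a with h12 | ⟨-, _, _, h12, -⟩
            · simpa [ch, h10, h6] using h12
            · rw [h10] at h12; cases h12
          exact ⟨h6, le_trans (by simp [h9]) (Finset.le_sup (f := fun i => (y i).elim id 0)
            (Finset.mem_range.mpr h6)), h11⟩
      obtain ⟨h7, h8, h9⟩ := h6 a ha
      obtain ⟨h10, h11, h12⟩ := h6 b hb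
      rcases lt_trichotomy a b with h13 | h13 | h13
      · have := (h a h7).2.2 b h13 h10; omega
      · exact h13
      · have := (h b h10).2.2 a h13 h7; omega
  have h3 := h2 k _ h1 fun _ => Or.inl rfl
  rw [Finset.filter_true_of_mem fun l hl => by simp [ch, Finset.mem_range.mp hl],
    Finset.card_range] at h3
  omega

inductive ZF
  | fin (j : ℕ) (x : YY)
  | inf (y : ℕ → YY)

def gg (n : ℕ) : ZF → Set ZF
  | .fin j x => {z | ∃ y, z = .fin j y ∧ Bm j (max n (Ht j x)) x y}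
  | .inf y => {z | z = .inf y ∨ ∃ j k x, z = .fin j x ∧ k + n ≤ j ∧ Pw j (y j) (k + 1) x}

theorem gg_anti (z : ZF) : Antitone fun n => gg n z := fun a b h => by
  cases z
  · exact fun _ ⟨y, h1, h2⟩ => ⟨y, h1, h2.mono (max_le_max_right _ h)⟩
  · exact fun _ h1 => h1.imp_right fun ⟨j, k, x, h2, h3, h4⟩ => ⟨j, k, x, h2, by omega, h4⟩

theorem gg_self (n : ℕ) : ∀ z, z ∈ gg n z
  | .fin _ x => ⟨x, rfl, fun _ => Or.inl rfl⟩
  | .inf _ => Or.inl rfl

instance : TopologicalSpace ZF where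
  IsOpen U := ∀ z ∈ U, ∃ n, gg n z ⊆ U
  isOpen_univ := fun _ _ => ⟨0, subset_univ _⟩
  isOpen_inter := fun _ _ h h' z hz => by
    obtain ⟨a, ha⟩ := h z hz.1
    obtain ⟨b, hb⟩ := h' z hz.2
    exact ⟨max a b, subset_inter ((gg_anti z (le_max_left _ _)).trans ha)
      ((gg_anti z (le_max_right _ _)).trans hb)⟩
  isOpen_sUnion := fun _ h z ⟨t, h1, h2⟩ => (h t h1 z h2).imp fun _ h3 =>
    h3.trans (subset_sUnion_of_mem h1)

theorem gg_open (n : ℕ) (z : ZF) : IsOpen (gg n z) := by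
  cases z
  · rintro _ ⟨y, rfl, h⟩
    exact ⟨_, fun _ ⟨w, h1, h2⟩ => ⟨w, h1, h.trans (h2.mono (le_max_left _ _))⟩⟩
  · rintro _ (rfl | ⟨j, k, x, rfl, h1, h2⟩)
    · exact ⟨n, subset_rfl⟩
    · cases h2 with
      | succ h2 h3 => exact ⟨_, fun _ ⟨w, h4, h5⟩ => Or.inr ⟨j, k, w, h4, h1,
          h2.succ (h3.trans (h5.mono (le_max_left _ _)))⟩⟩

theorem gg_nhds {z : ZF} {W : Set ZF} (h : W ∈ 𝓝 z) : ∃ n, gg n z ⊆ W := by
  obtain ⟨U, h1, h2, h3⟩ := mem_nhds_iff.mp h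
  exact (h2 z h3).imp fun _ h4 => h4.trans h1

instance : T1Space ZF := by
  refine t1Space_iff_exists_open.mpr fun z w h => ?_
  suffices h1 : ∃ n, w ∉ gg n z from h1.elim fun n hn => ⟨_, gg_open n z, gg_self n z, hn⟩
  rcases z with ⟨j, x⟩ | y
  · by_contra h1
    push Not at h1
    obtain ⟨y, rfl, -⟩ := h1 0
    obtain ⟨i, hi⟩ := Function.ne_iff.mp fun h2 : y = x => h (by rw [h2])
    obtain ⟨_, h2, h3⟩ := h1 (((y i).elim 0 id : ℕ → ℕ) ((x i).elim id 0) + 1)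
    obtain ⟨-, rfl⟩ := ZF.fin.inj h2
    obtain ⟨-, q, p, h4, h5, h6⟩ := (h3 i).resolve_left hi
    simp [h4, h5] at h6
  · rcases w with ⟨j, x⟩ | y'
    · refine ⟨j + 1, ?_⟩
      rintro (h1 | ⟨l, k, x', h1, h2, -⟩)
      · cases h1
      · have := (ZF.fin.inj h1).1; omega
    · refine ⟨0, ?_⟩
      rintro (h1 | ⟨l, k, x', h1, -⟩)
      · exact h h1.symm
      · cases h1

theorem analog_Z (z : ZF) : HasMetricAnalog.{0, v} ZF z := by
  refine analog_g gg gg_open gg_self gg_anti (fun x W hW => ?_) z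
  obtain ⟨n, hn⟩ := gg_nhds hW
  rcases x with ⟨j, x⟩ | y
  · refine ⟨max n (Ht j x), ?_⟩
    rintro _ ⟨y, rfl, h1⟩ _ ⟨w, rfl, h2⟩
    exact hn ⟨w, rfl, (h1.mono (le_max_left _ _)).trans (h2.mono (le_max_left _ _))⟩
  · refine ⟨n + 1, ?_⟩
    rintro _ (rfl | ⟨j, k, x, rfl, h1, h2⟩)
    · exact (gg_anti _ n.le_succ).trans hn
    · rintro _ ⟨w, rfl, h3⟩
      exact hn (Or.inr ⟨j, k + 1, w, rfl, by omega, h2.succ (h3.mono (le_max_right _ _))⟩)

theorem not_quasi : ¬Quasimetrizable ZF := by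
  rintro ⟨d, -, h1, h2, h3⟩
  have h4 : ∀ z, ∀ r > 0, ∃ n, ∀ w ∈ gg n z, d z w < r := fun z r hr =>
    gg_nhds ((h3.isOpen ⟨z, r, hr, rfl⟩).mem_nhds (show d z z < r by rwa [h1]))
  have h5 : ∀ j : ℕ, ∃ x y, d (.fin j x) (.fin j y) ≤ 1 / ((j : ℝ) + 1) ∧ ∀ k ≤ j, ¬Pw j x k y := by
    intro j
    choose s hs using fun x => h4 (.fin j x) (1 / ((j : ℝ) + 1) ^ 2) (by positivity)
    obtain ⟨x, h5, h6⟩ := key j fun x => max (s x) (Ht j x)
    have h7 : ∀ i ≤ j + 1, d (.fin j (x 0)) (.fin j (x i)) ≤ i * (1 / ((j : ℝ) + 1) ^ 2) := by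
      intro i
      induction i with
      | zero => simp [h1]
      | succ i ih =>
        intro hi
        have := hs _ _ ⟨_, rfl, h5 i (by omega)⟩
        push_cast
        linarith [ih (by omega), h2 (.fin j (x 0)) (.fin j (x i)) (.fin j (x (i + 1)))]
    refine ⟨_, _, (h7 _ le_rfl).trans (le_of_eq ?_), h6⟩
    push_cast
    field_simp
  choose x y h5 h6 using h5
  obtain ⟨ε, hε, h7⟩ := ball_nhds h2 h3 ((gg_open 1 _).mem_nhds (gg_self 1 (.inf x)))
  obtain ⟨m, hm⟩ := h4 (.inf x) _ (half_pos hε)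
  obtain ⟨n, hn⟩ := exists_nat_one_div_lt (half_pos hε)
  have h8 := hm _ (Or.inr ⟨max m n, 0, _, rfl, by omega, Pw.zero.succ fun _ => Or.inl rfl⟩)
  rcases h7 (.fin (max m n) (y (max m n))) (by
    linarith [h2 (.inf x) (.fin (max m n) (x (max m n))) (.fin (max m n) (y (max m n))), h5 (max m n),
      Nat.one_div_le_one_div (α := ℝ) (le_max_right m n)]) with h9 | ⟨j, k, w, h9, h10, h11⟩
  · cases h9
  · obtain ⟨rfl, rfl⟩ := ZF.fin.inj h9
    exact h6 _ _ h10 h11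

end Pool.Agent.H31.MA
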