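import Mathlib

namespace Pool.Agent.H31.MA

universe u v

/-- the based space `(X, x₀)` has a metric analog (test spaces `A` range over universe `v`) -/
def HasMetricAnalog (X : Type u) [TopologicalSpace X] (x₀ : X) : Prop :=
  ∃ (M : Type u) (_ : MetricSpace M) (m₀ : M) (q : M → X), q m₀ = x₀ ∧ IsOpenQuotientMap q ∧
    ∀ (A : Type v) [MetricSpace A] (a₀ : A),
      (∀ f : A → X, Continuous f → f a₀ = x₀ →
        ∃ g : A → M, Continuous g ∧ g a₀ = m₀ ∧ q ∘ g = f) ∧
      ∀ f g : A → M, Continuous f → Continuous g → f a₀ = m₀ → g a₀ = m₀ → q ∘ f = q ∘ g →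
        ∃ F : A × unitInterval → M, Continuous F ∧ (∀ a, F (a, 0) = f a) ∧ (∀ a, F (a, 1) = g a) ∧
          (∀ s, F (a₀, s) = m₀) ∧ ∀ a s t, q (F (a, s)) = q (F (a, t))

/-- the topology is the one given by the balls of a quasimetric -/
def Quasimetrizable (X : Type u) [TopologicalSpace X] : Prop :=
  ∃ d : X → X → ℝ, (∀ x y, 0 ≤ d x y) ∧ (∀ x, d x x = 0) ∧ (∀ x y z, d x z ≤ d x y + d y z) ∧
    TopologicalSpace.IsTopologicalBasis {B : Set X | ∃ x, ∃ r > 0, B = {y | d x y < r}}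

end Pool.Agent.H31.MA
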