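import Pool.Agent.H31.NHDefs

namespace Pool.Agent.H31.NH

open Set Filter Topology Cardinal

universe u

theorem cov_le {X : Type u} {P : Set X → Prop} {ι : Type*} (U : ι → Set X) (h : ∀ i, P (U i))
    (h2 : ∀ x, ∃ i, x ∈ U i) : lift.{u_1} (cov X P) ≤ lift.{u} #ι :=
  (Cardinal.lift_le.mpr (show cov X P ≤ #(range U) from csInf_le' ⟨range U, rfl,
    forall_mem_range.mpr h, eq_univ_of_forall fun x =>
      (h2 x).elim fun i hi => ⟨_, ⟨i, rfl⟩, hi⟩⟩)).trans mk_range_le_lift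

theorem cov_mem {X : Type u} {P : Set X → Prop} (h : ∀ x, ∃ U, P U ∧ x ∈ U) :
    ∃ 𝒰 : Set (Set X), #𝒰 = cov X P ∧ (∀ U ∈ 𝒰, P U) ∧ ∀ x, ∃ U ∈ 𝒰, x ∈ U := by
  obtain ⟨𝒰, h1, h2, h3⟩ := csInf_mem (s := {c | ∃ 𝒰 : Set (Set X), #𝒰 = c ∧ (∀ U ∈ 𝒰, P U) ∧
    ⋃₀ 𝒰 = Set.univ}) ⟨_, {U | P U}, rfl, fun _ h => h, eq_univ_of_forall h⟩
  exact ⟨𝒰, h1, h2, fun x => h3.superset (mem_univ x)⟩

theorem card_comp {Y : Type u} [TopologicalSpace Y] [T2Space Y] [FirstCountableTopology Y]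
    (h : ∀ y : Y, ∃ N ∈ 𝓝 y, #N ≤ 𝔠) (y₀ : Y) : #(connectedComponent y₀) ≤ 𝔠 := by
  have : Nonempty Y := ⟨y₀⟩
  have h1 : ∀ y : Y, ∃ g : ℝ → Y, range g ∈ 𝓝 y := fun y => by
    obtain ⟨N, h1, h2⟩ := h y
    obtain ⟨e⟩ : Nonempty (N ↪ ℝ) := lift_mk_le'.mp (by simpa [mk_real] using h2)
    have : Nonempty N := ⟨⟨y, mem_of_mem_nhds h1⟩⟩
    refine ⟨fun r => (Function.invFun e r).1, mem_of_superset h1 fun z hz => ⟨e ⟨z, hz⟩, ?_⟩⟩
    simp [Function.leftInverse_invFun e.injective ⟨z, hz⟩]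
  choose g hg using h1
  let β : Option ℝ → Type := fun a => Option.rec PEmpty (fun _ => ℕ) a
  let I : WType β → Y := WType.elim Y fun p => match p with
    | ⟨none, _⟩ => y₀
    | ⟨some r, f⟩ => g (limUnder atTop (show ℕ → Y from f)) r
  have h2 : ∀ (w : ℕ → WType β) z, Tendsto (fun k => I (w k)) atTop (𝓝 z) →
      range I ∈ 𝓝 z := fun w z hz => mem_of_superset (hg z) (range_subset_iff.mpr fun r =>
        ⟨⟨some r, w⟩, by rw [← hz.limUnder_eq]; rfl⟩)
  have h3 : IsClopen (range I) := ⟨IsSeqClosed.isClosed fun s z hs hz => by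
    choose w hw using hs
    exact mem_of_mem_nhds (h2 w z (by simpa only [hw] using hz)), isOpen_iff_mem_nhds.mpr <| by
      rintro _ ⟨w, rfl⟩
      exact h2 (fun _ => w) _ tendsto_const_nhds⟩
  have h4 : #(WType β) ≤ 𝔠 := WType.cardinalMk_le_of_le <|
    (sum_le_sum _ (fun _ => 𝔠) fun a => by
      cases a <;> simp [β, one_le_aleph0.trans aleph0_le_continuum]).trans (by
        simp [mk_real, add_one_eq aleph0_le_continuum])
  refine (mk_le_mk_of_subset (h3.connectedComponent_subset ⟨⟨none, PEmpty.elim⟩, rfl⟩)).trans ?_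
  have := (mk_range_le_lift (f := I)).trans (lift_le.mpr h4)
  simpa using this

variable {M : Type u} [TopologicalSpace M] {n : ℕ}

theorem Euc.emb {U : Set M} (h : Euc n U) :
    ∃ e : EuclideanSpace ℝ (Fin n) → M, IsOpenEmbedding e ∧ range e = U := by
  obtain ⟨h1, ⟨e⟩⟩ := h
  exact ⟨_, h1.isOpenEmbedding_subtypeVal.comp e.symm.isOpenEmbedding, by
    rw [range_comp, e.symm.surjective.range_eq, image_univ, Subtype.range_coe]⟩

theorem Euc.t2 {U : Set M} (h : Euc n U) : IsOpen U ∧ T2Space U :=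
  ⟨h.1, h.2.elim fun e => e.isEmbedding.t2Space⟩

theorem card_le (hM : Manifold n M) (h : 𝔠 ≤ OH M) : #M ≤ OH M := by
  obtain ⟨hc, hM⟩ := hM
  obtain ⟨𝒱, h1, h2, h3⟩ := cov_mem (P := fun U : Set M => IsOpen U ∧ T2Space U) fun x =>
    (hM x).imp fun U hU => ⟨hU.1.t2, hU.2⟩
  have h4 : ∀ x : M, ∃ e : EuclideanSpace ℝ (Fin n) → M, IsOpenEmbedding e ∧ ∃ p, e p = x :=
    fun x => by
      obtain ⟨U, h4, h5⟩ := hM x
      obtain ⟨e, h6, rfl⟩ := h4.emb
      exact ⟨e, h6, h5⟩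
  have : FirstCountableTopology M := ⟨fun x => by
    obtain ⟨e, he, p, rfl⟩ := h4 x
    rw [← he.map_nhds_eq]; infer_instance⟩
  have : LocallyConnectedSpace M := locallyConnectedSpace_iff_subsets_isOpen_isConnected.mpr
    fun x U hU => by
      obtain ⟨e, he, p, rfl⟩ := h4 x
      obtain ⟨V, h5, h6, h7, h8⟩ := locallyConnectedSpace_iff_subsets_isOpen_isConnected.mp
        inferInstance p _ (he.continuous.continuousAt.preimage_mem_nhds hU)
      exact ⟨e '' V, image_subset_iff.mpr h5, he.isOpenMap _ h6, mem_image_of_mem _ h7,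
        h8.image _ he.continuous.continuousOn⟩
  have h5 : ∀ (V : 𝒱) x, #(connectedComponentIn V.1 x) ≤ OH M := fun V x => by
    by_cases hx : x ∈ V.1
    · have := (h2 _ V.2).2
      rw [connectedComponentIn_eq_image hx]
      refine mk_image_le.trans ((card_comp (fun y => ?_) _).trans h)
      obtain ⟨e, he, hp⟩ := h4 y
      refine ⟨_, continuous_subtype_val.continuousAt.preimage_mem_nhds
        (he.isOpen_range.mem_nhds hp), (mk_preimage_of_injective _ _ Subtype.val_injective).trans ?_⟩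
      have := mk_range_le_lift (f := e)
      rw [(WithLp.equiv _ _).cardinal_eq] at this
      simpa using this.trans (b := lift.{u} #(Fin n → ℝ)) (by
        simp [mk_real, power_nat_le aleph0_le_continuum])
    · simp [connectedComponentIn_eq_empty hx]
  have h6 : ℵ₀ ≤ OH M := aleph0_le_continuum.trans h
  obtain ⟨x₀⟩ := hc.toNonempty
  let A : ℕ → Set M := fun k => Nat.rec {x₀}
    (fun _ B => ⋃ x ∈ B, ⋃ V : 𝒱, connectedComponentIn V.1 x) k
  have h7 : ∀ k, #↥(A k) ≤ OH M := fun k => by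
    induction k with
    | zero => simpa [A] using one_le_aleph0.trans h6
    | succ k ih =>
      refine (mk_biUnion_le _ _).trans ((mul_le_mul' ih (ciSup_le' fun x : A k => (mk_iUnion_le _).trans
        ((mul_le_mul' h1.le (ciSup_le' fun V => h5 V x)).trans (mul_eq_self h6).le))).trans
          (mul_eq_self h6).le)
  have h8 : ∀ y ∈ closure (⋃ k, A k), ⋃ k, A k ∈ 𝓝 y := fun y hy => by
    obtain ⟨V, h8, h9⟩ := h3 y
    have h10 := connectedComponentIn_mem_nhds ((h2 V h8).1.mem_nhds h9)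
    obtain ⟨x, h11, h12⟩ := mem_closure_iff_nhds.mp hy _ h10
    obtain ⟨k, hk⟩ := mem_iUnion.mp h12
    refine mem_of_superset h10 fun z hz => mem_iUnion.mpr ⟨k + 1, mem_biUnion hk
      (mem_iUnion.mpr ⟨⟨V, h8⟩, ?_⟩)⟩
    rwa [← connectedComponentIn_eq h11]
  have h9 : ⋃ k, A k = Set.univ := IsClopen.eq_univ ⟨closure_subset_iff_isClosed.mp fun y hy =>
    mem_of_mem_nhds (h8 y hy), isOpen_iff_mem_nhds.mpr fun y hy => h8 y (subset_closure hy)⟩
      ⟨x₀, mem_iUnion.mpr ⟨0, rfl⟩⟩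
  rw [← mk_univ, ← h9]
  have := mk_iUnion_le_lift A
  simp only [lift_uzero, mk_nat, lift_aleph0] at this
  exact this.trans ((mul_le_mul' h6 (ciSup_le' h7)).trans (mul_eq_self h6).le)

theorem fwd (hM : Manifold n M) (h : ENH M) (h1 : OH M < E n M) : 1 ≤ n ∧ covB n < 𝔠 := by
  have h2 : OH M < 𝔠 := lt_of_not_ge fun h2 => by
    choose U h3 h4 using hM.2
    have := cov_le U h3 fun x => ⟨x, h4 x⟩
    exact h1.not_ge ((Cardinal.lift_le.mp this).trans (card_le hM h2))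
  obtain ⟨𝒱, h3, h4, h5⟩ := cov_mem (P := fun U : Set M => IsOpen U ∧ T2Space U) fun x =>
    (hM.2 x).imp fun U hU => ⟨hU.1.t2, hU.2⟩
  obtain ⟨U, h6, -⟩ := hM.2 hM.1.toNonempty.some
  obtain ⟨e, he, -⟩ := h6.emb
  have h7 : ∀ V : 𝒱, IsNowhereDense (frontier (e ⁻¹' V)) := fun V => by
    rw [isClosed_frontier.isNowhereDense_iff, ← frontier_compl]
    exact interior_frontier ((h4 _ V.2).1.preimage he.continuous).isClosed_compl
  have h8 : ∀ p, ∃ V : 𝒱, p ∈ frontier (e ⁻¹' V) := fun p => by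
    obtain ⟨y, h8, h9⟩ := h (e p)
    obtain ⟨V, h10, h11⟩ := h5 y
    obtain ⟨h12, _⟩ := h4 V h10
    refine ⟨⟨V, h10⟩, ?_⟩
    rw [← he.isOpenMap.preimage_frontier_eq_frontier_preimage he.continuous]
    refine ⟨mem_closure_iff.mpr fun W hW hp => h9 W V hW h12 hp h11, fun h13 => ?_⟩
    obtain ⟨A, B, h14, h15, h16, h17, h18⟩ := t2_separation (show (⟨_, interior_subset h13⟩ : V) ≠
      ⟨y, h11⟩ from fun h => h8 (congrArg Subtype.val h).symm)
    obtain ⟨_, ⟨a, ha, rfl⟩, b, hb, h19⟩ := h9 _ _ (h12.isOpenMap_subtype_val _ h14)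
      (h12.isOpenMap_subtype_val _ h15) (mem_image_of_mem _ h16) (mem_image_of_mem _ h17)
    exact disjoint_left.mp h18 ha (Subtype.ext h19 ▸ hb)
  refine ⟨Nat.pos_of_ne_zero ?_, ?_⟩
  · rintro rfl
    obtain ⟨V, hV⟩ := h8 0
    simp at hV
  · have := (cov_le _ h7 h8).trans_lt (lift_lt.mpr (h3.trans_lt h2))
    simpa [covB] using this

end Pool.Agent.H31.NH
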