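import Pool.Agent.H31.NH1

namespace Pool.Agent.H31.NH

open Set Filter Topology Cardinal Function

theorem glue {I X T : Type} [TopologicalSpace X] [ConnectedSpace X] (F : I → X → T)
    (hi : ∀ i, Injective (F i)) (ho : ∀ i j U, IsOpen U → IsOpen (F j ⁻¹' (F i '' U))) (i₀ : I)
    (hc : ∀ i, ∃ x y, F i x = F i₀ y) :
    ∃ (M : Type) (_ : TopologicalSpace M) (φ : I → X → M) (c : M → T), ConnectedSpace M ∧
      Injective c ∧ (∀ i x, c (φ i x) = F i x) ∧ (∀ i, IsOpenEmbedding (φ i)) ∧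
        ∀ m, ∃ i x, φ i x = m := by
  let φ : I → X → {t // ∃ i x, F i x = t} := fun i x => ⟨F i x, i, x, rfl⟩
  letI : TopologicalSpace {t // ∃ i x, F i x = t} := ⨆ i, .coinduced (φ i) inferInstance
  have h1 : ∀ i, IsOpenEmbedding (φ i) := fun i => .of_continuous_injective_isOpenMap
    (continuous_iSup_rng continuous_coinduced_rng) (fun x y h => hi i (congrArg Subtype.val h))
    fun U hU => isOpen_iSup_iff.mpr fun j => isOpen_coinduced.mpr <| by
      convert ho i j U hU using 1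
      ext y
      simp [φ]
  have h2 : ∀ m, ∃ i x, φ i x = m := fun ⟨_, i, x, h⟩ => ⟨i, x, Subtype.ext h⟩
  have : Nonempty X := inferInstance
  refine ⟨_, inferInstance, φ, Subtype.val, connectedSpace_iff_univ.mpr ⟨⟨φ i₀ this.some, trivial⟩,
    isPreconnected_of_forall (φ i₀ this.some) fun m _ => ?_⟩, Subtype.val_injective,
      fun _ _ => rfl, h1, h2⟩
  obtain ⟨i, x, rfl⟩ := h2 m
  obtain ⟨a, b, h⟩ := hc i
  exact ⟨range (φ i) ∪ range (φ i₀), subset_univ _, .inr ⟨_, rfl⟩, .inl ⟨_, rfl⟩,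
    (isPreconnected_range (h1 i).continuous).union (φ i a) ⟨a, rfl⟩ ⟨b, Subtype.ext h.symm⟩
      (isPreconnected_range (h1 i₀).continuous)⟩

theorem pruefer : ∃ (P : Type) (_ : TopologicalSpace P), T2Space P ∧ ConnectedSpace P ∧
    (∀ p, ∃ e : ℝ × ℝ → P, IsOpenEmbedding e ∧ p ∈ range e) ∧
      ∃ O : ℝ → Set P, (∀ a, IsOpen (O a) ∧ (O a).Nonempty) ∧ Pairwise (Disjoint on O) := by
  let F : ℝ → ℝ × ℝ → (ℝ × ℝ) × ℝ := fun a p =>
    ((a + p.1 * max p.2 0, p.2), if 0 < p.2 then 0 else p.1)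
  have h1 : ∀ a b p q, F a p = F b q ↔ p.2 = q.2 ∧ (0 < p.2 → a + p.1 * p.2 = b + q.1 * p.2) ∧
      (p.2 ≤ 0 → a = b ∧ p.1 = q.1) := by
    rintro a b ⟨s, t⟩ ⟨s', t'⟩
    simp only [F, Prod.mk.injEq, and_assoc]
    by_cases h : t = t'
    · subst h
      rcases lt_or_ge 0 t with h | h
      · simp [h, h.le, h.not_ge]
      · simp [h, h.not_gt]
    · simp [h]
  have h2 : ∀ a, Injective (F a) := fun a p q h => by
    obtain ⟨h2, h3, h4⟩ := (h1 _ _ _ _).mp h
    refine Prod.ext ?_ h2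
    rcases lt_or_ge 0 p.2 with h | h
    · exact mul_right_cancel₀ h.ne' (add_left_cancel (h3 h))
    · exact (h4 h).2
  obtain ⟨P, _, φ, c, h3, h4, h5, h6, h7⟩ := glue F h2 (fun a b U hU => by
    by_cases h : a = b
    · rwa [h, preimage_image_eq _ (h2 b)]
    · have : F b ⁻¹' (F a '' U) =
          {q | 0 < q.2} ∩ (fun q : ℝ × ℝ => (q.1 + (b - a) / q.2, q.2)) ⁻¹' U := by
        ext q
        constructor
        · rintro ⟨p, hp, h3⟩
          obtain ⟨h3, h4, h5⟩ := (h1 _ _ _ _).mp h3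
          have h6 : 0 < p.2 := lt_of_not_ge fun h6 => h (h5 h6).1
          refine ⟨show 0 < q.2 from h3 ▸ h6, show _ ∈ U from ?_⟩
          convert hp using 1
          refine Prod.ext (show q.1 + (b - a) / q.2 = p.1 from ?_) h3.symm
          rw [← h3]
          field_simp
          linarith [h4 h6]
        · rintro ⟨h3, h4⟩
          have h3 : 0 < q.2 := h3
          refine ⟨_, h4, (h1 _ _ _ _).mpr ⟨rfl, fun _ => ?_, fun h => absurd h3 h.not_gt⟩⟩
          field_simp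
          ring
      rw [this]
      exact ContinuousOn.isOpen_inter_preimage ((continuousOn_fst.add (continuousOn_const.div
        continuousOn_snd fun q hq => ne_of_gt hq)).prodMk continuousOn_snd)
          (isOpen_lt continuous_const continuous_snd) hU) 0 fun a => ⟨(-a, 1), (0, 1), by
            simp [F]⟩
  have h8 : Continuous fun m => (c m).1 := continuous_iff_continuousAt.mpr fun m => by
    obtain ⟨a, p, rfl⟩ := h7 m
    refine (h6 a).continuousAt_iff.mp (Continuous.continuousAt ?_)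
    simp only [Function.comp_def, h5, F]
    fun_prop
  refine ⟨P, _, ⟨fun m m' h => ?_⟩, h3, fun p => (h7 p).elim fun a h => ⟨_, h6 a, h⟩,
    fun a => φ a '' {p | p.2 < 0}, fun a => ⟨(h6 a).isOpenMap _ (isOpen_lt continuous_snd
      continuous_const), _, (0, -1), by simp, rfl⟩, fun a b h => disjoint_left.mpr ?_⟩
  · by_cases h9 : (c m).1 = (c m').1
    · obtain ⟨a, p, rfl⟩ := h7 m
      obtain ⟨b, q, rfl⟩ := h7 m'
      simp only [h5, F, Prod.mk.injEq] at h9
      have h10 : p.2 ≤ 0 := le_of_not_gt fun h10 => h (h4 (by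
        simp only [h5, F, h9.1, ← h9.2, h10, if_true]))
      obtain rfl : a = b := by simpa [← h9.2, h10] using h9.1
      exact separated_by_isOpenEmbedding (h6 a) fun h11 => h (congrArg _ h11)
    · exact separated_by_continuous h8 h9
  · rintro _ ⟨p, hp, rfl⟩ ⟨q, -, hq⟩
    exact h (((h1 _ _ _ _).mp ((h5 _ _).symm.trans ((congrArg c hq.symm).trans (h5 _ _)))).2.2
      (le_of_lt hp)).1

theorem lines {X : Type} [TopologicalSpace X] [ConnectedSpace X] (𝒩 : Set (Set X))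
    (h1 : ∀ N ∈ 𝒩, IsNowhereDense N) (h2 : ∀ x, ∃ N ∈ 𝒩, x ∈ N) :
    ∃ (M : Type) (_ : TopologicalSpace M) (φ : Option 𝒩 → X → M), ConnectedSpace M ∧ ENH M ∧
      (∀ i, IsOpenEmbedding (φ i)) ∧ ∀ m, ∃ i x, φ i x = m := by
  classical
  let C : Option 𝒩 → Set X := fun i => i.elim ∅ fun N => closure N
  have h3 : ∀ i, IsOpen (C i)ᶜ ∧ Dense (C i)ᶜ := fun i => isClosed_isNowhereDense_iff_compl.mp <| by
    cases i with
    | none => exact ⟨isClosed_empty, isNowhereDense_empty⟩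
    | some N => exact ⟨isClosed_closure, (h1 _ N.2).closure⟩
  let F : Option 𝒩 → X → X × Option 𝒩 := fun i x => (x, if x ∈ C i then i else none)
  have h4 : ∀ i, Injective (F i) := fun i x y h => congrArg Prod.fst h
  have h5 : ∀ i j x, x ∉ C i → x ∉ C j → F i x = F j x := fun i j x h h' => by simp [F, h, h']
  obtain ⟨M, _, φ, c, h6, h7, h8, h9, h10⟩ := glue F h4 (fun i j U hU => by
    by_cases h : i = j
    · rwa [h, preimage_image_eq _ (h4 j)]
    · convert hU.inter ((h3 i).1.inter (h3 j).1) using 1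
      ext x
      refine ⟨?_, fun hx => ⟨x, hx.1, h5 _ _ _ hx.2.1 hx.2.2⟩⟩
      rintro ⟨y, hy, h6⟩
      obtain ⟨rfl, h6⟩ := Prod.mk.inj h6
      refine ⟨hy, fun h7 => ?_, fun h7 => ?_⟩ <;> split_ifs at h6 with h8
      · exact h h6
      · exact absurd h7 (by simp [h6, C])
      · exact h h6
      · exact absurd h7 (by simp [← h6, C])) none fun i =>
      (h3 i).2.nonempty.elim fun x hx => ⟨x, x, h5 _ _ _ hx (notMem_empty x)⟩
  refine ⟨M, _, φ, h6, fun m => ?_, h9, h10⟩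
  obtain ⟨i, x, rfl⟩ := h10 m
  obtain ⟨N, h11, h12⟩ := h2 x
  have h13 : φ none x ≠ φ (some ⟨N, h11⟩) x := fun h => by
    have := congrArg c h
    simp [h8, F, C, subset_closure h12] at this
  obtain ⟨j, hj⟩ : ∃ j, φ j x ≠ φ i x := by
    by_contra! h
    exact h13 ((h _).trans (h _).symm)
  refine ⟨_, hj, fun U V hU hV h14 h15 => ?_⟩
  obtain ⟨z, ⟨h16, h17⟩, h18, h19⟩ := ((h3 i).2.inter_of_isOpen_left (h3 j).2 (h3 i).1).inter_open_nonempty
    _ ((hU.preimage (h9 i).continuous).inter (hV.preimage (h9 j).continuous)) ⟨x, h14, h15⟩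
  exact ⟨_, h16, (h7 ((h8 _ _).trans ((h5 _ _ _ h18 h19).trans (h8 _ _).symm))).symm ▸ h17⟩

theorem bwd {n : ℕ} (hn : 1 ≤ n) (h : covB n < 𝔠) : ∃ (M : Type) (_ : TopologicalSpace M),
    Manifold (n + 2) M ∧ ENH M ∧ OH M < E (n + 2) M := by
  have : Nonempty (Fin n) := ⟨⟨0, hn⟩⟩
  obtain ⟨𝒩, h1, h2, h3⟩ := cov_mem (X := EuclideanSpace ℝ (Fin n)) (P := IsNowhereDense)
    fun x => ⟨{x}, by simp [IsNowhereDense], rfl⟩
  obtain ⟨L, _, φ, _, h4, h5, h6⟩ := lines 𝒩 h2 h3
  obtain ⟨P, _, _, _, h7, O, h8, h9⟩ := pruefer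
  have e : EuclideanSpace ℝ (Fin (n + 2)) ≃L[ℝ] EuclideanSpace ℝ (Fin n) × ℝ × ℝ :=
    .ofFinrankEq (by simp)
  have h10 : ∀ m : L × P, ∃ U, Euc (n + 2) U ∧ m ∈ U := fun m => by
    obtain ⟨i, x, h10⟩ := h6 m.1
    obtain ⟨ψ, h11, y, h12⟩ := h7 m.2
    have := (h5 i).prodMap h11
    exact ⟨_, ⟨this.isOpen_range, ⟨this.isEmbedding.toHomeomorph.symm.trans
      e.toHomeomorph.symm⟩⟩, (x, y), Prod.ext h10 h12⟩
  refine ⟨L × P, inferInstance, ⟨inferInstance, h10⟩, fun m => ?_, lt_of_lt_of_le (b := 𝔠) ?_ ?_⟩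
  · obtain ⟨y, h11, h12⟩ := h4 m.1
    refine ⟨(y, m.2), fun h => h11 (congrArg Prod.fst h), fun U V hU hV h13 h14 => ?_⟩
    obtain ⟨z, hz⟩ := h12 _ _ (hU.preimage (Continuous.prodMk_left m.2))
      (hV.preimage (Continuous.prodMk_left m.2)) h13 h14
    exact ⟨_, hz⟩
  · have := cov_le (P := fun U : Set (L × P) => IsOpen U ∧ T2Space U)
      (fun i => range (Prod.map (φ i) id)) (fun i => by
        have := (h5 i).prodMap (IsOpenEmbedding.id (X := P))
        exact ⟨this.isOpen_range, this.isEmbedding.toHomeomorph.t2Space⟩) fun m => by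
          obtain ⟨i, x, h⟩ := h6 m.1
          exact ⟨i, (x, m.2), Prod.ext h rfl⟩
    simp only [lift_id, mk_option, h1] at this
    exact this.trans_lt (add_lt_of_lt aleph0_le_continuum h
      (one_lt_aleph0.trans aleph0_lt_continuum))
  · obtain ⟨𝒰, h11, h12, h13⟩ := cov_mem h10
    refine le_of_not_gt fun h14 => ?_
    have h15 : (Set.univ : Set ℝ) ⊆ ⋃ U : 𝒰, {a | (Subtype.val ⁻¹' (Prod.snd ⁻¹' O a) : Set U).Nonempty} :=
      fun a _ => by
        obtain ⟨p, hp⟩ := (h8 a).2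
        obtain ⟨U, h15, h16⟩ := h13 (φ none 0, p)
        exact mem_iUnion.mpr ⟨⟨U, h15⟩, ⟨_, h16⟩, hp⟩
    have h16 := (mk_le_mk_of_subset h15).trans ((mk_iUnion_le _).trans (mul_le_mul' h11.le
      (ciSup_le' (a := ℵ₀) fun U => by
        obtain ⟨-, ⟨e⟩⟩ := h12 _ U.2
        have := e.isEmbedding.secondCountableTopology
        exact le_aleph0_iff_set_countable.mpr (PairwiseDisjoint.countable_of_isOpen
          (fun a _ b _ h => ((h9 h).preimage _).preimage _) (fun a _ =>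
            ((h8 a).1.preimage continuous_snd).preimage continuous_subtype_val) fun _ h => h))))
    rw [mk_univ_real] at h16
    exact h16.not_gt (mul_lt_of_lt aleph0_le_continuum h14 aleph0_lt_continuum)

end Pool.Agent.H31.NH
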