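import Mathlib

namespace Pool.Agent.H31.NH

open Cardinal

universe u

/-- `U` is an open subset homeomorphic to `ℝⁿ` -/
def Euc (n : ℕ) {M : Type u} [TopologicalSpace M] (U : Set M) : Prop :=
  IsOpen U ∧ Nonempty (U ≃ₜ EuclideanSpace ℝ (Fin n))

/-- connected and locally `ℝⁿ`; no separation axiom -/
def Manifold (n : ℕ) (M : Type u) [TopologicalSpace M] : Prop :=
  ConnectedSpace M ∧ ∀ x : M, ∃ U, Euc n U ∧ x ∈ U

/-- everywhere non-Hausdorff: `NH(x) ≠ ∅` for every `x` -/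
def ENH (M : Type u) [TopologicalSpace M] : Prop :=
  ∀ x : M, ∃ y, y ≠ x ∧ ∀ U V : Set M, IsOpen U → IsOpen V → x ∈ U → y ∈ V → (U ∩ V).Nonempty

/-- least size of a cover of `X` by sets with property `P` -/
noncomputable def cov (X : Type u) (P : Set X → Prop) : Cardinal.{u} :=
  sInf {c | ∃ 𝒰 : Set (Set X), #𝒰 = c ∧ (∀ U ∈ 𝒰, P U) ∧ ⋃₀ 𝒰 = Set.univ}

/-- `𝓔(M)` -/
noncomputable def E (n : ℕ) (M : Type u) [TopologicalSpace M] : Cardinal.{u} := cov M (Euc n)

/-- `𝓞𝓗(M)` -/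
noncomputable def OH (M : Type u) [TopologicalSpace M] : Cardinal.{u} :=
  cov M fun U => IsOpen U ∧ T2Space U

/-- least number of nowhere dense sets covering `ℝⁿ` -/
noncomputable def covB (n : ℕ) : Cardinal.{0} := cov (EuclideanSpace ℝ (Fin n)) IsNowhereDense

end Pool.Agent.H31.NH
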