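import Mathlib

set_option autoImplicit false

open Set Topology Filter Cardinal

namespace Pool.Agent.H31.OmegaB

def Bd (F : Set (ℕ → ℕ)) : Prop := ∃ h : ℕ → ℕ, ∀ g ∈ F, ∀ᶠ n in atTop, g n ≤ h n

noncomputable def bb : Cardinal.{0} := sInf {c | ∃ F, ¬ Bd F ∧ #F = c}

theorem exists_F : ∃ F, ¬ Bd F ∧ #F = bb := by
  refine csInf_mem (s := {c | ∃ F, ¬ Bd F ∧ #F = c}) ⟨_, univ, ?_, rfl⟩
  rintro ⟨h, hh⟩
  obtain ⟨n, hn⟩ := (hh (fun n => h n + 1) trivial).exists
  omega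

theorem bd_of_lt {F : Set (ℕ → ℕ)} (h : #F < bb) : Bd F := by
  by_contra h1
  exact h.not_ge (csInf_le' ⟨F, h1, rfl⟩)

theorem unc : ℵ₀ < bb := by
  obtain ⟨F, h1, h2⟩ := exists_F
  by_contra h
  rw [not_lt, ← h2, le_aleph0_iff_set_countable] at h
  obtain ⟨f, hf⟩ := (h.insert 0).exists_eq_range (insert_nonempty _ _)
  refine h1 ⟨fun n => (Finset.range (n + 1)).sup fun i => f i n, fun g hg => ?_⟩
  obtain ⟨i, rfl⟩ := hf.subset (mem_insert_of_mem _ hg)
  filter_upwards [eventually_ge_atTop i] with n hn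
  exact Finset.le_sup (f := fun i => f i n) (Finset.mem_range.2 (by omega))

def W : Type := bb.ord.ToType

noncomputable instance : LinearOrder W := inferInstanceAs (LinearOrder bb.ord.ToType)
instance : WellFoundedLT W := inferInstanceAs (WellFoundedLT bb.ord.ToType)
instance : NoMaxOrder W := Cardinal.noMaxOrder unc.le

theorem mk_W : #W = bb := Cardinal.mk_ord_toType _

instance : Nonempty W := by
  rw [← mk_ne_zero_iff, mk_W]; exact (aleph0_pos.trans unc).ne'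

noncomputable instance : OrderBot W := WellFoundedLT.toOrderBot W

def Sm {α : Type} (s : Set α) : Prop := #s < bb

theorem Sm.mono {α : Type} {s t : Set α} (h : Sm t) (hs : s ⊆ t) : Sm s :=
  (mk_le_mk_of_subset hs).trans_lt h

theorem Sm.image {α β : Type} {s : Set α} (h : Sm s) (f : α → β) : Sm (f '' s) :=
  mk_image_le.trans_lt h

theorem Sm.of_image {α β : Type} {s : Set α} {f : α → β} (hf : Function.Injective f)
    (h : Sm (f '' s)) : Sm s := by
  unfold Sm at *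
  rwa [mk_image_eq hf] at h

theorem Sm.union {α : Type} {s t : Set α} (h : Sm s) (h' : Sm t) : Sm (s ∪ t) :=
  (mk_union_le _ _).trans_lt (add_lt_of_lt unc.le h h')

theorem Sm.of_countable {α : Type} {s : Set α} (h : s.Countable) : Sm s :=
  (le_aleph0_iff_set_countable.2 h).trans_lt unc

theorem sm_Iio (a : W) : Sm (Iio a) := Cardinal.mk_Iio_toType_ord_lt a

theorem sm_Iic (a : W) : Sm (Iic a) := by
  rw [← Iio_union_right]; exact (sm_Iio a).union (.of_countable (countable_singleton a))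

theorem exists_g : ∃ g : W → ℕ → ℕ, ¬ Bd (range g) := by
  obtain ⟨F, h1, h2⟩ := exists_F
  obtain ⟨e⟩ := Cardinal.eq.1 (mk_W.trans h2.symm)
  refine ⟨fun w => e w, fun ⟨h, hh⟩ => h1 ⟨h, fun g hg => hh g ⟨e.symm ⟨g, hg⟩, by simp⟩⟩⟩

theorem exists_bound {s : Set W} (hs : Sm s) : ∃ b, ∀ a ∈ s, a < b := by
  by_contra h
  push Not at h
  obtain ⟨g, hg⟩ := exists_g
  choose k hk using fun a => bd_of_lt ((sm_Iic a).image g)
  obtain ⟨m, hm⟩ := bd_of_lt (hs.image k)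
  refine hg ⟨m, ?_⟩
  rintro _ ⟨b, rfl⟩
  obtain ⟨a, a1, a2⟩ := h b
  filter_upwards [hk a _ ⟨b, a2, rfl⟩, hm _ ⟨a, a1, rfl⟩] with n h1 h2 using h1.trans h2

theorem exists_bound_seq (f : ℕ → W) : ∃ b, ∀ n, f n < b := by
  obtain ⟨b, hb⟩ := exists_bound (.of_countable (countable_range f))
  exact ⟨b, fun n => hb _ (mem_range_self n)⟩

theorem reg : bb.IsRegular := by
  refine ⟨unc.le, ?_⟩
  rw [← Ordinal.cof_toType]
  refine Order.le_cof_iff.2 fun s hs => not_lt.1 fun h => ?_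
  obtain ⟨b, hb⟩ := exists_bound (s := s) h
  obtain ⟨a, a1, a2⟩ := hs b
  exact (hb a a1).not_ge a2

theorem Sm.biUnion {α β : Type} {s : Set α} {t : α → Set β} (h : Sm s) (ht : ∀ a ∈ s, Sm (t a)) :
    Sm (⋃ a ∈ s, t a) :=
  (card_biUnion_lt_iff_forall_of_isRegular (t := fun a _ => t a) reg h).2 ht

theorem sm_iUnion {β : Type} {t : ℕ → Set β} (ht : ∀ a, Sm (t a)) : Sm (⋃ a, t a) :=
  (card_iUnion_lt_iff_forall_of_isRegular reg (by rw [mk_nat]; exact unc)).2 ht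

theorem sm_span {ι M : Type} [AddCommGroup M] [Nonempty ι] (h : #ι < bb) (v : ι → M) :
    Sm (Submodule.span ℤ (range v) : Set M) := by
  rw [← Finsupp.range_linearCombination, LinearMap.coe_range]
  refine mk_range_le.trans_lt ?_
  rw [mk_finsupp_of_infinite', mk_int]
  exact max_lt h unc

theorem exists_f : ∃ f : (ℕ → ℕ) → W, Monotone f ∧ ∀ a, ∃ α, a ≤ f α := by
  obtain ⟨g, hg⟩ := exists_g
  have h1 : ∀ α : ℕ → ℕ, {w | ¬ ∀ᶠ n in atTop, g w n ≤ α n}.Nonempty := fun α => by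
    by_contra h
    refine hg ⟨α, ?_⟩
    rintro _ ⟨w, rfl⟩
    by_contra h2
    exact h ⟨w, h2⟩
  choose f f1 f2 using fun α => WellFounded.has_min (wellFounded_lt (α := W)) _ (h1 α)
  refine ⟨f, fun α β h => not_lt.1 (f2 α _ fun h2 => f1 β ?_), fun a => ?_⟩
  · filter_upwards [h2] with n hn using hn.trans (h n)
  · obtain ⟨α, hα⟩ := bd_of_lt ((sm_Iio a).image g)
    exact ⟨α, not_lt.1 fun h => f1 α (hα _ ⟨_, h, rfl⟩)⟩

end Pool.Agent.H31.OmegaB
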