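import Pool.Agent.H31.SP
import Pool.Agent.H31.Cone

set_option autoImplicit false

open Set Function Filter Topology Cardinal

namespace Pool.Agent.H31.P2

open SP

theorem sepu : ∃ p : Set (ℕ → Bool) → Ultrafilter ℕ, (∀ y, (p y : Filter ℕ) ≤ cofinite) ∧
    ∀ D : Set (Set (ℕ → Bool)), D.Countable → ∀ f : Set (ℕ → Bool) → ℕ → ℕ,
      (∀ y, Injective (f y)) → ∃ S : Set (ℕ → Bool) → Set ℕ, (∀ y ∈ D, S y ∈ p y) ∧
        ∀ y y', ∀ j ∈ S y, ∀ j' ∈ S y', f y j = f y' j' → y = y' := by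
  classical
  obtain ⟨u, u1, u2⟩ := exu
  choose q q1 q2 using fun y => exq (u y) (u1 y)
  refine ⟨q, q1, fun D hD f hf => ?_⟩
  obtain ⟨k, hk⟩ : ∃ k : ℕ → Set (ℕ → Bool), ∀ y ∈ D, {n | k n = y} ∈ u y := by
    obtain ⟨d, hd⟩ := (hD.insert ∅).exists_eq_range (insert_nonempty _ _)
    choose A A1 A2 using fun m => u2 {d m} (D \ {d m}) (countable_singleton _)
      (hD.mono diff_subset) disjoint_sdiff_right
    refine ⟨fun n => if h : ∃ m, n ∈ A m then d (Nat.find h) else ∅, fun y hy => ?_⟩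
    obtain ⟨m, rfl⟩ : y ∈ range d := hd ▸ Or.inr hy
    have h1 : ∀ᶠ n in u (d m), ∀ i ∈ Finset.range m, d i = d m ∨ n ∉ A i :=
      (eventually_all_finset _).2 fun i _ => by
        by_cases h : d m = d i
        · exact Eventually.of_forall fun _ => Or.inl h.symm
        · exact Eventually.mono (A2 i _ ⟨hy, h⟩) fun _ => Or.inr
    refine (h1.and (A1 m _ rfl)).mono fun n hn => ?_
    have h2 : ∃ m, n ∈ A m := ⟨m, hn.2⟩
    refine (dif_pos h2).trans ?_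
    rcases (Nat.find_min' h2 hn.2).eq_or_lt with h | h
    · rw [h]
    · exact (hn.1 _ (Finset.mem_range.2 h)).resolve_right (not_not.2 (Nat.find_spec h2))
  let R : ℕ → Set ℕ := fun n => f (k n) ⁻¹' ((fun z : ℕ × ℕ => f (k z.1) (Nat.pair z.1 z.2)) ''
    ↑(Finset.range n ×ˢ Finset.range (sz n)))
  refine ⟨fun y => {j | k j.unpair.1 = y ∧ j.unpair.2 < N j.unpair.1 ∧ j ∉ R j.unpair.1},
    fun y hy => q2 y _ (hk y hy) R fun n => ?_, ?_⟩
  · have h1 := (Finset.range n ×ˢ Finset.range (sz n)).finite_toSet.image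
      fun z : ℕ × ℕ => f (k z.1) (Nat.pair z.1 z.2)
    refine ⟨h1.preimage (hf _).injOn, (ncard_le_ncard_of_injOn (f (k n)) (fun _ h => h) (hf _).injOn
      h1).trans ((ncard_image_le (Finset.finite_toSet _)).trans ?_)⟩
    rw [ncard_coe_finset, Finset.card_product, Finset.card_range, Finset.card_range]
    refine le_trans ?_ (Nat.lt_two_pow_self.le.trans Nat.lt_two_pow_self.le)
    rcases n with _ | n
    · simp
    · exact Nat.le_mul_of_pos_left _ n.succ_pos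
  rintro _ _ j ⟨rfl, h1, h2⟩ j' ⟨rfl, h3, h4⟩ e
  rcases lt_trichotomy j.unpair.1 j'.unpair.1 with h | h | h
  · exact (h4 ⟨j.unpair, by simpa using ⟨h, h1.trans_le (N_le h)⟩, by simpa using e⟩).elim
  · rw [h]
  · exact (h2 ⟨j'.unpair, by simpa using ⟨h, h3.trans_le (N_le h)⟩, by simpa using e.symm⟩).elim

/-- the first nonzero coordinate -/
noncomputable def φ (x : ℕ → F) : ℕ := sInf {k | x k ≠ 0}

theorem φ_ne {x : ℕ → F} (h : x ≠ 0) : x (φ x) ≠ 0 := Nat.sInf_mem (Function.ne_iff.1 h)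

theorem φ_lt {x : ℕ → F} {i : ℕ} (h : i < φ x) : x i = 0 := not_not.1 (Nat.notMem_of_lt_sInf h)

theorem lev {Q : Set (ℕ → F)} (h0 : ∀ q ∈ Q, q ≠ 0) (hQ : InjOn φ Q) {x : ℕ → F}
    (hx : x ∈ Submodule.span F Q) {m : ℕ} (h1 : ∀ i < m, x i = 0) (h2 : x m ≠ 0) : m ∈ φ '' Q := by
  obtain ⟨c, h3, rfl⟩ := Submodule.mem_span_set.1 hx
  obtain ⟨q, h4, h5⟩ := c.support.exists_min_image φ
    (Finsupp.support_nonempty_iff.2 fun h => h2 (by simp [h]))
  refine ⟨q, h3 h4, ?_⟩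
  simp only [Finsupp.sum, Finset.sum_apply, Pi.smul_apply, smul_eq_mul] at h1 h2
  rcases lt_trichotomy (φ q) m with h | h | h
  · have := h1 _ h
    rw [Finset.sum_eq_single_of_mem q h4 fun b hb hb' => by
      rw [φ_lt ((h5 b hb).lt_of_ne fun e => hb' (hQ (h3 hb) (h3 h4) e.symm)), mul_zero]] at this
    exact (mul_ne_zero (Finsupp.mem_support_iff.1 h4) (φ_ne (h0 _ (h3 h4))) this).elim
  · exact h
  · exact (h2 (Finset.sum_eq_zero fun b hb => by rw [φ_lt (h.trans_le (h5 b hb)), mul_zero])).elim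

/-- sequences with distinct first coordinates -/
def Λ : Type := {c : ℕ → ℕ → F // (∀ j, c j ≠ 0) ∧ Injective fun j => φ (c j)}

/-- subspaces -/
abbrev T : Type := Submodule F (ℕ → F)

variable (p : Λ → Ultrafilter ℕ)

/-- subspaces catching the sequences of `D` -/
def Ca (D : Set Λ) (L : T) : Prop := ∀ c ∈ D, ∀ᶠ j in p c, c.1 j ∈ L

/-- the group -/
def G : AddSubgroup ((ℕ → F) × (T → ℕ → ℤ)) where
  carrier := {x | ∃ D : Set Λ, D.Countable ∧ ∀ L, Ca p D L → x.2 L = 0}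
  zero_mem' := ⟨∅, countable_empty, fun _ _ => rfl⟩
  add_mem' := fun ⟨D, h1, h2⟩ ⟨E, h3, h4⟩ => ⟨D ∪ E, h1.union h3, fun L h => by
    simp [h2 L fun c hc => h c (Or.inl hc), h4 L fun c hc => h c (Or.inr hc)]⟩
  neg_mem' := fun ⟨D, h1, h2⟩ => ⟨D, h1, fun L h => by simp [h2 L h]⟩

/-- basic neighbourhoods of zero -/
def Nb (i : ℕ × Finset T) : Set (G p) := {x | (∀ k < i.1, x.1.1 k = 0) ∧
  (∀ L, ∀ᶠ n in atTop, 0 ≤ x.1.2 L n) ∧ ∀ L ∈ i.2, x.1.1 ∈ L ∨ ∀ᶠ n in atTop, 1 ≤ x.1.2 L n}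

theorem Nb_add {i : ℕ × Finset T} {x y : G p} (hx : x ∈ Nb p i) (hy : y ∈ Nb p i) :
    x + y ∈ Nb p i := by
  refine ⟨fun k h => by simp [hx.1 k h, hy.1 k h], fun L => ((hx.2.1 L).and (hy.2.1 L)).mono
    fun n h => add_nonneg h.1 h.2, fun L hL => ?_⟩
  rcases hx.2.2 L hL with h | h
  · rcases hy.2.2 L hL with h' | h'
    · exact Or.inl (L.add_mem h h')
    · exact Or.inr (((hx.2.1 L).and h').mono fun n h => le_add_of_nonneg_of_le h.1 h.2)
  · exact Or.inr ((h.and (hy.2.1 L)).mono fun n h => le_add_of_le_of_nonneg h.1 h.2)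

theorem top : ∃ t : TopologicalSpace (G p), @ContinuousAdd (G p) t _ ∧
    ∀ x, (@nhds (G p) t x).HasBasis (fun _ => True) fun i => {y | y - x ∈ Nb p i} := by
  classical
  refine Cone.cone (Nb p) (fun i => ⟨fun _ _ => rfl, fun _ => .of_forall fun _ => le_rfl,
    fun L _ => Or.inl L.zero_mem⟩) fun i j => ⟨(max i.1 j.1, i.2 ∪ j.2), fun x hx y hy => ?_⟩
  obtain ⟨h1, h2, h3⟩ := Nb_add p hx hy
  exact ⟨⟨fun k h => h1 k (lt_max_of_lt_left h), h2, fun L h => h3 L (Finset.mem_union_left _ h)⟩,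
    fun k h => h1 k (lt_max_of_lt_right h), h2, fun L h => h3 L (Finset.mem_union_right _ h)⟩

theorem sub (hp : ∀ c, (p c : Filter ℕ) ≤ cofinite) (a : ℕ → ℕ → F) :
    ∃ (r : Ultrafilter ℕ) (b : ℕ → F) (D : Set Λ), (r : Filter ℕ) ≤ atTop ∧ D.Countable ∧
      Tendsto a r (𝓝 b) ∧ ∀ L, Ca p D L → ∀ᶠ j in r, a j - b ∈ L := by
  obtain ⟨b, ψ, h1, h2⟩ := CompactSpace.tendsto_subseq a
  by_cases h : ∃ᶠ j in atTop, a (ψ j) - b = 0
  · obtain ⟨σ, h3, h4⟩ := extraction_of_frequently_atTop h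
    refine ⟨(hyperfilter ℕ).map (ψ ∘ σ), b, ∅, (h1.comp h3).tendsto_atTop.mono_left
      Nat.hyperfilter_le_atTop, countable_empty, (h2.comp h3.tendsto_atTop).mono_left
      Nat.hyperfilter_le_atTop, fun L _ => eventually_map.2 (.of_forall fun j => ?_)⟩
    rw [comp_apply, h4]; exact L.zero_mem
  obtain ⟨σ, h3, h4⟩ := extraction_of_eventually_atTop (not_frequently.1 h)
  have h5 : Tendsto (fun j => φ (a (ψ (σ j)) - b)) atTop atTop := tendsto_atTop.2 fun k => by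
    have := tendsto_pi_nhds.1 (h2.comp h3.tendsto_atTop)
    simp only [nhds_discrete, tendsto_pure] at this
    refine (((Finset.range k).eventually_all).2 fun i _ => this i).mono fun j hj => ?_
    exact not_lt.1 fun h => φ_ne (h4 j) (sub_eq_zero.2 (hj _ (Finset.mem_range.2 h)))
  obtain ⟨τ, h6, h7⟩ := strictMono_subseq_of_tendsto_atTop h5
  let c : Λ := ⟨fun j => a (ψ (σ (τ j))) - b, fun j => h4 _, h7.injective⟩
  have h8 : (p c : Filter ℕ) ≤ atTop := Nat.cofinite_eq_atTop ▸ hp c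
  exact ⟨(p c).map (ψ ∘ σ ∘ τ), b, {c}, (h1.comp (h3.comp h6)).tendsto_atTop.mono_left h8,
    countable_singleton _, (h2.comp (h3.comp h6).tendsto_atTop).mono_left h8, fun L h => h c rfl⟩

theorem clus (hp : ∀ c, (p c : Filter ℕ) ≤ cofinite) (x : ℕ → G p) :
    ∃ (r : Ultrafilter ℕ) (y : G p), (r : Filter ℕ) ≤ atTop ∧ ∀ i, ∀ᶠ j in r, x j - y ∈ Nb p i := by
  classical
  obtain ⟨r, b, D, h1, h2, h3, h4⟩ := sub p hp fun j => (x j).1.1
  choose E E1 E2 using fun j => (x j).2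
  let s : T → ℕ → ℤ := fun L n => (Finset.range (n + 1)).inf' ⟨0, by simp⟩
    (fun j => (x j).1.2 L n) - if Ca p D L then 0 else 1
  have h5 : ∀ j L, ∀ᶠ n in atTop, (if Ca p D L then 0 else 1) ≤ (x j).1.2 L n - s L n :=
    fun j L => (eventually_ge_atTop j).mono fun n hn => by
      have := Finset.inf'_le (s := Finset.range (n + 1)) (fun j => (x j).1.2 L n)
        (Finset.mem_range.2 (Nat.lt_succ_of_le hn))
      simp only [s]; omega
  refine ⟨r, ⟨(b, s), D ∪ ⋃ j, E j, h2.union (countable_iUnion E1), fun L h => funext fun n => ?_⟩,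
    h1, fun i => ?_⟩
  · have := fun j => E2 j L fun c hc => h c (Or.inr (mem_iUnion.2 ⟨j, hc⟩))
    simp [s, this, if_pos (show Ca p D L from fun c hc => h c (Or.inl hc))]
  have h6 := tendsto_pi_nhds.1 h3
  simp only [nhds_discrete, tendsto_pure] at h6
  have h7 : ∀ L, ∀ᶠ j in r, Ca p D L → (x j).1.1 - b ∈ L := fun L =>
    eventually_imp_distrib_left.2 (h4 L)
  refine ((((Finset.range i.1).eventually_all).2 fun k _ => h6 k).and
    ((i.2.eventually_all).2 fun L _ => h7 L)).mono fun j hj => ⟨fun k hk =>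
      sub_eq_zero.2 (hj.1 k (Finset.mem_range.2 hk)), fun L => (h5 j L).mono fun n hn =>
        le_trans (by split_ifs <;> simp) hn, fun L hL => ?_⟩
  by_cases h : Ca p D L
  · exact Or.inl (hj.2 L hL h)
  · exact Or.inr ((h5 j L).mono fun n hn => (if_neg h).ge.trans hn)

/-- test sets -/
def A (m : ℕ) : Set (G p) := {x | (∀ k < m, x.1.1 k = 0) ∧ x.1.1 m ≠ 0 ∧
  ∀ L, ∀ᶠ n in atTop, 0 ≤ x.1.2 L n}

theorem A_ne (m : ℕ) : (A p m).Nonempty :=
  ⟨⟨(Pi.single m 1, 0), ∅, countable_empty, fun _ _ => rfl⟩, fun k h => Pi.single_eq_of_ne h.ne _,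
    by simp, fun _ => .of_forall fun _ => le_rfl⟩

theorem A_add {m : ℕ} {x y : G p} (hx : x ∈ A p m) (hy : y - x ∈ Nb p (m + 1, ∅)) : y ∈ A p m := by
  have h1 : ∀ k ≤ m, y.1.1 k = x.1.1 k := fun k h => sub_eq_zero.1 (hy.1 k (Nat.lt_succ_of_le h))
  refine ⟨fun k h => (h1 k h.le).trans (hx.1 k h), h1 m le_rfl ▸ hx.2.1, fun L =>
    ((hx.2.2 L).and (hy.2.1 L)).mono fun n h => h.1.trans (sub_nonneg.1 h.2)⟩

theorem key {y x : G p} {L : T} {m : ℕ} (h1 : y.1.1 = 0) (h2 : y.1.2 L = 0) (h3 : -x ∈ A p m)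
    (h4 : x - y ∈ Nb p (0, {L})) : (-x).1.1 ∈ L := by
  rcases h4.2.2 L (Finset.mem_singleton_self L) with h | h
  · simpa [h1] using h
  · obtain ⟨n, h5, h6⟩ := (h.and (h3.2.2 L)).exists
    simp [h2] at h5 h6
    omega

theorem main : ∃ (G : Bool → Type) (_ : ∀ b, TopologicalSpace (G b)) (_ : ∀ b, AddCommGroup (G b)),
    (∀ b, ContinuousAdd (G b)) ∧ (∀ b (x : ℕ → G b), ∃ y, MapClusterPt y atTop x) ∧
    ∃ U : ℕ → Set (∀ b, G b), Antitone U ∧ (∀ n, IsOpen (U n) ∧ (U n).Nonempty) ∧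
      ⋂ n, closure (-U n) = ∅ := by
  classical
  obtain ⟨q, q1, q2⟩ := sepu
  obtain ⟨e⟩ : Nonempty (Bool × Λ ↪ Set (ℕ → Bool)) := by
    rw [← Cardinal.le_def]
    have : #Λ ≤ 𝔠 := (mk_subtype_le _).trans (by simp)
    simpa using (mul_le_of_le aleph0_le_continuum
      (nat_lt_continuum 2).le this).trans (cantor _).le
  choose t t1 t2 using fun b => top fun c => q (e (b, c))
  letI := t
  refine ⟨fun b => G fun c => q (e (b, c)), t, inferInstance, t1, fun b x => ?_,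
    fun n => ⋃ m ≥ n, univ.pi fun b => A _ m, fun m n h => biUnion_subset_biUnion_left fun k hk =>
      h.trans hk, fun n => ⟨isOpen_biUnion fun m _ => isOpen_set_pi finite_univ fun b _ =>
      isOpen_iff_mem_nhds.2 fun x hx => (t2 b x).mem_iff.2 ⟨_, trivial, fun y => A_add _ hx⟩, ?_⟩,
    eq_empty_of_forall_notMem fun y hy => ?_⟩
  · obtain ⟨r, y, h1, h2⟩ := clus _ (fun c => q1 _) x
    exact ⟨y, mapClusterPt_iff_ultrafilter.2 ⟨r, h1, (t2 b y).tendsto_right_iff.2 fun i _ => h2 i⟩⟩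
  · obtain ⟨x, hx⟩ := univ_pi_nonempty_iff.2 fun b => A_ne (fun c => q (e (b, c))) n
    exact ⟨x, mem_iUnion₂.2 ⟨n, le_rfl, hx⟩⟩
  have h1 : ∀ n (i : Bool → ℕ × Finset T), ∃ m ≥ n, ∀ b, ∃ x, -x ∈ A _ m ∧ x - y b ∈ Nb _ (i b) :=
    fun n i => by
    obtain ⟨x, h1, h2⟩ := mem_closure_iff_nhds.1 (mem_iInter.1 hy n) _
      (set_pi_mem_nhds finite_univ fun b _ => (t2 b (y b)).mem_of_mem (i := i b) trivial)
    obtain ⟨m, h3, h4⟩ := mem_iUnion₂.1 (mem_neg.1 h2)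
    exact ⟨m, h3, fun b => ⟨x b, h4 b trivial, h1 b trivial⟩⟩
  have h2 : ∀ b, (y b).1.1 = 0 := fun b => funext fun k => by
    obtain ⟨m, h3, h4⟩ := h1 (k + 1) fun _ => (k + 1, ∅)
    obtain ⟨x, h5, h6⟩ := h4 b
    exact (sub_eq_zero.1 (h6.1 k k.lt_succ_self)).symm.trans (neg_eq_zero.1 (h5.1 k h3))
  choose D D1 D2 using fun b => (y b).2
  obtain ⟨S, S1, S2⟩ := q2 (⋃ b, (fun c => e (b, c)) '' D b)
    (countable_iUnion fun b => (D1 b).image _) (extend e (fun z j => φ (z.2.1 j)) fun _ => id)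
    fun w => by
      by_cases h : ∃ z, e z = w
      · obtain ⟨z, rfl⟩ := h
        rw [e.injective.extend_apply]; exact z.2.2.2
      · rw [extend_apply' _ _ _ h]; exact injective_id
  let Q : Bool → Set (ℕ → F) := fun b => {v | ∃ c : Λ, ∃ j ∈ S (e (b, c)), c.1 j = v}
  have h3 : ∀ b b' (c c' : Λ), ∀ j ∈ S (e (b, c)), ∀ j' ∈ S (e (b', c')),
      φ (c.1 j) = φ (c'.1 j') → (b, c) = (b', c') := fun b b' c c' j hj j' hj' h =>
    e.injective (S2 _ _ j hj j' hj' (by simpa only [e.injective.extend_apply] using h))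
  obtain ⟨m, -, h4⟩ := h1 0 fun b => (0, {Submodule.span F (Q b)})
  have h5 : ∀ b, m ∈ φ '' Q b := fun b => by
    obtain ⟨x, h5, h6⟩ := h4 b
    refine lev ?_ ?_ (key _ (h2 b) (D2 b _ fun c hc => Eventually.mono (S1 _ (mem_iUnion.2
      ⟨b, mem_image_of_mem _ hc⟩)) fun j hj => Submodule.subset_span (s := Q b) ⟨c, j, hj, rfl⟩)
      h5 h6) h5.1 h5.2.1
    · rintro _ ⟨c, j, -, rfl⟩
      exact c.2.1 j
    · rintro _ ⟨c, j, hj, rfl⟩ _ ⟨c', j', hj', rfl⟩ h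
      obtain rfl : c = c' := congrArg Prod.snd (h3 _ _ _ _ j hj j' hj' h)
      rw [c.2.2 h]
  obtain ⟨_, ⟨c, j, hj, rfl⟩, h6⟩ := h5 false
  obtain ⟨_, ⟨c', j', hj', rfl⟩, h7⟩ := h5 true
  exact Bool.false_ne_true (congrArg Prod.fst (h3 _ _ _ _ j hj j' hj' (h6.trans h7.symm)))

theorem two {G : Bool → Type} [∀ b, TopologicalSpace (G b)] [∀ b, AddCommGroup (G b)]
    (h : ∃ U : ℕ → Set (∀ b, G b), Antitone U ∧ (∀ n, IsOpen (U n) ∧ (U n).Nonempty) ∧
      ⋂ n, closure (-U n) = ∅) : ∃ U : ℕ → Set (G false × G true), Antitone U ∧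
      (∀ n, IsOpen (U n) ∧ (U n).Nonempty) ∧ ⋂ n, closure (-U n) = ∅ := by
  obtain ⟨U, h1, h2, h3⟩ := h
  let e : G false × G true → ∀ b, G b := fun z b => Bool.rec z.1 z.2 b
  have h4 : Continuous e := continuous_pi fun b => by
    cases b
    exacts [continuous_fst, continuous_snd]
  refine ⟨fun n => e ⁻¹' U n, fun m n h => preimage_mono (h1 h), fun n => ⟨(h2 n).1.preimage h4,
    (h2 n).2.preimage fun x => ⟨(x false, x true), funext fun b => by cases b <;> rfl⟩⟩,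
    eq_empty_of_forall_notMem fun y hy => h3.le (mem_iInter.2 fun n => ?_ : e y ∈ _)⟩
  refine map_mem_closure h4 (mem_iInter.1 hy n) fun x hx => mem_neg.2 ?_
  rwa [show -e x = e (-x) from funext fun b => by cases b <;> rfl]

end Pool.Agent.H31.P2
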