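import Pool.Agent.H31.BJ

set_option autoImplicit false

open Set Topology Filter

namespace Pool.Agent.H31.PCT

open Omega1

theorem para (X : Type) [TopologicalSpace X] [RegularSpace X] [LindelofSpace X] [Nonempty X] :
    ParacompactSpace X := by
  classical
  refine ⟨fun ι U hU hc => ?_⟩
  have h1 : ∀ x : X, ∃ i V, V ∈ 𝓝 x ∧ IsClosed V ∧ V ⊆ U i := fun x => by
    obtain ⟨i, hi⟩ := mem_iUnion.1 (hc ▸ mem_univ x)
    exact ⟨i, exists_mem_nhds_isClosed_subset ((hU i).mem_nhds hi)⟩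
  choose j V v1 v2 v3 using h1
  obtain ⟨s, hs, hs'⟩ := (isLindelof_univ (X := X)).elim_nhds_subcover (fun x => interior (V x))
    fun x _ => interior_mem_nhds.2 (v1 x)
  obtain ⟨a, rfl⟩ := hs.exists_eq_range (by
    obtain ⟨x, hx, -⟩ := mem_iUnion₂.1 (hs'.2 (mem_univ (Classical.arbitrary X)))
    exact ⟨x, hx⟩)
  have hex : ∀ x, ∃ n, x ∈ interior (V (a n)) := fun x => by
    obtain ⟨_, ⟨k, rfl⟩, h⟩ := mem_iUnion₂.1 (hs'.2 (mem_univ x))
    exact ⟨k, h⟩
  refine ⟨ℕ, fun n => U (j (a n)) ∩ ⋂ m ∈ Iio n, (V (a m))ᶜ,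
    fun n => (hU _).inter ((finite_Iio n).isOpen_biInter fun m _ => (v2 _).isOpen_compl),
    eq_univ_of_forall fun x => ?_, fun x => ?_, fun n => ⟨_, inter_subset_left⟩⟩
  · have h : ∃ n, x ∈ U (j (a n)) := (hex x).imp fun n hn => v3 _ (interior_subset hn)
    exact mem_iUnion.2 ⟨Nat.find h, Nat.find_spec h,
      mem_iInter₂.2 fun m hm h' => Nat.find_min h hm (v3 _ h')⟩
  · obtain ⟨m, hm⟩ := hex x
    refine ⟨_, isOpen_interior.mem_nhds hm, (finite_Iic m).subset fun n hn => ?_⟩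
    obtain ⟨y, h1, h2⟩ := hn
    by_contra h
    exact mem_iInter₂.1 h1.2 m (show m < n from not_le.1 h) (interior_subset h2)

theorem lind_pre {X Y : Type} [TopologicalSpace X] [TopologicalSpace Y] [CompactSpace X] [T2Space Y]
    {f : X → Y} (hf : Continuous f) {T : Set Y} (hT : IsLindelof T) : IsLindelof (f ⁻¹' T) := by
  intro F _ _ hF
  obtain ⟨y, hy, hy'⟩ := hT (f := map f F) (map_le_iff_le_comap.2 (by rwa [comap_principal]))
  obtain ⟨x, rfl, hx⟩ := hf.isProperMap.clusterPt_of_mapClusterPt hy'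
  exact ⟨x, hy, hx⟩

/-- discrete copy of the first uncountable ordinal -/
def D : Type := W

instance : TopologicalSpace D := ⊥
instance : DiscreteTopology D := ⟨rfl⟩

/-- the cube -/
abbrev B : Type := W → ENNReal

/-- the removed sets -/
def R (α : W) : Set B := {b | (∀ γ < α, ∃ n : ℕ, b γ = n) ∧ InjOn b (Iio α)}

theorem R_dep {α : W} {b b' : B} (h : ∀ γ < α, b' γ = b γ) (hb : b ∈ R α) : b' ∈ R α :=
  ⟨fun γ hγ => h γ hγ ▸ hb.1 γ hγ, fun γ hγ γ' hγ' e =>
    hb.2 hγ hγ' ((h γ hγ).symm.trans (e.trans (h γ' hγ')))⟩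

theorem R_anti {α β : W} (h : α ≤ β) : R β ⊆ R α := fun _ hb =>
  ⟨fun γ hγ => hb.1 γ (hγ.trans_le h), hb.2.mono (Iio_subset_Iio h)⟩

theorem R_out (b : B) : ∃ δ, b ∉ R δ := by
  by_contra h
  push Not at h
  refine not_countable_univ (α := W) (countable_of_injective_of_countable_image (f := b) ?_
    ((countable_range ((↑) : ℕ → ENNReal)).mono ?_))
  · intro x _ y _ e
    obtain ⟨z, hz⟩ := exists_gt (max x y)
    exact (h z).2 (max_lt_iff.1 hz).1 (max_lt_iff.1 hz).2 e
  · rintro _ ⟨x, -, rfl⟩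
    obtain ⟨z, hz⟩ := exists_gt x
    exact ((h z).1 x hz).imp fun _ e => e.symm

/-- the space -/
def X : Set (B × OnePoint D) := {z | ∀ α : D, z.2 = α → z.1 ∉ R α}

theorem clopen_pt (α : D) : IsClopen {(α : OnePoint D)} := by
  refine ⟨isClosed_singleton, ?_⟩
  rw [← image_singleton]
  exact OnePoint.isOpenEmbedding_coe.isOpenMap _ (isOpen_discrete _)

theorem lind_R (α : W) : IsLindelof (R α)ᶜ := by
  haveI := (countable_Iio α).to_subtype
  have h := lind_pre (f := fun (b : B) (γ : Iio α) => b γ) (by fun_prop)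
    (T := (fun (b : B) (γ : Iio α) => b γ) '' (R α)ᶜ) (HereditarilyLindelofSpace.isLindelof _)
  convert h using 1
  refine Subset.antisymm (subset_preimage_image _ _) ?_
  rintro b ⟨b', h1, h2⟩ h3
  exact h1 (R_dep (fun γ hγ => congrFun h2 ⟨γ, hγ⟩) h3)

theorem lind_X : IsLindelof X := by
  intro F _ _ hF
  by_cases h : ∃ α : D, (F ⊓ 𝓟 (Prod.snd ⁻¹' {(α : OnePoint D)})).NeBot
  · obtain ⟨α, hα⟩ := h
    have h1 : IsLindelof ((fun b : B => (b, (α : OnePoint D))) '' (R α)ᶜ) :=
      (lind_R α).image (by fun_prop)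
    obtain ⟨z, ⟨b, hb, rfl⟩, hz⟩ := h1 (f := F ⊓ 𝓟 (Prod.snd ⁻¹' {(α : OnePoint D)})) (by
      refine (inf_le_inf_right _ hF).trans ?_
      rw [inf_principal, principal_mono]
      rintro ⟨b, a⟩ ⟨h1, h2⟩
      exact ⟨b, h1 α h2, Prod.ext rfl (Eq.symm h2)⟩)
    refine ⟨_, fun β e => ?_, hz.mono inf_le_left⟩
    obtain rfl : α = β := OnePoint.coe_injective e
    exact hb
  · obtain ⟨z, -, hz⟩ := isCompact_univ (f := F) (by simp)
    refine ⟨z, fun α e => (h ⟨α, ?_⟩).elim, hz⟩
    have := (clopen_pt α).isOpen.preimage (continuous_snd (X := B)) |>.mem_nhds e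
    exact (show (𝓝 z ⊓ F).NeBot from hz).mono
      (le_inf inf_le_right (inf_le_left.trans (le_principal_iff.2 this)))

instance : LindelofSpace X := isLindelof_iff_lindelofSpace.1 lind_X

instance : Nonempty X := ⟨⟨(0, OnePoint.infty), fun α e => (OnePoint.infty_ne_coe α e).elim⟩⟩

theorem pct (x : X) : ∃ K : Set X, IsCompact K ∧ x ∈ K ∧ (nhdsSet K).IsCountablyGenerated := by
  classical
  obtain ⟨δ, hδ⟩ := R_out x.1.1
  haveI := (countable_Iio δ).to_subtype
  let ρ : B × OnePoint D → (Iio δ → ENNReal) × (Iio δ → Bool) :=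
    fun z => (fun γ => z.1 γ, fun γ => decide (z.2 = ((show D from γ.1) : OnePoint D)))
  have hρ : Continuous ρ := by
    refine Continuous.prodMk (by fun_prop) (continuous_pi fun γ => ?_)
    refine (IsLocallyConstant.iff_isOpen_fiber_apply.2 fun z => ?_).continuous
    by_cases h : z.2 = ((show D from γ.1) : OnePoint D)
    · convert (clopen_pt γ.1).isOpen.preimage (continuous_snd (X := B)) using 1
      ext w
      simp [h]
    · convert (clopen_pt γ.1).compl.isOpen.preimage (continuous_snd (X := B)) using 1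
      ext w
      simp [h]
  have hsub : ρ ⁻¹' {ρ x} ⊆ X := by
    intro z hz α e hR
    have h1 : ∀ γ < δ, x.1.1 γ = z.1 γ := fun γ hγ =>
      (congrFun (congrArg Prod.fst hz) ⟨γ, hγ⟩).symm
    rcases lt_or_ge (show W from α) δ with h | h
    · have h2 := congrFun (congrArg Prod.snd hz) ⟨α, h⟩
      simp only [ρ, decide_eq_decide] at h2
      exact x.2 α (h2.1 e) (R_dep (fun γ hγ => h1 γ (hγ.trans h)) hR)
    · exact hδ (R_dep h1 (R_anti h hR))
  have hK : IsCompact (ρ ⁻¹' {ρ x}) := (isClosed_singleton.preimage hρ).isCompact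
  have him : Subtype.val '' (Subtype.val ⁻¹' (ρ ⁻¹' {ρ x}) : Set X) = ρ ⁻¹' {ρ x} :=
    image_preimage_eq_of_subset (by rwa [Subtype.range_coe])
  refine ⟨Subtype.val ⁻¹' (ρ ⁻¹' {ρ x}), Subtype.isCompact_iff.2 (him.symm ▸ hK), rfl, ?_⟩
  rw [IsInducing.subtypeVal.nhdsSet_eq_comap, him, ← hρ.isClosedMap.comap_nhds_eq hρ]
  infer_instance

theorem dep {Y : Type} [TopologicalSpace Y] [T2Space Y] [FirstCountableTopology Y] {g : B → Y}
    (hg : Continuous g) : ∃ δ, ∀ b b' : B, (∀ γ < δ, b' γ = b γ) → g b' = g b := by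
  classical
  have h1 : ∀ b : B, ∃ δ, ∀ b' : B, (∀ γ < δ, b' γ = b γ) → g b' = g b := fun b => by
    obtain ⟨V, hV⟩ := (𝓝 (g b)).exists_antitone_basis
    have h2 : ∀ n, ∃ I : Set W, I.Finite ∧ ∀ b' : B, (∀ γ ∈ I, b' γ = b γ) → g b' ∈ V n := by
      intro n
      have := hg.continuousAt (hV.mem n)
      rw [mem_map, nhds_pi, Filter.mem_pi] at this
      obtain ⟨I, h3, t, h4, h5⟩ := this
      exact ⟨I, h3, fun b' h => h5 fun γ hγ => h γ hγ ▸ mem_of_mem_nhds (h4 γ)⟩
    choose I i1 i2 using h2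
    obtain ⟨δ, hδ⟩ := exists_bound (countable_iUnion fun n => (i1 n).countable)
    refine ⟨δ, fun b' h => ?_⟩
    by_contra hne
    obtain ⟨n, -, hn⟩ := hV.toHasBasis.mem_iff.1 (isOpen_compl_singleton.mem_nhds (Ne.symm hne))
    exact hn (i2 n b' fun γ hγ => h γ (hδ γ (mem_iUnion.2 ⟨n, hγ⟩))) rfl
  choose β hβ using h1
  let q := TopologicalSpace.denseSeq ENNReal
  have hrk : BJ.Rk fun c : W →₀ ℕ => c.support.sup id := fun b => by
    haveI := (countable_Iio b).to_subtype
    have : Countable {c : W →₀ ℕ // ↑c.support ⊆ Iio b} :=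
      (Finsupp.restrictSupportEquiv (Iio b) ℕ).countable_iff.2 inferInstance
    have h0 : {c : W →₀ ℕ | ↑c.support ⊆ Iio b}.Countable := this
    refine h0.mono ?_
    intro c hc γ hγ
    exact (Finset.le_sup (f := id) hγ).trans_lt hc
  obtain ⟨d, -, d1, d2⟩ := BJ.clos hrk (fun c => β (q ∘ c)) BJ.exists_S.choose_spec.1
  let r : B → B := fun b γ => if γ < d then b γ else q 0
  have hr : Continuous r := continuous_pi fun γ => by
    by_cases h : γ < d
    · simp only [r, h, if_true]; fun_prop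
    · simp only [r, h, if_false]; fun_prop
  have hd : DenseRange fun c : W →₀ ℕ => (q ∘ c : B) := by
    intro b
    refine mem_closure_iff_nhds.2 fun O hO => ?_
    rw [nhds_pi, Filter.mem_pi] at hO
    obtain ⟨I, h3, t, h4, h5⟩ := hO
    choose n hn using fun γ => (TopologicalSpace.denseRange_denseSeq ENNReal).mem_nhds (h4 γ)
    refine ⟨_, h5 fun γ hγ => ?_, Finsupp.onFinset h3.toFinset (fun γ => if γ ∈ I then n γ else 0)
      (fun γ h => by by_contra h'; simp_all), rfl⟩
    simpa [hγ] using hn γ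
  have he : g = g ∘ r := hd.equalizer hg (hg.comp hr) (funext fun c => by
    have e : r (q ∘ c) = q ∘ c.filter (· < d) := funext fun γ => by
      by_cases h : γ < d <;> simp [r, h]
    have h2 : β (q ∘ c.filter (· < d)) < d := d2 _ ((Finset.sup_lt_iff d1.1).2 fun γ hγ => by
      rw [Finsupp.support_filter] at hγ
      exact (Finset.mem_filter.1 hγ).2)
    show g (q ∘ c) = g (r (q ∘ c))
    rw [e]
    exact hβ _ _ fun γ hγ => by simp [hγ.trans h2])
  refine ⟨d, fun b b' h => ?_⟩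
  rw [he]
  exact congrArg g (funext fun γ => by by_cases h' : γ < d <;> simp [r, h', h])

theorem no_map {Y : Type} [TopologicalSpace Y] [T2Space Y] [FirstCountableTopology Y] {f : X → Y}
    (hf : Continuous f) (hc : ∀ y, IsCompact (f ⁻¹' {y})) : False := by
  classical
  let top : B → X := fun b => ⟨(b, OnePoint.infty), fun α e => (OnePoint.infty_ne_coe α e).elim⟩
  have htop : Continuous top := Continuous.subtype_mk (by fun_prop) _
  obtain ⟨δ, hδ⟩ := dep (hf.comp htop)
  have inj : ∀ α : W, ∃ e : W → ℕ, InjOn e (Iio α) := fun α => Set.countable_iff_exists_injOn.1 (countable_Iio α)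
  obtain ⟨e, he⟩ := inj δ
  let s : B := fun γ => (2 * e γ : ℕ)
  let C : Set B := {b | ∀ γ < δ, b γ = s γ}
  have hC : IsCompact C := by
    refine IsClosed.isCompact ?_
    simp only [C, setOf_forall]
    exact isClosed_iInter fun γ => isClosed_iInter fun _ =>
      isClosed_eq (continuous_apply γ) continuous_const
  obtain ⟨V, hV⟩ := (𝓝 (f (top s))).exists_antitone_basis
  have h2 : ∀ n, ∃ I : Set D, I.Finite ∧ ∀ x : X, x.1.1 ∈ C → ∀ α : D, α ∉ I → x.1.2 = α →
      f x ∈ V n := by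
    intro n
    obtain ⟨O, h3, h4⟩ := isOpen_induced_iff.1 ((isOpen_interior (s := V n)).preimage hf)
    obtain ⟨u, v, -, h5, h6, h7, h8⟩ := generalized_tube_lemma hC
      (isCompact_singleton (x := (OnePoint.infty : OnePoint D))) h3 (by
        rintro ⟨b, a⟩ ⟨h1, rfl⟩
        have : top b ∈ f ⁻¹' interior (V n) := by
          show (f ∘ top) b ∈ interior (V n)
          rw [hδ s b h1]
          exact mem_interior_iff_mem_nhds.2 (hV.mem n)
        rwa [← h4] at this)
    refine ⟨((↑) ⁻¹' v)ᶜ, ((OnePoint.isOpen_def.1 h5).1 (h7 rfl)).finite_of_discrete,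
      fun x h9 α h10 h11 => interior_subset ?_⟩
    have : x ∈ Subtype.val ⁻¹' O := h8 ⟨h6 h9, by rw [h11]; exact not_not.1 h10⟩
    rwa [h4] at this
  choose I i1 i2 using h2
  obtain ⟨α, hα⟩ := exists_bound (s := insert δ (⋃ n, I n))
    ((countable_iUnion fun n => (i1 n).countable).insert δ)
  have hδα : δ < α := hα δ (mem_insert _ _)
  have h3 : ∀ x : X, x.1.1 ∈ C → x.1.2 = ((show D from α) : OnePoint D) → f x = f (top s) := by
    intro x h4 h5
    by_contra hne
    obtain ⟨n, -, hn⟩ := hV.toHasBasis.mem_iff.1 (isOpen_compl_singleton.mem_nhds (Ne.symm hne))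
    exact hn (i2 n x h4 α (fun h => (hα α (Or.inr (mem_iUnion.2 ⟨n, h⟩))).false) h5) rfl
  obtain ⟨e', he'⟩ := inj α
  let m : W → ℕ := fun γ => if γ < δ then 2 * e γ else 2 * e' γ + 1
  let t : B := fun γ => m γ
  have ht : t ∈ R α := by
    refine ⟨fun γ _ => ⟨_, rfl⟩, fun γ h1 γ' h2 h => ?_⟩
    have h : m γ = m γ' := Nat.cast_injective h
    simp only [m] at h
    split_ifs at h with h4 h5 h5
    · exact he h4 h5 (by omega)
    · omega
    · omega
    · exact he' h1 h2 (by omega)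
  have hF : IsClosed (Subtype.val '' (f ⁻¹' {f (top s)})) :=
    ((hc _).image continuous_subtype_val).isClosed
  have hl : Tendsto (fun x : ENNReal => (Function.update t δ x, ((show D from α) : OnePoint D)))
      (𝓝[>] (m δ : ENNReal)) (𝓝 (t, ((show D from α) : OnePoint D))) := by
    have : Continuous fun x : ENNReal =>
        (Function.update t δ x, ((show D from α) : OnePoint D)) := by fun_prop
    have h4 := (this.tendsto (m δ)).mono_left (nhdsWithin_le_nhds (s := Ioi (m δ : ENNReal)))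
    rwa [show Function.update t δ (m δ) = t from Function.update_eq_self δ t] at h4
  obtain ⟨x, -, hx⟩ := hF.mem_of_tendsto hl (by
    filter_upwards [Ioo_mem_nhdsGT (show (m δ : ENNReal) < (m δ + 1 : ℕ) by
      exact_mod_cast Nat.lt_succ_self _)] with x hx
    refine ⟨⟨_, fun β hβ hR => ?_⟩, h3 _ (fun γ hγ => ?_) rfl, rfl⟩
    · obtain rfl : (show D from α) = β := OnePoint.coe_injective hβ
      obtain ⟨n, hn⟩ := hR.1 δ hδα
      simp only [Function.update_self] at hn
      rw [hn] at hx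
      have h1 : m δ < n := by exact_mod_cast hx.1
      have h2 : n < m δ + 1 := by exact_mod_cast hx.2
      omega
    · simp [Function.update_of_ne hγ.ne, t, m, s, hγ])
  exact x.2 α (congrArg Prod.snd hx) (by rw [hx]; exact ht)

theorem main : ∃ (X : Type) (_ : TopologicalSpace X),
      T2Space X ∧ ParacompactSpace X ∧
      (∀ x : X, ∃ K : Set X, IsCompact K ∧ x ∈ K ∧ (nhdsSet K).IsCountablyGenerated) ∧
      ¬ ∃ (Y : Type) (_ : TopologicalSpace Y), FirstCountableTopology Y ∧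
          ∃ f : X → Y, Continuous f ∧ IsClosedMap f ∧ Function.Surjective f ∧
            ∀ y : Y, IsCompact (f ⁻¹' {y}) := by
  refine ⟨X, inferInstance, inferInstance, para X, pct, ?_⟩
  rintro ⟨Y, _, _, f, h1, h2, h3, h4⟩
  haveI : T2Space Y := ⟨fun y y' hne => by
    obtain ⟨U, V, u1, v1, u2, v2, hd⟩ := SeparatedNhds.of_isCompact_isCompact (h4 y) (h4 y')
      ((disjoint_singleton.2 hne).preimage f)
    refine ⟨(f '' Uᶜ)ᶜ, (f '' Vᶜ)ᶜ, (h2 _ u1.isClosed_compl).isOpen_compl,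
      (h2 _ v1.isClosed_compl).isOpen_compl, fun ⟨x, a, b⟩ => a (u2 b), fun ⟨x, a, b⟩ => a (v2 b),
      disjoint_left.2 fun z a b => ?_⟩
    obtain ⟨x, rfl⟩ := h3 z
    exact b ⟨x, disjoint_left.1 hd (not_not.1 fun h => a ⟨x, h, rfl⟩), rfl⟩⟩
  exact no_map h1 h4

end Pool.Agent.H31.PCT
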