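import Pool.Agent.H31.Cone
import Pool.Agent.H31.Omega1

set_option autoImplicit false

open Set Function Filter Topology TopologicalSpace Pointwise Nat

namespace Pool.Agent.H31.Para

theorem lift {V : Type} [AddCommGroup V] [Module ℚ V] (g : ℝ →ₗ[ℚ] V) (h1 : g 1 = 0)
    (h2 : Surjective g) : ∃ ℓ : UnitAddCircle →+ V,
      ∀ v x, ∀ ε : ℝ, 0 < ε → ∃ y, ‖y - x‖ < ε ∧ ℓ y = v := by
  have h3 : ∀ q : ℚ, g q = 0 := fun q => by
    simpa [h1] using g.map_smul q 1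
  refine ⟨QuotientAddGroup.lift _ g.toAddMonoidHom ?_, fun v x ε h => ?_⟩
  · rintro _ ⟨k, rfl⟩
    simpa using h3 k
  obtain ⟨r, rfl⟩ := QuotientAddGroup.mk_surjective x
  obtain ⟨s, rfl⟩ := h2 v
  obtain ⟨q, hq⟩ := exists_rat_near (r - s) h
  refine ⟨(s + q : ℝ), ?_, by simp [h3]⟩
  rw [← QuotientAddGroup.mk_sub]
  refine QuotientAddGroup.norm_mk_le_norm.trans_lt ?_
  rwa [Real.norm_eq_abs, abs_sub_comm, ← sub_sub]

theorem prac {X : Type} [TopologicalSpace X] {D : Set X} (h1 : Dense D)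
    (h2 : ∀ B ⊆ D, B.Infinite → ∃ y, ∀ V ∈ 𝓝 y, (V ∩ B).Infinite) (𝒰 : Set (Set X))
    (h3 : ∀ U ∈ 𝒰, IsOpen U ∧ U.Nonempty) (h4 : LocallyFinite fun U : 𝒰 => U.1) : 𝒰.Finite := by
  choose d d1 d2 using fun U : 𝒰 => h1.exists_mem_open (h3 U U.2).1 (h3 U U.2).2
  have h5 : (range d).Finite := by
    by_contra h
    obtain ⟨y, hy⟩ := h2 _ (range_subset_iff.2 d1) h
    obtain ⟨V, h6, h7⟩ := h4 y
    refine hy V h6 ((h7.image d).subset ?_)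
    rintro _ ⟨h8, U, rfl⟩
    exact ⟨U, ⟨_, d2 U, h8⟩, rfl⟩
  exact finite_coe_iff.1 (finite_univ_iff.1 ((h5.biUnion fun y _ => h4.point_finite y).subset
    fun U _ => mem_biUnion (mem_range_self U) (d2 U)))

theorem t2 {ι : Type} {t : TopologicalSpace UnitAddCircle} {N : ι → Set UnitAddCircle}
    (h : ∀ x, (@nhds _ t x).HasBasis (fun _ => True) fun i => {y | y - x ∈ N i})
    (h' : ∀ ε : ℝ, 0 < ε → ∃ i, ∀ x ∈ N i, ‖x‖ < ε) : @T2Space _ t :=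
  t2Space_antitone (le_of_nhds_le_nhds fun x => ((h x).le_basis_iff Metric.nhds_basis_ball).2
    fun ε hε => (h' ε hε).imp fun _ hi => ⟨trivial, fun _ hy => mem_ball_iff_norm.2 (hi _ hy)⟩)
    inferInstance

/-- rationals whose last nonzero factorial digit is small -/
def S (ε : ℚ) : Set ℚ := {q | ∀ j : ℕ, (∃ z : ℤ, (j + 1)! * q = z) →
  ∃ z : ℤ, z ≤ j ! * q ∧ j ! * q < z + ε}

theorem int_le {q : ℚ} {i j : ℕ} (h : i ≤ j) (h' : ∃ z : ℤ, i ! * q = z) : ∃ z : ℤ, j ! * q = z := by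
  obtain ⟨c, hc⟩ := factorial_dvd_factorial h
  obtain ⟨z, hz⟩ := h'
  exact ⟨z * c, by rw [hc]; push_cast; rw [← hz]; ring⟩

theorem int_den (q : ℚ) : ∃ z : ℤ, q.den ! * q = z := by
  obtain ⟨c, hc⟩ := dvd_factorial q.den_pos le_rfl
  exact ⟨q.num * c, by rw [hc]; push_cast; rw [← q.den_mul_eq_num]; ring⟩

theorem S_int {ε : ℚ} (h : 0 < ε) (z : ℤ) : (z : ℚ) ∈ S ε := fun j _ =>
  ⟨j ! * z, by simp, by simpa⟩

theorem S_add {ε δ q r : ℚ} (h : ε + ε ≤ δ) (hq : q ∈ S ε) (hr : r ∈ S ε) : q + r ∈ S δ := by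
  classical
  intro j ⟨w, hw⟩
  have h0 : ∃ i, ∃ z : ℤ, (j + 1 + i)! * q = z := ⟨_, int_le (Nat.le_add_left _ _) (int_den q)⟩
  have h1 : ∀ i, (∃ z : ℤ, (j + i + 1)! * q = z) → ∃ z z' : ℤ, z ≤ (j + i)! * q ∧
      z' ≤ (j + i)! * r ∧ (j + i)! * q + (j + i)! * r < z + z' + δ := fun i ⟨z, hz⟩ => by
    obtain ⟨y, hy⟩ := int_le (by omega : j + 1 ≤ j + i + 1) ⟨w, hw⟩
    obtain ⟨a, h1, h2⟩ := hq _ ⟨z, hz⟩
    obtain ⟨b, h3, h4⟩ := hr (j + i) ⟨y - z, by push_cast; linarith⟩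
    exact ⟨a, b, h1, h3, by linarith⟩
  have h2 := Nat.find_spec h0
  rcases e : Nat.find h0 with _ | i
  · rw [e] at h2
    obtain ⟨a, b, h3, h4, h5⟩ := h1 0 h2
    exact ⟨a + b, by push_cast; simp at *; linarith, by push_cast; simp at *; linarith⟩
  · rw [e] at h2
    obtain ⟨a, b, h3, h4, h5⟩ := h1 (1 + i) (by simpa only [add_assoc] using h2)
    obtain ⟨y, hy⟩ := int_le (by omega : j + 1 ≤ j + (1 + i)) ⟨w, hw⟩
    have h6 := h3.lt_of_ne fun h => Nat.find_min h0 (i.lt_succ_self.trans_eq e.symm) ⟨a, by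
      simpa only [add_assoc] using h.symm⟩
    have h7 : a + b < y := by exact_mod_cast (by linarith : (a + b : ℚ) < y)
    have h8 : (a + b + 1 : ℚ) ≤ y := by exact_mod_cast h7
    exact ⟨⌊j ! * (q + r)⌋, Int.floor_le _, (Int.lt_floor_add_one _).trans (by linarith)⟩

theorem fac (n : ℕ) : (n ! * (1 / (n + 1)!) : ℚ) = 1 / (n + 1) := by
  rw [factorial_succ]; push_cast; field_simp

theorem S_lim {ε : ℚ} (h : 0 < ε) (q : ℚ) : ∀ᶠ n : ℕ in atTop, 1 / (n + 1)! - q ∈ S ε := by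
  obtain ⟨m, hm⟩ := exists_nat_one_div_lt h
  refine (eventually_ge_atTop (q.den + m)).mono fun n hn j hj => ?_
  obtain ⟨z, hz⟩ := int_le (by omega : q.den ≤ n) (int_den q)
  have h1 : (0 : ℚ) < 1 / (n + 1) := by positivity
  rcases lt_trichotomy j n with h2 | rfl | h2
  · obtain ⟨y, hy⟩ := int_le (show j + 1 ≤ n from h2) hj
    rw [mul_sub, fac, hz] at hy
    have h3 : (1 / (n + 1) : ℚ) < 1 := (div_lt_one (by positivity)).2
      (by exact_mod_cast (by have := q.den_pos; omega : 1 < n + 1))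
    have h4 : 0 < y + z := by exact_mod_cast (by linarith : (0 : ℚ) < y + z)
    have h5 : y + z < 1 := by exact_mod_cast (by linarith : (y + z : ℚ) < 1)
    omega
  · refine ⟨-z, ?_, ?_⟩ <;> rw [mul_sub, fac, hz] <;> push_cast
    · linarith
    · have : (1 / (j + 1) : ℚ) ≤ 1 / (m + 1) := one_div_le_one_div_of_le (by positivity)
        (by exact_mod_cast (by omega : m + 1 ≤ j + 1))
      linarith
  · obtain ⟨y, hy⟩ := int_le (show n + 1 ≤ j from h2) (q := 1 / (n + 1)! - q)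
      (by
        obtain ⟨y, hy⟩ := int_le n.le_succ ⟨z, hz⟩
        exact ⟨1 - y, by rw [mul_sub, hy, mul_one_div_cancel (by positivity)]; simp⟩)
    exact ⟨y, hy.ge, by linarith⟩

theorem S_neg {n : ℕ} (h : 1 ≤ n) : -(1 / (n + 1)! : ℚ) ∉ S (1 / 2) := fun h1 => by
  obtain ⟨z, h2, h3⟩ := h1 n ⟨-1, by rw [mul_neg, mul_one_div_cancel (by positivity)]; simp⟩
  rw [mul_neg, fac] at h2 h3
  have h4 : (0 : ℚ) < 1 / (n + 1) := by positivity
  have h5 : (1 / (n + 1) : ℚ) ≤ 1 / 2 := one_div_le_one_div_of_le two_pos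
    (by exact_mod_cast (by omega : 2 ≤ n + 1))
  have h6 : z < 0 := by exact_mod_cast (by linarith : (z : ℚ) < 0)
  have h7 : -1 < z := by exact_mod_cast (by linarith : (-1 : ℚ) < z)
  omega

theorem per : ∃ (G : Type) (_ : TopologicalSpace G) (_ : AddCommGroup G), ContinuousAdd G ∧
    T2Space G ∧ (∀ x : G, ∀ U ∈ 𝓝 (0 : G), ∃ n : ℕ, 1 ≤ n ∧ n • x ∈ U) ∧
    (∃ D : Set G, Dense D ∧ ∀ B ⊆ D, B.Infinite → ∃ y, ∀ V ∈ 𝓝 y, (V ∩ B).Infinite) ∧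
    (∀ U ∈ 𝓝 (0 : G), ∃ F : Set G, F.Countable ∧ F + U = univ) ∧
    ¬ Continuous fun x : G => -x := by
  obtain ⟨g, h1, h2⟩ := Submodule.exists_le_ker_of_notMem (p := Submodule.span ℚ {(1 : ℝ)})
    (v := √2) fun h => by
      obtain ⟨q, hq⟩ := Submodule.mem_span_singleton.1 h
      exact irrational_sqrt_two ⟨q, by simpa using hq⟩
  obtain ⟨ℓ, hℓ⟩ := lift g (h2 (Submodule.mem_span_singleton_self _))
    fun q => ⟨(q / g √2) • √2, by rw [map_smul, smul_eq_mul, div_mul_cancel₀ _ h1]⟩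
  choose! y y1 y2 using hℓ
  obtain ⟨ρ, hρ⟩ := exists_dense_seq UnitAddCircle
  have hρ' : ∀ x, ∀ ε : ℝ, 0 < ε → ∃ i, ‖ρ i - x‖ < ε := fun x ε h => by
    simpa only [dist_eq_norm'] using hρ.exists_dist_lt x h
  let N : {ε : ℚ // 0 < ε} → Set UnitAddCircle := fun ε => {x | ‖x‖ < ε.1 ∧ ℓ x ∈ S ε}
  have hp : ∀ ε : {ε : ℚ // 0 < ε}, (0 : ℝ) < ε.1 / 2 := fun ε => half_pos (Rat.cast_pos.2 ε.2)
  let d : ℕ → UnitAddCircle := fun n => y (1 / (n + 1)!) (ρ n.unpair.1) (1 / (n + 1))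
  have d1 : ∀ n, ℓ (d n) = 1 / (n + 1)! := fun n => y2 _ _ _ one_div_pos_of_nat
  have d2 : Injective d := fun m n h => by
    have := (d1 m).symm.trans ((congrArg ℓ h).trans (d1 n))
    rw [one_div, one_div, inv_inj, Nat.cast_inj] at this
    exact (show StrictMono fun n => (n + 1)! from fun a b h =>
      factorial_lt_of_lt a.succ_pos (Nat.succ_lt_succ h)).injective this
  have d3 : ∀ x ε, ∃ᶠ n in atTop, ‖d n - x‖ < (ε : {ε : ℚ // 0 < ε}).1 := fun x ε => by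
    obtain ⟨i, hi⟩ := hρ' x _ (hp ε)
    obtain ⟨m, hm⟩ := exists_nat_one_div_lt (hp ε)
    refine frequently_atTop.2 fun k => ⟨Nat.pair i (k + m), (Nat.le_add_right _ _).trans
      (Nat.right_le_pair _ _), ?_⟩
    have h3 := y1 (1 / (Nat.pair i (k + m) + 1)!) (ρ i) (1 / (Nat.pair i (k + m) + 1 : ℝ))
      one_div_pos_of_nat
    have h4 : (1 / (Nat.pair i (k + m) + 1 : ℝ)) ≤ 1 / (m + 1) := Nat.one_div_le_one_div
      ((Nat.le_add_left _ _).trans (Nat.right_le_pair _ _))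
    simp only [d, Nat.unpair_pair]
    linarith [norm_sub_le_norm_sub_add_norm_sub
      (y (1 / (Nat.pair i (k + m) + 1)!) (ρ i) (1 / (Nat.pair i (k + m) + 1 : ℝ))) (ρ i) x]
  have d4 : ∀ x ε, ∀ᶠ n in atTop, ℓ (d n - x) ∈ S (ε : {ε : ℚ // 0 < ε}) := fun x ε => by
    simpa only [map_sub, d1] using S_lim ε.2 (ℓ x)
  have d5 : ∀ I : Set ℕ, I.Infinite → ∃ x, ∀ ε, {n | n ∈ I ∧ d n - x ∈ N ε}.Infinite := fun I hI => by
    haveI : (atTop ⊓ 𝓟 I).NeBot := frequently_iff_neBot.1 (Nat.frequently_atTop_iff_infinite.2 hI)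
    obtain ⟨x, hx⟩ := exists_clusterPt_of_compactSpace (map d (atTop ⊓ 𝓟 I))
    refine ⟨x, fun ε => Nat.frequently_atTop_iff_infinite.1 ?_⟩
    have := frequently_inf_principal.1 (mapClusterPt_iff_frequently.1 hx _
      (Metric.ball_mem_nhds x (Rat.cast_pos.2 ε.2)))
    exact (this.and_eventually (d4 x ε)).mono fun n h => ⟨h.1.1, mem_ball_iff_norm.1 h.1.2, h.2⟩
  have d6 : ∀ x ε, ∃ n : ℕ, 1 ≤ n ∧ n • x ∈ N ε := fun x ε => by
    obtain ⟨k, h3, h4⟩ := frequently_atTop.1 (mapClusterPt_iff_frequently.1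
      (mapClusterPt_zero_atTop_nsmul ((ℓ x).den • x)) _
      (Metric.ball_mem_nhds 0 (Rat.cast_pos.2 ε.2))) 1
    refine ⟨k * (ℓ x).den, Nat.mul_pos h3 (ℓ x).den_pos, by
      simpa only [mul_smul] using mem_ball_zero_iff.1 h4, ?_⟩
    convert S_int ε.2 (k * (ℓ x).num) using 1
    rw [map_nsmul, nsmul_eq_mul]; push_cast; rw [mul_assoc, Rat.den_mul_eq_num]
  haveI : Nonempty {ε : ℚ // 0 < ε} := ⟨⟨1, one_pos⟩⟩
  obtain ⟨t, t1, t2'⟩ := Cone.cone N (fun ε => ⟨by simpa using ε.2, by simpa using S_int ε.2 0⟩)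
    fun i j => ⟨⟨min i.1 j.1 / 2, half_pos (lt_min i.2 j.2)⟩, fun a ha b hb => by
      have h3 : ‖a + b‖ < (min i.1 j.1 : ℚ) := (norm_add_le a b).trans_lt
        ((add_lt_add ha.1 hb.1).trans_eq (by simp))
      exact ⟨⟨h3.trans_le (Rat.cast_le.2 (min_le_left _ _)), ℓ.map_add a b ▸ S_add
        ((add_halves _).trans_le (min_le_left _ _)) ha.2 hb.2⟩, h3.trans_le
        (Rat.cast_le.2 (min_le_right _ _)), ℓ.map_add a b ▸ S_add
        ((add_halves _).trans_le (min_le_right _ _)) ha.2 hb.2⟩⟩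
  refine ⟨_, t, inferInstance, t1, t2 t2' fun ε h => ?_, fun x U hU => ?_, ⟨range d, ?_,
    fun B hB h => ?_⟩, fun U hU => ?_, fun h => ?_⟩
  · obtain ⟨q, h3, h4⟩ := exists_rat_btwn h
    exact ⟨⟨q, Rat.cast_pos.1 h3⟩, fun x hx => hx.1.trans h4⟩
  · obtain ⟨ε, -, h3⟩ := (t2' 0).mem_iff.1 hU
    exact (d6 x ε).imp fun n h => ⟨h.1, h3 (by simpa using h.2)⟩
  · letI := t
    refine fun x => (mem_closure_iff_nhds_basis (t2' x)).2 fun ε _ => ?_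
    obtain ⟨n, hn⟩ := ((d3 x ε).and_eventually (d4 x ε)).exists
    exact ⟨_, mem_range_self n, hn⟩
  · obtain ⟨x, hx⟩ := d5 _ (h.preimage hB)
    refine ⟨x, fun V hV => ?_⟩
    obtain ⟨ε, -, h3⟩ := (t2' x).mem_iff.1 hV
    refine ((hx ε).image d2.injOn).mono ?_
    rintro _ ⟨n, hn, rfl⟩
    exact ⟨h3 hn.2, hn.1⟩
  · obtain ⟨ε, -, h3⟩ := (t2' 0).mem_iff.1 hU
    refine ⟨range fun z : ℚ × ℕ => y z.1 (ρ z.2) (ε.1 / 2), countable_range _,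
      eq_univ_of_forall fun x => ?_⟩
    obtain ⟨i, hi⟩ := hρ' x _ (hp ε)
    refine ⟨_, ⟨(ℓ x, i), rfl⟩, x - _, h3 ⟨?_, ?_⟩, add_sub_cancel _ _⟩
    · rw [sub_zero, norm_sub_rev]
      linarith [norm_sub_le_norm_sub_add_norm_sub (y (ℓ x) (ρ i) (ε.1 / 2)) (ρ i) x,
        y1 (ℓ x) (ρ i) _ (hp ε)]
    · simpa [y2 _ _ _ (hp ε)] using S_int ε.2 0
  · letI := t
    obtain ⟨ε, -, h3⟩ := ((t2' 0).tendsto_iff (t2' 0)).1 (h.tendsto' 0 0 neg_zero)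
      ⟨1 / 2, one_half_pos⟩ trivial
    obtain ⟨n, h4, h5⟩ := frequently_atTop.1 ((d3 0 ε).and_eventually (d4 0 ε)) 1
    exact S_neg h4 (by simpa [d1] using (h3 _ h5).2)

theorem lexi {Γ : Type} [AddCommGroup Γ] [LinearOrder Γ] [IsOrderedAddMonoid Γ]
    (ℓ : UnitAddCircle →+ Γ) (hℓ : ∀ v x, ∀ ε : ℝ, 0 < ε → ∃ y, ‖y - x‖ < ε ∧ ℓ y = v)
    (hb : ∀ u : ℕ → Γ, ∃ γ, ∀ n, u n < γ) :
    ∃ (G : Type) (_ : TopologicalSpace G) (_ : AddCommGroup G), ContinuousAdd G ∧ T2Space G ∧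
      (∀ 𝒰 : Set (Set G), (∀ U ∈ 𝒰, IsOpen U ∧ U.Nonempty) →
        LocallyFinite (fun U : 𝒰 => U.1) → 𝒰.Finite) ∧ BaireSpace G ∧
      ∃ U : ℕ → Set G, Antitone U ∧ (∀ n, IsOpen (U n) ∧ (U n).Nonempty) ∧
        ⋂ n, closure (-U n) = ∅ := by
  haveI : Nonempty {ε : ℝ // 0 < ε} := ⟨⟨1, one_pos⟩⟩
  have h1 : ∀ x : ℕ → UnitAddCircle, ∃ y, ∀ ε : ℝ, 0 < ε → {n | ‖x n - y‖ < ε}.Infinite := fun x => by
    obtain ⟨y, hy⟩ := exists_clusterPt_of_compactSpace (map x atTop)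
    exact ⟨y, fun ε h => Nat.frequently_atTop_iff_infinite.1 ((mapClusterPt_iff_frequently.1 hy _
      (Metric.ball_mem_nhds y h)).mono fun n => mem_ball_iff_norm.1)⟩
  have h2 : ∀ (x : ℕ → ℕ × ℕ → UnitAddCircle) (e : ℕ → ℕ × ℕ → ℝ), (∀ n z, 0 < e n z) →
      (∀ n y, ∀ ε : ℝ, 0 < ε → ∃ z, ‖x n z - y‖ < ε) → ∀ y γ, ∀ ε : ℝ, 0 < ε →
      ∃ w, ‖w - y‖ < ε ∧ γ ≤ ℓ w ∧ ∀ n, ∃ z, ‖w - x n z‖ < e n z := fun x e e1 e2 y γ ε h => by
    obtain ⟨c, c1, c2⟩ := hℓ (γ + γ) (y + y) _ (half_pos h)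
    have o1 : ∀ n, IsOpen (⋃ z, Metric.ball (x n z) (e n z)) := fun n =>
      isOpen_iUnion fun _ => Metric.isOpen_ball
    have o2 : ∀ n, Dense (⋃ z, Metric.ball (x n z) (e n z)) := fun n =>
      Metric.dense_iff.2 fun y r hr => (e2 n y r hr).elim fun z hz =>
        ⟨_, mem_ball_iff_norm.2 hz, mem_iUnion.2 ⟨z, Metric.mem_ball_self (e1 n z)⟩⟩
    obtain ⟨w, w1, w2⟩ := Metric.dense_iff.1 (dense_iInter_of_isOpen
      (fun n => (o1 n).inter ((o1 n).preimage (Homeomorph.subLeft c).continuous)) fun n =>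
      (o2 n).inter_of_isOpen_left ((o2 n).preimage (Homeomorph.subLeft c).isOpenMap) (o1 n)) y _
      (half_pos h)
    rw [mem_ball_iff_norm] at w1
    simp only [mem_iInter, mem_inter_iff, mem_preimage, mem_iUnion, mem_ball_iff_norm] at w2
    rcases le_total γ (ℓ w) with h3 | h3
    · exact ⟨w, w1.trans (half_lt_self h), h3, fun n => (w2 n).1⟩
    · refine ⟨c - w, ?_, by rw [map_sub, c2, add_sub_assoc]; simpa, fun n => (w2 n).2⟩
      rw [show c - w - y = (c - (y + y)) - (w - y) by abel]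
      linarith [norm_sub_le (c - (y + y)) (w - y)]
  obtain ⟨ρ, hρ⟩ := exists_dense_seq UnitAddCircle
  have hρ' : ∀ x, ∀ ε : ℝ, 0 < ε → ∃ i, ‖ρ i - x‖ < ε := fun x ε h => by
    simpa only [dist_eq_norm'] using hρ.exists_dist_lt x h
  obtain ⟨t, t1, t2'⟩ := Cone.cone (fun ε : {ε : ℝ // 0 < ε} => {x | ‖x‖ < ε.1 ∧ 0 ≤ ℓ x})
    (fun ε => ⟨by simpa using ε.2, by simp⟩)
    fun i j => ⟨⟨min i.1 j.1 / 2, half_pos (lt_min i.2 j.2)⟩, fun a ha b hb => by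
      have h3 := (norm_add_le a b).trans_lt ((add_lt_add ha.1 hb.1).trans_eq (add_halves _))
      have h4 := (add_nonneg ha.2 hb.2).trans_eq (ℓ.map_add a b).symm
      exact ⟨⟨h3.trans_le (min_le_left _ _), h4⟩, h3.trans_le (min_le_right _ _), h4⟩⟩
  have h0 := t2 t2' fun ε h => ⟨⟨ε, h⟩, fun x hx => hx.1⟩
  letI := t
  have h3 : ∀ x V, V ∈ 𝓝 x ↔ ∃ ε : ℝ, 0 < ε ∧ ∀ y, ‖y - x‖ < ε → ℓ x ≤ ℓ y → y ∈ V := fun x V => by
    simp [(t2' x).mem_iff, subset_def]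
  obtain ⟨γ, hγ⟩ := hb 0
  refine ⟨_, t, inferInstance, t1, h0, fun 𝒰 h4 h5 => by_contra fun h6 => ?_, ⟨fun O O1 O2 => ?_⟩,
    fun n => {x | ‖x‖ < 1 / (n + 1) ∧ γ ≤ ℓ x}, fun m n h x hx => ⟨hx.1.trans_le
      (Nat.one_div_le_one_div h), hx.2⟩, fun n => ⟨isOpen_iff_mem_nhds.2 fun x hx => (h3 _ _).2
      ⟨_, sub_pos.2 hx.1, fun y h4 h5 => ⟨by linarith [norm_le_norm_add_norm_sub' y x],
        hx.2.trans h5⟩⟩, ?_⟩, eq_empty_of_forall_notMem fun y hy => ?_⟩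
  · let U := Set.Infinite.natEmbedding 𝒰 h6
    choose x hx using fun n => (h4 _ (U n).2).2
    obtain ⟨y, hy⟩ := h1 x
    obtain ⟨V, h7, h8⟩ := h5 y
    obtain ⟨ε, h9, h7⟩ := (h3 _ _).1 h7
    refine hy ε h9 ((h8.preimage U.injective.injOn).subset fun n hn => ?_)
    obtain ⟨δ, d1, d2⟩ := (h3 _ _).1 ((h4 _ (U n).2).1.mem_nhds (hx n))
    obtain ⟨z, z1, z2⟩ := hℓ (max (ℓ (x n)) (ℓ y)) (x n) _ (lt_min d1 (sub_pos.2 hn))
    exact ⟨z, d2 z (lt_min_iff.1 z1).1 (z2 ▸ le_max_left _ _), h7 z (by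
      linarith [(lt_min_iff.1 z1).2, norm_sub_le_norm_sub_add_norm_sub z (x n) y])
      (z2 ▸ le_max_right _ _)⟩
  · choose x x1 x2 using fun n (z : ℕ × ℕ) => mem_closure_iff_nhds.1 (O2 n (ρ z.1))
      {y | ‖y - ρ z.1‖ < 1 / (z.2 + 1)} ((h3 _ _).2 ⟨_, one_div_pos_of_nat, fun y h _ => h⟩)
    choose e e1 e2 using fun n z => (h3 _ _).1 ((O1 n).mem_nhds (x2 n z))
    refine fun y => mem_closure_iff_nhds.2 fun V hV => ?_
    obtain ⟨ε, h4, h5⟩ := (h3 _ _).1 hV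
    obtain ⟨f, hf⟩ := exists_surjective_nat (ℕ × ℕ × ℕ)
    obtain ⟨δ, hδ⟩ := hb fun k => ℓ (x (f k).1 (f k).2)
    obtain ⟨w, w1, w2, w3⟩ := h2 x e e1 (fun n y ε h => by
      obtain ⟨i, hi⟩ := hρ' y _ (half_pos h)
      obtain ⟨k, hk⟩ := exists_nat_one_div_lt (half_pos h)
      exact ⟨(i, k), by linarith [show ‖x n (i, k) - ρ i‖ < 1 / (k + 1) from x1 n (i, k),
        norm_sub_le_norm_sub_add_norm_sub (x n (i, k)) (ρ i) y]⟩) y (max δ (ℓ y)) ε h4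
    refine ⟨w, h5 w w1 (le_of_max_le_right w2), mem_iInter.2 fun n => ?_⟩
    obtain ⟨z, hz⟩ := w3 n
    obtain ⟨k, hk⟩ := hf (n, z)
    exact e2 n z w hz (le_trans (by simpa only [hk] using (hδ k).le) (le_of_max_le_left w2))
  · obtain ⟨x, h4, h5⟩ := hℓ γ 0 _ (one_div_pos_of_nat (n := n))
    exact ⟨x, by simpa using h4, h5.ge⟩
  have h4 : ∀ n : ℕ, ∃ x, ‖x - y‖ < 1 / (n + 1) ∧ ℓ y ≤ ℓ x ∧ ‖-x‖ < 1 / (n + 1) ∧ γ ≤ ℓ (-x) :=
    fun n => by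
    obtain ⟨x, h4, h5⟩ := mem_closure_iff_nhds.1 (mem_iInter.1 hy n)
      {x | ‖x - y‖ < 1 / (n + 1) ∧ ℓ y ≤ ℓ x} ((h3 _ _).2 ⟨_, one_div_pos_of_nat, fun _ => And.intro⟩)
    exact ⟨x, h4.1, h4.2, h5⟩
  obtain rfl : y = 0 := norm_le_zero_iff.1 (le_of_forall_pos_le_add fun ε h => by
    obtain ⟨n, hn⟩ := exists_nat_one_div_lt (half_pos h)
    obtain ⟨x, h5, -, h6, -⟩ := h4 n
    rw [norm_neg] at h6
    linarith [norm_le_norm_add_norm_sub x y])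
  obtain ⟨x, -, h5, -, h6⟩ := h4 0
  rw [map_zero] at h5
  rw [map_neg] at h6
  exact (hγ 0).not_ge (h6.trans (neg_nonpos.2 h5))

open Omega1 in
theorem baire : ∃ (G : Type) (_ : TopologicalSpace G) (_ : AddCommGroup G), ContinuousAdd G ∧
    T2Space G ∧ (∀ 𝒰 : Set (Set G), (∀ U ∈ 𝒰, IsOpen U ∧ U.Nonempty) →
        LocallyFinite (fun U : 𝒰 => U.1) → 𝒰.Finite) ∧ BaireSpace G ∧
      ∃ U : ℕ → Set G, Antitone U ∧ (∀ n, IsOpen (U n) ∧ (U n).Nonempty) ∧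
        ⋂ n, closure (-U n) = ∅ := by
  let P := Submodule.span ℚ {(1 : ℝ)}
  let b := Module.Basis.ofVectorSpace ℚ (ℝ ⧸ P)
  obtain ⟨j⟩ : Nonempty (W ↪ Module.Basis.ofVectorSpaceIndex ℚ (ℝ ⧸ P)) := by
    rw [← Cardinal.le_def, mk_W, Cardinal.aleph_one_le_iff, Cardinal.aleph0_lt_mk_iff]
    refine ⟨fun h => ?_⟩
    have : Countable (ℝ ⧸ P.toAddSubgroup) := b.repr.injective.countable
    have : Countable P.toAddSubgroup := (LinearMap.toSpanSingleton ℚ ℝ 1).surjective_rangeRestrict.countable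
      |> fun h => by rwa [LinearMap.range_toSpanSingleton] at h
    exact not_countable (AddSubgroup.addGroupEquivQuotientProdAddSubgroup
      (s := P.toAddSubgroup)).injective.countable
  obtain ⟨ℓ, hℓ⟩ := lift (Finsupp.lmapDomain ℚ ℚ (invFun j) ∘ₗ b.repr.toLinearMap ∘ₗ P.mkQ)
    (by simp [(Submodule.Quotient.mk_eq_zero P).2 (Submodule.mem_span_singleton_self _)])
    ((Finsupp.mapDomain_surjective (invFun_surjective j.injective)).comp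
      (b.repr.surjective.comp P.mkQ_surjective))
  refine lexi (Γ := Colex (W →₀ ℚ)) ℓ hℓ fun u => ?_
  obtain ⟨a, ha⟩ := exists_bound (countable_iUnion fun n => (ofColex (u n)).support.countable_toSet)
  have h : ∀ n, ∀ c ≥ a, ofColex (u n) c = 0 := fun n c hc => Finsupp.notMem_support_iff.1
    fun h => (ha c (mem_iUnion.2 ⟨n, h⟩)).not_ge hc
  exact ⟨toColex (Finsupp.single a 1), fun n => Finsupp.Colex.lt_iff.2 ⟨a, fun c hc =>
    (h n c hc.le).trans (Finsupp.single_eq_of_ne hc.ne').symm, by simp [h n a le_rfl]⟩⟩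

theorem pos {G : Type*} [TopologicalSpace G] [Group G] [ContinuousMul G] [BaireSpace G]
    {D : Set G} (h1 : Dense D) (h2 : ∀ B ⊆ D, B.Infinite → ∃ y, ∀ V ∈ 𝓝 y, (V ∩ B).Infinite)
    (U : ℕ → Set G) (h3 : Antitone U) (h4 : ∀ n, IsOpen (U n) ∧ (U n).Nonempty) :
    (⋂ n, closure (U n)⁻¹).Nonempty := by
  obtain ⟨h, hh⟩ := (dense_iInter_of_isOpen (f := fun n => D * U n) (fun n => (h4 n).1.mul_left)
    fun n => by
      obtain ⟨u, hu⟩ := (h4 n).2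
      exact ((Homeomorph.mulRight u).surjective.denseRange.dense_image
        (Homeomorph.mulRight u).continuous h1).mono (image_subset_image2_left hu)).nonempty
  choose d d1 u d2 d3 using mem_iInter.1 hh
  obtain ⟨y, hy⟩ : ∃ y, ∀ V ∈ 𝓝 y, (d ⁻¹' V).Infinite := by
    by_cases h : (range d).Finite
    · obtain ⟨y, -, hy⟩ : ∃ y ∈ range d, (d ⁻¹' {y}).Infinite := by
        by_contra h5
        push Not at h5
        exact infinite_univ ((h.biUnion h5).subset fun n _ => mem_biUnion (mem_range_self n) rfl)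
      exact ⟨y, fun V hV => hy.mono (preimage_mono (singleton_subset_iff.2 (mem_of_mem_nhds hV)))⟩
    · exact (h2 _ (range_subset_iff.2 d1) h).imp fun y hy V hV =>
        ((hy V hV).preimage inter_subset_right).mono fun _ h => h.1
  refine ⟨h⁻¹ * y, mem_iInter.2 fun n => mem_closure_iff_nhds.2 fun V hV => ?_⟩
  obtain ⟨m, h5, h6⟩ := (hy _ ((continuous_const_mul h⁻¹).continuousAt hV)).exists_gt n
  exact ⟨_, h5, mem_inv.2 (h3 h6.le (by simpa [← d3 m] using d2 m))⟩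

end Pool.Agent.H31.Para
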