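import Pool.Agent.H31.QCDefs
import Pool.Agent.H31.NS

namespace Pool.Agent.H31.QC

open Set Topology Filter TopologicalSpace Omega1

universe u

theorem sigma_fu {X : Type u} (q : X) (P : (X → ℝ) → Prop)
    (hP : ∀ f, P f → {x | f x ≠ f q}.Countable) : FrechetUrysohnSpace {f : X → ℝ // P f} := by
  classical
  constructor
  intro A g hg
  have hs : ∀ f : {f : X → ℝ // P f}, ∃ s : ℕ → X, s 0 = q ∧ ∀ x, f.1 x ≠ f.1 q → x ∈ range s := by
    intro f
    obtain ⟨s, hs⟩ := ((hP f.1 f.2).insert q).exists_eq_range (insert_nonempty _ _)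
    refine ⟨fun n => Nat.casesOn n q s, rfl, fun x hx => ?_⟩
    have : x ∈ range s := hs ▸ mem_insert_of_mem _ hx
    obtain ⟨n, rfl⟩ := this
    exact ⟨n + 1, rfl⟩
  choose s hs0 hs using hs
  have step : ∀ (T : Finset X) (n : ℕ), ∃ f ∈ A, ∀ x ∈ T,
      dist (f.1 x) (g.1 x) < 1 / ((n : ℝ) + 1) := by
    intro T n
    have hO : IsOpen (⋂ x ∈ T, {f : {f : X → ℝ // P f} |
        dist (f.1 x) (g.1 x) < 1 / ((n : ℝ) + 1)}) :=
      isOpen_biInter_finset fun x _ => isOpen_lt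
        (((continuous_apply x).comp continuous_subtype_val).dist continuous_const) continuous_const
    obtain ⟨f, hf, hfA⟩ := mem_closure_iff.mp hg _ hO (mem_iInter₂.mpr fun x _ => by
      simpa using Nat.cast_add_one_pos n)
    exact ⟨f, hfA, fun x hx => mem_iInter₂.mp hf x hx⟩
  choose F hFA hF using step
  let L : ℕ → List {f : X → ℝ // P f} := fun n => Nat.rec [g] (fun k l =>
    F (l.toFinset.biUnion fun f => (Finset.range (k + 1)).image (s f)) k :: l) n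
  let f : ℕ → {f : X → ℝ // P f} := fun k =>
    F ((L k).toFinset.biUnion fun f => (Finset.range (k + 1)).image (s f)) k
  have hL : ∀ k, L (k + 1) = f k :: L k := fun k => rfl
  have hmono : ∀ h k, h ∈ L k → ∀ m ≥ k, h ∈ L m := by
    intro h k hk m hm
    induction hm with
    | refl => exact hk
    | step _ ih => rw [hL]; exact List.mem_cons_of_mem _ ih
  have conv : ∀ h k j, h ∈ L k → Tendsto (fun n => (f n).1 (s h j)) atTop (𝓝 (g.1 (s h j))) := by
    intro h k j hk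
    rw [tendsto_iff_dist_tendsto_zero]
    refine squeeze_zero' (Eventually.of_forall fun _ => dist_nonneg) ?_
      tendsto_one_div_add_atTop_nhds_zero_nat
    filter_upwards [eventually_ge_atTop k, eventually_ge_atTop j] with n h1 h2
    apply (hF _ n _ _).le
    exact Finset.mem_biUnion.mpr ⟨h, List.mem_toFinset.mpr (hmono h k hk n h1),
      Finset.mem_image_of_mem _ (Finset.mem_range.mpr (by omega))⟩
  refine ⟨f, fun n => hFA _ _, ?_⟩
  rw [tendsto_subtype_rng, tendsto_pi_nhds]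
  intro x
  have hg0 : g ∈ L 0 := List.mem_singleton.mpr rfl
  by_cases h1 : ∃ k, x ∈ range (s (f k))
  · obtain ⟨k, j, rfl⟩ := h1
    exact conv (f k) (k + 1) j (by rw [hL]; exact List.mem_cons_self)
  by_cases h2 : x ∈ range (s g)
  · obtain ⟨j, rfl⟩ := h2
    exact conv g 0 j hg0
  push Not at h1
  have h3 : g.1 x = g.1 q := by
    by_contra h; exact h2 (hs g x h)
  have h4 : ∀ k, (f k).1 x = (f k).1 q := fun k => by
    by_contra h; exact h1 k (hs _ x h)
  simp only [h3, h4]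
  have := conv g 0 0 hg0
  rwa [hs0] at this

section
variable (d : ℕ → W → NS.F)

/-- basic sets -/
def cond (T : Finset W) (n : ℕ) : Set ℕ := {m | ∀ a ∈ T, d m a = d n a}

/-- good families -/
def Good (S : Set (Set ℕ)) : Prop :=
  univ ∈ S ∧ (∀ F ∈ S, ∀ G ∈ S, F ∩ G ∈ S) ∧ ∀ F ∈ S, ∀ T n, (F ∩ cond d T n).Nonempty

theorem exists_max : ∃ S, Good d S ∧
    ∀ B, B ∈ S ∨ ∃ F ∈ S, ∃ T n, F ∩ cond d T n ⊆ Bᶜ := by
  obtain ⟨S, -, hS⟩ := zorn_subset_nonempty {S | Good d S} (by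
    intro c hc hch ⟨S0, hS0⟩
    refine ⟨⋃₀ c, ⟨⟨S0, hS0, (hc hS0).1⟩, ?_, ?_⟩, fun s hs => subset_sUnion_of_mem hs⟩
    · rintro F ⟨s, hs, hF⟩ G ⟨t, ht, hG⟩
      rcases hch.total hs ht with h | h
      · exact ⟨t, ht, (hc ht).2.1 F (h hF) G hG⟩
      · exact ⟨s, hs, (hc hs).2.1 F hF G (h hG)⟩
    · rintro F ⟨s, hs, hF⟩
      exact (hc hs).2.2 F hF) {univ} ⟨rfl, by
      rintro _ rfl _ rfl; simp, by
      rintro _ rfl T n
      exact ⟨n, mem_univ _, fun _ _ => rfl⟩⟩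
  refine ⟨S, hS.prop, fun B => ?_⟩
  by_contra hcon
  push Not at hcon
  have h1 : ∀ F ∈ S, ∀ T n, ((F ∩ B) ∩ cond d T n).Nonempty := by
    intro F hF T n
    obtain ⟨m, hm, hm'⟩ := not_subset.mp (hcon.2 F hF T n)
    exact ⟨m, ⟨hm.1, not_not.mp hm'⟩, hm.2⟩
  have h2 : Good d (S ∪ (fun F => F ∩ B) '' S) := by
    refine ⟨Or.inl hS.prop.1, ?_, ?_⟩
    · rintro F (hF | ⟨F, hF, rfl⟩) G (hG | ⟨G, hG, rfl⟩)
      · exact Or.inl (hS.prop.2.1 F hF G hG)
      · exact Or.inr ⟨F ∩ G, hS.prop.2.1 F hF G hG, by ext; simp [and_assoc]⟩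
      · exact Or.inr ⟨F ∩ G, hS.prop.2.1 F hF G hG, by ext; simp; tauto⟩
      · exact Or.inr ⟨F ∩ G, hS.prop.2.1 F hF G hG, by ext; simp; tauto⟩
    · rintro F (hF | ⟨F, hF, rfl⟩)
      · exact hS.prop.2.2 F hF
      · exact h1 F hF
  have h3 := hS.eq_of_subset h2 subset_union_left
  apply hcon.1
  rw [h3]
  exact Or.inr ⟨univ, hS.prop.1, univ_inter B⟩

/-- forcing relation -/
def Fo (S : Set (Set ℕ)) (T : Finset W) (n : ℕ) (B : Set ℕ) : Prop :=
  ∃ F ∈ S, F ∩ cond d T n ⊆ B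

/-- supported sets -/
def Sup (S : Set (Set ℕ)) (C : Set W) (B : Set ℕ) : Prop :=
  ∀ T n, Fo d S T n B → ∃ T' ⊆ T, (T' : Set W) ⊆ C ∧ Fo d S T' n B

variable {d} {S : Set (Set ℕ)}

theorem dec (hS : Good d S) (hM : ∀ B, B ∈ S ∨ ∃ F ∈ S, ∃ T n, F ∩ cond d T n ⊆ Bᶜ)
    (T : Finset W) (n : ℕ) (B : Set ℕ) (h : ¬ Fo d S T n B) :
    ∃ T' m, m ∈ cond d T n ∧ Fo d S T' m Bᶜ := by
  rcases hM (B ∪ (cond d T n)ᶜ) with h1 | ⟨F, hF, T', n', h1⟩
  · exact absurd ⟨_, h1, fun m hm => hm.1.resolve_right (fun h => h hm.2)⟩ h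
  · obtain ⟨m, hm⟩ := hS.2.2 F hF T' n'
    have h2 := h1 hm
    rw [compl_union, compl_compl] at h2
    refine ⟨T', m, h2.2, F, hF, fun k hk => ?_⟩
    have h3 := h1 (show k ∈ F ∩ cond d T' n' from
      ⟨hk.1, fun a ha => (hk.2 a ha).trans (hm.2 a ha)⟩)
    exact fun hB => h3 (Or.inl hB)

theorem Fo.inter (hS : Good d S) {T T' : Finset W} {n : ℕ} {B B' : Set ℕ} (h : Fo d S T n B)
    (h' : Fo d S T' n B') : Fo d S (T ∪ T') n (B ∩ B') := by
  obtain ⟨F, hF, h⟩ := h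
  obtain ⟨F', hF', h'⟩ := h'
  refine ⟨F ∩ F', hS.2.1 F hF F' hF', fun m hm => ⟨h ⟨hm.1.1, fun a ha => hm.2 a ?_⟩,
    h' ⟨hm.1.2, fun a ha => hm.2 a ?_⟩⟩⟩
  · exact Finset.mem_union_left _ ha
  · exact Finset.mem_union_right _ ha

theorem Fo.mono {T : Finset W} {n : ℕ} {B B' : Set ℕ} (h : Fo d S T n B) (hB : B ⊆ B') :
    Fo d S T n B' := by
  obtain ⟨F, hF, h⟩ := h
  exact ⟨F, hF, h.trans hB⟩

theorem Sup.inter (hS : Good d S) {C : Set W} {B B' : Set ℕ} (h : Sup d S C B)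
    (h' : Sup d S C B') : Sup d S C (B ∩ B') := by
  intro T n hT
  obtain ⟨T1, h1, h2, h3⟩ := h T n (hT.mono inter_subset_left)
  obtain ⟨T2, h4, h5, h6⟩ := h' T n (hT.mono inter_subset_right)
  refine ⟨T1 ∪ T2, Finset.union_subset h1 h4, ?_, h3.inter hS h6⟩
  rw [Finset.coe_union]
  exact union_subset h2 h5

theorem exists_sup (hd : ∀ (s : Finset W) (f : W → NS.F), ∃ n, ∀ i ∈ s, d n i = f i)
    (hS : Good d S) (hM : ∀ B, B ∈ S ∨ ∃ F ∈ S, ∃ T n, F ∩ cond d T n ⊆ Bᶜ) (B : Set ℕ) :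
    ∃ C : Set W, C.Countable ∧ Sup d S C B := by
  classical
  have h1 : ∀ (T : Finset W) (n : ℕ), ∃ T' : Finset W, ¬ Fo d S T n B →
      ∃ m, m ∈ cond d T n ∧ Fo d S T' m Bᶜ := by
    intro T n
    by_cases h : Fo d S T n B
    · exact ⟨∅, fun h' => absurd h h'⟩
    · obtain ⟨T', m, h2⟩ := dec hS hM T n B h
      exact ⟨T', fun _ => ⟨m, h2⟩⟩
  choose u hu using h1
  let C : ℕ → Set W := fun k => Nat.rec ∅
    (fun _ D => D ∪ ⋃ T ∈ {T : Finset W | (T : Set W) ⊆ D}, ⋃ n, (u T n : Set W)) k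
  have hC : ∀ k, C (k + 1) = C k ∪ ⋃ T ∈ {T : Finset W | (T : Set W) ⊆ C k}, ⋃ n,
    (u T n : Set W) := fun k => rfl
  have hc : ∀ k, (C k).Countable := by
    intro k
    induction k with
    | zero => exact countable_empty
    | succ k ih =>
      rw [hC]
      refine ih.union (Countable.biUnion ?_ fun T _ =>
        countable_iUnion fun n => (u T n).countable_toSet)
      exact ((countable_setOf_finite_subset ih).preimage_of_injOn
        (f := fun T : Finset W => (T : Set W)) (fun _ _ _ _ h => Finset.coe_injective h)).mono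
        fun T hT => And.intro T.finite_toSet hT
  have hmono : Monotone C := monotone_nat_of_le_succ fun k => by
    rw [hC]; exact subset_union_left
  refine ⟨⋃ k, C k, countable_iUnion hc, fun T n hT => ?_⟩
  let T0 := T.filter (· ∈ ⋃ k, C k)
  refine ⟨T0, Finset.filter_subset _ _, fun a ha => (Finset.mem_filter.mp ha).2, ?_⟩
  by_contra hcon
  obtain ⟨m, hm, hF⟩ := hu T0 n hcon
  have h2 : ∃ k, (T0 : Set W) ⊆ C k := by
    have h3 : ∀ a ∈ T0, ∀ᶠ k in atTop, a ∈ C k := by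
      intro a ha
      obtain ⟨k, hk⟩ := mem_iUnion.mp (Finset.mem_filter.mp ha).2
      filter_upwards [eventually_ge_atTop k] with l hl using hmono hl hk
    obtain ⟨k, hk⟩ := ((eventually_all_finset T0).mpr h3).exists
    exact ⟨k, hk⟩
  obtain ⟨k, hk⟩ := h2
  have h3 : ∀ a ∈ u T0 n, a ∈ ⋃ k, C k := fun a ha => mem_iUnion.mpr ⟨k + 1, by
    rw [hC]
    exact Or.inr (mem_iUnion₂.mpr ⟨T0, hk, mem_iUnion.mpr ⟨n, ha⟩⟩)⟩
  obtain ⟨l, hl⟩ := hd (T ∪ u T0 n) (fun a => if a ∈ T then d n a else d m a)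
  obtain ⟨F, hF1, hF2⟩ := hT
  obtain ⟨G, hG1, hG2⟩ := hF
  obtain ⟨j, hj1, hj2⟩ := hS.2.2 _ (hS.2.1 F hF1 G hG1) (T ∪ u T0 n) l
  refine hG2 ⟨hj1.2, fun a ha => ?_⟩ (hF2 ⟨hj1.1, fun a ha => ?_⟩)
  · rw [hj2 a (Finset.mem_union_right _ ha), hl a (Finset.mem_union_right _ ha)]
    split_ifs with h
    · exact (hm a (Finset.mem_filter.mpr ⟨h, h3 a ha⟩)).symm
    · rfl
  · rw [hj2 a (Finset.mem_union_left _ ha), hl a (Finset.mem_union_left _ ha), if_pos ha]

end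

theorem exists_conv : ∃ (q : Ultrafilter ℕ) (p : W → Ultrafilter ℕ), (∀ a, p a ≠ q) ∧
    ∀ B ∈ q, {a | B ∉ p a}.Countable := by
  classical
  obtain ⟨r⟩ : Nonempty (W ↪ ℝ) := by
    rw [← Cardinal.le_def, Cardinal.mk_real, mk_W]
    exact Cardinal.aleph_one_le_continuum
  obtain ⟨d, hd⟩ := NS.sepF r r.injective
  obtain ⟨S, hS, hM⟩ := exists_max d
  obtain ⟨q, hq⟩ := Ultrafilter.exists_ultrafilter_of_finite_inter_nonempty S (by
    intro T hT
    have : ⋂₀ (T : Set (Set ℕ)) ∈ S := by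
      induction T using Finset.induction_on with
      | empty => simpa using hS.1
      | insert a s _ ih =>
        rw [Finset.coe_insert, sInter_insert]
        rw [Finset.coe_insert] at hT
        exact hS.2.1 _ (hT (mem_insert _ _)) _ (ih ((subset_insert _ _).trans hT))
    exact (hS.2.2 _ this ∅ 0).mono inter_subset_left)
  have key : ∀ (a : W) (c : NS.F), ∃ p : Ultrafilter ℕ, {n | d n a = c} ∈ p ∧
      ∀ B ∈ q, Sup d S (Iio a) B → B ∈ p := by
    intro a c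
    have h1 : ∀ B ∈ q, Sup d S (Iio a) B → (B ∩ {n | d n a = c}).Nonempty := by
      intro B hB hs
      have h2 : ¬ Fo d S ∅ 0 Bᶜ := by
        rintro ⟨F, hF, h⟩
        obtain ⟨n, hn⟩ := q.nonempty_of_mem (inter_mem (hq hF) hB)
        exact h ⟨hn.1, fun a ha => absurd ha (Finset.notMem_empty a)⟩ hn.2
      obtain ⟨T, m, -, h3⟩ := dec hS hM ∅ 0 Bᶜ h2
      rw [compl_compl] at h3
      obtain ⟨T', -, h4, F, hF, h5⟩ := hs T m h3
      obtain ⟨l, hl⟩ := hd (insert a T') (fun b => if b = a then c else d m b)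
      obtain ⟨j, hj1, hj2⟩ := hS.2.2 F hF (insert a T') l
      refine ⟨j, h5 ⟨hj1, fun b hb => ?_⟩, ?_⟩
      · rw [hj2 b (Finset.mem_insert_of_mem hb), hl b (Finset.mem_insert_of_mem hb),
          if_neg (ne_of_lt (h4 hb))]
      · show d j a = c
        rw [hj2 a (Finset.mem_insert_self _ _), hl a (Finset.mem_insert_self _ _), if_pos rfl]
    obtain ⟨p, hp⟩ := Ultrafilter.exists_ultrafilter_of_finite_inter_nonempty
      ((fun B => B ∩ {n | d n a = c}) '' {B | B ∈ q ∧ Sup d S (Iio a) B}) (by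
      intro T hT
      have : ∃ B ∈ q, Sup d S (Iio a) B ∧ B ∩ {n | d n a = c} ⊆ ⋂₀ (T : Set (Set ℕ)) := by
        induction T using Finset.induction_on with
        | empty =>
          exact ⟨univ, univ_mem, fun T n _ => ⟨∅, Finset.empty_subset _, by simp,
            univ, hS.1, subset_univ _⟩, by simp⟩
        | insert b s _ ih =>
          rw [Finset.coe_insert] at hT
          obtain ⟨B, h2, h3, h4⟩ := ih ((subset_insert _ _).trans hT)
          obtain ⟨B', ⟨h5, h6⟩, h7⟩ := hT (mem_insert _ _)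
          refine ⟨B ∩ B', inter_mem h2 h5, h3.inter hS h6, ?_⟩
          rw [Finset.coe_insert, sInter_insert, ← h7]
          exact fun x hx => ⟨⟨hx.1.2, hx.2⟩, h4 ⟨hx.1.1, hx.2⟩⟩
      obtain ⟨B, h2, h3, h4⟩ := this
      exact (h1 B h2 h3).mono h4)
    refine ⟨p, ?_, fun B hB hs => mem_of_superset (hp ⟨B, ⟨hB, hs⟩, rfl⟩) inter_subset_left⟩
    exact mem_of_superset (hp ⟨univ, ⟨univ_mem, fun T n _ => ⟨∅, Finset.empty_subset _, by simp,
      univ, hS.1, subset_univ _⟩⟩, rfl⟩) inter_subset_right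
  have key2 : ∀ a : W, ∃ p : Ultrafilter ℕ, p ≠ q ∧ ∀ B ∈ q, Sup d S (Iio a) B → B ∈ p := by
    intro a
    obtain ⟨p0, h0, h0'⟩ := key a 0
    obtain ⟨p1, h1, h1'⟩ := key a 1
    by_cases h : p0 = q
    · refine ⟨p1, fun h' => ?_, h1'⟩
      rw [h] at h0
      rw [h'] at h1
      obtain ⟨n, hn⟩ := q.nonempty_of_mem (inter_mem h0 h1)
      exact zero_ne_one (hn.1.symm.trans hn.2)
    · exact ⟨p0, h, h0'⟩
  choose p hp hp' using key2
  refine ⟨q, p, hp, fun B hB => ?_⟩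
  obtain ⟨C, hC, hs⟩ := exists_sup hd hS hM B
  obtain ⟨b, hb⟩ := exists_bound hC
  refine (countable_Iio b).mono fun a ha => ?_
  by_contra h
  refine ha (hp' a B hB fun T n hT => ?_)
  obtain ⟨T', h1, h2, h3⟩ := hs T n hT
  exact ⟨T', h1, fun x hx => lt_of_lt_of_le (hb x (h2 hx)) (not_lt.mp h), h3⟩

theorem main : ∃ (X : Type) (_ : TopologicalSpace X), T35Space X ∧ Uncountable X ∧
    FrechetUrysohnSpace {f : X → ℝ // Quasi f} ∧ ¬ Lusin X := by
  obtain ⟨q, p, hp, hq⟩ := exists_conv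
  let Y : Set (Ultrafilter ℕ) := range pure ∪ insert q (range p)
  have hpu : ¬ (range p).Countable := by
    intro hc
    have h1 : ∀ u ∈ range p, (p ⁻¹' {u}).Countable := by
      rintro _ ⟨a, rfl⟩
      have : ∃ B ∈ q, B ∉ p a := by
        by_contra hcon
        push Not at hcon
        exact hp a (Ultrafilter.eq_of_le (fun B hB => hcon B hB))
      obtain ⟨B, hB, hB'⟩ := this
      refine (hq B hB).mono fun b hb => ?_
      have hb' : p b = p a := hb
      show B ∉ p b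
      rwa [hb']
    refine not_countable_univ ((hc.biUnion h1).mono fun a _ => ?_)
    exact mem_biUnion (mem_range_self a) rfl
  let N : Set Y := {y | y.1 ∉ range pure}
  have hN : ¬ N.Countable := by
    intro hc
    refine hpu (((hc.image Subtype.val).union (countable_range (pure : ℕ → Ultrafilter ℕ))).mono ?_)
    intro u hu
    by_cases h : u ∈ range (pure : ℕ → Ultrafilter ℕ)
    · exact Or.inr h
    · exact Or.inl ⟨⟨u, Or.inr (Or.inr hu)⟩, h, rfl⟩
  have hden : ∀ U : Set Y, IsOpen U → U.Nonempty → ∃ n, ∃ h, (⟨pure n, h⟩ : Y) ∈ U := by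
    rintro _ ⟨U, hU, rfl⟩ ⟨y, hy⟩
    obtain ⟨n, hn⟩ := denseRange_pure.exists_mem_open hU ⟨y, hy⟩
    exact ⟨n, Or.inl ⟨n, rfl⟩, hn⟩
  let e : ℕ → Y := fun n => ⟨pure n, Or.inl ⟨n, rfl⟩⟩
  have lim : ∀ f : Y → ℝ, Quasi f → ∀ y : Y, Tendsto (fun n => f (e n)) y.1 (𝓝 (f y)) := by
    intro f hf y
    rw [tendsto_nhds]
    intro V hV hy
    by_contra hcon
    have h1 : ((fun n => f (e n)) ⁻¹' V)ᶜ ∈ y.1 := Ultrafilter.compl_mem_iff_notMem.mpr hcon
    obtain ⟨O, hO, hne, h2, h3⟩ := hf y _ V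
      ((ultrafilter_isOpen_basic ((fun n => f (e n)) ⁻¹' V)ᶜ).preimage continuous_subtype_val)
      h1 hV hy
    obtain ⟨n, h, hn⟩ := hden O hO hne
    exact (h2 hn) (h3 ⟨_, hn, rfl⟩)
  refine ⟨Y, inferInstance, inferInstance, ?_, ?_, ?_⟩
  · exact not_countable_iff.mp fun hc => hN (Set.to_countable N)
  · refine sigma_fu (⟨q, Or.inr (Or.inl rfl)⟩ : Y) Quasi fun f hf => ?_
    set q' : Y := ⟨q, Or.inr (Or.inl rfl)⟩
    have h1 : ∀ k : ℕ, {a | (fun n => f (e n)) ⁻¹' Metric.closedBall (f q') (1 / ((k : ℝ) + 1))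
        ∉ p a}.Countable := fun k =>
      hq _ (lim f hf q' (Metric.closedBall_mem_nhds _ Nat.one_div_pos_of_nat))
    refine ((countable_range e).union ((countable_iUnion h1).image
      fun a => (⟨p a, Or.inr (Or.inr ⟨a, rfl⟩)⟩ : Y))).mono ?_
    rintro ⟨u, ⟨n, rfl⟩ | rfl | ⟨a, rfl⟩⟩ hu
    · exact Or.inl ⟨n, rfl⟩
    · exact absurd rfl hu
    · refine Or.inr ⟨a, ?_, rfl⟩
      by_contra hcon
      simp only [mem_iUnion, mem_setOf_eq, not_exists, not_not] at hcon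
      apply hu
      apply eq_of_forall_dist_le
      intro ε hε
      obtain ⟨k, hk⟩ := exists_nat_one_div_lt hε
      have := Metric.isClosed_closedBall.mem_of_tendsto (lim f hf ⟨p a, Or.inr (Or.inr ⟨a, rfl⟩)⟩)
        (hcon k)
      exact (Metric.mem_closedBall.mp this).trans hk.le
  · rintro ⟨h, -, -⟩
    apply hN (h N _)
    have hcl : IsClosed N := by
      rw [← isOpen_compl_iff]
      have : Nᶜ = ⋃ n, Subtype.val ⁻¹' {u : Ultrafilter ℕ | {n} ∈ u} := by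
        ext y
        simp only [N, mem_compl_iff, mem_setOf_eq, not_not, mem_iUnion, mem_preimage, mem_range]
        refine exists_congr fun n => ⟨fun h => h ▸ singleton_mem_pure, fun h => ?_⟩
        exact (Ultrafilter.eq_of_le (le_pure_iff.mpr h)).symm
      rw [this]
      exact isOpen_iUnion fun n => (ultrafilter_isOpen_basic _).preimage continuous_subtype_val
    rw [hcl.isNowhereDense_iff, eq_empty_iff_forall_notMem]
    intro y hy
    obtain ⟨n, h, hn⟩ := hden _ isOpen_interior ⟨y, hy⟩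
    exact interior_subset hn ⟨n, rfl⟩

end Pool.Agent.H31.QC
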