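import Mathlib

namespace Pool.Agent.H31.QC

universe u

/-- quasicontinuous real function -/
def Quasi {X : Type u} [TopologicalSpace X] (f : X → ℝ) : Prop :=
  ∀ (x : X) (U : Set X) (V : Set ℝ), IsOpen U → x ∈ U → IsOpen V → f x ∈ V →
    ∃ W : Set X, IsOpen W ∧ W.Nonempty ∧ W ⊆ U ∧ f '' W ⊆ V

/-- Lusin space in the sense of Kunen (the Hausdorff axiom is stated separately) -/
def Lusin (X : Type u) [TopologicalSpace X] : Prop :=
  (∀ s : Set X, IsNowhereDense s → s.Countable) ∧ {x : X | IsOpen ({x} : Set X)}.Countable ∧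
    Uncountable X

end Pool.Agent.H31.QC
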