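import Pool.Agent.H31.QSDefs
import Pool.Agent.H31.QC

namespace Pool.Agent.H31.QS

open Set Topology Filter TopologicalSpace QC

universe u

theorem exists_I : ∃ (q : Ultrafilter ℕ) (I : Set (Ultrafilter ℕ)), ¬ I.Countable ∧
    (∀ n, {n}ᶜ ∈ q) ∧ (∀ u ∈ I, u ≠ q ∧ ∀ n, {n}ᶜ ∈ u) ∧ ∀ B ∈ q, {u ∈ I | B ∉ u}.Countable := by
  obtain ⟨q, p, hp, hq⟩ := exists_conv
  have hpu : ¬ (range p).Countable := by
    intro hc
    have h1 : ∀ u ∈ range p, (p ⁻¹' {u}).Countable := by
      rintro _ ⟨a, rfl⟩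
      have : ∃ B ∈ q, B ∉ p a := by
        by_contra hcon
        push Not at hcon
        exact hp a (Ultrafilter.eq_of_le (fun B hB => hcon B hB))
      obtain ⟨B, hB, hB'⟩ := this
      refine (hq B hB).mono fun b hb => ?_
      have hb' : p b = p a := hb
      show B ∉ p b
      rwa [hb']
    refine not_countable_univ ((hc.biUnion h1).mono fun a _ => ?_)
    exact mem_biUnion (mem_range_self a) rfl
  have hpure : ∀ (u : Ultrafilter ℕ) (n : ℕ), {n} ∈ u → u = pure n := fun u n h =>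
    Ultrafilter.eq_of_le (le_pure_iff.mpr h)
  refine ⟨q, range p \ range pure, fun hc => hpu ((hc.union
    (countable_range (pure : ℕ → Ultrafilter ℕ))).mono (subset_diff_union _ _)), ?_, ?_, ?_⟩
  · intro n
    rw [Ultrafilter.compl_mem_iff_notMem]
    intro h
    refine not_countable_univ ((hq _ h).mono fun a _ h' => ?_)
    exact hp a ((hpure _ n h').trans (hpure _ n h).symm)
  · rintro _ ⟨⟨a, rfl⟩, h⟩
    refine ⟨hp a, fun n => ?_⟩
    rw [Ultrafilter.compl_mem_iff_notMem]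
    exact fun h' => h ⟨n, (hpure _ n h').symm⟩
  · intro B hB
    refine ((hq B hB).image p).mono ?_
    rintro _ ⟨⟨⟨a, rfl⟩, -⟩, h⟩
    exact ⟨a, h, rfl⟩

variable {X : Type u} [TopologicalSpace X]

theorem mb {F W : Set X} (hW : IsOpen W) (hF : F ⊆ closure W) :
    MB (F ∪ interior (closure W)) := by
  have h1 : W ⊆ interior (F ∪ interior (closure W)) :=
    interior_maximal ((interior_maximal subset_closure hW).trans subset_union_right) hW
  constructor
  · exact (union_subset hF interior_subset).trans (closure_mono h1)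
  · refine (interior_mono ?_).trans subset_union_right
    exact closure_minimal (union_subset hF interior_subset) isClosed_closure

theorem pick (h : S1weak X) (H : Filter X) [H.NeBot] (𝒰 : ℕ → Set (Set X))
    (h1 : ∀ n, OmegaS (𝒰 n)) (h2 : ∀ n, ∀ U ∈ 𝒰 n, Uᶜ ∈ H) :
    ∃ φ : ℕ → ℕ, Tendsto φ atTop atTop ∧ ∃ U : ℕ → Set X, (∀ k, U k ∈ 𝒰 (φ k)) ∧
      ∀ x, ∀ᶠ k in atTop, x ∈ U k := by
  obtain ⟨U, hU, -, hc, hf⟩ := h 𝒰 (fun n => ⟨h1 n, fun hu => by
    have := h2 n _ hu
    rw [compl_univ] at this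
    exact empty_notMem H this⟩)
  have hinf : (range U).Infinite := by
    intro hfin
    have : (⋂ V ∈ range U, Vᶜ) ∈ H := (biInter_mem hfin).mpr (by
      rintro _ ⟨n, rfl⟩; exact h2 n _ (hU n))
    obtain ⟨x, hx⟩ := H.nonempty_of_mem this
    obtain ⟨V, hV, hxV⟩ : x ∈ ⋃₀ range U := hc ▸ mem_univ x
    exact mem_iInter₂.mp hx V hV hxV
  let e := hinf.natEmbedding
  choose φ hφ using fun k => (e k).2
  refine ⟨φ, Function.Injective.nat_tendsto_atTop fun k l hkl => e.injective (Subtype.ext ?_),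
    fun k => U (φ k), fun k => hU _, fun x => ?_⟩
  · rw [← hφ, ← hφ, hkl]
  · rw [← Nat.cofinite_eq_atTop, eventually_cofinite]
    refine Set.Finite.of_finite_image (f := fun k => (e k : Set X)) ((hf x).subset ?_)
      (fun k _ l _ hkl => e.injective (Subtype.ext hkl))
    rintro _ ⟨k, hk, rfl⟩
    exact ⟨(e k).2, fun h3 => hk (show x ∈ U (φ k) from (hφ k).symm ▸ h3)⟩

theorem nwd_countable [T1Space X] (h : S1weak X) (hw : OpenWhyburn X) {N : Set X}
    (hN : IsClosed N) (hi : interior N = ∅) : N.Countable := by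
  have hd : ∀ x, x ∈ closure Nᶜ := fun x => by
    rw [closure_compl, hi]; exact notMem_empty x
  have h1 : ∀ x, ∃ B, IsOpen B ∧ x ∈ closure B ∧ closure B ∩ N ⊆ {x} := by
    intro x
    have hA : IsOpen (Nᶜ \ {x}) := hN.isOpen_compl.sdiff isClosed_singleton
    by_cases hx : x ∈ closure (Nᶜ \ {x})
    · obtain ⟨B, hB, -, h2⟩ := hw _ hA x ⟨hx, fun h => h.2 rfl⟩
      refine ⟨B, hB, (h2 ▸ mem_singleton x : x ∈ closure B \ _).1, fun y hy => ?_⟩
      exact h2 ▸ ⟨hy.1, fun h3 => h3.1 hy.2⟩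
    · have h2 : (closure (Nᶜ \ {x}))ᶜ ∩ Nᶜ ⊆ {x} := by
        intro y hy
        by_contra h3
        exact hy.1 (subset_closure ⟨hy.2, h3⟩)
      refine ⟨(closure (Nᶜ \ {x}))ᶜ ∩ Nᶜ, isClosed_closure.isOpen_compl.inter hN.isOpen_compl,
        isClosed_closure.isOpen_compl.inter_closure ⟨hx, hd x⟩, fun y hy => ?_⟩
      exact closure_minimal h2 isClosed_singleton hy.1
  choose B hB hxB hBN using h1
  by_cases hfin : N.Finite
  · exact hfin.countable
  obtain ⟨U, hU, -, hc, -⟩ := h (fun _ => {U | MB U ∧ (U ∩ N).Finite}) (fun _ => by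
    refine ⟨⟨fun U hU => hU.1, fun F hF => ?_⟩, fun h2 => hfin (by simpa using h2.2)⟩
    have h3 : F ⊆ closure (⋃ x ∈ F, B x) := fun x hx =>
      closure_mono (subset_biUnion_of_mem (u := B) hx) (hxB x)
    refine ⟨F ∪ interior (closure (⋃ x ∈ F, B x)),
      ⟨mb (isOpen_biUnion fun x _ => hB x) h3, hF.subset ?_⟩, subset_union_left⟩
    rintro y ⟨hy | hy, hyN⟩
    · exact hy
    · have h4 := interior_subset hy
      rw [hF.closure_biUnion] at h4
      obtain ⟨x, hx, h5⟩ := mem_iUnion₂.mp h4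
      have : y = x := hBN x ⟨h5, hyN⟩
      exact this ▸ hx)
  refine (countable_iUnion fun n => (hU n).2.countable).mono fun x hx => ?_
  obtain ⟨_, ⟨n, rfl⟩, hxV⟩ : x ∈ ⋃₀ range U := hc ▸ mem_univ x
  exact mem_iUnion.mpr ⟨n, hxV, hx⟩

theorem bnd [T2Space X] (h : S1weak X) {D : Set X} (hD : D.Countable) (A B : X → Set X)
    (hA : ∀ x, IsOpen (A x)) (hB : ∀ x, IsOpen (B x)) (hAB : ∀ x, Disjoint (A x) (B x))
    (hxA : ∀ x ∈ D, x ∈ closure (A x)) (hxB : ∀ x ∈ D, x ∈ closure (B x)) :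
    ∃ P : X → ℕ → Set X, (∀ x n, IsOpen (P x n)) ∧ (∀ x ∈ D, ∀ n, x ∈ P x n) ∧
      ∀ z, ∀ᶠ n in atTop, ∀ x ∈ D, z ∈ B x → z ∉ closure (P x n) := by
  classical
  rcases D.eq_empty_or_nonempty with rfl | hne
  · exact ⟨fun _ _ => univ, fun _ _ => isOpen_univ, fun _ _ _ => mem_univ _,
      fun z => Eventually.of_forall fun n x hx => absurd hx (notMem_empty x)⟩
  obtain ⟨d, rfl⟩ := hD.exists_eq_range hne
  haveI : (𝓝[B (d 0)] (d 0)).NeBot := mem_closure_iff_nhdsWithin_neBot.mp (hxB _ ⟨0, rfl⟩)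
  obtain ⟨φ, hφ, U, hU, hz⟩ := pick h (𝓝[B (d 0)] (d 0)) (fun n => {U | MB U ∧ ∀ i ≤ n,
      ∃ O, IsOpen O ∧ d i ∈ O ∧ ∀ z ∈ U, z ∈ B (d i) → z ∉ closure O}) (fun n => by
    refine ⟨fun U hU => hU.1, fun F hF => ?_⟩
    obtain ⟨V, hV, hdis⟩ := (hF.union ((finite_Iic n).image d)).t2_separation
    let W : X → Set X := fun x => V x ∩ (if x ∈ range d then A x else univ)
    have hWo : ∀ x, IsOpen (W x) := fun x => (hV x).2.inter (by
      split_ifs
      · exact hA x
      · exact isOpen_univ)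
    have hxW : ∀ x, x ∈ closure (W x) := fun x => (hV x).2.inter_closure ⟨(hV x).1, by
      split_ifs with hx
      · exact hxA x hx
      · exact subset_closure (mem_univ x)⟩
    have h3 : F ⊆ closure (⋃ x ∈ F, W x) := fun x hx =>
      closure_mono (subset_biUnion_of_mem (u := W) hx) (hxW x)
    refine ⟨F ∪ interior (closure (⋃ x ∈ F, W x)),
      ⟨mb (isOpen_biUnion fun x _ => hWo x) h3, fun i hi => ⟨V (d i), (hV _).2, (hV _).1, ?_⟩⟩,
      subset_union_left⟩
    rintro z (hz | hz) hzB hzO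
    · have hne : z ≠ d i := by
        rintro rfl
        obtain ⟨w, hw1, hw2⟩ := mem_closure_iff.mp (hxA _ ⟨i, rfl⟩) _ (hB _) hzB
        exact Set.disjoint_left.mp (hAB _) hw2 hw1
      obtain ⟨w, hw1, hw2⟩ := mem_closure_iff.mp hzO _ (hV z).2 (hV z).1
      exact Set.disjoint_left.mp (hdis (Or.inl hz) (Or.inr ⟨i, hi, rfl⟩) hne) hw1 hw2
    · obtain ⟨w, ⟨hw1, hw2⟩, hw3⟩ := mem_closure_iff.mp hzO _ (isOpen_interior.inter (hB _))
        ⟨hz, hzB⟩
      obtain ⟨y, ⟨hy1, hy2⟩, hy3⟩ := mem_closure_iff.mp (interior_subset hw1) _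
        ((hB (d i)).inter (hV (d i)).2) ⟨hw2, hw3⟩
      obtain ⟨x, hx, hy4⟩ := mem_iUnion₂.mp hy3
      by_cases hne : x = d i
      · subst hne
        have h5 := hy4.2
        rw [if_pos ⟨i, rfl⟩] at h5
        exact Set.disjoint_left.mp (hAB _) h5 hy1
      · exact Set.disjoint_left.mp (hdis (Or.inl hx) (Or.inr ⟨i, hi, rfl⟩) hne) hy4.1 hy2) (by
    intro n U hU
    obtain ⟨O, hO, h0, h1⟩ := hU.2 0 (Nat.zero_le n)
    exact mem_nhdsWithin.mpr ⟨O, hO, h0, fun z hz hzU => h1 z hzU hz.2 (subset_closure hz.1)⟩)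
  have h4 : ∀ x k, ∃ O, IsOpen O ∧ (x ∈ range d → x ∈ O ∧ ∃ l ≥ k,
      ∀ z ∈ U l, z ∈ B x → z ∉ closure O) := by
    intro x k
    by_cases hx : x ∈ range d
    · obtain ⟨i, rfl⟩ := hx
      obtain ⟨l, hl1, hl2⟩ := ((eventually_ge_atTop k).and (hφ.eventually
        (eventually_ge_atTop i))).exists
      obtain ⟨O, hO, h0, h1⟩ := (hU l).2 i hl2
      exact ⟨O, hO, fun _ => ⟨h0, l, hl1, h1⟩⟩
    · exact ⟨univ, isOpen_univ, fun h => absurd h hx⟩
  choose P hP hP' using h4
  refine ⟨P, hP, fun x hx n => (hP' x n hx).1, fun z => ?_⟩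
  obtain ⟨k0, hk0⟩ := eventually_atTop.mp (hz z)
  filter_upwards [eventually_ge_atTop k0] with k hk x hx
  obtain ⟨l, hl, h5⟩ := (hP' x k hx).2
  exact h5 z (hk0 l (hk.trans hl))

theorem Quasi.cl {f : X → ℝ} (hf : Quasi f) {x : X} {O : Set X} {V : Set ℝ} (hO : IsOpen O)
    (hx : x ∈ O) (hV : IsOpen V) (hfx : f x ∈ V) : x ∈ closure (interior (O ∩ f ⁻¹' V)) := by
  rw [mem_closure_iff]
  intro U hU hxU
  obtain ⟨W, hW, ⟨w, hw⟩, h1, h2⟩ := hf x (U ∩ O) V (hU.inter hO) ⟨hxU, hx⟩ hV hfx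
  exact ⟨w, (h1 hw).1, interior_maximal (fun y hy => And.intro (h1 hy).2 (h2 ⟨y, hy, rfl⟩)) hW hw⟩

theorem cont_off {f : X → ℝ} (hf : Quasi f) (z : X)
    (hz : ∀ a b : ℚ, z ∉ frontier (closure (interior (f ⁻¹' Ioo (a : ℝ) b)))) :
    ContinuousAt f z := by
  rw [ContinuousAt, Metric.tendsto_nhds]
  intro ε hε
  obtain ⟨a, ha1, ha2⟩ := exists_rat_btwn (show f z - ε < f z by linarith)
  obtain ⟨b, hb1, hb2⟩ := exists_rat_btwn (show f z < f z + ε by linarith)
  have h1 := Quasi.cl hf isOpen_univ (mem_univ z) isOpen_Ioo (show f z ∈ Ioo (a : ℝ) b from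
    ⟨ha2, hb1⟩)
  rw [univ_inter] at h1
  have h2 : z ∈ interior (closure (interior (f ⁻¹' Ioo (a : ℝ) b))) := by
    by_contra h3
    exact hz a b ⟨subset_closure h1, h3⟩
  filter_upwards [isOpen_interior.mem_nhds h2] with y hy
  have h3 : f y ∈ Icc (a : ℝ) b := by
    by_contra h4
    obtain ⟨W, hW, ⟨w, hw⟩, h5, h6⟩ := hf y _ (Icc (a : ℝ) b)ᶜ isOpen_interior hy
      isClosed_Icc.isOpen_compl h4
    obtain ⟨v, hv1, hv2⟩ := mem_closure_iff.mp (interior_subset (h5 hw)) W hW hw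
    exact h6 ⟨v, hv1, rfl⟩ (Ioo_subset_Icc_self (interior_subset (s := f ⁻¹' _) hv2))
  rw [Real.dist_eq, abs_lt]
  constructor <;> linarith [h3.1, h3.2]

theorem final (h : S1weak X) [Nonempty X] (f : {f : X → ℝ // Quasi f})
    {D : Set X} (hD : D.Countable) (hf : ∀ z ∉ D, ContinuousAt f.1 z)
    (P : X → ℕ → Set X) (hP : ∀ x n, IsOpen (P x n)) (hxP : ∀ x ∈ D, ∀ n, x ∈ P x n)
    (hz : ∀ z ∉ D, ∀ᶠ n in atTop, ∀ x ∈ D, z ∉ closure (P x n))
    (H : Filter X) [H.NeBot] (hH : ∀ S ∈ H, interior S ∈ H)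
    (N : X → Set X) (hN : ∀ x, IsOpen (N x)) (hNH : ∀ x, (N x)ᶜ ∈ H)
    (hxN : ∀ x, x ∈ closure (N x)) (hxN' : ∀ x ∉ D, x ∈ N x)
    (𝒜 : Set {f : X → ℝ // Quasi f}) (hA : f ∈ closure 𝒜) : f ∈ seqClosure 𝒜 := by
  classical
  obtain ⟨e, he⟩ : ∃ e : ℕ → X, D ⊆ range e := countable_iff_exists_subset_range.mp hD
  obtain ⟨φ, hφ, U, hU, hU'⟩ := pick h H (fun n => {U | MB U ∧ Uᶜ ∈ H ∧ ∃ g ∈ 𝒜,
      (∀ j ≤ n, dist (g.1 (e j)) (f.1 (e j)) < 1 / ((n : ℝ) + 1)) ∧ ∀ z ∈ U, z ∉ D →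
        (∀ x ∈ D, z ∉ closure (P x n)) → dist (g.1 z) (f.1 z) < 5 * (1 / ((n : ℝ) + 1))})
      (fun n => by
    refine ⟨fun U hU => hU.1, fun F hF => ?_⟩
    have hε : (0 : ℝ) < 1 / ((n : ℝ) + 1) := Nat.one_div_pos_of_nat
    set ε := 1 / ((n : ℝ) + 1)
    have hO : IsOpen (⋂ x ∈ F ∪ e '' Iic n, {g : {f : X → ℝ // Quasi f} |
        dist (g.1 x) (f.1 x) < ε}) :=
      (hF.union ((finite_Iic n).image e)).isOpen_biInter fun x _ => isOpen_lt
        (((continuous_apply x).comp continuous_subtype_val).dist continuous_const) continuous_const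
    obtain ⟨g, hg, hgA⟩ := mem_closure_iff.mp hA _ hO (mem_iInter₂.mpr fun x _ => by
      simpa using hε)
    have hg' := mem_iInter₂.mp hg
    let W : X → Set X := fun x => if x ∈ D then P x n ∩ N x else
      interior ((N x ∩ interior (f.1 ⁻¹' Metric.ball (f.1 x) ε)) ∩ g.1 ⁻¹' Metric.ball (g.1 x) ε)
    have hWo : ∀ x, IsOpen (W x) := fun x => by
      simp only [W]
      split_ifs
      · exact (hP x n).inter (hN x)
      · exact isOpen_interior
    have hxW : ∀ x, x ∈ closure (W x) := fun x => by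
      simp only [W]
      split_ifs with hx
      · exact (hP x n).inter_closure ⟨hxP x hx n, hxN x⟩
      · exact Quasi.cl g.2 ((hN x).inter isOpen_interior) ⟨hxN' x hx,
          mem_interior_iff_mem_nhds.mpr (hf x hx (Metric.ball_mem_nhds _ hε))⟩
          Metric.isOpen_ball (Metric.mem_ball_self hε)
    have hWN : ∀ x, W x ⊆ N x := fun x => by
      simp only [W]
      split_ifs with hx
      · exact inter_subset_right
      · exact fun y hy => (interior_subset hy).1.1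
    have h3 : F ⊆ closure (⋃ x ∈ F, W x) := fun x hx =>
      closure_mono (subset_biUnion_of_mem (u := W) hx) (hxW x)
    refine ⟨F ∪ interior (closure (⋃ x ∈ F, W x)),
      ⟨mb (isOpen_biUnion fun x _ => hWo x) h3, ?_, g, hgA,
        fun j hj => hg' _ (Or.inr ⟨j, hj, rfl⟩), ?_⟩, subset_union_left⟩
    · have h4 : (⋃ x ∈ F, W x)ᶜ ∈ H := by
        rw [compl_iUnion₂]
        exact (biInter_mem hF).mpr fun x _ => mem_of_superset (hNH x) (compl_subset_compl.mpr
          (hWN x))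
      have h5 := hH _ h4
      rw [interior_compl] at h5
      exact mem_of_superset h5 (compl_subset_compl.mpr (union_subset h3 interior_subset))
    · rintro z (hz | hz) hzD hzP
      · have := hg' z (Or.inl hz)
        simp only [mem_setOf_eq] at this
        linarith
      · have h4 : IsOpen (⋂ x ∈ F ∩ D, (closure (P x n))ᶜ) :=
          (hF.inter_of_left D).isOpen_biInter fun x _ => isClosed_closure.isOpen_compl
        obtain ⟨O, hO, ⟨w, hw⟩, h5, h6⟩ := g.2 z _ (Metric.ball (g.1 z) ε)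
          ((isOpen_interior.inter h4).inter
            (isOpen_interior (s := f.1 ⁻¹' Metric.ball (f.1 z) ε)))
          ⟨⟨hz, mem_iInter₂.mpr fun x hx => hzP x hx.2⟩,
            mem_interior_iff_mem_nhds.mpr (hf z hzD (Metric.ball_mem_nhds _ hε))⟩
          Metric.isOpen_ball (Metric.mem_ball_self hε)
        obtain ⟨y, hy1, hy2⟩ := mem_closure_iff.mp (interior_subset (h5 hw).1.1) O hO hw
        obtain ⟨x, hx, hy3⟩ := mem_iUnion₂.mp hy2
        simp only [W] at hy3
        split_ifs at hy3 with hxD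
        · exact absurd (subset_closure hy3.1) (mem_iInter₂.mp (h5 hy1).1.2 x ⟨hx, hxD⟩)
        · have a1 : dist (g.1 y) (g.1 z) < ε := h6 ⟨y, hy1, rfl⟩
          have a2 : dist (f.1 y) (f.1 z) < ε := interior_subset (s := f.1 ⁻¹' Metric.ball _ _) (h5 hy1).2
          have a3 : dist (f.1 y) (f.1 x) < ε :=
            interior_subset (s := f.1 ⁻¹' Metric.ball _ _) (interior_subset hy3).1.2
          have a4 : dist (g.1 y) (g.1 x) < ε := (interior_subset hy3).2
          have a5 : dist (g.1 x) (f.1 x) < ε := hg' x (Or.inl hx)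
          rw [Real.dist_eq, abs_lt] at *
          constructor <;> linarith [a1.1, a1.2, a2.1, a2.2, a3.1, a3.2, a4.1, a4.2, a5.1, a5.2])
    (fun n U hU => hU.2.1)
  choose g hgA hg1 hg2 using fun k => (hU k).2.2
  refine ⟨g, hgA, ?_⟩
  rw [tendsto_subtype_rng, tendsto_pi_nhds]
  intro z
  rw [tendsto_iff_dist_tendsto_zero]
  have ht : Tendsto (fun k => 1 / ((φ k : ℝ) + 1)) atTop (𝓝 0) :=
    tendsto_one_div_add_atTop_nhds_zero_nat.comp hφ
  by_cases hzD : z ∈ D
  · obtain ⟨j, rfl⟩ := he hzD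
    refine squeeze_zero' (Eventually.of_forall fun _ => dist_nonneg) ?_ ht
    filter_upwards [hφ.eventually (eventually_ge_atTop j)] with k hk using (hg1 k j hk).le
  · refine squeeze_zero' (Eventually.of_forall fun _ => dist_nonneg) ?_
      (by simpa using ht.const_mul 5)
    filter_upwards [hU' z, hφ.eventually (hz z hzD)] with k h1 h2
    simpa using (hg2 k z h1 hzD h2).le

theorem ed_hole [T2Space X] [Infinite X]
    (hn : ∀ N : Set X, IsClosed N → interior N = ∅ → N.Countable)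
    (hed : ∀ R : Set X, IsOpen R → frontier (closure R) = ∅) :
    ∃ (H : Filter X) (N : X → Set X), H.NeBot ∧ (∀ S ∈ H, interior S ∈ H) ∧
      (∀ x, IsOpen (N x)) ∧ (∀ x, (N x)ᶜ ∈ H) ∧ ∀ x, x ∈ N x := by
  obtain ⟨C, hC1, hC2, hC3⟩ := exists_seq_infinite_isOpen_pairwise_disjoint X
  have hop : ∀ A : Set ℕ, IsOpen (⋃ n ∈ A, C n) := fun A => isOpen_biUnion fun n _ => hC2 n
  have hdis : ∀ A : Set ℕ, Disjoint (⋃ n ∈ A, C n) (⋃ n ∈ Aᶜ, C n) := fun A => by
    simp only [disjoint_iUnion_left, disjoint_iUnion_right]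
    intro m hm n hn
    exact hC3 (by rintro rfl; exact hm hn)
  have key : ∃ u : Ultrafilter ℕ, ∀ x, ∃ A ∈ u, x ∉ closure (⋃ n ∈ A, C n) := by
    obtain ⟨q, I, hI, -, h1, -⟩ := exists_I
    by_contra hcon
    push Not at hcon
    choose x hx using hcon
    have hinj : Function.Injective x := by
      intro u v huv
      refine Ultrafilter.eq_of_le fun A hA => ?_
      by_contra h2
      have h3 := hx u Aᶜ (Ultrafilter.compl_mem_iff_notMem.mpr h2)
      have h4 := hx v A hA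
      have h5 : IsOpen (closure (⋃ n ∈ A, C n)) :=
        (isClopen_iff_frontier_eq_empty.mpr (hed _ (hop A))).isOpen
      obtain ⟨w, hw1, hw2⟩ := mem_closure_iff.mp h3 _ h5 (huv ▸ h4)
      exact Set.disjoint_left.mp ((hdis A).closure_left (hop _)) hw1 hw2
    have h6 : (frontier (⋃ n ∈ (univ : Set ℕ), C n)).Countable := by
      refine hn _ isClosed_frontier ?_
      rw [← frontier_compl]
      exact interior_frontier (hop _).isClosed_compl
    refine hI ((h6.preimage_of_injOn (f := x) hinj.injOn).mono fun u hu => ?_)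
    rw [mem_preimage, (hop _).frontier_eq]
    refine ⟨hx u univ univ_mem, fun h7 => ?_⟩
    obtain ⟨n, -, h8⟩ := mem_iUnion₂.mp h7
    refine Set.disjoint_left.mp ((hdis {n}).closure_right (hop _)) ?_ (hx u _ ((h1 u hu).2 n))
    exact mem_biUnion (mem_singleton n) h8
  obtain ⟨u, hu⟩ := key
  choose A hA hx using hu
  refine ⟨(u : Filter ℕ).bind (fun n => 𝓟 (C n)), fun x => (closure (⋃ n ∈ A x, C n))ᶜ, ?_, ?_,
    fun x => isClosed_closure.isOpen_compl, fun x => ?_, hx⟩
  · rw [← forall_mem_nonempty_iff_neBot]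
    intro S hS
    obtain ⟨n, hn⟩ := u.nonempty_of_mem (mem_bind'.mp hS)
    exact (hC1 n).nonempty.mono hn
  · intro S hS
    exact mem_bind'.mpr (mem_of_superset (mem_bind'.mp hS) fun n hn =>
      interior_maximal hn (hC2 n))
  · rw [compl_compl]
    exact mem_bind'.mpr (mem_of_superset (hA x) fun n hn =>
      (subset_biUnion_of_mem (u := C) hn).trans subset_closure)

theorem q2 [T2Space X] (hw : OpenWhyburn X) (h : S1weak X) :
    FrechetUrysohnSpace {f : X → ℝ // Quasi f} := by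
  classical
  by_cases hX : Countable X
  · infer_instance
  haveI := not_countable_iff.mp hX
  have hn := fun N => nwd_countable (N := N) h hw
  have hfr : ∀ R : Set X, (frontier (closure R)).Countable := fun R =>
    hn _ isClosed_frontier (interior_frontier isClosed_closure)
  constructor
  intro 𝒜 f hf
  by_cases hed : ∀ R : Set X, IsOpen R → frontier (closure R) = ∅
  · obtain ⟨H, N, h1, h2, h3, h4, h5⟩ := ed_hole hn hed
    exact final h f countable_empty (fun z _ => cont_off f.2 z fun a b => by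
      rw [hed _ isOpen_interior]; exact notMem_empty z) (fun _ _ => univ)
      (fun _ _ => isOpen_univ) (fun _ _ _ => mem_univ _)
      (fun z _ => Eventually.of_forall fun n x hx => absurd hx (notMem_empty x)) H h2 N h3 h4
      (fun x => subset_closure (h5 x)) (fun x _ => h5 x) 𝒜 hf
  push Not at hed
  obtain ⟨R0, hR0, d, hd⟩ := hed
  let ℛ : Set (Set X) := insert R0 (range fun p : ℚ × ℚ => interior (f.1 ⁻¹' Ioo (p.1 : ℝ) p.2))
  let D := ⋃ R ∈ ℛ, frontier (closure R)
  have hD : D.Countable := ((countable_range _).insert R0).biUnion fun R _ => hfr R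
  have h1 : ∀ x, ∃ R, IsOpen R ∧ frontier (closure R) ⊆ D ∧ (x ∈ D → x ∈ frontier (closure R)) := by
    intro x
    by_cases hx : x ∈ D
    · obtain ⟨R, hR, h2⟩ := mem_iUnion₂.mp hx
      refine ⟨R, ?_, subset_biUnion_of_mem (u := fun R => frontier (closure R)) hR, fun _ => h2⟩
      rcases hR with rfl | ⟨p, rfl⟩
      · exact hR0
      · exact isOpen_interior
    · exact ⟨∅, isOpen_empty, by simp, fun h => absurd h hx⟩
  choose R hR hRD hxR using h1
  have hdD : d ∈ D := mem_biUnion (mem_insert _ _) hd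
  have hA : ∀ x ∈ D, x ∈ closure (interior (closure (R x))) := fun x hx =>
    closure_mono (interior_maximal subset_closure (hR x)) (by
      simpa using frontier_subset_closure (hxR x hx))
  have hB : ∀ x ∈ D, x ∈ closure (closure (R x))ᶜ := fun x hx =>
    ((frontier_eq_closure_inter_closure (s := closure (R x))).subset (hxR x hx)).2
  have hAB : ∀ x, Disjoint (interior (closure (R x))) (closure (R x))ᶜ := fun x =>
    disjoint_compl_right.mono_left interior_subset
  obtain ⟨P, p1, p2, p3⟩ := bnd h hD (fun x => interior (closure (R x)))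
    (fun x => (closure (R x))ᶜ) (fun _ => isOpen_interior)
    (fun _ => isClosed_closure.isOpen_compl) hAB hA hB
  obtain ⟨Q, q1, q2, q3⟩ := bnd h hD (fun x => (closure (R x))ᶜ)
    (fun x => interior (closure (R x))) (fun _ => isClosed_closure.isOpen_compl)
    (fun _ => isOpen_interior) (fun x => (hAB x).symm) hB hA
  haveI : (𝓝[(closure (R d))ᶜ] d).NeBot := mem_closure_iff_nhdsWithin_neBot.mp (hB d hdD)
  have h2 : ∀ x, ∃ N, IsOpen N ∧ Nᶜ ∈ 𝓝[(closure (R d))ᶜ] d ∧ x ∈ closure N ∧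
      (x ∉ D → x ∈ N) := by
    intro x
    by_cases hx : x = d
    · subst hx
      exact ⟨interior (closure (R x)), isOpen_interior, mem_of_superset self_mem_nhdsWithin
        (compl_subset_compl.mpr interior_subset), hA x hdD, fun h => absurd hdD h⟩
    · obtain ⟨U, V, hU, hV, hxU, hdV, hUV⟩ := t2_separation hx
      exact ⟨U, hU, mem_nhdsWithin_of_mem_nhds (mem_of_superset (hV.mem_nhds hdV)
        hUV.subset_compl_left), subset_closure hxU, fun _ => hxU⟩
  choose N n1 n2 n3 n4 using h2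
  refine final h f hD (fun z hz => cont_off f.2 z fun a b h3 => hz
    (mem_biUnion (mem_insert_of_mem _ ⟨(a, b), rfl⟩) h3)) (fun x n => P x n ∩ Q x n)
    (fun x n => (p1 x n).inter (q1 x n)) (fun x hx n => ⟨p2 x hx n, q2 x hx n⟩) ?_
    (𝓝[(closure (R d))ᶜ] d) ?_ N n1 n2 n3 n4 𝒜 hf
  · intro z hz
    filter_upwards [p3 z, q3 z] with n h3 h4 x hx h5
    by_cases h6 : z ∈ closure (R x)
    · refine h4 x hx ?_ (closure_mono inter_subset_right h5)
      by_contra h7
      exact hz (hRD x ⟨subset_closure h6, h7⟩)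
    · exact h3 x hx h6 (closure_mono inter_subset_left h5)
  · intro S hS
    obtain ⟨O, hO, hdO, h3⟩ := mem_nhdsWithin.mp hS
    exact mem_nhdsWithin.mpr ⟨O, hO, hdO,
      interior_maximal h3 (hO.inter isClosed_closure.isOpen_compl)⟩

end Pool.Agent.H31.QS
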