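import Pool.Agent.H31.QS

namespace Pool.Agent.H31.QS

open Set Topology Filter TopologicalSpace QC

universe u

theorem sel {X : Type u} [Nonempty X] (F0 : Finset X) (𝒰 : ℕ → Set (Set X))
    (h1 : ∀ n, ∀ F : Set X, F.Finite → ∃ U ∈ 𝒰 n, F ⊆ U)
    (h2 : ∀ n, ∀ U ∈ 𝒰 n, (F0 : Set X) ⊆ U → Uᶜ.Countable) :
    ∃ U : ℕ → Set X, (∀ n, U n ∈ 𝒰 n) ∧ ∀ x, ∀ᶠ n in atTop, x ∈ U n := by
  classical
  have hs : ∀ U : Set X, ∃ s : ℕ → X, Uᶜ.Countable → Uᶜ ⊆ range s := by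
    intro U
    by_cases h : Uᶜ.Countable
    · obtain ⟨s, hs⟩ := countable_iff_exists_subset_range.mp h
      exact ⟨s, fun _ => hs⟩
    · exact ⟨fun _ => Classical.arbitrary X, fun h' => absurd h' h⟩
  choose s hs using hs
  choose G hG hG' using fun n (T : Finset X) => h1 n T T.finite_toSet
  let T : List (Set X) → ℕ → Finset X := fun l k =>
    F0 ∪ l.toFinset.biUnion fun V => (Finset.range (k + 1)).image (s V)
  let L : ℕ → List (Set X) := fun n => Nat.rec [] (fun k l => G k (T l k) :: l) n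
  let U : ℕ → Set X := fun k => G k (T (L k) k)
  have hL : ∀ k, L (k + 1) = U k :: L k := fun k => rfl
  have hmono : ∀ h k, h ∈ L k → ∀ m ≥ k, h ∈ L m := by
    intro h k hk m hm
    induction hm with
    | refl => exact hk
    | step _ ih => rw [hL]; exact List.mem_cons_of_mem _ ih
  refine ⟨U, fun n => hG _ _, fun x => ?_⟩
  by_cases hx : ∀ n, x ∈ U n
  · exact Eventually.of_forall hx
  push Not at hx
  obtain ⟨k, hk⟩ := hx
  obtain ⟨j, rfl⟩ := hs (U k) (h2 k _ (hG _ _) fun y hy => hG' _ _ (Finset.mem_union_left _ hy)) hk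
  filter_upwards [eventually_ge_atTop (k + 1), eventually_ge_atTop j] with n h3 h4
  apply hG'
  exact Finset.mem_union_right _ (Finset.mem_biUnion.mpr ⟨U k, List.mem_toFinset.mpr
    (hmono _ (k + 1) (by rw [hL]; exact List.mem_cons_self) n h3),
    Finset.mem_image_of_mem _ (Finset.mem_range.mpr (by omega))⟩)

theorem S1_of_strong {X : Type u} [TopologicalSpace X] (h : S1strong X) : S1 X := by
  intro 𝒰 h𝒰
  obtain ⟨U, hU, hx⟩ := h 𝒰 h𝒰
  refine ⟨U, hU, ?_, ?_, fun x => ?_⟩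
  · rintro _ ⟨n, rfl⟩
    exact (h𝒰 n).1 _ (hU n)
  · refine eq_univ_of_forall fun x => ?_
    obtain ⟨n, hn⟩ := (hx x).exists
    exact ⟨U n, ⟨n, rfl⟩, hn⟩
  · have := hx x
    rw [← Nat.cofinite_eq_atTop, eventually_cofinite] at this
    refine (this.image U).subset ?_
    rintro _ ⟨⟨n, rfl⟩, hn⟩
    exact ⟨n, hn, rfl⟩

/-- points of the example -/
inductive Pt (q : Ultrafilter ℕ) (I : Set (Ultrafilter ℕ)) : Type
  | iso : ℕ → Bool → Pt q I
  | top : Bool → Pt q I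
  | dbl : I → Pt q I

open Pt

variable {q : Ultrafilter ℕ} {I : Set (Ultrafilter ℕ)}

instance : TopologicalSpace (Pt q I) where
  IsOpen U := (∀ c, top c ∈ U → {n | iso n c ∈ U} ∈ q) ∧
    ∀ u, dbl u ∈ U → ∀ c, {n | iso n c ∈ U} ∈ u.1
  isOpen_univ := ⟨fun _ _ => univ_mem, fun _ _ _ => univ_mem⟩
  isOpen_inter := fun _ _ hU hV => ⟨fun c h => inter_mem (hU.1 c h.1) (hV.1 c h.2),
    fun u h c => inter_mem (hU.2 u h.1 c) (hV.2 u h.2 c)⟩
  isOpen_sUnion := fun _ hS => ⟨fun c ⟨U, hU, h⟩ => mem_of_superset ((hS U hU).1 c h)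
      fun _ hn => ⟨U, hU, hn⟩,
    fun u ⟨U, hU, h⟩ c => mem_of_superset ((hS U hU).2 u h c) fun _ hn => ⟨U, hU, hn⟩⟩

theorem op_iff (U : Set (Pt q I)) : IsOpen U ↔ (∀ c, top c ∈ U → {n | iso n c ∈ U} ∈ q) ∧
    ∀ u, dbl u ∈ U → ∀ c, {n | iso n c ∈ U} ∈ u.1 := Iff.rfl

/-- basic neighbourhoods -/
def nb (x : Pt q I) (S : Bool → Set ℕ) : Set (Pt q I) := insert x {y | ∃ n c, n ∈ S c ∧ y = iso n c}

theorem iso_nb {x : Pt q I} {S : Bool → Set ℕ} {c : Bool} : S c ⊆ {n | iso n c ∈ nb x S} :=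
  fun n hn => Or.inr ⟨n, c, hn, rfl⟩

theorem op_iso (n : ℕ) (c : Bool) (S : Bool → Set ℕ) : IsOpen (nb (iso n c : Pt q I) S) := by
  refine ⟨?_, ?_⟩
  · rintro c (h | ⟨_, _, _, h⟩) <;> cases h
  · rintro c (h | ⟨_, _, _, h⟩) <;> cases h

theorem op_lim (c : Bool) (S : Bool → Set ℕ) (h : S c ∈ q) : IsOpen (nb (top c : Pt q I) S) := by
  refine ⟨?_, ?_⟩
  · rintro c (h' | ⟨_, _, _, h'⟩) <;> cases h'
    exact mem_of_superset h iso_nb
  · rintro c (h | ⟨_, _, _, h⟩) <;> cases h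

theorem op_dbl (u : I) (S : Bool → Set ℕ) (h : ∀ c, S c ∈ u.1) :
    IsOpen (nb (dbl u : Pt q I) S) := by
  refine ⟨?_, ?_⟩
  · rintro c (h | ⟨_, _, _, h⟩) <;> cases h
  · rintro c (h' | ⟨_, _, _, h'⟩) d <;> cases h'
    exact mem_of_superset (h d) iso_nb

theorem sepu {u v : Ultrafilter ℕ} (h : u ≠ v) : ∃ B, B ∈ u ∧ Bᶜ ∈ v := by
  by_contra hcon
  push Not at hcon
  exact h (Ultrafilter.eq_of_le (fun B hB => by
    by_contra h2
    exact hcon Bᶜ (Ultrafilter.compl_mem_iff_notMem.mpr h2) (by rwa [compl_compl])))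

theorem disj_nb {x y : Pt q I} {S T : Bool → Set ℕ} (hxy : x ≠ y) (h1 : ∀ c, Disjoint (S c) (T c))
    (h2 : ∀ n c, x = iso n c → n ∉ T c) (h3 : ∀ n c, y = iso n c → n ∉ S c) :
    Disjoint (nb x S) (nb y T) := by
  rw [Set.disjoint_left]
  rintro z (rfl | ⟨n, c, hn, rfl⟩) (h | ⟨m, d, hm, h⟩)
  · exact hxy h
  · exact h2 m d h hm
  · exact h3 n c h.symm hn
  · cases h
    exact Set.disjoint_left.mp (h1 c) hn hm

theorem t2 (hq : ∀ n, {n}ᶜ ∈ q) (hI : ∀ u ∈ I, u ≠ q ∧ ∀ n, {n}ᶜ ∈ u) : T2Space (Pt q I) := by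
  have key : ∀ x y : Pt q I, x ≠ y → (∃ S T, IsOpen (nb x S) ∧ IsOpen (nb y T) ∧
      (∀ c, Disjoint (S c) (T c)) ∧ (∀ n c, x = iso n c → n ∉ T c) ∧
      (∀ n c, y = iso n c → n ∉ S c)) := by
    rintro (⟨n, c⟩ | c | u) (⟨m, d⟩ | d | v) hxy
    · exact ⟨fun _ => ∅, fun _ => ∅, op_iso _ _ _, op_iso _ _ _, by simp, by simp, by simp⟩
    · refine ⟨fun _ => ∅, fun _ => {n}ᶜ, op_iso _ _ _, op_lim _ _ (hq n), by simp, ?_, by simp⟩
      rintro _ _ h; cases h; simp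
    · refine ⟨fun _ => ∅, fun _ => {n}ᶜ, op_iso _ _ _, op_dbl _ _ fun _ => (hI _ v.2).2 n,
        by simp, ?_, by simp⟩
      rintro _ _ h; cases h; simp
    · refine ⟨fun _ => {m}ᶜ, fun _ => ∅, op_lim _ _ (hq m), op_iso _ _ _, by simp, by simp, ?_⟩
      rintro _ _ h; cases h; simp
    · refine ⟨fun e => {_n | e = c}, fun e => {_n | e = d}, op_lim _ _ (univ_mem' fun _ => rfl),
        op_lim _ _ (univ_mem' fun _ => rfl), fun e => ?_, by simp, by simp⟩
      rw [Set.disjoint_left]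
      rintro _ rfl rfl
      exact hxy rfl
    · obtain ⟨B, h1, h2⟩ := sepu (hI _ v.2).1
      exact ⟨fun _ => Bᶜ, fun _ => B, op_lim _ _ h2, op_dbl _ _ fun _ => h1,
        fun _ => disjoint_compl_left, by simp, by simp⟩
    · refine ⟨fun _ => {m}ᶜ, fun _ => ∅, op_dbl _ _ fun _ => (hI _ u.2).2 m, op_iso _ _ _,
        by simp, by simp, ?_⟩
      rintro _ _ h; cases h; simp
    · obtain ⟨B, h1, h2⟩ := sepu (hI _ u.2).1
      exact ⟨fun _ => B, fun _ => Bᶜ, op_dbl _ _ fun _ => h1, op_lim _ _ h2,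
        fun _ => disjoint_compl_right, by simp, by simp⟩
    · obtain ⟨B, h1, h2⟩ := sepu (show u.1 ≠ v.1 from fun h => hxy (congrArg dbl (Subtype.ext h)))
      exact ⟨fun _ => B, fun _ => Bᶜ, op_dbl _ _ fun _ => h1, op_dbl _ _ fun _ => h2,
        fun _ => disjoint_compl_right, by simp, by simp⟩
  refine ⟨fun x y hxy => ?_⟩
  obtain ⟨S, T, h1, h2, h3, h4, h5⟩ := key x y hxy
  exact ⟨nb x S, nb y T, h1, h2, Or.inl rfl, Or.inl rfl, disj_nb hxy h3 h4 h5⟩

theorem strong (hB : ∀ B ∈ q, {u ∈ I | B ∉ u}.Countable) : S1strong (Pt q I) := by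
  classical
  intro 𝒰 h𝒰
  haveI : Nonempty (Pt q I) := ⟨top true⟩
  refine sel {top true, top false} 𝒰 (fun n => (h𝒰 n).2) fun n U hU h0 => ?_
  obtain ⟨h1, h2⟩ := (h𝒰 n).1 U hU
  have h3 : ∀ c, {n | iso n c ∈ U} ∈ q := by
    intro c
    have hc : top c ∈ U := h0 (by cases c <;> simp)
    by_contra h4
    obtain ⟨y, hy1, hy2⟩ := mem_closure_iff.mp (h1 hc)
      (nb (top c) fun d => {n | d = c ∧ iso n c ∉ U})
      (op_lim _ _ (mem_of_superset (Ultrafilter.compl_mem_iff_notMem.mpr h4) fun _ hn => ⟨rfl, hn⟩)) (Or.inl rfl)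
    rcases hy1 with rfl | ⟨m, d, ⟨rfl, hm⟩, rfl⟩
    · exact h4 (mem_of_superset (((op_iff _).mp isOpen_interior).1 c hy2) fun _ hn =>
        interior_subset (s := U) hn)
    · exact hm (interior_subset hy2)
  have h4 : ∀ u : I, (∀ c, {n | iso n c ∈ U} ∈ u.1) → dbl u ∈ U := by
    intro u hu
    refine h2 (interior_maximal ?_ (op_dbl u _ hu) (Or.inl rfl))
    rintro _ (rfl | ⟨m, d, hm, rfl⟩)
    · rw [mem_closure_iff]
      intro O hO hx
      obtain ⟨m, hm1, hm2⟩ := u.1.nonempty_of_mem (inter_mem (hO.2 u hx true) (hu true))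
      exact ⟨iso m true, hm1, hm2⟩
    · exact subset_closure hm
  have h5 : {u : I | {n | iso n true ∈ U} ∩ {n | iso n false ∈ U} ∉ u.1}.Countable :=
    ((hB _ (inter_mem (h3 true) (h3 false))).preimage Subtype.val_injective).mono
      fun u hu => And.intro u.2 hu
  refine (((countable_range fun p : ℕ × Bool => (iso p.1 p.2 : Pt q I)).union
    (countable_range top)).union (h5.image dbl)).mono ?_
  rintro (⟨m, c⟩ | c | u) hx
  · exact Or.inl (Or.inl ⟨(m, c), rfl⟩)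
  · exact Or.inl (Or.inr ⟨c, rfl⟩)
  · refine Or.inr ⟨u, fun h6 => hx (h4 u fun c => ?_), rfl⟩
    cases c
    · exact mem_of_superset h6 inter_subset_right
    · exact mem_of_superset h6 inter_subset_left

/-- side function -/
def sd (E : I → Bool) : Pt q I → Bool
  | iso _ c => c
  | top c => c
  | dbl u => E u

theorem quasi_sd (E : I → Bool) : Quasi (fun x : Pt q I => if sd E x then (1 : ℝ) else 0) := by
  intro x U V hU hx _ hV
  have : ∃ n, iso n (sd E x) ∈ U := by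
    rcases x with ⟨n, c⟩ | c | u
    · exact ⟨n, hx⟩
    · exact q.nonempty_of_mem (hU.1 c hx)
    · exact u.1.nonempty_of_mem (hU.2 u hx _)
  obtain ⟨n, hn⟩ := this
  refine ⟨nb (iso n (sd E x)) fun _ => ∅, op_iso _ _ _, ⟨_, Or.inl rfl⟩, ?_, ?_⟩
  · rintro _ (rfl | ⟨_, _, h, _⟩)
    · exact hn
    · exact h.elim
  · rintro _ ⟨_, rfl | ⟨_, _, h, _⟩, rfl⟩
    · exact hV
    · exact h.elim

theorem not_fu (hI : ¬ I.Countable) : ¬ FrechetUrysohnSpace {f : Pt q I → ℝ // Quasi f} := by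
  classical
  intro h
  let g : (I → Bool) → {f : Pt q I → ℝ // Quasi f} := fun E => ⟨_, quasi_sd E⟩
  have h1 : g (fun _ => true) ∈ closure (range fun F : Finset I => g fun u => decide (u ∈ F)) := by
    refine mem_closure_of_tendsto (f := fun F : Finset I => g fun u => decide (u ∈ F))
      (b := atTop) ?_ (Eventually.of_forall fun F => ⟨F, rfl⟩)
    rw [tendsto_subtype_rng, tendsto_pi_nhds]
    rintro (⟨m, c⟩ | c | u)
    · exact tendsto_const_nhds
    · exact tendsto_const_nhds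
    · refine tendsto_const_nhds.congr' ?_
      filter_upwards [eventually_ge_atTop {u}] with F hF
      have : u ∈ F := hF (Finset.mem_singleton_self u)
      simp [g, sd, this]
  obtain ⟨x, hx, hl⟩ := h.closure_subset_seqClosure _ h1
  choose F hF using hx
  have h2 : ∃ u : I, ∀ n, u ∉ F n := by
    by_contra hcon
    push Not at hcon
    refine hI (countable_coe_iff.mp (countable_univ_iff.mp
      ((countable_iUnion fun n => (F n).countable_toSet).mono fun u _ => ?_)))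
    exact mem_iUnion.mpr (hcon u)
  obtain ⟨u, hu⟩ := h2
  have h3 := tendsto_pi_nhds.mp (tendsto_subtype_rng.mp hl) (dbl u)
  have h4 : (fun n => (x n).1 (dbl u)) = fun _ => 0 := by
    funext n
    rw [← hF n]
    simp [g, sd, hu n]
  rw [h4] at h3
  have := tendsto_nhds_unique h3 tendsto_const_nhds
  simp [g, sd] at this

theorem q1 : ∃ (X : Type) (_ : TopologicalSpace X), T2Space X ∧ S1 X ∧ S1strong X ∧
    ¬ FrechetUrysohnSpace {f : X → ℝ // Quasi f} := by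
  obtain ⟨q, I, h1, h2, h3, h4⟩ := exists_I
  exact ⟨Pt q I, inferInstance, t2 h2 h3, S1_of_strong (strong h4), strong h4, not_fu h1⟩

end Pool.Agent.H31.QS
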