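import Pool.Agent.H31.QCDefs

namespace Pool.Agent.H31.QS

universe u

variable {X : Type u} [TopologicalSpace X]

/-- minimally bounded set -/
def MB (A : Set X) : Prop := A ⊆ closure (interior A) ∧ interior (closure A) ⊆ A

/-- omega-cover by minimally bounded sets -/
def OmegaS (𝒰 : Set (Set X)) : Prop :=
  (∀ U ∈ 𝒰, MB U) ∧ ∀ F : Set X, F.Finite → ∃ U ∈ 𝒰, F ⊆ U

/-- gamma-cover by minimally bounded sets -/
def GammaS (𝒰 : Set (Set X)) : Prop :=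
  (∀ U ∈ 𝒰, MB U) ∧ ⋃₀ 𝒰 = Set.univ ∧ ∀ x, {U ∈ 𝒰 | x ∉ U}.Finite

/-- the selection principle as in the problem file -/
def S1 (X : Type u) [TopologicalSpace X] : Prop :=
  ∀ 𝒰 : ℕ → Set (Set X), (∀ n, OmegaS (𝒰 n)) →
    ∃ U : ℕ → Set X, (∀ n, U n ∈ 𝒰 n) ∧ GammaS (Set.range U)

/-- strong form: every point lies in all but finitely many terms of the selected sequence -/
def S1strong (X : Type u) [TopologicalSpace X] : Prop :=
  ∀ 𝒰 : ℕ → Set (Set X), (∀ n, OmegaS (𝒰 n)) →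
    ∃ U : ℕ → Set X, (∀ n, U n ∈ 𝒰 n) ∧ ∀ x, ∀ᶠ n in Filter.atTop, x ∈ U n

/-- weak form: only omega-covers that do not contain the whole space are tested -/
def S1weak (X : Type u) [TopologicalSpace X] : Prop :=
  ∀ 𝒰 : ℕ → Set (Set X), (∀ n, OmegaS (𝒰 n) ∧ Set.univ ∉ 𝒰 n) →
    ∃ U : ℕ → Set X, (∀ n, U n ∈ 𝒰 n) ∧ GammaS (Set.range U)

/-- open Whyburn space -/
def OpenWhyburn (X : Type u) [TopologicalSpace X] : Prop :=
  ∀ A : Set X, IsOpen A → ∀ x ∈ closure A \ A,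
    ∃ B : Set X, IsOpen B ∧ B ⊆ A ∧ closure B \ A = {x}

end Pool.Agent.H31.QS
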