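import Pool.Agent.H31.QVDefs

namespace Pool.Agent.H31.QV

open AddSubgroup

section
variable {G : Type} [AddCommGroup G] {a b c : AddSubgroup G}

structure R (a b : AddSubgroup G) : Prop where
  ne : b.relIndex a ≠ 0

theorem R.le (h : a ≤ b) : R a b := ⟨by simp [relIndex_eq_one.mpr h]⟩
theorem R.tr (h : R a b) (h' : R b c) : R a c := ⟨relIndex_ne_zero_trans h'.ne h.ne⟩
theorem R.inf (h : R c a) (h' : R c b) : R c (a ⊓ b) := ⟨relIndex_inf_ne_zero h.ne h'.ne⟩
theorem R.sup' (h : R a c) : R (a ⊔ c) c := ⟨by rw [relIndex_sup_right]; exact h.ne⟩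
theorem R.sup (h : R a c) (h' : R b c) : R (a ⊔ b) c :=
  ((R.le (sup_le (le_sup_left.trans le_sup_right) le_sup_left)).tr
    (h'.tr (.le (le_sup_right (a := a)))).sup').tr h.sup'

theorem persp (h : a ≤ b) (h' : b ⊓ c ≤ a) : a.relIndex b = (a ⊔ c).relIndex (b ⊔ c) := by
  rw [show b ⊔ c = b ⊔ (a ⊔ c) by rw [← sup_assoc, sup_eq_left.mpr h], relIndex_sup_right,
    ← inf_relIndex_right (a ⊔ c), sup_inf_assoc_of_le _ h, sup_eq_left.mpr (inf_comm b c ▸ h')]
end

abbrev K : Type := HahnSeries ℤ (ZMod 2)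

noncomputable def s (i : ℕ) : K := HahnSeries.single (i : ℤ) 1

instance : Infinite K := .of_injective s fun i j h => by
  simpa [s, HahnSeries.coeff_single, eq_comm] using congrArg (·.coeff (i : ℤ)) h

theorem Rle {M N : Submodule K (K × K)} (h : R M.toAddSubgroup N.toAddSubgroup) : M ≤ N :=
  fun x hx => by_contra fun h' => by
    have h1 : N.toAddSubgroup.comap (LinearMap.toSpanSingleton K _ x).toAddMonoidHom = ⊥ :=
      eq_bot_iff.mpr fun c hc => by_contra fun h2 => h' ((N.smul_mem_iff h2).mp hc)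
    have h2 := index_comap N.toAddSubgroup (LinearMap.toSpanSingleton K _ x).toAddMonoidHom
    rw [h1, index_bot, Nat.card_eq_zero_of_infinite] at h2
    exact h.ne (relIndex_eq_zero_of_le_right (by rintro _ ⟨c, rfl⟩; exact M.smul_mem c hx) h2.symm)

def L : Sublattice (AddSubgroup (K × K)) where
  carrier := {W | ∃ M : Submodule K (K × K), R W M.toAddSubgroup ∧ R M.toAddSubgroup W}
  supClosed' := fun a ⟨M, h1, h2⟩ b ⟨N, h3, h4⟩ => ⟨M ⊔ N, by
    rw [Submodule.sup_toAddSubgroup]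
    exact ⟨(h1.tr (.le le_sup_left)).sup (h3.tr (.le le_sup_right)),
      (h2.tr (.le le_sup_left)).sup (h4.tr (.le le_sup_right))⟩⟩
  infClosed' := fun a ⟨M, h1, h2⟩ b ⟨N, h3, h4⟩ => ⟨M ⊓ N, by
    rw [show (M ⊓ N).toAddSubgroup = M.toAddSubgroup ⊓ N.toAddSubgroup from rfl]
    exact ⟨((R.le inf_le_left).tr h1).inf ((R.le inf_le_right).tr h3),
      ((R.le inf_le_left).tr h2).inf ((R.le inf_le_right).tr h4)⟩⟩

instance : IsModularLattice L := ⟨fun y _ h => sup_inf_le_assoc_of_le y.1 h⟩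

def Phi (L : Type*) [Lattice L] : Prop := ∀ u a e D b D' C E : L, u ≤ a → a ≤ e → e ≤ D → u ≤ b →
  b ≤ D' → D ⊓ C ≤ u → D' ⊓ C ≤ u → D ⊓ E ≤ u → D' ⊓ E ≤ u → D ⊓ D' ≤ u → D ⊔ C = D' ⊔ C →
    D ⊔ E = D' ⊔ E → e ⊔ C = b ⊔ C → a ⊔ E = b ⊔ E → a = e

theorem phiL : Phi L := by
  rintro ⟨u, M, a1, a2⟩ ⟨a, -⟩ ⟨e, N, a3, a4⟩ ⟨D, P, a5, a6⟩ ⟨b, -⟩ ⟨D', -⟩ ⟨C, -⟩ ⟨E, -⟩
  simp only [Subtype.ext_iff, ← Subtype.coe_le_coe, Sublattice.coe_sup, Sublattice.coe_inf]
  intro h1 h2 h3 h4 h5 h6 h7 h8 h9 h10 h11 h12 h13 h14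
  refine h2.antisymm (relIndex_eq_one.mp ?_)
  by_cases c1 : R e u
  · have := relIndex_mul_relIndex u a e h1 h2
    rw [persp h1 ((inf_le_inf_right E (h2.trans h3)).trans h8), h14,
      ← persp h4 ((inf_le_inf_right E h5).trans h9), persp h4 ((inf_le_inf_right C h5).trans h7),
      ← h13, ← persp (h1.trans h2) ((inf_le_inf_right C h3).trans h6)] at this
    exact (mul_eq_left₀ c1.ne).mp this
  by_cases c2 : R D e
  · have := relIndex_mul_relIndex a e D h2 h3
    rw [persp (h2.trans h3) (h8.trans h1), h14, h12, ← persp h5 (h9.trans h4),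
      persp h5 (h7.trans h4), ← h13, ← h11, ← persp h3 (h6.trans (h1.trans h2))] at this
    exact (mul_eq_right₀ c2.ne).mp this
  have b1 := Submodule.finrank_lt_finrank_of_lt ((Rle ((a2.tr (.le (h1.trans h2))).tr a3)).lt_of_ne
    fun h => c1 (a3.tr (h ▸ a2)))
  have b2 := Submodule.finrank_lt_finrank_of_lt ((Rle ((a4.tr (.le h3)).tr a5)).lt_of_ne
    fun h => c2 (a5.tr (h ▸ a4)))
  obtain rfl : P = ⊤ := Submodule.eq_top_of_finrank_eq ((Submodule.finrank_le P).antisymm (by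
    simp only [Module.finrank_prod, Module.finrank_self]; omega))
  have b3 : ∀ x, D ⊓ x ≤ u → R x u := fun x h =>
    (((R.le le_top).tr a6).inf (.le le_rfl)).tr (.le h)
  exact absurd ((R.le (h3.trans (le_sup_left.trans h11.le))).tr ((b3 _ h10).sup (b3 _ h6))) c1

open Tm in
theorem phiQ {K' : Type*} [Lattice K'] (h : InQ L K') : Phi K' :=
  fun u a e D b D' C E h1 h2 h3 h4 h5 h6 h7 h8 h9 h10 h11 h12 h13 h14 =>
  h [(sup (var 0) (var 1), var 1), (sup (var 1) (var 2), var 2), (sup (var 2) (var 3), var 3),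
    (sup (var 0) (var 4), var 4), (sup (var 4) (var 5), var 5),
    (sup (inf (var 3) (var 6)) (var 0), var 0), (sup (inf (var 5) (var 6)) (var 0), var 0),
    (sup (inf (var 3) (var 7)) (var 0), var 0), (sup (inf (var 5) (var 7)) (var 0), var 0),
    (sup (inf (var 3) (var 5)) (var 0), var 0), (sup (var 3) (var 6), sup (var 5) (var 6)),
    (sup (var 3) (var 7), sup (var 5) (var 7)), (sup (var 2) (var 6), sup (var 4) (var 6)),
    (sup (var 1) (var 7), sup (var 4) (var 7))] (var 1) (var 2) (fun v hv => by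
      simp only [List.mem_cons, List.not_mem_nil, or_false, forall_eq_or_imp, forall_eq, ev,
        sup_eq_right] at hv
      obtain ⟨h1, h2, h3, h4, h5, h6, h7, h8, h9, h10, h11, h12, h13, h14⟩ := hv
      exact phiL _ _ _ _ _ _ _ _ h1 h2 h3 h4 h5 h6 h7 h8 h9 h10 h11 h12 h13 h14)
    (fun n => [u, a, e, D, b, D', C, E].getD n u) (by
      simp only [List.mem_cons, List.not_mem_nil, or_false, forall_eq_or_imp, forall_eq, ev,
        sup_eq_right]
      exact ⟨h1, h2, h3, h4, h5, h6, h7, h8, h9, h10, h11, h12, h13, h14⟩)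

noncomputable def sm (M : Submodule K (K × K)) : L := ⟨M.toAddSubgroup, M, .le le_rfl, .le le_rfl⟩

noncomputable def ln (α β : K) : L := sm (LinearMap.ker (α • LinearMap.fst K K K - β • LinearMap.snd K K K))

theorem mem_ln {α β : K} {p : K × K} : p ∈ (ln α β).1 ↔ α * p.1 = β * p.2 := by
  simp [ln, sm, sub_eq_zero]

noncomputable def zm (x : K × K) : L := ⟨zmultiples x, ⊥, by
  have : Finite (zmultiples x) := finite_zmultiples.mpr (isOfFinAddOrder_iff_nsmul_eq_zero.mpr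
    ⟨2, two_pos, by rw [two_nsmul]; ext <;> simp [CharTwo.add_self_eq_zero]⟩)
  exact ⟨by simpa using (Nat.card_pos (α := zmultiples x)).ne'⟩, .le bot_le⟩

theorem zm_sup {x y : K × K} {C : L} (h : x + y ∈ C.1) : zm x ⊔ C = zm y ⊔ C := by
  have : ∀ {x y : K × K}, x + y ∈ C.1 → zm x ⊔ C ≤ zm y ⊔ C := fun {x y} h => sup_le
    (zmultiples_le_of_mem (by
      simpa using (zm y ⊔ C).1.sub_mem (mem_sup_right h) (mem_sup_left (mem_zmultiples y))))
    le_sup_right
  exact (this h).antisymm (this (add_comm x y ▸ h))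

noncomputable def H : L := ⟨((HahnSeries.coeff.addMonoidHom 0).comp (AddMonoidHom.fst K K)).ker, ⊤,
  .le le_top, ⟨by simpa using FiniteIndex.index_ne_zero⟩⟩

theorem noComplete (K' : Type*) [CompleteLattice K'] (h : InQ L K') (f : LatticeHom L K') :
    ¬ Function.Injective f := fun hf => by
  have m : ∀ {a b : L}, a.1 ≤ b.1 → f a ≤ f b := fun h => OrderHomClass.mono f h
  have t0 : s 1 ≠ 0 := by simp [s]
  have m1 : ∀ a b c d : K, (∀ p : K × K, a * p.1 = b * p.2 → c * p.1 = d * p.2 → p.1 = 0 ∧ p.2 = 0) →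
      f (ln a b) ⊓ f (ln c d) ≤ f (sm ⊥) := fun a b c d h => (f.map_inf' _ _).ge.trans
        (m fun p hp => Prod.ext_iff.mpr (h p (mem_ln.mp hp.1) (mem_ln.mp hp.2)))
  have m2 : ∀ t : K, t ≠ 0 → f (ln 0 1) ⊔ f (ln 1 t) = f (ln 1 0) ⊔ f (ln 1 t) := fun t ht => by
    rw [← SupHomClass.map_sup, ← SupHomClass.map_sup]
    refine congrArg f (Subtype.ext (Eq.trans (b := ⊤) (eq_top_iff.mpr fun p _ => mem_sup.mpr
      ⟨(p.1 - t * p.2, 0), by simp [mem_ln], (t * p.2, p.2), by simp [mem_ln], by simp⟩)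
      (eq_top_iff.mpr fun p _ => mem_sup.mpr ⟨(0, p.2 - p.1 / t), by simp [mem_ln], (p.1, p.1 / t),
        by simp [mem_ln, mul_div_cancel₀ _ ht], by simp⟩).symm))
  have h1 := phiQ h (f (sm ⊥)) (⨆ i, f (zm (s (i + 1), 0))) (⨆ i, f (zm (s i, 0))) (f (ln 0 1))
    (⨆ i, f (zm (0, s i))) (f (ln 1 0)) (f (ln 1 1)) (f (ln 1 (s 1))) (le_iSup_of_le 0 (m bot_le))
    (iSup_le fun i => le_iSup_of_le (i + 1) le_rfl)
    (iSup_le fun i => m (zmultiples_le_of_mem (by simp [mem_ln]))) (le_iSup_of_le 0 (m bot_le))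
    (iSup_le fun i => m (zmultiples_le_of_mem (by simp [mem_ln])))
    (m1 _ _ _ _ fun p h h' => by grind)
    (m1 _ _ _ _ fun p h h' => by grind)
    (m1 _ _ _ _ fun p h h' => by grind)
    (m1 _ _ _ _ fun p h h' => by grind)
    (m1 _ _ _ _ fun p h h' => by grind) (m2 1 one_ne_zero) (m2 _ t0)
    (by simp only [iSup_sup, ← SupHomClass.map_sup]; exact iSup_congr fun i => congrArg f (zm_sup (by simp [mem_ln])))
    (by simp only [iSup_sup, ← SupHomClass.map_sup]; exact iSup_congr fun i => congrArg f (zm_sup (by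
      simp [mem_ln, s, HahnSeries.single_mul_single, add_comm])))
  have h2 : f (zm (s 0, 0)) ≤ f H := (le_iSup_of_le 0 le_rfl).trans (h1.ge.trans (iSup_le fun i =>
    m (zmultiples_le_of_mem (by simp [H, s, HahnSeries.coeff_single]; omega))))
  have h3 : zm (s 0, 0) ≤ H := sup_eq_right.mp (hf ((SupHomClass.map_sup f _ _).trans (sup_eq_right.mpr h2)))
  simpa [H, s] using h3 (mem_zmultiples _)

end Pool.Agent.H31.QV
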