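import Mathlib

namespace Pool.Agent.H31.QV

/-- lattice terms -/
inductive Tm : Type
  | var : ℕ → Tm
  | sup : Tm → Tm → Tm
  | inf : Tm → Tm → Tm

def Tm.ev {L : Type*} [Lattice L] (v : ℕ → L) : Tm → L
  | .var n => v n
  | .sup s t => s.ev v ⊔ t.ev v
  | .inf s t => s.ev v ⊓ t.ev v

/-- the quasi-identity (premises `l`) ⇒ `s = t` holds in `L` -/
def Holds (L : Type*) [Lattice L] (l : List (Tm × Tm)) (s t : Tm) : Prop :=
  ∀ v : ℕ → L, (∀ p ∈ l, p.1.ev v = p.2.ev v) → s.ev v = t.ev v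

/-- `K` lies in the quasivariety generated by `L` -/
def InQ (L K : Type*) [Lattice L] [Lattice K] : Prop := ∀ l s t, Holds L l s t → Holds K l s t

end Pool.Agent.H31.QV
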