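import Pool.Agent.H31.Omega1

set_option autoImplicit false

open Set Function

namespace Pool.Agent.H31.RK

open Omega1

/-- states of the construction -/
structure S : Type where
  D : Set W
  F : W → Finset W
  n : W → (ℕ × ℕ) ⊕ W

instance : Preorder S where
  le s u := s.D ⊆ u.D ∧ ∀ a ∈ s.D, u.F a = s.F a ∧ u.n a = s.n a
  le_refl _ := ⟨subset_rfl, fun _ _ => ⟨rfl, rfl⟩⟩
  le_trans _ _ _ h h' := ⟨h.1.trans h'.1, fun a ha =>
    ⟨(h'.2 a (h.1 ha)).1.trans (h.2 a ha).1, (h'.2 a (h.1 ha)).2.trans (h.2 a ha).2⟩⟩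

/-- the level `e` covers the pair `π` -/
def Cov (F : W → Finset W) (e : W) (π : W × W) : Prop := π.1 ∈ F e ∧ π.2 ∈ F e

variable (p : W → W × W)

/-- the local constraints -/
structure Loc (s : S) : Prop where
  low : IsLowerSet s.D
  f1 : ∀ a ∈ s.D, a ∈ s.F a
  f2 : ∀ a ∈ s.D, ∀ b ∈ s.F a, b ≤ a ∧ s.F b ⊆ s.F a
  ptr : ∀ a ∈ s.D, ∀ e, s.n a = .inr e → e < a ∧ Cov s.F e (p a)
  inj : ∀ a ∈ s.D, ∀ b ∈ s.D, ∀ m, p a = p b → s.n a = .inl m → s.n b = .inl m → a = b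
  must : ∀ a ∈ s.D, ∀ e < a, Cov s.F e (p a) → ∀ m, s.n a ≠ .inl m

/-- bounded use of labels -/
def Bd (s : S) : Prop := ∀ π, ∃ k, ∀ a ∈ s.D, p a = π → ∀ m, s.n a = .inl m → m.1 ≤ k

/-- countable good states -/
def Ok (s : S) : Prop := Loc p s ∧ Bd p s ∧ s.D.Countable

/-- a pair is covered in a state -/
def Cv (s : S) (π : W × W) : Prop := ∃ e ∈ s.D, Cov s.F e π

/-- all pairs are covered -/
def Full (s : S) : Prop := ∀ a ∈ s.D, ∀ b ∈ s.D, Cv s (a, b)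

variable {p}

theorem Cv.mono {s u : S} {π : W × W} (h : Cv s π) (hu : s ≤ u) : Cv u π :=
  let ⟨e, h1, h2⟩ := h
  ⟨e, hu.1 h1, by simpa only [Cov, (hu.2 e h1).1] using h2⟩

theorem Loc.of_pairs {u : S} (h0 : IsLowerSet u.D) (h : ∀ a ∈ u.D, ∀ b ∈ u.D, ∃ s, Loc p s ∧
    (a ∈ s.D ∧ u.F a = s.F a ∧ u.n a = s.n a) ∧ b ∈ s.D ∧ u.F b = s.F b ∧ u.n b = s.n b) :
    Loc p u := by
  refine ⟨h0, fun a ha => ?_, fun a ha b hb => ?_, fun a ha e he => ?_,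
    fun a ha b hb m e h1 h2 => ?_, fun a ha e he hc m => ?_⟩
  · obtain ⟨s, hs, h1, -⟩ := h a ha a ha
    exact h1.2.1 ▸ hs.f1 a h1.1
  · obtain ⟨s, hs, h1, -⟩ := h a ha a ha
    have := (hs.f2 a h1.1 b (h1.2.1 ▸ hb)).1
    obtain ⟨s, hs, h1, h2⟩ := h a ha b (h0 this ha)
    rw [h1.2.1] at hb ⊢
    exact ⟨this, h2.2.1 ▸ (hs.f2 a h1.1 b hb).2⟩
  · obtain ⟨s, hs, h1, -⟩ := h a ha a ha
    have := (hs.ptr a h1.1 e (h1.2.2 ▸ he)).1
    obtain ⟨s, hs, h1, h2⟩ := h a ha e (h0 this.le ha)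
    exact ⟨this, by simpa only [Cov, h2.2.1] using (hs.ptr a h1.1 e (h1.2.2 ▸ he)).2⟩
  · obtain ⟨s, hs, h3, h4⟩ := h a ha b hb
    exact hs.inj a h3.1 b h4.1 m e (h3.2.2 ▸ h1) (h4.2.2 ▸ h2)
  · obtain ⟨s, hs, h1, h2⟩ := h a ha e (h0 he.le ha)
    exact h1.2.2 ▸ hs.must a h1.1 e he (by simpa only [Cov, h2.2.1] using hc) m

theorem lim {J : Type} (s : J → S) (h : ∀ i j, s i ≤ s j ∨ s j ≤ s i) :
    ∃ u : S, (∀ j, s j ≤ u) ∧ ∀ a ∈ u.D, ∃ j, a ∈ (s j).D := by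
  classical
  refine ⟨⟨⋃ j, (s j).D, fun a => if h : ∃ j, a ∈ (s j).D then (s h.choose).F a else ∅,
    fun a => if h : ∃ j, a ∈ (s j).D then (s h.choose).n a else .inr a⟩,
    fun j => ⟨subset_iUnion (fun j => (s j).D) j, fun a ha => ?_⟩, fun a ha => mem_iUnion.1 ha⟩
  have h1 : ∃ j, a ∈ (s j).D := ⟨j, ha⟩
  simp only [dif_pos h1]
  rcases h j h1.choose with h2 | h2
  · exact h2.2 a ha
  · exact ⟨(h2.2 a h1.choose_spec).1.symm, (h2.2 a h1.choose_spec).2.symm⟩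

theorem lim_ok (hp : ∀ a, (p a).1 ≤ a ∧ (p a).2 ≤ a) {J : Type} {s : J → S} {u : S}
    (h1 : ∀ j, s j ≤ u) (h2 : ∀ a ∈ u.D, ∃ j, a ∈ (s j).D) (h3 : ∀ j, Loc p (s j) ∧ Bd p (s j))
    (h4 : Full u) : Loc p u ∧ Bd p u := by
  have h0 : IsLowerSet u.D := fun a b hab ha =>
    let ⟨j, hj⟩ := h2 a ha
    (h1 j).1 ((h3 j).1.low hab hj)
  have hl : Loc p u := Loc.of_pairs h0 fun a ha b hb => by
    obtain ⟨j, hj⟩ := h2 (max a b) (by rcases max_choice a b with h | h <;> rwa [h])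
    have ha' := (h3 j).1.low (le_max_left a b) hj
    have hb' := (h3 j).1.low (le_max_right a b) hj
    exact ⟨s j, (h3 j).1, ⟨ha', (h1 j).2 a ha'⟩, hb', (h1 j).2 b hb'⟩
  refine ⟨hl, fun π => ?_⟩
  by_cases h : ∃ a ∈ u.D, p a = π
  · obtain ⟨a, ha, rfl⟩ := h
    obtain ⟨e, he, hc⟩ := h4 _ (h0 (hp a).1 ha) _ (h0 (hp a).2 ha)
    obtain ⟨j, hj⟩ := h2 e he
    obtain ⟨k, hk⟩ := (h3 j).2 (p a)
    refine ⟨k, fun b hb e' m hm => ?_⟩
    have hb' := (h3 j).1.low (not_lt.1 fun h => hl.must b hb e h (e' ▸ hc) m hm) hj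
    exact hk b hb' e' m (((h1 j).2 b hb').2 ▸ hm)
  · exact ⟨0, fun a ha e => (h ⟨a, ha, e⟩).elim⟩

theorem fill {s : S} (hD : IsLowerSet s.D) (hc : s.D.Countable) (A : Set W)
    (f1 : ∀ a ∈ s.D, a ∈ s.F a) (f2 : ∀ a ∈ s.D, ∀ b ∈ s.F a, b ≤ a ∧ s.F b ⊆ s.F a)
    (ptr : ∀ a ∈ A, ∀ e, s.n a = .inr e → e < a ∧ Cov s.F e (p a))
    (inj : ∀ a ∈ A, ∀ b ∈ A, ∀ m, p a = p b → s.n a = .inl m → s.n b = .inl m → a = b)
    (must : ∀ a ∈ A, ∀ e < a, Cov s.F e (p a) → ∀ m, s.n a ≠ .inl m)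
    (bd : ∀ π, ∃ k, ∀ a ∈ A, p a = π → ∀ m, s.n a = .inl m → m.1 ≤ k) :
    ∃ n', (∀ a ∈ A, n' a = s.n a) ∧ Ok p ⟨s.D, s.F, n'⟩ := by
  classical
  choose k hk using bd
  obtain ⟨j, hj⟩ := Set.countable_iff_exists_injOn.1 hc
  set n' : W → (ℕ × ℕ) ⊕ W := fun a => if a ∈ A then s.n a else
    if h : ∃ e < a, Cov s.F e (p a) then .inr h.choose else .inl (k (p a) + 1, j a) with hn
  have h1 : ∀ a ∈ A, n' a = s.n a := fun a ha => if_pos ha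
  have h2 : ∀ a ∉ A, ∀ m, n' a = .inl m → m = (k (p a) + 1, j a) ∧ ¬ ∃ e < a, Cov s.F e (p a) := by
    intro a ha m hm
    simp only [hn, if_neg ha] at hm
    split_ifs at hm with h
    exact ⟨(Sum.inl.inj hm).symm, h⟩
  refine ⟨n', h1, ⟨hD, f1, f2, fun a _ e he => ?_, fun a ha b hb m e h3 h4 => ?_,
    fun a _ e he h m hm => ?_⟩, fun π => ⟨k π + 1, fun a _ e m hm => ?_⟩, hc⟩
  · by_cases h : a ∈ A
    · exact ptr a h e (h1 a h ▸ he)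
    · simp only [hn, if_neg h] at he
      split_ifs at he with h'
      exact Sum.inr.inj he ▸ h'.choose_spec
  · by_cases h : a ∈ A <;> by_cases h' : b ∈ A
    · exact inj a h b h' m e (h1 a h ▸ h3) (h1 b h' ▸ h4)
    · have := hk _ a h e m (h1 a h ▸ h3)
      rw [(h2 b h' m h4).1] at this
      exact absurd this (Nat.not_succ_le_self _)
    · have := hk _ b h' e.symm m (h1 b h' ▸ h4)
      rw [(h2 a h m h3).1] at this
      exact absurd this (Nat.not_succ_le_self _)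
    · exact hj ha hb (congrArg Prod.snd ((h2 a h m h3).1.symm.trans (h2 b h' m h4).1))
  · by_cases h' : a ∈ A
    · exact must a h' e he h m (h1 a h' ▸ hm)
    · exact (h2 a h' m hm).2 ⟨e, he, h⟩
  · by_cases h' : a ∈ A
    · exact (hk π a h' e m (h1 a h' ▸ hm)).trans (Nat.le_succ _)
    · rw [(h2 a h' m hm).1, e]

theorem add {s : S} (h : Loc p s) (hb : Bd p s) (hn : s.D ≠ univ) :
    ∃ u d, Ok p u ∧ s ≤ u ∧ d ∉ s.D ∧ u.D = insert d s.D ∧ (∀ a ∈ s.D, a < d) ∧ u.F d = {d} := by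
  classical
  obtain ⟨d, h1, h2⟩ := wellFounded_lt.has_min s.Dᶜ (nonempty_compl.2 hn)
  have h3 : ∀ a ∈ s.D, a < d := fun a ha => not_le.1 fun h' => h1 (h.low h' ha)
  have h4 : ∀ a ∈ s.D, update s.F d {d} a = s.F a := fun a ha => update_of_ne (h3 a ha).ne _ _
  obtain ⟨n', e1, e2⟩ := fill (p := p) (s := ⟨insert d s.D, update s.F d {d}, s.n⟩)
    (by
      rintro a b hab (rfl | ha)
      · exact hab.eq_or_lt.imp id fun h' => not_not.1 fun h'' => h2 b h'' h'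
      · exact Or.inr (h.low hab ha))
    (((countable_Iio d).mono h3).insert d) s.D
    (by
      rintro a (rfl | ha)
      · simp
      · simpa only [h4 a ha] using h.f1 a ha)
    (by
      rintro a (rfl | ha) b hb
      · obtain rfl : b = a := by simpa using hb
        exact ⟨le_rfl, subset_rfl⟩
      · simp only [h4 a ha] at hb ⊢
        rw [h4 b (h.low (h.f2 a ha b hb).1 ha)]
        exact h.f2 a ha b hb)
    (fun a ha e he => by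
      simpa only [Cov, h4 e (h.low (h.ptr a ha e he).1.le ha)] using h.ptr a ha e he)
    h.inj
    (fun a ha e he hc => h.must a ha e he (by simpa only [Cov, h4 e (h.low he.le ha)] using hc)) hb
  exact ⟨_, d, e2, ⟨subset_insert _ _, fun a ha => ⟨h4 a ha, e1 a ha⟩⟩, h1, rfl, h3, update_self ..⟩

theorem surg {s : S} (h : Ok p s) {d : W} (hd : ∀ a ∈ s.D, a ≤ d) {A : Set W} (hA : A ⊆ s.D)
    (c1 : ∀ a ∈ A, ∀ b ∈ s.F a, b ∈ A) (c2 : ∀ a ∈ A, ∀ e, s.n a = .inr e → e ∈ A) {G : Finset W}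
    (g1 : d ∈ G) (g2 : ∀ a ∈ G, a ∈ A ∧ s.F a ⊆ G) :
    ∃ u, Ok p u ∧ u.D = s.D ∧ u.F d = G ∧ (∀ a ∈ A, u.n a = s.n a ∧ (a ≠ d → u.F a = s.F a)) ∧
      ∀ a ∉ A, u.F a = {a} := by
  classical
  set F' : W → Finset W := fun a => if a = d then G else if a ∈ A then s.F a else {a} with hF
  have h1 : F' d = G := if_pos rfl
  have h2 : ∀ a ∈ A, a ≠ d → F' a = s.F a := fun a ha h => by simp [hF, ha, h]
  have h3 : ∀ a ∉ A, F' a = {a} := fun a ha => by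
    have : a ≠ d := fun e => ha (e ▸ (g2 d g1).1)
    simp [hF, ha, this]
  obtain ⟨n', e1, e2⟩ := fill (p := p) (s := ⟨s.D, F', s.n⟩) h.1.low h.2.2 A
    (fun a ha => by
      by_cases h4 : a = d
      · simpa only [h4, h1] using g1
      by_cases h5 : a ∈ A
      · simpa only [h2 a h5 h4] using h.1.f1 a ha
      · simp [h3 a h5])
    (fun a ha b hb => by
      by_cases h4 : a = d
      · subst h4
        simp only [h1] at hb ⊢
        refine ⟨hd b (hA (g2 b hb).1), ?_⟩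
        by_cases h5 : b = a
        · rw [h5, h1]
        · exact (h2 b (g2 b hb).1 h5).symm ▸ (g2 b hb).2
      by_cases h5 : a ∈ A
      · simp only [h2 a h5 h4] at hb ⊢
        have := h.1.f2 a ha b hb
        rwa [h2 b (c1 a h5 b hb) (this.1.trans_lt ((hd a ha).lt_of_ne h4)).ne]
      · obtain rfl : b = a := by simpa [h3 a h5] using hb
        exact ⟨le_rfl, subset_rfl⟩)
    (fun a ha e he => by
      have := h.1.ptr a (hA ha) e he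
      simpa only [Cov, h2 e (c2 a ha e he) (this.1.trans_le (hd a (hA ha))).ne] using this)
    (fun a ha b hb => h.1.inj a (hA ha) b (hA hb))
    (fun a ha e he hc => h.1.must a (hA ha) e he (by
      by_cases h5 : e ∈ A
      · simpa only [Cov, h2 e h5 (he.trans_le (hd a (hA ha))).ne] using hc
      · simp only [Cov, h3 e h5, Finset.mem_singleton] at hc
        have := h.1.f1 e (h.1.low he.le (hA ha))
        exact ⟨hc.1.symm ▸ this, hc.2.symm ▸ this⟩))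
    (fun π => (h.2.1 π).imp fun k hk a ha => hk a (hA ha))
  exact ⟨_, e2, rfl, h1, fun a ha => ⟨e1 a ha, h2 a ha⟩, h3⟩

theorem step {s : S} (h : Ok p s) {π : W × W} (h1 : π.1 ∈ s.D) (h2 : π.2 ∈ s.D) :
    ∃ u d, Ok p u ∧ s ≤ u ∧ d ∉ s.D ∧ u.D = insert d s.D ∧ Cov u.F d π := by
  classical
  obtain ⟨u, d, u1, u2, u3, u4, u5, u6⟩ := add h.1 h.2.1 fun e => not_countable_univ (e ▸ h.2.2)
  have hd : ∀ a ∈ u.D, a ≤ d := by
    rw [u4]; rintro a (rfl | ha); exacts [le_rfl, (u5 a ha).le]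
  have hs : ∀ a ∈ u.D, ∀ b ∈ u.F a, b ∈ u.D := fun a ha b hb => u1.1.low (u1.1.f2 a ha b hb).1 ha
  obtain ⟨v, v1, v2, v3, v4, -⟩ := surg u1 hd subset_rfl hs
    (fun a ha e he => u1.1.low (u1.1.ptr a ha e he).1.le ha) (G := u.F d ∪ (u.F π.1 ∪ u.F π.2))
    (by simp [u6]) fun a ha => by
      have hd' : d ∈ u.D := u4 ▸ mem_insert _ _
      simp only [Finset.mem_union] at ha
      rcases ha with ha | ha | ha
      · exact ⟨hs _ hd' a ha, (u1.1.f2 _ hd' a ha).2.trans Finset.subset_union_left⟩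
      · exact ⟨hs _ (u2.1 h1) a ha, (u1.1.f2 _ (u2.1 h1) a ha).2.trans
          (Finset.subset_union_left.trans Finset.subset_union_right)⟩
      · exact ⟨hs _ (u2.1 h2) a ha, (u1.1.f2 _ (u2.1 h2) a ha).2.trans
          (Finset.subset_union_right.trans Finset.subset_union_right)⟩
  refine ⟨v, d, v1, ⟨v2 ▸ u2.1, fun a ha => ⟨?_, ?_⟩⟩, u3, v2.trans u4, ?_, ?_⟩
  · exact ((v4 a (u2.1 ha)).2 (u5 a ha).ne).trans (u2.2 a ha).1
  · exact (v4 a (u2.1 ha)).1.trans (u2.2 a ha).2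
  · simp [v3, u1.1.f1 _ (u2.1 h1)]
  · simp [v3, u1.1.f1 _ (u2.1 h2)]

/-- dovetailing -/
def dov {α β : Type} (f : α → β → α) (en : α → ℕ → β) (s0 : α) : ℕ → α
  | 0 => s0
  | n + 1 => f (dov f en s0 n) (en (dov f en s0 (Nat.unpair n).1) (Nat.unpair n).2)
decreasing_by
  all_goals first | exact Nat.lt_succ_of_le (Nat.unpair_left_le n) | omega

theorem sat (hp : ∀ a, (p a).1 ≤ a ∧ (p a).2 ≤ a) (P : S → Prop) (Q : S → S → Prop)
    (hP : ∀ s, P s → Ok p s ∧ s.D.Nonempty)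
    (h : ∀ s, P s → ∀ a ∈ s.D, ∀ b ∈ s.D, ∃ u, P u ∧ s ≤ u ∧ Cv u (a, b) ∧ Q s u) {s0 : S}
    (h0 : P s0) : ∃ (s : ℕ → S) (u : S), s 0 = s0 ∧ Monotone s ∧
      (∀ k, P (s k) ∧ Q (s k) (s (k + 1)) ∧ s k ≤ u) ∧ (∀ a ∈ u.D, ∃ k, a ∈ (s k).D) ∧
      Ok p u ∧ Full u := by
  have h1 : ∀ (s : {s // P s}) (π : W × W), ∃ u : {s // P s}, s.1 ≤ u.1 ∧ Q s u ∧
      (π.1 ∈ s.1.D ∧ π.2 ∈ s.1.D → Cv u π) := fun s π => by
    by_cases h' : π.1 ∈ s.1.D ∧ π.2 ∈ s.1.D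
    · obtain ⟨u, u1, u2, u3, u4⟩ := h s s.2 _ h'.1 _ h'.2
      exact ⟨⟨u, u1⟩, u2, u4, fun _ => u3⟩
    · obtain ⟨a, ha⟩ := (hP s s.2).2
      obtain ⟨u, u1, u2, u3, u4⟩ := h s s.2 _ ha _ ha
      exact ⟨⟨u, u1⟩, u2, u4, fun h => (h' h).elim⟩
  choose f f1 f2 f3 using h1
  have h2 : ∀ s : {s // P s}, ∃ en : ℕ → W × W, s.1.D ×ˢ s.1.D = range en := fun s =>
    ((hP s s.2).1.2.2.prod (hP s s.2).1.2.2).exists_eq_range ((hP s s.2).2.prod (hP s s.2).2)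
  choose en hen using h2
  set s := dov f en ⟨s0, h0⟩ with hs
  have e : ∀ n, s (n + 1) = f (s n) (en (s (Nat.unpair n).1) (Nat.unpair n).2) := fun n => by
    rw [hs, dov]
  have mono : Monotone fun n => (s n).1 := monotone_nat_of_le_succ fun n => e n ▸ f1 _ _
  obtain ⟨u, u1, u2⟩ := lim (fun n => (s n).1) fun i j => (le_total i j).imp (@mono _ _) (@mono _ _)
  have fu : Full u := fun a ha b hb => by
    obtain ⟨i, hi⟩ := u2 a ha
    obtain ⟨j, hj⟩ := u2 b hb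
    have h3 : (a, b) ∈ (s (max i j)).1.D ×ˢ (s (max i j)).1.D :=
      ⟨(mono (le_max_left _ _)).1 hi, (mono (le_max_right _ _)).1 hj⟩
    obtain ⟨m, hm⟩ := hen _ ▸ h3
    refine Cv.mono ?_ (u1 (Nat.pair (max i j) m + 1))
    simp only [e, Nat.unpair_pair, hm]
    exact f3 _ _ ⟨(mono (Nat.left_le_pair _ _)).1 h3.1, (mono (Nat.left_le_pair _ _)).1 h3.2⟩
  have := lim_ok hp u1 u2 (fun j => ⟨(hP _ (s j).2).1.1, (hP _ (s j).2).1.2.1⟩) fu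
  refine ⟨fun n => (s n).1, u, by simp only [hs, dov], mono,
    fun k => ⟨(s k).2, by simp only [e]; exact f2 _ _, u1 k⟩, u2,
    ⟨this.1, this.2, ?_⟩, fu⟩
  exact (countable_iUnion fun k => (hP _ (s k).2).1.2.2).mono fun a ha => mem_iUnion.2 (u2 a ha)

theorem clos {s : S} (h : Loc p s) (a : W) : a ∈ s.D → ∃ H : Finset W, a ∈ H ∧
    ∀ b ∈ H, b ∈ s.D ∧ s.F b ⊆ H ∧ ∀ e, s.n b = .inr e → e ∈ H := by
  classical
  induction a using WellFoundedLT.induction with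
  | ind a ih =>
  intro ha
  choose! H h1 h2 using ih
  obtain ⟨E, e1, e2, e3⟩ : ∃ E : Finset W, (∀ b ∈ E, b < a) ∧ (∀ b ∈ s.F a, b ≠ a → b ∈ E) ∧
      ∀ e, s.n a = .inr e → e ∈ E := by
    refine ⟨(s.F a).erase a ∪ (s.n a).getRight?.toFinset, fun b hb => ?_, fun b h1 h2 => by simp [h1, h2],
      fun e he => by simp [he]⟩
    rcases Finset.mem_union.1 hb with hb | hb
    · exact (h.f2 a ha b (Finset.mem_of_mem_erase hb)).1.lt_of_ne (Finset.ne_of_mem_erase hb)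
    · exact (h.ptr a ha b (by simpa using hb)).1
  have h3 : ∀ b ∈ E, H b ⊆ insert a (E.biUnion H) := fun b hb =>
    (Finset.subset_biUnion_of_mem H hb).trans (Finset.subset_insert _ _)
  have h4 : ∀ b ∈ E, b ∈ s.D := fun b hb => h.low (e1 b hb).le ha
  refine ⟨insert a (E.biUnion H), Finset.mem_insert_self _ _, fun b hb => ?_⟩
  rcases Finset.mem_insert.1 hb with rfl | hb
  · refine ⟨ha, fun c hc => ?_, fun e he => h3 e (e3 e he) (h1 e (e1 e (e3 e he)) (h4 e (e3 e he)))⟩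
    by_cases h5 : c = b
    · exact h5 ▸ Finset.mem_insert_self _ _
    · exact h3 c (e2 c hc h5) (h1 c (e1 c (e2 c hc h5)) (h4 c (e2 c hc h5)))
  · obtain ⟨c, hc, hb⟩ := Finset.mem_biUnion.1 hb
    have := h2 c (e1 c hc) (h4 c hc) b hb
    exact ⟨this.1, this.2.1.trans (h3 c hc), fun e he => h3 c hc (this.2.2 e he)⟩

section Col
variable (c : W → S → Bool)

/-- everything above `t` has colour `i` -/
def Mono (t : W) (i : Bool) (s : S) : Prop := ∀ a ∈ s.D, t ∈ s.F a → c a s = i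

variable (p) in
/-- the pair `π` cannot be covered monochromatically -/
def Stuck (t : W) (i : Bool) (s : S) (π : W × W) : Prop :=
  Ok p s ∧ Mono c t i s ∧ t ∈ s.D ∧ π.1 ∈ s.D ∧ π.2 ∈ s.D ∧
    ∀ u, Ok p u → s ≤ u → Cv u π → ¬ Mono c t i u

variable {c} (hp : ∀ a, (p a).1 ≤ a ∧ (p a).2 ≤ a)
  (hc : ∀ a (s u : S), a ∈ s.F a → (∀ b ∈ s.F a, u.F b = s.F b ∧ u.n b = s.n b) → c a u = c a s)
  (hno : ∀ s t i, Loc p s → s.D = univ → ¬ Mono c t i s)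

include hc in
theorem c_le {s u : S} (h : Loc p s) (hu : s ≤ u) {a : W} (ha : a ∈ s.D) : c a u = c a s :=
  hc a s u (h.f1 a ha) fun b hb => hu.2 b (h.low (h.f2 a ha b hb).1 ha)

include hc in
theorem mono_lim {J : Type} {s : J → S} {u : S} {t : W} {i : Bool} (h1 : ∀ j, s j ≤ u)
    (h2 : ∀ a ∈ u.D, ∃ j, a ∈ (s j).D) (h3 : ∀ j, Loc p (s j) ∧ Mono c t i (s j)) :
    Mono c t i u := fun a ha ht => by
  obtain ⟨j, hj⟩ := h2 a ha
  rw [c_le hc (h3 j).1 (h1 j) hj]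
  exact (h3 j).2 a hj (((h1 j).2 a hj).1 ▸ ht)

include hc in
theorem mono_ins {s u : S} {t d : W} {i : Bool} (h : Loc p s) (hu : s ≤ u)
    (e : u.D = insert d s.D) (hm : Mono c t i s) (hd : t ∈ u.F d → c d u = i) : Mono c t i u := by
  intro a ha ht
  rcases e ▸ ha with rfl | ha
  · exact hd ht
  · rw [c_le hc h hu ha]
    exact hm a ha ((hu.2 a ha).1 ▸ ht)

include hp hc hno

theorem stuck {s : S} {t : W} {i : Bool} (h : Ok p s) (ht : t ∈ s.D) (hm : Mono c t i s) :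
    ∃ u π, s ≤ u ∧ Stuck p c t i u π := by
  by_contra hn
  have h1 : ∀ s', Ok p s' → Mono c t i s' → s ≤ s' →
      ∃ u, s' ≤ u ∧ Loc p u ∧ Bd p u ∧ Full u ∧ Mono c t i u ∧ s ≤ u := by
    intro s' a1 a2 a3
    obtain ⟨q, u, rfl, -, u1, u2, u3, u4⟩ := sat hp (fun v => Ok p v ∧ Mono c t i v ∧ s ≤ v)
      (fun _ _ => True) (fun v hv => ⟨hv.1, t, hv.2.2.1 ht⟩) (fun v hv a ha b hb => by
        by_contra h'
        refine hn ⟨v, (a, b), hv.2.2, hv.1, hv.2.1, hv.2.2.1 ht, ha, hb, fun u u1 u2 u3 u4 => ?_⟩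
        exact h' ⟨u, ⟨u1, u4, hv.2.2.trans u2⟩, u2, u3, trivial⟩) ⟨a1, a2, a3⟩
    exact ⟨u, (u1 0).2.2, u3.1, u3.2.1, u4, mono_lim hc (fun k => (u1 k).2.2) u2
      fun k => ⟨(u1 k).1.1.1, (u1 k).1.2.1⟩, a3.trans (u1 0).2.2⟩
  obtain ⟨s1, -, hs1⟩ := h1 s h hm le_rfl
  obtain ⟨m, -, ⟨m1, m2, m3, m4, m5⟩, m6⟩ := zorn_le_nonempty₀
    {u | Loc p u ∧ Bd p u ∧ Full u ∧ Mono c t i u ∧ s ≤ u} (fun C hC hC' y hy => by
      have tot : ∀ i j : C, i.1 ≤ j.1 ∨ j.1 ≤ i.1 := fun i j => hC'.total i.2 j.2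
      obtain ⟨u, u1, u2⟩ := lim (fun j : C => j.1) tot
      have fu : Full u := fun a ha b hb => by
        obtain ⟨i, hi⟩ := u2 a ha
        obtain ⟨j, hj⟩ := u2 b hb
        rcases tot i j with h | h
        · exact ((hC j.2).2.2.1 a (h.1 hi) b hj).mono (u1 j)
        · exact ((hC i.2).2.2.1 a hi b (h.1 hj)).mono (u1 i)
      have := lim_ok hp u1 u2 (fun j => ⟨(hC j.2).1, (hC j.2).2.1⟩) fu
      exact ⟨u, ⟨this.1, this.2, fu, mono_lim hc u1 u2 fun j => ⟨(hC j.2).1, (hC j.2).2.2.2.1⟩,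
        (hC hy).2.2.2.2.trans (u1 ⟨y, hy⟩)⟩, fun z hz => u1 ⟨z, hz⟩⟩) s1 hs1
  obtain ⟨u, d, u1, u2, u3, u4, -, u6⟩ := add m1 m2 fun e => hno m t i m1 e m4
  obtain ⟨v, v1, v2⟩ := h1 u u1 (mono_ins hc m1 u2 u4 m4 fun h' => by
    obtain rfl : t = d := by simpa [u6] using h'
    exact (u3 (m5.1 ht)).elim) (m5.trans u2)
  exact u3 ((m6 v2 (u2.trans v1)).1 (v1.1 (u4 ▸ mem_insert _ _)))

theorem color {s : S} (h : Ok p s) {π : W × W} (h1 : π.1 ∈ s.D) (h2 : π.2 ∈ s.D) (i : Bool) :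
    ∃ u, s ≤ u ∧ Cv u π ∧ ∃ t π', t ∉ s.D ∧ Stuck p c t i u π' := by
  have key : ∀ {s : S}, Ok p s → ∀ {π : W × W}, π.1 ∈ s.D → π.2 ∈ s.D → ∃ u v d π', Ok p u ∧ s ≤ u ∧
      d ∉ s.D ∧ u.D = insert d s.D ∧ Cv u π ∧ u ≤ v ∧ Stuck p c d (c d u) v π' := by
    intro s h π h1 h2
    obtain ⟨u, d, u1, u2, u3, u4, u5⟩ := step h h1 h2
    obtain ⟨v, π', v1, v2⟩ := stuck hp hc hno u1 (u4 ▸ mem_insert _ _) (mono_ins hc h.1 u2 u4
      (fun a ha ht => (u3 (h.1.low (h.1.f2 a ha d ht).1 ha)).elim) fun _ => rfl)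
    exact ⟨u, v, d, π', u1, u2, u3, u4, ⟨d, u4 ▸ mem_insert _ _, u5⟩, v1, v2⟩
  obtain ⟨u, v, d, π', -, u2, u3, -, u5, u6, u7⟩ := key h h1 h2
  by_cases e : c d u = i
  · exact ⟨v, u2.trans u6, u5.mono u6, d, π', u3, e ▸ u7⟩
  obtain ⟨u', v', d', π'', w1, w2, w3, w4, w5, w6, w7⟩ := key u7.1 u7.2.2.2.1 u7.2.2.2.2.1
  have e' : c d' u' = i := by
    by_contra e'
    refine u7.2.2.2.2.2 u' w1 w2 w5 (mono_ins hc u7.1.1 w2 w4 u7.2.1 fun _ => ?_)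
    revert e e'
    cases c d u <;> cases c d' u' <;> cases i <;> simp
  exact ⟨v', (u2.trans u6).trans (w2.trans w6), u5.mono (u6.trans (w2.trans w6)), d', π'',
    fun h => w3 ((u2.trans u6).1 h), e' ▸ w7⟩

theorem comb : False := by
  classical
  obtain ⟨s0, d0, a1, -, -, a2, -⟩ := add (p := p) (s := ⟨∅, fun _ => ∅, fun a => .inr a⟩)
    ⟨isLowerSet_empty, fun _ h => h.elim, fun _ h => h.elim, fun _ h => h.elim, fun _ h => h.elim,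
      fun _ h => h.elim⟩ (fun _ => ⟨0, fun _ h => h.elim⟩) empty_ne_univ
  have a3 : d0 ∈ s0.D := a2 ▸ mem_insert _ _
  obtain ⟨s, u, e0, mono, u1, -, u3, -⟩ := sat hp (fun v => Ok p v ∧ v.D.Nonempty)
    (fun v w => ∃ t π, t ∉ v.D ∧ Stuck p c t false w π) (fun _ h => h) (fun v hv a ha b hb => by
      obtain ⟨w, w1, w2, t, π, w3, w4⟩ := color hp hc hno hv.1 (π := (a, b)) ha hb false
      exact ⟨w, ⟨w4.1, hv.2.mono w1.1⟩, w1, w2, t, π, w3, w4⟩) ⟨a1, d0, a3⟩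
  choose t π t1 t2 using fun k => (u1 k).2.1
  have a4 : d0 ∈ u.D := (u1 0).2.2.1 (e0 ▸ a3)
  obtain ⟨v, v1, -, t', π', -, v3⟩ := color hp hc hno u3 (π := (d0, d0)) a4 a4 true
  obtain ⟨w, d, w1, w2, w3, w4, w5, w6⟩ := add v3.1.1 v3.1.2.1
    fun e => not_countable_univ (e ▸ v3.1.2.2)
  have hd' : d ∈ w.D := w4 ▸ mem_insert _ _
  have hd : ∀ a ∈ w.D, a ≤ d := by
    rw [w4]; rintro a (rfl | ha); exacts [le_rfl, (w5 a ha).le]
  obtain ⟨H, k1, k2, k3, k4⟩ : ∃ H : Finset W, d ∈ H ∧ π'.1 ∈ H ∧ π'.2 ∈ H ∧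
      ∀ b ∈ H, b ∈ w.D ∧ w.F b ⊆ H ∧ ∀ e, w.n b = .inr e → e ∈ H := by
    obtain ⟨H1, a1, b1⟩ := clos w1.1 d hd'
    obtain ⟨H2, a2, b2⟩ := clos w1.1 _ (w2.1 v3.2.2.2.1)
    obtain ⟨H3, a3, b3⟩ := clos w1.1 _ (w2.1 v3.2.2.2.2.1)
    refine ⟨H1 ∪ H2 ∪ H3, by simp [a1], by simp [a2], by simp [a3], fun b hb => ?_⟩
    simp only [Finset.mem_union] at hb ⊢
    rcases hb with (hb | hb) | hb
    · exact ⟨(b1 b hb).1, fun x hx => by simp [(b1 b hb).2.1 hx], fun e he => by simp [(b1 b hb).2.2 e he]⟩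
    · exact ⟨(b2 b hb).1, fun x hx => by simp [(b2 b hb).2.1 hx], fun e he => by simp [(b2 b hb).2.2 e he]⟩
    · exact ⟨(b3 b hb).1, fun x hx => by simp [(b3 b hb).2.1 hx], fun e he => by simp [(b3 b hb).2.2 e he]⟩
  have tinj : Injective t := Function.Injective.of_lt_imp_ne fun i j h e =>
    t1 j (e ▸ (mono (Nat.succ_le_of_lt h)).1 (t2 i).2.2.1)
  obtain ⟨k, hk⟩ : ∃ k, t k ∉ H := by
    by_contra h
    push Not at h
    exact infinite_range_of_injective tinj (H.finite_toSet.subset (range_subset_iff.2 h))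
  obtain ⟨q1, q2, q3, q4, q5, q6⟩ := t2 k
  have hq : s (k + 1) ≤ v := (u1 _).2.2.trans v1
  have hq' := hq.trans w2
  have cl : ∀ {x : S}, Loc p x → x ≤ w → ∀ a ∈ x.D, (∀ b ∈ w.F a, b ∈ x.D) ∧
      ∀ e, w.n a = .inr e → e ∈ x.D := fun hx hw a ha =>
    ⟨fun b hb => hx.low (w1.1.f2 a (hw.1 ha) b hb).1 ha,
      fun e he => hx.low (w1.1.ptr a (hw.1 ha) e he).1.le ha⟩
  set G := H ∪ (w.F (π k).1 ∪ w.F (π k).2) with hG
  have g1 : d ∈ G := Finset.mem_union_left _ k1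
  have g2 : ∀ a ∈ G, a ∈ (s (k + 1)).D ∪ H ∧ w.F a ⊆ G := fun a ha => by
    simp only [hG, Finset.mem_union] at ha
    rcases ha with ha | ha | ha
    · exact ⟨Or.inr ha, (k4 a ha).2.1.trans Finset.subset_union_left⟩
    · exact ⟨Or.inl ((cl q1.1 hq' _ q4).1 a ha), (w1.1.f2 _ (hq'.1 q4) a ha).2.trans
        (Finset.subset_union_left.trans Finset.subset_union_right)⟩
    · exact ⟨Or.inl ((cl q1.1 hq' _ q5).1 a ha), (w1.1.f2 _ (hq'.1 q5) a ha).2.trans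
        (Finset.subset_union_right.trans Finset.subset_union_right)⟩
  have hA : (s (k + 1)).D ∪ H ⊆ w.D := union_subset hq'.1 fun a ha => (k4 a ha).1
  obtain ⟨x, x1, x2, x3, x4, -⟩ := surg w1 hd subset_rfl (fun a ha => (cl w1.1 le_rfl a ha).1)
    (fun a ha => (cl w1.1 le_rfl a ha).2) g1 fun a ha => ⟨hA (g2 a ha).1, (g2 a ha).2⟩
  obtain ⟨y, y1, y2, y3, y4, y5⟩ := surg w1 hd hA
    (by
      rintro a (ha | ha) b hb
      exacts [Or.inl ((cl q1.1 hq' a ha).1 b hb), Or.inr ((k4 a ha).2.1 hb)])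
    (by
      rintro a (ha | ha) b hb
      exacts [Or.inl ((cl q1.1 hq' a ha).2 b hb), Or.inr ((k4 a ha).2.2 b hb)]) g1 g2
  have e1 : c d y = c d x := hc d x y (x3 ▸ g1) fun b hb => by
    rw [x3] at hb
    refine ⟨?_, (y4 b (g2 b hb).1).1.trans (x4 b (hA (g2 b hb).1)).1.symm⟩
    by_cases h : b = d
    · rw [h, x3, y3]
    · exact ((y4 b (g2 b hb).1).2 h).trans ((x4 b (hA (g2 b hb).1)).2 h).symm
  have vx : v ≤ x := ⟨x2 ▸ w2.1, fun a ha => ⟨((x4 a (w2.1 ha)).2 (w5 a ha).ne).trans (w2.2 a ha).1,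
    (x4 a (w2.1 ha)).1.trans (w2.2 a ha).2⟩⟩
  have sy : s (k + 1) ≤ y := ⟨y2 ▸ hq'.1, fun a ha =>
    ⟨((y4 a (Or.inl ha)).2 (w5 a (hq.1 ha)).ne).trans (hq'.2 a ha).1,
      (y4 a (Or.inl ha)).1.trans (hq'.2 a ha).2⟩⟩
  cases e2 : c d x
  · refine q6 y y1 sy ⟨d, y2 ▸ hd', ?_, ?_⟩ fun a ha ht => ?_
    · simp [y3, hG, w1.1.f1 _ (hq'.1 q4)]
    · simp [y3, hG, w1.1.f1 _ (hq'.1 q5)]
    by_cases h : a = d
    · rw [h, e1, e2]
    by_cases h' : a ∈ (s (k + 1)).D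
    · rw [c_le hc q1.1 sy h']
      exact q2 a h' ((sy.2 a h').1 ▸ ht)
    by_cases h'' : a ∈ H
    · exact (hk ((k4 a h'').2.1 ((y4 a (Or.inr h'')).2 h ▸ ht))).elim
    · rw [y5 a fun h => h.elim h' h'', Finset.mem_singleton] at ht
      exact (h' (ht ▸ q3)).elim
  · exact v3.2.2.2.2.2 x x1 vx ⟨d, x2 ▸ hd', by simp [x3, hG, k2], by simp [x3, hG, k3]⟩
      (mono_ins hc v3.1.1 vx (x2.trans w4) v3.2.1 fun _ => e2)

end Col

end Pool.Agent.H31.RK
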