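import Pool.Agent.H31.RK

set_option autoImplicit false

open Set Function Topology TopologicalSpace

namespace Pool.Agent.H31.RK

open Omega1

theorem exp : ∃ p : W → W × W, (∀ a, (p a).1 ≤ a ∧ (p a).2 ≤ a) ∧ ∀ π, ¬ {a | p a = π}.Countable := by
  obtain ⟨e⟩ : Nonempty (W ≃ W × (W × W)) := by
    rw [← Cardinal.eq]
    simp [mk_W]
  refine ⟨fun a => (min (e a).2.1 a, min (e a).2.2 a), fun a => ⟨min_le_right _ _, min_le_right _ _⟩,
    fun π h => ?_⟩
  have h1 : Injective fun b => e.symm (b, π) := fun b b' h => by simpa using h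
  refine not_countable_univ (((h.union (countable_Iio (max π.1 π.2))).preimage_of_injOn
    h1.injOn).mono fun b _ => ?_)
  refine (le_or_gt (max π.1 π.2) (e.symm (b, π))).imp (fun h => ?_) id
  simp [min_eq_left (max_le_iff.1 h).1, min_eq_left (max_le_iff.1 h).2]

theorem exdec : ∃ dec : W → ℕ → Finset W × ((ℕ × ℕ) ⊕ W), ∀ a (G : Finset W) m,
    (∀ b ∈ G, b ≤ a) → (∀ e, m = .inr e → e < a) → ∃ k, dec a k = (G, m) := by
  have : ∀ a : W, ∃ f : ℕ → Finset W × ((ℕ × ℕ) ⊕ W), {G : Finset W | ↑G ⊆ Iic a} ×ˢ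
      (range Sum.inl ∪ Sum.inr '' Iio a) = range f := fun a => by
    refine Set.Countable.exists_eq_range (Set.Countable.prod ?_ ((countable_range _).union
      ((countable_Iio a).image _))) ⟨(∅, .inl 0), by simp, Or.inl ⟨_, rfl⟩⟩
    refine ((countable_setOf_finite_subset (countable_Iic a)).preimage_of_injOn
      (f := fun G : Finset W => (G : Set W)) Finset.coe_injective.injOn).mono fun G hG => ?_
    exact ⟨G.finite_toSet, hG⟩
  choose f hf using this
  refine ⟨f, fun a G m h1 h2 => ?_⟩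
  rw [← mem_range, ← hf]
  refine ⟨h1, ?_⟩
  cases m with
  | inl m => exact Or.inl ⟨_, rfl⟩
  | inr e => exact Or.inr ⟨e, h2 e rfl, rfl⟩

theorem Loc.dir {p : W → W × W} (hp : ∀ π, ¬ {a | p a = π}.Countable) {s : S} (h : Loc p s)
    (e : s.D = univ) (J : Finset W) : ∃ a, J ⊆ s.F a := by
  classical
  have u : ∀ a, a ∈ s.D := fun a => e ▸ mem_univ a
  induction J using Finset.induction_on with
  | empty => exact ⟨⊥, Finset.empty_subset _⟩
  | insert a J _ ih =>
    obtain ⟨b, hb⟩ := ih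
    by_contra hn
    refine hp (a, b) (Set.countable_iff_exists_injOn.2 ⟨fun x => Encodable.encode (s.n x).getLeft?,
      fun x hx y hy e => ?_⟩)
    have key : ∀ x, p x = (a, b) → ∃ m, s.n x = .inl m := fun x hx => by
      cases e : s.n x with
      | inl m => exact ⟨m, rfl⟩
      | inr d =>
        have := (h.ptr x (u x) d e).2
        rw [hx] at this
        exact (hn ⟨d, Finset.insert_subset this.1 (hb.trans (h.f2 d (u d) b this.2).2)⟩).elim
    obtain ⟨m, hm⟩ := key x hx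
    obtain ⟨m', hm'⟩ := key y hy
    obtain rfl : m = m' := by simpa [hm, hm'] using e
    exact h.inj x (u x) y (u y) m (hx.trans hy.symm) hm hm'

/-- the boxes -/
def V (G : Finset W) (x : W → ℕ) : Set (W → ℝ) :=
  {w | ∀ b ∈ G, dist (w b) (x b) < 1 / ((G.card : ℝ) + 1)}

theorem V_open (G : Finset W) (x : W → ℕ) : IsOpen (V G x) := by
  simp only [V, setOf_forall]
  exact isOpen_biInter_finset fun b _ => isOpen_lt (by fun_prop) continuous_const

theorem V_mem (G : Finset W) (x : W → ℕ) : (fun b => (x b : ℝ)) ∈ V G x := fun b _ => by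
  rw [dist_self]; positivity

theorem V_congr {G : Finset W} {x y : W → ℕ} (h : ∀ b ∈ G, x b = y b) : V G x = V G y :=
  Set.ext fun w => forall₂_congr fun b hb => by rw [h b hb]

theorem V_lt {G : Finset W} {x : W → ℕ} {w : W → ℝ} (h : w ∈ V G x) {b : W} (hb : b ∈ G) :
    dist (w b) (x b) < 1 :=
  (h b hb).trans_le (div_le_one_of_le₀ (by simp) (by positivity))

theorem not_res : ∃ B : Set (Set (W → ℝ)), IsTopologicalBasis B ∧
    ∀ B0 B1 : Set (Set (W → ℝ)), B0 ⊆ B → B1 ⊆ B → Disjoint B0 B1 →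
      ¬ (IsTopologicalBasis B0 ∧ IsTopologicalBasis B1) := by
  classical
  obtain ⟨p, hp, hp'⟩ := exp
  obtain ⟨dec, hdec⟩ := exdec
  let st : (W → ℕ) → S := fun x => ⟨univ, fun a => (dec a (x a)).1, fun a => (dec a (x a)).2⟩
  let X : Set (W → ℕ) := {x | Loc p (st x)}
  let ι : (W → ℕ) → W → ℝ := fun x b => x b
  have hX : IsClosed X := by
    refine isClosed_of_closure_subset fun x hx => Loc.of_pairs isLowerSet_univ fun a _ b _ => ?_
    have o : ∀ a, IsOpen {y : W → ℕ | y a = x a} := fun a =>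
      (isOpen_discrete {x a}).preimage (f := fun y : W → ℕ => y a) (continuous_apply a)
    obtain ⟨y, ⟨h1, h2⟩, h3⟩ := mem_closure_iff.1 hx _ ((o a).inter (o b)) ⟨rfl, rfl⟩
    have h1 : y a = x a := h1
    have h2 : y b = x b := h2
    exact ⟨st y, h3, ⟨trivial, by simp [st, h1]⟩, trivial, by simp [st, h2]⟩
  have hX' : IsClosed (ι '' X) :=
    (IsClosedEmbedding.piMap fun _ : W => Nat.isClosedEmbedding_coe_real).isClosedMap _ hX
  refine ⟨{O | ∃ x ∈ X, ∃ a, O = V ((st x).F a) x} ∪ {O | IsOpen O ∧ Disjoint O (ι '' X)},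
    isTopologicalBasis_of_isOpen_of_nhds ?_ fun z O hz hO => ?_, fun B0 B1 h0 h1 hd ⟨b0, b1⟩ => ?_⟩
  · rintro _ (⟨x, -, a, rfl⟩ | h)
    exacts [V_open _ _, h.1]
  · by_cases h : z ∈ ι '' X
    swap
    · exact ⟨O ∩ (ι '' X)ᶜ, Or.inr ⟨hO.inter hX'.isOpen_compl,
        disjoint_left.2 fun _ h => h.2⟩, ⟨hz, h⟩, inter_subset_left⟩
    obtain ⟨x, hx, rfl⟩ := h
    obtain ⟨I, u, h1, h2⟩ := isOpen_pi_iff.1 hO _ hz
    have : ∀ᶠ n : ℕ in Filter.atTop, ∀ b ∈ I, Metric.ball (ι x b) (1 / ((n : ℝ) + 1)) ⊆ u b := by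
      refine (Filter.eventually_all_finset I).2 fun b hb => ?_
      obtain ⟨ε, hε, h3⟩ := Metric.isOpen_iff.1 (h1 b hb).1 _ (h1 b hb).2
      exact (tendsto_one_div_add_atTop_nhds_zero_nat.eventually (ge_mem_nhds hε)).mono
        fun n hn => (Metric.ball_subset_ball hn).trans h3
    obtain ⟨N, hN⟩ := Filter.eventually_atTop.1 this
    obtain ⟨J, j1, j2⟩ := Infinite.exists_superset_card_eq I (max I.card N) (le_max_left _ _)
    obtain ⟨a, ha⟩ := Loc.dir hp' hx rfl J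
    refine ⟨_, Or.inl ⟨x, hx, a, rfl⟩, V_mem _ _, fun w hw => h2 fun b hb => ?_⟩
    exact hN _ ((le_max_right _ _).trans (j2.ge.trans (Finset.card_le_card ha))) b hb
      (hw b (ha (j1 hb)))
  have key : ∀ B' ⊆ {O | ∃ x ∈ X, ∃ a, O = V ((st x).F a) x} ∪ {O | IsOpen O ∧ Disjoint O (ι '' X)},
      IsTopologicalBasis B' → ∀ x ∈ X, ∀ t, ∃ a, t ∈ (st x).F a ∧ V ((st x).F a) x ∈ B' := by
    intro B' h hb x hx t
    obtain ⟨O, o1, o2, o3⟩ := hb.exists_subset_of_mem_open (V_mem ((st x).F t) x) (V_open _ _)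
    rcases h o1 with ⟨y, hy, a, rfl⟩ | h
    swap
    · exact (disjoint_left.1 h.2 o2 ⟨x, hx, rfl⟩).elim
    have e : ∀ b ∈ (st y).F a, y b = x b := fun b hb => by
      have := V_lt o2 hb
      rw [Nat.dist_cast_real] at this
      by_contra h
      exact (Nat.pairwise_one_le_dist (Ne.symm h)).not_gt this
    have e' : (st y).F a = (st x).F a := by simp only [st, e a (hy.f1 a trivial)]
    rw [V_congr e, e'] at o1 o3
    refine ⟨a, by_contra fun ht => ?_, o1⟩
    have := V_lt (o3 (a := update (ι x) t (x t + 1)) fun b hb => by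
      rw [update_of_ne (ne_of_mem_of_not_mem hb ht)]
      exact V_mem _ _ b hb) (hx.f1 t trivial)
    simp at this
  let en : S → W → ℕ := fun s b => invFun (dec b) (s.F b, s.n b)
  refine comb (p := p) (c := fun a s => decide (V (s.F a) (en s) ∈ B0)) hp
    (fun a s u ha h => ?_) fun s t i hs e hm => ?_
  · rw [(h a ha).1, V_congr (x := en u) (y := en s) fun b hb => by simp only [en, h b hb]]
  have u : ∀ a, a ∈ s.D := fun a => e ▸ mem_univ a
  have e1 : st (en s) = s := by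
    have : ∀ b, dec b (en s b) = (s.F b, s.n b) := fun b => invFun_eq (hdec b _ _
      (fun c hc => (hs.f2 b (u b) c hc).1) fun c hc => (hs.ptr b (u b) c hc).1)
    simp only [st, this, ← e]
  have hx : en s ∈ X := show Loc p (st (en s)) from e1.symm ▸ hs
  cases i
  · obtain ⟨a, k1, k2⟩ := key B0 h0 b0 _ hx t
    rw [e1] at k1 k2
    exact of_decide_eq_false (hm a (u a) k1) k2
  · obtain ⟨a, k1, k2⟩ := key B1 h1 b1 _ hx t
    rw [e1] at k1 k2
    exact disjoint_left.1 hd (of_decide_eq_true (hm a (u a) k1)) k2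

theorem real_res (B : Set (Set ℝ)) (hB : IsTopologicalBasis B) : ∃ B0 B1 : Set (Set ℝ),
    B0 ∪ B1 = B ∧ Disjoint B0 B1 ∧ IsTopologicalBasis B0 ∧ IsTopologicalBasis B1 := by
  have pt : ∀ G : Set (Set ℝ), G.Finite → ∀ x O, IsOpen O → x ∈ O →
      ∃ U ∈ B, x ∈ U ∧ U ⊆ O ∧ U ∉ G := by
    intro G hG x
    induction G, hG using Set.Finite.induction_on with
    | empty => exact fun O h1 h2 => by simpa using hB.exists_subset_of_mem_open h2 h1
    | @insert A G _ _ ih =>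
      intro O h1 h2
      by_cases h : ∃ y ∈ A, y ≠ x
      · obtain ⟨y, y1, y2⟩ := h
        obtain ⟨U, u1, u2, u3, u4⟩ := ih (O ∩ {y}ᶜ) (h1.inter isOpen_compl_singleton) ⟨h2, y2.symm⟩
        refine ⟨U, u1, u2, u3.trans inter_subset_left, ?_⟩
        rintro (rfl | h)
        exacts [(u3 y1).2 rfl, u4 h]
      · obtain ⟨U, u1, u2, u3, u4⟩ := ih O h1 h2
        refine ⟨U, u1, u2, u3, ?_⟩
        rintro (rfl | h')
        · push Not at h
          exact not_isOpen_singleton x (eq_singleton_iff_unique_mem.2 ⟨u2, h⟩ ▸ hB.isOpen u1)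
        · exact u4 h'
  have st : ∀ (n : ℕ) (G : {G : Set (Set ℝ) // G.Finite}), ∃ C : {G : Set (Set ℝ) // G.Finite},
      C.1 ⊆ B ∧ Disjoint C.1 G.1 ∧ ∀ x ∈ Metric.closedBall (0 : ℝ) n, ∃ U ∈ C.1, x ∈ U ∧
        U ⊆ Metric.ball x (2 * (1 / ((n : ℝ) + 1))) := by
    intro n G
    choose U u1 u2 u3 u4 using fun x => pt G.1 G.2 x (Metric.ball x (1 / ((n : ℝ) + 1)))
      Metric.isOpen_ball (Metric.mem_ball_self (by positivity))
    obtain ⟨t, ht⟩ := (isCompact_closedBall (0 : ℝ) n).elim_finite_subcover U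
      (fun x => hB.isOpen (u1 x)) fun x _ => mem_iUnion.2 ⟨x, u2 x⟩
    refine ⟨⟨U '' t, t.finite_toSet.image _⟩, ?_, disjoint_left.2 ?_, fun x hx => ?_⟩
    · rintro _ ⟨x, -, rfl⟩; exact u1 x
    · rintro _ ⟨x, -, rfl⟩; exact u4 x
    · obtain ⟨y, hy, h⟩ := mem_iUnion₂.1 (ht hx)
      refine ⟨_, ⟨y, hy, rfl⟩, h, fun z hz => ?_⟩
      have h1 := Metric.mem_ball.1 (u3 y h)
      have h2 := Metric.mem_ball.1 (u3 y hz)
      have := dist_triangle_right z x y
      rw [Metric.mem_ball]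
      linarith
  choose f f1 f2 f3 using st
  obtain ⟨g, hg⟩ : ∃ g : ℕ → {G : Set (Set ℝ) // G.Finite}, ∀ n,
      (g (n + 1)).1 = (g n).1 ∪ (f n (g n)).1 :=
    ⟨fun n => Nat.rec (motive := fun _ => {G : Set (Set ℝ) // G.Finite}) ⟨∅, finite_empty⟩
      (fun n G => ⟨G.1 ∪ (f n G).1, G.2.union (f n G).2⟩) n, fun _ => rfl⟩
  have mono : Monotone fun n => (g n).1 := monotone_nat_of_le_succ fun n => hg n ▸ subset_union_left
  have dis : ∀ m n, m < n → Disjoint (f n (g n)).1 (f m (g m)).1 := fun m n h =>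
    (f2 n (g n)).mono_right ((hg m ▸ subset_union_right : _ ⊆ (g (m + 1)).1).trans (mono h))
  have bas : ∀ B' ⊆ B, (∀ n, ∃ m ≥ n, (f m (g m)).1 ⊆ B') → IsTopologicalBasis B' := by
    intro B' h1 h2
    refine isTopologicalBasis_of_isOpen_of_nhds (fun U hU => hB.isOpen (h1 hU)) fun x O hx hO => ?_
    obtain ⟨ε, hε, h3⟩ := Metric.isOpen_iff.1 hO x hx
    obtain ⟨N, hN⟩ := Filter.eventually_atTop.1 ((tendsto_one_div_add_atTop_nhds_zero_nat.eventually
      (ge_mem_nhds (half_pos hε))).and (tendsto_natCast_atTop_atTop.eventually_ge_atTop (dist x 0)))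
    obtain ⟨m, hm, h4⟩ := h2 N
    obtain ⟨U, u1, u2, u3⟩ := f3 m (g m) x (hN m hm).2
    exact ⟨U, h4 u1, u2, u3.trans ((Metric.ball_subset_ball (by linarith [(hN m hm).1])).trans h3)⟩
  have h0 : ⋃ n, (f (2 * n) (g (2 * n))).1 ⊆ B := iUnion_subset fun n => f1 _ _
  refine ⟨_, _, union_sdiff_cancel h0, disjoint_sdiff_right, bas _ h0 fun n =>
    ⟨2 * n, by omega, subset_iUnion (fun n => (f (2 * n) (g (2 * n))).1) n⟩,
    bas _ sdiff_subset fun n => ⟨2 * n + 1, by omega, subset_sdiff.2 ⟨f1 _ _, ?_⟩⟩⟩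
  refine disjoint_iUnion_right.2 fun m => ?_
  rcases lt_or_gt_of_ne (show 2 * m ≠ 2 * n + 1 by omega) with h | h
  exacts [dis _ _ h, (dis _ _ h).symm]

theorem sep : SeparableSpace (W → ℝ) := by
  obtain ⟨j⟩ : Nonempty (W ↪ ℝ) := by
    rw [← Cardinal.le_def, mk_W, Cardinal.mk_real]
    exact Cardinal.aleph_one_le_continuum
  refine DenseRange.separableSpace (f := fun (f : C(ℝ, ℝ)) (a : W) => f (j a)) ?_ (by fun_prop)
  refine dense_iff_inter_open.2 fun O hO ⟨x, hx⟩ => ?_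
  obtain ⟨I, u, h1, h2⟩ := isOpen_pi_iff.1 hO _ hx
  refine ⟨_, h2 fun a ha => ?_, ⟨⟨fun r => (Lagrange.interpolate I j x).eval r, by fun_prop⟩, rfl⟩⟩
  have := Lagrange.eval_interpolate_at_node (s := I) (v := j) x j.injective.injOn ha
  simpa only [ContinuousMap.coe_mk, this] using (h1 a ha).2

end Pool.Agent.H31.RK
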