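import Mathlib

set_option autoImplicit false

open Set

namespace Pool.Agent.H31.RegPoly

abbrev V : Type := EuclideanSpace ℝ (Fin 4)

noncomputable def z1 : V →ₗ[ℝ] ℂ where
  toFun x := ⟨x 0, x 1⟩
  map_add' _ _ := rfl
  map_smul' c x := by apply Complex.ext <;> simp

noncomputable def mk (z w : ℂ) : V := !₂[z.re, z.im, w.re, w.im]

theorem z1_mk (z w : ℂ) : z1 (mk z w) = z := rfl

theorem mk_sub (z w z' w' : ℂ) : mk z w - mk z' w' = mk (z - z') (w - w') := by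
  ext i
  fin_cases i <;> simp [mk]

theorem mk_eta (x : V) : mk ⟨x 0, x 1⟩ ⟨x 2, x 3⟩ = x := by
  ext i
  fin_cases i <;> simp [mk]

theorem norm_mk (z w : ℂ) : ‖mk z w‖ = √(‖z‖ ^ 2 + ‖w‖ ^ 2) := by
  rw [EuclideanSpace.norm_eq, Fin.sum_univ_four, Complex.sq_norm, Complex.sq_norm,
    Complex.normSq_apply, Complex.normSq_apply]
  congr 1
  simp [mk]
  ring

theorem z1_le (x : V) : ‖z1 x‖ ≤ ‖x‖ := by
  rw [← mk_eta x, z1_mk, norm_mk]
  exact Real.le_sqrt_of_sq_le (by nlinarith [sq_nonneg ‖(⟨x 2, x 3⟩ : ℂ)‖])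

noncomputable def d (x y : V) : ℝ := dist x y + dist (z1 x) (z1 y)

theorem d_mk (z w z' w' : ℂ) :
    d (mk z w) (mk z' w') = √(‖z - z'‖ ^ 2 + ‖w - w'‖ ^ 2) + ‖z - z'‖ := by
  rw [d, dist_eq_norm, dist_eq_norm, mk_sub, norm_mk, z1_mk, z1_mk]

theorem d_le (x y : V) : d x y ≤ 2 * dist x y := by
  have := z1_le (x - y)
  rw [map_sub, ← dist_eq_norm, ← dist_eq_norm] at this
  rw [d]
  linarith

theorem le_d (x y : V) : dist x y ≤ d x y := le_add_of_nonneg_right dist_nonneg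

theorem d_zero (x y : V) : d x y = 0 ↔ x = y :=
  ⟨fun h => dist_le_zero.1 (h ▸ le_d x y), fun h => by simp [d, h]⟩

theorem d_comm (x y : V) : d x y = d y x := by rw [d, d, dist_comm x, dist_comm (z1 x)]

theorem d_tri (x y z : V) : d x z ≤ d x y + d y z := by
  have := dist_triangle x y z
  have := dist_triangle (z1 x) (z1 y) (z1 z)
  simp only [d]
  linarith

theorem d_top (U : Set V) : IsOpen U ↔ ∀ x ∈ U, ∃ ε > 0, ∀ y, d x y < ε → y ∈ U := by
  rw [Metric.isOpen_iff]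
  refine forall₂_congr fun x _ => ⟨fun ⟨ε, h1, h2⟩ => ⟨ε, h1, fun y hy => h2 ?_⟩,
    fun ⟨ε, h1, h2⟩ => ⟨ε / 2, half_pos h1, fun y hy => h2 y ?_⟩⟩
  · rw [Metric.mem_ball, dist_comm]
    exact (le_d x y).trans_lt hy
  · rw [Metric.mem_ball, dist_comm] at hy
    linarith [d_le x y]

theorem d_btw (x y z : V) (h1 : x ≠ y) (h2 : y ≠ z) :
    d x y + d y z = d x z ↔ y ∈ openSegment ℝ x z := by
  have hw : y ∈ openSegment ℝ x z ↔ Wbtw ℝ x y z := by
    rw [← mem_segment_iff_wbtw]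
    exact ⟨fun h => openSegment_subset_segment _ _ _ h,
      fun h => mem_openSegment_of_ne_left_right h1 h2.symm h⟩
  rw [hw]
  constructor
  · intro h
    have := dist_triangle x y z
    have := dist_triangle (z1 x) (z1 y) (z1 z)
    simp only [d] at h
    exact dist_add_dist_eq_iff.1 (by linarith)
  · intro h
    have a1 := h.dist_add_dist
    have a2 := (h.map z1.toAffineMap).dist_add_dist
    simp only [LinearMap.coe_toAffineMap] at a2
    simp only [d]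
    linarith

theorem poly (n : ℕ) (hn : 3 ≤ n) (A B : V) (hAB : A ≠ B) :
    ∃ P : ZMod n → V, Function.Injective P ∧
      (∀ i j h, d (P i) (P j) = d (P (i + h)) (P (j + h))) ∧ P 0 = A ∧ P 1 = B := by
  haveI : NeZero n := ⟨by omega⟩
  haveI : Fact (1 < n) := ⟨by omega⟩
  let e : ZMod n → ℂ := ZMod.stdAddChar
  have he : Function.Injective e := ZMod.injective_stdAddChar
  have e0 : e 0 = 1 := AddChar.map_zero_eq_one _
  have ea : ∀ i j, e (i + j) = e i * e j := fun i j => AddChar.map_add_eq_mul _ _ _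
  have en : ∀ i, ‖e i‖ = 1 := fun i => AddChar.norm_apply _ _
  have e1 : e 1 - 1 ≠ 0 := sub_ne_zero.2 fun h => one_ne_zero (he (h.trans e0.symm))
  obtain ⟨a, a', rfl⟩ : ∃ a a', A = mk a a' := ⟨_, _, (mk_eta A).symm⟩
  obtain ⟨b, b', rfl⟩ : ∃ b b', B = mk b b' := ⟨_, _, (mk_eta B).symm⟩
  obtain ⟨u, hu⟩ : ∃ u, b = a + (e 1 - 1) * u := ⟨(b - a) / (e 1 - 1), by field_simp; ring⟩
  obtain ⟨v, hv⟩ : ∃ v, b' = a' + (e 1 - 1) * v := ⟨(b' - a') / (e 1 - 1), by field_simp; ring⟩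
  have hd : ∀ i j, d (mk (a + (e i - 1) * u) (a' + (e i - 1) * v))
      (mk (a + (e j - 1) * u) (a' + (e j - 1) * v)) =
      ‖e i - e j‖ * (√(‖u‖ ^ 2 + ‖v‖ ^ 2) + ‖u‖) := by
    intro i j
    rw [d_mk, show a + (e i - 1) * u - (a + (e j - 1) * u) = (e i - e j) * u by ring,
      show a' + (e i - 1) * v - (a' + (e j - 1) * v) = (e i - e j) * v by ring, norm_mul, norm_mul,
      mul_pow, mul_pow, ← mul_add, Real.sqrt_mul (sq_nonneg _), Real.sqrt_sq (norm_nonneg _)]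
    ring
  have h01 := hd 0 1
  rw [e0, sub_self, zero_mul, zero_mul, add_zero, add_zero, ← hu, ← hv] at h01
  have hN : √(‖u‖ ^ 2 + ‖v‖ ^ 2) + ‖u‖ ≠ 0 := fun h => hAB ((d_zero _ _).1 (by rw [h01, h, mul_zero]))
  refine ⟨fun i => mk (a + (e i - 1) * u) (a' + (e i - 1) * v), fun i j h => ?_, fun i j h => ?_,
    by simp [e0], by rw [hu, hv]⟩
  · have := (d_zero _ _).2 h
    rw [hd] at this
    exact he (sub_eq_zero.1 (norm_eq_zero.1 ((mul_eq_zero.1 this).resolve_right hN)))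
  · rw [hd, hd, ea, ea, ← sub_mul, norm_mul, en, mul_one]

theorem config : ∃ y z m x x' : V, d y m = 2 ∧ d z m = 2 ∧ d y z = 4 ∧ d x y = d x' y ∧
    d x z = d x' z ∧ d x m ≠ d x' m := by
  have h5 : ‖((√5 / 2 : ℝ) : ℂ)‖ ^ 2 = 5 / 4 := by
    rw [Complex.norm_real, Real.norm_eq_abs, sq_abs, div_pow, Real.sq_sqrt (by norm_num)]
    norm_num
  have ha : ‖(⟨-1, 3 / 4⟩ : ℂ)‖ = 5 / 4 := by
    rw [Complex.norm_eq_sqrt_sq_add_sq]
    exact Real.sqrt_eq_iff_mul_self_eq_of_pos (by norm_num) |>.2 (by norm_num)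
  have hb : ‖(⟨1, 3 / 4⟩ : ℂ)‖ = 5 / 4 := by
    rw [Complex.norm_eq_sqrt_sq_add_sq]
    exact Real.sqrt_eq_iff_mul_self_eq_of_pos (by norm_num) |>.2 (by norm_num)
  have hc : ‖(⟨0, 3 / 4⟩ : ℂ)‖ = 3 / 4 := by
    rw [Complex.norm_eq_sqrt_sq_add_sq]
    exact Real.sqrt_eq_iff_mul_self_eq_of_pos (by norm_num) |>.2 (by norm_num)
  have s1 : √(1 + 5 / 4) = 3 / 2 :=
    Real.sqrt_eq_iff_mul_self_eq_of_pos (by norm_num) |>.2 (by norm_num)
  refine ⟨mk 1 0, mk (-1) 0, mk 0 0, mk ⟨0, 3 / 4⟩ 0, mk 0 (√5 / 2 : ℝ), ?_, ?_, ?_, ?_, ?_, ?_⟩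
  · rw [d_mk]; norm_num
  · rw [d_mk]; norm_num
  · rw [d_mk]; norm_num
  · rw [d_mk, d_mk, show (⟨0, 3 / 4⟩ : ℂ) - 1 = ⟨-1, 3 / 4⟩ by apply Complex.ext <;> simp, ha,
      sub_zero, sub_zero, h5]
    simp only [zero_sub, norm_neg, norm_one, one_pow, s1]
    norm_num
  · rw [d_mk, d_mk, show (⟨0, 3 / 4⟩ : ℂ) - -1 = ⟨1, 3 / 4⟩ by apply Complex.ext <;> simp, hb,
      sub_zero, sub_zero, h5]
    simp only [zero_sub, norm_neg, norm_one, one_pow, s1]
    norm_num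
  · rw [d_mk, d_mk, sub_zero, sub_zero, sub_zero, hc, h5]
    simp only [norm_zero]
    intro h
    norm_num at h
    have := Real.sq_sqrt (show (0 : ℝ) ≤ 5 by norm_num)
    nlinarith

theorem not_eucl (f : V → V) : ¬ ∀ x y, d x y = dist (f x) (f y) := by
  intro h
  obtain ⟨y, z, m, x, x', h1, h2, h3, h4, h5, h6⟩ := config
  simp only [h] at h1 h2 h3 h4 h5 h6
  generalize f y = Y at *
  generalize f z = Z at *
  generalize f m = M at *
  generalize f x = X at *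
  generalize f x' = X' at *
  have hm : M = midpoint ℝ Y Z := eq_midpoint_of_dist_eq_half (by rw [h1, h3]; norm_num)
    (by rw [dist_comm, h2, h3]; norm_num)
  have a1 := EuclideanGeometry.dist_sq_add_dist_sq_eq_two_mul_dist_midpoint_sq_add_half_dist_sq
    X Y Z
  have a2 := EuclideanGeometry.dist_sq_add_dist_sq_eq_two_mul_dist_midpoint_sq_add_half_dist_sq
    X' Y Z
  rw [← hm] at a1 a2
  rw [h4, h5] at a1
  exact h6 ((pow_left_inj₀ dist_nonneg dist_nonneg two_ne_zero).1 (by linarith))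

noncomputable def L (x y : V) : ℝ := √(1 + ‖x‖ ^ 2) * √(1 + ‖y‖ ^ 2) - inner ℝ x y

theorem one_le_L (x y : V) : 1 ≤ L x y := by
  have h1 := real_inner_le_norm x y
  have h2 : 1 + ‖x‖ * ‖y‖ ≤ √(1 + ‖x‖ ^ 2) * √(1 + ‖y‖ ^ 2) := by
    rw [← Real.sqrt_mul (by positivity)]
    exact Real.le_sqrt_of_sq_le (by nlinarith [sq_nonneg (‖x‖ - ‖y‖)])
  rw [L]
  linarith

theorem median (Y Z M : V) (C : ℝ) (h1 : L Y M = C) (h2 : L Z M = C) (h3 : L Y Z = 2 * C ^ 2 - 1)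
    (X : V) : L X Y + L X Z = 2 * C * L X M := by
  have ty := Real.sq_sqrt (show 0 ≤ 1 + ‖Y‖ ^ 2 by positivity)
  have tz := Real.sq_sqrt (show 0 ≤ 1 + ‖Z‖ ^ 2 by positivity)
  have tm := Real.sq_sqrt (show 0 ≤ 1 + ‖M‖ ^ 2 by positivity)
  simp only [L] at *
  generalize √(1 + ‖Y‖ ^ 2) = a at *
  generalize √(1 + ‖Z‖ ^ 2) = b at *
  generalize √(1 + ‖M‖ ^ 2) = c at *
  obtain ⟨v, hv⟩ : ∃ v, v = Y + Z - (2 * C) • M := ⟨_, rfl⟩
  have e : ∀ W : V, inner ℝ W v = inner ℝ W Y + inner ℝ W Z - 2 * C * inner ℝ W M := fun W => by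
    rw [hv, inner_sub_right, inner_add_right, inner_smul_right]
  have e1 := e M
  have e2 := e Y
  have e3 := e Z
  have e4 := e v
  rw [real_inner_comm Y v, real_inner_comm Z v, real_inner_comm M v, e1, e2, e3] at e4
  rw [real_inner_comm Y M, real_inner_comm Z M] at e1 e4
  rw [real_inner_comm Y Z] at e4
  simp only [real_inner_self_eq_norm_sq] at e1 e4
  have f1 : inner ℝ M v = (a + b - 2 * C * c) * c := by
    rw [e1]
    linear_combination (-1 : ℝ) * h1 - h2 + 2 * C * tm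
  have f2 : ‖v‖ ^ 2 = (a + b - 2 * C * c) ^ 2 := by
    rw [e4]
    linear_combination (-1 : ℝ) * ty - tz - 4 * C ^ 2 * tm - 2 * h3 + 4 * C * h1 + 4 * C * h2
  have f3 := real_inner_mul_inner_self_le M v
  rw [f1, real_inner_self_eq_norm_sq, real_inner_self_eq_norm_sq, f2] at f3
  have f4 : (a + b - 2 * C * c) ^ 2 ≤ 0 := by nlinarith
  have f5 : a + b - 2 * C * c = 0 := pow_eq_zero_iff two_ne_zero |>.1 (le_antisymm f4 (sq_nonneg _))
  have f6 : v = 0 := by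
    rw [f5] at f2
    simpa using f2
  have f7 := e X
  rw [f6, inner_zero_right] at f7
  linear_combination √(1 + ‖X‖ ^ 2) * f5 + f7

theorem not_hyp (k : ℝ) (hk : 0 < k) (f : V → V) :
    ¬ ∀ x y, d x y = Real.arcosh (L (f x) (f y)) / √k := by
  intro h
  have hs : 0 < √k := Real.sqrt_pos.2 hk
  have h' : ∀ x y, L (f x) (f y) = Real.cosh (√k * d x y) := fun x y => by
    rw [h, mul_div_cancel₀ _ hs.ne', Real.cosh_arcosh (one_le_L _ _)]
  obtain ⟨y, z, m, x, x', h1, h2, h3, h4, h5, h6⟩ := config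
  have hm := median (f y) (f z) (f m) (Real.cosh (√k * 2)) (by rw [h', h1]) (by rw [h', h2])
    (by rw [h', h3, show √k * 4 = 2 * (√k * 2) by ring, Real.cosh_two_mul, Real.cosh_sq]; ring)
  have a1 := hm (f x)
  have a2 := hm (f x')
  rw [h' x y, h' x z, h4, h5, ← h', ← h', a2] at a1
  have a3 := mul_left_cancel₀ (by positivity) a1
  exact h6 (by rw [h, h, a3])

end Pool.Agent.H31.RegPoly
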