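import Mathlib

set_option autoImplicit false

open Set Filter Topology Complex

namespace Pool.Agent.H31.Rigid

theorem const {α : Type} [TopologicalSpace α] [PreconnectedSpace α] {m : α → ℂ}
    (hm : Continuous m) (h : ∀ a b, exp (m a) = exp (m b)) (a b : α) : m a = m b :=
  isCoveringMap_exp.const_of_comp hm (fun a b => Subtype.ext (h a b)) a b

theorem lift {G : ℝ × ℝ → ℂ} (hG : Continuous G) (h0 : ∀ z, G z ≠ 0) :
    ∃ L : ℝ × ℝ → ℂ, Continuous L ∧ ∀ z, exp (L z) = G z := by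
  obtain ⟨L, ⟨-, h⟩, -⟩ := isCoveringMap_exp.existsUnique_continuousMap_lifts
    (⟨fun z => ⟨G z, h0 z⟩, hG.subtype_mk _⟩ : C(ℝ × ℝ, {z : ℂ // z ≠ 0})) 0 (log (G 0))
    (Subtype.ext (exp_log (h0 0)))
  exact ⟨L, L.continuous, fun z => congrArg Subtype.val (congrFun h z)⟩

def W (γ : ℝ → ℂ) (c : ℂ) : Prop :=
  ∃ l : ℝ → ℂ, Continuous l ∧ (∀ t, exp (l t) = γ t) ∧ l 1 - l 0 = c

theorem W.unique {γ : ℝ → ℂ} {c c' : ℂ} (h : W γ c) (h' : W γ c') : c = c' := by
  obtain ⟨l, a1, a2, rfl⟩ := h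
  obtain ⟨l', b1, b2, rfl⟩ := h'
  have : ∀ t, exp (l t - l' t) = 1 := fun t => by
    rw [exp_sub, a2, ← b2, div_self (exp_ne_zero _)]
  have := const (m := fun t => l t - l' t) (by fun_prop)
    (fun a b => (this a).trans (this b).symm) 1 0
  linear_combination this

theorem W.neg {γ : ℝ → ℂ} {c : ℂ} (h : W γ c) : W (fun t => - γ t) c := by
  obtain ⟨l, a1, a2, rfl⟩ := h
  exact ⟨fun t => l t + Real.pi * I, by fun_prop, fun t => by
    rw [exp_add, a2, exp_pi_mul_I, mul_neg_one], by ring⟩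

theorem homot {G : ℝ × ℝ → ℂ} (hG : Continuous G) (h0 : ∀ z, G z ≠ 0)
    (hp : ∀ s, G (s, 1) = G (s, 0)) : ∃ c, ∀ s, W (fun t => G (s, t)) c := by
  obtain ⟨L, h1, h2⟩ := lift hG h0
  have h3 : ∀ s, exp (L (s, 1) - L (s, 0)) = 1 := fun s => by
    rw [exp_sub, h2, h2, hp, div_self (h0 _)]
  exact ⟨L (0, 1) - L (0, 0), fun s => ⟨fun t => L (s, t), by fun_prop, fun t => h2 _,
    const (m := fun s => L (s, 1) - L (s, 0)) (by fun_prop)
      (fun a b => (h3 a).trans (h3 b).symm) s 0⟩⟩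

noncomputable def k (s : ℝ) : ℝ := max 0 (min 1 s)

theorem k_cont : Continuous k := by unfold k; fun_prop
theorem k0 : k 0 = 0 := by simp [k]
theorem k1 : k 1 = 1 := by simp [k]
theorem k_nonneg (s : ℝ) : 0 ≤ k s := le_max_left _ _
theorem k_le (s : ℝ) : k s ≤ 1 := max_le zero_le_one (min_le_left _ _)

section
variable {F : ℝ × ℝ → ℂ} (hF : Continuous F) (hp : ∀ ρ t, F (ρ, t + 1) = F (ρ, t))
  (h1 : ∀ ρ σ t u, 0 ≤ ρ → 0 ≤ σ → F (ρ, t) = F (σ, u) → ρ = σ)
include hF hp h1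

theorem move {ρ σ τ ρ' σ' τ' : ℝ} (a1 : 0 ≤ ρ) (a2 : 0 ≤ σ) (a3 : 0 ≤ ρ') (a4 : 0 ≤ σ')
    (h : (σ < ρ ∧ σ' < ρ') ∨ (ρ < σ ∧ ρ' < σ')) :
    ∃ c, W (fun t => F (ρ, t) - F (σ, τ)) c ∧ W (fun t => F (ρ', t) - F (σ', τ')) c := by
  have := k_cont
  obtain ⟨c, hc⟩ := homot (G := fun z => F (ρ + k z.1 * (ρ' - ρ), z.2) -
      F (σ + k z.1 * (σ' - σ), τ + k z.1 * (τ' - τ))) (by fun_prop) (fun z h0 => by
      have b1 := k_nonneg z.1
      have b2 := k_le z.1
      have b3 := h1 _ _ _ _ (by nlinarith) (by nlinarith) (sub_eq_zero.1 h0)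
      generalize k z.1 = s at *
      rcases h with h | h <;> rcases le_total s (1 / 2) with h' | h' <;> nlinarith [h.1, h.2])
    (fun s => by simp only; rw [← hp _ 0, zero_add])
  have c0 := hc 0
  have c1 := hc 1
  simp only [k0, k1, zero_mul, one_mul, add_zero, add_sub_cancel] at c0 c1
  exact ⟨c, c0, c1⟩

theorem odd (h2 : ∀ ρ t, 0 ≤ ρ → F (ρ, t) ≠ F (ρ, t + 1 / 2)) (c : ℂ)
    (a : W (fun t => F (2, t) - F (0, 1 / 2)) c) (b : W (fun t => F (0, t) - F (2, 1)) c) :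
    False := by
  have := k_cont
  obtain ⟨L, l1, l2⟩ := lift (G := fun z => F (2, z.1) - F (0, z.2)) (by fun_prop)
    (fun z h0 => by
      have := h1 _ _ _ _ (by norm_num) le_rfl (sub_eq_zero.1 h0)
      norm_num at this)
  have e1 : L (1, 1 / 2) - L (0, 1 / 2) = c :=
    W.unique ⟨fun t => L (t, 1 / 2), by fun_prop, fun t => l2 _, rfl⟩ a
  have e2 : L (1, 1) - L (1, 0) = c :=
    W.unique ⟨fun t => L (1, t), by fun_prop, fun t => by rw [l2, neg_sub], rfl⟩ b.neg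
  have e3 : ∀ t, exp (L (1, t + 1) - L (1, t)) = 1 := fun t => by
    rw [exp_sub, l2, l2]
    simp only [hp]
    rw [← l2 (1, t), div_self (exp_ne_zero _)]
  have e4 := const (m := fun t => L (1, t + 1) - L (1, t)) (by fun_prop)
    (fun a b => (e3 a).trans (e3 b).symm) (1 / 2) 0
  simp only [zero_add] at e4
  have e5 : exp c = 1 := by
    rw [← e2, ← e3 0, zero_add]
  obtain ⟨c', hc⟩ := homot (G := fun z => F (1 + k z.1, z.2) - F (1 - k z.1, z.2 + 1 / 2))
    (by fun_prop) (fun z h0 => by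
      have b1 := k_nonneg z.1
      have b2 := k_le z.1
      have b3 := h1 _ _ _ _ (by linarith) (by linarith) (sub_eq_zero.1 h0)
      have b4 : k z.1 = 0 := by linarith
      simp only [b4, add_zero, sub_zero] at h0
      exact h2 1 _ zero_le_one (sub_eq_zero.1 h0))
    (fun s => by
      simp only
      rw [← hp _ 0, ← hp _ (0 + 1 / 2)]
      norm_num)
  have c0 := hc 0
  have c1 := hc 1
  simp only [k0, k1, add_zero, sub_zero, sub_self, one_add_one_eq_two] at c0 c1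
  have e6 : L (1, 1 + 1 / 2) - L (0, 0 + 1 / 2) = c' :=
    W.unique ⟨fun t => L (t, t + 1 / 2), by fun_prop, fun t => l2 _, rfl⟩ c1
  obtain ⟨l, m1, m2, m3⟩ := c0
  have e7 : ∀ t, exp (l (t + 1 / 2) - l t) = -1 := fun t => by
    rw [exp_sub, div_eq_iff (exp_ne_zero _), m2, m2]
    simp only
    rw [add_assoc, add_halves, hp]
    ring
  have e8 := const (m := fun t => l (t + 1 / 2) - l t) (by fun_prop)
    (fun a b => (e7 a).trans (e7 b).symm) (1 / 2) 0
  simp only [add_halves, zero_add] at e8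
  rw [add_comm (1 / 2 : ℝ) 1] at e4
  rw [zero_add] at e6
  have e9 : l (1 / 2) - l 0 = c := by
    linear_combination (1 / 2 : ℂ) * (m3 - e6 - e8 + e1 + e2 + e4)
  have := e7 0
  rw [zero_add, e9, e5] at this
  norm_num at this

theorem sep (h2 : ∀ ρ t, 0 ≤ ρ → F (ρ, t) ≠ F (ρ, t + 1 / 2)) {σ τ : ℝ} (hσ : 0 ≤ σ) :
    ∀ᶠ q in 𝓝 (F (σ, τ)), ∀ σ' τ', σ + 1 < σ' → F (σ', τ') ≠ q := by
  have := k_cont
  have hK : IsClosed (range fun t => F (σ + 1, t)) := by
    have : Function.Periodic (fun t => F (σ + 1, t)) 1 := fun t => hp _ t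
    exact (this.compact_of_continuous one_ne_zero (by fun_prop)).isClosed
  obtain ⟨δ, hδ, hδ'⟩ := Metric.isOpen_iff.1 hK.isOpen_compl (F (σ, τ)) (by
    rintro ⟨t, ht⟩
    have := h1 _ _ _ _ (by linarith) hσ ht
    linarith)
  filter_upwards [Metric.ball_mem_nhds _ hδ] with q hq σ' τ' h h'
  obtain ⟨c, hc⟩ := homot (G := fun z => F (σ + 1, z.2) - (F (σ, τ) + k z.1 • (q - F (σ, τ))))
    (by fun_prop) (fun z h0 => hδ' ((convex_ball _ _).add_smul_sub_mem (Metric.mem_ball_self hδ) hq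
      ⟨k_nonneg z.1, k_le z.1⟩) ⟨z.2, sub_eq_zero.1 h0⟩)
    (fun s => by simp only; rw [← hp _ 0, zero_add])
  have c0 := hc 0
  have c1 := hc 1
  simp only [k0, k1, zero_smul, one_smul, add_zero, add_sub_cancel] at c0 c1
  rw [← h'] at c1
  obtain ⟨a, a1, a2⟩ := move hF hp h1 (ρ := σ + 1) (σ := σ) (τ := τ) (ρ' := 2) (σ' := 0)
    (τ' := 1 / 2) (by linarith) hσ (by norm_num) le_rfl (Or.inl ⟨by linarith, by norm_num⟩)
  obtain ⟨b, b1, b2⟩ := move hF hp h1 (ρ := σ + 1) (σ := σ') (τ := τ') (ρ' := 0) (σ' := 2)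
    (τ' := 1) (by linarith) (by linarith) le_rfl (by norm_num) (Or.inr ⟨h, by norm_num⟩)
  rw [a1.unique c0] at a2
  rw [b1.unique c1] at b2
  exact odd hF hp h1 h2 c a2 b2

end

def X : Set ℂ := {z | 1 ≤ ‖z‖}

theorem norm_e (t : ℝ) : ‖exp (2 * Real.pi * t * I)‖ = 1 := by
  have := norm_exp_ofReal_mul_I (2 * Real.pi * t)
  push_cast at this
  exact this

theorem norm_pt (ρ t : ℝ) : ‖((1 + max ρ 0 : ℝ) : ℂ) * exp (2 * Real.pi * t * I)‖ = 1 + max ρ 0 := by
  rw [norm_mul, norm_e, mul_one, norm_real, Real.norm_of_nonneg (by positivity)]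

noncomputable def pt (z : ℝ × ℝ) : X :=
  ⟨((1 + max z.1 0 : ℝ) : ℂ) * exp (2 * Real.pi * z.2 * I), by
    show (1 : ℝ) ≤ ‖_‖
    rw [norm_pt]
    simp⟩

theorem pt_surj (x : X) : ∃ τ, pt (‖x.1‖ - 1, τ) = x := by
  refine ⟨arg x.1 / (2 * Real.pi), Subtype.ext ?_⟩
  have h : (1 : ℝ) ≤ ‖x.1‖ := x.2
  have h1 : (Real.pi : ℂ) ≠ 0 := ofReal_ne_zero.2 Real.pi_ne_zero
  simp only [pt]
  rw [max_eq_left (by linarith), add_sub_cancel]
  conv_rhs => rw [← norm_mul_exp_arg_mul_I x.1]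
  congr 2
  push_cast
  field_simp

theorem rigid (f : X → ℂ) (hf : Continuous f) (hi : Function.Injective f) : IsEmbedding f := by
  refine ⟨isInducing_iff_nhds.2 fun x => le_antisymm (hf.tendsto x).le_comap ?_, hi⟩
  have hc : Continuous pt := Continuous.subtype_mk (by fun_prop) _
  have hx : (1 : ℝ) ≤ ‖x.1‖ := x.2
  obtain ⟨τ, hτ⟩ := pt_surj x
  have h := sep (F := f ∘ pt) (hf.comp hc) (fun ρ t => by
      refine congrArg f (Subtype.ext ?_)
      simp only [pt]
      rw [ofReal_add t, mul_add, add_mul, exp_add, ofReal_one, mul_one, exp_two_pi_mul_I, mul_one])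
    (fun ρ σ t u h1 h2 h => by
      have := congrArg (fun z : X => ‖z.1‖) (hi h)
      simp only [pt, norm_pt] at this
      rw [max_eq_left h1, max_eq_left h2] at this
      linarith)
    (fun ρ t h1 h => by
      have h2 := congrArg Subtype.val (hi h)
      have h3 := norm_pt ρ t
      simp only [pt] at h2
      rw [ofReal_add t, mul_add, add_mul, exp_add, show 2 * (Real.pi : ℂ) * ((1 / 2 : ℝ) : ℂ) * I =
        Real.pi * I by push_cast; ring, exp_pi_mul_I, mul_neg_one, mul_neg,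
        self_eq_neg] at h2
      rw [h2, norm_zero] at h3
      have := le_max_right ρ 0
      linarith) (σ := ‖x.1‖ - 1) (τ := τ) (by linarith)
  simp only [Function.comp, hτ] at h
  have hK : IsCompact {y : X | ‖y.1‖ ≤ ‖x.1‖ + 1} := by
    have h1 : IsClosed X := isClosed_le continuous_const continuous_norm
    have := h1.isClosedEmbedding_subtypeVal.isCompact_preimage
      (isCompact_closedBall (0 : ℂ) (‖x.1‖ + 1))
    simpa [preimage] using this
  refine hK.le_nhds_of_unique_clusterPt ?_ fun y _ hy => hi ?_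
  · filter_upwards [preimage_mem_comap h] with y hy
    by_contra hc
    obtain ⟨u, hu⟩ := pt_surj y
    exact hy (‖y.1‖ - 1) u (by linarith [not_le.1 hc]) (by rw [hu])
  · exact eq_of_nhds_neBot (hy.map hf.continuousAt tendsto_comap)

theorem X_lc : LocallyCompactSpace X :=
  (isClosed_le continuous_const continuous_norm : IsClosed X).locallyCompactSpace

theorem X_conn : IsConnected Xᶜ := by
  have : Xᶜ = Metric.ball 0 1 := by
    ext z
    simp [X]
  rw [this]
  exact Metric.isConnected_ball one_pos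

theorem X_nc : ¬ IsCompact X := by
  intro h
  obtain ⟨C, hC⟩ := h.isBounded.exists_norm_le
  have := hC ((|C| + 1 : ℝ) : ℂ) (by
    show (1 : ℝ) ≤ ‖_‖
    rw [norm_real, Real.norm_of_nonneg (by positivity)]
    linarith [abs_nonneg C])
  rw [norm_real, Real.norm_of_nonneg (by positivity)] at this
  linarith [le_abs_self C]

theorem X_no : ¬ IsOpen X := by
  intro h
  have := (isClopen_iff.1 ⟨isClosed_le continuous_const continuous_norm, h⟩ : X = ∅ ∨ X = univ)
  rcases this with h | h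
  · exact h.subset (show (1 : ℂ) ∈ X by simp [X])
  · have : (0 : ℂ) ∈ X := h.superset trivial
    norm_num [X] at this

end Pool.Agent.H31.Rigid
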