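import Pool.Agent.H31.Omega1

set_option autoImplicit false

open Set Topology Filter

namespace Pool.Agent.H31.Rudin

open Omega1

noncomputable def r : W → ℝ := exists_r.choose

theorem r_spec {a b : W} {q : ℚ} (h : r a - r b = q) : a = b := exists_r.choose_spec a b q h

@[ext] structure X : Type where
  p : W
  y : ℝ
  pos : 0 < y
  rat : ∃ q : ℚ, y = r p + q

def box (N : Set W) (a : ℝ) : Set X := {z | z.p ∈ N ∧ z.y < a}

instance : TopologicalSpace X where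
  IsOpen U := ∀ x ∈ U, ∃ N : Set W, IsOpen N ∧ x.p ∈ N ∧ (∃ b, Ioi b ⊆ N) ∧
    ∃ a, x.y < a ∧ box N a ⊆ U
  isOpen_univ := fun x _ => ⟨univ, isOpen_univ, trivial, ⟨x.p, subset_univ _⟩, x.y + 1,
    lt_add_one _, subset_univ _⟩
  isOpen_inter := by
    rintro s t hs ht x ⟨hxs, hxt⟩
    obtain ⟨N, hN, hx, ⟨b, hb⟩, a, ha, hsub⟩ := hs x hxs
    obtain ⟨N', hN', hx', ⟨b', hb'⟩, a', ha', hsub'⟩ := ht x hxt
    refine ⟨N ∩ N', hN.inter hN', ⟨hx, hx'⟩, ⟨max b b', fun c hc =>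
      ⟨hb (mem_Ioi.2 (lt_of_le_of_lt (le_max_left _ _) (mem_Ioi.1 hc))),
        hb' (mem_Ioi.2 (lt_of_le_of_lt (le_max_right _ _) (mem_Ioi.1 hc)))⟩⟩,
      min a a', lt_min ha ha', fun z hz => ⟨hsub ⟨hz.1.1, hz.2.trans_le (min_le_left _ _)⟩,
        hsub' ⟨hz.1.2, hz.2.trans_le (min_le_right _ _)⟩⟩⟩
  isOpen_sUnion := by
    rintro S hS x ⟨t, ht, hx⟩
    obtain ⟨N, hN, hx, hb, a, ha, hsub⟩ := hS t ht x hx
    exact ⟨N, hN, hx, hb, a, ha, hsub.trans (subset_sUnion_of_mem ht)⟩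

theorem isOpen_box {N : Set W} (hN : IsOpen N) (hb : ∃ b, Ioi b ⊆ N) (a : ℝ) :
    IsOpen (box N a) := fun _ hx => ⟨N, hN, hx.1, hb, a, hx.2, subset_rfl⟩

theorem isOpen_strip {N : Set W} (hN : IsOpen N) (hb : ∃ b, Ioi b ⊆ N) :
    IsOpen {z : X | z.p ∈ N} :=
  fun x hx => ⟨N, hN, hx, hb, x.y + 1, lt_add_one _, fun _ hz => hz.1⟩

theorem isOpen_low (a : ℝ) : IsOpen {z : X | z.y < a} :=
  fun x hx => ⟨univ, isOpen_univ, trivial, ⟨x.p, subset_univ _⟩, a, hx, fun _ hz => hz.2⟩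

theorem exists_pt (p : W) {a b : ℝ} (ha : 0 ≤ a) (hab : a < b) :
    ∃ z : X, z.p = p ∧ a < z.y ∧ z.y < b := by
  obtain ⟨q, h1, h2⟩ := exists_rat_btwn (show a - r p < b - r p by linarith)
  exact ⟨⟨p, r p + q, by linarith, q, rfl⟩, rfl, by show a < r p + q; linarith,
    by show r p + q < b; linarith⟩

instance : T0Space X := by
  refine ⟨fun a b h => ?_⟩
  have h1 : ∀ {a b : X}, Inseparable a b → ¬ a.p < b.p := fun {a b} h hlt =>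
    lt_irrefl a.p (mem_Ioi.1
      ((h.mem_open_iff (isOpen_strip isOpen_Ioi ⟨a.p, subset_rfl⟩)).2 (mem_Ioi.2 hlt)))
  have h2 : ∀ {a b : X}, Inseparable a b → ¬ a.y < b.y := fun {a b} h hlt =>
    lt_irrefl b.y ((h.mem_open_iff (isOpen_low b.y)).1 hlt)
  exact X.ext (le_antisymm (not_lt.1 (h1 h.symm)) (not_lt.1 (h1 h)))
    (le_antisymm (not_lt.1 (h2 h.symm)) (not_lt.1 (h2 h)))

theorem irred : IsIrreducible (univ : Set X) := by
  obtain ⟨z, -⟩ := exists_pt ⊥ le_rfl one_pos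
  refine ⟨⟨z, trivial⟩, ?_⟩
  rintro U V hU hV ⟨x, -, hx⟩ ⟨x', -, hx'⟩
  obtain ⟨N, -, -, ⟨b, hb⟩, a, ha, hsub⟩ := hU x hx
  obtain ⟨N', -, -, ⟨b', hb'⟩, a', ha', hsub'⟩ := hV x' hx'
  obtain ⟨c, hc⟩ := exists_gt (max b b')
  obtain ⟨w, hw, -, hw2⟩ := exists_pt c le_rfl (lt_min (x.pos.trans ha) (x'.pos.trans ha'))
  exact ⟨w, trivial, hsub ⟨hb (hw ▸ lt_of_le_of_lt (le_max_left _ _) hc),
    hw2.trans_le (min_le_left _ _)⟩, hsub' ⟨hb' (hw ▸ lt_of_le_of_lt (le_max_right _ _) hc),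
    hw2.trans_le (min_le_right _ _)⟩⟩

theorem coreCompact (U : Set X) (hU : IsOpen U) (x : X) (hx : x ∈ U) :
    ∃ V : Set X, IsOpen V ∧ x ∈ V ∧ V ⊆ U ∧
      ∀ 𝒰 : Set (Set X), (∀ W ∈ 𝒰, IsOpen W) → U ⊆ ⋃₀ 𝒰 →
        ∃ 𝒱 ⊆ 𝒰, 𝒱.Finite ∧ V ⊆ ⋃₀ 𝒱 := by
  classical
  obtain ⟨N, hN, hxN, ⟨b, hb⟩, a, ha, hsub⟩ := hU x hx
  obtain ⟨K, hK, hxK, hKN⟩ := exists_compact_subset hN hxN
  set a' := (x.y + a) / 2 with ha'
  have h1 : x.y < a' := by linarith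
  have h2 : a' < a := by linarith
  have hKN' : K ∪ Ioi b ⊆ N := union_subset hKN hb
  refine ⟨box (interior K ∪ Ioi b) a', isOpen_box (isOpen_interior.union isOpen_Ioi)
    ⟨b, subset_union_right⟩ _, ⟨Or.inl hxK, h1⟩, fun z hz => hsub
      ⟨hKN' (union_subset_union_left _ interior_subset hz.1), hz.2.trans h2⟩, fun 𝒰 h𝒰 hcov => ?_⟩
  have key : ∀ d ∈ K ∪ Ioi b, ∃ T ∈ 𝒰, ∃ M : Set W, IsOpen M ∧ d ∈ M ∧ (∃ c, Ioi c ⊆ M) ∧
      box M a' ⊆ T := by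
    intro d hd
    obtain ⟨z, hz, hz1, hz2⟩ := exists_pt d (x.pos.trans h1).le h2
    obtain ⟨T, hT, hzT⟩ := hcov (hsub ⟨hz ▸ hKN' hd, hz2⟩)
    obtain ⟨M, hM, hzM, hc, e, he, hsub'⟩ := h𝒰 T hT z hzT
    exact ⟨T, hT, M, hM, hz ▸ hzM, hc, fun w hw => hsub' ⟨hw.1, hw.2.trans (hz1.trans he)⟩⟩
  choose! T hT M hM hdM hc hbox using key
  have hxK' : x.p ∈ K ∪ Ioi b := Or.inl (interior_subset hxK)
  obtain ⟨c, hc'⟩ := hc x.p hxK'
  have hC : IsCompact (K ∪ (Iic c ∩ Ioi b)) :=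
    hK.union ((isCompact_Iic c).inter_right (isClosed_Ioi b))
  have hCs : K ∪ (Iic c ∩ Ioi b) ⊆ K ∪ Ioi b := union_subset_union_right _ inter_subset_right
  obtain ⟨t, ht, hcover⟩ := hC.elim_nhds_subcover M
    (fun d hd => (hM d (hCs hd)).mem_nhds (hdM d (hCs hd)))
  refine ⟨insert (T x.p) (T '' t), ?_, ((t.finite_toSet).image T).insert _, ?_⟩
  · rintro _ (rfl | ⟨d, hd, rfl⟩)
    · exact hT _ hxK'
    · exact hT _ (hCs (ht d hd))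
  · intro z hz
    by_cases hzc : c < z.p
    · exact ⟨_, mem_insert _ _, hbox _ hxK' ⟨hc' hzc, hz.2⟩⟩
    · have : z.p ∈ K ∪ (Iic c ∩ Ioi b) := by
        rcases hz.1 with h | h
        · exact Or.inl (interior_subset h)
        · exact Or.inr ⟨not_lt.1 hzc, h⟩
      obtain ⟨d, hd, hzd⟩ := mem_iUnion₂.1 (hcover this)
      exact ⟨_, mem_insert_of_mem _ (mem_image_of_mem T hd), hbox d (hCs (ht d hd)) ⟨hzd, hz.2⟩⟩

theorem compact_bounded {K : Set X} (hK : IsCompact K) : ∃ b, ∀ z ∈ K, z.p ≤ b := by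
  by_contra hc
  push Not at hc
  let T : Set ℝ := {t | ∀ b, ∃ z ∈ K, b < z.p ∧ t < z.y}
  have hT0 : (0 : ℝ) ∈ T := fun b => by
    obtain ⟨z, hz, hb⟩ := hc b
    exact ⟨z, hz, hb, z.pos⟩
  have hTb : BddAbove T := by
    obtain ⟨n, hn⟩ := hK.elim_directed_cover (fun n : ℕ => {z : X | z.y < n})
      (fun n => isOpen_low _) (fun z _ => mem_iUnion.2 (exists_nat_gt z.y))
      (directed_of_isDirected_le fun i j hij z (hz : z.y < i) =>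
        show z.y < j from hz.trans_le (by exact_mod_cast hij))
    refine ⟨n, fun t ht => ?_⟩
    obtain ⟨z, hz, -, h⟩ := ht ⊥
    exact (h.trans (hn hz)).le
  set s := sSup T with hs
  have hup : ∀ n : ℕ, ∃ b, ∀ z ∈ K, b < z.p → z.y ≤ s + 1 / ((n : ℝ) + 1) := by
    intro n
    have : s + 1 / ((n : ℝ) + 1) ∉ T := fun h => by
      have := le_csSup hTb h
      have h2 : (0 : ℝ) < 1 / ((n : ℝ) + 1) := by positivity
      linarith
    by_contra hcon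
    push Not at hcon
    exact this hcon
  choose b hb using hup
  obtain ⟨b₀, hb₀⟩ := exists_bound_seq b
  have hup' : ∀ z ∈ K, b₀ < z.p → z.y ≤ s := by
    intro z hz hzb
    by_contra h
    obtain ⟨n, hn⟩ := exists_nat_one_div_lt (show 0 < z.y - s by linarith)
    have := hb n z hz ((hb₀ n).trans hzb)
    linarith
  have hlow : ∀ c, ∃ z ∈ K, c < z.p ∧ s ≤ z.y := by
    intro c
    have : ∀ n : ℕ, ∃ z ∈ K, c < z.p ∧ s - 1 / ((n : ℝ) + 1) < z.y := by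
      intro n
      have h2 : (0 : ℝ) < 1 / ((n : ℝ) + 1) := by positivity
      obtain ⟨t, ht, ht'⟩ := exists_lt_of_lt_csSup ⟨0, hT0⟩
        (show s - 1 / ((n : ℝ) + 1) < s by linarith)
      obtain ⟨z, hz, h3, h4⟩ := ht c
      exact ⟨z, hz, h3, ht'.trans h4⟩
    choose z hz h3 h4 using this
    obtain ⟨l, hl⟩ := exists_bound_seq fun n => (z n).p
    by_contra hcon
    push Not at hcon
    obtain ⟨n, hn⟩ := hK.elim_directed_cover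
      (fun n : ℕ => {w : X | w.p ∈ Iic c ∪ Ioi l} ∪ {w : X | w.y < s - 1 / ((n : ℝ) + 1)})
      (fun n => (isOpen_strip ((isOpen_Iic c).union isOpen_Ioi) ⟨l, subset_union_right⟩).union
        (isOpen_low _))
      (fun w hw => by
        by_cases h : c < w.p
        · obtain ⟨n, hn⟩ := exists_nat_one_div_lt (show 0 < s - w.y by linarith [hcon w hw h])
          exact mem_iUnion.2 ⟨n, Or.inr (show w.y < _ by linarith)⟩
        · exact mem_iUnion.2 ⟨0, Or.inl (Or.inl (not_lt.1 h))⟩)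
      (directed_of_isDirected_le fun i j hij => union_subset_union_right _ fun w hw => by
        have : 1 / ((j : ℝ) + 1) ≤ 1 / ((i : ℝ) + 1) := Nat.one_div_le_one_div hij
        show w.y < _
        have hw' : w.y < _ := hw
        linarith)
    rcases hn (hz n) with (h | h) | h
    · exact absurd (h3 n) (not_lt.2 h)
    · exact lt_asymm (hl n) h
    · exact lt_asymm (h4 n) h
  obtain ⟨z, hz, h1, h2⟩ := hlow b₀
  obtain ⟨w, hw, h3, h4⟩ := hlow z.p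
  have e1 : z.y = s := le_antisymm (hup' z hz h1) h2
  have e2 : w.y = s := le_antisymm (hup' w hw (h1.trans h3)) h4
  obtain ⟨q, hq⟩ := z.rat
  obtain ⟨q', hq'⟩ := w.rat
  have : z.p = w.p := r_spec (q := q' - q) (by push_cast; linarith)
  exact h3.ne this

theorem not_rudin : ¬ ∃ 𝒦 : Set (Set X), 𝒦.Nonempty ∧
    (∀ K ∈ 𝒦, IsCompact K ∧
      ∀ x : X, (∀ U : Set X, IsOpen U → K ⊆ U → x ∈ U) → x ∈ K) ∧
    (∀ K₁ ∈ 𝒦, ∀ K₂ ∈ 𝒦, ∃ K₃ ∈ 𝒦, K₃ ⊆ K₁ ∩ K₂) ∧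
    (∀ K ∈ 𝒦, (univ ∩ K).Nonempty) ∧
    ∀ B : Set X, IsClosed B → B ⊆ univ → (∀ K ∈ 𝒦, (B ∩ K).Nonempty) → B = univ := by
  rintro ⟨𝒦, ⟨K₀, hK₀⟩, h1, h2, h3, h4⟩
  obtain ⟨b, hb⟩ := compact_bounded (h1 K₀ hK₀).1
  have hB : IsClosed {z : X | z.p ∈ Ioi b}ᶜ :=
    (isOpen_strip isOpen_Ioi ⟨b, subset_rfl⟩).isClosed_compl
  have := h4 _ hB (subset_univ _) fun K hK => by
    obtain ⟨K₃, hK₃, hsub⟩ := h2 K hK K₀ hK₀
    obtain ⟨z, -, hz⟩ := h3 K₃ hK₃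
    exact ⟨z, not_lt.2 (hb z (hsub hz).2), (hsub hz).1⟩
  obtain ⟨c, hc⟩ := exists_gt b
  obtain ⟨z, hz, -⟩ := exists_pt c le_rfl one_pos
  have hz' : z ∈ {z : X | z.p ∈ Ioi b}ᶜ := this ▸ mem_univ z
  exact hz' (show b < z.p from hz ▸ hc)

end Pool.Agent.H31.Rudin
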