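import Pool.Agent.H31.SCDefs

namespace Pool.Agent.H31.SC

open Set Filter Topology

universe u v

def scott {P : Type u} (r : P → P → Prop) : TopologicalSpace P where
  IsOpen := ScottOpen r
  isOpen_univ := ⟨fun _ _ _ _ => trivial, fun _ _ h _ _ => by simpa using h.1⟩
  isOpen_inter U V hU hV := ⟨fun a b h h1 => ⟨hU.1 a b h h1.1, hV.1 a b h h1.2⟩,
    fun D s h1 h2 h3 => by
      obtain ⟨a, h4, h5⟩ := hU.2 D s h1 h2 h3.1
      obtain ⟨b, h6, h7⟩ := hV.2 D s h1 h2 h3.2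
      obtain ⟨c, h8, h9, h10⟩ := h1.2 a h4 b h6
      exact ⟨c, h8, hU.1 _ _ h9 h5, hV.1 _ _ h10 h7⟩⟩
  isOpen_sUnion S hS := ⟨fun a b h ⟨U, h1, h2⟩ => ⟨U, h1, (hS U h1).1 a b h h2⟩,
    fun D s h1 h2 ⟨U, h3, h4⟩ => ((hS U h3).2 D s h1 h2 h4).imp fun _ h => ⟨h.1, U, h3, h.2⟩⟩

theorem sp_scott {P : Type u} {r : P → P → Prop} (h1 : ∀ a, r a a)
    (h2 : ∀ a b c, r a b → r b c → r a c) : @sp P (scott r) = r := by
  letI := scott r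
  ext a b
  refine ⟨fun h => ?_, fun h => mem_closure_iff.mpr fun U hU ha => ⟨b, hU.1 a b h ha, rfl⟩⟩
  by_contra h3
  obtain ⟨_, h4, rfl⟩ := mem_closure_iff.mp h {x | ¬ r x b} ⟨fun x y h4 h5 h6 => h5 (h2 _ _ _ h4 h6),
    fun D s _ h4 h5 => by
      by_contra! h6
      exact h5 (h4.2 b fun x hx => not_not.mp fun h7 => h6.subset ⟨hx, h7⟩)⟩ h3
  exact h4 (h1 _)

theorem scottSpace {P : Type u} {r : P → P → Prop} (h1 : ∀ a, r a a)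
    (h2 : ∀ a b c, r a b → r b c → r a c) (h3 : ∀ a b, r a b → r b a → a = b) (h4 : Dcpo r) :
    @ScottSpace P (scott r) := by
  letI := scott r
  have h := sp_scott h1 h2
  refine ⟨⟨fun a b h5 => h3 a b ?_ ?_⟩, h.symm ▸ h4, fun U => by rw [h]; rfl⟩ <;> rw [← h]
  exacts [h5.specializes'.mem_closure, h5.specializes.mem_closure]

variable {X : Type v} {Y : Type u} [TopologicalSpace X] [TopologicalSpace Y]

theorem sp_iff {x y : Y} : sp Y x y ↔ ∀ U, IsOpen U → x ∈ U → y ∈ U :=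
  specializes_iff_mem_closure.symm.trans specializes_iff_forall_open

theorem sier {i : X → Y} (h : ScottCompletion i) {U : Set X} (hU : IsOpen U) :
    ∃! V, IsOpen V ∧ i ⁻¹' V = U := by
  let r : ULift.{u} Prop → ULift.{u} Prop → Prop := fun a b => a.down → b.down
  letI := scott r
  have h1 : ∀ {W : Type (max u v)} [TopologicalSpace W] (V : Set W), IsOpen V →
      Continuous fun x => (⟨x ∈ V⟩ : ULift.{u} Prop) := fun V hV => ⟨fun O hO =>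
    isOpen_iff_forall_mem_open.mpr fun x hx => by
      by_cases h1 : x ∈ V
      · exact ⟨V, fun y hy => hO.1 _ _ (fun _ => hy) hx, hV, h1⟩
      · exact ⟨univ, fun y _ => hO.1 _ _ (fun h => absurd h h1) hx, isOpen_univ, trivial⟩⟩
  have h2 : ∀ V : Set X, IsOpen V → Continuous fun x => (⟨x ∈ V⟩ : ULift.{u} Prop) := fun V hV =>
    (h1 (ULift.down.{u} ⁻¹' V) (hV.preimage continuous_uliftDown)).comp continuous_uliftUp
  have h3 : ∀ V : Set Y, IsOpen V → Continuous fun x => (⟨x ∈ V⟩ : ULift.{u} Prop) := fun V hV =>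
    (h1 (ULift.down.{v} ⁻¹' V) (hV.preimage continuous_uliftDown)).comp continuous_uliftUp
  obtain ⟨g, ⟨h4, h5⟩, h6⟩ := h.2.2 _ (scottSpace (r := r) (fun _ => id) (fun _ _ _ h h' => h' ∘ h)
    (fun a b h h' => ULift.ext _ _ (propext ⟨h, h'⟩)) fun D _ => ⟨⟨∃ a ∈ D, a.down⟩,
      fun a ha h => ⟨a, ha, h⟩, fun t ht ⟨a, ha, h⟩ => ht a ha h⟩) _ (h2 U hU)
  refine ⟨g ⁻¹' {a | a.down}, ⟨IsOpen.preimage h4 ⟨fun _ _ => id, fun D s _ h7 h8 => ?_⟩,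
    Set.ext fun x => (congrArg ULift.down (congrFun h5 x)).symm.to_iff⟩, ?_⟩
  · by_contra! h9
    exact h7.2 ⟨False⟩ (fun a ha h => h9.subset ⟨ha, h⟩) h8
  · rintro V ⟨h7, rfl⟩
    rw [← h6 _ ⟨h3 V h7, rfl⟩]
    rfl

theorem main [T0Space X] {i : X → Y} (h : ScottCompletion i) : DCompletion i := by
  have h1 : ∀ U V : Set Y, IsOpen U → IsOpen V → i ⁻¹' U = i ⁻¹' V → U = V := fun U V h1 h2 h3 =>
    (sier h (h2.preimage h.2.1)).unique ⟨h1, h3⟩ ⟨h2, rfl⟩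
  obtain ⟨⟨_, h2, h3⟩, h4, h5⟩ := id h
  refine ⟨IsInducing.isEmbedding ⟨TopologicalSpace.ext_iff.mpr fun U => ⟨fun hU =>
    (sier h hU).exists, fun ⟨V, h6, h7⟩ => h7 ▸ h6.preimage h4⟩⟩,
      ⟨inferInstance, h2, fun U => (h3 U).mp⟩, fun C h6 h7 => eq_univ_of_forall fun y => ?_⟩
  let N : Y → Set (Set Y) := fun x => {U | IsOpen U ∧ x ∈ U}
  have h8 : ∀ x y, N x ⊆ N y ↔ sp Y x y := fun x y =>
    ⟨fun h => sp_iff.mpr fun U h1 h2 => (h ⟨h1, h2⟩).2, fun h U hU => ⟨hU.1, sp_iff.mp h U hU.1 hU.2⟩⟩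
  have h9 : ∀ x y, N x ⊆ N y → N y ⊆ N x → x = y := fun x y h h' => Inseparable.eq
    (inseparable_iff_forall_isOpen.mpr fun U hU => ⟨fun h1 => (h ⟨hU, h1⟩).2, fun h1 => (h' ⟨hU, h1⟩).2⟩)
  let Z := {z : Set (Set Y) × Y // z.2 ∈ C ∧ z.1 ⊆ N z.2}
  let r : Z → Z → Prop := fun a b => a.1.1 ⊆ b.1.1 ∧ (a.1.2 = b.1.2 ∨ b.1.1 = N b.1.2)
  have h10 : ∀ a b, r a b → a.1.1 = N a.1.2 → b.1.1 = N b.1.2 := fun a b h h' =>
    h.2.elim (fun h1 => b.2.2.antisymm (h1 ▸ h' ▸ h.1)) id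
  have h11 : ∀ D, Dir r D → ∃ s, IsSup r D s ∧ s.1.1 ⊆ ⋃ a ∈ D, a.1.1 := fun D hD => by
    by_cases h11 : ∃ a ∈ D, a.1.1 = N a.1.2
    · obtain ⟨a, h11, h12⟩ := h11
      have h13 : Dir (sp Y) ((fun z : Z => z.1.2) '' {z ∈ D | z.1.1 = N z.1.2}) :=
        ⟨⟨_, a, ⟨h11, h12⟩, rfl⟩, by
          rintro _ ⟨b, ⟨h13, h14⟩, rfl⟩ _ ⟨c, ⟨h15, h16⟩, rfl⟩
          obtain ⟨d, h17, h18, h19⟩ := hD.2 b h13 c h15
          have h20 := h10 _ _ h18 h14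
          exact ⟨_, ⟨d, ⟨h17, h20⟩, rfl⟩, (h8 _ _).mp (h14 ▸ h20 ▸ h18.1),
            (h8 _ _).mp (h16 ▸ h20 ▸ h19.1)⟩⟩
      obtain ⟨s, h14⟩ := h2 _ h13
      have h15 : N s ⊆ ⋃ a ∈ D, a.1.1 := fun U hU => by
        obtain ⟨_, ⟨b, ⟨h15, h16⟩, rfl⟩, h17⟩ := ((h3 U).mp hU.1).2 _ s h13 h14 hU.2
        exact mem_biUnion h15 (h16 ▸ ⟨hU.1, h17⟩)
      refine ⟨⟨(N s, s), h6 _ (image_subset_iff.mpr fun z _ => z.2.1) s h13 h14, subset_rfl⟩,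
        ⟨fun b hb => ⟨?_, .inr rfl⟩, fun t ht => ⟨h15.trans (iUnion₂_subset fun b hb => (ht b hb).1),
          .inr (h10 _ _ (ht a h11) h12)⟩⟩, h15⟩
      obtain ⟨d, h17, h18, h19⟩ := hD.2 a h11 b hb
      have h20 := h10 _ _ h18 h12
      exact h19.1.trans (h20 ▸ (h8 _ _).mpr (h14.1 _ ⟨d, ⟨h17, h20⟩, rfl⟩))
    · push Not at h11
      obtain ⟨a, ha⟩ := hD.1
      have h12 : ∀ b ∈ D, b.1.2 = a.1.2 := fun b hb => by
        obtain ⟨d, h12, h13, h14⟩ := hD.2 a ha b hb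
        exact (h14.2.resolve_right (h11 d h12)).trans (h13.2.resolve_right (h11 d h12)).symm
      exact ⟨⟨(⋃ b ∈ D, b.1.1, a.1.2), a.2.1, iUnion₂_subset fun b hb => h12 b hb ▸ b.2.2⟩,
        ⟨fun b hb => ⟨subset_biUnion_of_mem (u := fun b : Z => b.1.1) hb, .inl (h12 b hb)⟩,
          fun t ht => ⟨iUnion₂_subset fun b hb => (ht b hb).1, (ht a ha).2⟩⟩, subset_rfl⟩
  have h12 : ∀ a, r a a := fun a => ⟨subset_rfl, .inl rfl⟩
  have h13 : ∀ a b c, r a b → r b c → r a c := fun a b c h h' => ⟨h.1.trans h'.1,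
    h.2.elim (fun h1 => h'.2.imp_left h1.trans) fun h1 => .inr (h10 _ _ h' h1)⟩
  have h14 : ∀ a b, r a b → r b a → a = b := fun a b h h' => Subtype.ext (Prod.ext
    (h.1.antisymm h'.1) (h.2.elim id fun h1 => h'.2.elim Eq.symm fun h2 =>
      h9 _ _ (h1 ▸ h2 ▸ h.1) (h1 ▸ h2 ▸ h'.1)))
  letI := scott r
  obtain ⟨g, ⟨h15, h16⟩, -⟩ := h5 Z (scottSpace h12 h13 h14 fun D hD => (h11 D hD).imp fun _ h => h.1)
    (fun x => ⟨(N (i x), i x), h7 ⟨x, rfl⟩, subset_rfl⟩) ⟨fun W hW =>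
      isOpen_iff_forall_mem_open.mpr fun x hx => by
        obtain ⟨z, ⟨h15, h16⟩, h17⟩ := hW.2 {z | z.1.1.Finite ∧ z.1.2 = i x}
          ⟨(N (i x), i x), h7 ⟨x, rfl⟩, subset_rfl⟩
          ⟨⟨⟨(∅, i x), h7 ⟨x, rfl⟩, empty_subset _⟩, finite_empty, rfl⟩, fun a ha b hb =>
            ⟨⟨(a.1.1 ∪ b.1.1, i x), h7 ⟨x, rfl⟩, union_subset (ha.2 ▸ a.2.2) (hb.2 ▸ b.2.2)⟩,
              ⟨ha.1.union hb.1, rfl⟩, ⟨subset_union_left, .inl ha.2⟩, subset_union_right, .inl hb.2⟩⟩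
          ⟨fun a ha => ⟨a.2.2.trans (congrArg N ha.2).subset, .inr rfl⟩, fun t ht => ⟨fun U hU => (ht ⟨({U}, i x),
            h7 ⟨x, rfl⟩, singleton_subset_iff.mpr hU⟩ ⟨finite_singleton _, rfl⟩).1 rfl,
              (ht ⟨(∅, i x), h7 ⟨x, rfl⟩, empty_subset _⟩ ⟨finite_empty, rfl⟩).2⟩⟩ hx
        exact ⟨i ⁻¹' ⋂₀ z.1.1, fun x' hx' => hW.1 _ _ ⟨fun U hU => ⟨(z.2.2 hU).1, hx' U hU⟩,
          .inr rfl⟩ h17, (h15.isOpen_sInter fun U hU => (z.2.2 hU).1).preimage h4,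
            fun U hU => h16 ▸ (z.2.2 hU).2⟩⟩
  have h17 : ∀ U, IsOpen U → g ⁻¹' {z | U ∈ z.1.1} = U := fun U hU => h1 _ _
    (IsOpen.preimage h15 ⟨fun a b h h' => h.1 h', fun D s h17 h18 h19 => by
      obtain ⟨s', h20, h21⟩ := h11 D h17
      obtain ⟨a, h22, h23⟩ := mem_iUnion₂.mp (h21 ((h18.2 s' h20.1).1 h19))
      exact ⟨a, h22, h23⟩⟩) hU (by
        ext x
        rw [mem_preimage, mem_preimage, ← show _ = g (i x) from congrFun h16 x]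
        simp [N, hU])
  obtain ⟨x, hx⟩ : ∃ x, i x ∈ closure {y} := by
    by_contra! h18
    exact (h1 _ _ isClosed_closure.isOpen_compl isOpen_univ (eq_univ_of_forall h18)).superset
      (mem_univ y) (subset_closure rfl)
  have h18 : r (g (i x)) (g y) := sp_scott h12 h13 ▸
    (show sp Z (g (i x)) (g y) from ((specializes_iff_mem_closure.mpr hx).map h15).mem_closure)
  have h19 := h10 _ _ h18 (by rw [← show _ = g (i x) from congrFun h16 x])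
  rw [h9 y (g y).1.2 (fun U hU => h19 ▸ (h17 U hU.1).superset hU.2) fun U hU =>
    ⟨hU.1, (h17 U hU.1).subset (h19.superset hU)⟩]
  exact (g y).2.1

end Pool.Agent.H31.SC
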