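import Mathlib

namespace Pool.Agent.H31.SC

universe u v

/-- specialization order: `x ⊑ y ↔ x ∈ cl {y}` -/
def sp (X : Type u) [TopologicalSpace X] (x y : X) : Prop := x ∈ closure {y}

variable {P : Type u} (r : P → P → Prop)

/-- directed (nonempty) subset -/
def Dir (D : Set P) : Prop := D.Nonempty ∧ ∀ a ∈ D, ∀ b ∈ D, ∃ c ∈ D, r a c ∧ r b c

/-- least upper bound -/
def IsSup (D : Set P) (s : P) : Prop := (∀ a ∈ D, r a s) ∧ ∀ t, (∀ a ∈ D, r a t) → r s t

def Dcpo : Prop := ∀ D, Dir r D → ∃ s, IsSup r D s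

def ScottOpen (U : Set P) : Prop :=
  (∀ a b, r a b → a ∈ U → b ∈ U) ∧ ∀ D s, Dir r D → IsSup r D s → s ∈ U → (D ∩ U).Nonempty

def DClosed (A : Set P) : Prop := ∀ D ⊆ A, ∀ s, Dir r D → IsSup r D s → s ∈ A

/-- the only d-closed superset of `A` is everything -/
def DDense (A : Set P) : Prop := ∀ C, DClosed r C → A ⊆ C → C = Set.univ

def ScottSpace (X : Type u) [TopologicalSpace X] : Prop :=
  T0Space X ∧ Dcpo (sp X) ∧ ∀ U, IsOpen U ↔ ScottOpen (sp X) U

/-- monotone convergence space -/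
def DSpace (X : Type u) [TopologicalSpace X] : Prop :=
  T0Space X ∧ Dcpo (sp X) ∧ ∀ U, IsOpen U → ScottOpen (sp X) U

variable {X : Type v} {Y : Type u} [TopologicalSpace X] [TopologicalSpace Y]

def DCompletion (j : X → Y) : Prop :=
  Topology.IsEmbedding j ∧ DSpace Y ∧ DDense (sp Y) (Set.range j)

def ScottCompletion (i : X → Y) : Prop :=
  ScottSpace Y ∧ Continuous i ∧ ∀ (Z : Type u) [TopologicalSpace Z], ScottSpace Z →
    ∀ g : X → Z, Continuous g → ∃! g' : Y → Z, Continuous g' ∧ g = g' ∘ i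

end Pool.Agent.H31.SC
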