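import Mathlib

set_option autoImplicit false

open Set Function

namespace Pool.Agent.H31.SF

/-- the letters -/
abbrev A : Type := ℕ → ℕ

/-- Baire space as a space of sequences of letters -/
def φ (x : ℕ → ℕ) (i : ℕ) : A := fun j => x (Nat.pair i j)

/-- the inverse of `φ` -/
def ψ (y : ℕ → A) : ℕ → ℕ := fun n => y n.unpair.1 n.unpair.2

@[simp] theorem φψ (y : ℕ → A) : φ (ψ y) = y := by
  funext i j; simp [φ, ψ]

theorem ψφ (x : ℕ → ℕ) : ψ (φ x) = x := by
  funext i; simp [φ, ψ]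

/-- codes -/
def c (y : ℕ → A) : A := fun n => ψ y n + 1

theorem c_inj {y z : ℕ → A} (h : c y = c z) : y = z := by
  rw [← φψ y, ← φψ z]
  exact congrArg φ (funext fun n => Nat.succ_injective (congrFun h n))

theorem c_ne (y : ℕ → A) : c y ≠ 0 := fun h => Nat.succ_ne_zero _ (congrFun h 0)

/-- cylinders -/
def J (k : ℕ) (β : ℕ → A) : Set (ℕ → ℕ) := {z | ∀ i < k, φ z i = β i}

/-- the letter `β k` codes a sequence `y` with infinitely many zeros branching off at `k` -/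
def Act (k : ℕ) (β y : ℕ → A) : Prop :=
  (∀ n, ∃ m ≥ n, y m = 0) ∧ y k = 0 ∧ β k = c y ∧ ∀ i < k, β i = y i

/-- the members of the family -/
def U (k : ℕ) (β : ℕ → A) : Set (ℕ → ℕ) := J (k + 1) β ∪
  {w | ∃ y, Act k β y ∧ (φ w = y ∨ ∃ j ≥ k, y j = 0 ∧ w ∈ J (j + 1) (update y j (c y)))}

theorem φ_closed (i : ℕ) (a : A) : IsClosed {z | φ z i = a} :=
  isClosed_eq (continuous_pi fun _ => continuous_apply _) continuous_const

theorem J_closed (k : ℕ) (β : ℕ → A) : IsClosed (J k β) := by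
  simp only [J, setOf_forall]
  exact isClosed_iInter fun i => isClosed_iInter fun _ => φ_closed _ _

theorem U_closed (k : ℕ) (β : ℕ → A) : IsClosed (U k β) := by
  refine (J_closed _ _).union ?_
  by_cases h : ∃ y, Act k β y
  swap
  · convert isClosed_empty
    exact eq_empty_of_forall_notMem fun w ⟨y, hy, _⟩ => h ⟨y, hy⟩
  obtain ⟨y, hy⟩ := h
  convert isClosed_iInter fun i => (φ_closed i (y i)).union ((finite_Iic i).isClosed_biUnion
    (f := fun j => ⋃ _ : k ≤ j ∧ y j = 0, J (j + 1) (update y j (c y)))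
    fun j _ => isClosed_iUnion_of_finite fun _ => J_closed _ _)
  ext w
  simp only [mem_setOf_eq, mem_iInter, mem_union, mem_iUnion, mem_Iic]
  constructor
  · rintro ⟨z, hz, h⟩ i
    obtain rfl := c_inj (hz.2.2.1.symm.trans hy.2.2.1)
    rcases h with h | ⟨j, h1, h2, h3⟩
    · exact Or.inl (congrFun h i)
    · exact (lt_or_ge i j).imp (fun h => (h3 i (by omega)).trans (update_of_ne h.ne _ _))
        fun h => ⟨j, h, ⟨h1, h2⟩, h3⟩
  · refine fun h => ⟨y, hy, or_iff_not_imp_left.2 fun h' => ?_⟩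
    obtain ⟨i, hi⟩ := Function.ne_iff.1 h'
    obtain ⟨j, -, h1, h2⟩ := (h i).resolve_left hi
    exact ⟨j, h1.1, h1.2, h2⟩

theorem U_congr {k : ℕ} {β γ : ℕ → A} (h : ∀ i < k + 1, β i = γ i) : U k β = U k γ := by
  have h1 : ∀ i < k, β i = γ i := fun i hi => h i (by omega)
  have : ∀ y, Act k β y ↔ Act k γ y := fun y => by
    simp only [Act, h k k.lt_succ_self]
    exact and_congr_right fun _ => and_congr_right fun _ => and_congr_right fun _ =>
      forall₂_congr fun i hi => by rw [h1 i hi]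
  simp only [U, this]
  congr 1
  exact Set.ext fun z => forall₂_congr fun i hi => by rw [h i hi]

theorem U_sub (k : ℕ) (β : ℕ → A) : U k β ⊆ J k β := by
  rintro w (h | ⟨y, hy, h | ⟨j, h1, -, h3⟩⟩) i hi
  · exact h i (by omega)
  · rw [h, hy.2.2.2 i hi]
  · rw [h3 i (by omega), update_of_ne (by omega), hy.2.2.2 i hi]

theorem J_le {k m : ℕ} {β γ : ℕ → A} (h : J m γ ⊆ J (k + 1) β) : k < m := by
  by_contra hm
  have := h (a := ψ (update γ k (β k + 1))) ?_ k k.lt_succ_self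
  · simpa using congrFun this 0
  · by_cases h' : m ≤ k
    · exact fun i hi => by rw [φψ, update_of_ne (by omega)]
    · omega

theorem fills (k : ℕ) (β : ℕ → A) (x : ℕ → ℕ) (hx : x ∈ U k β) :
    ∃ m γ, U m γ ≠ U k β ∧ x ∈ U m γ ∧ U m γ ⊆ U k β := by
  have key : ∀ j γ, x ∈ J j γ → J j γ ⊆ U k β → ∃ m γ, U m γ ≠ U k β ∧ x ∈ U m γ ∧ U m γ ⊆ U k β :=
    fun j γ h1 h2 => ⟨j + 1, φ x, fun e => (J_le (h2.trans (e.ge.trans (U_sub _ _)))).false,
      Or.inl fun _ _ => rfl, fun w hw => h2 fun i hi => (U_sub _ _ hw i (by omega)).trans (h1 i hi)⟩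
  rcases hx with h | ⟨y, hy, h | ⟨j, h1, h2, h3⟩⟩
  · exact key _ _ h subset_union_left
  · obtain ⟨m, m1, m2⟩ := hy.1 (k + 2)
    have a : Act m (update y m (c y)) y :=
      ⟨hy.1, m2, update_self .., fun i hi => update_of_ne hi.ne _ _⟩
    refine ⟨m, update y m (c y), fun e => ?_, Or.inr ⟨y, a, Or.inl h⟩, ?_⟩
    · obtain ⟨m, rfl⟩ := Nat.exists_eq_add_of_le' (show 1 ≤ m by omega)
      have := J_le (subset_union_left.trans (e.ge.trans (U_sub _ _)))
      omega
    · rintro w (h' | ⟨z, hz, h'⟩)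
      · exact Or.inr ⟨y, hy, Or.inr ⟨m, by omega, m2, h'⟩⟩
      · rw [c_inj (hz.2.2.1.symm.trans a.2.2.1)] at h'
        exact Or.inr ⟨y, hy, h'.imp_right fun ⟨j, h1, h2⟩ => ⟨j, by omega, h2⟩⟩
  · exact key _ _ h3 fun w hw => Or.inr ⟨y, hy, Or.inr ⟨j, h1, h2, hw⟩⟩

theorem seq (ρ : ℕ → (ℕ → A) → A) : ∃ x : ℕ → A, ∀ j, x j = ρ j fun i => if i < j then x i else 0 := by
  refine ⟨Nat.lt_wfRel.wf.fix fun j ih => ρ j fun i => if h : i < j then ih i h else 0, fun j => ?_⟩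
  rw [WellFounded.fix_eq]
  rfl

theorem irres (F0 F1 : Set (Set (ℕ → ℕ))) (hd : Disjoint F0 F1)
    (b0 : ∀ k β, ∀ x ∈ U k β, ∃ m γ, U m γ ∈ F0 ∧ x ∈ U m γ ∧ U m γ ⊆ U k β)
    (b1 : ∀ k β, ∀ x ∈ U k β, ∃ m γ, U m γ ∈ F1 ∧ x ∈ U m γ ∧ U m γ ⊆ U k β) : False := by
  have : ∀ j (γ : ℕ → A), ∃ r, (r = 0 ∧ ∀ s ≠ 0, U j (update γ j s) ∉ F0) ∨
      (r ≠ 0 ∧ U j (update γ j r) ∈ F0) := fun j γ => by
    by_cases h : ∃ s ≠ 0, U j (update γ j s) ∈ F0
    · exact h.imp fun _ => Or.inr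
    · exact ⟨0, Or.inl ⟨rfl, fun s hs h' => h ⟨s, hs, h'⟩⟩⟩
  choose ρ hρ using this
  obtain ⟨x, hx⟩ := seq ρ
  have key : ∀ j, (x j = 0 ∧ ∀ β, (∀ i < j, β i = x i) → β j ≠ 0 → U j β ∉ F0) ∨
      (x j ≠ 0 ∧ U j x ∈ F0) := fun j => by
    have e : ∀ β : ℕ → A, (∀ i < j, β i = x i) →
        U j (update (fun i => if i < j then x i else 0) j (β j)) = U j β := fun β h =>
      U_congr fun i hi => by
        rcases (Nat.lt_succ_iff.1 hi).eq_or_lt with rfl | hi
        · simp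
        · simp [hi, hi.ne, h i hi]
    refine (hρ j _).imp (fun h => ⟨(hx j).trans h.1, fun β h1 h2 => e β h1 ▸ h.2 _ h2⟩) fun h => ?_
    rw [← hx j] at h
    exact ⟨h.1, e x (fun _ _ => rfl) ▸ h.2⟩
  by_cases hz : ∀ n, ∃ k ≥ n, x k = 0
  · obtain ⟨k, -, hk⟩ := hz 0
    have a : Act k (update x k (c x)) x :=
      ⟨hz, hk, update_self .., fun i hi => update_of_ne hi.ne _ _⟩
    obtain ⟨m, γ, v1, v2, v3⟩ := b0 k _ (ψ x) (Or.inr ⟨x, a, Or.inl (φψ x)⟩)
    have no : ∀ j δ, ψ x ∈ J j δ → ¬ J j δ ⊆ U m γ := fun j δ h1 h2 => by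
      have h3 : ∀ i, ψ (update x j (x j + c x + 1)) ∉ J (i + 1) (update x i (c x)) ∨ x i ≠ 0 := by
        refine fun i => or_iff_not_imp_right.2 fun h4 h => ?_
        rcases lt_trichotomy i j with h5 | rfl | h5
        · have := h i i.lt_succ_self
          rw [φψ, update_of_ne h5.ne, update_self, not_not.1 h4] at this
          exact c_ne _ this.symm
        · have := congrFun (h i i.lt_succ_self) 0
          simp only [φψ, update_self, Pi.add_apply, Pi.one_apply] at this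
          omega
        · have := congrFun (h j (by omega)) 0
          simp only [φψ, update_self, update_of_ne h5.ne, Pi.add_apply, Pi.one_apply] at this
          omega
      rcases v3 (h2 (a := ψ (update x j (x j + c x + 1))) fun i hi => by
        rw [← h1 i hi, φψ, φψ, update_of_ne hi.ne]) with h | ⟨y, hy, h⟩
      · exact (h3 k).elim (fun h' => h' h) fun h' => h' hk
      obtain rfl := c_inj (hy.2.2.1.symm.trans a.2.2.1)
      rcases h with h | ⟨i, -, h4, h⟩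
      · have := congrFun (congrFun h j) 0
        simp only [φψ, update_self, Pi.add_apply, Pi.one_apply] at this
        omega
      · exact (h3 i).elim (fun h' => h' h) fun h' => h' h4
    rcases v2 with h | ⟨y, hy, h | ⟨j, h1, h2, h3⟩⟩
    · exact no _ _ h subset_union_left
    · rw [φψ] at h
      subst h
      exact ((key m).resolve_right fun h => h.1 hy.2.1).2 γ hy.2.2.2 (hy.2.2.1 ▸ c_ne _) v1
    · exact no _ _ h3 fun w hw => Or.inr ⟨y, hy, Or.inr ⟨j, h1, h2, hw⟩⟩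
  · push Not at hz
    obtain ⟨N, hN⟩ := hz
    obtain ⟨m, γ, v1, v2, v3⟩ := b1 (N + 1) x (ψ x) (Or.inl fun i _ => by rw [φψ])
    have a1 : N ≤ m := Nat.lt_succ_iff.1 (J_le (subset_union_left.trans (v3.trans (U_sub _ _))))
    have a2 : (∀ i < m + 1, x i = γ i) → False := fun h =>
      disjoint_left.1 hd (U_congr h ▸ ((key m).resolve_left fun h => hN m a1 h.1).2) v1
    rcases v2 with h | ⟨y, hy, h | ⟨j, h1, h2, h3⟩⟩
    · exact a2 (by simpa only [J, φψ, mem_setOf_eq] using h)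
    · rw [φψ] at h
      exact hN m a1 (h ▸ hy.2.1)
    · simp only [J, φψ, mem_setOf_eq] at h3
      rcases h1.eq_or_lt with rfl | h1
      · refine a2 fun i hi => (h3 i hi).trans ?_
        rcases (Nat.lt_succ_iff.1 hi).eq_or_lt with rfl | hi
        · rw [update_self, hy.2.2.1]
        · rw [update_of_ne hi.ne, hy.2.2.2 i hi]
      · exact hN m a1 ((h3 m (by omega)).trans ((update_of_ne h1.ne _ _).trans hy.2.1))

end Pool.Agent.H31.SF
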