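import Pool.Agent.H31.SGamDefs

set_option autoImplicit false

open Set Filter

namespace Pool.Agent.H31.SGam

variable {X : Type*} [TopologicalSpace X]

def G (W : Set X) : Prop := IsOpen W ∧ W ≠ univ

theorem O_iff [Infinite X] {n : ℕ} {𝒰 : Set (Set X)} : O (n + 1) 𝒰 ↔
    (∀ U ∈ 𝒰, G U) ∧ ∀ Y : Finset X, Y.card ≤ n + 1 → ∃ U ∈ 𝒰, (Y : Set X) ⊆ U := by
  refine ⟨fun h => ⟨fun U hU => ⟨h.1 U hU, fun h1 => h.2.2.1 (h1 ▸ hU)⟩, fun Y hY => ?_⟩,
    fun h => ⟨fun U hU => (h.1 U hU).1, eq_univ_of_forall fun x => ?_,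
      fun h1 => (h.1 _ h1).2 rfl, fun Y hY => h.2 Y hY.le⟩⟩
  · obtain ⟨Z, z1, z2⟩ := Infinite.exists_superset_card_eq Y (n + 1) hY
    obtain ⟨U, u1, u2⟩ := h.2.2.2 Z z2
    exact ⟨U, u1, (Finset.coe_subset.2 z1).trans u2⟩
  · obtain ⟨U, u1, u2⟩ := h.2 {x} (by simp)
    exact ⟨U, u1, u2 (by simp)⟩

def S1 (X : Type*) [TopologicalSpace X] : Prop :=
  ∀ 𝒰 : ℕ → Set (Set X), (∀ n, O (n + 1) (𝒰 n)) →
    ∃ U : ℕ → Set X, (∀ n, U n ∈ 𝒰 n) ∧ ∀ x, ∀ᶠ n in atTop, x ∈ U n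

theorem trick {Λ : Type*} {k : ℕ} {P : Λ → Set X → Prop}
    (h : ∀ Y : Finset X, Y.card ≤ k → ∃ l A, IsOpen A ∧ (Y : Set X) ⊆ A ∧ P l A) (Y' : Finset X) :
    ∃ W, IsOpen W ∧ (Y' : Set X) ⊆ W ∧ ∃ L : Set Λ, L.Finite ∧ ∀ Y : Finset X, Y.card ≤ k →
      (Y : Set X) ⊆ W → ∃ l ∈ L, ∃ A, IsOpen A ∧ (Y : Set X) ⊆ A ∧ P l A := by
  classical
  have : Nonempty Λ := ⟨(h ∅ (by simp)).choose⟩
  choose! l A a1 a2 a3 using h
  let N : X → Set X := fun y => ⋂ Z ∈ Y'.powerset.filter (fun Z => Z.card ≤ k ∧ y ∈ Z), A Z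
  refine ⟨⋃ y ∈ Y', N y, isOpen_biUnion fun y _ => isOpen_biInter_finset fun Z hZ =>
    a1 Z (Finset.mem_filter.1 hZ).2.1, fun y hy => mem_biUnion hy (mem_iInter₂.2 fun Z hZ =>
      a2 Z (Finset.mem_filter.1 hZ).2.1 (Finset.mem_filter.1 hZ).2.2),
    l '' Y'.powerset, (Finset.finite_toSet _).image _, fun Y h1 h2 => ?_⟩
  have : ∀ x ∈ Y, ∃ y, y ∈ Y' ∧ x ∈ N y := fun x hx => by simpa using h2 hx
  choose! f f1 f2 using this
  have h3 : (Y.image f).card ≤ k := Finset.card_image_le.trans h1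
  have h4 : Y.image f ∈ Y'.powerset := Finset.mem_powerset.2 (Finset.image_subset_iff.2 f1)
  exact ⟨_, ⟨Y.image f, h4, rfl⟩, _, a1 _ h3, fun x hx => mem_iInter₂.1 (f2 x hx) _
    (Finset.mem_filter.2 ⟨h4, h3, Finset.mem_image_of_mem f hx⟩), a3 _ h3⟩

theorem sel [Infinite X] (h : S1 X) (hH : ∀ Y : Finset X, ∃ U, G U ∧ (Y : Set X) ⊆ U)
    {Λ : Type*} {k : ℕ} {P : ℕ → Λ → Set X → Prop}
    (hP : ∀ j, ∀ Y : Finset X, Y.card ≤ k → ∃ l A, IsOpen A ∧ (Y : Set X) ⊆ A ∧ P j l A) :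
    ∃ L : ℕ → Set Λ, (∀ j, (L j).Finite) ∧ ∀ Y : Finset X, Y.card ≤ k → ∀ᶠ j in atTop,
      ∃ l ∈ L j, ∃ A, IsOpen A ∧ (Y : Set X) ⊆ A ∧ P j l A := by
  obtain ⟨W, w1, w2⟩ := h (fun j => {W | G W ∧ ∃ L : Set Λ, L.Finite ∧ ∀ Y : Finset X,
      Y.card ≤ k → (Y : Set X) ⊆ W → ∃ l ∈ L, ∃ A, IsOpen A ∧ (Y : Set X) ⊆ A ∧ P j l A})
    fun j => O_iff.2 ⟨fun _ h => h.1, fun Y _ => by
      obtain ⟨W, w1, w2, L, l1, l2⟩ := trick (hP j) Y
      obtain ⟨U, u1, u2⟩ := hH Y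
      exact ⟨W ∩ U, ⟨⟨w1.inter u1.1, fun h => u1.2 (univ_subset_iff.1
        (h ▸ inter_subset_right))⟩, L, l1, fun Z z1 z2 => l2 Z z1 (z2.trans inter_subset_left)⟩,
        subset_inter w2 u2⟩⟩
  choose L l1 l2 using fun j => (w1 j).2
  refine ⟨L, l1, fun Y hY => ?_⟩
  filter_upwards [(eventually_all_finset Y).2 fun x _ => w2 x] with j hj
  exact l2 j Y hY hj

theorem enum [Infinite X] (h : S1 X) (hH : ∀ Y : Finset X, ∃ U, G U ∧ (Y : Set X) ⊆ U) {n : ℕ}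
    {𝒰 : Set (Set X)} (h1 : O (n + 1) 𝒰) :
    ∃ e : ℕ → Set X, (∀ m, e m ∈ 𝒰) ∧ O (n + 1) (range e) := by
  obtain ⟨L, l1, l2⟩ := sel h hH (k := n + 1) (P := fun _ (U : 𝒰) A => A ⊆ U) fun _ Y hY => by
    obtain ⟨U, u1, u2⟩ := (O_iff.1 h1).2 Y hY
    exact ⟨⟨U, u1⟩, U, h1.1 U u1, u2, le_rfl⟩
  obtain ⟨j, U, hU, -⟩ := (l2 ∅ (by simp)).exists
  obtain ⟨e, he⟩ := (countable_iUnion fun j => (l1 j).countable).exists_eq_range
    ⟨U, mem_iUnion.2 ⟨j, hU⟩⟩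
  refine ⟨fun m => e m, fun m => (e m).2, O_iff.2 ⟨?_, fun Y hY => ?_⟩⟩
  · rintro _ ⟨m, rfl⟩
    exact (O_iff.1 h1).1 _ (e m).2
  · obtain ⟨j, U, u1, A, -, a1, a2⟩ := (l2 Y hY).exists
    obtain ⟨m, rfl⟩ := he.subset (mem_iUnion.2 ⟨j, u1⟩)
    exact ⟨_, ⟨m, rfl⟩, a1.trans a2⟩

def Path (T : List ℕ → ℕ → Set X) (A : Set X) : ℕ → List ℕ → List ℕ → Prop
  | 0, s, s' => s' = s
  | j + 1, s, s' => ∃ m, A ⊆ T s m ∧ Path T A j (m :: s) s'

omit [TopologicalSpace X] in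
theorem Path.mono {T : List ℕ → ℕ → Set X} {A B : Set X} (h : B ⊆ A) :
    ∀ {j : ℕ} {s s' : List ℕ}, Path T A j s s' → Path T B j s s'
  | 0, _, _, h' => h'
  | _ + 1, _, _, ⟨m, h1, h2⟩ => ⟨m, h.trans h1, h2.mono h⟩

omit [TopologicalSpace X] in
theorem Path.len {T : List ℕ → ℕ → Set X} {A : Set X} :
    ∀ {j : ℕ} {s s' : List ℕ}, Path T A j s s' → s'.length = s.length + j
  | 0, _, _, h' => by rw [show _ = _ from h']; rfl
  | _ + 1, _, _, ⟨m, _, h2⟩ => by rw [h2.len, List.length_cons]; omega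

theorem path_ex [Infinite X] {T : List ℕ → ℕ → Set X} (hT : ∀ s, O (s.length + 1) (range (T s)))
    (Y : Finset X) (j : ℕ) : ∀ s : List ℕ, Y.card ≤ s.length + 1 →
      ∃ s' A, IsOpen A ∧ (Y : Set X) ⊆ A ∧ Path T A j s s' := by
  induction j with
  | zero => exact fun s _ => ⟨s, univ, isOpen_univ, subset_univ _, rfl⟩
  | succ j ih =>
    intro s hs
    obtain ⟨_, ⟨m, rfl⟩, hm⟩ := (O_iff.1 (hT s)).2 Y hs
    obtain ⟨s', A, a1, a2, a3⟩ := ih (m :: s) (by rw [List.length_cons]; omega)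
    exact ⟨s', A ∩ T s m, a1.inter ((hT s).1 _ ⟨m, rfl⟩), subset_inter a2 hm, m,
      inter_subset_right, a3.mono inter_subset_left⟩

def Bd (r : ℕ) (s : List ℕ) : Prop := ∀ a ∈ s, a ≤ r

theorem bd_fin (k p : ℕ) : {s : List ℕ | s.length = k ∧ Bd p s}.Finite := by
  induction k with
  | zero => exact (finite_singleton []).subset fun t ht => List.length_eq_zero_iff.1 ht.1
  | succ k ih =>
    refine ((finite_Iic p).image2 List.cons ih).subset ?_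
    rintro (_ | ⟨a, t⟩) ⟨h1, h2⟩
    · simp at h1
    · exact ⟨a, h2 a (by simp), t, ⟨by simpa using h1, fun b hb => h2 b (by simp [hb])⟩, rfl⟩

def Good (T : List ℕ → ℕ → Set X) (k p j r : ℕ) (A : Set X) : Prop :=
  ∀ s : List ℕ, s.length = k → Bd p s → ∃ s', Path T A j s s' ∧ Bd r s'

theorem good_ex [Infinite X] {T : List ℕ → ℕ → Set X} (hT : ∀ s, O (s.length + 1) (range (T s)))
    (k p j : ℕ) (Y : Finset X) (hY : Y.card ≤ k + 1) :
    ∃ r A, IsOpen A ∧ (Y : Set X) ⊆ A ∧ Good T k p j r A := by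
  have : ∀ s : List ℕ, s.length = k → ∃ s' A, IsOpen A ∧ (Y : Set X) ⊆ A ∧ Path T A j s s' :=
    fun s hs => path_ex hT Y j s (hs ▸ hY)
  choose! f A a1 a2 a3 using this
  obtain ⟨r, hr⟩ := ((bd_fin k p).image fun s => (f s).sum).bddAbove
  refine ⟨r, ⋂ s ∈ {s : List ℕ | s.length = k ∧ Bd p s}, A s,
    (bd_fin k p).isOpen_biInter fun s hs => a1 s hs.1, subset_iInter₂ fun s hs => a2 s hs.1,
    fun s h1 h2 => ⟨f s, (a3 s h1).mono (biInter_subset_of_mem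
      (show s ∈ {s : List ℕ | s.length = k ∧ Bd p s} from ⟨h1, h2⟩)), fun a ha => ?_⟩⟩
  exact (List.le_sum_of_mem ha).trans (hr ⟨s, ⟨h1, h2⟩, rfl⟩)

theorem branch [Infinite X] (h : S1 X) (hH : ∀ Y : Finset X, ∃ U, G U ∧ (Y : Set X) ⊆ U)
    {T : List ℕ → ℕ → Set X} (hT : ∀ s, O (s.length + 1) (range (T s))) :
    ∃ (m : ℕ → ℕ) (pos : ℕ → List ℕ), pos 0 = [] ∧ (∀ k, pos (k + 1) = m k :: pos k) ∧
      ∀ x, ∀ᶠ k in atTop, x ∈ T (pos k) (m k) := by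
  choose L l1 l2 using fun k => sel h hH (k := k + 1) (P := fun j r A => Good T k j (j + 1) r A)
    fun j Y hY => good_ex hT k j (j + 1) Y hY
  have : ∀ D : ℕ, ∃ b, ∀ k ≤ D, ∀ j ≤ D, ∀ r ∈ L k j, r ≤ b := fun D => by
    obtain ⟨b, hb⟩ := ((finite_Iic D).biUnion fun k _ => (finite_Iic D).biUnion
      fun j _ => l1 k j).bddAbove
    exact ⟨b, fun k hk j hj r hr => hb (mem_biUnion hk (mem_biUnion hj hr))⟩
  choose φ hφ using this
  obtain ⟨W, w1, w2⟩ := h (fun k => {W | G W ∧ ∃ j, Good T k (φ k) (j + 1) (φ (k + (j + 1))) W})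
    fun k => O_iff.2 ⟨fun _ h => h.1, fun Y hY => by
      obtain ⟨j, j1, r, r1, A, a1, a2, a3⟩ := ((eventually_ge_atTop (φ k)).and (l2 k Y hY)).exists
      obtain ⟨U, u1, u2⟩ := hH Y
      refine ⟨A ∩ U, ⟨⟨a1.inter u1.1, fun h => u1.2 (univ_subset_iff.1
        (h ▸ inter_subset_right))⟩, j, fun s s1 s2 => ?_⟩, subset_inter a2 u2⟩
      obtain ⟨s', b1, b2⟩ := a3 s s1 fun a ha => (s2 a ha).trans j1
      exact ⟨s', b1.mono inter_subset_left, fun a ha => (b2 a ha).trans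
        (hφ _ k (by omega) j (by omega) r r1)⟩⟩
  choose J hJ using fun k => (w1 k).2
  let Inv : List ℕ × ℕ → Prop := fun p => ∃ j s', Path T (W p.2) (j + 1) p.1 s' ∧
    s'.length = p.2 + (J p.2 + 1) ∧ Bd (φ s'.length) s'
  have start : ∀ s : List ℕ, Bd (φ s.length) s → Inv (s, s.length) := fun s hs => by
    obtain ⟨s', b1, b2⟩ := hJ _ s rfl hs
    exact ⟨_, s', b1, b1.len, b1.len ▸ b2⟩
  have step : ∀ p : {p // Inv p}, ∃ (m : ℕ) (q : {p // Inv p}), W p.1.2 ⊆ T p.1.1 m ∧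
      q.1.1 = m :: p.1.1 := by
    rintro ⟨⟨s, k⟩, j, s', ⟨m, b1, b2⟩, b3, b4⟩
    rcases j with _ | j
    · obtain rfl : s' = m :: s := b2
      exact ⟨m, ⟨_, start _ b4⟩, b1, rfl⟩
    · exact ⟨m, ⟨(m :: s, k), j, s', b2, b3, b4⟩, b1, rfl⟩
  choose m q q1 q2 using step
  obtain ⟨u, u0, u1⟩ : ∃ u : ℕ → {p // Inv p}, (u 0).1.1 = [] ∧ ∀ n, u (n + 1) = q (u n) :=
    ⟨fun n => Nat.rec (motive := fun _ => {p // Inv p}) ⟨_, start [] fun _ h => by simp at h⟩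
      (fun _ p => q p) n, rfl, fun _ => rfl⟩
  have hl : ∀ n, (u n).1.1.length = n := fun n => by
    induction n with
    | zero => rw [u0]; rfl
    | succ n ih => rw [u1, q2, List.length_cons, ih]
  refine ⟨fun n => m (u n), fun n => (u n).1.1, u0, fun n => by simp only [u1, q2], fun x => ?_⟩
  obtain ⟨K, hK⟩ := eventually_atTop.1 (w2 x)
  obtain ⟨B, hB⟩ := ((finite_Iio K).image fun k => k + (J k + 1)).bddAbove
  filter_upwards [eventually_ge_atTop B] with n hn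
  refine q1 _ (hK _ (not_lt.1 fun hk => ?_))
  obtain ⟨j, s', b1, b2, -⟩ := (u n).2
  have := b1.len
  have := hB ⟨_, hk, rfl⟩
  have := hl n
  simp only at *
  omega

theorem total (h : S1 X) [Nonempty X] (σ : List (Set X) → Set (Set X))
    (hσ : ∀ l, O (l.length + 1) (σ l)) :
    ∃ U : ℕ → Set X, (∀ n, U n ∈ σ ((List.range n).map U)) ∧ ∀ x, ∀ᶠ n in atTop, x ∈ U n := by
  have : Infinite X := by
    by_contra h1
    have : Fintype X := fintypeOfNotInfinite h1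
    obtain ⟨n, hn⟩ := Nat.exists_eq_succ_of_ne_zero (Fintype.card_ne_zero (α := X))
    have h2 := hσ (List.replicate n ∅)
    obtain ⟨U, u1, u2⟩ := h2.2.2.2 Finset.univ (by simpa using hn)
    rw [Finset.coe_univ, univ_subset_iff] at u2
    exact h2.2.2.1 (u2 ▸ u1)
  have hH : ∀ Y : Finset X, ∃ U, G U ∧ (Y : Set X) ⊆ U := fun Y => by
    have h2 := O_iff.1 (hσ (List.replicate Y.card ∅))
    obtain ⟨U, u1, u2⟩ := h2.2 Y (by simp)
    exact ⟨U, h2.1 U u1, u2⟩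
  choose e e1 e2 using fun l => enum h hH (hσ l)
  obtain ⟨H, h0, h1⟩ : ∃ H : List ℕ → List (Set X), H [] = [] ∧
      ∀ a s, H (a :: s) = H s ++ [e (H s) a] :=
    ⟨fun s => List.rec (motive := fun _ => List (Set X)) [] (fun a _ b => b ++ [e b a]) s,
      rfl, fun _ _ => rfl⟩
  have hl : ∀ s, (H s).length = s.length := fun s => by
    induction s with
    | nil => rw [h0]; rfl
    | cons a s ih => rw [h1]; simp [ih]
  obtain ⟨m, pos, p0, p1, p2⟩ := branch h hH (T := fun s => e (H s)) fun s => hl s ▸ e2 _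
  have h2 : ∀ n, (List.range n).map (fun k => e (H (pos k)) (m k)) = H (pos n) := fun n => by
    induction n with
    | zero => rw [p0, h0]; rfl
    | succ n ih => rw [List.range_succ, List.map_append, ih, p1, h1]; rfl
  exact ⟨fun k => e (H (pos k)) (m k), fun n => by rw [h2]; exact e1 _ _, p2⟩

theorem game (h : S1 X) (σ : List (Set X) → Set (Set X))
    (hσ : ∀ (U : ℕ → Set X) (n : ℕ), (∀ k < n, U k ∈ σ ((List.range k).map U)) →
      O (n + 1) (σ ((List.range n).map U))) :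
    ∃ U : ℕ → Set X, (∀ n, U n ∈ σ ((List.range n).map U)) ∧ ∀ x, ∀ᶠ n in atTop, x ∈ U n := by
  classical
  rcases isEmpty_or_nonempty X with hX | hX
  · obtain ⟨U, u1, -⟩ := h (fun _ => ∅) fun n => ⟨fun _ h => h.elim, Subsingleton.elim _ _,
      fun h => h, fun Y hY => by rw [Finset.eq_empty_of_isEmpty Y] at hY; simp at hY⟩
    exact (u1 0).elim
  obtain ⟨l, l0, l1⟩ : ∃ l : ℕ → List (Set X), l 0 = [] ∧
      ∀ n, l (n + 1) = l n ++ [Classical.epsilon (· ∈ σ (l n))] :=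
    ⟨fun n => Nat.rec (motive := fun _ => List (Set X)) []
      (fun _ b => b ++ [Classical.epsilon (· ∈ σ b)]) n, rfl, fun _ => rfl⟩
  have h2 : ∀ n, (List.range n).map (fun k => Classical.epsilon (· ∈ σ (l k))) = l n := fun n => by
    induction n with
    | zero => rw [l0]; rfl
    | succ n ih => rw [List.range_succ, List.map_append, ih, l1]; rfl
  have h3 : ∀ n, O (n + 1) (σ (l n)) := fun n => by
    induction n using Nat.strong_induction_on with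
    | _ n ih =>
      rw [← h2]
      refine hσ _ n fun k hk => ?_
      rw [h2]
      obtain ⟨U, u1, -⟩ := (ih k hk).2.1.superset (mem_univ (Classical.arbitrary X))
      exact Classical.epsilon_spec (p := (· ∈ σ (l k))) ⟨U, u1⟩
  obtain ⟨U, u1, u2⟩ := total h (fun t => if O (t.length + 1) (σ t) then σ t else σ (l t.length))
    fun t => by
      split_ifs with h1
      exacts [h1, h3 _]
  refine ⟨U, fun n => ?_, u2⟩
  induction n using Nat.strong_induction_on with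
  | _ n ih =>
    have := u1 n
    rwa [if_pos (by simpa using hσ U n ih)] at this

end Pool.Agent.H31.SGam
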