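import Mathlib

set_option autoImplicit false

namespace Pool.Agent.H31.SGam

/-- open n-covers not having the whole space as a member -/
def O {X : Type*} [TopologicalSpace X] (n : ℕ) (𝒰 : Set (Set X)) : Prop :=
  (∀ U ∈ 𝒰, IsOpen U) ∧ ⋃₀ 𝒰 = Set.univ ∧ Set.univ ∉ 𝒰 ∧
    ∀ Y : Finset X, Y.card = n → ∃ U ∈ 𝒰, (Y : Set X) ⊆ U

end Pool.Agent.H31.SGam
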