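import Mathlib

set_option autoImplicit false

open Filter Topology Set

namespace Pool.Agent.H31.SGroup

def a : ℕ → ℕ
  | 0 => 1
  | t + 1 => (t + 1).factorial * ((t + 2) ^ 2 * a t) + 1

theorem a_pos (t : ℕ) : 0 < a t := by cases t <;> simp [a]

theorem a_grow (t : ℕ) : (t + 2) ^ 2 * a t ≤ a (t + 1) := by
  have := Nat.le_mul_of_pos_left ((t + 2) ^ 2 * a t) (Nat.factorial_pos (t + 1))
  simp only [a]
  omega

theorem a_mod (n : ℤ) (hn : n ≠ 0) (t : ℕ) (ht : n.natAbs ≤ t + 1) : n ∣ (a (t + 1) : ℤ) - 1 := by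
  have h1 : n.natAbs ∣ (t + 1).factorial := Nat.dvd_factorial (Int.natAbs_pos.2 hn) ht
  have h2 : n ∣ ((t + 1).factorial : ℤ) := Int.natAbs_dvd.1 (Int.natCast_dvd_natCast.2 h1)
  simp only [a]
  push_cast
  rw [add_sub_cancel_right]
  exact h2.mul_right _

theorem exists_theta (c : ℕ → ℝ) :
    ∃ θ : ℝ, ∀ t, ∃ k : ℤ, |θ * a t - c t - k| ≤ 2 / ((t : ℝ) + 2) ^ 2 := by
  obtain ⟨u, -, hu⟩ : ∃ u : ℕ → ℝ, u 0 = 0 ∧
      ∀ t, u (t + 1) = u t + Int.fract (c t - u t * a t) / a t :=
    ⟨fun n => Nat.rec (motive := fun _ => ℝ) 0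
      (fun t x => x + Int.fract (c t - x * a t) / a t) n, rfl, fun _ => rfl⟩
  have ap : ∀ t, (0 : ℝ) < a t := fun t => by exact_mod_cast a_pos t
  have ag : ∀ t : ℕ, ((t : ℝ) + 2) ^ 2 * a t ≤ a (t + 1) := fun t => by exact_mod_cast a_grow t
  have mono : Monotone u := monotone_nat_of_le_succ fun t => by
    rw [hu]
    have := div_nonneg (Int.fract_nonneg (c t - u t * a t)) (ap t).le
    linarith
  have anti : Antitone fun t => u t + 2 / a t := antitone_nat_of_succ_le fun t => by
    have h1 : Int.fract (c t - u t * a t) / a t ≤ 1 / a t :=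
      div_le_div_of_nonneg_right (Int.fract_lt_one _).le (ap t).le
    have h2 : (2 : ℝ) / a (t + 1) ≤ 1 / a t := by
      rw [div_le_div_iff₀ (ap _) (ap _)]
      have := ag t
      have h3 : (2 : ℝ) ≤ ((t : ℝ) + 2) ^ 2 := by
        have : (0 : ℝ) ≤ t := Nat.cast_nonneg t
        nlinarith
      nlinarith [ap t]
    have h3 : (2 : ℝ) / a t = 1 / a t + 1 / a t := by ring
    show u (t + 1) + 2 / a (t + 1) ≤ u t + 2 / a t
    rw [hu]
    linarith
  have hle : ∀ s t, u s ≤ u t + 2 / a t := by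
    intro s t
    have h1 := mono (le_max_left s t)
    have h2 := anti (le_max_right s t)
    have h3 : (0 : ℝ) < 2 / a (max s t) := div_pos two_pos (ap _)
    simp only at h2
    linarith
  have bdd : BddAbove (range u) := ⟨_, forall_mem_range.2 fun s => hle s 0⟩
  refine ⟨⨆ s, u s, fun t => ⟨-⌊c t - u t * a t⌋, ?_⟩⟩
  have h1 : u (t + 1) ≤ ⨆ s, u s := le_ciSup bdd _
  have h2 : ⨆ s, u s ≤ u (t + 1) + 2 / a (t + 1) := ciSup_le fun s => hle s _
  have h3 : u (t + 1) * a t = c t - ⌊c t - u t * a t⌋ := by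
    rw [hu, add_mul, div_mul_cancel₀ _ (ap t).ne', Int.fract]
    ring
  have h4 : 2 / a (t + 1) * (a t : ℝ) ≤ 2 / ((t : ℝ) + 2) ^ 2 := by
    rw [div_mul_eq_mul_div, div_le_div_iff₀ (ap _) (by positivity)]
    nlinarith [ag t]
  have h5 : (⨆ s, u s) * a t - c t - ((-⌊c t - u t * a t⌋ : ℤ) : ℝ) =
      ((⨆ s, u s) - u (t + 1)) * a t := by
    push_cast
    linarith
  rw [h5, abs_of_nonneg (mul_nonneg (by linarith) (ap t).le)]
  refine le_trans (mul_le_mul_of_nonneg_right ?_ (ap t).le) h4
  linarith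

def G : Type := Multiplicative ℤ

instance : CommGroup G := inferInstanceAs (CommGroup (Multiplicative ℤ))
instance : Countable G := inferInstanceAs (Countable ℤ)

def mk (n : ℤ) : G := Multiplicative.ofAdd n
def val (g : G) : ℤ := Multiplicative.toAdd g

theorem val_mul (g h : G) : val (g * h) = val g + val h := rfl
theorem val_one : val 1 = 0 := rfl
theorem val_mk (n : ℤ) : val (mk n) = n := rfl
theorem val_inj : Function.Injective val := fun _ _ h => h
theorem val_inv (g : G) : val g⁻¹ = - val g := rfl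
theorem val_zpow (g : G) (n : ℤ) : val (g ^ n) = n * val g := by
  have : Multiplicative.toAdd ((show Multiplicative ℤ from g) ^ n) = n • val g := toAdd_zpow _ _
  rw [← smul_eq_mul]
  exact this
theorem val_pow (g : G) (n : ℕ) : val (g ^ n) = n * val g := by
  rw [← zpow_natCast, val_zpow]

def j (p : ℕ) : ℕ := p.unpair.1
def x (p : ℕ) : G := mk (a (2 * p))
def y (p : ℕ) : G := mk (a (2 * p + 1))
def b (p : ℕ) : G := x p * y p ^ j p

def Good (t : TopologicalSpace G) : Prop :=
  @IsTopologicalGroup G t _ ∧ Tendsto x (comap j atTop) (@nhds G t 1) ∧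
    Tendsto y atTop (@nhds G t 1)

instance : TopologicalSpace G := sInf {t | Good t}

instance : IsTopologicalGroup G := topologicalGroup_sInf fun _ ht => ht.1

theorem x_tendsto : Tendsto x (comap j atTop) (𝓝 1) := by
  show Tendsto x _ (@nhds G (sInf {t | Good t}) 1)
  rw [nhds_sInf]
  exact tendsto_iInf.2 fun t => tendsto_iInf.2 fun ht => ht.2.1

theorem y_tendsto : Tendsto y atTop (𝓝 1) := by
  show Tendsto y _ (@nhds G (sInf {t | Good t}) 1)
  rw [nhds_sInf]
  exact tendsto_iInf.2 fun t => tendsto_iInf.2 fun ht => ht.2.2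

theorem cont_of {H : Type} [Group H] [tH : TopologicalSpace H] [IsTopologicalGroup H]
    (f : G →* H) (hx : Tendsto (f ∘ x) (comap j atTop) (𝓝 1))
    (hy : Tendsto (f ∘ y) atTop (𝓝 1)) : Continuous f := by
  rw [continuous_iff_le_induced]
  refine sInf_le ⟨topologicalGroup_induced f, ?_, ?_⟩
  · rw [nhds_induced, tendsto_comap_iff, map_one]
    exact hx
  · rw [nhds_induced, tendsto_comap_iff, map_one]
    exact hy

theorem sgroup (H : Type) [Group H] [TopologicalSpace H] [IsTopologicalGroup H]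
    (f : G →* H) (hf : SeqContinuous f) : Continuous f := by
  refine cont_of f (tendsto_of_seq_tendsto fun u hu => ?_) ?_
  · have := hf (x_tendsto.comp hu)
    rw [map_one] at this
    exact this
  · have := hf y_tendsto
    rw [map_one] at this
    exact this

theorem closed_sub (K : Subgroup G) (hK : IsClosed (K : Set G)) : K = ⊥ ∨ K = ⊤ := by
  rcases K.bot_or_exists_ne_one with h | ⟨g, hg, hg1⟩
  · exact Or.inl h
  right
  have hn : val g ≠ 0 := fun h => hg1 (val_inj h)
  have h1 : mk 1 ∈ (K : Set G) := by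
    have ht : Tendsto (fun p => mk 1 * (y p)⁻¹) atTop (𝓝 (mk 1)) := by
      have := (y_tendsto.inv).const_mul (mk 1)
      rwa [inv_one, mul_one] at this
    refine hK.mem_of_tendsto ht (eventually_atTop.2 ⟨(val g).natAbs, fun p hp => ?_⟩)
    obtain ⟨k, hk⟩ := a_mod (val g) hn (2 * p) (by omega)
    have : mk 1 * (y p)⁻¹ = g ^ (-k) := by
      apply val_inj
      rw [val_mul, val_inv, val_zpow, val_mk, y, val_mk]
      linarith
    rw [this]
    exact K.zpow_mem hg _
  rw [eq_top_iff]
  intro h _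
  have : h = mk 1 ^ val h := by
    apply val_inj
    rw [val_zpow, val_mk, mul_one]
  rw [this]
  exact K.zpow_mem h1 _

noncomputable def chi (θ : ℝ) : G →* Multiplicative UnitAddCircle where
  toFun g := Multiplicative.ofAdd ((θ * val g : ℝ) : UnitAddCircle)
  map_one' := by simp [val_one]
  map_mul' g h := by
    rw [val_mul, ← ofAdd_add, ← AddCircle.coe_add]
    push_cast
    rw [mul_add]

noncomputable def ch (θ : ℝ) (g : G) : UnitAddCircle := ((θ * val g : ℝ) : UnitAddCircle)

theorem coe_int (k : ℤ) : (((k : ℝ)) : UnitAddCircle) = 0 := by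
  rw [AddCircle.coe_eq_zero_iff]
  exact ⟨k, by simp⟩

theorem tendsto_circ {α : Type} {l : Filter α} {f : α → ℝ} {k : α → ℤ} {r : ℝ}
    (h : Tendsto (fun i => f i - k i) l (𝓝 r)) :
    Tendsto (fun i => (f i : UnitAddCircle)) l (𝓝 (r : UnitAddCircle)) := by
  have := ((AddCircle.continuous_mk' (1 : ℝ)).tendsto r).comp h
  refine this.congr fun i => ?_
  show ((f i - k i : ℝ) : UnitAddCircle) = _
  rw [AddCircle.coe_sub, coe_int, sub_zero]

theorem j_le (p : ℕ) : j p ≤ p := Nat.unpair_left_le p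

theorem comap_le : comap j atTop ≤ (atTop : Filter ℕ) :=
  tendsto_atTop_mono j_le tendsto_comap

theorem exists_char (cx cy : ℕ → ℝ) (hx : Tendsto cx (comap j atTop) (𝓝 0))
    (hy : Tendsto cy atTop (𝓝 0)) :
    ∃ θ : ℝ, Continuous (ch θ) ∧ (∃ k : ℤ, |θ * a 0 - cx 0 - k| ≤ 2 / 4) ∧
      (∃ k : ℤ, |θ * a 1 - cy 0 - k| ≤ 2 / 9) ∧
      ∃ k : ℕ → ℤ, Tendsto (fun p => θ * val (b p) - (cx p + j p * cy p) - k p) atTop (𝓝 0) := by
  obtain ⟨θ, hθ⟩ := exists_theta fun t => if t % 2 = 0 then cx (t / 2) else cy (t / 2)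
  choose k hk using hθ
  have h0 : Tendsto (fun p : ℕ => 1 / ((p : ℝ) + 1)) atTop (𝓝 0) :=
    tendsto_one_div_add_atTop_nhds_zero_nat
  have ex : ∀ p, |θ * a (2 * p) - cx p - k (2 * p)| ≤ 1 / ((p : ℝ) + 1) := by
    intro p
    have := hk (2 * p)
    rw [if_pos (by omega), show 2 * p / 2 = p by omega] at this
    refine this.trans ?_
    have : (0 : ℝ) ≤ p := Nat.cast_nonneg p
    rw [div_le_div_iff₀ (by positivity) (by positivity)]
    push_cast
    nlinarith
  have ey : ∀ p : ℕ, ((p : ℝ) + 1) * |θ * a (2 * p + 1) - cy p - k (2 * p + 1)| ≤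
      1 / ((p : ℝ) + 1) := by
    intro p
    have := hk (2 * p + 1)
    rw [if_neg (by omega), show (2 * p + 1) / 2 = p by omega] at this
    have h1 : (0 : ℝ) ≤ p := Nat.cast_nonneg p
    refine (mul_le_mul_of_nonneg_left this (by positivity)).trans ?_
    rw [← mul_div_assoc, div_le_div_iff₀ (by positivity) (by positivity)]
    push_cast
    nlinarith
  have tx : Tendsto (fun p => θ * a (2 * p) - cx p - k (2 * p)) atTop (𝓝 0) :=
    squeeze_zero_norm ex h0
  have ty : Tendsto (fun p => θ * a (2 * p + 1) - cy p - k (2 * p + 1)) atTop (𝓝 0) := by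
    refine squeeze_zero_norm (fun p => le_trans ?_ (ey p)) h0
    have h1 : (0 : ℝ) ≤ p := Nat.cast_nonneg p
    rw [Real.norm_eq_abs]
    nlinarith [abs_nonneg (θ * a (2 * p + 1) - cy p - k (2 * p + 1))]
  have tj : Tendsto (fun p => (j p : ℝ) * (θ * a (2 * p + 1) - cy p - k (2 * p + 1))) atTop
      (𝓝 0) := by
    refine squeeze_zero_norm (fun p => le_trans ?_ (ey p)) h0
    have h1 : (j p : ℝ) ≤ p := by exact_mod_cast j_le p
    rw [Real.norm_eq_abs, abs_mul, Nat.abs_cast]
    exact mul_le_mul_of_nonneg_right (by linarith) (abs_nonneg _)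
  refine ⟨θ, ?_, ⟨k 0, ?_⟩, ⟨k 1, ?_⟩, fun p => k (2 * p) + j p * k (2 * p + 1), ?_⟩
  · have : Continuous (chi θ) := by
      refine cont_of _ ?_ ?_
      · have h1 := (tx.mono_left comap_le).add hx
        rw [add_zero] at h1
        have h2 : Tendsto (fun p => θ * a (2 * p) - k (2 * p)) (comap j atTop) (𝓝 0) :=
          h1.congr fun p => by ring
        exact tendsto_circ h2
      · have h1 := ty.add hy
        rw [add_zero] at h1
        have h2 : Tendsto (fun p => θ * a (2 * p + 1) - k (2 * p + 1)) atTop (𝓝 0) :=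
          h1.congr fun p => by ring
        exact tendsto_circ h2
    exact this
  · have := hk 0
    norm_num at this ⊢
    exact this
  · have := hk 1
    norm_num at this ⊢
    exact this
  · have h1 := tx.add tj
    rw [add_zero] at h1
    refine h1.congr fun p => ?_
    rw [b, val_mul, val_pow, x, y, val_mk, val_mk]
    push_cast
    ring

theorem half_ne : (((1 / 2 : ℝ)) : UnitAddCircle) ≠ ((0 : ℝ) : UnitAddCircle) := by
  intro h
  rw [AddCircle.coe_zero, AddCircle.coe_eq_zero_iff] at h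
  obtain ⟨k, hk⟩ := h
  have h1 : ((2 * k : ℤ) : ℝ) = 1 := by
    push_cast
    simp only [zsmul_eq_mul, mul_one] at hk
    linarith
  have h2 : 2 * k = 1 := by exact_mod_cast h1
  omega

instance : T2Space G := by
  obtain ⟨θ, hc, -, ⟨k, hk⟩, -⟩ := exists_char (fun _ => 0) (fun p => if p = 0 then 1 / 2 else 0)
    tendsto_const_nhds (tendsto_const_nhds.congr' (eventually_atTop.2 ⟨1, fun p hp => by
      show (0 : ℝ) = if p = 0 then 1 / 2 else 0
      rw [if_neg (by omega)]⟩))
  have hc' : Continuous (chi θ) := hc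
  have hcl : IsClosed ((chi θ).ker : Set G) := isClosed_singleton.preimage hc'
  rcases closed_sub _ hcl with h | h
  · exact T2Space.of_injective_continuous ((MonoidHom.ker_eq_bot_iff _).1 h) hc'
  · exfalso
    have h1 : y 0 ∈ (chi θ).ker := h ▸ Subgroup.mem_top _
    have h2 : ((θ * a 1 : ℝ) : UnitAddCircle) = 0 := h1
    rw [AddCircle.coe_eq_zero_iff] at h2
    obtain ⟨m, hm⟩ := h2
    simp only [zsmul_eq_mul, mul_one, if_true] at hm hk
    rw [← hm, abs_le] at hk
    have h3 : (0 : ℝ) < ((m - k : ℤ) : ℝ) := by push_cast; linarith [hk.1]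
    have h4 : ((m - k : ℤ) : ℝ) < 1 := by push_cast; linarith [hk.2]
    have h5 : 0 < m - k := by exact_mod_cast h3
    have h6 : m - k < 1 := by exact_mod_cast h4
    omega

theorem final (q : ℕ → ℕ) (hq : StrictMono q) (g : G) (hg : Tendsto (b ∘ q) atTop (𝓝 g))
    (cx cy : ℕ → ℝ) (hx : Tendsto cx (comap j atTop) (𝓝 0)) (hy : Tendsto cy atTop (𝓝 0))
    (h1 : ∀ᶠ n in atTop, cx (q (2 * n)) + j (q (2 * n)) * cy (q (2 * n)) = 1 / 2)
    (h2 : ∀ n, cx (q (2 * n + 1)) + j (q (2 * n + 1)) * cy (q (2 * n + 1)) = 0) : False := by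
  obtain ⟨θ, hc, -, -, k, hk⟩ := exists_char cx cy hx hy
  have e : Tendsto (fun n : ℕ => 2 * n) atTop atTop :=
    tendsto_atTop_mono (fun n => by simp only [id]; omega) tendsto_id
  have o : Tendsto (fun n : ℕ => 2 * n + 1) atTop atTop :=
    tendsto_atTop_mono (fun n => by simp only [id]; omega) tendsto_id
  have t := (hc.tendsto g).comp hg
  have t1 : Tendsto (fun n => θ * val (b (q (2 * n))) - k (q (2 * n))) atTop (𝓝 (1 / 2)) := by
    have := ((hk.comp hq.tendsto_atTop).comp e).add_const (1 / 2)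
    rw [zero_add] at this
    refine this.congr' ?_
    filter_upwards [h1] with n hn
    simp only [Function.comp]
    rw [hn]
    ring
  have t2 : Tendsto (fun n => θ * val (b (q (2 * n + 1))) - k (q (2 * n + 1))) atTop (𝓝 0) := by
    refine ((hk.comp hq.tendsto_atTop).comp o).congr fun n => ?_
    simp only [Function.comp]
    rw [h2]
    ring
  have u1 := tendsto_nhds_unique (tendsto_circ t1) (t.comp e)
  have u2 := tendsto_nhds_unique (tendsto_circ t2) (t.comp o)
  exact half_ne (u1.trans u2.symm)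

theorem seqClosed : IsSeqClosed (range b) := by
  classical
  intro u g hu hg
  by_contra hb
  choose p hp using hu
  have hp' : Tendsto p atTop atTop := by
    refine tendsto_atTop.2 fun N => ?_
    have : ∀ᶠ n in atTop, ∀ i ∈ Finset.range N, u n ≠ b i := by
      refine (Finset.eventually_all _).2 fun i _ => hg.eventually_ne fun h => hb ⟨i, h.symm⟩
    filter_upwards [this] with n hn
    by_contra h
    exact hn (p n) (Finset.mem_range.2 (not_le.1 h)) (hp n).symm
  obtain ⟨φ, hφ, hq⟩ := strictMono_subseq_of_tendsto_atTop hp'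
  have hg1 : Tendsto (b ∘ (p ∘ φ)) atTop (𝓝 g) :=
    (hg.comp hφ.tendsto_atTop).congr fun n => (hp _).symm
  generalize p ∘ φ = q at hq hg1
  have hodd : ∀ q : ℕ → ℕ, StrictMono q → ∀ n, q (2 * n + 1) ∉ range fun m => q (2 * m) := by
    rintro q hq n ⟨m, hm⟩
    have := hq.injective hm
    omega
  by_cases hc : Tendsto (fun n => j (q n)) atTop atTop
  · refine final q hq g hg1 (fun _ => 0)
      (fun r => if r ∈ range fun m => q (2 * m) then 1 / (2 * (j r : ℝ)) else 0)
      tendsto_const_nhds ?_ ?_ fun n => by simp only [if_neg (hodd q hq n)]; simp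
    · have h1 : Tendsto (fun n => 1 / (2 * (j (q n) : ℝ))) atTop (𝓝 0) :=
        tendsto_const_nhds.div_atTop
          ((tendsto_natCast_atTop_atTop.comp hc).const_mul_atTop two_pos)
      intro U hU
      obtain ⟨N, hN⟩ := eventually_atTop.1 (h1 hU)
      refine eventually_atTop.2 ⟨q N, fun r hr => ?_⟩
      show (if r ∈ range fun m => q (2 * m) then 1 / (2 * (j r : ℝ)) else 0) ∈ U
      split_ifs with h
      · obtain ⟨m, rfl⟩ := h
        exact hN _ (hq.le_iff_le.1 hr)
      · exact mem_of_mem_nhds hU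
    · obtain ⟨N, hN⟩ := eventually_atTop.1 (tendsto_atTop.1 hc 1)
      refine eventually_atTop.2 ⟨N, fun n hn => ?_⟩
      have h1 : (1 : ℝ) ≤ j (q (2 * n)) := by exact_mod_cast hN (2 * n) (by omega)
      simp only [if_pos (mem_range_self (f := fun m => q (2 * m)) n)]
      field_simp
      ring
  · rw [tendsto_atTop] at hc
    obtain ⟨M, hM⟩ := not_forall.1 hc
    obtain ⟨ψ, hψ, hψ'⟩ := extraction_of_frequently_atTop (not_eventually.1 hM)
    have hq' := hq.comp hψ
    refine final (q ∘ ψ) hq' g (hg1.comp hψ.tendsto_atTop)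
      (fun r => if r ∈ range fun m => (q ∘ ψ) (2 * m) then 1 / 2 else 0) (fun _ => 0)
      ?_ tendsto_const_nhds (Eventually.of_forall fun n => ?_)
      fun n => by simp only [if_neg (hodd _ hq' n)]; simp
    · refine tendsto_const_nhds.congr' ?_
      have : ∀ᶠ r in comap j atTop, M ≤ j r := tendsto_comap.eventually (eventually_ge_atTop M)
      filter_upwards [this] with r hr
      rw [if_neg]
      rintro ⟨m, rfl⟩
      exact hψ' _ hr
    · simp only [if_pos (mem_range_self (f := fun m => (q ∘ ψ) (2 * m)) n)]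
      simp

theorem one_closure : (1 : G) ∈ closure (range b) := by
  rw [mem_closure_iff_nhds]
  intro U hU
  obtain ⟨V, hV, hVU⟩ := exists_nhds_one_split hU
  obtain ⟨s, hs, hs'⟩ := mem_comap.1 (x_tendsto hV)
  obtain ⟨J, hJ⟩ := mem_atTop_sets.1 hs
  have h1 : Tendsto (fun i => Nat.pair J i) atTop atTop :=
    tendsto_atTop_mono (fun i => Nat.right_le_pair J i) tendsto_id
  have h2 := (y_tendsto.comp h1).pow J
  rw [one_pow] at h2
  obtain ⟨i, hi⟩ := (h2.eventually hV).exists
  have hj : j (Nat.pair J i) = J := by simp [j]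
  refine ⟨b (Nat.pair J i), ?_, mem_range_self _⟩
  refine hVU _ (hs' (hJ _ hj.ge)) _ ?_
  rw [hj]
  exact hi

theorem not_seq : ¬ SequentialSpace G := by
  intro h
  have h1 := seqClosed.isClosed.closure_subset one_closure
  obtain ⟨p, hp⟩ := h1
  have h2 := congrArg val hp
  rw [b, val_mul, val_pow, x, y, val_mk, val_mk, val_one] at h2
  have h3 := a_pos (2 * p)
  have h4 : (0 : ℤ) ≤ j p * a (2 * p + 1) := by positivity
  omega

theorem sub_sgroup (K : Subgroup G) (hK : IsClosed (K : Set G)) (H : Type) [Group H]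
    [TopologicalSpace H] [IsTopologicalGroup H] (f : K →* H) (hf : SeqContinuous f) :
    Continuous f := by
  rcases closed_sub K hK with rfl | rfl
  · exact continuous_of_discreteTopology
  · let i : G →* (⊤ : Subgroup G) := (MonoidHom.id G).codRestrict ⊤ fun _ => trivial
    have hi : Continuous i := continuous_id.subtype_mk _
    have h1 := sgroup H (f.comp i) (fun u g hu => hf ((hi.tendsto g).comp hu))
    exact h1.comp continuous_subtype_val

end Pool.Agent.H31.SGroup
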