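import Mathlib

set_option autoImplicit false

open Set Function Filter Topology Cardinal

namespace Pool.Agent.H31.SP

/-- the field with two elements -/
abbrev F : Type := ZMod 2

theorem F_eq : ∀ x y : F, (x ≠ 0 ↔ y ≠ 0) → x = y := by decide

theorem count {α β : Type} {s : Set α} {t : Set β} (ht : t.Finite) (f : α → β → F)
    (h : ∀ a ∈ s, ∀ a' ∈ s, (∀ b ∈ t, f a b = f a' b) → a = a') :
    s.Finite ∧ s.ncard ≤ 2 ^ t.ncard := by
  have h1 : MapsTo (fun a => {b ∈ t | f a b ≠ 0}) s (𝒫 t) := fun a _ => sep_subset _ _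
  have h2 : InjOn (fun a => {b ∈ t | f a b ≠ 0}) s := fun a ha a' ha' e => h a ha a' ha' fun b hb =>
    F_eq _ _ (by simpa [hb] using Set.ext_iff.1 e b)
  exact ⟨.of_injOn h1 h2 ht.powerset,
    (ncard_le_ncard_of_injOn _ h1 h2 ht.powerset).trans (ncard_powerset _ ht).le⟩

theorem kill {ι : Type} (L : (ℕ →₀ F) →ₗ[F] (ι →₀ F)) (hL : Injective L) (Λ : Set ι) (ℓ : ι → ℕ)
    (D : ℕ → ℕ) (hD : ∀ n, {b ∈ Λ | ℓ b < n}.Finite ∧ {b ∈ Λ | ℓ b < n}.ncard ≤ D n) :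
    ∃ (τ : ℕ → ℕ) (R : ℕ → Set ι), (∀ n, (R n).Finite ∧ (R n).ncard ≤ 2 ^ 2 ^ D n) ∧
      ∀ a : ℕ →₀ F, a ≠ 0 → (∀ b, L a b ≠ 0 → b ∈ Λ) →
        ∃ b, L a b ≠ 0 ∧ (b ∈ R (ℓ b) ∨ ∃ m, a m ≠ 0 ∧ τ m = ℓ b) := by
  classical
  have h1 : ∀ a : {a : ℕ →₀ F // a ≠ 0}, ∃ m, a.1 m ≠ 0 := fun a => DFunLike.ne_iff.1 a.2
  have h2 : ∀ a : {a : ℕ →₀ F // a ≠ 0}, ∃ b, L a b ≠ 0 ∧ ∀ b', L a b' ≠ 0 → ℓ b' ≤ ℓ b := fun a => by
    simpa using (L a).support.exists_max_image ℓ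
      (Finsupp.support_nonempty_iff.2 fun h => a.2 (hL (h.trans L.map_zero.symm)))
  choose pk hpk using h1
  choose mx mx1 mx2 using h2
  let C : ℕ → Set {a : ℕ →₀ F // a ≠ 0} := fun n => {a | ∀ b, L a b ≠ 0 → b ∈ Λ ∧ ℓ b < n}
  have c1 : ∀ n, (C n).Finite ∧ (C n).ncard ≤ 2 ^ D n := fun n => by
    refine (count (hD n).1 (fun a b => L a.1 b) fun a ha a' ha' e => ?_).imp_right
      fun h => h.trans (Nat.pow_le_pow_right two_pos (hD n).2)
    refine Subtype.ext (hL (Finsupp.ext fun b => F_eq _ _ ⟨fun h => ?_, fun h => ?_⟩))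
    exacts [e b (ha b h) ▸ h, (e b (ha' b h)).symm ▸ h]
  have c2 : Monotone C := fun m n h a ha b hb => ⟨(ha b hb).1, (ha b hb).2.trans_le h⟩
  let K : ℕ → Set {a : ℕ →₀ F // a ≠ 0} := fun n =>
    {a ∈ C (n + 1) | ∀ m ∈ pk '' C (n + 1), m ∉ pk '' C n → a.1 m = 0}
  have k1 : ∀ n, (K n).Finite ∧ (K n).ncard ≤ 2 ^ 2 ^ D n := fun n => by
    refine (count ((c1 n).1.image pk) (fun a m => a.1 m) fun a ha a' ha' e => ?_).imp_right
      fun h => h.trans (Nat.pow_le_pow_right two_pos ((ncard_image_le (c1 n).1).trans (c1 n).2))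
    refine Subtype.ext (sub_eq_zero.1 (by_contra fun h => hpk ⟨_, h⟩ ?_))
    have h3 : (⟨_, h⟩ : {a : ℕ →₀ F // a ≠ 0}) ∈ C (n + 1) := fun b hb => by
      by_cases h4 : L a.1 b = 0
      · exact ha'.1 b fun h5 => hb (by simp [h4, h5])
      · exact ha.1 b h4
    by_cases h4 : pk ⟨_, h⟩ ∈ pk '' C n
    · exact sub_eq_zero.2 (e _ h4)
    · exact sub_eq_zero.2 ((ha.2 _ ⟨_, h3, rfl⟩ h4).trans (ha'.2 _ ⟨_, h3, rfl⟩ h4).symm)
  refine ⟨fun m => if h : ∃ n, m ∈ pk '' C (n + 1) then Nat.find h else 0, fun n => mx '' K n,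
    fun n => ⟨(k1 n).1.image _, (ncard_image_le (k1 n).1).trans (k1 n).2⟩, fun a ha h => ?_⟩
  refine ⟨mx ⟨a, ha⟩, mx1 ⟨a, ha⟩, or_iff_not_imp_right.2 fun h' => ⟨⟨a, ha⟩, ⟨fun b hb =>
    ⟨h b hb, Nat.lt_succ_of_le (mx2 ⟨a, ha⟩ b hb)⟩, fun m h3 h4 => by_contra fun h5 => h' ⟨m, h5, ?_⟩⟩, rfl⟩⟩
  beta_reduce
  rw [dif_pos ⟨_, h3⟩, Nat.find_eq_iff]
  exact ⟨h3, fun k hk h6 => h4 (image_mono (c2 hk) h6)⟩

theorem func {ι : Type} (L : (ℕ →₀ F) →ₗ[F] (ι →₀ F)) (P : Set ℕ) (B : Set ι)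
    (h : ∀ a : ℕ →₀ F, (∀ m, a m ≠ 0 → m ∈ P) → (∀ b, L a b ≠ 0 → b ∈ B) → a = 0) :
    ∃ Φ : (ι →₀ F) →ₗ[F] F, (∀ m ∈ P, Φ (L (Finsupp.single m 1)) = 1) ∧
      ∀ b ∈ B, Φ (Finsupp.single b 1) = 0 := by
  let f : (P →₀ F) →ₗ[F] ((Bᶜ : Set ι) →₀ F) :=
    Finsupp.lsubtypeDomain Bᶜ ∘ₗ L ∘ₗ Finsupp.lmapDomain F F Subtype.val
  obtain ⟨g, hg⟩ := f.exists_leftInverse_of_injective (LinearMap.ker_eq_bot'.2 fun a ha => by
    refine Finsupp.mapDomain_injective Subtype.val_injective (M := F) ((h _ (fun m hm => ?_)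
      fun b hb => by_contra fun hb' => hb (DFunLike.congr_fun ha ⟨b, hb'⟩)).trans
        Finsupp.mapDomain_zero.symm)
    by_contra hm'
    exact hm (Finsupp.mapDomain_notin_range _ _ (by simpa using hm')))
  refine ⟨Finsupp.linearCombination F (fun _ => 1) ∘ₗ g ∘ₗ Finsupp.lsubtypeDomain Bᶜ,
    fun m hm => ?_, fun b hb => ?_⟩
  · have := LinearMap.congr_fun hg (Finsupp.single ⟨m, hm⟩ 1)
    simp only [f, LinearMap.comp_apply, Finsupp.lmapDomain_apply, Finsupp.mapDomain_single,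
      LinearMap.id_apply] at this
    simp only [LinearMap.comp_apply, this]
    simp
  · have : Finsupp.lsubtypeDomain (R := F) Bᶜ (Finsupp.single b (1 : F)) = 0 :=
      Finsupp.ext fun c => Finsupp.single_eq_of_ne fun e => c.2 (e ▸ hb)
    simp [this]

theorem exu : ∃ u : Set (ℕ → Bool) → Ultrafilter ℕ, (∀ y, (u y : Filter ℕ) ≤ cofinite) ∧
    ∀ D D' : Set (Set (ℕ → Bool)), D.Countable → D'.Countable → Disjoint D D' →
      ∃ A : Set ℕ, (∀ y ∈ D, A ∈ u y) ∧ ∀ y ∈ D', Aᶜ ∈ u y := by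
  classical
  obtain ⟨j⟩ : Nonempty ((ℕ → ℕ → Bool) × (ℕ → Set ℕ) ↪ (ℕ → Bool)) := by
    rw [← Cardinal.le_def]; simp
  obtain ⟨e⟩ : Nonempty (ℕ × Finset (List Bool) ≃ ℕ) := nonempty_equiv_of_countable
  let ξ : Set (ℕ → Bool) → (ℕ → ℕ → Bool) × (ℕ → Set ℕ) → Prop := fun y c => c.1 ⁻¹' y ∈ range c.2
  have h1 : ∀ (y : Set (ℕ → Bool)) (s : Finset ((ℕ → ℕ → Bool) × (ℕ → Set ℕ)) × ℕ),
      ∃ z : ℕ × Finset (List Bool), s.2 ≤ z.1 ∧ ∀ c ∈ s.1, (PiNat.res (j c) z.1 ∈ z.2 ↔ ξ y c) := by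
    intro y s
    have : ∀ᶠ k in atTop, ∀ c ∈ s.1, ∀ c' ∈ s.1, PiNat.res (j c) k = PiNat.res (j c') k → c = c' := by
      simp only [eventually_all_finset]
      intro c _ c' _
      by_cases h : c = c'
      · exact Eventually.of_forall fun _ _ => h
      · obtain ⟨i, hi⟩ := Function.ne_iff.1 (j.injective.ne h)
        exact (eventually_gt_atTop i).mono fun k hk h => (hi (PiNat.res_eq_res.1 h hk)).elim
    obtain ⟨k, k1, k2⟩ := (this.and (eventually_ge_atTop s.2)).exists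
    refine ⟨(k, (s.1.filter (ξ y)).image fun c => PiNat.res (j c) k), k2, fun c hc => ?_⟩
    simp only [Finset.mem_image, Finset.mem_filter]
    exact ⟨fun ⟨c', h1, h2⟩ => k1 _ h1.1 _ hc h2 ▸ h1.2, fun h => ⟨c, ⟨hc, h⟩, rfl⟩⟩
  choose z z1 z2 using h1
  have le : ∀ y, ((Ultrafilter.of atTop).map fun s => e (z y s) : Filter ℕ) ≤
      map (fun s => e (z y s)) atTop := fun y => map_mono (Ultrafilter.of_le _)
  refine ⟨fun y => (Ultrafilter.of atTop).map fun s => e (z y s), fun y => (le y).trans ?_,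
    fun D D' h1 h2 hd => ?_⟩
  · refine le_cofinite_iff_eventually_ne.2 fun n => eventually_map.2 ?_
    refine (eventually_ge_atTop (∅, (e.symm n).1 + 1)).mono fun s hs h => ?_
    have := hs.2.trans (z1 y s)
    rw [← h, e.symm_apply_apply] at this
    exact Nat.not_succ_le_self _ this
  rcases D.eq_empty_or_nonempty with rfl | hne
  · exact ⟨∅, fun _ h => h.elim, fun _ _ => compl_empty.symm ▸ univ_mem⟩
  obtain ⟨d, rfl⟩ := h1.exists_eq_range hne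
  have h3 : ∀ p : ℕ × D', ∃ r, ¬ (r ∈ d p.1 ↔ r ∈ p.2.1) := fun p =>
    not_forall.1 fun h => disjoint_left.1 hd ⟨p.1, Set.ext h⟩ p.2.2
  choose r hr using h3
  haveI := h2.to_subtype
  obtain ⟨s, hs⟩ := ((countable_range r).insert fun _ => true).exists_eq_range (insert_nonempty _ _)
  let c : (ℕ → ℕ → Bool) × (ℕ → Set ℕ) := (s, fun n => s ⁻¹' d n)
  have h4 : ∀ y, ∀ᶠ n in ((Ultrafilter.of atTop).map fun s => e (z y s) : Ultrafilter ℕ),
      (PiNat.res (j c) (e.symm n).1 ∈ (e.symm n).2 ↔ ξ y c) := fun y => le y (eventually_map.2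
        ((eventually_ge_atTop ({c}, 0)).mono fun s hs => by
          simpa using z2 y s c (hs.1 (Finset.mem_singleton_self c))))
  refine ⟨{n | PiNat.res (j c) (e.symm n).1 ∈ (e.symm n).2}, ?_, fun y hy => ?_⟩
  · rintro _ ⟨n, rfl⟩
    exact (h4 _).mono fun m hm => hm.2 ⟨n, rfl⟩
  · refine (h4 _).mono fun m hm h => ?_
    obtain ⟨n, hn⟩ := hm.1 h
    obtain ⟨k, hk⟩ : r (n, ⟨y, hy⟩) ∈ range s := hs ▸ Or.inr ⟨_, rfl⟩
    exact hr (n, ⟨y, hy⟩) (hk ▸ Set.ext_iff.1 hn k)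

theorem good : ∃ (u : Set (ℕ → Bool) → Ultrafilter ℕ) (G : Ultrafilter ℕ → Set (Set (ℕ → Bool))),
    (∀ y, (u y : Filter ℕ) ≤ cofinite) ∧ (∀ p : ℕ → Ultrafilter ℕ, ∃ y, ∀ i, y ∈ G (p i)) ∧
    ∀ p (τ : ℕ → ℕ), ∀ D ⊆ G p, D.Countable → ∃ S : Set ℕ, (∀ y ∈ D, S ∈ u y) ∧ τ ⁻¹' Sᶜ ∈ p := by
  obtain ⟨u, h1, h2⟩ := exu
  have : ∀ r : Ultrafilter ℕ, ∃ E : Set (Set (ℕ → Bool)), E.Countable ∧ ∀ D, D.Countable →
      Disjoint D E → ∃ S : Set ℕ, (∀ y ∈ D, S ∈ u y) ∧ Sᶜ ∈ r := fun r => by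
    by_contra h
    push Not at h
    obtain ⟨E, e1, -, e2⟩ := h ∅ countable_empty
    obtain ⟨D, d1, d2, d3⟩ := h E e1
    obtain ⟨A, a1, a2⟩ := h2 D E d1 e1 d2
    exact e2 _ a2 (Ultrafilter.compl_mem_iff_notMem.2 (d3 A a1))
  choose E e1 e2 using this
  refine ⟨u, fun p => (⋃ τ : ℕ → ℕ, E (p.map τ))ᶜ, h1, fun p => ?_, fun p τ D h3 h4 =>
    e2 (p.map τ) D h4 (disjoint_left.2 fun y hy h => h3 hy (mem_iUnion.2 ⟨τ, h⟩))⟩
  by_contra h
  push Not at h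
  have h3 : (univ : Set (Set (ℕ → Bool))) ⊆ ⋃ z : ℕ × (ℕ → ℕ), E ((p z.1).map z.2) := fun y _ => by
    obtain ⟨i, hi⟩ := h y
    obtain ⟨τ, h⟩ := mem_iUnion.1 (not_not.1 hi)
    exact mem_iUnion.2 ⟨(i, τ), h⟩
  have h4 := (mk_le_mk_of_subset h3).trans ((mk_iUnion_le _).trans
    (mul_le_mul' le_rfl (ciSup_le' fun z => (e1 _).le_aleph0)))
  simp at h4
  exact h4.not_gt (cantor _)

/-- accumulated block sizes -/
def sz : ℕ → ℕ
  | 0 => 0
  | n + 1 => sz n + (n * 2 ^ 2 ^ (n * (n * sz n)) + 1)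

/-- block sizes -/
def N (n : ℕ) : ℕ := n * 2 ^ 2 ^ (n * (n * sz n)) + 1

theorem N_le {k n : ℕ} (h : k < n) : N k ≤ sz n :=
  (Nat.le_add_left _ _ : N k ≤ sz (k + 1)).trans
    (monotone_nat_of_le_succ (f := sz) (fun _ => Nat.le_add_right _ _) h)

theorem exq (u : Ultrafilter ℕ) (hu : (u : Filter ℕ) ≤ cofinite) : ∃ q : Ultrafilter ℕ,
    (q : Filter ℕ) ≤ cofinite ∧ ∀ S ∈ u, ∀ R : ℕ → Set ℕ,
      (∀ n, (R n).Finite ∧ (R n).ncard ≤ 2 ^ 2 ^ (n * (n * sz n))) →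
      {j : ℕ | j.unpair.1 ∈ S ∧ j.unpair.2 < N j.unpair.1 ∧ j ∉ R j.unpair.1} ∈ q := by
  have fin : ∀ n (B : Set ℕ), {m | m < N n ∧ Nat.pair n m ∉ B}.Finite := fun n B =>
    (finite_lt_nat _).subset fun _ h => h.1
  let f : Filter ℕ :=
    { sets := {B | ∃ k, ∀ᶠ n in u, {m | m < N n ∧ Nat.pair n m ∉ B}.ncard ≤
        k * 2 ^ 2 ^ (n * (n * sz n))}
      univ_sets := ⟨0, Eventually.of_forall fun n => by simp⟩
      sets_of_superset := fun ⟨k, hk⟩ h => ⟨k, hk.mono fun n hn => by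
        refine le_trans (ncard_le_ncard (fun m hm => ?_) (fin _ _)) hn
        exact ⟨hm.1, fun h' => hm.2 (h h')⟩⟩
      inter_sets := fun ⟨k, hk⟩ ⟨k', hk'⟩ => ⟨k + k', (hk.and hk').mono fun n hn => by
        rw [add_mul]
        refine le_trans (ncard_le_ncard (fun m hm => ?_) ((fin _ _).union (fin _ _)))
          ((ncard_union_le _ _).trans (add_le_add hn.1 hn.2))
        exact (not_and_or.1 hm.2).imp (And.intro hm.1) (And.intro hm.1)⟩ }
  haveI : f.NeBot := ⟨fun h => by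
    obtain ⟨k, hk⟩ : ∅ ∈ f := h ▸ mem_bot
    obtain ⟨n, h1, h2⟩ := (hk.and (hu (Nat.cofinite_eq_atTop ▸ eventually_ge_atTop k))).exists
    have : {m | m < N n ∧ Nat.pair n m ∉ (∅ : Set ℕ)} = ↑(Finset.range (N n)) := by ext; simp
    rw [this, ncard_coe_finset, Finset.card_range] at h1
    exact (h1.trans (Nat.mul_le_mul_right _ h2)).not_gt (Nat.lt_succ_self _)⟩
  refine ⟨.of f, (Ultrafilter.of_le f).trans (le_cofinite_iff_eventually_ne.2 fun j => ⟨0, ?_⟩),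
    fun S hS R hR => Ultrafilter.of_le f ⟨1, Eventually.mono hS fun n hn => ?_⟩⟩
  · refine (le_cofinite_iff_eventually_ne.1 hu j.unpair.1).mono fun n hn => ?_
    refine ((Set.ncard_eq_zero (fin _ _)).2 (eq_empty_of_forall_notMem fun m hm => ?_)).trans_le
      (Nat.zero_le _)
    exact hm.2 fun h => hn (by simp [← h])
  · rw [one_mul]
    refine le_trans (ncard_le_ncard_of_injOn (Nat.pair n) (fun m hm => ?_)
      (fun a _ b _ h => (Nat.pair_eq_pair.1 h).2) (hR n).1) (hR n).2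
    by_contra h
    exact hm.2 (by simpa using ⟨hn, hm.1, h⟩)

/-- coordinates -/
inductive Co : Type
  | blk (p : Ultrafilter ℕ) (n : ℕ) : Co
  | kil (e : ℕ → ℕ → Co) (d : ℕ → ℕ → ℕ → F) (ψ : ℕ → ℕ → F) : Co

/-- tasks -/
abbrev Tk : Type := (ℕ → Co) × (ℕ → ℕ → F)

theorem kil_ne (φ : Co) : ∀ e d ψ, φ = .kil e d ψ → ∀ i k, e i k ≠ φ := by
  induction φ with
  | blk => intro _ _ _ h; cases h
  | kil e d ψ ih =>
    intro _ _ _ h i k h'
    cases h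
    exact ih i k e d ψ h' i k rfl

open Classical in
/-- default values -/
noncomputable def dv (α : Tk) (j : ℕ) : Co → F
  | .blk _ _ => 0
  | .kil e d ψ => if h : ∃ i, (e i, d i) = α then ψ h.choose j else 0

open Classical in
/-- the selected points -/
noncomputable def x (α : Tk) (j : ℕ) (φ : Co) : F :=
  if h : ∃ i, α.1 i = φ then α.2 j h.choose else dv α j φ

theorem x_task (c : ℕ → Co) (g : ℕ → Co → F) (j i : ℕ) :
    x (c, fun j i => g j (c i)) j (c i) = g j (c i) := by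
  have h : ∃ k, c k = c i := ⟨i, rfl⟩
  simp only [x, dif_pos h, h.choose_spec]

theorem x_kil (e : ℕ → Tk) (Ψ : Tk → ℕ → F) (i j : ℕ) :
    x (e i) j (.kil (fun i => (e i).1) (fun i => (e i).2) fun i => Ψ (e i)) = Ψ (e i) j := by
  have h : ∃ k, ((e k).1, (e k).2) = e i := ⟨i, rfl⟩
  rw [x, dif_neg fun ⟨k, hk⟩ => kil_ne _ (fun i => (e i).1) _ _ rfl i k hk, dv, dif_pos h]
  exact congrArg (Ψ · j) h.choose_spec

/-- the task mentions the block of `p` -/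
def Tc (p : Ultrafilter ℕ) (α : Tk) : Prop := ∃ i n, α.1 i = .blk p n

theorem x_blk {p : Ultrafilter ℕ} {α : Tk} (h : ¬ Tc p α) (j n : ℕ) : x α j (.blk p n) = 0 := by
  rw [x, dif_neg fun ⟨i, hi⟩ => h ⟨i, n, hi⟩, dv]

variable (q : Tk → Ultrafilter ℕ)

/-- the limit points -/
noncomputable def y (α : Tk) : Co → F := ((q α).map (x α)).lim

theorem y_lim (α : Tk) : Tendsto (x α) (q α) (𝓝 (y q α)) := ((q α).map (x α)).le_nhds_lim

theorem y_eq {α : Tk} {φ : Co} {c : F} (h : ∀ᶠ j in q α, x α j φ = c) : y q α φ = c :=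
  tendsto_nhds_unique (tendsto_pi_nhds.1 (y_lim q α) φ) (tendsto_const_nhds.congr' (h.mono fun _ => .symm))

/-- the generators -/
noncomputable def gen : Tk × Option ℕ → Co → F
  | (α, none) => y q α
  | (α, some j) => x α j - y q α

/-- the group -/
noncomputable abbrev G : Submodule F (Co → F) := (Finsupp.linearCombination F (gen q)).range

theorem gen_mem (b : Tk × Option ℕ) : gen q b ∈ G q := ⟨Finsupp.single b 1, by simp⟩

theorem x_mem (α : Tk) (j : ℕ) : x α j ∈ G q := by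
  simpa [gen] using (G q).add_mem (gen_mem q (α, some j)) (gen_mem q (α, none))

theorem sel (hq : ∀ α, (q α : Filter ℕ) ≤ cofinite) (U : ℕ → Set (G q))
    (hU : ∀ n, IsOpen (U n) ∧ (U n).Nonempty) :
    ∃ z : ℕ → G q, (∀ n, z n ∈ U n) ∧ ∃ w, MapClusterPt w atTop z := by
  have : ∀ n, ∃ (g : Co → F) (I : Finset Co), ∀ z : G q, (∀ φ ∈ I, z.1 φ = g φ) → z ∈ U n := fun n => by
    obtain ⟨⟨O, h1, h2⟩, g, hg⟩ := hU n
    obtain ⟨I, v, h3, h4⟩ := isOpen_pi_iff.1 h1 g.1 (by rwa [← h2] at hg)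
    exact ⟨g.1, I, fun z hz => h2 ▸ h4 fun φ h => hz φ h ▸ (h3 φ h).2⟩
  choose g I h using this
  obtain ⟨c, hc⟩ := ((countable_iUnion fun n => (I n).countable_toSet).insert
    (.blk (pure 0) 0)).exists_eq_range (insert_nonempty _ _)
  refine ⟨fun j => ⟨_, x_mem q (c, fun j i => g j (c i)) j⟩, fun j => h j _ fun φ hφ => ?_,
    ⟨_, gen_mem q ((c, fun j i => g j (c i)), none)⟩, ?_⟩
  · obtain ⟨i, rfl⟩ : φ ∈ range c := hc ▸ Or.inr (mem_iUnion.2 ⟨j, hφ⟩)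
    exact x_task c g j i
  · exact mapClusterPt_iff_ultrafilter.2 ⟨q _, Nat.cofinite_eq_atTop ▸ hq _,
      tendsto_subtype_rng.2 (y_lim q _)⟩

theorem bad {u : Tk → Ultrafilter ℕ} (hu : ∀ α, (u α : Filter ℕ) ≤ cofinite)
    (hq : ∀ α, ∀ S ∈ u α, ∀ R : ℕ → Set ℕ,
      (∀ n, (R n).Finite ∧ (R n).ncard ≤ 2 ^ 2 ^ (n * (n * sz n))) →
      {j : ℕ | j.unpair.1 ∈ S ∧ j.unpair.2 < N j.unpair.1 ∧ j ∉ R j.unpair.1} ∈ q α)
    {p : Ultrafilter ℕ} (hp : (p : Filter ℕ) ≤ cofinite)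
    (hg : ∀ (τ : ℕ → ℕ) (e : ℕ → Tk), ∃ S : Set ℕ, (∀ i, Tc p (e i) → S ∈ u (e i)) ∧ τ ⁻¹' Sᶜ ∈ p)
    (g : ℕ → Co → F) (g0 : ∀ n, g n ∈ G q) (g1 : ∀ n, g n (.blk p n) = 1)
    (g2 : ∀ n, ∀ m < n, g n (.blk p m) = 0) : ¬ Tendsto g p (𝓝 0) := by
  classical
  intro hl
  choose h hh using g0
  obtain ⟨e, he⟩ := ((countable_iUnion fun n => ((h n).support.countable_toSet.image Prod.fst)).insert
    (fun _ => .blk p 0, 0)).exists_eq_range (insert_nonempty _ _)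
  let π := Finsupp.lsubtypeDomain (R := F) (M := F) {b : Tk × Option ℕ | Tc p b.1}
  let L := π ∘ₗ Finsupp.linearCombination F h
  have hL : Injective L := by
    refine (injective_iff_map_eq_zero L).2 fun a ha => by_contra fun h0 => ?_
    obtain ⟨m, m1, m2⟩ := a.support.exists_min_image id (Finsupp.support_nonempty_iff.2 h0)
    have h1 : Finsupp.linearCombination F (gen q) (Finsupp.linearCombination F h a) (.blk p m) = 0 := by
      rw [Finsupp.linearCombination_apply, Finsupp.sum, Finset.sum_apply]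
      refine Finset.sum_eq_zero fun b hb => ?_
      have hb' : ¬ Tc p b.1 := fun h' => Finsupp.mem_support_iff.1 hb (DFunLike.congr_fun ha ⟨b, h'⟩)
      have := y_eq q (Eventually.of_forall fun j => x_blk hb' j m)
      obtain ⟨α, _ | j⟩ := b <;> simp [gen, this, x_blk hb']
    rw [Finsupp.apply_linearCombination, Finsupp.linearCombination_apply, Finsupp.sum,
      Finset.sum_apply, Finset.sum_eq_single m (fun k hk hk' => by
        simp [hh, g2 k m ((m2 k hk).lt_of_ne hk'.symm)]) fun h => (h m1).elim] at h1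
    exact Finsupp.mem_support_iff.1 m1 (by simpa [hh, g1] using h1)
  let Λ : Set {b : Tk × Option ℕ | Tc p b.1} := {b | b.1.1 ∈ range e ∧ ∃ j, b.1.2 = some j ∧
    invFun e b.1.1 ≤ j.unpair.1 ∧ j.unpair.2 < N j.unpair.1}
  let ℓ : {b : Tk × Option ℕ | Tc p b.1} → ℕ := fun b => (b.1.2.getD 0).unpair.1
  obtain ⟨τ, R, r1, r2⟩ := kill L hL Λ ℓ (fun n => n * (n * sz n)) fun n => by
    let f := fun b : {b : Tk × Option ℕ | Tc p b.1} => (invFun e b.1.1, (b.1.2.getD 0).unpair)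
    have h1 : MapsTo f {b ∈ Λ | ℓ b < n}
        (Finset.range n ×ˢ Finset.range n ×ˢ Finset.range (sz n) : Finset _) := by
      rintro b ⟨⟨-, j, h1, h2, h3⟩, h4⟩
      simp only [ℓ, h1, Option.getD_some] at h4
      simpa [f, h1] using ⟨h2.trans_lt h4, h4, h3.trans_le (N_le h4)⟩
    have h2 : InjOn f {b ∈ Λ | ℓ b < n} := by
      rintro b ⟨⟨h0, j, h1, -⟩, -⟩ b' ⟨⟨h0', j', h1', -⟩, -⟩ e'
      simp only [f, h1, h1', Option.getD_some, Prod.mk.injEq] at e'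
      refine Subtype.ext (Prod.ext ?_ ?_)
      · rw [← invFun_eq h0, e'.1, invFun_eq h0']
      · rw [h1, h1', Nat.pairEquiv.symm.injective e'.2]
    exact ⟨.of_injOn h1 h2 (Finset.finite_toSet _),
      (ncard_le_ncard_of_injOn _ h1 h2 (Finset.finite_toSet _)).trans (by simp)⟩
  obtain ⟨S, s1, s2⟩ := hg τ e
  obtain ⟨Φ, f1, f2⟩ := func L (τ ⁻¹' Sᶜ) {b ∈ Λ | ℓ b ∈ S ∧ b ∉ R (ℓ b)} fun a h1 h2 => by
    by_contra h0
    obtain ⟨b, b1, b2 | ⟨m, b2, b3⟩⟩ := r2 a h0 fun b hb => (h2 b hb).1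
    exacts [(h2 b b1).2.2 b2, h1 m b2 (show τ m ∈ S from b3 ▸ (h2 b b1).2.1)]
  let v : Tk × Option ℕ → F := fun b => Φ (π (Finsupp.single b 1))
  let φ : Co := .kil (fun i => (e i).1) (fun i => (e i).2) fun i j => v (e i, some j) + v (e i, none)
  have hx : ∀ i j, x (e i) j φ = v (e i, some j) + v (e i, none) :=
    x_kil e fun α j => v (α, some j) + v (α, none)
  have hy : ∀ i, y q (e i) φ = v (e i, none) := fun i => by
    suffices ∀ᶠ j in q (e i), v (e i, some j) = 0 from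
      y_eq q (this.mono fun j hj => by rw [hx, hj, zero_add])
    by_cases ht : Tc p (e i)
    · have e1 : ∀ j, π (Finsupp.single (e i, some j) 1) = Finsupp.single ⟨(e i, some j), ht⟩ 1 :=
        fun j => Finsupp.ext fun b => by
          simp [π, Finsupp.lsubtypeDomain_apply, Finsupp.single_apply, Subtype.ext_iff]
      refine mem_of_superset (hq (e i) (S ∩ Ici (invFun e (e i))) (inter_mem (s1 i ht)
        (hu _ (Nat.cofinite_eq_atTop ▸ Ici_mem_atTop _)))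
        (fun n => (fun j => ⟨(e i, some j), ht⟩) ⁻¹' R n) fun n => ?_) fun j hj => ?_
      · have : Injective fun j => (⟨(e i, some j), ht⟩ : {b : Tk × Option ℕ | Tc p b.1}) :=
          fun _ _ h => by simpa using h
        exact ⟨(r1 n).1.preimage this.injOn, le_trans (ncard_le_ncard_of_injOn (t := R n) _
          (by exact fun _ h => h) this.injOn (r1 n).1) (r1 n).2⟩
      · exact (congrArg Φ (e1 j)).trans (f2 _ ⟨⟨⟨i, rfl⟩, j, rfl, hj.1.2, hj.2.1⟩, hj.1.1, hj.2.2⟩)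
    · refine Eventually.of_forall fun j => ?_
      have : π (Finsupp.single (e i, some j) 1) = 0 :=
        Finsupp.ext fun b => Finsupp.single_eq_of_ne fun h => ht (show Tc p (e i, some j).1 from h ▸ b.2)
      simp [v, this]
  have h1 : ∀ n, g n φ = Φ (L (Finsupp.single n 1)) := fun n => by
    have : Φ (π (h n)) = (h n).sum fun b c => c * v b := by
      conv_lhs => rw [← (h n).sum_single, map_finsuppSum, map_finsuppSum]
      refine Finsupp.sum_congr fun b _ => ?_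
      rw [← smul_eq_mul, ← map_smul, ← map_smul, Finsupp.smul_single_one]
    simp only [L, LinearMap.comp_apply, Finsupp.linearCombination_single, one_smul, this]
    rw [← hh, Finsupp.linearCombination_apply, Finsupp.sum, Finset.sum_apply]
    refine Finset.sum_congr rfl fun b hb => ?_
    obtain ⟨α, o⟩ := b
    obtain ⟨i, rfl⟩ : α ∈ range e := he ▸ Or.inr (mem_iUnion.2 ⟨n, _, hb, rfl⟩)
    cases o <;> simp [gen, hx, hy]
  have h2 : ∀ᶠ n in p, g n φ = 0 := by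
    simpa [nhds_discrete] using tendsto_pi_nhds.1 hl φ
  obtain ⟨n, n1, n2⟩ := (h2.and s2).exists
  exact one_ne_zero ((f1 n n2).symm.trans ((h1 n).symm.trans n1))

theorem main : ∃ (G : Type) (_ : CommGroup G) (_ : TopologicalSpace G),
      IsTopologicalGroup G ∧ T2Space G ∧
      (∀ U : ℕ → Set G, (∀ n, IsOpen (U n) ∧ (U n).Nonempty) →
        ∃ x : ℕ → G, (∀ n, x n ∈ U n) ∧ ∃ y : G, MapClusterPt y atTop x) ∧
      (∀ p : Ultrafilter ℕ, (p : Filter ℕ) ≤ cofinite →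
        ∃ U : ℕ → Set G, (∀ n, IsOpen (U n) ∧ (U n).Nonempty) ∧
          ∀ x : ℕ → G, (∀ n, x n ∈ U n) →
            ∀ y : G, ¬ Tendsto x (p : Filter ℕ) (𝓝 y)) := by
  classical
  obtain ⟨u, Gd, u1, u2, u3⟩ := good
  have : ∀ α : Tk, ∃ y, ∀ p, Tc p α → y ∈ Gd p := fun α => by
    obtain ⟨y, hy⟩ := u2 fun i => match α.1 i with
      | .blk p _ => p
      | _ => pure 0
    refine ⟨y, fun p ⟨i, n, h⟩ => ?_⟩
    simpa only [h] using hy i
  choose yy hyy using this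
  choose q q1 q2 using fun α => exq (u (yy α)) (u1 _)
  refine ⟨Multiplicative (G q), inferInstance, inferInstance, inferInstance,
    inferInstanceAs (T2Space (G q)), sel q q1, fun p hp => ⟨fun n => {z : G q |
      z.1 (.blk p n) = 1 ∧ ∀ m < n, z.1 (.blk p m) = 0}, fun n => ⟨?_, ?_⟩, fun z hz w hw => ?_⟩⟩
  · have o : ∀ φ c, IsOpen {z : G q | z.1 φ = c} := fun φ c =>
      (isOpen_discrete {c}).preimage (f := fun z : G q => z.1 φ)
        ((continuous_apply φ).comp continuous_subtype_val)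
    refine (o _ _).inter ?_
    have := (finite_lt_nat n).isOpen_biInter fun m _ => o (.blk p m) 0
    simp only [mem_setOf_eq, ← setOf_forall] at this
    exact this
  · let g : ℕ → Co → F := fun _ φ => if φ = .blk p n then 1 else 0
    refine ⟨(⟨_, x_mem q (Co.blk p, fun j i => g j (.blk p i)) 0⟩ : G q), ?_, fun m hm => ?_⟩
    · exact (x_task _ g 0 n).trans (if_pos rfl)
    · exact (x_task _ g 0 m).trans (if_neg fun h => hm.ne (Co.blk.inj h).2)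
  have hw' : Tendsto (fun n => (z n).toAdd.1) p (𝓝 w.toAdd.1) := tendsto_subtype_rng.1 hw
  have h0 : ∀ m, w.toAdd.1 (.blk p m) = 0 := fun m =>
    tendsto_nhds_unique (tendsto_pi_nhds.1 hw' _) (tendsto_const_nhds.congr'
      (Eventually.mono (hp (Nat.cofinite_eq_atTop ▸ eventually_gt_atTop m))
        fun n hn => ((hz n).2 m hn).symm))
  refine bad q (fun α => u1 _) q2 hp (fun τ e => ?_) (fun n => (z n).toAdd.1 - w.toAdd.1)
    (fun n => (G q).sub_mem (z n).toAdd.2 w.toAdd.2) (fun n => ?_) (fun n m hm => ?_)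
    (sub_self w.toAdd.1 ▸ hw'.sub_const _)
  · obtain ⟨S, s1, s2⟩ := u3 p τ ((fun i => yy (e i)) '' {i | Tc p (e i)})
      (by rintro _ ⟨i, hi, rfl⟩; exact hyy _ p hi) ((to_countable _).image _)
    exact ⟨S, fun i hi => s1 _ ⟨i, hi, rfl⟩, s2⟩
  · rw [Pi.sub_apply, h0, sub_zero]; exact (hz n).1
  · rw [Pi.sub_apply, h0, sub_zero]; exact (hz n).2 m hm

end Pool.Agent.H31.SP
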