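import Mathlib

namespace Pool.Agent.H31.Semi

/-- the Cantor set; `x` is identified with the set of `n` with `x n = 1` -/
abbrev C : Type := ℕ → ZMod 2

/-- almost inclusion -/
def Le (x y : C) : Prop := {n | x n = 1 ∧ y n ≠ 1}.Finite

/-- semifilter -/
def Semifilter (S : Set C) : Prop :=
  S.Nonempty ∧ (∀ x ∈ S, {n | x n = 1}.Infinite) ∧ ∀ x ∈ S, ∀ y, Le x y → y ∈ S

end Pool.Agent.H31.Semi
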