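import Mathlib

set_option autoImplicit false

open Set Topology Filter

namespace Pool.Agent.H31.Slender

/-- infinite descent behind the slenderness of the integers -/
theorem descent {G : Type} [AddCommGroup G] (h : G →+ ℤ) (x y : ℕ → G) (hx : ∀ n, h (x n) ≠ 0)
    (hy : ∀ n, y n = x n + ((h (x n)).natAbs + 2) • y (n + 1)) : False := by
  have e : ∀ n, h (y n) = h (x n) + (((h (x n)).natAbs : ℤ) + 2) * h (y (n + 1)) := by
    intro n
    rw [hy n, map_add, map_nsmul]
    simp
  have key : ∀ n, h (y n) ≠ 0 ∧ (h (y (n + 1)) ≠ 0 → |h (y (n + 1))| < |h (y n)|) := by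
    intro n
    have e1 := e n
    have e2 := hx n
    generalize h (y n) = a at *
    generalize h (y (n + 1)) = c at *
    generalize h (x n) = b at *
    rw [Int.natCast_natAbs] at e1
    have hb : 0 < |b| := abs_pos.2 e2
    have h1 : |(|b| + 2) * c| ≤ |a| + |b| := by
      have : (|b| + 2) * c = a - b := by linarith
      rw [this]; exact abs_sub a b
    rw [abs_mul, abs_of_pos (by linarith : 0 < |b| + 2)] at h1
    constructor
    · rintro rfl
      by_cases hc : c = 0
      · subst hc; simp at e1; exact e2 e1.symm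
      · have : 1 ≤ |c| := Int.one_le_abs hc
        simp only [abs_zero] at h1
        nlinarith
    · intro hc
      have : 1 ≤ |c| := Int.one_le_abs hc
      nlinarith
  have : ∀ n : ℕ, |h (y n)| + n ≤ |h (y 0)| := by
    intro n
    induction n with
    | zero => simp
    | succ n ih =>
      have := (key n).2 (key (n + 1)).1
      push_cast; linarith
  have h1 := this ((h (y 0)).natAbs + 1)
  have h2 := abs_nonneg (h (y ((h (y 0)).natAbs + 1)))
  push_cast at h1
  linarith

/-- truncated sums -/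
def Yt {I : Type} (x : ℕ → I → ℤ) (k : ℕ → ℕ) : ℕ → ℕ → I → ℤ
  | _, 0 => 0
  | n, (d + 1) => x n + k n • Yt x k (n + 1) d

theorem Yt_stable {I : Type} (x : ℕ → I → ℤ) (k : ℕ → ℕ) (i : I) (N : ℕ)
    (hN : ∀ m, N ≤ m → x m i = 0) (d : ℕ) : ∀ n, N ≤ n + d → Yt x k n (d + 1) i = Yt x k n d i := by
  induction d with
  | zero => intro n hn; simp [Yt, hN n hn]
  | succ d ih =>
    intro n hn
    have := ih (n + 1) (by omega)
    show x n i + k n • Yt x k (n + 1) (d + 1) i = x n i + k n • Yt x k (n + 1) d i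
    rw [this]

theorem pi_locfin {I : Type} (h : (I → ℤ) →+ ℤ) (x : ℕ → I → ℤ)
    (hx : ∀ i, ∃ N, ∀ m, N ≤ m → x m i = 0) : ∃ n, h (x n) = 0 := by
  by_contra hc
  push Not at hc
  choose N hN using hx
  refine descent h x (fun n i => Yt x (fun n => (h (x n)).natAbs + 2) n (N i) i) hc fun n => ?_
  funext i
  rw [← Yt_stable x _ i (N i) (hN i) (N i) n (by omega)]
  rfl

theorem los {I : Type} [TopologicalSpace I] [CompactSpace I] [T1Space I]
    [FirstCountableTopology I] (h : (I → ℤ) →+ ℤ) :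
    ∃ F : Finset I, ∀ x : I → ℤ, (∀ i ∈ F, x i = 0) → h x = 0 := by
  classical
  have := isCompact_univ.induction_on (X := I)
    (p := fun S => ∃ F : Finset I, ∀ x : I → ℤ, (∀ i, i ∉ S → x i = 0) → (∀ i ∈ F, x i = 0) →
      h x = 0) ?_ ?_ ?_ ?_
  · obtain ⟨F, hF⟩ := this
    exact ⟨F, fun x hx => hF x (fun i hi => absurd trivial hi) hx⟩
  · refine ⟨∅, fun x hx _ => ?_⟩
    have : x = 0 := funext fun i => hx i (by simp)
    rw [this, map_zero]
  · rintro s t hst ⟨F, hF⟩
    exact ⟨F, fun x hx hx' => hF x (fun i hi => hx i fun h => hi (hst h)) hx'⟩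
  · rintro s t ⟨F, hF⟩ ⟨F', hF'⟩
    refine ⟨F ∪ F', fun x hx hx' => ?_⟩
    have e : x = s.indicator x + sᶜ.indicator x := by simp
    rw [e, map_add, hF, hF']
    · rfl
    · intro i hi
      by_cases his : i ∈ s
      · simp [his]
      · simp [his, hx i (by simp [his, hi])]
    · intro i hi
      simp [indicator_apply, hx' i (by simp [hi])]
    · intro i hi
      simp [hi]
    · intro i hi
      simp [indicator_apply, hx' i (by simp [hi])]
  · intro b _
    obtain ⟨U, hU⟩ := (𝓝 b).exists_antitone_basis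
    by_contra hc
    push Not at hc
    have : ∀ n, ∃ x : I → ℤ, (∀ i, i ∉ U n → x i = 0) ∧ (∀ i ∈ ({b} : Finset I), x i = 0) ∧
        h x ≠ 0 := fun n => hc (U n) (mem_nhdsWithin_of_mem_nhds (hU.mem n)) {b}
    choose x hx1 hx2 hx3 using this
    obtain ⟨n, hn⟩ := pi_locfin h x fun i => by
      by_cases hi : i = b
      · exact ⟨0, fun m _ => hx2 m i (by simp [hi])⟩
      · obtain ⟨N, hN⟩ := hU.mem_iff.1 (compl_singleton_mem_nhds (Ne.symm hi))
        exact ⟨N, fun m hm => hx1 m i fun hi' => hN (hU.antitone hm hi') rfl⟩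
    exact hx3 n hn

theorem pi_cont {I : Type} [TopologicalSpace I] [CompactSpace I] [T1Space I]
    [FirstCountableTopology I] (h : (I → ℤ) →+ ℤ) : Continuous h := by
  obtain ⟨F, hF⟩ := los h
  apply continuous_of_continuousAt_zero
  have : ∀ᶠ x : I → ℤ in 𝓝 0, ∀ i ∈ F, x i = 0 := by
    rw [Filter.eventually_all_finset]
    intro i _
    have : IsOpen ((fun x : I → ℤ => x i) ⁻¹' ({0} : Set ℤ)) :=
      (isOpen_discrete ({0} : Set ℤ)).preimage (continuous_apply i)
    exact this.mem_nhds rfl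
  refine (continuousAt_const (y := (0 : ℤ))).congr ?_
  filter_upwards [this] with x hx
  exact (hF x hx).symm

theorem pi_separable : ∃ D : Set ((ℕ → Bool) → ℤ), D.Countable ∧ Dense D := by
  classical
  let g : (Σ n : ℕ, ((Fin n → Bool) → ℤ)) → (ℕ → Bool) → ℤ := fun p b => p.2 fun i => b i
  refine ⟨range g, countable_range g, ?_⟩
  rw [dense_iff_inter_open]
  rintro U hU ⟨x, hx⟩
  obtain ⟨F, u, hu, hF⟩ := isOpen_pi_iff.1 hU x hx
  have h1 : ∀ᶠ n : ℕ in atTop, ∀ b ∈ F, ∀ c ∈ F, (∀ i : Fin n, b i = c i) → b = c := by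
    simp only [Filter.eventually_all_finset]
    intro b _ c _
    by_cases hbc : b = c
    · exact Eventually.of_forall fun _ _ => hbc
    · obtain ⟨i, hi⟩ := Function.ne_iff.1 hbc
      filter_upwards [eventually_gt_atTop i] with n hn h
      exact absurd (h ⟨i, hn⟩) hi
  obtain ⟨n, hn⟩ := h1.exists
  let φ : (Fin n → Bool) → ℤ := fun s =>
    if h : ∃ b ∈ F, ∀ i : Fin n, b i = s i then x h.choose else 0
  refine ⟨g ⟨n, φ⟩, hF fun b hb => ?_, mem_range_self _⟩
  have hex : ∃ c ∈ F, ∀ i : Fin n, c i = (fun i : Fin n => b i) i := ⟨b, hb, fun _ => rfl⟩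
  have : g ⟨n, φ⟩ b = x b := by
    show φ (fun i => b i) = x b
    simp only [φ]
    rw [dif_pos hex, hn _ hex.choose_spec.1 b hb hex.choose_spec.2]
  rw [this]; exact (hu b hb).2

/-- the initial topology of all homomorphisms into a fixed topological group -/
@[reducible] def init (E : Type) [AddCommGroup E] [TopologicalSpace E] (G : Type) [AddCommGroup G] :
    TopologicalSpace G := ⨅ f : G →+ E, TopologicalSpace.induced f inferInstance

theorem init_group (E : Type) [AddCommGroup E] [TopologicalSpace E] [IsTopologicalAddGroup E]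
    (G : Type) [AddCommGroup G] : @IsTopologicalAddGroup G (init E G) _ :=
  topologicalAddGroup_iInf fun f => topologicalAddGroup_induced f

theorem init_cont (E : Type) [AddCommGroup E] [TopologicalSpace E]
    (G H : Type) [AddCommGroup G] [AddCommGroup H] (f : G →+ H) :
    @Continuous G H (init E G) (init E H) f := by
  refine continuous_iInf_rng.2 fun g => continuous_induced_rng.2 ?_
  exact continuous_iInf_dom (i := g.comp f) continuous_induced_dom

theorem init_pi : init ℤ ((ℕ → Bool) → ℤ) = Pi.topologicalSpace := by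
  apply le_antisymm
  · refine le_iInf fun b => ?_
    exact iInf_le_of_le (Pi.evalAddMonoidHom (fun _ => ℤ) b) le_rfl
  · exact le_iInf fun h => (pi_cont h).le_induced

theorem card_lt (D : Set ((ℕ → Bool) → ℤ)) (hD : D.Countable) :
    (2 : Cardinal) ^ Cardinal.mk D < Cardinal.mk ((ℕ → Bool) → ℤ) := by
  have h1 : Cardinal.mk D ≤ Cardinal.aleph0 := Cardinal.le_aleph0_iff_set_countable.2 hD
  have h2 : Cardinal.mk (ℕ → Bool) = 2 ^ Cardinal.aleph0 := by
    rw [← Cardinal.power_def]; simp
  calc (2 : Cardinal) ^ Cardinal.mk D ≤ 2 ^ Cardinal.aleph0 :=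
        Cardinal.power_le_power_left two_ne_zero h1
    _ < 2 ^ (2 ^ Cardinal.aleph0) := Cardinal.cantor _
    _ ≤ Cardinal.mk ((ℕ → Bool) → ℤ) := by
        rw [← Cardinal.power_def, h2]
        refine Cardinal.power_le_power_right ?_
        rw [Cardinal.mk_int]
        exact (Cardinal.natCast_lt_aleph0 (n := 2)).le

/-- homomorphisms from complete normed groups to the integers vanish near zero -/
theorem dudley {E : Type} [NormedAddCommGroup E] [CompleteSpace E] (h : E →+ ℤ) :
    ∃ ε > 0, ∀ x, ‖x‖ < ε → h x = 0 := by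
  by_contra hc
  push Not at hc
  choose! c hc1 hc2 using hc
  obtain ⟨P, hP0, hP1⟩ : ∃ P : ℕ → ℕ, P 0 = 1 ∧ ∀ n : ℕ, P (n + 1) =
      P n * ((h (c ((1 / 2 : ℝ) ^ n / (P n : ℝ)))).natAbs + 2) :=
    ⟨fun n => Nat.rec (motive := fun _ => ℕ) 1
      (fun n (p : ℕ) => p * ((h (c ((1 / 2) ^ n / (p : ℝ)))).natAbs + 2)) n, rfl, fun _ => rfl⟩
  let x : ℕ → E := fun n => c ((1 / 2 : ℝ) ^ n / (P n : ℝ))
  let k : ℕ → ℕ := fun n => (h (x n)).natAbs + 2
  have hP : ∀ n, P (n + 1) = P n * k n := hP1
  have hP' : ∀ n, P n = ∏ j ∈ Finset.range n, k j := by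
    intro n
    induction n with
    | zero => exact hP0
    | succ n ih => rw [hP, ih, Finset.prod_range_succ]
  have hpos : ∀ n, 0 < P n := by
    intro n; rw [hP']; exact Finset.prod_pos fun j _ => by simp [k]
  have he : ∀ n : ℕ, (0 : ℝ) < (1 / 2) ^ n / (P n : ℝ) := fun n =>
    div_pos (by positivity) (by exact_mod_cast hpos n)
  let Q : ℕ → ℕ → ℕ := fun n m => ∏ j ∈ Finset.range m, k (n + j)
  have hQ : ∀ n m, Q n m ≤ P (n + m) := by
    intro n m
    rw [hP', Finset.prod_range_add, ← hP']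
    exact Nat.le_mul_of_pos_left _ (hpos n)
  have hQs : ∀ n m, Q n (m + 1) = k n * Q (n + 1) m := by
    intro n m
    simp only [Q]
    rw [Finset.prod_range_succ', mul_comm]
    congr 1
    exact Finset.prod_congr rfl fun j _ => by congr 1; omega
  have hs : ∀ n, Summable fun m => Q n m • x (n + m) := by
    intro n
    refine Summable.of_norm_bounded (g := fun m => (1 / 2 : ℝ) ^ m) summable_geometric_two ?_
    intro m
    have h1 : ‖x (n + m)‖ < (1 / 2) ^ (n + m) / P (n + m) := hc1 _ (he _)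
    have h2 : (0 : ℝ) < P (n + m) := by exact_mod_cast hpos _
    have h3 : (Q n m : ℝ) ≤ P (n + m) := by exact_mod_cast hQ n m
    rw [lt_div_iff₀ h2] at h1
    calc ‖Q n m • x (n + m)‖ ≤ Q n m * ‖x (n + m)‖ := norm_nsmul_le
      _ ≤ P (n + m) * ‖x (n + m)‖ := by gcongr
      _ ≤ (1 / 2) ^ (n + m) := by linarith
      _ ≤ (1 / 2) ^ m := pow_le_pow_of_le_one (by norm_num) (by norm_num) (by omega)
  refine descent h x (fun n => ∑' m, Q n m • x (n + m)) (fun n => hc2 _ (he n)) fun n => ?_
  rw [(hs n).tsum_eq_zero_add, ← (hs (n + 1)).tsum_const_smul]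
  congr 1
  · simp [Q]
  · refine tsum_congr fun m => ?_
    rw [hQs, mul_smul]
    congr 3
    omega

theorem dudley_cont {E : Type} [NormedAddCommGroup E] [CompleteSpace E] (h : E →+ ℤ) :
    Continuous h := by
  obtain ⟨ε, hε, hh⟩ := dudley h
  apply continuous_of_continuousAt_zero
  refine (continuousAt_const (y := (0 : ℤ))).congr ?_
  filter_upwards [Metric.ball_mem_nhds (0 : E) hε] with x hx
  exact (hh x (by simpa using hx)).symm

end Pool.Agent.H31.Slender
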