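import Mathlib

set_option autoImplicit false

open Set Topology Filter

namespace Pool.Agent.H31.Smirnov

noncomputable def th : ℝ := Real.sqrt 2

theorem th_ne (q : ℚ) : th ≠ q := fun h => irrational_sqrt_two ⟨q, h.symm⟩

noncomputable def off : Bool → ℝ
  | true => th
  | false => 0

abbrev W : Type := ℕ × List (ℚ × ℕ)

def InR (S : List (ℚ × ℕ)) (t : ℝ) : Prop := ∃ a ∈ S, |t - (th + a.1)| < 1 / ((a.2 : ℝ) + 1)

def High (j : ℕ) (w : W) (t : ℝ) : Prop := j < w.1 ∨ (j = w.1 ∧ InR w.2 t)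

def AdmV (w : ℕ → W) (b : Bool) (v : ℕ → ℚ → Prop) : Prop :=
  ∀ (j : ℕ) (s : ℚ), ∀ᶠ p : ℕ × ℝ in atTop ×ˢ 𝓝 ((s : ℝ) + off b), (High j (w p.1) p.2 ↔ v j s)

structure Slice : Type where
  w : ℕ → W
  l : ℕ → ℕ
  b : Bool
  tag : ℝ
  mono : StrictMono l
  adm : ∃ v, AdmV w b v

abbrev Node : Type := W × ℕ

def Slice.node (e : Slice) (n : ℕ) : Node := (e.w n, e.l n)

inductive Z : Type
  | P : Z
  | Inf (u : Node) : Z
  | Iso (e : Slice) (n : ℕ) : Z
  | H (e : Slice) : Z

open Z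

def Hi : Z → ℕ → ℝ → Prop
  | P, _, _ => True
  | Inf u, j, t => High j u.1 t
  | Iso e n, j, t => High j (e.w n) t
  | H e, j, t => ∀ᶠ n in atTop, High j (e.w n) t

def TI (u : Node) : Z → Prop
  | P => False
  | Inf u' => u' = u
  | Iso e n => e.node n = u
  | H _ => False

def TJ (e : Slice) : Z → Prop
  | P => False
  | Inf _ => False
  | Iso e' _ => e' = e
  | H e' => e' = e

noncomputable def zoff : Z → ℝ
  | H e => off e.b
  | _ => 0

structure X : Type where
  r : ℚ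
  z : Z

noncomputable def pos (x : X) : ℝ := x.r + zoff x.z

inductive Idx : Type
  | F (j : ℕ) (q : ℚ) : Idx
  | I (u : Node) : Idx
  | J (e : Slice) : Idx

def test : Idx → X → Prop
  | .F j q, x => Hi x.z j (pos x + q)
  | .I u, x => TI u x.z
  | .J e, x => TJ e x.z

open Classical in
noncomputable def Phi (x : X) : Option Idx → ℝ
  | none => pos x
  | some i => if test i x then 1 else 0

noncomputable instance : TopologicalSpace X := TopologicalSpace.induced Phi inferInstance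

theorem ind : IsInducing Phi := ⟨rfl⟩

theorem cont_pos : Continuous pos := (continuous_apply none).comp ind.continuous

theorem test_nhds (i : Idx) (x : X) : ∀ᶠ y in 𝓝 x, (test i y ↔ test i x) := by
  have hc : Continuous fun y => Phi y (some i) := (continuous_apply (some i)).comp ind.continuous
  have := hc.continuousAt (x := x) (Metric.ball_mem_nhds _ one_pos)
  filter_upwards [this] with y hy
  simp only [mem_preimage, Metric.mem_ball, Phi, Real.dist_eq] at hy
  by_cases h1 : test i y <;> by_cases h2 : test i x <;> simp_all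

theorem tendsto_X {α : Type} {l : Filter α} {f : α → X} {x : X}
    (h1 : Tendsto (fun a => pos (f a)) l (𝓝 (pos x)))
    (h2 : ∀ i, ∀ᶠ a in l, (test i (f a) ↔ test i x)) : Tendsto f l (𝓝 x) := by
  rw [ind.tendsto_nhds_iff, tendsto_pi_nhds]
  rintro (_ | i)
  · exact h1
  · refine tendsto_const_nhds.congr' ?_
    filter_upwards [h2 i] with a ha
    show Phi x (some i) = Phi (f a) (some i)
    simp only [Phi]
    by_cases h : test i x
    · rw [if_pos h, if_pos (ha.2 h)]
    · rw [if_neg h, if_neg (fun h' => h (ha.1 h'))]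

theorem Phi_inj : Function.Injective Phi := by
  rintro ⟨r, z⟩ ⟨r', z'⟩ h
  have ht : ∀ i, test i ⟨r, z⟩ ↔ test i ⟨r', z'⟩ := by
    intro i
    have := congrFun h (some i)
    simp only [Phi] at this
    by_cases h1 : test i ⟨r, z⟩ <;> by_cases h2 : test i ⟨r', z'⟩ <;> simp_all
  have hI : ∀ u, TI u z ↔ TI u z' := fun u => ht (.I u)
  have hJ : ∀ e, TJ e z ↔ TJ e z' := fun e => ht (.J e)
  have hz : z = z' := by
    rcases z with _ | u | ⟨e, n⟩ | e <;> rcases z' with _ | u' | ⟨e', n'⟩ | e'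
    · rfl
    · exact ((hI u').2 rfl).elim
    · exact ((hJ e').2 rfl).elim
    · exact ((hJ e').2 rfl).elim
    · exact ((hI u).1 rfl).elim
    · rw [show u' = u from (hI u).1 rfl]
    · exact ((hJ e').2 rfl).elim
    · exact ((hJ e').2 rfl).elim
    · exact ((hJ e).1 rfl).elim
    · exact ((hJ e).1 rfl).elim
    · have h1 : e' = e := (hJ e).1 rfl
      subst h1
      have h2 : e'.node n' = e'.node n := (hI _).1 rfl
      rw [e'.mono.injective (congrArg Prod.snd h2)]
    · exact ((hI _).1 rfl).elim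
    · exact ((hJ e).1 rfl).elim
    · exact ((hJ e).1 rfl).elim
    · exact ((hI _).2 rfl).elim
    · rw [show e' = e from (hJ e).1 rfl]
  subst hz
  have := congrFun h none
  simp only [Phi, pos, add_left_inj, Rat.cast_inj] at this
  rw [this]

theorem t35 : T35Space X := (IsEmbedding.mk ind Phi_inj).t35Space

instance : AddAction ℚ X where
  vadd q x := ⟨q + x.r, x.z⟩
  zero_vadd x := by cases x; show X.mk (0 + _) _ = _; simp
  add_vadd a b x := by show X.mk _ _ = X.mk _ _; congr 1; exact add_assoc _ _ _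

theorem vadd_z (q : ℚ) (x : X) : (q +ᵥ x).z = x.z := rfl
theorem vadd_mk (q r : ℚ) (z : Z) : q +ᵥ X.mk r z = X.mk (q + r) z := rfl
theorem pos_vadd (q : ℚ) (x : X) : pos (q +ᵥ x) = q + pos x := by
  show ((q + x.r : ℚ) : ℝ) + zoff x.z = q + (x.r + zoff x.z)
  push_cast; ring

theorem high_mono {j : ℕ} {w : W} {t : ℝ} (t' : ℝ) (h : High (j + 1) w t) : High j w t' := by
  left
  rcases h with h | h
  · omega
  · omega

theorem hi_mono {z : Z} {j : ℕ} {t : ℝ} (t' : ℝ) (h : Hi z (j + 1) t) : Hi z j t' := by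
  rcases z with _ | u | ⟨e, n⟩ | e
  · trivial
  · exact high_mono t' h
  · exact high_mono t' h
  · exact Eventually.mono h fun n hn => high_mono t' hn

theorem inR_lc (S : List (ℚ × ℕ)) (s : ℚ) : ∀ᶠ t in 𝓝 (s : ℝ), (InR S t ↔ InR S s) := by
  induction S with
  | nil => simp [InR]
  | cons a S ih =>
    have hne : |(s : ℝ) - (th + a.1)| ≠ 1 / ((a.2 : ℝ) + 1) := by
      intro h
      rcases abs_eq (by positivity : (0 : ℝ) ≤ 1 / ((a.2 : ℝ) + 1)) |>.1 h with h | h
      · exact th_ne (s - a.1 - 1 / ((a.2 : ℚ) + 1)) (by push_cast; linarith)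
      · exact th_ne (s - a.1 + 1 / ((a.2 : ℚ) + 1)) (by push_cast; linarith)
    have hc : Continuous fun t : ℝ => |t - (th + a.1)| := by fun_prop
    have h1 : ∀ᶠ t in 𝓝 (s : ℝ), (|t - (th + a.1)| < 1 / ((a.2 : ℝ) + 1) ↔
        |(s : ℝ) - (th + a.1)| < 1 / ((a.2 : ℝ) + 1)) := by
      rcases lt_or_gt_of_ne hne with h | h
      · filter_upwards [hc.continuousAt.eventually_lt continuousAt_const h] with t ht
        exact iff_of_true ht h
      · filter_upwards [continuousAt_const.eventually_lt hc.continuousAt h] with t ht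
        exact iff_of_false (not_lt.2 ht.le) (not_lt.2 h.le)
    filter_upwards [ih, h1] with t h2 h3
    simp only [InR, List.mem_cons, exists_eq_or_imp] at h2 ⊢
    rw [h2, h3]

theorem high_lc (j : ℕ) (w : W) (s : ℚ) : ∀ᶠ t in 𝓝 (s : ℝ), (High j w t ↔ High j w s) := by
  filter_upwards [inR_lc w.2 s] with t ht
  simp only [High, ht]

theorem adm_lim {w : ℕ → W} {b : Bool} {v : ℕ → ℚ → Prop} (h : AdmV w b v) (j : ℕ) (s : ℚ) :
    ∃ N : ℕ, ∀ᶠ t in 𝓝 ((s : ℝ) + off b), (∀ n, N ≤ n → (High j (w n) t ↔ v j s)) ∧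
      ((∀ᶠ n in atTop, High j (w n) t) ↔ v j s) := by
  obtain ⟨pa, ha, pb, hb, hab⟩ := eventually_prod_iff.1 (h j s)
  obtain ⟨N, hN⟩ := eventually_atTop.1 ha
  refine ⟨N, hb.mono fun t ht => ⟨fun n hn => hab (hN n hn) ht, ?_⟩⟩
  constructor
  · intro h'
    obtain ⟨n, h1, h2⟩ := (h'.and ha).exists
    exact (hab h2 ht).1 h1
  · intro h'
    exact ha.mono fun n hn => (hab hn ht).2 h'

theorem lc (x : X) (j : ℕ) (s : ℚ) :
    ∀ᶠ p : X × ℝ in 𝓝 x ×ˢ 𝓝 (pos x + s), (Hi p.1.z j p.2 ↔ Hi x.z j (pos x + s)) := by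
  have node : ∀ u : Node, TI u x.z → zoff x.z = 0 →
      ∀ᶠ p : X × ℝ in 𝓝 x ×ˢ 𝓝 (pos x + s), (Hi p.1.z j p.2 ↔ Hi x.z j (pos x + s)) := by
    intro u hu h0
    have e1 : pos x + s = ((x.r + s : ℚ) : ℝ) := by simp [pos, h0]
    have key : ∀ z t, TI u z → (Hi z j t ↔ High j u.1 t) := by
      rintro (_ | u' | ⟨e, n⟩ | e) t h
      · exact h.elim
      · rw [← show u' = u from h]; rfl
      · rw [← show e.node n = u from h]; rfl
      · exact h.elim
    rw [e1]
    filter_upwards [(test_nhds (.I u) x).prod_mk (high_lc j u.1 (x.r + s))] with p hp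
    rw [key _ _ (hp.1.2 hu), key _ _ hu, hp.2]
  obtain ⟨r, z⟩ := x
  rcases z with _ | u | ⟨e, n⟩ | e
  · filter_upwards [(test_nhds (.F (j + 1) 0) ⟨r, P⟩).prod_mk
      (Eventually.of_forall fun _ => trivial : ∀ᶠ _ in 𝓝 (pos ⟨r, P⟩ + s), True)] with p hp
    exact iff_of_true (hi_mono _ (hp.1.2 trivial)) trivial
  · exact node u rfl rfl
  · exact node (e.node n) rfl rfl
  · obtain ⟨v, hv⟩ := e.adm
    have e1 : pos ⟨r, H e⟩ + s = ((r + s : ℚ) : ℝ) + off e.b := by
      simp only [pos, zoff]; push_cast; ring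
    obtain ⟨N, hN⟩ := adm_lim hv j (r + s)
    have h1 : ∀ᶠ y in 𝓝 (X.mk r (H e)), ∀ n ∈ Finset.range N, ¬ TI (e.node n) y.z := by
      rw [eventually_all_finset]
      intro n _
      exact (test_nhds (.I (e.node n)) _).mono fun y hy h => hy.1 h
    rw [e1]
    filter_upwards [((test_nhds (.J e) ⟨r, H e⟩).and h1).prod_mk hN] with p hp
    obtain ⟨⟨h2, h3⟩, h4, h5⟩ := hp
    have h6 : Hi (H e) j (((r + s : ℚ) : ℝ) + off e.b) ↔ v j (r + s) := hN.self_of_nhds.2
    have h7 : TJ e p.1.z := h2.2 rfl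
    show Hi p.1.z j p.2 ↔ Hi (H e) j _
    rw [h6]
    generalize p.1.z = z at *
    rcases z with _ | u | ⟨e', n⟩ | e'
    · exact h7.elim
    · exact h7.elim
    · have : e' = e := h7
      subst this
      exact h4 n (not_lt.1 fun hn => h3 n (Finset.mem_range.2 hn) rfl)
    · have : e' = e := h7
      subst this
      exact h5

theorem cont_vadd : ContinuousVAdd ℚ X := by
  refine ⟨continuous_iff_continuousAt.2 fun p => ?_⟩
  obtain ⟨q, x⟩ := p
  have hp : Continuous fun p : ℚ × X => pos (p.1 +ᵥ p.2) := by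
    simp only [pos_vadd]
    exact (Rat.continuous_coe_real.comp continuous_fst).add (cont_pos.comp continuous_snd)
  refine tendsto_X hp.continuousAt ?_
  rintro (⟨j, s⟩ | u | e)
  · have e1 : pos (q +ᵥ x) + s = pos x + ((q + s : ℚ) : ℝ) := by
      rw [pos_vadd]; push_cast; ring
    have h1 : Tendsto (fun p : ℚ × X => (p.2, pos (p.1 +ᵥ p.2) + s)) (𝓝 (q, x))
        (𝓝 x ×ˢ 𝓝 (pos x + ((q + s : ℚ) : ℝ))) := by
      refine Tendsto.prodMk continuous_snd.continuousAt ?_
      rw [← e1]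
      exact (hp.add continuous_const).continuousAt
    filter_upwards [h1.eventually (lc x j (q + s))] with p hp'
    show Hi p.2.z j (pos (p.1 +ᵥ p.2) + s) ↔ Hi x.z j (pos (q +ᵥ x) + s)
    rw [e1]; exact hp'
  · exact (continuous_snd.continuousAt (x := (q, x))).eventually (test_nhds (.I u) x)
  · exact (continuous_snd.continuousAt (x := (q, x))).eventually (test_nhds (.J e) x)

theorem convA (w : ℕ → W) (l : ℕ → ℕ) (b : Bool) (hl : StrictMono l) (ha : ∃ v, AdmV w b v)
    (n : ℕ) : Tendsto (fun τ : ℝ => X.mk 0 (Iso ⟨w, l, b, τ, hl, ha⟩ n)) cofinite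
      (𝓝 ⟨0, Inf (w n, l n)⟩) := by
  refine tendsto_X tendsto_const_nhds ?_
  rintro (⟨j, s⟩ | u | e)
  · exact Eventually.of_forall fun τ => Iff.rfl
  · exact Eventually.of_forall fun τ => Iff.rfl
  · filter_upwards [eventually_cofinite_ne e.tag] with τ hτ
    exact iff_of_false (fun h => hτ (congrArg Slice.tag h)) id

theorem convB (e : Slice) (r : ℚ) (ρ : ℕ → ℚ)
    (h : Tendsto (fun n => (ρ n : ℝ)) atTop (𝓝 (r + off e.b))) :
    Tendsto (fun n => X.mk (ρ n) (Iso e n)) atTop (𝓝 ⟨r, H e⟩) := by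
  refine tendsto_X (by simpa [pos, zoff] using h) ?_
  rintro (⟨j, s⟩ | u | e')
  · obtain ⟨v, hv⟩ := e.adm
    obtain ⟨N, hN⟩ := adm_lim hv j (r + s)
    have e1 : pos ⟨r, H e⟩ + s = ((r + s : ℚ) : ℝ) + off e.b := by
      simp only [pos, zoff]; push_cast; ring
    have h1 : Tendsto (fun n => (ρ n : ℝ) + s) atTop (𝓝 (((r + s : ℚ) : ℝ) + off e.b)) := by
      rw [← e1]; exact h.add_const _
    filter_upwards [h1.eventually hN, eventually_ge_atTop N] with n hn hn'
    show High j (e.w n) (pos ⟨ρ n, Iso e n⟩ + s) ↔ Hi (H e) j (pos ⟨r, H e⟩ + s)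
    have h6 : Hi (H e) j (((r + s : ℚ) : ℝ) + off e.b) ↔ v j (r + s) := hN.self_of_nhds.2
    rw [e1, h6, ← hn.1 n hn']
    simp [pos, zoff]
  · filter_upwards [eventually_gt_atTop u.2] with n hn
    refine iff_of_false (fun h => ?_) id
    have h1 : e.l n = u.2 := congrArg Prod.snd h
    have := e.mono.id_le n
    simp only [id] at this
    omega
  · exact Eventually.of_forall fun n => Iff.rfl

theorem convC (l : ℕ → ℕ) : Tendsto (fun k => X.mk 0 (Inf ((k, []), l k))) atTop (𝓝 ⟨0, P⟩) := by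
  refine tendsto_X tendsto_const_nhds ?_
  rintro (⟨j, s⟩ | u | e)
  · filter_upwards [eventually_gt_atTop j] with k hk
    exact iff_of_true (Or.inl hk) trivial
  · filter_upwards [eventually_gt_atTop u.1.1] with k hk
    refine iff_of_false (fun h => ?_) id
    have : k = u.1.1 := congrArg (fun a : Node => a.1.1) h
    omega
  · exact Eventually.of_forall fun n => Iff.rfl

section main

variable (g : X → ℝ) (hg : Continuous g)
  (hu : ∀ ε > 0, ∃ δ > 0, ∀ q : ℚ, |(q : ℝ)| < δ → ∀ x, |g (q +ᵥ x) - g x| < ε)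

include hg hu

theorem cauchy1 (w : ℕ → W) (l : ℕ → ℕ) (b : Bool) (hl : StrictMono l) (ha : ∃ v, AdmV w b v) :
    CauchySeq fun n => g ⟨0, Inf (w n, l n)⟩ := by
  have h1 : ∀ n, {τ : ℝ | g ⟨0, Iso ⟨w, l, b, τ, hl, ha⟩ n⟩ ≠ g ⟨0, Inf (w n, l n)⟩}.Countable := by
    intro n
    have := ((hg.tendsto _).comp (convA w l b hl ha n)).countable_compl_preimage_ker
    rw [ker_nhds] at this
    exact this
  obtain ⟨τ, hτ⟩ : ∃ τ, τ ∉ ⋃ n,
      {τ : ℝ | g ⟨0, Iso ⟨w, l, b, τ, hl, ha⟩ n⟩ ≠ g ⟨0, Inf (w n, l n)⟩} := by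
    by_contra h
    push Not at h
    exact not_countable_univ ((countable_iUnion h1).mono fun τ _ => h τ)
  simp only [mem_iUnion, mem_setOf_eq, not_exists, not_not] at hτ
  set e : Slice := ⟨w, l, b, τ, hl, ha⟩ with he
  rw [Metric.cauchySeq_iff]
  intro ε hε
  obtain ⟨δ, hδ, hq⟩ := hu (ε / 4) (by positivity)
  obtain ⟨r, hr1, hr2⟩ := exists_rat_btwn (show -δ - off b < δ - off b by linarith)
  obtain ⟨ρ', hρ', hρ⟩ := mem_closure_iff_seq_limit.1
    (Rat.denseRange_cast (𝕜 := ℝ) ((r : ℝ) + off b))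
  choose ρ hρ2 using hρ'
  have hρ3 : Tendsto (fun n => (ρ n : ℝ)) atTop (𝓝 (r + off e.b)) := by
    simp only [hρ2]; exact hρ
  have h2 := (hg.tendsto _).comp (convB e r ρ hρ3)
  have h3 : ∀ᶠ n in atTop, |(ρ n : ℝ)| < δ :=
    hρ3.abs.eventually (gt_mem_nhds (abs_lt.2 ⟨by show -δ < r + off b; linarith,
      by show r + off b < δ; linarith⟩))
  have h4 := (Metric.tendsto_nhds.1 h2 (ε / 4) (by positivity)).and h3
  obtain ⟨N, hN⟩ := eventually_atTop.1 h4
  have h5 : ∀ n ≥ N, |g ⟨0, Inf (w n, l n)⟩ - g ⟨r, H e⟩| < ε / 2 := by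
    intro n hn
    have a1 := (hN n hn).1
    have a2 := hq _ (hN n hn).2 ⟨0, Iso e n⟩
    rw [vadd_mk, add_zero, hτ n] at a2
    simp only [Function.comp, Real.dist_eq] at a1
    rw [abs_lt] at *
    constructor <;> linarith [a1.1, a1.2, a2.1, a2.2]
  refine ⟨N, fun m hm n hn => ?_⟩
  have a1 := h5 m hm
  have a2 := h5 n hn
  rw [Real.dist_eq, abs_lt] at *
  constructor <;> linarith [a1.1, a1.2, a2.1, a2.2]

omit hg hu in
theorem adm_const (w : W) : AdmV (fun _ => w) false fun j s => High j w s := by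
  intro j s
  simp only [off, add_zero]
  exact (high_lc j w s).prod_inr _

theorem exists_Gamma : ∃ Γ : W → ℝ,
    (∀ w, Tendsto (fun n => g ⟨0, Inf (w, n)⟩) atTop (𝓝 (Γ w))) ∧
    ∀ (a c : ℕ → W) (b : Bool) (v : ℕ → ℚ → Prop), AdmV a b v → AdmV c b v →
      ∀ ε > 0, ∀ᶠ n in atTop, |Γ (a n) - Γ (c n)| < ε := by
  have h1 := fun w : W => cauchySeq_tendsto_of_complete
    (cauchy1 g hg hu (fun _ => w) id false strictMono_id ⟨_, adm_const w⟩)
  choose Γ hΓ using h1
  refine ⟨Γ, hΓ, fun a c b v ha hc ε hε => ?_⟩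
  let w : ℕ → W := fun n => if n % 2 = 0 then a (n / 2) else c (n / 2)
  have hw : AdmV w b v := by
    intro j s
    have ht : Tendsto (fun p : ℕ × ℝ => (p.1 / 2, p.2)) (atTop ×ˢ 𝓝 ((s : ℝ) + off b))
        (atTop ×ˢ 𝓝 ((s : ℝ) + off b)) :=
      ((Nat.tendsto_div_const_atTop two_ne_zero).comp tendsto_fst).prodMk tendsto_snd
    filter_upwards [ht.eventually (ha j s), ht.eventually (hc j s)] with p h1 h2
    simp only [w]
    split_ifs
    · exact h1
    · exact h2
  obtain ⟨l, hl, hl'⟩ := extraction_forall_of_eventually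
    (P := fun n k => |g ⟨0, Inf (w n, k)⟩ - Γ (w n)| < ε / 3)
    (fun n => Metric.tendsto_nhds.1 (hΓ (w n)) (ε / 3) (by positivity))
  obtain ⟨N, hN⟩ := Metric.cauchySeq_iff.1 (cauchy1 g hg hu w l b hl ⟨v, hw⟩) (ε / 3)
    (by positivity)
  filter_upwards [eventually_ge_atTop N] with n hn
  have a1 := hN (2 * n) (by omega) (2 * n + 1) (by omega)
  have a2 := hl' (2 * n)
  have a3 := hl' (2 * n + 1)
  have e1 : w (2 * n) = a n := by simp [w]
  have e2 : w (2 * n + 1) = c n := by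
    simp only [w]
    rw [if_neg (by omega)]
    congr 1; omega
  rw [e1] at a2
  rw [e2] at a3
  rw [e1, e2, Real.dist_eq] at a1
  rw [abs_lt] at *
  constructor <;> linarith [a1.1, a1.2, a2.1, a2.2, a3.1, a3.2]

omit hg hu in
theorem adm_child (k : ℕ) (S : List (ℚ × ℕ)) (q : ℚ) :
    AdmV (fun m => (k, (q, m) :: S)) false fun j s => High j (k, S) s := by
  intro j s
  have hd : 0 < |(s : ℝ) - (th + q)| := abs_pos.2 fun h =>
    th_ne (s - q) (by push_cast; linarith)
  have h1 : ∀ᶠ m : ℕ in atTop, 1 / ((m : ℝ) + 1) < |(s : ℝ) - (th + q)| / 2 :=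
    tendsto_one_div_add_atTop_nhds_zero_nat.eventually (gt_mem_nhds (by positivity))
  have hc : Continuous fun t : ℝ => |t - (th + q)| := by fun_prop
  have h2 : ∀ᶠ t in 𝓝 (s : ℝ), |(s : ℝ) - (th + q)| / 2 < |t - (th + q)| :=
    continuousAt_const.eventually_lt hc.continuousAt (by linarith)
  simp only [off, add_zero]
  filter_upwards [h1.prod_mk (h2.and (high_lc j (k, S) s))] with p hp
  rw [← hp.2.2]
  simp only [High, InR, List.mem_cons, exists_eq_or_imp]
  have : ¬ |p.2 - (th + q)| < 1 / ((p.1 : ℝ) + 1) := by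
    have := hp.1; have := hp.2.1; linarith
  simp only [this, false_or]

omit hg hu in
theorem adm_top (k : ℕ) : AdmV (fun _ => (k + 1, [])) true fun j _ => j ≤ k := by
  intro j s
  refine Eventually.of_forall fun p => ?_
  simp only [High, InR, List.not_mem_nil, false_and, exists_false, and_false, or_false]
  omega

omit hg hu in
theorem adm_branch (k : ℕ) (S : ℕ → List (ℚ × ℕ))
    (hS : ∀ s : ℚ, ∃ m, ∀ᶠ n in atTop, (s, m) ∈ S n) :
    AdmV (fun n => (k, S n)) true fun j _ => j ≤ k := by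
  intro j s
  obtain ⟨m, hm⟩ := hS s
  have hc : Continuous fun t : ℝ => |t - (th + s)| := by fun_prop
  have h2 : ∀ᶠ t in 𝓝 ((s : ℝ) + off true), |t - (th + s)| < 1 / ((m : ℝ) + 1) :=
    hc.continuousAt.eventually_lt continuousAt_const (by
      simp only [off]
      rw [add_comm, sub_self, abs_zero]; positivity)
  filter_upwards [hm.prod_mk h2] with p hp
  have : InR (S p.1) p.2 := ⟨_, hp.1, hp.2⟩
  simp only [High, this, and_true]
  omega

theorem main (h0 : ∀ n, g ⟨0, Inf ((0, []), n)⟩ = 0) : g ⟨0, P⟩ = 0 := by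
  obtain ⟨Γ, hΓ, hΓ'⟩ := exists_Gamma g hg hu
  obtain ⟨en, hen⟩ := exists_surjective_nat ℚ
  have step : ∀ k, Γ (k + 1, []) = Γ (k, []) := by
    intro k
    refine eq_of_forall_dist_le fun ε hε => ?_
    have h1 : ∀ (n : ℕ) (S : List (ℚ × ℕ)), ∃ m,
        |Γ (k, (en n, m) :: S) - Γ (k, S)| < ε / 2 * (1 / 2) ^ (n + 1) :=
      fun n S => (hΓ' _ _ false _ (adm_child k S _) (adm_const (k, S)) _ (by positivity)).exists
    choose m hm using h1
    obtain ⟨S, hS0, hS1⟩ : ∃ S : ℕ → List (ℚ × ℕ), S 0 = [] ∧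
        ∀ n, S (n + 1) = (en n, m n (S n)) :: S n :=
      ⟨fun n => Nat.rec (motive := fun _ => List (ℚ × ℕ)) []
        (fun n T => (en n, m n T) :: T) n, rfl, fun _ => rfl⟩
    have h2 : ∀ n, |Γ (k, S n) - Γ (k, [])| ≤ ε / 2 * (1 - (1 / 2) ^ n) := by
      intro n
      induction n with
      | zero => simp [hS0]
      | succ n ih =>
        have := hm n (S n)
        rw [← hS1] at this
        rw [pow_succ] at *
        rw [abs_le] at *
        rw [abs_lt] at this
        constructor <;> linarith [ih.1, ih.2, this.1, this.2]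
    have h3 : ∀ s : ℚ, ∃ m, ∀ᶠ n in atTop, (s, m) ∈ S n := by
      intro s
      obtain ⟨i, rfl⟩ := hen s
      refine ⟨m i (S i), eventually_atTop.2 ⟨i + 1, fun n hn => ?_⟩⟩
      induction n, hn using Nat.le_induction with
      | base => rw [hS1]; simp
      | succ n _ ih => rw [hS1]; exact List.mem_cons_of_mem _ ih
    obtain ⟨n, hn⟩ := (hΓ' _ _ true _ (adm_branch k S h3) (adm_top k) (ε / 2)
      (by positivity)).exists
    have a1 := h2 n
    have a2 : (0 : ℝ) < ε / 2 * (1 / 2) ^ n := by positivity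
    rw [Real.dist_eq, abs_le] at *
    rw [abs_lt] at hn
    constructor <;> linarith [a1.1, a1.2, hn.1, hn.2]
  have hz : ∀ k, Γ (k, []) = 0 := by
    intro k
    induction k with
    | zero =>
      have := hΓ (0, [])
      simp only [h0] at this
      exact (tendsto_nhds_unique tendsto_const_nhds this).symm
    | succ k ih => rw [step, ih]
  refine eq_of_forall_dist_le fun ε hε => ?_
  have h1 : ∀ k, ∃ l, dist (g ⟨0, Inf ((k, []), l)⟩) 0 < ε := fun k =>
    (Metric.tendsto_nhds.1 (hz k ▸ hΓ (k, [])) ε hε).exists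
  choose l hl using h1
  have h2 := ((hg.tendsto _).comp (convC l)).dist (tendsto_const_nhds (x := (0 : ℝ)))
  exact le_of_tendsto' h2 fun k => (hl k).le

end main

theorem no_compactification : ¬ ∃ (Y : Type) (_ : TopologicalSpace Y) (_ : AddAction ℚ Y),
    ContinuousVAdd ℚ Y ∧ CompactSpace Y ∧ T2Space Y ∧
    ∃ f : X → Y, Topology.IsEmbedding f ∧ ∀ (q : ℚ) (x : X), f (q +ᵥ x) = q +ᵥ f x := by
  rintro ⟨Y, _, _, _, _, _, f, hf, he⟩
  have hW : {x | test (.F 0 0) x} ∈ 𝓝 (X.mk 0 P) :=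
    (test_nhds (.F 0 0) _).mono fun y hy => hy.2 trivial
  rw [hf.isInducing.nhds_eq_comap, mem_comap] at hW
  obtain ⟨O', hO', hsub⟩ := hW
  obtain ⟨O, hOO, hO, hp⟩ := mem_nhds_iff.1 hO'
  obtain ⟨φ, h0, h1, -⟩ := exists_continuous_zero_one_of_isClosed hO.isClosed_compl
    (isClosed_singleton (x := f ⟨0, P⟩)) (disjoint_singleton_right.2 fun h => h hp)
  have := main (fun x => φ (f x)) (φ.continuous.comp hf.continuous) ?_ ?_
  · rw [h1 rfl] at this
    simp at this
  · intro ε hε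
    have hc : Continuous fun p : ℚ × Y => |φ (p.1 +ᵥ p.2) - φ p.2| := by fun_prop
    have h2 := isCompact_univ.eventually_forall_of_forall_eventually (x₀ := (0 : ℚ))
      (P := fun (q : ℚ) (y : Y) => |φ (q +ᵥ y) - φ y| < ε) fun y _ =>
        hc.continuousAt.eventually_lt continuousAt_const (by simpa using hε)
    obtain ⟨δ, hδ, h3⟩ := Metric.eventually_nhds_iff.1 h2
    refine ⟨δ, hδ, fun q hq x => ?_⟩
    rw [he]
    refine h3 ?_ _ trivial
    rw [Rat.dist_eq]; simpa using hq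
  · intro n
    apply h0
    intro h
    have h2 : High 0 (0, []) _ := hsub (hOO h)
    simp [High, InR] at h2

end Pool.Agent.H31.Smirnov
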