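import Mathlib

set_option autoImplicit false

open Filter Topology Set

namespace Pool.Agent.H31.Smyth

abbrev S : Type := unitInterval

structure X where
  s : S
  z : ℝ

instance : TopologicalSpace X where
  IsOpen U := (∀ z, IsOpen {t | (⟨t, z⟩ : X) ∈ U}) ∧ ∀ x ∈ U, {z | (⟨x.s, z⟩ : X) ∉ U}.Finite ∧
    ∃ W ∈ 𝓝 x.s, {z | ∃ t ∈ W, (⟨t, z⟩ : X) ∉ U}.Countable
  isOpen_univ := ⟨fun _ => isOpen_univ, fun _ _ => ⟨by simp, univ, univ_mem, by simp⟩⟩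
  isOpen_inter := by
    rintro U V ⟨h1, h2⟩ ⟨h3, h4⟩
    refine ⟨fun z => (h1 z).inter (h3 z), fun x hx => ?_⟩
    obtain ⟨a1, W, hW, a2⟩ := h2 x hx.1
    obtain ⟨b1, W', hW', b2⟩ := h4 x hx.2
    refine ⟨(a1.union b1).subset fun z hz => not_and_or.1 hz, W ∩ W', inter_mem hW hW',
      (a2.union b2).mono ?_⟩
    rintro z ⟨t, ht, hz⟩
    rcases not_and_or.1 hz with h | h
    · exact Or.inl ⟨t, ht.1, h⟩
    · exact Or.inr ⟨t, ht.2, h⟩
  isOpen_sUnion := by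
    intro 𝒰 h
    refine ⟨fun z => ?_, ?_⟩
    · rw [isOpen_iff_mem_nhds]
      rintro t ⟨U, hU, ht⟩
      exact mem_of_superset (((h U hU).1 z).mem_nhds ht) fun t' ht' => ⟨U, hU, ht'⟩
    · rintro x ⟨U, hU, hx⟩
      obtain ⟨a1, W, hW, a2⟩ := (h U hU).2 x hx
      refine ⟨a1.subset fun z hz hz' => hz ⟨U, hU, hz'⟩, W, hW, a2.mono ?_⟩
      rintro z ⟨t, ht, hz⟩
      exact ⟨t, ht, fun hz' => hz ⟨U, hU, hz'⟩⟩

theorem isOpenX {U : Set X} : IsOpen U ↔ (∀ z, IsOpen {t | (⟨t, z⟩ : X) ∈ U}) ∧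
    ∀ x ∈ U, {z | (⟨x.s, z⟩ : X) ∉ U}.Finite ∧
      ∃ W ∈ 𝓝 x.s, {z | ∃ t ∈ W, (⟨t, z⟩ : X) ∉ U}.Countable := Iff.rfl

theorem cont_s : Continuous X.s := by
  refine ⟨fun W hW => isOpenX.2 ⟨fun _ => hW, fun x hx => ⟨?_, W, hW.mem_nhds hx, ?_⟩⟩⟩
  · exact finite_empty.subset fun z hz => hz hx
  · exact countable_empty.mono fun z ⟨t, ht, hz⟩ => hz ht

theorem cont_h (z : ℝ) : Continuous fun t : S => (⟨t, z⟩ : X) :=
  ⟨fun _ hU => hU.1 z⟩

theorem closed_seg {N : Set S} (hN : IsClosed N) (z : ℝ) :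
    IsClosed {x : X | x.s ∈ N ∧ x.z = z} := by
  refine ⟨isOpenX.2 ⟨fun w => ?_, fun x _ => ⟨?_, univ, univ_mem, ?_⟩⟩⟩
  · by_cases h : w = z
    · have : {t : S | (⟨t, w⟩ : X) ∈ {x : X | x.s ∈ N ∧ x.z = z}ᶜ} = Nᶜ := by
        ext t
        simp [h]
      rw [this]
      exact hN.isOpen_compl
    · simp [h]
  · exact (finite_singleton z).subset fun w hw => (not_not.1 hw).2
  · exact (countable_singleton z).mono fun w ⟨t, _, hw⟩ => (not_not.1 hw).2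

theorem closed_inj {C : Set X} (hC : C.Countable) (h1 : InjOn X.s C) (h2 : InjOn X.z C) :
    IsClosed C := by
  refine ⟨isOpenX.2 ⟨fun w => ?_, fun x _ => ⟨?_, univ, univ_mem, ?_⟩⟩⟩
  · have : {t : S | (⟨t, w⟩ : X) ∈ C}.Subsingleton := fun a ha b hb =>
      congrArg X.s (h2 ha hb rfl)
    exact this.finite.isClosed.isOpen_compl
  · have : {w | (⟨x.s, w⟩ : X) ∈ C}.Subsingleton := fun a ha b hb =>
      congrArg X.z (h1 ha hb rfl)
    exact this.finite.subset fun w hw => not_not.1 hw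
  · refine (hC.image X.z).mono ?_
    rintro w ⟨t, _, hw⟩
    exact ⟨_, not_not.1 hw, rfl⟩

instance : T1Space X := ⟨fun x => closed_inj (countable_singleton x)
  (subsingleton_singleton.injOn _) (subsingleton_singleton.injOn _)⟩

theorem finite_vert {U A : Set X} (hU : IsOpen U) {x : X} (hx : x ∈ U)
    (hA : ∀ a ∈ A, a.s = x.s) : (A \ U).Finite := by
  refine ((hU.2 x hx).1.image fun z => (⟨x.s, z⟩ : X)).subset fun a ha => ⟨a.z, ?_, ?_⟩
  · show (⟨x.s, a.z⟩ : X) ∉ U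
    rw [← hA a ha.1]
    exact ha.2
  · show (⟨x.s, a.z⟩ : X) = a
    rw [← hA a ha.1]

theorem compact_vert {A : Set X} {s : S} (hA : ∀ a ∈ A, a.s = s) : IsCompact A := by
  rw [isCompact_iff_ultrafilter_le_nhds]
  intro G hG
  have hA' : A ∈ G := le_principal_iff.1 hG
  rcases G.le_cofinite_or_eq_pure with h | ⟨a, rfl⟩
  · obtain ⟨a, ha⟩ := G.nonempty_of_mem hA'
    refine ⟨a, ha, le_nhds_iff.2 fun U haU hU => ?_⟩
    have := h (finite_vert hU haU (A := A) fun b hb => (hA b hb).trans (hA a ha).symm).compl_mem_cofinite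
    filter_upwards [this, hA'] with b hb hb'
    by_contra hc
    exact hb ⟨hb', hc⟩
  · exact ⟨a, hA', pure_le_nhds a⟩

theorem many_lines {U : Set X} (hU : IsOpen U) (h : ∀ s, ∃ z, (⟨s, z⟩ : X) ∈ U) :
    {z | ∃ t, (⟨t, z⟩ : X) ∉ U}.Countable := by
  have := isCompact_univ.induction_on (s := (univ : Set S))
    (p := fun W => {z | ∃ t ∈ W, (⟨t, z⟩ : X) ∉ U}.Countable) (by simp)
    (fun A B hAB hB => hB.mono (by rintro z ⟨t, ht, hz⟩; exact ⟨t, hAB ht, hz⟩))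
    (fun A B hA hB => (hA.union hB).mono (by
      rintro z ⟨t, ht | ht, hz⟩
      · exact Or.inl ⟨t, ht, hz⟩
      · exact Or.inr ⟨t, ht, hz⟩))
    (fun s _ => by
      obtain ⟨z, hz⟩ := h s
      obtain ⟨-, W, hW, hW'⟩ := hU.2 _ hz
      exact ⟨W, nhdsWithin_le_nhds hW, hW'⟩)
  simpa using this

def WF (Y : Type) (s : TopologicalSpace Y) : Prop :=
  @T0Space Y s ∧
    ∀ (𝒦 : Set (Set Y)) (U : Set Y),
      (∀ K ∈ 𝒦, @IsCompact Y s K ∧
        ∀ y : Y, (∀ V : Set Y, @IsOpen Y s V → K ⊆ V → y ∈ V) → y ∈ K) →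
      𝒦.Nonempty → (∀ K₁ ∈ 𝒦, ∀ K₂ ∈ 𝒦, ∃ K₃ ∈ 𝒦, K₃ ⊆ K₁ ∩ K₂) →
      @IsOpen Y s U → ⋂₀ 𝒦 ⊆ U → ∃ K ∈ 𝒦, K ⊆ U

def WFD (Z : Type) (t : TopologicalSpace Z) : Prop :=
  ∀ A : Set Z, @IsClosed Z t A → @IsIrreducible Z t A →
    ∀ (Y : Type) (s : TopologicalSpace Y) (f : Z → Y), WF Y s → @Continuous Z Y t s f →
      ∃ y : Y, @closure Y s (f '' A) = @closure Y s {y}

def sat {Y : Type} [TopologicalSpace Y] (K : Set Y) : Set Y :=
  {y | ∀ V, IsOpen V → K ⊆ V → y ∈ V}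

theorem sat_compact {Y : Type} [TopologicalSpace Y] {K : Set Y} (hK : IsCompact K) :
    IsCompact (sat K) := by
  refine isCompact_of_finite_subcover fun U hU h => ?_
  obtain ⟨t, ht⟩ := hK.elim_finite_subcover U hU fun y hy => h fun V _ hV => hV hy
  exact ⟨t, fun y hy => hy _ (isOpen_biUnion fun i _ => hU i) ht⟩

theorem wfd : WFD X inferInstance := by
  intro A hA hi Y _ f hY hf
  obtain ⟨a, ha⟩ := hi.1
  have hv : ∀ b ∈ A, b.s = a.s := fun b hb =>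
    (hi.2.image _ cont_s.continuousOn).subsingleton ⟨b, hb, rfl⟩ ⟨a, ha, rfl⟩
  by_cases hfin : A.Finite
  · have h1 : A ⊆ {a} ∪ (A \ {a}) := fun b hb => (em (b = a)).imp id fun h => ⟨hb, h⟩
    rcases isPreirreducible_iff_isClosed_union_isClosed.1 hi.2 _ _ isClosed_singleton
      (hfin.subset diff_subset).isClosed h1 with h | h
    · refine ⟨f a, ?_⟩
      rw [subset_antisymm h (singleton_subset_iff.2 ha), image_singleton]
    · exact absurd rfl (h ha).2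
  have hne : ∀ F : Set X, F.Finite → (A \ F).Nonempty := fun F hF =>
    (Infinite.diff hfin hF).nonempty
  have key : ¬ ⋂₀ ((fun F => sat (f '' (A \ F))) '' {F | F.Finite}) ⊆ (closure (f '' A))ᶜ := by
    intro h
    obtain ⟨_, ⟨F, hF, rfl⟩, hK⟩ := hY.2 _ _ (by
        rintro _ ⟨F, -, rfl⟩
        exact ⟨sat_compact ((compact_vert fun b hb => hv b hb.1).image hf),
          fun y hy V hV hV' => hy V hV fun y' hy' => hy' V hV hV'⟩)
      (Nonempty.image _ ⟨∅, finite_empty⟩) (by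
        rintro _ ⟨F, hF, rfl⟩ _ ⟨G, hG, rfl⟩
        refine ⟨_, ⟨F ∪ G, Finite.union hF hG, rfl⟩, fun y hy => ⟨fun V hV hV' => hy V hV
          ((image_mono (diff_subset_diff_right subset_union_left)).trans hV'),
          fun V hV hV' => hy V hV
          ((image_mono (diff_subset_diff_right subset_union_right)).trans hV')⟩⟩)
      isClosed_closure.isOpen_compl h
    obtain ⟨b, hb⟩ := hne F hF
    exact hK (fun V _ hV => hV ⟨b, hb, rfl⟩) (subset_closure ⟨b, hb.1, rfl⟩)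
  obtain ⟨y, hy, hy'⟩ := not_subset.1 key
  refine ⟨y, subset_antisymm (closure_minimal ?_ isClosed_closure)
    (closure_minimal (singleton_subset_iff.2 (not_not.1 hy')) isClosed_closure)⟩
  rintro _ ⟨b, hb, rfl⟩
  by_contra hc
  have hU : IsOpen (f ⁻¹' (closure {y})ᶜ) := isClosed_closure.isOpen_compl.preimage hf
  have hF := finite_vert hU (x := b) hc (A := A) fun c hc' => (hv c hc').trans (hv b hb).symm
  refine hy _ ⟨_, hF, rfl⟩ _ isClosed_closure.isOpen_compl ?_ (subset_closure (mem_singleton y))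
  rintro _ ⟨c, hc', rfl⟩
  by_contra h
  exact hc'.2 ⟨hc'.1, h⟩

def Full (K : Set X) : Prop := ∀ s, ∃ z, (⟨s, z⟩ : X) ∈ K

def Y : Type := {K : Set X // IsCompact K ∧ (K = ∅ ∨ Full K)}

def box (U : Set X) : Set Y := {K | K.1 ⊆ U}

instance : TopologicalSpace Y :=
  TopologicalSpace.generateFrom {S | ∃ U : Set X, IsOpen U ∧ S = box U}

theorem isOpen_box {U : Set X} (hU : IsOpen U) : IsOpen (box U) :=
  TopologicalSpace.isOpen_generateFrom_of_mem ⟨U, hU, rfl⟩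

theorem basis_gen {P : Set X → Prop} {V : Set {K // P K}}
    (hV : TopologicalSpace.GenerateOpen {S | ∃ U : Set X, IsOpen U ∧ S = {K | K.1 ⊆ U}} V) :
    ∀ K ∈ V, ∃ U, IsOpen U ∧ K.1 ⊆ U ∧ ∀ L : {K // P K}, L.1 ⊆ U → L ∈ V := by
  induction hV with
  | basic s hs =>
    obtain ⟨U, hU, rfl⟩ := hs
    exact fun K hK => ⟨U, hU, hK, fun _ h => h⟩
  | univ => exact fun K _ => ⟨univ, isOpen_univ, subset_univ _, fun _ _ => trivial⟩
  | inter s t _ _ h1 h2 =>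
    intro K hK
    obtain ⟨U, a1, a2, a3⟩ := h1 K hK.1
    obtain ⟨V, b1, b2, b3⟩ := h2 K hK.2
    exact ⟨U ∩ V, a1.inter b1, subset_inter a2 b2, fun L hL =>
      ⟨a3 L (hL.trans inter_subset_left), b3 L (hL.trans inter_subset_right)⟩⟩
  | sUnion S _ h =>
    rintro K ⟨s, hs, hK⟩
    obtain ⟨U, a1, a2, a3⟩ := h s hs K hK
    exact ⟨U, a1, a2, fun L hL => ⟨s, hs, a3 L hL⟩⟩

theorem basis {V : Set Y} (hV : IsOpen V) {K : Y} (hK : K ∈ V) :
    ∃ U, IsOpen U ∧ K.1 ⊆ U ∧ box U ⊆ V := basis_gen hV K hK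

theorem up {V : Set Y} (hV : IsOpen V) {K L : Y} (hK : K ∈ V) (h : L.1 ⊆ K.1) : L ∈ V := by
  obtain ⟨U, -, a2, a3⟩ := basis hV hK
  exact a3 (h.trans a2)

theorem sub_of_closure {K L : Y} (h : K ∈ closure {L}) : L.1 ⊆ K.1 := by
  intro x hx
  by_contra hc
  obtain ⟨_, h1, rfl⟩ := mem_closure_iff.1 h (box {x}ᶜ) (isOpen_box isOpen_compl_singleton)
    (fun y hy h => hc (h ▸ hy))
  exact h1 hx rfl

instance : T0Space Y := ⟨fun _ _ h => Subtype.ext (subset_antisymm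
  (sub_of_closure h.specializes.mem_closure) (sub_of_closure h.specializes'.mem_closure))⟩

theorem lines {𝒦 : Set Y} (h : IsCompact 𝒦) :
    ∃ F : Finset X, ∀ K ∈ 𝒦, ∀ y ∈ K.1, ∃ x ∈ F, x.s = y.s ∨ x.z = y.z := by
  by_contra hc
  push Not at hc
  obtain ⟨x, hx, hx'⟩ := exists_seq_of_forall_finset_exists (fun y => ∃ K ∈ 𝒦, y ∈ K.1)
    (fun a b : X => a.s ≠ b.s ∧ a.z ≠ b.z) fun F _ => by
      obtain ⟨K, hK, y, hy, h⟩ := hc F
      exact ⟨y, ⟨K, hK, hy⟩, h⟩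
  have i1 : ∀ m n, (x m).s = (x n).s → m = n := fun m n h => by
    rcases lt_trichotomy m n with h1 | h1 | h1
    · exact absurd h (hx' _ _ h1).1
    · exact h1
    · exact absurd h.symm (hx' _ _ h1).1
  have i2 : ∀ m n, (x m).z = (x n).z → m = n := fun m n h => by
    rcases lt_trichotomy m n with h1 | h1 | h1
    · exact absurd h (hx' _ _ h1).2
    · exact h1
    · exact absurd h.symm (hx' _ _ h1).2
  have hU : ∀ n, IsOpen (x '' Ici n)ᶜ := fun n => (closed_inj ((to_countable _).image _)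
    (by rintro _ ⟨a, -, rfl⟩ _ ⟨b, -, rfl⟩ h; rw [i1 a b h])
    (by rintro _ ⟨a, -, rfl⟩ _ ⟨b, -, rfl⟩ h; rw [i2 a b h])).isOpen_compl
  have hm : Monotone fun n => (x '' Ici n)ᶜ := fun a b hab =>
    compl_subset_compl.2 (image_mono (Ici_subset_Ici.2 hab))
  have hcov : ∀ y, y ∈ ⋃ n, (x '' Ici n)ᶜ := by
    intro y
    by_cases h : ∃ n, x n = y
    · obtain ⟨n, rfl⟩ := h
      refine mem_iUnion.2 ⟨n + 1, ?_⟩
      rintro ⟨m, hm, h⟩
      have := i1 _ _ (congrArg X.s h)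
      have : n + 1 ≤ m := hm
      omega
    · exact mem_iUnion.2 ⟨0, fun ⟨m, _, hm⟩ => h ⟨m, hm⟩⟩
  obtain ⟨n, hn⟩ := h.elim_directed_cover (fun n => box (x '' Ici n)ᶜ)
    (fun n => isOpen_box (hU n)) (fun K _ => mem_iUnion.2 (K.2.1.elim_directed_cover _ hU
      (fun y _ => hcov y) hm.directed_le))
    (Monotone.directed_le fun a b hab K hK => Subset.trans hK (hm hab))
  obtain ⟨K, hK, hy⟩ := hx n
  exact hn hK hy ⟨n, mem_Ici.2 le_rfl, rfl⟩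

def lim (G : Ultrafilter Y) : Set X :=
  {x | ∀ N ∈ 𝓝 x.s, {K : Y | ∃ t ∈ N, (⟨t, x.z⟩ : X) ∈ K.1} ∈ G}

theorem lim_meet (G : Ultrafilter Y) (z : ℝ) {C : Set S} (hC : IsCompact C)
    (h : ∀ t ∈ C, (⟨t, z⟩ : X) ∉ lim G) : ∀ᶠ K : Y in G, ∀ t ∈ C, (⟨t, z⟩ : X) ∉ K.1 := by
  refine hC.induction_on (p := fun C => ∀ᶠ K : Y in G, ∀ t ∈ C, (⟨t, z⟩ : X) ∉ K.1) (by simp)
    (fun A B hAB hB => hB.mono fun K hK t ht => hK t (hAB ht))
    (fun A B hA hB => (hA.and hB).mono fun K hK t ht => ht.elim (hK.1 t) (hK.2 t)) fun t ht => ?_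
  have := h t ht
  simp only [lim, mem_setOf_eq, not_forall] at this
  obtain ⟨N, hN, hN'⟩ := this
  refine ⟨N, nhdsWithin_le_nhds hN, ?_⟩
  filter_upwards [Ultrafilter.compl_mem_iff_notMem.2 hN'] with K hK t ht hK'
  exact hK ⟨t, ht, hK'⟩

theorem lim_closed (G : Ultrafilter Y) (z : ℝ) : IsClosed {t | (⟨t, z⟩ : X) ∈ lim G} := by
  rw [← closure_subset_iff_isClosed]
  intro t ht N hN
  obtain ⟨t', h1, h2⟩ := mem_closure_iff_nhds.1 ht _ (eventually_mem_nhds_iff.2 hN)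
  exact h2 N h1

theorem lim_sub (G : Ultrafilter Y) {L : Y} (h : ↑G ≤ 𝓝 L) : lim G ⊆ L.1 := by
  intro x hx
  by_contra hc
  have h1 : IsClosed (X.s '' (L.1 ∩ {y | y.s ∈ univ ∧ y.z = x.z})) :=
    ((L.2.1.inter_right (closed_seg isClosed_univ _)).image cont_s).isClosed
  have h2 : x.s ∉ X.s '' (L.1 ∩ {y | y.s ∈ univ ∧ y.z = x.z}) := by
    rintro ⟨⟨t, w⟩, ⟨a1, -, a2⟩, a3⟩
    obtain ⟨t', w'⟩ := x
    simp only at a2 a3
    subst a2 a3
    exact hc a1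
  obtain ⟨N, hN, hN1, hN2⟩ := exists_mem_nhds_isClosed_subset (h1.isOpen_compl.mem_nhds h2)
  have h3 : box {y : X | y.s ∈ N ∧ y.z = x.z}ᶜ ∈ G :=
    h ((isOpen_box (closed_seg hN1 _).isOpen_compl).mem_nhds fun y hy hy' =>
      hN2 hy'.1 ⟨y, ⟨hy, trivial, hy'.2⟩, rfl⟩)
  obtain ⟨K, a1, t, a2, a3⟩ := G.nonempty_of_mem (inter_mem h3 (hx N hN))
  exact a1 a3 ⟨a2, rfl⟩

section
variable (G : Ultrafilter Y) (F : Finset X)
  (hF : ∀ᶠ K : Y in G, Full K.1 ∧ ∀ y ∈ K.1, ∃ x ∈ F, x.s = y.s ∨ x.z = y.z)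
include hF

theorem lim_compact : IsCompact (lim G) := by
  have : lim G = ⋃ x ∈ F, ((fun t : S => (⟨t, x.z⟩ : X)) '' {t | (⟨t, x.z⟩ : X) ∈ lim G} ∪
      {y | y ∈ lim G ∧ y.s = x.s}) := by
    refine subset_antisymm (fun y hy => ?_) (iUnion₂_subset fun x _ => union_subset
      (by rintro _ ⟨t, ht, rfl⟩; exact ht) fun y hy => hy.1)
    by_contra hc
    simp only [mem_iUnion, mem_union, not_exists, not_or] at hc
    have h1 : (X.s '' F)ᶜ ∈ 𝓝 y.s := (F.finite_toSet.image _).isClosed.isOpen_compl.mem_nhds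
      fun ⟨x, hx, h⟩ => (hc x hx).2 ⟨hy, h.symm⟩
    obtain ⟨K, ⟨-, a1⟩, t, a2, a3⟩ := G.nonempty_of_mem (inter_mem hF (hy _ h1))
    obtain ⟨x, hx, h | h⟩ := a1 _ a3
    · exact a2 ⟨x, hx, h⟩
    · have h' : x.z = y.z := h
      exact (hc x hx).1 ⟨y.s, by rw [h']; exact hy, by simp only [h']⟩
  rw [this]
  exact F.isCompact_biUnion fun x _ => ((lim_closed G _).isCompact.image (cont_h _)).union
    (compact_vert fun y hy => hy.2)

theorem lim_full : Full (lim G) := by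
  intro s
  by_contra hc
  push Not at hc
  have h1 : ∀ z, ∃ N ∈ 𝓝 s, ∀ᶠ K : Y in G, ∀ t ∈ N, (⟨t, z⟩ : X) ∉ K.1 := by
    intro z
    obtain ⟨N, hN, hN1, hN2⟩ := exists_mem_nhds_isClosed_subset
      ((lim_closed G z).isOpen_compl.mem_nhds (hc z))
    exact ⟨N, hN, lim_meet G z hN1.isCompact hN2⟩
  choose N hN hN' using h1
  have h2 : ∀ᶠ K : Y in G, ∀ x ∈ F, ∀ t ∈ N x.z, (⟨t, x.z⟩ : X) ∉ K.1 :=
    (Finset.eventually_all F).2 fun x _ => hN' x.z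
  obtain ⟨K, ⟨a1, a2⟩, a3⟩ := (hF.and h2).exists
  have h3 : ⋂ x ∈ F, N x.z ∈ 𝓝 s := (biInter_finset_mem F).2 fun x _ => hN x.z
  obtain ⟨t, ht, -, ht'⟩ := mem_closure_iff_nhds.1
    (dense_univ.diff_finite (F.finite_toSet.image X.s) s) _ h3
  obtain ⟨z, hz⟩ := a1 t
  obtain ⟨x, hx, h | h⟩ := a2 _ hz
  · exact ht' ⟨x, hx, h⟩
  · have h' : x.z = z := h
    exact a3 x hx t (mem_iInter₂.1 ht x hx) (h' ▸ hz)

theorem lim_box {U : Set X} (hU : IsOpen U) (h : lim G ⊆ U) : box U ∈ G := by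
  have h1 : ∀ z, ∀ᶠ K : Y in G, ∀ t, (⟨t, z⟩ : X) ∉ U → (⟨t, z⟩ : X) ∉ K.1 := fun z =>
    lim_meet G z (hU.1 z).isClosed_compl.isCompact fun t ht ht' => ht (h ht')
  have h2 : ∀ s, {z | (⟨s, z⟩ : X) ∉ U}.Finite := fun s => by
    obtain ⟨z, hz⟩ := lim_full G F hF s
    exact (hU.2 _ (h hz)).1
  have h3 : (X.z '' F ∪ ⋃ x ∈ F, {z | (⟨x.s, z⟩ : X) ∉ U}).Finite :=
    (F.finite_toSet.image _).union (F.finite_toSet.biUnion fun x _ => h2 x.s)
  filter_upwards [hF, (eventually_all_finite h3).2 fun z _ => h1 z] with K hK hK' y hy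
  by_contra hc
  refine hK' y.z ?_ y.s hc hy
  obtain ⟨x, hx, h | h⟩ := hK.2 y hy
  · exact Or.inr (mem_iUnion₂.2 ⟨x, hx, by rw [h]; exact hc⟩)
  · exact Or.inl ⟨x, hx, h⟩

end

def emp : Y := ⟨∅, isCompact_empty, Or.inl rfl⟩

theorem wf : WF Y inferInstance := by
  refine ⟨inferInstance, fun 𝒦 V h1 h2 h3 hV h4 => ?_⟩
  by_contra hc
  push Not at hc
  have hne : ∀ K ∈ 𝒦, (K \ V).Nonempty := fun K hK => diff_nonempty.2 (hc K hK)
  have he : emp ∈ V := h4 fun K hK => (h1 K hK).2 _ fun W hW hW' =>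
    up hW (hW' (hne K hK).some_mem.1) (empty_subset _)
  haveI : Nonempty 𝒦 := h2.to_subtype
  haveI : Nonempty Y := ⟨emp⟩
  have hb : NeBot (⨅ K : 𝒦, 𝓟 (K.1 \ V)) := by
    refine iInf_neBot_of_directed (fun K L => ?_) fun K => principal_neBot_iff.2 (hne _ K.2)
    obtain ⟨M, hM, hM'⟩ := h3 _ K.2 _ L.2
    exact ⟨⟨M, hM⟩, principal_mono.2 (diff_subset_diff_left (hM'.trans inter_subset_left)),
      principal_mono.2 (diff_subset_diff_left (hM'.trans inter_subset_right))⟩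
  let G := Ultrafilter.of (⨅ K : 𝒦, 𝓟 (K.1 \ V))
  have hG : ∀ K ∈ 𝒦, K \ V ∈ G := fun K hK =>
    le_principal_iff.1 ((Ultrafilter.of_le _).trans (iInf_le _ (⟨K, hK⟩ : 𝒦)))
  obtain ⟨K0, hK0⟩ := h2
  obtain ⟨F, hF⟩ := lines (h1 K0 hK0).1
  have hF' : ∀ᶠ K : Y in G, Full K.1 ∧ ∀ y ∈ K.1, ∃ x ∈ F, x.s = y.s ∨ x.z = y.z := by
    filter_upwards [hG K0 hK0] with K hK
    refine ⟨K.2.2.resolve_left fun h => hK.2 (up hV he h.subset), hF K hK.1⟩
  let L : Y := ⟨lim G, lim_compact G F hF', Or.inr (lim_full G F hF')⟩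
  have hL : L ∈ V := h4 fun K hK => by
    obtain ⟨M, hM, hM'⟩ := (h1 K hK).1.ultrafilter_le_nhds' G
      (mem_of_superset (hG K hK) diff_subset)
    exact (h1 K hK).2 _ fun W hW hW' => up hW (hW' hM) (lim_sub G hM')
  obtain ⟨U, a1, a2, a3⟩ := basis hV hL
  obtain ⟨K, b1, b2⟩ := G.nonempty_of_mem (inter_mem (lim_box G F hF' a1 a2) (hG K0 hK0))
  exact b2.2 (a3 b1)

abbrev P : Type := {K : Set X // K.Nonempty ∧ IsCompact K ∧
  ∀ x : X, (∀ V : Set X, IsOpen V → K ⊆ V → x ∈ V) → x ∈ K}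

abbrev tP : TopologicalSpace P :=
  TopologicalSpace.generateFrom {S | ∃ U : Set X, IsOpen U ∧ S = {K | K.1 ⊆ U}}

def line (z : ℝ) : P := ⟨range fun t : S => (⟨t, z⟩ : X), range_nonempty _,
  isCompact_range (cont_h z), fun x hx => by
    by_contra hc
    exact hx {x}ᶜ isOpen_compl_singleton (fun y hy h => hc (h ▸ hy)) rfl⟩

theorem line_full (z : ℝ) : Full (line z).1 := fun s => ⟨z, s, rfl⟩

open Classical in
noncomputable def fm (K : P) : Y := if h : Full K.1 then ⟨K.1, K.2.2.1, Or.inr h⟩ else emp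

theorem fm_full {K : P} (h : Full K.1) : (fm K).1 = K.1 := by simp [fm, h]

theorem not_wfd : ¬ WFD P tP := by
  intro h
  letI := tP
  have hbox : ∀ U : Set X, IsOpen U → IsOpen {K : P | K.1 ⊆ U} := fun U hU =>
    TopologicalSpace.isOpen_generateFrom_of_mem ⟨U, hU, rfl⟩
  have hcl : IsOpen {K : P | Full K.1}ᶜ := by
    have : {K : P | Full K.1}ᶜ = ⋃ s : S, {K : P | K.1 ⊆ X.s ⁻¹' {s}ᶜ} := by
      ext K
      simp only [mem_compl_iff, mem_setOf_eq, Full, not_forall, not_exists, mem_iUnion]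
      exact exists_congr fun s => ⟨fun h y hy hs => h y.z (by rw [← mem_singleton_iff.1 hs]; exact hy),
        fun h z hz => h hz rfl⟩
    rw [this]
    exact isOpen_iUnion fun s => hbox _ (isOpen_compl_singleton.preimage cont_s)
  have hirr : IsIrreducible {K : P | Full K.1} := by
    refine ⟨⟨line 0, line_full 0⟩, ?_⟩
    rintro V W hV hW ⟨K, hK, hKV⟩ ⟨L, hL, hLW⟩
    obtain ⟨U, a1, a2, a3⟩ := basis_gen hV K hKV
    obtain ⟨U', b1, b2, b3⟩ := basis_gen hW L hLW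
    have c1 := many_lines a1 fun s => (hK s).imp fun z hz => a2 hz
    have c2 := many_lines b1 fun s => (hL s).imp fun z hz => b2 hz
    obtain ⟨z, hz⟩ : ∃ z, z ∉ {z | ∃ t, (⟨t, z⟩ : X) ∉ U} ∪ {z | ∃ t, (⟨t, z⟩ : X) ∉ U'} := by
      by_contra hc
      push Not at hc
      exact not_countable_univ ((c1.union c2).mono fun z _ => hc z)
    refine ⟨line z, line_full z, a3 _ ?_, b3 _ ?_⟩
    · rintro _ ⟨t, rfl⟩
      by_contra hc
      exact hz (Or.inl ⟨t, hc⟩)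
    · rintro _ ⟨t, rfl⟩
      by_contra hc
      exact hz (Or.inr ⟨t, hc⟩)
  have hcont : Continuous fm := by
    refine continuous_generateFrom_iff.2 ?_
    rintro _ ⟨U, hU, rfl⟩
    have : fm ⁻¹' box U = {K : P | K.1 ⊆ U} ∪ {K : P | Full K.1}ᶜ := by
      ext K
      by_cases hK : Full K.1
      · simp [box, fm_full hK, hK]
      · simp [box, fm, hK, emp]
    rw [this]
    exact (hbox U hU).union hcl
  obtain ⟨L, hL⟩ := h _ ⟨hcl⟩ hirr Y inferInstance fm wf hcont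
  have h1 : ∀ z, L.1 ⊆ (line z).1 := fun z => by
    rw [← fm_full (line_full z)]
    exact sub_of_closure (hL ▸ subset_closure ⟨_, line_full z, rfl⟩)
  have h2 : L ∈ box ∅ := by
    intro x hx
    obtain ⟨s, hs⟩ := h1 0 hx
    obtain ⟨t, ht⟩ := h1 1 hx
    exact zero_ne_one (congrArg X.z (hs.trans ht.symm))
  have h3 : L ∈ closure (fm '' {K : P | Full K.1}) := hL ▸ subset_closure rfl
  obtain ⟨_, a1, K, hK, rfl⟩ := mem_closure_iff.1 h3 _ (isOpen_box isOpen_empty) h2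
  obtain ⟨x, hx⟩ := K.2.1
  exact a1 (by rw [fm_full hK]; exact hx)

end Pool.Agent.H31.Smyth
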