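import Pool.Agent.H31.SnfDefs
import Pool.Agent.H31.KSp2

namespace Pool.Agent.H31.Snf

open Set Filter Topology Uniformity

universe u

theorem seq_of {X : Type u} [TopologicalSpace X] [T3Space X] [CompactlyCoherentSpace X]
    (h : RegGdDiag X) : SequentialSpace X := by
  obtain ⟨U, hU, hUd⟩ := h
  refine ⟨fun A hA => (CompactlyCoherentSpace.isClosed_iff A).mpr fun K hK => ?_⟩
  have h1 : closure (K ∩ A) ⊆ A := by
    intro x hx
    have h2 : ∀ m, ∃ V ∈ 𝓝 x, IsClosed V ∧ V ⊆ Prod.mk x ⁻¹' U m := fun m =>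
      exists_mem_nhds_isClosed_subset (((hU m).1.preimage (Continuous.prodMk_right x)).mem_nhds
        ((hU m).2 rfl))
    choose V hV1 hV2 hV3 using h2
    have h3 : ∀ m, ∃ a ∈ K ∩ A, ∀ j ≤ m, a ∈ V j := by
      intro m
      obtain ⟨a, ha, h4⟩ := mem_closure_iff_nhds.mp hx (⋂ j ∈ Iic m, V j)
        ((biInter_mem (finite_Iic m)).mpr fun j _ => hV1 j)
      exact ⟨a, h4, fun j hj => mem_iInter₂.mp ha j hj⟩
    choose a ha haV using h3
    refine hA (fun m => (ha m).2) (hK.tendsto_nhds_of_unique_mapClusterPt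
      (Eventually.of_forall fun m => (ha m).1) fun y _ hy => ?_)
    have h4 : (x, y) ∈ ⋂ m, closure (U m) := mem_iInter.mpr fun m => subset_closure (hV3 m
      ((hV2 m).mem_of_mapClusterPt hy (eventually_atTop.mpr ⟨m, fun k hk => haV k m hk⟩)))
    rw [hUd] at h4
    exact (show x = y from h4).symm
  have h2 : (Subtype.val ⁻¹' A : Set K) = Subtype.val ⁻¹' closure (K ∩ A) :=
    Set.ext fun y => ⟨fun hy => subset_closure ⟨y.2, hy⟩, fun hy => h1 hy⟩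
  rw [h2]
  exact isClosed_closure.preimage continuous_subtype_val

theorem snf_seq {Y : Type u} {τ : TopologicalSpace Y} (h : SnfCountable Y τ) (y : Y) :
    ∃ P : ℕ → Set Y, Antitone P ∧ (∀ m, SeqNhd y (P m)) ∧ ∀ U ∈ 𝓝 y, ∃ m, P m ⊆ U := by
  obtain ⟨𝒞, hc, h1, h2, -⟩ := h y
  obtain ⟨P₀, hP₀, -⟩ := h2 univ isOpen_univ trivial
  obtain ⟨P, rfl⟩ := hc.exists_eq_range ⟨P₀, hP₀⟩
  refine ⟨fun m => ⋂ j ∈ Iic m, P j, fun a b hab => biInter_subset_biInter_left fun j hj =>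
    le_trans hj hab, fun m s hs => ?_, fun U hU => ?_⟩
  · have h3 : ∀ᶠ k in atTop, ∀ j ∈ Iic m, s k ∈ P j :=
      (finite_Iic m).eventually_all.mpr fun j _ => (h1 _ ⟨j, rfl⟩).2 s hs
    exact h3.mono fun k hk => mem_iInter₂.mpr hk
  · obtain ⟨_, ⟨m, rfl⟩, h3⟩ := h2 _ isOpen_interior (mem_interior_iff_mem_nhds.mpr hU)
    exact ⟨m, (biInter_subset_of_mem (mem_Iic.mpr le_rfl)).trans (h3.trans interior_subset)⟩

theorem snf_of_seq {Y : Type u} {τ : TopologicalSpace Y}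
    (h : ∀ y : Y, ∃ P : ℕ → Set Y, Antitone P ∧ (∀ m, SeqNhd y (P m)) ∧
      ∀ U ∈ 𝓝 y, ∃ m, P m ⊆ U) : SnfCountable Y τ := by
  intro y
  obtain ⟨P, h1, h2, h3⟩ := h y
  refine ⟨range P, countable_range _, ?_, fun U hU hy => ?_, ?_⟩
  · rintro _ ⟨m, rfl⟩
    exact ⟨(h2 m (fun _ => y) tendsto_const_nhds).exists.choose_spec, h2 m⟩
  · obtain ⟨m, hm⟩ := h3 U (hU.mem_nhds hy)
    exact ⟨_, ⟨m, rfl⟩, hm⟩
  · rintro _ ⟨a, rfl⟩ _ ⟨b, rfl⟩
    exact ⟨_, ⟨max a b, rfl⟩, subset_inter (h1 (le_max_left _ _)) (h1 (le_max_right _ _))⟩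

theorem snf_sub {G : Type u} [TopologicalSpace G] {S : Set G} (h : SnfCountable S inferInstance)
    {g : G} (hg : g ∈ S) : ∃ P : ℕ → Set G, Antitone P ∧
      (∀ s : ℕ → G, (∀ k, s k ∈ S) → Tendsto s atTop (𝓝 g) → ∀ m, ∀ᶠ k in atTop, s k ∈ P m) ∧
      ∀ U ∈ 𝓝 g, ∃ m, P m ⊆ U := by
  obtain ⟨P, h1, h2, h3⟩ := snf_seq h ⟨g, hg⟩
  refine ⟨fun m => Subtype.val '' P m, fun a b hab => image_mono (h1 hab), fun s hs hsg m => ?_,
    fun U hU => ?_⟩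
  · exact (h2 m (fun k => ⟨s k, hs k⟩) (tendsto_subtype_rng.mpr hsg)).mono fun k hk => ⟨_, hk, rfl⟩
  · obtain ⟨m, hm⟩ := h3 _ (continuous_subtype_val.continuousAt.preimage_mem_nhds hU)
    exact ⟨m, image_subset_iff.mpr hm⟩

theorem snf_of_sub {G : Type u} [TopologicalSpace G] {S : Set G}
    (h : ∀ g ∈ S, ∃ P : ℕ → Set G, Antitone P ∧
      (∀ s : ℕ → G, (∀ k, s k ∈ S) → Tendsto s atTop (𝓝 g) → ∀ m, ∀ᶠ k in atTop, s k ∈ P m) ∧
      ∀ U ∈ 𝓝 g, ∃ m, P m ⊆ U) : SnfCountable S inferInstance := by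
  refine snf_of_seq fun y => ?_
  obtain ⟨P, h1, h2, h3⟩ := h y y.2
  refine ⟨fun m => Subtype.val ⁻¹' P m, fun a b hab => preimage_mono (h1 hab), fun m s hs =>
    h2 (fun k => s k) (fun k => (s k).2) (tendsto_subtype_rng.mp hs) m, fun U hU => ?_⟩
  obtain ⟨V, hV, hVU⟩ := (mem_nhds_subtype _ _ _).mp hU
  obtain ⟨m, hm⟩ := h3 V hV
  exact ⟨m, (preimage_mono hm).trans hVU⟩

theorem stepM {X : Type u} [τ : TopologicalSpace X] [T35Space X] [SequentialSpace X]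
    (𝒱 : Filter (X × X)) (E : ℕ → Set (X × X)) (hE : Antitone E)
    (h1 : ∀ V ∈ 𝒱, ∃ m, E m ⊆ V)
    (h2 : ∀ z : ℕ → X × X, Tendsto z atTop 𝒱 → ∀ m, ∀ᶠ k in atTop, z k ∈ E m)
    (hsymm : Tendsto Prod.swap 𝒱 𝒱)
    (htri : ∀ a b c : ℕ → X, Tendsto (fun k => (a k, b k)) atTop 𝒱 →
      Tendsto (fun k => (b k, c k)) atTop 𝒱 → Tendsto (fun k => (a k, c k)) atTop 𝒱)
    (hconv : ∀ (a : ℕ → X) (x : X), Tendsto a atTop (𝓝 x) → Tendsto (fun k => (x, a k)) atTop 𝒱)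
    (hfun : ∀ f : X → ℝ, Continuous f → {z : X × X | |f z.1 - f z.2| < 1} ∈ 𝒱) :
    ∃ ρ : MetricSpace X, ρ.toUniformSpace.toTopologicalSpace = τ ∧
      ∀ V ∈ 𝒱, ∃ δ > (0 : ℝ), ∀ x y, ρ.dist x y < δ → (x, y) ∈ V := by
  have hb : (⨅ m, 𝓟 (E m)).HasAntitoneBasis E := HasAntitoneBasis.iInf_principal hE
  have h3 : ∀ z : ℕ → X × X, (∀ k, z k ∈ E k) → Tendsto z atTop 𝒱 := fun z hz V hV => by
    obtain ⟨m, hm⟩ := h1 V hV
    exact eventually_atTop.mpr ⟨m, fun k hk => hm (hE hk (hz k))⟩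
  let u : UniformSpace X := UniformSpace.ofCore (UniformSpace.Core.mk' (⨅ m, 𝓟 (E m))
    (fun r hr x => by
      obtain ⟨m, hm⟩ := hb.mem_iff.mp hr
      exact hm (h2 _ (hconv (fun _ => x) x tendsto_const_nhds) m).exists.choose_spec)
    (fun r hr => by
      obtain ⟨m, hm⟩ := hb.mem_iff.mp hr
      by_contra hcon
      have h4 : ∀ k, ∃ z ∈ E k, z.swap ∉ r := fun k => by
        by_contra h5
        push Not at h5
        exact hcon (hb.mem_iff.mpr ⟨k, h5⟩)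
      choose z hz hz' using h4
      obtain ⟨k, hk⟩ := (h2 _ (hsymm.comp (h3 z hz)) m).exists
      exact hz' k (hm hk))
    (fun r hr => by
      obtain ⟨m, hm⟩ := hb.mem_iff.mp hr
      by_contra hcon
      push Not at hcon
      have h4 : ∀ k, ∃ a b c, (a, b) ∈ E k ∧ (b, c) ∈ E k ∧ (a, c) ∉ r := fun k => by
        obtain ⟨⟨a, c⟩, ⟨b, h5, h6⟩, h7⟩ := not_subset.mp (hcon _ (hb.mem k))
        exact ⟨a, b, c, h5, h6, h7⟩
      choose a b c hab hbc hac using h4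
      obtain ⟨k, hk⟩ := (h2 _ (htri a b c (h3 _ hab) (h3 _ hbc)) m).exists
      exact hac k (hm hk)))
  have hu : 𝓤[u] = ⨅ m, 𝓟 (E m) := rfl
  have ht : u.toTopologicalSpace = τ := by
    apply le_antisymm
    · apply le_of_nhds_le_nhds
      intro x U hU
      obtain ⟨f, hf, h4, -, -, h5⟩ := KSp.exists_bump hU
      obtain ⟨m, hm⟩ := h1 _ (hfun f hf)
      rw [@nhds_eq_comap_uniformity X u x, hu]
      refine mem_comap.mpr ⟨E m, hb.mem m, fun y hy => ?_⟩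
      by_contra h6
      have h7 : |f x - f y| < 1 := hm hy
      rw [h4, h5 y h6] at h7
      norm_num at h7
    · rw [← continuous_id_iff_le]
      refine @SeqContinuous.continuous X X τ u.toTopologicalSpace _ id fun a x ha => ?_
      rw [@nhds_eq_comap_uniformity X u, hu, tendsto_comap_iff]
      exact hb.tendsto_right_iff.mpr fun m _ => h2 _ (hconv a x ha) m
  haveI : IsCountablyGenerated 𝓤[u] := hb.toHasBasis.isCountablyGenerated
  have hT : @T0Space X u.toTopologicalSpace := ht ▸ inferInstance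
  refine ⟨@UniformSpace.metricSpace X u _ hT, ht, fun V hV => ?_⟩
  obtain ⟨m, hm⟩ := h1 V hV
  letI := @UniformSpace.metricSpace X u _ hT
  obtain ⟨δ, hδ, h4⟩ := Metric.mem_uniformity_dist.mp (show E m ∈ 𝓤 X from hb.mem m)
  exact ⟨δ, hδ, fun x y hxy => hm (h4 hxy)⟩

end Pool.Agent.H31.Snf
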