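import Pool.Agent.H31.Snf1

namespace Pool.Agent.H31.Snf

open Set Filter Topology FreeAbelianGroup

universe u

section Basic

variable {X : Type u} [τ : TopologicalSpace X]

theorem grpA : @IsTopologicalAddGroup _ (topA X) _ := AddGroupTopology.toIsTopologicalAddGroup _

theorem contA : Continuous[_, topA X] (of : X → FreeAbelianGroup X) := by
  rw [topA, AddGroupTopology.toTopologicalSpace_sInf, continuous_sInf_rng]
  rintro _ ⟨t, ht, rfl⟩
  exact ht

theorem liftA {H : Type*} [AddCommGroup H] [TopologicalSpace H] [IsTopologicalAddGroup H]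
    {f : X → H} (hf : Continuous f) : Continuous[topA X, _] (lift f) := by
  rw [continuous_iff_le_induced]
  refine AddGroupTopology.toTopologicalSpace_le.mpr (sInf_le (a := ⟨TopologicalSpace.induced
    (lift f) inferInstance, topologicalAddGroup_induced (lift f)⟩) ?_)
  refine continuous_induced_rng.mpr ?_
  convert hf using 1
  funext x
  exact lift_apply_of f x

end Basic

noncomputable def val {X : Type u} (L : List (X × Bool)) : FreeAbelianGroup X :=
  (L.map fun p => if p.2 then of p.1 else -of p.1).sum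

theorem val_cons {X : Type u} (p : X × Bool) (L : List (X × Bool)) :
    val (p :: L) = (if p.2 then of p.1 else -of p.1) + val L := by simp [val]

theorem val_append {X : Type u} (L L' : List (X × Bool)) : val (L ++ L') = val L + val L' := by
  simp [val]

theorem val_neg {X : Type u} (L : List (X × Bool)) :
    val (L.map fun p => (p.1, !p.2)) = -val L := by
  induction L with
  | nil => simp [val]
  | cons p L ih =>
    rw [List.map_cons, val_cons, val_cons, ih]
    rcases p with ⟨x, _ | _⟩ <;> simp [add_comm]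

theorem lift_val {X : Type u} (f : X → ℝ) (L : List (X × Bool)) :
    lift f (val L) = (L.map fun p => if p.2 then f p.1 else -f p.1).sum := by
  induction L with
  | nil => simp [val]
  | cons p L ih =>
    rw [val_cons, map_add, ih, List.map_cons, List.sum_cons]
    rcases p with ⟨x, _ | _⟩ <;> simp

theorem sub_mem_An {X : Type u} (x y : X) : of x - of y ∈ An X 2 :=
  ⟨[(x, true), (y, false)], le_rfl, by simp [sub_eq_add_neg]⟩

section Metric

variable {X : Type u} [MetricSpace X]

theorem tent {η : ℝ} (hη : 0 < η) (P : List X) :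
    ∃ m : X → ℝ, (∀ x, 0 ≤ m x ∧ m x ≤ η) ∧ (∀ x y, |m x - m y| ≤ dist x y) ∧
      (∀ x ∈ P, m x = 0) ∧ ∀ x, (∀ y ∈ P, η ≤ dist x y) → m x = η := by
  induction P with
  | nil => exact ⟨fun _ => η, fun _ => ⟨hη.le, le_rfl⟩, by simp, by simp, by simp⟩
  | cons a P ih =>
    obtain ⟨m, h1, h2, h3, h4⟩ := ih
    refine ⟨fun x => min (m x) (dist x a), fun x => ⟨le_min (h1 x).1 dist_nonneg,
      (min_le_left _ _).trans (h1 x).2⟩, fun x y => ?_, fun x hx => ?_, fun x hx => ?_⟩
    · exact (abs_min_sub_min_le_max _ _ _ _).trans (max_le (h2 x y) (abs_dist_sub_le x y a))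
    · rcases List.mem_cons.mp hx with rfl | h5
      · simp only [dist_self]; exact min_eq_right (h1 _).1
      · simp only [h3 x h5]; exact min_eq_left dist_nonneg
    · simp only [h4 x fun y hy => hx y (List.mem_cons_of_mem _ hy)]
      exact min_eq_left (hx a List.mem_cons_self)

def Lp (X : Type u) [MetricSpace X] : Set (X → ℝ) :=
  {f | (∀ x, 0 ≤ f x ∧ f x ≤ 1) ∧ ∀ x y, |f x - f y| ≤ dist x y}

def SS (X : Type u) [MetricSpace X] (N : ℕ) (ε : ℝ) : Set (FreeAbelianGroup X) :=
  {w | ∃ l : List (X × X), l.length ≤ N ∧ (∀ p ∈ l, dist p.1 p.2 < ε) ∧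
    w = (l.map fun p => of p.1 - of p.2).sum}

theorem graev (N : ℕ) {ε : ℝ} (hε : 0 < ε) : ∃ η > (0 : ℝ), ∀ L : List (X × Bool), L.length ≤ N →
    (∀ f ∈ Lp X, |lift f (val L)| < η) → val L ∈ SS X N ε := by
  classical
  induction N with
  | zero =>
    refine ⟨1, one_pos, fun L hL _ => ⟨[], le_rfl, by simp, ?_⟩⟩
    rw [List.length_eq_zero_iff.mp (Nat.le_zero.mp hL)]
    rfl
  | succ N ih =>
    obtain ⟨η, hη, ih⟩ := ih
    set e := min (min ε 1) (η / 2) with he
    have he0 : 0 < e := lt_min (lt_min hε one_pos) (half_pos hη)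
    have he1 : e ≤ 1 := (min_le_left _ _).trans (min_le_right _ _)
    refine ⟨e, he0, fun L hL h => ?_⟩
    rcases L.eq_nil_or_concat' with rfl | hne
    · exact ⟨[], Nat.zero_le _, by simp, rfl⟩
    have h1 : ∃ a b, (a, true) ∈ L ∧ (b, false) ∈ L ∧ dist a b < e := by
      by_contra hcon
      push Not at hcon
      obtain ⟨L', ⟨x, s⟩, hL'⟩ := hne
      have hx : (x, s) ∈ L := by simp [hL']
      obtain ⟨m, m1, m2, m3, m4⟩ := tent he0 ((L.filter fun p => p.2 = !s).map Prod.fst)
      have h2 := h m ⟨fun x => ⟨(m1 x).1, (m1 x).2.trans he1⟩, m2⟩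
      have h3 : ∀ y, (y, !s) ∈ L → m y = 0 := fun y hy =>
        m3 y (List.mem_map.mpr ⟨_, List.mem_filter.mpr ⟨hy, by simp⟩, rfl⟩)
      have h4 : m x = e := by
        refine m4 x fun y hy => ?_
        obtain ⟨⟨z, t⟩, h5, rfl⟩ := List.mem_map.mp hy
        obtain ⟨h6, h7⟩ := List.mem_filter.mp h5
        have h8 : t = !s := by simpa using h7
        subst h8
        cases s
        · rw [dist_comm]; exact hcon z x h6 hx
        · exact hcon x z hx h6
      rw [lift_val] at h2
      cases s
      · have h5 := List.single_le_sum (l := L.map fun p => -if p.2 then m p.1 else -m p.1) (by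
          intro t ht
          obtain ⟨⟨y, _ | _⟩, h6, rfl⟩ := List.mem_map.mp ht
          · simpa using (m1 y).1
          · simp [h3 y h6]) _ (List.mem_map.mpr ⟨_, hx, rfl⟩)
        have h6 : (L.map fun p => -if p.2 then m p.1 else -m p.1).sum =
            -(L.map fun p => if p.2 then m p.1 else -m p.1).sum := by
          rw [List.sum_neg, List.map_map]; rfl
        rw [h6] at h5
        simp only [Bool.false_eq_true, if_false, neg_neg, h4] at h5
        linarith [(abs_lt.mp h2).1]
      · have h5 := List.single_le_sum (l := L.map fun p => if p.2 then m p.1 else -m p.1) (by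
          intro t ht
          obtain ⟨⟨y, _ | _⟩, h6, rfl⟩ := List.mem_map.mp ht
          · simp [h3 y h6]
          · simpa using (m1 y).1) _ (List.mem_map.mpr ⟨_, hx, rfl⟩)
        simp only [if_true, h4] at h5
        linarith [(abs_lt.mp h2).2]
    obtain ⟨a, b, ha, hb, hab⟩ := h1
    have hb' : (b, false) ∈ L.erase (a, true) := (List.mem_erase_of_ne (by simp)).mpr hb
    have hp : L.Perm ((a, true) :: (b, false) :: (L.erase (a, true)).erase (b, false)) :=
      (List.perm_cons_erase ha).trans ((List.perm_cons_erase hb').cons _)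
    set L'' := (L.erase (a, true)).erase (b, false)
    have h2 : val L = of a - of b + val L'' := by
      rw [val, (hp.map _).sum_eq]
      simp [val, sub_eq_add_neg, add_assoc]
    have h3 := hp.length_eq
    simp only [List.length_cons] at h3
    obtain ⟨l, l1, l2, l3⟩ := ih L'' (by omega) fun f hf => by
      have h4 := abs_lt.mp (h f hf)
      have h5 := abs_le.mp (hf.2 a b)
      have h6 : e ≤ η / 2 := min_le_right _ _
      rw [h2, map_add, map_sub, lift_apply_of, lift_apply_of] at h4
      exact abs_lt.mpr ⟨by linarith, by linarith⟩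
    refine ⟨(a, b) :: l, by simpa using l1, fun p hp => ?_, by rw [h2, l3]; simp⟩
    rcases List.mem_cons.mp hp with rfl | h4
    · exact hab.trans_le ((min_le_left _ _).trans (min_le_left _ _))
    · exact l2 p h4

theorem lp_nhds {η : ℝ} (hη : 0 < η) :
    {w : FreeAbelianGroup X | ∀ f ∈ Lp X, |lift f w| < η} ∈ @nhds _ (topA X) 0 := by
  letI := topA X
  let g : X → lp (fun _ : Lp X => ℝ) ⊤ := fun x => ⟨fun f => f.1 x, memℓp_infty ⟨1, by
    rintro _ ⟨f, rfl⟩
    exact abs_le.mpr ⟨by linarith [(f.2.1 x).1], (f.2.1 x).2⟩⟩⟩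
  have hg : Continuous g := by
    refine (LipschitzWith.of_dist_le_mul (K := 1) fun x y => ?_).continuous
    rw [dist_eq_norm, NNReal.coe_one, one_mul]
    exact lp.norm_le_of_forall_le dist_nonneg fun f => f.2.2 x y
  have h1 : {w | ‖lift g w‖ < η} ∈ 𝓝 (0 : FreeAbelianGroup X) :=
    (isOpen_lt (liftA hg).norm continuous_const).mem_nhds (by simpa using hη)
  refine mem_of_superset h1 fun w hw f hf => lt_of_le_of_lt ?_ hw
  have h2 : ∀ w, (lift g w : Lp X → ℝ) ⟨f, hf⟩ = lift f w := fun w =>
    FreeAbelianGroup.induction_on w (by simp) (fun x => by simp [g])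
      (fun x hx => by simp [g]) (fun a b ha hb => by simp [ha, hb])
  rw [← h2]
  exact lp.norm_apply_le_norm ENNReal.top_ne_zero (lift g w) ⟨f, hf⟩

theorem SS_small (h : ∀ U ∈ @nhds _ (topA X) 0, ∃ δ > (0 : ℝ), ∀ x y, dist x y < δ →
    of x - of y ∈ U) (N : ℕ) : ∀ U ∈ @nhds _ (topA X) 0, ∃ δ > (0 : ℝ), SS X N δ ⊆ U := by
  letI := topA X
  haveI := grpA (X := X)
  induction N with
  | zero =>
    rintro U hU
    refine ⟨1, one_pos, ?_⟩
    rintro _ ⟨l, hl, -, rfl⟩
    rw [List.length_eq_zero_iff.mp (Nat.le_zero.mp hl)]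
    exact mem_of_mem_nhds hU
  | succ N ih =>
    intro U hU
    obtain ⟨V, hV, hVU⟩ := exists_nhds_zero_half hU
    obtain ⟨δ, hδ, h1⟩ := h V hV
    obtain ⟨δ', hδ', h2⟩ := ih V hV
    refine ⟨min δ δ', lt_min hδ hδ', ?_⟩
    rintro _ ⟨_ | ⟨p, l⟩, hl, h3, rfl⟩
    · exact mem_of_mem_nhds hU
    · rw [List.map_cons, List.sum_cons]
      exact hVU _ (h1 _ _ ((h3 p List.mem_cons_self).trans_le (min_le_left _ _))) _
        (h2 ⟨l, by simpa using hl, fun q hq =>
          (h3 q (List.mem_cons_of_mem _ hq)).trans_le (min_le_right _ _), rfl⟩)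

theorem snfA_metric (h : ∀ U ∈ @nhds _ (topA X) 0, ∃ δ > (0 : ℝ), ∀ x y, dist x y < δ →
    of x - of y ∈ U) (n : ℕ) :
    SnfCountable (An X n) (TopologicalSpace.induced Subtype.val (topA X)) := by
  letI := topA X
  haveI := grpA (X := X)
  refine snf_of_sub ?_
  rintro g ⟨Lg, hg, hLg⟩
  refine ⟨fun m => {w | w - g ∈ SS X (n + n) (1 / ((m : ℝ) + 1))}, fun a b hab w hw => ?_,
    fun s hs hsg m => ?_, fun U hU => ?_⟩
  · obtain ⟨l, l1, l2, l3⟩ := hw
    exact ⟨l, l1, fun p hp => (l2 p hp).trans_le (Nat.one_div_le_one_div hab), l3⟩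
  · obtain ⟨η, hη, h1⟩ := graev (X := X) (n + n) (Nat.one_div_pos_of_nat (α := ℝ) (n := m))
    filter_upwards [(tendsto_sub_nhds_zero_iff.mpr hsg).eventually (lp_nhds hη)] with k hk
    obtain ⟨L, hL, hLs⟩ := hs k
    have h2 : val (L ++ Lg.map fun p => (p.1, !p.2)) = s k - g := by
      rw [val_append, val_neg, ← hLs, ← hLg, sub_eq_add_neg]; rfl
    show s k - g ∈ _
    rw [← h2] at hk ⊢
    exact h1 _ (by simp only [List.length_append, List.length_map]; omega) hk
  · have h1 : (fun w => w + g) ⁻¹' U ∈ 𝓝 (0 : FreeAbelianGroup X) :=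
      (continuous_add_right g).continuousAt.preimage_mem_nhds (by simpa using hU)
    obtain ⟨δ, hδ, h2⟩ := SS_small h (n + n) _ h1
    obtain ⟨m, hm⟩ := exists_nat_one_div_lt hδ
    refine ⟨m, fun w ⟨l, l1, l2, l3⟩ => ?_⟩
    simpa using h2 (a := w - g) ⟨l, l1, fun p hp => (l2 p hp).trans hm, l3⟩

end Metric

theorem snfA {X : Type u} [τ : TopologicalSpace X] [T35Space X] [CompactlyCoherentSpace X]
    (hd : RegGdDiag X) (h : SnfCountable (An X 2) (TopologicalSpace.induced Subtype.val (topA X)))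
    (n : ℕ) : SnfCountable (An X n) (TopologicalSpace.induced Subtype.val (topA X)) := by
  haveI := seq_of hd
  have key : ∃ ρ : MetricSpace X, ρ.toUniformSpace.toTopologicalSpace = τ ∧
      ∀ V ∈ comap (fun z : X × X => of z.1 - of z.2) (@nhds _ (topA X) 0), ∃ δ > (0 : ℝ),
        ∀ x y, ρ.dist x y < δ → (x, y) ∈ V := by
    letI := topA X
    haveI := grpA (X := X)
    obtain ⟨P, h1, h2, h3⟩ := snf_sub (S := An X 2) h (g := 0) ⟨[], by simp, rfl⟩
    refine stepM _ (fun m => {z | of z.1 - of z.2 ∈ P m}) (fun a b hab z hz => h1 hab hz)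
      (fun V hV => ?_) (fun z hz => h2 _ (fun k => sub_mem_An _ _)
        ((tendsto_comap_iff (g := fun z : X × X => of z.1 - of z.2)).mp hz))
      ?_ (fun a b c hab hbc => ?_) (fun a x ha => ?_) (fun f hf => ?_)
    · obtain ⟨U, hU, hUV⟩ := mem_comap.mp hV
      obtain ⟨m, hm⟩ := h3 U hU
      exact ⟨m, fun z hz => hUV (hm hz)⟩
    · rw [tendsto_comap_iff]
      have := (tendsto_comap (f := fun z : X × X => of z.1 - of z.2) (x := 𝓝 0)).neg
      simpa [Function.comp_def] using this
    · rw [tendsto_comap_iff] at hab hbc ⊢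
      simpa [Function.comp_def] using hab.add hbc
    · rw [tendsto_comap_iff]
      have := ((contA.tendsto x).comp ha).const_sub (of x)
      simpa [Function.comp_def] using this
    · refine mem_comap.mpr ⟨{w | |lift f w| < 1}, (isOpen_lt (liftA hf).abs
        continuous_const).mem_nhds (by simp), fun z hz => ?_⟩
      simpa using hz
  obtain ⟨ρ, rfl, hρ⟩ := key
  exact snfA_metric (fun U hU => hρ _ (preimage_mem_comap hU)) n

theorem snf_mono {G : Type u} [TopologicalSpace G] {S T : Set G} (hST : S ⊆ T)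
    (h : SnfCountable T inferInstance) : SnfCountable S inferInstance :=
  snf_of_sub fun g hg => by
    obtain ⟨P, h1, h2, h3⟩ := snf_sub h (hST hg)
    exact ⟨P, h1, fun s hs => h2 s fun k => hST (hs k), h3⟩

theorem snfA4 {X : Type u} [τ : TopologicalSpace X] [T35Space X] [CompactlyCoherentSpace X]
    (hd : RegGdDiag X) (h : SnfCountable (An X 4) (TopologicalSpace.induced Subtype.val (topA X)))
    (n : ℕ) : SnfCountable (An X n) (TopologicalSpace.induced Subtype.val (topA X)) :=
  snfA hd (@snf_mono _ (topA X) (An X 2) (An X 4)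
    (fun _ ⟨L, h1, h2⟩ => ⟨L, h1.trans (by norm_num), h2⟩) h) n

end Pool.Agent.H31.Snf
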