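import Pool.Agent.H31.Snf3

namespace Pool.Agent.H31.Snf

open Set Filter Topology FreeGroup

universe u

theorem realF {X : Type u} [TopologicalSpace X] {f : X → ℝ} (hf : Continuous f) :
    ∃ U ∈ @nhds _ (topF X) 1, ∀ x y, of x * (of y)⁻¹ ∈ U → |f x - f y| < 1 := by
  letI := topF X
  let φ : FreeGroup X →* Multiplicative ℝ := lift fun x => Multiplicative.ofAdd (f x)
  have h1 : Continuous φ := liftF φ (by
    simp only [φ, lift_apply_of]; exact continuous_ofAdd.comp hf)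
  refine ⟨{w | |(φ w).toAdd| < 1}, (isOpen_lt (continuous_toAdd.comp h1).abs
    continuous_const).mem_nhds (by simp), fun x y h => ?_⟩
  simpa [φ, sub_eq_add_neg] using h

section Metric

variable {X : Type u} [MetricSpace X]

def QQ (L : List (X × Bool)) (m : ℕ) : Set (FreeGroup X) :=
  {w | ∃ P R P' R' v, P ++ R = L ∧ Close m P' P ∧ Close m R' R ∧
    (v = 1 ∨ ∃ a b s, dist a b < 2 * (1 / ((m : ℝ) + 1)) ∧ v = mk [(a, s), (b, !s)]) ∧
      w = mk P' * v * mk R'}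

theorem QQ_small (h : ∀ U ∈ @nhds _ (topF X) 1, ∃ δ > (0 : ℝ), ∀ x y, dist x y < δ →
    of x * (of y)⁻¹ ∈ U ∧ (of x)⁻¹ * of y ∈ U) (L : List (X × Bool)) :
    ∀ U ∈ @nhds _ (topF X) (mk L), ∃ m, QQ L m ⊆ U := by
  letI := topF X
  haveI := grpF (X := X)
  intro U hU
  have h1 : ∀ i ∈ Iic L.length, ∀ᶠ m in atTop, ∀ P' R' v, Close m P' (L.take i) →
      Close m R' (L.drop i) → (v = 1 ∨ ∃ a b s, dist a b < 2 * (1 / ((m : ℝ) + 1)) ∧
        v = mk [(a, s), (b, !s)]) → mk P' * v * mk R' ∈ U := by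
    intro i _
    have h2 : (fun z : FreeGroup X × FreeGroup X × FreeGroup X => z.1 * z.2.1 * z.2.2) ⁻¹' U ∈
        𝓝 (mk (L.take i), 1, mk (L.drop i)) := by
      refine (by fun_prop : Continuous fun z : FreeGroup X × FreeGroup X × FreeGroup X =>
        z.1 * z.2.1 * z.2.2).continuousAt.preimage_mem_nhds ?_
      simpa using hU
    obtain ⟨A, hA, B, hB, hAB⟩ := mem_nhds_prod_iff.mp h2
    obtain ⟨V, hV, C, hC, hVC⟩ := mem_nhds_prod_iff.mp hB
    obtain ⟨δ, hδ, h3⟩ := h V hV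
    filter_upwards [contL _ A hA, contL _ C hC,
      tendsto_one_div_add_atTop_nhds_zero_nat.eventually (gt_mem_nhds (half_pos hδ))]
      with m h4 h5 h6 P' R' v hP hR hv
    refine hAB (a := (mk P', v, mk R')) (mk_mem_prod (h4 _ hP) (hVC (mk_mem_prod ?_ (h5 _ hR))))
    rcases hv with rfl | ⟨a, b, s, hab, rfl⟩
    · exact mem_of_mem_nhds hV
    · have h7 := h3 a b (by linarith)
      cases s
      · exact h7.2
      · exact h7.1
  obtain ⟨m, hm⟩ := ((finite_Iic _).eventually_all.mpr h1).exists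
  refine ⟨m, ?_⟩
  rintro _ ⟨P, R, P', R', v, rfl, hP, hR, hv, rfl⟩
  exact hm P.length (by simp) P' R' v (by simpa using hP) (by simpa using hR) hv

theorem no_escape {c : ℝ} (hc : 0 < c) (𝒰 : Ultrafilter ℕ) (s : ℕ → FreeGroup X)
    {g : FreeGroup X} (hs : Tendsto s 𝒰 (@nhds _ (topF X) g)) (L : ℕ → List (X × Bool))
    (h1 : ∀ k, (L k).length ≤ 3) (h2 : ∀ k, IsReduced (L k)) (h3 : ∀ k, mk (L k) = s k)
    (a : ℕ → X) (h4 : ∀ᶠ k in 𝒰, a k ∈ DD X c ∧ ∃ b, (a k, b) ∈ L k)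
    (h5 : ∀ x, ∀ᶠ k in 𝒰, a k ≠ x) : False := by
  classical
  let π : X → Option X := fun x => if x ∈ DD X c then some x else none
  letI := topF X
  letI : TopologicalSpace (FreeGroup (Option X)) := ⊥
  haveI : DiscreteTopology (FreeGroup (Option X)) := ⟨rfl⟩
  have h6 : Continuous (FreeGroup.map π) := by
    refine liftF _ (continuous_iff_continuousAt.mpr fun x =>
      (continuousAt_const (y := FreeGroup.map π (of x))).congr ?_)
    filter_upwards [Metric.ball_mem_nhds x hc] with y hy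
    by_cases h7 : x ∈ DD X c
    · rw [h7 y hy]
    · have h8 : y ∉ DD X c := fun h9 => h7 (h9 x (by rw [dist_comm]; exact hy) ▸ h9)
      simp only [map.of, π, if_neg h7, if_neg h8]
  have h7 : ∀ᶠ k in 𝒰, FreeGroup.map π (s k) = FreeGroup.map π g := by
    have := (h6.tendsto g).comp hs
    rwa [nhds_discrete, tendsto_pure] at this
  have h8 : ∀ᶠ k in 𝒰, ∀ p ∈ {p | p ∈ (FreeGroup.map π g).toWord}, some (a k) ≠ p.1 := by
    refine (List.finite_toSet _).eventually_all.mpr fun p _ => ?_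
    rcases p with ⟨_ | x, t⟩
    · simp
    · simpa using h5 x
  obtain ⟨k, ⟨h9, b, hb⟩, h10, h11⟩ := (h4.and (h7.and h8)).exists
  have h12 : (some (a k), b) ∈ (L k).map fun p => (π p.1, p.2) :=
    List.mem_map.mpr ⟨_, hb, by simp only [π, if_pos h9]⟩
  rw [← h10, ← h3, map.mk, toWord_mk] at h11
  rcases short (M := (L k).map fun p => (π p.1, p.2)) (by simpa using h1 k) with
    h13 | ⟨P, R, y, t, h13, h14⟩
  · rw [h13] at h11
    exact h11 _ h12 rfl
  · rw [h14] at h11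
    have h15 : y = some (a k) := by
      rw [h13] at h12
      simp only [List.mem_append, List.mem_cons, Prod.mk.injEq] at h12
      rcases h12 with h | h | h | h
      · exact absurd rfl (h11 _ (List.mem_append_left _ h))
      · exact h.1.symm
      · exact h.1.symm
      · exact absurd rfl (h11 _ (List.mem_append_right _ h))
    obtain ⟨P₁, R₁, h16, -, h17⟩ := List.map_eq_append_iff.mp h13
    obtain ⟨⟨x₁, t₁⟩, R₂, rfl, h18, h19⟩ := List.map_eq_cons_iff.mp h17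
    obtain ⟨⟨x₂, t₂⟩, R₃, rfl, h20, -⟩ := List.map_eq_cons_iff.mp h19
    have h21 : ∀ x, π x = some (a k) → x = a k := fun x hx => by
      by_cases h22 : x ∈ DD X c
      · simpa [π, h22] using hx
      · simp [π, h22] at hx
    obtain ⟨h22, rfl⟩ := Prod.mk.inj h18
    obtain ⟨h23, rfl⟩ := Prod.mk.inj h20
    obtain rfl := h21 _ (h22.trans h15)
    obtain rfl := h21 _ (h23.trans h15)
    exact (h16 ▸ h2 k).not_step Red.Step.not

theorem snfF_metric (h : ∀ U ∈ @nhds _ (topF X) 1, ∃ δ > (0 : ℝ), ∀ x y, dist x y < δ →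
    of x * (of y)⁻¹ ∈ U ∧ (of x)⁻¹ * of y ∈ U) :
    SnfCountable (Fn X 3) (TopologicalSpace.induced Subtype.val (topF X)) := by
  classical
  have huc : ∀ f : X → ℝ, Continuous f → ∃ δ > (0 : ℝ), ∀ x y, dist x y < δ →
      |f x - f y| < 1 := fun f hf => by
    obtain ⟨U, hU, h1⟩ := realF hf
    obtain ⟨δ, hδ, h2⟩ := h U hU
    exact ⟨δ, hδ, fun x y hxy => h1 x y (h2 x y hxy).1⟩
  letI := topF X
  haveI := grpF (X := X)
  haveI := t2F (X := X)
  refine snf_of_sub fun g _ => ⟨QQ g.toWord, fun a b hab w hw => ?_, fun s hs hsg m => ?_,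
    fun U hU => QQ_small h _ U (by rwa [mk_toWord])⟩
  · obtain ⟨P, R, P', R', v, h1, h2, h3, h4, h5⟩ := hw
    refine ⟨P, R, P', R', v, h1, h2.mono hab, h3.mono hab, h4.imp_right ?_, h5⟩
    rintro ⟨x, y, t, h6, h7⟩
    exact ⟨x, y, t, h6.trans_le (by linarith [Nat.one_div_le_one_div (α := ℝ) hab]), h7⟩
  · by_contra hcon
    haveI := frequently_iff_neBot.mp (not_eventually.mp hcon)
    obtain ⟨𝒰, hU⟩ := Ultrafilter.exists_le (atTop ⊓ 𝓟 {k | ¬s k ∈ QQ g.toWord m})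
    have h1 : Tendsto s 𝒰 (𝓝 g) := hsg.mono_left (hU.trans inf_le_left)
    have h2 : ∀ᶠ k in 𝒰, s k ∉ QQ g.toWord m := le_principal_iff.mp (hU.trans inf_le_right)
    have h3 : ∀ k, (s k).toWord.length ≤ 3 := fun k => by
      obtain ⟨L, h4, h5⟩ := hs k
      exact h5 ▸ (norm_mk_le (L₁ := L)).trans h4
    rcases list_dich huc 𝒰 3 _ h3 with ⟨L₀, h4, h5⟩ | ⟨c, hc, a, h4, h5⟩
    · have h6 : Tendsto s 𝒰 (𝓝 (mk L₀)) := fun U hU => by
        obtain ⟨j, hj⟩ := (contL L₀ U hU).exists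
        exact (h5 j).mono fun k hk => by simpa only [mk_toWord] using hj _ hk
      obtain rfl := tendsto_nhds_unique h1 h6
      obtain ⟨k, h7, h8⟩ := ((h5 m).and h2).exists
      refine h8 ?_
      rw [toWord_mk]
      rcases short h4 with h9 | ⟨P, R, y, t, rfl, h9⟩
      · exact ⟨L₀, [], _, [], 1, by simp [h9], h7, List.Forall₂.nil, Or.inl rfl, by
          rw [mk_toWord, ← one_eq_mk, mul_one, mul_one]⟩
      · obtain ⟨P', R', h10, h11, h12⟩ := close_append _ _ _ h7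
        obtain ⟨⟨x₁, t₁⟩, R₁, ⟨h13, h14⟩, h15, rfl⟩ := List.forall₂_cons_right_iff.mp h11
        obtain ⟨⟨x₂, t₂⟩, R₂, ⟨h16, h17⟩, h18, rfl⟩ := List.forall₂_cons_right_iff.mp h15
        obtain rfl : t₁ = t := h13
        obtain rfl : t₂ = !t₁ := h16
        refine ⟨P, R, P', R₂, _, h9.symm, h10, h18, Or.inr ⟨x₁, x₂, t₁, ?_, rfl⟩, ?_⟩
        · linarith [dist_triangle_right x₁ x₂ y]
        · rw [← mk_toWord (x := s k), h12, mul_mk, mul_mk]
          simp
    · exact no_escape hc 𝒰 s h1 _ h3 (fun _ => isReduced_toWord) (fun _ => mk_toWord) a h4 h5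

end Metric

theorem snfF {X : Type u} [τ : TopologicalSpace X] [T35Space X] [CompactlyCoherentSpace X]
    (hd : RegGdDiag X) (h : SnfCountable (Fn X 2) (TopologicalSpace.induced Subtype.val (topF X))) :
    SnfCountable (Fn X 3) (TopologicalSpace.induced Subtype.val (topF X)) := by
  haveI := seq_of hd
  have key : ∃ ρ : MetricSpace X, ρ.toUniformSpace.toTopologicalSpace = τ ∧
      ∀ V ∈ comap (fun z : X × X => of z.1 * (of z.2)⁻¹) (@nhds _ (topF X) 1) ⊓
        comap (fun z : X × X => (of z.1)⁻¹ * of z.2) (@nhds _ (topF X) 1), ∃ δ > (0 : ℝ),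
        ∀ x y, ρ.dist x y < δ → (x, y) ∈ V := by
    letI := topF X
    haveI := grpF (X := X)
    obtain ⟨P, h1, h2, h3⟩ := snf_sub (S := Fn X 2) h (g := 1) ⟨[], by simp, rfl⟩
    have h0 : ∀ {ι : Type u} {l : Filter ι} {z : ι → X × X}, Tendsto z l
        (comap (fun z : X × X => of z.1 * (of z.2)⁻¹) (𝓝 1) ⊓
        comap (fun z : X × X => (of z.1)⁻¹ * of z.2) (𝓝 1)) ↔
        Tendsto (fun k => of (z k).1 * (of (z k).2)⁻¹) l (𝓝 1) ∧
        Tendsto (fun k => (of (z k).1)⁻¹ * of (z k).2) l (𝓝 1) := by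
      intro ι l z
      rw [tendsto_inf, tendsto_comap_iff, tendsto_comap_iff]; rfl
    have h00 : ∀ {z : ℕ → X × X}, Tendsto z atTop
        (comap (fun z : X × X => of z.1 * (of z.2)⁻¹) (𝓝 1) ⊓
        comap (fun z : X × X => (of z.1)⁻¹ * of z.2) (𝓝 1)) ↔
        Tendsto (fun k => of (z k).1 * (of (z k).2)⁻¹) atTop (𝓝 1) ∧
        Tendsto (fun k => (of (z k).1)⁻¹ * of (z k).2) atTop (𝓝 1) := by
      intro z
      rw [tendsto_inf, tendsto_comap_iff, tendsto_comap_iff]; rfl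
    refine stepM _ (fun m => {z | of z.1 * (of z.2)⁻¹ ∈ P m ∧ (of z.1)⁻¹ * of z.2 ∈ P m})
      (fun a b hab z hz => ⟨h1 hab hz.1, h1 hab hz.2⟩) (fun V hV => ?_) (fun z hz m => ?_)
      ?_ (fun a b c hab hbc => ?_) (fun a x ha => ?_) (fun f hf => ?_)
    · obtain ⟨V₁, hV₁, V₂, hV₂, rfl⟩ := mem_inf_iff.mp hV
      obtain ⟨U₁, hU₁, h4⟩ := mem_comap.mp hV₁
      obtain ⟨U₂, hU₂, h5⟩ := mem_comap.mp hV₂
      obtain ⟨m, hm⟩ := h3 _ (inter_mem hU₁ hU₂)
      exact ⟨m, fun z hz => ⟨h4 (hm hz.1).1, h5 (hm hz.2).2⟩⟩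
    · obtain ⟨h4, h5⟩ := h00.mp hz
      exact (h2 _ (fun k => ⟨[((z k).1, true), ((z k).2, false)], le_rfl, rfl⟩) h4 m).and
        (h2 _ (fun k => ⟨[((z k).1, false), ((z k).2, true)], le_rfl, rfl⟩) h5 m)
    · obtain ⟨h4, h5⟩ := h0.mp tendsto_id
      exact h0.mpr ⟨by simpa using h4.inv, by simpa using h5.inv⟩
    · obtain ⟨h4, h5⟩ := h00.mp hab
      obtain ⟨h6, h7⟩ := h00.mp hbc
      exact h00.mpr ⟨by simpa [mul_assoc] using h4.mul h6, by simpa [mul_assoc] using h5.mul h7⟩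
    · have h4 := (contF.tendsto x).comp ha
      exact h00.mpr ⟨by simpa using h4.inv.const_mul (of x), by simpa using h4.const_mul (of x)⁻¹⟩
    · obtain ⟨U, hU, h4⟩ := realF hf
      exact mem_inf_of_left (mem_comap.mpr ⟨U, hU, fun z hz => h4 _ _ hz⟩)
  obtain ⟨ρ, rfl, hρ⟩ := key
  exact snfF_metric fun U hU => hρ _ (inter_mem_inf (preimage_mem_comap hU) (preimage_mem_comap hU))

end Pool.Agent.H31.Snf
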