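import Mathlib

namespace Pool.Agent.H31.Snf

open Filter Topology

universe u

/-- the Markov free topological group topology on the free group over `X` -/
noncomputable def topF (X : Type u) [τ : TopologicalSpace X] : TopologicalSpace (FreeGroup X) :=
  (sInf {t : GroupTopology (FreeGroup X) |
    @Continuous X (FreeGroup X) τ t.toTopologicalSpace FreeGroup.of}).toTopologicalSpace

/-- the Markov free abelian topological group topology on the free abelian group over `X` -/
noncomputable def topA (X : Type u) [τ : TopologicalSpace X] :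
    TopologicalSpace (FreeAbelianGroup X) :=
  (sInf {t : AddGroupTopology (FreeAbelianGroup X) |
    @Continuous X (FreeAbelianGroup X) τ t.toTopologicalSpace FreeAbelianGroup.of}).toTopologicalSpace

/-- elements of `F(X)` of length at most `n` -/
def Fn (X : Type u) (n : ℕ) : Set (FreeGroup X) :=
  {w | ∃ L : List (X × Bool), L.length ≤ n ∧ FreeGroup.mk L = w}

/-- elements of `A(X)` of length at most `n` -/
def An (X : Type u) (n : ℕ) : Set (FreeAbelianGroup X) :=
  {w | ∃ L : List (X × Bool), L.length ≤ n ∧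
    (L.map fun p => if p.2 then FreeAbelianGroup.of p.1 else -FreeAbelianGroup.of p.1).sum = w}

/-- `P` contains a tail of every sequence converging to `y` -/
def SeqNhd {Y : Type u} [TopologicalSpace Y] (y : Y) (P : Set Y) : Prop :=
  ∀ s : ℕ → Y, Tendsto s atTop (𝓝 y) → ∀ᶠ k in atTop, s k ∈ P

/-- every point has a countable sn-network -/
def SnfCountable (Y : Type u) (τ : TopologicalSpace Y) : Prop :=
  ∀ y : Y, ∃ 𝒞 : Set (Set Y), 𝒞.Countable ∧ (∀ P ∈ 𝒞, y ∈ P ∧ SeqNhd y P) ∧
    (∀ U : Set Y, IsOpen U → y ∈ U → ∃ P ∈ 𝒞, P ⊆ U) ∧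
      ∀ P ∈ 𝒞, ∀ Q ∈ 𝒞, ∃ R ∈ 𝒞, R ⊆ P ∩ Q

/-- regular `G_δ`-diagonal -/
def RegGdDiag (X : Type u) [TopologicalSpace X] : Prop :=
  ∃ U : ℕ → Set (X × X), (∀ m, IsOpen (U m) ∧ Set.diagonal X ⊆ U m) ∧
    ⋂ m, closure (U m) = Set.diagonal X

end Pool.Agent.H31.Snf
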