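import Pool.Agent.H31.SokDefs
import Pool.Agent.H31.NS

namespace Pool.Agent.H31.Sok

open Set Function Filter Topology TopologicalSpace

universe u v

theorem L_P {Γ : Type u} (a : L Γ) : CountableInterFilter (𝓝 a) := by
  refine ⟨fun S hS h => ?_⟩
  rw [mem_nhds_iff]
  refine ⟨⋂₀ (interior '' S), ?_, ?_, ?_⟩
  · exact fun x hx s hs => interior_subset (hx _ ⟨s, hs, rfl⟩)
  · intro h0
    rw [compl_sInter]
    refine Set.Countable.sUnion ((hS.image _).image _) ?_
    rintro _ ⟨_, ⟨s, hs, rfl⟩, rfl⟩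
    exact isOpen_interior (s := s) (h0 _ ⟨s, hs, rfl⟩)
  · rintro _ ⟨s, hs, rfl⟩
    exact mem_interior_iff_mem_nhds.mpr (h s hs)

theorem key {Γ : Type u} (x : ℕ → L Γ) (C : ℕ → Set (ℕ → L Γ))
    (h : x ∈ closure (⋃ n, C n)) (m : ℕ) :
    ∃ n, ∀ U : ℕ → Set (L Γ), (∀ i, U i ∈ 𝓝 (x i)) → ∃ y ∈ C n, ∀ i < m, y i ∈ U i := by
  by_contra hcon
  push Not at hcon
  choose U hU hU' using hcon
  have h1 : {y : ℕ → L Γ | ∀ i ∈ Iio m, y i ∈ ⋂ n, U n i} ∈ 𝓝 x :=
    set_pi_mem_nhds (finite_Iio m) fun i _ => by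
      haveI := L_P (x i)
      exact countable_iInter_mem.mpr fun n => hU n i
  obtain ⟨y, hy1, hy2⟩ := mem_closure_iff_nhds.mp h _ h1
  obtain ⟨n, hn⟩ := mem_iUnion.mp hy2
  obtain ⟨i, hi, h2⟩ := hU' n y hn
  exact h2 (mem_iInter.mp (hy1 i hi) n)

theorem msokW_of_countable (T : Type u) [TopologicalSpace T] [Countable T] : MSokW T :=
  ⟨fun _ => ContinuousMap.id T, fun _ => range singleton, fun _ _ => ⟨fun _ => rfl,
    fun F _ => by simp, countable_range _, fun a _ U _ ha =>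
      ⟨{a}, ⟨a, rfl⟩, rfl, singleton_subset_iff.mpr ha⟩⟩, fun _ _ _ _ _ => Subset.rfl,
    fun _ _ _ => (iUnion_const _).symm⟩

theorem main1 : ∃ (T : Type) (_ : TopologicalSpace T), T35Space T ∧ PrimL.{0, 0} T ∧ MSokW T ∧
    ∀ (Γ : Type v) (F : Set (ℕ → L Γ)) (f : F → T), IsClosed F → ¬ RQuot f := by
  classical
  let p : Ultrafilter ℕ := hyperfilter ℕ
  let T : Set (Ultrafilter ℕ) := insert p (range pure)
  haveI : Countable T := ((countable_range _).insert p).to_subtype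
  let e : ℕ → T := fun n => ⟨pure n, Or.inr ⟨n, rfl⟩⟩
  let q : T := ⟨p, Or.inl rfl⟩
  have hb : ∀ A : Set ℕ, IsOpen {t : T | A ∈ t.1} := fun A =>
    (ultrafilter_isOpen_basic A).preimage continuous_subtype_val
  refine ⟨T, inferInstance, inferInstance, ?_, msokW_of_countable T, ?_⟩
  · obtain ⟨s, hs⟩ := exists_surjective_nat T
    haveI : Countable (L ℕ) := inferInstanceAs (Countable (Option ℕ))
    haveI : DiscreteTopology (L ℕ) := ⟨eq_bot_of_singletons_open fun x _ => Set.to_countable _⟩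
    refine ⟨ℕ, univ, fun x => (fun a : L ℕ => s (Option.getD a 0)) (x.1 0), isClosed_univ,
      (continuous_of_discreteTopology (f := fun a : L ℕ => s (Option.getD a 0))).comp
        ((continuous_apply 0).comp continuous_subtype_val),
      fun t => ?_⟩
    obtain ⟨n, rfl⟩ := hs t
    exact ⟨⟨fun _ => some n, mem_univ _⟩, rfl⟩
  rintro Γ F f - ⟨hf, -, hg⟩
  have hne : ∀ n, e n ≠ q := fun n h => by
    have h1 : ({n} : Set ℕ) ∈ p := by
      have h2 : pure n = p := congrArg Subtype.val h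
      rw [← h2]; exact singleton_mem_pure
    exact (finite_singleton n).notMem_hyperfilter h1
  have hcl : IsClosed (f ⁻¹' {q})ᶜ := by
    rw [← closure_subset_iff_isClosed]
    intro x hx hq
    have h1 : ∀ s : Set ℕ, s.Finite →
        x.1 ∈ closure (⋃ n, Subtype.val '' {y : F | n ∉ s ∧ f y = e n}) := by
      intro s hs
      have h2 : x ∈ closure ((f ⁻¹' {t | sᶜ ∈ t.1}) ∩ (f ⁻¹' {q})ᶜ) :=
        ((hb sᶜ).preimage hf).inter_closure ⟨by
          rw [mem_preimage, show f x = q from hq]; exact hs.compl_mem_hyperfilter, hx⟩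
      refine closure_mono ?_ (image_closure_subset_closure_image continuous_subtype_val
        ⟨x, h2, rfl⟩)
      rintro _ ⟨y, ⟨h3, h4⟩, rfl⟩
      rcases hy : f y with ⟨_, rfl | ⟨n, rfl⟩⟩
      · exact absurd hy h4
      · rw [mem_preimage, hy] at h3
        exact mem_iUnion.mpr ⟨n, y, ⟨h3, hy⟩, rfl⟩
    have h2 : ∀ (m : ℕ) (s : Set ℕ), s.Finite → ∃ n ∉ s, ∀ U : ℕ → Set (L Γ),
        (∀ i, U i ∈ 𝓝 (x.1 i)) → ∃ y : F, f y = e n ∧ ∀ i < m, y.1 i ∈ U i := by
      intro m s hs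
      obtain ⟨n, hn⟩ := key x.1 _ (h1 s hs) m
      obtain ⟨_, ⟨y, hy, rfl⟩, -⟩ := hn (fun _ => univ) fun _ => univ_mem
      refine ⟨n, hy.1, fun U hU => ?_⟩
      obtain ⟨_, ⟨z, hz, rfl⟩, h3⟩ := hn U hU
      exact ⟨z, hz.2, h3⟩
    choose n hn hn' using fun m => h2 m (Iio m) (finite_Iio m)
    have h3 : ∀ A ∈ p, ∀ᶠ m in atTop, n m ∈ A := by
      intro A hA
      have h4 : f ⁻¹' {t | A ∈ t.1} ∈ 𝓝 x := ((hb A).preimage hf).mem_nhds (by
        rw [mem_preimage, show f x = q from hq]; exact hA)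
      obtain ⟨V, hV, hVA⟩ := (mem_nhds_subtype _ _ _).mp h4
      rw [nhds_pi, mem_pi'] at hV
      obtain ⟨I, U, hU, hIU⟩ := hV
      filter_upwards [eventually_gt_atTop (I.sup id)] with m hm
      obtain ⟨y, hy, h5⟩ := hn' m U hU
      have h6 := hVA (show y ∈ Subtype.val ⁻¹' V from hIU fun i hi =>
        h5 i (lt_of_le_of_lt (Finset.le_sup (f := id) hi) hm))
      rw [mem_preimage, hy] at h6
      exact h6
    have h4 : Tendsto n atTop atTop := tendsto_atTop_mono (fun m => not_lt.mp (hn m)) tendsto_id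
    obtain ⟨φ, hφ, hφ'⟩ := Filter.strictMono_subseq_of_tendsto_atTop h4
    let A := range fun k => n (φ (2 * k))
    have h5 : ∀ B ∈ p, ∀ᶠ k in atTop, n (φ k) ∈ B := fun B hB =>
      hφ.tendsto_atTop.eventually (h3 B hB)
    rcases p.mem_or_compl_mem A with h6 | h6
    · obtain ⟨k, hk⟩ := eventually_atTop.mp (h5 A h6)
      obtain ⟨l, hl⟩ := hk (2 * k + 1) (by omega)
      have := hφ'.injective hl
      omega
    · obtain ⟨k, hk⟩ := eventually_atTop.mp (h5 _ h6)
      exact hk (2 * k) (by omega) ⟨k, rfl⟩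
  have hclo : IsClopen (f ⁻¹' {q}) := ⟨isClosed_singleton.preimage hf, isClosed_compl_iff.mp hcl⟩
  have h7 := hg (indicator {q} 1) (by
    have : indicator {q} (1 : T → ℝ) ∘ f = indicator (f ⁻¹' {q}) 1 := by
      funext y
      by_cases hy : f y = q <;> simp [hy]
    rw [this]
    exact continuous_indicator (fun a ha => by simp [hclo.frontier_eq] at ha) continuousOn_const)
  have h8 : {t : T | 0 < indicator {q} (1 : T → ℝ) t} ∈ 𝓝 q :=
    (isOpen_lt continuous_const h7).mem_nhds (by simp)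
  have h9 : Tendsto e p (𝓝 q) := tendsto_subtype_rng.mpr (Ultrafilter.tendsto_pure_self p)
  obtain ⟨n, hn⟩ := (h9.eventually h8).exists
  simp [hne n] at hn

theorem not_sok {Y : Type u} [TopologicalSpace Y] [T2Space Y] {D : Set Y} (hD : D.Countable)
    (hd : Dense D) {I : Type v} [Uncountable I] (a : I → Y) (U : I → Set Y)
    (hU : ∀ i, IsOpen (U i)) (h : ∀ i j, a j ∈ U i ↔ j = i) (r : C(Y, Y)) (N : Set (Set Y)) :
    ¬ Pair (singleton '' D) r N := by
  rintro ⟨-, h1, h2, h3⟩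
  have h4 : (r : Y → Y) = id := Continuous.ext_on hd r.continuous continuous_id fun x hx =>
    h1 _ ⟨x, hx, rfl⟩ ⟨x, rfl, rfl⟩
  choose M hM h5 h6 using fun i => h3 (a i) ⟨a i, congrFun h4 _⟩ (U i) (hU i) ((h i i).mpr rfl)
  refine not_countable_univ (α := I) ((h2.preimage_of_injOn (f := M) ?_).mono fun i _ => hM i)
  intro i _ j _ hij
  exact (h j i).mp (h6 j (hij ▸ h5 i))

/-- points with at most one nonzero coordinate -/
def A : Set (ℝ → NS.F) := {x | ∀ i j, x i ≠ 0 → x j ≠ 0 → i = j}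

/-- support attached to a family of closed sets -/
def sp (ℱ : Set (Set (A ⊕ ℕ))) : Set ℝ :=
  {i | ∃ F ∈ ℱ, Sum.inl ⟨0, fun _ _ h => absurd rfl h⟩ ∉ F ∧ ∃ x, Sum.inl x ∈ F ∧ x.1 i ≠ 0}

open Classical in
/-- the retraction -/
noncomputable def ret (S : Set ℝ) : C(A ⊕ ℕ, A ⊕ ℕ) :=
  ⟨Sum.map (fun x => ⟨fun i => if i ∈ S then x.1 i else 0, fun i j hi hj => x.2 i j
    (fun h => hi (by simp [h])) (fun h => hj (by simp [h]))⟩) id, by
    refine Continuous.sumMap (Continuous.subtype_mk (continuous_pi fun i => ?_) _) continuous_id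
    split_ifs
    · exact (continuous_apply i).comp continuous_subtype_val
    · exact continuous_const⟩

theorem pair_ret {ℱ : Set (Set (A ⊕ ℕ))} (hc : ℱ.Countable) (hF : ∀ F ∈ ℱ, IsClosed F) :
    Pair ℱ (ret (sp ℱ)) (singleton '' range (ret (sp ℱ))) := by
  classical
  refine ⟨?_, ?_, Set.Countable.image ?_ _, fun a ha U _ h =>
    ⟨{a}, ⟨a, ha, rfl⟩, rfl, singleton_subset_iff.mpr h⟩⟩
  · rintro (x | n)
    · simp only [ret, ContinuousMap.coe_mk, Sum.map_inl, Sum.inl.injEq, Subtype.mk.injEq]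
      funext i
      split_ifs <;> rfl
    · rfl
  · rintro F hF' _ ⟨x | n, hx, rfl⟩
    · simp only [ret, ContinuousMap.coe_mk, Sum.map_inl]
      by_cases h : ∀ i, x.1 i ≠ 0 → i ∈ sp ℱ
      · convert hx
        rename_i i
        split_ifs with hi
        · rfl
        · exact (not_not.mp fun h' => hi (h i h')).symm
      · push Not at h
        obtain ⟨i, hi, hi'⟩ := h
        have h0 : Sum.inl ⟨0, fun _ _ h => absurd rfl h⟩ ∈ F := by
          by_contra h0
          exact hi' ⟨F, hF', h0, x, hx, hi⟩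
        convert h0
        rename_i j
        split_ifs with hj
        · by_contra h1
          exact hi' (x.2 j i h1 hi ▸ hj)
        · rfl
    · exact hx
  · have h1 : (sp ℱ).Countable := by
      have h2 : ∀ F ∈ ℱ, {i | Sum.inl ⟨0, fun _ _ h => absurd rfl h⟩ ∉ F ∧
          ∃ x : A, Sum.inl x ∈ F ∧ x.1 i ≠ 0}.Countable := by
        intro F hF'
        by_cases h0 : Sum.inl ⟨0, fun _ _ h => absurd rfl h⟩ ∈ F
        · simp [h0]
        have h3 := ((hF F hF').preimage continuous_inl).isOpen_compl.mem_nhds h0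
        obtain ⟨V, hV, hVA⟩ := (mem_nhds_subtype _ _ _).mp h3
        rw [nhds_pi, mem_pi'] at hV
        obtain ⟨I, U, hU, hIU⟩ := hV
        refine I.countable_toSet.mono ?_
        rintro i ⟨-, x, hx, hi⟩
        by_contra h4
        refine hVA (show x ∈ Subtype.val ⁻¹' V from hIU fun j hj => ?_) hx
        have : x.1 j = 0 := by
          by_contra h5
          exact h4 (x.2 j i h5 hi ▸ hj)
        rw [this]
        exact mem_of_mem_nhds (hU j)
      refine (hc.biUnion h2).mono ?_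
      rintro i ⟨F, h3, h4⟩
      exact mem_biUnion h3 h4
    have h2 : {x : A | ∀ i, x.1 i ≠ 0 → i ∈ sp ℱ}.Countable := by
      refine Set.Countable.mono ?_ ((((h1.image fun i => (Pi.single i 1 : ℝ → NS.F)).insert
        0)).preimage Subtype.val_injective)
      intro x hx
      by_cases h : ∃ i, x.1 i ≠ 0
      · obtain ⟨i, hi⟩ := h
        refine Or.inr ⟨i, hx i hi, funext fun j => ?_⟩
        by_cases hj : j = i
        · subst hj
          have : ∀ a : NS.F, a ≠ 0 → 1 = a := by decide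
          simpa using this _ hi
        · simp only [Pi.single_eq_of_ne hj]
          exact (not_not.mp fun h' => hj (x.2 j i h' hi)).symm
      · push Not at h
        exact Or.inl (funext h)
    refine ((h2.image Sum.inl).union (countable_range Sum.inr)).mono ?_
    rintro _ ⟨x | n, rfl⟩
    · refine Or.inl ⟨_, ?_, rfl⟩
      intro i hi
      by_contra h
      exact hi (if_neg h)
    · exact Or.inr ⟨n, rfl⟩

theorem range_ret (S : Set ℝ) (z : A ⊕ ℕ) :
    z ∈ range (ret S) ↔ ∀ x, z = Sum.inl x → ∀ i, x.1 i ≠ 0 → i ∈ S := by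
  classical
  constructor
  · rintro ⟨y | n, rfl⟩ x hx i hi
    · cases hx
      by_contra h
      exact hi (if_neg h)
    · cases hx
  · intro h
    refine ⟨z, ?_⟩
    rcases z with x | n
    · simp only [ret, ContinuousMap.coe_mk, Sum.map_inl, Sum.inl.injEq]
      refine Subtype.ext (funext fun i => ?_)
      simp only
      split_ifs with hi
      · rfl
      · exact (not_not.mp fun h' => hi (h x rfl i h')).symm
    · rfl

theorem sp_mono {ℱ 𝒢 : Set (Set (A ⊕ ℕ))} (h : ℱ ⊆ 𝒢) :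
    (singleton '' range (ret (sp ℱ)) : Set (Set (A ⊕ ℕ))) ⊆ singleton '' range (ret (sp 𝒢)) := by
  refine image_mono fun z hz => ?_
  rw [range_ret] at hz ⊢
  intro x hx i hi
  obtain ⟨F, hF, h1⟩ := hz x hx i hi
  exact ⟨F, h hF, h1⟩

theorem t35_sum (X Y : Type) [TopologicalSpace X] [TopologicalSpace Y] [T35Space X]
    [T35Space Y] : T35Space (X ⊕ Y) := by
  obtain ⟨u, hu⟩ := CompletelyRegularSpace.exists_uniformSpace (X := X)
  obtain ⟨w, hw⟩ := CompletelyRegularSpace.exists_uniformSpace (X := Y)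
  subst hu hw
  haveI : T1Space (X ⊕ Y) := ⟨by
    rintro (x | y)
    · simpa using IsClosedEmbedding.inl.isClosedMap _ (isClosed_singleton (x := x))
    · simpa using IsClosedEmbedding.inr.isClosedMap _ (isClosed_singleton (x := y))⟩
  exact {}

theorem main2 : ∃ (X Y : Type) (_ : TopologicalSpace X) (_ : TopologicalSpace Y) (f : X → Y),
    T35Space X ∧ T35Space Y ∧ Continuous f ∧ Surjective f ∧ MSok X ∧ MSokW X ∧
      ¬ MSok Y ∧ ¬ MSokW Y := by
  classical
  obtain ⟨d, hd⟩ := NS.sepF (I := ℝ) id injective_id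
  let Y : Set (ℝ → NS.F) := A ∪ range d
  have hN : ∀ (r : C(Y, Y)) (N : Set (Set Y)),
      ¬ Pair (singleton '' (Subtype.val ⁻¹' range d)) r N := by
    refine not_sok ((countable_range d).preimage Subtype.val_injective) ?_
      (fun i : ℝ => (⟨Pi.single i 1, Or.inl fun a b ha hb => ?_⟩ : Y))
      (fun i => {y | y.1 i = 1}) (fun i => (isOpen_discrete {1}).preimage
        (f := fun y : Y => y.1 i) ((continuous_apply i).comp continuous_subtype_val)) ?_
    · rw [dense_iff_inter_open]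
      rintro _ ⟨O, hO, rfl⟩ ⟨x, hx⟩
      obtain ⟨s, u, h6, h7⟩ := isOpen_pi_iff.1 hO _ hx
      obtain ⟨n, hn⟩ := hd s x
      exact ⟨⟨d n, Or.inr ⟨n, rfl⟩⟩, h7 fun i hi =>
        (show d n i ∈ u i from (hn i hi).symm ▸ (h6 i hi).2), n, rfl⟩
    · have h1 : a = i := not_not.mp fun h => ha (Pi.single_eq_of_ne h _)
      have h2 : b = i := not_not.mp fun h => hb (Pi.single_eq_of_ne h _)
      rw [h1, h2]
    · intro i j
      simp only [mem_setOf_eq, Pi.single_apply]
      split_ifs with h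
      · simp [h]
      · exact ⟨fun h' => absurd h' zero_ne_one, fun h' => absurd h'.symm h⟩
  have hc : (singleton '' (Subtype.val ⁻¹' range d) : Set (Set Y)).Countable :=
    ((countable_range d).preimage Subtype.val_injective).image _
  haveI : T35Space (A ⊕ ℕ) := t35_sum A ℕ
  refine ⟨A ⊕ ℕ, Y, inferInstance, inferInstance,
    Sum.elim (fun x => ⟨x.1, Or.inl x.2⟩) (fun n => ⟨d n, Or.inr ⟨n, rfl⟩⟩), inferInstance,
    inferInstance, (continuous_subtype_val.subtype_mk _).sumElim continuous_of_discreteTopology,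
    ?_, ⟨fun ℱ => ret (sp ℱ), fun ℱ => singleton '' range (ret (sp ℱ)),
      fun ℱ h => pair_ret h.1 h.2, fun _ _ _ _ => sp_mono⟩,
    ⟨fun ℱ => ret (sp ℱ), fun ℱ => singleton '' range (ret (sp ℱ)),
      fun ℱ h => pair_ret h.1 fun F hF => (h.2 F hF).1, fun _ _ _ _ => sp_mono, ?_⟩, ?_, ?_⟩
  · rintro ⟨_, hx | ⟨n, rfl⟩⟩
    · exact ⟨Sum.inl ⟨_, hx⟩, rfl⟩
    · exact ⟨Sum.inr n, rfl⟩
  · intro 𝒜 _ _
    refine Subset.antisymm ?_ (iUnion_subset fun n => sp_mono (subset_iUnion 𝒜 n))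
    rintro _ ⟨z, hz, rfl⟩
    rw [range_ret] at hz
    suffices ∃ n, z ∈ range (ret (sp (𝒜 n))) by
      obtain ⟨n, hn⟩ := this
      exact mem_iUnion.mpr ⟨n, z, hn, rfl⟩
    by_cases h : ∃ x i, z = Sum.inl x ∧ x.1 i ≠ 0
    · obtain ⟨x, i, rfl, hi⟩ := h
      obtain ⟨F, hF, h1⟩ := hz x rfl i hi
      obtain ⟨n, hn⟩ := mem_iUnion.mp hF
      refine ⟨n, (range_ret _ _).mpr fun y hy j hj => ?_⟩
      cases hy
      exact x.2 i j hi hj ▸ ⟨F, hn, h1⟩
    · exact ⟨0, (range_ret _ _).mpr fun y hy j hj => absurd ⟨y, j, hy, hj⟩ h⟩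
  · rintro ⟨r, N, h, -⟩
    exact hN _ _ (h _ ⟨hc, by rintro _ ⟨x, -, rfl⟩; exact isClosed_singleton⟩)
  · rintro ⟨r, N, h, -⟩
    exact hN _ _ (h _ ⟨hc, by rintro _ ⟨x, -, rfl⟩; exact ⟨isClosed_singleton, x, rfl⟩⟩)

end Pool.Agent.H31.Sok
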