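import Mathlib

namespace Pool.Agent.H31.Sok

universe u v

/-- `r` is a retraction preserving the members of `ℱ` and `N` is a countable external network
for its image -/
def Pair {X : Type u} [TopologicalSpace X] (ℱ : Set (Set X)) (r : C(X, X)) (N : Set (Set X)) :
    Prop :=
  (∀ x, r (r x) = r x) ∧ (∀ F ∈ ℱ, r '' F ⊆ F) ∧ N.Countable ∧
    ∀ a ∈ Set.range r, ∀ U, IsOpen U → a ∈ U → ∃ M ∈ N, a ∈ M ∧ M ⊆ U

/-- countable family of closed sets -/
def Adm {X : Type u} [TopologicalSpace X] (ℱ : Set (Set X)) : Prop :=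
  ℱ.Countable ∧ ∀ F ∈ ℱ, IsClosed F

/-- countable family of nonempty closed sets -/
def Adm' {X : Type u} [TopologicalSpace X] (ℱ : Set (Set X)) : Prop :=
  ℱ.Countable ∧ ∀ F ∈ ℱ, IsClosed F ∧ F.Nonempty

/-- monotonically Sokolov, with a monotone assignment on families of closed sets -/
def MSok (X : Type u) [TopologicalSpace X] : Prop :=
  ∃ (r : Set (Set X) → C(X, X)) (N : Set (Set X) → Set (Set X)),
    (∀ ℱ, Adm ℱ → Pair ℱ (r ℱ) (N ℱ)) ∧ ∀ ℱ 𝒢, Adm ℱ → Adm 𝒢 → ℱ ⊆ 𝒢 → N ℱ ⊆ N 𝒢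

/-- monotonically Sokolov, with an omega-monotone assignment on families of nonempty closed
sets -/
def MSokW (X : Type u) [TopologicalSpace X] : Prop :=
  ∃ (r : Set (Set X) → C(X, X)) (N : Set (Set X) → Set (Set X)),
    (∀ ℱ, Adm' ℱ → Pair ℱ (r ℱ) (N ℱ)) ∧ (∀ ℱ 𝒢, Adm' ℱ → Adm' 𝒢 → ℱ ⊆ 𝒢 → N ℱ ⊆ N 𝒢) ∧
      ∀ 𝒜 : ℕ → Set (Set X), (∀ n, Adm' (𝒜 n)) → Monotone 𝒜 → N (⋃ n, 𝒜 n) = ⋃ n, N (𝒜 n)

/-- the one-point Lindelofication of the discrete set `Γ`; `none` is the point at infinity -/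
def L (Γ : Type u) : Type u := Option Γ

instance (Γ : Type u) : TopologicalSpace (L Γ) where
  IsOpen U := (none : Option Γ) ∈ U → Uᶜ.Countable
  isOpen_univ := fun _ => by simp
  isOpen_inter := fun U V hU hV h => by
    rw [Set.compl_inter]
    exact (hU h.1).union (hV h.2)
  isOpen_sUnion := fun _ hS ⟨U, hU, h⟩ =>
    (hS U hU h).mono (Set.compl_subset_compl.mpr (Set.subset_sUnion_of_mem hU))

/-- primarily Lindelof -/
def PrimL (T : Type u) [TopologicalSpace T] : Prop :=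
  ∃ (Γ : Type v) (F : Set (ℕ → L Γ)) (f : F → T), IsClosed F ∧ Continuous f ∧
    Function.Surjective f

/-- real-quotient map -/
def RQuot {X : Type u} {Y : Type v} [TopologicalSpace X] [TopologicalSpace Y] (f : X → Y) :
    Prop :=
  Continuous f ∧ Function.Surjective f ∧ ∀ g : Y → ℝ, Continuous (g ∘ f) → Continuous g

end Pool.Agent.H31.Sok
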