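import Pool.Agent.H31.KRDefs

namespace Pool.Agent.H31.SqK

open Set Filter Topology TopologicalSpace

theorem kr_prod {X Y : Type} [TopologicalSpace X] [TopologicalSpace Y] [SequentialSpace X]
    [SequentialSpace Y] {D : Set X} (hD : Dense D)
    (h : ∀ x : ℕ → X, (∀ n, x n ∈ D) → ∃ z, ∃ φ : ℕ → ℕ, StrictMono φ ∧
      Tendsto (x ∘ φ) atTop (𝓝 z)) : Snf.KR (X × Y) inferInstance := by
  intro g hg
  have h1 : SeqContinuous g := fun s z hs =>
    (hg _ hs.isCompact_insert_range z (mem_insert _ _)).tendsto.comp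
      (tendsto_nhdsWithin_iff.mpr ⟨hs, Eventually.of_forall fun n => Or.inr ⟨n, rfl⟩⟩)
  have h2 : ∀ y, Continuous fun x => g (x, y) := fun y =>
    SeqContinuous.continuous fun s z hs => h1 (hs.prodMk_nhds tendsto_const_nhds)
  have h3 : ∀ (s : ℕ → Y) y, Tendsto s atTop (𝓝 y) → ∀ ε > 0, ∀ᶠ n in atTop, ∀ x,
      dist (g (x, s n)) (g (x, y)) ≤ ε := by
    intro s y hs ε hε
    by_contra hcon
    obtain ⟨φ, h3, h4⟩ := extraction_of_frequently_atTop (not_eventually.mp hcon)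
    have h5 : ∀ n, ∃ x ∈ D, ε < dist (g (x, s (φ n))) (g (x, y)) := fun n => by
      obtain ⟨x, hx⟩ := not_forall.mp (h4 n)
      exact hD.exists_mem_open (isOpen_lt continuous_const ((h2 _).dist (h2 _))) ⟨x, not_le.mp hx⟩
    choose x h5 h6 using h5
    obtain ⟨z, ψ, h7, h8⟩ := h x h5
    have h9 := (h1 (h8.prodMk_nhds (hs.comp (h3.comp h7).tendsto_atTop))).dist
      (h1 (h8.prodMk_nhds (tendsto_const_nhds (x := y))))
    rw [dist_self] at h9
    obtain ⟨n, hn⟩ := (h9.eventually (gt_mem_nhds hε)).exists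
    exact lt_asymm hn (h6 _)
  refine continuous_iff_continuousAt.mpr fun p => Metric.tendsto_nhds.mpr fun ε hε => ?_
  have h4 : IsClosed {y | ∀ δ < ε / 2, ∃ x, δ < dist (g (x, y)) (g (x, p.2))} := by
    refine IsSeqClosed.isClosed fun s y hs hy δ hδ => ?_
    obtain ⟨n, hn⟩ := (h3 s y hy ((ε / 2 - δ) / 2) (by linarith)).exists
    obtain ⟨x, hx⟩ := hs n ((ε / 2 + δ) / 2) (by linarith)
    exact ⟨x, by linarith [hn x, dist_triangle (g (x, s n)) (g (x, y)) (g (x, p.2))]⟩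
  filter_upwards [continuous_snd.continuousAt.preimage_mem_nhds (h4.isOpen_compl.mem_nhds
    (show p.2 ∉ _ from fun h5 => by simpa using h5 0 (half_pos hε))),
    (continuous_fst.tendsto p).eventually (Metric.tendsto_nhds.mp ((h2 p.2).tendsto p.1) _
      (half_pos hε))] with q h5 h6
  simp only [mem_preimage, mem_compl_iff, mem_setOf_eq, not_forall, not_exists, not_lt] at h5
  obtain ⟨δ, h7, h8⟩ := h5
  linarith [h8 q.1, dist_triangle (g q) (g (q.1, p.2)) (g p)]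

theorem mad : ∃ 𝒜 : Set (Set (ℕ × ℕ)), (∀ k, {p | p.1 = k} ∈ 𝒜) ∧ (∀ A ∈ 𝒜, A.Infinite) ∧
    (𝒜.Pairwise fun A B => (A ∩ B).Finite) ∧
      ∀ S : Set (ℕ × ℕ), S.Infinite → ∃ A ∈ 𝒜, (A ∩ S).Infinite := by
  obtain ⟨𝒜, h1, h2⟩ := zorn_subset_nonempty {𝒜 : Set (Set (ℕ × ℕ)) | (∀ A ∈ 𝒜, A.Infinite) ∧
    𝒜.Pairwise fun A B => (A ∩ B).Finite} (fun c hc h1 _ => ⟨⋃₀ c, ⟨fun A ⟨_, h2, h3⟩ =>
      (hc h2).1 A h3, (pairwise_sUnion h1.directedOn).mpr fun a ha => (hc ha).2⟩,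
      fun _ => subset_sUnion_of_mem⟩) (range fun k => {p | p.1 = k}) ⟨by
        rintro _ ⟨k, rfl⟩
        exact infinite_of_injective_forall_mem (f := fun n : ℕ => (k, n))
          (fun _ _ h => (Prod.mk.inj h).2) fun _ => rfl, by
        rintro _ ⟨k, rfl⟩ _ ⟨l, rfl⟩ h
        exact finite_empty.subset fun p hp => h (by rw [← hp.1, ← hp.2])⟩
  refine ⟨𝒜, fun k => h1 ⟨k, rfl⟩, h2.prop.1, h2.prop.2, fun S hS => ?_⟩
  by_contra hcon
  push Not at hcon
  have h3 := h2.eq_of_subset (t := insert S 𝒜) ⟨forall_mem_insert.mpr ⟨hS, h2.prop.1⟩,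
    h2.prop.2.insert fun A hA _ => ⟨by rw [inter_comm]; exact hcon A hA, hcon A hA⟩⟩
    (subset_insert _ _)
  exact hS (by simpa using hcon S (h3 ▸ mem_insert _ _))

def AA : Set (Set (ℕ × ℕ)) := mad.choose

inductive XS
  | inf
  | iso (n : ℕ) (p : ℕ × ℕ)
  | lim (n : ℕ) (A : AA)

def XS.lv : XS → ℕ∞
  | inf => ⊤
  | iso n _ => n
  | lim n _ => n

instance : TopologicalSpace XS where
  IsOpen U := (∀ n A, XS.lim n A ∈ U → ∀ᶠ p in cofinite, p ∈ A.1 → XS.iso n p ∈ U) ∧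
    (XS.inf ∈ U → ∃ N : ℕ, ∀ x : XS, N ≤ x.lv → x ∈ U)
  isOpen_univ := by simp
  isOpen_inter := fun _ _ h h' => ⟨fun n A hA => ((h.1 n A hA.1).and (h'.1 n A hA.2)).mono
    fun _ hp h1 => ⟨hp.1 h1, hp.2 h1⟩, fun h1 => by
      obtain ⟨a, ha⟩ := h.2 h1.1
      obtain ⟨b, hb⟩ := h'.2 h1.2
      exact ⟨max a b, fun x hx => ⟨ha x (le_trans (by simp) hx), hb x (le_trans (by simp) hx)⟩⟩⟩
  isOpen_sUnion := fun _ h => ⟨fun n A ⟨t, h1, h2⟩ => ((h t h1).1 n A h2).mono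
    fun _ hp h3 => ⟨t, h1, hp h3⟩, fun ⟨t, h1, h2⟩ => ((h t h1).2 h2).imp
      fun _ hN x hx => ⟨t, h1, hN x hx⟩⟩

theorem openX {U : Set XS} : IsOpen U ↔ (∀ n A, XS.lim n A ∈ U → ∀ᶠ p in cofinite,
    p ∈ A.1 → XS.iso n p ∈ U) ∧ (XS.inf ∈ U → ∃ N : ℕ, ∀ x : XS, N ≤ x.lv → x ∈ U) := Iff.rfl

theorem t_inf {s : ℕ → XS} (h : ∀ N : ℕ, ∀ᶠ k in atTop, N ≤ (s k).lv) :
    Tendsto s atTop (𝓝 .inf) := tendsto_nhds.mpr fun _ hU h1 => by
  obtain ⟨N, hN⟩ := hU.2 h1
  exact (h N).mono fun k hk => hN _ hk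

theorem t_lim (n : ℕ) {A : AA} {s : ℕ → ℕ × ℕ} (h : ∀ k, s k ∈ A.1)
    (h' : Tendsto s atTop cofinite) : Tendsto (fun k => XS.iso n (s k)) atTop (𝓝 (.lim n A)) :=
  tendsto_nhds.mpr fun _ hU h1 => (h'.eventually (hU.1 n A h1)).mono fun k hk => hk (h k)

instance : SequentialSpace XS := ⟨fun C hC => ⟨fun n A hA => by
    by_contra h
    let e := Set.Infinite.natEmbedding _ (frequently_cofinite_iff_infinite.mp (not_eventually.mp h))
    refine hA (hC (fun k => not_not.mp (Classical.not_imp.mp (e k).2).2) (t_lim n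
      (fun k => (Classical.not_imp.mp (e k).2).1) ?_))
    rw [← Nat.cofinite_eq_atTop]
    exact (Subtype.val_injective.comp e.injective).tendsto_cofinite, fun h => by
    by_contra h1
    push Not at h1
    choose s h1 h2 using h1
    exact h (hC (fun k => not_not.mp (h2 k)) (t_inf fun N => (eventually_ge_atTop N).mono
      fun k hk => le_trans (by simpa using hk) (h1 k)))⟩⟩

theorem clopenX (U : Set XS) (h1 : ∀ n A, ∀ᶠ p in cofinite, p ∈ A.1 →
    (XS.iso n p ∈ U ↔ XS.lim n A ∈ U)) (h2 : ∃ N : ℕ, ∀ x : XS, N ≤ x.lv → (x ∈ U ↔ .inf ∈ U)) :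
    IsClopen U :=
  ⟨⟨fun n A h => (h1 n A).mono fun _ hp h3 h4 => h ((hp h3).mp h4),
    fun h => h2.imp fun _ hN x hx h3 => h ((hN x hx).mp h3)⟩,
    fun n A h => (h1 n A).mono fun _ hp h3 => (hp h3).mpr h,
    fun h => h2.imp fun _ hN x hx => (hN x hx).mpr h⟩

theorem lv_ne {x : XS} {n : ℕ} (h : ((n + 1 : ℕ) : ℕ∞) ≤ x.lv) : x.lv ≠ n := fun h1 => by
  rw [h1] at h
  exact absurd (Nat.cast_le.mp h) (by omega)

instance : T35Space XS := by
  haveI : CompletelyRegularSpace XS := by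
    refine .of_isTopologicalBasis_clopens (isTopologicalBasis_of_isOpen_of_nhds
      (fun _ h => h.isOpen) fun x U hx hU => ?_)
    rcases x with _ | ⟨n, p⟩ | ⟨n, A⟩
    · obtain ⟨N, hN⟩ := hU.2 hx
      exact ⟨{x | N ≤ x.lv}, clopenX _ (fun n A => Eventually.of_forall fun _ _ => Iff.rfl)
        ⟨N, fun x h => iff_of_true h (le_top : (N : ℕ∞) ≤ ⊤)⟩, (le_top : (N : ℕ∞) ≤ ⊤), hN⟩
    · refine ⟨{.iso n p}, clopenX _ (fun m A => (eventually_cofinite_ne p).mono fun q hq _ => ?_)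
        ⟨n + 1, fun x h => iff_of_false (fun h1 => lv_ne h (h1 ▸ rfl)) (by simp)⟩, rfl,
        singleton_subset_iff.mpr hx⟩
      simp [hq]
    · refine ⟨insert (.lim n A) (U ∩ XS.iso n '' A.1), clopenX _ (fun m B => ?_)
        ⟨n + 1, fun x h => iff_of_false ?_ (by simp)⟩, mem_insert _ _,
        insert_subset hx inter_subset_left⟩
      · by_cases h : XS.lim m B = XS.lim n A
        · obtain ⟨rfl, rfl⟩ := XS.lim.inj h
          exact (hU.1 _ _ hx).mono fun p hp h1 => iff_of_true (Or.inr ⟨hp h1, p, h1, rfl⟩)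
            (mem_insert _ _)
        · by_cases h1 : m = n
          · subst h1
            refine Eventually.mono (mad.choose_spec.2.2.1 B.2 A.2 fun h2 =>
              h (by rw [Subtype.ext h2])).compl_mem_cofinite fun p hp h2 =>
                iff_of_false ?_ (by simp [h])
            rintro (h3 | ⟨-, q, h3, h4⟩)
            · cases h3
            · exact hp ⟨h2, (XS.iso.inj h4).2 ▸ h3⟩
          · exact Eventually.of_forall fun p _ => iff_of_false (by simp [Ne.symm h1]) (by simp [h])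
      · rintro (h1 | ⟨-, q, -, h1⟩)
        · exact lv_ne h (h1 ▸ rfl)
        · exact lv_ne h (h1 ▸ rfl)
  haveI : T1Space XS := by
    refine ⟨fun x => ⟨fun n A _ => ?_, fun h => ?_⟩⟩
    · rcases x with _ | ⟨m, p⟩ | _
      · simp
      · exact (eventually_cofinite_ne p).mono fun q hq _ => by simp [hq]
      · simp
    · rcases x with _ | ⟨m, p⟩ | ⟨m, B⟩
      · exact absurd rfl h
      · exact ⟨m + 1, fun x h1 h2 => lv_ne h1 (h2 ▸ rfl)⟩
      · exact ⟨m + 1, fun x h1 h2 => lv_ne h1 (h2 ▸ rfl)⟩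
  exact ⟨⟩

inductive YS
  | inf
  | pt (n k : ℕ)

instance : TopologicalSpace YS where
  IsOpen U := YS.inf ∈ U → ∀ n, ∀ᶠ k in atTop, YS.pt n k ∈ U
  isOpen_univ := by simp
  isOpen_inter := fun _ _ h h' h1 n => (h h1.1 n).and (h' h1.2 n)
  isOpen_sUnion := fun _ h ⟨t, h1, h2⟩ n => (h t h1 h2 n).mono fun _ hk => ⟨t, h1, hk⟩

instance : SequentialSpace YS := ⟨fun C hC => ⟨fun h n => by
  by_contra h1
  obtain ⟨φ, h2, h3⟩ := extraction_of_frequently_atTop (not_eventually.mp h1)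
  exact h (hC (fun k => not_not.mp (h3 k)) (tendsto_nhds.mpr fun U hU h4 =>
    h2.tendsto_atTop.eventually (hU h4 n)))⟩⟩

theorem closedY (n k : ℕ) : IsClosed {YS.pt n k} :=
  ⟨fun _ m => (eventually_gt_atTop k).mono fun l hl h => hl.ne' (YS.pt.inj h).2⟩

instance : T35Space YS := by
  haveI : CompletelyRegularSpace YS := by
    refine .of_isTopologicalBasis_clopens (isTopologicalBasis_of_isOpen_of_nhds
      (fun _ h => h.isOpen) fun x U hx hU => ?_)
    rcases x with _ | ⟨n, k⟩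
    · exact ⟨U, ⟨⟨fun h => absurd hx h⟩, hU⟩, hx, subset_rfl⟩
    · exact ⟨{.pt n k}, ⟨closedY n k, fun h => by cases h⟩, rfl, singleton_subset_iff.mpr hx⟩
  haveI : T1Space YS := ⟨fun x => by
    rcases x with _ | ⟨n, k⟩
    · exact ⟨fun h => absurd rfl h⟩
    · exact closedY n k⟩
  exact ⟨⟩

theorem kr : Snf.KR (XS × YS) inferInstance := by
  refine kr_prod (D := {x | ∃ n p, x = .iso n p}) (dense_iff_inter_open.mpr fun U hU ⟨x, hx⟩ => ?_)
    fun x hx => ?_
  · rcases x with _ | ⟨n, p⟩ | ⟨n, A⟩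
    · obtain ⟨N, hN⟩ := hU.2 hx
      exact ⟨_, hN (.iso N (0, 0)) le_rfl, _, _, rfl⟩
    · exact ⟨_, hx, _, _, rfl⟩
    · obtain ⟨p, h1, h2⟩ := ((frequently_cofinite_iff_infinite.mpr
        (mad.choose_spec.2.1 _ A.2)).and_eventually (hU.1 n A hx)).exists
      exact ⟨_, h2 h1, _, _, rfl⟩
  · choose n p h using hx
    obtain rfl : x = fun k => .iso (n k) (p k) := funext h
    by_cases h1 : ∃ N, ∃ᶠ k in atTop, n k = N
    · obtain ⟨N, h1⟩ := h1
      obtain ⟨φ, h2, h3⟩ := extraction_of_frequently_atTop h1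
      by_cases h4 : ∃ q, ∃ᶠ k in atTop, p (φ k) = q
      · obtain ⟨q, h4⟩ := h4
        obtain ⟨ψ, h5, h6⟩ := extraction_of_frequently_atTop h4
        exact ⟨.iso N q, φ ∘ ψ, h2.comp h5, tendsto_const_nhds.congr fun k => by simp [h3, h6]⟩
      · have h5 : Tendsto (p ∘ φ) atTop cofinite :=
          le_cofinite_iff_eventually_ne.mpr fun q => not_frequently.mp fun h5 => h4 ⟨q, h5⟩
        obtain ⟨A, h6, h7⟩ := mad.choose_spec.2.2.2 (range (p ∘ φ)) fun h6 => by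
          obtain ⟨k, hk⟩ := (h5.eventually h6.compl_mem_cofinite).exists
          exact hk ⟨k, rfl⟩
        obtain ⟨ψ, h8, h9⟩ := extraction_of_frequently_atTop (P := fun k => p (φ k) ∈ A) (by
          rw [← Nat.cofinite_eq_atTop, frequently_cofinite_iff_infinite]
          refine fun h8 => h7 ((h8.image (p ∘ φ)).subset ?_)
          rintro _ ⟨h9, k, rfl⟩
          exact ⟨k, h9, rfl⟩)
        exact ⟨.lim N ⟨A, h6⟩, φ ∘ ψ, h2.comp h8, (t_lim N h9 (h5.comp h8.tendsto_atTop)).congr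
          fun k => by simp [h3]⟩
    · refine ⟨.inf, id, strictMono_id, t_inf fun N => ?_⟩
      filter_upwards [(finite_Iio N).eventually_all.mpr fun m _ =>
        not_frequently.mp fun h2 => h1 ⟨m, h2⟩] with k hk
      exact Nat.cast_le.mpr (not_lt.mp fun h2 => hk _ h2 rfl)

theorem notK : ¬CompactlyCoherentSpace (XS × YS) := by
  intro h
  let d : ℕ × ℕ → XS × YS := fun z => (.lim z.1 ⟨_, mad.choose_spec.1 z.2⟩, .pt z.1 z.2)
  have h1 : IsClosed (range d) := by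
    refine (CompactlyCoherentSpace.isClosed_iff _).mpr fun K hK => Finite.isClosed
      ((Finite.preimage (s := d '' (d ⁻¹' K)) Subtype.val_injective.injOn ?_).subset
        fun w ⟨z, hz⟩ => ⟨z, show d z ∈ K from hz ▸ w.2, hz⟩)
    refine Finite.image _ ?_
    by_contra h1
    let e := Set.Infinite.natEmbedding _ h1
    have he : Tendsto (fun k => (e k).1) atTop cofinite := by
      rw [← Nat.cofinite_eq_atTop]
      exact (Subtype.val_injective.comp e.injective).tendsto_cofinite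
    have h2 : ∀ (φ : ℕ → ℕ) (U : XS × YS → Set (XS × YS)), (∀ w, U w ∈ 𝓝 w) →
        ¬∀ w, ∀ᶠ k in atTop, d (e (φ k)) ∉ U w := fun φ U h2 h3 => by
      obtain ⟨w, -, h4⟩ := hK.exists_mapClusterPt (f := atTop) (u := fun k => d (e (φ k)))
        (tendsto_principal.mpr (Eventually.of_forall fun k => (e (φ k)).2))
      exact (mapClusterPt_iff_frequently.mp h4 _ (h2 w)) (h3 w)
    by_cases h3 : ∃ N, ∃ᶠ k in atTop, (e k).1.1 = N
    · obtain ⟨N, h3⟩ := h3
      obtain ⟨φ, h4, h5⟩ := extraction_of_frequently_atTop h3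
      refine h2 φ (fun w => {v | (∃ A, v.1 = .lim N A) → v.1 = w.1}) (fun w =>
        continuous_fst.continuousAt.preimage_mem_nhds (t := {x | (∃ A, x = .lim N A) → x = w.1})
          (IsOpen.mem_nhds ⟨fun n A _ => Eventually.of_forall fun _ _ => by simp,
            fun _ => ⟨N + 1, fun x h6 ⟨A, h7⟩ => absurd (h7 ▸ rfl) (lv_ne h6)⟩⟩ fun _ => rfl))
        fun w => ?_
      have h6 : {z | (d z).1 = w.1}.Finite := Subsingleton.finite fun a ha b hb => by
        obtain ⟨h6, h7⟩ := XS.lim.inj (ha.trans hb.symm)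
        exact Prod.ext h6 ((Set.ext_iff.mp (congrArg Subtype.val h7) (a.2, 0)).mp rfl)
      exact ((he.comp h4.tendsto_atTop).eventually h6.compl_mem_cofinite).mono fun k hk h7 =>
        hk (h7 ⟨_, by simp only [d, h5]; rfl⟩)
    · refine h2 id (fun w => {v | (∃ k, v.2 = (d (e k)).2) → v.2 = w.2}) (fun w =>
        continuous_snd.continuousAt.preimage_mem_nhds (t := {y | (∃ k, y = (d (e k)).2) → y = w.2})
          (IsOpen.mem_nhds (fun _ n => ?_) fun _ => rfl)) fun w => ?_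
      · have h4 : {k | (e k).1.1 = n}.Finite := by
          rw [← Nat.cofinite_eq_atTop] at h3
          exact not_infinite.mp fun h4 => h3 ⟨n, frequently_cofinite_iff_infinite.mpr h4⟩
        rw [← Nat.cofinite_eq_atTop]
        refine Eventually.mono (h4.image fun k => (e k).1.2).compl_mem_cofinite ?_
        rintro l hl ⟨k, hk⟩
        exact absurd ⟨k, (YS.pt.inj hk).1.symm, (YS.pt.inj hk).2.symm⟩ hl
      · have h6 : {z | (d z).2 = w.2}.Finite := Subsingleton.finite fun a ha b hb => by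
          obtain ⟨h6, h7⟩ := YS.pt.inj (ha.trans hb.symm)
          exact Prod.ext h6 h7
        exact (he.eventually h6.compl_mem_cofinite).mono fun k hk h7 => hk (h7 ⟨k, rfl⟩)
  obtain ⟨U, V, hU, hV, h2, h3, h4⟩ := isOpen_prod_iff.mp h1.isOpen_compl .inf .inf (by simp [d])
  obtain ⟨N, hN⟩ := hU.2 h2
  obtain ⟨k, hk⟩ := (hV h3 N).exists
  exact h4 (mk_mem_prod (hN (d (N, k)).1 le_rfl) hk) ⟨(N, k), rfl⟩

end Pool.Agent.H31.SqK
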