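import Mathlib

set_option autoImplicit false

open Set Function Filter Topology Cardinal

namespace Pool.Agent.H31.Stat

/-- the index set, of size above the continuum -/
abbrev Λ : Type := Set ℝ

theorem step (C : Λ → Set Λ) (hC : ∀ a, (C a).Countable) (Y : Set Λ) (hY : 𝔠 < #Y) :
    ∃ a ∈ Y, 𝔠 < #({b ∈ Y | a ∉ C b} \ C a : Set Λ) := by
  by_contra h
  push Not at h
  obtain ⟨Z, hZ, hZ'⟩ := le_mk_iff_exists_subset.1 hY.le
  have h1 : ∀ a ∈ Y, #({b ∈ Y | a ∉ C b} : Set Λ) ≤ 𝔠 := fun a ha =>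
    (mk_le_mk_of_subset (subset_diff_union _ (C a))).trans ((mk_union_le _ _).trans
      (add_le_of_le aleph0_le_continuum (h a ha)
        ((hC a).le_aleph0.trans aleph0_le_continuum)))
  have h2 : #(⋃ a : Z, {b ∈ Y | a.1 ∉ C b} : Set Λ) ≤ 𝔠 :=
    (mk_iUnion_le _).trans ((mul_le_mul' hZ'.le (ciSup_le' fun a : Z => h1 a (hZ a.2))).trans
      continuum_mul_self.le)
  obtain ⟨b, hb, hb'⟩ := not_subset.1 fun hs => (hY.trans_le (mk_le_mk_of_subset hs)).not_ge h2
  have h3 : Z ⊆ C b := fun a ha => by_contra fun h4 => hb' (mem_iUnion.2 ⟨⟨a, ha⟩, hb, h4⟩)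
  exact (aleph0_lt_continuum.trans_le (hZ'.ge.trans (mk_le_mk_of_subset h3))).not_ge
    (hC b).le_aleph0

theorem free (C : Λ → Set Λ) (hC : ∀ a, (C a).Countable) :
    ∃ α : ℕ → Λ, ∀ m n, m ≠ n → α m ∉ C (α n) := by
  choose! f f1 f2 using step C hC
  have h0 : 𝔠 < #(univ : Set Λ) := by
    rw [mk_univ, mk_set, mk_real]; exact cantor _
  let Y : ℕ → {Y : Set Λ // 𝔠 < #Y} := fun n => Nat.rec (motive := fun _ => _) ⟨univ, h0⟩
    (fun _ Y => ⟨_, f2 Y.1 Y.2⟩) n
  have hY : Antitone fun n => (Y n).1 := antitone_nat_of_succ_le fun n b hb => hb.1.1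
  refine ⟨fun n => f (Y n).1, fun m n h => ?_⟩
  rcases lt_or_gt_of_ne h with h | h
  · exact (hY h (f1 _ (Y n).2)).1.2
  · exact (hY h (f1 _ (Y m).2)).2

/-- functions of `C`-many coordinates -/
def Dep (C : Set Λ) : Set (Set Λ → ZMod 2) := {g | ∀ x y : Set Λ, x ∩ C = y ∩ C → g x = g y}

theorem Dep.mono {C D : Set Λ} (h : C ⊆ D) : Dep C ⊆ Dep D := fun g hg x y e => hg x y <| by
  rw [← inter_eq_self_of_subset_right h, inter_comm D, ← inter_assoc, ← inter_assoc,
    inter_right_comm x, e, inter_right_comm y]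

theorem Dep.compact (C : Set Λ) : IsCompact (Dep C) := by
  refine IsClosed.isCompact ?_
  simp only [Dep, setOf_forall]
  exact isClosed_iInter fun x => isClosed_iInter fun y => isClosed_iInter fun _ =>
    isClosed_eq (continuous_apply x) (continuous_apply y)

/-- the group of functions depending on countably many coordinates -/
def G : AddSubgroup (Set Λ → ZMod 2) where
  carrier := {g | ∃ C : Set Λ, C.Countable ∧ g ∈ Dep C}
  zero_mem' := ⟨∅, countable_empty, fun _ _ _ => rfl⟩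
  add_mem' := fun ⟨C, h1, h2⟩ ⟨D, h3, h4⟩ => ⟨C ∪ D, h1.union h3, fun x y e =>
    congrArg₂ (· + ·) (Dep.mono subset_union_left h2 x y e) (Dep.mono subset_union_right h4 x y e)⟩
  neg_mem' := fun ⟨C, h1, h2⟩ => ⟨C, h1, fun x y e => congrArg (- ·) (h2 x y e)⟩

theorem bounded (H : Set G) (hH : H.Countable) : IsCompact (closure H) := by
  choose C hC hC' using fun g : G => g.2
  have h1 : IsCompact (Subtype.val ⁻¹' Dep (⋃ g ∈ H, C g) : Set G) :=
    IsInducing.subtypeVal.isCompact_preimage' (Dep.compact _) fun g hg =>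
      ⟨⟨g, _, hH.biUnion fun g _ => hC g, hg⟩, rfl⟩
  exact h1.of_isClosed_subset isClosed_closure (closure_minimal
    (fun g hg => Dep.mono (subset_biUnion_of_mem (u := C) hg) (hC' g)) h1.isClosed)

theorem main (s : Set G → G) (hs : ∀ U, IsOpen U → U.Nonempty → s U ∈ U) :
    ∃ U : ℕ → Set G, (∀ n, IsOpen (U n) ∧ (U n).Nonempty) ∧
      ¬ ∃ φ : ℕ → ℕ, StrictMono φ ∧ ∃ x, Tendsto (fun k => s (U (φ k))) atTop (𝓝 x) := by
  classical
  choose C hC hC' using fun g : G => g.2
  let U : Λ → Set G := fun a => {g | g.1 ∅ = 0 ∧ g.1 {a} = 1}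
  have hc : ∀ x : Set Λ, Continuous fun g : G => g.1 x := fun x =>
    (continuous_apply x).comp continuous_subtype_val
  have hU : ∀ a, IsOpen (U a) ∧ (U a).Nonempty := fun a =>
    ⟨((isOpen_discrete {0}).preimage (hc ∅)).inter ((isOpen_discrete {1}).preimage (hc {a})),
      ⟨fun x => if a ∈ x then 1 else 0, {a}, countable_singleton a, fun x y e => by
        have := Set.ext_iff.1 e a
        simp only [mem_inter_iff, mem_singleton_iff, and_true] at this
        simp only [this]⟩, by simp, by simp⟩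
  obtain ⟨α, hα⟩ := free (fun a => C (s (U a))) fun a => hC _
  refine ⟨fun n => U (α n), fun n => hU _, fun ⟨φ, hφ, x, hx⟩ => ?_⟩
  let z : Set Λ := range fun k => α (φ (2 * k))
  have h1 := ((hc z).tendsto x).comp hx
  rw [nhds_discrete, tendsto_pure, eventually_atTop] at h1
  obtain ⟨N, hN⟩ := h1
  have h2 := (hN (2 * N) (by omega)).trans (hN (2 * N + 1) (by omega)).symm
  have h3 : (s (U (α (φ (2 * N))))).1 z = 1 := by
    refine (hC' _ _ _ ?_).trans (hs _ (hU _).1 (hU _).2).2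
    ext b
    refine and_congr_left fun hb => ⟨?_, fun e => ⟨N, e.symm⟩⟩
    rintro ⟨k, rfl⟩
    by_contra h
    exact hα _ _ (fun e => h (congrArg α e)) hb
  have h4 : (s (U (α (φ (2 * N + 1))))).1 z = 0 := by
    refine (hC' _ _ _ ?_).trans (hs _ (hU _).1 (hU _).2).1
    ext b
    refine and_congr_left fun hb => ⟨?_, False.elim⟩
    rintro ⟨k, rfl⟩
    exact hα _ _ (fun e => by have := hφ.injective e; omega) hb
  exact one_ne_zero (h3.symm.trans (h2.trans h4))

end Pool.Agent.H31.Stat
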