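import Pool.Agent.H31.StrongDDefs

set_option autoImplicit false

open Filter Topology Set

namespace Pool.Agent.H31.SD

inductive Y : Type
  | c (n : ℕ) : Y
  | top : Y
  | s (p : Bool) : Y
  | b (i : ℕ) : Y

def le : Y → Y → Prop
  | .c m, .c n => m ≤ n
  | .c _, .top => True
  | .top, .top => True
  | .s p, .s q => p = q
  | .s _, .b _ => True
  | .b i, .b j => i = j
  | _, _ => False

theorem le_refl' (x : Y) : le x x := by cases x <;> simp [le]

theorem le_trans' {x y z : Y} (h1 : le x y) (h2 : le y z) : le x z := by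
  cases x <;> cases y <;> cases z <;> simp_all [le]
  omega

instance : TopologicalSpace Y where
  IsOpen U := (∀ x ∈ U, ∀ y, le x y → y ∈ U) ∧ (Y.top ∈ U → ∃ n, Y.c n ∈ U)
  isOpen_univ := ⟨fun _ _ _ _ => trivial, fun _ => ⟨0, trivial⟩⟩
  isOpen_inter := by
    rintro U V ⟨h1, h2⟩ ⟨h3, h4⟩
    refine ⟨fun x hx y h => ⟨h1 x hx.1 y h, h3 x hx.2 y h⟩, fun h => ?_⟩
    obtain ⟨m, hm⟩ := h2 h.1
    obtain ⟨n, hn⟩ := h4 h.2
    exact ⟨max m n, h1 _ hm _ (le_max_left m n), h3 _ hn _ (le_max_right m n)⟩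
  isOpen_sUnion := by
    intro S h
    refine ⟨fun x ⟨U, hU, hx⟩ y hy => ⟨U, hU, (h U hU).1 x hx y hy⟩, fun ⟨U, hU, hx⟩ => ?_⟩
    obtain ⟨n, hn⟩ := (h U hU).2 hx
    exact ⟨n, U, hU, hn⟩

theorem cl_iff {x y : Y} : x ∈ closure {y} ↔ le x y := by
  rw [mem_closure_iff]
  constructor
  · intro h
    by_contra hc
    obtain ⟨_, h1, rfl⟩ := h {z | ¬ le z y} ⟨fun z hz w hw h => hz (le_trans' hw h), fun h => by
      cases y with
      | c n => exact ⟨n + 1, by simp [le]⟩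
      | top => exact absurd trivial h
      | s p => exact ⟨0, by simp [le]⟩
      | b i => exact ⟨0, by simp [le]⟩⟩ hc
    exact h1 (le_refl' _)
  · exact fun h U hU hx => ⟨y, hU.1 x hx y h, rfl⟩

theorem two_up {d e f : Y} (h1 : le d e) (h2 : ¬ le e d) (h3 : le e f) (h4 : ¬ le f e) :
    ∃ n, d = Y.c n := by
  cases d <;> cases e <;> cases f <;> simp_all [le]

theorem below_top {n : ℕ} {y : Y} (h : le (Y.c n) y) : le y Y.top := by
  cases y <;> simp_all [le]

theorem strong : StrongD Y := by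
  refine ⟨⟨fun x y h => ?_⟩, fun D x U hD hd hU h => ?_⟩
  · have h1 := cl_iff.1 h.specializes.mem_closure
    have h2 := cl_iff.1 h.specializes'.mem_closure
    cases x <;> cases y <;> simp_all [le]
    omega
  simp only [cl_iff] at hd h ⊢
  by_cases hg : ∃ d ∈ D, ∀ e ∈ D, le e d
  · obtain ⟨d, hd1, hd2⟩ := hg
    exact ⟨d, hd1, fun y hy => h ⟨fun e he => le_trans' (hd2 e he) hy.1, hy.2⟩⟩
  have hup : ∀ d ∈ D, ∃ e ∈ D, le d e ∧ ¬ le e d := by
    intro d hd1
    push Not at hg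
    obtain ⟨e, he, he'⟩ := hg d hd1
    obtain ⟨f, hf, h1, h2⟩ := hd d hd1 e he
    exact ⟨f, hf, h1, fun h => he' (le_trans' h2 h)⟩
  have hc : ∀ d ∈ D, ∃ n, d = Y.c n := by
    intro d hd1
    obtain ⟨e, he, h1, h2⟩ := hup d hd1
    obtain ⟨f, -, h3, h4⟩ := hup e he
    exact two_up h1 h2 h3 h4
  have hn : ∀ n, ∃ m, n ≤ m ∧ Y.c m ∈ D := by
    intro n
    induction n with
    | zero =>
      obtain ⟨d, hd1⟩ := hD
      obtain ⟨m, rfl⟩ := hc d hd1
      exact ⟨m, Nat.zero_le _, hd1⟩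
    | succ n ih =>
      obtain ⟨m, h1, h2⟩ := ih
      obtain ⟨e, he, h3, h4⟩ := hup _ h2
      obtain ⟨k, rfl⟩ := hc e he
      simp only [le] at h3 h4
      exact ⟨k, by omega, he⟩
  by_cases hx : le x Y.top
  · obtain ⟨n, h1⟩ := hU.2 (h ⟨fun d hd1 => by obtain ⟨m, rfl⟩ := hc d hd1; trivial, hx⟩)
    obtain ⟨m, h2, h3⟩ := hn n
    exact ⟨_, h3, fun y hy => hU.1 _ h1 _ (le_trans' (show le (Y.c n) (Y.c m) from h2) hy.1)⟩
  · obtain ⟨m, -, h3⟩ := hn 0
    exact ⟨_, h3, fun y hy => absurd (le_trans' hy.2 (below_top hy.1)) hx⟩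

theorem both {y : Y} (a2 : le (Y.s true) y) (a3 : le (Y.s false) y) : ∃ i, y = Y.b i := by
  cases y <;> simp_all [le]

abbrev F : Type := {f : Bool → Y // Continuous f}

def mk (u v : Y) : F := ⟨fun p => if p then u else v, continuous_of_discreteTopology⟩

theorem clF {f g : F} : f ∈ closure {g} ↔ le (f.1 true) (g.1 true) ∧ le (f.1 false) (g.1 false) := by
  rw [← specializes_iff_mem_closure, subtype_specializes_iff, specializes_pi, Bool.forall_bool,
    specializes_iff_mem_closure, specializes_iff_mem_closure, cl_iff, cl_iff, and_comm]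

theorem not_strong : ¬ StrongD F := by
  rintro ⟨-, h⟩
  obtain ⟨_, ⟨n, rfl⟩, h1⟩ := h (range fun n => mk (Y.c n) (Y.s true)) (mk (Y.c 0) (Y.s false))
    (⋃ i, {g : F | le (Y.c (i + 1)) (g.1 true)} ∩ {g : F | g.1 false = Y.b i}) (range_nonempty _)
    (by
      rintro _ ⟨m, rfl⟩ _ ⟨n, rfl⟩
      exact ⟨_, ⟨max m n, rfl⟩, clF.2 ⟨le_max_left m n, rfl⟩, clF.2 ⟨le_max_right m n, rfl⟩⟩)
    (isOpen_iUnion fun i => by
      have h1 : IsOpen {y | le (Y.c (i + 1)) y} :=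
        ⟨fun x hx y hy => le_trans' hx hy, fun _ => ⟨i + 1, le_refl' (Y.c (i + 1))⟩⟩
      have h2 : IsOpen {y | y = Y.b i} := ⟨fun x hx y hy => by
        rw [mem_setOf_eq.mp hx] at hy
        cases y <;> simp_all [le], fun h => by cases h⟩
      have c1 : Continuous fun g : F => g.1 true := (continuous_apply true).comp continuous_subtype_val
      have c2 : Continuous fun g : F => g.1 false :=
        (continuous_apply false).comp continuous_subtype_val
      exact (h1.preimage c1).inter (h2.preimage c2))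
    (by
      rintro g ⟨h1, h2⟩
      have a1 : ∀ n, le (Y.c n) (g.1 true) := fun n => (clF.1 (h1 _ ⟨n, rfl⟩)).1
      have a2 : le (Y.s true) (g.1 false) := (clF.1 (h1 _ ⟨0, rfl⟩)).2
      have a3 : le (Y.s false) (g.1 false) := (clF.1 h2).2
      obtain ⟨i, hi⟩ : ∃ i, g.1 false = Y.b i := by
        exact both a2 a3
      exact mem_iUnion.2 ⟨i, a1 _, hi⟩)
  obtain ⟨i, a1, a2⟩ := mem_iUnion.1 (h1 (a := mk (Y.c n) (Y.b n))
    ⟨clF.2 ⟨le_refl' _, trivial⟩, clF.2 ⟨Nat.zero_le n, trivial⟩⟩)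
  have a3 : i + 1 ≤ n := a1
  have a4 : n = i := Y.b.inj a2
  omega

end Pool.Agent.H31.SD
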