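import Pool.Agent.H31.StrongD

set_option autoImplicit false

open Filter Topology Set

namespace Pool.Agent.H31.SD

theorem homeo {A B : Type} [TopologicalSpace A] [TopologicalSpace B] (e : A ≃ₜ B)
    (h : StrongD B) : StrongD A := by
  haveI := h.1
  have hc : ∀ a b : A, e a ∈ closure {e b} ↔ a ∈ closure {b} := fun a b => by
    rw [← specializes_iff_mem_closure, ← specializes_iff_mem_closure,
      e.isInducing.specializes_iff]
  refine ⟨e.symm.t0Space, fun D x U hD hd hU h1 => ?_⟩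
  obtain ⟨_, ⟨d, hd1, rfl⟩, h2⟩ := h.2 (e '' D) (e x) (e.symm ⁻¹' U) (hD.image _) (by
      rintro _ ⟨a, ha, rfl⟩ _ ⟨b, hb, rfl⟩
      obtain ⟨c, h1, h2, h3⟩ := hd a ha b hb
      exact ⟨_, ⟨c, h1, rfl⟩, (hc _ _).2 h2, (hc _ _).2 h3⟩)
    (hU.preimage e.symm.continuous) (by
      intro y hy
      obtain ⟨z, rfl⟩ := e.surjective y
      have := h1 (a := z) ⟨fun d hd => (hc _ _).1 (hy.1 _ ⟨d, hd, rfl⟩), (hc _ _).1 hy.2⟩
      simpa using this)
  refine ⟨d, hd1, fun y hy => ?_⟩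
  have := h2 (a := e y) ⟨(hc _ _).2 hy.1, (hc _ _).2 hy.2⟩
  simpa using this

theorem not_strong_pi : ¬ StrongD (Bool → Y) := fun h => not_strong (homeo
  (Homeomorph.mk ⟨fun f : F => f.1, fun g => ⟨g, continuous_of_discreteTopology⟩, fun _ => rfl,
    fun _ => rfl⟩ continuous_subtype_val (continuous_id.subtype_mk _)) h)

end Pool.Agent.H31.SD
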