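import Mathlib

set_option autoImplicit false

namespace Pool.Agent.H31.SD

def StrongD (Z : Type) [TopologicalSpace Z] : Prop :=
  T0Space Z ∧ ∀ (D : Set Z) (x : Z) (U : Set Z), D.Nonempty →
    DirectedOn (fun a b => a ∈ closure {b}) D → IsOpen U →
    {y | (∀ d ∈ D, d ∈ closure {y}) ∧ x ∈ closure {y}} ⊆ U →
    ∃ d ∈ D, {y | d ∈ closure {y} ∧ x ∈ closure {y}} ⊆ U

end Pool.Agent.H31.SD
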