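import Pool.Agent.H31.Suit

set_option autoImplicit false

open Set Topology Filter

namespace Pool.Agent.H31.Suit2

open Omega1 Suit

@[reducible] noncomputable def star : TopologicalSpace (W → ℤ) :=
  ⨅ a : W, TopologicalSpace.induced (tr a) ⊥

theorem star_grp : @IsTopologicalAddGroup (W → ℤ) star _ :=
  topologicalAddGroup_iInf fun a =>
    @topologicalAddGroup_induced _ _ ⊥ _
      (by letI : TopologicalSpace (W → ℤ) := ⊥
          haveI : DiscreteTopology (W → ℤ) := ⟨rfl⟩
          exact {}) _ _ _ _ (tr a)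

theorem star_basis (x : W → ℤ) :
    (@nhds _ star x).HasBasis (fun _ => True) fun a : W => {y | ∀ i < a, y i = x i} := by
  have : ∀ a : W, @nhds _ (TopologicalSpace.induced (tr a) ⊥) x = 𝓟 {y | ∀ i < a, y i = x i} :=
    fun a => by
      letI : TopologicalSpace (W → ℤ) := ⊥
      haveI : DiscreteTopology (W → ℤ) := ⟨rfl⟩
      rw [nhds_induced, nhds_discrete, comap_pure]
      congr 1
      ext y
      exact tr_eq
  rw [nhds_iInf]
  simp only [this]
  refine hasBasis_iInf_principal fun a b => ⟨max a b, fun y hy i hi => hy i ?_, fun y hy i hi => hy i ?_⟩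
  · exact hi.trans_le (le_max_left _ _)
  · exact hi.trans_le (le_max_right _ _)

theorem top_eq : TopologicalSpace.induced (fun x : G => x.1) star = Suit.instTopologicalSpaceG := by
  refine TopologicalSpace.ext_nhds fun x => ?_
  rw [@nhds_induced _ _ star]
  exact ((star_basis x.1).comap _).eq_of_same_basis (basis x)

theorem main : ∃ _ : TopologicalSpace (W → ℤ), IsTopologicalAddGroup (W → ℤ) ∧
    (𝓝 (0 : W → ℤ)).HasBasis (fun _ => True) (fun a : W => {x | ∀ b < a, x b = 0}) ∧
    ∃ H : AddSubgroup (W → ℤ), (∀ x ∈ H, (Function.support x).Countable) ∧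
      ∀ S : Set H, DiscreteTopology S → IsClosed (S ∪ {0}) →
        ¬ Dense (AddSubgroup.closure S : Set H) := by
  refine ⟨star, star_grp, star_basis 0, M.toAddSubgroup, fun x hx => ?_, ?_⟩
  · obtain ⟨b, hb⟩ := bdd hx
    exact (countable_Iio b).mono fun i hi => not_le.1 fun h => hi (hb i h)
  · have := @no_suit
    rw [← top_eq] at this
    exact fun S => @this S

abbrev G2 : Type := G ×ₗ G

noncomputable instance : TopologicalSpace G2 := Preorder.topology G2
instance : OrderTopology G2 := ⟨rfl⟩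

def sl (a : G) : Set G2 := {z | (ofLex z).1 = a}

theorem sl_open (a : G) : IsOpen (sl a) := by
  refine isOpen_iff_mem_nhds.2 fun z hz => ?_
  obtain ⟨l, hl⟩ := exists_lt (ofLex z).2
  obtain ⟨u, hu⟩ := exists_gt (ofLex z).2
  refine mem_of_superset (Ioo_mem_nhds (a := toLex (a, l)) (b := toLex (a, u)) ?_ ?_) ?_
  · exact Prod.Lex.lt_iff.2 (Or.inr ⟨hz.symm, hl⟩)
  · exact Prod.Lex.lt_iff.2 (Or.inr ⟨hz, hu⟩)
  · intro y hy
    exact le_antisymm (Prod.Lex.monotone_fst _ _ hy.2.le) (Prod.Lex.monotone_fst _ _ hy.1.le)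

def S0 : Set G2 := {z | (ofLex z).2 = 0 ∨ (ofLex z).2 = (ofLex z).1}

theorem S0_fin (a : G) : (S0 ∩ sl a).Finite := by
  refine ((finite_singleton (toLex (a, a))).insert (toLex (a, 0))).subset ?_
  rintro ⟨x, y⟩ ⟨h | h, h'⟩
  · exact Or.inl (Prod.ext h' h)
  · exact Or.inr (Prod.ext h' (h.trans h'))

theorem S0_cd : IsClosed S0 ∧ IsDiscrete S0 := by
  refine isClosed_and_discrete_iff.2 fun z => disjoint_principal_right.2 ?_
  have h1 := ((S0_fin (ofLex z).1).diff (t := {z})).isClosed.isOpen_compl.mem_nhds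
    (x := z) fun h => h.2 rfl
  filter_upwards [self_mem_nhdsWithin, nhdsWithin_le_nhds h1,
    nhdsWithin_le_nhds ((sl_open (ofLex z).1).mem_nhds rfl)] with y y1 y2 y3 y4
  exact y2 ⟨⟨y4, y3⟩, y1⟩

theorem S0_gen : AddSubgroup.closure S0 = ⊤ := by
  refine eq_top_iff.2 fun z _ => ?_
  have : z = toLex ((ofLex z).1 - (ofLex z).2, 0) + toLex ((ofLex z).2, (ofLex z).2) :=
    Prod.ext (sub_add_cancel _ _).symm (zero_add _).symm
  rw [this]
  exact add_mem (AddSubgroup.subset_closure (Or.inl rfl)) (AddSubgroup.subset_closure (Or.inr rfl))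

noncomputable def inr : G →+ G2 where
  toFun x := toLex (0, x)
  map_zero' := rfl
  map_add' _ _ := Prod.ext (add_zero _).symm rfl

theorem inr_emb : IsEmbedding inr := by
  refine StrictMono.isEmbedding_of_ordConnected
    (fun x y h => Prod.Lex.lt_iff.2 (Or.inr ⟨rfl, h⟩)) ⟨?_⟩
  rintro _ ⟨x, rfl⟩ _ ⟨y, rfl⟩ z hz
  exact ⟨(ofLex z).2, Prod.ext (le_antisymm (Prod.Lex.monotone_fst (inr x) z hz.1)
    (Prod.Lex.monotone_fst z (inr y) hz.2)) rfl⟩

theorem no2 (S : Set inr.range) (h1 : DiscreteTopology S) (h2 : IsClosed (S ∪ {0})) :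
    ¬ Dense (AddSubgroup.closure S : Set inr.range) := by
  intro h
  let f := inr.rangeRestrict
  have f1 : IsEmbedding f := inr_emb.codRestrict inr.range fun x => ⟨x, rfl⟩
  have f2 : Function.Surjective f := inr.rangeRestrict_surjective
  refine no_suit (S := f ⁻¹' S) (DiscreteTopology.preimage_of_continuous_injective S
    f1.continuous f1.injective) ?_ ?_
  · have := h2.preimage f1.continuous
    rwa [preimage_union, ← map_zero f, ← image_singleton, preimage_image_eq _ f1.injective] at this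
  · rw [f1.isInducing.dense_iff]
    intro x
    rw [← AddSubgroup.coe_map, AddMonoidHom.map_closure, image_preimage_eq _ f2]
    exact h _

end Pool.Agent.H31.Suit2
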