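import Pool.Agent.H31.OmegaB

set_option autoImplicit false

open Set Topology Filter

namespace Pool.Agent.H31.SuitB

open OmegaB

def Lad (l : W) (c : ℕ → W) : Prop := (∀ n, c n < l) ∧ (∀ g < l, ∃ n, g < c n) ∧ StrictMono c

open Classical in
noncomputable def C (l : W) : Set W := if h : ∃ c, Lad l c then range h.choose else ∅

theorem C_lt {l x : W} (h : x ∈ C l) : x < l := by
  unfold C at h
  split_ifs at h with h1
  · obtain ⟨n, rfl⟩ := h
    exact h1.choose_spec.1 n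
  · exact h.elim

theorem C_fin {l a : W} (h : a < l) : (C l ∩ Iio a).Finite := by
  unfold C
  split_ifs with h1
  · obtain ⟨n, hn⟩ := h1.choose_spec.2.1 a h
    refine ((finite_Iio n).image h1.choose).subset ?_
    rintro _ ⟨⟨m, rfl⟩, hm⟩
    exact ⟨m, h1.choose_spec.2.2.lt_iff_lt.1 (lt_trans hm hn), rfl⟩
  · simp

theorem C_cof {l : W} (h : ∃ c, Lad l c) {g : W} (hg : g < l) : ∃ x ∈ C l, g < x := by
  unfold C
  rw [dif_pos h]
  obtain ⟨n, hn⟩ := h.choose_spec.2.1 g hg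
  exact ⟨_, ⟨n, rfl⟩, hn⟩

noncomputable def gen : W ⊕ W → (W → ℤ)
  | .inl x => indicator {x} 1
  | .inr l => indicator (C l) 1

noncomputable def M : Submodule ℤ (W → ℤ) := Submodule.span ℤ (range gen)

noncomputable def tr (a : W) : (W → ℤ) →ₗ[ℤ] (W → ℤ) where
  toFun x := indicator (Iio a) x
  map_add' x y := indicator_add _ _ _
  map_smul' c x := indicator_const_smul (Iio a) c x

theorem tr_lt {a i : W} (x : W → ℤ) (h : i < a) : tr a x i = x i :=
  indicator_of_mem (s := Iio a) h _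
theorem tr_ge {a i : W} (x : W → ℤ) (h : a ≤ i) : tr a x i = 0 :=
  indicator_of_notMem (s := Iio a) (not_lt.2 h) _

theorem tr_eq {a : W} {x y : W → ℤ} : tr a x = tr a y ↔ ∀ i < a, x i = y i :=
  ⟨fun h i hi => by rw [← tr_lt x hi, h, tr_lt y hi], fun h => funext fun i => by
    rcases lt_or_ge i a with hi | hi
    · rw [tr_lt x hi, tr_lt y hi, h i hi]
    · rw [tr_ge x hi, tr_ge y hi]⟩

def low (a : W) : W ⊕ W → Prop
  | .inl x => x < a
  | .inr l => l ≤ a

noncomputable def N (a : W) : Submodule ℤ (W → ℤ) :=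
  Submodule.span ℤ (range fun i : {i // low a i} => gen i.1)

theorem N_le (a : W) : N a ≤ M := Submodule.span_mono (by rintro _ ⟨i, rfl⟩; exact ⟨i, rfl⟩)

theorem N_sm (a : W) : Sm (N a : Set (W → ℤ)) := by
  have : Nonempty {i // low a i} := ⟨⟨.inr a, le_refl a⟩⟩
  refine sm_span (ι := {i // low a i}) (show Sm {i | low a i} from ?_) _
  refine (((sm_Iio a).image Sum.inl).union ((sm_Iic a).image Sum.inr)).mono ?_
  rintro (i | i) hi
  · exact Or.inl ⟨i, hi, rfl⟩
  · exact Or.inr ⟨i, hi, rfl⟩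

theorem fin_mem {a : W} {s : Set W} (hs : s.Finite) (h : s ⊆ Iio a) :
    indicator s (1 : W → ℤ) ∈ N a := by
  induction s, hs using Set.Finite.induction_on with
  | empty => rw [indicator_empty]; exact zero_mem _
  | @insert x s hx _ ih =>
    rw [insert_eq, indicator_union_of_disjoint (disjoint_singleton_left.2 hx)]
    exact add_mem (Submodule.subset_span ⟨⟨.inl x, h (mem_insert _ _)⟩, rfl⟩)
      (ih ((subset_insert _ _).trans h))

theorem tr_mem (a : W) {x : W → ℤ} (hx : x ∈ M) : tr a x ∈ N a := by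
  refine (Submodule.span_le (p := (N a).comap (tr a))).2 ?_ hx
  rintro _ ⟨i | l, rfl⟩
  · show indicator (Iio a) (indicator {i} 1) ∈ N a
    rw [indicator_indicator]
    exact fin_mem ((finite_singleton i).inter_of_right _) inter_subset_left
  · show indicator (Iio a) (indicator (C l) 1) ∈ N a
    rw [indicator_indicator]
    rcases le_or_gt l a with h | h
    · rw [inter_eq_right.2 (show C l ⊆ Iio a from fun x hx => lt_of_lt_of_le (C_lt hx) h)]
      exact Submodule.subset_span ⟨⟨.inr l, h⟩, rfl⟩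
    · exact fin_mem (by rw [inter_comm]; exact C_fin h) inter_subset_left

theorem bdd {x : W → ℤ} (hx : x ∈ M) : ∃ b, ∀ i, b ≤ i → x i = 0 := by
  induction hx using Submodule.span_induction with
  | mem x hx =>
    obtain ⟨i | l, rfl⟩ := hx
    · obtain ⟨b, hb⟩ := exists_gt i
      exact ⟨b, fun j hj => indicator_of_notMem (s := {i}) (lt_of_lt_of_le hb hj).ne' _⟩
    · exact ⟨l, fun j hj => indicator_of_notMem (fun h => (C_lt h).not_ge hj) _⟩
  | zero => exact ⟨⊥, fun _ _ => rfl⟩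
  | add x y _ _ h1 h2 =>
    obtain ⟨a, ha⟩ := h1
    obtain ⟨b, hb⟩ := h2
    exact ⟨max a b, fun i hi => by
      simp [ha i (le_of_max_le_left hi), hb i (le_of_max_le_right hi)]⟩
  | smul c x _ h =>
    obtain ⟨a, ha⟩ := h
    exact ⟨a, fun i hi => by simp [ha i hi]⟩

def L (x : W → ℤ) : Set W := {d | ∀ g < d, ∃ i, g < i ∧ i < d ∧ x i ≠ 0}

theorem L_add (x y : W → ℤ) : L (x + y) ⊆ L x ∪ L y := by
  intro d hd
  by_contra h
  simp only [mem_union, L, mem_setOf_eq] at h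
  push Not at h
  obtain ⟨⟨a, a1, a2⟩, b, b1, b2⟩ := h
  obtain ⟨i, i1, i2, i3⟩ := hd (max a b) (max_lt a1 b1)
  exact i3 (by simp [a2 i (lt_of_le_of_lt (le_max_left _ _) i1) i2,
    b2 i (lt_of_le_of_lt (le_max_right _ _) i1) i2])

theorem L_smul (c : ℤ) (x : W → ℤ) : L (c • x) ⊆ L x := fun _ hd g hg => by
  obtain ⟨i, i1, i2, i3⟩ := hd g hg
  exact ⟨i, i1, i2, fun h => i3 (by simp [h])⟩

theorem L_ind {s : Set W} {d : W} (hs : (s ∩ Iio d).Finite) (h : d ∈ L (indicator s 1)) : d = ⊥ := by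
  by_contra hd
  obtain ⟨g, hg, hg'⟩ := exists_max_image (insert ⊥ (s ∩ Iio d)) id (hs.insert _) ⟨⊥, mem_insert _ _⟩
  have : g < d := by
    rcases hg with rfl | hg
    · exact bot_lt_iff_ne_bot.2 hd
    · exact hg.2
  obtain ⟨i, i1, i2, i3⟩ := h g this
  exact (hg' i (Or.inr ⟨mem_of_indicator_ne_zero i3, i2⟩)).not_gt i1

theorem L_fin {x : W → ℤ} (hx : x ∈ M) : (L x).Finite := by
  induction hx using Submodule.span_induction with
  | mem x hx =>
    obtain ⟨i | l, rfl⟩ := hx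
    · exact (finite_singleton ⊥).subset fun d hd =>
        L_ind ((finite_singleton i).inter_of_left _) hd
    · refine ((finite_singleton ⊥).insert l).subset fun d hd => ?_
      rcases lt_trichotomy d l with h | h | h
      · exact Or.inr (L_ind (C_fin h) hd)
      · exact Or.inl h
      · obtain ⟨i, i1, -, i3⟩ := hd l h
        exact ((C_lt (mem_of_indicator_ne_zero i3)).not_gt i1).elim
  | zero =>
    refine (finite_singleton ⊥).subset fun d hd => L_ind (s := ∅) (by simp) (by rw [indicator_empty]; exact hd)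
  | add x y _ _ h1 h2 => exact (h1.union h2).subset (L_add x y)
  | smul c x _ h => exact h.subset (L_smul c x)

theorem close (h : W → W) (a : W) :
    ∃ d, a < d ∧ (∃ c, Lad d c) ∧ ∀ g < d, ∃ b, g < b ∧ b < d ∧ h b < d := by
  have : ∀ b : W, ∃ e, b < e ∧ h b < e := fun b => by
    obtain ⟨e, he⟩ := exists_gt (max b (h b))
    exact ⟨e, lt_of_le_of_lt (le_max_left _ _) he, lt_of_le_of_lt (le_max_right _ _) he⟩
  choose e e1 e2 using this
  obtain ⟨u, h0, h1⟩ : ∃ u : ℕ → W, u 0 = a ∧ ∀ n, u (n + 1) = e (u n) :=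
    ⟨fun n => Nat.rec (motive := fun _ => W) a (fun _ b => e b) n, rfl, fun _ => rfl⟩
  have hu : StrictMono u := strictMono_nat_of_lt_succ fun n => by rw [h1]; exact e1 _
  obtain ⟨B, hB⟩ := exists_bound_seq u
  obtain ⟨d, hd, hd'⟩ := WellFounded.has_min (wellFounded_lt (α := W)) {b | ∀ n, u n < b} ⟨B, hB⟩
  have h2 : ∀ g < d, ∃ n, g < u n := fun g hg => by
    by_contra h
    push Not at h
    exact hd' g (fun n => lt_of_lt_of_le (hu (Nat.lt_succ_self n)) (h _)) hg
  refine ⟨d, h0 ▸ hd 0, ⟨u, hd, h2, hu⟩, fun g hg => ?_⟩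
  obtain ⟨n, hn⟩ := h2 g hg
  exact ⟨u n, hn, hd n, (e2 _).trans (h1 n ▸ hd (n + 1))⟩

theorem acc {S : Set (W → ℤ)} (hS : S ⊆ M) (hc : ¬ Sm S) :
    ∃ t ∈ M, ∀ b, ¬ Sm {s ∈ S | tr b s = tr b t} := by
  by_contra h
  push Not at h
  choose! β hβ using h
  have h1 : ∀ a, ∃ b, ∀ t ∈ N a, Sm {s ∈ S | tr b s = tr b t} := fun a => by
    obtain ⟨b, hb⟩ := exists_bound ((N_sm a).image β)
    refine ⟨b, fun t ht => (hβ t (N_le a ht)).mono fun s hs => And.intro hs.1 ?_⟩
    exact tr_eq.2 fun i hi => tr_eq.1 hs.2 i (hi.trans (hb _ ⟨t, ht, rfl⟩))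
  choose h hh using h1
  have h2 : ∀ a, Sm {s ∈ S | tr (h a) s = tr (h a) (tr a s)} := fun a =>
    ((N_sm a).biUnion (hh a)).mono fun s hs =>
      mem_biUnion (tr_mem a (hS hs.1)) hs
  have h3 : ∀ a, ∃ d, a < d ∧ Sm {s ∈ S | d ∉ L s} := fun a => by
    obtain ⟨d, d1, -, d2⟩ := close h a
    refine ⟨d, d1, ((sm_Iio d).biUnion fun b _ => h2 b).mono ?_⟩
    rintro s ⟨hs, hs'⟩
    simp only [L, mem_setOf_eq] at hs'
    push Not at hs'
    obtain ⟨g, g1, g2⟩ := hs'
    obtain ⟨b, b1, b2, b3⟩ := d2 g g1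
    refine mem_biUnion b2 ⟨hs, tr_eq.2 fun i hi => ?_⟩
    rcases lt_or_ge i b with h4 | h4
    · rw [tr_lt s h4]
    · rw [tr_ge s h4, g2 i (lt_of_lt_of_le b1 h4) (hi.trans b3)]
  choose d d1 d2 using h3
  obtain ⟨u, h1⟩ : ∃ u : ℕ → W, ∀ n, u (n + 1) = d (u n) :=
    ⟨fun n => Nat.rec (motive := fun _ => W) ⊥ (fun _ b => d b) n, fun _ => rfl⟩
  have hu : StrictMono fun n => u (n + 1) := strictMono_nat_of_lt_succ fun n => by
    rw [h1 (n + 1)]; exact d1 _
  refine hc ((sm_iUnion fun n => d2 (u n)).mono fun s hs => ?_)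
  by_contra h4
  simp only [mem_iUnion, mem_setOf_eq] at h4
  push Not at h4
  exact (infinite_range_of_injective hu.injective).mono
    (by rintro _ ⟨n, rfl⟩; simp only [h1]; exact h4 n hs) (L_fin (hS hs))

def G : Type := M

noncomputable instance : AddCommGroup G := inferInstanceAs (AddCommGroup M)

noncomputable instance : LinearOrder G :=
  LinearOrder.lift' (fun x : M => toLex x.1) fun _ _ h => Subtype.ext h

theorem lt_def {x y : G} : x < y ↔ ∃ i, (∀ j < i, x.1 j = y.1 j) ∧ x.1 i < y.1 i := Iff.rfl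

instance : IsOrderedAddMonoid G where
  add_le_add_left x y h z := show toLex x.1 + toLex z.1 ≤ toLex y.1 + toLex z.1 from
    add_le_add_left (show toLex x.1 ≤ toLex y.1 from h) _

noncomputable instance : TopologicalSpace G := Preorder.topology G
instance : OrderTopology G := ⟨rfl⟩

noncomputable def e (a : W) : G := ⟨gen (.inl a), Submodule.subset_span ⟨_, rfl⟩⟩

theorem e_self (a : W) : (e a).1 a = 1 := indicator_of_mem (s := {a}) rfl _
theorem e_ne {a i : W} (h : i ≠ a) : (e a).1 i = 0 := indicator_of_notMem (s := {a}) h _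

theorem e_pos (a : W) : 0 < e a :=
  lt_def.2 ⟨a, fun _ hj => (e_ne hj.ne).symm, by rw [e_self]; exact zero_lt_one⟩

instance : Nontrivial G := ⟨⟨_, _, (e_pos ⊥).ne⟩⟩

def U (x : G) (a : W) : Set G := {y | ∀ i < a, y.1 i = x.1 i}

theorem basis (x : G) : (𝓝 x).HasBasis (fun _ => True) (U x) := by
  refine (nhds_basis_abs_sub_lt x).to_hasBasis (fun ε hε => ?_) fun a _ => ⟨e a, e_pos a, ?_⟩
  · obtain ⟨i, h1, h2⟩ := lt_def.1 hε
    obtain ⟨b, hb⟩ := exists_gt i
    refine ⟨b, trivial, fun y hy => ?_⟩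
    have h3 : ∀ j ≤ i, (y - x).1 j = 0 := fun j hj => sub_eq_zero.2 (hy j (hj.trans_lt hb))
    refine abs_lt.2 ⟨lt_def.2 ⟨i, fun j hj => ?_, ?_⟩, lt_def.2 ⟨i, fun j hj => ?_, ?_⟩⟩
    · rw [h3 j hj.le]; exact neg_eq_zero.2 (h1 j hj).symm
    · rw [h3 i le_rfl]; exact neg_lt_zero.2 h2
    · rw [h3 j hj.le]; exact h1 j hj
    · rw [h3 i le_rfl]; exact h2
  · intro y hy
    have h3 : ∀ z : G, 0 ≤ z → z < e a → ∀ i < a, z.1 i = 0 := fun z h1 h2 i hi => by
      rcases h1.eq_or_lt with rfl | h1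
      · rfl
      obtain ⟨j, j1, j2⟩ := lt_def.1 h1
      rcases lt_or_ge i j with h | h
      · exact (j1 i h).symm
      obtain ⟨k, k1, k2⟩ := lt_def.1 h2
      have j3 := e_ne (h.trans_lt hi).ne
      have j2 : 0 < z.1 j := j2
      rcases lt_trichotomy k j with h4 | rfl | h4
      · have : (0 : ℤ) = z.1 k := j1 k h4
        rw [e_ne ((h4.trans_le h).trans hi).ne] at k2
        omega
      · omega
      · have := k1 j h4
        omega
    intro i hi
    have h4 := h3 _ (abs_nonneg _) hy i hi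
    rcases abs_choice (y - x) with h | h <;> rw [h] at h4
    · exact sub_eq_zero.1 h4
    · exact sub_eq_zero.1 (neg_eq_zero.1 h4)

theorem U_nhds (x : G) (a : W) : U x a ∈ 𝓝 x := (basis x).mem_of_mem trivial

theorem U_clopen (x : G) (a : W) : IsClopen (U x a) := by
  refine ⟨isOpen_compl_iff.1 (isOpen_iff_mem_nhds.2 fun y hy => ?_),
    isOpen_iff_mem_nhds.2 fun y hy => ?_⟩
  · exact mem_of_superset (U_nhds y a) fun z hz hz' => hy fun i hi => (hz i hi).symm.trans (hz' i hi)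
  · exact mem_of_superset (U_nhds y a) fun z hz i hi => (hz i hi).trans (hy i hi)

instance : TotallySeparatedSpace G := by
  refine totallySeparatedSpace_iff_exists_isClopen.2 fun x y h => ?_
  obtain ⟨i, hi⟩ : ∃ i, y.1 i ≠ x.1 i := by
    by_contra h1
    push Not at h1
    exact h (Subtype.ext (funext fun i => (h1 i).symm))
  obtain ⟨b, hb⟩ := exists_gt i
  exact ⟨U x b, U_clopen x b, fun _ _ => rfl, fun h => hi (h i hb)⟩

theorem base (x : G) : ∃ V : (ℕ → ℕ) → Set G, (𝓝 x).HasBasis (fun _ => True) V ∧ Antitone V := by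
  obtain ⟨f, f1, f2⟩ := exists_f
  refine ⟨fun α => U x (f α), (basis x).to_hasBasis (fun a _ => ?_) fun α _ => ⟨_, trivial, le_rfl⟩,
    fun α β h y hy i hi => hy i (hi.trans_le (f1 h))⟩
  obtain ⟨α, hα⟩ := f2 a
  exact ⟨α, trivial, fun y hy i hi => hy i (hi.trans_le hα)⟩

theorem small {S : Set G} (h1 : DiscreteTopology S) (h2 : IsClosed (S ∪ {0})) (a : W) :
    Sm (S \ U 0 a) := by
  by_contra hc
  obtain ⟨t, t1, t2⟩ := acc (S := Subtype.val '' (S \ U 0 a)) (by
    rintro _ ⟨x, -, rfl⟩; exact x.2) fun h =>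
      hc (Sm.of_image Subtype.val_injective h)
  let g : G := ⟨t, t1⟩
  have h3 : ∀ b, ¬ Sm (S \ U 0 a ∩ U g b) := fun b h => t2 b ((h.image Subtype.val).mono (by
    rintro _ ⟨⟨x, hx, rfl⟩, hx'⟩
    exact ⟨x, ⟨hx, tr_eq.1 hx'⟩, rfl⟩))
  have h4 : ∀ b, (S \ U 0 a ∩ U g b).Nonempty := fun b =>
    nonempty_iff_ne_empty.2 fun h => h3 b (h ▸ .of_countable countable_empty)
  have h5 : g ∈ S ∪ {0} := h2.closure_subset ((mem_closure_iff_nhds_basis' (basis g)).2
    fun b _ => by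
      obtain ⟨x, x1, x2⟩ := h4 b
      exact ⟨x, x2, Or.inl x1.1⟩)
  rcases h5 with h5 | h5
  · obtain ⟨V, v1, v2⟩ := (discreteTopology_subtype_iff'.1 h1) g h5
    obtain ⟨b, -, hb⟩ := (basis g).mem_iff.1 (v1.mem_nhds (v2.superset rfl).1)
    exact h3 b ((Sm.of_countable (countable_singleton g)).mono fun x hx => v2.subset ⟨hb hx.2, hx.1.1⟩)
  · obtain ⟨x, x1, x2⟩ := h4 a
    exact x1.2 (h5 ▸ x2)

theorem no_suit {S : Set G} (h1 : DiscreteTopology S) (h2 : IsClosed (S ∪ {0})) :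
    ¬ Dense (AddSubgroup.closure S : Set G) := by
  intro h
  choose b hb using fun x : G => bdd x.2
  choose k hk using fun a => exists_bound ((small h1 h2 a).image b)
  obtain ⟨d, d0, d1, d2⟩ := close k ⊥
  obtain ⟨y, y1, y2⟩ := mem_closure_iff_nhds.1
    (h ⟨gen (.inr d), Submodule.subset_span ⟨_, rfl⟩⟩) _ (U_nhds _ d)
  have h3 : d ∉ L y.1 := by
    clear y1
    induction y2 using AddSubgroup.closure_induction with
    | mem x hx =>
      intro h3
      obtain ⟨i, -, i2, i3⟩ := h3 ⊥ d0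
      obtain ⟨c, c1, c2, c3⟩ := d2 i i2
      obtain ⟨j, j1, -, j3⟩ := h3 _ c3
      exact j3 (hb x j ((hk c _ ⟨x, ⟨hx, fun h => i3 (h i c1)⟩, rfl⟩).trans j1).le)
    | zero =>
      intro h3
      obtain ⟨i, -, -, i3⟩ := h3 ⊥ d0
      exact i3 rfl
    | add x y _ _ h1 h2 => exact fun h3 => (L_add _ _ h3).elim h1 h2
    | neg x _ h1 => exact fun h3 => h1 (L_smul (-1) _ (by rw [neg_one_smul]; exact h3))
  refine h3 fun g hg => ?_
  obtain ⟨x, x1, x2⟩ := C_cof d1 hg
  refine ⟨x, x2, C_lt x1, ?_⟩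
  rw [y1 x (C_lt x1)]
  show indicator (C d) (1 : W → ℤ) x ≠ 0
  rw [indicator_of_mem x1]
  exact one_ne_zero

end Pool.Agent.H31.SuitB
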