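import Pool.Agent.H31.TDDefs

namespace Pool.Agent.H31.TD

open Complex

noncomputable def mk (a b c e : ℂ) : Module.End ℝ (ℂ × ℂ) where
  toFun p := (a * p.1 + b * p.2, c * p.1 + e * p.2)
  map_add' p q := by ext <;> simp <;> ring
  map_smul' r p := by ext <;> simp <;> ring

theorem mE (a b c e : ℂ) (t : ℝ) (p : ℂ × ℂ) :
    p ∈ E (mk a b c e) t ↔ a * p.1 + b * p.2 = t * p.1 ∧ c * p.1 + e * p.2 = t * p.2 := by
  rw [E, Module.End.mem_eigenspace_iff, Prod.ext_iff]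
  rfl

noncomputable def A := mk 0 0 0 1
noncomputable def B := mk I 1 (1 + I) (1 - I)
noncomputable def S := mk 1 0 0 (1 + I)

theorem a0 (p) : p ∈ E A 0 ↔ p.2 = 0 := by simp [A, mE]
theorem a1 (p) : p ∈ E A 1 ↔ p.1 = 0 := by simp [A, mE, eq_comm]
theorem b0 (p) : p ∈ E B 0 ↔ p.2 = -I * p.1 := by
  rw [B, mE]
  exact ⟨fun h => by linear_combination (exp := 1) h.1 + p.1 * ofReal_zero, fun h => by
    rw [h, ofReal_zero]; exact ⟨by ring, by linear_combination p.1 * I_mul_I⟩⟩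
theorem b1 (p) : p ∈ E B 1 ↔ p.2 = (1 - I) * p.1 := by
  rw [B, mE]
  exact ⟨fun h => by linear_combination (exp := 1) h.1 + p.1 * ofReal_one, fun h => by
    rw [h, ofReal_one]; exact ⟨by ring, by linear_combination p.1 * I_mul_I⟩⟩

theorem sA : E A 0 ⊔ E A 1 = ⊤ := eq_top_iff.2 fun p _ =>
  Submodule.mem_sup.2 ⟨(p.1, 0), (a0 _).2 rfl, (0, p.2), (a1 _).2 rfl, by simp⟩

theorem sB : E B 0 ⊔ E B 1 = ⊤ := eq_top_iff.2 fun p _ =>
  Submodule.mem_sup.2 ⟨(p.1 - (p.2 + I * p.1), -I * (p.1 - (p.2 + I * p.1))), (b0 _).2 rfl,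
    (p.2 + I * p.1, (1 - I) * (p.2 + I * p.1)), (b1 _).2 rfl, by ext <;> simp <;> ring⟩

theorem tp (U : Fin 2 → Submodule ℝ (ℂ × ℂ)) (P : Fin 2 → Prop) (h0 : P 0) (h1 : P 1)
    (h : U 0 ⊔ U 1 = ⊤) : ⨆ j, ⨆ _ : P j, U j = ⊤ :=
  eq_top_iff.2 (h ▸ sup_le (le_iSup₂_of_le (f := fun j (_ : P j) => U j) 0 h0 le_rfl)
    (le_iSup₂_of_le (f := fun j (_ : P j) => U j) 1 h1 le_rfl))

theorem ord (X Y : Module.End ℝ (ℂ × ℂ)) (h : E X 0 ⊔ E X 1 = ⊤) (h0 : E X 0 ≠ ⊥)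
    (h1 : E X 1 ≠ ⊥) : Ord (d := 1) X Y ![0, 1] := by
  refine ⟨fun i j e => ?_, fun i => ?_, eq_top_iff.2 (h ▸ sup_le
    (le_iSup (fun i => E X (![0, 1] i)) (0 : Fin 2)) (le_iSup (fun i => E X (![0, 1] i)) (1 : Fin 2))),
    fun i => ?_⟩
  · fin_cases i <;> fin_cases j <;> simp_all
  · fin_cases i
    exacts [h0, h1]
  · rw [tp (fun j => E X (![0, 1] j)) _ (by omega) (by omega) h]
    exact le_top

theorem nb {W : Submodule ℝ (ℂ × ℂ)} (z : ℂ) (h : (1, z) ∈ W ∨ (z, 1) ∈ W) : W ≠ ⊥ := by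
  rintro rfl
  simp at h

theorem irr : Irr A B := fun W hA hB => by
  have fA : ∀ u v, (u, v) ∈ W → (0, v) ∈ W := fun u v h => by
    simpa [A, mk] using hA ⟨_, h, rfl⟩
  have fA' : ∀ u v, (u, v) ∈ W → (u, 0) ∈ W := fun u v h => by
    simpa using W.sub_mem h (fA u v h)
  have fB : ∀ u v, (u, v) ∈ W → (I * u + v, (1 + I) * u + (1 - I) * v) ∈ W := fun u v h => by
    simpa [B, mk] using hB ⟨_, h, rfl⟩
  have k : ∀ u, u ≠ 0 → (u, 0) ∈ W → W = ⊤ := fun u hu h => by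
    have h1 : (I * u, 0) ∈ W := by simpa using fA' _ _ (fB _ _ h)
    have h2 : ∀ z, (z, 0) ∈ W := fun z => by
      convert W.add_mem (W.smul_mem (z / u).re h) (W.smul_mem (z / u).im h1) using 1
      ext
      · simp only [Prod.fst_add, Prod.smul_fst, real_smul]
        linear_combination -u * re_add_im (z / u) - div_mul_cancel₀ z hu
      · simp
    refine eq_top_iff.2 fun p _ => ?_
    convert W.add_mem (h2 p.1) (fA _ _ (fB _ _ (h2 ((1 - I) / 2 * p.2)))) using 1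
    ext
    · simp
    · simp only [Prod.snd_add]
      linear_combination p.2 / 2 * I_mul_I
  rw [or_iff_not_imp_left]
  intro h
  obtain ⟨⟨u, v⟩, h1, h2⟩ := (Submodule.ne_bot_iff W).1 h
  by_cases hu : u = 0
  · subst hu
    exact k v (fun e => h2 (by simp [e])) (by simpa using fA' _ _ (fB _ _ h1))
  · exact k u hu (fA' _ _ h1)

theorem adm : Adm (d := 1) A B S ![0, 1] ![0, 1] := by
  have sj : ∀ p : ℂ × ℂ, S (p.1, (1 - I) / 2 * p.2) = p := fun p => by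
    ext
    · simp [S, mk]
    · show 0 * p.1 + (1 + I) * ((1 - I) / 2 * p.2) = p.2
      linear_combination -p.2 / 2 * I_mul_I
  intro i
  fin_cases i
  · refine ⟨Submodule.ext fun p => ⟨?_, fun h => ⟨_, (a0 _).2 ?_, sj p⟩⟩, ?_⟩
    · rintro ⟨q, hq, rfl⟩
      exact (a0 _).2 (by simp [S, mk, (a0 _).1 hq])
    · simp [(a0 _).1 h]
    · have e1 : (⨆ j : Fin 2, ⨆ _ : j ≤ 0, E B (![0, 1] j)) = E B 0 := by simp
      have e2 : (⨆ j : Fin 2, ⨆ _ : 1 ≤ j, E B (![0, 1] j)) = E B 1 := le_antisymm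
        (iSup₂_le fun j hj => by fin_cases j <;> simp_all)
        (le_iSup₂_of_le (f := fun j (_ : 1 ≤ j) => E B (![0, 1] j)) 1 le_rfl le_rfl)
      refine (congrArg _ e1).trans (Eq.trans (Submodule.ext fun p => ⟨?_, fun h =>
        ⟨_, (b0 _).2 ?_, sj p⟩⟩) e2.symm)
      · rintro ⟨q, hq, rfl⟩
        refine (b1 _).2 ?_
        show 0 * q.1 + (1 + I) * q.2 = (1 - I) * (1 * q.1 + 0 * q.2)
        rw [(b0 _).1 hq]
        linear_combination -q.1 * I_mul_I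
      · show (1 - I) / 2 * p.2 = -I * p.1
        rw [(b1 _).1 h]
        linear_combination p.1 / 2 * I_mul_I
  · refine ⟨Submodule.ext fun p => ⟨?_, fun h =>
      ⟨(p.1, (1 - I) / 2 * p.2), (a1 _).2 ((a1 p).1 h), sj p⟩⟩, ?_⟩
    · rintro ⟨q, hq, rfl⟩
      exact (a1 _).2 (by simp [S, mk, (a1 _).1 hq])
    · rw [tp (fun j => E B (![0, 1] j)) _ (by decide) (by decide) sB,
        tp (fun j => E B (![0, 1] j)) _ (by decide) (by decide) sB]
      exact eq_top_iff.2 fun p _ => ⟨_, trivial, sj p⟩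

theorem nd : ¬Diag S := fun h => by
  have : ⨆ t, E S t ≤ E A 0 := iSup_le fun t p hp => (a0 _).2 (by
    have h1 := ((mE _ _ _ _ _ _).1 hp).2
    have h2 : (1 + I - t) * p.2 = 0 := by linear_combination h1
    refine (mul_eq_zero.1 h2).resolve_left fun e => ?_
    simpa using congrArg im e)
  rw [show ⨆ t, E S t = ⊤ from h] at this
  simpa using (a0 _).1 (this (x := (0, 1)) trivial)

theorem main : Ord (d := 1) A B ![0, 1] ∧ Ord (d := 1) B A ![0, 1] ∧ Irr A B ∧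
    Adm (d := 1) A B S ![0, 1] ![0, 1] ∧ ¬Diag S :=
  ⟨ord _ _ sA (nb 0 (.inl ((a0 _).2 rfl))) (nb 0 (.inr ((a1 _).2 rfl))),
    ord _ _ sB (nb (-I * 1) (.inl ((b0 _).2 rfl))) (nb ((1 - I) * 1) (.inl ((b1 _).2 rfl))),
    irr, adm, nd⟩

end Pool.Agent.H31.TD
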