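import Mathlib

namespace Pool.Agent.H31.TD

variable {K V : Type} [Field K] [AddCommGroup V] [Module K V] {d : ℕ}

/-- the eigenspace of `A` for the eigenvalue `t` -/
def E (A : Module.End K V) (t : K) : Submodule K V := A.eigenspace t

/-- `A` is diagonalizable -/
def Diag (A : Module.End K V) : Prop := ⨆ t, E A t = ⊤

/-- the spaces `E A (θ i)` list the eigenspaces of the diagonalizable map `A`, each once, and
`B` acts tridiagonally on them -/
def Ord (A B : Module.End K V) (θ : Fin (d + 1) → K) : Prop :=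
  Function.Injective θ ∧ (∀ i, E A (θ i) ≠ ⊥) ∧ ⨆ i, E A (θ i) = ⊤ ∧
    ∀ i, (E A (θ i)).map B ≤ ⨆ j, ⨆ _ : i.1 ≤ j.1 + 1 ∧ j.1 ≤ i.1 + 1, E A (θ j)

/-- no proper nonzero subspace is invariant under both maps -/
def Irr (A B : Module.End K V) : Prop :=
  ∀ W : Submodule K V, W.map A ≤ W → W.map B ≤ W → W = ⊥ ∨ W = ⊤

/-- admissible maps -/
def Adm (A B S : Module.End K V) (θ η : Fin (d + 1) → K) : Prop :=
  ∀ i, (E A (θ i)).map S = E A (θ i) ∧
    (⨆ j, ⨆ _ : j ≤ i, E B (η j)).map S = ⨆ j, ⨆ _ : i.rev ≤ j, E B (η j)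

end Pool.Agent.H31.TD
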