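import Pool.Agent.H31.TSDefs
import Pool.Agent.H31.Omega1

namespace Pool.Agent.H31.TS

open Set Filter Topology Pool.Agent.H31.Omega1

abbrev X0 : Type := {A : Set W // A = univ ∨ ∃ a, Iio a ⊆ A ∧ (A \ Iio a).Finite}

def io (a : W) : X0 := ⟨Iio a, .inr ⟨a, subset_rfl, by simp⟩⟩

def un : X0 := ⟨univ, .inl rfl⟩

theorem bdd {A : X0} (h : A ≠ un) : ∃ b, A ≤ io b := by
  obtain ⟨a, -, h1⟩ := A.2.resolve_left fun h1 => h (Subtype.ext h1)
  exact exists_bound (((countable_Iio a).union h1.countable).mono (by simp))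

theorem lub0 (S : Set X0) : ∃ m, IsLUB S m := by
  by_cases h : ∃ a, ((⋃ A ∈ S, A.1) \ Iio a).Finite
  · obtain ⟨a, h1, h2⟩ := wellFounded_lt.has_min {a | ((⋃ A ∈ S, A.1) \ Iio a).Finite} h
    refine ⟨⟨Iio a ∪ ⋃ A ∈ S, A.1, .inr ⟨a, subset_union_left, by simpa using h1⟩⟩, fun A hA =>
      (subset_biUnion_of_mem (u := fun A : X0 => A.1) hA).trans subset_union_right, fun B hB => ?_⟩
    have h3 : (⋃ A ∈ S, A.1) ⊆ B.1 := iUnion₂_subset fun A hA => hB hA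
    rcases B.2 with h4 | ⟨b, h4, h5⟩
    · exact (subset_univ _).trans h4.superset
    · exact union_subset ((Iio_subset_Iio (not_lt.mp (h2 b (h5.subset
        (diff_subset_diff_left h3))))).trans h4) h3
  · refine ⟨un, fun A _ => subset_univ _, fun B hB => (B.2.resolve_right fun ⟨b, _, h5⟩ =>
      h ⟨b, h5.subset (diff_subset_diff_left (iUnion₂_subset fun A hA => hB hA))⟩).superset⟩

instance : WellFoundedLT X0 := ⟨WellFounded.wellFounded_iff_has_min.mpr fun C ⟨A₀, h0⟩ => by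
  by_cases h : ∃ a, ∃ A ∈ C, (A.1 \ Iio a).Finite
  · obtain ⟨a, h1, h2⟩ := wellFounded_lt.has_min {a | ∃ A ∈ C, (A.1 \ Iio a).Finite} h
    obtain ⟨A, ⟨h3, h4⟩, h5⟩ := (InvImage.wf (fun A : X0 => (A.1 \ Iio a).ncard)
      wellFounded_lt).has_min {A ∈ C | (A.1 \ Iio a).Finite} h1
    refine ⟨A, h3, fun B hB h6 => h5 B ⟨hB, h4.subset (diff_subset_diff_left h6.le)⟩
      (ncard_lt_ncard ⟨diff_subset_diff_left h6.le, fun h7 => h6.not_ge fun x hx => ?_⟩ h4)⟩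
    rcases B.2 with h8 | ⟨b, h8, h9⟩
    · exact h8.superset trivial
    · exact (em (x < a)).elim (fun h => h8 (h.trans_le (not_lt.mp (h2 b ⟨B, hB, h9⟩))))
        fun h => (h7 ⟨hx, h⟩).1
  · exact ⟨A₀, h0, fun B hB h1 => h1.not_ge ((subset_univ _).trans (B.2.resolve_right
      fun ⟨b, _, h'⟩ => h ⟨b, B, hB, h'⟩).superset)⟩⟩

def X : Type := X0 ×ₗ Bool

instance : PartialOrder X := inferInstanceAs (PartialOrder (X0 ×ₗ Bool))
instance : WellFoundedLT X := inferInstanceAs (WellFoundedLT (X0 ×ₗ Bool))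

def mk (A : X0) (e : Bool) : X := toLex (A, e)

theorem le_iff {x y : X} : x ≤ y ↔ x.1 < y.1 ∨ x.1 = y.1 ∧ x.2 ≤ y.2 := Prod.Lex.le_iff

theorem le1 {x y : X} (h : x ≤ y) : x.1 ≤ y.1 := (le_iff.mp h).elim le_of_lt fun h => h.1.le

theorem le_t {x : X} {A : X0} (h : x.1 ≤ A) : x ≤ mk A true :=
  le_iff.mpr (h.lt_or_eq.imp_right fun h => ⟨h, Bool.le_true _⟩)

theorem f_le {x : X} {A : X0} (h : A ≤ x.1) : mk A false ≤ x :=
  le_iff.mpr (h.lt_or_eq.imp_right fun h => ⟨h, Bool.false_le _⟩)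

theorem le_f {x : X} {A : X0} (h : x ≤ mk A true) (h' : x ≠ mk A true) : x ≤ mk A false :=
  le_iff.mpr ((le_iff.mp h).imp_right fun h1 => ⟨h1.1, by
    obtain ⟨B, _ | _⟩ := x
    exacts [le_rfl, absurd (congrArg (mk · true) h1.1) h']⟩)

theorem tf (A : X0) : ¬ mk A true ≤ mk A false := fun h =>
  (le_iff.mp h).elim (lt_irrefl _) fun h => absurd h.2 (show ¬ true ≤ false by decide)

theorem lub (S : Set X) : ∃ m, IsLUB S m := by
  obtain ⟨A, h1, h2⟩ := lub0 ((fun x : X => x.1) '' S)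
  by_cases h : mk A true ∈ S
  · exact ⟨_, IsGreatest.isLUB ⟨h, fun x hx => le_t (h1 ⟨x, hx, rfl⟩)⟩⟩
  · exact ⟨mk A false, fun x hx => le_f (le_t (h1 ⟨x, hx, rfl⟩)) fun h' => h (h' ▸ hx),
      fun y hy => f_le (h2 (forall_mem_image.mpr fun x hx => le1 (hy hx)))⟩

noncomputable instance : SemilatticeSup X where
  sup a b := (lub {a, b}).choose
  le_sup_left a b := (lub {a, b}).choose_spec.1 (.inl rfl)
  le_sup_right a b := (lub {a, b}).choose_spec.1 (.inr rfl)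
  sup_le a b c h h' := (lub {a, b}).choose_spec.2 (by rintro _ (rfl | rfl) <;> assumption)

def U (b : W) : Set X := {x | x = mk un false ∨ ∃ d ≥ b, x = mk (io d) true}

instance : TopologicalSpace X :=
  .generateFrom ((range Iic ∪ range fun x => (Iic x)ᶜ) ∪ range U)

theorem o1 (x : X) : IsOpen (Iic x) := .basic _ (.inl (.inl ⟨x, rfl⟩))
theorem o2 (x : X) : IsOpen (Iic x)ᶜ := .basic _ (.inl (.inr ⟨x, rfl⟩))
theorem o3 (b : W) : IsOpen (U b) := .basic _ (.inr ⟨b, rfl⟩)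

theorem io_lt (a : W) : io a < un := lt_of_le_of_ne (subset_univ _) fun h =>
  lt_irrefl a ((congrArg Subtype.val h).superset (mem_univ a))

theorem lt_top {x : X} {a : W} (h : x.1 ≤ io a) : x ≤ mk un false :=
  le_iff.mpr (.inl (h.trans_lt (io_lt a)))

theorem bd {x : X} (h : ¬ mk un false ≤ x) : ∃ b, x.1 ≤ io b :=
  bdd fun h' => h (f_le h'.ge)

theorem U_anti {a b : W} (h : a ≤ b) : U b ⊆ U a := fun _ =>
  Or.imp_right fun ⟨d, h1, h2⟩ => ⟨d, h.trans h1, h2⟩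

theorem le_U {b : W} {x y : X} (h : x.1 ≤ io b) (hy : y ∈ U b) : x ≤ y := by
  rcases hy with rfl | ⟨d, h1, rfl⟩
  exacts [lt_top h, le_t (h.trans (Iio_subset_Iio h1))]

instance : T2Space X := ⟨fun a b h => by
  by_cases h1 : a ≤ b
  · exact ⟨_, _, o1 a, o2 a, self_mem_Iic, fun h2 => h (h1.antisymm h2), disjoint_compl_right⟩
  · exact ⟨_, _, o2 b, o1 b, h1, self_mem_Iic, disjoint_compl_left⟩⟩

instance : ContinuousSup X := ⟨continuous_generateFrom_iff.mpr <| by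
  have h1 : ∀ x : X, (fun p : X × X => p.1 ⊔ p.2) ⁻¹' Iic x = Iic x ×ˢ Iic x := fun x => by
    ext; simp [Prod.le_def]
  rintro _ ((⟨x, rfl⟩ | ⟨x, rfl⟩) | ⟨c, rfl⟩)
  · exact h1 x ▸ (o1 x).prod (o1 x)
  · rw [preimage_compl, h1]
    exact ((isOpen_compl_iff.mp (o2 x)).prod (isOpen_compl_iff.mp (o2 x))).isOpen_compl
  have h2 : ∀ a b, b ≤ a → a ∈ U c → ∃ u v, IsOpen u ∧ IsOpen v ∧ a ∈ u ∧ b ∈ v ∧
      ∀ y ∈ u, ∀ z ∈ v, y ⊔ z ∈ U c := by
    rintro a b h (rfl | ⟨d, h2, rfl⟩)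
    · by_cases h3 : mk un false ≤ b
      · refine ⟨_, _, o3 c, o3 c, .inl rfl, .inl (h.antisymm h3), fun y hy z hz => ?_⟩
        rcases id hy with rfl | ⟨d, h4, rfl⟩
        · rwa [sup_eq_left.mpr (hz.elim le_of_eq fun ⟨d, _, h⟩ => h ▸ lt_top le_rfl)]
        rcases id hz with rfl | ⟨d', h5, rfl⟩
        · rwa [sup_eq_right.mpr (lt_top le_rfl)]
        rcases le_total d d' with h | h
        · rwa [sup_eq_right.mpr (le_t (Iio_subset_Iio h))]
        · rwa [sup_eq_left.mpr (le_t (Iio_subset_Iio h))]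
      · obtain ⟨g, hg⟩ := bd h3
        refine ⟨_, _, o3 (max c g), o1 b, .inl rfl, self_mem_Iic, fun y hy z hz => ?_⟩
        rw [sup_eq_left.mpr (le_U ((le1 hz).trans hg) (U_anti (le_max_right _ _) hy))]
        exact U_anti (le_max_left _ _) hy
    · refine ⟨_, _, (o1 _).inter (o2 (mk (io d) false)), o1 _, ⟨self_mem_Iic, tf _⟩, h,
        fun y hy z hz => ?_⟩
      obtain rfl : y = mk (io d) true := by_contra fun h => hy.2 (le_f hy.1 h)
      exact .inr ⟨d, h2, sup_eq_left.mpr hz⟩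
  refine isOpen_prod_iff.mpr fun a b h => ?_
  have h3 : a ⊔ b ≤ a ∨ a ⊔ b ≤ b := by
    by_contra! h3
    rcases h with h | ⟨d, -, h⟩ <;> dsimp only at h
    · obtain ⟨g, hg⟩ := bd (h ▸ h3.1)
      obtain ⟨g', hg'⟩ := bd (h ▸ h3.2)
      exact (io_lt (max g g')).not_ge (le1 (h.ge.trans (sup_le (le_t (hg.trans (Iio_subset_Iio
        (le_max_left _ _)))) (le_t (hg'.trans (Iio_subset_Iio (le_max_right _ _)))))))
    · exact tf _ (h.ge.trans (sup_le (le_f (h ▸ le_sup_left) fun h' => h3.1 (h.trans h'.symm).le)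
        (le_f (h ▸ le_sup_right) fun h' => h3.2 (h.trans h'.symm).le)))
  rcases h3 with h3 | h3
  · obtain ⟨u, v, h4, h5, h6, h7, h8⟩ := h2 a b (le_sup_right.trans h3)
      (h3.antisymm le_sup_left ▸ h)
    exact ⟨u, v, h4, h5, h6, h7, fun p hp => h8 _ hp.1 _ hp.2⟩
  · obtain ⟨u, v, h4, h5, h6, h7, h8⟩ := h2 b a (le_sup_left.trans h3)
      (h3.antisymm le_sup_right ▸ h)
    exact ⟨v, u, h5, h4, h7, h6, fun p hp => show p.1 ⊔ p.2 ∈ U c from
      sup_comm p.2 p.1 ▸ h8 _ hp.2 _ hp.1⟩⟩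

theorem mem_max {L : Set X} (hL : IsMaxChain (· ≤ ·) L) {x : X} (h : ∀ l ∈ L, x ≤ l ∨ l ≤ x) :
    x ∈ L := hL.2 (hL.1.insert fun l hl _ => h l hl) (subset_insert _ _) ▸ mem_insert _ _

theorem least {C : Set X} (h : C.Nonempty) (hC : IsChain (· ≤ ·) C) : ∃ m, IsLeast C m := by
  obtain ⟨m, h1, h2⟩ := wellFounded_lt.has_min C h
  exact ⟨m, h1, fun x hx => (hC.total h1 hx).elim id fun h => (h.eq_or_lt.resolve_right
    (h2 x hx)).ge⟩

theorem key {L S : Set X} (hL : IsMaxChain (· ≤ ·) L) (h : S ⊆ L) (h0 : S.Nonempty) {m : X}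
    (hm : IsLUB S m) : m ∈ L ∧ ∀ O, IsOpen O → m ∈ O → ∃ y ∈ O, y ∈ L ∧ ∃ s ∈ S, y ≤ s := by
  have h1 : ∀ l ∈ L, ∀ T ⊆ S, (∀ s ∈ T, s ≤ l) ∨ ∃ s ∈ T, l ≤ s := fun l hl T hT => by
    by_contra! h1
    obtain ⟨⟨s, h2, h3⟩, h4⟩ := h1
    exact (hL.1.total (h (hT h2)) hl).elim h3 (h4 s h2)
  refine ⟨mem_max hL fun l hl => (h1 l hl S subset_rfl).imp (fun h => hm.2 h)
    fun ⟨s, h2, h3⟩ => h3.trans (hm.1 h2), fun O hO h2 => ?_⟩
  by_cases h3 : m ∈ S
  · exact ⟨m, h2, h h3, m, h3, le_rfl⟩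
  by_cases h4 : m = mk un false
  · subst h4
    obtain ⟨c, hc⟩ : ∃ c, U c ⊆ O := by
      induction hO with
      | basic _ h4 =>
        rcases h4 with (⟨x, rfl⟩ | ⟨x, rfl⟩) | ⟨c, rfl⟩
        · exact ⟨⊥, fun y hy => le_trans (hy.elim le_of_eq fun ⟨d, _, h⟩ => h ▸ lt_top le_rfl) h2⟩
        · obtain ⟨g, hg⟩ := bd h2
          obtain ⟨g', hg'⟩ := exists_gt g
          refine ⟨g', fun y hy h5 => lt_irrefl g (((le1 (le_U (x := mk (io g') false) le_rfl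
            hy)).trans ((le1 h5).trans hg)) hg')⟩
        · exact ⟨c, subset_rfl⟩
      | univ => exact ⟨⊥, subset_univ _⟩
      | inter _ _ _ _ a1 a2 =>
        obtain ⟨c, hc⟩ := a1 h2.1
        obtain ⟨c', hc'⟩ := a2 h2.2
        exact ⟨max c c', subset_inter ((U_anti (le_max_left _ _)).trans hc)
          ((U_anti (le_max_right _ _)).trans hc')⟩
      | sUnion _ _ a =>
        obtain ⟨V, a1, a2⟩ := h2
        exact (a V a1 a2).imp fun _ h => subset_sUnion_of_subset _ V h a1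
    have h5 : ∀ b, ∃ s ∈ S, ¬ s.1 ≤ io b := fun b => by
      by_contra! h5
      exact (io_lt b).not_ge (le1 (hm.2 fun s hs => le_t (h5 s hs)))
    have h6 : ∀ b, ∃ b', ∃ s ∈ S, ∃ t ∈ s.1.1, b ≤ t ∧ s.1 ≤ io b' := fun b => by
      obtain ⟨s, h6, h7⟩ := h5 b
      obtain ⟨t, h8, h9⟩ := not_subset.mp h7
      obtain ⟨b', hb⟩ := bd fun h' => h3 ((hm.1 h6).antisymm h' ▸ h6)
      exact ⟨b', s, h6, t, h8, not_lt.mp h9, hb⟩
    choose g s h6 t h7 h8 h9 using h6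
    let b : ℕ → W := fun n => g^[n] c
    have h10 : ∀ n, b (n + 1) = g (b n) := fun n => Function.iterate_succ_apply' g n c
    obtain ⟨d, h11, h12⟩ := wellFounded_lt.has_min {d | ∀ n, b n ≤ d}
      ((exists_bound_seq b).imp fun _ h n => (h n).le)
    have h13 : StrictMono fun n => t (b n) := strictMono_nat_of_lt_succ fun n =>
      lt_of_lt_of_le (h9 _ (h7 _)) (h10 n ▸ h8 _)
    have h14 : ∀ l : X, l.1 ≤ io d ∨ io d ≤ l.1 → mk (io d) true ≤ l ∨ l ≤ mk (io d) true := by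
      rintro l (h | h)
      exacts [.inr (le_t h), h.lt_or_eq.imp (fun h => le_iff.mpr (.inl h)) fun h => le_t h.ge]
    have h15 : mk (io d) true ∈ L := mem_max hL fun l hl => h14 l <| by
      rcases h1 l hl (range fun n => s (b n)) (range_subset_iff.mpr fun n => h6 _) with a | ⟨_, ⟨n, rfl⟩, a⟩
      · refine .inr ?_
        rcases l.1.2 with a1 | ⟨e, a1, a2⟩
        · exact (subset_univ _).trans a1.superset
        refine (Iio_subset_Iio (not_lt.mp fun a3 => ?_)).trans a1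
        obtain ⟨N, hN⟩ := not_forall.mp fun a4 => h12 e a4 a3
        refine a2.not_infinite (infinite_of_injective_forall_mem (f := fun n => t (b (N + n)))
          (fun _ _ h => add_left_cancel (h13.injective h)) fun n => ⟨le1 (a _ ⟨_, rfl⟩) (h7 _),
            not_lt.mpr (((not_le.mp hN).le.trans (h8 _)).trans (h13.monotone (Nat.le_add_right N n)))⟩)
      · exact .inl ((le1 a).trans ((h9 _).trans (Iio_subset_Iio (h10 n ▸ h11 (n + 1)))))
    obtain ⟨s', a1, a2⟩ := h5 d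
    exact ⟨_, hc (.inr ⟨d, h11 0, rfl⟩), h15, s', a1,
      (hL.1.total h15 (h a1)).resolve_right fun h => a2 (le1 h)⟩
  · obtain ⟨s, a1, a2⟩ : ∃ s ∈ S, ∀ s' ∈ S, s ≤ s' → s' ∈ O := by
      induction hO with
      | basic _ h5 =>
        rcases h5 with (⟨x, rfl⟩ | ⟨x, rfl⟩) | ⟨c, rfl⟩
        · exact ⟨_, h0.some_mem, fun s hs _ => (hm.1 hs).trans h2⟩
        · by_contra! h5
          exact h2 (hm.2 fun s hs => (h5 s hs).elim fun s' h => h.2.1.trans (not_not.mp h.2.2))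
        · obtain ⟨d, -, rfl⟩ := h2.resolve_left h4
          exact absurd (hm.2 fun s hs => le_f (hm.1 hs) fun h => h3 (h ▸ hs)) (tf _)
      | univ => exact ⟨_, h0.some_mem, fun _ _ _ => trivial⟩
      | inter _ _ _ _ a1 a2 =>
        obtain ⟨s, b1, b2⟩ := a1 h2.1
        obtain ⟨s', b3, b4⟩ := a2 h2.2
        rcases hL.1.total (h b1) (h b3) with b5 | b5
        exacts [⟨s', b3, fun x hx h => ⟨b2 x hx (b5.trans h), b4 x hx h⟩⟩,
          ⟨s, b1, fun x hx h => ⟨b2 x hx h, b4 x hx (b5.trans h)⟩⟩]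
      | sUnion _ _ a =>
        obtain ⟨V, a1, a2⟩ := h2
        exact (a V a1 a2).imp fun _ h => ⟨h.1, fun x hx h' => ⟨V, a1, h.2 x hx h'⟩⟩
    exact ⟨s, a2 s a1 le_rfl, h a1, s, a1, le_rfl⟩

theorem notS : ¬ SComplete Xᵒᵈ := fun h => by
  have h0 : ∀ F : Set W, F.Finite → F = univ ∨ ∃ a, Iio a ⊆ F ∧ (F \ Iio a).Finite := fun F hF =>
    .inr ⟨⊥, by simp, hF.subset diff_subset⟩
  obtain ⟨m, h1, h2⟩ := h.1 {x : X | x.1.1.Finite} ⟨mk ⟨∅, h0 _ finite_empty⟩ true, finite_empty⟩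
    fun (a : X) ha (b : X) hb => (Finite.union ha hb).subset (le1 (sup_le (c := mk ⟨_, h0 _
      (Finite.union ha hb)⟩ true) (le_t subset_union_left) (le_t subset_union_right)))
  have h1 : IsLUB {x : X | x.1.1.Finite} m := h1
  obtain ⟨c, hc⟩ := exists_bound_seq (Infinite.natEmbedding W)
  have h3 : (Iio c).Infinite := infinite_of_injective_forall_mem (Infinite.natEmbedding W).injective hc
  obtain ⟨y, h4, a, h5, h6⟩ := mem_closure_iff.mp (show (m : X) ∈ closure _ from h2) _ (o3 c) (.inl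
    ((h1.2 fun x hx => le_iff.mpr (.inl (lt_of_le_of_ne (subset_univ _) fun h => infinite_univ
      (Finite.subset hx (congrArg Subtype.val h).superset)))).antisymm (f_le fun w _ => le1 (h1.1 (show
        mk ⟨{w}, h0 _ (finite_singleton w)⟩ true ∈ _ from finite_singleton w)) rfl)))
  exact h3 (Finite.subset h5 ((le1 (le_U (x := mk (io c) false) le_rfl h4)).trans (le1 h6)))

theorem chainS (L : Set Xᵒᵈ) (h : IsMaxChain (· ≤ ·) L) : @SComplete L (chainInf h.1) _ := by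
  have hL : IsMaxChain (α := X) (· ≤ ·) L := h.symm
  refine ⟨fun S h1 _ => ?_, fun C h1 _ => ?_⟩
  · obtain ⟨m, hm⟩ := lub (Subtype.val '' S)
    obtain ⟨h2, h3⟩ := key hL (Subtype.coe_image_subset _ _) (h1.image _) hm
    refine ⟨⟨m, h2⟩, ⟨fun x hx => hm.1 ⟨x, hx, rfl⟩, fun y hy => hm.2 (forall_mem_image.mpr hy)⟩,
      mem_closure_iff.mpr fun O hO h4 => ?_⟩
    obtain ⟨O, h5, rfl⟩ := isOpen_induced_iff.mp hO
    obtain ⟨y, h6, h7, _, ⟨s, h8, rfl⟩, h9⟩ := h3 O h5 h4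
    exact ⟨⟨y, h7⟩, h6, s, h8, h9⟩
  · obtain ⟨_, ⟨m, h2, rfl⟩, h3⟩ := least (h1.image Subtype.val)
      (hL.1.mono (Subtype.coe_image_subset _ _))
    exact ⟨m, IsGreatest.isLUB ⟨h2, fun x hx => h3 ⟨x, hx, rfl⟩⟩, subset_closure ⟨m, h2, le_rfl⟩⟩

theorem cC : CComplete Xᵒᵈ := fun F h1 h2 C h3 h4 h5 => by
  have h6 : IsChain (α := X) (· ≤ ·) C := h5.symm
  obtain ⟨L, hL, h7⟩ := h6.exists_maxChain
  obtain ⟨m, hm⟩ := lub C
  obtain ⟨m', h8⟩ := least h4 h6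
  refine ⟨⟨m, hm, h1.closure_subset (mem_closure_iff.mpr fun O hO h9 => ?_)⟩,
    m', h8.isGLB, subset_closure ⟨m', h8.1, le_rfl⟩⟩
  obtain ⟨y, a1, -, s, a2, a3⟩ := (key hL h7 h4 hm).2 O hO h9
  exact ⟨y, a1, h2 a3 (h3 a2)⟩

end Pool.Agent.H31.TS
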