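import Mathlib

namespace Pool.Agent.H31.TS

universe u

variable {X : Type u}

def up [LE X] (A : Set X) : Set X := {x | ∃ a ∈ A, a ≤ x}

def down [LE X] (A : Set X) : Set X := {x | ∃ a ∈ A, x ≤ a}

def SComplete (X : Type u) [SemilatticeInf X] [TopologicalSpace X] : Prop :=
  (∀ S : Set X, S.Nonempty → (∀ a ∈ S, ∀ b ∈ S, a ⊓ b ∈ S) →
    ∃ m, IsGLB S m ∧ m ∈ closure (up S)) ∧
  ∀ C : Set X, C.Nonempty → IsChain (· ≤ ·) C → ∃ m, IsLUB C m ∧ m ∈ closure (down C)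

def CComplete (X : Type u) [SemilatticeInf X] [TopologicalSpace X] : Prop :=
  ∀ F : Set X, IsClosed F → IsUpperSet F → ∀ C ⊆ F, C.Nonempty → IsChain (· ≤ ·) C →
    (∃ m, IsGLB C m ∧ m ∈ F) ∧ ∃ m, IsLUB C m ∧ m ∈ closure (down C)

/-- a chain as a subsemilattice -/
abbrev chainInf [SemilatticeInf X] {L : Set X} (h : IsChain (· ≤ ·) L) : SemilatticeInf L :=
  Subtype.semilatticeInf fun x y hx hy =>
    (h.total hx hy).elim (fun h => (inf_eq_left.mpr h).symm ▸ hx) fun h => (inf_eq_right.mpr h).symm ▸ hy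

end Pool.Agent.H31.TS
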