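import Mathlib

namespace Pool.Agent.H31.TSp

universe u v w

/-- `i : X → V` is continuous and every continuous map of `X` into a Hausdorff real topological
vector space factors uniquely through `i` by a continuous linear operator. -/
def IsFreeTVS {X : Type u} {V : Type v} [TopologicalSpace X] [AddCommGroup V] [Module ℝ V]
    [TopologicalSpace V] (i : X → V) : Prop :=
  Continuous i ∧
    ∀ (E : Type w) [AddCommGroup E] [Module ℝ E] [TopologicalSpace E] [IsTopologicalAddGroup E]
      [ContinuousSMul ℝ E] [T2Space E] (f : X → E), Continuous f →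
      ∃! F : V →L[ℝ] E, ∀ x, F (i x) = f x

/-- the level `sp_n(X)` -/
def sp {X : Type u} {V : Type v} [AddCommGroup V] [Module ℝ V] (i : X → V) (n : ℕ) : Set V :=
  {v | ∃ (c : Fin n → ℝ) (x : Fin n → X), (∀ j, c j ∈ Set.Icc (-(n : ℝ)) n) ∧
    v = ∑ j, c j • i (x j)}

/-- countable tightness -/
def CountablyTight (Z : Type u) [TopologicalSpace Z] : Prop :=
  ∀ A : Set Z, closure A = ⋃ B ∈ {B : Set Z | B ⊆ A ∧ B.Countable}, closure B

end Pool.Agent.H31.TSp
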