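import Pool.Agent.H31.ToddDefs

namespace Pool.Agent.H31.Todd

open Set Topology Filter TopologicalSpace Metric

variable {H : Type*} [Group H] [TopologicalSpace H] [IsTopologicalGroup H]

def star (x : ℕ → H) (U : Set H) : Set H := {y | ∃ O ∈ 𝓝 y, ∀ᶠ k in atTop, ∀ z ∈ O, z * x k ∈ U}

omit [IsTopologicalGroup H] in
lemma isOpen_star (x : ℕ → H) (U : Set H) : IsOpen (star x U) := by
  rw [isOpen_iff_mem_nhds]
  rintro y ⟨O, hO, h⟩
  filter_upwards [eventually_mem_nhds_iff.2 hO] with z hz using ⟨O, hz, h⟩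

omit [IsTopologicalGroup H] in
lemma star_ev {x : ℕ → H} {U : Set H} {y : H} (h : y ∈ star x U) : ∀ᶠ k in atTop, y * x k ∈ U := by
  obtain ⟨O, hO, h⟩ := h
  exact h.mono fun k hk => hk y (mem_of_mem_nhds hO)

lemma link {x : ℕ → H} (hL : ∀ W ∈ 𝓝 (1 : H), ∃ N, ∀ k ≥ N, ∀ l ≥ N, (x k)⁻¹ * x l ∈ W)
    {U U' : Set H} (hU' : IsOpen U') {y : H} (hy : y ∈ U')
    (hs : ∀ᶠ k in atTop, y * (x k)⁻¹ ∈ U) : (U ∩ star x U').Nonempty := by
  have hc : Continuous fun p : H × H => p.1 * y * p.2 := by fun_prop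
  have h1 : (fun p : H × H => p.1 * y * p.2) ⁻¹' U' ∈ 𝓝 ((1 : H), (1 : H)) :=
    (hU'.preimage hc).mem_nhds (by simpa using hy)
  obtain ⟨W1, hW1, W2, hW2, hW⟩ := mem_nhds_prod_iff.1 h1
  obtain ⟨N, hN⟩ := hL W2 hW2
  obtain ⟨M, hM1, hM2⟩ := (hs.and (eventually_ge_atTop N)).exists
  refine ⟨y * (x M)⁻¹, hM1, (fun z => z * x M * y⁻¹) ⁻¹' W1, ?_, ?_⟩
  · apply ContinuousAt.preimage_mem_nhds (by fun_prop)
    simpa using hW1
  · filter_upwards [eventually_ge_atTop N] with k hk z hz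
    have := hW (show (z * x M * y⁻¹, (x M)⁻¹ * x k) ∈ W1 ×ˢ W2 from ⟨hz, hN M hM2 k hk⟩)
    simpa [mul_assoc] using this

lemma conv [MetrizableSpace H] {P : Type*} (V : P → Set H) (hV : ∀ p, IsOpen (V p))
    (hVn : ∀ p, (V p).Nonempty) (R : P → P → Prop) (p0 : P) (h0 : V p0 = univ)
    (step : ∀ p U, IsOpen U → U.Nonempty → U ⊆ V p → ∃ q, R p q ∧ V q ⊆ U)
    (win : ∀ s : ℕ → P, s 0 = p0 → (∀ n, R (s n) (s (n + 1))) → (⋂ n, V (s n)).Nonempty)
    (x : ℕ → H) (hL : ∀ W ∈ 𝓝 (1 : H), ∃ N, ∀ k ≥ N, ∀ l ≥ N, (x k)⁻¹ * x l ∈ W)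
    (hR : ∀ W ∈ 𝓝 (1 : H), ∃ N, ∀ k ≥ N, ∀ l ≥ N, x k * (x l)⁻¹ ∈ W) :
    ∃ a, Tendsto x atTop (𝓝 a) := by
  letI := metrizableSpaceMetric H
  let T := {a : P × P // V a.1 ⊆ star x (V a.2)}
  have st : ∀ (n : ℕ) (a : T), ∃ b : T, R a.1.1 b.1.1 ∧ R a.1.2 b.1.2 ∧
      ∃ c, V b.1.2 ⊆ ball c (1 / ((n : ℝ) + 1)) := by
    rintro n ⟨⟨p, p'⟩, h⟩
    obtain ⟨u, hu⟩ := hVn p
    obtain ⟨y, hy1, hy2⟩ := link (x := fun k => (x k)⁻¹) (U := V p') (by simpa using hR) (hV p) hu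
      (by simpa using star_ev (h hu))
    obtain ⟨q', h1, h2⟩ := step p' (V p' ∩ star (fun k => (x k)⁻¹) (V p) ∩
      ball y (1 / ((n : ℝ) + 1))) (((hV _).inter (isOpen_star _ _)).inter isOpen_ball)
      ⟨y, ⟨hy1, hy2⟩, mem_ball_self Nat.one_div_pos_of_nat⟩ fun z hz => hz.1.1
    obtain ⟨w, hw⟩ := hVn q'
    obtain ⟨q, h3, h4⟩ := step p (V p ∩ star x (V q')) ((hV _).inter (isOpen_star _ _))
      (link hL (hV q') hw (star_ev (h2 hw).1.2)) inter_subset_left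
    exact ⟨⟨(q, q'), fun z hz => (h4 hz).2⟩, h3, h1, y, fun z hz => (h2 hz).2⟩
  choose g hg1 hg2 c hc using st
  let a0 : T := ⟨(p0, p0), fun z _ => ⟨univ, univ_mem, Eventually.of_forall fun k w _ => by
    simp [h0]⟩⟩
  let s : ℕ → T := fun n => Nat.rec (motive := fun _ => T) a0 (fun n a => g n a) n
  obtain ⟨a, ha⟩ := win (fun n => (s n).1.1) rfl fun n => hg1 n (s n)
  obtain ⟨b, hb⟩ := win (fun n => (s n).1.2) rfl fun n => hg2 n (s n)
  have : Tendsto (fun k => a * x k) atTop (𝓝 b) := by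
    rw [Metric.tendsto_nhds]
    intro ε hε
    obtain ⟨n, hn⟩ := exists_nat_one_div_lt (half_pos hε)
    filter_upwards [star_ev ((s (n + 1)).2 (mem_iInter.1 ha (n + 1)))] with k hk
    have a1 := mem_ball.1 (hc n (s n) hk)
    have a2 := mem_ball.1 (hc n (s n) (mem_iInter.1 hb (n + 1)))
    have a3 := dist_triangle_right (a * x k) b (c n (s n))
    linarith
  exact ⟨a⁻¹ * b, by simpa using this.const_mul a⁻¹⟩

lemma cm [MetrizableSpace H]
    (h : ∀ x : ℕ → H, (∀ W ∈ 𝓝 (1 : H), ∃ N, ∀ k ≥ N, ∀ l ≥ N, (x k)⁻¹ * x l ∈ W) →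
      (∀ W ∈ 𝓝 (1 : H), ∃ N, ∀ k ≥ N, ∀ l ≥ N, x k * (x l)⁻¹ ∈ W) →
      ∃ a, Tendsto x atTop (𝓝 a)) : IsCompletelyMetrizableSpace H := by
  rename_i t _ _
  let u0 : UniformSpace H :=
    IsTopologicalGroup.leftUniformSpace H ⊓ IsTopologicalGroup.rightUniformSpace H
  have ht : t = u0.toTopologicalSpace := by
    exact ((UniformSpace.toTopologicalSpace_inf).trans (inf_idem t)).symm
  letI u : UniformSpace H := u0.replaceTopology ht
  have hu : uniformity H = comap (fun p : H × H => p.1⁻¹ * p.2) (𝓝 1) ⊓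
      comap (fun p : H × H => p.2 * p.1⁻¹) (𝓝 1) := rfl
  haveI : (uniformity H).IsCountablyGenerated := by rw [hu]; infer_instance
  haveI : CompleteSpace H := UniformSpace.complete_of_cauchySeq_tendsto fun x hx => by
    rw [_root_.cauchySeq_iff] at hx
    apply h x
    · intro W hW
      exact hx _ (by rw [hu]; exact mem_inf_of_left (preimage_mem_comap hW))
    · intro W hW
      obtain ⟨N, hN⟩ := hx _ (by rw [hu]; exact mem_inf_of_right (preimage_mem_comap hW))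
      exact ⟨N, fun k hk l hl => hN l hl k hk⟩
  infer_instance

theorem main {I : Type*} {K : I → Type*} [∀ i, Group (K i)] [∀ i, TopologicalSpace (K i)]
    [∀ i, IsTopologicalGroup (K i)] [∀ i, MetrizableSpace (K i)] (G : Subgroup (∀ i, K i))
    (hG : Dense (G : Set (∀ i, K i))) (hT : ToddPseudocomplete G) (j : I) :
    IsCompletelyMetrizableSpace (K j) := by
  classical
  obtain ⟨B, hB, hc⟩ := hT
  let P := {a : ℕ × Set G × Set (∀ i, K i) // IsOpen a.2.2 ∧ a.2.2.Nonempty ∧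
    Subtype.val ⁻¹' a.2.2 ⊆ interior a.2.1}
  let V : P → Set (K j) := fun a => (fun g => g j) '' a.1.2.2
  let R : P → P → Prop := fun a b => b.1.1 = a.1.1 + 1 ∧ b.1.2.1 ∈ B a.1.1 ∧
    closure b.1.2.1 ⊆ Subtype.val ⁻¹' a.1.2.2
  apply cm
  refine conv V (fun a => isOpenMap_eval j _ a.2.1) (fun a => a.2.2.1.image _) R
    ⟨(0, univ, univ), isOpen_univ, univ_nonempty, by simp⟩ ?_ ?_ ?_
  · simp only [V, image_univ]
    exact range_eq_univ.2 (Function.surjective_eval j)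
  · rintro ⟨⟨n, S, O⟩, h1, h2, h3⟩ U hU ⟨u, hu⟩ hs
    obtain ⟨g, hg, rfl⟩ := hs hu
    have ho : IsOpen (O ∩ (fun g : ∀ i, K i => g j) ⁻¹' U) := h1.inter (hU.preimage (continuous_apply j))
    obtain ⟨z, hz1, hz2⟩ := hG.inter_open_nonempty _ ho ⟨g, hg, hu⟩
    obtain ⟨C, hC, hcl, hCs⟩ := exists_mem_nhds_isClosed_subset
      ((ho.preimage (continuous_subtype_val (p := fun g => g ∈ G))).mem_nhds
        (show (⟨z, hz2⟩ : G) ∈ _ from hz1))
    obtain ⟨S', hS', hs'⟩ := (hB n).2 (interior C) isOpen_interior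
      ⟨_, mem_interior_iff_mem_nhds.2 hC⟩
    have hcs := (closure_minimal (hs'.trans interior_subset) hcl).trans hCs
    obtain ⟨O', hO', e⟩ := isOpen_induced_iff.1 (isOpen_interior (s := S'))
    obtain ⟨w, hw⟩ := (hB n).1 S' hS'
    refine ⟨⟨(n + 1, S', O' ∩ (O ∩ (fun g : ∀ i, K i => g j) ⁻¹' U)), hO'.inter ho,
      ⟨w, by rw [← e] at hw; exact hw, hcs (subset_closure (interior_subset hw))⟩, ?_⟩,
      ⟨rfl, hS', fun a ha => (hcs ha).1⟩, ?_⟩
    · rw [← e]; exact fun a ha => ha.1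
    · rintro _ ⟨a, ha, rfl⟩; exact ha.2.2
  · intro s s0 hR
    have hn : ∀ n, (s n).1.1 = n := by
      intro n
      induction n with
      | zero => rw [s0]
      | succ n ih => rw [(hR n).1, ih]
    obtain ⟨g, hg⟩ := hc (fun n => (s (n + 1)).1.2.1) (fun n => by
      have := (hR n).2.1; rwa [hn] at this) fun n => (hR (n + 1)).2.2.trans (s (n + 1)).2.2.2
    exact ⟨g.1 j, mem_iInter.2 fun n => ⟨g.1, (hR n).2.2 (subset_closure (mem_iInter.1 hg n)), rfl⟩⟩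

end Pool.Agent.H31.Todd
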