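import Mathlib

namespace Pool.Agent.H31.Todd

open Set

/-- Every member has non-empty interior and every non-empty open set contains a member. -/
def IsPseudobase {X : Type*} [TopologicalSpace X] (B : Set (Set X)) : Prop :=
  (∀ S ∈ B, (interior S).Nonempty) ∧ ∀ U : Set X, IsOpen U → U.Nonempty → ∃ S ∈ B, S ⊆ U

/-- There is a sequence of pseudobases such that every nested selection has a common point. -/
def ToddPseudocomplete (X : Type*) [TopologicalSpace X] : Prop :=
  ∃ B : ℕ → Set (Set X), (∀ n, IsPseudobase (B n)) ∧
    ∀ S : ℕ → Set X, (∀ n, S n ∈ B n) → (∀ n, closure (S (n + 1)) ⊆ interior (S n)) →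
      (⋂ n, S n).Nonempty

end Pool.Agent.H31.Todd
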