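import Pool.Agent.H31.TukDefs
import Pool.Agent.H31.Omega1

namespace Pool.Agent.H31.Tuk

open Set Filter Topology Uniformity Omega1

theorem comb (N : W × (ℕ → ℕ) → W → ℕ)
    (h : ∀ β : ℕ → W, StrictMono β → ∃ q₀, ∀ q ≥ q₀, ∀ k, k ≤ N q (β k)) : False := by
  classical
  let N' : W × (ℕ → ℕ) → W → ℕ := fun q β => sInf {n | ∃ q' ≥ q, n = N q' β}
  have hN' : ∀ β q q', q ≤ q' → N' q β ≤ N' q' β := by
    intro β q q' hq
    obtain ⟨q'', h1, h2⟩ := Nat.sInf_mem (s := {n | ∃ q'' ≥ q', n = N q'' β}) ⟨_, q', le_rfl, rfl⟩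
    exact Nat.sInf_le ⟨q'', hq.trans h1, h2⟩
  have hb : ∀ g β, BddAbove (range fun α => N' (α, g) β) := by
    intro g β
    by_contra hcon
    rw [not_bddAbove_iff] at hcon
    have h1 : ∀ n : ℕ, ∃ α, n < N' (α, g) β := fun n => by
      obtain ⟨_, ⟨α, rfl⟩, h2⟩ := hcon n
      exact ⟨α, h2⟩
    choose a ha using h1
    obtain ⟨b, hb⟩ := exists_bound_seq a
    exact absurd (ha (N' (b, g) β)) (not_lt.mpr (hN' β _ _ ⟨(hb _).le, le_rfl⟩))
  let G : (ℕ → ℕ) → W → ℕ := fun g β => sSup (range fun α => N' (α, g) β)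
  have hG : ∀ β g g', g ≤ g' → G g β ≤ G g' β := fun β g g' hg =>
    csSup_le (range_nonempty _) (by
      rintro _ ⟨α, rfl⟩
      exact (hN' β (α, g) (α, g') ⟨le_rfl, hg⟩).trans (le_csSup (hb g' β) ⟨α, rfl⟩))
  let T := (Σ n : ℕ, Fin n → ℕ) × ℕ
  let D : W → Set T := fun β => {t | ∀ g : ℕ → ℕ, (∀ i : Fin t.1.1, g i ≤ t.1.2 i) → G g β ≤ t.2}
  have hD : ∀ (g : ℕ → ℕ) β, ∃ n m : ℕ, (⟨n, fun i => g i⟩, m) ∈ D β := by
    intro g β
    by_contra hcon
    have hc' : ∀ n : ℕ, ∃ f : ℕ → ℕ, (∀ i : Fin n, f i ≤ g i) ∧ n < G f β := by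
      intro n
      by_contra h1
      push Not at h1
      exact hcon ⟨n, n, h1⟩
    choose f hf1 hf2 using hc'
    let s : ℕ → ℕ := fun i => max (g i) ((Finset.range (i + 1)).sup fun n => f n i)
    have h1 : ∀ n, f n ≤ s := by
      intro n i
      rcases lt_or_ge i n with h2 | h2
      · exact (hf1 n ⟨i, h2⟩).trans (le_max_left _ _)
      · exact (Finset.le_sup (f := fun n => f n i) (Finset.mem_range.mpr (by omega))).trans
          (le_max_right _ _)
    exact absurd (hf2 (G s β)) (not_lt.mpr (hG β _ _ (h1 _)))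
  have h1 : ∃ β, ∀ F : Finset T, (F : Set T) ⊆ D β → ¬ {γ | (F : Set T) ⊆ D γ}.Countable := by
    by_contra hcon
    push Not at hcon
    refine not_countable_univ (α := W) ((countable_iUnion fun F : {F : Finset T //
      {γ | (F : Set T) ⊆ D γ}.Countable} => F.2).mono fun β _ => ?_)
    obtain ⟨F, h1, h2⟩ := hcon β
    exact mem_iUnion.mpr ⟨⟨F, h2⟩, h1⟩
  obtain ⟨β, hβ⟩ := h1
  obtain ⟨e, he⟩ := exists_surjective_nat T
  have h2 : ∀ (k : ℕ) (a : W), ∃ b, a < b ∧ ∀ i < k, e i ∈ D β → e i ∈ D b := by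
    intro k a
    by_contra hcon
    refine hβ (((Finset.range k).image e).filter (· ∈ D β)) (fun t ht => by
      simpa using (Finset.mem_filter.mp ht).2) ((countable_Iic a).mono fun b hb => ?_)
    by_contra h3
    refine hcon ⟨b, not_le.mp h3, fun i hi h4 => hb ?_⟩
    exact Finset.mem_coe.mpr (Finset.mem_filter.mpr
      ⟨Finset.mem_image_of_mem e (Finset.mem_range.mpr hi), h4⟩)
  choose nx hnx1 hnx2 using h2
  let b : ℕ → W := fun k => Nat.rec (nx 0 β) (fun k a => nx (k + 1) a) k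
  have hb2 : ∀ k, ∀ i < k, e i ∈ D β → e i ∈ D (b k) := fun k => by
    cases k with
    | zero => exact hnx2 _ _
    | succ k => exact hnx2 _ _
  obtain ⟨⟨α, g⟩, hq⟩ := h b (strictMono_nat_of_lt_succ fun k => hnx1 _ _)
  obtain ⟨n, m, hnm⟩ := hD g β
  obtain ⟨i, hi⟩ := he (⟨n, fun i => g i⟩, m)
  have h3 := hb2 (max i m + 1) i (by omega) (hi ▸ hnm)
  rw [hi] at h3
  have h4 : G g (b (max i m + 1)) ≤ m := h3 g fun _ => le_rfl
  have h5 : max i m + 1 ≤ N' (α, g) (b (max i m + 1)) := by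
    obtain ⟨q', h6, h7⟩ := Nat.sInf_mem
      (s := {n | ∃ q' ≥ (α, g), n = N q' (b (max i m + 1))}) ⟨_, _, le_rfl, rfl⟩
    exact (hq q' h6 _).trans (le_of_eq h7.symm)
  have h6 := h5.trans ((le_csSup (hb g _) ⟨α, rfl⟩).trans h4)
  omega

@[ext] structure Aff where
  a : ℝ
  b : ℝ

noncomputable instance : Mul Aff := ⟨fun x y => ⟨x.a + y.a, x.b + Real.exp x.a * y.b⟩⟩
instance : One Aff := ⟨⟨0, 0⟩⟩
noncomputable instance : Inv Aff := ⟨fun x => ⟨-x.a, -(Real.exp (-x.a) * x.b)⟩⟩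

@[simp] theorem mul_a (x y : Aff) : (x * y).a = x.a + y.a := rfl
@[simp] theorem mul_b (x y : Aff) : (x * y).b = x.b + Real.exp x.a * y.b := rfl
@[simp] theorem one_a : (1 : Aff).a = 0 := rfl
@[simp] theorem one_b : (1 : Aff).b = 0 := rfl
@[simp] theorem inv_a (x : Aff) : x⁻¹.a = -x.a := rfl
@[simp] theorem inv_b (x : Aff) : x⁻¹.b = -(Real.exp (-x.a) * x.b) := rfl

noncomputable instance : Group Aff := Group.ofLeftAxioms
  (fun x y z => by ext <;> simp [Real.exp_add] <;> ring)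
  (fun x => by ext <;> simp) (fun x => by ext <;> simp)

instance : TopologicalSpace Aff := TopologicalSpace.induced (fun x => (x.a, x.b)) inferInstance

theorem ind_Aff : IsInducing fun x : Aff => (x.a, x.b) := ⟨rfl⟩

@[fun_prop] theorem cont_a : Continuous Aff.a := continuous_fst.comp ind_Aff.continuous
@[fun_prop] theorem cont_b : Continuous Aff.b := continuous_snd.comp ind_Aff.continuous

instance : IsTopologicalGroup Aff where
  continuous_mul := ind_Aff.continuous_iff.mpr (by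
    show Continuous fun p : Aff × Aff => (p.1.a + p.2.a, p.1.b + Real.exp p.1.a * p.2.b)
    fun_prop)
  continuous_inv := ind_Aff.continuous_iff.mpr (by
    show Continuous fun p : Aff => (-p.a, -(Real.exp (-p.a) * p.b))
    fun_prop)

inductive X : Type
  | l : W → X
  | p : X
  | s : ℕ → X
  | o : X

open Classical in
noncomputable def col (q : W × ℕ) : X → X
  | X.l β => if β ≤ q.1 then X.l β else X.p
  | X.p => X.p
  | X.s k => if k < q.2 then X.s k else X.o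
  | X.o => X.o

def VV (q : W × ℕ) : Set (X × X) := {z | col q z.1 = col q z.2}

theorem col_col {q q' : W × ℕ} (h : q ≤ q') (x : X) : col q (col q' x) = col q x := by
  rcases x with β | _ | k | _
  · by_cases h1 : β ≤ q'.1
    · simp only [col, if_pos h1]
    · simp only [col, if_neg h1, if_neg fun h2 : β ≤ q.1 => h1 (h2.trans h.1)]
  · rfl
  · by_cases h1 : k < q'.2
    · simp only [col, if_pos h1]
    · simp only [col, if_neg h1, if_neg fun h2 : k < q.2 => h1 (h2.trans_le h.2)]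
  · rfl

theorem VV_anti {q q' : W × ℕ} (h : q ≤ q') : VV q' ⊆ VV q := fun z hz => by
  show col q z.1 = col q z.2
  rw [← col_col h z.1, ← col_col h z.2, show col q' z.1 = col q' z.2 from hz]

noncomputable instance : UniformSpace X := ⨅ q : W × ℕ, UniformSpace.comap (col q) ⊥

theorem basis_X : (𝓤 X).HasBasis (fun _ => True) VV := by
  have h1 : 𝓤 X = ⨅ q, 𝓟 (VV q) := by
    refine iInf_uniformity.trans (iInf_congr fun q => ?_)
    rw [uniformity_comap]
    exact comap_principal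
  rw [h1]
  exact hasBasis_iInf_principal fun q q' =>
    ⟨q ⊔ q', VV_anti le_sup_left, VV_anti le_sup_right⟩

theorem VV_mem (q : W × ℕ) : VV q ∈ 𝓤 X := basis_X.mem_of_mem trivial

theorem sep_X : T0Space X := by
  rw [t0Space_iff_uniformity]
  intro x y h
  have h1 : ∀ x : X, ∃ q, ∀ q' ≥ q, col q' x = x := by
    rintro (β | _ | k | _)
    · exact ⟨(β, 0), fun q' h => if_pos h.1⟩
    · exact ⟨(⊥, 0), fun _ _ => rfl⟩
    · exact ⟨(⊥, k + 1), fun q' h => if_pos h.2⟩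
    · exact ⟨(⊥, 0), fun _ _ => rfl⟩
  obtain ⟨q, hq⟩ := h1 x
  obtain ⟨q', hq'⟩ := h1 y
  have h2 : col (q ⊔ q') x = col (q ⊔ q') y := h _ (VV_mem _)
  rwa [hq _ le_sup_left, hq' _ le_sup_right] at h2

theorem narrow_X : OmegaNarrow X := by
  intro V hV
  obtain ⟨q, -, hq⟩ := basis_X.mem_iff.mp hV
  refine ⟨range (col q), ?_, fun x => ⟨col q x, ⟨x, rfl⟩, hq (col_col le_rfl x)⟩⟩
  refine ((((countable_Iic q.1).image X.l).union (countable_range X.s)).insert X.p |>.insert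
    X.o).mono ?_
  rintro _ ⟨β | _ | k | _, rfl⟩
  · by_cases h1 : β ≤ q.1
    · exact Or.inr (Or.inr (Or.inl ⟨β, h1, (if_pos h1).symm⟩))
    · exact Or.inr (Or.inl (if_neg h1))
  · exact Or.inr (Or.inl rfl)
  · by_cases h1 : k < q.2
    · exact Or.inr (Or.inr (Or.inr ⟨k, (if_pos h1).symm⟩))
    · exact Or.inl (if_neg h1)
  · exact Or.inl rfl

def cj (β : W) (k : ℕ) : FreeGroup X :=
  FreeGroup.of (X.l β) * (FreeGroup.of (X.s k) * (FreeGroup.of X.o)⁻¹) * (FreeGroup.of (X.l β))⁻¹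

theorem nhds_free : @nhds _ (freeTop X).toTopologicalSpace 1 =
    ⨅ τ ∈ {τ : GroupTopology (FreeGroup X) | ∀ U ∈ @nhds _ τ.toTopologicalSpace 1,
    {p : X × X | (FreeGroup.of p.1)⁻¹ * FreeGroup.of p.2 ∈ U ∧
      FreeGroup.of p.1 * (FreeGroup.of p.2)⁻¹ ∈ U} ∈ 𝓤 X}, @nhds _ τ.toTopologicalSpace 1 := by
  rw [freeTop, GroupTopology.toTopologicalSpace_sInf, nhds_sInf, iInf_image]

theorem tendsto_cj (β : W) :
    Tendsto (cj β) atTop (@nhds _ (freeTop X).toTopologicalSpace 1) := by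
  rw [nhds_free]
  refine tendsto_iInf.mpr fun τ => tendsto_iInf.mpr fun hτ => ?_
  letI := τ.toTopologicalSpace
  haveI := τ.toIsTopologicalGroup
  have h1 : Tendsto (fun k => FreeGroup.of (X.s k) * (FreeGroup.of X.o)⁻¹) atTop (𝓝 1) := by
    intro U hU
    obtain ⟨q, -, hq⟩ := basis_X.mem_iff.mp (hτ U hU)
    refine eventually_atTop.mpr ⟨q.2, fun k hk => (hq (a := (X.s k, X.o)) ?_).2⟩
    exact if_neg (not_lt.mpr hk)
  have h2 := (h1.const_mul (FreeGroup.of (X.l β))).mul_const (FreeGroup.of (X.l β))⁻¹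
  rwa [mul_one, mul_inv_cancel] at h2

theorem exists_U (β : ℕ → W) (hβ : StrictMono β) :
    ∃ U ∈ @nhds _ (freeTop X).toTopologicalSpace 1, ∀ k, ∀ m ≤ k, cj (β k) m ∉ U := by
  classical
  let u : X → Aff := fun x => X.casesOn x
    (fun γ => ⟨if h : ∃ k, β k = γ then (h.choose : ℝ) else 0, 0⟩) 1
    (fun k => ⟨0, 1 / ((k : ℝ) + 1)⟩) 1
  let τ : GroupTopology (FreeGroup X) :=
    ⟨TopologicalSpace.induced (FreeGroup.lift u) inferInstance, topologicalGroup_induced _⟩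
  have hn : @nhds _ τ.toTopologicalSpace 1 = comap (FreeGroup.lift u) (𝓝 1) := by
    rw [← map_one (FreeGroup.lift u)]
    exact nhds_induced _ _
  obtain ⟨α, hα⟩ := exists_bound_seq β
  refine ⟨FreeGroup.lift u ⁻¹' {g | g.b < 1}, ?_, fun k m hm h => ?_⟩
  · rw [nhds_free]
    refine mem_iInf_of_mem τ (mem_iInf_of_mem ?_ ?_)
    · intro U hU
      rw [hn] at hU
      obtain ⟨U', hU', hUU⟩ := mem_comap.mp hU
      have h1 : Continuous fun t : ℝ => (⟨0, t⟩ : Aff) :=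
        ind_Aff.continuous_iff.mpr (continuous_const.prodMk continuous_id)
      obtain ⟨ε, hε, h2⟩ := Metric.mem_nhds_iff.mp (h1.continuousAt (x := 0) hU')
      obtain ⟨M, hM⟩ := exists_nat_one_div_lt hε
      have h3 : ∀ x, u x = u (col (α, M) x) ∨
          (col (α, M) x = X.o ∧ ∃ t, 0 ≤ t ∧ t < ε ∧ u x = ⟨0, t⟩) := by
        rintro (γ | _ | k | _)
        · by_cases h4 : γ ≤ α
          · exact Or.inl (by simp only [col, if_pos h4])
          · refine Or.inl ?_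
            simp only [col, if_neg h4, u]
            rw [dif_neg]
            · rfl
            · rintro ⟨k, rfl⟩
              exact h4 (hα k).le
        · exact Or.inl rfl
        · by_cases h4 : k < M
          · exact Or.inl (by simp only [col, if_pos h4])
          · exact Or.inr ⟨if_neg h4, 1 / ((k : ℝ) + 1), by positivity,
              (Nat.one_div_le_one_div (not_lt.mp h4)).trans_lt hM, rfl⟩
        · exact Or.inl rfl
      have h4 : ∀ x y, col (α, M) x = col (α, M) y →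
          u x = u y ∨ ∃ t t', 0 ≤ t ∧ t < ε ∧ 0 ≤ t' ∧ t' < ε ∧ u x = ⟨0, t⟩ ∧ u y = ⟨0, t'⟩ := by
        intro x y hxy
        rcases h3 x with h5 | ⟨h5, t, h6, h7, h8⟩ <;> rcases h3 y with h9 | ⟨h9, t', h10, h11, h12⟩
        · exact Or.inl (by rw [h5, h9, hxy])
        · exact Or.inr ⟨0, t', le_rfl, hε, h10, h11, by rw [h5, hxy, h9]; rfl, h12⟩
        · exact Or.inr ⟨t, 0, h6, h7, le_rfl, hε, h8, by rw [h9, ← hxy, h5]; rfl⟩
        · exact Or.inr ⟨t, t', h6, h7, h10, h11, h8, h12⟩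
      refine mem_of_superset (VV_mem (α, M)) fun z hz => ⟨hUU ?_, hUU ?_⟩
      · simp only [mem_preimage, map_mul, map_inv, FreeGroup.lift_apply_of]
        rcases h4 _ _ hz with h5 | ⟨t, t', h5, h6, h7, h8, h9, h10⟩
        · rw [h5, inv_mul_cancel]; exact mem_of_mem_nhds hU'
        · have h11 : (u z.1)⁻¹ * u z.2 = ⟨0, t' - t⟩ := by
            rw [h9, h10]; ext <;> simp; ring
          rw [h11]
          exact h2 (mem_ball_zero_iff.mpr (abs_lt.mpr ⟨by linarith, by linarith⟩))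
      · simp only [mem_preimage, map_mul, map_inv, FreeGroup.lift_apply_of]
        rcases h4 _ _ hz with h5 | ⟨t, t', h5, h6, h7, h8, h9, h10⟩
        · rw [h5, mul_inv_cancel]; exact mem_of_mem_nhds hU'
        · have h11 : u z.1 * (u z.2)⁻¹ = ⟨0, t - t'⟩ := by
            rw [h9, h10]; ext <;> simp; ring
          rw [h11]
          exact h2 (mem_ball_zero_iff.mpr (abs_lt.mpr ⟨by linarith, by linarith⟩))
    · rw [hn]
      exact preimage_mem_comap ((isOpen_lt cont_b continuous_const).mem_nhds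
        (show (0 : ℝ) < 1 from one_pos))
  · have h1 : u (X.l (β k)) = ⟨k, 0⟩ := by
      have h2 : ∃ j, β j = β k := ⟨k, rfl⟩
      simp only [u, dif_pos h2, hβ.injective h2.choose_spec]
    have h2 : (FreeGroup.lift u (cj (β k) m)).b < 1 := h
    have h3 : u (X.s m) = ⟨0, 1 / ((m : ℝ) + 1)⟩ := rfl
    have h4 : u X.o = 1 := rfl
    simp only [cj, map_mul, map_inv, FreeGroup.lift_apply_of, h1, h3, h4, inv_one, mul_one, mul_b,
      inv_b, mul_zero, neg_zero, add_zero, zero_add] at h2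
    have h5 := Real.add_one_le_exp (k : ℝ)
    have h6 : (m : ℝ) ≤ k := by exact_mod_cast hm
    rw [mul_one_div, div_lt_one (by positivity)] at h2
    linarith

theorem not_tukey {Q : Type*} [Preorder Q] (ι : W × (ℕ → ℕ) → Q) (h1 : Monotone ι)
    (h2 : ∀ y, ∃ q, y ≤ ι q) : ¬ TukeyLE (NhdsOne X) Q := by
  rintro ⟨φ, hφ⟩
  refine comb (fun q β => sInf {n | ∀ m ≥ n, cj β m ∈ (OrderDual.ofDual (φ (ι q))).1})
    fun β hβ => ?_
  obtain ⟨U, hU, hUβ⟩ := exists_U β hβ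
  have h3 : ∃ q₀, ∀ q ≥ q₀, (OrderDual.ofDual (φ (ι q))).1 ⊆ U := by
    by_contra hcon
    push Not at hcon
    obtain ⟨_, ⟨_, ⟨q, hq, rfl⟩, rfl⟩, h4⟩ :=
      hφ (ι '' {q | ¬ (OrderDual.ofDual (φ (ι q))).1 ⊆ U}) (fun y => by
        obtain ⟨q, hq⟩ := h2 y
        obtain ⟨q', h5, h6⟩ := hcon q
        exact ⟨ι q', ⟨q', h6, rfl⟩, hq.trans (h1 h5)⟩) (OrderDual.toDual ⟨U, hU⟩)
    exact hq h4
  obtain ⟨q₀, hq₀⟩ := h3
  refine ⟨q₀, fun q hq k => ?_⟩
  by_contra h4
  have h5 := Nat.sInf_mem (s := {n | ∀ m ≥ n, cj (β k) m ∈ (OrderDual.ofDual (φ (ι q))).1})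
    (eventually_atTop.mp ((tendsto_cj (β k)).eventually (OrderDual.ofDual (φ (ι q))).2))
  exact hUβ k k le_rfl (hq₀ q hq (h5 k (not_le.mp h4).le))

theorem cof_seq (V : ℕ → Set (X × X)) (hV : ∀ n, V n ∈ 𝓤 X) (g : ℕ → ℕ) :
    ∃ q : W × (ℕ → ℕ), g ≤ q.2 ∧ ∀ n, VV (q.1, q.2 n) ⊆ V n := by
  choose q _ hq using fun n => basis_X.mem_iff.mp (hV n)
  obtain ⟨α, hα⟩ := exists_bound_seq fun n => (q n).1
  exact ⟨(α, fun n => max (g n) (q n).2), fun n => le_max_left _ _, fun n =>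
    (VV_anti (And.intro (hα n).le (le_max_right _ _))).trans (hq n)⟩

theorem main1 : ¬ TukeyLE (NhdsOne X) ((ℕ → ℕ) × (ℕ → SymEnt X)) := by
  refine not_tukey (fun q => (q.2, fun n => OrderDual.toDual
    ⟨VV (q.1, q.2 n), VV_mem _, fun x y h => Eq.symm h⟩)) (fun q q' h =>
      ⟨h.2, fun n => VV_anti (And.intro h.1 (h.2 n))⟩) fun y => ?_
  obtain ⟨q, h1, h2⟩ := cof_seq (fun n => (OrderDual.ofDual (y.2 n)).1)
    (fun n => (OrderDual.ofDual (y.2 n)).2.1) y.1
  exact ⟨q, h1, h2⟩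

theorem main2 : ¬ TukeyLE (NhdsOne X) (ℕ → Ent X) := by
  refine not_tukey (fun q n => OrderDual.toDual ⟨VV (q.1, q.2 n), VV_mem _⟩)
    (fun q q' h n => VV_anti (And.intro h.1 (h.2 n))) fun y => ?_
  obtain ⟨q, -, h2⟩ := cof_seq (fun n => (OrderDual.ofDual (y n)).1)
    (fun n => (OrderDual.ofDual (y n)).2) 0
  exact ⟨q, h2⟩

end Pool.Agent.H31.Tuk
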