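import Mathlib

namespace Pool.Agent.H31.Tuk

open Topology Uniformity

universe u v

/-- Tukey reducibility `P ≤_T Q`: some map `Q → P` sends cofinal sets to cofinal sets -/
def TukeyLE (P : Type u) (Q : Type v) [Preorder P] [Preorder Q] : Prop :=
  ∃ φ : Q → P, ∀ A : Set Q, IsCofinal A → IsCofinal (φ '' A)

/-- `ω`-narrow uniform spaces -/
def OmegaNarrow (X : Type u) [UniformSpace X] : Prop :=
  ∀ V ∈ 𝓤 X, ∃ A : Set X, A.Countable ∧ ∀ x, ∃ a ∈ A, (a, x) ∈ V

/-- the finest group topology on the free group over `X` for which the canonical map is uniformly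
continuous for the two-sided uniformity of the group -/
noncomputable def freeTop (X : Type u) [UniformSpace X] : GroupTopology (FreeGroup X) :=
  sInf {τ | ∀ U ∈ @nhds _ τ.toTopologicalSpace 1,
    {p : X × X | (FreeGroup.of p.1)⁻¹ * FreeGroup.of p.2 ∈ U ∧
      FreeGroup.of p.1 * (FreeGroup.of p.2)⁻¹ ∈ U} ∈ 𝓤 X}

/-- neighbourhoods of the identity of `F(X, 𝒰)`, ordered by reverse inclusion -/
abbrev NhdsOne (X : Type u) [UniformSpace X] : Type u :=
  {U : Set (FreeGroup X) // U ∈ @nhds _ (freeTop X).toTopologicalSpace 1}ᵒᵈ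

/-- entourages, ordered by reverse inclusion -/
abbrev Ent (X : Type u) [UniformSpace X] : Type u := {V : Set (X × X) // V ∈ 𝓤 X}ᵒᵈ

/-- symmetric entourages, ordered by reverse inclusion -/
abbrev SymEnt (X : Type u) [UniformSpace X] : Type u :=
  {V : Set (X × X) // V ∈ 𝓤 X ∧ ∀ x y, (x, y) ∈ V → (y, x) ∈ V}ᵒᵈ

end Pool.Agent.H31.Tuk
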