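import Mathlib

set_option autoImplicit false

open Set Topology Filter MeasureTheory Cardinal

namespace Pool.Agent.H31.Vd

section PS
variable {Γ : Type} [TopologicalSpace Γ] [T2Space Γ] [RegularSpace Γ] [SecondCountableTopology Γ]
  [MeasurableSpace Γ] (μ : Measure Γ)

omit [RegularSpace Γ] [SecondCountableTopology Γ] [MeasurableSpace Γ] in
theorem isClosed_meet {R : Set (Γ × Γ)} (hR : IsCompact R) :
    IsClosed {z : Γ × Γ | ∃ c, (z.1, c) ∈ R ∧ (z.2, c) ∈ R} := by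
  have h1 : IsCompact ((R ×ˢ R) ∩ {w : (Γ × Γ) × (Γ × Γ) | w.1.2 = w.2.2}) :=
    (hR.prod hR).inter_right (isClosed_eq (by fun_prop) (by fun_prop))
  have h2 := (h1.image (f := fun w : (Γ × Γ) × (Γ × Γ) => (w.1.1, w.2.1)) (by fun_prop)).isClosed
  convert h2 using 1
  ext ⟨a, b⟩
  constructor
  · rintro ⟨c, h1, h2⟩
    exact ⟨((a, c), (b, c)), ⟨⟨h1, h2⟩, rfl⟩, rfl⟩
  · rintro ⟨⟨⟨a', c⟩, ⟨b', c'⟩⟩, ⟨⟨h1, h2⟩, h3⟩, h4⟩
    simp only [mem_setOf_eq, Prod.mk.injEq] at h3 h4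
    obtain ⟨rfl, rfl⟩ := h4
    subst h3
    exact ⟨c, h1, h2⟩

theorem split (R : ℕ → Set (Γ × Γ)) (hR : ∀ n, IsCompact (R n))
    (hv : ∀ n x, {c | (x, c) ∈ R n}.Countable) (hh : ∀ n c, μ {x | (x, c) ∈ R n} = 0)
    (n : ℕ) (F : Set Γ) (hF : IsCompact F) (hμ : μ F ≠ 0) :
    ∃ E : Bool → Set Γ, (∀ b, E b ⊆ F ∧ IsCompact (E b) ∧ μ (E b) ≠ 0) ∧
      ∀ a ∈ E false, ∀ b ∈ E true, ∀ m ≤ n, ∀ c, (a, c) ∈ R m → (b, c) ∉ R m := by
  obtain ⟨p, hp, hp'⟩ := exists_mem_forall_mem_nhdsWithin_pos_measure hμ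
  set N : Set Γ := ⋃ m, ⋃ c ∈ {c | (p, c) ∈ R m}, {x | (x, c) ∈ R m} with hN
  have hN0 : μ N = 0 := measure_iUnion_null fun m =>
    (measure_biUnion_null_iff (hv m p)).2 fun c _ => hh m c
  have h2 : μ (F \ N) ≠ 0 := by rwa [measure_sdiff_null hN0]
  obtain ⟨q, hq, hq'⟩ := exists_mem_forall_mem_nhdsWithin_pos_measure h2
  set B : Set (Γ × Γ) := ⋃ m ∈ Finset.range (n + 1), {z : Γ × Γ | ∃ c, (z.1, c) ∈ R m ∧ (z.2, c) ∈ R m}
    with hB
  have hBc : IsClosed B := isClosed_biUnion_finset fun m _ => isClosed_meet (hR m)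
  have hpq : (p, q) ∈ Bᶜ := by
    intro h
    obtain ⟨m, -, c, h1, h2⟩ := mem_iUnion₂.1 h
    exact hq.2 (mem_iUnion.2 ⟨m, mem_biUnion h1 h2⟩)
  obtain ⟨u, hu, v, hv', huv⟩ := mem_nhds_prod_iff.1 (hBc.isOpen_compl.mem_nhds hpq)
  obtain ⟨u', hu', hu1, hu2⟩ := exists_mem_nhds_isClosed_subset hu
  obtain ⟨v', hv'', hv1, hv2⟩ := exists_mem_nhds_isClosed_subset hv'
  refine ⟨fun b => cond b (F ∩ v') (F ∩ u'), ?_, ?_⟩
  · rintro (_ | _)
    · exact ⟨inter_subset_left, hF.inter_right hu1, (hp' _ (inter_mem_nhdsWithin F hu')).ne'⟩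
    · refine ⟨inter_subset_left, hF.inter_right hv1, ?_⟩
      have := hq' _ (inter_mem_nhdsWithin (F \ N) hv'')
      exact (this.trans_le (measure_mono (inter_subset_inter_left _ sdiff_subset))).ne'
  · intro a ha b hb m hm c h1 h2
    have : (a, b) ∈ Bᶜ := huv (mk_mem_prod (hu2 ha.2) (hv2 hb.2))
    exact this (mem_iUnion₂.2 ⟨m, Finset.mem_range.2 (Nat.lt_succ_of_le hm), c, h1, h2⟩)

theorem perfect (R : ℕ → Set (Γ × Γ)) (hR : ∀ n, IsCompact (R n))
    (hv : ∀ n x, {c | (x, c) ∈ R n}.Countable) (hh : ∀ n c, μ {x | (x, c) ∈ R n} = 0)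
    (Q : Set Γ) (hQ : IsCompact Q) (hμ : μ Q ≠ 0) (S : Set Γ) (hS : #S < 𝔠) :
    ∃ x ∈ Q, ∀ n c, (x, c) ∈ R n → c ∉ S := by
  classical
  obtain ⟨E, hE1, hE2⟩ : ∃ E : ℕ → {F : Set Γ // IsCompact F ∧ μ F ≠ 0} → Bool →
      {F : Set Γ // IsCompact F ∧ μ F ≠ 0}, (∀ n G b, (E n G b).1 ⊆ G.1) ∧
      ∀ n G, ∀ a ∈ (E n G false).1, ∀ b ∈ (E n G true).1, ∀ m ≤ n, ∀ c,
        (a, c) ∈ R m → (b, c) ∉ R m := by
    choose E hE1 hE2 using split μ R hR hv hh
    exact ⟨fun n G b => ⟨E n G.1 G.2.1 G.2.2 b, (hE1 _ _ _ _ _).2⟩,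
      fun n G b => (hE1 _ _ _ _ _).1, fun n G => hE2 n G.1 G.2.1 G.2.2⟩
  obtain ⟨F, h0, hs⟩ : ∃ F : (ℕ → Bool) → ℕ → {F : Set Γ // IsCompact F ∧ μ F ≠ 0},
      (∀ β, F β 0 = ⟨Q, hQ, hμ⟩) ∧ ∀ β n, F β (n + 1) = E n (F β n) (β n) :=
    ⟨fun β n => Nat.rec (motive := fun _ => {F : Set Γ // IsCompact F ∧ μ F ≠ 0}) ⟨Q, hQ, hμ⟩
      (fun n G => E n G (β n)) n, fun _ => rfl, fun _ _ => rfl⟩
  have hsub : ∀ β n, (F β (n + 1)).1 ⊆ (F β n).1 := fun β n => by
    rw [hs]; exact hE1 _ _ _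
  have hx : ∀ β, (⋂ n, (F β n).1).Nonempty := fun β =>
    IsCompact.nonempty_iInter_of_sequence_nonempty_isCompact_isClosed _ (hsub β)
      (fun n => nonempty_of_measure_ne_zero (F β n).2.2) (F β 0).2.1 fun n => (F β n).2.1.isClosed
  choose x hx using hx
  have hagree : ∀ β β' k, (∀ j < k, β j = β' j) → F β k = F β' k := by
    intro β β' k
    induction k with
    | zero => intro _; rw [h0, h0]
    | succ k ih =>
      intro h
      have := ih fun j hj => h j (Nat.lt_succ_of_lt hj)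
      rw [hs, hs, this, h k (Nat.lt_succ_self k)]
  by_contra hcon
  push Not at hcon
  have hxQ : ∀ β, x β ∈ Q := fun β => by
    have := mem_iInter.1 (hx β) 0
    rwa [h0] at this
  choose n c hc1 hc2 using fun β => hcon (x β) (hxQ β)
  have key : ∀ β β' k, (∀ j < k, β j = β' j) → β k = false → β' k = true → n β ≤ k →
      n β = n β' → c β = c β' → False := by
    intro β β' k h h1 h2 h3 h4 h5
    have e := hagree β β' k h
    have m1 := mem_iInter.1 (hx β) (k + 1)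
    have m2 := mem_iInter.1 (hx β') (k + 1)
    rw [hs] at m1 m2
    rw [h1] at m1
    rw [h2, ← e] at m2
    refine hE2 _ _ _ m1 _ m2 _ h3 _ (hc1 β) ?_
    rw [h4, h5]; exact hc1 β'
  let Φ : (ℕ → Bool) → S × List Bool := fun β => (⟨c β, hc2 β⟩, (List.range (n β)).map β)
  have hΦ : Function.Injective Φ := by
    intro β β' h
    simp only [Φ, Prod.mk.injEq, Subtype.mk.injEq] at h
    obtain ⟨h1, h2⟩ := h
    have h3 : n β = n β' := by simpa using congrArg List.length h2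
    by_contra hne
    have hex : ∃ k, β k ≠ β' k := Function.ne_iff.1 hne
    have hk := Nat.find_spec hex
    have hlt : ∀ j < Nat.find hex, β j = β' j := fun j hj => not_not.1 (Nat.find_min hex hj)
    have hle : n β ≤ Nat.find hex := by
      by_contra hh'
      rw [← h3, List.map_inj_left] at h2
      exact hk (h2 _ (List.mem_range.2 (not_le.1 hh')))
    cases e1 : β (Nat.find hex) <;> cases e2 : β' (Nat.find hex)
    · exact hk (e1.trans e2.symm)
    · exact key β β' _ hlt e1 e2 hle h3 h1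
    · exact key β' β _ (fun j hj => (hlt j hj).symm) e2 e1 (h3 ▸ hle) h3.symm h1.symm
    · exact hk (e1.trans e2.symm)
  have h1 := mk_le_of_injective hΦ
  have h2 : #(ℕ → Bool) = 𝔠 := by simp
  have h3 : #(S × List Bool) < 𝔠 := by
    rw [mk_prod, lift_id, lift_id]
    exact mul_lt_of_lt aleph0_le_continuum hS (mk_le_aleph0.trans_lt aleph0_lt_continuum)
  exact absurd (h2 ▸ h1) (not_le.2 h3)

end PS

section Key
variable {Γ : Type}

/-- the one-to-one part of a relation -/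
def G (K : Set (Γ × Γ)) : Set (Γ × Γ) := {p | p ∈ K ∧ ∀ q ∈ K, (q.1 = p.1 ↔ q.2 = p.2)}

theorem graph_mem [TopologicalSpace Γ] [T2Space Γ] [FirstCountableTopology Γ] {Y : Type}
    [TopologicalSpace Y] {a b : Y → Γ} (ha : IsInducing a) (hb : IsInducing b) (t : Y) :
    (a t, b t) ∈ G (closure (range fun s => (a s, b s))) := by
  refine ⟨subset_closure (mem_range_self t), fun q hq => ?_⟩
  obtain ⟨u, hu, hl⟩ := mem_closure_iff_seq_limit.1 hq
  choose s hs using hu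
  have l1 : Tendsto (a ∘ s) atTop (𝓝 q.1) := by
    have := (continuous_fst.tendsto q).comp hl
    refine this.congr fun k => ?_
    simp only [Function.comp, ← hs]
  have l2 : Tendsto (b ∘ s) atTop (𝓝 q.2) := by
    have := (continuous_snd.tendsto q).comp hl
    refine this.congr fun k => ?_
    simp only [Function.comp, ← hs]
  constructor
  · intro h
    simp only at h
    rw [h, ← ha.tendsto_nhds_iff] at l1
    exact tendsto_nhds_unique l2 (hb.tendsto_nhds_iff.1 l1)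
  · intro h
    simp only at h
    rw [h, ← hb.tendsto_nhds_iff] at l2
    exact tendsto_nhds_unique l1 (ha.tendsto_nhds_iff.1 l2)

theorem meas_image [TopologicalSpace Γ] [T2Space Γ] [MeasurableSpace Γ] [BorelSpace Γ] {Z : Type}
    [TopologicalSpace Z] [TopologicalSpace.PseudoMetrizableSpace Z] {K O : Set Z}
    (hK : IsCompact K) (hO : IsOpen O) {f : Z → Γ} (hf : Continuous f) :
    MeasurableSet (f '' (K ∩ O)) := by
  letI := TopologicalSpace.pseudoMetrizableSpacePseudoMetric Z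
  obtain ⟨F, hF, -, rfl, -⟩ := hO.exists_iUnion_isClosed
  rw [inter_iUnion, image_iUnion]
  exact MeasurableSet.iUnion fun n => ((hK.inter_right (hF n)).image hf).isClosed.measurableSet

theorem meas_dom [TopologicalSpace Γ] [T2Space Γ] [RegularSpace Γ] [SecondCountableTopology Γ]
    [MeasurableSpace Γ] [BorelSpace Γ] {K : Set (Γ × Γ)} (hK : IsCompact K) :
    MeasurableSet (Prod.fst '' G K) := by
  have h1 : IsCompact ((K ×ˢ K) ∩ {w : (Γ × Γ) × (Γ × Γ) | w.1.1 = w.2.1}) :=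
    (hK.prod hK).inter_right (isClosed_eq (by fun_prop) (by fun_prop))
  have h2 : IsCompact ((K ×ˢ K) ∩ {w : (Γ × Γ) × (Γ × Γ) | w.1.2 = w.2.2}) :=
    (hK.prod hK).inter_right (isClosed_eq (by fun_prop) (by fun_prop))
  have o1 : IsOpen {w : (Γ × Γ) × (Γ × Γ) | w.1.2 ≠ w.2.2} :=
    isOpen_ne_fun (by fun_prop) (by fun_prop)
  have o2 : IsOpen {w : (Γ × Γ) × (Γ × Γ) | w.1.1 ≠ w.2.1} :=
    isOpen_ne_fun (by fun_prop) (by fun_prop)
  have m1 := meas_image h1 o1 (f := fun w => w.1.1) (by fun_prop)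
  have m2 := meas_image h2 o2 (f := fun w => w.1.1) (by fun_prop)
  have m0 := (hK.image continuous_fst).isClosed.measurableSet
  convert m0.diff (m1.union m2) using 1
  ext x
  constructor
  · rintro ⟨p, ⟨hp, hp'⟩, rfl⟩
    refine ⟨⟨p, hp, rfl⟩, ?_⟩
    rintro (⟨⟨q, r⟩, ⟨⟨⟨h1, h2⟩, h3⟩, h4⟩, h5⟩ | ⟨⟨q, r⟩, ⟨⟨⟨h1, h2⟩, h3⟩, h4⟩, h5⟩)
    · simp only [mem_setOf_eq] at h1 h2 h3 h4 h5
      exact h4 (((hp' q h1).1 h5).trans ((hp' r h2).1 (h3.symm.trans h5)).symm)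
    · simp only [mem_setOf_eq] at h1 h2 h3 h4 h5
      exact h4 (h5.trans ((hp' r h2).2 (h3.symm.trans ((hp' q h1).1 h5))).symm)
  · rintro ⟨⟨p, hp, rfl⟩, h⟩
    refine ⟨p, ⟨hp, fun q hq => ⟨fun e => ?_, fun e => ?_⟩⟩, rfl⟩
    · by_contra hne
      exact h (Or.inl ⟨(p, q), ⟨⟨⟨hp, hq⟩, e.symm⟩, fun h' => hne h'.symm⟩, rfl⟩)
    · by_contra hne
      exact h (Or.inr ⟨(p, q), ⟨⟨⟨hp, hq⟩, e.symm⟩, fun h' => hne h'.symm⟩, rfl⟩)

theorem mem_G_of {K : Set (Γ × Γ)} {x y : Γ} (hx : x ∈ Prod.fst '' G K) (hy : (x, y) ∈ K) :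
    (x, y) ∈ G K := by
  obtain ⟨⟨x', y'⟩, hp, rfl⟩ := hx
  have : y = y' := (hp.2 _ hy).1 rfl
  subst this
  exact hp

variable [AddCommGroup Γ] [TopologicalSpace Γ] [IsTopologicalAddGroup Γ] [T2Space Γ]
  [SecondCountableTopology Γ] [LocallyCompactSpace Γ] [MeasurableSpace Γ] [BorelSpace Γ]
  (μ : Measure Γ) [μ.IsAddHaarMeasure] [NullSingletonClass μ]

theorem one_step {K : Set (Γ × Γ)} (hK : IsCompact K) {ε : ENNReal} (hε : ε ≠ 0) :
    ∃ L B : Set Γ, IsCompact L ∧ L ⊆ Prod.fst '' G K ∧ Prod.fst '' G K ⊆ L ∪ B ∧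
      μ B ≤ μ (Prod.snd '' K) + ε ∧ ∀ c, μ {x | x ∈ L ∧ (x, x + c) ∈ K} = 0 := by
  set E : Γ → Set Γ := fun c => Prod.fst '' G K ∩ {x | (x, x + c) ∈ K} with hE
  have hEm : ∀ c, MeasurableSet (E c) := fun c =>
    (meas_dom hK).inter (hK.isClosed.preimage (f := fun x => (x, x + c)) (by fun_prop)).measurableSet
  have hEG : ∀ c, ∀ x ∈ E c, (x, x + c) ∈ G K := fun c x hx => mem_G_of hx.1 hx.2
  have hd : Pairwise (Function.onFun Disjoint E) := by
    intro c c' hne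
    refine disjoint_left.2 fun x h1 h2 => hne ?_
    have := ((hEG c x h1).2 _ h2.2).1 rfl
    simpa using this.symm
  have hZ : {c | 0 < μ (E c)}.Countable :=
    Measure.countable_meas_pos_of_disjoint_iUnion hEm hd
  set T : Set Γ := ⋃ c ∈ {c | 0 < μ (E c)}, E c with hT
  have hTm : MeasurableSet T := MeasurableSet.biUnion hZ fun c _ => hEm c
  have hTμ : μ T ≤ μ (Prod.snd '' K) := by
    have h1 : μ (⋃ c ∈ {c | 0 < μ (E c)}, (fun y => y + (-c)) ⁻¹' E c) =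
        ∑' c : {c | 0 < μ (E c)}, μ ((fun y => y + (-(c : Γ))) ⁻¹' E c) := by
      refine measure_biUnion hZ ?_ fun c _ => (hEm c).preimage (by fun_prop)
      intro c _ c' _ hne
      refine disjoint_left.2 fun y h1 h2 => hne ?_
      have := ((hEG c _ h1).2 _ h2.2).2 (by simp)
      simpa using this.symm
    calc μ T ≤ ∑' c : {c | 0 < μ (E c)}, μ (E c) := measure_biUnion_le μ hZ E
      _ = μ (⋃ c ∈ {c | 0 < μ (E c)}, (fun y => y + (-c)) ⁻¹' E c) := by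
        rw [h1]; simp only [measure_preimage_add_right]
      _ ≤ _ := by
        refine measure_mono (iUnion₂_subset fun c _ y hy => ?_)
        have hy' : y + -c ∈ E c := hy
        exact ⟨_, hy'.2, by simp⟩
  have hA : MeasurableSet (Prod.fst '' G K \ T) := (meas_dom hK).diff hTm
  have hA' : μ (Prod.fst '' G K \ T) ≠ ⊤ :=
    ne_top_of_le_ne_top (hK.image continuous_fst).measure_lt_top.ne
      (measure_mono (sdiff_subset.trans (image_mono fun p hp => hp.1)))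
  obtain ⟨L, hL1, hL2, hL3⟩ := hA.exists_isCompact_sdiff_lt hA' hε
  refine ⟨L, T ∪ ((Prod.fst '' G K \ T) \ L), hL2, hL1.trans sdiff_subset, fun x hx => ?_,
    (measure_union_le _ _).trans (add_le_add hTμ hL3.le), fun c => ?_⟩
  · by_cases h1 : x ∈ L
    · exact Or.inl h1
    by_cases h2 : x ∈ T
    · exact Or.inr (Or.inl h2)
    · exact Or.inr (Or.inr ⟨⟨hx, h2⟩, h1⟩)
  · by_cases h : 0 < μ (E c)
    · have : {x | x ∈ L ∧ (x, x + c) ∈ K} = ∅ := eq_empty_of_forall_notMem fun x hx =>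
        (hL1 hx.1).2 (mem_biUnion (s := {c | 0 < μ (E c)}) h ⟨(hL1 hx.1).1, hx.2⟩)
      rw [this, measure_empty]
    · exact measure_mono_null (t := E c) (fun x hx => And.intro (hL1 hx.1).1 hx.2)
        (by simpa using h)

theorem key (P : Set Γ) (hP : IsCompact P) (K : ℕ → Set (Γ × Γ)) (hK : ∀ n, IsCompact (K n))
    (hμ : ∑' n, μ (Prod.snd '' K n) < μ P) (S : Set Γ) (hS : #S < 𝔠) :
    ∃ x ∈ P, x ∉ S ∧ ∀ n y, (x, y) ∈ G (K n) → y ∉ S ∧ y - x ∉ S := by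
  obtain ⟨δ, hδ, hδ'⟩ := ENNReal.lt_iff_exists_add_pos_lt.1 hμ
  obtain ⟨ε, hε, hε'⟩ := ENNReal.exists_pos_sum_of_countable' (ε := δ) (by simpa using hδ.ne') ℕ
  choose L B h1 h2 h3 h4 h5 using fun n => one_step μ (hK n) (hε n).ne'
  have hB : μ (⋃ n, B n) < μ P := by
    calc μ (⋃ n, B n) ≤ ∑' n, (μ (Prod.snd '' K n) + ε n) :=
          (measure_iUnion_le _).trans (ENNReal.tsum_le_tsum h4)
      _ ≤ ∑' n, μ (Prod.snd '' K n) + δ := by
          rw [ENNReal.tsum_add]; exact add_le_add le_rfl hε'.le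
      _ < _ := hδ'
  have hP' : MeasurableSet (P \ toMeasurable μ (⋃ n, B n)) :=
    hP.isClosed.measurableSet.diff (measurableSet_toMeasurable _ _)
  have hpos : 0 < μ (P \ toMeasurable μ (⋃ n, B n)) := by
    refine pos_iff_ne_zero.2 fun h => ?_
    have := (measure_le_inter_add_sdiff μ P (toMeasurable μ (⋃ n, B n)))
    rw [h, add_zero] at this
    have h' := this.trans (measure_mono inter_subset_right)
    rw [measure_toMeasurable] at h'
    exact absurd h' (not_le.2 hB)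
  obtain ⟨Q, hQ1, hQ2, hQ3⟩ := hP'.exists_lt_isCompact_of_ne_top
    (ne_top_of_le_ne_top hP.measure_lt_top.ne (measure_mono sdiff_subset)) hpos
  let R : ℕ → Set (Γ × Γ) := fun n => (fun x => (x, x)) '' Q ∪ (K n ∩ Prod.fst ⁻¹' L n) ∪
    (fun p : Γ × Γ => (p.1, p.2 - p.1)) '' (K n ∩ Prod.fst ⁻¹' L n)
  have hc : ∀ n, IsCompact (K n ∩ Prod.fst ⁻¹' L n) := fun n =>
    (hK n).inter_right ((h1 n).isClosed.preimage continuous_fst)
  have hR : ∀ n x c, (x, c) ∈ R n ↔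
      (x ∈ Q ∧ c = x) ∨ ((x, c) ∈ K n ∧ x ∈ L n) ∨ (x ∈ L n ∧ (x, x + c) ∈ K n) := by
    intro n x c
    constructor
    · rintro ((⟨z, hz, e⟩ | h) | ⟨⟨a, b⟩, h, e⟩)
      · simp only [Prod.mk.injEq] at e
        exact Or.inl ⟨e.1 ▸ hz, e.2.symm.trans e.1⟩
      · exact Or.inr (Or.inl h)
      · simp only [Prod.mk.injEq] at e
        obtain ⟨rfl, rfl⟩ := e
        exact Or.inr (Or.inr ⟨h.2, by simpa using h.1⟩)
    · rintro (⟨h, rfl⟩ | h | h)
      · exact Or.inl (Or.inl ⟨c, h, rfl⟩)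
      · exact Or.inl (Or.inr h)
      · exact Or.inr ⟨(x, x + c), ⟨h.2, h.1⟩, by simp⟩
  obtain ⟨x, hx, hx'⟩ := perfect μ R
    (fun n => ((hQ2.image (by fun_prop)).union (hc n)).union ((hc n).image (by fun_prop)))
    (fun n x => by
      simp only [hR, setOf_or]
      refine ((countable_singleton x).mono fun c hc => hc.2).union
        ((Set.Subsingleton.countable ?_).union (Set.Subsingleton.countable ?_))
      · intro c hc c' hc'
        exact ((mem_G_of (h2 n hc'.2) hc'.1).2 _ hc.1).1 rfl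
      · intro c hc c' hc'
        simpa using ((mem_G_of (h2 n hc'.1) hc'.2).2 _ hc.2).1 rfl)
    (fun n c => by
      simp only [hR, setOf_or]
      refine measure_union_null (measure_mono_null (fun x hx => hx.2.symm) (measure_singleton c))
        (measure_union_null (Set.Subsingleton.measure_zero ?_ μ) (h5 n c))
      intro x hx x' hx'
      exact ((mem_G_of (h2 n hx'.2) hx'.1).2 _ hx.1).2 rfl)
    Q hQ2 hQ3.ne' S hS
  refine ⟨x, (hQ1 hx).1, hx' 0 x ((hR _ _ _).2 (Or.inl ⟨hx, rfl⟩)), fun n y hy => ?_⟩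
  have hxL : x ∈ L n := (h3 n ⟨_, hy, rfl⟩).resolve_right fun h =>
    (hQ1 hx).2 (subset_toMeasurable _ _ (mem_iUnion.2 ⟨n, h⟩))
  exact ⟨hx' n y ((hR _ _ _).2 (Or.inr (Or.inl ⟨hy.1, hxL⟩))),
    hx' n _ ((hR _ _ _).2 (Or.inr (Or.inr ⟨hxL, by simpa using hy.1⟩)))⟩

omit [TopologicalSpace Γ] [IsTopologicalAddGroup Γ] [T2Space Γ]
  [SecondCountableTopology Γ] [LocallyCompactSpace Γ] [MeasurableSpace Γ] [BorelSpace Γ] in
theorem mk_closure_lt {s : Set Γ} (hs : #s < 𝔠) : #(AddSubgroup.closure s) < 𝔠 := by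
  have h1 : #(s ∪ -s : Set Γ) < 𝔠 := by
    refine (mk_union_le _ _).trans_lt (add_lt_of_lt aleph0_le_continuum hs ?_)
    rw [← image_neg_eq_neg]
    exact mk_image_le.trans_lt hs
  have h2 : #(List (s ∪ -s : Set Γ)) < 𝔠 :=
    (mk_list_le_max _).trans_lt (max_lt aleph0_lt_continuum h1)
  refine lt_of_le_of_lt ?_ h2
  refine (mk_le_mk_of_subset (s := (AddSubgroup.closure s : Set Γ))
    (t := range fun l : List (s ∪ -s : Set Γ) => (l.map Subtype.val).sum) ?_).trans mk_range_le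
  intro x hx
  have hx' : x ∈ (AddSubgroup.closure s).toAddSubmonoid := hx
  rw [AddSubgroup.closure_toAddSubmonoid] at hx'
  obtain ⟨l, hl, rfl⟩ := AddSubmonoid.exists_list_of_mem_closure hx'
  exact ⟨l.attachWith _ hl, by simp⟩

theorem mk_closed_le (Z : Type) [TopologicalSpace Z] [SecondCountableTopology Z] :
    #{K : Set Z // IsClosed K} ≤ 𝔠 := by
  let Φ : {K : Set Z // IsClosed K} → Set (TopologicalSpace.countableBasis Z) :=
    fun K => {b | Disjoint b.1 K.1}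
  have aux : ∀ K K', Φ K = Φ K' → K.1 ⊆ K'.1 := by
    intro K K' h x hx
    by_contra hx'
    obtain ⟨b, hb, h1, h2⟩ := (TopologicalSpace.isBasis_countableBasis Z).exists_subset_of_mem_open
      hx' K'.2.isOpen_compl
    have h3 : (⟨b, hb⟩ : TopologicalSpace.countableBasis Z) ∈ Φ K' :=
      disjoint_left.2 fun y hy => h2 hy
    rw [← h] at h3
    exact disjoint_left.1 h3 h1 hx
  have hΦ : Function.Injective Φ := fun K K' h =>
    Subtype.ext (Subset.antisymm (aux K K' h) (aux K' K h.symm))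
  refine (mk_le_of_injective hΦ).trans ?_
  rw [mk_set, ← two_power_aleph0]
  exact power_le_power_left two_ne_zero (TopologicalSpace.countable_countableBasis Z).le_aleph0

/-- the first ordinal of cardinality continuum, as a type -/
def W : Type := (𝔠 : Cardinal.{0}).ord.ToType

noncomputable instance : LinearOrder W := inferInstanceAs (LinearOrder (𝔠 : Cardinal.{0}).ord.ToType)
instance : WellFoundedLT W := inferInstanceAs (WellFoundedLT (𝔠 : Cardinal.{0}).ord.ToType)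

theorem mk_W : #W = 𝔠 := Cardinal.mk_ord_toType _

theorem mk_Iio (a : W) : #(Iio a) < 𝔠 := Cardinal.mk_Iio_toType_ord_lt a

theorem main (D : Set Γ) (hD : D.Countable) (P : Set Γ) (hP : IsCompact P) (hμ : 0 < μ P) :
    ∃ (x : W → Γ) (Y : W → Set Γ),
      (∀ w, x w ∉ AddSubgroup.closure (D ∪ ⋃ v < w, insert (x v) (Y v)) ∧
        ∀ y ∈ Y w, y ∉ AddSubgroup.closure (D ∪ ⋃ v < w, insert (x v) (Y v)) ∧
          y - x w ∉ AddSubgroup.closure (D ∪ ⋃ v < w, insert (x v) (Y v))) ∧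
      ∀ K : ℕ → Set (Γ × Γ), (∀ n, IsCompact (K n)) → ∑' n, μ (Prod.snd '' K n) < μ P →
        ∃ w, x w ∈ P ∧ ∀ n y, (x w, y) ∈ G (K n) → y ∈ Y w := by
  let I := {K : ℕ → Set (Γ × Γ) // (∀ n, IsCompact (K n)) ∧ ∑' n, μ (Prod.snd '' K n) < μ P}
  haveI : Nonempty I := ⟨⟨fun _ => ∅, fun _ => isCompact_empty, by simpa using hμ⟩⟩
  have hI : #I ≤ #W := by
    have h1 : Function.Injective fun (K : I) (n : ℕ) =>
        (⟨K.1 n, (K.2.1 n).isClosed⟩ : {K : Set (Γ × Γ) // IsClosed K}) := by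
      intro K K' h
      exact Subtype.ext (funext fun n => congrArg Subtype.val (congrFun h n))
    refine (mk_le_of_injective h1).trans ?_
    rw [mk_W, ← power_def, mk_nat, ← continuum_power_aleph0]
    exact power_le_power_right (mk_closed_le _)
  obtain ⟨j⟩ := (Cardinal.le_def _ _).1 hI
  let e : W → I := Function.invFun j
  have he : Function.Surjective e := Function.invFun_surjective j.injective
  let Y : W → Γ → Set Γ := fun w x => {y | ∃ n, (x, y) ∈ G ((e w).1 n)}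
  have hY : ∀ w x, (Y w x).Countable := fun w x => by
    have : Y w x = ⋃ n, {y | (x, y) ∈ G ((e w).1 n)} := by ext; simp [Y]
    rw [this]
    exact countable_iUnion fun n => Set.Subsingleton.countable fun c hc c' hc' =>
      (hc'.2 _ hc.1).1 rfl
  have step : ∀ (w : W) (ih : ∀ v, v < w → Γ), ∃ x ∈ P,
      x ∉ AddSubgroup.closure (D ∪ ⋃ v, ⋃ h : v < w, insert (ih v h) (Y v (ih v h))) ∧
      ∀ y ∈ Y w x, y ∉ AddSubgroup.closure (D ∪ ⋃ v, ⋃ h : v < w, insert (ih v h) (Y v (ih v h))) ∧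
        y - x ∉ AddSubgroup.closure (D ∪ ⋃ v, ⋃ h : v < w, insert (ih v h) (Y v (ih v h))) := by
    intro w ih
    have hc : #(D ∪ ⋃ v, ⋃ h : v < w, insert (ih v h) (Y v (ih v h)) : Set Γ) < 𝔠 := by
      refine (mk_union_le _ _).trans_lt
        (add_lt_of_lt aleph0_le_continuum (hD.le_aleph0.trans_lt aleph0_lt_continuum) ?_)
      have : (⋃ v, ⋃ h : v < w, insert (ih v h) (Y v (ih v h))) =
          ⋃ v : Iio w, insert (ih v v.2) (Y v (ih v v.2)) := by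
        rw [iUnion_coe_set]; rfl
      rw [this]
      refine (mk_iUnion_le _).trans_lt (mul_lt_of_lt aleph0_le_continuum (mk_Iio w) ?_)
      exact (ciSup_le' fun v => ((hY _ _).insert _).le_aleph0).trans_lt aleph0_lt_continuum
    obtain ⟨x, h1, h2, h3⟩ := key μ P hP (e w).1 (e w).2.1 (e w).2.2 _ (mk_closure_lt hc)
    exact ⟨x, h1, h2, fun y ⟨n, hy⟩ => h3 n y hy⟩
  choose F hF1 hF2 using step
  let x : W → Γ := (wellFounded_lt (α := W)).fix F
  have hx : ∀ w, x w = F w fun v _ => x v := fun w => WellFounded.fix_eq _ F w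
  refine ⟨x, fun w => Y w (x w), fun w => ?_, fun K h1 h2 => ?_⟩
  · have := hF2 w fun v _ => x v
    rwa [← hx w] at this
  · obtain ⟨w, hw⟩ := he ⟨K, h1, h2⟩
    refine ⟨w, hx w ▸ hF1 _ _, fun n y hy => ⟨n, ?_⟩⟩
    rw [hw]; exact hy

end Key

theorem real_set : ∃ S : Set ℝ, (0 : ℝ) ∈ S ∧ (∀ s ∈ S, ∀ q : ℚ, s + q ∈ S) ∧
    ∀ K : ℕ → Set (ℝ × ℝ), (∀ n, IsCompact (K n)) → ∑' n, volume (Prod.snd '' K n) < 1 →
      ∃ x ∈ S ∩ Icc 0 1, ∀ n y, (x, y) ∈ G (K n) → y ∉ S := by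
  obtain ⟨x, Y, h1, h2⟩ := main (volume : Measure ℝ) (range ((↑) : ℚ → ℝ)) (countable_range _)
    (Icc 0 1) isCompact_Icc (by simp)
  refine ⟨{s | ∃ q : ℚ, s = q ∨ ∃ w, s = x w + q}, ⟨0, Or.inl (by simp)⟩, ?_, fun K k1 k2 => ?_⟩
  · rintro s ⟨r, rfl | ⟨w, rfl⟩⟩ q
    · exact ⟨r + q, Or.inl (by simp)⟩
    · exact ⟨r + q, Or.inr ⟨w, by simp [add_assoc]⟩⟩
  obtain ⟨w, hw, hw'⟩ := h2 K k1 (by simpa using k2)
  refine ⟨x w, ⟨⟨0, Or.inr ⟨w, by simp⟩⟩, hw⟩, fun n y hy => ?_⟩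
  have hy' := hw' n y hy
  have hq : ∀ (u : W) (q : ℚ), (q : ℝ) ∈
      AddSubgroup.closure (range ((↑) : ℚ → ℝ) ∪ ⋃ v < u, insert (x v) (Y v)) :=
    fun u q => AddSubgroup.subset_closure (Or.inl ⟨q, rfl⟩)
  rintro ⟨q, rfl | ⟨v, rfl⟩⟩
  · exact ((h1 w).2 _ hy').1 (hq w q)
  rcases lt_trichotomy v w with h | rfl | h
  · exact ((h1 w).2 _ hy').1 (add_mem (AddSubgroup.subset_closure
      (Or.inr (mem_iUnion₂.2 ⟨v, h, Or.inl rfl⟩))) (hq w q))
  · exact ((h1 v).2 _ hy').2 (by simpa using hq v q)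
  · refine (h1 v).1 ?_
    have h3 : x v + q ∈
        AddSubgroup.closure (range ((↑) : ℚ → ℝ) ∪ ⋃ u < v, insert (x u) (Y u)) :=
      AddSubgroup.subset_closure (Or.inr (mem_iUnion₂.2 ⟨w, h, Or.inr hy'⟩))
    simpa using sub_mem h3 (hq v q)

end Pool.Agent.H31.Vd
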