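import Pool.Agent.H31.Vd

set_option autoImplicit false

open Set Topology Filter MeasureTheory

namespace Pool.Agent.H31.VdC
open Vd

/-- the Cantor group -/
abbrev C : Type := ℕ → ZMod 2

instance : MeasurableSpace C := borel C
instance : BorelSpace C := ⟨rfl⟩

instance : (𝓝[≠] (0 : C)).NeBot := by
  refine mem_closure_iff_nhdsWithin_neBot.1 (mem_closure_iff_seq_limit.2
    ⟨fun n => Pi.single n 1, fun n h => ?_, tendsto_pi_nhds.2 fun i => ?_⟩)
  · have := congrFun (mem_singleton_iff.1 h) n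
    simp at this
  · refine tendsto_const_nhds.congr' ?_
    filter_upwards [eventually_gt_atTop i] with n hn
    simp [Pi.single_apply, hn.ne]

/-- Haar measure -/
noncomputable def μ : Measure C := Measure.addHaar

instance : μ.IsAddHaarMeasure := inferInstanceAs (Measure.addHaar : Measure C).IsAddHaarMeasure

theorem add_self (x : C) : x + x = 0 := by
  funext i
  exact CharTwo.add_self_eq_zero (x i)

theorem exists_H : ∃ H : AddSubgroup C,
    ∀ K : ℕ → Set (C × C), (∀ n, IsCompact (K n)) → ∑' n, μ (Prod.snd '' K n) < μ univ →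
      ∃ x ∈ H, ∀ n y, (x, y) ∈ G (K n) → y ∉ H := by
  classical
  obtain ⟨x, Y, h1, h2⟩ := main μ ∅ countable_empty univ isCompact_univ
    (isOpen_univ.measure_pos μ univ_nonempty)
  refine ⟨AddSubgroup.closure (range x), fun K k1 k2 => ?_⟩
  obtain ⟨w, -, hw'⟩ := h2 K k1 k2
  refine ⟨x w, AddSubgroup.subset_closure (mem_range_self w), fun n y hy hH => ?_⟩
  have hy' := hw' n y hy
  have hsum : ∀ h ∈ AddSubgroup.closure (range x), ∃ T : Finset W, h = ∑ v ∈ T, x v := by
    intro h hh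
    induction hh using AddSubgroup.closure_induction with
    | mem z hz => obtain ⟨v, rfl⟩ := hz; exact ⟨{v}, by simp⟩
    | zero => exact ⟨∅, by simp⟩
    | add a b _ _ ha hb =>
      obtain ⟨T, rfl⟩ := ha
      obtain ⟨T', rfl⟩ := hb
      refine ⟨T \ T' ∪ T' \ T, ?_⟩
      rw [Finset.sum_union (Finset.disjoint_left.2 fun v h1 h2 =>
        (Finset.mem_sdiff.1 h2).2 (Finset.mem_sdiff.1 h1).1),
        ← Finset.sum_sdiff (Finset.inter_subset_left (s₁ := T) (s₂ := T')),
        ← Finset.sum_sdiff (Finset.inter_subset_right (s₁ := T) (s₂ := T')),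
        Finset.sdiff_inter_self_left, Finset.sdiff_inter_self_right, add_add_add_comm, add_self,
        add_zero]
    | neg a _ ha =>
      obtain ⟨T, rfl⟩ := ha
      exact ⟨T, neg_eq_of_add_eq_zero_left (add_self _)⟩
  obtain ⟨T, hT⟩ := hsum y hH
  have low : ∀ (u : W) (T : Finset W), (∀ v ∈ T, v < u) →
      ∑ v ∈ T, x v ∈ AddSubgroup.closure (∅ ∪ ⋃ v < u, insert (x v) (Y v)) := fun u T h =>
    sum_mem fun v hv => AddSubgroup.subset_closure
      (Or.inr (mem_iUnion₂.2 ⟨v, h v hv, Or.inl rfl⟩))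
  obtain ⟨g, hg, hmax⟩ := (insert w T).exists_max_image id (Finset.insert_nonempty w T)
  have hlow := low g (T.erase g) fun v hv => lt_of_le_of_ne
    (hmax v (Finset.mem_insert_of_mem (Finset.mem_of_mem_erase hv))) (Finset.ne_of_mem_erase hv)
  by_cases hgT : g ∈ T
  · rw [← Finset.add_sum_erase T x hgT] at hT
    rcases (show w ≤ g from hmax w (Finset.mem_insert_self _ _)).eq_or_lt with rfl | hlt
    · exact ((h1 w).2 y hy').2 (by rwa [hT, add_sub_cancel_left])
    · have h3 : y ∈ AddSubgroup.closure (∅ ∪ ⋃ v < g, insert (x v) (Y v)) :=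
        AddSubgroup.subset_closure (Or.inr (mem_iUnion₂.2 ⟨w, hlt, Or.inr hy'⟩))
      have h4 := sub_mem h3 hlow
      rw [hT, add_sub_cancel_right] at h4
      exact (h1 g).1 h4
  · obtain rfl : g = w := (Finset.mem_insert.1 hg).resolve_right hgT
    rw [Finset.erase_eq_of_notMem hgT, ← hT] at hlow
    exact ((h1 g).2 y hy').1 hlow

/-- the subgroup -/
noncomputable def H : AddSubgroup C := exists_H.choose

theorem H_spec (Y : ℕ → Set H) (hY : ⋃ n, Y n = univ) (f : ∀ n, Y n → H)
    (hf : ∀ n, IsInducing (f n)) (V : ℕ → Set C) (hV : ∀ n, IsClosed (V n))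
    (hfV : ∀ n t, (f n t : C) ∈ V n) : μ univ ≤ ∑' n, μ (V n) := by
  by_contra hcon
  obtain ⟨x, hx, hx'⟩ := exists_H.choose_spec
    (fun n => closure (range fun t : Y n => ((t.1 : C), (f n t : C))))
    (fun n => isClosed_closure.isCompact) (by
      refine lt_of_le_of_lt (ENNReal.tsum_le_tsum fun n => measure_mono ?_) (not_le.1 hcon)
      rw [image_subset_iff]
      refine closure_minimal ?_ ((hV n).preimage continuous_snd)
      rintro _ ⟨t, rfl⟩
      exact hfV n t)
  obtain ⟨n, hn⟩ := mem_iUnion.1 (hY ▸ mem_univ (⟨x, hx⟩ : H))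
  exact hx' n _ (graph_mem (a := fun t : Y n => (t.1 : C)) (b := fun t => (f n t : C))
    (IsInducing.subtypeVal.comp IsInducing.subtypeVal) (IsInducing.subtypeVal.comp (hf n))
    ⟨⟨x, hx⟩, hn⟩) (f n _).2

theorem basisC : TopologicalSpace.IsTopologicalBasis {s : Set C | IsClopen s} :=
  isTopologicalBasis_isClopen

theorem basisH : TopologicalSpace.IsTopologicalBasis {s : Set H | IsClopen s} := by
  refine TopologicalSpace.isTopologicalBasis_of_isOpen_of_nhds (fun u hu => hu.isOpen) ?_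
  intro a u ha hu
  obtain ⟨v, hv, rfl⟩ := isOpen_induced_iff.1 hu
  obtain ⟨b, hb, h1, h2⟩ := basisC.exists_subset_of_mem_open ha hv
  exact ⟨Subtype.val ⁻¹' b, hb.preimage continuous_subtype_val, h1, preimage_mono h2⟩

instance : SecondCountableTopology H :=
  TopologicalSpace.Subtype.secondCountableTopology (H : Set C)

theorem homog (x y : H) : ∃ h : H ≃ₜ H, h x = y := ⟨Homeomorph.addRight (y - x), by simp⟩

/-- an embedding of `H` in itself has dense range -/
theorem dense_range (f : H → H) (hf : IsInducing f) (N : Set C) (hN : IsOpen N)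
    (hne : N.Nonempty) : ∃ t, (f t : C) ∈ N := by
  by_contra hcon
  push Not at hcon
  have := H_spec (fun n => {_t | n = 0}) (eq_univ_of_forall fun t => mem_iUnion.2 ⟨0, rfl⟩)
    (fun n t => f t) (fun n => hf.comp IsInducing.subtypeVal) (fun n => {c | n = 0 ∧ c ∈ Nᶜ})
    (fun n => isClosed_const.and hN.isClosed_compl) fun n t => ⟨t.2, hcon t⟩
  rw [tsum_eq_single 0 (fun n hn => by simp [hn])] at this
  simp only [true_and, setOf_mem_eq] at this
  have h2 := measure_add_measure_compl (μ := μ) hN.measurableSet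
  have h3 := ENNReal.lt_add_right (measure_ne_top μ Nᶜ) (hN.measure_pos μ hne).ne'
  rw [add_comm, h2] at h3
  exact absurd this (not_le.2 h3)

theorem surj_of_section (f r : H → H) (hf : Continuous f) (hr : Continuous r)
    (h : Function.LeftInverse r f) : Function.Surjective f := by
  have hc : IsClosed (range f) := h.isClosed_range hr hf
  intro y
  by_contra hy
  obtain ⟨v, hv, hv'⟩ := isOpen_induced_iff.1 hc.isOpen_compl
  have hyv : y ∈ Subtype.val ⁻¹' v := hv' ▸ hy
  obtain ⟨t, ht⟩ := dense_range f (h.isEmbedding hr hf).isInducing v hv ⟨_, hyv⟩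
  have : f t ∈ (range f)ᶜ := hv' ▸ ht
  exact this (mem_range_self t)

theorem infinite_H : {e : H | (e : C) 0 = 1}.Infinite := by
  intro hfin
  have h1 : IsOpen ({c : C | c 0 = 1} \ Subtype.val '' {e : H | (e : C) 0 = 1}) :=
    ((isOpen_discrete {1}).preimage (continuous_apply 0)).sdiff (hfin.image _).isClosed
  have h2 : ({c : C | c 0 = 1} \ Subtype.val '' {e : H | (e : C) 0 = 1}).Nonempty := by
    apply nonempty_of_measure_ne_zero (μ := μ)
    rw [measure_sdiff_null ((hfin.image _).measure_zero μ)]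
    exact (((isOpen_discrete {1}).preimage (continuous_apply 0)).measure_pos μ
      ⟨fun _ => 1, rfl⟩).ne'
  obtain ⟨t, ht⟩ := dense_range id IsInducing.id _ h1 h2
  exact ht.2 ⟨t, ht.1, rfl⟩

/-- every finite set can be moved off the half `x 0 = 0` -/
theorem move (D : Set H) (hD : D.Finite) :
    ∃ g : H → H, Continuous g ∧ Function.LeftInverse g g ∧ ∀ d ∈ D, (g d : C) 0 = 1 := by
  classical
  obtain ⟨e, he, he'⟩ := infinite_H.exists_notMem_finite (hD.image2 (· + ·) hD)
  have ee : ∀ x : H, x + e + e = x := fun x => by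
    rw [add_assoc, show e + e = 0 from Subtype.ext (add_self _), add_zero]
  set A : Set H := {d ∈ D | (d : C) 0 = 0} with hA
  set B : Set H := {d ∈ D | (d : C) 0 = 1} with hB
  have z2 : ∀ z : ZMod 2, z = 0 ∨ z = 1 := by decide
  have hne : ∀ a ∈ A, ∀ b ∈ B, a ≠ b ∧ a + e ≠ b := by
    intro a ha b hb
    refine ⟨fun h => ?_, fun h => he' ⟨a, ha.1, b, hb.1, ?_⟩⟩
    · have := ha.2.symm.trans (h ▸ hb.2)
      exact absurd this (by decide)
    · show a + b = e
      rw [← h, ← add_assoc, show a + a = 0 from Subtype.ext (add_self _), zero_add]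
  have hB' : IsOpen (B ∪ (· + e) ⁻¹' B)ᶜ := by
    have : B.Finite := hD.subset fun _ h => h.1
    exact (this.union (this.preimage (add_left_injective e).injOn)).isClosed.isOpen_compl
  have hsep : ∀ a ∈ A, ∃ N : Set H, IsClopen N ∧ a ∈ N ∧ N ⊆ (B ∪ (· + e) ⁻¹' B)ᶜ := by
    intro a ha
    refine basisH.exists_subset_of_mem_open ?_ hB'
    rintro (h | h)
    · exact (hne a ha a h).1 rfl
    · exact (hne a ha _ h).2 rfl
  choose! N n1 n2 n3 using hsep
  have hAf : A.Finite := hD.subset fun _ h => h.1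
  set M : Set H := ⋃ a ∈ A, N a with hM
  have hMc : IsClopen M := hAf.isClopen_biUnion n1
  set M' : Set H := M ∪ (· + e) ⁻¹' M with hM'
  have hM'c : IsClopen M' := hMc.union (hMc.preimage (by fun_prop))
  have inv : ∀ x, x + e ∈ M' ↔ x ∈ M' := fun x => by
    simp only [hM', mem_union, mem_preimage, ee, or_comm]
  refine ⟨fun x => if x ∈ M' then x + e else x, ?_, fun x => ?_, fun d hd => ?_⟩
  · exact Continuous.if (by
      intro a ha
      rw [show {x | x ∈ M'} = M' from rfl, hM'c.frontier_eq] at ha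
      exact ha.elim) (by fun_prop) continuous_id
  · by_cases h : x ∈ M'
    · simp only [h, if_true, inv, ee]
    · simp only [h, if_false]
  · rcases z2 ((d : C) 0) with h | h
    · have : d ∈ M' := Or.inl (mem_biUnion (s := A) ⟨hd, h⟩ (n2 d ⟨hd, h⟩))
      simp only [this, if_true]
      show (d : C) 0 + (e : C) 0 = 1
      rw [h, show (e : C) 0 = 1 from he, zero_add]
    · have : d ∉ M' := by
        rintro (h' | h')
        · obtain ⟨a, ha, h''⟩ := mem_iUnion₂.1 h'
          exact n3 a ha h'' (Or.inl ⟨hd, h⟩)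
        · obtain ⟨a, ha, h''⟩ := mem_iUnion₂.1 h'
          refine n3 a ha h'' (Or.inr ?_)
          show d + e + e ∈ B
          rw [ee]; exact ⟨hd, h⟩
      simp only [this, if_false, h]

theorem not_right_bounded : ∃ U ∈ 𝓝 (id : H → H), ∀ F : Set (H → H), F.Finite →
    (∀ f ∈ F, Continuous f) → ∃ g : H → H, Continuous g ∧
      ∀ u ∈ U, Continuous u → ∀ f ∈ F, g ≠ u ∘ f := by
  refine ⟨{u | (u 0 : C) 0 = 0}, ?_, fun F hF hc => ?_⟩
  · refine IsOpen.mem_nhds ?_ rfl
    exact (isOpen_discrete {0}).preimage (f := fun u : H → H => (u 0 : C) 0)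
      ((continuous_apply 0).comp (continuous_subtype_val.comp (continuous_apply 0)))
  obtain ⟨g, g1, g2, g3⟩ := move _ (hF.image fun f => Function.invFun f 0)
  refine ⟨g, g1, fun u hu hu' f hf e => ?_⟩
  have hs := surj_of_section f (g ∘ u) (hc f hf) (g1.comp hu') fun x => by
    have := g2 x
    rwa [show g x = u (f x) from congrFun e x] at this
  have h1 := g3 _ ⟨f, hf, rfl⟩
  rw [e] at h1
  simp only [Function.comp, Function.invFun_eq (hs 0)] at h1
  exact absurd ((show (u 0 : C) 0 = 0 from hu).symm.trans h1) (by decide)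

theorem dim_zero (n : ℕ) (U : Fin n → Set H) (hU : ∀ i, IsOpen (U i)) (hc : ⋃ i, U i = univ) :
    ∃ V : Fin n → Set H, (∀ i, IsOpen (V i) ∧ V i ⊆ U i) ∧ ⋃ i, V i = univ ∧
      Pairwise (Function.onFun Disjoint V) := by
  classical
  have h1 : ∀ x : H, ∃ i N, IsClopen N ∧ x ∈ N ∧ N ⊆ U i := fun x => by
    obtain ⟨i, hi⟩ := mem_iUnion.1 (hc ▸ mem_univ x)
    exact ⟨i, basisH.exists_subset_of_mem_open hi (hU i)⟩
  choose j N n1 n2 n3 using h1
  obtain ⟨s, hs, hs'⟩ := TopologicalSpace.countable_cover_nhds fun x => (n1 x).isOpen.mem_nhds (n2 x)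
  obtain ⟨a, rfl⟩ := hs.exists_eq_range (by
    obtain ⟨x, hx, -⟩ := mem_iUnion₂.1 (hs' ▸ mem_univ (0 : H))
    exact ⟨x, hx⟩)
  have hex : ∀ x : H, ∃ k, x ∈ N (a k) := fun x => by
    obtain ⟨_, ⟨k, rfl⟩, h⟩ := mem_iUnion₂.1 (hs' ▸ mem_univ x)
    exact ⟨k, h⟩
  refine ⟨fun i => {x | j (a (Nat.find (hex x))) = i}, fun i => ⟨?_, fun x hx => ?_⟩,
    eq_univ_of_forall fun x => mem_iUnion.2 ⟨_, rfl⟩, fun i i' h => disjoint_left.2
      fun x h1 h2 => h (h1.symm.trans h2)⟩
  · refine isOpen_iff_mem_nhds.2 fun x hx => ?_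
    have o : IsOpen (N (a (Nat.find (hex x))) ∩ ⋂ m ∈ Iio (Nat.find (hex x)), (N (a m))ᶜ) :=
      (n1 _).isOpen.inter ((finite_Iio _).isOpen_biInter fun m _ => (n1 _).compl.isOpen)
    refine mem_of_superset (o.mem_nhds ⟨Nat.find_spec (hex x),
      mem_iInter₂.2 fun m hm => Nat.find_min (hex x) hm⟩) fun y hy => ?_
    have : Nat.find (hex y) = Nat.find (hex x) :=
      (Nat.find_eq_iff _).2 ⟨hy.1, fun m hm => mem_iInter₂.1 hy.2 m hm⟩
    show j (a (Nat.find (hex y))) = i
    rw [this]; exact hx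
  · rw [← show j (a (Nat.find (hex x))) = i from hx]
    exact n3 _ (Nat.find_spec (hex x))

theorem not_sigma_strong (Y : ℕ → Set H) (hY : ⋃ n, Y n = univ)
    (h : ∀ n, ∀ U : Set (Y n), IsClopen U → U.Nonempty → Nonempty (U ≃ₜ Y n)) : False := by
  have hpos : μ univ ≠ 0 := (isOpen_univ.measure_pos μ univ_nonempty).ne'
  obtain ⟨ε, hε, hε'⟩ := ENNReal.exists_pos_sum_of_countable' hpos ℕ
  have : ∀ n, ∃ (f : Y n → H) (V : Set C), IsInducing f ∧ IsClosed V ∧ (∀ t, (f t : C) ∈ V) ∧
      μ V ≤ ε n := by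
    intro n
    rcases isEmpty_or_nonempty (Y n) with he | ⟨⟨y⟩⟩
    · exact ⟨Subtype.val, ∅, IsInducing.subtypeVal, isClosed_empty, fun t => he.elim t, by simp⟩
    obtain ⟨O, h1, h2, h3⟩ := Set.exists_isOpen_lt_of_lt (μ := μ) {(y.1 : C)} (ε n)
      (by rw [measure_singleton]; exact hε n)
    obtain ⟨V, v1, v2, v3⟩ := basisC.exists_subset_of_mem_open (h1 rfl) h2
    obtain ⟨φ⟩ := h n ((fun t : Y n => (t.1 : C)) ⁻¹' V) (v1.preimage (by fun_prop)) ⟨y, v2⟩
    exact ⟨fun t => (φ.symm t).1.1, V,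
      IsInducing.subtypeVal.comp (IsInducing.subtypeVal.comp φ.symm.isInducing), v1.isClosed,
      fun t => (φ.symm t).2, ((measure_mono v3).trans_lt h3).le⟩
  choose f V h1 h2 h3 h4 using this
  exact absurd ((H_spec Y hY f h1 V h2 h3).trans (ENNReal.tsum_le_tsum h4)) (not_le.2 hε')

end Pool.Agent.H31.VdC
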