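import Pool.Agent.H31.Vd

set_option autoImplicit false

open Set Topology Filter MeasureTheory

namespace Pool.Agent.H31.VdX
open Vd

section General
variable {Z : Type} [TopologicalSpace Z]

theorem glue2 {A A' B B' : Set Z} [∀ j, Decidable (j ∈ A)] {φ φ' : Z → Z} (hA : IsClosed A)
    (hA' : IsClosed A') (hd : Disjoint A A') (hd' : Disjoint B B') (c : ContinuousOn φ A)
    (c' : ContinuousOn φ' A') (b : BijOn φ A B) (b' : BijOn φ' A' B') :
    ContinuousOn (A.piecewise φ φ') (A ∪ A') ∧ BijOn (A.piecewise φ φ') (A ∪ A') (B ∪ B') := by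
  have e1 : EqOn (A.piecewise φ φ') φ A := piecewise_eqOn A φ φ'
  have e2 : EqOn (A.piecewise φ φ') φ' A' := fun x hx =>
    piecewise_eq_of_notMem A φ φ' (disjoint_right.1 hd hx)
  refine ⟨(c.congr e1).union_of_isClosed (c'.congr e2) hA hA',
    (b.congr e1.symm).union (b'.congr e2.symm) ?_⟩
  rintro x (hx | hx) y (hy | hy) h
  · exact (b.congr e1.symm).injOn hx hy h
  · rw [e1 hx, e2 hy] at h
    exact (disjoint_left.1 hd' (b.mapsTo hx) (h ▸ b'.mapsTo hy)).elim
  · rw [e2 hx, e1 hy] at h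
    exact (disjoint_left.1 hd' (b.mapsTo hy) (h ▸ b'.mapsTo hx)).elim
  · exact (b'.congr e2.symm).injOn hx hy h

/-- `B` is a continuous one-to-one image of `A` -/
def E (A B : Set Z) : Prop := ∃ φ : Z → Z, ContinuousOn φ A ∧ BijOn φ A B

theorem E.refl (A : Set Z) : E A A := ⟨id, continuousOn_id, bijOn_id A⟩

theorem E.trans {A B C : Set Z} (h : E A B) (h' : E B C) : E A C :=
  let ⟨_, c, b⟩ := h
  let ⟨_, c', b'⟩ := h'
  ⟨_, c'.comp c b.mapsTo, b'.comp b⟩

theorem E.union {A A' B B' : Set Z} (hA : IsClosed A) (hA' : IsClosed A') (hd : Disjoint A A')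
    (hd' : Disjoint B B') (h : E A B) (h' : E A' B') : E (A ∪ A') (B ∪ B') := by
  classical
  obtain ⟨φ, c, b⟩ := h
  obtain ⟨φ', c', b'⟩ := h'
  exact ⟨_, glue2 hA hA' hd hd' c c' b b'⟩

theorem E.symm [T2Space Z] [Nonempty Z] {A B : Set Z} (hA : IsCompact A) (h : E A B) : E B A := by
  obtain ⟨φ, c, b⟩ := h
  refine ⟨Function.invFunOn φ A, continuousOn_iff_isClosed.2 fun t ht =>
    ⟨φ '' (A ∩ t), ((hA.inter_right ht).image_of_continuousOn
      (c.mono inter_subset_left)).isClosed, ?_⟩, b.symm b.invOn_invFunOn.symm⟩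
  ext y
  constructor
  · rintro ⟨h1, h2⟩
    exact ⟨⟨_, ⟨b.surjOn.mapsTo_invFunOn h2, h1⟩, b.invOn_invFunOn.2 h2⟩, h2⟩
  · rintro ⟨⟨x, ⟨h1, h2⟩, rfl⟩, h3⟩
    refine ⟨?_, h3⟩
    show Function.invFunOn φ A (φ x) ∈ t
    rwa [b.invOn_invFunOn.1 h1]

theorem small [CompactSpace Z] {V : ℕ → Set Z} (hV : ∀ k, IsClosed (V k)) (aV : Antitone V) {q : Z}
    (hq : ⋂ k, V k = {q}) {O : Set Z} (hO : O ∈ 𝓝 q) : ∃ k, V k ⊆ O :=
  exists_subset_nhds_of_compactSpace aV.directed_ge hV (by rw [hq]; simpa using hO)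

theorem glueSeq [CompactSpace Z] {U V : ℕ → Set Z} (hU : ∀ k, IsClopen (U k))
    (hV : ∀ k, IsClopen (V k)) (aU : Antitone U) (aV : Antitone V) {p q : Z}
    (hp : ⋂ k, U k = {p}) (hq : ⋂ k, V k = {q})
    (h : ∀ k, E (U k \ U (k + 1)) (V k \ V (k + 1))) :
    ∃ φ : Z → Z, ContinuousOn φ (U 0) ∧ BijOn φ (U 0) (V 0) ∧ φ p = q := by
  classical
  choose f c b using h
  have lev : ∀ {U : ℕ → Set Z} {p : Z}, Antitone U → ⋂ k, U k = {p} → ∀ j, ∀ z ∈ U j,
      z = p ∨ ∃ k, j ≤ k ∧ z ∈ U k \ U (k + 1) := by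
    intro U p aU hp j z hz
    by_contra hcon
    push Not at hcon
    have h1 : ∀ k, j ≤ k → z ∈ U k := fun k hk => by
      induction k, hk using Nat.le_induction with
      | base => exact hz
      | succ k hk ih => by_contra h'; exact hcon.2 k hk ⟨ih, h'⟩
    exact hcon.1 (hp.subset (mem_iInter.2 fun k => aU (le_max_left k j) (h1 _ (le_max_right k j))))
  have uniq : ∀ {U : ℕ → Set Z}, Antitone U → ∀ {z : Z} {k l : ℕ}, z ∈ U k \ U (k + 1) →
      z ∈ U l \ U (l + 1) → k = l := by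
    intro U aU z k l h1 h2
    rcases lt_trichotomy k l with h | h | h
    · exact (h1.2 (aU (Nat.succ_le_of_lt h) h2.1)).elim
    · exact h
    · exact (h2.2 (aU (Nat.succ_le_of_lt h) h1.1)).elim
  have pU : ∀ k, p ∈ U k := fun k => mem_iInter.1 (hp.symm.subset rfl) k
  have qV : ∀ k, q ∈ V k := fun k => mem_iInter.1 (hq.symm.subset rfl) k
  obtain ⟨φ, e0, e1⟩ : ∃ φ : Z → Z, φ p = q ∧ ∀ k, EqOn φ (f k) (U k \ U (k + 1)) := by
    refine ⟨fun z => if h : ∃ k, z ∈ U k \ U (k + 1) then f h.choose z else q,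
      dif_neg fun ⟨k, hk⟩ => hk.2 (pU _), fun k z hz => ?_⟩
    have h : ∃ k, z ∈ U k \ U (k + 1) := ⟨k, hz⟩
    simp only [dif_pos h]
    rw [uniq aU h.choose_spec hz]
  have mp : ∀ j, MapsTo φ (U j) (V j) := fun j z hz => by
    rcases lev aU hp j z hz with rfl | ⟨k, h1, h2⟩
    · rw [e0]; exact qV j
    · rw [e1 k h2]; exact aV h1 ((b k).mapsTo h2).1
  refine ⟨φ, fun z hz => ContinuousAt.continuousWithinAt ?_, ⟨mp 0, ?_, fun y hy => ?_⟩, e0⟩
  · rcases lev aU hp 0 z hz with rfl | ⟨k, -, h2⟩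
    · intro O hO
      rw [e0] at hO
      obtain ⟨k, hk⟩ := small (fun k => (hV k).isClosed) aV hq hO
      exact mem_map.2 (mem_of_superset ((hU k).isOpen.mem_nhds (pU k)) fun w hw => hk (mp k hw))
    · exact ((c k).congr (e1 k)).continuousAt (((hU k).diff (hU (k + 1))).isOpen.mem_nhds h2)
  · intro z hz w hw e
    rcases lev aU hp 0 z hz with h1 | ⟨k, -, h1⟩ <;> rcases lev aU hp 0 w hw with h2 | ⟨l, -, h2⟩
    · rw [h1, h2]
    · rw [h1, e0, e1 l h2] at e
      exact (((b l).mapsTo h2).2 (e ▸ qV _)).elim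
    · rw [h2, e0, e1 k h1] at e
      exact (((b k).mapsTo h1).2 (e ▸ qV _)).elim
    · rw [e1 k h1, e1 l h2] at e
      obtain rfl := uniq aV ((b k).mapsTo h1) (e ▸ (b l).mapsTo h2)
      exact (b k).injOn h1 h2 e
  · rcases lev aV hq 0 y hy with rfl | ⟨k, -, h2⟩
    · exact ⟨p, pU 0, e0⟩
    · obtain ⟨z, h3, h4⟩ := (b k).surjOn h2
      exact ⟨z, aU (Nat.zero_le k) h3.1, (e1 k h3).trans h4⟩

end General

/-- the set of split points -/
def S : Set ℝ := real_set.choose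

theorem S_add (s : ℝ) (hs : s ∈ S) (q : ℚ) : s + q ∈ S := real_set.choose_spec.2.1 s hs q

/-- the origin -/
def o : S := ⟨0, real_set.choose_spec.1⟩

/-- rational shift -/
def sh (q : ℚ) (s : S) : S := ⟨s + q, S_add s s.2 q⟩

theorem sh_val (q : ℚ) (s : S) : (sh q s : ℝ) = s + q := rfl
theorem o_val : (o : ℝ) = 0 := rfl

theorem sh_sh (q r : ℚ) (s : S) : sh q (sh r s) = sh (r + q) s :=
  Subtype.ext (by simp [sh_val, add_assoc])

theorem sh_zero (s : S) : sh 0 s = s := Subtype.ext (by simp [sh_val])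

theorem exists_btwn {a b : ℝ} (h : a < b) : ∃ s : S, a < s ∧ (s : ℝ) < b := by
  obtain ⟨q, h1, h2⟩ := exists_rat_btwn h
  exact ⟨sh q o, by simpa [sh_val, o_val] using h1, by simpa [sh_val, o_val] using h2⟩

/-- cuts of `S` -/
abbrev Xb : Type := {f : S → Bool // ∀ s t : S, (s : ℝ) ≤ t → f t = true → f s = true}

instance : CompactSpace Xb := by
  refine isCompact_iff_compactSpace.1 (IsClosed.isCompact ?_)
  show IsClosed {f : S → Bool | ∀ s t : S, (s : ℝ) ≤ t → f t = true → f s = true}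
  simp only [setOf_forall]
  refine isClosed_iInter fun s => isClosed_iInter fun t => isClosed_iInter fun _ => ?_
  exact (isClosed_discrete {b : Bool × Bool | b.1 = true → b.2 = true}).preimage
    (f := fun f : S → Bool => (f t, f s)) (by fun_prop)

theorem cont_ev (s : S) : Continuous fun f : Xb => f.1 s :=
  (continuous_apply s).comp continuous_subtype_val

theorem anti (f : Xb) {s t : S} (h : (s : ℝ) ≤ t) (hs : f.1 s = false) : f.1 t = false := by
  by_contra h'
  rw [f.2 s t h (by simpa using h')] at hs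
  exact absurd hs (by decide)

theorem lt_of (f : Xb) {s t : S} (hs : f.1 s = true) (ht : f.1 t = false) : (s : ℝ) < t := by
  by_contra h
  rw [f.2 t s (not_lt.1 h) hs] at ht
  exact absurd ht (by decide)

/-- the clopen interval from `a+` to `b-` -/
def I (a b : S) : Set Xb := {f | f.1 a = true ∧ f.1 b = false}

theorem I_clopen (a b : S) : IsClopen (I a b) :=
  ((isClopen_discrete {true}).preimage (cont_ev a)).inter
    ((isClopen_discrete {false}).preimage (cont_ev b))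

theorem I_split {a b c : S} (h1 : (a : ℝ) ≤ b) (h2 : (b : ℝ) ≤ c) : I a c = I a b ∪ I b c := by
  ext f
  constructor
  · rintro ⟨h3, h4⟩
    cases h : f.1 b
    · exact Or.inl ⟨h3, h⟩
    · exact Or.inr ⟨h, h4⟩
  · rintro (⟨h3, h4⟩ | ⟨h3, h4⟩)
    · exact ⟨h3, anti f h2 h4⟩
    · exact ⟨f.2 _ _ h1 h3, h4⟩

theorem I_disj (a b c : S) : Disjoint (I a b) (I b c) :=
  disjoint_left.2 fun _ h1 h2 => absurd (h1.2.symm.trans h2.1) (by decide)

/-- translation of cuts -/
def tr (q : ℚ) (f : Xb) : Xb :=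
  ⟨fun s => f.1 (sh (-q) s), fun s t h => f.2 _ _ (by simpa [sh_val] using h)⟩

theorem tr_tr (q : ℚ) (f : Xb) : tr (-q) (tr q f) = f :=
  Subtype.ext (funext fun s => by simp [tr, sh_sh, sh_zero])

theorem E_tr (q : ℚ) (a b : S) : E (I a b) (I (sh q a) (sh q b)) := by
  refine ⟨tr q, Continuous.continuousOn (Continuous.subtype_mk
    (continuous_pi fun s => cont_ev _) _), fun f hf => ?_, fun f _ g _ h => ?_, fun g hg => ?_⟩
  · simpa [I, tr, sh_sh, sh_zero] using hf
  · rw [← tr_tr q f, h, tr_tr]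
  · refine ⟨tr (-q) g, by simpa [I, tr] using hg, ?_⟩
    simpa using tr_tr (-q) g

theorem E_len {l : ℚ} (hl : 0 < l) (a c : S) : E (I a (sh l a)) (I c (sh l c)) := by
  have hl' : (0 : ℝ) < l := by exact_mod_cast hl
  obtain ⟨r, h1, h2⟩ := exists_rat_btwn (show (a : ℝ) - c < a + l - c by linarith)
  have e1 : (a : ℝ) ≤ sh r c := by rw [sh_val]; linarith
  have e2 : (sh r c : ℝ) ≤ sh l a := by simp only [sh_val]; linarith
  have e3 : (sh l a : ℝ) ≤ sh l (sh r c) := by simp only [sh_val]; linarith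
  have h3 : E (I a (sh l a)) (I (sh r c) (sh l (sh r c))) := by
    rw [I_split e1 e2, I_split e2 e3, union_comm (I (sh r c) (sh l a))]
    exact E.union (I_clopen _ _).isClosed (I_clopen _ _).isClosed (I_disj _ _ _)
      (I_disj _ _ _).symm (E_tr l _ _) (E.refl _)
  have h4 := E_tr (-r) (sh r c) (sh l (sh r c))
  simp only [sh_sh, add_neg_cancel, sh_zero, show r + l + -r = l by ring] at h4
  simp only [sh_sh] at h3
  exact h3.trans h4

/-- lengths -/
def d (k : ℕ) : ℚ := (1 / 2) ^ k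

theorem d_pos (k : ℕ) : 0 < d k := by unfold d; positivity
theorem d_pos' (k : ℕ) : (0 : ℝ) < d k := by exact_mod_cast d_pos k
theorem d_succ (k : ℕ) : d (k + 1) + d (k + 1) = d k := by unfold d; ring
theorem d_succ' (k : ℕ) : (d (k + 1) : ℝ) + d (k + 1) = d k := by exact_mod_cast d_succ k
theorem d_small {ε : ℝ} (h : 0 < ε) : ∃ k, (d k : ℝ) < ε := by
  obtain ⟨k, hk⟩ := exists_pow_lt_of_lt_one h (show (1 / 2 : ℝ) < 1 by norm_num)
  exact ⟨k, by simpa [d] using hk⟩

/-- the space -/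
def X0 : Set Xb := I o (sh 1 o)

theorem chain (p : Xb) (hp : p ∈ X0) : ∃ a : ℕ → S, (∀ k, p ∈ I (a k) (sh (d k) (a k))) ∧
    (∀ k, a (k + 1) = a k ∨ a (k + 1) = sh (d (k + 1)) (a k)) ∧
    ∀ s : S, ∃ k, (s : ℝ) ≤ a k ∨ (a k : ℝ) + d k ≤ s := by
  classical
  by_cases h : ∃ s : S, ∀ t : S, ((t : ℝ) < s → p.1 t = true) ∧ ((s : ℝ) < t → p.1 t = false)
  · obtain ⟨s, hs⟩ := h
    cases e : p.1 s
    · refine ⟨fun k => sh (-d k) s, fun k => ⟨(hs _).1 ?_, ?_⟩, fun k => Or.inr ?_, fun t => ?_⟩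
      · simp only [sh_val]; push_cast; linarith [d_pos' k]
      · simpa [sh_sh, sh_zero] using e
      · simp only [sh_sh]; congr 1; linarith [d_succ k]
      · rcases lt_or_ge (t : ℝ) s with h | h
        · obtain ⟨k, hk⟩ := d_small (sub_pos.2 h)
          exact ⟨k, Or.inl (by simp only [sh_val]; push_cast; linarith)⟩
        · exact ⟨0, Or.inr (by simp only [sh_val]; push_cast; linarith)⟩
    · refine ⟨fun _ => s, fun k => ⟨e, (hs _).2 ?_⟩, fun k => Or.inl rfl, fun t => ?_⟩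
      · simp only [sh_val]; linarith [d_pos' k]
      · rcases le_or_gt (t : ℝ) s with h | h
        · exact ⟨0, Or.inl h⟩
        · obtain ⟨k, hk⟩ := d_small (sub_pos.2 h)
          exact ⟨k, Or.inr (by linarith)⟩
  · obtain ⟨a, a0, as⟩ : ∃ a : ℕ → S, a 0 = o ∧ ∀ k, a (k + 1) =
        if p.1 (sh (d (k + 1)) (a k)) = true then sh (d (k + 1)) (a k) else a k :=
      ⟨fun n => Nat.rec (motive := fun _ => S) o (fun k x =>
        if p.1 (sh (d (k + 1)) x) = true then sh (d (k + 1)) x else x) n, rfl, fun _ => rfl⟩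
    have h1 : ∀ k, p ∈ I (a k) (sh (d k) (a k)) := fun k => by
      induction k with
      | zero => rw [a0]; simpa [d, X0] using hp
      | succ k ih =>
        rw [as]
        split_ifs with e
        · exact ⟨e, by rw [sh_sh, d_succ]; exact ih.2⟩
        · exact ⟨ih.1, by simpa using e⟩
    refine ⟨a, h1, fun k => ?_, fun s => ?_⟩
    · rw [as]
      split_ifs
      · exact Or.inr rfl
      · exact Or.inl rfl
    · by_contra hcon
      push Not at hcon
      refine h ⟨s, fun t => ⟨fun ht => ?_, fun ht => ?_⟩⟩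
      · obtain ⟨k, hk⟩ := d_small (sub_pos.2 ht)
        exact p.2 _ _ (by linarith [(hcon k).2]) (h1 k).1
      · obtain ⟨k, hk⟩ := d_small (sub_pos.2 ht)
        exact anti p (by simp only [sh_val]; linarith [(hcon k).1]) (h1 k).2

theorem base (p : Xb) (hp : p ∈ X0) : ∃ U : ℕ → Set Xb, Antitone U ∧ ⋂ k, U k = {p} ∧
    (∀ k, ∃ a, U k = I a (sh (d k) a)) ∧ ∀ k, ∃ c, U k \ U (k + 1) = I c (sh (d (k + 1)) c) := by
  obtain ⟨a, h1, h2, h3⟩ := chain p hp
  have sp : ∀ k, I (a k) (sh (d k) (a k)) = I (a k) (sh (d (k + 1)) (a k)) ∪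
      I (sh (d (k + 1)) (a k)) (sh (d (k + 1)) (sh (d (k + 1)) (a k))) := fun k => by
    rw [sh_sh, d_succ]
    exact I_split (by simp only [sh_val]; linarith [d_pos' (k + 1)])
      (by simp only [sh_val]; linarith [d_pos' (k + 1), d_succ' k])
  refine ⟨fun k => I (a k) (sh (d k) (a k)), antitone_nat_of_succ_le fun k => ?_, ?_,
    fun k => ⟨_, rfl⟩, fun k => ?_⟩
  · show I (a (k + 1)) (sh (d (k + 1)) (a (k + 1))) ⊆ I (a k) (sh (d k) (a k))
    rw [sp k]
    rcases h2 k with e | e <;> rw [e]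
    · exact subset_union_left
    · exact subset_union_right
  · refine Subset.antisymm (fun g hg => Subtype.ext (funext fun s => ?_))
      (singleton_subset_iff.2 (mem_iInter.2 h1))
    obtain ⟨k, h | h⟩ := h3 s
    · rw [g.2 _ _ h (mem_iInter.1 hg k).1, p.2 _ _ h (h1 k).1]
    · rw [anti g h (mem_iInter.1 hg k).2, anti p h (h1 k).2]
  · show ∃ c, I (a k) (sh (d k) (a k)) \ I (a (k + 1)) (sh (d (k + 1)) (a (k + 1))) = _
    rw [sp k]
    rcases h2 k with e | e <;> rw [e]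
    · exact ⟨_, union_sdiff_cancel_left (I_disj _ _ _).le_bot⟩
    · exact ⟨_, union_sdiff_cancel_right (I_disj _ _ _).le_bot⟩

instance : Nonempty Xb := ⟨⟨fun _ => true, fun _ _ _ h => h⟩⟩

theorem swap {p q : Xb} (hp : p ∈ X0) (hq : q ∈ X0) (hne : p ≠ q) {O : Set Xb} (hO : IsOpen O)
    (hpO : p ∈ O) (hqO : q ∈ O) : ∃ φ : Xb → Xb, ContinuousOn φ X0 ∧ BijOn φ X0 X0 ∧ φ p = q ∧
      ∀ z ∉ O, φ z = z := by
  classical
  obtain ⟨U, u1, u2, u3, u4⟩ := base p hp
  obtain ⟨V, v1, v2, v3, v4⟩ := base q hq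
  have cU : ∀ k, IsClopen (U k) := fun k => (u3 k).elim fun a e => e ▸ I_clopen _ _
  have cV : ∀ k, IsClopen (V k) := fun k => (v3 k).elim fun a e => e ▸ I_clopen _ _
  obtain ⟨A, B, hA, hB, hAB⟩ := t2_separation_nhds hne
  have hX : IsClopen X0 := I_clopen _ _
  obtain ⟨k1, h1⟩ := small (fun k => (cU k).isClosed) u1 u2
    (inter_mem hA ((hO.inter hX.isOpen).mem_nhds ⟨hpO, hp⟩))
  obtain ⟨k2, h2⟩ := small (fun k => (cV k).isClosed) v1 v2
    (inter_mem hB ((hO.inter hX.isOpen).mem_nhds ⟨hqO, hq⟩))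
  replace h1 := (u1 (le_max_left k1 k2)).trans h1
  replace h2 := (v1 (le_max_right k1 k2)).trans h2
  set m := max k1 k2
  have sft : ∀ {U : ℕ → Set Xb} {p : Xb}, Antitone U → ⋂ k, U k = {p} → ⋂ k, U (m + k) = {p} := by
    intro U p a h
    rw [← h]
    exact Subset.antisymm (subset_iInter fun k => (iInter_subset _ k).trans (a (Nat.le_add_left k m)))
      (subset_iInter fun k => iInter_subset _ _)
  obtain ⟨φ, c, b, e⟩ := glueSeq (U := fun k => U (m + k)) (V := fun k => V (m + k))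
    (fun k => cU _) (fun k => cV _) (fun i j h => u1 (Nat.add_le_add_left h m))
    (fun i j h => v1 (Nat.add_le_add_left h m)) (sft u1 u2) (sft v1 v2) (fun k => by
      obtain ⟨a, ha⟩ := u4 (m + k)
      obtain ⟨a', ha'⟩ := v4 (m + k)
      show E (U (m + k) \ U (m + k + 1)) (V (m + k) \ V (m + k + 1))
      rw [ha, ha']
      exact E_len (d_pos _) _ _)
  simp only [add_zero] at c b
  obtain ⟨ψ, c', b'⟩ := E.symm (cU m).isClosed.isCompact ⟨φ, c, b⟩
  have hd : Disjoint (U m) (V m) := hAB.mono (fun x h => (h1 h).1) fun x h => (h2 h).1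
  obtain ⟨c1, b1⟩ := glue2 (cU m).isClosed (cV m).isClosed hd hd.symm c c' b b'
  rw [union_comm (V m)] at b1
  obtain ⟨c2, b2⟩ := glue2 ((cU m).union (cV m)).isClosed (hX.diff ((cU m).union (cV m))).isClosed
    disjoint_sdiff_right disjoint_sdiff_right c1 continuousOn_id b1 (bijOn_id _)
  rw [union_sdiff_cancel (union_subset (fun x h => (h1 h).2.2) fun x h => (h2 h).2.2)] at c2 b2
  have pU : p ∈ U m := mem_iInter.1 (u2.symm.subset rfl) m
  refine ⟨_, c2, b2, ?_, fun z hz => ?_⟩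
  · rw [piecewise_eq_of_mem _ _ _ (mem_union_left _ pU), piecewise_eq_of_mem _ _ _ pU, e]
  · rw [piecewise_eq_of_notMem _ _ _ (fun h => hz (h.elim (fun h => (h1 h).2.1) fun h => (h2 h).2.1))]
    rfl

instance : CompactSpace X0 := isCompact_iff_compactSpace.1 (I_clopen _ _).isClosed.isCompact

theorem homog (p q : X0) {O : Set Xb} (hO : IsOpen O) (hp : p.1 ∈ O) (hq : q.1 ∈ O) :
    ∃ h : X0 ≃ₜ X0, h p = q ∧ ∀ z : X0, z.1 ∉ O → h z = z := by
  by_cases hne : p = q
  · exact ⟨Homeomorph.refl _, hne, fun _ _ => rfl⟩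
  obtain ⟨φ, c, b, e1, e2⟩ := swap p.2 q.2 (fun e => hne (Subtype.ext e)) hO hp hq
  exact ⟨Continuous.homeoOfEquivCompactToT2 (f := b.equiv φ) (c.mapsToRestrict b.mapsTo),
    Subtype.ext e1, fun z hz => Subtype.ext (e2 z hz)⟩

/-- the upper copy of a split point -/
noncomputable def plus (a : S) : Xb :=
  ⟨fun s => decide ((s : ℝ) ≤ a), fun s t h h' => by
    simp only [decide_eq_true_eq] at h' ⊢; exact h.trans h'⟩

/-- the lower copy of a split point -/
noncomputable def minus (a : S) : Xb :=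
  ⟨fun s => decide ((s : ℝ) < a), fun s t h h' => by
    simp only [decide_eq_true_eq] at h' ⊢; exact h.trans_lt h'⟩

theorem plus_mem {a b c : S} (h1 : (a : ℝ) ≤ c) (h2 : (c : ℝ) < b) : plus c ∈ I a b :=
  ⟨by simpa [plus] using h1, by simpa [plus] using h2⟩

theorem minus_mem {a b c : S} (h1 : (a : ℝ) < c) (h2 : (c : ℝ) ≤ b) : minus c ∈ I a b :=
  ⟨by simpa [minus] using h1, by simpa [minus] using h2⟩

/-- the projection to the unit interval -/
noncomputable def pr (f : X0) : ℝ := sSup (Subtype.val '' {s : S | f.1.1 s = true})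

theorem le_pr (f : X0) {s : S} (h : f.1.1 s = true) : (s : ℝ) ≤ pr f := by
  refine le_csSup ⟨sh 1 o, ?_⟩ ⟨s, h, rfl⟩
  rintro _ ⟨t, ht, rfl⟩
  exact (lt_of f.1 ht f.2.2).le

theorem pr_le (f : X0) {s : S} (h : f.1.1 s = false) : pr f ≤ s := by
  refine csSup_le ⟨_, o, f.2.1, rfl⟩ ?_
  rintro _ ⟨t, ht, rfl⟩
  exact (lt_of f.1 ht h).le

theorem true_of (f : X0) {s : S} (h : (s : ℝ) < pr f) : f.1.1 s = true := by
  by_contra h'
  exact absurd (pr_le f (by simpa using h')) (not_le.2 h)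

theorem false_of (f : X0) {s : S} (h : pr f < s) : f.1.1 s = false := by
  by_contra h'
  exact absurd (le_pr f (by simpa using h')) (not_le.2 h)

theorem pr_cont : Continuous pr := by
  have ce : ∀ s : S, Continuous fun f : X0 => f.1.1 s := fun s =>
    (cont_ev s).comp continuous_subtype_val
  refine continuous_iff_continuousAt.2 fun f => tendsto_order.2 ⟨fun a ha => ?_, fun a ha => ?_⟩
  · obtain ⟨s, h1, h2⟩ := exists_btwn ha
    filter_upwards [((isOpen_discrete {true}).preimage (ce s)).mem_nhds (true_of f h2)] with g hg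
    exact h1.trans_le (le_pr g hg)
  · obtain ⟨s, h1, h2⟩ := exists_btwn ha
    filter_upwards [((isOpen_discrete {false}).preimage (ce s)).mem_nhds (false_of f h1)] with g hg
    exact (pr_le g hg).trans_lt h2

theorem agree {f g : X0} (h : pr f = pr g) (s : S) (hs : (s : ℝ) ≠ pr f) : f.1.1 s = g.1.1 s := by
  rcases lt_or_gt_of_ne hs with h1 | h1
  · rw [true_of f h1, true_of g (h ▸ h1)]
  · rw [false_of f h1, false_of g (h ▸ h1)]

theorem jumps {T : Type} [TopologicalSpace T] [CompactSpace T] (e : T → Xb) (he : Continuous e)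
    (hi : Function.Injective e) (ψ : T → ℝ) (hψ : Continuous ψ) :
    {y : ℝ | ∃ z z', (∀ s : S, (s : ℝ) ≠ y → (e z).1 s = (e z').1 s) ∧ ψ z ≠ ψ z'}.Countable := by
  have fin : ∀ a b : ℝ, a < b → {y : ℝ | ∃ z z', (∀ s : S, (s : ℝ) ≠ y → (e z).1 s = (e z').1 s) ∧
      ψ z ≤ a ∧ b ≤ ψ z'}.Finite := by
    intro a b hab
    have hc : IsCompact {w : T × T | ψ w.1 ≤ a ∧ b ≤ ψ w.2} :=
      ((isClosed_le (hψ.comp continuous_fst) continuous_const).and
        (isClosed_le continuous_const (hψ.comp continuous_snd))).isCompact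
    obtain ⟨F, hF⟩ := hc.elim_finite_subfamily_closed
      (fun s : S => {w : T × T | (e w.1).1 s = (e w.2).1 s})
      (fun s => isClosed_eq ((cont_ev s).comp (he.comp continuous_fst))
        ((cont_ev s).comp (he.comp continuous_snd))) (by
        refine eq_empty_of_forall_notMem fun w hw => ?_
        have : w.1 = w.2 := hi (Subtype.ext (funext fun s => mem_iInter.1 hw.2 s))
        have h1 := hw.1.1
        have h2 := hw.1.2
        rw [this] at h1
        linarith)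
    refine (F.finite_toSet.image Subtype.val).subset ?_
    rintro y ⟨z, z', h1, h2, h3⟩
    by_contra hy
    refine hF.subset (show (z, z') ∈ _ from ⟨⟨h2, h3⟩, mem_iInter₂.2 fun s hs => h1 s fun h => ?_⟩)
    exact hy ⟨s, hs, h⟩
  refine (countable_iUnion fun q : {q : ℚ × ℚ // q.1 < q.2} =>
    (fin q.1.1 q.1.2 (by exact_mod_cast q.2)).countable).mono ?_
  have aux : ∀ y z z', (∀ s : S, (s : ℝ) ≠ y → (e z).1 s = (e z').1 s) → ψ z < ψ z' →
      y ∈ ⋃ q : {q : ℚ × ℚ // q.1 < q.2}, {y : ℝ | ∃ z z',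
        (∀ s : S, (s : ℝ) ≠ y → (e z).1 s = (e z').1 s) ∧ ψ z ≤ q.1.1 ∧ (q.1.2 : ℝ) ≤ ψ z'} := by
    intro y z z' h1 h2
    obtain ⟨a, a1, a2⟩ := exists_rat_btwn h2
    obtain ⟨b, b1, b2⟩ := exists_rat_btwn a2
    exact mem_iUnion.2 ⟨⟨(a, b), by exact_mod_cast b1⟩, z, z', h1, a1.le, b2.le⟩
  rintro y ⟨z, z', h1, h2⟩
  rcases lt_or_gt_of_ne h2 with h | h
  · exact aux y z z' h1 h
  · exact aux y z' z (fun s hs => (h1 s hs).symm) h

theorem rigid (u : X0 → X0) (hu : Continuous u) (hi : Function.Injective u) :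
    Function.Surjective u := by
  classical
  intro p
  by_contra hp
  have hc : IsClosed (range fun z => (u z).1) :=
    (isCompact_range (continuous_subtype_val.comp hu)).isClosed
  obtain ⟨U, u1, u2, u3, -⟩ := base p.1 p.2
  obtain ⟨k, hk⟩ := small (fun k => (u3 k).elim fun a e => e ▸ (I_clopen _ _).isClosed) u1 u2
    (hc.isOpen_compl.mem_nhds fun ⟨z, hz⟩ => hp ⟨z, Subtype.ext hz⟩)
  obtain ⟨a, ha⟩ := u3 k
  have pU : p.1 ∈ U k := mem_iInter.1 (u2.symm.subset rfl) k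
  rw [ha] at hk pU
  have a1 : (a : ℝ) < 1 := by simpa [sh_val, o_val] using lt_of p.1 pU.1 p.2.2
  have a2 : (0 : ℝ) < sh (d k) a := lt_of p.1 p.2.1 pU.2
  have a3 : (a : ℝ) < sh (d k) a := lt_of p.1 pU.1 pU.2
  have r0 : ∀ f : X0, pr f ∈ Icc (0 : ℝ) 1 := fun f =>
    ⟨le_pr f f.2.1, by simpa [sh_val, o_val] using pr_le f f.2.2⟩
  have J1 := jumps (T := X0) Subtype.val continuous_subtype_val Subtype.val_injective
    (pr ∘ u) (pr_cont.comp hu)
  have J2 := jumps (T := X0) (fun z => (u z).1) (continuous_subtype_val.comp hu)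
    (Subtype.val_injective.comp hi) pr pr_cont
  have fib : ∀ y : ℝ, {z : X0 | pr (u z) = y}.Countable := fun y => by
    refine countable_of_injective_of_countable_image
      (f := fun z => if h : y ∈ S then (u z).1.1 ⟨y, h⟩ else true) ?_ (to_countable _)
    intro z hz z' hz' e
    refine hi (Subtype.ext (Subtype.ext (funext fun s => ?_)))
    by_cases hs : (s : ℝ) = y
    · subst hs
      simpa using e
    · exact agree (hz.trans hz'.symm) s (fun h => hs (h.trans hz))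
  obtain ⟨m, hm⟩ := ((J1.union ((J2.biUnion fun y _ => fib y).image pr)).insert 0 |>.insert
    1).exists_eq_range (insert_nonempty _ _)
  obtain ⟨x, ⟨hxS, hx01⟩, hx⟩ := real_set.choose_spec.2.2
    (fun n => Nat.casesOn n (range fun z => (pr z, pr (u z))) fun n => {(m n, 0)})
    (fun n => by
      cases n
      · exact isCompact_range (pr_cont.prodMk (pr_cont.comp hu))
      · exact isCompact_singleton) (by
      rw [tsum_eq_single 0 (fun n hn => by
        obtain ⟨n, rfl⟩ := Nat.exists_eq_succ_of_ne_zero hn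
        simp)]
      have h1 : Prod.snd '' (range fun z => (pr z, pr (u z))) ⊆
          Icc 0 1 \ Ioo (max (a : ℝ) 0) (min (sh (d k) a : ℝ) 1) := by
        rintro _ ⟨_, ⟨z, rfl⟩, rfl⟩
        exact ⟨r0 _, fun h => hk ⟨true_of _ ((le_max_left _ _).trans_lt h.1),
          false_of _ (h.2.trans_le (min_le_left _ _))⟩ ⟨z, rfl⟩⟩
      refine (measure_mono h1).trans_lt ?_
      have h2 : Ioo (max (a : ℝ) 0) (min (sh (d k) a : ℝ) 1) ⊆ Icc 0 1 := fun t ht =>
        ⟨(le_max_right _ _).trans ht.1.le, ht.2.le.trans (min_le_right _ _)⟩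
      rw [measure_sdiff h2 measurableSet_Ioo.nullMeasurableSet (by simp)]
      simp only [Real.volume_Icc, sub_zero, ENNReal.ofReal_one]
      refine ENNReal.sub_lt_self ENNReal.one_ne_top one_ne_zero ?_
      rw [Real.volume_Ioo, ne_eq, ENNReal.ofReal_eq_zero, not_le, sub_pos]
      exact max_lt (lt_min a3 a1) (lt_min a2 one_pos))
  have hxm : x ∉ range m := by
    rintro ⟨n, rfl⟩
    exact hx (n + 1) 0 ⟨rfl, by rintro _ rfl; simp⟩ real_set.choose_spec.1
  rw [← hm] at hxm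
  simp only [mem_insert_iff, mem_union, not_or] at hxm
  obtain ⟨x1, x0, j1, j2⟩ := hxm
  let xs : S := ⟨x, hxS⟩
  have l0 : (o : ℝ) < xs := lt_of_le_of_ne hx01.1 (Ne.symm x0)
  have l1 : (xs : ℝ) < sh 1 o := by simpa [sh_val, o_val] using lt_of_le_of_ne hx01.2 x1
  let zp : X0 := ⟨plus xs, plus_mem l0.le l1⟩
  let zm : X0 := ⟨minus xs, minus_mem l0 l1.le⟩
  have pp : pr zp = x := le_antisymm (le_of_forall_gt fun c hc => by
      obtain ⟨s, s1, s2⟩ := exists_btwn hc
      exact (pr_le zp (s := s) (decide_eq_false (not_le.2 s1))).trans_lt s2)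
    (le_pr zp (s := xs) (by simp [zp, plus]))
  have pm : pr zm = x := le_antisymm (pr_le zm (s := xs) (by simp [zm, minus]))
    (le_of_forall_lt fun c hc => by
      obtain ⟨s, s1, s2⟩ := exists_btwn hc
      exact s1.trans_le (le_pr zm (s := s) (decide_eq_true s2)))
  have g1 : ∀ z, pr z = x → pr (u z) = pr (u zp) := fun z hz => by
    by_contra h
    exact j1 ⟨z, zp, fun s hs => agree (hz.trans pp.symm) s (hz ▸ hs), h⟩
  have g2 : ∀ z, pr (u z) = pr (u zp) → pr z = x := fun z hz => by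
    by_contra h
    refine j2 ⟨zp, mem_biUnion (x := pr (u zp)) ?_ rfl, pp⟩
    exact ⟨z, zp, fun s hs => agree hz s (hz ▸ hs), pp ▸ h⟩
  refine hx 0 (pr (u zp)) ⟨⟨zp, by simp [pp]⟩, ?_⟩ ?_
  · rintro _ ⟨z, rfl⟩
    exact ⟨g1 z, g2 z⟩
  · by_contra hy
    have h1 : u zm = u zp := Subtype.ext (Subtype.ext (funext fun s =>
      agree (g1 zm pm) s fun h => hy (g1 zm pm ▸ h ▸ s.2)))
    have h2 := congrArg (fun z : X0 => z.1.1 xs) (hi h1)
    simp [zm, zp, plus, minus] at h2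

theorem final : ∃ U ∈ 𝓝 (id : X0 → X0), ∀ F : Set (X0 → X0), F.Finite → (∀ g ∈ F, Continuous g) →
    ∃ f : X0 → X0, Continuous f ∧ ∀ g ∈ F, ∀ u ∈ U, Continuous u → f ≠ g ∘ u := by
  have l0 : (o : ℝ) < sh (1 / 2) o := by simp [sh_val]
  have l1 : (sh (1 / 2) o : ℝ) < sh 1 o := by simp only [sh_val]; push_cast; linarith
  let x1 : X0 := ⟨plus o, plus_mem le_rfl (l0.trans l1)⟩
  let x2 : X0 := ⟨plus (sh (1 / 2) o), plus_mem l0.le l1⟩
  let V : Set X0 := {z | z.1.1 (sh (1 / 2) o) = true}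
  have hV : IsClopen V :=
    (isClopen_discrete {true}).preimage ((cont_ev _).comp continuous_subtype_val)
  have v1 : x1 ∉ V := by simpa [x1, V, plus] using l0
  have v2 : x2 ∈ V := by simp [x2, V, plus]
  have o1 : IsOpen ((fun u : X0 → X0 => u x1) ⁻¹' Vᶜ) :=
    hV.compl.isOpen.preimage (continuous_apply x1)
  have o2 : IsOpen ((fun u : X0 → X0 => u x2) ⁻¹' V) := hV.isOpen.preimage (continuous_apply x2)
  refine ⟨_, (o1.inter o2).mem_nhds ⟨v1, v2⟩, fun F hF hc => ?_⟩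
  have hN : IsOpen (⋂ g ∈ {g ∈ F | x1 ∉ g '' V}, (g '' V)ᶜ) :=
    (hF.subset fun _ h => h.1).isOpen_biInter fun g hg =>
      (hV.isClosed.isCompact.image (hc g hg.1)).isClosed.isOpen_compl
  obtain ⟨O, hO, hO'⟩ := isOpen_induced_iff.1 hN
  have x1O : x1 ∈ Subtype.val ⁻¹' O := hO' ▸ mem_iInter₂.2 fun g hg => hg.2
  obtain ⟨U, u1, u2, u3, -⟩ := base x1.1 x1.2
  obtain ⟨k, hk⟩ := small (fun k => (u3 k).elim fun a e => e ▸ (I_clopen _ _).isClosed) u1 u2
    ((hO.inter (I_clopen o (sh 1 o)).isOpen).mem_nhds ⟨x1O, x1.2⟩)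
  obtain ⟨a, ha⟩ := u3 k
  rw [ha] at hk
  have a3 : (a : ℝ) < sh (d k) a := by simp only [sh_val]; linarith [d_pos' k]
  obtain ⟨y, y1, y2⟩ : ∃ y ∈ I a (sh (d k) a), y ≠ x1.1 := by
    obtain ⟨s, s1, s2⟩ := exists_btwn a3
    by_contra h
    push Not at h
    have := congrArg (fun z : Xb => z.1 s)
      ((h _ (plus_mem s1.le s2)).trans (h _ (minus_mem s1 s2.le)).symm)
    simp [plus, minus] at this
  obtain ⟨h, h1, h2⟩ := homog x2 ⟨y, (hk y1).2⟩ (O := {x1.1}ᶜ) isOpen_compl_singleton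
    (fun e => v1 ((Subtype.ext e : x2 = x1) ▸ v2)) y2
  refine ⟨h, h.continuous, fun g hg u hu hu' e => ?_⟩
  have e' : ∀ z, h z = g (u z) := congrFun e
  have iu : Function.Injective u := fun z w hzw => h.injective (by rw [e', e', hzw])
  have ig : Function.Injective g := fun z w hzw => by
    obtain ⟨z, rfl⟩ := rigid u hu' iu z
    obtain ⟨w, rfl⟩ := rigid u hu' iu w
    rw [h.injective ((e' z).trans (hzw.trans (e' w).symm))]
  have g1 : x1 ∉ g '' V := by
    rintro ⟨z, z1, z2⟩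
    rw [← h2 x1 (fun h => h rfl), e'] at z2
    exact hu.1 (show u x1 ∈ V from ig z2 ▸ z1)
  have g2 : (⟨y, (hk y1).2⟩ : X0) ∈ Subtype.val ⁻¹' O := (hk y1).1
  rw [hO'] at g2
  exact mem_iInter₂.1 g2 g ⟨hg, g1⟩ ⟨u x2, hu.2, (e' x2).symm.trans h1⟩

theorem neg : ¬ (∀ (X : Type) [TopologicalSpace X], T2Space X → CompactSpace X →
      TopologicalSpace.IsTopologicalBasis {s : Set X | IsClopen s} →
      (∀ x y : X, ∃ h : X ≃ₜ X, h x = y) →
      ∀ U : Set (X → X), U ∈ nhds (id : X → X) →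
        ∃ F : Set (X → X), F.Finite ∧ (∀ g ∈ F, Continuous g) ∧
          ∀ f : X → X, Continuous f →
            ∃ g ∈ F, ∃ u ∈ U, Continuous u ∧ f = g ∘ u) := by
  intro h
  obtain ⟨U, hU, hU'⟩ := final
  obtain ⟨F, h1, h2, h3⟩ := h X0 inferInstance inferInstance isTopologicalBasis_isClopen
    (fun x y => (homog x y isOpen_univ trivial trivial).imp fun _ h => h.1) U hU
  obtain ⟨f, f1, f2⟩ := hU' F h1 h2
  obtain ⟨g, g1, u, u1, u2, e⟩ := h3 f f1
  exact f2 g g1 u u1 u2 e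

end Pool.Agent.H31.VdX
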