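import Mathlib

set_option autoImplicit false

open Set Topology Filter

namespace Pool.Agent.H31.Vietoris

abbrev C : Type := ℕ → Bool

inductive X : Type
  | br (c : C) : X
  | nd (m : ℕ) (f : Fin m → Bool) : X

open X

def res (c : C) (m : ℕ) : Fin m → Bool := fun i => c i

def B (c : C) (n : ℕ) : Set X := fun x => match x with
  | br c' => ∀ i < n, c' i = c i
  | nd m f => n ≤ m ∧ (∀ i : Fin m, (i : ℕ) < n → f i = c i) ∧ f ≠ res c m

theorem br_mem {c c' : C} {n : ℕ} : br c' ∈ B c n ↔ ∀ i < n, c' i = c i := Iff.rfl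
theorem nd_mem {c : C} {n m : ℕ} {f : Fin m → Bool} :
    nd m f ∈ B c n ↔ n ≤ m ∧ (∀ i : Fin m, (i : ℕ) < n → f i = c i) ∧ f ≠ res c m := Iff.rfl

theorem B_anti (c : C) {n n' : ℕ} (h : n ≤ n') : B c n' ⊆ B c n := by
  rintro (c' | ⟨m, f⟩) hx
  · exact fun i hi => hx i (by omega)
  · exact ⟨h.trans hx.1, fun i hi => hx.2.1 i (by omega), hx.2.2⟩

instance : TopologicalSpace X where
  IsOpen U := ∀ c, br c ∈ U → ∃ n, B c n ⊆ U
  isOpen_univ := fun _ _ => ⟨0, subset_univ _⟩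
  isOpen_inter := by
    rintro s t hs ht c ⟨h1, h2⟩
    obtain ⟨n, hn⟩ := hs c h1
    obtain ⟨m, hm⟩ := ht c h2
    exact ⟨max n m, subset_inter ((B_anti c (le_max_left _ _)).trans hn)
      ((B_anti c (le_max_right _ _)).trans hm)⟩
  isOpen_sUnion := by
    rintro S hS c ⟨t, ht, hc⟩
    obtain ⟨n, hn⟩ := hS t ht c hc
    exact ⟨n, hn.trans (subset_sUnion_of_mem ht)⟩

theorem isOpen_B (c : C) (n : ℕ) : IsOpen (B c n) := by
  intro c' hc'
  by_cases h : c' = c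
  · exact ⟨n, h ▸ subset_rfl⟩
  obtain ⟨j, hj⟩ := Function.ne_iff.1 h
  have hjn : n ≤ j := not_lt.1 fun hlt => hj (hc' j hlt)
  refine ⟨j + 1, ?_⟩
  rintro (c'' | ⟨m, f⟩) hx
  · exact fun i hi => (hx i (by omega)).trans (hc' i hi)
  · obtain ⟨h1, h2, -⟩ := nd_mem.1 hx
    refine ⟨by omega, fun i hi => (h2 i (by omega)).trans (hc' i hi), fun he => hj ?_⟩
    rw [← h2 ⟨j, by omega⟩ (by simp), he]; rfl

theorem isOpen_nd (m : ℕ) (f : Fin m → Bool) : IsOpen ({nd m f} : Set X) :=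
  fun _ h => absurd h (by simp)

theorem self_mem (c : C) (n : ℕ) : br c ∈ B c n := fun _ _ => rfl

instance : FirstCountableTopology X := by
  refine ⟨?_⟩
  rintro (c | ⟨m, f⟩)
  · have : (𝓝 (br c)).HasBasis (fun _ : ℕ => True) (B c) := by
      refine ⟨fun t => ⟨fun h => ?_, fun ⟨n, _, hn⟩ =>
        mem_of_superset ((isOpen_B c n).mem_nhds (self_mem c n)) hn⟩⟩
      obtain ⟨U, hU, hUo, hx⟩ := mem_nhds_iff.1 h
      obtain ⟨n, hn⟩ := hUo c hx
      exact ⟨n, trivial, hn.trans hU⟩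
    exact this.isCountablyGenerated
  · rw [(isOpen_singleton_iff_nhds_eq_pure _).1 (isOpen_nd m f)]
    infer_instance

instance : T2Space X := by
  have h1 : ∀ (c : C) (m : ℕ) (f : Fin m → Bool), Disjoint (B c (m + 1)) {nd m f} := by
    intro c m f
    rw [disjoint_singleton_right]
    intro h
    have := (nd_mem.1 h).1
    omega
  refine ⟨?_⟩
  rintro (c | ⟨m, f⟩) (c' | ⟨m', f'⟩) hne
  · have h : c ≠ c' := fun h => hne (h ▸ rfl)
    obtain ⟨j, hj⟩ := Function.ne_iff.1 h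
    refine ⟨B c (j + 1), B c' (j + 1), isOpen_B _ _, isOpen_B _ _, self_mem _ _, self_mem _ _, ?_⟩
    rw [Set.disjoint_left]
    rintro (c'' | ⟨m, f⟩) h1 h2
    · exact hj ((h1 j (by omega)).symm.trans (h2 j (by omega)))
    · obtain ⟨a1, a2, -⟩ := nd_mem.1 h1
      obtain ⟨-, b2, -⟩ := nd_mem.1 h2
      exact hj ((a2 ⟨j, by omega⟩ (by simp)).symm.trans (b2 ⟨j, by omega⟩ (by simp)))
  · exact ⟨_, _, isOpen_B c (m' + 1), isOpen_nd m' f', self_mem _ _, rfl, h1 _ _ _⟩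
  · exact ⟨_, _, isOpen_nd m f, isOpen_B c' (m + 1), rfl, self_mem _ _, (h1 _ _ _).symm⟩
  · exact ⟨_, _, isOpen_nd m f, isOpen_nd m' f', rfl, rfl, disjoint_singleton.2 hne⟩

theorem cyl_nhds (c : C) (n : ℕ) : {c' : C | ∀ i < n, c' i = c i} ∈ 𝓝 c := by
  have : ∀ᶠ c' : C in 𝓝 c, ∀ i ∈ Finset.range n, c' i = c i := by
    rw [Filter.eventually_all_finset]
    intro i _
    have : IsOpen ((fun x : C => x i) ⁻¹' ({c i} : Set Bool)) :=
      (isOpen_discrete _).preimage (continuous_apply i)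
    exact this.mem_nhds rfl
  filter_upwards [this] with c' hc' i hi
  exact hc' i (Finset.mem_range.2 hi)

theorem cont_br : Continuous br := by
  rw [continuous_def]
  intro U hU
  rw [isOpen_iff_mem_nhds]
  intro c hc
  obtain ⟨n, hn⟩ := hU c hc
  exact mem_of_superset (cyl_nhds c n) fun c' hc' => hn hc'

theorem sat (K : Set X) : ⋂₀ {U : Set X | IsOpen U ∧ K ⊆ U} ⊆ K := by
  intro x hx
  by_contra h
  exact hx {x}ᶜ ⟨isOpen_compl_singleton, subset_compl_singleton_iff.2 h⟩ rfl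

theorem wf (𝒦 : Set (Set X)) (hne : 𝒦.Nonempty) (hc : ∀ K ∈ 𝒦, IsCompact K)
    (hd : DirectedOn (fun A B : Set X => B ⊆ A) 𝒦) (U : Set X) (hU : IsOpen U)
    (h : ⋂₀ 𝒦 ⊆ U) : ∃ K ∈ 𝒦, K ⊆ U := by
  have := hne.to_subtype
  obtain ⟨K, hK⟩ := exists_subset_nhds_of_isCompact (V := fun K : 𝒦 => (K : Set X))
    (directedOn_iff_directed.1 hd) (fun K => hc K K.2) (U := U) fun x hx =>
      hU.mem_nhds (h (by rwa [sInter_eq_iInter]))
  exact ⟨K, K.2, hK⟩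

/-- almost full even levels -/
def A (k : ℕ) (M : Finset (Fin (2 * k) → Bool)) : Set X := nd (2 * k) '' {f | f ∉ M}

def Big (K : Set X) (k : ℕ) : Prop := ∃ M : Finset (Fin (2 * k) → Bool), M.card ≤ k ∧ A k M ⊆ K

theorem exists_not_mem (k m : ℕ) (hm : m < k) (c : C) (M : Finset (Fin (2 * k) → Bool))
    (hM : M.card ≤ k) : ∃ c' : C, (∀ i < m, c' i = c i) ∧ res c' (2 * k) ∉ M := by
  classical
  let g : ℕ → C := fun t i => if i < m then c i else decide (i = m + t)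
  by_contra h
  push Not at h
  have h1 : ∀ t ∈ Finset.range (k + 1), res (g t) (2 * k) ∈ M :=
    fun t _ => h (g t) fun i hi => by simp [g, hi]
  obtain ⟨s, hs, t, ht, hst, he⟩ := Finset.exists_ne_map_eq_of_card_lt_of_maps_to
    (by simpa using Nat.lt_succ_of_le hM) h1
  rw [Finset.mem_range] at hs ht
  have := congrFun he ⟨m + s, by omega⟩
  simp [res, g] at this
  exact hst this

theorem A_compact (k : ℕ) (M : Finset (Fin (2 * k) → Bool)) : IsCompact (A k M) :=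
  ((toFinite _).image _).isCompact

theorem A_nonempty (k : ℕ) (M : Finset (Fin (2 * k) → Bool)) (hM : M.card ≤ k) :
    (A k M).Nonempty := by
  rcases Nat.eq_zero_or_pos k with rfl | hk
  · rw [Nat.le_zero, Finset.card_eq_zero] at hM
    exact ⟨_, res (fun _ => true) _, by simp [hM], rfl⟩
  · obtain ⟨c, -, hc⟩ := exists_not_mem k 0 hk (fun _ => true) M hM
    exact ⟨_, _, hc, rfl⟩

theorem big_finite {K : Set X} (hK : IsCompact K) : {k | Big K k}.Finite := by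
  by_contra hinf
  have hinf' : ∀ j, ∃ k, j < k ∧ Big K k := fun j => by
    obtain ⟨k, hk, hjk⟩ := Set.Infinite.exists_gt hinf j
    exact ⟨k, hjk, hk⟩
  let O : ℕ → Set C := fun j => {c | ∃ m, j ≤ m ∧ nd m (res c m) ∈ K}
  have hO : ∀ j, IsOpen (O j) := by
    intro j
    rw [isOpen_iff_mem_nhds]
    rintro c ⟨m, hm, hc⟩
    refine mem_of_superset (cyl_nhds c m) fun c' hc' => ⟨m, hm, ?_⟩
    have : res c' m = res c m := funext fun i => hc' i i.2
    rwa [this]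
  have hD : ∀ j, Dense (O j) := by
    intro j
    rw [dense_iff_inter_open]
    rintro U hU ⟨c, hc⟩
    obtain ⟨I, u, hu, hI⟩ := isOpen_pi_iff.1 hU c hc
    obtain ⟨k, hk, M, hM, hMK⟩ := hinf' (I.sup id + 1 + j)
    obtain ⟨c', h1, h2⟩ := exists_not_mem k (I.sup id + 1) (by omega) c M hM
    refine ⟨c', hI fun i hi => ?_, 2 * k, by omega, hMK ⟨_, h2, rfl⟩⟩
    have : i ≤ I.sup id := Finset.le_sup (f := id) hi
    rw [h1 i (by omega)]; exact (hu i hi).2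
  obtain ⟨c, hc⟩ := (dense_iInter_of_isOpen hO hD).nonempty
  let V : ℕ → Set X := fun j => {x | ∀ m, j ≤ m → x ≠ nd m (res c m)}
  have hV : ∀ j, IsOpen (V j) := by
    intro j c' _
    by_cases h : c' = c
    · refine ⟨0, ?_⟩
      rintro x hx m - rfl
      exact (nd_mem.1 hx).2.2 (h ▸ rfl)
    · obtain ⟨i, hi⟩ := Function.ne_iff.1 h
      refine ⟨i + 1, ?_⟩
      rintro x hx m - rfl
      obtain ⟨a1, a2, -⟩ := nd_mem.1 hx
      exact hi (a2 ⟨i, by omega⟩ (by simp)).symm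
  obtain ⟨j, hj⟩ := hK.elim_directed_cover V hV (by
      rintro (c' | ⟨m, f⟩) -
      · exact mem_iUnion.2 ⟨0, fun m _ h => by cases h⟩
      · refine mem_iUnion.2 ⟨m + 1, fun m' hm' h => ?_⟩
        have : m = m' := by injection h
        omega)
    (directed_of_isDirected_le fun i j hij x hx m hm => hx m (hij.trans hm))
  obtain ⟨m, hm, hmK⟩ := mem_iInter.1 hc j
  exact hj hmK m hm rfl

theorem exists_A {U : Set X} (hU : IsOpen U) (h : range br ⊆ U) :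
    ∃ k M, M.card ≤ k ∧ A k M ⊆ U := by
  classical
  choose n hn using fun c => hU c (h (mem_range_self c))
  obtain ⟨t, -, ht⟩ := isCompact_univ.elim_nhds_subcover
    (fun c => {c' : C | ∀ i < n c, c' i = c i}) (fun c _ => cyl_nhds c (n c))
  refine ⟨t.card + t.sup n, t.image fun c => res c _,
    Finset.card_image_le.trans (Nat.le_add_right _ _), ?_⟩
  rintro _ ⟨f, hf, rfl⟩
  let c' : C := fun i => if h : i < 2 * (t.card + t.sup n) then f ⟨i, h⟩ else false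
  obtain ⟨c, hc, hc'⟩ := mem_iUnion₂.1 (ht (mem_univ c'))
  have h1 : n c ≤ t.sup n := Finset.le_sup hc
  refine hn c (nd_mem.2 ⟨by omega, fun i hi => ?_, fun he => hf ?_⟩)
  · rw [← hc' i hi]; simp [c']
  · exact Finset.mem_image.2 ⟨c, hc, he.symm⟩

abbrev KX : Type :=
  {K : Set X // K.Nonempty ∧ IsCompact K ∧ ⋂₀ {U : Set X | IsOpen U ∧ K ⊆ U} ⊆ K}

def S : Set KX := {K | ∀ k, ¬ Big K.1 k}

theorem S_upper : ∀ K ∈ S, ∀ L : KX, L.1 ⊆ K.1 → L ∈ S := by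
  rintro K hK L hL k ⟨M, hM, h⟩
  exact hK k ⟨M, hM, h.trans hL⟩

theorem S_scott (𝒟 : Set KX) (hne : 𝒟.Nonempty)
    (hd : DirectedOn (fun A B : KX => B.1 ⊆ A.1) 𝒟) (L : KX)
    (hL : ∀ M : KX, (∀ K ∈ 𝒟, M.1 ⊆ K.1) → M.1 ⊆ L.1) (hLS : L ∈ S) : ∃ K ∈ 𝒟, K ∈ S := by
  classical
  by_contra hc
  push Not at hc
  obtain ⟨K₀, hK₀⟩ := hne
  let P : Set (Σ k, Finset (Fin (2 * k) → Bool)) := {p | p.2.card ≤ p.1 ∧ A p.1 p.2 ⊆ K₀.1}
  have hP : P.Finite := by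
    refine ((big_finite K₀.2.2.1).biUnion (t := fun k => range (Sigma.mk k))
      fun _ _ => finite_range _).subset ?_
    rintro ⟨k, M⟩ hp
    exact mem_biUnion (x := k) ⟨M, hp⟩ ⟨M, rfl⟩
  have h1 : ∀ p : P, ∃ K : 𝒟, ¬ A p.1.1 p.1.2 ⊆ K.1.1 := by
    intro p
    by_contra h
    push Not at h
    exact hLS p.1.1 ⟨p.1.2, p.2.1, hL ⟨_, A_nonempty _ _ p.2.1, A_compact _ _, sat _⟩
      fun K hK => h ⟨K, hK⟩⟩
  choose g hg using h1
  have := hP.fintype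
  have : Nonempty 𝒟 := ⟨⟨K₀, hK₀⟩⟩
  have : IsTrans KX fun A B : KX => B.1 ⊆ A.1 := ⟨fun _ _ _ h1 h2 => h2.trans h1⟩
  obtain ⟨K, hK⟩ := (directedOn_iff_directed.1 hd).finset_le
    (insert ⟨K₀, hK₀⟩ (Finset.univ.image g))
  have h2 := hc K K.2
  simp only [S, mem_setOf_eq, not_forall, not_not] at h2
  obtain ⟨k, M, hM, hMK⟩ := h2
  have h3 : K.1.1 ⊆ K₀.1 := hK _ (Finset.mem_insert_self _ _)
  let p : P := ⟨⟨k, M⟩, hM, hMK.trans h3⟩
  have h4 : K.1.1 ⊆ (g p).1.1 := hK _ (Finset.mem_insert_of_mem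
    (Finset.mem_image_of_mem g (Finset.mem_univ p)))
  exact hg p (hMK.trans h4)

theorem S_not_open : ¬ @IsOpen KX (TopologicalSpace.generateFrom
    {𝒱 : Set KX | ∃ U : Set X, IsOpen U ∧ 𝒱 = {K : KX | K.1 ⊆ U}}) S := by
  intro h
  have key : ∀ T : Set KX, TopologicalSpace.GenerateOpen
      {𝒱 : Set KX | ∃ U : Set X, IsOpen U ∧ 𝒱 = {K : KX | K.1 ⊆ U}} T →
      ∀ K ∈ T, ∃ U : Set X, IsOpen U ∧ K.1 ⊆ U ∧ ∀ L : KX, L.1 ⊆ U → L ∈ T := by
    intro T hT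
    induction hT with
    | basic S hS =>
      obtain ⟨V, hV, rfl⟩ := hS
      exact fun K hK => ⟨V, hV, hK, fun L hL => hL⟩
    | univ => exact fun K _ => ⟨univ, isOpen_univ, subset_univ _, fun _ _ => trivial⟩
    | inter S T _ _ ihS ihT =>
      intro K hK
      obtain ⟨U, hU, h1, h2⟩ := ihS K hK.1
      obtain ⟨V, hV, h3, h4⟩ := ihT K hK.2
      exact ⟨U ∩ V, hU.inter hV, subset_inter h1 h3, fun L hL =>
        ⟨h2 L (hL.trans inter_subset_left), h4 L (hL.trans inter_subset_right)⟩⟩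
    | sUnion S _ ih =>
      rintro K ⟨t, ht, hK⟩
      obtain ⟨U, hU, h1, h2⟩ := ih t ht K hK
      exact ⟨U, hU, h1, fun L hL => ⟨t, ht, h2 L hL⟩⟩
  have hK : (⟨range br, range_nonempty _, isCompact_range cont_br, sat _⟩ : KX) ∈ S := by
    rintro k ⟨M, hM, hsub⟩
    obtain ⟨_, f, hf, rfl⟩ := A_nonempty k M hM
    obtain ⟨c, hc⟩ := hsub ⟨f, hf, rfl⟩
    cases hc
  obtain ⟨U, hU, h1, h2⟩ := key S h _ hK
  obtain ⟨k, M, hM, hA⟩ := exists_A hU h1
  exact h2 ⟨_, A_nonempty _ _ hM, A_compact _ _, sat _⟩ hA k ⟨M, hM, subset_rfl⟩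

end Pool.Agent.H31.Vietoris
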