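import Pool.Agent.H31.WF1

namespace Pool.Agent.H31.WF

open Set Filter Topology

/-- columns `ω + 1`; `(m, k)` lies below the top of column `j` when `k < H j m` -/
def Col (_ : ℕ → ℕ → ℕ) : Type := ℕ × ℕ∞

variable {H : ℕ → ℕ → ℕ}

instance : PartialOrder (Col H) where
  le x y := (x.1 = y.1 ∧ x.2 ≤ y.2) ∨ (y.2 = ⊤ ∧ x.2 < H y.1 x.1)
  le_refl x := .inl ⟨rfl, le_rfl⟩
  le_trans x y z := by
    rintro (⟨h1, h2⟩ | ⟨h1, h2⟩) (⟨h3, h4⟩ | ⟨h3, h4⟩)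
    · exact .inl ⟨h1.trans h3, h2.trans h4⟩
    · exact .inr ⟨h3, h1 ▸ h2.trans_lt h4⟩
    · exact .inr ⟨top_le_iff.mp (h1 ▸ h4), h3 ▸ h2⟩
    · exact absurd (h1 ▸ h4) not_top_lt
  le_antisymm x y := by
    rintro (⟨h1, h2⟩ | ⟨h1, h2⟩) (⟨h3, h4⟩ | ⟨h3, h4⟩)
    · exact Prod.ext h1 (h2.antisymm h4)
    · exact absurd (h3 ▸ h2.trans_lt h4) not_top_lt
    · exact absurd (h1 ▸ h4.trans_lt h2) not_top_lt
    · exact absurd (h1 ▸ h4) not_top_lt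

def mk (H : ℕ → ℕ → ℕ) (m : ℕ) (k : ℕ∞) : Col H := (m, k)

theorem le_def {x y : Col H} : x ≤ y ↔ (x.1 = y.1 ∧ x.2 ≤ y.2) ∨ (y.2 = ⊤ ∧ x.2 < H y.1 x.1) :=
  Iff.rfl

theorem mk_le {m : ℕ} {k l : ℕ∞} (h : k ≤ l) : mk H m k ≤ mk H m l := .inl ⟨rfl, h⟩

def Cl (C : Set (Col H)) : Prop := IsLowerSet C ∧ ∀ m, (∀ k : ℕ, mk H m k ∈ C) → mk H m ⊤ ∈ C

theorem Cl.Iic (u : Col H) : Cl (Iic u) := ⟨isLowerSet_Iic u, fun m h => by
  rcases h (H u.1 m) with ⟨h1, -⟩ | ⟨-, h1⟩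
  · refine .inl ⟨h1, top_le_iff.mpr (ENat.eq_top_iff_forall_ge.mpr fun k => ?_)⟩
    exact (h k).elim And.right fun h => h.1 ▸ le_top
  · exact absurd h1 (lt_irrefl _)⟩

theorem Cl.union {C D : Set (Col H)} (hC : Cl C) (hD : Cl D) : Cl (C ∪ D) :=
  ⟨hC.1.union hD.1, fun m h => by
    by_cases h1 : ∀ k : ℕ, mk H m k ∈ C
    · exact .inl (hC.2 m h1)
    · obtain ⟨k, hk⟩ := not_forall.mp h1
      exact .inr (hD.2 m fun l => hD.1 (mk_le (Nat.cast_le.mpr (le_max_right k l)))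
        ((h (max k l)).resolve_left fun h2 => hk (hC.1 (mk_le (Nat.cast_le.mpr (le_max_left k l))) h2)))⟩

theorem Cl.sup {C : Set (Col H)} (hC : Cl C) {m : ℕ} {S : Set ℕ∞} (h1 : S.Nonempty)
    (h2 : ∀ k ∈ S, mk H m k ∈ C) : mk H m (sSup S) ∈ C := by
  have := h1.to_subtype
  rcases eq_or_ne (sSup S) ⊤ with h | h
  · refine h ▸ hC.2 m fun k => ?_
    obtain ⟨l, h3, h4⟩ := lt_sSup_iff.mp (h ▸ ENat.coe_lt_top k)
    exact hC.1 (mk_le h4.le) (h2 l h3)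
  · exact h2 _ (ENat.sSup_mem_of_nonempty_of_lt_top h.lt_top)

theorem dcpo : Dcpo (Col H) := fun D ⟨a, ha⟩ h => by
  by_cases h1 : ∃ x ∈ D, x.2 = ⊤
  · obtain ⟨x, h1, h2⟩ := h1
    refine ⟨x, IsGreatest.isLUB ⟨h1, fun y hy => ?_⟩⟩
    obtain ⟨z, -, h3 | h3, h4⟩ := h x h1 y hy
    · exact h4.trans (.inl ⟨h3.1.symm, h2 ▸ le_top⟩)
    · exact absurd (h2 ▸ h3.2) not_top_lt
  · push Not at h1
    have h2 : ∀ y ∈ D, y.1 = a.1 := fun y hy => by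
      obtain ⟨z, h2, h3, h4⟩ := h a ha y hy
      exact (h4.resolve_right fun h => h1 z h2 h.1).1.trans
        (h3.resolve_right fun h => h1 z h2 h.1).1.symm
    refine ⟨mk H a.1 (sSup ((fun x => x.2) '' D)), fun y hy => .inl ⟨h2 y hy, le_sSup ⟨y, hy, rfl⟩⟩,
      fun u hu => (Cl.Iic u).sup ⟨_, a, ha, rfl⟩ ?_⟩
    rintro _ ⟨y, hy, rfl⟩
    exact (show mk H a.1 y.2 ≤ y from .inl ⟨(h2 y hy).symm, le_rfl⟩).trans (hu hy)

theorem chain (m : ℕ) : DirectedOn (· ≤ ·) (range fun k : ℕ => mk H m k) ∧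
    IsLUB (range fun k : ℕ => mk H m k) (mk H m ⊤) :=
  ⟨directedOn_range.mpr (Monotone.directed_le fun _ _ h => mk_le (Nat.cast_le.mpr h)),
    forall_mem_range.mpr fun _ => mk_le le_top, fun u hu => (Cl.Iic u).2 m fun k => hu ⟨k, rfl⟩⟩

def top1 (H : ℕ → ℕ → ℕ) : TopologicalSpace (Col H) := .ofClosed {C | Cl C}
  ⟨isLowerSet_empty, fun _ h => h 0⟩ (fun _ h => ⟨isLowerSet_sInter fun C hC => (h hC).1,
    fun m h1 C hC => (h hC).2 m fun k => h1 k C hC⟩) fun _ h _ h' => Cl.union h h'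

theorem cl1 {C : Set (Col H)} : IsClosed[top1 H] C ↔ Cl C := by
  letI := top1 H
  rw [← isOpen_compl_iff]
  exact (show Cl Cᶜᶜ ↔ _ by rw [compl_compl])

theorem thin (f : ℕ → ℕ) {S : Set ℕ} (hS : S.Infinite) : ∃ T ⊆ S, T.Infinite ∧
    ((∃ m, ∀ n ∈ T, f n = m) ∨ ∀ m, {n ∈ T | f n = m}.Finite) := by
  by_cases h : ∃ m, {n ∈ S | f n = m}.Infinite
  · obtain ⟨m, hm⟩ := h
    exact ⟨_, sep_subset _ _, hm, .inl ⟨m, fun _ h => h.2⟩⟩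
  · exact ⟨S, subset_rfl, hS, .inr fun m => not_infinite.mp fun h' => h ⟨m, h'⟩⟩

theorem wf1 (e₁ e₂ : ℕ → ℕ) (he : ∀ j m, H j m ≠ 0 → m = e₁ j ∨ m = e₂ j) (F : Set (Set (Col H)))
    (h1 : F.Nonempty) (h2 : DirectedOn (· ⊇ ·) F) (h3 : ∀ K ∈ F, @IsCompact _ (top1 H) K ∧ IsUpperSet K)
    (U : Set (Col H)) (hU : IsOpen[top1 H] U) (h4 : ⋂₀ F ⊆ U) : ∃ K ∈ F, K ⊆ U := by
  letI := top1 H
  by_contra! h5
  have hC : Cl Uᶜ := hU
  obtain ⟨p, hp⟩ := exists_surjective_nat (ℕ × ℕ∞)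
  have h6 : ∀ n (K : F), ∃ L : F, L.1 ⊆ K ∧ (p n ∈ L.1 → p n ∈ U) := fun n K => by
    by_cases h : p n ∈ U
    · exact ⟨K, subset_rfl, fun _ => h⟩
    · obtain ⟨L, h6, h7⟩ : ∃ L ∈ F, p n ∉ L := by
        by_contra! h6
        exact h (h4 h6)
      obtain ⟨M, h8, h9, h10⟩ := h2 _ K.2 L h6
      exact ⟨⟨M, h8⟩, h9, fun h => absurd (h10 h) h7⟩
  choose G h6 h7 using h6
  let L : ℕ → F := fun n => Nat.rec ⟨_, h1.some_mem⟩ G n
  have h8 : Antitone fun n => (L n).1 := antitone_nat_of_succ_le fun n => h6 n _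
  choose x h9 h10 using fun n => not_subset.mp (h5 _ (L n).2)
  let c : Fin 3 → ℕ → ℕ := ![fun n => (x n).1, fun n => e₁ (x n).1, fun n => e₂ (x n).1]
  obtain ⟨S, h11, h12⟩ : ∃ S : Set ℕ, S.Infinite ∧ ∀ r,
      (∃ m, ∀ n ∈ S, c r n = m) ∨ ∀ m, {n ∈ S | c r n = m}.Finite := by
    obtain ⟨S₀, -, a1, a2⟩ := thin (c 0) infinite_univ
    obtain ⟨S₁, a3, a4, a5⟩ := thin (c 1) a1
    obtain ⟨S₂, a6, a7, a8⟩ := thin (c 2) a4
    have a9 : ∀ r (S T : Set ℕ), T ⊆ S → ((∃ m, ∀ n ∈ S, c r n = m) ∨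
        ∀ m, {n ∈ S | c r n = m}.Finite) → (∃ m, ∀ n ∈ T, c r n = m) ∨
          ∀ m, {n ∈ T | c r n = m}.Finite := fun r S T h => Or.imp (Exists.imp fun _ h' n hn =>
            h' n (h hn)) fun h' m => (h' m).subset fun _ hn => ⟨h hn.1, hn.2⟩
    refine ⟨S₂, a7, fun r => ?_⟩
    fin_cases r
    exacts [a9 0 _ _ (a6.trans a3) a2, a9 1 _ _ a6 a5, a8]
  obtain ⟨n₀, h13⟩ := h11.nonempty
  let q : Fin 3 → Col H := fun r => mk H (c r n₀) (sSup {k | mk H (c r n₀) k ∉ U})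
  let Q : Set (Col H) := ⋃ r ∈ {r | q r ∉ U}, Iic (q r)
  have h14 : IsClosed Q := (toFinite _).isClosed_biUnion fun r _ => cl1.mpr (.Iic _)
  have h15 : ∀ y ∉ Q, {n ∈ S | y ≤ x n}.Finite := fun y hy => by
    refine (finite_iUnion fun r => (h12 r).elim (fun ⟨m, hm⟩ => (finite_empty.subset ?_ :
      {n ∈ S | c r n = y.1 ∧ y ≤ x n}.Finite)) fun h => (h y.1).subset fun n hn =>
        ⟨hn.1, hn.2.1⟩).subset fun n hn => ?_
    · rintro n ⟨a1, a2, a3⟩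
      have a4 : c r n₀ = y.1 := (hm _ h13).trans ((hm n a1).symm.trans a2)
      have a5 : mk H (c r n₀) y.2 ∉ U := a4 ▸ hC.1 a3 (h10 n)
      exact hy (mem_biUnion (hC.sup ⟨_, a5⟩ fun _ h => h) (.inl ⟨a4.symm, le_sSup a5⟩))
    · rcases hn.2 with h | h
      · exact mem_iUnion.mpr ⟨0, hn.1, h.1.symm, hn.2⟩
      · rcases he (x n).1 y.1 (fun h' => by simp [h'] at h) with h' | h'
        exacts [mem_iUnion.mpr ⟨1, hn.1, h'.symm, hn.2⟩, mem_iUnion.mpr ⟨2, hn.1, h'.symm, hn.2⟩]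
  have h16 : ∀ N, IsClosed (Q ∪ {y | ∃ n ∈ S, N ≤ n ∧ y ≤ x n}) := fun N => cl1.mpr
    ⟨(cl1.mp h14).1.union fun y z h ⟨n, a1, a2, a3⟩ => ⟨n, a1, a2, h.trans a3⟩, fun m h => by
      by_cases a1 : ∀ k : ℕ, mk H m k ∈ Q
      · exact .inl ((cl1.mp h14).2 m a1)
      obtain ⟨k, hk⟩ := not_forall.mp a1
      have a2 := cl1.mp (((h15 _ hk).inter_of_left (Ici N)).isClosed_biUnion fun n _ =>
        cl1.mpr (.Iic (x n)))
      obtain ⟨n, a3, a4⟩ := mem_iUnion₂.mp (a2.2 m fun l => by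
        have a3 := mk_le (H := H) (m := m) (Nat.cast_le.mpr (le_max_left k l))
        obtain ⟨n, a4, a5, a6⟩ := (h (max k l)).resolve_left fun h => hk ((cl1.mp h14).1 a3 h)
        exact mem_biUnion ⟨⟨a4, a3.trans a6⟩, a5⟩
          ((mk_le (Nat.cast_le.mpr (le_max_right k l))).trans a6))
      exact .inr ⟨n, a3.1.1, a3.2, a4⟩⟩
  choose i hi using fun r => hp (q r)
  let n := Finset.univ.sup i + 1
  obtain ⟨N, hN⟩ := (h3 _ (L n).2).1.elim_directed_family_closed _ h16 (eq_empty_of_forall_notMem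
    fun y hy => by
      have a1 : y ∈ Q := by
        by_contra a1
        obtain ⟨N, hN⟩ := (h15 y a1).bddAbove
        obtain ⟨n, a2, a3, a4⟩ := (mem_iInter.mp hy.2 (N + 1)).resolve_left a1
        exact absurd (hN ⟨a2, a4⟩) (by omega)
      obtain ⟨r, a2, a3⟩ := mem_iUnion₂.mp a1
      refine a2 (hi r ▸ h7 (i r) (L (i r)) (h8 (show i r + 1 ≤ n from Nat.succ_le_succ
        (Finset.le_sup (Finset.mem_univ r))) ?_))
      exact (hi r).symm ▸ (h3 _ (L n).2).2 a3 hy.1)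
    (Antitone.directed_ge fun _ _ h => union_subset_union_right _ fun y ⟨n, a1, a2, a3⟩ =>
      ⟨n, a1, h.trans a2, a3⟩)
  obtain ⟨k, a1, a2⟩ := h11.exists_gt (max n N)
  exact hN.subset ⟨h8 (le_of_max_le_left a2.le) (h9 k), .inr ⟨k, a1, le_of_max_le_right a2.le, le_rfl⟩⟩

theorem nosober (hH : ∀ m k m' k', ∃ j, mk H m (k : ℕ) ≤ mk H j ⊤ ∧ mk H m' (k' : ℕ) ≤ mk H j ⊤)
    (t : TopologicalSpace (Col H)) (h1 : ∀ x : Col H, closure {x} = Iic x) [QuasiSober (Col H)] :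
    False := by
  have h2 : ∀ U : Set (Col H), IsOpen U → IsUpperSet U := fun U hU x y h hx => by
    obtain ⟨_, h2, rfl⟩ := mem_closure_iff.mp ((h1 y).superset h) U hU hx
    exact h2
  have h3 : ∀ U : Set (Col H), IsOpen U → U.Nonempty → ∃ m, ∃ k : ℕ, mk H m k ∈ U :=
    fun U hU ⟨x, hx⟩ => by
      obtain ⟨s, hs⟩ := QuasiSober.sober (IsIrreducible.closure (s := range fun k : ℕ => mk H x.1 k)
        ⟨range_nonempty _, fun V W hV hW ⟨a, a1, a2⟩ ⟨b, a3, a4⟩ => by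
          obtain ⟨c, a5, a6, a7⟩ := (chain x.1).1 a a1 b a3
          exact ⟨c, a5, h2 V hV a6 a2, h2 W hW a7 a4⟩⟩) isClosed_closure
      have a1 : Iic s = _ := (h1 s).symm.trans hs
      obtain ⟨_, a2, k, rfl⟩ := mem_closure_iff.mp (a1.subset ((chain x.1).2.2 fun y hy =>
        a1.superset (subset_closure hy))) U hU (h2 U hU (show x ≤ _ from .inl ⟨rfl, le_top⟩) hx)
      exact ⟨_, k, a2⟩
  obtain ⟨s, hs⟩ := QuasiSober.sober (S := (univ : Set (Col H))) ⟨⟨mk H 0 0, trivial⟩,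
    fun V W hV hW ⟨a, _, a2⟩ ⟨b, _, a4⟩ => by
      obtain ⟨m, k, a5⟩ := h3 V hV ⟨a, a2⟩
      obtain ⟨m', k', a6⟩ := h3 W hW ⟨b, a4⟩
      obtain ⟨j, a7, a8⟩ := hH m k m' k'
      exact ⟨_, trivial, h2 V hV a7 a5, h2 W hW a8 a6⟩⟩ isClosed_univ
  rcases ((h1 s).symm.trans hs).superset (mem_univ (mk H (s.1 + 1) ⊤)) with h | h
  · exact absurd h.1 (Nat.succ_ne_self _)
  · exact absurd h.2 not_top_lt

theorem ex : ∃ (H : ℕ → ℕ → ℕ) (e₁ e₂ : ℕ → ℕ), (∀ j m, H j m ≠ 0 → m = e₁ j ∨ m = e₂ j) ∧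
    ∀ m k m' k', ∃ j, mk H m (k : ℕ) ≤ mk H j ⊤ ∧ mk H m' (k' : ℕ) ≤ mk H j ⊤ := by
  obtain ⟨E, hE⟩ := exists_surjective_nat (ℕ × ℕ × ℕ)
  refine ⟨fun j m => if m = (E j).1 ∨ m = (E j).2.1 then (E j).2.2 else 0, fun j => (E j).1,
    fun j => (E j).2.1, fun j m h => by_contra fun h' => h (if_neg h'), fun m k m' k' => ?_⟩
  obtain ⟨j, hj⟩ := hE (m, m', max k k' + 1)
  refine ⟨j, .inr ⟨rfl, ?_⟩, .inr ⟨rfl, ?_⟩⟩ <;> simp only [mk, hj, true_or, or_true, if_true,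
    Nat.cast_lt] <;> omega

theorem cls (x : Col H) : @closure _ (top1 H) {x} = Iic x := by
  letI := top1 H
  exact (closure_minimal (singleton_subset_iff.mpr self_mem_Iic) (cl1.mpr (.Iic x))).antisymm
    fun y h => (cl1.mp isClosed_closure).1 (show y ≤ x from h) (subset_closure rfl)

theorem t01 : @T0Space _ (top1 H) := by
  letI := top1 H
  exact ⟨fun x y h => le_antisymm ((h.mem_closed_iff (cl1.mpr (.Iic y))).mpr self_mem_Iic)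
    ((h.mem_closed_iff (cl1.mpr (.Iic x))).mp self_mem_Iic)⟩

end Pool.Agent.H31.WF
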