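import Pool.Agent.H31.WF2

namespace Pool.Agent.H31.WF

open Set Filter Topology

abbrev J : Type := Col fun j _ => j

def Cl2 (C : Set (WithTop J)) : Prop := C = univ ∨
  (⊤ ∉ C ∧ Cl ((↑) ⁻¹' C : Set J) ∧ ∃ n, ∀ j ≥ n, ((mk _ j ⊤ : J) : WithTop J) ∉ C)

theorem Cl2.lower {C : Set (WithTop J)} (h : Cl2 C) : IsLowerSet C := by
  rcases h with rfl | ⟨h1, h2, -⟩
  · exact isLowerSet_univ
  · intro x y h hx
    induction x using WithTop.recTopCoe with
    | top => exact absurd hx h1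
    | coe x =>
      obtain ⟨y, rfl, h⟩ := WithTop.le_coe_iff.mp h
      exact h2.1 (WithTop.coe_le_coe.mp h) hx

def top2 : TopologicalSpace (WithTop J) := .ofClosed {C | Cl2 C}
  (.inr ⟨id, ⟨isLowerSet_empty, fun _ h => h 0⟩, 0, fun _ _ => id⟩) (fun A h => by
    by_cases h1 : ∀ C ∈ A, C = univ
    · exact .inl (sInter_eq_univ.mpr h1)
    · push Not at h1
      obtain ⟨C, h1, h2⟩ := h1
      obtain ⟨h3, -, n, h4⟩ := (h h1).resolve_left h2
      refine .inr ⟨fun h => h3 (h C h1), ⟨fun x y h5 h6 D hD => Cl2.lower (h hD)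
        (WithTop.coe_le_coe.mpr h5) (h6 D hD), fun m h5 D hD => ?_⟩, n, fun j hj h => h4 j hj (h C h1)⟩
      rcases h hD with rfl | h6
      exacts [trivial, h6.2.1.2 m fun k => h5 k D hD])
  fun C hC D hD => by
    rcases hC with rfl | ⟨h1, h2, n, h3⟩
    · exact .inl (univ_union _)
    rcases hD with rfl | ⟨h4, h5, n', h6⟩
    · exact .inl (union_univ _)
    exact .inr ⟨fun h => h.elim h1 h4, h2.union h5, max n n', fun j hj h =>
      h.elim (h3 j (le_of_max_le_left hj)) (h6 j (le_of_max_le_right hj))⟩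

theorem cl2 {C : Set (WithTop J)} : IsClosed[top2] C ↔ Cl2 C := by
  letI := top2
  rw [← isOpen_compl_iff]
  exact (show Cl2 Cᶜᶜ ↔ _ by rw [compl_compl])

theorem Cl2.Iic (x : WithTop J) : Cl2 (Iic x) := by
  induction x using WithTop.recTopCoe with
  | top => exact .inl Iic_top
  | coe x =>
    refine .inr ⟨by simp, by simpa using Cl.Iic x, x.1 + 1, fun j hj h => ?_⟩
    rcases WithTop.coe_le_coe.mp h with h | h
    · exact absurd (h.1 ▸ hj : x.1 + 1 ≤ x.1) (by omega)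
    · exact absurd h.2 not_top_lt

theorem wf2 : WFPoset (WithTop J) := by
  letI := top2
  have h0 : ∀ K : Set (WithTop J), (∀ x, (∀ U, IsOpen U → K ⊆ U → x ∈ U) → x ∈ K) →
      IsUpperSet K := fun K h x y h1 h2 => h y fun U hU h3 =>
    isLowerSet_compl.mp (cl2.mp hU.isClosed_compl).lower h1 (h3 h2)
  refine ⟨top2, fun x => (closure_minimal (singleton_subset_iff.mpr self_mem_Iic)
    (cl2.mpr (.Iic x))).antisymm fun y h => (cl2.mp isClosed_closure).lower (show y ≤ x from h)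
      (subset_closure rfl), ⟨fun x y h => le_antisymm ((h.mem_closed_iff (cl2.mpr (.Iic y))).mpr
        self_mem_Iic) ((h.mem_closed_iff (cl2.mpr (.Iic x))).mp self_mem_Iic)⟩,
          fun F h1 h2 h3 U hU h4 => ?_⟩
  by_contra! h5
  choose x h6 h7 using fun K hK => not_subset.mp (h5 K hK)
  rcases cl2.mp hU.isClosed_compl with h | ⟨h8, h9, n, h10⟩
  · exact h.superset (mem_univ ⊤) (h4 fun K hK => h0 K (h3 K hK).2 le_top (h6 K hK))
  obtain ⟨K, hK⟩ := h1
  obtain ⟨N, hN⟩ := (h3 K hK).1.elim_directed_family_closed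
    (fun N => Uᶜ ∩ {x | ∀ a : J, x = a → n + N ≤ a.1}) (fun N => cl2.mpr (.inr ⟨fun h => h8 h.1,
      ⟨fun a b h h' => ⟨h9.1 h h'.1, by
        rintro _ ⟨⟩
        have := h'.2 a rfl
        rcases h with h | h
        · exact h.1 ▸ this
        · exact absurd h'.1 (by
            convert h10 a.1 (le_of_add_le_left this)
            exact Prod.ext rfl h.1)⟩, fun m h => ⟨h9.2 m fun k => (h k).1, by
              rintro _ ⟨⟩
              exact (h 0).2 (mk _ m (0 : ℕ)) rfl⟩⟩, n, fun j hj h => h10 j hj h.1⟩))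
    (eq_empty_of_forall_notMem fun y hy => by
      induction y using WithTop.recTopCoe with
      | top => exact h8 (mem_iInter.mp hy.2 0).1
      | coe a => exact absurd ((mem_iInter.mp hy.2 (a.1 + 1)).2 a rfl) (by omega))
    (Antitone.directed_ge fun _ _ h y hy => ⟨hy.1, fun a ha => le_trans (by omega) (hy.2 a ha)⟩)
  have h11 : ∀ M, ∃ L ∈ F, L ⊆ K ∧ ∀ a : J, a.1 < M → ↑a ∈ L → ↑a ∈ U := fun M => by
    induction M with
    | zero => exact ⟨K, hK, subset_rfl, by simp⟩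
    | succ M ih =>
      obtain ⟨L, a1, a2, a3⟩ := ih
      by_cases a4 : ∃ k, ((mk _ M k : J) : WithTop J) ∉ U
      · obtain ⟨L', a5, a6⟩ : ∃ L' ∈ F,
            ((mk _ M (sSup {k | ((mk _ M k : J) : WithTop J) ∉ U}) : J) : WithTop J) ∉ L' := by
          by_contra! a5
          exact h9.sup a4 (fun _ h => h) (h4 a5)
        obtain ⟨L'', a7, a8, a9⟩ := h2 L a1 L' a5
        refine ⟨L'', a7, a8.trans a2, fun a ha h => (Nat.lt_succ_iff_lt_or_eq.mp ha).elim
          (fun h' => a3 a h' (a8 h)) fun h' => by_contra fun h'' => a6 (h0 _ (h3 _ a5).2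
            (WithTop.coe_le_coe.mpr (.inl ⟨h', le_sSup (by subst h'; exact h'')⟩)) (a9 h))⟩
      · push Not at a4
        exact ⟨L, a1, a2, fun a ha h => (Nat.lt_succ_iff_lt_or_eq.mp ha).elim
          (fun h' => a3 a h' h) fun h' => by subst h'; exact a4 a.2⟩
  obtain ⟨L, a1, a2, a3⟩ := h11 (n + N)
  refine hN.subset ⟨a2 (h6 L a1), h7 L a1, fun a ha => le_of_not_gt fun h => h7 L a1 ?_⟩
  exact ha ▸ a3 a h (ha ▸ h6 L a1)

theorem lub_top {D : Set (WithTop J)} (h1 : D.Nonempty) (h2 : DirectedOn (· ≤ ·) D) (h : ⊤ ∉ D) :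
    ∃ s : J, IsLUB D s := by
  lift D to Set J using fun x hx => ne_of_mem_of_not_mem hx h
  obtain ⟨s, hs⟩ := dcpo D (by simpa using h1) (by simpa [DirectedOn] using h2)
  refine ⟨s, forall_mem_image.mpr fun a ha => WithTop.coe_le_coe.mpr (hs.1 ha), fun u hu => ?_⟩
  induction u using WithTop.recTopCoe with
  | top => exact le_top
  | coe u => exact WithTop.coe_le_coe.mpr (hs.2 fun a ha => WithTop.coe_le_coe.mp (hu ⟨a, ha, rfl⟩))

theorem dcpo2 : Dcpo (WithTop J) := fun D h1 h2 => by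
  by_cases h : ⊤ ∈ D
  · exact ⟨⊤, IsGreatest.isLUB ⟨h, fun _ _ => le_top⟩⟩
  · exact (lub_top h1 h2 h).elim fun s hs => ⟨_, hs⟩

theorem notwf : ¬ WellFiltered (WithTop J × Unit) (scott _) := fun ⟨_, h⟩ => by
  letI := scott (WithTop J × Unit)
  let y : ℕ → ℕ∞ → WithTop J × Unit := fun j k => ((mk _ j k : J), ())
  let K : ℕ → Set (WithTop J × Unit) := fun n => {z | z.1 = ⊤ ∨ ∃ j ≥ n, z = y j ⊤}
  have h1 : ∀ n, IsUpperSet (K n) := by
    rintro n z ⟨w, ⟨⟩⟩ h (h1 | ⟨j, h1, rfl⟩)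
    · exact .inl (top_le_iff.mp (h1 ▸ h.1))
    · induction w using WithTop.recTopCoe with
      | top => exact .inl rfl
      | coe w =>
        rcases WithTop.coe_le_coe.mp h.1 with h | h
        · exact .inr ⟨j, h1, congrArg (fun a : J => ((a : WithTop J), ())) (Prod.ext h.1.symm
            (top_le_iff.mp h.2))⟩
        · exact absurd h.2 not_top_lt
  have h2 : ∀ n, IsCompact (K n) := fun n => isCompact_iff_ultrafilter_le_nhds'.mpr fun f hf => by
    by_cases h2 : ↑f ≤ 𝓝 (y n ⊤)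
    · exact ⟨_, .inr ⟨n, le_rfl, rfl⟩, h2⟩
    obtain ⟨U, h3, h4, h5⟩ : ∃ U, y n ⊤ ∈ U ∧ IsOpen U ∧ U ∉ f := by simpa [le_nhds_iff] using h2
    obtain ⟨_, ⟨k, rfl⟩, h6⟩ := h4.2 (range fun k : ℕ => y n k) _ (range_nonempty _)
      (directedOn_range.mpr (Monotone.directed_le fun _ _ h => ⟨WithTop.coe_le_coe.mpr
        (mk_le (Nat.cast_le.mpr h)), le_rfl⟩)) ⟨forall_mem_range.mpr fun _ =>
          ⟨WithTop.coe_le_coe.mpr (mk_le le_top), le_rfl⟩, fun ⟨u, _⟩ hu => ⟨by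
            induction u using WithTop.recTopCoe with
            | top => exact le_top
            | coe u => exact WithTop.coe_le_coe.mpr ((chain n).2.2 (forall_mem_range.mpr fun k =>
                WithTop.coe_le_coe.mp (hu ⟨k, rfl⟩).1)), le_rfl⟩⟩ h3
    obtain ⟨z, h7, rfl⟩ := f.eq_pure_of_finite_mem (((finite_Iic k).image (y · ⊤)).subset (by
      rintro z ⟨h7 | ⟨j, -, rfl⟩, h8⟩
      · exact absurd (h4.1 (show y n k ≤ z from ⟨h7 ▸ le_top, le_rfl⟩) h6) h8
      · exact ⟨j, le_of_not_gt fun h => h8 (h4.1 (show y n k ≤ y j ⊤ from ⟨WithTop.coe_le_coe.mpr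
          (.inr ⟨rfl, Nat.cast_lt.mpr h⟩), le_rfl⟩) h6), rfl⟩))
      (inter_mem hf (Ultrafilter.compl_mem_iff_notMem.mpr h5))
    exact ⟨z, h7.1, pure_le_nhds z⟩
  obtain ⟨_, ⟨n, rfl⟩, h3⟩ := h (range K) (range_nonempty _) (directedOn_range.mpr
    (Antitone.directed_ge fun _ _ h z => Or.imp_right fun ⟨j, h1, h2⟩ => ⟨j, h.trans h1, h2⟩))
    (forall_mem_range.mpr fun n => ⟨h2 n, fun x hx => by_contra fun h3 => hx _
      (cl_Iic x).isOpen_compl (fun z hz h => h3 (h1 n h hz)) self_mem_Iic⟩) {z | z.1 = ⊤}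
    ⟨fun _ _ h h1 => top_le_iff.mp (h1 ▸ h.1), fun D s a1 a2 a3 a4 => by
      by_contra! a5
      obtain ⟨s', hs⟩ := lub_top (a1.image Prod.fst) (a2.mono_comp monotone_fst)
        fun ⟨z, h, h'⟩ => a5.subset ⟨h, h'⟩
      exact WithTop.coe_ne_top ((hs.unique (isLUB_prod.mp a3).1).trans a4)⟩ fun z hz => by
      by_contra a1
      obtain ⟨j, -, rfl⟩ := (hz _ ⟨0, rfl⟩).resolve_left a1
      obtain ⟨i, a2, a3⟩ := (hz _ ⟨j + 1, rfl⟩).resolve_left a1
      have : j = i := congrArg Prod.fst (WithTop.coe_injective (congrArg Prod.fst a3))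
      omega
  exact WithTop.coe_ne_top (h3 (show y n ⊤ ∈ K n from .inr ⟨n, le_rfl, rfl⟩))

theorem wfUnit : WFPoset Unit := ⟨⊥, fun x => Subsingleton.eq_univ_of_nonempty
  (@Nonempty.closure _ ⊥ _ (singleton_nonempty x)) |>.trans (Subsingleton.eq_univ_of_nonempty
    nonempty_Iic).symm, ⟨fun _ _ _ => rfl⟩, fun F h1 _ _ U _ h => by
      by_contra! h2
      obtain ⟨x, -, hx⟩ := not_subset.mp (h2 _ h1.some_mem)
      exact hx (h fun K hK => (not_subset.mp (h2 K hK)).elim fun _ h => h.1)⟩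

end Pool.Agent.H31.WF
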