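import Mathlib

namespace Pool.Agent.H31.WF

open Set

universe u

/-- the Scott topology of a poset -/
def scott (P : Type u) [Preorder P] : TopologicalSpace P where
  IsOpen U := IsUpperSet U ∧
    ∀ D s, D.Nonempty → DirectedOn (· ≤ ·) D → IsLUB D s → s ∈ U → (D ∩ U).Nonempty
  isOpen_univ := ⟨isUpperSet_univ, fun _ _ h _ _ _ => by simpa using h⟩
  isOpen_inter U V hU hV := ⟨hU.1.inter hV.1, fun D s h0 h1 h2 h3 => by
    obtain ⟨a, h4, h5⟩ := hU.2 D s h0 h1 h2 h3.1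
    obtain ⟨b, h6, h7⟩ := hV.2 D s h0 h1 h2 h3.2
    obtain ⟨c, h8, h9, h10⟩ := h1 a h4 b h6
    exact ⟨c, h8, hU.1 h9 h5, hV.1 h10 h7⟩⟩
  isOpen_sUnion S hS := ⟨isUpperSet_sUnion fun U h => (hS U h).1, fun D s h0 h1 h2 ⟨U, h3, h4⟩ =>
    ((hS U h3).2 D s h0 h1 h2 h4).imp fun _ h => ⟨h.1, U, h3, h.2⟩⟩

def Dcpo (P : Type u) [Preorder P] : Prop :=
  ∀ D : Set P, D.Nonempty → DirectedOn (· ≤ ·) D → ∃ s, IsLUB D s

/-- `(X, t)` is a well-filtered `T₀` space -/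
def WellFiltered (X : Type u) (t : TopologicalSpace X) : Prop :=
  T0Space X ∧ ∀ F : Set (Set X), F.Nonempty → DirectedOn (· ⊇ ·) F →
    (∀ K ∈ F, IsCompact K ∧ ∀ x, (∀ U, IsOpen U → K ⊆ U → x ∈ U) → x ∈ K) →
      ∀ U, IsOpen U → ⋂₀ F ⊆ U → ∃ K ∈ F, K ⊆ U

/-- some compatible topology is well-filtered -/
def WFPoset (P : Type u) [Preorder P] : Prop :=
  ∃ t : TopologicalSpace P, (∀ x : P, closure {x} = Iic x) ∧ WellFiltered P t

end Pool.Agent.H31.WF
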