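import Pool.Agent.H31.WPDefs

namespace Pool.Agent.H31.WP

open Set Filter Topology

universe u v

variable {H : Type u} [Group H] [TopologicalSpace H] [IsTopologicalGroup H] {G : Subgroup H}

theorem gd {C : Set G} (hC : WeaklyPseudocompact.{u, v} C) {U : Set H} (hU : IsOpen U)
    (h1 : 1 ∈ U) (hUC : ∀ g : G, ↑g ∈ U → g ∈ C) {h : H} (hh : h ∈ closure (G : Set H))
    (hhU : h ∈ U) (R : ℕ → Set H) (hR : ∀ n, IsOpen (R n) ∧ h ∈ R n) :
    ∃ g : G, ∀ n, ↑g ∈ R n := by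
  obtain ⟨K, _, e, _, _, he, hG⟩ := hC
  let Gd : Set K × Set H → Prop := fun p => IsOpen p.1 ∧ IsOpen p.2 ∧
    ∀ g : G, ↑g ∈ p.2 → ∃ y : C, y.1 = g ∧ e y ∈ p.1
  have h2 : ∀ p, Gd p → ∀ g : G, ↑g ∈ p.2 → ∀ T, IsOpen T → ↑g ∈ T → ∃ p', Gd p' ∧ ↑g ∈ p'.2 ∧
      p'.2 ⊆ T ∧ closure p'.1 ⊆ p.1 ∧ ∀ y : C, e y ∈ p'.1 → (y.1 : H) ∈ T := by
    rintro ⟨O, A⟩ ⟨h2, h3, h4⟩ g hg T hT hgT
    obtain ⟨y, rfl, h5⟩ := h4 g hg
    obtain ⟨O₁, h6, h7⟩ := he.isInducing.isOpen_iff.mp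
      (hT.preimage (continuous_subtype_val.comp (continuous_subtype_val (p := (· ∈ C)))))
    obtain ⟨O', h8, h9, h10⟩ := isCompact_singleton.exists_isOpen_closure_subset
      ((h2.inter h6).mem_nhdsSet.mpr (singleton_subset_iff.mpr ⟨h5, h7.superset hgT⟩))
    obtain ⟨A₁, h11, h12⟩ := (IsInducing.subtypeVal.comp
      (IsInducing.subtypeVal (t := C))).isOpen_iff.mp (h8.preimage he.continuous)
    refine ⟨(O', A ∩ T ∩ A₁), ⟨h8, (h3.inter hT).inter h11, fun g' hg' => ?_⟩,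
      ⟨⟨hg, hgT⟩, h12.superset (h9 rfl)⟩, fun _ h => h.1.2, h10.trans inter_subset_left,
      fun z hz => h7.subset (h10 (subset_closure hz)).2⟩
    obtain ⟨z, rfl, -⟩ := h4 g' hg'.1.1
    exact ⟨z, rfl, h12.subset hg'.2⟩
  let Iv : (Set K × Set H) × Set K × Set H → Prop := fun s => Gd s.1 ∧ Gd s.2 ∧
    (∀ b ∈ s.2.2, b * h⁻¹ ∈ s.1.2) ∧ ∃ g : G, ↑g ∈ s.2.2
  have h3 : ∀ n (s : {s // Iv s}), ∃ s' : {s // Iv s}, closure s'.1.1.1 ⊆ s.1.1.1 ∧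
      closure s'.1.2.1 ⊆ s.1.2.1 ∧ ∀ y z : C, e y ∈ s'.1.1.1 → e z ∈ s'.1.2.1 →
        (y.1 : H)⁻¹ * z.1 ∈ R n := by
    rintro n ⟨⟨p, q⟩, h3, h4, h5, b₀, h6⟩
    obtain ⟨a, ⟨h7, h8⟩, h9⟩ := mem_closure_iff.mp (G.topologicalClosure.mul_mem
      (subset_closure b₀.2) (G.topologicalClosure.inv_mem hh)) _ (h3.2.1.inter
        (h4.2.1.preimage (continuous_mul_right h))) ⟨h5 _ h6, by simpa using h6⟩
    obtain ⟨T₁, T₂, h10, h11, h12, h13, h14⟩ := isOpen_prod_iff.mp ((hR n).1.preimage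
      (by fun_prop : Continuous fun z : H × H => z.1⁻¹ * z.2)) a (a * h) (by simpa using (hR n).2)
    obtain ⟨p', h15, h16, -, h17, h18⟩ := h2 p h3 ⟨a, h9⟩ h7 T₁ h10 h12
    have h19 := h15.2.1.preimage (continuous_mul_right h⁻¹)
    obtain ⟨b, ⟨⟨h20, h21⟩, h22⟩, h23⟩ := mem_closure_iff.mp (G.topologicalClosure.mul_mem
      (subset_closure h9) hh) _ ((h4.2.1.inter h11).inter h19) ⟨⟨h8, h13⟩, by simpa using h16⟩
    obtain ⟨q', h24, h25, h26, h27, h28⟩ := h2 q h4 ⟨b, h23⟩ h20 _ (h11.inter h19) ⟨h21, h22⟩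
    exact ⟨⟨(p', q'), h15, h24, fun c hc => (h26 hc).2, _, h25⟩, h17, h27, fun y z hy hz =>
      h14 (mk_mem_prod (h18 y hy) (h28 z hz).1)⟩
  choose F h4 h5 h6 using h3
  obtain ⟨b, h7, h8⟩ := mem_closure_iff.mp hh _ (hU.inter (hU.preimage (continuous_mul_right h⁻¹)))
    ⟨hhU, by simpa using h1⟩
  let s : ℕ → {s // Iv s} := fun n => Nat.rec ⟨((univ, U), univ, U ∩ (· * h⁻¹) ⁻¹' U),
    ⟨isOpen_univ, hU, fun g hg => ⟨⟨g, hUC g hg⟩, rfl, trivial⟩⟩, ⟨isOpen_univ, hU.inter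
      (hU.preimage (continuous_mul_right _)), fun g hg => ⟨⟨g, hUC g hg.1⟩, rfl, trivial⟩⟩,
    fun _ hb => hb.2, ⟨b, h8⟩, h7⟩ F n
  have h9 : ∀ O : ℕ → Set K, (∀ n, IsOpen (O n)) → (∀ n, (O n).Nonempty) →
      (∀ n, closure (O (n + 1)) ⊆ O n) → ∃ y, ∀ n, e y ∈ O n := fun O h9 h10 h11 => by
    obtain ⟨x, hx⟩ := IsCompact.nonempty_iInter_of_sequence_nonempty_isCompact_isClosed
      (fun n => closure (O n)) (fun n => (h11 n).trans subset_closure)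
      (fun n => (h10 n).closure) isClosed_closure.isCompact fun _ => isClosed_closure
    exact (hG _ (IsGδ.iInter_of_isOpen h9) ⟨x, mem_iInter.mpr fun n =>
      h11 n (mem_iInter.mp hx _)⟩).imp fun _ => mem_iInter.mp
  have h10 : ∀ n, (s n).1.2.1.Nonempty := fun n => by
    obtain ⟨g, hg⟩ := (s n).2.2.2.2
    obtain ⟨y, -, hy⟩ := (s n).2.2.1.2.2 g hg
    exact ⟨_, hy⟩
  obtain ⟨y, hy⟩ := h9 (fun n => (s n).1.1.1) (fun n => (s n).2.1.1) (fun n => by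
    obtain ⟨g, hg⟩ := (s n).2.2.2.2
    obtain ⟨a, h11, h12⟩ := mem_closure_iff.mp (G.topologicalClosure.mul_mem
      (subset_closure g.2) (G.topologicalClosure.inv_mem hh)) _ (s n).2.1.2.1 ((s n).2.2.2.1 _ hg)
    obtain ⟨y, -, hy⟩ := (s n).2.1.2.2 ⟨a, h12⟩ h11
    exact ⟨_, hy⟩) fun n => h4 n _
  obtain ⟨z, hz⟩ := h9 (fun n => (s n).1.2.1) (fun n => (s n).2.2.1.1) h10 fun n => h5 n _
  exact ⟨y.1⁻¹ * z.1, fun n => h6 n (s n) y z (hy (n + 1)) (hz (n + 1))⟩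

theorem main [LocallyCompactSpace H] {U : Set G} (hU : IsOpen U) (h1 : 1 ∈ U)
    (h : WeaklyPseudocompact.{u, v} (closure U)) :
    ∃ V : Set G, IsOpen V ∧ 1 ∈ V ∧ Pseudocompact (closure V) := by
  obtain ⟨U', hU', rfl⟩ := isOpen_induced_iff.mp hU
  obtain ⟨L, h2, h3, h4⟩ := local_compact_nhds (hU'.mem_nhds h1)
  refine ⟨Subtype.val ⁻¹' interior L, isOpen_interior.preimage continuous_subtype_val,
    mem_interior_iff_mem_nhds.mpr h2, fun f hf => ?_⟩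
  by_contra hcon
  push Not at hcon
  have h5 : ∀ n : ℕ, ∃ (O : Set H) (x : G), IsOpen O ∧ ↑x ∈ O ∧ O ⊆ interior L ∧
      ∀ y : closure (Subtype.val ⁻¹' interior L : Set G), (y.1 : H) ∈ O → n < |f y| := fun n => by
    obtain ⟨y, hy⟩ := hcon n
    obtain ⟨O, h5, h6⟩ := (IsInducing.subtypeVal.comp IsInducing.subtypeVal).isOpen_iff.mp
      (isOpen_lt (continuous_const (y := (n : ℝ))) hf.abs)
    obtain ⟨x, h7, h8⟩ := mem_closure_iff.mp y.2 _ (h5.preimage continuous_subtype_val)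
      (h6.superset hy)
    exact ⟨O ∩ interior L, x, h5.inter isOpen_interior, ⟨h7, h8⟩, inter_subset_right,
      fun z hz => h6.subset hz.1⟩
  choose O x h5 h6 h7 h8 using h5
  obtain ⟨c, h9, h10⟩ := h4.exists_mapClusterPt (f := atTop) (u := fun n => (x n : H))
    (tendsto_principal.mpr (Eventually.of_forall fun n => interior_subset (h7 n (h6 n))))
  have h11 : c ∈ closure (G : Set H) := isClosed_closure.mem_of_mapClusterPt h10
    (Eventually.of_forall fun n => subset_closure (x n).2)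
  obtain ⟨g, hg⟩ := gd h hU' h1 (fun g hg => subset_closure hg) h11 (h3 h9)
    (fun n => (fun u => x n * (c⁻¹ * u)) ⁻¹' O n) fun n =>
      ⟨(h5 n).preimage (by fun_prop), by simpa using h6 n⟩
  have h12 : ∀ T : Set H, IsOpen T → (g : H) ∈ T →
      ∃ᶠ n in atTop, ∃ v : G, (v : H) ∈ T ∧ (v : H) ∈ O n := fun T hT hgT => by
    refine (mapClusterPt_iff_frequently.mp h10 _ ((hT.preimage (continuous_mul_right
      (c⁻¹ * g))).mem_nhds (by simpa using hgT))).mono fun n hn => ?_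
    obtain ⟨v, h12, h13⟩ := mem_closure_iff.mp (G.topologicalClosure.mul_mem (subset_closure
      (x n).2) (G.topologicalClosure.mul_mem (G.topologicalClosure.inv_mem h11)
        (subset_closure g.2))) _ (hT.inter (h5 n)) ⟨hn, hg n⟩
    exact ⟨⟨v, h13⟩, h12⟩
  have h13 : g ∈ closure (Subtype.val ⁻¹' interior L : Set G) := mem_closure_iff.mpr fun T hT hgT => by
    obtain ⟨T', h13, rfl⟩ := isOpen_induced_iff.mp hT
    obtain ⟨n, v, h14, h15⟩ := (h12 T' h13 hgT).exists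
    exact ⟨v, h14, h7 n h15⟩
  obtain ⟨T, h14, h15⟩ := (IsInducing.subtypeVal.comp IsInducing.subtypeVal).isOpen_iff.mp
    (isOpen_lt hf.abs (continuous_const (y := |f ⟨g, h13⟩| + 1)))
  have h20 : (g : H) ∈ T := (Set.ext_iff.mp h15 ⟨g, h13⟩).mpr
    (show |f ⟨g, h13⟩| < |f ⟨g, h13⟩| + 1 from lt_add_one _)
  obtain ⟨n, ⟨v, h16, h17⟩, h18⟩ := ((h12 T h14 h20).and_eventually
    (tendsto_natCast_atTop_atTop.eventually_ge_atTop (|f ⟨g, h13⟩| + 1))).exists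
  have h19 : |f ⟨v, subset_closure (h7 n h17)⟩| < |f ⟨g, h13⟩| + 1 :=
    (Set.ext_iff.mp h15 ⟨v, subset_closure (h7 n h17)⟩).mp h16
  linarith [h8 n ⟨v, subset_closure (h7 n h17)⟩ h17]

end Pool.Agent.H31.WP
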