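import Mathlib

namespace Pool.Agent.H31.WP

universe u v

/-- every continuous real function is bounded -/
def Pseudocompact (X : Type u) [TopologicalSpace X] : Prop :=
  ∀ f : X → ℝ, Continuous f → ∃ M, ∀ x, |f x| ≤ M

/-- `X` is `G_δ`-dense in some Hausdorff compactification (taken in universe `v`) -/
def WeaklyPseudocompact (X : Type u) [TopologicalSpace X] : Prop :=
  ∃ (K : Type v) (_ : TopologicalSpace K) (e : X → K), CompactSpace K ∧ T2Space K ∧
    IsDenseEmbedding e ∧ ∀ S : Set K, IsGδ S → S.Nonempty → ∃ x, e x ∈ S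

end Pool.Agent.H31.WP
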