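import Pool.Agent.H31.Wij

namespace Pool.Agent.H31.Wij

open Set Metric Topology Filter TopologicalSpace

noncomputable def rho (z w : ℕ → ℕ) : ℝ := @dist _ PiNat.dist z w

lemma rho_self (z : ℕ → ℕ) : rho z z = 0 := PiNat.dist_self z
lemma rho_comm (z w : ℕ → ℕ) : rho z w = rho w z := PiNat.dist_comm z w
lemma rho_nonneg (z w : ℕ → ℕ) : 0 ≤ rho z w := PiNat.dist_nonneg z w
lemma rho_le_one (z w : ℕ → ℕ) : rho z w ≤ 1 := PiNat.dist_le_one z w
lemma rho_tri (x y z : ℕ → ℕ) : rho x z ≤ rho x y + rho y z := PiNat.dist_triangle x y z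
lemma rho_eq {x y : ℕ → ℕ} (h : rho x y = 0) : x = y := PiNat.eq_of_dist_eq_zero x y h
lemma rho_le {x y : ℕ → ℕ} {n : ℕ} : rho x y ≤ (1 / 2) ^ n ↔ ∀ i < n, x i = y i := by
  rw [← PiNat.mem_cylinder_iff]; exact PiNat.mem_cylinder_iff_dist_le.symm
lemma rho_lt {x y : ℕ → ℕ} {n : ℕ} (h : rho x y < (1 / 2) ^ n) : x n = y n :=
  PiNat.apply_eq_of_dist_lt h le_rfl

inductive Pt
  | c (F : Finset ℝ) (w : ℕ → ℕ)
  | r (x : ℝ) (z : ℕ → ℕ)

open Classical in
noncomputable def dd : Pt → Pt → ℝ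
  | .c F w, .c G v => if F = G ∧ w = v then 0 else 2
  | .c F w, .r x z => 1 + if x ∈ F then 1 else rho z w
  | .r x z, .c F w => 1 + if x ∈ F then 1 else rho z w
  | .r x z, .r y v => if x = y then rho z v else 2

lemma dd_comm (a b : Pt) : dd a b = dd b a := by
  cases a <;> cases b <;> simp only [dd]
  · congr 1; simp [eq_comm]
  · rename_i x z y v
    by_cases h : x = y
    · simp [h, rho_comm]
    · simp [h, Ne.symm h]

lemma dd_tri (a b e : Pt) : dd a e ≤ dd a b + dd b e := by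
  cases a with
  | c F w =>
    cases b with
    | c G v =>
      cases e with
      | c K u =>
        simp only [dd]
        split_ifs <;> first | linarith | (exfalso; grind)
      | r y u =>
        simp only [dd]
        have := rho_nonneg u v
        have := rho_le_one u w
        by_cases h : F = G ∧ w = v
        · obtain ⟨rfl, rfl⟩ := h; simp
        · rw [if_neg h]; split_ifs <;> linarith
    | r x z =>
      cases e with
      | c K u =>
        simp only [dd]
        have := rho_nonneg z w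
        have := rho_nonneg z u
        split_ifs <;> linarith
      | r y u =>
        simp only [dd]
        have := rho_nonneg z w
        have := rho_nonneg z u
        have := rho_le_one u w
        have := rho_tri u z w
        have := rho_comm u z
        by_cases h : x = y
        · subst h; rw [if_pos rfl]; split_ifs <;> linarith
        · rw [if_neg h]; split_ifs <;> linarith
  | r x z =>
    cases b with
    | c G v =>
      cases e with
      | c K u =>
        simp only [dd]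
        have := rho_nonneg z v
        have := rho_le_one z u
        by_cases h : G = K ∧ v = u
        · obtain ⟨rfl, rfl⟩ := h; simp
        · rw [if_neg h]; split_ifs <;> linarith
      | r y u =>
        simp only [dd]
        have := rho_nonneg z v
        have := rho_nonneg u v
        have := rho_le_one z u
        split_ifs <;> linarith
    | r y v =>
      cases e with
      | c K u =>
        simp only [dd]
        have := rho_nonneg z v
        have := rho_nonneg v u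
        have := rho_le_one z u
        have := rho_tri z v u
        by_cases h : x = y
        · subst h; rw [if_pos rfl]; split_ifs <;> linarith
        · rw [if_neg h]; split_ifs <;> linarith
      | r t u =>
        simp only [dd]
        have := rho_nonneg z v
        have := rho_nonneg v u
        have := rho_le_one z u
        have := rho_tri z v u
        split_ifs <;> first | linarith | (exfalso; grind)

noncomputable instance : MetricSpace Pt where
  dist := dd
  dist_self a := by cases a <;> simp [dd, rho_self]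
  dist_comm := dd_comm
  dist_triangle := dd_tri
  eq_of_dist_eq_zero := by
    intro a b h
    cases a with
    | c F w =>
      cases b with
      | c G v =>
        simp only [dd] at h
        split_ifs at h with h1
        · rw [h1.1, h1.2]
        · norm_num at h
      | r x z =>
        simp only [dd] at h
        have := rho_nonneg z w
        split_ifs at h <;> linarith
    | r x z =>
      cases b with
      | c G v =>
        simp only [dd] at h
        have := rho_nonneg z v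
        split_ifs at h <;> linarith
      | r y v =>
        simp only [dd] at h
        split_ifs at h with h1
        · rw [h1, rho_eq h]
        · norm_num at h

lemma dist_def (a b : Pt) : dist a b = dd a b := rfl

lemma lt_one_c {F : Finset ℝ} {w : ℕ → ℕ} {a : Pt} (h : dist (Pt.c F w) a < 1) : a = .c F w := by
  cases a with
  | c G v =>
    simp only [dist_def, dd] at h
    split_ifs at h with h1
    · rw [h1.1, h1.2]
    · norm_num at h
  | r x z =>
    simp only [dist_def, dd] at h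
    have := rho_nonneg z w
    split_ifs at h <;> linarith

lemma lt_one_r {x : ℝ} {z : ℕ → ℕ} {a : Pt} (h : dist (Pt.r x z) a < 1) :
    ∃ v, a = .r x v ∧ dist (Pt.r x z) a = rho z v := by
  cases a with
  | c G v =>
    simp only [dist_def, dd] at h
    have := rho_nonneg z v
    split_ifs at h <;> linarith
  | r y v =>
    simp only [dist_def, dd] at h ⊢
    split_ifs at h with h1
    · exact ⟨v, by rw [h1], by simp [h1]⟩
    · norm_num at h

lemma dist_rr (x : ℝ) (z v : ℕ → ℕ) : dist (Pt.r x z) (Pt.r x v) = rho z v := by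
  simp [dist_def, dd]

def cyl (x : ℝ) (z : ℕ → ℕ) (n : ℕ) : Set Pt := {a | ∃ v, a = .r x v ∧ ∀ i < n, v i = z i}

lemma isOpen_cyl (x : ℝ) (z : ℕ → ℕ) (n : ℕ) : IsOpen (cyl x z n) := by
  rw [Metric.isOpen_iff]
  rintro _ ⟨v, rfl, hv⟩
  refine ⟨(1 / 2) ^ n, by positivity, fun a ha => ?_⟩
  rw [mem_ball, dist_comm] at ha
  obtain ⟨u, rfl, e⟩ := lt_one_r (ha.trans_le (pow_le_one₀ (by norm_num) (by norm_num)))
  rw [e] at ha
  exact ⟨u, rfl, fun i hi => by rw [← hv i hi, rho_le.1 ha.le i hi]⟩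

theorem baseCompact_pt : BaseCompact Pt := by
  classical
  refine ⟨inferInstance, {S | (∃ F w, S = {Pt.c F w}) ∨ ∃ x z n, S = cyl x z n}, ?_, ?_⟩
  · apply isTopologicalBasis_of_isOpen_of_nhds
    · rintro _ (⟨F, w, rfl⟩ | ⟨x, z, n, rfl⟩)
      · rw [Metric.isOpen_iff]
        rintro _ rfl
        exact ⟨1, one_pos, fun a ha => lt_one_c (by rwa [mem_ball, dist_comm] at ha)⟩
      · exact isOpen_cyl x z n
    · intro a U ha hU
      cases a with
      | c F w => exact ⟨_, Or.inl ⟨F, w, rfl⟩, rfl, singleton_subset_iff.2 ha⟩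
      | r x z =>
        obtain ⟨ε, hε, hs⟩ := Metric.isOpen_iff.1 hU _ ha
        obtain ⟨n, hn⟩ := exists_pow_lt_of_lt_one hε (show (1 / 2 : ℝ) < 1 by norm_num)
        refine ⟨_, Or.inr ⟨x, z, n, rfl⟩, ⟨z, rfl, fun _ _ => rfl⟩, ?_⟩
        rintro _ ⟨v, rfl, hv⟩
        apply hs
        rw [mem_ball, dist_rr]
        exact (rho_le.2 hv).trans_lt hn
  · intro C hC hcen
    have two : ∀ S ∈ C, ∀ T ∈ C, (S ∩ T).Nonempty := fun S hS T hT => by
      have := hcen {S, T} (by rintro _ (rfl | rfl) <;> assumption) (toFinite _)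
      rwa [sInter_pair] at this
    suffices h : ∃ p, ∀ S ∈ C, p ∈ S by
      obtain ⟨p, hp⟩ := h
      exact ⟨p, mem_iInter₂.2 fun S hS => subset_closure (hp S hS)⟩
    by_cases h1 : ∃ F w, {Pt.c F w} ∈ C
    · obtain ⟨F, w, h⟩ := h1
      refine ⟨.c F w, fun S hS => ?_⟩
      obtain ⟨_, rfl, h2⟩ := two _ h S hS
      exact h2
    push Not at h1
    have hC' : ∀ S ∈ C, ∃ x z n, S = cyl x z n := fun S hS => by
      rcases hC hS with ⟨F, w, rfl⟩ | h
      · exact absurd hS (h1 F w)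
      · exact h
    rcases C.eq_empty_or_nonempty with rfl | ⟨S0, hS0⟩
    · exact ⟨.r 0 0, by simp⟩
    obtain ⟨x0, z0, n0, rfl⟩ := hC' S0 hS0
    let p : ℕ → ℕ := fun i =>
      if h : ∃ k, ∃ x z n, cyl x z n ∈ C ∧ i < n ∧ z i = k then h.choose else 0
    refine ⟨.r x0 p, fun S hS => ?_⟩
    obtain ⟨x, z, n, rfl⟩ := hC' S hS
    obtain ⟨_, ⟨v, rfl, -⟩, ⟨v', e, -⟩⟩ := two _ hS0 _ hS
    have hx : x0 = x := by injection e
    refine ⟨p, by rw [hx], fun i hi => ?_⟩
    have hex : ∃ k, ∃ x z n, cyl x z n ∈ C ∧ i < n ∧ z i = k := ⟨_, x, z, n, hS, hi, rfl⟩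
    have hp : p i = hex.choose := dif_pos hex
    obtain ⟨x', z', n', h2, h3, h4⟩ := hex.choose_spec
    obtain ⟨_, ⟨u, rfl, hu⟩, ⟨u', e', hu'⟩⟩ := two _ h2 _ hS
    have hu2 : u = u' := by injection e'
    rw [hp, ← h4, ← hu i h3, hu2, hu' i hi]

lemma witness {X : Type*} [MetricSpace X] {A : CL X} {U : Set (CL X)} (hU : U ∈ 𝓝 A) :
    ∃ P : Set X, P.Finite ∧ P ⊆ A.1 ∧ ∃ δ > 0, ∀ C : CL X, C.1 ⊆ A.1 →
      (∀ p ∈ P, ∃ c ∈ C.1, dist p c < δ) → C ∈ U := by
  obtain ⟨T, hT, ε, hε, hTU⟩ := nhds_fin hU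
  have : ∀ x : X, ∃ a ∈ A.1, dist x a < infDist x A.1 + ε / 2 := fun x =>
    (infDist_lt_iff A.2.2).1 (lt_add_of_pos_right (infDist x A.1) (half_pos hε))
  choose g hg1 hg2 using this
  refine ⟨g '' T, hT.image g, by rintro _ ⟨x, -, rfl⟩; exact hg1 x, ε / 2, half_pos hε,
    fun C hC h => hTU C fun x hx => ?_⟩
  obtain ⟨c, hc, hd⟩ := h _ ⟨x, hx, rfl⟩
  have a1 := infDist_le_infDist_of_subset (x := x) hC C.2.2
  have a2 := infDist_le_dist_of_mem (x := x) hc
  have a3 := dist_triangle x (g x) c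
  have := hg2 x
  rw [abs_lt]; constructor <;> linarith

def RR : Set Pt := {a | ∃ x z, a = .r x z}

lemma isClosed_RR : IsClosed RR := by
  rw [← isOpen_compl_iff, Metric.isOpen_iff]
  intro a ha
  cases a with
  | c F w =>
    refine ⟨1, one_pos, fun b hb => ?_⟩
    rw [lt_one_c (show dist (Pt.c F w) b < 1 by rwa [mem_ball, dist_comm] at hb)]
    exact ha
  | r x z => exact absurd ⟨x, z, rfl⟩ ha

def reg : Pt → ℝ
  | .c _ _ => 0
  | .r x _ => x

theorem not_baseCompact_cl : ¬ BaseCompact (CL Pt) := by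
  classical
  rintro ⟨-, B, hB, hcen⟩
  let R0 : CL Pt := ⟨RR, isClosed_RR, ⟨.r 0 0, 0, 0, rfl⟩⟩
  have h1 : ∀ x : ℝ, ∃ S ∈ B, S ⊆ {A | infDist (Pt.r x 0) A.1 < 1 / 2} ∧ ∃ m : ℕ,
      ∀ C : CL Pt, C.1 ⊆ RR →
        (∀ (y : ℝ) (z : ℕ → ℕ), ∃ v : ℕ → ℕ, Pt.r y v ∈ C.1 ∧ ∀ i < m, z i = v i) → C ∈ S := by
    intro x
    obtain ⟨S, hS, hm, hs⟩ := hB.exists_subset_of_mem_open
      (show R0 ∈ {A : CL Pt | infDist (Pt.r x 0) A.1 < 1 / 2} from by
        show infDist (Pt.r x 0) RR < 1 / 2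
        rw [infDist_zero_of_mem (show Pt.r x 0 ∈ RR from ⟨x, 0, rfl⟩)]; norm_num)
      (isOpen_lt (cont _) continuous_const)
    obtain ⟨P, -, hP, δ, hδ, hw⟩ := witness ((hB.isOpen hS).mem_nhds hm)
    obtain ⟨m, hm⟩ := exists_pow_lt_of_lt_one hδ (show (1 / 2 : ℝ) < 1 by norm_num)
    refine ⟨S, hS, hs, m, fun C hC h => hw C hC fun p hp => ?_⟩
    obtain ⟨y, z, rfl⟩ := hP hp
    obtain ⟨v, hv, hv2⟩ := h y z
    exact ⟨_, hv, by rw [dist_rr]; exact (rho_le.2 hv2).trans_lt hm⟩
  choose S hSB hSs mm hmm using h1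
  obtain ⟨m, hm⟩ : ∃ m, ¬ {x | mm x = m}.Countable := by
    by_contra hcon
    push Not at hcon
    have : (univ : Set ℝ) = ⋃ m, {x | mm x = m} := by ext x; simp
    exact Cardinal.not_countable_real (this ▸ countable_iUnion hcon)
  obtain ⟨e, he⟩ := exists_surjective_nat (Fin (m + 2) → ℕ)
  let w : ℕ → ℕ → ℕ := fun k i => if h : i < m + 2 then e k ⟨i, h⟩ else 0
  have hw : ∀ z : ℕ → ℕ, ∃ k, rho z (w k) ≤ (1 / 2) ^ (m + 2) := fun z => by
    obtain ⟨k, hk⟩ := he fun i => z i
    exact ⟨k, rho_le.2 fun i hi => by simp [w, hi, hk]⟩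
  have h2 : ∀ (A : Set Pt) (c : Pt), ∃ (G : Finset ℝ) (T : Set (CL Pt)),
      ∀ hA : IsClosed A ∧ A.Nonempty, 1 + (1 / 2) ^ (m + 1) < infDist c A →
      T ∈ B ∧ T ⊆ {C | 1 + (1 / 2) ^ (m + 1) < infDist c C.1} ∧
      ∀ C : CL Pt, C.1 ⊆ A → (∀ a ∈ A, reg a ∈ G → a ∈ C.1) → C ∈ T := by
    intro A c
    by_cases h : (IsClosed A ∧ A.Nonempty) ∧ 1 + (1 / 2) ^ (m + 1) < infDist c A
    · obtain ⟨T, hT, hm, hs⟩ := hB.exists_subset_of_mem_open
        (show (⟨A, h.1⟩ : CL Pt) ∈ {C : CL Pt | 1 + (1 / 2) ^ (m + 1) < infDist c C.1} from h.2)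
        (isOpen_lt continuous_const (cont _))
      obtain ⟨P, hPf, hP, δ, hδ, hw⟩ := witness ((hB.isOpen hT).mem_nhds hm)
      refine ⟨(hPf.image reg).toFinset, T, fun _ _ => ⟨hT, hs, fun C hC hh => hw C hC ?_⟩⟩
      intro p hp
      exact ⟨p, hh p (hP hp) (by simp; exact ⟨p, hp, rfl⟩), by simpa using hδ⟩
    · exact ⟨∅, ∅, fun a b => absurd ⟨a, b⟩ h⟩
  choose G T hGT using h2
  let bl : Finset ℝ → ℕ → Set Pt := fun F k => ball (Pt.c F (w k)) (1 + (1 / 2) ^ m)
  let s : ℕ → Finset ℝ × Set Pt := fun k =>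
    Nat.rec (motive := fun _ => Finset ℝ × Set Pt) ({0}, RR \ bl {0} 0)
      (fun k a => (a.1 ∪ G a.2 (Pt.c a.1 (w k)),
        a.2 \ bl (a.1 ∪ G a.2 (Pt.c a.1 (w k))) (k + 1))) k
  let F : ℕ → Finset ℝ := fun k => (s k).1
  let A : ℕ → Set Pt := fun k => (s k).2
  have F0 : F 0 = {0} := rfl
  have A0 : A 0 = RR \ bl (F 0) 0 := rfl
  have Fs : ∀ k, F (k + 1) = F k ∪ G (A k) (Pt.c (F k) (w k)) := fun k => rfl
  have As : ∀ k, A (k + 1) = A k \ bl (F (k + 1)) (k + 1) := fun k => rfl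
  clear_value F A
  have hFm : Monotone F := monotone_nat_of_le_succ fun k => by
    rw [Fs]; exact Finset.subset_union_left
  have hAm : Antitone A := antitone_nat_of_succ_le fun k => by rw [As]; exact diff_subset
  have hAi : ∀ k a, a ∈ A k ↔ a ∈ RR ∧ ∀ i ≤ k, a ∉ bl (F i) i := by
    intro k a
    induction k with
    | zero => rw [A0]; simp
    | succ k ih =>
      rw [As, mem_diff, ih]
      constructor
      · rintro ⟨⟨a1, a2⟩, a3⟩
        refine ⟨a1, fun i hi => ?_⟩
        rcases Nat.of_le_succ hi with h | rfl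
        · exact a2 i h
        · exact a3
      · rintro ⟨a1, a2⟩
        exact ⟨⟨a1, fun i hi => a2 i (Nat.le_succ_of_le hi)⟩, a2 _ le_rfl⟩
  have hbl : ∀ F' k y z, Pt.r y z ∈ bl F' k → y ∉ F' ∧ z m = w k m := by
    intro F' k y z h
    simp only [bl, mem_ball, dist_def, dd] at h
    have : (1 / 2 : ℝ) ^ m ≤ 1 := pow_le_one₀ (by norm_num) (by norm_num)
    split_ifs at h with h1
    · linarith
    · exact ⟨h1, rho_lt (by linarith)⟩
  have hAc : ∀ k, IsClosed (A k) ∧ (A k).Nonempty := by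
    intro k
    constructor
    · induction k with
      | zero => rw [A0]; exact isClosed_RR.sdiff isOpen_ball
      | succ k ih => rw [As]; exact ih.sdiff isOpen_ball
    · refine ⟨.r 0 0, (hAi _ _).2 ⟨⟨0, 0, rfl⟩, fun i _ h => (hbl _ _ _ _ h).1 ?_⟩⟩
      exact hFm (Nat.zero_le i) (by rw [F0]; simp)
  have hlt : (1 / 2 : ℝ) ^ (m + 1) < (1 / 2) ^ m := by
    rw [pow_succ]; have : (0 : ℝ) < (1 / 2) ^ m := by positivity
    linarith
  have hlt2 : (1 / 2 : ℝ) ^ (m + 2) < (1 / 2) ^ (m + 1) := by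
    rw [pow_succ _ (m + 1)]; have : (0 : ℝ) < (1 / 2) ^ (m + 1) := by positivity
    linarith
  have hinf : ∀ k, 1 + (1 / 2) ^ (m + 1) < infDist (Pt.c (F k) (w k)) (A k) := by
    intro k
    refine lt_of_lt_of_le (b := 1 + (1 / 2) ^ m) (by linarith) ?_
    rw [le_infDist (hAc k).2]
    intro a ha
    have := ((hAi k a).1 ha).2 k le_rfl
    simp only [bl, mem_ball, not_lt] at this
    rwa [dist_comm]
  have hT := fun k => hGT (A k) (Pt.c (F k) (w k)) (hAc k) (hinf k)
  obtain ⟨x, hxm, hxF⟩ : ∃ x, mm x = m ∧ ∀ k, x ∉ F k := by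
    by_contra hcon
    push Not at hcon
    apply hm
    refine (countable_iUnion fun k => (F k).countable_toSet).mono fun x hx => ?_
    obtain ⟨k, hk⟩ := hcon x hx
    exact mem_iUnion.2 ⟨k, hk⟩
  have m1 : ∀ K, (⟨A K, hAc K⟩ : CL Pt) ∈ S x := by
    intro K
    apply hmm x
    · exact fun a ha => ((hAi K a).1 ha).1
    · intro y z
      let N := (Finset.range (K + 1)).sup (fun i => w i m) + 1
      refine ⟨Function.update z m N, (hAi _ _).2 ⟨⟨_, _, rfl⟩, fun i hi h => ?_⟩, fun i hi => ?_⟩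
      · have h3 := (hbl _ _ _ _ h).2
        rw [Function.update_self] at h3
        have : w i m ≤ (Finset.range (K + 1)).sup (fun i => w i m) :=
          Finset.le_sup (f := fun i => w i m) (Finset.mem_range.2 (Nat.lt_succ_of_le hi))
        omega
      · rw [Function.update_of_ne (by omega)]
  have m2 : ∀ k K, k ≤ K → (⟨A K, hAc K⟩ : CL Pt) ∈ T (A k) (Pt.c (F k) (w k)) := by
    intro k K hk
    apply (hT k).2.2 _ (hAm hk)
    intro a ha hG
    obtain ⟨⟨y, z, rfl⟩, h2⟩ := (hAi k a).1 ha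
    refine (hAi K _).2 ⟨⟨y, z, rfl⟩, fun i _ h => ?_⟩
    rcases le_or_gt i k with hik | hik
    · exact h2 i hik h
    · apply (hbl _ _ _ _ h).1
      apply hFm (Nat.succ_le_of_lt hik)
      rw [Nat.succ_eq_add_one, Fs]
      exact Finset.mem_union_right _ hG
  have hfin := hcen (insert (S x) (range fun k => T (A k) (Pt.c (F k) (w k)))) ?_ ?_
  · obtain ⟨C, hC⟩ := hfin
    rw [mem_iInter₂] at hC
    have c1 : infDist (Pt.r x 0) C.1 ≤ 1 / 2 :=
      closure_minimal (t := {C : CL Pt | infDist (Pt.r x 0) C.1 ≤ 1 / 2})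
        (fun D hD => show infDist (Pt.r x 0) D.1 ≤ 1 / 2 from le_of_lt (hSs x hD)) (isClosed_le (cont _) continuous_const)
        (hC _ (mem_insert _ _))
    obtain ⟨a, ha, hd⟩ := (infDist_lt_iff C.2.2).1 (c1.trans_lt (show (1 / 2 : ℝ) < 1 by norm_num))
    obtain ⟨z, rfl, -⟩ := lt_one_r hd
    obtain ⟨k, hk⟩ := hw z
    have c2 : 1 + (1 / 2) ^ (m + 1) ≤ infDist (Pt.c (F k) (w k)) C.1 :=
      closure_minimal (t := {C : CL Pt | 1 + (1 / 2) ^ (m + 1) ≤ infDist (Pt.c (F k) (w k)) C.1})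
        (fun D hD => show 1 + (1 / 2) ^ (m + 1) ≤ infDist (Pt.c (F k) (w k)) D.1 from
          le_of_lt ((hT k).2.1 hD)) (isClosed_le continuous_const (cont _))
        (hC _ (mem_insert_of_mem _ ⟨k, rfl⟩))
    have c3 := infDist_le_dist_of_mem (x := Pt.c (F k) (w k)) ha
    simp only [dist_def, dd, if_neg (hxF k)] at c3
    linarith
  · rintro _ (rfl | ⟨k, rfl⟩)
    · exact hSB x
    · exact (hT k).1
  · intro t ht htf
    have : ∀ U ∈ t, ∃ k, ∀ K ≥ k, (⟨A K, hAc K⟩ : CL Pt) ∈ U := by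
      intro U hU
      rcases ht hU with rfl | ⟨k, rfl⟩
      · exact ⟨0, fun K _ => m1 K⟩
      · exact ⟨k, fun K hK => m2 k K hK⟩
    have h3 : ∀ᶠ K in atTop, ∀ U ∈ t, (⟨A K, hAc K⟩ : CL Pt) ∈ U :=
      (eventually_all_finite htf).2 fun U hU => eventually_atTop.2 (this U hU)
    obtain ⟨K, hK⟩ := h3.exists
    exact ⟨_, hK⟩

end Pool.Agent.H31.Wij
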