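import Mathlib

namespace Pool.Agent.H31.Wij

open Set Metric Topology

/-- The hyperspace of nonempty closed subsets of `X`. -/
def CL (X : Type*) [TopologicalSpace X] := {A : Set X // IsClosed A ∧ A.Nonempty}

/-- The Wijsman topology: the weakest topology making every `A ↦ d(x, A)` continuous. -/
noncomputable instance wijsman (X : Type*) [MetricSpace X] : TopologicalSpace (CL X) :=
  ⨅ x : X, TopologicalSpace.induced (fun A : CL X => infDist x A.1) inferInstance

/-- A family of nonempty open sets such that every nonempty open set contains a member. -/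
def IsPiBase {Y : Type*} [TopologicalSpace Y] (P : Set (Set Y)) : Prop :=
  (∀ V ∈ P, IsOpen V ∧ V.Nonempty) ∧ ∀ U : Set Y, IsOpen U → U.Nonempty → ∃ V ∈ P, V ⊆ U

/-- Every nonempty open set contains the closure of a nonempty open set. -/
def QuasiRegular (Y : Type*) [TopologicalSpace Y] : Prop :=
  ∀ U : Set Y, IsOpen U → U.Nonempty → ∃ V : Set Y, IsOpen V ∧ V.Nonempty ∧ closure V ⊆ U

/-- Pseudocompleteness (Oxtoby). -/
def Pseudocomplete (Y : Type*) [TopologicalSpace Y] : Prop :=
  QuasiRegular Y ∧ ∃ P : ℕ → Set (Set Y), (∀ n, IsPiBase (P n)) ∧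
    ∀ V : ℕ → Set Y, (∀ n, V n ∈ P n) → (∀ n, closure (V (n + 1)) ⊆ V n) → (⋂ n, V n).Nonempty

/-- A regular filter base: a nonempty, downward directed family of nonempty sets in which each
member contains the closure of a member. -/
def IsRegularFilterBase {Y : Type*} [TopologicalSpace Y] (F : Set (Set Y)) : Prop :=
  F.Nonempty ∧ (∀ S ∈ F, S.Nonempty) ∧ (∀ S ∈ F, ∀ T ∈ F, ∃ K ∈ F, K ⊆ S ∩ T) ∧
    ∀ S ∈ F, ∃ T ∈ F, closure T ⊆ S

/-- Subcompactness (de Groot). -/
def Subcompact (Y : Type*) [TopologicalSpace Y] : Prop :=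
  T3Space Y ∧ ∃ B : Set (Set Y), TopologicalSpace.IsTopologicalBasis B ∧
    ∀ F : Set (Set Y), F ⊆ B → IsRegularFilterBase F → (⋂₀ F).Nonempty

/-- Base-compactness. -/
def BaseCompact (Y : Type*) [TopologicalSpace Y] : Prop :=
  T3Space Y ∧ ∃ B : Set (Set Y), TopologicalSpace.IsTopologicalBasis B ∧
    ∀ C : Set (Set Y), C ⊆ B → (∀ t : Set (Set Y), t ⊆ C → t.Finite → (⋂₀ t).Nonempty) →
      (⋂ S ∈ C, closure S).Nonempty

/-- Player alpha has a winning stationary strategy in the strong Choquet game: the answer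
`σ y U` depends only on the last move `(y, U)` of beta, it is a legal answer to every legal move,
and alpha wins every play in which she follows it. -/
def StronglyAlphaFavorable (Y : Type*) [TopologicalSpace Y] : Prop :=
  ∃ σ : Y → Set Y → Set Y,
    (∀ (y : Y) (U : Set Y), IsOpen U → y ∈ U → IsOpen (σ y U) ∧ y ∈ σ y U ∧ σ y U ⊆ U) ∧
    ∀ (y : ℕ → Y) (U : ℕ → Set Y), (∀ n, IsOpen (U n) ∧ y n ∈ U n) →
      (∀ n, U (n + 1) ⊆ σ (y n) (U n)) → (⋂ n, σ (y n) (U n)).Nonempty

end Pool.Agent.H31.Wij
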