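import Mathlib

set_option autoImplicit false

open Filter Topology Set

namespace Pool.Agent.H31.ZSet

abbrev I : Type := Set.Icc (0 : ℝ) 1
abbrev S : Type := {f : C(I, I) // Function.Surjective ⇑f}

theorem modulus (F : S → I → ℝ) (hF : Continuous fun z : S × I => F z.1 z.2) (e : S → ℝ)
    (he : Continuous e) (he0 : ∀ p, 0 < e p) :
    ∃ r : S → ℝ, Continuous r ∧ ∀ p, 0 < r p ∧
      ∀ x y : I, |(x : ℝ) - y| ≤ r p → |F p x - F p y| ≤ e p := by
  let F' : C(S, C(I, ℝ)) := ContinuousMap.curry ⟨fun z : S × I => F z.1 z.2, hF⟩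
  obtain ⟨r, hr⟩ := exists_continuous_forall_mem_convex_of_local_const (X := S) (E := ℝ)
    (t := fun p => {r | 0 < r ∧ ∀ x y : I, |(x : ℝ) - y| ≤ r → |F p x - F p y| ≤ e p})
    (fun p => by
      rw [convex_iff_ordConnected]
      exact ⟨fun r hr s hs t ht => ⟨hr.1.trans_le ht.1, fun x y h => hs.2 x y (h.trans ht.2)⟩⟩)
    (fun p => by
      have hu : UniformContinuous (F' p) := CompactSpace.uniformContinuous_of_continuous
        (F' p).continuous
      obtain ⟨d, hd, hd'⟩ := Metric.uniformContinuous_iff_le.1 hu (e p / 4) (by linarith [he0 p])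
      refine ⟨d, ?_⟩
      have h1 : ∀ᶠ q in 𝓝 p, dist (F' q) (F' p) < e p / 8 :=
        Metric.tendsto_nhds.1 (F'.continuous.tendsto p) _ (by linarith [he0 p])
      have h2 : ∀ᶠ q in 𝓝 p, e p / 2 < e q :=
        (he.tendsto p).eventually (lt_mem_nhds (by linarith [he0 p]))
      filter_upwards [h1, h2] with q h1 h2
      refine ⟨hd, fun x y hxy => ?_⟩
      have a1 : |F p x - F p y| ≤ e p / 4 := hd' (a := x) (b := y) hxy
      have a2 : |F q x - F p x| ≤ dist (F' q) (F' p) := ContinuousMap.dist_apply_le_dist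
        (f := F' q) (g := F' p) x
      have a3 : |F q y - F p y| ≤ dist (F' q) (F' p) := ContinuousMap.dist_apply_le_dist
        (f := F' q) (g := F' p) y
      rw [abs_le] at *
      constructor <;> linarith [a1.1, a1.2, a2.1, a2.2, a3.1, a3.2])
  exact ⟨r, r.continuous, hr⟩

theorem trap (u : I → ℝ) (hu : Continuous u) (δ η ρ : ℝ) (hδ : 0 < δ) (hη : 0 < η)
    (hρ : η * δ ≤ ρ / 2) (hm : ∀ x y : I, |(x : ℝ) - y| ≤ ρ → |u x - u y| ≤ δ / 2)
    (h1 : u 1 ≤ 0) (z : I) (hz : 0 < z) (hz' : δ ≤ u z) :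
    ∃ a b : I, 0 < a ∧ a < b ∧ ∀ x : I, a ≤ x → x ≤ b → |u x| ≤ δ ∧
      a + η * δ / 2 ≤ x + η * u x ∧ (b = 1 ∨ x + η * u x ≤ b - η * δ / 2) := by
  obtain ⟨a, ha, ha'⟩ := (isClosed_le (continuous_const (y := δ)) hu).isCompact.exists_isGreatest
    ⟨z, hz'⟩
  have hB : IsClosed {x : I | a ≤ x ∧ (u x ≤ -δ ∨ x = 1)} :=
    (isClosed_le continuous_const continuous_id).inter
      ((isClosed_le hu continuous_const).union isClosed_singleton)
  obtain ⟨b, ⟨hb, hb1⟩, hb'⟩ := hB.isCompact.exists_isLeast ⟨1, a.2.2, Or.inr rfl⟩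
  have ha0 : δ ≤ u a := ha
  have hab : a < b := by
    refine lt_of_le_of_ne hb ?_
    rintro rfl
    rcases hb1 with h | h
    · linarith
    · rw [h] at ha0
      linarith
  have hin : Ioo a b ⊆ {x | |u x| ≤ δ} := by
    intro x hx
    have a1 : ¬ δ ≤ u x := fun h => not_le.2 hx.1 (ha' h)
    have a2 : ¬ u x ≤ -δ := fun h => not_le.2 hx.2 (hb' ⟨hx.1.le, Or.inl h⟩)
    exact abs_le.2 ⟨(not_le.1 a2).le, (not_le.1 a1).le⟩
  have hcl := (isClosed_le hu.abs continuous_const).closure_subset_iff.2 hin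
  rw [closure_Ioo hab.ne] at hcl
  refine ⟨a, b, hz.trans_le (ha' hz'), hab, fun x hax hxb => ?_⟩
  have hx : |u x| ≤ δ := hcl ⟨hax, hxb⟩
  have hax' : (a : ℝ) ≤ x := hax
  have hxb' : (x : ℝ) ≤ b := hxb
  have hx' := abs_le.1 hx
  have hp := mul_pos hη hδ
  refine ⟨hx, ?_, ?_⟩
  · by_cases h : (x : ℝ) - a ≤ ρ
    · have := abs_le.1 (hm x a (by rw [abs_of_nonneg (by linarith)]; exact h))
      nlinarith [this.1]
    · nlinarith [hx'.1]
  · rcases hb1 with hb1 | hb1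
    · right
      by_cases h : (b : ℝ) - x ≤ ρ
      · have := abs_le.1 (hm b x (by rw [abs_of_nonneg (by linarith)]; exact h))
        nlinarith [this.1]
      · nlinarith [hx'.2]
    · exact Or.inl hb1

theorem not_closure (g : S) (a b : I) (ha : 0 < a) (hab : a < b) (m : ℝ) (hm : 0 < m)
    (h : ∀ x : I, a ≤ x → x ≤ b → a + m ≤ g.1 x ∧ (b = 1 ∨ (g.1 x : ℝ) ≤ b - m)) :
    g ∉ closure {h : S | ∀ U V : Set I, IsOpen U → IsOpen V → U.Nonempty → V.Nonempty →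
      ∃ n : ℕ, 0 < n ∧ ((⇑h.1)^[n] '' U ∩ V).Nonempty} := by
  intro hg
  obtain ⟨k, hk, hd⟩ := Metric.mem_closure_iff.1 hg m hm
  have hmap : MapsTo k.1 (Icc a b) (Icc a b) := by
    intro x hx
    have h1 : |(g.1 x : ℝ) - k.1 x| ≤ dist g k :=
      ContinuousMap.dist_apply_le_dist (f := g.1) (g := k.1) x
    have h2 := h x hx.1 hx.2
    have h3 := abs_le.1 h1
    constructor
    · show (a : ℝ) ≤ k.1 x
      linarith [h2.1, h3.2]
    · rcases h2.2 with h4 | h4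
      · rw [h4]
        exact (k.1 x).2.2
      · show (k.1 x : ℝ) ≤ b
        linarith [h3.1]
  obtain ⟨n, -, y, ⟨x, hx, rfl⟩, hy⟩ := hk (Ioo a b) (Iio a) isOpen_Ioo isOpen_Iio
    (nonempty_Ioo.2 hab) ⟨0, ha⟩
  exact not_le.2 (mem_Iio.1 hy) (hmap.iterate n (Ioo_subset_Icc_self hx)).1

noncomputable def kk (γ : ℝ) (x : I) : I := projIcc 0 1 zero_le_one ((x - γ) / (1 - 2 * γ))

theorem kk_close (γ : ℝ) (h0 : 0 < γ) (h1 : γ ≤ 1 / 4) (x : I) : |(kk γ x : ℝ) - x| ≤ 2 * γ := by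
  have h2 := abs_projIcc_sub_projIcc (a := (0 : ℝ)) (b := 1) zero_le_one
    (c := (x - γ) / (1 - 2 * γ)) (d := x)
  rw [projIcc_val] at h2
  refine h2.trans ?_
  have h3 : 0 < 1 - 2 * γ := by linarith
  have h4 : (x - γ) / (1 - 2 * γ) - x = γ * (2 * x - 1) / (1 - 2 * γ) := by
    rw [eq_div_iff h3.ne', sub_mul, div_mul_cancel₀ _ h3.ne']
    ring
  have h5 := x.2.1
  have h6 := x.2.2
  rw [h4, abs_le, le_div_iff₀ h3, div_le_iff₀ h3]
  constructor <;> nlinarith [mul_nonneg h0.le h5, mul_nonneg h0.le (sub_nonneg.2 h6),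
    mul_nonneg h0.le (sub_nonneg.2 h1)]

theorem kk_surj (γ : ℝ) (h0 : 0 < γ) (h1 : γ ≤ 1 / 4) (y : I) :
    ∃ x : I, γ ≤ x ∧ (x : ℝ) ≤ 1 - γ ∧ kk γ x = y := by
  have h3 : 0 < 1 - 2 * γ := by linarith
  have h5 := y.2.1
  have h6 := y.2.2
  have a1 : γ ≤ γ + (1 - 2 * γ) * y := by nlinarith
  have a2 : γ + (1 - 2 * γ) * y ≤ 1 - γ := by nlinarith
  refine ⟨⟨γ + (1 - 2 * γ) * y, by linarith, by linarith⟩, a1, a2, ?_⟩
  have : (γ + (1 - 2 * γ) * y - γ) / (1 - 2 * γ) = y := by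
    rw [div_eq_iff h3.ne']
    ring
  simp only [kk]
  rw [this, projIcc_val]

theorem main (ε : S → ℝ) (hε : Continuous ε) (hε0 : ∀ g, 0 < ε g) :
    ∃ φ : S → S, Continuous φ ∧ ∀ g, dist (φ g) g < ε g ∧
      φ g ∉ closure {h : S | ∀ U V : Set I, IsOpen U → IsOpen V → U.Nonempty → V.Nonempty →
        ∃ n : ℕ, 0 < n ∧ ((⇑h.1)^[n] '' U ∩ V).Nonempty} := by
  have hev : Continuous fun z : S × I => z.1.1 z.2 := by fun_prop
  obtain ⟨r, hr, hr'⟩ := modulus (fun p x => (p.1 x : ℝ)) (continuous_subtype_val.comp hev)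
    (fun p => ε p / 4) (by fun_prop) (fun p => by linarith [hε0 p])
  obtain ⟨γ, hγ, hγ0, hγ1, hγ2⟩ : ∃ γ : S → ℝ, Continuous γ ∧ (∀ p, 0 < γ p) ∧
      (∀ p, γ p ≤ 1 / 4) ∧ ∀ p, γ p ≤ r p / 2 :=
    ⟨fun p => min (r p / 2) (1 / 4), by fun_prop,
      fun p => lt_min (by linarith [(hr' p).1]) (by norm_num), fun p => min_le_right _ _,
      fun p => min_le_left _ _⟩
  have hk : Continuous fun z : S × I => kk (γ z.1) z.2 := by
    refine continuous_projIcc.comp (Continuous.div (by fun_prop) (by fun_prop) fun z => ?_)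
    linarith [hγ1 z.1]
  have hf : Continuous fun z : S × I => (z.1.1 (kk (γ z.1) z.2) : ℝ) :=
    continuous_subtype_val.comp (hev.comp (continuous_fst.prodMk hk))
  obtain ⟨u, hu⟩ : ∃ u : S → I → ℝ, ∀ p x, u p x = p.1 (kk (γ p) x) - x := ⟨_, fun _ _ => rfl⟩
  have huc : Continuous fun z : S × I => u z.1 z.2 := by
    simp only [hu]
    exact hf.sub (by fun_prop)
  obtain ⟨δ, hδ, hδ0, hδ1, hδ2⟩ : ∃ δ : S → ℝ, Continuous δ ∧ (∀ p, 0 < δ p) ∧
      (∀ p, δ p ≤ γ p / 2) ∧ ∀ p, δ p ≤ ε p / 8 :=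
    ⟨fun p => min (γ p / 2) (ε p / 8), by fun_prop,
      fun p => lt_min (by linarith [hγ0 p]) (by linarith [hε0 p]), fun p => min_le_left _ _,
      fun p => min_le_right _ _⟩
  obtain ⟨ρ, hρ, hρ'⟩ := modulus u huc (fun p => δ p / 2) (by fun_prop)
    (fun p => by linarith [hδ0 p])
  obtain ⟨η, hη, hη0, hη1, hη2⟩ : ∃ η : S → ℝ, Continuous η ∧ (∀ p, 0 < η p) ∧
      (∀ p, η p ≤ 1) ∧ ∀ p, η p * δ p ≤ ρ p / 2 := by
    refine ⟨fun p => min 1 (ρ p / 2 / δ p), continuous_const.min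
      (Continuous.div (by fun_prop) hδ fun p => (hδ0 p).ne'),
      fun p => lt_min one_pos (div_pos (by linarith [(hρ' p).1]) (hδ0 p)),
      fun p => min_le_left _ _, fun p => ?_⟩
    exact (le_div_iff₀ (hδ0 p)).1 (min_le_right _ _)
  obtain ⟨w, hwc, hw0, hw1, hw2, hw3⟩ : ∃ w : S → I → ℝ,
      (Continuous fun z : S × I => w z.1 z.2) ∧ (∀ p x, 0 ≤ w p x) ∧ (∀ p x, w p x ≤ 1) ∧
      (∀ p x, |u p x| ≤ δ p → w p x = 1) ∧ ∀ p x, 2 * δ p ≤ |u p x| → w p x = 0 := by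
    refine ⟨fun p x => max 0 (min 1 (2 - |u p x| / δ p)), continuous_const.max
      (continuous_const.min (continuous_const.sub (huc.abs.div (by fun_prop)
        fun z => (hδ0 z.1).ne'))), fun p x => le_max_left _ _,
      fun p x => max_le zero_le_one (min_le_left _ _), fun p x h => ?_, fun p x h => ?_⟩
    · have := (div_le_one (hδ0 p)).2 h
      show max 0 (min 1 (2 - |u p x| / δ p)) = 1
      rw [min_eq_left (by linarith), max_eq_right zero_le_one]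
    · have := (le_div_iff₀ (hδ0 p)).2 h
      exact max_eq_left (min_le_of_right_le (by linarith))
  have hc : ∀ p x, 0 ≤ (1 - η p) * w p x ∧ (1 - η p) * w p x ≤ 1 := fun p x =>
    ⟨mul_nonneg (by linarith [hη1 p]) (hw0 p x), by nlinarith [hη0 p, hη1 p, hw0 p x, hw1 p x]⟩
  have hmem : ∀ p x, (p.1 (kk (γ p) x) : ℝ) - (1 - η p) * w p x * u p x ∈ Icc (0 : ℝ) 1 := by
    intro p x
    have a1 := (p.1 (kk (γ p) x)).2.1
    have a2 := (p.1 (kk (γ p) x)).2.2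
    have a3 := x.2.1
    have a4 := x.2.2
    obtain ⟨a5, a6⟩ := hc p x
    rw [hu]
    constructor <;> nlinarith
  let G : C(S × I, I) := ⟨fun z => ⟨_, hmem z.1 z.2⟩,
    Continuous.subtype_mk (hf.sub (Continuous.mul (Continuous.mul (by fun_prop) hwc) huc)) _⟩
  have hG : ∀ p x, (G.curry p x : ℝ) = p.1 (kk (γ p) x) - (1 - η p) * w p x * u p x :=
    fun _ _ => rfl
  have htop : ∀ p : S, ∃ x : I, γ p ≤ x ∧ γ p ≤ u p x ∧ G.curry p x = 1 := by
    intro p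
    obtain ⟨y, hy⟩ := p.2 1
    obtain ⟨x, h1, h2, h3⟩ := kk_surj (γ p) (hγ0 p) (hγ1 p) y
    have h4 : γ p ≤ u p x := by
      rw [hu, h3, hy]
      show _ ≤ 1 - (x : ℝ)
      linarith
    refine ⟨x, h1, h4, Subtype.ext ?_⟩
    rw [hG, hw3 p x (le_trans (by linarith [hδ1 p]) (le_abs_self _)), h3, hy]
    simp
  have hbot : ∀ p : S, ∃ x : I, G.curry p x = 0 := by
    intro p
    obtain ⟨y, hy⟩ := p.2 0
    obtain ⟨x, h1, h2, h3⟩ := kk_surj (γ p) (hγ0 p) (hγ1 p) y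
    have h4 : γ p ≤ - u p x := by
      rw [hu, h3, hy]
      show _ ≤ -(0 - (x : ℝ))
      linarith
    refine ⟨x, Subtype.ext ?_⟩
    rw [hG, hw3 p x (le_trans (by linarith [hδ1 p]) (neg_le_abs _)), h3, hy]
    simp
  have hsurj : ∀ p : S, Function.Surjective (G.curry p) := by
    intro p y
    obtain ⟨x1, -, -, h1⟩ := htop p
    obtain ⟨x0, h0⟩ := hbot p
    refine intermediate_value_univ x0 x1 (G.curry p).continuous ?_
    rw [h0, h1]
    exact ⟨y.2.1, y.2.2⟩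
  refine ⟨fun p => ⟨G.curry p, hsurj p⟩, G.curry.continuous.subtype_mk _, fun p => ⟨?_, ?_⟩⟩
  · show dist (G.curry p) p.1 < ε p
    refine lt_of_le_of_lt ((ContinuousMap.dist_le (C := ε p / 2) (by linarith [hε0 p])).2
      fun x => ?_) (by linarith [hε0 p])
    show |(G.curry p x : ℝ) - p.1 x| ≤ _
    have a1 := abs_le.1 ((hr' p).2 (kk (γ p) x) x
      ((kk_close _ (hγ0 p) (hγ1 p) x).trans (by linarith [hγ2 p])))
    have a2 : |(1 - η p) * w p x * u p x| ≤ 2 * δ p := by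
      by_cases h : 2 * δ p ≤ |u p x|
      · rw [hw3 p x h]
        simp [(hδ0 p).le]
      · rw [abs_mul, abs_of_nonneg (hc p x).1]
        nlinarith [hc p x, abs_nonneg (u p x)]
    have a3 := abs_le.1 a2
    rw [hG, abs_le]
    constructor <;> linarith [a1.1, a1.2, a3.1, a3.2, hδ2 p]
  · obtain ⟨z, h1, h2, -⟩ := htop p
    obtain ⟨a, b, ha, hab, h⟩ := trap (u p) (huc.comp (Continuous.prodMk_right p)) (δ p) (η p)
      (ρ p) (hδ0 p) (hη0 p) (hη2 p) (hρ' p).2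
      (by rw [hu]; exact sub_nonpos.2 (p.1 _).2.2) z ((hγ0 p).trans_le h1)
      (by linarith [hδ1 p, hγ0 p])
    refine not_closure _ a b ha hab (η p * δ p / 2) (half_pos (mul_pos (hη0 p) (hδ0 p)))
      fun x hax hxb => ?_
    obtain ⟨a1, a2, a3⟩ := h x hax hxb
    have : (G.curry p x : ℝ) = x + η p * u p x := by
      rw [hG, hw2 p x a1, hu]
      ring
    show _ ≤ (G.curry p x : ℝ) ∧ (_ ∨ (G.curry p x : ℝ) ≤ _)
    rw [this]
    exact ⟨a2, a3⟩

end Pool.Agent.H31.ZSet
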